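import Mathlib

/-!
# MP_6ea4aa: the length-area lemma (Gross)
-/

set_option autoImplicit false

open Complex Set Filter Topology Metric MeasureTheory

namespace H6ea4aa

/-- the determinant of the multiplication by a complex number -/
theorem gross_det (c : ℂ) :
    ((ContinuousLinearMap.restrictScalars ℝ (c • (1 : ℂ →L[ℂ] ℂ))) : ℂ →L[ℝ] ℂ).det = ‖c‖ ^ 2 := by
  have h1 : (((ContinuousLinearMap.restrictScalars ℝ (c • (1 : ℂ →L[ℂ] ℂ))) : ℂ →L[ℝ] ℂ) :
      ℂ →ₗ[ℝ] ℂ) = Algebra.lmul ℝ ℂ c := by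
    ext
    simp
  rw [ContinuousLinearMap.det, h1, ← Algebra.norm_apply, Algebra.norm_complex_apply,
    Complex.normSq_eq_norm_sq]

/-- the logarithmic length of an interval -/
theorem gross_log {M R : ℝ} (hM : 0 < M) (hMR : M ≤ R) :
    ∫⁻ r in Ioo M R, ENNReal.ofReal (1 / r) = ENNReal.ofReal (Real.log (R / M)) := by
  have hR : 0 < R := hM.trans_le hMR
  rw [← integral_one_div_of_pos hM hR, intervalIntegral.integral_of_le hMR,
    integral_Ioc_eq_integral_Ioo, ofReal_integral_eq_lintegral_ofReal]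
  · have h : IntervalIntegrable (fun r : ℝ => 1 / r) volume M R := by
      apply ContinuousOn.intervalIntegrable
      rw [uIcc_of_le hMR]
      exact continuousOn_const.div continuousOn_id (fun x hx => (hM.trans_le hx.1).ne')
    exact ((intervalIntegrable_iff_integrableOn_Ioo_of_le hMR).mp h)
  · refine (ae_restrict_iff' measurableSet_Ioo).mpr (Eventually.of_forall fun r hr => ?_)
    exact one_div_nonneg.mpr (hM.trans hr.1).le

/-- the area of the round annulus in the logarithmic metric -/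
theorem gross_annulus {M R : ℝ} (hM : 0 < M) (hMR : M ≤ R) :
    ∫⁻ z in {z : ℂ | M < ‖z‖ ∧ ‖z‖ < R}, ENNReal.ofReal (1 / ‖z‖ ^ 2) ≤
      ENNReal.ofReal (2 * Real.pi * Real.log (R / M)) := by
  have hmeas : MeasurableSet {z : ℂ | M < ‖z‖ ∧ ‖z‖ < R} :=
    ((isOpen_lt continuous_const continuous_norm).inter
      (isOpen_lt continuous_norm continuous_const)).measurableSet
  rw [← lintegral_indicator hmeas, ← Complex.lintegral_comp_polarCoord_symm]
  have h1 : ∀ p : ℝ × ℝ, p ∈ polarCoord.target → ENNReal.ofReal p.1 •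
      ({z : ℂ | M < ‖z‖ ∧ ‖z‖ < R}.indicator (fun z => ENNReal.ofReal (1 / ‖z‖ ^ 2))
        (Complex.polarCoord.symm p)) =
      (Ioo M R).indicator (fun r => ENNReal.ofReal (1 / r)) p.1 * 1 := by
    rintro ⟨r, θ⟩ hp
    have hr : 0 < r := hp.1
    have hn : ‖(Complex.polarCoord.symm (r, θ) : ℂ)‖ = r := by
      rw [Complex.norm_polarCoord_symm, abs_of_pos hr]
    by_cases h : r ∈ Ioo M R
    · rw [Set.indicator_of_mem h, Set.indicator_of_mem (show _ ∈ {z : ℂ | M < ‖z‖ ∧ ‖z‖ < R} by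
        show M < ‖_‖ ∧ ‖_‖ < R
        rw [hn]; exact h), hn, mul_one, smul_eq_mul, ← ENNReal.ofReal_mul hr.le]
      congr 1
      field_simp
    · rw [Set.indicator_of_notMem h, Set.indicator_of_notMem, smul_zero, zero_mul]
      intro h'
      have h'' : M < ‖(Complex.polarCoord.symm (r, θ) : ℂ)‖ ∧
        ‖(Complex.polarCoord.symm (r, θ) : ℂ)‖ < R := h'
      rw [hn] at h''
      exact h h''
  rw [setLIntegral_congr_fun (polarCoord.open_target.measurableSet) h1]
  rw [polarCoord_target, Measure.volume_eq_prod, ← Measure.prod_restrict]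
  have hm : Measurable ((Ioo M R).indicator (fun r : ℝ => ENNReal.ofReal (1 / r))) :=
    (Measurable.ennreal_ofReal (by fun_prop)).indicator measurableSet_Ioo
  rw [lintegral_prod_mul (f := fun r => (Ioo M R).indicator (fun r : ℝ => ENNReal.ofReal (1 / r)) r)
    (g := fun _ => 1) hm.aemeasurable (by fun_prop)]
  rw [lintegral_one, Measure.restrict_apply_univ, Real.volume_Ioo]
  have h2 : ∫⁻ r in Ioi (0 : ℝ), (Ioo M R).indicator (fun r : ℝ => ENNReal.ofReal (1 / r)) r ≤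
      ENNReal.ofReal (Real.log (R / M)) := by
    calc _ ≤ ∫⁻ r, (Ioo M R).indicator (fun r : ℝ => ENNReal.ofReal (1 / r)) r :=
          setLIntegral_le_lintegral _ _
      _ = _ := by rw [lintegral_indicator measurableSet_Ioo, gross_log hM hMR]
  refine (mul_le_mul' h2 le_rfl).trans ?_
  rw [← ENNReal.ofReal_mul (Real.log_nonneg (by rw [le_div_iff₀ hM]; linarith))]
  apply ENNReal.ofReal_le_ofReal
  rw [sub_neg_eq_add]
  linarith

/-- change of variables: the logarithmic area of the image of an injective map -/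
theorem gross_area {χ : ℂ → ℂ} {s : Set ℂ} {M R : ℝ} (hM : 0 < M) (hMR : M ≤ R)
    (hs : MeasurableSet s) (hχ : ∀ z ∈ s, DifferentiableAt ℂ χ z) (hinj : InjOn χ s)
    (hs2 : ∀ z ∈ s, M < ‖χ z‖ ∧ ‖χ z‖ < R) :
    ∫⁻ z in s, ENNReal.ofReal ((‖deriv χ z‖ / ‖χ z‖) ^ 2) ≤
      ENNReal.ofReal (2 * Real.pi * Real.log (R / M)) := by
  have h1 := lintegral_image_eq_lintegral_abs_det_fderiv_mul volume hs
    (f := χ) (f' := fun z => ContinuousLinearMap.restrictScalars ℝ (deriv χ z • (1 : ℂ →L[ℂ] ℂ)))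
    (fun z hz => by
      have h2 : HasFDerivAt χ (deriv χ z • (1 : ℂ →L[ℂ] ℂ)) z := by
        have h3 := (hχ z hz).hasDerivAt.hasFDerivAt
        have h4 : deriv χ z • (1 : ℂ →L[ℂ] ℂ) =
            ContinuousLinearMap.toSpanSingleton ℂ (deriv χ z) := by
          ext
          simp
        rw [h4]
        exact h3
      exact (h2.restrictScalars ℝ).hasFDerivWithinAt) hinj
    (fun z => ENNReal.ofReal (1 / ‖z‖ ^ 2))
  calc ∫⁻ z in s, ENNReal.ofReal ((‖deriv χ z‖ / ‖χ z‖) ^ 2)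
      = ∫⁻ z in χ '' s, ENNReal.ofReal (1 / ‖z‖ ^ 2) := by
        rw [h1]
        refine lintegral_congr fun z => ?_
        rw [gross_det, ← ENNReal.ofReal_mul (abs_nonneg _), abs_of_nonneg (by positivity)]
        congr 1
        rw [div_pow]
        ring
    _ ≤ ∫⁻ z in {z : ℂ | M < ‖z‖ ∧ ‖z‖ < R}, ENNReal.ofReal (1 / ‖z‖ ^ 2) := by
        apply lintegral_mono_set
        rintro _ ⟨z, hz, rfl⟩
        exact hs2 z hz
    _ ≤ _ := gross_annulus hM hMR

/-- the derivative of the logarithm of the modulus along a curve -/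
theorem gross_deriv {c : ℝ → ℂ} {c' : ℂ} {t : ℝ} (hc : HasDerivAt c c' t) (h0 : c t ≠ 0) :
    HasDerivAt (fun s => Real.log ‖c s‖) ((c' / c t).re) t := by
  have h1 : HasDerivAt (fun s => (c s).re) c'.re t := by
    have := (Complex.reCLM.hasFDerivAt (x := c t)).comp_hasDerivAt t hc
    exact this
  have h2 : HasDerivAt (fun s => (c s).im) c'.im t := by
    have := (Complex.imCLM.hasFDerivAt (x := c t)).comp_hasDerivAt t hc
    exact this
  have h3 : HasDerivAt (fun s => Complex.normSq (c s))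
      (c'.re * (c t).re + (c t).re * c'.re + (c'.im * (c t).im + (c t).im * c'.im)) t := by
    have := (h1.mul h1).add (h2.mul h2)
    refine this.congr_of_eventuallyEq (Eventually.of_forall fun s => ?_)
    simp [Complex.normSq_apply]
  have h4 : Complex.normSq (c t) ≠ 0 := by rwa [Ne, Complex.normSq_eq_zero]
  have h5 := (h3.log h4).const_mul (1 / 2 : ℝ)
  have h6 : (fun s => Real.log ‖c s‖) = fun s => 1 / 2 * Real.log (Complex.normSq (c s)) := by
    funext s
    rw [Complex.normSq_eq_norm_sq, Real.log_pow]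
    push_cast
    ring
  rw [h6]
  refine h5.congr_deriv ?_
  rw [Complex.div_re]
  field_simp
  ring

/-- along a horizontal slice the logarithm of the modulus has to grow -/
theorem gross_slice {D : Set ℂ} {χ : ℂ → ℂ} {a b M R y τ t0 : ℝ} (hM : 0 < M) (hMR : M < R)
    (hy : y ∈ Ioo a b) (hD : IsOpen D) (hχ : DifferentiableOn ℂ χ D)
    (h1 : ∀ t ∈ Ioo 0 τ, (t + y * I : ℂ) ∈ D)
    (h2 : Tendsto (fun t : ℝ => ‖χ (t + y * I)‖) (𝓝[<] τ) atTop)
    (ht0 : t0 ∈ Ioo 0 τ) (h3 : ‖χ (t0 + y * I)‖ ≤ M) :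
    ENNReal.ofReal (Real.log (R / M)) ≤ ∫⁻ t : ℝ,
      ({ζ : ℂ | (ζ ∈ D ∧ a < ζ.im ∧ ζ.im < b) ∧ M < ‖χ ζ‖ ∧ ‖χ ζ‖ < R}.indicator
        (fun ζ => ENNReal.ofReal (‖deriv χ ζ‖ / ‖χ ζ‖))) (t + y * I) := by
  set u : ℝ → ℝ := fun t => ‖χ (t + y * I)‖ with hu
  have hlin : ∀ t : ℝ, HasDerivAt (fun t : ℝ => (t + y * I : ℂ)) 1 t := by
    intro t
    exact (Complex.ofRealCLM.hasDerivAt (x := t)).add_const _
  have hcd : ∀ t ∈ Ioo 0 τ, HasDerivAt (fun t : ℝ => χ (t + y * I)) (deriv χ (t + y * I)) t := by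
    intro t ht
    have h4 : HasDerivAt χ (deriv χ (t + y * I)) (t + y * I) :=
      ((hχ _ (h1 t ht)).differentiableAt (hD.mem_nhds (h1 t ht))).hasDerivAt
    have := h4.comp t (hlin t)
    rwa [mul_one] at this
  have hcont : ContinuousOn u (Ioo 0 τ) := fun t ht =>
    ((hcd t ht).continuousAt.norm).continuousWithinAt
  -- a point where `u` is large
  obtain ⟨t3, ht3, hu3⟩ : ∃ t3 ∈ Ioo t0 τ, R ≤ u t3 := by
    have h4 : ∀ᶠ t in 𝓝[<] τ, R ≤ u t := h2.eventually_ge_atTop R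
    have h5 : ∀ᶠ t in 𝓝[<] τ, t ∈ Ioo t0 τ := Ioo_mem_nhdsLT ht0.2
    obtain ⟨t, ht⟩ := (h4.and h5).exists
    exact ⟨t, ht.2, ht.1⟩
  have hsub03 : Icc t0 t3 ⊆ Ioo 0 τ := fun t ht => ⟨ht0.1.trans_le ht.1, ht.2.trans_lt ht3.2⟩
  have hcont03 : ContinuousOn u (Icc t0 t3) := hcont.mono hsub03
  -- the first point where `u = R`
  obtain ⟨t2, ht2, hu2, hlt2⟩ : ∃ t2 ∈ Icc t0 t3, u t2 = R ∧ ∀ t ∈ Ico t0 t2, u t < R := by
    have hcl : IsClosed (Icc t0 t3 ∩ u ⁻¹' Ici R) :=
      hcont03.preimage_isClosed_of_isClosed isClosed_Icc isClosed_Ici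
    have hne : (Icc t0 t3 ∩ u ⁻¹' Ici R).Nonempty := ⟨t3, ⟨ht3.1.le, le_rfl⟩, hu3⟩
    have hbd : BddBelow (Icc t0 t3 ∩ u ⁻¹' Ici R) := ⟨t0, fun t ht => ht.1.1⟩
    have hmem := hcl.csInf_mem hne hbd
    set t2 := sInf (Icc t0 t3 ∩ u ⁻¹' Ici R) with ht2def
    have hfirst : ∀ t ∈ Ico t0 t2, u t < R := by
      intro t ht
      by_contra hcon
      have : t ∈ Icc t0 t3 ∩ u ⁻¹' Ici R :=
        ⟨⟨ht.1, ht.2.le.trans hmem.1.2⟩, not_lt.mp hcon⟩
      exact absurd (csInf_le hbd this) (not_le.mpr ht.2)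
    refine ⟨t2, hmem.1, ?_, hfirst⟩
    have hiv := intermediate_value_Icc hmem.1.1
      (hcont03.mono (Icc_subset_Icc le_rfl hmem.1.2))
    obtain ⟨t, ht, htR⟩ := hiv (show R ∈ Icc (u t0) (u t2) from ⟨h3.trans hMR.le, hmem.2⟩)
    have : t2 ≤ t := csInf_le hbd ⟨⟨ht.1, ht.2.trans hmem.1.2⟩, htR.ge⟩
    rw [← htR, le_antisymm ht.2 this]
  have hcont02 : ContinuousOn u (Icc t0 t2) := hcont03.mono (Icc_subset_Icc le_rfl ht2.2)
  obtain ⟨t1, ht1, hu1, hlt1⟩ : ∃ t1 ∈ Icc t0 t2, u t1 = M ∧ ∀ t ∈ Ioc t1 t2, M < u t := by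
    have hcl : IsClosed (Icc t0 t2 ∩ u ⁻¹' Iic M) :=
      hcont02.preimage_isClosed_of_isClosed isClosed_Icc isClosed_Iic
    have hne : (Icc t0 t2 ∩ u ⁻¹' Iic M).Nonempty := ⟨t0, ⟨le_rfl, ht2.1⟩, h3⟩
    have hbd : BddAbove (Icc t0 t2 ∩ u ⁻¹' Iic M) := ⟨t2, fun t ht => ht.1.2⟩
    have hmem := hcl.csSup_mem hne hbd
    set t1 := sSup (Icc t0 t2 ∩ u ⁻¹' Iic M) with ht1def
    refine ⟨t1, hmem.1, ?_, ?_⟩
    · have hiv := intermediate_value_Icc hmem.1.2
        (hcont02.mono (Icc_subset_Icc hmem.1.1 le_rfl))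
      obtain ⟨t, ht, htM⟩ := hiv (show M ∈ Icc (u t1) (u t2) from ⟨hmem.2, hu2 ▸ hMR.le⟩)
      have : t ≤ t1 := le_csSup hbd ⟨⟨hmem.1.1.trans ht.1, ht.2⟩, htM.le⟩
      rw [← htM, le_antisymm ht.1 this]
    · intro t ht
      by_contra hcon
      have : t ∈ Icc t0 t2 ∩ u ⁻¹' Iic M :=
        ⟨⟨hmem.1.1.trans ht.1.le, ht.2⟩, not_lt.mp hcon⟩
      exact absurd (le_csSup hbd this) (not_le.mpr ht.1)
  have hsub12 : Icc t1 t2 ⊆ Ioo 0 τ := fun t ht =>
    hsub03 ⟨ht1.1.trans ht.1, ht.2.trans ht2.2⟩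
  have hge : ∀ t ∈ Icc t1 t2, M ≤ u t := by
    intro t ht
    rcases eq_or_lt_of_le ht.1 with h | h
    · rw [← h, hu1]
    · exact (hlt1 t ⟨h, ht.2⟩).le
  have hne0 : ∀ t ∈ Icc t1 t2, χ (t + y * I) ≠ 0 := by
    intro t ht h
    have h4 := hge t ht
    have h5 : u t = 0 := by rw [hu]; simp only [h, norm_zero]
    linarith
  have hderc : ContinuousOn (fun t : ℝ => deriv χ (t + y * I)) (Icc t1 t2) := by
    have h4 : ContinuousOn (deriv χ) D := (hχ.deriv hD).continuousOn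
    refine h4.comp ?_ (fun t ht => h1 t (hsub12 ht))
    exact (by fun_prop : Continuous fun t : ℝ => (t + y * I : ℂ)).continuousOn
  have hχc : ContinuousOn (fun t : ℝ => χ (t + y * I)) (Icc t1 t2) := fun t ht =>
    (hcd t (hsub12 ht)).continuousAt.continuousWithinAt
  have hFc : ContinuousOn (fun t : ℝ => (deriv χ (t + y * I) / χ (t + y * I)).re) (Icc t1 t2) :=
    Complex.continuous_re.comp_continuousOn (hderc.div hχc hne0)
  have hGc : ContinuousOn (fun t : ℝ => ‖deriv χ (t + y * I)‖ / ‖χ (t + y * I)‖) (Icc t1 t2) :=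
    hderc.norm.div hχc.norm (fun t ht => norm_ne_zero_iff.mpr (hne0 t ht))
  have h12 : t1 ≤ t2 := ht1.2
  have hFi : IntervalIntegrable (fun t : ℝ => (deriv χ (t + y * I) / χ (t + y * I)).re)
      volume t1 t2 := by
    apply ContinuousOn.intervalIntegrable
    rwa [uIcc_of_le h12]
  have hGi : IntervalIntegrable (fun t : ℝ => ‖deriv χ (t + y * I)‖ / ‖χ (t + y * I)‖)
      volume t1 t2 := by
    apply ContinuousOn.intervalIntegrable
    rwa [uIcc_of_le h12]
  have hftc : ∫ t in t1..t2, (deriv χ (t + y * I) / χ (t + y * I)).re =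
      Real.log (u t2) - Real.log (u t1) := by
    apply intervalIntegral.integral_eq_sub_of_hasDerivAt (f := fun t => Real.log (u t))
    · intro t ht
      rw [uIcc_of_le h12] at ht
      exact gross_deriv (hcd t (hsub12 ht)) (hne0 t ht)
    · exact hFi
  have hle : Real.log (R / M) ≤ ∫ t in t1..t2, ‖deriv χ (t + y * I)‖ / ‖χ (t + y * I)‖ := by
    rw [Real.log_div (hM.trans hMR).ne' hM.ne', ← hu2, ← hu1, ← hftc]
    apply intervalIntegral.integral_mono_on h12 hFi hGi
    intro t _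
    rw [← norm_div]
    exact Complex.re_le_norm _
  calc ENNReal.ofReal (Real.log (R / M))
      ≤ ENNReal.ofReal (∫ t in t1..t2, ‖deriv χ (t + y * I)‖ / ‖χ (t + y * I)‖) :=
        ENNReal.ofReal_le_ofReal hle
    _ = ∫⁻ t in Ioo t1 t2, ENNReal.ofReal (‖deriv χ (t + y * I)‖ / ‖χ (t + y * I)‖) := by
        rw [intervalIntegral.integral_of_le h12, integral_Ioc_eq_integral_Ioo,
          ofReal_integral_eq_lintegral_ofReal]
        · exact (intervalIntegrable_iff_integrableOn_Ioo_of_le h12).mp hGi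
        · exact Eventually.of_forall fun t => by positivity
    _ = ∫⁻ t, (Ioo t1 t2).indicator
          (fun t : ℝ => ENNReal.ofReal (‖deriv χ (t + y * I)‖ / ‖χ (t + y * I)‖)) t := by
        rw [lintegral_indicator measurableSet_Ioo]
    _ ≤ _ := by
        apply lintegral_mono
        intro t
        by_cases ht : t ∈ Ioo t1 t2
        · rw [Set.indicator_of_mem ht]
          show _ ≤ {ζ | (ζ ∈ D ∧ a < ζ.im ∧ ζ.im < b) ∧ M < ‖χ ζ‖ ∧ ‖χ ζ‖ < R}.indicator
            (fun ζ => ENNReal.ofReal (‖deriv χ ζ‖ / ‖χ ζ‖)) (t + y * I)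
          rw [Set.indicator_of_mem]
          have h4 : (t + y * I : ℂ).im = y := by simp
          refine ⟨⟨h1 t (hsub12 (Ioo_subset_Icc_self ht)), ?_, ?_⟩, hlt1 t ⟨ht.1, ht.2.le⟩,
            hlt2 t ⟨ht1.1.trans ht.1.le, ht.2⟩⟩
          · rw [h4]; exact hy.1
          · rw [h4]; exact hy.2
        · rw [Set.indicator_of_notMem ht]
          exact zero_le

/-- the area of a rectangle -/
theorem gross_rect {T0 a b : ℝ} :
    volume {z : ℂ | (0 < z.re ∧ z.re < T0) ∧ a < z.im ∧ z.im < b} =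
      ENNReal.ofReal T0 * ENNReal.ofReal (b - a) := by
  have h1 := Complex.volume_preserving_equiv_real_prod.measure_preimage
    (s := Ioo (0 : ℝ) T0 ×ˢ Ioo a b)
    ((measurableSet_Ioo.prod measurableSet_Ioo).nullMeasurableSet)
  rw [Measure.volume_eq_prod, Measure.prod_prod, Real.volume_Ioo, Real.volume_Ioo, sub_zero] at h1
  rw [← h1]
  rfl

theorem gross {D : Set ℂ} {χ : ℂ → ℂ} {T0 a b M : ℝ} (hab : a < b) (hD : IsOpen D)
    (hsub : ∀ ζ ∈ D, 0 < ζ.re ∧ ζ.re < T0) (hχ : DifferentiableOn ℂ χ D)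
    (hinj : InjOn χ {ζ | ζ ∈ D ∧ a < ζ.im ∧ ζ.im < b})
    (h : ∀ y ∈ Ioo a b, ∃ τ : ℝ, 0 < τ ∧ (∀ t ∈ Ioo 0 τ, (t + y * I : ℂ) ∈ D) ∧
      Tendsto (fun t : ℝ => ‖χ (t + y * I)‖) (𝓝[<] τ) atTop ∧
      ∃ t ∈ Ioo 0 τ, ‖χ (t + y * I)‖ ≤ M) : False := by
  -- normalisation of the constants
  set M1 : ℝ := max M 1 with hM1
  have hM1pos : 0 < M1 := lt_of_lt_of_le one_pos (le_max_right _ _)
  set T1 : ℝ := max T0 1 with hT1
  have hT1pos : 0 < T1 := lt_of_lt_of_le one_pos (le_max_right _ _)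
  have hba : 0 < b - a := sub_pos.mpr hab
  set L : ℝ := 2 * Real.pi * T1 / (b - a) + 1 with hL
  have hLpos : 0 < L := by positivity
  set R : ℝ := M1 * Real.exp L with hR
  have hMR : M1 < R := by
    rw [hR]
    exact lt_mul_of_one_lt_right hM1pos (Real.one_lt_exp_iff.mpr hLpos)
  have hlog : Real.log (R / M1) = L := by
    rw [hR, mul_div_cancel_left₀ _ hM1pos.ne', Real.log_exp]
  set S : Set ℂ := {ζ : ℂ | (ζ ∈ D ∧ a < ζ.im ∧ ζ.im < b) ∧ M1 < ‖χ ζ‖ ∧ ‖χ ζ‖ < R} with hS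
  have hD' : IsOpen {ζ : ℂ | ζ ∈ D ∧ a < ζ.im ∧ ζ.im < b} :=
    hD.inter ((isOpen_lt continuous_const Complex.continuous_im).inter
      (isOpen_lt Complex.continuous_im continuous_const))
  have hSo : IsOpen S := by
    have h1 : ContinuousOn (fun ζ => ‖χ ζ‖) {ζ : ℂ | ζ ∈ D ∧ a < ζ.im ∧ ζ.im < b} :=
      (hχ.continuousOn.mono (fun ζ hζ => hζ.1)).norm
    have h2 := h1.isOpen_inter_preimage hD' (isOpen_Ioo (a := M1) (b := R))
    exact h2
  set f : ℂ → ENNReal := fun ζ => ENNReal.ofReal (‖deriv χ ζ‖ / ‖χ ζ‖) with hf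
  have hSD : S ⊆ D := fun ζ hζ => hζ.1.1
  have hne0 : ∀ ζ ∈ S, ‖χ ζ‖ ≠ 0 := fun ζ hζ => (hM1pos.trans hζ.2.1).ne'
  have hfc : ContinuousOn f S := by
    have h1 : ContinuousOn (fun ζ => ‖deriv χ ζ‖ / ‖χ ζ‖) S :=
      (((hχ.deriv hD).continuousOn.mono hSD).norm).div ((hχ.continuousOn.mono hSD).norm) hne0
    exact ENNReal.continuous_ofReal.comp_continuousOn h1
  have hfm : Measurable (S.indicator f) := by
    classical
    have := ContinuousOn.measurable_piecewise hfc
      (continuousOn_const (c := (0 : ENNReal))) hSo.measurableSet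
    rw [← Set.piecewise_eq_indicator]
    exact this
  -- the lower bound
  have hlow : ENNReal.ofReal L * ENNReal.ofReal (b - a) ≤ ∫⁻ z, S.indicator f z := by
    have h1 : ∫⁻ z, S.indicator f z = ∫⁻ y : ℝ, ∫⁻ t : ℝ, S.indicator f (t + y * I) := by
      rw [← (Complex.volume_preserving_equiv_real_prod.symm).lintegral_comp hfm,
        Measure.volume_eq_prod, lintegral_prod_symm]
      · refine lintegral_congr fun y => lintegral_congr fun t => ?_
        rw [Complex.measurableEquivRealProd_symm_apply, Complex.mk_eq_add_mul_I]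
      · exact (hfm.comp Complex.measurableEquivRealProd.symm.measurable).aemeasurable
    rw [h1]
    calc ENNReal.ofReal L * ENNReal.ofReal (b - a)
        = ∫⁻ y, (Ioo a b).indicator (fun _ => ENNReal.ofReal L) y := by
          rw [lintegral_indicator measurableSet_Ioo, setLIntegral_const, Real.volume_Ioo]
      _ ≤ _ := by
          apply lintegral_mono
          intro y
          by_cases hy : y ∈ Ioo a b
          · rw [Set.indicator_of_mem hy]
            obtain ⟨τ, hτ, h2, h3, t0, ht0, h4⟩ := h y hy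
            rw [← hlog]
            exact gross_slice hM1pos hMR hy hD hχ h2 h3 ht0 (h4.trans (le_max_left _ _))
          · rw [Set.indicator_of_notMem hy]
            exact zero_le
  -- the upper bound
  set l : ℝ := (b - a) / (2 * Real.pi) with hl
  have hlpos : 0 < l := by positivity
  have hup : ∫⁻ z, S.indicator f z ≤ ENNReal.ofReal (l / 2) * ENNReal.ofReal (2 * Real.pi * L) +
      ENNReal.ofReal (1 / (2 * l)) * (ENNReal.ofReal T1 * ENNReal.ofReal (b - a)) := by
    rw [lintegral_indicator hSo.measurableSet]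
    calc ∫⁻ z in S, f z ≤ ∫⁻ z in S, (ENNReal.ofReal (l / 2) *
          ENNReal.ofReal ((‖deriv χ z‖ / ‖χ z‖) ^ 2) + ENNReal.ofReal (1 / (2 * l))) := by
          apply lintegral_mono
          intro z
          show f z ≤ ENNReal.ofReal (l / 2) *
            ENNReal.ofReal ((‖deriv χ z‖ / ‖χ z‖) ^ 2) + ENNReal.ofReal (1 / (2 * l))
          rw [← ENNReal.ofReal_mul (by positivity), ← ENNReal.ofReal_add (by positivity)
            (by positivity)]
          apply ENNReal.ofReal_le_ofReal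
          set x := ‖deriv χ z‖ / ‖χ z‖
          have h2 : 0 ≤ (l * x - 1) ^ 2 / (2 * l) := by positivity
          have h3 : l / 2 * x ^ 2 + 1 / (2 * l) - x = (l * x - 1) ^ 2 / (2 * l) := by
            field_simp
            ring
          linarith
      _ = ENNReal.ofReal (l / 2) * (∫⁻ z in S, ENNReal.ofReal ((‖deriv χ z‖ / ‖χ z‖) ^ 2)) +
          ENNReal.ofReal (1 / (2 * l)) * volume S := by
          rw [lintegral_add_right _ measurable_const, lintegral_const_mul' _ _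
            ENNReal.ofReal_ne_top, setLIntegral_const]
      _ ≤ _ := by
          refine add_le_add (mul_le_mul' le_rfl ?_) (mul_le_mul' le_rfl ?_)
          · rw [← hlog]
            refine gross_area hM1pos hMR.le hSo.measurableSet
              (fun z hz => (hχ z (hSD hz)).differentiableAt (hD.mem_nhds (hSD hz)))
              (hinj.mono fun z hz => hz.1) (fun z hz => hz.2)
          · rw [← gross_rect]
            apply measure_mono
            intro z hz
            have h2 := hsub z hz.1.1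
            exact ⟨⟨h2.1, h2.2.trans_le (le_max_left _ _)⟩, hz.1.2⟩
  have hfin := hlow.trans hup
  rw [← ENNReal.ofReal_mul hLpos.le, ← ENNReal.ofReal_mul (by positivity),
    ← ENNReal.ofReal_mul hT1pos.le, ← ENNReal.ofReal_mul (by positivity),
    ← ENNReal.ofReal_add (by positivity) (by positivity),
    ENNReal.ofReal_le_ofReal_iff (by positivity)] at hfin
  have h1 : l / 2 * (2 * Real.pi * L) = L * (b - a) / 2 := by
    rw [hl]
    field_simp
  have h2 : 1 / (2 * l) * (T1 * (b - a)) = Real.pi * T1 := by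
    rw [hl]
    field_simp
  have h3 : L * (b - a) = 2 * Real.pi * T1 + (b - a) := by
    rw [hL]
    field_simp
  rw [h1, h2, h3] at hfin
  linarith

end H6ea4aa
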