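import Pool.Agent.H.MP_6ea4aa_an.Sweep
import Pool.Agent.H.MP_6ea4aa_an.Gross

/-!
# MP_6ea4aa: ascending lines never stop
-/

set_option autoImplicit false

open Complex Set Filter Topology Metric

namespace H6ea4aa

/-- The data of a sweep in the direction `1`, starting from an injective local branch. -/
structure AscData (g : ℂ → ℝ) (w₀ : ℂ) (ρ : ℝ) (χ₀ : ℂ → ℂ) (T₀ ρ₁ : ℝ) (D : Set ℂ)
    (χ : ℂ → ℂ) : Prop where
  br : IsBranch g χ₀ (ball w₀ ρ)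
  hR : ball w₀ ρ ⊆ RHP
  hρ₁ : 0 < ρ₁
  hρ : ρ = 2 * ρ₁
  hT₀ : 0 < T₀
  opn : IsOpen D
  sub : ∀ ζ ∈ D, 0 < ζ.re ∧ ζ.re < T₀ ∧ |ζ.im| < ρ₁
  diff : DifferentiableOn ℂ χ D
  hg : ∀ ζ ∈ D, g (χ ζ) = w₀.re + ζ.re
  h0 : ∀ ζ : ℂ, 0 < ζ.re → ζ.re < T₀ → |ζ.im| < ρ₁ → ‖ζ‖ < ρ → ζ ∈ D ∧ χ ζ = χ₀ (w₀ + ζ)
  inj : InjOn χ D

section

variable {g : ℂ → ℝ} {w₀ : ℂ} {ρ : ℝ} {χ₀ : ℂ → ℂ} {T₀ ρ₁ : ℝ} {D : Set ℂ} {χ : ℂ → ℂ}

theorem asc_full (h : AscData g w₀ ρ χ₀ T₀ ρ₁ D χ) {T : ℝ} (hT : 0 < T) (hTT : T < T₀)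
    (hf : ∀ t ∈ Ioo 0 T₀, (t + (0 : ℝ) * I : ℂ) ∈ D) :
    ∃ δ > 0, thickening δ (segment ℝ w₀ (w₀ + T)) ⊆ RHP ∧
      ∃ X : ℂ → ℂ, IsBranch g X (thickening δ (segment ℝ w₀ (w₀ + T))) ∧ X w₀ = χ₀ w₀ := by
  classical
  have hρ0 : 0 < ρ := by rw [h.hρ]; linarith [h.hρ₁]
  have hRHP : IsOpen RHP := isOpen_lt continuous_const Complex.continuous_re
  have hw₀ : w₀ ∈ ball w₀ ρ := mem_ball_self hρ0
  have hw₀R : 0 < w₀.re := h.hR hw₀
  set V : Set ℂ := (fun w : ℂ => w - w₀) ⁻¹' D with hV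
  have hVo : IsOpen V := h.opn.preimage (continuous_id.sub continuous_const)
  set X : ℂ → ℂ := fun w => if w ∈ ball w₀ ρ then χ₀ w else χ (w - w₀) with hX
  have hXb : EqOn X χ₀ (ball w₀ ρ) := by
    intro w hw
    simp only [hX, if_pos hw]
  have hXV : EqOn X (fun w => χ (w - w₀)) V := by
    intro w hw
    by_cases hwb : w ∈ ball w₀ ρ
    · rw [hXb hwb]
      have hD : w - w₀ ∈ D := hw
      obtain ⟨h1, h2, h3⟩ := h.sub _ hD
      have h4 : ‖w - w₀‖ < ρ := by rwa [mem_ball, dist_eq_norm] at hwb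
      have h5 := (h.h0 _ h1 h2 h3 h4).2
      simp only [h5]
      congr 1
      ring
    · simp only [hX, if_neg hwb]
  have hU : IsOpen (ball w₀ ρ ∪ V) := isOpen_ball.union hVo
  have hseg : segment ℝ w₀ (w₀ + T) ⊆ (ball w₀ ρ ∪ V) ∩ RHP := by
    intro w hw
    rw [segment_eq_image'] at hw
    obtain ⟨s, hs, rfl⟩ := hw
    have e1 : w₀ + s • (w₀ + (T : ℂ) - w₀) = w₀ + ((s * T : ℝ) : ℂ) := by
      simp
    simp only [e1]
    refine ⟨?_, ?_⟩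
    · rcases hs.1.eq_or_lt with h0 | h0
      · left
        rw [← h0]
        simpa using hρ0
      · right
        have h1 : s * T ∈ Ioo 0 T₀ := by
          refine ⟨mul_pos h0 hT, ?_⟩
          have : s * T ≤ T := by
            have := hs.2
            nlinarith
          linarith
        have h2 := hf _ h1
        change w₀ + ((s * T : ℝ) : ℂ) - w₀ ∈ D
        have e2 : w₀ + ((s * T : ℝ) : ℂ) - w₀ = ((s * T : ℝ) : ℂ) + (0 : ℝ) * I := by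
          simp
        rw [e2]
        exact h2
    · change 0 < (w₀ + ((s * T : ℝ) : ℂ)).re
      rw [Complex.add_re, Complex.ofReal_re]
      have : 0 ≤ s * T := mul_nonneg hs.1 hT.le
      linarith
  have hcomp : IsCompact (segment ℝ w₀ (w₀ + T)) := by
    rw [segment_eq_image]
    exact isCompact_Icc.image (by fun_prop)
  obtain ⟨δ, hδ, hδs⟩ := hcomp.exists_thickening_subset_open (hU.inter hRHP) hseg
  refine ⟨δ, hδ, fun w hw => (hδs hw).2, X, ⟨?_, ?_⟩, hXb hw₀⟩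
  · intro w hw
    rcases (hδs hw).1 with hb | hv
    · have h1 : DifferentiableAt ℂ χ₀ w := (h.br.1 w hb).differentiableAt (isOpen_ball.mem_nhds hb)
      have h2 : X =ᶠ[𝓝 w] χ₀ := hXb.eventuallyEq_of_mem (isOpen_ball.mem_nhds hb)
      exact (h2.differentiableAt_iff.mpr h1).differentiableWithinAt
    · have h1 : DifferentiableAt ℂ χ (w - w₀) :=
        (h.diff _ hv).differentiableAt (h.opn.mem_nhds hv)
      have h2 : X =ᶠ[𝓝 w] (fun w => χ (w - w₀)) :=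
        hXV.eventuallyEq_of_mem (hVo.mem_nhds hv)
      have h3 : DifferentiableAt ℂ (fun w => χ (w - w₀)) w :=
        DifferentiableAt.comp w h1 (differentiableAt_id.sub_const w₀)
      exact (h2.differentiableAt_iff.mpr h3).differentiableWithinAt
  · intro w hw
    rcases (hδs hw).1 with hb | hv
    · rw [hXb hb]
      exact h.br.2 w hb
    · rw [hXV hv]
      have := h.hg _ hv
      simp only [this, Complex.sub_re]
      ring

theorem asc_gross (h : AscData g w₀ ρ χ₀ T₀ ρ₁ D χ) {a b : ℝ} (hab : a < b) (ha : -ρ₁ ≤ a)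
    (hb : b ≤ ρ₁)
    (hs : ∀ y ∈ Ioo a b, ∃ τ ∈ Ioo 0 T₀, (∀ t ∈ Ioo 0 τ, (t + y * I : ℂ) ∈ D) ∧
          Tendsto (fun t : ℝ => ‖χ (t + y * I)‖) (𝓝[<] τ) atTop) : False := by
  have hρ0 : 0 < ρ := by rw [h.hρ]; linarith [h.hρ₁]
  have hρ₁ := h.hρ₁
  have hρ := h.hρ
  obtain ⟨M, hM⟩ : ∃ M : ℝ, ∀ w ∈ closedBall w₀ (3 / 2 * ρ₁), ‖χ₀ w‖ ≤ M := by
    apply (isCompact_closedBall w₀ (3 / 2 * ρ₁)).exists_bound_of_continuousOn
    apply h.br.1.continuousOn.mono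
    apply closedBall_subset_ball
    linarith
  apply gross (D := D) (χ := χ) (T0 := T₀) (a := a) (b := b) (M := M) hab h.opn
    (fun ζ hζ => ⟨(h.sub ζ hζ).1, (h.sub ζ hζ).2.1⟩) h.diff
  · intro ζ hζ ζ' hζ' he
    exact h.inj hζ.1 hζ'.1 he
  · intro y hy
    obtain ⟨τ, hτ, h1, h2⟩ := hs y hy
    refine ⟨τ, hτ.1, h1, h2, ?_⟩
    have hm : 0 < min τ ρ₁ := lt_min hτ.1 hρ₁
    refine ⟨min τ ρ₁ / 2, ⟨by linarith, ?_⟩, ?_⟩
    · have : min τ ρ₁ ≤ τ := min_le_left _ _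
      linarith
    · set t := min τ ρ₁ / 2 with ht
      have ht0 : 0 < t := by rw [ht]; linarith
      have htτ : t < τ := by
        have : min τ ρ₁ ≤ τ := min_le_left _ _
        rw [ht]; linarith
      have htρ : t ≤ ρ₁ / 2 := by
        have : min τ ρ₁ ≤ ρ₁ := min_le_right _ _
        rw [ht]; linarith
      have hyρ : |y| < ρ₁ := by
        rw [abs_lt]
        exact ⟨by linarith [hy.1], by linarith [hy.2]⟩
      have e1 : ((t : ℂ) + y * I).re = t := by simp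
      have e2 : ((t : ℂ) + y * I).im = y := by simp
      have hn : ‖(t : ℂ) + y * I‖ ≤ 3 / 2 * ρ₁ := by
        calc ‖(t : ℂ) + y * I‖ ≤ ‖(t : ℂ)‖ + ‖(y : ℂ) * I‖ := norm_add_le _ _
          _ = |t| + |y| := by simp
          _ ≤ 3 / 2 * ρ₁ := by rw [abs_of_pos ht0]; linarith
      have h3 := h.h0 ((t : ℂ) + y * I) (by rw [e1]; exact ht0)
        (by rw [e1]; linarith [hτ.2]) (by rw [e2]; exact hyρ) (by linarith)
      rw [h3.2]
      apply hM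
      rw [mem_closedBall, dist_eq_norm]
      simpa using hn

theorem asc_deriv (h : AscData g w₀ ρ χ₀ T₀ ρ₁ D χ) (hreg : RegRe g (χ₀ w₀)) :
    HasStrictDerivAt χ₀ (deriv χ₀ w₀) w₀ ∧ deriv χ₀ w₀ ≠ 0 := by
  have hρ0 : 0 < ρ := by rw [h.hρ]; linarith [h.hρ₁]
  have hw₀ : w₀ ∈ ball w₀ ρ := mem_ball_self hρ0
  have hnb : ball w₀ ρ ∈ 𝓝 w₀ := isOpen_ball.mem_nhds hw₀
  have han : AnalyticAt ℂ χ₀ w₀ := h.br.1.analyticAt hnb
  refine ⟨han.hasStrictDerivAt, ?_⟩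
  have hd : HasDerivAt χ₀ (deriv χ₀ w₀) w₀ := han.hasStrictDerivAt.hasDerivAt
  obtain ⟨r, hr, F, hF, hFg, hF'⟩ := hreg
  have hFd : HasDerivAt F (deriv F (χ₀ w₀)) (χ₀ w₀) :=
    (hF.differentiableAt (isOpen_ball.mem_nhds (mem_ball_self hr))).hasDerivAt
  intro h0
  have h1 : HasDerivAt (fun z : ℂ => F (χ₀ (w₀ + z))) (deriv F (χ₀ w₀) * deriv χ₀ w₀)
      ((0 : ℝ) : ℂ) := by
    have e1 : HasDerivAt (fun z : ℂ => w₀ + z) 1 ((0 : ℝ) : ℂ) := (hasDerivAt_id _).const_add w₀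
    have e2 : HasDerivAt χ₀ (deriv χ₀ w₀) (w₀ + ((0 : ℝ) : ℂ)) := by simpa using hd
    have e3 : HasDerivAt (fun z : ℂ => χ₀ (w₀ + z)) (deriv χ₀ w₀ * 1) ((0 : ℝ) : ℂ) :=
      e2.comp _ e1
    have e4 : HasDerivAt F (deriv F (χ₀ w₀)) (χ₀ (w₀ + ((0 : ℝ) : ℂ))) := by simpa using hFd
    have e5 := HasDerivAt.comp (h := fun z : ℂ => χ₀ (w₀ + z)) ((0 : ℝ) : ℂ) e4 e3
    simpa [Function.comp_def] using e5
  have h2 := h1.real_of_complex
  have h3 : HasDerivAt (fun x : ℝ => w₀.re + x) 1 (0 : ℝ) := (hasDerivAt_id _).const_add _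
  have h4 : (fun x : ℝ => (F (χ₀ (w₀ + (x : ℂ)))).re) =ᶠ[𝓝 (0 : ℝ)] fun x : ℝ => w₀.re + x := by
    have c1 : Tendsto (fun x : ℝ => w₀ + (x : ℂ)) (𝓝 0) (𝓝 w₀) := by
      have : Continuous (fun x : ℝ => w₀ + (x : ℂ)) := by fun_prop
      simpa using this.tendsto 0
    have c2 : Tendsto (fun x : ℝ => χ₀ (w₀ + (x : ℂ))) (𝓝 0) (𝓝 (χ₀ w₀)) :=
      hd.continuousAt.tendsto.comp c1
    filter_upwards [c1 hnb, c2 (ball_mem_nhds _ hr)] with x hx1 hx2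
    rw [← hFg _ hx2, h.br.2 _ hx1]
    simp
  have h5 := h3.congr_of_eventuallyEq h4
  have h6 := h2.unique h5
  rw [h0] at h6
  simp at h6

/-- first order expansion of the local branch -/
theorem asc_approx {χ₀ : ℂ → ℂ} {w₀ c : ℂ} (hc : HasDerivAt χ₀ c w₀)
    (v : ℂ) {ε : ℝ} (hε : 0 < ε) :
    ∀ᶠ x : ℝ in 𝓝 0, ‖χ₀ (w₀ + x * v) - (χ₀ w₀ + x * (v * c))‖ ≤ ε * |x| := by
  have h1 : HasDerivAt (fun x : ℝ => χ₀ (w₀ + x * v)) (v * c) 0 := by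
    have e1 : HasDerivAt (fun x : ℝ => w₀ + (x : ℂ) * v) (1 * v) 0 :=
      (Complex.ofRealCLM.hasDerivAt (x := (0 : ℝ))).mul_const v |>.const_add w₀
    have e2 : HasDerivAt χ₀ c (w₀ + ((0 : ℝ) : ℂ) * v) := by simpa using hc
    have e3 := e2.scomp (0 : ℝ) e1
    simpa [Function.comp_def] using e3
  have h2 := hasDerivAt_iff_isLittleO.mp h1
  have h3 := h2.def hε
  filter_upwards [h3] with x hx
  have e : χ₀ (w₀ + x * v) - (χ₀ w₀ + x * (v * c)) =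
      χ₀ (w₀ + x * v) - χ₀ (w₀ + ((0 : ℝ) : ℂ) * v) - (x - 0) • (v * c) := by
    simp
    ring
  rw [e]
  simpa using hx

/-- points near `χ₀ w₀` on the ray in direction `u` (relative to the ascending direction) are
values of the branch -/
theorem asc_dir (h : AscData g w₀ ρ χ₀ T₀ ρ₁ D χ) {c : ℂ} (hc : HasStrictDerivAt χ₀ c w₀)
    (hc0 : c ≠ 0) {u : ℂ} (hu : 0 < u.re) (hu' : u.im ≠ 0) :
    ∃ r > 0, ∀ x ∈ Ioc (0 : ℝ) r, ∃ ζ ∈ D, ‖ζ‖ < ρ₁ ∧ 0 < ζ.re ∧ 0 < ζ.im * u.im ∧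
      χ ζ = χ₀ w₀ + x * (c / ‖c‖) * u := by
  have hρ₁ := h.hρ₁
  have hρ := h.hρ
  have hT₀ := h.hT₀
  have hcn : 0 < ‖c‖ := norm_pos_iff.mpr hc0
  set G := hc.localInverse χ₀ c w₀ hc0 with hG
  have hG1 : HasStrictDerivAt G c⁻¹ (χ₀ w₀) := hc.to_localInverse hc0
  have hG2 : ∀ᶠ z in 𝓝 (χ₀ w₀), χ₀ (G z) = z := hc.eventually_right_inverse hc0
  have hG3 : G (χ₀ w₀) = w₀ := (hc.eventually_left_inverse hc0).self_of_nhds
  have hk : HasDerivAt (fun x : ℝ => G (χ₀ w₀ + x * ((c / ‖c‖) * u)))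
      (((c / ‖c‖) * u) * c⁻¹) 0 := by
    have e1 : HasDerivAt (fun x : ℝ => χ₀ w₀ + (x : ℂ) * ((c / ‖c‖) * u))
        (1 * ((c / ‖c‖) * u)) 0 :=
      (Complex.ofRealCLM.hasDerivAt (x := (0 : ℝ))).mul_const _ |>.const_add _
    have e2 : HasDerivAt G c⁻¹ (χ₀ w₀ + ((0 : ℝ) : ℂ) * ((c / ‖c‖) * u)) := by
      simpa using hG1.hasDerivAt
    have e3 := e2.scomp (0 : ℝ) e1
    simpa [Function.comp_def] using e3
  have hd : ((c / ‖c‖) * u) * c⁻¹ = u / ‖c‖ := by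
    have : (‖c‖ : ℂ) ≠ 0 := by exact_mod_cast hcn.ne'
    field_simp
  rw [hd] at hk
  set η : ℝ := min u.re |u.im| / (2 * ‖c‖) with hη
  have hm : 0 < min u.re |u.im| := lt_min hu (abs_pos.mpr hu')
  have hη0 : 0 < η := by positivity
  have h2 := (hasDerivAt_iff_isLittleO.mp hk).def hη0
  have hcont : Tendsto (fun x : ℝ => χ₀ w₀ + (x : ℂ) * ((c / ‖c‖) * u)) (𝓝 0)
      (𝓝 (χ₀ w₀)) := by
    have : Continuous (fun x : ℝ => χ₀ w₀ + (x : ℂ) * ((c / ‖c‖) * u)) := by fun_prop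
    simpa using this.tendsto 0
  have hcontG : Tendsto (fun x : ℝ => G (χ₀ w₀ + (x : ℂ) * ((c / ‖c‖) * u)) - w₀) (𝓝 0)
      (𝓝 0) := by
    have e1 : Tendsto G (𝓝 (χ₀ w₀)) (𝓝 w₀) := by
      have := hG1.hasDerivAt.continuousAt.tendsto
      rwa [hG3] at this
    have e2 := (e1.comp hcont).sub_const w₀
    simpa [Function.comp_def] using e2
  have hb := hcontG (ball_mem_nhds (0 : ℂ) (lt_min hρ₁ hT₀))
  have hall : ∀ᶠ x : ℝ in 𝓝 0, 0 < x → ∃ ζ ∈ D, ‖ζ‖ < ρ₁ ∧ 0 < ζ.re ∧ 0 < ζ.im * u.im ∧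
      χ ζ = χ₀ w₀ + x * (c / ‖c‖) * u := by
    filter_upwards [h2, hcont hG2, hb] with x hx1 hx2 hx3 hx0
    set ζ := G (χ₀ w₀ + (x : ℂ) * ((c / ‖c‖) * u)) - w₀ with hζ
    have hx3' : ‖ζ‖ < min ρ₁ T₀ := by simpa [hζ] using hx3
    have hx1' : ‖ζ - x * (u / ‖c‖)‖ ≤ η * x := by
      have : G (χ₀ w₀ + ((0 : ℝ) : ℂ) * ((c / ‖c‖) * u)) = w₀ := by simpa using hG3
      rw [this] at hx1
      have e : G (χ₀ w₀ + (x : ℂ) * ((c / ‖c‖) * u)) - w₀ - (x - 0) • (u / (‖c‖ : ℂ)) =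
        ζ - x * (u / ‖c‖) := by
        simp [hζ]
      rw [e] at hx1
      simpa [abs_of_pos hx0] using hx1
    have hre := (abs_re_le_norm (ζ - x * (u / ‖c‖))).trans hx1'
    have him := (abs_im_le_norm (ζ - x * (u / ‖c‖))).trans hx1'
    have ere : (ζ - x * (u / ‖c‖)).re = ζ.re - x * (u.re / ‖c‖) := by
      rw [Complex.sub_re, Complex.re_ofReal_mul, Complex.div_ofReal_re]
    have eim : (ζ - x * (u / ‖c‖)).im = ζ.im - x * (u.im / ‖c‖) := by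
      rw [Complex.sub_im, Complex.im_ofReal_mul, Complex.div_ofReal_im]
    rw [ere, abs_le] at hre
    rw [eim] at him
    have q1 : η ≤ u.re / ‖c‖ / 2 := by
      rw [hη, div_div, mul_comm ‖c‖ 2]
      exact div_le_div_of_nonneg_right (min_le_left _ _) (by positivity)
    have q2 : η ≤ |u.im| / ‖c‖ / 2 := by
      rw [hη, div_div, mul_comm ‖c‖ 2]
      exact div_le_div_of_nonneg_right (min_le_right _ _) (by positivity)
    have q3 : 0 < u.re / ‖c‖ := by positivity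
    have q4 : 0 < |u.im| / ‖c‖ := div_pos (abs_pos.mpr hu') hcn
    have p1 : 0 < ζ.re := by
      have : η * x ≤ u.re / ‖c‖ / 2 * x := mul_le_mul_of_nonneg_right q1 hx0.le
      have : 0 < u.re / ‖c‖ / 2 * x := by positivity
      nlinarith [hre.1]
    have p2 : 0 < ζ.im * u.im := by
      have k1 : η * x ≤ |u.im| / ‖c‖ / 2 * x := mul_le_mul_of_nonneg_right q2 hx0.le
      have k2 : 0 < |u.im| / ‖c‖ / 2 * x := by positivity
      rcases lt_or_gt_of_ne hu' with hneg | hpos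
      · have a1 : |u.im| = -u.im := abs_of_neg hneg
        rw [a1] at k1 k2
        have a2 := (abs_le.mp him).2
        have a3 : x * (u.im / ‖c‖) = -(2 * (-u.im / ‖c‖ / 2 * x)) := by ring
        have : ζ.im < 0 := by rw [a3] at a2; linarith
        exact mul_pos_of_neg_of_neg this hneg
      · have a1 : |u.im| = u.im := abs_of_pos hpos
        rw [a1] at k1 k2
        have a2 := (abs_le.mp him).1
        have a3 : x * (u.im / ‖c‖) = (2 * (u.im / ‖c‖ / 2 * x)) := by ring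
        have : 0 < ζ.im := by rw [a3] at a2; linarith
        exact mul_pos this hpos
    have p3 : ‖ζ‖ < ρ₁ := hx3'.trans_le (min_le_left _ _)
    have p4 : ζ.re < T₀ :=
      (le_abs_self _).trans_lt ((abs_re_le_norm ζ).trans_lt (hx3'.trans_le (min_le_right _ _)))
    have p5 : |ζ.im| < ρ₁ := (abs_im_le_norm ζ).trans_lt p3
    obtain ⟨p6, p7⟩ := h.h0 ζ p1 p4 p5 (by linarith)
    refine ⟨ζ, p6, p3, p1, p2, ?_⟩
    rw [p7]
    have e1 : w₀ + ζ = G (χ₀ w₀ + (x : ℂ) * ((c / ‖c‖) * u)) := by rw [hζ]; ring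
    rw [e1]
    have hx2' : χ₀ (G (χ₀ w₀ + (x : ℂ) * ((c / ‖c‖) * u))) =
      χ₀ w₀ + (x : ℂ) * ((c / ‖c‖) * u) := hx2
    rw [hx2']
    ring
  obtain ⟨r, hr, hr'⟩ := Metric.eventually_nhds_iff.mp hall
  refine ⟨r / 2, by positivity, fun x hx => hr' ?_ hx.1⟩
  rw [Real.dist_eq, sub_zero, abs_of_pos hx.1]
  linarith [hx.2]

/-- a compact connected set inside the domain, on one side of the real axis -/
theorem asc_curve (h : AscData g w₀ ρ χ₀ T₀ ρ₁ D χ) {y : ℝ} (hy : |y| < ρ₁) (hy0 : y ≠ 0)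
    (hf : ∀ t ∈ Ioo 0 T₀, (t + y * I : ℂ) ∈ D) {ζ₁ : ℂ} (hζ₁ : ‖ζ₁‖ < ρ₁) (hζ₁' : 0 < ζ₁.re)
    (hζ₁T : ζ₁.re < T₀) (hζ₁y : 0 < ζ₁.im * y) {t₁ : ℝ} (ht₁ : t₁ ∈ Ioo 0 T₀) :
    ∃ K ⊆ D, IsCompact K ∧ IsPreconnected K ∧ ζ₁ ∈ K ∧ (t₁ + y * I : ℂ) ∈ K ∧
      ∀ ζ ∈ K, 0 < ζ.im * y := by
  have hρ₁ := h.hρ₁
  have hρ := h.hρ
  have hT₀ := h.hT₀
  set ε : ℝ := min t₁ ρ₁ / 2 with hε
  have hm : 0 < min t₁ ρ₁ := lt_min ht₁.1 hρ₁
  have hε0 : 0 < ε := by positivity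
  have hεt : ε < t₁ := by have := min_le_left t₁ ρ₁; rw [hε]; linarith
  have hερ : ε < ρ₁ := by have := min_le_right t₁ ρ₁; rw [hε]; linarith
  set q : ℂ := (ε : ℂ) + y * I with hq
  have hqre : q.re = ε := by simp [hq]
  have hqim : q.im = y := by simp [hq]
  have hqn : ‖q‖ < ρ := by
    calc ‖q‖ ≤ ‖(ε : ℂ)‖ + ‖(y : ℂ) * I‖ := norm_add_le _ _
      _ = |ε| + |y| := by simp
      _ < ρ := by rw [abs_of_pos hε0]; linarith
  have hyy : 0 < y * y := mul_self_pos.mpr hy0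
  have hseg : segment ℝ ζ₁ q ⊆ D ∩ {ζ | 0 < ζ.im * y} := by
    rintro ζ ⟨a, b, ha, hb, hab, rfl⟩
    have e1 : (a • ζ₁ + b • q).re = a * ζ₁.re + b * ε := by simp [hqre]
    have e2 : (a • ζ₁ + b • q).im = a * ζ₁.im + b * y := by simp [hqim]
    have hpos : 0 < a ∨ 0 < b := by
      rcases ha.eq_or_lt with h0 | h0
      · right; linarith
      · left; exact h0
    have f1 : 0 < a * ζ₁.re + b * ε := by
      rcases hpos with h0 | h0
      · have := mul_pos h0 hζ₁'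
        have := mul_nonneg hb hε0.le
        linarith
      · have := mul_nonneg ha hζ₁'.le
        have := mul_pos h0 hε0
        linarith
    have f2 : a * ζ₁.re + b * ε < T₀ := by
      have hεT : ε < T₀ := hεt.trans ht₁.2
      rcases hpos with h0 | h0
      · have := mul_lt_mul_of_pos_left hζ₁T h0
        have := mul_le_mul_of_nonneg_left hεT.le hb
        nlinarith
      · have := mul_le_mul_of_nonneg_left hζ₁T.le ha
        have := mul_lt_mul_of_pos_left hεT h0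
        nlinarith
    have hi1 : |ζ₁.im| < ρ₁ := (abs_im_le_norm ζ₁).trans_lt hζ₁
    have f3 : |a * ζ₁.im + b * y| < ρ₁ := by
      have k : |a * ζ₁.im + b * y| ≤ a * |ζ₁.im| + b * |y| := by
        calc |a * ζ₁.im + b * y| ≤ |a * ζ₁.im| + |b * y| := abs_add_le _ _
          _ = a * |ζ₁.im| + b * |y| := by
            rw [abs_mul, abs_mul, abs_of_nonneg ha, abs_of_nonneg hb]
      rcases hpos with h0 | h0
      · have := mul_lt_mul_of_pos_left hi1 h0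
        have := mul_le_mul_of_nonneg_left hy.le hb
        nlinarith
      · have := mul_le_mul_of_nonneg_left hi1.le ha
        have := mul_lt_mul_of_pos_left hy h0
        nlinarith
    have f4 : ‖a • ζ₁ + b • q‖ < ρ := by
      have hz : ‖ζ₁‖ < ρ := by linarith
      have : a • ζ₁ + b • q ∈ ball (0 : ℂ) ρ :=
        (convex_ball (0 : ℂ) ρ) (by simpa using hz) (by simpa using hqn) ha hb hab
      simpa using this
    have f5 : 0 < (a * ζ₁.im + b * y) * y := by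
      have e : (a * ζ₁.im + b * y) * y = a * (ζ₁.im * y) + b * (y * y) := by ring
      rw [e]
      rcases hpos with h0 | h0
      · have := mul_pos h0 hζ₁y
        have := mul_nonneg hb hyy.le
        linarith
      · have := mul_nonneg ha hζ₁y.le
        have := mul_pos h0 hyy
        linarith
    refine ⟨(h.h0 _ ?_ ?_ ?_ f4).1, ?_⟩
    · rw [e1]; exact f1
    · rw [e1]; exact f2
    · rw [e2]; exact f3
    · change 0 < (a • ζ₁ + b • q).im * y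
      rw [e2]; exact f5
  set hor : Set ℂ := (fun t : ℝ => (t : ℂ) + y * I) '' Icc ε t₁ with hhor
  have hhD : hor ⊆ D ∩ {ζ | 0 < ζ.im * y} := by
    rintro ζ ⟨t, ht, rfl⟩
    refine ⟨hf t ⟨by linarith [ht.1], by linarith [ht.2, ht₁.2]⟩, ?_⟩
    change 0 < ((t : ℂ) + y * I).im * y
    have : ((t : ℂ) + y * I).im = y := by simp
    rw [this]; exact hyy
  have hcont : Continuous (fun t : ℝ => (t : ℂ) + y * I) := by fun_prop
  refine ⟨segment ℝ ζ₁ q ∪ hor, ?_, ?_, ?_, ?_, ?_, ?_⟩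
  · exact union_subset (fun z hz => (hseg hz).1) (fun z hz => (hhD hz).1)
  · refine IsCompact.union ?_ (isCompact_Icc.image hcont)
    rw [segment_eq_image]
    exact isCompact_Icc.image (by fun_prop)
  · refine IsPreconnected.union q (right_mem_segment ℝ ζ₁ q) ⟨ε, ⟨le_refl _, hεt.le⟩, rfl⟩
      (convex_segment ζ₁ q).isPreconnected (isPreconnected_Icc.image _ hcont.continuousOn)
  · exact Or.inl (left_mem_segment ℝ ζ₁ q)
  · exact Or.inr ⟨t₁, ⟨hεt.le, le_refl _⟩, rfl⟩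
  · rintro ζ (hζ | hζ)
    · exact (hseg hζ).2
    · exact (hhD hζ).2

/-- the slice `{t + y I : 0 < t ≤ t₁}` and the ball: everything is in one component of `{g > 0}` -/
theorem asc_conn (h : AscData g w₀ ρ χ₀ T₀ ρ₁ D χ) {y : ℝ} (hy : |y| < ρ₁)
    (hf : ∀ t ∈ Ioo 0 T₀, (t + y * I : ℂ) ∈ D) {t₁ : ℝ} (ht₁ : t₁ ∈ Ioo 0 T₀) :
    χ (t₁ + y * I) ∈ connectedComponentIn {z | 0 < g z} (χ₀ w₀) := by
  have hρ₁ := h.hρ₁
  have hρ := h.hρ
  have hρ0 : 0 < ρ := by rw [hρ]; linarith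
  have hw₀ : w₀ ∈ ball w₀ ρ := mem_ball_self hρ0
  have hw₀R : 0 < w₀.re := h.hR hw₀
  have hcont : Continuous (fun t : ℝ => (t : ℂ) + y * I) := by fun_prop
  set S : Set ℂ := (fun t : ℝ => χ ((t : ℂ) + y * I)) '' Ioo 0 T₀ with hS
  have hSc : IsPreconnected S := by
    apply isPreconnected_Ioo.image
    exact h.diff.continuousOn.comp hcont.continuousOn (fun t ht => hf t ht)
  set B : Set ℂ := χ₀ '' ball w₀ ρ with hB
  have hBc : IsPreconnected B := (convex_ball w₀ ρ).isPreconnected.image _ h.br.1.continuousOn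
  set ε : ℝ := min t₁ ρ₁ / 2 with hε
  have hm : 0 < min t₁ ρ₁ := lt_min ht₁.1 hρ₁
  have hε0 : 0 < ε := by positivity
  have hεt : ε < t₁ := by have := min_le_left t₁ ρ₁; rw [hε]; linarith
  have hερ : ε < ρ₁ := by have := min_le_right t₁ ρ₁; rw [hε]; linarith
  have hεT : ε < T₀ := hεt.trans ht₁.2
  have hn : ‖(ε : ℂ) + y * I‖ < ρ := by
    calc ‖(ε : ℂ) + y * I‖ ≤ ‖(ε : ℂ)‖ + ‖(y : ℂ) * I‖ := norm_add_le _ _
      _ = |ε| + |y| := by simp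
      _ < ρ := by rw [abs_of_pos hε0]; linarith
  have h1 := h.h0 ((ε : ℂ) + y * I) (by simpa using hε0) (by simpa using hεT)
    (by simpa using hy) hn
  have hmem1 : χ ((ε : ℂ) + y * I) ∈ S := ⟨ε, ⟨hε0, hεT⟩, rfl⟩
  have hmem2 : χ ((ε : ℂ) + y * I) ∈ B := by
    rw [h1.2]
    refine ⟨_, ?_, rfl⟩
    rw [mem_ball, dist_eq_norm]
    simpa using hn
  have hc : IsPreconnected (S ∪ B) := IsPreconnected.union _ hmem1 hmem2 hSc hBc
  have hsub : S ∪ B ⊆ {z | 0 < g z} := by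
    rintro z (⟨t, ht, rfl⟩ | ⟨w, hw, rfl⟩)
    · have := h.hg _ (hf t ht)
      change 0 < g (χ _)
      rw [this]
      have : ((t : ℂ) + y * I).re = t := by simp
      rw [this]
      linarith [ht.1]
    · change 0 < g (χ₀ w)
      rw [h.br.2 w hw]
      exact h.hR hw
  exact hc.subset_connectedComponentIn (Or.inr ⟨w₀, hw₀, rfl⟩) hsub (Or.inl ⟨t₁, ht₁, rfl⟩)

theorem asc_exp1 : exp ((Real.pi / 4 : ℝ) * I) = (√2 / 2 : ℝ) + (√2 / 2 : ℝ) * I := by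
  rw [exp_mul_I, ← ofReal_cos, ← ofReal_sin, Real.cos_pi_div_four, Real.sin_pi_div_four]

theorem asc_exp2 : exp ((7 * Real.pi / 4 : ℝ) * I) = (√2 / 2 : ℝ) + (-(√2 / 2) : ℝ) * I := by
  have e : (7 * Real.pi / 4 : ℝ) = 2 * Real.pi - Real.pi / 4 := by ring
  rw [exp_mul_I, ← ofReal_cos, ← ofReal_sin, e, Real.cos_two_pi_sub, Real.sin_two_pi_sub,
    Real.cos_pi_div_four, Real.sin_pi_div_four]

theorem asc_cross {mu : ℂ} {lam : ℝ} (hg : LinGreen g mu lam) (hU : NoIsland g)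
    (hreg : RegRe g (χ₀ w₀)) (h : AscData g w₀ ρ χ₀ T₀ ρ₁ D χ) {τ₀ : ℝ} (hτ₀ : τ₀ ∈ Ioo 0 T₀)
    (hE : ∀ t ∈ Ioo 0 τ₀, (t + (0 : ℝ) * I : ℂ) ∈ D)
    (hlim : Tendsto (fun t : ℝ => ‖χ (t + (0 : ℝ) * I)‖) (𝓝[<] τ₀) atTop)
    {y₁ y₂ : ℝ} (hy₁ : y₁ ∈ Ioo 0 ρ₁) (hy₂ : y₂ ∈ Ioo (-ρ₁) 0)
    (hf₁ : ∀ t ∈ Ioo 0 T₀, (t + y₁ * I : ℂ) ∈ D)
    (hf₂ : ∀ t ∈ Ioo 0 T₀, (t + y₂ * I : ℂ) ∈ D) : False := by
  have hρ₁ := h.hρ₁
  have hρ := h.hρ
  have hρ0 : 0 < ρ := by rw [hρ]; linarith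
  have hw₀ : w₀ ∈ ball w₀ ρ := mem_ball_self hρ0
  have hw₀R : 0 < w₀.re := h.hR hw₀
  have hgz : g (χ₀ w₀) = w₀.re := h.br.2 _ hw₀
  have hs2 : 0 < √2 / 2 := by positivity
  obtain ⟨hc, hc0⟩ := asc_deriv h hreg
  set c := deriv χ₀ w₀ with hcdef
  have hcn : 0 < ‖c‖ := norm_pos_iff.mpr hc0
  set e : ℂ := c / ‖c‖ with he
  have hen : ‖e‖ = 1 := by
    rw [he, norm_div, Complex.norm_real, norm_norm, div_self hcn.ne']
  have hec : (‖c‖ : ℂ) * e = c := by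
    have : (‖c‖ : ℂ) ≠ 0 := by exact_mod_cast hcn.ne'
    rw [he]; field_simp
  -- the two directions
  have hu1re : (exp ((Real.pi / 4 : ℝ) * I)).re = √2 / 2 := by rw [asc_exp1]; simp
  have hu1im : (exp ((Real.pi / 4 : ℝ) * I)).im = √2 / 2 := by rw [asc_exp1]; simp
  have hu2re : (exp ((7 * Real.pi / 4 : ℝ) * I)).re = √2 / 2 := by rw [asc_exp2]; simp
  have hu2im : (exp ((7 * Real.pi / 4 : ℝ) * I)).im = -(√2 / 2) := by rw [asc_exp2]; simp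
  obtain ⟨r1, hr1, hR1⟩ := asc_dir h hc hc0 (u := exp ((Real.pi / 4 : ℝ) * I))
    (by rw [hu1re]; exact hs2) (by rw [hu1im]; exact hs2.ne')
  obtain ⟨r2, hr2, hR2⟩ := asc_dir h hc hc0 (u := exp ((7 * Real.pi / 4 : ℝ) * I))
    (by rw [hu2re]; exact hs2) (by rw [hu2im]; exact (neg_neg_of_pos hs2).ne)
  rw [hu1im] at hR1
  rw [hu2im] at hR2
  -- the time t₁
  set t₁ : ℝ := (τ₀ + T₀) / 2 with ht₁
  have ht₁τ : τ₀ < t₁ := by rw [ht₁]; linarith [hτ₀.2]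
  have ht₁T : t₁ < T₀ := by rw [ht₁]; linarith [hτ₀.2]
  have ht₁' : t₁ ∈ Ioo 0 T₀ := ⟨hτ₀.1.trans ht₁τ, ht₁T⟩
  have hay₁ : |y₁| < ρ₁ := by rw [abs_of_pos hy₁.1]; exact hy₁.2
  have hay₂ : |y₂| < ρ₁ := by rw [abs_of_neg hy₂.2]; linarith [hy₂.1]
  -- curves
  obtain ⟨ζ₁, hζ₁D, hζ₁n, hζ₁re, hζ₁im, hζ₁χ⟩ := hR1 r1 ⟨hr1, le_refl _⟩
  obtain ⟨ζ₂, hζ₂D, hζ₂n, hζ₂re, hζ₂im, hζ₂χ⟩ := hR2 r2 ⟨hr2, le_refl _⟩
  have hζ₁y : 0 < ζ₁.im * y₁ := by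
    have : 0 < ζ₁.im := pos_of_mul_pos_left hζ₁im hs2.le
    exact mul_pos this hy₁.1
  have hζ₂y : 0 < ζ₂.im * y₂ := by
    have : 0 < (-ζ₂.im) * (√2 / 2) := by linarith
    have : 0 < -ζ₂.im := pos_of_mul_pos_left this hs2.le
    exact mul_pos_of_neg_of_neg (by linarith) hy₂.2
  obtain ⟨K₁, hK₁D, hK₁c, hK₁p, hK₁a, hK₁b, hK₁y⟩ := asc_curve h hay₁ hy₁.1.ne' hf₁ hζ₁n hζ₁re
    (h.sub _ hζ₁D).2.1 hζ₁y ht₁'
  obtain ⟨K₂, hK₂D, hK₂c, hK₂p, hK₂a, hK₂b, hK₂y⟩ := asc_curve h hay₂ hy₂.2.ne hf₂ hζ₂n hζ₂re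
    (h.sub _ hζ₂D).2.1 hζ₂y ht₁'
  -- the arc at height > s₁
  set P₁ : ℂ := χ (t₁ + y₁ * I) with hP₁
  set P₂ : ℂ := χ (t₁ + y₂ * I) with hP₂
  set s₁ : ℝ := w₀.re + τ₀ with hs₁
  have hs₁0 : 0 ≤ s₁ := by rw [hs₁]; linarith [hτ₀.1]
  have hgP₁ : s₁ < g P₁ := by
    have := h.hg _ (hf₁ t₁ ht₁')
    rw [hP₁, this, hs₁]
    simpa using ht₁τ
  have hgP₂ : s₁ < g P₂ := by
    have := h.hg _ (hf₂ t₁ ht₁')
    rw [hP₂, this, hs₁]
    simpa using ht₁τ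
  have hcomp0 : P₂ ∈ connectedComponentIn {z | 0 < g z} P₁ := by
    have h1 := asc_conn h hay₁ hf₁ ht₁'
    have h2 := asc_conn h hay₂ hf₂ ht₁'
    rw [connectedComponentIn_eq h1] at h2
    exact h2
  have hcomp : P₂ ∈ connectedComponentIn {z | s₁ < g z} P₁ := hg.one_comp hs₁0 hgP₁ hgP₂ hcomp0
  have hopen : IsOpen {z | s₁ < g z} := isOpen_lt continuous_const hg.cont
  have hCo : IsOpen (connectedComponentIn {z | s₁ < g z} P₁) := hopen.connectedComponentIn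
  have hCc : IsConnected (connectedComponentIn {z | s₁ < g z} P₁) :=
    isConnected_connectedComponentIn_iff.mpr hgP₁
  have hCp := hCo.isConnected_iff_isPathConnected.mp hCc
  obtain ⟨γ, hγ⟩ := hCp.joinedIn P₁ (mem_connectedComponentIn hgP₁) P₂ hcomp
  have hγg : ∀ t, s₁ < g (γ t) := fun t => by
    have := connectedComponentIn_subset _ _ (hγ t)
    exact this
  set A : Set ℂ := range γ with hA
  have hAc : IsCompact A := isCompact_range γ.continuous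
  have hAp : IsPreconnected A := isPreconnected_range γ.continuous
  have hA1 : P₁ ∈ A := ⟨0, γ.source⟩
  have hA2 : P₂ ∈ A := ⟨1, γ.target⟩
  -- the compact connected set
  set K0 : Set ℂ := χ '' K₁ ∪ A ∪ χ '' K₂ with hK0
  have hcK₁ : ContinuousOn χ K₁ := h.diff.continuousOn.mono hK₁D
  have hcK₂ : ContinuousOn χ K₂ := h.diff.continuousOn.mono hK₂D
  have hK0c : IsCompact K0 := ((hK₁c.image_of_continuousOn hcK₁).union hAc).union
    (hK₂c.image_of_continuousOn hcK₂)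
  have hK0p : IsPreconnected K0 := by
    refine IsPreconnected.union P₂ (Or.inr hA2) ⟨_, hK₂b, rfl⟩ ?_ (hK₂p.image _ hcK₂)
    exact IsPreconnected.union P₁ ⟨_, hK₁b, rfl⟩ hA1 (hK₁p.image _ hcK₁) hAp
  have hK0g : ∀ z ∈ K0, w₀.re < g z := by
    rintro z ((⟨ζ, hζ, rfl⟩ | ⟨t, rfl⟩) | ⟨ζ, hζ, rfl⟩)
    · rw [h.hg ζ (hK₁D hζ)]; linarith [(h.sub ζ (hK₁D hζ)).1]
    · have := hγg t
      rw [hs₁] at this
      linarith [hτ₀.1]
    · rw [h.hg ζ (hK₂D hζ)]; linarith [(h.sub ζ (hK₂D hζ)).1]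
  -- the sets E1 and E2
  have hcont0 : Continuous (fun t : ℝ => (t : ℂ) + (0 : ℝ) * I) := by fun_prop
  set E1 : Set ℂ := (fun t : ℝ => χ ((t : ℂ) + (0 : ℝ) * I)) '' Ioo 0 τ₀ with hE1
  have hE1p : IsPreconnected E1 := by
    apply isPreconnected_Ioo.image
    exact h.diff.continuousOn.comp hcont0.continuousOn (fun t ht => hE t ht)
  have hE1u : ¬ Bornology.IsBounded E1 := by
    intro hb
    obtain ⟨M, hM⟩ := hb.exists_norm_le
    have h1 := hlim.eventually_gt_atTop M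
    have h2 : Ioo 0 τ₀ ∈ 𝓝[<] τ₀ := Ioo_mem_nhdsLT hτ₀.1
    obtain ⟨t, ht1, ht2⟩ := (h1.and h2).exists
    have := hM _ ⟨t, ht2, rfl⟩
    simp only at this ht1
    linarith
  have hE1g : ∀ z ∈ E1, w₀.re < g z ∧ g z < s₁ := by
    rintro z ⟨t, ht, rfl⟩
    have := h.hg _ (hE t ht)
    simp only
    rw [this, hs₁]
    have e0 : ((t : ℂ) + (0 : ℝ) * I).re = t := by simp
    rw [e0]
    exact ⟨by linarith [ht.1], by linarith [ht.2]⟩
  have hE1D : ∀ ζ ∈ D, ζ.im ≠ 0 → χ ζ ∉ E1 := by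
    rintro ζ hζ him ⟨t, ht, hte⟩
    have := h.inj (hE t ht) hζ hte
    apply him
    rw [← this]
    simp
  -- a small descending segment
  obtain ⟨x₀, hx₀, hx₀'⟩ : ∃ x₀ > 0, x₀ < ρ := ⟨ρ / 2, by linarith, by linarith⟩
  set J : Set ℂ := (fun x : ℝ => χ₀ (w₀ + (x : ℂ) * (-1))) '' Ioo 0 ρ with hJ
  have hJb : ∀ x ∈ Ioo (0 : ℝ) ρ, w₀ + (x : ℂ) * (-1) ∈ ball w₀ ρ := by
    intro x hx
    rw [mem_ball, dist_eq_norm]
    simpa [abs_of_pos hx.1] using hx.2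
  have hJc : IsPreconnected J := by
    apply isPreconnected_Ioo.image
    refine h.br.1.continuousOn.comp ?_ (fun x hx => hJb x hx)
    fun_prop
  have hJg : J ⊆ {z | g z < w₀.re} := by
    rintro z ⟨x, hx, rfl⟩
    change g (χ₀ _) < w₀.re
    rw [h.br.2 _ (hJb x hx)]
    simpa using hx.1
  set E2 : Set ℂ := connectedComponentIn {z | g z < w₀.re} (χ₀ (w₀ + (x₀ : ℂ) * (-1))) with hE2
  have hx₀J : χ₀ (w₀ + (x₀ : ℂ) * (-1)) ∈ J := ⟨x₀, ⟨hx₀, hx₀'⟩, rfl⟩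
  have hJE2 : J ⊆ E2 := hJc.subset_connectedComponentIn hx₀J hJg
  have hE2g : ∀ z ∈ E2, g z < w₀.re := fun z hz => by
    have := connectedComponentIn_subset _ _ hz
    exact this
  have hE2u : ¬ Bornology.IsBounded E2 := hg.low_unbounded hU (hJg hx₀J)
  -- points on the segments
  have hseg1 : ∀ t ∈ Icc 0 r1, w₀.re ≤ g (χ₀ w₀ + t * e * exp ((Real.pi / 4 : ℝ) * I)) ∧
      χ₀ w₀ + t * e * exp ((Real.pi / 4 : ℝ) * I) ∉ E1 := by
    intro t ht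
    rcases ht.1.eq_or_lt with h0 | h0
    · rw [← h0]
      simp only [ofReal_zero, zero_mul, add_zero]
      refine ⟨hgz.ge, fun hm => ?_⟩
      have := (hE1g _ hm).1
      rw [hgz] at this
      exact lt_irrefl _ this
    · obtain ⟨ζ, hζD, -, hζre, hζim, hζχ⟩ := hR1 t ⟨h0, ht.2⟩
      rw [← hζχ]
      refine ⟨by rw [h.hg ζ hζD]; linarith, hE1D ζ hζD ?_⟩
      intro h00
      rw [h00, zero_mul] at hζim
      exact lt_irrefl _ hζim
  have hseg2 : ∀ t ∈ Icc 0 r2, w₀.re ≤ g (χ₀ w₀ + t * e * exp ((7 * Real.pi / 4 : ℝ) * I)) ∧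
      χ₀ w₀ + t * e * exp ((7 * Real.pi / 4 : ℝ) * I) ∉ E1 := by
    intro t ht
    rcases ht.1.eq_or_lt with h0 | h0
    · rw [← h0]
      simp only [ofReal_zero, zero_mul, add_zero]
      refine ⟨hgz.ge, fun hm => ?_⟩
      have := (hE1g _ hm).1
      rw [hgz] at this
      exact lt_irrefl _ this
    · obtain ⟨ζ, hζD, -, hζre, hζim, hζχ⟩ := hR2 t ⟨h0, ht.2⟩
      rw [← hζχ]
      refine ⟨by rw [h.hg ζ hζD]; linarith, hE1D ζ hζD ?_⟩
      intro h00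
      rw [h00, zero_mul] at hζim
      exact lt_irrefl _ hζim
  have hpi := Real.pi_pos
  refine crossing (χ₀ w₀) e hen (Real.pi / 4) Real.pi (7 * Real.pi / 4) r1 r2 (by linarith)
    (by linarith) (by linarith) (by linarith) hr1 hr2 K0 E1 E2 hK0c hK0p ?_ ?_ ?_ hE1p
    isPreconnected_connectedComponentIn hE1u hE2u ?_ ?_ (fun t ht => (hseg1 t ht).2)
    (fun t ht => (hseg2 t ht).2) ?_ ?_ ?_ ?_
  · intro hm
    have := hK0g _ hm
    rw [hgz] at this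
    exact lt_irrefl _ this
  · refine Or.inl (Or.inl ⟨ζ₁, hK₁a, ?_⟩)
    exact hζ₁χ
  · refine Or.inr ⟨ζ₂, hK₂a, ?_⟩
    exact hζ₂χ
  · rw [Set.disjoint_left]
    rintro z hz ((⟨ζ, hζ, rfl⟩ | ⟨t, rfl⟩) | ⟨ζ, hζ, rfl⟩)
    · refine hE1D ζ (hK₁D hζ) ?_ hz
      intro h00
      have := hK₁y ζ hζ
      rw [h00, zero_mul] at this
      exact lt_irrefl _ this
    · have := (hE1g _ hz).2
      exact lt_irrefl _ (this.trans (hγg t))
    · refine hE1D ζ (hK₂D hζ) ?_ hz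
      intro h00
      have := hK₂y ζ hζ
      rw [h00, zero_mul] at this
      exact lt_irrefl _ this
  · rw [Set.disjoint_left]
    intro z hz hz'
    exact lt_irrefl _ ((hE2g z hz).trans (hK0g z hz'))
  · intro t ht hm
    exact lt_irrefl _ ((hE2g _ hm).trans_le (hseg1 t ht).1)
  · intro t ht hm
    exact lt_irrefl _ ((hE2g _ hm).trans_le (hseg2 t ht).1)
  · intro ε hε
    have h1 := asc_approx hc.hasDerivAt 1 (mul_pos hε hcn)
    have h2 : ∀ᶠ x : ℝ in 𝓝 0, x ∈ Ioo (-(min (ε / ‖c‖) (min τ₀ ρ)))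
        (min (ε / ‖c‖) (min τ₀ ρ)) := by
      have : 0 < min (ε / ‖c‖) (min τ₀ ρ) :=
        lt_min (div_pos hε hcn) (lt_min hτ₀.1 hρ0)
      exact Ioo_mem_nhds (by linarith) this
    have h3 : ∀ᶠ x : ℝ in 𝓝[>] 0, x ∈ Ioi (0 : ℝ) := self_mem_nhdsWithin
    obtain ⟨x, ⟨hx1, hx2⟩, hx3⟩ := (((h1.and h2).filter_mono nhdsWithin_le_nhds).and h3).exists
    have hx0 : 0 < x := hx3
    have k1 : x < ε / ‖c‖ := hx2.2.trans_le (min_le_left _ _)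
    have k2 : x < τ₀ := hx2.2.trans_le ((min_le_right _ _).trans (min_le_left _ _))
    have k3 : x < ρ := hx2.2.trans_le ((min_le_right _ _).trans (min_le_right _ _))
    refine ⟨‖c‖ * x, ⟨by positivity, ?_⟩, χ ((x : ℂ) + (0 : ℝ) * I), ⟨x, ⟨hx0, k2⟩, rfl⟩, ?_⟩
    · rw [lt_div_iff₀ hcn] at k1
      linarith
    · have hx4 := (h.h0 ((x : ℂ) + (0 : ℝ) * I) (by simpa using hx0)
        (by simpa using k2.trans hτ₀.2) (by simpa using hρ₁) (by simpa [abs_of_pos hx0] using k3)).2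
      rw [hx4]
      have e1 : χ₀ (w₀ + ((x : ℂ) + (0 : ℝ) * I)) - (χ₀ w₀ + ((‖c‖ * x : ℝ) : ℂ) * e) =
          χ₀ (w₀ + x * 1) - (χ₀ w₀ + x * (1 * c)) := by
        have e2 : ((‖c‖ * x : ℝ) : ℂ) * e = x * (1 * c) := by
          rw [ofReal_mul]
          calc (‖c‖ : ℂ) * x * e = x * ((‖c‖ : ℂ) * e) := by ring
            _ = x * (1 * c) := by rw [hec, one_mul]
        rw [e2]
        simp
      rw [e1]
      calc _ ≤ ε * ‖c‖ * |x| := hx1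
        _ = ε * (‖c‖ * x) := by rw [abs_of_pos hx0]; ring
  · intro ε hε
    have h1 := asc_approx hc.hasDerivAt (-1) (mul_pos hε hcn)
    have h2 : ∀ᶠ x : ℝ in 𝓝 0, x ∈ Ioo (-(min (ε / ‖c‖) ρ)) (min (ε / ‖c‖) ρ) := by
      have : 0 < min (ε / ‖c‖) ρ := lt_min (div_pos hε hcn) hρ0
      exact Ioo_mem_nhds (by linarith) this
    have h3 : ∀ᶠ x : ℝ in 𝓝[>] 0, x ∈ Ioi (0 : ℝ) := self_mem_nhdsWithin
    obtain ⟨x, ⟨hx1, hx2⟩, hx3⟩ := (((h1.and h2).filter_mono nhdsWithin_le_nhds).and h3).exists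
    have hx0 : 0 < x := hx3
    have k1 : x < ε / ‖c‖ := hx2.2.trans_le (min_le_left _ _)
    have k3 : x < ρ := hx2.2.trans_le (min_le_right _ _)
    refine ⟨‖c‖ * x, ⟨by positivity, ?_⟩, χ₀ (w₀ + (x : ℂ) * (-1)),
      hJE2 ⟨x, ⟨hx0, k3⟩, rfl⟩, ?_⟩
    · rw [lt_div_iff₀ hcn] at k1
      linarith
    · have e2 : ((‖c‖ * x : ℝ) : ℂ) * e * exp ((Real.pi : ℝ) * I) = x * (-1 * c) := by
        rw [ofReal_mul, exp_pi_mul_I]
        calc (‖c‖ : ℂ) * x * e * (-1) = x * (-1 * ((‖c‖ : ℂ) * e)) := by ring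
          _ = x * (-1 * c) := by rw [hec]
      rw [e2]
      calc _ ≤ ε * ‖c‖ * |x| := hx1
        _ = ε * (‖c‖ * x) := by rw [abs_of_pos hx0]; ring

end

theorem ascend {g : ℂ → ℝ} {mu : ℂ} {lam : ℝ} (hg : LinGreen g mu lam) (hU : NoIsland g)
    (hreg : ∀ z, 0 < g z → RegRe g z) {z₀ w₀ : ℂ} (hz₀ : 0 < g z₀) (hw₀ : w₀.re = g z₀) (T : ℝ)
    (hT : 0 < T) :
    ∃ δ > 0, thickening δ (segment ℝ w₀ (w₀ + T)) ⊆ RHP ∧
      ∃ χ : ℂ → ℂ, IsBranch g χ (thickening δ (segment ℝ w₀ (w₀ + T))) ∧ χ w₀ = z₀ := by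
  obtain ⟨ρ, hρ, η, hη, hloc⟩ := branch_local hg.cont hreg hz₀
  obtain ⟨hR, χ₀, hbr, hχ₀, hinj₀⟩ := hloc z₀ (mem_ball_self hη) w₀ hw₀
  have hρ₁ : 0 < ρ / 2 := by linarith
  have hw₀R : 0 < w₀.re := by rw [hw₀]; exact hz₀
  obtain ⟨D, χ, hDo, hDs, hDd, hDg, hD0, hsl, hinj⟩ := sweep hg.cont hreg hbr hinj₀ hR
    (d := 1) (Or.inl rfl) (T₀ := T + 1) (ρ₁ := ρ / 2) hρ₁ (by linarith) (by linarith)
    (by
      intro ζ h1 _ _
      change 0 < (w₀ + ζ * 1).re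
      rw [mul_one, Complex.add_re]
      linarith)
  have hdat : AscData g w₀ ρ χ₀ (T + 1) (ρ / 2) D χ := by
    refine ⟨hbr, hR, hρ₁, by ring, by linarith, hDo, hDs, hDd, ?_, ?_, ?_⟩
    · intro ζ hζ
      rw [hDg ζ hζ, mul_one, Complex.add_re]
    · intro ζ h1 h2 h3 h4
      have := hD0 ζ h1 h2 h3 h4
      rwa [mul_one] at this
    · intro ζ hζ ζ' hζ' he
      have h1 := (hinj ζ hζ ζ' hζ' he).1
      have h2 := hDg ζ hζ
      have h3 := hDg ζ' hζ'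
      rw [he, h3, mul_one, mul_one, Complex.add_re, Complex.add_re] at h2
      exact Complex.ext (by linarith) h1
  have hz : RegRe g (χ₀ w₀) := by rw [hχ₀]; exact hreg z₀ hz₀
  have h00 : |(0 : ℝ)| < ρ / 2 := by simpa using hρ₁
  rcases hsl 0 h00 with hfull | ⟨τ, hτ, hτD, -, hτl⟩
  · obtain ⟨δ, hδ, h1, X, h2, h3⟩ := asc_full hdat hT (by linarith) hfull
    exact ⟨δ, hδ, h1, X, h2, by rw [h3, hχ₀]⟩
  · exfalso
    by_cases hpos : ∃ y₁ ∈ Ioo 0 (ρ / 2), ∀ t ∈ Ioo 0 (T + 1), ((t : ℝ) + (y₁ : ℝ) * I : ℂ) ∈ D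
    · by_cases hneg : ∃ y₂ ∈ Ioo (-(ρ / 2)) 0,
        ∀ t ∈ Ioo 0 (T + 1), ((t : ℝ) + (y₂ : ℝ) * I : ℂ) ∈ D
      · obtain ⟨y₁, hy₁, hf₁⟩ := hpos
        obtain ⟨y₂, hy₂, hf₂⟩ := hneg
        exact asc_cross hg hU hz hdat hτ hτD hτl hy₁ hy₂ hf₁ hf₂
      · push Not at hneg
        refine asc_gross hdat (a := -(ρ / 2)) (b := 0) (by linarith) (le_refl _) (by linarith) ?_
        intro y hy
        have hy' : |y| < ρ / 2 := by rw [abs_of_neg hy.2]; linarith [hy.1]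
        rcases hsl y hy' with hf | ⟨τ', h1, h2, -, h4⟩
        · obtain ⟨t, ht, htn⟩ := hneg y hy
          exact absurd (hf t ht) htn
        · exact ⟨τ', h1, h2, h4⟩
    · push Not at hpos
      refine asc_gross hdat (a := 0) (b := ρ / 2) (by linarith) (by linarith) (le_refl _) ?_
      intro y hy
      have hy' : |y| < ρ / 2 := by rw [abs_of_pos hy.1]; exact hy.2
      rcases hsl y hy' with hf | ⟨τ', h1, h2, -, h4⟩
      · obtain ⟨t, ht, htn⟩ := hpos y hy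
        exact absurd (hf t ht) htn
      · exact ⟨τ', h1, h2, h4⟩

end H6ea4aa
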