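import Pool.Agent.H.MP_6ea4aa_an.EnergyC

/-!
# MP_6ea4aa: the energy inequality
-/

set_option autoImplicit false

open Complex Set Filter Topology Metric MeasureTheory

namespace H6ea4aa

theorem Energy_dx_sum {ι : Type*} (s : Finset ι) {f : ι → ℂ → ℝ} {z : ℂ}
    (hf : ∀ i ∈ s, DifferentiableAt ℝ (f i) z) :
    dx (fun w => ∑ i ∈ s, f i w) z = ∑ i ∈ s, dx (f i) z := by
  unfold dx
  rw [fderiv_fun_sum hf]
  simp

theorem Energy_dy_sum {ι : Type*} (s : Finset ι) {f : ι → ℂ → ℝ} {z : ℂ}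
    (hf : ∀ i ∈ s, DifferentiableAt ℝ (f i) z) :
    dy (fun w => ∑ i ∈ s, f i w) z = ∑ i ∈ s, dy (f i) z := by
  unfold dy
  rw [fderiv_fun_sum hf]
  simp

theorem Energy_lap_sum {ι : Type*} (s : Finset ι) {f : ι → ℂ → ℝ}
    (hf : ∀ i, ContDiff ℝ 2 (f i)) (z : ℂ) :
    lap (fun w => ∑ i ∈ s, f i w) z = ∑ i ∈ s, lap (f i) z := by
  have h1 : dx (fun w => ∑ i ∈ s, f i w) = fun z => ∑ i ∈ s, dx (f i) z :=
    funext fun z => Energy_dx_sum s fun i _ => Energy_diff (hf i) z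
  have h2 : dy (fun w => ∑ i ∈ s, f i w) = fun z => ∑ i ∈ s, dy (f i) z :=
    funext fun z => Energy_dy_sum s fun i _ => Energy_diff (hf i) z
  unfold lap
  rw [h1, h2, Energy_dx_sum s fun i _ => Energy_diff1 (Energy_dx_contDiff (hf i)) z,
    Energy_dy_sum s fun i _ => Energy_diff1 (Energy_dy_contDiff (hf i)) z,
    ← Finset.sum_add_distrib]

/-- the regularised potential -/
noncomputable def EP {N : ℕ} (u : Fin N → ℂ) (ε : ℝ) (v : ℂ) : ℝ := 1 / N * ∑ i, EL (u i) ε v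

theorem EP_contDiff {N : ℕ} (u : Fin N → ℂ) {ε : ℝ} (hε : 0 < ε) : ContDiff ℝ 2 (EP u ε) :=
  contDiff_const.mul (ContDiff.sum fun i _ => EL_contDiff (u i) hε)

theorem EP_lap {N : ℕ} (u : Fin N → ℂ) {ε : ℝ} (hε : 0 < ε) (v : ℂ) :
    lap (EP u ε) v = 1 / N * ∑ i, EM (u i) ε v := by
  have h : EP u ε = fun v => 1 / (N : ℝ) * ∑ i, EL (u i) ε v := rfl
  rw [h, Energy_lap_smul _ (ContDiff.sum fun i _ => EL_contDiff (u i) hε),
    Energy_lap_sum _ (fun i => EL_contDiff (u i) hε)]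
  congr 1
  exact Finset.sum_congr rfl fun i _ => EL_lap (u i) hε v

theorem EP_dx {N : ℕ} (u : Fin N → ℂ) {ε : ℝ} (hε : 0 < ε) (v : ℂ) :
    dx (EP u ε) v = 1 / N * ∑ i, (v.re - (u i).re) / EDn (u i) ε v := by
  have h : EP u ε = fun v => 1 / (N : ℝ) * ∑ i, EL (u i) ε v := rfl
  rw [h, Energy_dx_smul _ (Energy_diff (ContDiff.sum fun i _ => EL_contDiff (u i) hε) v),
    Energy_dx_sum _ (fun i _ => Energy_diff (EL_contDiff (u i) hε) v)]
  congr 1
  exact Finset.sum_congr rfl fun i _ => EL_dx (u i) hε v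

theorem EP_dy {N : ℕ} (u : Fin N → ℂ) {ε : ℝ} (hε : 0 < ε) (v : ℂ) :
    dy (EP u ε) v = 1 / N * ∑ i, (v.im - (u i).im) / EDn (u i) ε v := by
  have h : EP u ε = fun v => 1 / (N : ℝ) * ∑ i, EL (u i) ε v := rfl
  rw [h, Energy_dy_smul _ (Energy_diff (ContDiff.sum fun i _ => EL_contDiff (u i) hε) v),
    Energy_dy_sum _ (fun i _ => Energy_diff (EL_contDiff (u i) hε) v)]
  congr 1
  exact Finset.sum_congr rfl fun i _ => EL_dy (u i) hε v

theorem Energy_avg {N : ℕ} (hN : 0 < N) {a : Fin N → ℝ} {k B : ℝ} (h : ∀ i, |a i - k| ≤ B) :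
    |1 / (N : ℝ) * ∑ i, a i - k| ≤ B := by
  have hN' : (0 : ℝ) < N := by exact_mod_cast hN
  have e : 1 / (N : ℝ) * ∑ i, a i - k = 1 / (N : ℝ) * ∑ i, (a i - k) := by
    rw [Finset.sum_sub_distrib]
    simp only [Finset.sum_const, Finset.card_univ, Fintype.card_fin, nsmul_eq_mul]
    field_simp
  rw [e, abs_mul, abs_of_pos (by positivity)]
  have h1 : |∑ i, (a i - k)| ≤ N * B := by
    refine (Finset.abs_sum_le_sum_abs _ _).trans ?_
    refine (Finset.sum_le_sum fun i _ => h i).trans (le_of_eq ?_)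
    simp
  calc 1 / (N : ℝ) * |∑ i, (a i - k)| ≤ 1 / (N : ℝ) * (N * B) := by gcongr
    _ = B := by field_simp

/-- a single regularised logarithm far away -/
theorem EL_far {a v : ℂ} {ρ η ε : ℝ} (hρ : 10 ≤ ρ) (hη : 0 ≤ η) (hη1 : η ≤ 1) (hε : 0 < ε)
    (hερ : ε ≤ η * ρ) (ha : ‖a‖ ≤ η * ρ / 8) (hv : ρ ≤ ‖v‖) :
    ρ / 2 ≤ ‖v - a‖ ∧ |EL a ε v - Real.log ‖v‖| ≤ η := by
  set x := ‖v‖ with hx
  set s := ‖v - a‖ with hs
  have hx0 : 0 < x := by linarith
  have ha' : ‖a‖ ≤ η / 8 * x := by nlinarith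
  have hs1 : x * (1 - η / 8) ≤ s := by
    have := norm_sub_norm_le v a
    nlinarith
  have hs2 : s ≤ x * (1 + η / 8) := by
    have := norm_sub_le v a
    nlinarith
  have hs0 : 0 < s := lt_of_lt_of_le (mul_pos hx0 (by linarith)) hs1
  have hεx : ε ≤ η * x := by nlinarith
  refine ⟨by nlinarith, ?_⟩
  have hD := EDn_eq a ε v
  rw [← hs] at hD
  have hDp := EDn_pos a hε v
  have e1 : EL a ε v - Real.log x = 1 / 2 * Real.log (EDn a ε v / x ^ 2) := by
    unfold EL
    rw [Real.log_div hDp.ne' (by positivity), Real.log_pow]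
    push_cast
    ring
  have hup : EDn a ε v / x ^ 2 ≤ 1 + 2 * η := by
    rw [div_le_iff₀ (by positivity), hD]
    have h1 : ε ^ 2 ≤ (η * x) ^ 2 := by gcongr
    have h2 : s ^ 2 ≤ (x * (1 + η / 8)) ^ 2 := by gcongr
    have h3 : η ^ 2 ≤ η := by nlinarith
    nlinarith [mul_nonneg (sq_nonneg x) (sub_nonneg.2 h3), mul_nonneg (sq_nonneg x) hη]
  have hlo : (1 - η / 8) ^ 2 ≤ EDn a ε v / x ^ 2 := by
    rw [le_div_iff₀ (by positivity), hD]
    have h2 : (x * (1 - η / 8)) ^ 2 ≤ s ^ 2 := by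
      have : 0 ≤ x * (1 - η / 8) := mul_nonneg hx0.le (by linarith)
      gcongr
    nlinarith [sq_nonneg ε]
  rw [e1, abs_le]
  constructor
  · have h1 : Real.log ((1 - η / 8) ^ 2) ≤ Real.log (EDn a ε v / x ^ 2) :=
      Real.log_le_log (pow_pos (by linarith) 2) hlo
    rw [Real.log_pow] at h1
    push_cast at h1
    have h2 : 1 - (1 - η / 8)⁻¹ ≤ Real.log (1 - η / 8) := Real.one_sub_inv_le_log_of_pos (by linarith)
    have h3 : (1 - η / 8)⁻¹ ≤ 1 + η := by
      rw [inv_le_comm₀ (by linarith) (by linarith)]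
      rw [inv_le_iff_one_le_mul₀ (by linarith)]
      nlinarith
    linarith
  · have h1 : Real.log (EDn a ε v / x ^ 2) ≤ EDn a ε v / x ^ 2 - 1 :=
      Real.log_le_sub_one_of_pos (by positivity)
    linarith

theorem Energy_grad_far {a v : ℂ} {ρ ε : ℝ} (hρ : 0 < ρ) (hε : 0 < ε) (h : ρ / 2 ≤ ‖v - a‖) :
    |(v.re - a.re) / EDn a ε v - 0| ≤ 2 / ρ ∧ |(v.im - a.im) / EDn a ε v - 0| ≤ 2 / ρ := by
  have hDp := EDn_pos a hε v
  have hD := EDn_eq a ε v
  have hs : 0 < ‖v - a‖ := by linarith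
  have hre : |v.re - a.re| ≤ ‖v - a‖ := by
    have := Complex.abs_re_le_norm (v - a)
    rwa [sub_re] at this
  have him : |v.im - a.im| ≤ ‖v - a‖ := by
    have := Complex.abs_im_le_norm (v - a)
    rwa [sub_im] at this
  have key : ∀ y : ℝ, |y| ≤ ‖v - a‖ → |y / EDn a ε v - 0| ≤ 2 / ρ := by
    intro y hy
    rw [sub_zero, abs_div, abs_of_pos hDp, div_le_div_iff₀ hDp hρ, hD]
    nlinarith [sq_nonneg ε, mul_le_mul_of_nonneg_right hy hρ.le]
  exact ⟨key _ hre, key _ him⟩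

/-- the value of the potential at one of the points -/
theorem EP_at {N : ℕ} (hN : 0 < N) (u : Fin N → ℂ) (hu : Function.Injective u) {ε : ℝ} (_hε : 0 < ε)
    (j : Fin N) : 1 / (N : ℝ) * (∑ i, Real.log ‖u i - u j‖ + Real.log ε) ≤ EP u ε (u j) := by
  have hN' : (0 : ℝ) < N := by exact_mod_cast hN
  unfold EP
  refine mul_le_mul_of_nonneg_left ?_ (by positivity)
  have h1 : ∀ i, Real.log ‖u i - u j‖ + (if i = j then Real.log ε else 0) ≤ EL (u i) ε (u j) := by
    intro i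
    unfold EL
    rw [EDn_eq]
    by_cases hij : i = j
    · subst hij
      simp only [sub_self, norm_zero, Real.log_zero, if_true, zero_add]
      rw [zero_pow two_ne_zero, add_zero, Real.log_pow]
      push_cast
      linarith
    · rw [if_neg hij, add_zero]
      have hne : u i - u j ≠ 0 := sub_ne_zero.2 fun h => hij (hu h)
      have hp : 0 < ‖u i - u j‖ := norm_pos_iff.2 hne
      have h2 : Real.log (‖u i - u j‖ ^ 2) ≤ Real.log (ε ^ 2 + ‖u j - u i‖ ^ 2) := by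
        refine Real.log_le_log (by positivity) ?_
        rw [norm_sub_rev (u j) (u i)]
        linarith [sq_nonneg ε]
      rw [Real.log_pow] at h2
      push_cast at h2
      linarith
  have h2 := Finset.sum_le_sum fun i (_ : i ∈ Finset.univ) => h1 i
  rw [Finset.sum_add_distrib] at h2
  simpa using h2

theorem Energy_pi_bound {x : ℝ} (hx : 0 ≤ x) :
    9 / 4 * Real.pi * x ≤ 8 * x ∧ 9 / 2 * Real.pi * x ≤ 16 * x ∧ 9 * Real.pi * x ≤ 32 * x := by
  have hpi4 := Real.pi_lt_d2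
  refine ⟨?_, ?_, ?_⟩ <;> nlinarith

theorem Energy_num {C₁ M η : ℝ} (hC₁ : 1 ≤ C₁) (hM2 : 2 ≤ M) (hη : 0 ≤ η) :
    M * (8 * Real.pi * η) ≤ 26 * C₁ * (η * M) ∧ η ≤ η * M ∧ η * (M + 10) ≤ 6 * (η * M) ∧
      4 * Real.pi * (M + 1) ≤ 250 * C₁ * M := by
  have hpi4 := Real.pi_lt_d2
  have hpi := Real.pi_pos
  refine ⟨?_, ?_, ?_, ?_⟩
  · have h1 : 8 * Real.pi ≤ 26 * C₁ := by linarith
    have h2 : 0 ≤ η * M := by positivity
    calc M * (8 * Real.pi * η) = 8 * Real.pi * (η * M) := by ring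
      _ ≤ 26 * C₁ * (η * M) := mul_le_mul_of_nonneg_right h1 h2
  · nlinarith
  · nlinarith
  · have h2 : M + 1 ≤ 2 * M := by linarith
    have h3 : 4 * Real.pi * (M + 1) ≤ 4 * Real.pi * (2 * M) := by gcongr
    have h4 : 4 * Real.pi * (2 * M) ≤ 26 * M := by nlinarith
    have h5 : 26 * M ≤ 250 * C₁ * M := by nlinarith
    linarith

theorem energy_ineq : ∃ C₀ : ℝ, 1 ≤ C₀ ∧ ∀ (g : ℂ → ℝ) (V ρ η τ κ r₀ ε d M : ℝ) (N : ℕ)
    (u : Fin N → ℂ) (φ : ℂ → ℝ) (t : ℝ),
    Continuous g → (∀ z, 0 ≤ g z) → (∀ z, 0 < g z → LocRe g z) →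
    10 ≤ ρ → 0 ≤ η → η ≤ 1 → 0 < τ → τ ≤ 1 → 0 < ε → ε ≤ r₀ → r₀ ≤ 1 → ε ≤ η * ρ → 0 < d →
    |V| ≤ M → Real.log ρ ≤ M → (∀ z, ‖z‖ ≤ 2 * ρ → g z ≤ M) →
    (∀ z, ρ / 2 ≤ ‖z‖ → ‖z‖ ≤ 2 * ρ → |g z - Real.log ‖z‖ + V| ≤ η ∧ 2 ≤ g z) →
    0 < N → Function.Injective u → (∀ i, ‖u i‖ ≤ η * ρ / 8) →
    (∀ i v, ‖v - u i‖ ≤ r₀ → g v ≤ κ) →
    ContDiff ℝ 2 φ → HasCompactSupport φ → tsupport φ ⊆ ball 0 ρ →
    (∀ i, ∀ v ∈ tsupport φ, d ≤ ‖v - u i‖) →
    2 * t * ∫ z, g z * lap φ z ≤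
      2 * Real.pi * (-(1 / (N : ℝ) ^ 2) * ∑ i, ∑ j, Real.log ‖u i - u j‖ + V +
        1 / N * Real.log (1 / ε) + 2 * (κ + τ)) + C₀ * η * M + C₀ * M * ε ^ 2 / r₀ ^ 2 +
      t ^ 2 * (∫ z, (dx φ z ^ 2 + dy φ z ^ 2)) +
      |t| * (2 * τ * ∫ z, |lap φ z|) + |t| * (4 * ε ^ 2 / d ^ 4 * ∫ z, |φ z|) := by
  obtain ⟨C₁, hC₁, hθall⟩ := Energy_theta
  refine ⟨250 * C₁, by linarith, ?_⟩
  intro g V ρ η τ κ r₀ ε d M N u φ t hg hg0 hgre hρ hη hη1 hτ hτ1 hε hεr hr1 hερ hd hV hlogρ hgM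
    hann hN hu hunorm hκ hφ hφc hφs hφd
  have hρ0 : 0 < ρ := by linarith
  obtain ⟨θ, hθ, hθc, hθb, hθ1, hθ0, hθd, hθz⟩ := hθall ρ hρ0
  obtain ⟨G, hG, hG1, hGg, hGe⟩ := Energy_G g τ hτ hg hg0 hgre
  have hG0 : ∀ v, 0 ≤ G v := fun v => (hg0 v).trans (hGg v).1
  set P := EP u ε with hPdef
  have hP : ContDiff ℝ 2 P := EP_contDiff u hε
  have hN' : (0 : ℝ) < N := by exact_mod_cast hN
  have hpi := Real.pi_pos
  have hpi4 := Real.pi_lt_d2
  have hr0 : 0 < r₀ := lt_of_lt_of_le hε hεr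
  have hM2 : 2 ≤ M := by
    have h1 : Real.log (Real.exp 2) ≤ Real.log ρ := by
      refine Real.log_le_log (Real.exp_pos 2) ?_
      have h2 : Real.exp 2 = Real.exp 1 * Real.exp 1 := by
        rw [← Real.exp_add]
        norm_num
      have := Real.exp_one_lt_d9
      have h3 := Real.exp_pos 1
      rw [h2]
      nlinarith
    rw [Real.log_exp] at h1
    linarith
  have hκ0 : 0 ≤ κ := (hg0 _).trans (hκ ⟨0, hN⟩ (u ⟨0, hN⟩) (by simpa using hr0.le))
  have hη2 : η ^ 2 ≤ η := by nlinarith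
  have hε2 : ε ^ 2 / ρ ^ 2 ≤ η := by
    rw [div_le_iff₀ (by positivity)]
    have h1 : ε ^ 2 ≤ (η * ρ) ^ 2 := by gcongr
    nlinarith [mul_nonneg (sq_nonneg ρ) (sub_nonneg.2 hη2)]
  -- the annulus
  have hfar : ∀ v, ρ ≤ ‖v‖ → ∀ i, ρ / 2 ≤ ‖v - u i‖ ∧ |EL (u i) ε v - Real.log ‖v‖| ≤ η :=
    fun v hv i => EL_far hρ hη hη1 hε hερ (hunorm i) hv
  have hPlog : ∀ v, ρ ≤ ‖v‖ → |P v - Real.log ‖v‖| ≤ η := fun v hv =>
    Energy_avg hN fun i => (hfar v hv i).2
  have hPx : ∀ v, ρ ≤ ‖v‖ → |dx P v| ≤ 2 / ρ := by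
    intro v hv
    rw [hPdef, EP_dx u hε]
    have := Energy_avg hN (a := fun i => (v.re - (u i).re) / EDn (u i) ε v) (k := 0)
      fun i => (Energy_grad_far hρ0 hε (hfar v hv i).1).1
    rwa [sub_zero] at this
  have hPy : ∀ v, ρ ≤ ‖v‖ → |dy P v| ≤ 2 / ρ := by
    intro v hv
    rw [hPdef, EP_dy u hε]
    have := Energy_avg hN (a := fun i => (v.im - (u i).im) / EDn (u i) ε v) (k := 0)
      fun i => (Energy_grad_far hρ0 hε (hfar v hv i).1).2
    rwa [sub_zero] at this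
  have hAann : ∀ v, ρ ≤ ‖v‖ → ‖v‖ ≤ 3 * ρ / 2 → |P v - G v - V| ≤ 2 * η := by
    intro v h1 h2
    obtain ⟨h3, h4⟩ := hann v (by linarith) (by linarith)
    have h5 := hPlog v h1
    rw [hGe v (by linarith)]
    rw [abs_le] at h3 h5 ⊢
    constructor <;> linarith [h3.1, h3.2, h5.1, h5.2]
  have hPabs : ∀ v, ρ ≤ ‖v‖ → ‖v‖ ≤ 3 * ρ / 2 → |P v| ≤ M + 2 := by
    intro v h1 h2
    have h5 := hPlog v h1
    have h6 : Real.log ‖v‖ ≤ M + 1 := by
      have h7 : Real.log ‖v‖ ≤ Real.log (ρ * Real.exp 1) := by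
        refine Real.log_le_log (by linarith) ?_
        have := Real.exp_one_gt_d9
        nlinarith
      rw [Real.log_mul hρ0.ne' (Real.exp_pos 1).ne', Real.log_exp] at h7
      linarith
    have h8 : 0 ≤ Real.log ‖v‖ := Real.log_nonneg (by linarith)
    rw [abs_le] at h5 ⊢
    constructor <;> linarith [h5.1, h5.2]
  -- the commutator
  set K : ℂ → ℝ := fun v => 2 * (dx θ v * dx P v + dy θ v * dy P v) + P v * lap θ v with hKdef
  have hKeq : ∀ v, K v = lap (fun z => θ z * P z) v - θ v * lap P v := by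
    intro v
    rw [Energy_lap_mul hθ hP]
    simp only [hKdef]
    ring
  have hKz : ∀ v, (‖v‖ < ρ ∨ 3 * ρ / 2 < ‖v‖) → K v = 0 := by
    intro v hv
    obtain ⟨a1, a2, a3⟩ := hθz v hv
    simp [hKdef, a1, a2, a3]
  have hKc : Continuous K :=
    (continuous_const.mul (((Energy_dx_cont hθ).mul (Energy_dx_cont hP)).add
      ((Energy_dy_cont hθ).mul (Energy_dy_cont hP)))).add (hP.continuous.mul (Energy_lap_cont hθ))
  have hKcs : HasCompactSupport K := by
    refine HasCompactSupport.of_support_subset_isCompact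
      (isCompact_closedBall (0 : ℂ) (3 * ρ / 2)) ?_
    intro v hv
    rw [mem_closedBall_zero_iff]
    by_contra hcon
    push Not at hcon
    exact hv (hKz v (Or.inr hcon))
  set BK := C₁ * (M + 10) / ρ ^ 2 with hBK
  have hBK0 : 0 ≤ BK := by positivity
  have hKb : ∀ v, |K v| ≤ BK := by
    intro v
    by_cases hv : ‖v‖ < ρ ∨ 3 * ρ / 2 < ‖v‖
    · rw [hKz v hv, abs_zero]
      exact hBK0
    · push Not at hv
      obtain ⟨h1, h2⟩ := hv
      obtain ⟨a1, a2, a3⟩ := hθd v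
      have b1 := hPx v h1
      have b2 := hPy v h1
      have b3 := hPabs v h1 h2
      have c1 : |dx θ v * dx P v| ≤ C₁ / ρ * (2 / ρ) := by
        rw [abs_mul]
        gcongr
      have c2 : |dy θ v * dy P v| ≤ C₁ / ρ * (2 / ρ) := by
        rw [abs_mul]
        gcongr
      have c3 : |P v * lap θ v| ≤ (M + 2) * (C₁ / ρ ^ 2) := by
        rw [abs_mul]
        gcongr
      have c4 : |K v| ≤ 2 * (C₁ / ρ * (2 / ρ) + C₁ / ρ * (2 / ρ)) + (M + 2) * (C₁ / ρ ^ 2) := by
        have d1 := abs_add_le (2 * (dx θ v * dx P v + dy θ v * dy P v)) (P v * lap θ v)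
        have d2 := abs_add_le (dx θ v * dx P v) (dy θ v * dy P v)
        have d3 : |2 * (dx θ v * dx P v + dy θ v * dy P v)| =
            2 * |dx θ v * dx P v + dy θ v * dy P v| := by
          rw [abs_mul, abs_of_pos (by norm_num : (0 : ℝ) < 2)]
        rw [d3] at d1
        simp only [hKdef]
        linarith
      refine c4.trans (le_of_eq ?_)
      rw [hBK]
      field_simp
      ring
  have hR : (0 : ℝ) ≤ 3 * ρ / 2 := by positivity
  have hKint : ∫ v, |K v| ≤ 8 * C₁ * (M + 10) := by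
    have h1 := Energy_area (F := fun v => |K v|) hR (fun v => by rw [abs_abs]; exact hKb v)
      (fun v hv => by rw [hKz v (Or.inr hv), abs_zero])
    have h2 := (le_abs_self _).trans h1
    refine h2.trans ?_
    have e : BK * (Real.pi * (3 * ρ / 2) ^ 2) = 9 / 4 * Real.pi * (C₁ * (M + 10)) := by
      rw [hBK]
      field_simp
      ring
    rw [e]
    have := (Energy_pi_bound (by positivity : 0 ≤ C₁ * (M + 10))).1
    linarith
  have hKint0 : 0 ≤ ∫ v, |K v| := integral_nonneg fun v => abs_nonneg _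
  -- |∫ A K|
  have hAK : |∫ z, (P z - G z - V) * K z| ≤ 16 * η * C₁ * (M + 10) := by
    have h1 := Energy_area (F := fun z => (P z - G z - V) * K z) (B := 2 * η * BK) hR
      (fun v => by
        by_cases hv : ‖v‖ < ρ ∨ 3 * ρ / 2 < ‖v‖
        · rw [hKz v hv, mul_zero, abs_zero]
          positivity
        · push Not at hv
          rw [abs_mul]
          have := hAann v hv.1 hv.2
          have h2 := hKb v
          gcongr)
      (fun v hv => by rw [hKz v (Or.inr hv), mul_zero])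
    refine h1.trans ?_
    have e : 2 * η * BK * (Real.pi * (3 * ρ / 2) ^ 2) = 9 / 2 * Real.pi * (η * (C₁ * (M + 10))) := by
      rw [hBK]
      field_simp
      ring
    rw [e]
    have := (Energy_pi_bound (by positivity : 0 ≤ η * (C₁ * (M + 10)))).2.1
    linarith
  -- |∫ A Δθ|
  have hAθ : |∫ z, (P z - G z - V) * lap θ z| ≤ 16 * η * C₁ := by
    have h1 := Energy_area (F := fun z => (P z - G z - V) * lap θ z) (B := 2 * η * (C₁ / ρ ^ 2)) hR
      (fun v => by
        by_cases hv : ‖v‖ < ρ ∨ 3 * ρ / 2 < ‖v‖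
        · rw [(hθz v hv).2.2, mul_zero, abs_zero]
          positivity
        · push Not at hv
          rw [abs_mul]
          have := hAann v hv.1 hv.2
          have h2 := (hθd v).2.2
          gcongr)
      (fun v hv => by rw [(hθz v (Or.inr hv)).2.2, mul_zero])
    refine h1.trans ?_
    have e : 2 * η * (C₁ / ρ ^ 2) * (Real.pi * (3 * ρ / 2) ^ 2) = 9 / 2 * Real.pi * (η * C₁) := by
      field_simp
      ring
    rw [e]
    have := (Energy_pi_bound (by positivity : 0 ≤ η * C₁)).2.1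
    linarith
  -- ½ ∫ A² Δθ
  have hA2 : |∫ z, (P z - G z - V) ^ 2 * lap θ z| ≤ 32 * η * C₁ := by
    have h1 := Energy_area (F := fun z => (P z - G z - V) ^ 2 * lap θ z)
      (B := (2 * η) ^ 2 * (C₁ / ρ ^ 2)) hR
      (fun v => by
        by_cases hv : ‖v‖ < ρ ∨ 3 * ρ / 2 < ‖v‖
        · rw [(hθz v hv).2.2, mul_zero, abs_zero]
          positivity
        · push Not at hv
          rw [abs_mul, abs_pow]
          have := hAann v hv.1 hv.2
          have h2 := (hθd v).2.2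
          gcongr)
      (fun v hv => by rw [(hθz v (Or.inr hv)).2.2, mul_zero])
    refine h1.trans ?_
    have e : (2 * η) ^ 2 * (C₁ / ρ ^ 2) * (Real.pi * (3 * ρ / 2) ^ 2) =
        9 * Real.pi * (η ^ 2 * C₁) := by
      field_simp
      ring
    rw [e]
    have h2 := (Energy_pi_bound (by positivity : 0 ≤ η ^ 2 * C₁)).2.2
    have h3 : η ^ 2 * C₁ ≤ η * C₁ := mul_le_mul_of_nonneg_right hη2 (by positivity)
    linarith
  -- the mass of ΔP
  have hθu : ∀ i, θ (u i) = 1 := by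
    intro i
    refine hθ1 _ ?_
    have := hunorm i
    nlinarith
  have hiθM : ∀ i, Integrable fun v => θ v * EM (u i) ε v := fun i =>
    Energy_int (hθ.continuous.mul (EM_cont _ hε)) hθc.mul_right
  have hm : ∫ v, θ v * lap P v = 1 / N * ∑ i, ∫ v, θ v * EM (u i) ε v := by
    rw [← integral_finsetSum _ fun i _ => hiθM i, ← integral_const_mul]
    congr 1
    funext v
    rw [hPdef, EP_lap u hε, Finset.mul_sum, Finset.mul_sum, Finset.mul_sum]
    exact Finset.sum_congr rfl fun i _ => by ring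
  have hm1 : ∀ i, |(∫ v, θ v * EM (u i) ε v) - 2 * Real.pi| ≤ 8 * Real.pi * η := by
    intro i
    have h1 := Energy_upper hθ.continuous hθc (u i) (A := 1) (B := 0) hε one_pos le_rfl
      (fun v _ => (hθb v).2) (fun v => by simpa using (hθb v).2)
    have h2 := Energy_upper (H := fun v => -θ v) hθ.continuous.neg hθc.neg (u i) (A := -1)
      (B := 1) (r := ρ / 2) hε (by positivity) zero_le_one (fun v hv => ?_) (fun v => ?_)
    · have h3 : ∫ v, -θ v * EM (u i) ε v = -∫ v, θ v * EM (u i) ε v := by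
        rw [← integral_neg]
        congr 1
        funext v
        ring
      rw [h3] at h2
      have h4 : ε ^ 2 / (ρ / 2) ^ 2 = 4 * (ε ^ 2 / ρ ^ 2) := by
        field_simp
        ring
      rw [h4] at h2
      have h5 : 2 * Real.pi * 1 * (4 * (ε ^ 2 / ρ ^ 2)) ≤ 8 * Real.pi * η := by
        have := mul_le_mul_of_nonneg_left hε2 (by positivity : 0 ≤ 8 * Real.pi)
        linarith
      have h6 : 0 ≤ 8 * Real.pi * η := by positivity
      rw [abs_le]
      constructor <;> linarith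
    · have h5 : θ v = 1 := by
        refine hθ1 v ?_
        have h6 := hunorm i
        have h7 : ‖v‖ ≤ ‖v - u i‖ + ‖u i‖ := by
          simpa using norm_add_le (v - u i) (u i)
        nlinarith
      rw [h5]
    · have := (hθb v).1
      simpa using this
  have hmB : |(∫ v, θ v * lap P v) - 2 * Real.pi| ≤ 8 * Real.pi * η := by
    rw [hm]
    exact Energy_avg hN hm1
  -- the term with G
  have hGterm : ∫ z, θ z * G z * lap P z ≤
      2 * Real.pi * (κ + τ) + 2 * Real.pi * (M + 1) * (ε ^ 2 / r₀ ^ 2) := by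
    have hc1 : Continuous fun z => θ z * G z := hθ.continuous.mul hG.continuous
    have hc2 : HasCompactSupport fun z => θ z * G z := hθc.mul_right
    have hi : ∀ i, Integrable fun v => θ v * G v * EM (u i) ε v := fun i =>
      Energy_int (hc1.mul (EM_cont _ hε)) hc2.mul_right
    have h1 : ∫ z, θ z * G z * lap P z = 1 / N * ∑ i, ∫ v, θ v * G v * EM (u i) ε v := by
      rw [← integral_finsetSum _ fun i _ => hi i, ← integral_const_mul]
      congr 1
      funext v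
      rw [hPdef, EP_lap u hε, Finset.mul_sum, Finset.mul_sum, Finset.mul_sum]
      exact Finset.sum_congr rfl fun i _ => by ring
    have h2 : ∀ i, ∫ v, θ v * G v * EM (u i) ε v ≤
        2 * Real.pi * (κ + τ) + 2 * Real.pi * (M + 1) * (ε ^ 2 / r₀ ^ 2) := by
      intro i
      refine Energy_upper hc1 hc2 (u i) hε hr0 (by linarith) (fun v hv => ?_) (fun v => ?_)
      · have h3 := (hGg v).2
        have h4 := hκ i v hv
        have h5 := (hθb v).2
        have h6 := hG0 v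
        calc θ v * G v ≤ 1 * G v := by gcongr
          _ ≤ κ + τ := by linarith
      · by_cases hv : 3 * ρ / 2 ≤ ‖v‖
        · rw [hθ0 v hv, zero_mul]
          linarith
        · push Not at hv
          have h3 := (hGg v).2
          have h4 := hgM v (by linarith)
          have h5 := (hθb v).2
          have h6 := hG0 v
          calc θ v * G v ≤ 1 * G v := by gcongr
            _ ≤ κ + τ + (M + 1) := by linarith
    rw [h1]
    calc 1 / (N : ℝ) * ∑ i, ∫ v, θ v * G v * EM (u i) ε v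
        ≤ 1 / (N : ℝ) * ∑ _i : Fin N, (2 * Real.pi * (κ + τ) +
          2 * Real.pi * (M + 1) * (ε ^ 2 / r₀ ^ 2)) := by
          refine mul_le_mul_of_nonneg_left (Finset.sum_le_sum fun i _ => h2 i) (by positivity)
      _ = _ := by
          simp only [Finset.sum_const, Finset.card_univ, Fintype.card_fin, nsmul_eq_mul]
          field_simp
  -- the logarithmic energy
  have hθP : ContDiff ℝ 2 (fun z => θ z * P z) := hθ.mul hP
  have hθPc : HasCompactSupport (fun z => θ z * P z) := hθc.mul_right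
  have hPP : ∀ v, 0 ≤ lap P v := by
    intro v
    rw [hPdef, EP_lap u hε]
    exact mul_nonneg (by positivity) (Finset.sum_nonneg fun i _ => EM_nonneg _ hε v)
  have hsub : ∀ j, P (u j) * (2 * Real.pi) ≤ (∫ v, θ v * P v * EM (u j) ε v) +
      2 * (ε ^ 2 / ρ ^ 2) * ∫ v, |K v| := by
    intro j
    have h1 := Energy_submean hθP hθPc hKc hKcs (fun v => ?_) (u j) (δ := 2 * (ε ^ 2 / ρ ^ 2)) hε
      (fun v hv => ?_)
    · simpa [hθu j] using h1
    · have h2 := hKeq v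
      have h3 := mul_nonneg (hθb v).1 (hPP v)
      linarith
    · have h2 : ρ ≤ ‖v‖ := by
        by_contra hcon
        push Not at hcon
        exact hv (hKz v (Or.inl hcon))
      have h3 := (hfar v h2 j).1
      have h4 : (ρ / 2) ^ 2 ≤ ‖v - u j‖ ^ 2 := by gcongr
      have h5 : 2 * (2 * (ε ^ 2 / ρ ^ 2)) * (ρ / 2) ^ 2 = ε ^ 2 := by
        field_simp
      calc ε ^ 2 = 2 * (2 * (ε ^ 2 / ρ ^ 2)) * (ρ / 2) ^ 2 := h5.symm
        _ ≤ 2 * (2 * (ε ^ 2 / ρ ^ 2)) * ‖v - u j‖ ^ 2 := by gcongr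
  have hPterm : - (∫ z, θ z * P z * lap P z) ≤
      2 * Real.pi * (-(1 / (N : ℝ) ^ 2) * ∑ i, ∑ j, Real.log ‖u i - u j‖ +
        1 / N * Real.log (1 / ε)) + 16 * η * C₁ * (M + 10) := by
    have hi : ∀ i, Integrable fun v => θ v * P v * EM (u i) ε v := fun i =>
      Energy_int (hθP.continuous.mul (EM_cont _ hε)) hθPc.mul_right
    have h1 : ∫ z, θ z * P z * lap P z = 1 / N * ∑ i, ∫ v, θ v * P v * EM (u i) ε v := by
      rw [← integral_finsetSum _ fun i _ => hi i, ← integral_const_mul]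
      congr 1
      funext v
      rw [hPdef, EP_lap u hε, Finset.mul_sum, Finset.mul_sum, Finset.mul_sum]
      exact Finset.sum_congr rfl fun i _ => by ring
    have h2 : ∀ j, 2 * Real.pi * (1 / (N : ℝ) * (∑ i, Real.log ‖u i - u j‖ + Real.log ε)) -
        16 * η * C₁ * (M + 10) ≤ ∫ v, θ v * P v * EM (u j) ε v := by
      intro j
      have h3 := hsub j
      have h4 := EP_at hN u hu hε j
      rw [← hPdef] at h4
      have h5 : 2 * (ε ^ 2 / ρ ^ 2) * ∫ v, |K v| ≤ 2 * η * (8 * C₁ * (M + 10)) := by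
        gcongr
      have h6 := mul_le_mul_of_nonneg_left h4 (by positivity : 0 ≤ 2 * Real.pi)
      linarith
    have h3 := Finset.sum_le_sum fun j (_ : j ∈ Finset.univ) => h2 j
    rw [Finset.sum_sub_distrib, ← Finset.mul_sum, ← Finset.mul_sum, Finset.sum_add_distrib] at h3
    simp only [Finset.sum_const, Finset.card_univ, Fintype.card_fin, nsmul_eq_mul] at h3
    have h4 : ∑ j, ∑ i, Real.log ‖u i - u j‖ = ∑ i, ∑ j, Real.log ‖u i - u j‖ := Finset.sum_comm
    rw [h4] at h3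
    rw [h1]
    set S := ∑ i, ∑ j, Real.log ‖u i - u j‖ with hS
    have h5 := mul_le_mul_of_nonneg_left h3 (by positivity : 0 ≤ 1 / (N : ℝ))
    have h6 : 1 / (N : ℝ) * (2 * Real.pi * (1 / (N : ℝ) * (S + N * Real.log ε)) -
        N * (16 * η * C₁ * (M + 10))) =
        2 * Real.pi * (1 / (N : ℝ) ^ 2 * S + 1 / N * Real.log ε) - 16 * η * C₁ * (M + 10) := by
      field_simp
    rw [h6] at h5
    have h7 : Real.log (1 / ε) = - Real.log ε := by rw [one_div, Real.log_inv]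
    rw [h7]
    linarith
  -- the two steps
  have hφ1 : ∀ v, φ v ≠ 0 → ‖v‖ < ρ := by
    intro v hv
    have := hφs (subset_tsupport φ hv)
    rwa [mem_ball_zero_iff] at this
  have hlapφ : ∀ v, lap φ v ≠ 0 → ‖v‖ < ρ := by
    intro v hv
    by_contra hcon
    apply hv
    have h1 : v ∉ tsupport φ := fun h => hcon (by simpa using hφs h)
    have h2 : φ =ᶠ[𝓝 v] fun _ => 0 := notMem_tsupport_iff_eventuallyEq.1 h1
    rw [Energy_lap_congr h2, Energy_lap_const]
  have hs1 := Energy_step1 (V := V) (t := t) hθ hθc (fun v => (hθb v).1) hP hG hφ hφc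
    (fun v => by
      by_cases hv : φ v = 0
      · rw [hv, mul_zero]
      · rw [hθ1 v (hφ1 v hv).le, one_mul])
    (fun v => by
      by_cases hv : lap φ v = 0
      · rw [hv, mul_zero]
      · rw [hθ1 v (hlapφ v hv).le, one_mul])
    (fun v => by
      by_cases hv : φ v = 0
      · rw [hv, zero_mul]
      · rw [(hθz v (Or.inl (hφ1 v hv))).2.2, mul_zero])
  have hs2 := Energy_step2 (V := V) hθ hθc (fun v => (hθb v).1) hP hG hG0 hG1 hKeq
  -- the term with `φ ΔP`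
  have hiφ : Integrable fun z => |φ z| :=
    Energy_int hφ.continuous.abs (hφc.comp_left (g := fun x : ℝ => |x|) abs_zero)
  have hφP : |∫ z, φ z * lap P z| ≤ 2 * ε ^ 2 / d ^ 4 * ∫ z, |φ z| := by
    have h1 : ∀ z, |φ z * lap P z| ≤ 2 * ε ^ 2 / d ^ 4 * |φ z| := by
      intro z
      by_cases hz : φ z = 0
      · simp [hz]
      · rw [abs_mul, mul_comm, abs_of_nonneg (hPP z)]
        refine mul_le_mul_of_nonneg_right ?_ (abs_nonneg _)
        rw [hPdef, EP_lap u hε]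
        have h2 : ∀ i, EM (u i) ε z ≤ 2 * ε ^ 2 / d ^ 4 := by
          intro i
          have h3 := hφd i z (subset_tsupport φ hz)
          unfold EM
          rw [EDn_eq]
          have h4 : d ^ 4 ≤ (ε ^ 2 + ‖z - u i‖ ^ 2) ^ 2 := by
            have h5 : d ^ 2 ≤ ε ^ 2 + ‖z - u i‖ ^ 2 := by
              have : d ^ 2 ≤ ‖z - u i‖ ^ 2 := by gcongr
              linarith [sq_nonneg ε]
            calc d ^ 4 = (d ^ 2) ^ 2 := by ring
              _ ≤ _ := by gcongr
          gcongr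
        calc 1 / (N : ℝ) * ∑ i, EM (u i) ε z ≤ 1 / (N : ℝ) * ∑ _i : Fin N, 2 * ε ^ 2 / d ^ 4 := by
              refine mul_le_mul_of_nonneg_left (Finset.sum_le_sum fun i _ => h2 i) (by positivity)
          _ = _ := by
              simp only [Finset.sum_const, Finset.card_univ, Fintype.card_fin, nsmul_eq_mul]
              field_simp
    rw [← integral_const_mul]
    have h2 := norm_integral_le_of_norm_le (f := fun z => φ z * lap P z)
      (hiφ.const_mul (2 * ε ^ 2 / d ^ 4)) (Eventually.of_forall h1)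
    exact h2
  -- from `G` to `g`
  have cφ := Energy_lap_cont hφ
  have kφ := Energy_lap_hcs hφc
  have hilap : Integrable fun z => |lap φ z| :=
    Energy_int cφ.abs (kφ.comp_left (g := fun x : ℝ => |x|) abs_zero)
  have hGg' : |(∫ z, g z * lap φ z) - ∫ z, G z * lap φ z| ≤ τ * ∫ z, |lap φ z| := by
    have j1 : Integrable fun z => g z * lap φ z := Energy_int (hg.mul cφ) kφ.mul_left
    have j2 : Integrable fun z => G z * lap φ z := Energy_int (hG.continuous.mul cφ) kφ.mul_left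
    rw [← integral_sub j1 j2, ← integral_const_mul, ← Real.norm_eq_abs]
    refine norm_integral_le_of_norm_le (hilap.const_mul τ) (Eventually.of_forall fun z => ?_)
    rw [← sub_mul, norm_mul, Real.norm_eq_abs, Real.norm_eq_abs]
    refine mul_le_mul_of_nonneg_right ?_ (abs_nonneg _)
    obtain ⟨h1, h2⟩ := hGg z
    rw [abs_le]
    constructor <;> linarith
  -- final assembly
  have f1 : 2 * t * (∫ z, g z * lap φ z) ≤ 2 * t * (∫ z, G z * lap φ z) +
      |t| * (2 * τ * ∫ z, |lap φ z|) := by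
    have h1 : t * ((∫ z, g z * lap φ z) - ∫ z, G z * lap φ z) ≤ |t| * (τ * ∫ z, |lap φ z|) := by
      refine (le_abs_self _).trans ?_
      rw [abs_mul]
      exact mul_le_mul_of_nonneg_left hGg' (abs_nonneg t)
    linarith
  have f2 : 2 * t * (∫ z, φ z * lap P z) ≤ |t| * (4 * ε ^ 2 / d ^ 4 * ∫ z, |φ z|) := by
    have h1 : t * (∫ z, φ z * lap P z) ≤ |t| * (2 * ε ^ 2 / d ^ 4 * ∫ z, |φ z|) := by
      refine (le_abs_self _).trans ?_
      rw [abs_mul]
      exact mul_le_mul_of_nonneg_left hφP (abs_nonneg t)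
    have e : 4 * ε ^ 2 / d ^ 4 * ∫ z, |φ z| = 2 * (2 * ε ^ 2 / d ^ 4 * ∫ z, |φ z|) := by ring
    rw [e]
    linarith
  set Im := ∫ v, θ v * lap P v with hIm
  have f3 : V * Im ≤ 2 * Real.pi * V + M * (8 * Real.pi * η) := by
    have h1 : V * (Im - 2 * Real.pi) ≤ M * (8 * Real.pi * η) := by
      refine (le_abs_self _).trans ?_
      rw [abs_mul]
      gcongr
    linarith
  have f4 : V * (∫ z, (P z - G z - V) * lap θ z) ≤ M * (16 * η * C₁) := by
    refine (le_abs_self _).trans ?_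
    rw [abs_mul]
    gcongr
  have f5 := (neg_abs_le (∫ z, (P z - G z - V) * K z))
  have f6 := le_abs_self (∫ z, (P z - G z - V) ^ 2 * lap θ z)
  obtain ⟨f7, f8, f9, f9'⟩ := Energy_num hC₁ hM2 hη
  have f10 : 16 * η * C₁ * (M + 10) ≤ 96 * C₁ * (η * M) := by
    have := mul_le_mul_of_nonneg_left f9 (by positivity : 0 ≤ 16 * C₁)
    linarith
  have f11 : 32 * η * C₁ ≤ 32 * C₁ * (η * M) := by
    have := mul_le_mul_of_nonneg_left f8 (by positivity : 0 ≤ 32 * C₁)
    linarith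
  have f12 : 2 * (2 * Real.pi * (M + 1) * (ε ^ 2 / r₀ ^ 2)) ≤ 250 * C₁ * M * ε ^ 2 / r₀ ^ 2 := by
    have e : 250 * C₁ * M * ε ^ 2 / r₀ ^ 2 = 250 * C₁ * M * (ε ^ 2 / r₀ ^ 2) := by ring
    rw [e]
    have := mul_le_mul_of_nonneg_right f9' (by positivity : 0 ≤ ε ^ 2 / r₀ ^ 2)
    linarith
  have f13 : 250 * C₁ * η * M = 250 * C₁ * (η * M) := by ring
  rw [f13]
  have f14 : 0 ≤ C₁ * (η * M) := by positivity
  linarith
end H6ea4aa
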