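import Pool.Agent.H.MP_6ea4aa_an.Util

/-!
# MP_6ea4aa: removable singularities, mean value property, Weyl's lemma
-/

set_option autoImplicit false

open Complex Set Filter Topology Metric MeasureTheory
open scoped ContDiff

namespace H6ea4aa

/-! ### `LocRe` and Mathlib's harmonic functions -/

theorem util2_harmonicAt {u : ℂ → ℝ} {z : ℂ} (h : LocRe u z) :
    InnerProductSpace.HarmonicAt u z := by
  obtain ⟨r, hr, F, hF, hu⟩ := h
  have h1 : AnalyticAt ℂ F z := hF.analyticAt (ball_mem_nhds z hr)
  have h2 := h1.harmonicAt_re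
  refine (InnerProductSpace.harmonicAt_congr_nhds ?_).1 h2
  filter_upwards [ball_mem_nhds z hr] with ζ hζ
  exact (hu ζ hζ).symm

theorem util2_locRe {u : ℂ → ℝ} {z : ℂ} (h : InnerProductSpace.HarmonicAt u z) : LocRe u z := by
  obtain ⟨ε, hε, hball⟩ := Metric.isOpen_iff.1
    (InnerProductSpace.isOpen_setOfPred_harmonicAt (f := u)) z h
  obtain ⟨F, hF, hu⟩ := InnerProductSpace.HarmonicOnNhd.exists_analyticOnNhd_ball_re_eq
    (f := u) (z := z) (R := ε) (fun y hy => hball hy)
  exact ⟨ε, hε, F, hF.differentiableOn, fun ζ hζ => (hu hζ).symm⟩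

theorem util2_mean {u : ℂ → ℝ} {z : ℂ} {r : ℝ} (hr : 0 ≤ r) (h : ∀ ζ ∈ closedBall z r, LocRe u ζ) :
    Real.circleAverage u z r = u z := by
  apply InnerProductSpace.HarmonicOnNhd.circleAverage_eq
  rw [abs_of_nonneg hr]
  exact fun ζ hζ => util2_harmonicAt (h ζ hζ)

/-! ### trigonometric polynomials -/

theorem util2_span {g : C(AddCircle (2 * Real.pi), ℂ)}
    (hg : g ∈ Submodule.span ℂ (Set.range (@fourier (2 * Real.pi)))) :
    ∃ f₁ f₂ : Polynomial ℂ, ∀ θ : ℝ, g (θ : AddCircle (2 * Real.pi)) =
      f₁.eval (exp (θ * I)) + (starRingEnd ℂ) (f₂.eval (exp (θ * I))) := by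
  induction hg using Submodule.span_induction with
  | mem x hx =>
    obtain ⟨n, rfl⟩ := hx
    have key : ∀ θ : ℝ, fourier n (θ : AddCircle (2 * Real.pi)) = exp (θ * I) ^ n := by
      intro θ
      rw [fourier_coe_apply, ← Complex.exp_int_mul]
      congr 1
      have : (Real.pi : ℂ) ≠ 0 := by exact_mod_cast Real.pi_ne_zero
      push_cast
      field_simp
    obtain ⟨m, rfl | rfl⟩ := n.eq_nat_or_neg
    · refine ⟨Polynomial.X ^ m, 0, fun θ => ?_⟩
      rw [key]; simp
    · refine ⟨0, Polynomial.X ^ m, fun θ => ?_⟩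
      rw [key]
      simp only [Polynomial.eval_zero, zero_add, Polynomial.eval_pow, Polynomial.eval_X, map_pow]
      rw [zpow_neg, zpow_natCast, ← inv_pow, ← Complex.exp_conj, ← Complex.exp_neg]
      congr 2
      simp
  | zero => exact ⟨0, 0, fun θ => by simp⟩
  | add x y _ _ hx hy =>
    obtain ⟨f₁, f₂, hf⟩ := hx
    obtain ⟨g₁, g₂, hg⟩ := hy
    refine ⟨f₁ + g₁, f₂ + g₂, fun θ => ?_⟩
    rw [ContinuousMap.add_apply, hf, hg, Polynomial.eval_add, Polynomial.eval_add, map_add]
    ring
  | smul a x _ hx =>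
    obtain ⟨f₁, f₂, hf⟩ := hx
    refine ⟨Polynomial.C a * f₁, Polynomial.C ((starRingEnd ℂ) a) * f₂, fun θ => ?_⟩
    rw [ContinuousMap.smul_apply, hf, Polynomial.eval_mul, Polynomial.eval_mul, map_mul,
      Polynomial.eval_C, Polynomial.eval_C, Complex.conj_conj, smul_eq_mul]
    ring

/-- continuous functions on the unit circle are uniformly approximated by real parts of
polynomials -/
theorem util2_approx {c : ℂ → ℝ} (hc : ContinuousOn c (sphere 0 1)) {η : ℝ} (hη : 0 < η) :
    ∃ f : Polynomial ℂ, ∀ ζ ∈ sphere (0 : ℂ) 1, |c ζ - (f.eval ζ).re| < η := by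
  have hπ : Fact (0 < 2 * Real.pi) := ⟨Real.two_pi_pos⟩
  have hmem : ∀ x : AddCircle (2 * Real.pi),
      ((AddCircle.toCircle x : Circle) : ℂ) ∈ sphere (0 : ℂ) 1 := fun x => by simp
  have hcont : Continuous (fun x : AddCircle (2 * Real.pi) =>
      ((c (AddCircle.toCircle x : Circle) : ℝ) : ℂ)) := by
    have h1 : Continuous (fun x : AddCircle (2 * Real.pi) => c (AddCircle.toCircle x : Circle)) :=
      hc.comp_continuous (continuous_induced_dom.comp AddCircle.continuous_toCircle) hmem
    exact Complex.continuous_ofReal.comp h1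
  obtain ⟨g, hg, hgd⟩ := Metric.mem_closure_iff.1
    (show (⟨_, hcont⟩ : C(AddCircle (2 * Real.pi), ℂ)) ∈
      closure (Submodule.span ℂ (Set.range (@fourier (2 * Real.pi))) :
        Set C(AddCircle (2 * Real.pi), ℂ)) from by
        have := span_fourier_closure_eq_top (T := 2 * Real.pi)
        rw [← Submodule.topologicalClosure_coe, this]
        trivial) η hη
  obtain ⟨f₁, f₂, hf⟩ := util2_span hg
  refine ⟨f₁ + f₂, ?_⟩
  intro ζ hζ
  have hζ' : ‖ζ‖ = 1 := by simpa using hζ
  have e1 : ζ = exp ((arg ζ : ℝ) * I) := by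
    have := Complex.norm_mul_exp_arg_mul_I ζ
    rw [hζ'] at this
    simpa using this.symm
  have h1 := ContinuousMap.dist_apply_le_dist (f := ⟨_, hcont⟩) (g := g)
    ((arg ζ : ℝ) : AddCircle (2 * Real.pi))
  have h2 := h1.trans_lt hgd
  rw [hf, ← e1, dist_eq_norm] at h2
  have e2 : ((AddCircle.toCircle ((arg ζ : ℝ) : AddCircle (2 * Real.pi)) : Circle) : ℂ) = ζ := by
    rw [AddCircle.toCircle_apply_mk, Circle.coe_exp, div_self Real.two_pi_pos.ne', one_mul,
      ← e1]
  change ‖((c ((AddCircle.toCircle ((arg ζ : ℝ) : AddCircle (2 * Real.pi)) : Circle) : ℂ) : ℝ)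
    : ℂ) - _‖ < η at h2
  rw [e2] at h2
  have h3 : |((c ζ : ℝ) : ℂ).re - (f₁.eval ζ + (starRingEnd ℂ) (f₂.eval ζ)).re| < η := by
    rw [← Complex.sub_re]
    exact (Complex.abs_re_le_norm _).trans_lt h2
  rw [Complex.ofReal_re, Complex.add_re, Complex.conj_re] at h3
  rw [Polynomial.eval_add, Complex.add_re]
  exact h3

/-- polynomial approximation on an arbitrary circle -/
theorem util2_approx' {u : ℂ → ℝ} {z : ℂ} {r : ℝ} (hr : 0 < r) (hc : ContinuousOn u (sphere z r))
    {η : ℝ} (hη : 0 < η) :
    ∃ h : ℂ → ℝ, (∀ ζ, LocRe h ζ) ∧ Continuous h ∧ ∀ ζ ∈ sphere z r, |u ζ - h ζ| ≤ η := by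
  have hr0 : (r : ℂ) ≠ 0 := by exact_mod_cast hr.ne'
  have hm : ∀ ζ ∈ sphere (0 : ℂ) 1, (r : ℂ) * ζ + z ∈ sphere z r := by
    intro ζ hζ
    have : ‖ζ‖ = 1 := by simpa using hζ
    rw [mem_sphere, dist_eq_norm, add_sub_cancel_right, norm_mul, this, mul_one, Complex.norm_real,
      Real.norm_eq_abs, abs_of_pos hr]
  have hcont : ContinuousOn (fun ζ : ℂ => u (r * ζ + z)) (sphere 0 1) := by
    refine hc.comp ?_ hm
    fun_prop
  obtain ⟨f, hf⟩ := util2_approx hcont hη
  have hdiff : Differentiable ℂ fun ζ => f.eval ((ζ - z) / r) := by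
    have h1 : Differentiable ℂ fun ζ : ℂ => (ζ - z) / r := by fun_prop
    exact f.differentiable.comp h1
  refine ⟨fun ζ => (f.eval ((ζ - z) / r)).re, fun ζ => ?_, ?_, fun ζ hζ => ?_⟩
  · exact ⟨1, one_pos, _, hdiff.differentiableOn, fun _ _ => rfl⟩
  · exact Complex.continuous_re.comp hdiff.continuous
  · have h1 : (ζ - z) / r ∈ sphere (0 : ℂ) 1 := by
      rw [mem_sphere_zero_iff_norm, norm_div, Complex.norm_real, Real.norm_eq_abs, abs_of_pos hr,
        ← dist_eq_norm, mem_sphere.1 hζ, div_self hr.ne']
    have h2 := hf _ h1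
    have h3 : (r : ℂ) * ((ζ - z) / r) + z = ζ := by
      field_simp
      ring
    rw [h3] at h2
    exact h2.le

/-! ### uniform limits -/

theorem util2_limit {u : ℂ → ℝ} {z : ℂ} {r : ℝ} (hr : 0 < r) (hc : ContinuousOn u (closedBall z r))
    (h : ∀ η > 0, ∃ v : ℂ → ℝ, (∀ ζ ∈ closedBall z r, LocRe v ζ) ∧
      ∀ ζ ∈ closedBall z r, |u ζ - v ζ| ≤ η) : ∀ w ∈ ball z r, LocRe u w := by
  have habs : |r| = r := abs_of_pos hr
  have hcs : ContinuousOn u (sphere z r) := hc.mono sphere_subset_closedBall
  -- Poisson formula for `u`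
  have hP : ∀ w ∈ ball z r, Real.circleAverage (poissonKernel z w • u) z r = u w := by
    intro w hw
    have hker : ContinuousOn (poissonKernel z w) (sphere z r) := by
      have h1 : poissonKernel z w =
          fun ζ => (‖ζ - z‖ ^ 2 - ‖w - z‖ ^ 2) / ‖(ζ - z) - (w - z)‖ ^ 2 := by
        funext ζ; rw [poissonKernel_def]
      rw [h1]
      apply ContinuousOn.div (by fun_prop) (by fun_prop)
      intro ζ hζ h0
      have h2 : (ζ - z) - (w - z) = 0 := by simpa using h0
      have h3 : ζ = w := by linear_combination h2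
      rw [h3] at hζ
      rw [mem_sphere] at hζ
      rw [mem_ball] at hw
      linarith
    have hkpos : ∀ ζ ∈ sphere z r, 0 ≤ poissonKernel z w ζ := by
      intro ζ hζ
      rw [poissonKernel_def]
      apply div_nonneg _ (by positivity)
      rw [mem_sphere, dist_eq_norm] at hζ
      rw [mem_ball, dist_eq_norm] at hw
      rw [hζ]
      nlinarith [norm_nonneg (w - z)]
    have hone : Real.circleAverage (poissonKernel z w) z r = 1 := by
      have h1 := InnerProductSpace.HarmonicOnNhd.circleAverage_poissonKernel_smul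
        (f := fun _ : ℂ => (1 : ℝ)) (c := z) (R := r) (w := w)
        (fun x _ => InnerProductSpace.harmonicAt_const 1) hw
      have h2 : (poissonKernel z w • fun _ : ℂ => (1 : ℝ)) = poissonKernel z w := by
        funext x; simp
      rwa [h2] at h1
    refine eq_of_forall_dist_le (fun ε hε => ?_)
    obtain ⟨v, hv, huv⟩ := h (ε / 2) (by linarith)
    have hvh : InnerProductSpace.HarmonicOnNhd v (closedBall z r) :=
      fun ζ hζ => util2_harmonicAt (hv ζ hζ)
    have h1 := hvh.circleAverage_poissonKernel_smul hw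
    have hvc : ContinuousOn v (sphere z r) := hvh.continuousOn.mono sphere_subset_closedBall
    have hi1 : CircleIntegrable (poissonKernel z w • u) z r :=
      (hker.smul hcs).circleIntegrable hr.le
    have hi2 : CircleIntegrable (poissonKernel z w • v) z r :=
      (hker.smul hvc).circleIntegrable hr.le
    have h2 : |Real.circleAverage (poissonKernel z w • u) z r - v w| ≤ ε / 2 := by
      rw [← h1, ← Real.circleAverage_sub hi1 hi2]
      refine Real.abs_circleAverage_le_circleAverage_abs.trans ?_
      have h3 : Real.circleAverage (fun ζ => poissonKernel z w ζ * (ε / 2)) z r = ε / 2 := by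
        have h4 : (fun ζ => poissonKernel z w ζ * (ε / 2)) = (ε / 2) • poissonKernel z w := by
          funext ζ; simp [mul_comm]
        rw [h4, Real.circleAverage_smul, hone, smul_eq_mul, mul_one]
      rw [← h3]
      apply Real.circleAverage_mono
      · exact ((hker.smul hcs).sub (hker.smul hvc)).abs.circleIntegrable hr.le
      · exact (hker.mul continuousOn_const).circleIntegrable hr.le
      · rw [habs]
        intro ζ hζ
        simp only [Pi.abs_apply, Pi.sub_apply, smul_eq_mul, Pi.mul_apply]
        rw [← mul_sub, abs_mul, abs_of_nonneg (hkpos ζ hζ)]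
        exact mul_le_mul_of_nonneg_left (huv ζ (sphere_subset_closedBall hζ)) (hkpos ζ hζ)
    have h3 := huv w (ball_subset_closedBall hw)
    rw [Real.dist_eq]
    calc |Real.circleAverage (poissonKernel z w • u) z r - u w|
        = |(Real.circleAverage (poissonKernel z w • u) z r - v w) - (u w - v w)| := by
          congr 1; ring
      _ ≤ |Real.circleAverage (poissonKernel z w • u) z r - v w| + |u w - v w| := abs_sub _ _
      _ ≤ ε := by linarith
  -- the holomorphic function
  have hcs0 : CircleIntegrable (fun ζ => u (ζ + z)) 0 r := by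
    apply ContinuousOn.circleIntegrable hr.le
    refine hcs.comp (by fun_prop) ?_
    intro ζ hζ
    have : ‖ζ‖ = r := by simpa using hζ
    rw [mem_sphere, dist_eq_norm, add_sub_cancel_right, this]
  have hcs1 : CircleIntegrable (fun ζ => ((u (ζ + z) : ℝ) : ℂ)) 0 r := by
    simp only [CircleIntegrable, intervalIntegrable_iff] at hcs0 ⊢
    exact Complex.ofRealCLM.integrable_comp hcs0
  have hF := differentiableOn_circleAverage_herglotzRieszKernel_smul hcs1
  intro w hw
  obtain ⟨ε, hε, hball⟩ := Metric.isOpen_iff.1 isOpen_ball w hw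
  refine ⟨ε, hε, fun w => Real.circleAverage
    (fun ζ => herglotzRieszKernel 0 (w - z) ζ • ((u (ζ + z) : ℝ) : ℂ)) 0 r, ?_, ?_⟩
  · refine DifferentiableOn.comp (g := fun w => Real.circleAverage
      (fun ζ => herglotzRieszKernel 0 w ζ • ((u (ζ + z) : ℝ) : ℂ)) 0 r) (f := fun w => w - z) hF
      (by fun_prop) ?_
    intro x hx
    have := hball hx
    rw [mem_ball, dist_eq_norm] at this
    rw [mem_ball_zero_iff]
    exact this
  · intro x hx
    have hx' := hball hx
    have hx0 : x - z ∈ ball (0 : ℂ) r := by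
      rw [mem_ball, dist_eq_norm] at hx'
      rw [mem_ball_zero_iff]
      exact hx'
    rw [re_circleAverage_herglotzRieszKernel_smul hcs0 hx0, ← hP x hx',
      ← Real.circleAverage_map_add_const]
    congr 1
    funext ζ
    simp only [Pi.smul_apply', Function.comp_apply, smul_eq_mul]
    rw [poissonKernel_eq_re_herglotzRieszKernel]
    simp only [Function.comp_apply, herglotzRieszKernel_add_const]

/-! ### a maximum principle for functions with the mean value property -/

theorem util2_normsq_avg (z w : ℂ) (s : ℝ) :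
    Real.circleAverage (fun ζ => ‖ζ - z‖ ^ 2) w s = ‖w - z‖ ^ 2 + s ^ 2 := by
  have hd : Differentiable ℂ (fun ζ : ℂ => (starRingEnd ℂ) (w - z) * (ζ - w)) := by fun_prop
  have h1 : Real.circleAverage (fun ζ : ℂ => (starRingEnd ℂ) (w - z) * (ζ - w)) w s = 0 := by
    have := (hd.diffContOnCl (s := ball w |s|)).circleAverage
    simpa using this
  have hci : CircleIntegrable (fun ζ : ℂ => (starRingEnd ℂ) (w - z) * (ζ - w)) w s :=
    hd.continuous.continuousOn.circleIntegrable'
  have h2 := ContinuousLinearMap.circleAverage_comp_comm Complex.reCLM hci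
  rw [h1] at h2
  have h2' : Real.circleAverage (fun ζ : ℂ => ((starRingEnd ℂ) (w - z) * (ζ - w)).re) w s = 0 :=
    h2.trans (map_zero _)
  have e : Real.circleAverage (fun ζ => ‖ζ - z‖ ^ 2) w s =
      Real.circleAverage (fun ζ => 2 * ((starRingEnd ℂ) (w - z) * (ζ - w)).re +
        (‖w - z‖ ^ 2 + s ^ 2)) w s := by
    apply Real.circleAverage_congr_sphere
    intro x hx
    have hx' : ‖x - w‖ ^ 2 = s ^ 2 := by
      rw [mem_sphere, dist_eq_norm] at hx
      rw [hx, sq_abs]
    simp only
    rw [← hx', ← Complex.normSq_eq_norm_sq, ← Complex.normSq_eq_norm_sq,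
      ← Complex.normSq_eq_norm_sq, Complex.normSq_apply, Complex.normSq_apply,
      Complex.normSq_apply]
    simp only [Complex.sub_re, Complex.sub_im, Complex.mul_re, Complex.conj_re, Complex.conj_im]
    ring
  rw [e, Real.circleAverage_fun_add, Real.circleAverage_const]
  · have h3 : (fun ζ => 2 * ((starRingEnd ℂ) (w - z) * (ζ - w)).re) =
        (2 : ℝ) • (fun ζ : ℂ => ((starRingEnd ℂ) (w - z) * (ζ - w)).re) := by
      funext ζ; simp
    rw [h3, Real.circleAverage_smul, h2', smul_zero, zero_add]
  · exact (continuous_const.mul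
      (Complex.continuous_re.comp hd.continuous)).continuousOn.circleIntegrable'
  · exact circleIntegrable_const _ _ _

theorem util2_log_locRe {z w : ℂ} (hw : w ≠ z) : LocRe (fun ζ => Real.log ‖ζ - z‖) w := by
  apply util2_locRe
  have h1 : AnalyticAt ℂ (fun ζ : ℂ => ζ - z) w := by fun_prop
  exact h1.harmonicAt_log_norm (sub_ne_zero.2 hw)

/-- the maximum principle, with an exceptional point -/
theorem util2_max {u : ℂ → ℝ} {z : ℂ} {r m : ℝ} (hr : 0 < r)
    (hc : ContinuousOn u (closedBall z r))
    (hmv : ∀ w ∈ ball z r, w ≠ z → ∃ s₀ > 0, ∀ s, 0 < s → s < s₀ →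
      Real.circleAverage u w s = u w)
    (hm : ∀ w ∈ sphere z r, u w ≤ m) : ∀ w ∈ closedBall z r, u w ≤ m := by
  -- points different from the centre
  have key : ∀ w ∈ closedBall z r, w ≠ z → u w ≤ m := by
    intro w hw hwz
    have hw0 : 0 < ‖w - z‖ := norm_pos_iff.2 (sub_ne_zero.2 hwz)
    obtain ⟨B, hB⟩ := (isCompact_closedBall z r).bddAbove_image hc
    have hB' : ∀ ζ ∈ closedBall z r, u ζ ≤ B := fun ζ hζ => hB (mem_image_of_mem _ hζ)
    have hbound : ∀ ε > 0, ∀ δ > 0, u w + δ * Real.log (‖w - z‖ / r) ≤ m + ε * r ^ 2 := by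
      intro ε hε δ hδ
      -- choose a small inner radius
      obtain ⟨ρ, hρ0, hρw, hρr, hρ⟩ : ∃ ρ > 0, ρ ≤ ‖w - z‖ ∧ ρ < r ∧
          B + δ * Real.log (ρ / r) ≤ m := by
        set ρ := min (min (‖w - z‖) (r / 2)) (r * Real.exp ((m - B) / δ)) with hρ
        have hpos : 0 < ρ := by
          rw [hρ]
          exact lt_min (lt_min hw0 (by linarith)) (by positivity)
        refine ⟨ρ, hpos, (min_le_left _ _).trans (min_le_left _ _), ?_, ?_⟩
        · exact lt_of_le_of_lt ((min_le_left _ _).trans (min_le_right _ _)) (by linarith)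
        · have h1 : ρ / r ≤ Real.exp ((m - B) / δ) := by
            rw [div_le_iff₀ hr, mul_comm]
            exact min_le_right _ _
          have h2 : Real.log (ρ / r) ≤ (m - B) / δ := by
            rw [← Real.log_exp ((m - B) / δ)]
            exact Real.log_le_log (by positivity) h1
          have h3 : δ * Real.log (ρ / r) ≤ m - B := by
            calc δ * Real.log (ρ / r) ≤ δ * ((m - B) / δ) := by gcongr
              _ = m - B := by field_simp
          linarith
      set V : ℂ → ℝ := fun ζ => u ζ + (ε * ‖ζ - z‖ ^ 2 + δ * (Real.log ‖ζ - z‖ - Real.log r))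
        with hV
      set K : Set ℂ := closedBall z r ∩ {ζ | ρ ≤ ‖ζ - z‖} with hK
      have hKc : IsCompact K := (isCompact_closedBall z r).inter_right
        (isClosed_le continuous_const (by fun_prop))
      have hKne : ∀ ζ ∈ K, ζ - z ≠ 0 := by
        intro ζ hζ h0
        have := hζ.2
        rw [mem_ofPred_eq, h0, norm_zero] at this
        linarith
      have hVc : ContinuousOn V K := by
        apply ContinuousOn.add (hc.mono inter_subset_left)
        apply ContinuousOn.add (by fun_prop)
        apply ContinuousOn.mul continuousOn_const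
        apply ContinuousOn.sub _ continuousOn_const
        apply ContinuousOn.log (by fun_prop)
        intro ζ hζ
        exact norm_ne_zero_iff.2 (hKne ζ hζ)
      have hwK : w ∈ K := ⟨hw, hρw⟩
      obtain ⟨x, hxK, hxmax⟩ := hKc.exists_isMaxOn ⟨w, hwK⟩ hVc
      have hVw : V w ≤ V x := hxmax hwK
      have hVx : V x ≤ m + ε * r ^ 2 := by
        have hxr : ‖x - z‖ ≤ r := by
          have := hxK.1
          rwa [mem_closedBall, dist_eq_norm] at this
        have hxρ : ρ ≤ ‖x - z‖ := hxK.2
        have hsq : ‖x - z‖ ^ 2 ≤ r ^ 2 := by gcongr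
        rcases hxr.eq_or_lt with h1 | h1
        · have h2 : u x ≤ m := hm x (by rw [mem_sphere, dist_eq_norm]; exact h1)
          simp only [hV]
          rw [h1, sub_self, mul_zero, add_zero]
          linarith
        rcases hxρ.eq_or_lt with h2 | h2
        · have h3 := hB' x hxK.1
          simp only [hV]
          rw [← h2, ← Real.log_div hρ0.ne' hr.ne']
          have h4 : ρ ^ 2 ≤ r ^ 2 := by gcongr
          have h5 : ε * ρ ^ 2 ≤ ε * r ^ 2 := by gcongr
          linarith
        · exfalso
          have hxb : x ∈ ball z r := by rw [mem_ball, dist_eq_norm]; exact h1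
          have hxz : x ≠ z := by
            intro h0
            exact hKne x hxK (by rw [h0, sub_self])
          obtain ⟨s₀, hs₀, hs⟩ := hmv x hxb hxz
          set s := min (s₀ / 2) (min ((r - ‖x - z‖) / 2) ((‖x - z‖ - ρ) / 2)) with hsdef
          have hspos : 0 < s := lt_min (by linarith) (lt_min (by linarith) (by linarith))
          have hss₀ : s < s₀ := lt_of_le_of_lt (min_le_left _ _) (by linarith)
          have hs1 : s < r - ‖x - z‖ :=
            lt_of_le_of_lt ((min_le_right _ _).trans (min_le_left _ _)) (by linarith)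
          have hs2 : s < ‖x - z‖ - ρ :=
            lt_of_le_of_lt ((min_le_right _ _).trans (min_le_right _ _)) (by linarith)
          have hsub : closedBall x s ⊆ K := by
            intro ζ hζ
            rw [mem_closedBall, dist_eq_norm] at hζ
            constructor
            · rw [mem_closedBall, dist_eq_norm]
              have : ‖ζ - z‖ ≤ ‖ζ - x‖ + ‖x - z‖ := norm_sub_le_norm_sub_add_norm_sub _ _ _
              linarith
            · rw [mem_ofPred_eq]
              have : ‖x - z‖ ≤ ‖x - ζ‖ + ‖ζ - z‖ := norm_sub_le_norm_sub_add_norm_sub _ _ _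
              rw [norm_sub_rev x ζ] at this
              linarith
          have hsphere : sphere x s ⊆ K := sphere_subset_closedBall.trans hsub
          have hVs : CircleIntegrable V x s := (hVc.mono hsphere).circleIntegrable hspos.le
          have hle : Real.circleAverage V x s ≤ V x := by
            apply Real.circleAverage_mono_on_of_le_circle hVs
            rw [abs_of_pos hspos]
            intro ζ hζ
            exact hxmax (hsphere hζ)
          have hus : CircleIntegrable u x s :=
            (hc.mono (hsphere.trans inter_subset_left)).circleIntegrable hspos.le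
          have hn : Continuous (fun ζ : ℂ => ε * ‖ζ - z‖ ^ 2) := by fun_prop
          have hns : CircleIntegrable (fun ζ : ℂ => ε * ‖ζ - z‖ ^ 2) x s :=
            hn.continuousOn.circleIntegrable'
          have hlc : ContinuousOn (fun ζ : ℂ => Real.log ‖ζ - z‖) (sphere x s) := by
            apply ContinuousOn.log (by fun_prop)
            intro ζ hζ
            exact norm_ne_zero_iff.2 (hKne ζ (hsphere hζ))
          have hls : CircleIntegrable (fun ζ : ℂ => δ * (Real.log ‖ζ - z‖ - Real.log r)) x s :=
            (continuousOn_const.mul (hlc.sub continuousOn_const)).circleIntegrable hspos.le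
          have hsum : CircleIntegrable (fun ζ : ℂ => ε * ‖ζ - z‖ ^ 2 +
              δ * (Real.log ‖ζ - z‖ - Real.log r)) x s := hns.add hls
          have hlavg : Real.circleAverage (fun ζ : ℂ => Real.log ‖ζ - z‖) x s =
              Real.log ‖x - z‖ := by
            apply util2_mean hspos.le
            intro ζ hζ
            exact util2_log_locRe (sub_ne_zero.1 (hKne ζ (hsub hζ)))
          have havg : Real.circleAverage V x s = V x + ε * s ^ 2 := by
            have e1 : V = fun ζ => u ζ + (ε * ‖ζ - z‖ ^ 2 +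
              δ * (Real.log ‖ζ - z‖ - Real.log r)) := rfl
            rw [e1, Real.circleAverage_fun_add hus hsum,
              Real.circleAverage_fun_add hns hls, hs s hspos hss₀]
            have e2 : (fun ζ : ℂ => ε * ‖ζ - z‖ ^ 2) = ε • (fun ζ : ℂ => ‖ζ - z‖ ^ 2) := by
              funext ζ; simp
            have e3 : (fun ζ : ℂ => δ * (Real.log ‖ζ - z‖ - Real.log r)) =
                δ • (fun ζ : ℂ => Real.log ‖ζ - z‖ - Real.log r) := by
              funext ζ; simp
            rw [e2, e3, Real.circleAverage_smul, Real.circleAverage_smul, util2_normsq_avg,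
              Real.circleAverage_fun_sub (hlc.circleIntegrable hspos.le)
                (circleIntegrable_const _ _ _), hlavg, Real.circleAverage_const]
            simp only [smul_eq_mul]
            ring
          have : 0 < ε * s ^ 2 := by positivity
          linarith
      have h3 : V w = u w + ε * ‖w - z‖ ^ 2 + δ * Real.log (‖w - z‖ / r) := by
        simp only [hV]
        rw [Real.log_div hw0.ne' hr.ne']
        ring
      have h4 : 0 ≤ ε * ‖w - z‖ ^ 2 := by positivity
      linarith
    -- let `ε, δ → 0`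
    have h1 : ∀ δ > 0, u w + δ * Real.log (‖w - z‖ / r) ≤ m := by
      intro δ hδ
      refine le_of_forall_pos_le_add (fun ε hε => ?_)
      have := hbound (ε / r ^ 2) (by positivity) δ hδ
      have h2 : ε / r ^ 2 * r ^ 2 = ε := by field_simp
      linarith
    refine le_of_forall_pos_le_add (fun ε hε => ?_)
    set L := |Real.log (‖w - z‖ / r)| + 1 with hL
    have hLpos : 0 < L := by positivity
    have h2 := h1 (ε / L) (by positivity)
    have h3 : -(ε / L * L) ≤ ε / L * Real.log (‖w - z‖ / r) := by
      rw [← mul_neg]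
      have h4 : -L ≤ Real.log (‖w - z‖ / r) := by
        have := neg_abs_le (Real.log (‖w - z‖ / r))
        linarith
      gcongr
    have h4 : ε / L * L = ε := by field_simp
    linarith
  intro w hw
  by_cases hwz : w = z
  · rw [hwz]
    -- approach the centre along `z + t`, `t → 0`
    have hzc : ContinuousAt u z := hc.continuousAt (closedBall_mem_nhds z hr)
    have hseq : Tendsto (fun n : ℕ => z + ((r / (n + 1) : ℝ) : ℂ)) atTop (𝓝 z) := by
      have h1 : Tendsto (fun n : ℕ => r / ((n : ℝ) + 1)) atTop (𝓝 0) := by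
        have := (tendsto_one_div_add_atTop_nhds_zero_nat (𝕜 := ℝ)).const_mul r
        rw [mul_zero] at this
        refine this.congr (fun n => ?_)
        ring
      have h2 : Tendsto (fun n : ℕ => ((r / ((n : ℝ) + 1) : ℝ) : ℂ)) atTop (𝓝 ((0 : ℝ) : ℂ)) :=
        (Complex.continuous_ofReal.tendsto 0).comp h1
      have h3 := h2.const_add z
      simpa using h3
    refine le_of_tendsto (hzc.tendsto.comp hseq) (Eventually.of_forall (fun n => ?_))
    have hpos : 0 < r / ((n : ℝ) + 1) := by positivity
    apply key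
    · rw [mem_closedBall, dist_eq_norm, add_sub_cancel_left, Complex.norm_real, Real.norm_eq_abs,
        abs_of_pos hpos]
      rw [div_le_iff₀ (by positivity)]
      nlinarith [(Nat.cast_nonneg n : (0 : ℝ) ≤ n)]
    · intro h0
      have h1 : ((r / ((n : ℝ) + 1) : ℝ) : ℂ) = 0 := by
        have := add_eq_left.1 h0
        exact this
      rw [Complex.ofReal_eq_zero] at h1
      linarith
  · exact key w hw hwz

/-- continuous functions with the mean value property on small circles, except possibly at the
centre, are harmonic -/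
theorem util2_key {u : ℂ → ℝ} {z : ℂ} {r : ℝ} (hr : 0 < r)
    (hc : ContinuousOn u (closedBall z r))
    (hmv : ∀ w ∈ ball z r, w ≠ z → ∃ s₀ > 0, ∀ s, 0 < s → s < s₀ →
      Real.circleAverage u w s = u w) : LocRe u z := by
  refine util2_limit hr hc (fun η hη => ?_) z (mem_ball_self hr)
  obtain ⟨h, hh, hhc, hhu⟩ := util2_approx' hr (hc.mono sphere_subset_closedBall) hη
  refine ⟨h, fun ζ _ => hh ζ, ?_⟩
  have hci : ∀ w ∈ ball z r, ∀ s, 0 < s → s < r - ‖w - z‖ → CircleIntegrable u w s := by
    intro w hw s hs hsr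
    refine (hc.mono ?_).circleIntegrable hs.le
    intro ζ hζ
    rw [mem_sphere, dist_eq_norm] at hζ
    rw [mem_closedBall, dist_eq_norm]
    have : ‖ζ - z‖ ≤ ‖ζ - w‖ + ‖w - z‖ := norm_sub_le_norm_sub_add_norm_sub _ _ _
    linarith
  have hhi : ∀ (w : ℂ) (s : ℝ), CircleIntegrable h w s := fun w s =>
    hhc.continuousOn.circleIntegrable'
  have hmvh : ∀ (w : ℂ) (s : ℝ), 0 < s → Real.circleAverage h w s = h w := fun w s hs =>
    util2_mean hs.le (fun ζ _ => hh ζ)
  have h1 : ∀ w ∈ closedBall z r, u w - h w ≤ η := by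
    refine util2_max hr (hc.sub hhc.continuousOn) ?_ ?_
    · intro w hw hwz
      obtain ⟨s₀, hs₀, hs⟩ := hmv w hw hwz
      have hwr : 0 < r - ‖w - z‖ := by
        rw [mem_ball, dist_eq_norm] at hw; linarith
      refine ⟨min s₀ (r - ‖w - z‖), lt_min hs₀ hwr, fun s h0 h1 => ?_⟩
      have h2 := hs s h0 (h1.trans_le (min_le_left _ _))
      have h3 : Real.circleAverage (fun ζ => u ζ - h ζ) w s = u w - h w := by
        rw [Real.circleAverage_fun_sub (hci w hw s h0 (h1.trans_le (min_le_right _ _))) (hhi w s),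
          h2, hmvh w s h0]
      exact h3
    · intro w hw
      exact (le_abs_self _).trans (hhu w hw)
  have h2 : ∀ w ∈ closedBall z r, h w - u w ≤ η := by
    refine util2_max hr (hhc.continuousOn.sub hc) ?_ ?_
    · intro w hw hwz
      obtain ⟨s₀, hs₀, hs⟩ := hmv w hw hwz
      have hwr : 0 < r - ‖w - z‖ := by
        rw [mem_ball, dist_eq_norm] at hw; linarith
      refine ⟨min s₀ (r - ‖w - z‖), lt_min hs₀ hwr, fun s h0 h1 => ?_⟩
      have h2 := hs s h0 (h1.trans_le (min_le_left _ _))
      have h3 : Real.circleAverage (fun ζ => h ζ - u ζ) w s = h w - u w := by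
        rw [Real.circleAverage_fun_sub (hhi w s) (hci w hw s h0 (h1.trans_le (min_le_right _ _))),
          h2, hmvh w s h0]
      exact h3
    · intro w hw
      have := hhu w hw
      rw [abs_sub_comm] at this
      exact (le_abs_self _).trans this
  intro ζ hζ
  rw [abs_le]
  have e1 := h1 ζ hζ
  have e2 := h2 ζ hζ
  constructor <;> linarith

/-- isolated singularities of continuous functions are removable -/
theorem locRe_removable {u : ℂ → ℝ} {z : ℂ} {R : ℝ} (hR : 0 < R)
    (hc : ContinuousOn u (ball z R)) (h : ∀ ζ ∈ ball z R, ζ ≠ z → LocRe u ζ) : LocRe u z := by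
  refine util2_key (r := R / 2) (by linarith)
    (hc.mono (closedBall_subset_ball (by linarith))) ?_
  intro w hw hwz
  have hw0 : 0 < ‖w - z‖ := norm_pos_iff.2 (sub_ne_zero.2 hwz)
  rw [mem_ball, dist_eq_norm] at hw
  refine ⟨min (R / 2) ‖w - z‖, lt_min (by linarith) hw0, fun s hs0 hs => ?_⟩
  have hs1 := hs.trans_le (min_le_left _ _)
  have hs2 := hs.trans_le (min_le_right _ _)
  apply util2_mean hs0.le
  intro ζ hζ
  rw [mem_closedBall, dist_eq_norm] at hζ
  apply h
  · rw [mem_ball, dist_eq_norm]
    have : ‖ζ - z‖ ≤ ‖ζ - w‖ + ‖w - z‖ := norm_sub_le_norm_sub_add_norm_sub _ _ _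
    linarith
  · intro h0
    rw [h0, norm_sub_rev] at hζ
    linarith

/-- the mean value property characterises harmonic functions -/
theorem locRe_of_mean {u : ℂ → ℝ} {D : Set ℂ} (hD : IsOpen D) (hc : ContinuousOn u D)
    (h : ∀ z ∈ D, ∀ r : ℝ, 0 < r → closedBall z r ⊆ D → Real.circleAverage u z r = u z) :
    ∀ z ∈ D, LocRe u z := by
  intro z hz
  obtain ⟨ε, hε, hball⟩ := Metric.isOpen_iff.1 hD z hz
  have hsub : closedBall z (ε / 2) ⊆ D := (closedBall_subset_ball (by linarith)).trans hball
  refine util2_key (r := ε / 2) (by linarith) (hc.mono hsub) ?_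
  intro w hw _
  rw [mem_ball, dist_eq_norm] at hw
  refine ⟨ε / 2, by linarith, fun s hs0 hs => ?_⟩
  apply h w (hsub (by rw [mem_closedBall, dist_eq_norm]; exact hw.le)) s hs0
  refine Subset.trans ?_ hball
  intro ζ hζ
  rw [mem_closedBall, dist_eq_norm] at hζ
  rw [mem_ball, dist_eq_norm]
  have : ‖ζ - z‖ ≤ ‖ζ - w‖ + ‖w - z‖ := norm_sub_le_norm_sub_add_norm_sub _ _ _
  linarith

/-! ### Weyl's lemma -/

/-- directional derivatives -/
noncomputable def util2_d (e : ℂ) (φ : ℂ → ℝ) (z : ℂ) : ℝ := fderiv ℝ φ z e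

theorem util2_d_smooth {φ : ℂ → ℝ} (hφ : ContDiff ℝ ∞ φ) (e : ℂ) : ContDiff ℝ ∞ (util2_d e φ) := by
  have h1 : ContDiff ℝ ∞ (fderiv ℝ φ) := hφ.fderiv_right (by norm_num)
  exact h1.clm_apply contDiff_const

theorem util2_d_supp {φ : ℂ → ℝ} (hφ : HasCompactSupport φ) (e : ℂ) :
    HasCompactSupport (util2_d e φ) := by
  have h1 : HasCompactSupport (fderiv ℝ φ) := hφ.fderiv ℝ
  exact h1.comp_left (g := fun L : ℂ →L[ℝ] ℝ => L e) (by simp)

theorem util2_d_conv {f g : ℂ → ℝ} (hf : ContDiff ℝ ∞ f) (hfc : HasCompactSupport f)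
    (hg : LocallyIntegrable g volume) (e : ℂ) :
    util2_d e (convolution f g (ContinuousLinearMap.lsmul ℝ ℝ) volume) =
      convolution (util2_d e f) g (ContinuousLinearMap.lsmul ℝ ℝ) volume := by
  funext x
  have h1 := (hfc.hasFDerivAt_convolution_left (ContinuousLinearMap.lsmul ℝ ℝ)
    (hf.of_le (by norm_num)) hg x).fderiv
  unfold util2_d
  rw [h1]
  have hex := (hfc.fderiv ℝ).convolutionExists_left
    ((ContinuousLinearMap.lsmul ℝ ℝ : ℝ →L[ℝ] ℝ →L[ℝ] ℝ).precompL ℂ)
    (hf.continuous_fderiv (by norm_num)) hg x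
  unfold convolution
  rw [ContinuousLinearMap.integral_apply hex.integrable]
  rfl

theorem util2_d_comp_sub {f : ℂ → ℝ} (hf : ContDiff ℝ ∞ f) (x e : ℂ) :
    util2_d e (fun y => f (x - y)) = fun y => - util2_d e f (x - y) := by
  funext y
  unfold util2_d
  have h1 : HasFDerivAt f (fderiv ℝ f (x - y)) (x - y) :=
    ((hf.differentiable (by norm_num)) (x - y)).hasFDerivAt
  have h2 : HasFDerivAt (fun y : ℂ => x - y) (-(ContinuousLinearMap.id ℝ ℂ)) y :=
    (hasFDerivAt_id y).const_sub x
  have h3 := (h1.comp y h2).fderiv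
  have h4 : fderiv ℝ (fun y => f (x - y)) y =
      (fderiv ℝ f (x - y)).comp (-(ContinuousLinearMap.id ℝ ℂ)) := h3
  rw [h4]
  simp

theorem util2_lap_eq {φ : ℂ → ℝ} (z : ℂ) :
    lap φ z = util2_d 1 (util2_d 1 φ) z + util2_d I (util2_d I φ) z := rfl

theorem util2_lap_comp_sub {f : ℂ → ℝ} (hf : ContDiff ℝ ∞ f) (x y : ℂ) :
    lap (fun y => f (x - y)) y = lap f (x - y) := by
  have key : ∀ e : ℂ, util2_d e (util2_d e (fun y => f (x - y))) y =
      util2_d e (util2_d e f) (x - y) := by
    intro e
    rw [util2_d_comp_sub hf x e]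
    have h1 : (fun y => -util2_d e f (x - y)) = -(fun y => util2_d e f (x - y)) := rfl
    have h2 : util2_d e (-(fun y => util2_d e f (x - y))) y =
        - util2_d e (fun y => util2_d e f (x - y)) y := by
      unfold util2_d
      rw [fderiv_neg]
      rfl
    rw [h1, h2, util2_d_comp_sub (util2_d_smooth hf e) x e]
    simp
  rw [util2_lap_eq, util2_lap_eq, key, key]

theorem util2_harmonic_of_lap {v : ℂ → ℝ} (hv : ContDiff ℝ ∞ v) {x : ℂ}
    (h : ∀ᶠ y in 𝓝 x, lap v y = 0) : InnerProductSpace.HarmonicAt v x := by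
  refine ⟨(hv.of_le (WithTop.coe_le_coe.2 (le_top : (2 : ℕ∞) ≤ ⊤))).contDiffAt, ?_⟩
  filter_upwards [h] with y hy
  have key : ∀ e : ℂ, util2_d e (util2_d e v) y = iteratedFDeriv ℝ 2 v y ![e, e] := by
    intro e
    rw [iteratedFDeriv_two_apply]
    simp only [Matrix.cons_val_zero, Matrix.cons_val_one]
    unfold util2_d
    have h1 : ContDiff ℝ ∞ (fderiv ℝ v) := hv.fderiv_right (by norm_num)
    have h2 : HasFDerivAt (fderiv ℝ v) (fderiv ℝ (fderiv ℝ v) y) y :=
      ((h1.differentiable (by norm_num)) y).hasFDerivAt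
    have h3 := (h2.clm_apply (hasFDerivAt_const e y)).fderiv
    rw [h3]
    simp
  rw [util2_lap_eq, key, key] at hy
  rw [InnerProductSpace.laplacian_eq_iteratedFDeriv_complexPlane]
  exact hy

/-- Weyl's lemma for continuous functions -/
theorem weyl {u : ℂ → ℝ} {D : Set ℂ} (hD : IsOpen D) (hc : ContinuousOn u D)
    (h : ∀ φ : ℂ → ℝ, ContDiff ℝ ∞ φ → HasCompactSupport φ → tsupport φ ⊆ D →
      ∫ z, u z * lap φ z = 0) :
    ∀ z ∈ D, LocRe u z := by
  intro z₀ hz₀
  obtain ⟨ε₀, hε₀, hball⟩ := Metric.isOpen_iff.1 hD z₀ hz₀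
  set r := ε₀ / 8 with hr
  have hrpos : 0 < r := by rw [hr]; linarith
  have hKD : closedBall z₀ (4 * r) ⊆ D :=
    (closedBall_subset_ball (by rw [hr]; linarith)).trans hball
  set K := closedBall z₀ (4 * r) with hK
  have hKc : IsCompact K := isCompact_closedBall _ _
  set g : ℂ → ℝ := K.indicator u with hg
  have hgi : Integrable g := by
    rw [hg, integrable_indicator_iff hKc.measurableSet]
    exact (hc.mono hKD).integrableOn_compact hKc
  have hgK : ∀ y ∈ K, g y = u y := fun y hy => by rw [hg, indicator_of_mem hy]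
  refine util2_limit (r := r) hrpos
    (hc.mono ((closedBall_subset_closedBall (by linarith)).trans hKD)) (fun η hη => ?_) z₀
    (mem_ball_self hrpos)
  have huc : UniformContinuousOn u K := hKc.uniformContinuousOn_of_continuous (hc.mono hKD)
  rw [Metric.uniformContinuousOn_iff] at huc
  obtain ⟨δ₀, hδ₀, huc⟩ := huc η hη
  set δ := min δ₀ r with hδ
  have hδpos : 0 < δ := lt_min hδ₀ hrpos
  have hδr : δ ≤ r := min_le_right _ _
  have hδδ₀ : δ ≤ δ₀ := min_le_left _ _
  let ρ : ContDiffBump (0 : ℂ) := ⟨δ / 2, δ, by linarith, by linarith⟩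
  have hρout : ρ.rOut = δ := rfl
  set f : ℂ → ℝ := ρ.normed volume with hf
  have hfs : ContDiff ℝ ∞ f := ρ.contDiff_normed
  have hfc : HasCompactSupport f := ρ.hasCompactSupport_normed
  have hft : tsupport f = closedBall 0 δ := ρ.tsupport_normed_eq
  set v : ℂ → ℝ := convolution f g (ContinuousLinearMap.lsmul ℝ ℝ) volume with hv
  have hvs : ContDiff ℝ ∞ v := hfc.contDiff_convolution_left _ hfs hgi.locallyIntegrable
  have hlapv : ∀ x ∈ ball z₀ (2 * r), lap v x = 0 := by
    intro x hx
    rw [mem_ball, dist_eq_norm] at hx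
    have hd : ∀ e : ℂ, util2_d e (util2_d e v) =
        convolution (util2_d e (util2_d e f)) g (ContinuousLinearMap.lsmul ℝ ℝ) volume := by
      intro e
      rw [hv, util2_d_conv hfs hfc hgi.locallyIntegrable e,
        util2_d_conv (util2_d_smooth hfs e) (util2_d_supp hfc e) hgi.locallyIntegrable e]
    have hex : ∀ e : ℂ, ConvolutionExistsAt (util2_d e (util2_d e f)) g x
        (ContinuousLinearMap.lsmul ℝ ℝ) volume := by
      intro e
      exact (util2_d_supp (util2_d_supp hfc e) e).convolutionExists_left _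
        (util2_d_smooth (util2_d_smooth hfs e) e).continuous hgi.locallyIntegrable x
    have h1 : lap v x = ∫ t, lap f t * g (x - t) := by
      rw [util2_lap_eq, hd 1, hd I]
      unfold convolution
      rw [← integral_add (hex 1).integrable (hex I).integrable]
      congr 1
      funext t
      rw [util2_lap_eq]
      simp only [ContinuousLinearMap.lsmul_apply, smul_eq_mul]
      ring
    have h2 : (∫ t, lap f t * g (x - t)) = ∫ y, lap f (x - y) * g y := by
      have := integral_sub_left_eq_self (fun y => lap f (x - y) * g y) (volume : Measure ℂ) x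
      rw [← this]
      simp only [sub_sub_cancel]
    have hts : tsupport (fun y => f (x - y)) ⊆ closedBall x δ := by
      apply closure_minimal _ isClosed_closedBall
      intro y hy
      rw [Function.mem_support] at hy
      have h3 : x - y ∈ tsupport f := subset_tsupport _ (Function.mem_support.2 hy)
      rw [hft, mem_closedBall_zero_iff] at h3
      rw [mem_closedBall, dist_comm, dist_eq_norm]
      exact h3
    have hxK : closedBall x δ ⊆ K := by
      intro y hy
      rw [mem_closedBall, dist_eq_norm] at hy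
      rw [hK, mem_closedBall, dist_eq_norm]
      have : ‖y - z₀‖ ≤ ‖y - x‖ + ‖x - z₀‖ := norm_sub_le_norm_sub_add_norm_sub _ _ _
      linarith
    have h3 : (∫ y, lap f (x - y) * g y) = ∫ y, u y * lap (fun y => f (x - y)) y := by
      congr 1
      funext y
      rw [util2_lap_comp_sub hfs]
      by_cases hy : y ∈ K
      · rw [hgK y hy, mul_comm]
      · have h4 : y ∉ tsupport (fun y => f (x - y)) := fun hmem => hy (hxK (hts hmem))
        have h5 : lap (fun y => f (x - y)) y = 0 := by
          rw [util2_lap_eq]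
          have h6 : ∀ e : ℂ, util2_d e (util2_d e (fun y => f (x - y))) y = 0 := by
            intro e
            have h7 : tsupport (util2_d e (util2_d e (fun y => f (x - y)))) ⊆
                tsupport (fun y => f (x - y)) := by
              have h8 : ∀ φ : ℂ → ℝ, tsupport (util2_d e φ) ⊆ tsupport φ := by
                intro φ
                refine closure_minimal ?_ (isClosed_tsupport φ)
                intro w hw
                rw [Function.mem_support] at hw
                by_contra hcon
                apply hw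
                unfold util2_d
                have h9 : fderiv ℝ φ w = 0 := by
                  have := mt (fun hmem => support_fderiv_subset ℝ hmem) hcon
                  rw [Function.notMem_support] at this
                  exact this
                rw [h9]
                rfl
              exact (h8 _).trans (h8 _)
            exact image_eq_zero_of_notMem_tsupport (fun hmem => h4 (h7 hmem))
          rw [h6, h6, add_zero]
        rw [util2_lap_comp_sub hfs] at h5
        rw [h5]
        simp
    have hcs : HasCompactSupport (fun y => f (x - y)) :=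
      HasCompactSupport.of_support_subset_isCompact (isCompact_closedBall x δ)
        ((subset_tsupport _).trans hts)
    have hsm : ContDiff ℝ ∞ (fun y => f (x - y)) := hfs.comp (contDiff_const.sub contDiff_id)
    rw [h1, h2, h3]
    exact h _ hsm hcs (hts.trans (hxK.trans hKD))
  refine ⟨v, fun ζ hζ => ?_, fun ζ hζ => ?_⟩
  · apply util2_locRe
    apply util2_harmonic_of_lap hvs
    have hζ' : ζ ∈ ball z₀ (2 * r) := by
      rw [mem_closedBall] at hζ
      rw [mem_ball]
      linarith
    filter_upwards [isOpen_ball.mem_nhds hζ'] with y hy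
    exact hlapv y hy
  · rw [mem_closedBall, dist_eq_norm] at hζ
    have hζK : ζ ∈ K := by rw [hK, mem_closedBall, dist_eq_norm]; linarith
    have h1 := ρ.dist_normed_convolution_le (μ := volume) (g := g) (x₀ := ζ) (ε := η)
      hgi.aestronglyMeasurable (fun y hy => by
        rw [hρout, mem_ball, dist_eq_norm] at hy
        have hyK : y ∈ K := by
          rw [hK, mem_closedBall, dist_eq_norm]
          have : ‖y - z₀‖ ≤ ‖y - ζ‖ + ‖ζ - z₀‖ := norm_sub_le_norm_sub_add_norm_sub _ _ _
          linarith
        rw [hgK y hyK, hgK ζ hζK]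
        refine (huc y hyK ζ hζK ?_).le
        rw [dist_eq_norm]
        linarith)
    rw [hgK ζ hζK, dist_comm, Real.dist_eq] at h1
    exact h1

/-- Liouville: a nonnegative harmonic function on the plane is constant -/
theorem locRe_liouville {u : ℂ → ℝ} (h : ∀ z, LocRe u z) (h0 : ∀ z, 0 ≤ u z) :
    ∀ z w, u z = u w := by
  obtain ⟨F, hF, hu⟩ := InnerProductSpace.HarmonicOnNhd.exists_analyticOnNhd_univ_re_eq (f := u)
    (fun z _ => util2_harmonicAt (h z))
  have hFd : Differentiable ℂ F := fun z => (hF z (mem_univ z)).differentiableAt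
  have hG : Differentiable ℂ (fun z => exp (-F z)) := hFd.neg.cexp
  have hn : ∀ z, ‖exp (-F z)‖ = Real.exp (-u z) := by
    intro z
    rw [Complex.norm_exp, Complex.neg_re, ← congrFun hu z]
  have hb : Bornology.IsBounded (range (fun z => exp (-F z))) := by
    rw [isBounded_iff_forall_norm_le]
    refine ⟨1, ?_⟩
    rintro _ ⟨z, rfl⟩
    simp only
    rw [hn z, Real.exp_le_one_iff]
    linarith [h0 z]
  intro z w
  have h1 := hG.apply_eq_apply_of_bounded hb z w
  have h2 : Real.exp (-u z) = Real.exp (-u w) := by rw [← hn, ← hn, h1]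
  have h3 := Real.exp_injective h2
  linarith

end H6ea4aa
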