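import Pool.Agent.H.MP_6ea4aa_an.GreenM

/-!
# MP_6ea4aa: consequences of volume preservation
-/

set_option autoImplicit false

open Complex Set Filter Topology Metric MeasureTheory

namespace H6ea4aa

/-- the affine map `y ↦ u + v y` with `‖v‖ = 1` preserves the area -/
theorem volume_affine (u v : ℂ) (hv : ‖v‖ = 1) :
    MeasurePreserving (fun y : ℂ => u + v * y) volume volume := by
  have h1 : MeasurePreserving (fun y : ℂ => v * y) volume volume := by
    have hL := (rotation ⟨v, mem_sphere_zero_iff_norm.2 hv⟩ : ℂ ≃ₗᵢ[ℝ] ℂ).measurePreserving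
    exact hL
  exact (measurePreserving_add_left volume u).comp h1

theorem volume_henInv_measurePreserving (c b : ℂ) (hb : ‖b‖ = 1) :
    MeasurePreserving (henInv c b) volume volume := by
  have h1 : MeasurePreserving (fun p : ℂ × ℂ => (id p.1, (p.1 ^ 2 + c) / b + -(1 / b) * p.2))
      (volume.prod volume) (volume.prod volume) := by
    refine MeasurePreserving.skew_product (MeasurePreserving.id _)
      (g := fun x y => (x ^ 2 + c) / b + -(1 / b) * y) ?_ ?_
    · have : Continuous (Function.uncurry fun x y : ℂ => (x ^ 2 + c) / b + -(1 / b) * y) := by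
        unfold Function.uncurry
        fun_prop
      exact this.measurable
    · exact Eventually.of_forall fun x =>
        (volume_affine ((x ^ 2 + c) / b) (-(1 / b)) (by simp [hb])).map_eq
  have h2 := h1.comp (Measure.measurePreserving_swap (μ := (volume : Measure ℂ)) (ν := (volume : Measure ℂ)))
  have h3 : (henInv c b) = ((fun p : ℂ × ℂ => (id p.1, (p.1 ^ 2 + c) / b + -(1 / b) * p.2)) ∘
      Prod.swap) := by
    funext p
    simp only [henInv, Function.comp, Prod.swap, id]
    refine Prod.ext rfl ?_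
    simp only
    ring
  rw [h3]
  exact h2

theorem volume_henInv_iter_continuous (c b : ℂ) (n : ℕ) : Continuous ((henInv c b)^[n]) :=
  (henInv_differentiable c b).continuous.iterate n

theorem volume_iter_left (c b : ℂ) (hb : b ≠ 0) (n : ℕ) (p : ℂ × ℂ) :
    (hen c b)^[n] ((henInv c b)^[n] p) = p :=
  Function.LeftInverse.iterate (fun q => hen_henInv c b hb q) n p

theorem volume_iter_right (c b : ℂ) (hb : b ≠ 0) (n : ℕ) (p : ℂ × ℂ) :
    (henInv c b)^[n] ((hen c b)^[n] p) = p :=
  Function.LeftInverse.iterate (fun q => henInv_hen c b hb q) n p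

/-- the compact piece of `K⁺` in the box -/
def volumeA (c b : ℂ) : Set (ℂ × ℂ) := {p | Gp c b p = 0 ∧ ‖p‖ ≤ 3 + ‖c‖}

theorem volumeA_compact (c b : ℂ) (hb : ‖b‖ = 1) : IsCompact (volumeA c b) := by
  have h : volumeA c b = (Gp c b ⁻¹' {0}) ∩ closedBall 0 (3 + ‖c‖) := by
    ext p
    simp [volumeA]
  rw [h]
  exact (isCompact_closedBall _ _).inter_left ((isClosed_singleton).preimage (Gp_continuous c b hb))

theorem volumeA_mapsTo (c b : ℂ) (hb : ‖b‖ = 1) {p : ℂ × ℂ} (hp : p ∈ volumeA c b) :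
    hen c b p ∈ volumeA c b := by
  obtain ⟨h1, h2⟩ := hp
  have h3 : Gp c b (hen c b p) = 0 := by rw [Gp_hen c b hb, h1, mul_zero]
  refine ⟨h3, ?_⟩
  have h4 : ‖p.1‖ ≤ 3 + ‖c‖ := (norm_fst_le p).trans h2
  rw [Prod.norm_def]
  refine max_le ?_ h4
  by_contra hcon
  push Not at hcon
  obtain ⟨C, hC⟩ := Gp_VP c b hb
  have h5 := (hC (hen c b p) ⟨hcon, lt_of_le_of_lt h4 hcon⟩).1
  rw [h3] at h5
  exact lt_irrefl _ h5

theorem volumeA_iter (c b : ℂ) (hb : ‖b‖ = 1) (n : ℕ) {p : ℂ × ℂ} (hp : p ∈ volumeA c b) :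
    (hen c b)^[n] p ∈ volumeA c b := by
  induction n with
  | zero => exact hp
  | succ n ih =>
    rw [Function.iterate_succ_apply']
    exact volumeA_mapsTo c b hb ih

/-- a.e. point of `A` is in `K⁻` -/
theorem volumeA_null (c b : ℂ) (hb : ‖b‖ = 1) : volume (volumeA c b \ Km c b) = 0 := by
  have hb0 : b ≠ 0 := by
    rintro rfl
    simp at hb
  have hcomp := volumeA_compact c b hb
  have hmp := volume_henInv_measurePreserving c b hb
  have hn : ∀ n : ℕ, volume (volumeA c b \ ((henInv c b)^[n]) ⁻¹' (volumeA c b)) = 0 := by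
    intro n
    have hsub : ((henInv c b)^[n]) ⁻¹' (volumeA c b) ⊆ volumeA c b := by
      intro p hp
      have := volumeA_iter c b hb n hp
      rwa [volume_iter_left c b hb0] at this
    have hm : MeasurableSet (((henInv c b)^[n]) ⁻¹' (volumeA c b)) :=
      (volume_henInv_iter_continuous c b n).measurable hcomp.measurableSet
    have he : volume (((henInv c b)^[n]) ⁻¹' (volumeA c b)) = volume (volumeA c b) :=
      (hmp.iterate n).measure_preimage hcomp.measurableSet.nullMeasurableSet
    rw [measure_sdiff hsub hm.nullMeasurableSet (by rw [he]; exact hcomp.measure_lt_top.ne), he,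
      tsub_self]
  have hU : volumeA c b \ Km c b ⊆
      ⋃ n : ℕ, (volumeA c b \ ((henInv c b)^[n]) ⁻¹' (volumeA c b)) := by
    rintro p ⟨hp, hpK⟩
    by_contra hcon
    apply hpK
    refine ⟨3 + ‖c‖, fun n => ?_⟩
    by_contra h
    apply hcon
    refine mem_iUnion.2 ⟨n, hp, fun h' => h ?_⟩
    exact h'.2
  exact measure_mono_null hU (measure_iUnion_null hn)

theorem Kp_inter_greenW (c b : ℂ) (hb : ‖b‖ = 1) {p : ℂ × ℂ} (hp : Gp c b p = 0)
    (hW : p ∈ greenW c) : p ∈ volumeA c b := by
  refine ⟨hp, ?_⟩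
  have h1 : ‖p.1‖ ≤ 3 + ‖c‖ := by
    by_contra hcon
    push Not at hcon
    have h2 : ‖p.2‖ ≤ ‖p.1‖ := by
      have : ‖p.2‖ ≤ max (3 + ‖c‖) ‖p.1‖ := hW
      rwa [max_eq_right hcon.le] at this
    have h3 := green_fst_two c b hb hcon.le h2
    have hc := norm_nonneg c
    obtain ⟨C, hC⟩ := Gp_VP c b hb
    have h4 := (hC (hen c b p) ⟨by linarith, by
      show ‖p.1‖ < _
      linarith⟩).1
    rw [Gp_hen c b hb, hp, mul_zero] at h4
    exact lt_irrefl _ h4
  rw [Prod.norm_def]
  refine max_le h1 ?_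
  have : ‖p.2‖ ≤ max (3 + ‖c‖) ‖p.1‖ := hW
  rwa [max_eq_left h1] at this

theorem interior_Kp_subset (c b : ℂ) (hb : ‖b‖ = 1) : interior (Kp c b) ⊆ Km c b := by
  have hb0 : b ≠ 0 := by
    rintro rfl
    simp at hb
  intro p hp
  -- a ball around `p` inside `K⁺`
  obtain ⟨ε, hε, hball⟩ := Metric.isOpen_iff.1 isOpen_interior p hp
  set r := min ε 1 with hr
  have hr0 : 0 < r := lt_min hε one_pos
  have hballK : ∀ q ∈ ball p r, Gp c b q = 0 := fun q hq =>
    (Gp_zero_iff c b hb q).2 (interior_subset (hball (ball_subset_ball (min_le_left _ _) hq)))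
  obtain ⟨N, hN⟩ := pow_unbounded_of_one_lt (‖p‖ + 1) (one_lt_two (α := ℝ))
  have hA : ∀ q ∈ ball p r, (hen c b)^[N] q ∈ volumeA c b := by
    intro q hq
    refine Kp_inter_greenW c b hb ?_ (green_enter c b hb q N ?_)
    · rw [Gp_iter c b hb, hballK q hq, mul_zero]
    · have h1 : ‖q‖ ≤ ‖p‖ + 1 := by
        have h2 : ‖q - p‖ < 1 := by
          rw [← dist_eq_norm]
          exact lt_of_lt_of_le hq (min_le_right _ _)
        calc ‖q‖ = ‖p + (q - p)‖ := by congr 1; abel
          _ ≤ ‖p‖ + ‖q - p‖ := norm_add_le _ _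
          _ ≤ ‖p‖ + 1 := by linarith
      have h3 := norm_snd_le q
      have : (0 : ℝ) < 2 ^ N := by positivity
      linarith
  -- the image of the ball is open
  set U : Set (ℂ × ℂ) := ((henInv c b)^[N]) ⁻¹' (ball p r) with hU
  have hUo : IsOpen U := isOpen_ball.preimage (volume_henInv_iter_continuous c b N)
  have hUA : U ⊆ volumeA c b := by
    intro q hq
    have := hA _ hq
    rwa [volume_iter_left c b hb0] at this
  have hKmc : IsClosed (Km c b) := by
    have : Km c b = Gm c b ⁻¹' {0} := by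
      ext q
      exact (Gm_zero_iff c b hb q).symm
    rw [this]
    exact isClosed_singleton.preimage (Gm_continuous c b hb)
  have hnull : volume (U \ Km c b) = 0 :=
    measure_mono_null (sdiff_subset_sdiff_left hUA) (volumeA_null c b hb)
  have hempty : U \ Km c b = ∅ := (hUo.sdiff hKmc).measure_eq_zero_iff volume |>.1 hnull
  have hq : (hen c b)^[N] p ∈ U := by
    show (henInv c b)^[N] ((hen c b)^[N] p) ∈ ball p r
    rw [volume_iter_right c b hb0]
    exact mem_ball_self hr0
  have hqK : (hen c b)^[N] p ∈ Km c b := by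
    by_contra hcon
    have : (hen c b)^[N] p ∈ U \ Km c b := ⟨hq, hcon⟩
    rw [hempty] at this
    exact this
  have hGm : ∀ n : ℕ, Gm c b ((hen c b)^[n] p) = Gm c b p / 2 ^ n := by
    intro n
    induction n with
    | zero => simp
    | succ n ih =>
      rw [Function.iterate_succ_apply', Gm_hen c b hb, ih, pow_succ, div_div]
  rw [← Gm_zero_iff c b hb] at hqK ⊢
  rw [hGm N] at hqK
  have : (2 : ℝ) ^ N ≠ 0 := by positivity
  field_simp at hqK
  simpa using hqK

theorem interior_Km_subset (c b : ℂ) (hb : ‖b‖ = 1) : interior (Km c b) ⊆ Kp c b := by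
  have hb0 : b ≠ 0 := by
    rintro rfl
    simp at hb
  have hb' : ‖1 / b‖ = 1 := by simp [hb]
  set τ : ℂ × ℂ ≃ₜ ℂ × ℂ :=
    { toFun := fun p => (p.2 / b, p.1 / b)
      invFun := fun p => (p.2 * b, p.1 * b)
      left_inv := fun p => by simp [hb0]
      right_inv := fun p => by simp [hb0]
      continuous_toFun := by fun_prop
      continuous_invFun := by fun_prop } with hτ
  have hKm : Km c b = τ ⁻¹' (Kp (c / b ^ 2) (1 / b)) := by
    ext p
    rw [← Gm_zero_iff c b hb, mem_preimage, ← Gp_zero_iff _ _ hb']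
    rfl
  have hGm : ∀ p, Gm (c / b ^ 2) (1 / b) (τ p) = Gp c b p := by
    intro p
    have e1 : c / b ^ 2 / (1 / b) ^ 2 = c := by field_simp
    have e2 : 1 / (1 / b) = b := by simp
    have e3 : (p.1 / b) / (1 / b) = p.1 := by field_simp
    have e4 : (p.2 / b) / (1 / b) = p.2 := by field_simp
    show Gp (c / b ^ 2 / (1 / b) ^ 2) (1 / (1 / b)) ((p.1 / b) / (1 / b), (p.2 / b) / (1 / b)) = _
    rw [e1, e2, e3, e4]
  intro p hp
  rw [hKm, ← τ.preimage_interior, mem_preimage] at hp
  have h := interior_Kp_subset (c / b ^ 2) (1 / b) hb' hp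
  rw [← Gm_zero_iff _ _ hb', hGm] at h
  exact (Gp_zero_iff c b hb p).1 h

end H6ea4aa
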