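import Pool.Agent.H.MP_6ea4aa_an.Win
import Pool.Agent.H.MP_6ea4aa_an.Volume

/-!
# MP_6ea4aa: further properties of the Green function in the chart
-/

set_option autoImplicit false

open Complex Set Filter Topology Metric
open scoped ContDiff

namespace H6ea4aa

/-! ### iteration of the map in the chart -/

theorem Win2_fst {c b : ℂ} (Ch : Chart c b) (n : ℕ) (q : ℂ × ℂ) :
    ((ft Ch)^[n] q).1 = 2 ^ n * q.1 := by
  induction n with
  | zero => simp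
  | succ n ih =>
    rw [Function.iterate_succ_apply']
    show 2 * ((ft Ch)^[n] q).1 = _
    rw [ih]; ring

theorem Win2_re {c b : ℂ} (Ch : Chart c b) (n : ℕ) (q : ℂ × ℂ) :
    ((ft Ch)^[n] q).1.re = 2 ^ n * q.1.re := by
  rw [Win2_fst]
  have : (2 : ℂ) ^ n = ((2 ^ n : ℝ) : ℂ) := by push_cast; rfl
  rw [this, re_ofReal_mul]

theorem Win2_GG {c b : ℂ} (hb : ‖b‖ = 1) (Ch : Chart c b) (n : ℕ) (q : ℂ × ℂ)
    (hq : 0 < q.1.re) :
    GG Ch ((ft Ch)^[n] q).1 ((ft Ch)^[n] q).2 = GG Ch q.1 q.2 / 2 ^ n := by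
  induction n with
  | zero => simp
  | succ n ih =>
    rw [Function.iterate_succ_apply']
    show GG Ch (2 * ((ft Ch)^[n] q).1) ((b / 2) * ((ft Ch)^[n] q).2 + Ch.κ ((ft Ch)^[n] q).1) = _
    rw [GG_step Ch hb (by rw [Win2_re]; positivity), ih, pow_succ]
    field_simp

theorem Win2_affine {c b : ℂ} (Ch : Chart c b) (n : ℕ) (w v v' : ℂ) :
    ((ft Ch)^[n] (w, v)).2 - ((ft Ch)^[n] (w, v')).2 = (b / 2) ^ n * (v - v') := by
  induction n with
  | zero => simp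
  | succ n ih =>
    rw [Function.iterate_succ_apply', Function.iterate_succ_apply']
    show ((b / 2) * ((ft Ch)^[n] (w, v)).2 + Ch.κ ((ft Ch)^[n] (w, v)).1) -
      ((b / 2) * ((ft Ch)^[n] (w, v')).2 + Ch.κ ((ft Ch)^[n] (w, v')).1) = _
    rw [Win2_fst, Win2_fst, pow_succ]
    linear_combination (b / 2) * ih

theorem Win2_kappa {c b : ℂ} (Ch : Chart c b) {w : ℂ} (hw : 0 ≤ w.re) :
    ‖Ch.κ w‖ ≤ 2 * Ch.C * Real.exp (3 * w.re) := by
  have h1 := Ch.κ_lead w hw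
  have h2 : ‖exp (3 * w)‖ = Real.exp (3 * w.re) := by
    rw [Complex.norm_exp]; simp
  have h3 : ‖Ch.κ w‖ ≤ ‖Ch.κ w - exp (3 * w)‖ + ‖exp (3 * w)‖ := by
    simpa using norm_add_le (Ch.κ w - exp (3 * w)) (exp (3 * w))
  have h4 : Real.exp (2 * w.re) ≤ Real.exp (3 * w.re) := Real.exp_le_exp.2 (by linarith)
  have h5 : 0 < Real.exp (3 * w.re) := Real.exp_pos _
  have hC := Ch.hC
  nlinarith [mul_le_mul_of_nonneg_left h4 (zero_le_one.trans hC)]

theorem Win2_bound {c b : ℂ} (hb : ‖b‖ = 1) (Ch : Chart c b) (q : ℂ × ℂ)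
    (hq : 0 ≤ q.1.re) (n : ℕ) :
    ‖((ft Ch)^[n] q).2‖ ≤ ‖q.2‖ + 4 * Ch.C * Real.exp (3 / 2 * (2 ^ n * q.1.re)) := by
  have hC := Ch.hC
  induction n with
  | zero =>
    have := Real.exp_pos (3 / 2 * (2 ^ 0 * q.1.re))
    simp only [Function.iterate_zero, id]
    nlinarith [mul_pos (show 0 < 4 * Ch.C by linarith) this]
  | succ n ih =>
    rw [Function.iterate_succ_apply']
    have h1 : ‖(ft Ch ((ft Ch)^[n] q)).2‖ ≤ ‖((ft Ch)^[n] q).2‖ / 2 +
        ‖Ch.κ ((ft Ch)^[n] q).1‖ := by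
      show ‖(b / 2) * ((ft Ch)^[n] q).2 + Ch.κ ((ft Ch)^[n] q).1‖ ≤ _
      refine (norm_add_le _ _).trans ?_
      rw [norm_mul, norm_div, hb]
      simp only [RCLike.norm_ofNat]
      linarith
    have h2 : 0 ≤ ((ft Ch)^[n] q).1.re := by rw [Win2_re]; positivity
    have h3 := Win2_kappa Ch h2
    rw [Win2_re] at h3
    have e1 : 3 * (2 ^ n * q.1.re) = 3 / 2 * (2 ^ (n + 1) * q.1.re) := by ring
    rw [e1] at h3
    have h4 : Real.exp (3 / 2 * (2 ^ n * q.1.re)) ≤ Real.exp (3 / 2 * (2 ^ (n + 1) * q.1.re)) := by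
      apply Real.exp_le_exp.2
      have : 0 ≤ 2 ^ n * q.1.re := by positivity
      rw [pow_succ]; nlinarith
    have h5 : 0 ≤ ‖q.2‖ := norm_nonneg _
    nlinarith [mul_le_mul_of_nonneg_left h4 (show (0 : ℝ) ≤ 2 * Ch.C by linarith)]

/-- after many iterations the orbit is well inside the window -/
theorem Win2_good {c b : ℂ} (hb : ‖b‖ = 1) {Ch : Chart c b} (W : Win Ch) {x0 : ℝ} (hx0 : 0 < x0)
    (M τ : ℝ) : ∃ m : ℕ, ∀ q : ℂ × ℂ, x0 ≤ q.1.re → ‖q.2‖ ≤ M →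
      W.S < 2 ^ m * q.1.re ∧ ‖((ft Ch)^[m] q).2‖ < Real.exp (7 / 4 * (2 ^ m * q.1.re)) ∧
      τ / 2 ^ m < 3 / 4 * (2 ^ m * q.1.re) - W.C := by
  have hC := Ch.hC
  have hWC := W.hC
  have hlim : Tendsto (fun n : ℕ => (2 : ℝ) ^ n) atTop atTop :=
    tendsto_pow_atTop_atTop_of_one_lt (by norm_num)
  obtain ⟨m, hm⟩ := (hlim.eventually_ge_atTop
    ((|W.S| + 1 + 4 * (|M| + 4 * Ch.C) + 2 * (|τ| + W.C)) / x0)).exists
  refine ⟨m, fun q hq hM => ?_⟩
  have h3 : |W.S| + 1 + 4 * (|M| + 4 * Ch.C) + 2 * (|τ| + W.C) ≤ 2 ^ m * x0 := by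
    rwa [div_le_iff₀ hx0] at hm
  have h4 : 2 ^ m * x0 ≤ 2 ^ m * q.1.re := mul_le_mul_of_nonneg_left hq (by positivity)
  set X := 2 ^ m * q.1.re with hX
  have hS := le_abs_self W.S
  have hS0 := abs_nonneg W.S
  have hM0 := abs_nonneg M
  have hM1 := le_abs_self M
  have hτ0 := abs_nonneg τ
  have hτ1 := le_abs_self τ
  refine ⟨by linarith, ?_, ?_⟩
  · have hb1 := Win2_bound hb Ch q (hx0.le.trans hq) m
    rw [← hX] at hb1
    have h5 : Real.exp (7 / 4 * X) = Real.exp (3 / 2 * X) * Real.exp (X / 4) := by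
      rw [← Real.exp_add]; congr 1; ring
    have h6 : X / 4 + 1 ≤ Real.exp (X / 4) := Real.add_one_le_exp _
    have h7 : 1 ≤ Real.exp (3 / 2 * X) := Real.one_le_exp (by linarith)
    have h8 : |M| + 4 * Ch.C < Real.exp (X / 4) := by linarith
    rw [h5]
    have h9 : Real.exp (3 / 2 * X) * (|M| + 4 * Ch.C) <
        Real.exp (3 / 2 * X) * Real.exp (X / 4) := by
      apply mul_lt_mul_of_pos_left h8 (by linarith)
    nlinarith [mul_le_mul_of_nonneg_right h7 hM0]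
  · have h5 : τ / 2 ^ m ≤ |τ| := by
      have : (1 : ℝ) ≤ 2 ^ m := one_le_pow₀ (by norm_num)
      calc τ / 2 ^ m ≤ |τ| / 2 ^ m := by gcongr
        _ ≤ |τ| := div_le_self hτ0 this
    linarith

/-- modulus of continuity of the Green function along fibers, uniformly in `w` on compact sets:
near a zero the function is small -/
theorem GG_modulus {c b : ℂ} (hb : ‖b‖ = 1) (Ch : Chart c b) (a : ℝ) (ha : 0 < a) (M κ : ℝ)
    (hκ : 0 < κ) : ∃ r > 0, ∀ t ∈ Icc 0 (2 * Real.pi), ∀ u v : ℂ, ‖u‖ ≤ M →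
      GG Ch (a + t * I) u = 0 → ‖v - u‖ ≤ r → GG Ch (a + t * I) v ≤ κ := by
  set K : Set (ℂ × ℂ) := ((fun t : ℝ => (a + t * I : ℂ)) '' (Icc 0 (2 * Real.pi))) ×ˢ
    closedBall (0 : ℂ) (M + 1) with hK
  have hKc : IsCompact K := by
    refine IsCompact.prod ?_ (isCompact_closedBall _ _)
    exact isCompact_Icc.image (by fun_prop)
  have hKs : K ⊆ {q : ℂ × ℂ | 0 < q.1.re} := by
    rintro q ⟨⟨t, -, ht⟩, -⟩
    show 0 < q.1.re
    rw [← ht]
    simpa using ha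
  have huc := hKc.uniformContinuousOn_of_continuous ((GG_continuousOn Ch hb).mono hKs)
  rw [Metric.uniformContinuousOn_iff] at huc
  obtain ⟨δ, hδ, hδb⟩ := huc κ hκ
  refine ⟨min (δ / 2) 1, by positivity, fun t ht u v hu h0 huv => ?_⟩
  have h1 : ‖v‖ ≤ M + 1 := by
    have := norm_add_le (v - u) u
    rw [sub_add_cancel] at this
    have := min_le_right (δ / 2) 1
    linarith
  have h2 : ((a + t * I : ℂ), u) ∈ K :=
    ⟨⟨t, ht, rfl⟩, by rw [mem_closedBall_zero_iff]; linarith⟩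
  have h3 : ((a + t * I : ℂ), v) ∈ K := ⟨⟨t, ht, rfl⟩, by rw [mem_closedBall_zero_iff]; exact h1⟩
  have h4 : dist ((a + t * I : ℂ), v) ((a + t * I : ℂ), u) < δ := by
    rw [Prod.dist_eq, dist_self, dist_eq_norm]
    have := min_le_left (δ / 2) 1
    rw [max_lt_iff]
    exact ⟨hδ, by linarith⟩
  have h5 := hδb _ h3 _ h2 h4
  simp only [h0, Real.dist_eq, sub_zero] at h5
  exact (le_abs_self _).trans h5.le

/-- components of fiberwise sublevel sets are bounded, locally uniformly -/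
theorem comp_bounded {c b : ℂ} (hb : ‖b‖ = 1) (Ch : Chart c b) (w₀ : ℂ) (hw₀ : 0 < w₀.re)
    (τ M : ℝ) : ∃ M' : ℝ, ∃ δ > 0, ball w₀ δ ⊆ RHP ∧ ∀ w ∈ ball w₀ δ, ∀ u : ℂ, ‖u‖ ≤ M →
      connectedComponentIn {v | GG Ch w v < τ} u ⊆ ball 0 M' := by
  obtain ⟨W⟩ := exists_win hb Ch
  obtain ⟨m, hm⟩ := Win2_good hb W (x0 := w₀.re / 2) (by linarith) M τ
  have hre : ∀ w ∈ ball w₀ (w₀.re / 2), w₀.re / 2 ≤ w.re ∧ w.re ≤ 2 * w₀.re := by
    intro w hw
    rw [mem_ball, dist_eq_norm] at hw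
    have h1 := (abs_re_le_norm (w - w₀)).trans hw.le
    rw [sub_re, abs_le] at h1
    constructor <;> linarith [h1.1, h1.2]
  set B : ℝ := Real.exp (7 / 4 * (2 ^ m * (2 * w₀.re))) +
    4 * Ch.C * Real.exp (3 / 2 * (2 ^ m * (2 * w₀.re))) with hB
  refine ⟨2 ^ m * B + 1, w₀.re / 2, by linarith, fun w hw => ?_, fun w hw u hu => ?_⟩
  · have := (hre w hw).1
    show 0 < w.re
    linarith
  obtain ⟨hw1, hw2⟩ := hre w hw
  have hwpos : 0 < w.re := by linarith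
  by_cases huS : u ∈ {v | GG Ch w v < τ}
  swap
  · rw [connectedComponentIn_eq_empty huS]
    exact empty_subset _
  set A : ℂ → ℂ := fun v => ((ft Ch)^[m] (w, v)).2 with hA
  have hAe : ∀ v, A v = (b / 2) ^ m * v + A 0 := by
    intro v
    have := Win2_affine Ch m w v 0
    rw [sub_zero] at this
    simp only [hA]
    linear_combination this
  have hAc : Continuous A := by
    have : A = fun v => (b / 2) ^ m * v + A 0 := funext hAe
    rw [this]
    fun_prop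
  set X := 2 ^ m * w.re with hX
  have hXle : X ≤ 2 ^ m * (2 * w₀.re) := by
    rw [hX]; gcongr
  have hg : ∀ v, GG Ch (2 ^ m * w) (A v) = GG Ch w v / 2 ^ m := by
    intro v
    have := Win2_GG hb Ch m (w, v) hwpos
    rw [Win2_fst] at this
    exact this
  obtain ⟨h1, h2, h3⟩ := hm (w, u) hw1 hu
  simp only [← hX] at h1 h2 h3
  have hcirc : ∀ v ∈ connectedComponentIn {v | GG Ch w v < τ} u, ‖A v‖ ≠
      Real.exp (7 / 4 * X) := by
    intro v hv hv2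
    have hvτ : GG Ch w v < τ := connectedComponentIn_subset {v | GG Ch w v < τ} u hv
    have hrew : (2 ^ m * w).re = X := by
      have : (2 : ℂ) ^ m = ((2 ^ m : ℝ) : ℂ) := by push_cast; rfl
      rw [this, re_ofReal_mul]
    have h4 := W.g4 (2 ^ m * w) (A v) (by rw [hrew]; exact h1)
      (by rw [hrew, hv2]; have := Real.exp_pos (7 / 4 * X); linarith)
      (by rw [hrew, hv2]; have := Real.exp_pos (7 / 4 * X); linarith)
    rw [hrew, hv2, Real.log_exp, hg, abs_le] at h4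
    have h5 : Real.exp (-X / 4) ≤ 1 := by
      apply Real.exp_le_one_iff.2
      have : 0 ≤ X := by positivity
      linarith
    have h6 : W.C * Real.exp (-X / 4) ≤ W.C * 1 :=
      mul_le_mul_of_nonneg_left h5 (by linarith [W.hC])
    have h7 : GG Ch w v / 2 ^ m < τ / 2 ^ m := by gcongr
    linarith [h4.1]
  have hpc : IsPreconnected (connectedComponentIn {v | GG Ch w v < τ} u) :=
    isPreconnected_connectedComponentIn
  have hmem : u ∈ connectedComponentIn {v | GG Ch w v < τ} u := mem_connectedComponentIn huS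
  have hlt : ∀ v ∈ connectedComponentIn {v | GG Ch w v < τ} u, ‖A v‖ < Real.exp (7 / 4 * X) := by
    intro v hv
    by_contra hcon
    push Not at hcon
    have hc : ContinuousOn (fun v => ‖A v‖) (connectedComponentIn {v | GG Ch w v < τ} u) :=
      (continuous_norm.comp hAc).continuousOn
    have := hpc.intermediate_value hmem hv hc
    obtain ⟨v', hv', hv'2⟩ := this ⟨h2.le, hcon⟩
    exact hcirc v' hv' hv'2
  intro v hv
  rw [mem_ball_zero_iff]
  have h4 := hlt v hv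
  have h5 : ‖A 0‖ ≤ 4 * Ch.C * Real.exp (3 / 2 * X) := by
    have := Win2_bound hb Ch (w, 0) hwpos.le m
    simpa using this
  have h6 : ‖(b / 2) ^ m * v‖ = ‖v‖ / 2 ^ m := by
    rw [norm_mul, norm_pow, norm_div, hb]
    simp
    field_simp
  have h7 : (b / 2) ^ m * v = A v - A 0 := by rw [hAe v]; ring
  have h8 : ‖v‖ / 2 ^ m ≤ B := by
    rw [← h6, h7]
    refine (norm_sub_le _ _).trans ?_
    have e1 : Real.exp (7 / 4 * X) ≤ Real.exp (7 / 4 * (2 ^ m * (2 * w₀.re))) :=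
      Real.exp_le_exp.2 (by linarith)
    have e2 : Real.exp (3 / 2 * X) ≤ Real.exp (3 / 2 * (2 ^ m * (2 * w₀.re))) :=
      Real.exp_le_exp.2 (by linarith)
    have hC := Ch.hC
    have e3 : 4 * Ch.C * Real.exp (3 / 2 * X) ≤
        4 * Ch.C * Real.exp (3 / 2 * (2 ^ m * (2 * w₀.re))) :=
      mul_le_mul_of_nonneg_left e2 (by linarith)
    rw [hB]
    linarith
  rw [div_le_iff₀ (by positivity)] at h8
  linarith

/-- where positive, the Green function in the chart is locally the real part of a holomorphic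
function of two variables -/
theorem GG_locRe2 {c b : ℂ} (hb : ‖b‖ = 1) (Ch : Chart c b) {q : ℂ × ℂ} (hq : 0 < q.1.re)
    (h : 0 < GG Ch q.1 q.2) : LocRe2 (fun q => GG Ch q.1 q.2) q := by
  obtain ⟨r, hr, F, hF, hFre, -⟩ := Gm_locRe2 c b hb (p := Ch.Pi q.1 q.2) h
  have hopen : IsOpen {q : ℂ × ℂ | 0 < q.1.re} :=
    isOpen_lt continuous_const (continuous_re.comp continuous_fst)
  have hcont : ContinuousAt (fun q : ℂ × ℂ => Ch.Pi q.1 q.2) q :=
    (Ch.Pi_diff.continuousOn).continuousAt (hopen.mem_nhds hq)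
  have hev : ∀ᶠ p in 𝓝 q, p ∈ {q : ℂ × ℂ | 0 < q.1.re} ∧
      Ch.Pi p.1 p.2 ∈ ball (Ch.Pi q.1 q.2) r :=
    (show ∀ᶠ p in 𝓝 q, p ∈ {q : ℂ × ℂ | 0 < q.1.re} from hopen.mem_nhds hq).and
      (hcont (ball_mem_nhds _ hr))
  obtain ⟨s, hs, hsb⟩ := Metric.eventually_nhds_iff_ball.1 hev
  refine ⟨s, hs, fun p => F (Ch.Pi p.1 p.2), ?_, fun p hp => hFre _ (hsb p hp).2⟩
  exact hF.comp (Ch.Pi_diff.mono fun p hp => (hsb p hp).1) fun p hp => (hsb p hp).2

/-- inverse of the map in the chart -/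
noncomputable def Win2_gt {c b : ℂ} (Ch : Chart c b) (q : ℂ × ℂ) : ℂ × ℂ :=
  (q.1 / 2, (2 / b) * (q.2 - Ch.κ (q.1 / 2)))

theorem Win2_gt_ft {c b : ℂ} (hb : ‖b‖ = 1) (Ch : Chart c b) (q : ℂ × ℂ) :
    Win2_gt Ch (ft Ch q) = q := by
  have hb0 : b ≠ 0 := by
    rintro rfl
    simp at hb
  unfold Win2_gt ft
  ext
  · simp
  · simp
    field_simp

theorem Win2_ft_gt {c b : ℂ} (hb : ‖b‖ = 1) (Ch : Chart c b) (q : ℂ × ℂ) :
    ft Ch (Win2_gt Ch q) = q := by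
  have hb0 : b ≠ 0 := by
    rintro rfl
    simp at hb
  unfold Win2_gt ft
  ext
  · simp
    field_simp
  · simp
    field_simp
    ring

theorem Win2_gt_cont {c b : ℂ} (Ch : Chart c b) : Continuous (Win2_gt Ch) := by
  have := Ch.κ_diff.continuous
  unfold Win2_gt
  fun_prop

/-- the zero set of the Green function in the chart has empty interior -/
theorem GG_nowhere {c b : ℂ} (hb : ‖b‖ = 1) (Ch : Chart c b) {q : ℂ × ℂ} (hq : 0 < q.1.re)
    (ε : ℝ) (hε : 0 < ε) : ∃ q' ∈ ball q ε, 0 < q'.1.re ∧ 0 < GG Ch q'.1 q'.2 := by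
  by_contra hcon
  push Not at hcon
  have hzero : ∀ q' ∈ ball q ε, 0 < q'.1.re → GG Ch q'.1 q'.2 = 0 := fun q' h1 h2 =>
    le_antisymm (hcon q' h1 h2) (GG_nonneg Ch hb _ _)
  obtain ⟨W⟩ := exists_win hb Ch
  obtain ⟨n, hn⟩ := Win2_good hb W (x0 := q.1.re) hq ‖q.2‖ 0
  obtain ⟨h1, h2, -⟩ := hn q le_rfl le_rfl
  set q1 := (ft Ch)^[n] q with hq1
  have hre1 : q1.1.re = 2 ^ n * q.1.re := Win2_re Ch n q
  rw [← hre1] at h1 h2
  have hbig := (W.hbig q1.1.re h1.le).2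
  have hSre : Ch.S < q1.1.re := W.hS.trans_lt h1
  obtain ⟨y1, hy1, hy1U⟩ := Ch.U_surj q1.1 q1.2 hSre (by
    have := Real.exp_pos (7 / 4 * q1.1.re)
    linarith)
  have hDD : (q1.1, y1) ∈ DD Ch.S := ⟨hSre, hy1⟩
  have hDDo := ChDD_open Ch.S
  -- inverse iteration
  have hinv : ∀ z, (ft Ch)^[n] ((Win2_gt Ch)^[n] z) = z := by
    intro z
    exact (Function.LeftInverse.iterate (Win2_ft_gt hb Ch) n) z
  have hinv2 : ∀ z, (Win2_gt Ch)^[n] ((ft Ch)^[n] z) = z := by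
    intro z
    exact (Function.LeftInverse.iterate (Win2_gt_ft hb Ch) n) z
  set Q : ℂ × ℂ → ℂ × ℂ := fun z => (Win2_gt Ch)^[n] (z.1, Ch.Uc z.1 z.2) with hQ
  have hQc : ContinuousAt Q (q1.1, y1) := by
    have h3 : ContinuousAt (fun z : ℂ × ℂ => Ch.Uc z.1 z.2) (q1.1, y1) :=
      Ch.U_diff.continuousOn.continuousAt (hDDo.mem_nhds hDD)
    have h4 : ContinuousAt (fun z : ℂ × ℂ => (z.1, Ch.Uc z.1 z.2)) (q1.1, y1) :=
      continuousAt_fst.prodMk h3
    exact ((Win2_gt_cont Ch).iterate n).continuousAt.comp h4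
  have hQ1 : Q (q1.1, y1) = q := by
    simp only [hQ]
    rw [hy1U]
    exact hinv2 q
  have hev : ∀ᶠ z in 𝓝 (q1.1, y1), z ∈ DD Ch.S ∧ Q z ∈ ball q ε := by
    refine (show ∀ᶠ z in 𝓝 (q1.1, y1), z ∈ DD Ch.S from hDDo.mem_nhds hDD).and (hQc ?_)
    rw [hQ1]
    exact ball_mem_nhds _ hε
  have hGm : ∀ᶠ z in 𝓝 (q1.1, y1), z ∈ DD Ch.S ∧ Gm c b (Ch.X z.1 z.2, z.2) = 0 := by
    filter_upwards [hev] with z hz
    refine ⟨hz.1, ?_⟩
    have h3 : (ft Ch)^[n] (Q z) = (z.1, Ch.Uc z.1 z.2) := hinv _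
    have hzre : 0 < z.1.re := by
      have := hz.1.1
      linarith [Ch.hS]
    have h4 : 2 ^ n * (Q z).1.re = z.1.re := by
      rw [← Win2_re Ch n (Q z), h3]
    have h5 : 0 < (Q z).1.re := by
      by_contra h
      push Not at h
      have : 2 ^ n * (Q z).1.re ≤ 0 := mul_nonpos_of_nonneg_of_nonpos (by positivity) h
      linarith
    have h6 := Win2_GG hb Ch n (Q z) h5
    rw [hzero _ hz.2 h5, zero_div, h3] at h6
    have h7 : GG Ch z.1 (Ch.Uc z.1 z.2) = 0 := h6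
    rw [GG, Ch.Pi_win z.1 z.2 hz.1] at h7
    exact h7
  obtain ⟨ρ, hρ, hρb⟩ := Metric.eventually_nhds_iff_ball.1 hGm
  -- a point where the derivative of `X` in `w` does not vanish
  have hXC : ContDiffOn ℂ ∞ (fun q : ℂ × ℂ => Ch.X q.1 q.2) (DD Ch.S) :=
    Pool.Agent.ParLeaf.scv_contDiffOn hDDo Ch.X_diff
  have hmemw : ∀ w ∈ ball q1.1 ρ, ((w, y1) : ℂ × ℂ) ∈ ball (q1.1, y1) ρ := by
    intro w hw
    rw [mem_ball, Prod.dist_eq, dist_self, max_lt_iff]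
    exact ⟨hw, hρ⟩
  have hXd : ∀ w ∈ ball q1.1 ρ, HasDerivAt (fun w => Ch.X w y1)
      (fderiv ℂ (fun q : ℂ × ℂ => Ch.X q.1 q.2) (w, y1) (1, 0)) w := by
    intro w hw
    have h3 : HasFDerivAt (fun q : ℂ × ℂ => Ch.X q.1 q.2)
        (fderiv ℂ (fun q : ℂ × ℂ => Ch.X q.1 q.2) (w, y1)) (w, y1) :=
      (Ch.X_diff.differentiableAt (hDDo.mem_nhds (hρb _ (hmemw w hw)).1)).hasFDerivAt
    have h4 : HasDerivAt (fun w : ℂ => ((w, y1) : ℂ × ℂ)) (1, 0) w :=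
      (hasDerivAt_id w).prodMk (hasDerivAt_const _ _)
    exact HasFDerivAt.comp_hasDerivAt (l := fun q : ℂ × ℂ => Ch.X q.1 q.2)
      (f := fun w : ℂ => ((w, y1) : ℂ × ℂ)) w h3 h4
  have hex : ∃ w2 ∈ ball q1.1 ρ,
      fderiv ℂ (fun q : ℂ × ℂ => Ch.X q.1 q.2) (w2, y1) (1, 0) ≠ 0 := by
    by_contra hno
    push Not at hno
    have hconst : ∀ w ∈ ball q1.1 ρ, Ch.X w y1 = Ch.X q1.1 y1 := by
      intro w hw
      have h3 := (convex_ball q1.1 ρ).norm_image_sub_le_of_norm_hasDerivWithin_le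
        (f := fun w => Ch.X w y1) (C := 0) (fun w hw => (hXd w hw).hasDerivWithinAt)
        (fun w hw => by rw [hno w hw, norm_zero]) (mem_ball_self hρ) hw
      simp only [zero_mul] at h3
      exact sub_eq_zero.1 (norm_le_zero_iff.1 h3)
    have hw' : q1.1 + ((ρ / 2 : ℝ) : ℂ) ∈ ball q1.1 ρ := by
      rw [mem_ball, dist_eq_norm, add_sub_cancel_left, Complex.norm_real, Real.norm_eq_abs,
        abs_of_pos (by linarith)]
      linarith
    have h3 := Ch.X_inj _ _ y1 (hρb _ (hmemw _ hw')).1 hDD (hconst _ hw')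
    have h4 := congrArg norm h3
    rw [Complex.norm_exp, Complex.norm_exp] at h4
    have h5 := Real.exp_injective h4
    simp at h5
    linarith
  obtain ⟨w2, hw2, hw2d⟩ := hex
  have hz2 := hρb _ (hmemw w2 hw2)
  set XX : ℂ × ℂ → ℂ × ℂ := fun z => (Ch.X z.1 z.2, z.2) with hXX
  have hst : HasStrictFDerivAt (fun q : ℂ × ℂ => Ch.X q.1 q.2)
      (fderiv ℂ (fun q : ℂ × ℂ => Ch.X q.1 q.2) (w2, y1)) (w2, y1) :=
    (hXC.contDiffAt (hDDo.mem_nhds hz2.1)).hasStrictFDerivAt (by simp)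
  have hst2 : HasStrictFDerivAt XX
      ((fderiv ℂ (fun q : ℂ × ℂ => Ch.X q.1 q.2) (w2, y1)).prod
        (ContinuousLinearMap.snd ℂ ℂ ℂ)) (w2, y1) :=
    hst.prodMk hasStrictFDerivAt_snd
  set L := fderiv ℂ (fun q : ℂ × ℂ => Ch.X q.1 q.2) (w2, y1) with hL
  have hsurj : LinearMap.range ((L.prod (ContinuousLinearMap.snd ℂ ℂ ℂ) :
      (ℂ × ℂ) →L[ℂ] (ℂ × ℂ)) : (ℂ × ℂ) →ₗ[ℂ] (ℂ × ℂ)) = ⊤ := by
    rw [LinearMap.range_eq_top]
    intro z
    refine ⟨((z.1 - L (0, z.2)) / L (1, 0), z.2), ?_⟩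
    have h3 : L ((z.1 - L (0, z.2)) / L (1, 0), z.2) = z.1 := by
      have e : (((z.1 - L (0, z.2)) / L (1, 0), z.2) : ℂ × ℂ) =
          ((z.1 - L (0, z.2)) / L (1, 0)) • ((1, 0) : ℂ × ℂ) + (0, z.2) := by
        ext <;> simp
      rw [e, map_add, map_smul, smul_eq_mul]
      field_simp
      ring
    show (L ((z.1 - L (0, z.2)) / L (1, 0), z.2), z.2) = z
    rw [h3]
  have hmap := hst2.map_nhds_eq_of_surj hsurj
  have hnhds : ∀ᶠ z in 𝓝 (w2, y1), Gm c b (XX z) = 0 := by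
    filter_upwards [isOpen_ball.mem_nhds (hmemw w2 hw2)] with z hz
    exact (hρb z hz).2
  have hKm : Km c b ∈ 𝓝 (XX (w2, y1)) := by
    rw [← hmap, mem_map]
    filter_upwards [hnhds] with z hz
    exact (Gm_zero_iff c b hb _).1 hz
  have hint : XX (w2, y1) ∈ interior (Km c b) := mem_interior_iff_mem_nhds.2 hKm
  have hKp := interior_Km_subset c b hb hint
  rw [← Gp_zero_iff c b hb] at hKp
  have hw2re : 0 < w2.re := by
    have := hz2.1.1
    simp only at this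
    linarith [Ch.hS]
  have h3 := Ch.Pi_Gp w2 (Ch.Uc w2 y1) hw2re
  rw [Ch.Pi_win w2 y1 hz2.1] at h3
  have h4 : Gp c b (Ch.X w2 y1, y1) = 0 := hKp
  linarith

end H6ea4aa
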