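import Pool.Agent.H.MP_6ea4aa_an.Small
import Pool.Agent.H.MP_6ea4aa_an.Energy
import Pool.Agent.H.MP_6ea4aa_an.Util2
import Pool.Agent.H.MP_6ea4aa_an.Win2

/-!
# MP_6ea4aa: density: away from the graphs the Green function is fiberwise harmonic
-/

set_option autoImplicit false

open Complex Set Filter Topology Metric MeasureTheory
open scoped ContDiff

namespace H6ea4aa


theorem dense_d_aff {f : ℂ → ℝ} (hf : ContDiff ℝ ∞ f) (ρ γ e : ℂ) :
    util2_d e (fun v => f (ρ * v + γ)) = fun v => util2_d (ρ * e) f (ρ * v + γ) := by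
  funext v
  unfold util2_d
  have h1 : HasFDerivAt f (fderiv ℝ f (ρ * v + γ)) (ρ * v + γ) :=
    ((hf.differentiable (by norm_num)) _).hasFDerivAt
  have h2 : HasFDerivAt (fun v : ℂ => ρ * v + γ) ((ContinuousLinearMap.mul ℝ ℂ) ρ) v :=
    (((ContinuousLinearMap.mul ℝ ℂ) ρ).hasFDerivAt).add_const γ
  have h3 : fderiv ℝ (fun v => f (ρ * v + γ)) v =
      (fderiv ℝ f (ρ * v + γ)).comp ((ContinuousLinearMap.mul ℝ ℂ) ρ) := (h1.comp v h2).fderiv
  rw [h3]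
  simp

theorem dense_d_lin {f : ℂ → ℝ} (a z : ℂ) :
    util2_d a f z = a.re * util2_d 1 f z + a.im * util2_d I f z := by
  unfold util2_d
  have h : a = (a.re : ℝ) • (1:ℂ) + (a.im : ℝ) • I := by
    apply Complex.ext <;> simp
  conv_lhs => rw [h]
  rw [map_add, map_smul, map_smul]
  simp

theorem dense_d_lin2 {f : ℂ → ℝ} (hf : ContDiff ℝ ∞ f) (a b z : ℂ) :
    util2_d b (util2_d a f) z =
      a.re * util2_d b (util2_d 1 f) z + a.im * util2_d b (util2_d I f) z := by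
  have h1 : util2_d a f = fun z => a.re * util2_d 1 f z + a.im * util2_d I f z :=
    funext fun z => dense_d_lin a z
  have d1 : HasFDerivAt (util2_d 1 f) (fderiv ℝ (util2_d 1 f) z) z :=
    (((util2_d_smooth hf 1).differentiable (by norm_num)) z).hasFDerivAt
  have d2 : HasFDerivAt (util2_d I f) (fderiv ℝ (util2_d I f) z) z :=
    (((util2_d_smooth hf I).differentiable (by norm_num)) z).hasFDerivAt
  have h3 := ((d1.const_mul a.re).add (d2.const_mul a.im)).fderiv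
  rw [h1]
  show fderiv ℝ (fun z => a.re * util2_d 1 f z + a.im * util2_d I f z) z b = _
  have h4 : fderiv ℝ (fun z => a.re * util2_d 1 f z + a.im * util2_d I f z) z =
    a.re • fderiv ℝ (util2_d 1 f) z + a.im • fderiv ℝ (util2_d I f) z := h3
  rw [h4]
  rfl

theorem dense_lap_aff {f : ℂ → ℝ} (hf : ContDiff ℝ ∞ f) (ρ γ v : ℂ) :
    lap (fun v => f (ρ * v + γ)) v = ‖ρ‖ ^ 2 * lap f (ρ * v + γ) := by
  rw [util2_lap_eq, util2_lap_eq]
  have key : ∀ e : ℂ, util2_d e (util2_d e (fun v => f (ρ * v + γ))) v =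
      util2_d (ρ * e) (util2_d (ρ * e) f) (ρ * v + γ) := by
    intro e
    rw [dense_d_aff hf, dense_d_aff (util2_d_smooth hf _)]
  rw [key, key, dense_d_lin2 hf (ρ * 1), dense_d_lin2 hf (ρ * I), dense_d_lin (ρ * 1),
    dense_d_lin (ρ * 1), dense_d_lin (ρ * I), dense_d_lin (ρ * I), Complex.sq_norm,
    Complex.normSq_apply]
  simp
  ring

theorem dense_grad_aff {f : ℂ → ℝ} (hf : ContDiff ℝ ∞ f) (ρ γ v : ℂ) :
    dx (fun v => f (ρ * v + γ)) v ^ 2 + dy (fun v => f (ρ * v + γ)) v ^ 2 =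
      ‖ρ‖ ^ 2 * (dx f (ρ * v + γ) ^ 2 + dy f (ρ * v + γ) ^ 2) := by
  have h1 : dx (fun v => f (ρ * v + γ)) v = util2_d (ρ * 1) f (ρ * v + γ) :=
    congrFun (dense_d_aff hf ρ γ 1) v
  have h2 : dy (fun v => f (ρ * v + γ)) v = util2_d (ρ * I) f (ρ * v + γ) :=
    congrFun (dense_d_aff hf ρ γ I) v
  have h3 : dx f (ρ * v + γ) = util2_d 1 f (ρ * v + γ) := rfl
  have h4 : dy f (ρ * v + γ) = util2_d I f (ρ * v + γ) := rfl
  rw [h1, h2, h3, h4, dense_d_lin (ρ * 1), dense_d_lin (ρ * I), Complex.sq_norm,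
    Complex.normSq_apply]
  simp
  ring

theorem dense_integral_mul (f : ℂ → ℝ) {ρ : ℂ} (hρ : ρ ≠ 0) :
    ∫ v, f (ρ * v) = (‖ρ‖ ^ 2)⁻¹ * ∫ v, f v := by
  have hn : ‖ρ‖ ≠ 0 := norm_ne_zero_iff.2 hρ
  obtain ⟨a, ha⟩ : ∃ a : Circle, (a : ℂ) = ρ / ‖ρ‖ := by
    refine ⟨⟨ρ / ‖ρ‖, ?_⟩, rfl⟩
    rw [Submonoid.unitSphere, Submonoid.mem_mk, Subsemigroup.mem_mk, mem_sphere_zero_iff_norm]
    rw [norm_div, Complex.norm_real, norm_norm, div_self hn]
  have h1 : ∀ v : ℂ, f (ρ * v) = (fun z => f (rotation a z)) (‖ρ‖ • v) := by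
    intro v
    simp only [rotation_apply, ha]
    congr 1
    rw [Complex.real_smul]
    have : (‖ρ‖ : ℂ) ≠ 0 := by exact_mod_cast hn
    field_simp
  simp_rw [h1]
  rw [Measure.integral_comp_smul volume (fun z => f (rotation a z)) ‖ρ‖]
  have h2 : ∫ z, f (rotation a z) = ∫ z, f z :=
    (rotation a).measurePreserving.integral_comp (rotation a).toHomeomorph.measurableEmbedding f
  rw [h2, Complex.finrank_real_complex, abs_of_nonneg (by positivity), smul_eq_mul]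

theorem dense_integral_aff (f : ℂ → ℝ) {ρ : ℂ} (hρ : ρ ≠ 0) (γ : ℂ) :
    ∫ v, f (ρ * v + γ) = (‖ρ‖ ^ 2)⁻¹ * ∫ v, f v := by
  rw [dense_integral_mul (fun z => f (z + γ)) hρ, integral_add_right_eq_self]

/-- the rescaled test function -/
theorem dense_test {f g : ℂ → ℝ} (hf : ContDiff ℝ ∞ f) {β : ℂ} (hβ : β ≠ 0) (γ : ℂ) :
    (∫ v, g v * lap (fun v => f (β⁻¹ * v + (-(β⁻¹ * γ)))) v) = ∫ u, g (β * u + γ) * lap f u := by
  have h1 : (fun v => g v * lap (fun v => f (β⁻¹ * v + (-(β⁻¹ * γ)))) v) =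
      fun v => (fun u => g (β * u + γ) * (‖β⁻¹‖ ^ 2 * lap f u)) (β⁻¹ * v + (-(β⁻¹ * γ))) := by
    funext v
    simp only
    rw [dense_lap_aff hf]
    congr 2
    field_simp
    ring
  rw [h1, dense_integral_aff (fun u => g (β * u + γ) * (‖β⁻¹‖ ^ 2 * lap f u))
    (inv_ne_zero hβ), ← integral_const_mul]
  congr 1
  funext u
  have : ‖β⁻¹‖ ^ 2 ≠ 0 := by
    have := norm_ne_zero_iff.2 (inv_ne_zero hβ)
    positivity
  generalize ‖β⁻¹‖ ^ 2 = c at *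
  field_simp

theorem dense_test_lap {f : ℂ → ℝ} (hf : ContDiff ℝ ∞ f) {β : ℂ} (hβ : β ≠ 0) (γ : ℂ) :
    (∫ v, |lap (fun v => f (β⁻¹ * v + (-(β⁻¹ * γ)))) v|) = ∫ u, |lap f u| := by
  have h1 : (fun v => |lap (fun v => f (β⁻¹ * v + (-(β⁻¹ * γ)))) v|) =
      fun v => (fun u => ‖β⁻¹‖ ^ 2 * |lap f u|) (β⁻¹ * v + (-(β⁻¹ * γ))) := by
    funext v
    simp only
    rw [dense_lap_aff hf, abs_mul, abs_of_nonneg (by positivity : 0 ≤ ‖β⁻¹‖ ^ 2)]
  rw [h1, dense_integral_aff (fun u => ‖β⁻¹‖ ^ 2 * |lap f u|) (inv_ne_zero hβ),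
    ← integral_const_mul]
  congr 1
  funext u
  have : ‖β⁻¹‖ ^ 2 ≠ 0 := by
    have := norm_ne_zero_iff.2 (inv_ne_zero hβ)
    positivity
  generalize ‖β⁻¹‖ ^ 2 = c at *
  field_simp

theorem dense_test_grad {f : ℂ → ℝ} (hf : ContDiff ℝ ∞ f) {β : ℂ} (hβ : β ≠ 0) (γ : ℂ) :
    (∫ v, (dx (fun v => f (β⁻¹ * v + (-(β⁻¹ * γ)))) v ^ 2 +
      dy (fun v => f (β⁻¹ * v + (-(β⁻¹ * γ)))) v ^ 2)) = ∫ u, (dx f u ^ 2 + dy f u ^ 2) := by
  have h1 : (fun v => (dx (fun v => f (β⁻¹ * v + (-(β⁻¹ * γ)))) v ^ 2 +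
      dy (fun v => f (β⁻¹ * v + (-(β⁻¹ * γ)))) v ^ 2)) =
      fun v => (fun u => ‖β⁻¹‖ ^ 2 * (dx f u ^ 2 + dy f u ^ 2)) (β⁻¹ * v + (-(β⁻¹ * γ))) := by
    funext v
    simp only
    rw [dense_grad_aff hf]
  rw [h1, dense_integral_aff (fun u => ‖β⁻¹‖ ^ 2 * (dx f u ^ 2 + dy f u ^ 2))
    (inv_ne_zero hβ), ← integral_const_mul]
  congr 1
  funext u
  have : ‖β⁻¹‖ ^ 2 ≠ 0 := by
    have := norm_ne_zero_iff.2 (inv_ne_zero hβ)
    positivity
  generalize ‖β⁻¹‖ ^ 2 = c at *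
  field_simp

theorem dense_test_int {f : ℂ → ℝ} {β : ℂ} (hβ : β ≠ 0) (γ : ℂ) :
    (∫ v, |f (β⁻¹ * v + (-(β⁻¹ * γ)))|) = ‖β‖ ^ 2 * ∫ u, |f u| := by
  rw [dense_integral_aff (fun u => |f u|) (inv_ne_zero hβ), norm_inv, inv_pow, inv_inv]



theorem dense_iter {c b : ℂ} (Ch : Chart c b) (k : ℕ) (w u : ℂ) :
    (ft Ch)^[k] (w, u) = (2 ^ k * w, (b / 2) ^ k * u + ((ft Ch)^[k] (w, 0)).2) := by
  have h1 : ∀ k : ℕ, ∀ u : ℂ, ((ft Ch)^[k] (w, u)).1 = 2 ^ k * w := by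
    intro k u
    induction k with
    | zero => simp
    | succ k ih =>
      rw [Function.iterate_succ_apply']
      show 2 * ((ft Ch)^[k] (w, u)).1 = _
      rw [ih]
      ring
  have h2 : ((ft Ch)^[k] (w, u)).2 = (b / 2) ^ k * u + ((ft Ch)^[k] (w, 0)).2 := by
    induction k with
    | zero => simp
    | succ k ih =>
      rw [Function.iterate_succ_apply', Function.iterate_succ_apply']
      show (b / 2) * ((ft Ch)^[k] (w, u)).2 + Ch.κ ((ft Ch)^[k] (w, u)).1 =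
        (b / 2) ^ (k + 1) * u + ((b / 2) * ((ft Ch)^[k] (w, 0)).2 +
          Ch.κ ((ft Ch)^[k] (w, 0)).1)
      rw [h1, h1, ih]
      ring
  exact Prod.ext (h1 k u) h2

theorem dense_GG_iter {c b : ℂ} (hb : ‖b‖ = 1) (Ch : Chart c b) (k : ℕ) {w : ℂ}
    (hw : 0 < w.re) (u : ℂ) :
    GG Ch (2 ^ k * w) (((ft Ch)^[k] (w, u)).2) = GG Ch w u / 2 ^ k := by
  induction k with
  | zero => simp
  | succ k ih =>
    have h1 : ((ft Ch)^[k] (w, u)).1 = 2 ^ k * w := by rw [dense_iter]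
    have hw' : 0 < ((2:ℂ) ^ k * w).re := by
      have : ((2:ℂ) ^ k * w).re = 2 ^ k * w.re := by
        have h2 : ((2:ℂ) ^ k) = (((2:ℝ) ^ k : ℝ) : ℂ) := by push_cast; rfl
        rw [h2, Complex.re_ofReal_mul]
      rw [this]
      positivity
    rw [Function.iterate_succ_apply']
    show GG Ch (2 ^ (k + 1) * w) ((b / 2) * ((ft Ch)^[k] (w, u)).2 +
      Ch.κ ((ft Ch)^[k] (w, u)).1) = _
    rw [h1, pow_succ', mul_assoc, GG_step Ch hb hw', ih, pow_succ']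
    field_simp

theorem dense_re_pow (k : ℕ) (w : ℂ) : ((2:ℂ) ^ k * w).re = 2 ^ k * w.re := by
  have h2 : ((2:ℂ) ^ k) = (((2:ℝ) ^ k : ℝ) : ℂ) := by push_cast; rfl
  rw [h2, Complex.re_ofReal_mul]

theorem dense_im_pow (k : ℕ) (w : ℂ) : ((2:ℂ) ^ k * w).im = 2 ^ k * w.im := by
  have h2 : ((2:ℂ) ^ k) = (((2:ℝ) ^ k : ℝ) : ℂ) := by push_cast; rfl
  rw [h2, Complex.im_ofReal_mul]

theorem dense_gamma {c b : ℂ} (hb : ‖b‖ = 1) (Ch : Chart c b) (k : ℕ) {w : ℂ}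
    (hw : 0 < w.re) :
    ‖((ft Ch)^[k] (w, 0)).2‖ ≤ 2 * (1 + Ch.C) * Real.exp (3 / 2 * (2 ^ k * w.re)) := by
  have hC := Ch.hC
  induction k with
  | zero =>
    simp only [Function.iterate_zero, id, norm_zero]
    positivity
  | succ k ih =>
    have h1 : ((ft Ch)^[k] (w, 0)).1 = 2 ^ k * w := by rw [dense_iter]
    rw [Function.iterate_succ_apply']
    show ‖(b / 2) * ((ft Ch)^[k] (w, 0)).2 + Ch.κ ((ft Ch)^[k] (w, 0)).1‖ ≤ _
    rw [h1]
    have hx : 0 < 2 ^ k * w.re := by positivity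
    have hκ : ‖Ch.κ (2 ^ k * w)‖ ≤ (1 + Ch.C) * Real.exp (3 * (2 ^ k * w.re)) := by
      have h2 := Ch.κ_lead (2 ^ k * w) (by rw [dense_re_pow]; exact hx.le)
      rw [dense_re_pow] at h2
      have h3 : ‖exp (3 * (2 ^ k * w))‖ = Real.exp (3 * (2 ^ k * w.re)) := by
        rw [Complex.norm_exp]
        congr 1
        have : (3 * (2 ^ k * w) : ℂ).re = 3 * (2 ^ k * w).re := by
          rw [show (3:ℂ) = ((3:ℝ) : ℂ) by norm_num, Complex.re_ofReal_mul]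
        rw [this, dense_re_pow]
      have h4 : Real.exp (2 * (2 ^ k * w.re)) ≤ Real.exp (3 * (2 ^ k * w.re)) :=
        Real.exp_le_exp.2 (by linarith)
      calc ‖Ch.κ (2 ^ k * w)‖ = ‖(Ch.κ (2 ^ k * w) - exp (3 * (2 ^ k * w))) +
            exp (3 * (2 ^ k * w))‖ := by ring_nf
        _ ≤ ‖Ch.κ (2 ^ k * w) - exp (3 * (2 ^ k * w))‖ + ‖exp (3 * (2 ^ k * w))‖ :=
            norm_add_le _ _
        _ ≤ Ch.C * Real.exp (2 * (2 ^ k * w.re)) + Real.exp (3 * (2 ^ k * w.re)) := by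
            rw [h3]; linarith
        _ ≤ (1 + Ch.C) * Real.exp (3 * (2 ^ k * w.re)) := by
            nlinarith [Real.exp_pos (3 * (2 ^ k * w.re))]
    have hb2 : ‖b / 2‖ = 1 / 2 := by rw [norm_div, hb]; norm_num
    have h5 : Real.exp (3 / 2 * (2 ^ k * w.re)) ≤ Real.exp (3 * (2 ^ k * w.re)) :=
      Real.exp_le_exp.2 (by linarith)
    have h6 : (3 / 2 * (2 ^ (k + 1) * w.re)) = 3 * (2 ^ k * w.re) := by ring
    rw [h6]
    calc ‖(b / 2) * ((ft Ch)^[k] (w, 0)).2 + Ch.κ (2 ^ k * w)‖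
        ≤ ‖(b / 2) * ((ft Ch)^[k] (w, 0)).2‖ + ‖Ch.κ (2 ^ k * w)‖ := norm_add_le _ _
      _ ≤ 1 / 2 * (2 * (1 + Ch.C) * Real.exp (3 / 2 * (2 ^ k * w.re))) +
          (1 + Ch.C) * Real.exp (3 * (2 ^ k * w.re)) := by
          rw [norm_mul, hb2]
          gcongr
      _ ≤ 2 * (1 + Ch.C) * Real.exp (3 * (2 ^ k * w.re)) := by
          nlinarith [Real.exp_pos (3 * (2 ^ k * w.re))]

theorem dense_GG_per {c b : ℂ} (Ch : Chart c b) (m : ℤ) {w : ℂ} (hw : 0 < w.re) (u : ℂ) :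
    GG Ch (w + m * (2 * Real.pi * I)) u = GG Ch w u := by
  have hre : ∀ m : ℤ, (w + m * (2 * Real.pi * I)).re = w.re := by
    intro m; simp
  induction m using Int.induction_on with
  | zero => simp
  | succ i ih =>
    rw [← ih, ← GG_per Ch (w := w + (i : ℤ) * (2 * Real.pi * I)) (by rw [hre]; exact hw) u]
    congr 1
    push_cast
    ring
  | pred i ih =>
    rw [← ih, ← GG_per Ch (w := w + ((-(i:ℤ) - 1 : ℤ)) * (2 * Real.pi * I))
      (by rw [hre]; exact hw) u]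
    congr 1
    push_cast
    ring

theorem dense_shift {c b : ℂ} {Ch : Chart c b} {W : Win Ch} (Fm : Fam W) (m : ℤ) :
    ∀ s ∈ Fm.Γ, ∃ t ∈ Fm.Γ, ∀ w ∈ RHP, t w = s (w + m * (2 * Real.pi * I)) := by
  have hre : ∀ m : ℤ, ∀ w : ℂ, (w + m * (2 * Real.pi * I)).re = w.re := by
    intro m w; simp
  induction m using Int.induction_on with
  | zero => intro s hs; exact ⟨s, hs, fun w _ => by simp⟩
  | succ i ih =>
    intro s hs
    obtain ⟨t, ht, h1⟩ := ih s hs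
    obtain ⟨t', ht', h2⟩ := Fm.shift t ht
    refine ⟨t', ht', fun w hw => ?_⟩
    have hw' : w + 2 * Real.pi * I ∈ RHP := by
      show 0 < (w + 2 * Real.pi * I).re
      have h0 : 0 < w.re := hw
      simpa using h0
    rw [h2 w hw, h1 _ hw']
    congr 1
    push_cast
    ring
  | pred i ih =>
    intro s hs
    obtain ⟨t, ht, h1⟩ := ih s hs
    obtain ⟨t', ht', h2⟩ := Fm.shift' t ht
    refine ⟨t', ht', fun w hw => ?_⟩
    have hw' : w - 2 * Real.pi * I ∈ RHP := by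
      show 0 < (w - 2 * Real.pi * I).re
      have h0 : 0 < w.re := hw
      simpa using h0
    rw [h2 w hw, h1 _ hw']
    congr 1
    push_cast
    ring

/-- the Green function is at most `Re w + C'` in the window -/
theorem dense_GG_le {c b : ℂ} (hb : ‖b‖ = 1) (Ch : Chart c b) :
    ∃ C' : ℝ, 0 ≤ C' ∧ ∀ w u : ℂ, Ch.S < w.re → ‖u‖ ≤ Real.exp (2 * w.re) / 4 →
      GG Ch w u ≤ w.re + C' := by
  obtain ⟨C₁, hC₁⟩ := Gm_le c b hb
  have hC := Ch.hC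
  have hS := Ch.hS
  refine ⟨|C₁| + Real.log (1 + 2 * Ch.C), by
    have : 0 ≤ Real.log (1 + 2 * Ch.C) := Real.log_nonneg (by linarith)
    positivity, fun w u hw hu => ?_⟩
  obtain ⟨y, hy, hyu⟩ := Ch.U_surj w u hw hu
  have hDD : (w, y) ∈ DD Ch.S := ⟨hw, hy⟩
  have h1 := hC₁ (Ch.Pi w u)
  rw [← hyu, Ch.Pi_win w y hDD] at h1
  have h2 := Ch.X_est w y hDD
  have he1 : 1 ≤ Real.exp w.re := by
    rw [← Real.exp_zero]; exact Real.exp_le_exp.2 (by linarith)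
  have h3 : Ch.C * (1 + ‖y‖) * Real.exp (-w.re) ≤ 2 * Ch.C := by
    have h4 : (1 + ‖y‖) * Real.exp (-w.re) ≤ 2 := by
      rw [Real.exp_neg, ← div_eq_mul_inv, div_le_iff₀ (Real.exp_pos _)]
      linarith
    nlinarith
  have h4 : ‖Ch.X w y‖ ≤ Real.exp w.re + 2 * Ch.C := by
    calc ‖Ch.X w y‖ = ‖(Ch.X w y - exp w) + exp w‖ := by ring_nf
      _ ≤ ‖Ch.X w y - exp w‖ + ‖exp w‖ := norm_add_le _ _
      _ ≤ Real.exp w.re + 2 * Ch.C := by rw [Complex.norm_exp]; linarith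
  have h5 : max 1 ‖((Ch.X w y, y) : ℂ × ℂ)‖ ≤ Real.exp w.re * (1 + 2 * Ch.C) := by
    apply max_le
    · nlinarith
    · rw [Prod.norm_def]
      apply max_le
      · show ‖Ch.X w y‖ ≤ _
        nlinarith
      · show ‖y‖ ≤ _
        nlinarith
  have h6 : Real.log (max 1 ‖((Ch.X w y, y) : ℂ × ℂ)‖) ≤ w.re + Real.log (1 + 2 * Ch.C) := by
    calc Real.log (max 1 ‖((Ch.X w y, y) : ℂ × ℂ)‖)
        ≤ Real.log (Real.exp w.re * (1 + 2 * Ch.C)) :=
          Real.log_le_log (by positivity) h5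
      _ = _ := by rw [Real.log_mul (Real.exp_pos _).ne' (by positivity), Real.log_exp]
  show Gm c b (Ch.Pi w u) ≤ _
  rw [← hyu, Ch.Pi_win w y hDD]
  linarith [le_abs_self C₁]

theorem dense_GG_cont {c b : ℂ} (hb : ‖b‖ = 1) (Ch : Chart c b) {w : ℂ} (hw : 0 < w.re) :
    Continuous (GG Ch w) := by
  have h := GG_continuousOn Ch hb
  exact h.comp_continuous (f := fun u : ℂ => (w, u)) (by fun_prop) (fun u => hw)

theorem dense_GG_locRe {c b : ℂ} (hb : ‖b‖ = 1) (Ch : Chart c b) {w z : ℂ} (hw : 0 < w.re)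
    (h : 0 < GG Ch w z) : LocRe (GG Ch w) z := by
  obtain ⟨r, hr, F, hF, he⟩ := GG_locRe2 hb Ch (q := (w, z)) hw h
  have hsub : ∀ ζ ∈ ball z r, (w, ζ) ∈ ball ((w, z) : ℂ × ℂ) r := by
    intro ζ hζ
    rw [Metric.mem_ball, Prod.dist_eq, max_lt_iff]
    exact ⟨by simpa using hr, hζ⟩
  refine ⟨r, hr, fun ζ => F (w, ζ), ?_, fun ζ hζ => he (w, ζ) (hsub ζ hζ)⟩
  exact hF.comp (f := fun ζ : ℂ => (w, ζ)) (by fun_prop) hsub



theorem dense_point {c b : ℂ} (hb : ‖b‖ = 1) {Ch : Chart c b} {W : Win Ch} (Fm : Fam W) :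
    ∃ C₀ C' X₀ : ℝ, 1 ≤ C₀ ∧ 0 ≤ C' ∧ W.S ≤ X₀ ∧ ∀ x : ℝ, X₀ < x → ∀ κ : ℝ, 0 < κ →
      ∃ r₀ : ℝ, 0 < r₀ ∧ r₀ ≤ 1 ∧
      ∀ t₀ ∈ Icc 0 (2 * Real.pi), ∀ (N : ℕ) (α : Fin N → ℂ → ℂ), 0 < N →
      (∀ i, α i ∈ Fm.Γ) →
      Function.Injective α → ∀ (τ ε d t : ℝ) (φ : ℂ → ℝ), 0 < τ → τ ≤ 1 → 0 < ε → ε ≤ r₀ →
      0 < d → ContDiff ℝ ∞ φ → HasCompactSupport φ →
      tsupport φ ⊆ ball 0 (Real.exp (7 / 4 * x)) →
      (∀ i, ∀ v ∈ tsupport φ, d ≤ ‖v - α i (x + t₀ * I)‖) →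
      2 * t * ∫ z, GG Ch (x + t₀ * I) z * lap φ z ≤
        2 * Real.pi * (Enr N α (x + t₀ * I) + 1 / N * Real.log (1 / ε) + 2 * (κ + τ)) +
        C₀ * (8 * W.C * Real.exp (-x / 4)) * (2 * x + C') +
        C₀ * (2 * x + C') * ε ^ 2 / r₀ ^ 2 +
        t ^ 2 * (∫ z, (dx φ z ^ 2 + dy φ z ^ 2)) + |t| * (2 * τ * ∫ z, |lap φ z|) +
        |t| * (4 * ε ^ 2 / d ^ 4 * ∫ z, |φ z|) := by
  obtain ⟨C₀, hC₀, hen⟩ := energy_ineq
  obtain ⟨C', hC', hle⟩ := dense_GG_le hb Ch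
  refine ⟨C₀, C', max W.S 10, hC₀, hC', le_max_left _ _, fun x hx κ hκ => ?_⟩
  have hxS : W.S < x := lt_of_le_of_lt (le_max_left _ _) hx
  have hx10 : 10 < x := lt_of_le_of_lt (le_max_right _ _) hx
  have hChS : Ch.S < x := lt_of_le_of_lt W.hS hxS
  obtain ⟨hbig1, hbig2⟩ := W.hbig x hxS.le
  obtain ⟨r, hr, hmod⟩ := GG_modulus hb Ch x (by linarith) (W.C * Real.exp (3 / 2 * x)) κ hκ
  refine ⟨min r 1, lt_min hr one_pos, min_le_right _ _, ?_⟩
  intro t₀ ht₀ N α hN hα hinj τ ε d t φ hτ hτ1 hε hεr hd hφ hφc hφs hdist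
  set w : ℂ := x + t₀ * I with hw
  have hwre : w.re = x := by simp [hw]
  have hw0 : w ∈ RHP := by
    show 0 < w.re
    rw [hwre]; linarith
  have hW := W.hC
  set η : ℝ := 8 * W.C * Real.exp (-x / 4) with hη
  have e1 : Real.exp (-x / 4) * Real.exp (7 / 4 * x) = Real.exp (3 / 2 * x) := by
    rw [← Real.exp_add]; congr 1; ring
  have hηρ : η * Real.exp (7 / 4 * x) = 8 * W.C * Real.exp (3 / 2 * x) := by
    rw [hη, mul_assoc, e1]
  have hη0 : 0 ≤ η := by positivity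
  have hη1 : η ≤ 1 := by
    have h1 : η * Real.exp (7 / 4 * x) ≤ 1 * Real.exp (7 / 4 * x) := by
      rw [hηρ, one_mul]; exact hbig1
    exact le_of_mul_le_mul_right h1 (Real.exp_pos _)
  have hexp32 : 1 ≤ Real.exp (3 / 2 * x) := by
    rw [← Real.exp_zero]; exact Real.exp_le_exp.2 (by linarith)
  have hg4 : ∀ z : ℂ, Real.exp (7 / 4 * x) / 2 ≤ ‖z‖ → ‖z‖ ≤ 2 * Real.exp (7 / 4 * x) →
      |GG Ch w z - Real.log ‖z‖ + x| ≤ η / 8 := by
    intro z h1 h2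
    have h3 := W.g4 w z (by rw [hwre]; exact hxS) (by rw [hwre]; exact h1)
      (by rw [hwre]; exact h2)
    rw [hwre] at h3
    refine h3.trans (le_of_eq ?_)
    rw [hη]; ring
  have hwin : ∀ i, ‖α i w‖ ≤ W.C * Real.exp (3 / 2 * x) := by
    intro i
    have := Fm.win (α i) (hα i) w (by rw [hwre]; exact hxS)
    rwa [hwre] at this
  have key := hen (GG Ch w) x (Real.exp (7 / 4 * x)) η τ κ (min r 1) ε d (2 * x + C') N
    (fun i => α i w) φ t (dense_GG_cont hb Ch hw0) (fun z => GG_nonneg Ch hb w z)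
    (fun z hz => dense_GG_locRe hb Ch hw0 hz)
    (by have := Real.add_one_le_exp (7 / 4 * x); linarith)
    hη0 hη1 hτ hτ1 hε hεr (min_le_right _ _)
    (by
      rw [hηρ]
      have : ε ≤ 1 := hεr.trans (min_le_right _ _)
      nlinarith)
    hd (by rw [abs_of_pos (by linarith)]; linarith)
    (by rw [Real.log_exp]; linarith)
    (fun z hz => by
      have := hle w z (by rw [hwre]; exact hChS) (by rw [hwre]; linarith)
      rw [hwre] at this
      linarith)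
    (fun z h1 h2 => by
      have h3 := hg4 z h1 h2
      refine ⟨by linarith, ?_⟩
      have h4 := (abs_le.1 h3).1
      have h5 : Real.log (Real.exp (7 / 4 * x) / 2) ≤ Real.log ‖z‖ :=
        Real.log_le_log (by positivity) h1
      rw [Real.log_div (Real.exp_pos _).ne' (by norm_num), Real.log_exp] at h5
      have h6 : Real.log 2 ≤ 1 := by
        have := Real.log_two_lt_d9; linarith
      linarith)
    hN (fun i j hij => hinj (Fm.uniq (α i) (hα i) (α j) (hα j) w hw0 hij))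
    (fun i => by rw [hηρ]; have := hwin i; linarith)
    (fun i v hv => hmod t₀ ht₀ (α i w) v (hwin i) (Fm.zero (α i) (hα i) w hw0)
      (hv.trans (min_le_left _ _)))
    (hφ.of_le (WithTop.coe_le_coe.2 (le_top : (2 : ℕ∞) ≤ ⊤))) hφc hφs
    (fun i v hv => hdist i v hv)
  have hEnr : Enr N α w = -(1 / (N : ℝ) ^ 2) * ∑ i, ∑ j, Real.log ‖α i w - α j w‖ + x := by
    rw [Enr, hwre]
  rw [hEnr]
  exact key

theorem dense_limit (s C' K A : ℝ) (hs : 0 < s) (hA : 0 < A)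
    (h : ∀ᶠ k : ℕ in atTop, A ≤ 4 ^ k * (K * Real.exp (-(2 ^ k * s) / 4) *
      (2 * (2 ^ k * s) + C'))) : False := by
  have hz : Tendsto (fun k : ℕ => (2 ^ k * s / 4 : ℝ)) atTop atTop := by
    have h2 : Tendsto (fun k : ℕ => (2 : ℝ) ^ k) atTop atTop :=
      tendsto_pow_atTop_atTop_of_one_lt (by norm_num)
    exact (h2.atTop_mul_const hs).atTop_div_const (by norm_num)
  have h3 := (Real.tendsto_pow_mul_exp_neg_atTop_nhds_zero 3).comp hz
  have h2 := (Real.tendsto_pow_mul_exp_neg_atTop_nhds_zero 2).comp hz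
  have hlim : Tendsto (fun k : ℕ => 4 ^ k * (K * Real.exp (-(2 ^ k * s) / 4) *
      (2 * (2 ^ k * s) + C'))) atTop (𝓝 (128 * K / s ^ 2 * 0 + 16 * K * C' / s ^ 2 * 0)) := by
    refine ((h3.const_mul (128 * K / s ^ 2)).add (h2.const_mul (16 * K * C' / s ^ 2))).congr ?_
    intro k
    simp only [Function.comp]
    have e : -(2 ^ k * s / 4 : ℝ) = -(2 ^ k * s) / 4 := by ring
    rw [e]
    have e4 : (4 : ℝ) ^ k = (2 ^ k) ^ 2 := by rw [← pow_mul, mul_comm, pow_mul]; norm_num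
    rw [e4]
    field_simp
    ring
  have := ge_of_tendsto hlim h
  linarith

theorem dense_good {s : ℝ} {k : ℕ} {y δ : ℝ} (hδ : 0 < δ) (hδ1 : δ ≤ 1) :
    ∃ p : ℝ, 0 ≤ p ∧ p + δ ≤ 2 * Real.pi ∧ ∀ t₀ ∈ Icc p (p + δ), ∃ (w : ℂ) (m : ℤ), w.re = s ∧
      |w.im - y| ≤ δ ∧ (((2 ^ k * s : ℝ) : ℂ) + t₀ * I) = 2 ^ k * w + m * (2 * Real.pi * I) := by
  have hpi := Real.pi_pos
  have hpi3 := Real.pi_gt_three
  set m : ℤ := ⌊2 ^ k * y / (2 * Real.pi)⌋ with hm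
  set q : ℝ := 2 ^ k * y - m * (2 * Real.pi) with hq
  have hq0 : 0 ≤ q := by
    have := Int.floor_le (2 ^ k * y / (2 * Real.pi))
    rw [le_div_iff₀ (by positivity)] at this
    rw [hq]; linarith
  have hq1 : q < 2 * Real.pi := by
    have := Int.lt_floor_add_one (2 ^ k * y / (2 * Real.pi))
    rw [div_lt_iff₀ (by positivity)] at this
    rw [hq]; linarith
  have h2k : (1 : ℝ) ≤ 2 ^ k := one_le_pow₀ (by norm_num)
  have main : ∀ t₀ : ℝ, |t₀ - q| ≤ δ → ∃ (w : ℂ) (m : ℤ), w.re = s ∧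
      |w.im - y| ≤ δ ∧ (((2 ^ k * s : ℝ) : ℂ) + t₀ * I) =
        2 ^ k * w + m * (2 * Real.pi * I) := by
    intro t₀ ht
    refine ⟨⟨s, y + (t₀ - q) / 2 ^ k⟩, -m, rfl, ?_, ?_⟩
    · show |y + (t₀ - q) / 2 ^ k - y| ≤ δ
      rw [add_sub_cancel_left, abs_div, abs_of_pos (by positivity : (0:ℝ) < 2 ^ k),
        div_le_iff₀ (by positivity)]
      nlinarith
    · have a1 : ((2:ℂ) ^ k).re = 2 ^ k := by simpa using dense_re_pow k 1
      have a2 : ((2:ℂ) ^ k).im = 0 := by simpa using dense_im_pow k 1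
      apply Complex.ext
      · rw [Complex.add_re, Complex.add_re, dense_re_pow]
        simp [a1]
      · rw [Complex.add_im, Complex.add_im, dense_im_pow]
        simp only [ofReal_im, mul_im, ofReal_re, I_im, mul_one, I_re, mul_zero, add_zero,
          Int.cast_neg, neg_re, intCast_re, mul_re, re_ofNat, im_ofNat, zero_mul, sub_zero,
          neg_im, intCast_im, neg_zero]
        rw [hq]
        field_simp
        ring
  by_cases hc : q ≤ Real.pi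
  · refine ⟨q, hq0, by linarith, fun t₀ ht => main t₀ ?_⟩
    rw [abs_le]; constructor <;> linarith [ht.1, ht.2]
  · push Not at hc
    refine ⟨q - δ, by linarith, by linarith, fun t₀ ht => main t₀ ?_⟩
    rw [abs_le]; constructor <;> linarith [ht.1, ht.2]

theorem dense_int {f : ℝ → ℝ} {p δ G E P : ℝ} (hf : ContinuousOn f (Icc 0 P))
    (hp : 0 ≤ p) (hδ : 0 ≤ δ) (hpδ : p + δ ≤ P) (h1 : ∀ t ∈ Icc 0 P, -E ≤ f t)
    (h2 : ∀ t ∈ Icc p (p + δ), G - E ≤ f t) :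
    δ * G - P * E ≤ ∫ t in (0 : ℝ)..P, f t := by
  have hi : ∀ a b : ℝ, 0 ≤ a → a ≤ b → b ≤ P → IntervalIntegrable f volume a b := by
    intro a b ha hab hb
    apply ContinuousOn.intervalIntegrable
    rw [uIcc_of_le hab]
    exact hf.mono (Icc_subset_Icc ha hb)
  have e1 : ∫ t in (0 : ℝ)..P, f t = (∫ t in (0 : ℝ)..p, f t) + (∫ t in p..(p + δ), f t) +
      ∫ t in (p + δ)..P, f t := by
    rw [intervalIntegral.integral_add_adjacent_intervals (hi 0 p le_rfl hp (by linarith))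
      (hi p (p + δ) hp (by linarith) hpδ),
      intervalIntegral.integral_add_adjacent_intervals
        (hi 0 (p + δ) le_rfl (by linarith) hpδ) (hi (p + δ) P (by linarith) hpδ le_rfl)]
  have i1 : -E * p ≤ ∫ t in (0 : ℝ)..p, f t := by
    have := intervalIntegral.integral_mono_on hp (intervalIntegrable_const (c := -E))
      (hi 0 p le_rfl hp (by linarith)) (fun t ht => h1 t ⟨ht.1, by linarith [ht.2]⟩)
    rw [intervalIntegral.integral_const, smul_eq_mul] at this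
    linarith
  have i2 : (G - E) * δ ≤ ∫ t in p..(p + δ), f t := by
    have := intervalIntegral.integral_mono_on (by linarith)
      (intervalIntegrable_const (c := G - E))
      (hi p (p + δ) hp (by linarith) hpδ) (fun t ht => h2 t ht)
    rw [intervalIntegral.integral_const, smul_eq_mul] at this
    linarith
  have i3 : -E * (P - (p + δ)) ≤ ∫ t in (p + δ)..P, f t := by
    have := intervalIntegral.integral_mono_on hpδ
      (intervalIntegrable_const (c := -E))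
      (hi (p + δ) P (by linarith) hpδ le_rfl)
      (fun t ht => h1 t ⟨by linarith [ht.1], ht.2⟩)
    rw [intervalIntegral.integral_const, smul_eq_mul] at this
    linarith
  rw [e1]
  linarith



theorem dense_lap_smooth {φ : ℂ → ℝ} (hφ : ContDiff ℝ ∞ φ) : Continuous (lap φ) := by
  have h1 := (util2_d_smooth (util2_d_smooth hφ 1) 1).continuous
  have h2 := (util2_d_smooth (util2_d_smooth hφ I) I).continuous
  exact h1.add h2

theorem dense_lap_zero {φ : ℂ → ℝ} {u : ℂ} (hu : u ∉ tsupport φ) : lap φ u = 0 := by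
  have h0 : φ =ᶠ[𝓝 u] 0 := notMem_tsupport_iff_eventuallyEq.1 hu
  have h1 : ∀ e : ℂ, util2_d e φ =ᶠ[𝓝 u] 0 := by
    intro e
    filter_upwards [h0.fderiv (𝕜 := ℝ)] with y hy
    show fderiv ℝ φ y e = 0
    rw [hy]
    have : fderiv ℝ (0 : ℂ → ℝ) y = 0 := fderiv_const_apply (𝕜 := ℝ) (0 : ℝ)
    rw [this]
    rfl
  have h2 : ∀ e : ℂ, util2_d e (util2_d e φ) u = 0 := by
    intro e
    have h3 := ((h1 e).fderiv (𝕜 := ℝ)).self_of_nhds
    show fderiv ℝ (util2_d e φ) u e = 0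
    rw [h3]
    have : fderiv ℝ (0 : ℂ → ℝ) u = 0 := fderiv_const_apply (𝕜 := ℝ) (0 : ℝ)
    rw [this]
    rfl
  rw [util2_lap_eq, h2, h2, add_zero]

theorem dense_a_cont {c b : ℂ} (hb : ‖b‖ = 1) (Ch : Chart c b) {φ : ℂ → ℝ}
    (hφ : ContDiff ℝ ∞ φ) (hφc : HasCompactSupport φ) :
    ContinuousOn (fun w => ∫ u, GG Ch w u * lap φ u) RHP := by
  apply continuousOn_integral_of_compact_support (k := tsupport φ) hφc
  · have h1 := GG_continuousOn Ch hb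
    have h2 := dense_lap_smooth hφ
    exact (h1.mono (fun q hq => hq.1)).mul (h2.comp continuous_snd).continuousOn
  · intro w u _ hu
    rw [dense_lap_zero hu, mul_zero]

/-- the inequality at a good point -/
theorem dense_good_ineq {c b : ℂ} (hb : ‖b‖ = 1) {Ch : Chart c b} {W : Win Ch} (Fm : Fam W)
    {w₀ u₀ : ℂ} {r : ℝ} (hr : 0 < r) (hw : ball w₀ r ⊆ RHP)
    (hole : ∀ m : ℕ, ∀ s ∈ Fm.Γ, ∀ w ∈ ball w₀ r, ∀ u ∈ ball u₀ r,
      ((ft Ch)^[m] (w, u)).2 ≠ s (((ft Ch)^[m] (w, u)).1))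
    {φ : ℂ → ℝ} (hφ : ContDiff ℝ ∞ φ) (hφc : HasCompactSupport φ)
    (hφs : tsupport φ ⊆ ball u₀ r) {d₀ : ℝ}
    (hd₀' : ∀ u, u ∉ ball u₀ r → ∀ y ∈ tsupport φ, d₀ ≤ ‖u - y‖)
    {k : ℕ} {w : ℂ} (hwb : w ∈ ball w₀ r) {m : ℤ} {W' : ℂ}
    (hW' : W' = 2 ^ k * w + m * (2 * Real.pi * I))
    (hbig : ‖u₀‖ + r + 2 * (1 + Ch.C) < 1 + (2 ^ k * w.re) / 4) :
    ∃ ψ : ℂ → ℝ, ContDiff ℝ ∞ ψ ∧ HasCompactSupport ψ ∧
      tsupport ψ ⊆ ball 0 (Real.exp (7 / 4 * (2 ^ k * w.re))) ∧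
      (∀ α ∈ Fm.Γ, ∀ v ∈ tsupport ψ, d₀ / 2 ^ k ≤ ‖v - α W'‖) ∧
      (∫ z, GG Ch W' z * lap ψ z) = (∫ u, GG Ch w u * lap φ u) / 2 ^ k ∧
      (∫ z, (dx ψ z ^ 2 + dy ψ z ^ 2)) = (∫ z, (dx φ z ^ 2 + dy φ z ^ 2)) ∧
      (∫ z, |lap ψ z|) = (∫ z, |lap φ z|) ∧
      (∫ z, |ψ z|) = (1 / 2 ^ k) ^ 2 * ∫ z, |φ z| := by
  have hw0 : 0 < w.re := hw hwb
  set β : ℂ := (b / 2) ^ k with hβd
  have hb0 : b ≠ 0 := by
    intro h; rw [h, norm_zero] at hb; norm_num at hb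
  have hβ : β ≠ 0 := pow_ne_zero _ (div_ne_zero hb0 (by norm_num))
  have hβn : ‖β‖ = 1 / 2 ^ k := by
    rw [hβd, norm_pow, norm_div, hb, div_pow, one_pow]
    norm_num
  set γ : ℂ := ((ft Ch)^[k] (w, 0)).2 with hγ
  have hψsub : tsupport (fun v => φ (β⁻¹ * v + (-(β⁻¹ * γ)))) ⊆
      (fun v => β⁻¹ * v + (-(β⁻¹ * γ))) ⁻¹' tsupport φ :=
    tsupport_comp_subset_preimage φ (by fun_prop)
  have hψmem : ∀ v ∈ tsupport (fun v => φ (β⁻¹ * v + (-(β⁻¹ * γ)))), ∃ y ∈ tsupport φ,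
      v = β * y + γ := by
    intro v hv
    refine ⟨_, hψsub hv, ?_⟩
    field_simp
    ring
  have hx0 : 0 < 2 ^ k * w.re := by positivity
  refine ⟨fun v => φ (β⁻¹ * v + (-(β⁻¹ * γ))), ?_, ?_, ?_, ?_, ?_,
    dense_test_grad hφ hβ γ, dense_test_lap hφ hβ γ, ?_⟩
  · exact hφ.comp (by fun_prop)
  · refine HasCompactSupport.of_support_subset_isCompact
      (K := (fun y => β * y + γ) '' tsupport φ) (hφc.isCompact.image (by fun_prop)) ?_
    intro v hv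
    obtain ⟨y, hy, hvy⟩ := hψmem v (subset_tsupport _ hv)
    exact ⟨y, hy, hvy.symm⟩
  · intro v hv
    obtain ⟨y, hy, rfl⟩ := hψmem v hv
    rw [mem_ball_zero_iff]
    have h1 : ‖y‖ ≤ ‖u₀‖ + r := by
      have h2 := hφs hy
      rw [mem_ball_iff_norm] at h2
      calc ‖y‖ = ‖(y - u₀) + u₀‖ := by ring_nf
        _ ≤ ‖y - u₀‖ + ‖u₀‖ := norm_add_le _ _
        _ ≤ ‖u₀‖ + r := by linarith
    have h2 := dense_gamma hb Ch k hw0
    have h3 : ‖β‖ ≤ 1 := by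
      rw [hβn]
      apply div_le_one_of_le₀ (one_le_pow₀ (by norm_num)) (by positivity)
    have h4 : 1 ≤ Real.exp (3 / 2 * (2 ^ k * w.re)) := by
      rw [← Real.exp_zero]; exact Real.exp_le_exp.2 (by linarith)
    have h5 : 1 + (2 ^ k * w.re) / 4 ≤ Real.exp ((2 ^ k * w.re) / 4) := by
      have := Real.add_one_le_exp ((2 ^ k * w.re) / 4); linarith
    have h6 : Real.exp (7 / 4 * (2 ^ k * w.re)) =
        Real.exp ((2 ^ k * w.re) / 4) * Real.exp (3 / 2 * (2 ^ k * w.re)) := by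
      rw [← Real.exp_add]; congr 1; ring
    have hr0 : 0 ≤ ‖u₀‖ + r := by positivity
    calc ‖β * y + γ‖ ≤ ‖β * y‖ + ‖γ‖ := norm_add_le _ _
      _ ≤ (‖u₀‖ + r) * 1 + 2 * (1 + Ch.C) * Real.exp (3 / 2 * (2 ^ k * w.re)) := by
          rw [norm_mul]
          have : ‖β‖ * ‖y‖ ≤ 1 * (‖u₀‖ + r) := by gcongr
          linarith
      _ ≤ (‖u₀‖ + r + 2 * (1 + Ch.C)) * Real.exp (3 / 2 * (2 ^ k * w.re)) := by
          nlinarith
      _ < Real.exp ((2 ^ k * w.re) / 4) * Real.exp (3 / 2 * (2 ^ k * w.re)) := by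
          apply mul_lt_mul_of_pos_right _ (Real.exp_pos _)
          linarith
      _ = _ := h6.symm
  · intro s hs v hv
    obtain ⟨y, hy, rfl⟩ := hψmem v hv
    obtain ⟨t, ht, hts⟩ := dense_shift Fm m s hs
    have h2w : (2 ^ k * w : ℂ) ∈ RHP := by
      show 0 < ((2 ^ k * w : ℂ)).re
      rw [dense_re_pow]; exact hx0
    have h1 : s W' = t (2 ^ k * w) := by rw [hts _ h2w, hW']
    rw [h1]
    set p := t (2 ^ k * w) with hp
    set u' := β⁻¹ * (p - γ) with hu'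
    have hpu : p = β * u' + γ := by
      rw [hu', ← mul_assoc, mul_inv_cancel₀ hβ]; ring
    have hnot : u' ∉ ball u₀ r := by
      intro hmem
      have h2 := hole k t ht w hwb u' hmem
      rw [dense_iter] at h2
      exact h2 (hpu.symm)
    have h3 := hd₀' u' hnot y hy
    have h4 : ‖β * y + γ - p‖ = ‖β‖ * ‖u' - y‖ := by
      rw [hpu, ← norm_mul, ← norm_neg]
      congr 1
      ring
    rw [h4, hβn]
    have : d₀ / 2 ^ k = 1 / 2 ^ k * d₀ := by ring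
    rw [this]
    gcongr
  · have h1 := dense_test (g := GG Ch W') hφ hβ γ
    rw [h1]
    rw [← integral_div]
    congr 1
    funext u
    have h2 := dense_GG_iter hb Ch k hw0 u
    rw [dense_iter] at h2
    have h3 : GG Ch W' (β * u + γ) = GG Ch (2 ^ k * w) (β * u + γ) := by
      rw [hW']
      exact dense_GG_per Ch m (by rw [dense_re_pow]; exact hx0) _
    rw [h3]
    have h4 : GG Ch (2 ^ k * w) (β * u + γ) = GG Ch w u / 2 ^ k := h2
    rw [h4]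
    ring
  · rw [dense_test_int hβ γ, hβn]

theorem dense {c b : ℂ} (hb : ‖b‖ = 1) {Ch : Chart c b} {W : Win Ch} (Fm : Fam W)
    {w₀ u₀ : ℂ} {r : ℝ} (hr : 0 < r) (hw : ball w₀ r ⊆ RHP)
    (hole : ∀ m : ℕ, ∀ s ∈ Fm.Γ, ∀ w ∈ ball w₀ r, ∀ u ∈ ball u₀ r,
      ((ft Ch)^[m] (w, u)).2 ≠ s (((ft Ch)^[m] (w, u)).1)) :
    ∀ w ∈ ball w₀ r, ∀ u ∈ ball u₀ r, LocRe (GG Ch w) u := by
  intro w₁ hw₁
  have hw₁0 : 0 < w₁.re := hw hw₁
  refine weyl isOpen_ball (dense_GG_cont hb Ch hw₁0).continuousOn ?_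
  intro φ hφ hφc hφs
  by_contra hne
  have hacont := dense_a_cont hb Ch hφ hφc
  set a : ℂ → ℝ := fun w => ∫ u, GG Ch w u * lap φ u with ha
  have hne' : a w₁ ≠ 0 := hne
  set a₀ : ℝ := |a w₁| / 2 with ha₀
  have ha₀0 : 0 < a₀ := by
    have := abs_pos.2 hne'; positivity
  have hRo : IsOpen RHP := isOpen_lt continuous_const Complex.continuous_re
  obtain ⟨δ₁, hδ₁, hδ₁'⟩ : ∃ δ₁ > 0, ∀ w ∈ ball w₁ δ₁, w ∈ ball w₀ r ∧ |a w - a w₁| < a₀ := by
    have h1 : ∀ᶠ w in 𝓝 w₁, w ∈ ball w₀ r := isOpen_ball.mem_nhds hw₁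
    have h2 : ∀ᶠ w in 𝓝 w₁, |a w - a w₁| < a₀ := by
      have := (hacont.continuousAt (hRo.mem_nhds hw₁0)).eventually
        (Metric.ball_mem_nhds (a w₁) ha₀0)
      filter_upwards [this] with w hw
      simpa [Real.dist_eq] using hw
    obtain ⟨δ, hδ, h3⟩ := Metric.eventually_nhds_iff_ball.1 (h1.and h2)
    exact ⟨δ, hδ, h3⟩
  obtain ⟨σ, hσ, hσa⟩ : ∃ σ : ℝ, |σ| = 1 ∧ ∀ w ∈ ball w₁ δ₁, a₀ ≤ σ * a w := by
    rcases lt_or_gt_of_ne hne' with h | h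
    · refine ⟨-1, by simp, fun w hw => ?_⟩
      have h1 := (abs_lt.1 (hδ₁' w hw).2).2
      have h2 : |a w₁| = - a w₁ := abs_of_neg h
      rw [ha₀, h2] at h1 ⊢
      linarith
    · refine ⟨1, by simp, fun w hw => ?_⟩
      have h1 := (abs_lt.1 (hδ₁' w hw).2).1
      have h2 : |a w₁| = a w₁ := abs_of_pos h
      rw [ha₀, h2] at h1 ⊢
      linarith
  set δ : ℝ := min (δ₁ / 2) 1 with hδd
  have hδ : 0 < δ := lt_min (by positivity) one_pos
  have hδ1 : δ ≤ 1 := min_le_right _ _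
  have hδδ : δ < δ₁ := lt_of_le_of_lt (min_le_left _ _) (by linarith)
  obtain ⟨d₀, hd₀, hthick⟩ := hφc.isCompact.exists_thickening_subset_open isOpen_ball hφs
  have hd₀' : ∀ u, u ∉ ball u₀ r → ∀ y ∈ tsupport φ, d₀ ≤ ‖u - y‖ := by
    intro u hu y hy
    by_contra hlt
    push Not at hlt
    apply hu
    apply hthick
    rw [Metric.mem_thickening_iff]
    exact ⟨y, hy, by rw [dist_eq_norm]; exact hlt⟩
  set D := ∫ z, (dx φ z ^ 2 + dy φ z ^ 2) with hD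
  set L₁ := ∫ z, |lap φ z| with hL₁
  set L₀ := ∫ z, |φ z| with hL₀
  have hD0 : 0 ≤ D := integral_nonneg fun z => by positivity
  have hL₁0 : 0 ≤ L₁ := integral_nonneg fun z => abs_nonneg _
  have hL₀0 : 0 ≤ L₀ := integral_nonneg fun z => abs_nonneg _
  obtain ⟨C₀, C', X₀, hC₀, hC', hX₀, hpt⟩ := dense_point hb Fm
  obtain ⟨S₁, C₁, hS₁, hsm⟩ := small_energy hb Fm
  have hpi := Real.pi_pos
  have hWC := W.hC
  refine dense_limit w₁.re C' (2 * Real.pi * C₀ * (8 * W.C)) (δ * (a₀ ^ 2 / (D + 1))) hw₁0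
    (by positivity) ?_
  have htend : Tendsto (fun k : ℕ => (2 ^ k * w₁.re : ℝ)) atTop atTop := by
    have h2 : Tendsto (fun k : ℕ => (2 : ℝ) ^ k) atTop atTop :=
      tendsto_pow_atTop_atTop_of_one_lt (by norm_num)
    exact h2.atTop_mul_const hw₁0
  filter_upwards [htend.eventually_gt_atTop X₀, htend.eventually_gt_atTop S₁,
    htend.eventually_gt_atTop (4 * (‖u₀‖ + r + 2 * (1 + Ch.C)))] with k hk1 hk2 hk3
  set x : ℝ := 2 ^ k * w₁.re with hx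
  have hx0 : 0 < x := by positivity
  have hxS : W.S < x := lt_of_le_of_lt hX₀ hk1
  set T : ℝ := 1 / 2 ^ k * (a₀ / (D + 1)) with hT
  have hT0 : 0 < T := by positivity
  set G : ℝ := T * (a₀ / 2 ^ k) with hG
  have hTD : T ^ 2 * D ≤ G := by
    have h1 : T * D ≤ a₀ / 2 ^ k := by
      rw [hT]
      have h2 : D / (D + 1) ≤ 1 := div_le_one_of_le₀ (by linarith) (by positivity)
      have h3 : 1 / 2 ^ k * (a₀ / (D + 1)) * D = a₀ / 2 ^ k * (D / (D + 1)) := by ring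
      rw [h3]
      exact mul_le_of_le_one_right (by positivity) h2
    rw [hG, sq, mul_assoc]
    gcongr
  -- the main inequality
  have hmain : ∀ κ : ℝ, 0 < κ → κ ≤ 1 → ∃ r₀ : ℝ, 0 < r₀ ∧ ∀ ε : ℝ, 0 < ε → ε ≤ r₀ →
      ∀ᶠ n : ℕ in atTop, δ * G ≤ 2 * Real.pi * C₁ / 2 ^ n + 2 * Real.pi *
        (2 * Real.pi * (1 / 2 ^ n * Real.log (1 / ε) + 2 * (κ + κ)) +
          C₀ * (8 * W.C * Real.exp (-x / 4)) * (2 * x + C') +
          C₀ * (2 * x + C') * ε ^ 2 / r₀ ^ 2 + T * (2 * κ * L₁) +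
          T * (4 * ε ^ 2 / (d₀ / 2 ^ k) ^ 4 * ((1 / 2 ^ k) ^ 2 * L₀))) := by
    intro κ hκ hκ1
    obtain ⟨r₀, hr₀, hr₀1, hpt'⟩ := hpt x hk1 κ hκ
    refine ⟨r₀, hr₀, fun ε hε hεr => ?_⟩
    have hS1 : (0:ℝ) < S₁ + 1 := by
      have h1 := Ch.hS
      have h2 := W.hS
      linarith
    have hev : ∀ᶠ n : ℕ in atTop, x ≤ 2 ^ n * (S₁ + 1) := by
      have h2 : Tendsto (fun k : ℕ => (2 : ℝ) ^ k) atTop atTop :=
        tendsto_pow_atTop_atTop_of_one_lt (by norm_num)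
      exact (h2.atTop_mul_const hS1).eventually_ge_atTop x
    filter_upwards [hev] with n hn
    obtain ⟨hne1, hcont, hint⟩ := hsm n
    have hint' := hint x hk2 hn
    set E : ℝ := 2 * Real.pi * (1 / 2 ^ n * Real.log (1 / ε) + 2 * (κ + κ)) +
          C₀ * (8 * W.C * Real.exp (-x / 4)) * (2 * x + C') +
          C₀ * (2 * x + C') * ε ^ 2 / r₀ ^ 2 + T * (2 * κ * L₁) +
          T * (4 * ε ^ 2 / (d₀ / 2 ^ k) ^ 4 * ((1 / 2 ^ k) ^ 2 * L₀)) with hE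
    have hlow : ∀ (W' : ℂ) (c' : ℝ), (∀ α : Fin (2 ^ n) → ℂ → ℂ, (∀ i, α i ∈ Fm.Γ) →
        Function.Injective α → c' ≤ 2 * Real.pi * Enr (2 ^ n) α W') →
        c' ≤ 2 * Real.pi * einf (EF Fm (2 ^ n)) W' := by
      intro W' c' h
      have : Nonempty (EF Fm (2 ^ n)) := hne1.to_subtype
      have h1 : c' / (2 * Real.pi) ≤ einf (EF Fm (2 ^ n)) W' := by
        apply le_ciInf
        rintro ⟨h', α, h1, h2, rfl⟩
        rw [div_le_iff₀ (by positivity)]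
        have := h α h1 h2
        linarith
      rw [div_le_iff₀ (by positivity)] at h1
      linarith
    have hN : 0 < 2 ^ n := by positivity
    have hcast : ((2 ^ n : ℕ) : ℝ) = 2 ^ n := by push_cast; rfl
    have hall : ∀ t₀ ∈ Icc 0 (2 * Real.pi), -E ≤
        2 * Real.pi * einf (EF Fm (2 ^ n)) (x + t₀ * I) := by
      intro t₀ ht₀
      apply hlow
      intro α hα hinj
      have h1 := hpt' t₀ ht₀ (2 ^ n) α hN hα hinj κ ε 1 0 (fun _ => 0) hκ hκ1 hε hεr one_pos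
        contDiff_const (HasCompactSupport.zero) (by
          have : tsupport (fun _ : ℂ => (0:ℝ)) = ∅ := by
            rw [tsupport_eq_empty_iff]; rfl
          rw [this]; exact empty_subset _) (by
          have : tsupport (fun _ : ℂ => (0:ℝ)) = ∅ := by
            rw [tsupport_eq_empty_iff]; rfl
          intro i v hv
          rw [this] at hv
          exact absurd hv (Set.notMem_empty v))
      rw [hcast] at h1
      have h2 : 0 ≤ T * (2 * κ * L₁) := by positivity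
      have h3 : 0 ≤ T * (4 * ε ^ 2 / (d₀ / 2 ^ k) ^ 4 * ((1 / 2 ^ k) ^ 2 * L₀)) := by positivity
      simp only [mul_zero, zero_mul, abs_zero, ne_eq, OfNat.ofNat_ne_zero, not_false_eq_true,
        zero_pow, add_zero] at h1
      rw [hE]
      linarith
    obtain ⟨p, hp0, hp1, hgood⟩ := dense_good (s := w₁.re) (k := k) (y := w₁.im) hδ hδ1
    have hgd : ∀ t₀ ∈ Icc p (p + δ), G - E ≤
        2 * Real.pi * einf (EF Fm (2 ^ n)) (x + t₀ * I) := by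
      intro t₀ ht₀
      have ht₀' : t₀ ∈ Icc 0 (2 * Real.pi) := ⟨by linarith [ht₀.1], by linarith [ht₀.2]⟩
      obtain ⟨w, m, hwre, hwim, heq⟩ := hgood t₀ ht₀
      have hwb : w ∈ ball w₁ δ₁ := by
        rw [mem_ball_iff_norm]
        have h1 : ‖w - w₁‖ ≤ |(w - w₁).re| + |(w - w₁).im| := Complex.norm_le_abs_re_add_abs_im _
        rw [Complex.sub_re, Complex.sub_im, hwre, sub_self, abs_zero] at h1
        linarith
      have hwx : 2 ^ k * w.re = x := by rw [hwre]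
      obtain ⟨ψ, hψ, hψc, hψs, hψd, hψ1, hψ2, hψ3, hψ4⟩ := dense_good_ineq hb Fm hr hw hole hφ
        hφc hφs hd₀' (hδ₁' w hwb).1 heq (by rw [hwx]; linarith)
      rw [hwx] at hψs
      apply hlow
      intro α hα hinj
      have h1 := hpt' t₀ ht₀' (2 ^ n) α hN hα hinj κ ε (d₀ / 2 ^ k) (σ * T) ψ hκ hκ1 hε hεr
        (by positivity) hψ hψc hψs (fun i v hv => hψd (α i) (hα i) v hv)
      rw [hcast, hψ2, hψ3, hψ4, abs_mul, hσ, one_mul, abs_of_pos hT0] at h1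
      have h2 : (∫ z, GG Ch (x + t₀ * I) z * lap ψ z) = a w / 2 ^ k := hψ1
      rw [h2] at h1
      have h3 : 2 * G ≤ 2 * (σ * T) * (a w / 2 ^ k) := by
        have h4 := hσa w hwb
        have h5 : 2 * (σ * T) * (a w / 2 ^ k) = 2 * (T * ((σ * a w) / 2 ^ k)) := by ring
        rw [h5, hG]
        gcongr
      have h4 : (σ * T) ^ 2 * D ≤ G := by
        rw [mul_pow, ← sq_abs σ, hσ, one_pow, one_mul]
        exact hTD
      rw [hE]
      linarith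
    have hcont' : ContinuousOn (fun t : ℝ => 2 * Real.pi *
        einf (EF Fm (2 ^ n)) (x + t * I)) (Icc 0 (2 * Real.pi)) := by
      refine continuousOn_const.mul (hcont.comp (by fun_prop) fun t _ => ?_)
      show W.S < ((x : ℂ) + t * I).re
      simpa using hxS
    have hfin := dense_int hcont' hp0 hδ.le hp1 hall hgd
    rw [intervalIntegral.integral_const_mul] at hfin
    have h6 : 2 * Real.pi * (∫ t in (0:ℝ)..(2 * Real.pi), einf (EF Fm (2 ^ n)) (x + t * I)) ≤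
        2 * Real.pi * (C₁ / 2 ^ n) := by gcongr
    have h7 : 2 * Real.pi * C₁ / 2 ^ n = 2 * Real.pi * (C₁ / 2 ^ n) := by ring
    rw [h7]
    linarith
  -- limit n → ∞
  have hstep1 : ∀ κ : ℝ, 0 < κ → κ ≤ 1 → ∃ r₀ : ℝ, 0 < r₀ ∧ ∀ ε : ℝ, 0 < ε → ε ≤ r₀ →
      δ * G ≤ 2 * Real.pi *
        (2 * Real.pi * (2 * (κ + κ)) +
          C₀ * (8 * W.C * Real.exp (-x / 4)) * (2 * x + C') +
          C₀ * (2 * x + C') * ε ^ 2 / r₀ ^ 2 + T * (2 * κ * L₁) +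
          T * (4 * ε ^ 2 / (d₀ / 2 ^ k) ^ 4 * ((1 / 2 ^ k) ^ 2 * L₀))) := by
    intro κ hκ hκ1
    obtain ⟨r₀, hr₀, h⟩ := hmain κ hκ hκ1
    refine ⟨r₀, hr₀, fun ε hε hεr => ?_⟩
    have h1 := h ε hε hεr
    have h2 : Tendsto (fun n : ℕ => (1 / 2 ^ n : ℝ)) atTop (𝓝 0) := by
      have := tendsto_pow_atTop_nhds_zero_of_lt_one (r := (1/2 : ℝ)) (by norm_num) (by norm_num)
      refine this.congr fun n => ?_
      rw [div_pow, one_pow]
    have h3 : Tendsto (fun n : ℕ => 2 * Real.pi * C₁ / 2 ^ n + 2 * Real.pi *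
        (2 * Real.pi * (1 / 2 ^ n * Real.log (1 / ε) + 2 * (κ + κ)) +
          C₀ * (8 * W.C * Real.exp (-x / 4)) * (2 * x + C') +
          C₀ * (2 * x + C') * ε ^ 2 / r₀ ^ 2 + T * (2 * κ * L₁) +
          T * (4 * ε ^ 2 / (d₀ / 2 ^ k) ^ 4 * ((1 / 2 ^ k) ^ 2 * L₀)))) atTop
        (𝓝 (2 * Real.pi * C₁ * 0 + 2 * Real.pi *
        (2 * Real.pi * (0 * Real.log (1 / ε) + 2 * (κ + κ)) +
          C₀ * (8 * W.C * Real.exp (-x / 4)) * (2 * x + C') +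
          C₀ * (2 * x + C') * ε ^ 2 / r₀ ^ 2 + T * (2 * κ * L₁) +
          T * (4 * ε ^ 2 / (d₀ / 2 ^ k) ^ 4 * ((1 / 2 ^ k) ^ 2 * L₀))))) := by
      refine Tendsto.add ?_ ?_
      · refine (h2.const_mul (2 * Real.pi * C₁)).congr fun n => ?_
        ring
      · refine Tendsto.const_mul _ ?_
        refine Tendsto.add (Tendsto.add (Tendsto.add (Tendsto.add ?_ tendsto_const_nhds)
          tendsto_const_nhds) tendsto_const_nhds) tendsto_const_nhds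
        exact ((h2.mul_const _).add tendsto_const_nhds).const_mul _
    have h4 := ge_of_tendsto h3 h1
    linarith
  -- limit ε → 0
  have hstep2 : ∀ κ : ℝ, 0 < κ → κ ≤ 1 → δ * G ≤ 2 * Real.pi *
        (2 * Real.pi * (2 * (κ + κ)) +
          C₀ * (8 * W.C * Real.exp (-x / 4)) * (2 * x + C') + T * (2 * κ * L₁)) := by
    intro κ hκ hκ1
    obtain ⟨r₀, hr₀, h⟩ := hstep1 κ hκ hκ1
    have h1 : Tendsto (fun ε : ℝ => 2 * Real.pi *
        (2 * Real.pi * (2 * (κ + κ)) +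
          C₀ * (8 * W.C * Real.exp (-x / 4)) * (2 * x + C') +
          C₀ * (2 * x + C') * ε ^ 2 / r₀ ^ 2 + T * (2 * κ * L₁) +
          T * (4 * ε ^ 2 / (d₀ / 2 ^ k) ^ 4 * ((1 / 2 ^ k) ^ 2 * L₀)))) (𝓝[>] 0)
        (𝓝 (2 * Real.pi *
        (2 * Real.pi * (2 * (κ + κ)) +
          C₀ * (8 * W.C * Real.exp (-x / 4)) * (2 * x + C') +
          C₀ * (2 * x + C') * 0 ^ 2 / r₀ ^ 2 + T * (2 * κ * L₁) +
          T * (4 * 0 ^ 2 / (d₀ / 2 ^ k) ^ 4 * ((1 / 2 ^ k) ^ 2 * L₀))))) := by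
      apply Tendsto.mono_left _ nhdsWithin_le_nhds
      apply Continuous.tendsto
      fun_prop
    have h2 := ge_of_tendsto h1 (by
      filter_upwards [Ioc_mem_nhdsGT hr₀] with ε hε
      exact h ε hε.1 hε.2)
    refine h2.trans (le_of_eq ?_)
    ring
  -- limit κ → 0
  have hstep3 : δ * G ≤ 2 * Real.pi *
        (C₀ * (8 * W.C * Real.exp (-x / 4)) * (2 * x + C')) := by
    have h1 : Tendsto (fun κ : ℝ => 2 * Real.pi *
        (2 * Real.pi * (2 * (κ + κ)) +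
          C₀ * (8 * W.C * Real.exp (-x / 4)) * (2 * x + C') + T * (2 * κ * L₁))) (𝓝[>] 0)
        (𝓝 (2 * Real.pi *
        (2 * Real.pi * (2 * (0 + 0)) +
          C₀ * (8 * W.C * Real.exp (-x / 4)) * (2 * x + C') + T * (2 * 0 * L₁)))) := by
      apply Tendsto.mono_left _ nhdsWithin_le_nhds
      apply Continuous.tendsto (f := fun κ : ℝ => 2 * Real.pi *
        (2 * Real.pi * (2 * (κ + κ)) +
          C₀ * (8 * W.C * Real.exp (-x / 4)) * (2 * x + C') + T * (2 * κ * L₁)))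
      fun_prop
    have h2 := ge_of_tendsto h1 (by
      filter_upwards [Ioc_mem_nhdsGT (one_pos)] with κ hκ
      exact hstep2 κ hκ.1 hκ.2)
    refine h2.trans (le_of_eq ?_)
    ring
  have h4k : (4 : ℝ) ^ k = 2 ^ k * 2 ^ k := by
    rw [← mul_pow]; norm_num
  have hGe : G = a₀ ^ 2 / (D + 1) / 4 ^ k := by
    rw [hG, hT, h4k]
    field_simp
  have h9 : δ * (a₀ ^ 2 / (D + 1)) = 4 ^ k * (δ * G) := by
    rw [hGe]
    field_simp
  rw [h9]
  have h10 : -(2 ^ k * w₁.re) / 4 = -x / 4 := by rw [hx]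
  rw [h10]
  have h11 : 2 * Real.pi * C₀ * (8 * W.C) * Real.exp (-x / 4) * (2 * x + C') = 2 * Real.pi *
        (C₀ * (8 * W.C * Real.exp (-x / 4)) * (2 * x + C')) := by ring
  rw [h11]
  gcongr

end H6ea4aa
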