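import Pool.Agent.H.MP_6ea4aa_an.PassPoly

/-!
# MP_6ea4aa: estimates along the segment for the pass in the case `c = 0`
-/

set_option autoImplicit false

open Complex Set Filter Topology Metric

namespace H6ea4aa

/-! ### estimates along the segment -/

/-- square root close to one -/
theorem ph_sqrt (ξ : ℂ) : ∃ r₀ : ℂ, r₀ ^ 2 = 1 + ξ ∧ ‖r₀ - 1‖ ≤ ‖ξ‖ := by
  obtain ⟨a, ha⟩ := IsAlgClosed.exists_pow_nat_eq (1 + ξ) (n := 2) (by norm_num)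
  obtain ⟨r₀, hr, hre⟩ : ∃ r₀ : ℂ, r₀ ^ 2 = 1 + ξ ∧ 0 ≤ r₀.re := by
    rcases le_total 0 a.re with h | h
    · exact ⟨a, ha, h⟩
    · exact ⟨-a, by rw [neg_sq, ha], by rw [Complex.neg_re]; linarith⟩
  refine ⟨r₀, hr, ?_⟩
  have h1 : (r₀ - 1) * (r₀ + 1) = ξ := by linear_combination hr
  have h2 : 1 ≤ ‖r₀ + 1‖ := by
    have h3 := Complex.re_le_norm (r₀ + 1)
    rw [Complex.add_re, Complex.one_re] at h3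
    linarith
  calc ‖r₀ - 1‖ = ‖r₀ - 1‖ * 1 := (mul_one _).symm
    _ ≤ ‖r₀ - 1‖ * ‖r₀ + 1‖ := by gcongr
    _ = ‖ξ‖ := by rw [← norm_mul, h1]

theorem ph_seg_core {α h ξ r₀ : ℂ} {s C η : ℝ} (hC : 1 ≤ C) (hη : 0 < η) (hη1 : η ≤ 1)
    (hsm : 600 * C * η ^ 3 ≤ 1) (hα : ‖α‖ ≤ 1 / 2) (hh : ‖h‖ = η) (hs : |s| ≤ 4 / 5)
    (hξ : ‖ξ‖ ≤ C * (2 * η ^ 4 + |s| * η ^ 3)) (hr : r₀ ^ 2 = 1 + ξ) (hr1 : ‖r₀ - 1‖ ≤ ‖ξ‖) :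
    ‖(s / r₀ + α * h ^ 3 / r₀ - α * (h ^ 3 / r₀ ^ 3)) - s‖ ≤ |s| / 50 + 4 * C * η ^ 7 ∧
    ‖s / r₀ + α * h ^ 3 / r₀ - α * (h ^ 3 / r₀ ^ 3)‖ ≤ 41 / 50 ∧
    ‖h ^ 3 / r₀ ^ 3‖ ≤ 2 * η ^ 3 ∧
    ‖(h ^ 3 / r₀ ^ 3) ^ 2 - h ^ 6‖ ≤ 18 * C * η ^ 9 ∧
    ‖(h ^ 3 / r₀ ^ 3) ^ 4 - h ^ 12‖ ≤ 90 * C * η ^ 15 ∧ 9 / 10 ≤ ‖r₀‖ := by
  set X := ‖ξ‖ with hX
  have hX0 : 0 ≤ X := norm_nonneg ξ
  have ha0 : 0 ≤ |s| := abs_nonneg s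
  have hη3 : 0 < η ^ 3 := by positivity
  have hη43 : η ^ 4 ≤ η ^ 3 := by
    calc η ^ 4 = η ^ 3 * η := by ring
      _ ≤ η ^ 3 * 1 := by gcongr
      _ = η ^ 3 := mul_one _
  have hX3 : X ≤ 3 * C * η ^ 3 := by
    calc X ≤ C * (2 * η ^ 4 + |s| * η ^ 3) := hξ
      _ ≤ C * (2 * η ^ 3 + 1 * η ^ 3) := by gcongr; linarith
      _ = 3 * C * η ^ 3 := by ring
  have hX1 : X ≤ 1 / 200 := by
    have : 3 * C * η ^ 3 = (600 * C * η ^ 3) / 200 := by ring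
    rw [this] at hX3
    linarith
  have hr_low : 9 / 10 ≤ ‖r₀‖ := by
    have h1 : ‖(1 : ℂ)‖ ≤ ‖r₀‖ + ‖r₀ - 1‖ := by
      have := norm_sub_le r₀ (r₀ - 1)
      rwa [sub_sub_cancel] at this
    rw [norm_one] at h1
    linarith
  have hrpos : 0 < ‖r₀‖ := by linarith
  have hr0 : r₀ ≠ 0 := norm_pos_iff.1 hrpos
  have hr3 : 7 / 10 ≤ ‖r₀‖ ^ 3 := by
    calc (7 / 10 : ℝ) ≤ (9 / 10) ^ 3 := by norm_num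
      _ ≤ ‖r₀‖ ^ 3 := by gcongr
  -- the difference
  have hδ : (s / r₀ + α * h ^ 3 / r₀ - α * (h ^ 3 / r₀ ^ 3)) - s =
      s * ((1 - r₀) / r₀) + α * h ^ 3 * (ξ / r₀ ^ 3) := by
    have h1 : ξ = r₀ ^ 2 - 1 := by rw [hr]; ring
    rw [h1]
    field_simp
    ring
  have hδn : ‖(s / r₀ + α * h ^ 3 / r₀ - α * (h ^ 3 / r₀ ^ 3)) - s‖ ≤ 2 * X * |s| + X * η ^ 3 := by
    rw [hδ]
    have e1 : ‖(s : ℂ) * ((1 - r₀) / r₀)‖ ≤ |s| * (X / (1 / 2)) := by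
      rw [norm_mul, norm_div, Complex.norm_real, Real.norm_eq_abs, norm_sub_rev]
      gcongr
      linarith
    have e2 : ‖α * h ^ 3 * (ξ / r₀ ^ 3)‖ ≤ 1 / 2 * η ^ 3 * (X / (1 / 2)) := by
      rw [norm_mul, norm_mul, norm_pow, norm_div, norm_pow, hh]
      gcongr
      linarith
    calc ‖(s : ℂ) * ((1 - r₀) / r₀) + α * h ^ 3 * (ξ / r₀ ^ 3)‖
        ≤ ‖(s : ℂ) * ((1 - r₀) / r₀)‖ + ‖α * h ^ 3 * (ξ / r₀ ^ 3)‖ := norm_add_le _ _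
      _ ≤ |s| * (X / (1 / 2)) + 1 / 2 * η ^ 3 * (X / (1 / 2)) := add_le_add e1 e2
      _ = 2 * X * |s| + X * η ^ 3 := by ring
  have hδ2 : 2 * X * |s| + X * η ^ 3 ≤ |s| / 50 + 4 * C * η ^ 7 := by
    have e1 : 2 * X * |s| ≤ 2 * (1 / 200) * |s| := by gcongr
    have e2 : X * η ^ 3 ≤ 2 * C * η ^ 7 + |s| / 600 := by
      calc X * η ^ 3 ≤ C * (2 * η ^ 4 + |s| * η ^ 3) * η ^ 3 := by gcongr
        _ = 2 * C * η ^ 7 + |s| * (C * η ^ 3 * η ^ 3) := by ring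
        _ ≤ 2 * C * η ^ 7 + |s| * (1 / 600) := by
            have : C * η ^ 3 * η ^ 3 ≤ 1 / 600 := by
              calc C * η ^ 3 * η ^ 3 ≤ C * η ^ 3 * 1 := by
                    gcongr
                    exact pow_le_one₀ hη.le hη1
                _ ≤ 1 / 600 := by linarith
            gcongr
        _ = 2 * C * η ^ 7 + |s| / 600 := by ring
    have e3 : 0 ≤ C * η ^ 7 := by positivity
    linarith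
  have hCη7 : 4 * C * η ^ 7 ≤ 1 / 150 := by
    calc 4 * C * η ^ 7 = 4 * (C * η ^ 3) * η ^ 4 := by ring
      _ ≤ 4 * (1 / 600) * 1 := by
          have : C * η ^ 3 ≤ 1 / 600 := by linarith
          have : η ^ 4 ≤ 1 := pow_le_one₀ hη.le hη1
          gcongr
      _ = 1 / 150 := by norm_num
  have htn : ‖h ^ 3 / r₀ ^ 3‖ ≤ 2 * η ^ 3 := by
    rw [norm_div, norm_pow, norm_pow, hh, div_le_iff₀ (by positivity)]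
    nlinarith
  have ht2 : ‖(h ^ 3 / r₀ ^ 3) ^ 2 - h ^ 6‖ ≤ 6 * η ^ 6 * X := by
    have e1 : (h ^ 3 / r₀ ^ 3) ^ 2 - h ^ 6 = h ^ 6 * (-(3 * ξ + 3 * ξ ^ 2 + ξ ^ 3) / (r₀ ^ 3) ^ 2) := by
      have h2 : (r₀ ^ 3) ^ 2 = (1 + ξ) ^ 3 := by rw [← hr]; ring
      have h3 : (1 + ξ) ≠ 0 := by rw [← hr]; exact pow_ne_zero _ hr0
      rw [div_pow, h2]
      field_simp
      ring
    rw [e1, norm_mul, norm_pow, hh, norm_div, norm_neg, norm_pow, norm_pow]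
    have e2 : ‖3 * ξ + 3 * ξ ^ 2 + ξ ^ 3‖ ≤ 3 * X + 3 * X ^ 2 + X ^ 3 := by
      calc ‖3 * ξ + 3 * ξ ^ 2 + ξ ^ 3‖ ≤ ‖3 * ξ‖ + ‖3 * ξ ^ 2‖ + ‖ξ ^ 3‖ := norm_add₃_le
        _ = 3 * X + 3 * X ^ 2 + X ^ 3 := by
            simp only [norm_mul, norm_pow, hX]
            norm_num
    have e3 : 3 * X + 3 * X ^ 2 + X ^ 3 ≤ (3 + 1 / 50) * X := by
      have : X ^ 2 ≤ 1 / 200 * X := by rw [sq]; gcongr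
      have : X ^ 3 ≤ 1 / 200 * X := by
        calc X ^ 3 = X * X * X := by ring
          _ ≤ 1 / 200 * 1 * X := by gcongr; linarith
          _ = 1 / 200 * X := by ring
      linarith
    have e4 : (41 / 50 : ℝ) ^ 2 ≤ (‖r₀‖ ^ 3) ^ 2 := by
      have h1 : (199 / 200 : ℝ) ≤ ‖r₀‖ := by
        have h1 : ‖(1 : ℂ)‖ ≤ ‖r₀‖ + ‖r₀ - 1‖ := by
          have := norm_sub_le r₀ (r₀ - 1)
          rwa [sub_sub_cancel] at this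
        rw [norm_one] at h1
        linarith
      have h2 : (41 / 50 : ℝ) ≤ ‖r₀‖ ^ 3 := by
        calc (41 / 50 : ℝ) ≤ (199 / 200) ^ 3 := by norm_num
          _ ≤ ‖r₀‖ ^ 3 := by gcongr
      gcongr
    have e5 : ‖3 * ξ + 3 * ξ ^ 2 + ξ ^ 3‖ / (‖r₀‖ ^ 3) ^ 2 ≤ 6 * X := by
      rw [div_le_iff₀ (by positivity)]
      nlinarith
    calc η ^ 6 * (‖3 * ξ + 3 * ξ ^ 2 + ξ ^ 3‖ / (‖r₀‖ ^ 3) ^ 2) ≤ η ^ 6 * (6 * X) := by gcongr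
      _ = 6 * η ^ 6 * X := by ring
  refine ⟨hδn.trans hδ2, ?_, htn, ?_, ?_, hr_low⟩
  · have h1 := norm_add_le ((s / r₀ + α * h ^ 3 / r₀ - α * (h ^ 3 / r₀ ^ 3)) - s) (s : ℂ)
    rw [sub_add_cancel, Complex.norm_real, Real.norm_eq_abs] at h1
    have h4 : ‖(s / r₀ + α * h ^ 3 / r₀ - α * (h ^ 3 / r₀ ^ 3)) - s‖ ≤ 1 / 50 := by
      refine hδn.trans ?_
      have e1 : 2 * X * |s| ≤ 2 * (1 / 200) * 1 := by gcongr; linarith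
      have e2 : X * η ^ 3 ≤ 1 / 200 * 1 := by
        gcongr
        exact pow_le_one₀ hη.le hη1
      linarith
    linarith
  · refine ht2.trans ?_
    calc 6 * η ^ 6 * X ≤ 6 * η ^ 6 * (3 * C * η ^ 3) := by gcongr
      _ = 18 * C * η ^ 9 := by ring
  · have e1 : (h ^ 3 / r₀ ^ 3) ^ 4 - h ^ 12 =
        ((h ^ 3 / r₀ ^ 3) ^ 2 - h ^ 6) * ((h ^ 3 / r₀ ^ 3) ^ 2 + h ^ 6) := by ring
    rw [e1, norm_mul]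
    have e2 : ‖(h ^ 3 / r₀ ^ 3) ^ 2 + h ^ 6‖ ≤ 5 * η ^ 6 := by
      calc ‖(h ^ 3 / r₀ ^ 3) ^ 2 + h ^ 6‖ ≤ ‖(h ^ 3 / r₀ ^ 3) ^ 2‖ + ‖h ^ 6‖ := norm_add_le _ _
        _ = ‖h ^ 3 / r₀ ^ 3‖ ^ 2 + η ^ 6 := by rw [norm_pow, norm_pow, hh]
        _ ≤ (2 * η ^ 3) ^ 2 + η ^ 6 := by gcongr
        _ = 5 * η ^ 6 := by ring
    calc ‖(h ^ 3 / r₀ ^ 3) ^ 2 - h ^ 6‖ * ‖(h ^ 3 / r₀ ^ 3) ^ 2 + h ^ 6‖
        ≤ (6 * η ^ 6 * (3 * C * η ^ 3)) * (5 * η ^ 6) := by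
          gcongr
          exact ht2.trans (by gcongr)
      _ = 90 * C * η ^ 15 := by ring

theorem ph_T1 {s' : ℂ} {s ρ : ℝ}
    (h : ‖s' - s‖ ≤ |s| / 50 + ρ) (h1 : ‖s'‖ ≤ 41 / 50) :
    -(s' ^ 2).re + ‖s'‖ ^ 4 / 2 ≤ -(59 / 100) * s ^ 2 + 140 * ρ ^ 2 ∧
      ‖s'‖ ≤ 2 * |s| + ρ := by
  set δ := s' - s with hδ
  have hs' : s' = s + δ := by rw [hδ]; ring
  have hδ0 := norm_nonneg δ
  have hs0 := abs_nonneg s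
  have hn : ‖s'‖ ≤ |s| + ‖δ‖ := by
    rw [hs']
    have := norm_add_le (s : ℂ) δ
    rwa [Complex.norm_real, Real.norm_eq_abs] at this
  have hre : s ^ 2 - 2 * |s| * ‖δ‖ - ‖δ‖ ^ 2 ≤ (s' ^ 2).re := by
    have e1 : (s' ^ 2).re = s ^ 2 + 2 * s * δ.re + (δ ^ 2).re := by
      have e0 : (δ ^ 2).re = δ.re * δ.re - δ.im * δ.im := by rw [sq, Complex.mul_re]
      rw [e0, hs', sq]
      simp only [Complex.mul_re, Complex.add_re, Complex.add_im, Complex.ofReal_re,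
        Complex.ofReal_im]
      ring
    have e2 : |s * δ.re| ≤ |s| * ‖δ‖ := by
      rw [abs_mul]
      gcongr
      exact Complex.abs_re_le_norm δ
    have e3 : |(δ ^ 2).re| ≤ ‖δ‖ ^ 2 := by
      rw [← norm_pow]
      exact Complex.abs_re_le_norm _
    have e4 := neg_abs_le (s * δ.re)
    have e5 := neg_abs_le (δ ^ 2).re
    rw [e1]
    nlinarith
  have hq : 2 * |s| * ‖δ‖ + ‖δ‖ ^ 2 ≤ 51 / 1000 * s ^ 2 + 102 * ρ ^ 2 := by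
    have e1 : 2 * |s| * ‖δ‖ + ‖δ‖ ^ 2 ≤ 2 * |s| * (|s| / 50 + ρ) + (|s| / 50 + ρ) ^ 2 := by gcongr
    have e2 : s ^ 2 = |s| ^ 2 := (sq_abs s).symm
    rw [e2]
    nlinarith [sq_nonneg (|s| / 100 - ρ), sq_nonneg (|s| - 100 * ρ), sq_nonneg (|s| / 50 - ρ)]
  have h4 : ‖s'‖ ^ 4 ≤ 6724 / 10000 * (s ^ 2 + (2 * |s| * ‖δ‖ + ‖δ‖ ^ 2)) := by
    have e1 : ‖s'‖ ^ 2 ≤ s ^ 2 + (2 * |s| * ‖δ‖ + ‖δ‖ ^ 2) := by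
      have e2 : s ^ 2 = |s| ^ 2 := (sq_abs s).symm
      have e3 : ‖s'‖ ^ 2 ≤ (|s| + ‖δ‖) ^ 2 := by gcongr
      rw [e2]
      nlinarith
    have e4 : ‖s'‖ ^ 2 ≤ 6724 / 10000 := by
      calc ‖s'‖ ^ 2 ≤ (41 / 50) ^ 2 := by gcongr
        _ = 6724 / 10000 := by norm_num
    calc ‖s'‖ ^ 4 = ‖s'‖ ^ 2 * ‖s'‖ ^ 2 := by ring
      _ ≤ 6724 / 10000 * (s ^ 2 + (2 * |s| * ‖δ‖ + ‖δ‖ ^ 2)) := by gcongr
  constructor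
  · nlinarith [sq_nonneg s, sq_nonneg ρ]
  · linarith

/-- the contribution of `W` -/
theorem ph_T3 {b t h : ℂ} {C η : ℝ} (hC : 1 ≤ C) (hη : 0 < η) (hη1 : η ≤ 1) (_hh : ‖h‖ = η)
    (ht : ‖t‖ ≤ 2 * η ^ 3) (ht2 : ‖t ^ 2 - h ^ 6‖ ≤ 18 * C * η ^ 9)
    (ht4 : ‖t ^ 4 - h ^ 12‖ ≤ 90 * C * η ^ 15) :
    (ph_W b t - 1).re / 8 + ‖ph_W b t - 1‖ ^ 2 / 16 ≤
      (ph_d3 b * h ^ 6).re + (ph_d6 b * h ^ 12).re +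
      (18 * C + 64 * ‖ph_d3 b‖ + (32 + 512 * ‖ph_d3 b‖) ^ 2 * ‖ph_d3 b‖ / 8 + 90 * C * ‖ph_d6 b‖ +
        (128 * ‖ph_d6 b‖) ^ 2 / 8) * (‖ph_d3 b‖ * η ^ 9 + η ^ 14) := by
  set d := ph_d3 b with hd
  set e := ph_d6 b with he
  have hd0 := norm_nonneg d
  have he0 := norm_nonneg e
  have hW : ph_W b t - 1 = 8 * (d * t ^ 2) + 8 * (e * t ^ 4) + 32 * (d ^ 2 * t ^ 4) := by
    unfold ph_W
    ring
  have ht0 := norm_nonneg t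
  have hη9 : η ^ 12 ≤ η ^ 9 := pow_le_pow_of_le_one hη.le hη1 (by norm_num)
  have hη14 : η ^ 15 ≤ η ^ 14 := pow_le_pow_of_le_one hη.le hη1 (by norm_num)
  have hη24 : η ^ 24 ≤ η ^ 14 := pow_le_pow_of_le_one hη.le hη1 (by norm_num)
  have h2 : ‖t‖ ^ 2 ≤ 4 * η ^ 6 := by
    calc ‖t‖ ^ 2 ≤ (2 * η ^ 3) ^ 2 := by gcongr
      _ = 4 * η ^ 6 := by ring
  have h4 : ‖t‖ ^ 4 ≤ 16 * η ^ 12 := by
    calc ‖t‖ ^ 4 ≤ (2 * η ^ 3) ^ 4 := by gcongr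
      _ = 16 * η ^ 12 := by ring
  have r1 : (d * t ^ 2).re ≤ (d * h ^ 6).re + ‖d‖ * (18 * C * η ^ 9) := by
    have e1 : (d * t ^ 2).re - (d * h ^ 6).re = (d * (t ^ 2 - h ^ 6)).re := by
      rw [← Complex.sub_re]; congr 1; ring
    have e2 : (d * (t ^ 2 - h ^ 6)).re ≤ ‖d‖ * (18 * C * η ^ 9) := by
      refine (Complex.re_le_norm _).trans ?_
      rw [norm_mul]
      gcongr
    linarith
  have r2 : (e * t ^ 4).re ≤ (e * h ^ 12).re + ‖e‖ * (90 * C * η ^ 15) := by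
    have e1 : (e * t ^ 4).re - (e * h ^ 12).re = (e * (t ^ 4 - h ^ 12)).re := by
      rw [← Complex.sub_re]; congr 1; ring
    have e2 : (e * (t ^ 4 - h ^ 12)).re ≤ ‖e‖ * (90 * C * η ^ 15) := by
      refine (Complex.re_le_norm _).trans ?_
      rw [norm_mul]
      gcongr
    linarith
  have r3 : (d ^ 2 * t ^ 4).re ≤ ‖d‖ ^ 2 * (16 * η ^ 12) := by
    refine (Complex.re_le_norm _).trans ?_
    rw [norm_mul, norm_pow, norm_pow]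
    gcongr
  have hre : (ph_W b t - 1).re = 8 * (d * t ^ 2).re + 8 * (e * t ^ 4).re +
      32 * (d ^ 2 * t ^ 4).re := by
    rw [hW]
    simp only [Complex.add_re, Complex.mul_re]
    norm_num
  have hn : ‖ph_W b t - 1‖ ≤ (32 + 512 * ‖d‖) * ‖d‖ * η ^ 6 + 128 * ‖e‖ * η ^ 12 := by
    rw [hW]
    calc ‖8 * (d * t ^ 2) + 8 * (e * t ^ 4) + 32 * (d ^ 2 * t ^ 4)‖
        ≤ ‖8 * (d * t ^ 2)‖ + ‖8 * (e * t ^ 4)‖ + ‖32 * (d ^ 2 * t ^ 4)‖ := norm_add₃_le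
      _ = 8 * (‖d‖ * ‖t‖ ^ 2) + 8 * (‖e‖ * ‖t‖ ^ 4) + 32 * (‖d‖ ^ 2 * ‖t‖ ^ 4) := by
          simp only [norm_mul, norm_pow]
          norm_num
      _ ≤ 8 * (‖d‖ * (4 * η ^ 6)) + 8 * (‖e‖ * (16 * η ^ 12)) +
          32 * (‖d‖ ^ 2 * (16 * η ^ 12)) := by gcongr
      _ ≤ 8 * (‖d‖ * (4 * η ^ 6)) + 8 * (‖e‖ * (16 * η ^ 12)) +
          32 * (‖d‖ ^ 2 * (16 * η ^ 6)) := by
          have : η ^ 12 ≤ η ^ 6 := pow_le_pow_of_le_one hη.le hη1 (by norm_num)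
          gcongr
      _ = (32 + 512 * ‖d‖) * ‖d‖ * η ^ 6 + 128 * ‖e‖ * η ^ 12 := by ring
  have hn2 : ‖ph_W b t - 1‖ ^ 2 / 16 ≤ (32 + 512 * ‖d‖) ^ 2 * ‖d‖ / 8 * (‖d‖ * η ^ 9) +
      (128 * ‖e‖) ^ 2 / 8 * η ^ 14 := by
    have e1 : ‖ph_W b t - 1‖ ^ 2 ≤ ((32 + 512 * ‖d‖) * ‖d‖ * η ^ 6 + 128 * ‖e‖ * η ^ 12) ^ 2 := by
      gcongr
    have e2 : ((32 + 512 * ‖d‖) * ‖d‖ * η ^ 6 + 128 * ‖e‖ * η ^ 12) ^ 2 ≤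
        2 * ((32 + 512 * ‖d‖) * ‖d‖ * η ^ 6) ^ 2 + 2 * (128 * ‖e‖ * η ^ 12) ^ 2 := by
      nlinarith [sq_nonneg ((32 + 512 * ‖d‖) * ‖d‖ * η ^ 6 - 128 * ‖e‖ * η ^ 12)]
    have e3 : 2 * ((32 + 512 * ‖d‖) * ‖d‖ * η ^ 6) ^ 2 + 2 * (128 * ‖e‖ * η ^ 12) ^ 2 =
        2 * ((32 + 512 * ‖d‖) ^ 2 * ‖d‖ * ‖d‖ * η ^ 12) + 2 * ((128 * ‖e‖) ^ 2 * η ^ 24) := by ring
    have e4 : (32 + 512 * ‖d‖) ^ 2 * ‖d‖ * ‖d‖ * η ^ 12 ≤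
        (32 + 512 * ‖d‖) ^ 2 * ‖d‖ * ‖d‖ * η ^ 9 := by gcongr
    have e5 : (128 * ‖e‖) ^ 2 * η ^ 24 ≤ (128 * ‖e‖) ^ 2 * η ^ 14 := by gcongr
    linarith
  have q1 : ‖d‖ ^ 2 * (16 * η ^ 12) ≤ 16 * ‖d‖ * (‖d‖ * η ^ 9) := by
    calc ‖d‖ ^ 2 * (16 * η ^ 12) ≤ ‖d‖ ^ 2 * (16 * η ^ 9) := by gcongr
      _ = 16 * ‖d‖ * (‖d‖ * η ^ 9) := by ring
  have q2 : ‖e‖ * (90 * C * η ^ 15) ≤ 90 * C * ‖e‖ * η ^ 14 := by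
    calc ‖e‖ * (90 * C * η ^ 15) ≤ ‖e‖ * (90 * C * η ^ 14) := by gcongr
      _ = 90 * C * ‖e‖ * η ^ 14 := by ring
  set u := ‖d‖ * η ^ 9 with hu
  have hu0 : 0 ≤ u := by positivity
  have hv0 : 0 ≤ η ^ 14 := by positivity
  have hfin : (ph_W b t - 1).re / 8 + ‖ph_W b t - 1‖ ^ 2 / 16 ≤
      (d * h ^ 6).re + (e * h ^ 12).re + (18 * C + 64 * ‖d‖ +
        (32 + 512 * ‖d‖) ^ 2 * ‖d‖ / 8) * u + (90 * C * ‖e‖ + (128 * ‖e‖) ^ 2 / 8) * η ^ 14 := by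
    have : ‖d‖ * (18 * C * η ^ 9) = 18 * C * u := by rw [hu]; ring
    rw [hre]
    linarith
  have k1 : 0 ≤ 18 * C + 64 * ‖d‖ + (32 + 512 * ‖d‖) ^ 2 * ‖d‖ / 8 := by positivity
  have k2 : 0 ≤ 90 * C * ‖e‖ + (128 * ‖e‖) ^ 2 / 8 := by positivity
  have k3 := mul_nonneg k1 hv0
  have k4 := mul_nonneg k2 hu0
  linarith

/-- the error term -/
theorem ph_T2 {a C D η y τ : ℝ} (ha : 0 ≤ a) (hC : 1 ≤ C) (hD : 1 ≤ D) (hη : 0 < η) (hη1 : η ≤ 1)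
    (hsm : 600 * D * η ^ 3 ≤ 1) (hy0 : 0 ≤ y) (hτ0 : 0 ≤ τ) (hy : y ≤ 2 * a + 4 * C * η ^ 7)
    (hτ : τ ≤ 2 * η ^ 3) :
    D * (τ ^ 6 + y * τ ^ 3 + y ^ 2 * τ) ≤
      4 / 100 * a ^ 2 + (64 * D + 6400 * D ^ 2 + 32 * C * D + C ^ 2) * η ^ 14 := by
  set ρ := 4 * C * η ^ 7 with hρ
  have hρ0 : 0 ≤ ρ := by positivity
  have e1 : D * (τ ^ 6 + y * τ ^ 3 + y ^ 2 * τ) ≤
      D * ((2 * η ^ 3) ^ 6 + (2 * a + ρ) * (2 * η ^ 3) ^ 3 + (2 * a + ρ) ^ 2 * (2 * η ^ 3)) := by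
    gcongr
  have e2 : (2 * a + ρ) ^ 2 ≤ 8 * a ^ 2 + 2 * ρ ^ 2 := by nlinarith [sq_nonneg (2 * a - ρ)]
  have e3 : D * ((2 * a + ρ) ^ 2 * (2 * η ^ 3)) ≤ 27 / 1000 * a ^ 2 + ρ ^ 2 / 150 := by
    have h1 : D * η ^ 3 ≤ 1 / 600 := by linarith
    have h2 : 0 ≤ D * η ^ 3 := by positivity
    calc D * ((2 * a + ρ) ^ 2 * (2 * η ^ 3)) = 2 * (D * η ^ 3) * (2 * a + ρ) ^ 2 := by ring
      _ ≤ 2 * (1 / 600) * (8 * a ^ 2 + 2 * ρ ^ 2) := by gcongr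
      _ ≤ 27 / 1000 * a ^ 2 + ρ ^ 2 / 150 := by nlinarith [sq_nonneg a, sq_nonneg ρ]
  have e4 : D * ((2 * a + ρ) * (2 * η ^ 3) ^ 3) = 16 * D * a * η ^ 9 + 8 * D * ρ * η ^ 9 := by ring
  have e5 : 16 * D * a * η ^ 9 ≤ a ^ 2 / 100 + 6400 * D ^ 2 * η ^ 18 := by
    nlinarith [sq_nonneg (a / 10 - 80 * D * η ^ 9)]
  have e6 : 8 * D * ρ * η ^ 9 ≤ 32 * C * D * η ^ 14 := by
    have : η ^ 16 ≤ η ^ 14 := pow_le_pow_of_le_one hη.le hη1 (by norm_num)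
    calc 8 * D * ρ * η ^ 9 = 32 * C * D * η ^ 16 := by rw [hρ]; ring
      _ ≤ 32 * C * D * η ^ 14 := by gcongr
  have e7 : ρ ^ 2 / 150 ≤ C ^ 2 * η ^ 14 := by
    have : ρ ^ 2 / 150 = 16 / 150 * (C ^ 2 * η ^ 14) := by rw [hρ]; ring
    rw [this]
    have h1 : 0 ≤ C ^ 2 * η ^ 14 := by positivity
    linarith
  have e8 : D * (2 * η ^ 3) ^ 6 ≤ 64 * D * η ^ 14 := by
    have : η ^ 18 ≤ η ^ 14 := pow_le_pow_of_le_one hη.le hη1 (by norm_num)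
    calc D * (2 * η ^ 3) ^ 6 = 64 * D * η ^ 18 := by ring
      _ ≤ 64 * D * η ^ 14 := by gcongr
  have e9 : 6400 * D ^ 2 * η ^ 18 ≤ 6400 * D ^ 2 * η ^ 14 := by
    have : η ^ 18 ≤ η ^ 14 := pow_le_pow_of_le_one hη.le hη1 (by norm_num)
    gcongr
  have e10 : D * ((2 * η ^ 3) ^ 6 + (2 * a + ρ) * (2 * η ^ 3) ^ 3 + (2 * a + ρ) ^ 2 * (2 * η ^ 3)) =
      D * (2 * η ^ 3) ^ 6 + D * ((2 * a + ρ) * (2 * η ^ 3) ^ 3) +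
        D * ((2 * a + ρ) ^ 2 * (2 * η ^ 3)) := by ring
  have := sq_nonneg a
  linarith

end H6ea4aa
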