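import Pool.Agent.H.MP_6ea4aa_an.Win
import Pool.Agent.H.MP_6ea4aa_an.PassSeg

/-!
# MP_6ea4aa: the pass is low for suitable `w`, case `c = 0`
-/

set_option autoImplicit false

open Complex Set Filter Topology Metric

namespace H6ea4aa

/-! ### iterates -/

theorem ph_iter_p {b r σ : ℂ} (hr : r ≠ 0) : (hen 0 b)^[3] (r ^ 2, σ * r) =
    (r ^ 16 * ph_M b σ (1 / r ^ 3), r ^ 8 * ph_m b σ (1 / r ^ 3)) := by
  have h1 : hen 0 b (r ^ 2, σ * r) = (r ^ 4 * ph_u b σ (1 / r ^ 3), r ^ 2) := by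
    simp only [hen, ph_u]
    ext
    · simp only
      field_simp
      ring
    · rfl
  have h2 : hen 0 b (r ^ 4 * ph_u b σ (1 / r ^ 3), r ^ 2) =
      (r ^ 8 * ph_m b σ (1 / r ^ 3), r ^ 4 * ph_u b σ (1 / r ^ 3)) := by
    simp only [hen, ph_m]
    ext
    · simp only
      field_simp
      ring
    · rfl
  have h3 : hen 0 b (r ^ 8 * ph_m b σ (1 / r ^ 3), r ^ 4 * ph_u b σ (1 / r ^ 3)) =
      (r ^ 16 * ph_M b σ (1 / r ^ 3), r ^ 8 * ph_m b σ (1 / r ^ 3)) := by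
    simp only [hen, ph_M]
    ext
    · simp only
      field_simp
      ring
    · rfl
  rw [Function.iterate_succ_apply', Function.iterate_succ_apply', Function.iterate_one, h1, h2, h3]

theorem ph_iter_m {b r σ : ℂ} (hb : b ≠ 0) (hr : r ≠ 0) : (henInv 0 b)^[4] (r ^ 2, σ * r) =
    (r ^ 8 * ph_e b σ (1 / r ^ 3) / b ^ 7, r ^ 16 * ph_N b σ (1 / r ^ 3) / b ^ 15) := by
  have h1 : henInv 0 b (r ^ 2, σ * r) = (σ * r, -r ^ 2 * (1 - σ ^ 2) / b) := by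
    simp only [henInv]
    ext
    · rfl
    · simp only
      field_simp
      ring
  have h2 : henInv 0 b (σ * r, -r ^ 2 * (1 - σ ^ 2) / b) =
      (-r ^ 2 * (1 - σ ^ 2) / b, r ^ 4 * ph_a b σ (1 / r ^ 3) / b ^ 3) := by
    simp only [henInv, ph_a]
    ext
    · rfl
    · simp only
      field_simp
      ring
  have h3 : henInv 0 b (-r ^ 2 * (1 - σ ^ 2) / b, r ^ 4 * ph_a b σ (1 / r ^ 3) / b ^ 3) =
      (r ^ 4 * ph_a b σ (1 / r ^ 3) / b ^ 3, r ^ 8 * ph_e b σ (1 / r ^ 3) / b ^ 7) := by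
    simp only [henInv, ph_e]
    ext
    · rfl
    · simp only
      field_simp
      ring
  have h4 : henInv 0 b (r ^ 4 * ph_a b σ (1 / r ^ 3) / b ^ 3,
      r ^ 8 * ph_e b σ (1 / r ^ 3) / b ^ 7) =
      (r ^ 8 * ph_e b σ (1 / r ^ 3) / b ^ 7, r ^ 16 * ph_N b σ (1 / r ^ 3) / b ^ 15) := by
    simp only [henInv, ph_N]
    ext
    · rfl
    · simp only
      field_simp
      ring
  rw [Function.iterate_succ_apply', Function.iterate_succ_apply', Function.iterate_succ_apply',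
    Function.iterate_one, h1, h2, h3, h4]

theorem ph_Gm_iter (c b : ℂ) (hb : ‖b‖ = 1) (p : ℂ × ℂ) (n : ℕ) :
    Gm c b ((henInv c b)^[n] p) = 2 ^ n * Gm c b p := by
  induction n with
  | zero => simp
  | succ n ih => rw [Function.iterate_succ_apply', Gm_henInv c b hb, ih, pow_succ]; ring

/-- the main upper bound for `2 G⁻ - G⁺` -/
theorem ph_main {b : ℂ} (hb : ‖b‖ = 1) : ∃ C ρ₀ : ℝ, 1 ≤ C ∧ 2 ≤ ρ₀ ∧
    ∀ r s : ℂ, ρ₀ ≤ ‖r‖ → ‖s‖ ≤ 41 / 50 →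
      2 * Gm 0 b (r ^ 2, (ph_al b * (1 / r ^ 3) + s) * r) -
        Gp 0 b (r ^ 2, (ph_al b * (1 / r ^ 3) + s) * r) ≤
      -(s ^ 2).re + ‖s‖ ^ 4 / 2 + (ph_W b (1 / r ^ 3) - 1).re / 8 +
        ‖ph_W b (1 / r ^ 3) - 1‖ ^ 2 / 16 +
        C * ((1 / ‖r‖ ^ 3) ^ 6 + ‖s‖ * (1 / ‖r‖ ^ 3) ^ 3 + ‖s‖ ^ 2 * (1 / ‖r‖ ^ 3)) := by
  have hb0 : b ≠ 0 := by
    intro h0
    rw [h0, norm_zero] at hb
    norm_num at hb
  obtain ⟨C₁, t₀, n₀, hC₁, ht₀, ht₀1, hn₀, hq⟩ := ph_quot b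
  obtain ⟨C₂, h₂⟩ := Gp_VP 0 b hb
  obtain ⟨C₃, h₃⟩ := Gm_VM 0 b hb
  set A := max C₂ 0 with hA
  set B := max C₃ 0 with hB
  have hA0 : 0 ≤ A := le_max_right _ _
  have hB0 : 0 ≤ B := le_max_right _ _
  refine ⟨C₁ + 12 * A + B * (1 + C₁) / n₀ ^ 2, 2 + 1 / t₀ + (C₁ + 3) / n₀, ?_, ?_,
    fun r s hr hs => ?_⟩
  · have : 0 ≤ B * (1 + C₁) / n₀ ^ 2 := by positivity
    linarith
  · have h1 : 0 ≤ 1 / t₀ := by positivity
    have h2 : 0 ≤ (C₁ + 3) / n₀ := by positivity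
    linarith
  set ρ := ‖r‖ with hρ
  have h0t : 0 ≤ 1 / t₀ := by positivity
  have h0n : 0 ≤ (C₁ + 3) / n₀ := by positivity
  have hρ2 : 2 ≤ ρ := by linarith
  have hρpos : 0 < ρ := by linarith
  have hr0 : r ≠ 0 := norm_pos_iff.1 hρpos
  set t := 1 / r ^ 3 with ht
  have htn : ‖t‖ = 1 / ρ ^ 3 := by rw [ht, norm_div, norm_one, norm_pow]
  have hρ1 : 1 ≤ ρ := by linarith
  have htt : ‖t‖ ≤ t₀ := by
    rw [htn, div_le_iff₀ (by positivity)]
    have h1 : 1 / t₀ ≤ ρ := by linarith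
    rw [div_le_iff₀ ht₀] at h1
    have h2 : ρ ≤ ρ ^ 3 := by
      calc ρ = ρ ^ 1 := (pow_one _).symm
        _ ≤ ρ ^ 3 := pow_le_pow_right₀ hρ1 (by norm_num)
    nlinarith
  obtain ⟨k1, k2, k3, k4, k5⟩ := hq s t hs htt
  set σ := ph_al b * t + s with hσ
  set p : ℂ × ℂ := (r ^ 2, σ * r) with hp
  have e1 : Gp 0 b p = Gp 0 b (r ^ 16 * ph_M b σ t, r ^ 8 * ph_m b σ t) / 8 := by
    have h1 := Gp_iter 0 b hb p 3
    rw [hp, ph_iter_p hr0] at h1
    rw [hp]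
    norm_num at h1
    rw [one_div] at ht
    rw [← ht] at h1
    linarith
  have e2 : Gm 0 b p = Gm 0 b (r ^ 8 * ph_e b σ t / b ^ 7, r ^ 16 * ph_N b σ t / b ^ 15) / 16 := by
    have h1 := ph_Gm_iter 0 b hb p 4
    rw [hp, ph_iter_m hb0 hr0] at h1
    rw [hp]
    norm_num at h1
    rw [one_div] at ht
    rw [← ht] at h1
    linarith
  have hρ8 : 256 ≤ ρ ^ 8 := by
    calc (256 : ℝ) = 2 ^ 8 := by norm_num
      _ ≤ ρ ^ 8 := by gcongr
  have hρ16 : ρ ^ 16 = ρ ^ 8 * ρ ^ 8 := by ring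
  have n1 : ‖r ^ 16 * ph_M b σ t‖ = ρ ^ 16 * ‖ph_M b σ t‖ := by rw [norm_mul, norm_pow]
  have n2 : ‖r ^ 8 * ph_m b σ t‖ = ρ ^ 8 * ‖ph_m b σ t‖ := by rw [norm_mul, norm_pow]
  have n3 : ‖r ^ 8 * ph_e b σ t / b ^ 7‖ = ρ ^ 8 * ‖ph_e b σ t‖ := by
    rw [norm_div, norm_mul, norm_pow, norm_pow, hb, one_pow, div_one]
  have n4 : ‖r ^ 16 * ph_N b σ t / b ^ 15‖ = ρ ^ 16 * ‖ph_N b σ t‖ := by
    rw [norm_div, norm_mul, norm_pow, norm_pow, hb, one_pow, div_one]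
  have hMpos : 0 < ‖ph_M b σ t‖ := by linarith
  have hNpos : 0 < ‖ph_N b σ t‖ := by linarith
  -- the forward part
  have f1 : (r ^ 16 * ph_M b σ t, r ^ 8 * ph_m b σ t) ∈ VP 0 := by
    constructor
    · show 3 + ‖(0 : ℂ)‖ < ‖r ^ 16 * ph_M b σ t‖
      rw [n1, norm_zero, hρ16]
      nlinarith [mul_le_mul hρ8 hρ8 (by norm_num) (by positivity)]
    · show ‖r ^ 8 * ph_m b σ t‖ < ‖r ^ 16 * ph_M b σ t‖
      rw [n1, n2, hρ16]
      have : ρ ^ 8 * ‖ph_m b σ t‖ ≤ ρ ^ 8 * 2 := by gcongr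
      have h2 : ρ ^ 8 * 256 * (1 / 2) ≤ ρ ^ 8 * ρ ^ 8 * ‖ph_M b σ t‖ := by gcongr
      nlinarith
  have f2 := (h₂ _ f1).2
  have f3 : Real.log ‖r ^ 16 * ph_M b σ t‖ - 12 * A * (1 / ρ ^ 3) ^ 8 ≤
      Gp 0 b (r ^ 16 * ph_M b σ t, r ^ 8 * ph_m b σ t) := by
    have h1 : C₂ * (1 + ‖r ^ 8 * ph_m b σ t‖) / ‖r ^ 16 * ph_M b σ t‖ ^ 2 ≤
        12 * A * (1 / ρ ^ 3) ^ 8 := by
      rw [n1, n2]
      calc C₂ * (1 + ρ ^ 8 * ‖ph_m b σ t‖) / (ρ ^ 16 * ‖ph_M b σ t‖) ^ 2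
          ≤ A * (ρ ^ 8 + ρ ^ 8 * 2) / (ρ ^ 16 * (1 / 2)) ^ 2 := by
            have : C₂ ≤ A := le_max_left _ _
            gcongr
            linarith
        _ = 12 * A * (1 / ρ ^ 3) ^ 8 := by
            field_simp
            ring
    have h2 := (abs_le.1 f2).1
    linarith
  -- the backward part
  have hbig : C₁ + 3 ≤ n₀ * ρ ^ 8 := by
    have h1 : (C₁ + 3) / n₀ ≤ ρ := by linarith
    rw [div_le_iff₀ hn₀] at h1
    have h2 : ρ ≤ ρ ^ 8 := by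
      calc ρ = ρ ^ 1 := (pow_one _).symm
        _ ≤ ρ ^ 8 := pow_le_pow_right₀ hρ1 (by norm_num)
    nlinarith
  have hNbig : C₁ + 3 ≤ ρ ^ 8 * ‖ph_N b σ t‖ := by
    calc C₁ + 3 ≤ n₀ * ρ ^ 8 := hbig
      _ = ρ ^ 8 * n₀ := by ring
      _ ≤ ρ ^ 8 * ‖ph_N b σ t‖ := by gcongr
  have g1 : 3 + ‖(0 : ℂ)‖ < ‖r ^ 16 * ph_N b σ t / b ^ 15‖ := by
    rw [n4, norm_zero, hρ16]
    nlinarith
  have g2 : ‖r ^ 8 * ph_e b σ t / b ^ 7‖ < ‖r ^ 16 * ph_N b σ t / b ^ 15‖ := by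
    rw [n3, n4, hρ16, mul_assoc]
    have : ‖ph_e b σ t‖ < ρ ^ 8 * ‖ph_N b σ t‖ := by linarith
    gcongr
  have g3 := (h₃ (r ^ 8 * ph_e b σ t / b ^ 7, r ^ 16 * ph_N b σ t / b ^ 15) g1 g2).2
  have g4 : Gm 0 b (r ^ 8 * ph_e b σ t / b ^ 7, r ^ 16 * ph_N b σ t / b ^ 15) ≤
      Real.log ‖r ^ 16 * ph_N b σ t / b ^ 15‖ + B * (1 + C₁) / n₀ ^ 2 * (1 / ρ ^ 3) ^ 8 := by
    have h1 : C₃ * (1 + ‖r ^ 8 * ph_e b σ t / b ^ 7‖) / ‖r ^ 16 * ph_N b σ t / b ^ 15‖ ^ 2 ≤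
        B * (1 + C₁) / n₀ ^ 2 * (1 / ρ ^ 3) ^ 8 := by
      rw [n3, n4]
      calc C₃ * (1 + ρ ^ 8 * ‖ph_e b σ t‖) / (ρ ^ 16 * ‖ph_N b σ t‖) ^ 2
          ≤ B * (ρ ^ 8 + ρ ^ 8 * C₁) / (ρ ^ 16 * n₀) ^ 2 := by
            have : C₃ ≤ B := le_max_left _ _
            gcongr
            linarith
        _ = B * (1 + C₁) / n₀ ^ 2 * (1 / ρ ^ 3) ^ 8 := by
            field_simp
    have h2 := (abs_le.1 g3).2
    simp only at h2
    linarith
  rw [n4, Real.log_mul (by positivity) hNpos.ne'] at g4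
  rw [n1, Real.log_mul (by positivity) hMpos.ne'] at f3
  have htρ : (1 / ρ ^ 3) ^ 8 ≤ (1 / ρ ^ 3) ^ 6 := by
    apply pow_le_pow_of_le_one (by positivity) _ (by norm_num)
    rw [div_le_one (by positivity)]
    exact one_le_pow₀ hρ1
  rw [e1, e2, ← htn] at *
  have hfin : 8 * (2 * (Gm 0 b (r ^ 8 * ph_e b σ t / b ^ 7, r ^ 16 * ph_N b σ t / b ^ 15) / 16) -
      Gp 0 b (r ^ 16 * ph_M b σ t, r ^ 8 * ph_m b σ t) / 8) ≤
      -8 * (s ^ 2).re + 4 * ‖s‖ ^ 4 + (ph_W b t - 1).re + ‖ph_W b t - 1‖ ^ 2 / 2 +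
        C₁ * (‖t‖ ^ 6 + ‖s‖ * ‖t‖ ^ 3 + ‖s‖ ^ 2 * ‖t‖) +
        (12 * A + B * (1 + C₁) / n₀ ^ 2) * ‖t‖ ^ 8 := by
    linarith
  have hD : (12 * A + B * (1 + C₁) / n₀ ^ 2) * ‖t‖ ^ 8 ≤
      (12 * A + B * (1 + C₁) / n₀ ^ 2) * (‖t‖ ^ 6 + ‖s‖ * ‖t‖ ^ 3 + ‖s‖ ^ 2 * ‖t‖) := by
    have h1 : 0 ≤ ‖s‖ * ‖t‖ ^ 3 + ‖s‖ ^ 2 * ‖t‖ := by positivity
    have h2 : 0 ≤ B * (1 + C₁) / n₀ ^ 2 := by positivity
    apply mul_le_mul_of_nonneg_left _ (by linarith)
    linarith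
  have hpos : 0 ≤ (C₁ + 12 * A + B * (1 + C₁) / n₀ ^ 2) *
      (‖t‖ ^ 6 + ‖s‖ * ‖t‖ ^ 3 + ‖s‖ ^ 2 * ‖t‖) := by positivity
  nlinarith

/-- a convenient upper bound for the backward Green function -/
theorem ph_Gm_le (c b : ℂ) (hb : ‖b‖ = 1) {q : ℂ × ℂ} {A : ℝ} (hA : 1 + ‖c‖ ≤ A)
    (hq : ‖q‖ + 1 ≤ A) : Gm c b q ≤ Real.log A := by
  obtain ⟨C, hC⟩ := Gm_le c b hb
  have hc := norm_nonneg c
  have hA1 : 1 ≤ A := by linarith
  have key : ∀ n : ℕ, ‖(henInv c b)^[n] q‖ + 1 ≤ A ^ (2 ^ n) := by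
    intro n
    induction n with
    | zero => simpa using hq
    | succ n ih =>
      rw [Function.iterate_succ_apply']
      set z := (henInv c b)^[n] q with hz
      set a := A ^ (2 ^ n) with ha
      have ha1 : A ≤ a := by
        calc A = A ^ 1 := (pow_one _).symm
          _ ≤ A ^ (2 ^ n) := pow_le_pow_right₀ hA1 Nat.one_le_two_pow
      have ha2 : A ^ (2 ^ (n + 1)) = a ^ 2 := by
        rw [ha, ← pow_mul, ← pow_succ]
      rw [ha2]
      have h1 : ‖z.1‖ ≤ ‖z‖ := norm_fst_le z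
      have h2 : ‖z.2‖ ≤ ‖z‖ := norm_snd_le z
      have h3 : ‖henInv c b z‖ ≤ a ^ 2 - 1 := by
        rw [Prod.norm_def]
        refine max_le ?_ ?_
        · show ‖z.2‖ ≤ _
          nlinarith
        · show ‖(z.2 ^ 2 + c - z.1) / b‖ ≤ _
          rw [norm_div, hb, div_one]
          have h4 : ‖z.2 ^ 2 + c - z.1‖ ≤ ‖z.2‖ ^ 2 + ‖c‖ + ‖z.1‖ := by
            have h5 := norm_sub_le (z.2 ^ 2 + c) z.1
            have h6 := norm_add_le (z.2 ^ 2) c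
            rw [norm_pow] at h6
            linarith
          have h5 : ‖z.2‖ ^ 2 ≤ (a - 1) ^ 2 := by
            have := norm_nonneg z.2
            gcongr
            linarith
          nlinarith
      linarith
  have h1 : ∀ n : ℕ, Gm c b q ≤ Real.log A + C * (1 / 2 : ℝ) ^ n := by
    intro n
    have h2 := hC ((henInv c b)^[n] q)
    rw [ph_Gm_iter c b hb] at h2
    have h3 : Real.log (max 1 ‖(henInv c b)^[n] q‖) ≤ 2 ^ n * Real.log A := by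
      have h4 : max 1 ‖(henInv c b)^[n] q‖ ≤ A ^ (2 ^ n) := by
        refine max_le (one_le_pow₀ hA1) ?_
        linarith [key n]
      have h5 := Real.log_le_log (lt_of_lt_of_le one_pos (le_max_left _ _)) h4
      rw [Real.log_pow] at h5
      push_cast at h5
      exact h5
    have h6 : (2 : ℝ) ^ n * Gm c b q ≤ 2 ^ n * (Real.log A + C * (1 / 2 : ℝ) ^ n) := by
      have h7 : (2 : ℝ) ^ n * (C * (1 / 2 : ℝ) ^ n) = C := by
        rw [one_div, inv_pow]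
        field_simp
      rw [mul_add, h7]
      linarith
    exact le_of_mul_le_mul_left h6 (by positivity)
  have h2 : Tendsto (fun n : ℕ => Real.log A + C * (1 / 2 : ℝ) ^ n) atTop
      (𝓝 (Real.log A + C * 0)) :=
    ((tendsto_pow_atTop_nhds_zero_of_lt_one (by norm_num) (by norm_num)).const_mul C).const_add _
  rw [mul_zero, add_zero] at h2
  exact ge_of_tendsto h2 (Eventually.of_forall h1)

/-! ### the segment in the chart -/

theorem ph_segment {b : ℂ} (hb : ‖b‖ = 1) (Ch : Chart 0 b) :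
    ∃ C₀ x₀ : ℝ, 0 ≤ C₀ ∧ ∀ (w : ℂ) (s : ℝ), x₀ < w.re → |s| ≤ 4 / 5 →
      (w, ph_al b * exp (-w) + s * exp (w / 2)) ∈ DD Ch.S ∧
      2 * GG Ch w (Ch.Uc w (ph_al b * exp (-w) + s * exp (w / 2))) - w.re ≤
        -(1 / 2) * s ^ 2 + (ph_d3 b * exp (-3 * w)).re + (ph_d6 b * exp (-6 * w)).re +
        C₀ * (‖ph_d3 b‖ * Real.exp (-w.re / 2) ^ 9 + Real.exp (-w.re / 2) ^ 14) := by
  obtain ⟨D, ρ₀, hD, hρ₀, hmain⟩ := ph_main hb
  set C := Ch.C with hCdef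
  have hC : 1 ≤ C := Ch.hC
  have hα : ‖ph_al b‖ ≤ 1 / 2 := by
    unfold ph_al
    rw [norm_div, norm_mul, hb, one_mul]
    have h1 : ‖1 - b‖ ≤ 2 := by
      have := norm_sub_le 1 b
      rw [norm_one, hb] at this
      linarith
    have h2 : ‖(4 : ℂ)‖ = 4 := by norm_num
    rw [h2]
    linarith
  set η₀ : ℝ := min (1 / 4) (min (1 / (600 * C)) (min (1 / (600 * D)) (9 / (10 * ρ₀)))) with hη₀
  have hη₀pos : 0 < η₀ := by
    rw [hη₀]
    refine lt_min (by norm_num) (lt_min (by positivity) (lt_min (by positivity) (by positivity)))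
  set K := 18 * C + 64 * ‖ph_d3 b‖ + (32 + 512 * ‖ph_d3 b‖) ^ 2 * ‖ph_d3 b‖ / 8 +
    90 * C * ‖ph_d6 b‖ + (128 * ‖ph_d6 b‖) ^ 2 / 8 with hK
  set K₂ := 64 * D + 6400 * D ^ 2 + 32 * C * D + C ^ 2 with hK₂
  have hK0 : 0 ≤ K := by positivity
  have hK₂0 : 0 ≤ K₂ := by positivity
  refine ⟨K + K₂ + 2240 * C ^ 2, max Ch.S (-2 * Real.log η₀), by positivity,
    fun w s hw hs => ?_⟩
  have hwS : Ch.S < w.re := (le_max_left _ _).trans_lt hw
  have hwη : -2 * Real.log η₀ < w.re := (le_max_right _ _).trans_lt hw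
  set η := Real.exp (-w.re / 2) with hη
  have hηpos : 0 < η := Real.exp_pos _
  have hηη₀ : η < η₀ := by
    rw [hη, ← Real.lt_log_iff_exp_lt hη₀pos]
    linarith
  have hη4 : η < 1 / 4 := hηη₀.trans_le (min_le_left _ _)
  have hη1 : η ≤ 1 := by linarith
  have hη3 : η ^ 3 ≤ η := by
    calc η ^ 3 ≤ η ^ 1 := pow_le_pow_of_le_one hηpos.le hη1 (by norm_num)
      _ = η := pow_one _
  have hCη : 600 * C * η ^ 3 ≤ 1 := by
    have h1 : η < 1 / (600 * C) := hηη₀.trans_le ((min_le_right _ _).trans (min_le_left _ _))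
    rw [lt_div_iff₀ (by positivity)] at h1
    have : 600 * C * η ^ 3 ≤ 600 * C * η := by gcongr
    linarith
  have hDη : 600 * D * η ^ 3 ≤ 1 := by
    have h1 : η < 1 / (600 * D) := hηη₀.trans_le ((min_le_right _ _).trans
      ((min_le_right _ _).trans (min_le_left _ _)))
    rw [lt_div_iff₀ (by positivity)] at h1
    have : 600 * D * η ^ 3 ≤ 600 * D * η := by gcongr
    linarith
  have hρη : ρ₀ ≤ (9 / 10) / η := by
    have h1 : η < 9 / (10 * ρ₀) := hηη₀.trans_le ((min_le_right _ _).trans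
      ((min_le_right _ _).trans (min_le_right _ _)))
    rw [lt_div_iff₀ (by positivity)] at h1
    rw [le_div_iff₀ hηpos]
    linarith
  set h := exp (-w / 2) with hh
  have hhn : ‖h‖ = η := by
    rw [hh, Complex.norm_exp, hη]
    congr 1
    simp
  have hh0 : h ≠ 0 := Complex.exp_ne_zero _
  have hinv : exp (w / 2) = 1 / h := by
    rw [hh, one_div, ← Complex.exp_neg]
    congr 1
    ring
  have hm1 : exp (-w) = h ^ 2 := by
    rw [hh, ← Complex.exp_nat_mul]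
    congr 1
    push_cast
    ring
  have hm3 : exp (-3 * w) = h ^ 6 := by
    rw [hh, ← Complex.exp_nat_mul]
    congr 1
    push_cast
    ring
  have hm6 : exp (-6 * w) = h ^ 12 := by
    rw [hh, ← Complex.exp_nat_mul]
    congr 1
    push_cast
    ring
  have hew : exp w = 1 / h ^ 2 := by
    rw [← hm1, one_div, ← Complex.exp_neg, neg_neg]
  have hexpre : Real.exp w.re = 1 / η ^ 2 := by
    rw [← hhn, ← norm_pow, ← hm1, ← Complex.norm_exp, Complex.exp_neg, norm_inv, one_div, inv_inv]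
  have hexpneg : Real.exp (-w.re) = η ^ 2 := by
    rw [Real.exp_neg, hexpre, one_div, inv_inv]
  have ha0 := abs_nonneg s
  set y := ph_al b * exp (-w) + s * exp (w / 2) with hy
  have hy' : y = ph_al b * h ^ 2 + s / h := by rw [hy, hm1, hinv]; ring
  have hyn : ‖y‖ ≤ 1 / 2 * η ^ 2 + |s| / η := by
    rw [hy']
    calc ‖ph_al b * h ^ 2 + s / h‖ ≤ ‖ph_al b * h ^ 2‖ + ‖(s : ℂ) / h‖ := norm_add_le _ _
      _ = ‖ph_al b‖ * η ^ 2 + |s| / η := by
          rw [norm_mul, norm_pow, norm_div, hhn, Complex.norm_real, Real.norm_eq_abs]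
      _ ≤ 1 / 2 * η ^ 2 + |s| / η := by gcongr
  have hDD : (w, y) ∈ DD Ch.S := by
    refine ⟨hwS, ?_⟩
    show ‖y‖ < Real.exp w.re / 2
    refine lt_of_le_of_lt hyn ?_
    rw [hexpre]
    have e1 : 1 / 2 * η ^ 2 + |s| / η = (1 / 2 * η ^ 4 + |s| * η) / η ^ 2 := by
      field_simp
    have e2 : 1 / η ^ 2 / 2 = (1 / 2) / η ^ 2 := by ring
    rw [e1, e2]
    have e3 : η ^ 4 ≤ η := by
      calc η ^ 4 ≤ η ^ 1 := pow_le_pow_of_le_one hηpos.le hη1 (by norm_num)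
        _ = η := pow_one _
    gcongr
    nlinarith
  refine ⟨hDD, ?_⟩
  -- the point
  set X := Ch.X w y with hX
  have hXest := Ch.X_est w y hDD
  rw [← hX, hexpneg] at hXest
  set ξ := X * h ^ 2 - 1 with hξ
  have hξn : ‖ξ‖ ≤ C * (2 * η ^ 4 + |s| * η ^ 3) := by
    have e1 : ξ = (X - exp w) * h ^ 2 := by
      rw [hξ, hew]
      field_simp
    rw [e1, norm_mul, norm_pow, hhn]
    calc ‖X - exp w‖ * η ^ 2 ≤ (C * (1 + ‖y‖) * η ^ 2) * η ^ 2 := by gcongr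
      _ ≤ (C * (1 + (1 / 2 * η ^ 2 + |s| / η)) * η ^ 2) * η ^ 2 := by gcongr
      _ = C * ((1 + 1 / 2 * η ^ 2) * η ^ 4 + |s| * η ^ 3) := by
          field_simp
          ring
      _ ≤ C * (2 * η ^ 4 + |s| * η ^ 3) := by
          have : 1 + 1 / 2 * η ^ 2 ≤ 2 := by nlinarith
          gcongr
  obtain ⟨r₀, hr, hr1⟩ := ph_sqrt ξ
  obtain ⟨s1, s2, s3, s4, s5, s6⟩ := ph_seg_core hC hηpos hη1 hCη hα hhn hs hξn hr hr1
  have hr0pos : 0 < ‖r₀‖ := by linarith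
  have hr0 : r₀ ≠ 0 := norm_pos_iff.1 hr0pos
  set r := r₀ / h with hrdef
  have hrne : r ≠ 0 := div_ne_zero hr0 hh0
  have ht : 1 / r ^ 3 = h ^ 3 / r₀ ^ 3 := by
    rw [hrdef]
    field_simp
  have hXr : X = r ^ 2 := by
    rw [hrdef, div_pow, hr, hξ]
    field_simp
    ring
  set s' := s / r₀ + ph_al b * h ^ 3 / r₀ - ph_al b * (h ^ 3 / r₀ ^ 3) with hs'
  have hyr : y = (ph_al b * (1 / r ^ 3) + s') * r := by
    rw [ht, hs', hy', hrdef]
    field_simp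
    ring
  have hrn : ‖r‖ = ‖r₀‖ / η := by rw [hrdef, norm_div, hhn]
  have hrρ : ρ₀ ≤ ‖r‖ := by
    rw [hrn]
    refine hρη.trans ?_
    gcongr
  have hm := hmain r s' hrρ s2
  have hpt : (r ^ 2, (ph_al b * (1 / r ^ 3) + s') * r) = (X, y) := by rw [← hXr, ← hyr]
  rw [hpt, ht] at hm
  have htn0 : ‖1 / r ^ 3‖ = 1 / ‖r‖ ^ 3 := by rw [norm_div, norm_one, norm_pow]
  have htn : 1 / ‖r‖ ^ 3 = ‖h ^ 3 / r₀ ^ 3‖ := by rw [← ht, htn0]
  rw [htn] at hm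
  have hPi : Ch.Pi w (Ch.Uc w y) = (X, y) := Ch.Pi_win w y hDD
  have hwpos : 0 < w.re := by linarith [Ch.hS]
  have hGp : Gp 0 b (X, y) = w.re := by rw [← hPi]; exact Ch.Pi_Gp w _ hwpos
  have hGG : GG Ch w (Ch.Uc w y) = Gm 0 b (X, y) := by rw [GG, hPi]
  rw [hGp] at hm
  rw [hGG, hm3, hm6]
  obtain ⟨t1, t2⟩ := ph_T1 s1 s2
  have t3 := ph_T3 (b := b) hC hηpos hη1 hhn s3 s4 s5
  have t4 := ph_T2 ha0 hC hD hηpos hη1 hDη (norm_nonneg s') (norm_nonneg (h ^ 3 / r₀ ^ 3)) t2 s3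
  rw [← hK] at t3
  rw [← hK₂] at t4
  have hsq : |s| ^ 2 = s ^ 2 := sq_abs s
  rw [hsq] at t4
  have hρ2 : 140 * (4 * C * η ^ 7) ^ 2 = 2240 * C ^ 2 * η ^ 14 := by ring
  rw [hρ2] at t1
  have hu : 0 ≤ ‖ph_d3 b‖ * η ^ 9 := by positivity
  have hs2 := sq_nonneg s
  have hfin : (K + K₂ + 2240 * C ^ 2) * (‖ph_d3 b‖ * η ^ 9 + η ^ 14) =
      K * (‖ph_d3 b‖ * η ^ 9 + η ^ 14) + K₂ * η ^ 14 + 2240 * C ^ 2 * η ^ 14 +
      (K₂ + 2240 * C ^ 2) * (‖ph_d3 b‖ * η ^ 9) := by ring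
  have hextra : 0 ≤ (K₂ + 2240 * C ^ 2) * (‖ph_d3 b‖ * η ^ 9) := by positivity
  rw [hfin]
  linarith

/-- choice of the argument -/
theorem ph_arg {b : ℂ} (hb : ‖b‖ = 1) (C₀ : ℝ) (hC₀ : 0 ≤ C₀) : ∃ θ x₁ : ℝ, ∀ x : ℝ, x₁ < x →
    (ph_d3 b * exp (-3 * (x + θ * I))).re + (ph_d6 b * exp (-6 * (x + θ * I))).re +
      C₀ * (‖ph_d3 b‖ * Real.exp (-x / 2) ^ 9 + Real.exp (-x / 2) ^ 14) < 0 := by
  have hb0 : b ≠ 0 := by
    intro h0
    rw [h0, norm_zero] at hb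
    norm_num at hb
  -- rotation
  have key : ∀ (d : ℂ) (n : ℕ), 0 < n → ∃ θ : ℝ, ∀ x : ℝ,
      (d * exp (-n * (x + θ * I))).re = -‖d‖ * Real.exp (-n * x) := by
    intro d n hn
    refine ⟨(arg d - Real.pi) / n, fun x => ?_⟩
    have hn0 : (n : ℂ) ≠ 0 := by exact_mod_cast hn.ne'
    have h1 : d = ‖d‖ * exp (arg d * I) := (Complex.norm_mul_exp_arg_mul_I d).symm
    have h2 : d * exp (-n * (x + ((arg d - Real.pi) / n : ℝ) * I)) =
        ((-‖d‖ * Real.exp (-n * x) : ℝ) : ℂ) := by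
      have h3 : exp (-n * (x + ((arg d - Real.pi) / n : ℝ) * I)) =
          exp (-n * x) * (exp (-(arg d * I)) * exp (Real.pi * I)) := by
        rw [← Complex.exp_add, ← Complex.exp_add]
        congr 1
        push_cast
        field_simp
        ring
      rw [h3, Complex.exp_pi_mul_I]
      nth_rewrite 1 [h1]
      have h4 : exp (arg d * I) * exp (-(arg d * I)) = 1 := by
        rw [← Complex.exp_add, add_neg_cancel, Complex.exp_zero]
      push_cast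
      linear_combination (-(‖d‖ : ℂ) * exp (-n * x)) * h4
    rw [h2, Complex.ofReal_re]
  have hpow : ∀ (x : ℝ) (n : ℕ), Real.exp (-n * x) = Real.exp (-x / 2) ^ (2 * n) := by
    intro x n
    rw [← Real.exp_nat_mul]
    congr 1
    push_cast
    ring
  have hre : ∀ (e : ℂ) (n : ℕ) (x θ : ℝ), (e * exp (-n * (x + θ * I))).re ≤
      ‖e‖ * Real.exp (-n * x) := by
    intro e n x θ
    refine (Complex.re_le_norm _).trans (le_of_eq ?_)
    rw [norm_mul, Complex.norm_exp]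
    congr 2
    simp
  by_cases h3 : ph_d3 b = 0
  · -- the sixth order term
    have h6 : 0 < ‖ph_d6 b‖ := norm_pos_iff.2 (ph_ne hb0 h3)
    obtain ⟨θ, hθ⟩ := key (ph_d6 b) 6 (by norm_num)
    set η₀ : ℝ := min 1 (‖ph_d6 b‖ / (C₀ + 1)) with hη₀
    have hη₀pos : 0 < η₀ := lt_min one_pos (by positivity)
    refine ⟨θ, -2 * Real.log η₀, fun x hx => ?_⟩
    set η := Real.exp (-x / 2) with hη
    have hηpos : 0 < η := Real.exp_pos _
    have hηη₀ : η < η₀ := by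
      rw [hη, ← Real.lt_log_iff_exp_lt hη₀pos]
      linarith
    have hη1 : η ≤ 1 := (hηη₀.trans_le (min_le_left _ _)).le
    have hη2 : (C₀ + 1) * η < ‖ph_d6 b‖ := by
      have := hηη₀.trans_le (min_le_right _ _)
      rw [lt_div_iff₀ (by positivity)] at this
      linarith
    have e1 := hθ x
    push_cast at e1
    rw [h3, zero_mul, Complex.zero_re, norm_zero, zero_mul, zero_add, zero_add, e1]
    have e2 := hpow x 6
    push_cast at e2
    rw [e2]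
    have e3 : η ^ 14 = η ^ 2 * η ^ 12 := by ring
    rw [← hη, e3]
    have e4 : η ^ 2 ≤ η := by nlinarith
    have e5 : C₀ * η ^ 2 ≤ C₀ * η := by gcongr
    have e6 : 0 < η ^ 12 := by positivity
    nlinarith
  · have h3' : 0 < ‖ph_d3 b‖ := norm_pos_iff.2 h3
    obtain ⟨θ, hθ⟩ := key (ph_d3 b) 3 (by norm_num)
    set L := ‖ph_d6 b‖ + C₀ * ‖ph_d3 b‖ + C₀ + 1 with hL
    have hLpos : 0 < L := by positivity
    set η₀ : ℝ := min 1 (‖ph_d3 b‖ / L) with hη₀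
    have hη₀pos : 0 < η₀ := lt_min one_pos (by positivity)
    refine ⟨θ, -2 * Real.log η₀, fun x hx => ?_⟩
    set η := Real.exp (-x / 2) with hη
    have hηpos : 0 < η := Real.exp_pos _
    have hηη₀ : η < η₀ := by
      rw [hη, ← Real.lt_log_iff_exp_lt hη₀pos]
      linarith
    have hη1 : η ≤ 1 := (hηη₀.trans_le (min_le_left _ _)).le
    have hη2 : L * η < ‖ph_d3 b‖ := by
      have := hηη₀.trans_le (min_le_right _ _)
      rw [lt_div_iff₀ hLpos] at this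
      linarith
    have e1 := hθ x
    push_cast at e1
    have e2 := hpow x 3
    push_cast at e2
    have e3 := hre (ph_d6 b) 6 x θ
    push_cast at e3
    have e4 := hpow x 6
    push_cast at e4
    rw [e1, e2]
    rw [e4] at e3
    rw [← hη] at e3 ⊢
    norm_num at e3 ⊢
    have f1 : η ^ 12 ≤ η ^ 7 := pow_le_pow_of_le_one hηpos.le hη1 (by norm_num)
    have f2 : η ^ 9 ≤ η ^ 7 := pow_le_pow_of_le_one hηpos.le hη1 (by norm_num)
    have f3 : η ^ 14 ≤ η ^ 7 := pow_le_pow_of_le_one hηpos.le hη1 (by norm_num)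
    have f4 : ‖ph_d6 b‖ * η ^ 12 ≤ ‖ph_d6 b‖ * η ^ 7 := by gcongr
    have f5 : C₀ * (‖ph_d3 b‖ * η ^ 9 + η ^ 14) ≤ C₀ * (‖ph_d3 b‖ * η ^ 7 + η ^ 7) := by gcongr
    have f6 : L * η * η ^ 6 < ‖ph_d3 b‖ * η ^ 6 := by gcongr
    have f7 : L * η * η ^ 6 = ‖ph_d6 b‖ * η ^ 7 + C₀ * (‖ph_d3 b‖ * η ^ 7 + η ^ 7) + η ^ 7 := by
      rw [hL]; ring
    have f8 : 0 < η ^ 7 := by positivity
    linarith

/-! ### the two discs -/

/-- on the discs around `± e^{w/2}` the Green function is small -/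
theorem ph_disc {c b : ℂ} (hb : ‖b‖ = 1) (Ch : Chart c b) : ∃ x₀ : ℝ, ∀ (w y ε : ℂ), x₀ < w.re →
    (ε = 1 ∨ ε = -1) → ‖y - ε * exp (w / 2)‖ ≤ Real.exp (w.re / 2) / 4 →
    (w, y) ∈ DD Ch.S ∧ GG Ch w (Ch.Uc w y) < w.re / 2 := by
  set C := Ch.C with hCdef
  have hC : 1 ≤ C := Ch.hC
  have hc := norm_nonneg c
  set A₀ := 100 * (C + ‖c‖ + 1) with hA₀
  have hA₀pos : 0 < A₀ := by positivity
  refine ⟨max Ch.S (2 * Real.log A₀), fun w y ε hw hε hy => ?_⟩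
  have hwS : Ch.S < w.re := (le_max_left _ _).trans_lt hw
  have hwpos : 0 < w.re := by linarith [Ch.hS]
  set g := Real.exp (w.re / 2) with hg
  have hgpos : 0 < g := Real.exp_pos _
  have hgA : A₀ < g := by
    have h1 : 2 * Real.log A₀ < w.re := (le_max_right _ _).trans_lt hw
    rw [hg, ← Real.log_lt_iff_lt_exp hA₀pos]
    linarith
  have hg2 : Real.exp w.re = g ^ 2 := by
    rw [hg, ← Real.exp_nat_mul]
    congr 1
    push_cast
    ring
  have hgC : 100 * C ≤ g := by nlinarith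
  have hgc : 100 * (‖c‖ + 1) ≤ g := by nlinarith
  have hg100 : 100 ≤ g := by linarith
  have hginv : Real.exp (-w.re) = 1 / g ^ 2 := by rw [Real.exp_neg, hg2, one_div]
  set E := exp (w / 2) with hE
  have hEn : ‖E‖ = g := by
    rw [hE, Complex.norm_exp, hg]
    congr 1
    simp
  have hE2 : exp w = E ^ 2 := by
    rw [hE, ← Complex.exp_nat_mul]
    congr 1
    push_cast
    ring
  have hεn : ‖ε * E‖ = g := by
    rcases hε with rfl | rfl
    · rw [one_mul, hEn]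
    · rw [neg_one_mul, norm_neg, hEn]
  have hε2 : ε ^ 2 = 1 := by rcases hε with rfl | rfl <;> norm_num
  have hyn : ‖y‖ ≤ 5 / 4 * g := by
    have h1 := norm_add_le (y - ε * E) (ε * E)
    rw [sub_add_cancel, hεn] at h1
    linarith
  have hDD : (w, y) ∈ DD Ch.S := by
    refine ⟨hwS, ?_⟩
    show ‖y‖ < Real.exp w.re / 2
    rw [hg2]
    nlinarith
  refine ⟨hDD, ?_⟩
  have hXest := Ch.X_est w y hDD
  rw [hginv] at hXest
  set X := Ch.X w y with hX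
  have hX1 : ‖X - exp w‖ ≤ 1 := by
    refine hXest.trans ?_
    rw [← hCdef]
    calc C * (1 + ‖y‖) * (1 / g ^ 2) ≤ (g / 100) * (1 + 5 / 4 * g) * (1 / g ^ 2) := by
          gcongr
          linarith
      _ = (1 + 5 / 4 * g) / (100 * g) := by field_simp
      _ ≤ 1 := by
          rw [div_le_one (by positivity)]
          linarith
  have hPi : Ch.Pi w (Ch.Uc w y) = (X, y) := Ch.Pi_win w y hDD
  have hGG : GG Ch w (Ch.Uc w y) = Gm c b (X, y) := by rw [GG, hPi]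
  have hstep : Gm c b (X, y) = Gm c b (y, (y ^ 2 + c - X) / b) / 2 := by
    have h1 := Gm_henInv c b hb (X, y)
    have h2 : henInv c b (X, y) = (y, (y ^ 2 + c - X) / b) := rfl
    rw [h2] at h1
    linarith
  have hyE : ‖y ^ 2 - exp w‖ ≤ 9 / 16 * g ^ 2 := by
    have e1 : y ^ 2 - exp w = (y - ε * E) * (y + ε * E) := by
      rw [hE2]
      linear_combination (E ^ 2) * hε2
    have e2 : ‖y + ε * E‖ ≤ 9 / 4 * g := by
      have h1 := norm_add_le (y - ε * E) (2 * (ε * E))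
      have h2 : y - ε * E + 2 * (ε * E) = y + ε * E := by ring
      rw [h2, norm_mul, hεn] at h1
      norm_num at h1
      linarith
    rw [e1, norm_mul]
    calc ‖y - ε * E‖ * ‖y + ε * E‖ ≤ (g / 4) * (9 / 4 * g) := by gcongr
      _ = 9 / 16 * g ^ 2 := by ring
  have hYn : ‖(y ^ 2 + c - X) / b‖ ≤ 9 / 16 * g ^ 2 + ‖c‖ + 1 := by
    rw [norm_div, hb, div_one]
    have e1 : y ^ 2 + c - X = (y ^ 2 - exp w) + c - (X - exp w) := by ring
    rw [e1]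
    calc ‖(y ^ 2 - exp w) + c - (X - exp w)‖ ≤ ‖(y ^ 2 - exp w) + c‖ + ‖X - exp w‖ :=
          norm_sub_le _ _
      _ ≤ (‖y ^ 2 - exp w‖ + ‖c‖) + ‖X - exp w‖ := by
          gcongr
          exact norm_add_le _ _
      _ ≤ 9 / 16 * g ^ 2 + ‖c‖ + 1 := by linarith
  have hq : ‖((y, (y ^ 2 + c - X) / b) : ℂ × ℂ)‖ + 1 ≤ 3 / 5 * g ^ 2 := by
    rw [Prod.norm_def]
    have h1 : ‖y‖ ≤ 3 / 5 * g ^ 2 - 1 := by nlinarith
    have h2 : ‖(y ^ 2 + c - X) / b‖ ≤ 3 / 5 * g ^ 2 - 1 := by nlinarith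
    have := max_le h1 h2
    simp only at this ⊢
    linarith
  have hlog := ph_Gm_le c b hb (A := 3 / 5 * g ^ 2) (by nlinarith) hq
  rw [hGG, hstep]
  have hlog2 : Real.log (3 / 5 * g ^ 2) < w.re := by
    have h1 : Real.log (g ^ 2) = w.re := by rw [← hg2, Real.log_exp]
    calc Real.log (3 / 5 * g ^ 2) < Real.log (g ^ 2) := by
          apply Real.log_lt_log (by positivity)
          nlinarith [sq_nonneg g]
      _ = w.re := h1
  linarith

/-- the balls of the statement are covered by the images of the discs -/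
theorem ph_ball {c b : ℂ} (Ch : Chart c b) (C₁ : ℝ) : ∃ x₀ : ℝ, ∀ (w u e : ℂ), x₀ < w.re →
    (e = 0 ∨ e = Real.pi * I) → ‖u - Ch.κ (w / 2 + e)‖ ≤ C₁ * Real.exp (3 / 4 * w.re) →
    ∃ y : ℂ, ‖y - exp e * exp (w / 2)‖ ≤ Real.exp (w.re / 2) / 4 ∧ Ch.Uc w y = u := by
  set C := Ch.C with hCdef
  have hC : 1 ≤ C := Ch.hC
  set B := max C₁ 1 with hB
  have hB1 : 1 ≤ B := le_max_right _ _
  set A₀ := 1000 * (C + B) with hA₀
  have hA₀pos : 0 < A₀ := by positivity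
  refine ⟨max Ch.S (2 * Real.log A₀), fun w u e hw he hu => ?_⟩
  have hwS : Ch.S < w.re := (le_max_left _ _).trans_lt hw
  have hwpos : 0 < w.re := by linarith [Ch.hS]
  set g := Real.exp (w.re / 2) with hg
  have hgpos : 0 < g := Real.exp_pos _
  have hgA : A₀ < g := by
    have h1 : 2 * Real.log A₀ < w.re := (le_max_right _ _).trans_lt hw
    rw [hg, ← Real.log_lt_iff_lt_exp hA₀pos]
    linarith
  have hg2 : Real.exp w.re = g ^ 2 := by
    rw [hg, ← Real.exp_nat_mul]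
    congr 1
    push_cast
    ring
  have hginv : Real.exp (-w.re) = 1 / g ^ 2 := by rw [Real.exp_neg, hg2, one_div]
  have hgC : 1000 * C ≤ g := by nlinarith
  have hgB : 1000 * B ≤ g := by nlinarith
  have hg34 : Real.exp (3 / 4 * w.re) ≤ g ^ 2 := by
    rw [← hg2]
    apply Real.exp_le_exp.2
    linarith
  set E := exp (w / 2) with hE
  have hEn : ‖E‖ = g := by
    rw [hE, Complex.norm_exp, hg]
    congr 1
    simp
  have hE2 : exp w = E ^ 2 := by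
    rw [hE, ← Complex.exp_nat_mul]
    congr 1
    push_cast
    ring
  set ε := exp e with hεdef
  have hε : (ε = 1 ∨ ε = -1) ∧ e.re = 0 := by
    rcases he with rfl | rfl
    · exact ⟨Or.inl Complex.exp_zero, rfl⟩
    · refine ⟨Or.inr Complex.exp_pi_mul_I, by simp⟩
  have hε3 : ε ^ 3 = ε := by rcases hε.1 with h | h <;> rw [h] <;> norm_num
  have hεn : ‖ε‖ = 1 := by rcases hε.1 with h | h <;> rw [h] <;> simp
  -- the leading term of `κ`
  have hκ := Ch.κ_lead (w / 2 + e) (by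
    rw [Complex.add_re, hε.2]
    simp
    linarith)
  have hκ1 : exp (3 * (w / 2 + e)) = ε * E ^ 3 := by
    have h1 : exp (3 * (w / 2 + e)) = exp e ^ 3 * exp (w / 2) ^ 3 := by
      rw [← Complex.exp_nat_mul, ← Complex.exp_nat_mul, ← Complex.exp_add]
      congr 1
      push_cast
      ring
    rw [h1, ← hεdef, ← hE, hε3]
  have hκ2 : Real.exp (2 * (w / 2 + e).re) = g ^ 2 := by
    rw [← hg2, Complex.add_re, hε.2]
    congr 1
    simp
    ring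
  rw [hκ1, hκ2, ← hCdef] at hκ
  have hC₁B : C₁ * Real.exp (3 / 4 * w.re) ≤ B * g ^ 2 := by
    have : C₁ ≤ B := le_max_left _ _
    gcongr
  have hu1 : ‖u - ε * E ^ 3‖ ≤ (B + C) * g ^ 2 := by
    calc ‖u - ε * E ^ 3‖ ≤ ‖u - Ch.κ (w / 2 + e)‖ + ‖Ch.κ (w / 2 + e) - ε * E ^ 3‖ :=
          norm_sub_le_norm_sub_add_norm_sub _ _ _
      _ ≤ B * g ^ 2 + C * g ^ 2 := add_le_add (hu.trans hC₁B) hκ
      _ = (B + C) * g ^ 2 := by ring
  have hun : ‖u‖ ≤ 2 * g ^ 3 := by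
    have h1 := norm_add_le (u - ε * E ^ 3) (ε * E ^ 3)
    rw [sub_add_cancel, norm_mul (ε) (E ^ 3), hεn, norm_pow, hEn, one_mul] at h1
    have h2 : (B + C) * g ^ 2 ≤ g * g ^ 2 := by
      gcongr
      linarith
    nlinarith
  have hg4 : Real.exp (2 * w.re) = g ^ 4 := by
    have : Real.exp (2 * w.re) = Real.exp w.re ^ 2 := by
      rw [← Real.exp_nat_mul]
      congr 1
    rw [this, hg2]
    ring
  have hg1 : 1000 ≤ g := by linarith
  obtain ⟨y, hy1, hy2⟩ := Ch.U_surj w u hwS (by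
    rw [hg4]
    refine hun.trans ?_
    have : 8 * g ^ 3 ≤ g * g ^ 3 := by gcongr; linarith
    nlinarith)
  refine ⟨y, ?_, hy2⟩
  have hDD : (w, y) ∈ DD Ch.S := ⟨hwS, hy1⟩
  have hU := Ch.U_est w y hDD
  rw [hy2, hginv, hE2, ← hCdef] at hU
  rw [hg2] at hy1
  -- first bound for `y`
  have hy0 := norm_nonneg y
  have hyn : ‖y‖ ≤ 4 * g := by
    have h1 : g ^ 2 * ‖y‖ ≤ ‖u‖ + C * (1 + ‖y‖ ^ 2) * (1 / g ^ 2) := by
      have h2 := norm_sub_le u (u - E ^ 2 * y)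
      rw [sub_sub_cancel, norm_mul, norm_pow, hEn] at h2
      linarith
    have h3 : C * (1 + ‖y‖ ^ 2) * (1 / g ^ 2) ≤ C + C * ‖y‖ / 2 := by
      have e1 : ‖y‖ ^ 2 * (1 / g ^ 2) ≤ ‖y‖ / 2 := by
        rw [mul_one_div, div_le_iff₀ (by positivity)]
        nlinarith
      have e2 : 1 / g ^ 2 ≤ 1 := by
        rw [div_le_one (by positivity)]
        nlinarith
      calc C * (1 + ‖y‖ ^ 2) * (1 / g ^ 2) = C * (1 / g ^ 2) + C * (‖y‖ ^ 2 * (1 / g ^ 2)) := by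
            ring
        _ ≤ C * 1 + C * (‖y‖ / 2) := by gcongr
        _ = C + C * ‖y‖ / 2 := by ring
    by_contra hcon
    push Not at hcon
    have h4 : C * ‖y‖ / 2 ≤ g * ‖y‖ / 2 := by gcongr; linarith
    have h5 : g ^ 2 * (4 * g) < g ^ 2 * ‖y‖ := by gcongr
    have h6 : g * ‖y‖ ≤ g ^ 2 * ‖y‖ / 1000 := by
      have : g * ‖y‖ * 1000 ≤ g * ‖y‖ * g := by gcongr
      nlinarith
    have h7 : C ≤ g ^ 3 := by
      have : g ≤ g ^ 3 := by nlinarith [sq_nonneg g]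
      linarith
    nlinarith
  have hU2 : ‖u - E ^ 2 * y‖ ≤ 17 * C := by
    refine hU.trans ?_
    have e1 : 1 + ‖y‖ ^ 2 ≤ 17 * g ^ 2 := by
      have : ‖y‖ ^ 2 ≤ (4 * g) ^ 2 := by gcongr
      nlinarith
    calc C * (1 + ‖y‖ ^ 2) * (1 / g ^ 2) ≤ C * (17 * g ^ 2) * (1 / g ^ 2) := by gcongr
      _ = 17 * C := by field_simp
  have hE0 : E ≠ 0 := Complex.exp_ne_zero _
  have e1 : y - ε * E = ((u - ε * E ^ 3) - (u - E ^ 2 * y)) / E ^ 2 := by
    field_simp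
    ring
  rw [e1, norm_div, norm_pow, hEn, div_le_iff₀ (by positivity)]
  calc ‖(u - ε * E ^ 3) - (u - E ^ 2 * y)‖ ≤ ‖u - ε * E ^ 3‖ + ‖u - E ^ 2 * y‖ := norm_sub_le _ _
    _ ≤ (B + C) * g ^ 2 + 17 * C := add_le_add hu1 hU2
    _ ≤ g / 4 * g ^ 2 := by nlinarith [sq_nonneg g]

variable {c b : ℂ}

/-- upper bound: for suitable `w` with large real part the two sides are joined below
level `Re w / 2` -/
theorem pass_high0 (hb : ‖b‖ = 1) (hc : c = 0) {Ch : Chart c b} (W : Win Ch) (C₁ S₁ : ℝ) :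
    ∃ w : ℂ, S₁ < w.re ∧ ∃ P : Set ℂ, IsPreconnected P ∧ (∀ v ∈ P, GG Ch w v < w.re / 2) ∧
      (∀ u, ‖u - Ch.κ (w / 2)‖ ≤ C₁ * Real.exp (3 / 4 * w.re) → u ∈ P) ∧
      (∀ u, ‖u - Ch.κ (w / 2 + Real.pi * I)‖ ≤ C₁ * Real.exp (3 / 4 * w.re) → u ∈ P) := by
  subst hc
  obtain ⟨C₀, x₀, hC₀, hseg⟩ := ph_segment hb Ch
  obtain ⟨θ, x₁, harg⟩ := ph_arg hb C₀ hC₀
  obtain ⟨x₂, hdisc⟩ := ph_disc hb Ch
  obtain ⟨x₃, hball⟩ := ph_ball Ch C₁
  set x := max (max (max x₀ x₁) (max x₂ x₃)) (max S₁ 10) + 1 with hx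
  have hx0 : x₀ < x := by
    have : x₀ ≤ max (max (max x₀ x₁) (max x₂ x₃)) (max S₁ 10) :=
      ((le_max_left _ _).trans (le_max_left _ _)).trans (le_max_left _ _)
    linarith
  have hx1 : x₁ < x := by
    have : x₁ ≤ max (max (max x₀ x₁) (max x₂ x₃)) (max S₁ 10) :=
      ((le_max_right _ _).trans (le_max_left _ _)).trans (le_max_left _ _)
    linarith
  have hx2 : x₂ < x := by
    have : x₂ ≤ max (max (max x₀ x₁) (max x₂ x₃)) (max S₁ 10) :=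
      ((le_max_left _ _).trans (le_max_right _ _)).trans (le_max_left _ _)
    linarith
  have hx3 : x₃ < x := by
    have : x₃ ≤ max (max (max x₀ x₁) (max x₂ x₃)) (max S₁ 10) :=
      ((le_max_right _ _).trans (le_max_right _ _)).trans (le_max_left _ _)
    linarith
  have hxS : S₁ < x := by
    have : S₁ ≤ max (max (max x₀ x₁) (max x₂ x₃)) (max S₁ 10) :=
      (le_max_left _ _).trans (le_max_right _ _)
    linarith
  have hx10 : 10 < x := by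
    have : (10 : ℝ) ≤ max (max (max x₀ x₁) (max x₂ x₃)) (max S₁ 10) :=
      (le_max_right _ _).trans (le_max_right _ _)
    linarith
  set w : ℂ := x + θ * I with hw
  have hwre : w.re = x := by simp [hw]
  -- the set of parameters `y`
  set γ : ℝ → ℂ := fun s => ph_al b * exp (-w) + s * exp (w / 2) with hγ
  set D₁ := closedBall (exp (w / 2)) (Real.exp (x / 2) / 4) with hD₁
  set D₂ := closedBall (-exp (w / 2)) (Real.exp (x / 2) / 4) with hD₂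
  set Y := γ '' Icc (-(4 / 5)) (4 / 5) ∪ D₁ ∪ D₂ with hY
  have hα : ‖ph_al b‖ ≤ 1 / 2 := by
    unfold ph_al
    rw [norm_div, norm_mul, hb, one_mul]
    have h1 : ‖1 - b‖ ≤ 2 := by
      have := norm_sub_le 1 b
      rw [norm_one, hb] at this
      linarith
    have h2 : ‖(4 : ℂ)‖ = 4 := by norm_num
    rw [h2]
    linarith
  have hg1 : 1 ≤ Real.exp (x / 2) := Real.one_le_exp (by linarith)
  have hg100 : 100 ≤ Real.exp (x / 2) := by
    have h1 : Real.exp 5 ≤ Real.exp (x / 2) := Real.exp_le_exp.2 (by linarith)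
    have h2 : (100 : ℝ) ≤ Real.exp 5 := by
      have h3 : Real.exp 5 = Real.exp 1 ^ 5 := by
        rw [← Real.exp_nat_mul]
        congr 1
        norm_num
      have h4 := Real.exp_one_gt_d9
      rw [h3]
      calc (100 : ℝ) ≤ (2.7182818283) ^ 5 := by norm_num
        _ ≤ Real.exp 1 ^ 5 := by gcongr
    linarith
  have hEn : ‖exp (w / 2)‖ = Real.exp (x / 2) := by
    rw [Complex.norm_exp]
    congr 1
    simp [hwre]
  have hem : ‖exp (-w)‖ ≤ 1 := by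
    rw [Complex.norm_exp, Complex.neg_re, hwre]
    rw [Real.exp_le_one_iff]
    linarith
  have hYpre : IsPreconnected Y := by
    have hγc : Continuous γ := by
      rw [hγ]
      fun_prop
    have h1 : IsPreconnected (γ '' Icc (-(4 / 5)) (4 / 5)) :=
      isPreconnected_Icc.image _ hγc.continuousOn
    have h2 : IsPreconnected D₁ := (convex_closedBall _ _).isPreconnected
    have h3 : IsPreconnected D₂ := (convex_closedBall _ _).isPreconnected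
    have hαe : ‖ph_al b * exp (-w)‖ ≤ 1 / 2 := by
      rw [norm_mul]
      calc ‖ph_al b‖ * ‖exp (-w)‖ ≤ 1 / 2 * 1 := by gcongr
        _ = 1 / 2 := by norm_num
    have m1 : γ (4 / 5) ∈ D₁ := by
      rw [hD₁, mem_closedBall, dist_eq_norm]
      have e1 : γ (4 / 5) - exp (w / 2) = ph_al b * exp (-w) - (1 / 5 : ℂ) * exp (w / 2) := by
        simp only [hγ]
        push_cast
        ring
      rw [e1]
      have e2 := norm_sub_le (ph_al b * exp (-w)) ((1 / 5 : ℂ) * exp (w / 2))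
      rw [norm_mul (1 / 5 : ℂ), hEn] at e2
      norm_num at e2
      rw [norm_mul] at hαe
      norm_num at e2 ⊢
      linarith
    have m2 : γ (-(4 / 5)) ∈ D₂ := by
      rw [hD₂, mem_closedBall, dist_eq_norm]
      have e1 : γ (-(4 / 5)) - -exp (w / 2) = ph_al b * exp (-w) + (1 / 5 : ℂ) * exp (w / 2) := by
        simp only [hγ]
        push_cast
        ring
      rw [e1]
      have e2 := norm_add_le (ph_al b * exp (-w)) ((1 / 5 : ℂ) * exp (w / 2))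
      rw [norm_mul (1 / 5 : ℂ), hEn] at e2
      norm_num at e2
      rw [norm_mul] at hαe
      norm_num at e2 ⊢
      linarith
    have i1 : γ (4 / 5) ∈ γ '' Icc (-(4 / 5)) (4 / 5) :=
      mem_image_of_mem _ (by constructor <;> norm_num)
    have i2 : γ (-(4 / 5)) ∈ γ '' Icc (-(4 / 5)) (4 / 5) :=
      mem_image_of_mem _ (by constructor <;> norm_num)
    have h4 : IsPreconnected (γ '' Icc (-(4 / 5)) (4 / 5) ∪ D₁) := h1.union _ i1 m1 h2
    exact h4.union _ (Or.inl i2) m2 h3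
  have hYprop : ∀ y ∈ Y, (w, y) ∈ DD Ch.S ∧ GG Ch w (Ch.Uc w y) < w.re / 2 := by
    rintro y ((⟨s, hs, rfl⟩ | hy) | hy)
    · have hs' : |s| ≤ 4 / 5 := abs_le.2 hs
      obtain ⟨h1, h2⟩ := hseg w s (by rw [hwre]; exact hx0) hs'
      refine ⟨h1, ?_⟩
      have h3 := harg x hx1
      rw [hwre] at h2
      simp only [hγ]
      have h4 := sq_nonneg s
      rw [hwre]
      linarith
    · refine hdisc w y 1 (by rw [hwre]; exact hx2) (Or.inl rfl) ?_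
      rw [one_mul, hwre, ← dist_eq_norm]
      exact hy
    · refine hdisc w y (-1) (by rw [hwre]; exact hx2) (Or.inr rfl) ?_
      rw [neg_one_mul, hwre, ← dist_eq_norm]
      exact hy
  have hUcont : ContinuousOn (Ch.Uc w) Y := by
    have h1 : ContinuousOn (fun y : ℂ => (w, y)) Y := by fun_prop
    exact Ch.U_diff.continuousOn.comp h1 (fun y hy => (hYprop y hy).1)
  refine ⟨w, by rw [hwre]; exact hxS, Ch.Uc w '' Y, hYpre.image _ hUcont, ?_, ?_, ?_⟩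
  · rintro _ ⟨y, hy, rfl⟩
    exact (hYprop y hy).2
  · intro u hu
    have h1 := hball w u 0 (by rw [hwre]; exact hx3) (Or.inl rfl) (by rw [add_zero]; exact hu)
    obtain ⟨y, hy, hyu⟩ := h1
    rw [Complex.exp_zero, one_mul, hwre, ← dist_eq_norm] at hy
    exact ⟨y, Or.inl (Or.inr hy), hyu⟩
  · intro u hu
    have h1 := hball w u (Real.pi * I) (by rw [hwre]; exact hx3) (Or.inr rfl) hu
    obtain ⟨y, hy, hyu⟩ := h1
    rw [Complex.exp_pi_mul_I, neg_one_mul, hwre, ← dist_eq_norm] at hy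
    exact ⟨y, Or.inr hy, hyu⟩

end H6ea4aa
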