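import Pool.Agent.H.MP_6ea4aa_an.PassHighAux

/-!
# MP_6ea4aa: the pass is low for suitable `w`, case `c ≠ 0`
-/

set_option autoImplicit false

open Complex Set Filter Topology Metric

namespace H6ea4aa

variable {c b : ℂ}

/-- the estimate on the segment `{s e^{w/2}}` -/
theorem passHigh1_seg (hb : ‖b‖ = 1) (hc : c ≠ 0) (Ch : Chart c b) :
    ∃ M : ℝ, ∀ w : ℂ, Ch.S < w.re → c = ‖c‖ * exp w / Real.exp w.re →
      M ≤ Real.exp (w.re / 2) → ∀ s : ℝ, |s| ≤ 4 / 5 →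
      ‖(s : ℂ) * exp (w / 2)‖ < Real.exp w.re / 2 ∧
      GG Ch w (Ch.Uc w (s * exp (w / 2))) < w.re / 2 := by
  obtain ⟨C₂, hC₂⟩ := Gm_VM c b hb
  have hC := Ch.hC
  have hc0 : 0 < ‖c‖ := norm_pos_iff.2 hc
  set C' : ℝ := Ch.C + 16 * |C₂| with hC'
  have hC'1 : 1 ≤ C' := by have := abs_nonneg C₂; linarith
  refine ⟨(C' + C' ^ 2 + 1) / ‖c‖ + 100 * (‖c‖ + C') + 8, fun w hS hcw hM s hs => ?_⟩
  set E := Real.exp (w.re / 2) with hEdef
  have hM1 : (C' + C' ^ 2 + 1) / ‖c‖ ≤ E := by linarith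
  have hM2 : 100 * (‖c‖ + C') + 8 ≤ E := by
    have : 0 ≤ (C' + C' ^ 2 + 1) / ‖c‖ := by positivity
    linarith
  have hE8 : 8 ≤ E := by linarith
  have hE0 : 0 < E := by linarith
  have hexp : Real.exp w.re = E ^ 2 := by
    rw [hEdef, ← Real.exp_nat_mul]; congr 1; push_cast; ring
  have hexpn : Real.exp (-w.re) = (E ^ 2)⁻¹ := by rw [Real.exp_neg, hexp]
  have hn1 : ‖exp (w / 2)‖ = E := passAux_E w
  have hn2 : ‖exp w‖ = E ^ 2 := passAux_E2 w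
  have hyn : ‖(s : ℂ) * exp (w / 2)‖ = |s| * E := by
    rw [norm_mul, norm_real, hn1, Real.norm_eq_abs]
  have hs0 := abs_nonneg s
  have hy1 : ‖(s : ℂ) * exp (w / 2)‖ < Real.exp w.re / 2 := by
    rw [hyn, hexp]
    nlinarith
  have hwy : (w, (s : ℂ) * exp (w / 2)) ∈ DD Ch.S := ⟨hS, hy1⟩
  refine ⟨hy1, ?_⟩
  rw [passAux_GG hb Ch hwy]
  set y : ℂ := (s : ℂ) * exp (w / 2) with hy
  set X := Ch.X w y with hX
  set δ : ℝ := Ch.C * (1 + |s| * E) / E ^ 4 with hδ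
  have hE2 : (0 : ℝ) < E ^ 2 := by positivity
  have hδ0 : 0 ≤ δ := by positivity
  have hXe : ‖X - exp w‖ ≤ E ^ 2 * δ := by
    have h1 := Ch.X_est w y hwy
    rw [hexpn, hyn] at h1
    refine h1.trans (le_of_eq ?_)
    rw [hδ]
    field_simp
  have hδs : δ ≤ 2 * Ch.C / E ^ 3 := by
    rw [hδ, div_le_div_iff₀ (by positivity) (by positivity)]
    have h0 : 1 + |s| * E ≤ 2 * E := by nlinarith
    have h1 : Ch.C * (1 + |s| * E) ≤ 2 * Ch.C * E := by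
      calc Ch.C * (1 + |s| * E) ≤ Ch.C * (2 * E) := by gcongr
        _ = 2 * Ch.C * E := by ring
    calc Ch.C * (1 + |s| * E) * E ^ 3 ≤ (2 * Ch.C * E) * E ^ 3 := by gcongr
      _ = 2 * Ch.C * E ^ 4 := by ring
  have hδ1 : δ ≤ 1 / 50 := by
    refine hδs.trans ?_
    rw [div_le_iff₀ (by positivity)]
    have h1 : 100 * Ch.C ≤ E := by have := abs_nonneg C₂; linarith
    have h2 : E ≤ E ^ 3 := by nlinarith [mul_pos hE0 hE0]
    linarith
  have hcE : ‖c‖ / E ^ 2 ≤ 1 / 100 := by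
    rw [div_le_iff₀ (by positivity)]
    nlinarith
  -- the algebra
  have hexp2 : exp w = exp (w / 2) ^ 2 := by
    rw [← exp_nat_mul]; congr 1; push_cast; ring
  have hcw' : c = exp w * ((‖c‖ / E ^ 2 : ℝ) : ℂ) := by
    rw [hexp] at hcw
    have h1 : exp w * ((‖c‖ / E ^ 2 : ℝ) : ℂ) = ‖c‖ * exp w / ((E ^ 2 : ℝ) : ℂ) := by
      push_cast; ring
    rw [h1]
    exact hcw
  have halg : y ^ 2 + c - X = -(exp w * ((1 - s ^ 2 - ‖c‖ / E ^ 2 : ℝ) : ℂ)) - (X - exp w) := by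
    have h1 : y ^ 2 = exp w * (s : ℂ) ^ 2 := by rw [hy, mul_pow, ← hexp2]; ring
    rw [h1]
    push_cast
    push_cast at hcw'
    linear_combination hcw'
  set m : ℝ := 1 - s ^ 2 - ‖c‖ / E ^ 2 with hm
  have hs2 : s ^ 2 ≤ 16 / 25 := by
    rw [← sq_abs]; nlinarith
  have hmpos : 7 / 20 ≤ m := by
    rw [hm]; linarith
  have hmn : ‖exp w * ((m : ℝ) : ℂ)‖ = E ^ 2 * m := by
    rw [norm_mul, hn2, norm_real, Real.norm_eq_abs, abs_of_pos (by linarith)]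
  set Y := (y ^ 2 + c - X) / b with hYdef
  have hYn : ‖Y‖ = ‖y ^ 2 + c - X‖ := by rw [hYdef, norm_div, hb, div_one]
  have hYu : ‖Y‖ ≤ E ^ 2 * (m + δ) := by
    rw [hYn, halg]
    refine (norm_sub_le _ _).trans ?_
    rw [norm_neg, hmn]
    linarith
  have hYl : E ^ 2 * (m - δ) ≤ ‖Y‖ := by
    rw [hYn, halg]
    have h1 := norm_sub_norm_le (-(exp w * ((m : ℝ) : ℂ))) (X - exp w)
    rw [norm_neg, hmn] at h1
    linarith
  have hYl4 : E ^ 2 / 4 ≤ ‖Y‖ := by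
    refine le_trans ?_ hYl
    have h1 : E ^ 2 * (1 / 4) ≤ E ^ 2 * (m - δ) := by
      gcongr
      linarith
    linarith
  have hYpos : 0 < ‖Y‖ := by
    have : 0 < E ^ 2 / 4 := by positivity
    linarith
  have hE64 : 8 * E ≤ E ^ 2 := by rw [pow_two]; gcongr
  -- Gm_VM
  obtain ⟨-, hG⟩ := hC₂ (y, Y) (by simp only; linarith) (by
    simp only
    rw [hyn]
    have h1 : |s| * E ≤ 4 / 5 * E := by gcongr
    linarith)
  simp only at hG
  have hG1 : Gm c b (y, Y) ≤ Real.log ‖Y‖ + 16 * |C₂| * (1 + |s| * E) / E ^ 4 := by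
    have h1 : C₂ * (1 + ‖y‖) / ‖Y‖ ^ 2 ≤ 16 * |C₂| * (1 + |s| * E) / E ^ 4 := by
      rw [hyn]
      have h2 : (E ^ 2 / 4) ^ 2 ≤ ‖Y‖ ^ 2 := by gcongr
      calc C₂ * (1 + |s| * E) / ‖Y‖ ^ 2 ≤ |C₂| * (1 + |s| * E) / ‖Y‖ ^ 2 := by
            gcongr; exact le_abs_self _
        _ ≤ |C₂| * (1 + |s| * E) / (E ^ 2 / 4) ^ 2 := by gcongr
        _ = 16 * |C₂| * (1 + |s| * E) / E ^ 4 := by field_simp; ring
    have := (abs_le.1 hG).2
    linarith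
  have hlog : Real.log ‖Y‖ ≤ w.re + (m + δ - 1) := by
    have h1 : Real.log ‖Y‖ ≤ Real.log (E ^ 2 * (m + δ)) := Real.log_le_log hYpos hYu
    rw [Real.log_mul hE2.ne' (by linarith), ← hexp, Real.log_exp] at h1
    have h2 := Real.log_le_sub_one_of_pos (by linarith : 0 < m + δ)
    linarith
  have hsum : Gm c b (y, Y) ≤ w.re - s ^ 2 - ‖c‖ / E ^ 2 + C' * (1 + |s| * E) / E ^ 4 := by
    have h1 : C' * (1 + |s| * E) / E ^ 4 = δ + 16 * |C₂| * (1 + |s| * E) / E ^ 4 := by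
      rw [hδ, hC']; ring
    rw [h1]
    have h2 : m = 1 - s ^ 2 - ‖c‖ / E ^ 2 := hm
    linarith
  -- final comparison
  have hfin : C' * (1 + |s| * E) / E ^ 4 < s ^ 2 + ‖c‖ / E ^ 2 := by
    rw [div_lt_iff₀ (by positivity)]
    have h1 : (s ^ 2 + ‖c‖ / E ^ 2) * E ^ 4 = s ^ 2 * E ^ 4 + ‖c‖ * E ^ 2 := by
      field_simp
    rw [h1]
    have h2 : C' * (|s| * E) ≤ s ^ 2 * E ^ 2 + C' ^ 2 := by
      have h21 : s ^ 2 * E ^ 2 = (|s| * E) ^ 2 := by rw [mul_pow, sq_abs]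
      rw [h21]
      have h22 := sq_nonneg (|s| * E - C')
      have h23 : 0 ≤ (|s| * E) * C' := by positivity
      linarith [h22, h23, (by ring : (|s| * E - C') ^ 2 = (|s| * E) ^ 2 - 2 * ((|s| * E) * C') + C' ^ 2)]
    have h3 : s ^ 2 * E ^ 2 ≤ s ^ 2 * E ^ 4 := by
      have : E ^ 2 ≤ E ^ 4 := pow_le_pow_right₀ (by linarith) (by norm_num)
      gcongr
    have h4 : C' + C' ^ 2 + 1 ≤ ‖c‖ * E := by
      rw [div_le_iff₀ hc0] at hM1
      linarith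
    have h5 : ‖c‖ * E ≤ ‖c‖ * E ^ 2 := by
      gcongr
      linarith
    have h6 : C' * (1 + |s| * E) = C' + C' * (|s| * E) := by ring
    linarith
  linarith

/-- upper bound: for suitable `w` with large real part the two sides are joined below
level `Re w / 2` -/
theorem pass_high1 (hb : ‖b‖ = 1) (hc : c ≠ 0) {Ch : Chart c b} (W : Win Ch) (C₁ S₁ : ℝ) :
    ∃ w : ℂ, S₁ < w.re ∧ ∃ P : Set ℂ, IsPreconnected P ∧ (∀ v ∈ P, GG Ch w v < w.re / 2) ∧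
      (∀ u, ‖u - Ch.κ (w / 2)‖ ≤ C₁ * Real.exp (3 / 4 * w.re) → u ∈ P) ∧
      (∀ u, ‖u - Ch.κ (w / 2 + Real.pi * I)‖ ≤ C₁ * Real.exp (3 / 4 * w.re) → u ∈ P) := by
  obtain ⟨S₂, hS₂, hmain⟩ := passAux_main hb Ch C₁
  obtain ⟨M, hM⟩ := passHigh1_seg hb hc Ch
  set x : ℝ := max S₁ (max S₂ (2 * Real.log (max M 1))) + 1 with hx
  have hxS₁ : S₁ < x := lt_of_le_of_lt (le_max_left _ _) (lt_add_one _)
  have hxS₂ : S₂ < x :=
    lt_of_le_of_lt ((le_max_left _ _).trans (le_max_right _ _)) (lt_add_one _)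
  have hxM : 2 * Real.log (max M 1) < x :=
    lt_of_le_of_lt ((le_max_right _ _).trans (le_max_right _ _)) (lt_add_one _)
  set w : ℂ := x + arg c * I with hw
  have hwre : w.re = x := by simp [hw]
  have hME : M ≤ Real.exp (w.re / 2) := by
    rw [hwre]
    refine (le_max_left M 1).trans ?_
    rw [← Real.log_le_iff_le_exp (by positivity)]
    linarith
  have hcw : c = ‖c‖ * exp w / Real.exp w.re := by
    rw [hwre, hw, Complex.exp_add, ofReal_exp]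
    have h1 := norm_mul_exp_arg_mul_I c
    rw [eq_div_iff (exp_ne_zero _)]
    linear_combination (-exp (x : ℂ)) * h1
  have hn1 : ‖exp (w / 2)‖ = Real.exp (w.re / 2) := passAux_E w
  have hseg := hM w (by rw [hwre]; linarith) hcw hME
  refine ⟨w, by rw [hwre]; exact hxS₁, ?_⟩
  refine hmain w (by rw [hwre]; exact hxS₂)
    ((fun s : ℝ => (s : ℂ) * exp (w / 2)) '' Icc (-(4 / 5)) (4 / 5)) ?_ ?_ ?_ ?_
  · exact isPreconnected_Icc.image _ (by fun_prop)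
  · refine ⟨((4 / 5 : ℝ) : ℂ) * exp (w / 2), ⟨4 / 5, by norm_num, rfl⟩, ?_⟩
    rw [mem_closedBall, dist_eq_norm]
    have h1 : ((4 / 5 : ℝ) : ℂ) * exp (w / 2) - exp (w / 2) = ((-(1 / 5) : ℝ) : ℂ) * exp (w / 2) := by
      push_cast; ring
    rw [h1, norm_mul, norm_real, hn1, Real.norm_eq_abs]
    norm_num
    nlinarith [Real.exp_pos (w.re / 2)]
  · refine ⟨((-(4 / 5) : ℝ) : ℂ) * exp (w / 2), ⟨-(4 / 5), by norm_num, rfl⟩, ?_⟩
    rw [mem_closedBall, dist_eq_norm]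
    have h1 : ((-(4 / 5) : ℝ) : ℂ) * exp (w / 2) - -exp (w / 2)
        = ((1 / 5 : ℝ) : ℂ) * exp (w / 2) := by
      push_cast; ring
    rw [h1, norm_mul, norm_real, hn1, Real.norm_eq_abs]
    norm_num
    nlinarith [Real.exp_pos (w.re / 2)]
  · rintro _ ⟨s, hs, rfl⟩
    exact hseg s (abs_le.2 hs)

end H6ea4aa
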