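import Pool.Agent.H.MP_6ea4aa_an.Win

/-!
# MP_6ea4aa: asymptotics of the pass
-/

set_option autoImplicit false

open Complex Set Filter Topology Metric

namespace H6ea4aa

variable {c b : ℂ}

/-- on the bisector of the two sides the Green function is high -/
theorem PassLow_bisector (hb : ‖b‖ = 1) {Ch : Chart c b} {CM : ℝ}
    (hCM : ∀ p : ℂ × ℂ, 3 + ‖c‖ < ‖p.2‖ → ‖p.1‖ < ‖p.2‖ →
      0 < Gm c b p ∧ |Gm c b p - Real.log ‖p.2‖| ≤ CM * (1 + ‖p.1‖) / ‖p.2‖ ^ 2)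
    {w v : ℂ} {t : ℝ} (ht : t = Real.exp (w.re / 4)) (hS : Ch.S < w.re)
    (hK : 20 * Ch.C + 2 * (‖c‖ + 3) + 4 ≤ t) (hv : ‖v‖ ≤ t ^ 7)
    (hf : (v * exp (-(3 / 2 * w))).re = 0) :
    w.re / 2 - (‖c‖ + 3 + |CM|) / t ≤ GG Ch w v := by
  have hC := Ch.hC
  have hc := norm_nonneg c
  have ht4 : Real.exp w.re = t ^ 4 := by
    rw [ht, ← Real.exp_nat_mul]
    congr 1
    push_cast
    ring
  have ht8 : Real.exp (2 * w.re) = t ^ 8 := by
    rw [ht, ← Real.exp_nat_mul]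
    congr 1
    push_cast
    ring
  have htm4 : Real.exp (-w.re) = 1 / t ^ 4 := by
    rw [Real.exp_neg, ht4, one_div]
  have ht1 : 30 ≤ t := by linarith
  have ht0 : 0 < t := by linarith
  -- powers of `t`
  have hp2 : t ≤ t ^ 2 := by nlinarith
  have hp3 : t ≤ t ^ 3 := by nlinarith [sq_nonneg t]
  have hp4 : t ≤ t ^ 4 := by nlinarith [pow_pos ht0 3]
  -- the coordinate `y`
  obtain ⟨y, hy, hUy⟩ := Ch.U_surj w v hS (by
    rw [ht8]
    have : t ^ 8 = t * t ^ 7 := by ring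
    rw [this]
    have h7 : 0 ≤ t ^ 7 := by positivity
    nlinarith)
  rw [ht4] at hy
  have hD : (w, y) ∈ DD Ch.S := ⟨hS, by show ‖y‖ < Real.exp w.re / 2; rw [ht4]; exact hy⟩
  have hUe := Ch.U_est w y hD
  rw [hUy, htm4] at hUe
  have hy0 := norm_nonneg y
  have hy2 : ‖y‖ ^ 2 ≤ ‖y‖ * (t ^ 4 / 2) := by nlinarith
  have hUe' : ‖v - exp w * y‖ ≤ Ch.C + Ch.C * ‖y‖ / 2 := by
    refine hUe.trans ?_
    have h1 : Ch.C * (1 + ‖y‖ ^ 2) * (1 / t ^ 4) ≤
        Ch.C * (1 + ‖y‖ * (t ^ 4 / 2)) * (1 / t ^ 4) := by gcongr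
    have h2 : Ch.C * (1 + ‖y‖ * (t ^ 4 / 2)) * (1 / t ^ 4) =
        Ch.C * (1 / t ^ 4) + Ch.C * ‖y‖ / 2 := by field_simp
    have h3 : 1 / t ^ 4 ≤ 1 := by
      rw [div_le_one (by positivity)]
      linarith
    have h4 : Ch.C * (1 / t ^ 4) ≤ Ch.C * 1 := by gcongr
    linarith
  have hewy : ‖exp w * y‖ = t ^ 4 * ‖y‖ := by
    rw [norm_mul, Complex.norm_exp, ht4]
  have hyb : ‖y‖ ≤ 3 * t ^ 3 := by
    have h1 : t ^ 4 * ‖y‖ ≤ t ^ 7 + (Ch.C + Ch.C * ‖y‖ / 2) := by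
      rw [← hewy]
      have h2 := norm_sub_norm_le (exp w * y) v
      rw [norm_sub_rev] at h2
      linarith
    have h5 : t ^ 4 = t * t ^ 3 := by ring
    have h6 : t ^ 7 = t ^ 4 * t ^ 3 := by ring
    by_contra h
    push Not at h
    have h7 : Ch.C * ‖y‖ / 2 ≤ t ^ 4 * ‖y‖ / 2 := by
      have : Ch.C ≤ t ^ 4 := by linarith
      nlinarith
    have h8 : t ^ 4 * ‖y‖ / 2 ≤ t ^ 4 * t ^ 3 + Ch.C := by linarith
    have h9 : t ^ 4 * (3 * t ^ 3) < t ^ 4 * ‖y‖ := by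
      apply mul_lt_mul_of_pos_left h (by positivity)
    have h10 : t ^ 4 * t ^ 3 / 2 < Ch.C := by nlinarith
    have h11 : t ≤ t ^ 4 * t ^ 3 / 2 := by nlinarith [mul_le_mul hp4 hp3 ht0.le (by positivity)]
    linarith
  -- the real part of `s = y e^{-w/2}` is small
  set s : ℂ := y * exp (-(w / 2)) with hs
  have hE : ‖exp (-(3 / 2 * w))‖ = 1 / t ^ 6 := by
    rw [Complex.norm_exp, ht]
    have : (-(3 / 2 * w)).re = -(((6 : ℕ) : ℝ) * (w.re / 4)) := by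
      simp
      ring
    rw [this, Real.exp_neg, Real.exp_nat_mul, one_div]
  have hE2 : ‖exp (-(w / 2))‖ = 1 / t ^ 2 := by
    rw [Complex.norm_exp, ht]
    have : (-(w / 2)).re = -(((2 : ℕ) : ℝ) * (w.re / 4)) := by
      simp
      ring
    rw [this, Real.exp_neg, Real.exp_nat_mul, one_div]
  have hvs : ‖v * exp (-(3 / 2 * w)) - s‖ ≤ 10 * Ch.C / t ^ 4 := by
    have h1 : v * exp (-(3 / 2 * w)) - s = (v - exp w * y) * exp (-(3 / 2 * w)) := by
      rw [hs, sub_mul]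
      congr 1
      have : exp (-(w / 2)) = exp w * exp (-(3 / 2 * w)) := by
        rw [← Complex.exp_add]
        congr 1
        ring
      rw [this]
      ring
    rw [h1, norm_mul, hE]
    have h2 : ‖v - exp w * y‖ ≤ 10 * Ch.C * t ^ 2 := by
      refine hUe.trans ?_
      have h3 : Ch.C * (1 + ‖y‖ ^ 2) * (1 / t ^ 4) ≤
          Ch.C * (t ^ 6 + (3 * t ^ 3) ^ 2) * (1 / t ^ 4) := by
        have : (1 : ℝ) ≤ t ^ 6 := one_le_pow₀ (by linarith)
        gcongr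
      refine h3.trans (le_of_eq ?_)
      field_simp
      ring
    calc ‖v - exp w * y‖ * (1 / t ^ 6) ≤ 10 * Ch.C * t ^ 2 * (1 / t ^ 6) := by gcongr
      _ = 10 * Ch.C / t ^ 4 := by field_simp
  have ha : |s.re| ≤ 10 * Ch.C / t ^ 4 := by
    have h1 := Complex.abs_re_le_norm (v * exp (-(3 / 2 * w)) - s)
    rw [Complex.sub_re, hf, zero_sub, abs_neg] at h1
    linarith
  have ha2 : s.re ^ 2 * t ^ 4 ≤ 1 := by
    have h1 : s.re ^ 2 ≤ (10 * Ch.C / t ^ 4) ^ 2 := by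
      rw [← sq_abs]
      gcongr
    have h2 : (10 * Ch.C / t ^ 4) ^ 2 * t ^ 4 ≤ 1 := by
      have h3 : (10 * Ch.C / t ^ 4) ^ 2 * t ^ 4 = (10 * Ch.C) ^ 2 / t ^ 4 := by
        field_simp
      rw [h3, div_le_one (by positivity)]
      calc (10 * Ch.C) ^ 2 ≤ t ^ 2 := by
            gcongr
            linarith
        _ ≤ t ^ 4 := pow_le_pow_right₀ (by linarith) (by norm_num)
    calc s.re ^ 2 * t ^ 4 ≤ (10 * Ch.C / t ^ 4) ^ 2 * t ^ 4 := by gcongr
      _ ≤ 1 := h2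
  -- the lower bound of `‖y² - e^w‖`
  have hns : ‖s‖ ^ 2 = s.re ^ 2 + s.im ^ 2 := by
    rw [← Complex.normSq_eq_norm_sq, Complex.normSq_apply]
    ring
  have hys : ‖y‖ ^ 2 = (s.re ^ 2 + s.im ^ 2) * t ^ 4 := by
    rw [← hns, hs, norm_mul, hE2]
    field_simp
  have hyw : y ^ 2 - exp w = exp w * (s ^ 2 - 1) := by
    rw [hs, mul_sub, mul_one, mul_pow, ← Complex.exp_nat_mul]
    congr 1
    rw [mul_comm, mul_assoc, ← Complex.exp_add]
    have : ((2 : ℕ) : ℂ) * -(w / 2) + w = 0 := by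
      push_cast
      ring
    rw [this, Complex.exp_zero, mul_one]
  have hlow : t ^ 4 + ‖y‖ ^ 2 - 2 ≤ ‖y ^ 2 - exp w‖ := by
    rw [hyw, norm_mul, Complex.norm_exp, ht4]
    have h1 : 1 + s.im ^ 2 - s.re ^ 2 ≤ ‖s ^ 2 - 1‖ := by
      have h2 := Complex.abs_re_le_norm (s ^ 2 - 1)
      have h3 : (s ^ 2 - 1).re = s.re ^ 2 - s.im ^ 2 - 1 := by
        simp [pow_two, Complex.sub_re, Complex.mul_re]
      rw [h3] at h2
      have h4 := neg_abs_le (s.re ^ 2 - s.im ^ 2 - 1)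
      linarith
    have h5 : t ^ 4 * (1 + s.im ^ 2 - s.re ^ 2) ≤ t ^ 4 * ‖s ^ 2 - 1‖ := by gcongr
    nlinarith
  -- the point in the window
  have hPi := Ch.Pi_win w y hD
  rw [hUy] at hPi
  have hX := Ch.X_est w y hD
  rw [htm4] at hX
  have hX1 : ‖Ch.X w y - exp w‖ ≤ 1 := by
    refine hX.trans ?_
    rw [mul_one_div, div_le_one (by positivity)]
    have h1 : 1 + ‖y‖ ≤ 4 * t ^ 3 := by nlinarith
    calc Ch.C * (1 + ‖y‖) ≤ Ch.C * (4 * t ^ 3) := by gcongr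
      _ ≤ t * t ^ 3 := by nlinarith [pow_pos ht0 3]
      _ = t ^ 4 := by ring
  set Y : ℂ := (y ^ 2 + c - Ch.X w y) / b with hY
  have hYn : t ^ 4 + ‖y‖ ^ 2 - (‖c‖ + 3) ≤ ‖Y‖ := by
    rw [hY, norm_div, hb, div_one]
    have h1 : y ^ 2 - exp w = (y ^ 2 + c - Ch.X w y) + ((Ch.X w y - exp w) - c) := by ring
    have h2 : ‖y ^ 2 - exp w‖ ≤ ‖y ^ 2 + c - Ch.X w y‖ + (1 + ‖c‖) := by
      rw [h1]
      refine (norm_add_le _ _).trans ?_
      gcongr
      refine (norm_sub_le _ _).trans ?_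
      gcongr
    linarith
  have ht4b : 4 * (‖c‖ + 3) + 8 ≤ t ^ 4 := by
    have : t ^ 4 = t * t ^ 3 := by ring
    nlinarith
  have hYh : t ^ 4 / 2 + ‖y‖ ^ 2 ≤ ‖Y‖ := by linarith
  have hq := hCM (y, Y) (by show 3 + ‖c‖ < ‖Y‖; nlinarith) (by show ‖y‖ < ‖Y‖; nlinarith)
  obtain ⟨-, hq2⟩ := hq
  simp only at hq2
  have hY0 : 0 < ‖Y‖ := by nlinarith
  have herr : CM * (1 + ‖y‖) / ‖Y‖ ^ 2 ≤ 2 * |CM| / t := by
    have h1 : 1 + ‖y‖ ≤ ‖Y‖ := by nlinarith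
    calc CM * (1 + ‖y‖) / ‖Y‖ ^ 2 ≤ |CM| * ‖Y‖ / ‖Y‖ ^ 2 := by
          gcongr
          exact le_abs_self CM
      _ = |CM| / ‖Y‖ := by field_simp
      _ ≤ |CM| / (t / 2) := by
          gcongr
          nlinarith
      _ = 2 * |CM| / t := by field_simp
  have hlog : w.re - 2 * (‖c‖ + 3) / t ≤ Real.log ‖Y‖ := by
    have h1 : t ^ 4 - (‖c‖ + 3) ≤ ‖Y‖ := by nlinarith
    have h2 : 0 < t ^ 4 - (‖c‖ + 3) := by linarith
    have h3 : Real.log (t ^ 4 - (‖c‖ + 3)) ≤ Real.log ‖Y‖ := Real.log_le_log h2 h1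
    have h4 : t ^ 4 - (‖c‖ + 3) = t ^ 4 * (1 - (‖c‖ + 3) / t ^ 4) := by field_simp
    have h5 : (‖c‖ + 3) / t ^ 4 ≤ 1 / 2 := by
      rw [div_le_iff₀ (by positivity)]
      linarith
    have h6 : 0 < 1 - (‖c‖ + 3) / t ^ 4 := by linarith
    have h7 : Real.log (t ^ 4) = w.re := by rw [← ht4, Real.log_exp]
    rw [h4, Real.log_mul (by positivity) h6.ne', h7] at h3
    have h8 := Real.one_sub_inv_le_log_of_pos h6
    have h9 : -(2 * ((‖c‖ + 3) / t ^ 4)) ≤ 1 - (1 - (‖c‖ + 3) / t ^ 4)⁻¹ := by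
      have h10 : (1 - (‖c‖ + 3) / t ^ 4)⁻¹ ≤ 1 + 2 * ((‖c‖ + 3) / t ^ 4) := by
        rw [inv_le_iff_one_le_mul₀ h6]
        have h11 : 0 ≤ (‖c‖ + 3) / t ^ 4 := by positivity
        nlinarith
      linarith
    have h12 : (‖c‖ + 3) / t ^ 4 ≤ (‖c‖ + 3) / t := by
      gcongr
    have h13 : 2 * (‖c‖ + 3) / t = 2 * ((‖c‖ + 3) / t) := by ring
    rw [h13]
    linarith
  have hGG : GG Ch w v = Gm c b (y, Y) / 2 := by
    have h1 := Gm_henInv c b hb (Ch.X w y, y)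
    have h2 : henInv c b (Ch.X w y, y) = (y, Y) := rfl
    rw [h2] at h1
    rw [GG, hPi, h1]
    ring
  rw [hGG]
  have h1 := (abs_le.mp hq2).1
  have h2 : (‖c‖ + 3 + |CM|) / t = (2 * (‖c‖ + 3) / t + 2 * |CM| / t) / 2 := by
    field_simp
  rw [h2]
  linarith

/-- lower bound: components of `{G < Re w / 2 - ε}` in the window do not join the two sides -/
theorem pass_low (hb : ‖b‖ = 1) {Ch : Chart c b} (W : Win Ch) (C₁ : ℝ) (ε : ℝ) (hε : 0 < ε) :
    ∃ S₁ : ℝ, ∀ w : ℂ, S₁ < w.re → ∀ u u' : ℂ,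
      ‖u - Ch.κ (w / 2)‖ ≤ C₁ * Real.exp (3 / 4 * w.re) →
      (2 * Real.exp (7 / 4 * w.re) < ‖u'‖ ∨
        ‖u' - Ch.κ (w / 2 + Real.pi * I)‖ ≤ C₁ * Real.exp (3 / 4 * w.re)) →
      u' ∉ connectedComponentIn {v | GG Ch w v < w.re / 2 - ε} u := by
  obtain ⟨CM, hCM⟩ := Gm_VM c b hb
  have hC := Ch.hC
  have hc := norm_nonneg c
  have hWC := W.hC
  set M : ℝ := (‖c‖ + 3 + |CM|) / ε with hM
  have hM0 : 0 ≤ M := by positivity
  set K : ℝ := 20 * Ch.C + 2 * (‖c‖ + 3) + 4 + |C₁| + M with hKdef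
  refine ⟨|W.S| + 4 * K + 4 * W.C, ?_⟩
  intro w hw u u' hu hu' hmem
  have hS1 : W.S < w.re := by
    have := le_abs_self W.S
    have : 0 ≤ K := by positivity
    linarith
  have hS : Ch.S < w.re := lt_of_le_of_lt W.hS hS1
  have hw4K : 4 * K + 4 * W.C < w.re := by linarith [abs_nonneg W.S]
  have hre0 : 0 ≤ w.re := by
    have : 0 ≤ K := by positivity
    linarith
  set t : ℝ := Real.exp (w.re / 4) with ht
  have htK : K ≤ t := by
    have := Real.add_one_le_exp (w.re / 4)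
    linarith
  have hC1 := abs_nonneg C₁
  have ht1 : 30 ≤ t := by linarith
  have ht0 : 0 < t := by linarith
  have ht3 : Real.exp (3 / 4 * w.re) = t ^ 3 := by
    rw [ht, ← Real.exp_nat_mul]
    congr 1
    push_cast
    ring
  have ht4 : Real.exp w.re = t ^ 4 := by
    rw [ht, ← Real.exp_nat_mul]
    congr 1
    push_cast
    ring
  have ht7 : Real.exp (7 / 4 * w.re) = t ^ 7 := by
    rw [ht, ← Real.exp_nat_mul]
    congr 1
    push_cast
    ring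
  have hE : ‖exp (-(3 / 2 * w))‖ = 1 / t ^ 6 := by
    rw [Complex.norm_exp, ht]
    have : (-(3 / 2 * w)).re = -(((6 : ℕ) : ℝ) * (w.re / 4)) := by
      simp
      ring
    rw [this, Real.exp_neg, Real.exp_nat_mul, one_div]
  have hE3 : ‖exp (3 / 2 * w)‖ = t ^ 6 := by
    rw [Complex.norm_exp, ht]
    have : (3 / 2 * w).re = ((6 : ℕ) : ℝ) * (w.re / 4) := by
      simp
      ring
    rw [this, Real.exp_nat_mul]
  rw [ht3] at hu hu'
  rw [ht7] at hu'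
  -- comparison of the centre with `± e^{3w/2}`
  have hcomp : ∀ z e : ℂ, ∀ σ : ℂ, (w / 2 + e).re = w.re / 2 →
      exp (3 * (w / 2 + e)) = σ * exp (3 / 2 * w) →
      ‖z - Ch.κ (w / 2 + e)‖ ≤ C₁ * t ^ 3 →
      ‖z - σ * exp (3 / 2 * w)‖ ≤ (|C₁| + Ch.C) * t ^ 4 := by
    intro z e σ he1 he2 hz
    have h1 := Ch.κ_lead (w / 2 + e) (by rw [he1]; linarith)
    rw [he2, he1, mul_div_cancel₀ _ (by norm_num : (2 : ℝ) ≠ 0), ht4] at h1
    have h2 : C₁ * t ^ 3 ≤ |C₁| * t ^ 4 := by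
      calc C₁ * t ^ 3 ≤ |C₁| * t ^ 3 := by
            gcongr
            exact le_abs_self C₁
        _ ≤ |C₁| * t ^ 4 := by
            gcongr
            · linarith
            · norm_num
    calc ‖z - σ * exp (3 / 2 * w)‖
        ≤ ‖z - Ch.κ (w / 2 + e)‖ + ‖Ch.κ (w / 2 + e) - σ * exp (3 / 2 * w)‖ :=
          norm_sub_le_norm_sub_add_norm_sub _ _ _
      _ ≤ (|C₁| + Ch.C) * t ^ 4 := by linarith
  have hfz : ∀ z σ : ℂ, ‖z - σ * exp (3 / 2 * w)‖ ≤ (|C₁| + Ch.C) * t ^ 4 →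
      |(z * exp (-(3 / 2 * w))).re - σ.re| < 1 := by
    intro z σ hz
    have h1 : z * exp (-(3 / 2 * w)) - σ = (z - σ * exp (3 / 2 * w)) * exp (-(3 / 2 * w)) := by
      rw [sub_mul, mul_assoc, ← Complex.exp_add, add_neg_cancel, Complex.exp_zero, mul_one]
    have h2 : |(z * exp (-(3 / 2 * w))).re - σ.re| ≤ ‖z * exp (-(3 / 2 * w)) - σ‖ := by
      rw [← Complex.sub_re]
      exact Complex.abs_re_le_norm _
    refine h2.trans_lt ?_
    rw [h1, norm_mul, hE]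
    calc ‖z - σ * exp (3 / 2 * w)‖ * (1 / t ^ 6) ≤ ((|C₁| + Ch.C) * t ^ 4) * (1 / t ^ 6) := by
          gcongr
      _ = (|C₁| + Ch.C) / t ^ 2 := by field_simp
      _ < 1 := by
          rw [div_lt_one (by positivity)]
          nlinarith
  have hu1 : ‖u - 1 * exp (3 / 2 * w)‖ ≤ (|C₁| + Ch.C) * t ^ 4 := by
    apply hcomp u 0 1 (by simp) (by rw [one_mul, add_zero]; congr 1; ring)
    rw [add_zero]
    exact hu
  have hfu : 0 < (u * exp (-(3 / 2 * w))).re := by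
    have h1 := hfz u 1 hu1
    rw [Complex.one_re] at h1
    have := (abs_lt.mp h1).1
    linarith
  have hun : ‖u‖ < t ^ 7 := by
    have h1 : ‖u‖ ≤ ‖u - 1 * exp (3 / 2 * w)‖ + ‖1 * exp (3 / 2 * w)‖ := by
      have := norm_add_le (u - 1 * exp (3 / 2 * w)) (1 * exp (3 / 2 * w))
      rwa [sub_add_cancel] at this
    rw [one_mul] at h1 hu1
    rw [hE3] at h1
    have h2 : t ^ 7 = t * t ^ 6 := by ring
    have h3 : t ^ 4 ≤ t ^ 6 := pow_le_pow_right₀ (by linarith) (by norm_num)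
    have h4 : 0 < t ^ 6 := by positivity
    have h5 : (|C₁| + Ch.C) * t ^ 4 ≤ (|C₁| + Ch.C) * t ^ 6 := by gcongr
    nlinarith
  -- the component
  set A : Set ℂ := {v | GG Ch w v < w.re / 2 - ε} with hA
  set Q : Set ℂ := connectedComponentIn A u with hQ
  have hQA : Q ⊆ A := connectedComponentIn_subset A u
  have hQp : IsPreconnected Q := isPreconnected_connectedComponentIn
  have huA : u ∈ A := by
    by_contra h
    rw [hQ, connectedComponentIn_eq_empty h] at hmem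
    exact hmem
  have huQ : u ∈ Q := mem_connectedComponentIn huA
  -- the circle is not met
  have hcirc : ∀ v ∈ Q, ‖v‖ ≠ t ^ 7 := by
    intro v hv hvt
    have h1 := hQA hv
    have h2 := W.g4 w v hS1 (by rw [ht7, hvt]; linarith [pow_pos ht0 7])
      (by rw [ht7, hvt]; linarith [pow_pos ht0 7])
    rw [hvt, ← ht7, Real.log_exp] at h2
    have h3 : W.C * Real.exp (-w.re / 4) ≤ W.C := by
      have : Real.exp (-w.re / 4) ≤ 1 := by
        rw [Real.exp_le_one_iff]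
        linarith
      nlinarith
    have h4 := (abs_le.mp h2).1
    have h5 : GG Ch w v < w.re / 2 - ε := h1
    have : 0 ≤ K := by positivity
    linarith
  have hsmall : ∀ v ∈ Q, ‖v‖ < t ^ 7 := by
    intro v hv
    by_contra h
    push Not at h
    obtain ⟨z, hz, hz2⟩ := hQp.intermediate_value huQ hv continuous_norm.continuousOn
      ⟨hun.le, h⟩
    exact hcirc z hz hz2
  -- conclusion
  rcases hu' with hu' | hu'
  · have := hsmall u' hmem
    linarith [pow_pos ht0 7]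
  · have hu1' : ‖u' - (-1) * exp (3 / 2 * w)‖ ≤ (|C₁| + Ch.C) * t ^ 4 := by
      apply hcomp u' (Real.pi * I) (-1) (by simp) _ hu'
      have h1 : 3 * (w / 2 + Real.pi * I) = 3 / 2 * w + Real.pi * I + 2 * Real.pi * I := by
        ring
      rw [h1, Complex.exp_add, Complex.exp_two_pi_mul_I, Complex.exp_add, Complex.exp_pi_mul_I]
      ring
    have hfu' : (u' * exp (-(3 / 2 * w))).re < 0 := by
      have h1 := hfz u' (-1) hu1'
      rw [Complex.neg_re, Complex.one_re] at h1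
      have := (abs_lt.mp h1).2
      linarith
    have hcont : Continuous (fun v : ℂ => (v * exp (-(3 / 2 * w))).re) := by fun_prop
    obtain ⟨z, hz, hz2⟩ := hQp.intermediate_value hmem huQ hcont.continuousOn
      ⟨hfu'.le, hfu.le⟩
    have h1 := PassLow_bisector hb hCM ht hS (by linarith) (hsmall z hz).le hz2
    have h2 : GG Ch w z < w.re / 2 - ε := hQA hz
    have h3 : (‖c‖ + 3 + |CM|) / t ≤ ε := by
      rw [div_le_iff₀ ht0]
      have h4 : M ≤ t := by linarith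
      rw [hM, div_le_iff₀ hε] at h4
      linarith
    linarith

end H6ea4aa
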