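import Pool.Agent.H.MP_6ea4aa_an.Ascend

/-!
# MP_6ea4aa: a complete holomorphic section
-/

set_option autoImplicit false

open Complex Set Filter Topology Metric

namespace H6ea4aa

variable {g : ℂ → ℝ}

theorem section_mono {χ : ℂ → ℂ} {D D' : Set ℂ} (h : IsBranch g χ D) (hs : D' ⊆ D) :
    IsBranch g χ D' :=
  ⟨h.1.mono hs, fun w hw => h.2 w (hs hw)⟩

/-- gluing of compatible branches -/
theorem section_glue {ι : Type*} {U : ι → Set ℂ} {χ : ι → ℂ → ℂ} (hU : ∀ i, IsOpen (U i))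
    (hb : ∀ i, IsBranch g (χ i) (U i)) (hc : ∀ i j, EqOn (χ i) (χ j) (U i ∩ U j)) :
    ∃ χ' : ℂ → ℂ, IsBranch g χ' (⋃ i, U i) ∧ ∀ i, EqOn χ' (χ i) (U i) := by
  classical
  obtain ⟨χ', hχ'⟩ : ∃ χ' : ℂ → ℂ, ∀ w, ∀ h : ∃ i, w ∈ U i, χ' w = χ h.choose w :=
    ⟨fun w => if h : ∃ i, w ∈ U i then χ h.choose w else 0, fun w h => dif_pos h⟩
  have h1 : ∀ i, EqOn χ' (χ i) (U i) := by
    intro i w hw
    have h : ∃ i, w ∈ U i := ⟨i, hw⟩
    rw [hχ' w h]
    exact hc _ _ ⟨h.choose_spec, hw⟩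
  refine ⟨χ', ⟨?_, ?_⟩, h1⟩
  · intro w hw
    obtain ⟨i, hi⟩ := mem_iUnion.1 hw
    have h2 : DifferentiableAt ℂ (χ i) w := (hb i).1.differentiableAt ((hU i).mem_nhds hi)
    have h3 : χ' =ᶠ[𝓝 w] χ i := by
      filter_upwards [(hU i).mem_nhds hi] with z hz using h1 i hz
    exact (h2.congr_of_eventuallyEq h3).differentiableWithinAt
  · intro w hw
    obtain ⟨i, hi⟩ := mem_iUnion.1 hw
    rw [h1 i hi]
    exact (hb i).2 w hi

theorem section_glue2 {U V : Set ℂ} {χ₁ χ₂ : ℂ → ℂ} (hU : IsOpen U) (hV : IsOpen V)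
    (h₁ : IsBranch g χ₁ U) (h₂ : IsBranch g χ₂ V) (hc : EqOn χ₁ χ₂ (U ∩ V)) :
    ∃ χ' : ℂ → ℂ, IsBranch g χ' (U ∪ V) ∧ EqOn χ' χ₁ U ∧ EqOn χ' χ₂ V := by
  obtain ⟨χ', h, h'⟩ := section_glue (g := g) (ι := Bool) (U := fun b => cond b U V)
    (χ := fun b => cond b χ₁ χ₂)
    (by intro b; cases b; exacts [hV, hU]) (by intro b; cases b; exacts [h₂, h₁])
    (by
      intro a b
      cases a <;> cases b
      · exact fun _ _ => rfl
      · intro w hw; exact (hc ⟨hw.2, hw.1⟩).symm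
      · intro w hw; exact hc hw
      · exact fun _ _ => rfl)
  refine ⟨χ', ?_, h' true, h' false⟩
  rw [union_eq_iUnion]
  exact h

/-- half strips -/
def HS (x α β : ℝ) : Set ℂ := {w | x < w.re ∧ α < w.im ∧ w.im < β}

theorem HS_convex (x α β : ℝ) : Convex ℝ (HS x α β) :=
  (convex_halfSpace_re_gt x).inter ((convex_halfSpace_im_gt α).inter (convex_halfSpace_im_lt β))

theorem HS_open (x α β : ℝ) : IsOpen (HS x α β) :=
  (isOpen_lt continuous_const continuous_re).inter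
    ((isOpen_lt continuous_const continuous_im).inter (isOpen_lt continuous_im continuous_const))

theorem HS_sub {x α β : ℝ} (hx : 0 ≤ x) : HS x α β ⊆ RHP := fun _ hw => lt_of_le_of_lt hx hw.1

theorem section_unique_convex (hreg : ∀ z, 0 < g z → RegRe g z) {D : Set ℂ} (hD : IsOpen D)
    (hDc : Convex ℝ D) (hDr : D ⊆ RHP) {χ₁ χ₂ : ℂ → ℂ} (h₁ : IsBranch g χ₁ D)
    (h₂ : IsBranch g χ₂ D) {w₀ : ℂ} (hw₀ : w₀ ∈ D) (h : χ₁ w₀ = χ₂ w₀) : EqOn χ₁ χ₂ D :=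
  branch_unique hreg hD hDc.isPreconnected hDr h₁ h₂ hw₀ h

/-- continuation to the right of a vertical segment -/
theorem section_right {mu : ℂ} {lam : ℝ} (hg : LinGreen g mu lam) (hU : NoIsland g)
    (hreg : ∀ z, 0 < g z → RegRe g z) {W : Set ℂ} (hW : IsOpen W) {χ₁ : ℂ → ℂ}
    (h₁ : IsBranch g χ₁ W) {x₀ α β : ℝ} (hx₀ : 0 < x₀)
    (hL : ∀ η ∈ Ioo α β, (x₀ + η * I : ℂ) ∈ W) :
    ∃ χ : ℂ → ℂ, IsBranch g χ (HS x₀ α β) ∧
      ∀ η ∈ Ioo α β, ∃ r > 0, EqOn χ χ₁ (ball (x₀ + η * I : ℂ) r) := by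
  -- the family
  let C : (ℝ × ℝ) × (ℝ × (ℂ → ℂ)) → Prop := fun p =>
    p.1.1 ∈ Ioo α β ∧ 0 < p.1.2 ∧ 0 < p.2.1 ∧ ball (x₀ + p.1.1 * I : ℂ) p.2.1 ⊆ W ∧
    thickening p.2.1 (segment ℝ (x₀ + p.1.1 * I : ℂ) (x₀ + p.1.1 * I + p.1.2 : ℂ)) ⊆ RHP ∧
    IsBranch g p.2.2
      (thickening p.2.1 (segment ℝ (x₀ + p.1.1 * I : ℂ) (x₀ + p.1.1 * I + p.1.2 : ℂ))) ∧
    p.2.2 (x₀ + p.1.1 * I : ℂ) = χ₁ (x₀ + p.1.1 * I : ℂ)
  have hex : ∀ η ∈ Ioo α β, ∀ T : ℝ, 0 < T → ∃ δ χ, C ((η, T), (δ, χ)) := by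
    intro η hη T hT
    have hre : ((x₀ + η * I : ℂ)).re = x₀ := by simp
    have hgz : g (χ₁ (x₀ + η * I : ℂ)) = x₀ := by rw [h₁.2 _ (hL η hη), hre]
    obtain ⟨δ, hδ, hδR, χ, hχ, hχ0⟩ := ascend hg hU hreg (z₀ := χ₁ (x₀ + η * I : ℂ))
      (w₀ := (x₀ + η * I : ℂ)) (by rw [hgz]; exact hx₀) (by rw [hgz, hre]) T hT
    obtain ⟨r, hr, hrW⟩ := Metric.isOpen_iff.1 hW _ (hL η hη)
    refine ⟨min δ r, χ, hη, hT, lt_min hδ hr, (ball_subset_ball (min_le_right _ _)).trans hrW,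
      (thickening_mono (min_le_left _ _) _).trans hδR,
      section_mono hχ (thickening_mono (min_le_left _ _) _), hχ0⟩
  let U : {p // C p} → Set ℂ := fun p =>
    thickening p.1.2.1 (segment ℝ (x₀ + p.1.1.1 * I : ℂ) (x₀ + p.1.1.1 * I + p.1.1.2 : ℂ))
  let X : {p // C p} → ℂ → ℂ := fun p => p.1.2.2
  have hbU : ∀ p : {p // C p}, ball (x₀ + p.1.1.1 * I : ℂ) p.1.2.1 ⊆ U p := by
    intro p w hw
    rw [mem_thickening_iff]
    exact ⟨_, left_mem_segment _ _ _, mem_ball.1 hw⟩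
  have hbase : ∀ p : {p // C p}, EqOn (X p) χ₁ (ball (x₀ + p.1.1.1 * I : ℂ) p.1.2.1) := by
    intro p
    obtain ⟨hη, hT, hδ, hball, hR, hb, h0⟩ := p.2
    exact section_unique_convex hreg isOpen_ball (convex_ball _ _) ((hbU p).trans hR)
      (section_mono hb (hbU p)) (section_mono h₁ hball) (mem_ball_self hδ) h0
  have him : ∀ p : {p // C p}, ∀ w ∈ U p,
      (x₀ + w.im * I : ℂ) ∈ ball (x₀ + p.1.1.1 * I : ℂ) p.1.2.1 := by
    intro p w hw
    obtain ⟨q, hq, hqd⟩ := mem_thickening_iff.1 hw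
    have hqi : q.im = p.1.1.1 := by
      obtain ⟨a, b, ha, hb, hab, rfl⟩ := hq
      simp only [real_smul, add_im, mul_im, ofReal_re, ofReal_im, I_re, I_im, add_re, mul_re]
      have : a = 1 - b := by linarith
      rw [this]; ring
    rw [mem_ball, dist_eq_norm]
    have h2 : (x₀ + w.im * I : ℂ) - (x₀ + p.1.1.1 * I : ℂ) = ((w.im - p.1.1.1 : ℝ) : ℂ) * I := by
      push_cast; ring
    rw [h2, norm_mul, norm_I, mul_one, norm_real, Real.norm_eq_abs, ← hqi]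
    refine lt_of_le_of_lt ?_ hqd
    rw [dist_eq_norm, ← sub_im]
    exact abs_im_le_norm _
  obtain ⟨χ', hχ', hχ'U⟩ := section_glue (g := g) (U := U) (χ := X)
    (fun p => isOpen_thickening) (fun p => p.2.2.2.2.2.2.1) (by
      intro i j w hw
      have hi := him i w hw.1
      have hj := him j w hw.2
      have hconv : ∀ p : {p // C p}, Convex ℝ (U p) := fun p => (convex_segment _ _).thickening _
      refine section_unique_convex hreg (D := U i ∩ U j)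
        (isOpen_thickening.inter isOpen_thickening)
        ((hconv i).inter (hconv j)) (inter_subset_left.trans i.2.2.2.2.2.1)
        (section_mono i.2.2.2.2.2.2.1 inter_subset_left)
        (section_mono j.2.2.2.2.2.2.1 inter_subset_right)
        (w₀ := (x₀ + w.im * I : ℂ)) ⟨hbU i hi, hbU j hj⟩ ?_ hw
      exact (hbase i hi).trans (hbase j hj).symm)
  refine ⟨χ', section_mono hχ' ?_, ?_⟩
  · intro w hw
    obtain ⟨δ, χ, hC⟩ := hex w.im hw.2 (w.re - x₀) (sub_pos.2 hw.1)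
    refine mem_iUnion.2 ⟨⟨_, hC⟩, ?_⟩
    have hmem : w ∈ segment ℝ (x₀ + w.im * I : ℂ) (x₀ + w.im * I + (w.re - x₀ : ℝ) : ℂ) := by
      have h3 : (x₀ + w.im * I + (w.re - x₀ : ℝ) : ℂ) = w := by
        push_cast
        conv_rhs => rw [← re_add_im w]
        ring
      rw [h3]
      exact right_mem_segment _ _ _
    exact self_subset_thickening hC.2.2.1 _ hmem
  · intro η hη
    obtain ⟨δ, χ, hC⟩ := hex η hη 1 one_pos
    refine ⟨δ, hC.2.2.1, ?_⟩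
    intro w hw
    rw [hχ'U ⟨_, hC⟩ (hbU ⟨_, hC⟩ hw)]
    exact hbase ⟨_, hC⟩ hw

/-- in a sweep not all slices escape -/
theorem section_full (hc : Continuous g) (hreg : ∀ z, 0 < g z → RegRe g z) {w₀ : ℂ} {ρ : ℝ}
    {χ₀ : ℂ → ℂ} (h₀ : IsBranch g χ₀ (ball w₀ ρ)) (hinj : InjOn χ₀ (ball w₀ ρ))
    (hρR : ball w₀ ρ ⊆ RHP) {d : ℂ} (hd : d = 1 ∨ d = -1 ∨ d = I ∨ d = -I) {T₀ ρ₁ : ℝ}
    (hρ₁ : 0 < ρ₁) (hρ₁ρ : ρ₁ < ρ) (hT₀ : 0 < T₀)
    (hR : ∀ ζ : ℂ, 0 < ζ.re → ζ.re < T₀ → |ζ.im| < ρ₁ → w₀ + ζ * d ∈ RHP) :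
    ∃ (D : Set ℂ) (χ : ℂ → ℂ), IsOpen D ∧
      (∀ ζ ∈ D, 0 < ζ.re ∧ ζ.re < T₀ ∧ |ζ.im| < ρ₁) ∧
      DifferentiableOn ℂ χ D ∧ (∀ ζ ∈ D, g (χ ζ) = (w₀ + ζ * d).re) ∧
      (∀ ζ : ℂ, 0 < ζ.re → ζ.re < T₀ → |ζ.im| < ρ₁ → ‖ζ‖ < ρ → ζ ∈ D ∧ χ ζ = χ₀ (w₀ + ζ * d)) ∧
      ∃ y : ℝ, |y| < ρ₁ ∧ ∀ t ∈ Ioo 0 T₀, (t + y * I : ℂ) ∈ D := by
  obtain ⟨D, χ, h1, h2, h3, h4, h5, h6, h7⟩ := sweep hc hreg h₀ hinj hρR hd hρ₁ hρ₁ρ hT₀ hR
  refine ⟨D, χ, h1, h2, h3, h4, h5, ?_⟩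
  by_contra hno
  push Not at hno
  have hno' : ∀ y : ℝ, |y| < ρ₁ → ¬ ∀ t ∈ Ioo 0 T₀, (t + y * I : ℂ) ∈ D := by
    intro y hy h
    obtain ⟨t, ht, ht'⟩ := hno y hy
    exact ht' (h t ht)
  have hdn : ‖d‖ = 1 := by
    rcases hd with rfl | rfl | rfl | rfl <;> simp
  -- a bound on a compact ball
  have hcb : closedBall w₀ ((ρ + ρ₁) / 2) ⊆ ball w₀ ρ := closedBall_subset_ball (by linarith)
  obtain ⟨M, hM⟩ := (isCompact_closedBall w₀ ((ρ + ρ₁) / 2)).exists_bound_of_continuousOn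
    (h₀.1.continuousOn.mono hcb)
  refine gross (D := D) (χ := χ) (T0 := T₀) (a := -ρ₁) (b := ρ₁) (M := M) (by linarith) h1
    (fun ζ hζ => ⟨(h2 ζ hζ).1, (h2 ζ hζ).2.1⟩) h3 ?_ ?_
  · rintro ζ ⟨hζ, -, -⟩ ζ' ⟨hζ', -, -⟩ heq
    obtain ⟨him, hre⟩ := h7 ζ hζ ζ' hζ' heq
    rcases hre with hre | hfull
    · exact Complex.ext hre him
    · exact absurd hfull (hno' _ (h2 ζ hζ).2.2)
  · intro y hy
    have hy' : |y| < ρ₁ := abs_lt.2 hy
    rcases h6 y hy' with hfull | ⟨τ, hτ, hτD, -, hτlim⟩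
    · exact absurd hfull (hno' y hy')
    · refine ⟨τ, hτ.1, hτD, hτlim, min τ (ρ - ρ₁) / 2, ?_, ?_⟩
      · have h8 : 0 < min τ (ρ - ρ₁) := lt_min hτ.1 (by linarith)
        have h9 : min τ (ρ - ρ₁) ≤ τ := min_le_left _ _
        exact ⟨by linarith, by linarith [hτ.1]⟩
      · have h8 : 0 < min τ (ρ - ρ₁) := lt_min hτ.1 (by linarith)
        have h9 : min τ (ρ - ρ₁) ≤ τ := min_le_left _ _
        have h10 : min τ (ρ - ρ₁) ≤ ρ - ρ₁ := min_le_right _ _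
        obtain ⟨t, ht⟩ : ∃ t, t = min τ (ρ - ρ₁) / 2 := ⟨_, rfl⟩
        rw [← ht]
        have hn : ‖(t + y * I : ℂ)‖ ≤ (ρ + ρ₁) / 2 := by
          refine (norm_add_le _ _).trans ?_
          rw [norm_mul, norm_I, mul_one, norm_real, norm_real, Real.norm_eq_abs,
            Real.norm_eq_abs, abs_of_nonneg (by rw [ht]; linarith : (0 : ℝ) ≤ t)]
          rw [ht]; linarith
        have hre : (t + y * I : ℂ).re = t := by simp
        have him : (t + y * I : ℂ).im = y := by simp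
        have h11 := (h5 (t + y * I : ℂ) (by rw [hre, ht]; linarith)
          (by rw [hre, ht]; linarith [hτ.1, hτ.2]) (by rw [him]; exact hy')
          (lt_of_le_of_lt hn (by linarith))).2
        rw [h11]
        apply hM
        rw [mem_closedBall, dist_eq_norm, add_sub_cancel_left, norm_mul, hdn, mul_one]
        exact hn

/-- one-sided vertical strips -/
def VS (x ρ y s a Y : ℝ) : Set ℂ := {w | x + a < w.re ∧ -ρ < s * (w.im - y) ∧ s * (w.im - y) < Y}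

theorem VS_eq {x ρ y s a Y : ℝ} (hs : s = 1 ∨ s = -1) :
    ∃ α β : ℝ, (∀ v : ℝ, (α < v ∧ v < β) ↔ (-ρ < s * (v - y) ∧ s * (v - y) < Y)) ∧
      VS x ρ y s a Y = HS (x + a) α β := by
  have h : ∃ α β : ℝ, ∀ v : ℝ, (α < v ∧ v < β) ↔ (-ρ < s * (v - y) ∧ s * (v - y) < Y) := by
    rcases hs with rfl | rfl
    · refine ⟨y - ρ, y + Y, fun v => ⟨fun h => ⟨by linarith [h.1], by linarith [h.2]⟩,
        fun h => ⟨by linarith [h.1], by linarith [h.2]⟩⟩⟩
    · refine ⟨y - Y, y + ρ, fun v => ⟨fun h => ⟨by linarith [h.2], by linarith [h.1]⟩,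
        fun h => ⟨by linarith [h.2], by linarith [h.1]⟩⟩⟩
  obtain ⟨α, β, h⟩ := h
  refine ⟨α, β, h, ?_⟩
  ext w
  simp only [VS, HS, mem_ofPred_eq, h]

/-- vertical continuation -/
theorem section_vert {mu : ℂ} {lam : ℝ} (hg : LinGreen g mu lam) (hU : NoIsland g)
    (hreg : ∀ z, 0 < g z → RegRe g z) {x₀ y₀ ρ : ℝ} (hx₀ : 0 < x₀) (hρ : 0 < ρ) {χA : ℂ → ℂ}
    (hA : IsBranch g χA (HS x₀ (y₀ - ρ) (y₀ + ρ))) {s : ℝ} (hs : s = 1 ∨ s = -1) {a Y : ℝ}
    (ha : 0 < a) (hY : 0 < Y) :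
    ∃ χ : ℂ → ℂ, IsBranch g χ (VS x₀ ρ y₀ s a Y) ∧
      ∀ w ∈ VS x₀ ρ y₀ s a Y, |w.im - y₀| < ρ → χ w = χA w := by
  by_contra hno
  have hno' : ∀ b : ℝ, 0 < b → b < a → ¬ ∃ χ : ℂ → ℂ, IsBranch g χ (VS x₀ ρ y₀ s b Y) ∧
      ∀ w ∈ VS x₀ ρ y₀ s b Y, |w.im - y₀| < ρ → χ w = χA w := by
    rintro b hb hba ⟨χ, h1, h2⟩
    have hsub : VS x₀ ρ y₀ s a Y ⊆ VS x₀ ρ y₀ s b Y := fun w hw =>
      ⟨by linarith [hw.1], hw.2.1, hw.2.2⟩
    exact hno ⟨χ, section_mono h1 hsub, fun w hw => h2 w (hsub hw)⟩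
  have hs2 : s * s = 1 := by rcases hs with rfl | rfl <;> norm_num
  have hsabs : |s| = 1 := by rcases hs with rfl | rfl <;> norm_num
  -- the base point
  obtain ⟨ws, hws⟩ : ∃ ws : ℂ, ws = ((x₀ + a / 2 : ℝ) : ℂ) + y₀ * I := ⟨_, rfl⟩
  have hwsre : ws.re = x₀ + a / 2 := by rw [hws]; simp
  have hwsim : ws.im = y₀ := by rw [hws]; simp
  have hwsH : ws ∈ HS x₀ (y₀ - ρ) (y₀ + ρ) :=
    ⟨by rw [hwsre]; linarith, by rw [hwsim]; linarith, by rw [hwsim]; linarith⟩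
  have hgz : g (χA ws) = x₀ + a / 2 := by rw [hA.2 _ hwsH, hwsre]
  obtain ⟨ρs, hρs, ηs, hηs, hloc⟩ := branch_local hg.cont hreg (z := χA ws)
    (by rw [hgz]; linarith)
  obtain ⟨-, χs, hχs, hχs0, hχsinj⟩ := hloc (χA ws) (mem_ball_self hηs) ws
    (by rw [hgz, hwsre])
  obtain ⟨r, hr⟩ : ∃ r, r = min ρs (min ρ (a / 2)) := ⟨_, rfl⟩
  have hr0 : 0 < r := by rw [hr]; exact lt_min hρs (lt_min hρ (by linarith))
  have hrρs : r ≤ ρs := by rw [hr]; exact min_le_left _ _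
  have hrρ : r ≤ ρ := by rw [hr]; exact (min_le_right _ _).trans (min_le_left _ _)
  have hra : r ≤ a / 2 := by rw [hr]; exact (min_le_right _ _).trans (min_le_right _ _)
  have hballH : ball ws r ⊆ HS x₀ (y₀ - ρ) (y₀ + ρ) := by
    intro w hw
    have h1 : ‖w - ws‖ < r := by rw [← dist_eq_norm]; exact hw
    have h2 := (abs_re_le_norm (w - ws)).trans_lt h1
    have h3 := (abs_im_le_norm (w - ws)).trans_lt h1
    rw [sub_re, hwsre, abs_lt] at h2
    rw [sub_im, hwsim, abs_lt] at h3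
    exact ⟨by linarith [h2.1], by linarith [h3.1], by linarith [h3.2]⟩
  have hHR : HS x₀ (y₀ - ρ) (y₀ + ρ) ⊆ RHP := HS_sub hx₀.le
  have hAb : IsBranch g χA (ball ws r) := section_mono hA hballH
  have hEq : EqOn χs χA (ball ws r) :=
    section_unique_convex hreg isOpen_ball (convex_ball _ _) (hballH.trans hHR)
      (section_mono hχs (ball_subset_ball hrρs)) hAb (mem_ball_self hr0) hχs0
  have hAinj : InjOn χA (ball ws r) := (hχsinj.mono (ball_subset_ball hrρs)).congr hEq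
  obtain ⟨d, hd⟩ : ∃ d : ℂ, d = s * I := ⟨_, rfl⟩
  have hd4 : d = 1 ∨ d = -1 ∨ d = I ∨ d = -I := by
    rcases hs with rfl | rfl
    · right; right; left; rw [hd]; simp
    · right; right; right; rw [hd]; simp
  have hdn : ‖d‖ = 1 := by rcases hs with rfl | rfl <;> rw [hd] <;> simp
  have hd0 : d ≠ 0 := by rw [← norm_ne_zero_iff, hdn]; exact one_ne_zero
  obtain ⟨D, χD, hDo, hDs, hDd, hDg, hDloc, y, hy, hfull⟩ :=
    section_full hg.cont hreg hAb hAinj (hballH.trans hHR) hd4 (T₀ := Y + 1) (ρ₁ := r / 2)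
      (by linarith) (by linarith) (by linarith) (by
        intro ζ h1 h2 h3
        show 0 < (ws + ζ * d).re
        rw [hd, add_re, hwsre]
        have h4 : (ζ * (s * I)).re = -(s * ζ.im) := by simp; ring
        rw [h4]
        have h5 : |s * ζ.im| < r / 2 := by rw [abs_mul, hsabs, one_mul]; exact h3
        rw [abs_lt] at h5
        linarith [h5.2])
  -- the union of the sweep and the ball
  have hψc : Continuous fun w : ℂ => (w - ws) / d := by fun_prop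
  have hUo : IsOpen {w : ℂ | (w - ws) / d ∈ D} := hDo.preimage hψc
  have hUb : IsBranch g (fun w => χD ((w - ws) / d)) {w : ℂ | (w - ws) / d ∈ D} := by
    refine ⟨?_, ?_⟩
    · exact hDd.comp (by fun_prop) fun w hw => hw
    · intro w hw
      rw [hDg _ hw, div_mul_cancel₀ _ hd0, add_sub_cancel]
  obtain ⟨χ₁, hχ₁, hχ₁U, hχ₁A⟩ := section_glue2 hUo isOpen_ball hUb hAb (by
    rintro w ⟨hw1, hw2⟩
    have h1 := hDs _ hw1
    have h2 : ‖(w - ws) / d‖ < r := by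
      rw [norm_div, hdn, div_one, ← dist_eq_norm]; exact hw2
    have h3 := (hDloc _ h1.1 h1.2.1 h1.2.2 h2).2
    rw [div_mul_cancel₀ _ hd0, add_sub_cancel] at h3
    exact h3)
  obtain ⟨x, hx⟩ : ∃ x : ℝ, x = x₀ + a / 2 - s * y := ⟨_, rfl⟩
  have hsy : |s * y| < r / 2 := by rw [abs_mul, hsabs, one_mul]; exact hy
  have hsy' := abs_lt.1 hsy
  have hxx₀ : x₀ < x := by rw [hx]; linarith [hsy'.2]
  obtain ⟨α, β, hαβ, -⟩ := VS_eq (x := x₀) (ρ := r / 2) (y := y₀) (s := s) (a := 0)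
    (Y := Y + 1) hs
  obtain ⟨χL, hχL, hχLloc⟩ := section_right hg hU hreg (hUo.union isOpen_ball) hχ₁
    (x₀ := x) (α := α) (β := β) (by linarith) (by
      intro η hη
      obtain ⟨h1, h2⟩ := (hαβ η).1 hη
      obtain ⟨t, ht⟩ : ∃ t, t = s * (η - y₀) := ⟨_, rfl⟩
      rw [← ht] at h1 h2
      have h3 : (x + η * I : ℂ) - ws = (t + y * I) * d := by
        have h4 : (η : ℂ) = y₀ + s * t := by
          have : η = y₀ + s * t := by rw [ht, ← mul_assoc, hs2]; ring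
          rw [this]; push_cast; ring
        rw [h4, hd, hws, hx]
        push_cast
        ring_nf
        rw [I_sq]; ring
      by_cases h5 : 0 < t
      · left
        show ((x + η * I : ℂ) - ws) / d ∈ D
        rw [h3, mul_div_cancel_right₀ _ hd0]
        exact hfull t ⟨h5, h2⟩
      · right
        rw [mem_ball, dist_eq_norm, h3, norm_mul, hdn, mul_one]
        refine (norm_add_le _ _).trans_lt ?_
        rw [norm_mul, norm_I, mul_one, norm_real, norm_real, Real.norm_eq_abs,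
          Real.norm_eq_abs, abs_of_nonpos (not_lt.1 h5)]
        linarith)
  have hy₀αβ : y₀ ∈ Ioo α β := (hαβ y₀).2 ⟨by rw [sub_self, mul_zero]; linarith,
    by rw [sub_self, mul_zero]; linarith⟩
  obtain ⟨r', hr', hr'eq⟩ := hχLloc y₀ hy₀αβ
  -- a common point
  obtain ⟨ε, hε⟩ : ∃ ε, ε = min r' (r / 2) / 2 := ⟨_, rfl⟩
  have hε0 : 0 < ε := by rw [hε]; exact half_pos (lt_min hr' (by linarith))
  have hεr' : ε < r' := by rw [hε]; linarith [min_le_left r' (r / 2)]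
  have hεr : ε < r / 2 := by rw [hε]; linarith [min_le_right r' (r / 2)]
  obtain ⟨c, hc⟩ : ∃ c : ℂ, c = ((x + ε : ℝ) : ℂ) + y₀ * I := ⟨_, rfl⟩
  have hcre : c.re = x + ε := by rw [hc]; simp
  have hcim : c.im = y₀ := by rw [hc]; simp
  have hcL : χL c = χA c := by
    have h1 : c ∈ ball (x + y₀ * I : ℂ) r' := by
      rw [mem_ball, dist_eq_norm, hc]
      have : (((x + ε : ℝ) : ℂ) + y₀ * I) - (x + y₀ * I) = (ε : ℂ) := by push_cast; ring
      rw [this, norm_real, Real.norm_eq_abs, abs_of_pos hε0]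
      exact hεr'
    have h2 : c ∈ ball ws r := by
      rw [mem_ball, dist_eq_norm, hc, hws]
      have : (((x + ε : ℝ) : ℂ) + y₀ * I) - (((x₀ + a / 2 : ℝ) : ℂ) + y₀ * I)
          = ((ε - s * y : ℝ) : ℂ) := by rw [hx]; push_cast; ring
      rw [this, norm_real, Real.norm_eq_abs, abs_lt]
      exact ⟨by linarith [hsy'.2], by linarith [hsy'.1]⟩
    rw [hr'eq h1, hχ₁A h2]
  have hcV : c ∈ HS x α β ∩ HS x (y₀ - ρ) (y₀ + ρ) := by
    refine ⟨⟨by rw [hcre]; linarith, ?_⟩, by rw [hcre]; linarith, by rw [hcim]; linarith,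
      by rw [hcim]; linarith⟩
    rw [hcim]; exact hy₀αβ
  have hsubA : HS x (y₀ - ρ) (y₀ + ρ) ⊆ HS x₀ (y₀ - ρ) (y₀ + ρ) := fun w hw =>
    ⟨hxx₀.trans hw.1, hw.2⟩
  have hAx : IsBranch g χA (HS x (y₀ - ρ) (y₀ + ρ)) := section_mono hA hsubA
  have hagree : EqOn χL χA (HS x α β ∩ HS x (y₀ - ρ) (y₀ + ρ)) :=
    section_unique_convex hreg ((HS_open _ _ _).inter (HS_open _ _ _))
      ((HS_convex _ _ _).inter (HS_convex _ _ _))
      (inter_subset_left.trans (HS_sub (by linarith)))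
      (section_mono hχL inter_subset_left) (section_mono hAx inter_subset_right) hcV hcL
  obtain ⟨χ', hχ', hχ'L, hχ'A⟩ := section_glue2 (HS_open _ _ _) (HS_open _ _ _) hχL hAx hagree
  refine hno' (x - x₀) (by linarith) (by rw [hx]; linarith [hsy'.1]) ⟨χ', section_mono hχ' ?_, ?_⟩
  · rintro w ⟨h1, h2, h3⟩
    have h1' : x < w.re := by linarith
    by_cases h4 : |w.im - y₀| < ρ
    · right
      rw [abs_lt] at h4
      exact ⟨h1', by linarith [h4.1], by linarith [h4.2]⟩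
    · left
      refine ⟨h1', (hαβ _).2 ⟨?_, by linarith⟩⟩
      have h5 : |s * (w.im - y₀)| = |w.im - y₀| := by rw [abs_mul, hsabs, one_mul]
      rw [← h5, not_lt] at h4
      rcases le_abs.1 h4 with h6 | h6
      · linarith
      · linarith
  · rintro w ⟨h1, -, -⟩ h4
    rw [abs_lt] at h4
    exact hχ'A ⟨by linarith, by linarith [h4.1], by linarith [h4.2]⟩

/-- vertical continuation, whole quadrant -/
theorem section_quad {mu : ℂ} {lam : ℝ} (hg : LinGreen g mu lam) (hU : NoIsland g)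
    (hreg : ∀ z, 0 < g z → RegRe g z) {x₀ y₀ ρ : ℝ} (hx₀ : 0 < x₀) (hρ : 0 < ρ) {χA : ℂ → ℂ}
    (hA : IsBranch g χA (HS x₀ (y₀ - ρ) (y₀ + ρ))) {s : ℝ} (hs : s = 1 ∨ s = -1) :
    ∃ χ : ℂ → ℂ, IsBranch g χ {w | x₀ < w.re ∧ -ρ < s * (w.im - y₀)} ∧
      ∀ w : ℂ, x₀ < w.re → |w.im - y₀| < ρ → χ w = χA w := by
  have hex : ∀ p : {p : ℝ × ℝ // 0 < p.1 ∧ 0 < p.2}, ∃ χ : ℂ → ℂ,
      IsBranch g χ (VS x₀ ρ y₀ s p.1.1 p.1.2) ∧
      ∀ w ∈ VS x₀ ρ y₀ s p.1.1 p.1.2, |w.im - y₀| < ρ → χ w = χA w := fun p =>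
    section_vert hg hU hreg hx₀ hρ hA hs p.2.1 p.2.2
  choose X hX hXA using hex
  have hVo : ∀ p : {p : ℝ × ℝ // 0 < p.1 ∧ 0 < p.2}, IsOpen (VS x₀ ρ y₀ s p.1.1 p.1.2) := by
    intro p
    obtain ⟨α, β, -, h⟩ := VS_eq (x := x₀) (ρ := ρ) (y := y₀) (a := p.1.1) (Y := p.1.2) hs
    rw [h]; exact HS_open _ _ _
  have hVc : ∀ p : {p : ℝ × ℝ // 0 < p.1 ∧ 0 < p.2}, Convex ℝ (VS x₀ ρ y₀ s p.1.1 p.1.2) := by
    intro p
    obtain ⟨α, β, -, h⟩ := VS_eq (x := x₀) (ρ := ρ) (y := y₀) (a := p.1.1) (Y := p.1.2) hs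
    rw [h]; exact HS_convex _ _ _
  have hVr : ∀ p : {p : ℝ × ℝ // 0 < p.1 ∧ 0 < p.2}, VS x₀ ρ y₀ s p.1.1 p.1.2 ⊆ RHP := by
    intro p w hw
    have := hw.1
    have := p.2.1
    show 0 < w.re
    linarith
  obtain ⟨χ', hχ', hχ'X⟩ := section_glue (g := g) (U := fun p => VS x₀ ρ y₀ s p.1.1 p.1.2)
    (χ := X) hVo hX (by
      intro p q
      obtain ⟨c, hc⟩ : ∃ c : ℂ, c = ((x₀ + max p.1.1 q.1.1 + 1 : ℝ) : ℂ) + y₀ * I := ⟨_, rfl⟩
      have hcre : c.re = x₀ + max p.1.1 q.1.1 + 1 := by rw [hc]; simp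
      have hcim : c.im = y₀ := by rw [hc]; simp
      have hcp : c ∈ VS x₀ ρ y₀ s p.1.1 p.1.2 := by
        refine ⟨by rw [hcre]; linarith [le_max_left p.1.1 q.1.1], ?_, ?_⟩
        · rw [hcim, sub_self, mul_zero]; linarith
        · rw [hcim, sub_self, mul_zero]; exact p.2.2
      have hcq : c ∈ VS x₀ ρ y₀ s q.1.1 q.1.2 := by
        refine ⟨by rw [hcre]; linarith [le_max_right p.1.1 q.1.1], ?_, ?_⟩
        · rw [hcim, sub_self, mul_zero]; linarith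
        · rw [hcim, sub_self, mul_zero]; exact q.2.2
      have hcρ : |c.im - y₀| < ρ := by rw [hcim, sub_self, abs_zero]; exact hρ
      exact section_unique_convex hreg ((hVo p).inter (hVo q)) ((hVc p).inter (hVc q))
        (inter_subset_left.trans (hVr p)) (section_mono (hX p) inter_subset_left)
        (section_mono (hX q) inter_subset_right) ⟨hcp, hcq⟩
        ((hXA p c hcp hcρ).trans (hXA q c hcq hcρ).symm))
  have hcov : ∀ w : ℂ, x₀ < w.re → -ρ < s * (w.im - y₀) →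
      ∃ p : {p : ℝ × ℝ // 0 < p.1 ∧ 0 < p.2}, w ∈ VS x₀ ρ y₀ s p.1.1 p.1.2 := by
    intro w h1 h2
    refine ⟨⟨((w.re - x₀) / 2, |s * (w.im - y₀)| + 1), by simp only; linarith, by
      simp only; positivity⟩, ?_, h2, ?_⟩
    · simp only; linarith
    · simp only; linarith [le_abs_self (s * (w.im - y₀))]
  refine ⟨χ', section_mono hχ' ?_, ?_⟩
  · rintro w ⟨h1, h2⟩
    exact mem_iUnion.2 (hcov w h1 h2)
  · intro w h1 h2
    have h3 : -ρ < s * (w.im - y₀) := by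
      have h4 : |s * (w.im - y₀)| < ρ := by
        rw [abs_mul]
        rcases hs with rfl | rfl <;> simpa using h2
      exact (abs_lt.1 h4).1
    obtain ⟨p, hp⟩ := hcov w h1 h3
    rw [hχ'X p hp]
    exact hXA p w hp h2

theorem right_half {g : ℂ → ℝ} {mu : ℂ} {lam : ℝ} (hg : LinGreen g mu lam) (hU : NoIsland g)
    (hreg : ∀ z, 0 < g z → RegRe g z) {z₀ w₀ : ℂ} (hz₀ : 0 < g z₀) (hw₀ : w₀.re = g z₀) :
    ∃ ρ > 0, ball w₀ ρ ⊆ RHP ∧
      ∃ χ : ℂ → ℂ, IsBranch g χ ({w : ℂ | w₀.re < w.re} ∪ ball w₀ ρ) ∧ χ w₀ = z₀ := by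
  obtain ⟨ρ, hρ, η, hη, hloc⟩ := branch_local hg.cont hreg hz₀
  obtain ⟨hρR, χ₀, hχ₀, hχ₀0, -⟩ := hloc z₀ (mem_ball_self hη) w₀ hw₀
  have hx₀ : 0 < w₀.re := by rw [hw₀]; exact hz₀
  have hw₀' : (w₀.re + w₀.im * I : ℂ) = w₀ := re_add_im w₀
  obtain ⟨χA, hχA, hχAloc⟩ := section_right hg hU hreg isOpen_ball hχ₀ (x₀ := w₀.re)
    (α := w₀.im - ρ) (β := w₀.im + ρ) hx₀ (by
      intro v hv
      rw [mem_ball, dist_eq_norm]
      have h1 : (w₀.re + v * I : ℂ) - w₀ = ((v - w₀.im : ℝ) : ℂ) * I := by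
        conv_lhs => rw [← hw₀']
        simp only [add_re, ofReal_re, mul_re, I_re, mul_zero, ofReal_im, I_im, mul_one, sub_self,
          add_zero]
        push_cast; ring
      rw [h1, norm_mul, norm_I, mul_one, norm_real, Real.norm_eq_abs, abs_lt]
      exact ⟨by linarith [hv.1], by linarith [hv.2]⟩)
  obtain ⟨r, hr, hreq⟩ := hχAloc w₀.im ⟨by linarith, by linarith⟩
  rw [hw₀'] at hreq
  obtain ⟨ε, hε⟩ : ∃ ε, ε = min r ρ / 2 := ⟨_, rfl⟩
  have hε0 : 0 < ε := by rw [hε]; exact half_pos (lt_min hr hρ)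
  have hεr : ε < r := by rw [hε]; linarith [min_le_left r ρ, hr]
  have hερ : ε < ρ := by rw [hε]; linarith [min_le_right r ρ, hρ]
  obtain ⟨c, hc⟩ : ∃ c : ℂ, c = w₀ + ε := ⟨_, rfl⟩
  have hcball : ∀ t : ℝ, ε < t → c ∈ ball w₀ t := by
    intro t ht
    rw [mem_ball, dist_eq_norm, hc, add_sub_cancel_left, norm_real, Real.norm_eq_abs,
      abs_of_pos hε0]
    exact ht
  have hcH : c ∈ HS w₀.re (w₀.im - ρ) (w₀.im + ρ) := by
    rw [hc]
    refine ⟨?_, ?_, ?_⟩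
    · simp [hε0]
    · simp [hρ]
    · simp [hρ]
  have hagree : EqOn χA χ₀ (HS w₀.re (w₀.im - ρ) (w₀.im + ρ) ∩ ball w₀ ρ) :=
    section_unique_convex hreg ((HS_open _ _ _).inter isOpen_ball)
      ((HS_convex _ _ _).inter (convex_ball _ _)) (inter_subset_right.trans hρR)
      (section_mono hχA inter_subset_left) (section_mono hχ₀ inter_subset_right)
      ⟨hcH, hcball ρ hερ⟩ (hreq (hcball r hεr))
  obtain ⟨χp, hχp, hχpA⟩ := section_quad hg hU hreg hx₀ hρ hχA (s := 1) (Or.inl rfl)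
  obtain ⟨χm, hχm, hχmA⟩ := section_quad hg hU hreg hx₀ hρ hχA (s := -1) (Or.inr rfl)
  have hQo : ∀ s : ℝ, IsOpen {w : ℂ | w₀.re < w.re ∧ -ρ < s * (w.im - w₀.im)} := by
    intro s
    exact (isOpen_lt continuous_const continuous_re).inter
      (isOpen_lt continuous_const (continuous_const.mul (continuous_im.sub continuous_const)))
  obtain ⟨χ', hχ', hχ'p, hχ'm⟩ := section_glue2 (hQo 1) (hQo (-1)) hχp hχm (by
    rintro w ⟨⟨h1, h2⟩, -, h3⟩
    have h4 : |w.im - w₀.im| < ρ := abs_lt.2 ⟨by linarith, by linarith⟩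
    rw [hχpA w h1 h4, hχmA w h1 h4])
  have hcov : {w : ℂ | w₀.re < w.re} ⊆ {w : ℂ | w₀.re < w.re ∧ -ρ < 1 * (w.im - w₀.im)} ∪
      {w : ℂ | w₀.re < w.re ∧ -ρ < -1 * (w.im - w₀.im)} := by
    intro w hw
    by_cases h : 0 ≤ w.im - w₀.im
    · left; exact ⟨hw, by linarith⟩
    · right; exact ⟨hw, by linarith⟩
  obtain ⟨χ, hχ, hχ1, hχ2⟩ := section_glue2 (isOpen_lt continuous_const continuous_re)
    isOpen_ball (section_mono hχ' hcov) hχ₀ (by
      rintro w ⟨h1, h2⟩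
      have h1' : w₀.re < w.re := h1
      have h3 : |w.im - w₀.im| < ρ := by
        rw [← sub_im]
        refine (abs_im_le_norm _).trans_lt ?_
        rw [← dist_eq_norm]; exact h2
      have h4 := abs_lt.1 h3
      have h5 : χ' w = χp w := hχ'p ⟨h1', by linarith [h4.1]⟩
      rw [h5, hχpA w h1' h3]
      exact hagree ⟨⟨h1', by linarith [h4.1], by linarith [h4.2]⟩, h2⟩)
  refine ⟨ρ, hρ, hρR, χ, hχ, ?_⟩
  rw [hχ2 (mem_ball_self hρ), hχ₀0]

theorem thmC {g : ℂ → ℝ} {mu : ℂ} {lam : ℝ} (hg : LinGreen g mu lam) (hU : NoIsland g) :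
    ∃ σ : ℂ → ℂ, IsBranch g σ RHP := by
  have hreg : ∀ z, 0 < g z → RegRe g z := fun z hz => hg.no_crit hU hz
  obtain ⟨z₀, hz₀⟩ := hg.nontriv
  obtain ⟨w₀, hw₀⟩ : ∃ w₀ : ℂ, w₀ = (g z₀ : ℂ) := ⟨_, rfl⟩
  have hw₀re : w₀.re = g z₀ := by rw [hw₀]; simp
  obtain ⟨ρ, hρ, η, hη, hloc⟩ := branch_local hg.cont hreg hz₀
  obtain ⟨hρR, χ₀, hχ₀, hχ₀0, hinj⟩ := hloc z₀ (mem_ball_self hη) w₀ hw₀re
  obtain ⟨D, χD, hDo, hDs, hDd, hDg, -, y, hy, hfull⟩ :=
    section_full hg.cont hreg hχ₀ hinj hρR (d := -1) (Or.inr (Or.inl rfl)) (T₀ := g z₀)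
      (ρ₁ := ρ / 2) (by linarith) (by linarith) hz₀ (by
        intro ζ h1 h2 h3
        show 0 < (w₀ + ζ * (-1)).re
        simp only [add_re, hw₀re, mul_neg, mul_one, neg_re]
        linarith)
  -- the branch along the horizontal segment
  have hWo : IsOpen {w : ℂ | w₀ - w ∈ D} := hDo.preimage (by fun_prop)
  have hWb : IsBranch g (fun w => χD (w₀ - w)) {w : ℂ | w₀ - w ∈ D} := by
    refine ⟨hDd.comp (by fun_prop) fun w hw => hw, ?_⟩
    intro w hw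
    rw [hDg _ hw]
    congr 1; ring
  obtain ⟨P, hP⟩ : ∃ P : ℝ → ℂ, ∀ x, P x = (x : ℂ) - y * I := ⟨fun x => (x : ℂ) - y * I, fun _ => rfl⟩
  have hPre : ∀ x, (P x).re = x := by intro x; rw [hP]; simp
  have hPW : ∀ x ∈ Ioo 0 (g z₀), P x ∈ {w : ℂ | w₀ - w ∈ D} := by
    intro x hx
    show w₀ - P x ∈ D
    have : w₀ - P x = (((g z₀ - x : ℝ) : ℂ) + y * I) := by rw [hP, hw₀]; push_cast; ring
    rw [this]
    exact hfull _ ⟨by linarith [hx.2], by linarith [hx.1]⟩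
  have hex : ∀ x : Ioo (0 : ℝ) (g z₀), ∃ σ : ℂ → ℂ, ∃ r > 0, ball (P x) r ⊆ RHP ∧
      IsBranch g σ ({w : ℂ | (x : ℝ) < w.re} ∪ ball (P x) r) ∧
      σ (P x) = χD (w₀ - P x) := by
    intro x
    have hg0 : g (χD (w₀ - P x)) = x := by
      have := hWb.2 _ (hPW x x.2)
      rw [hPre] at this
      exact this
    obtain ⟨r, hr, hrR, χ, hχ, hχ0⟩ := right_half hg hU hreg (z₀ := χD (w₀ - P x)) (w₀ := P x)
      (by rw [hg0]; exact x.2.1) (by rw [hg0, hPre])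
    rw [hPre] at hχ
    exact ⟨χ, r, hr, hrR, hχ, hχ0⟩
  choose σ r hr hrR hσ hσ0 using hex
  have hagree : ∀ x x' : Ioo (0 : ℝ) (g z₀), (x' : ℝ) < x →
      EqOn (σ x) (σ x') {w : ℂ | (x : ℝ) < w.re} := by
    intro x x' hxx
    -- a thickening of the segment from `P x'` to `P x`
    have hopen : IsOpen ({w : ℂ | w₀ - w ∈ D} ∩ ({w : ℂ | (x' : ℝ) < w.re} ∪ ball (P x') (r x'))) :=
      hWo.inter ((isOpen_lt continuous_const continuous_re).union isOpen_ball)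
    have hcomp : IsCompact (segment ℝ (P x') (P x)) := by
      rw [← convexHull_pair (𝕜 := ℝ)]
      exact Set.Finite.isCompact_convexHull ℝ (Set.toFinite _)
    have hseg : segment ℝ (P x') (P x) ⊆
        {w : ℂ | w₀ - w ∈ D} ∩ ({w : ℂ | (x' : ℝ) < w.re} ∪ ball (P x') (r x')) := by
      rintro w ⟨a, b, ha, hb, hab, rfl⟩
      have h1 : a • P x' + b • P x = P (a * x' + b * x) := by
        rw [hP, hP, hP]
        simp only [real_smul]
        have : (a : ℂ) = 1 - b := by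
          rw [show a = 1 - b by linarith]; push_cast; ring
        push_cast
        rw [this]; ring
      rw [h1]
      have h0' := x'.2.1
      have h1' := x.2.2
      have ha' : a = 1 - b := by linarith
      have h2 : (x' : ℝ) ≤ a * x' + b * x := by rw [ha']; nlinarith
      have h3 : a * x' + b * x ≤ (x : ℝ) := by rw [ha']; nlinarith
      refine ⟨hPW _ ⟨by linarith, by linarith⟩, ?_⟩
      rcases h2.lt_or_eq with h4 | h4
      · left
        show (x' : ℝ) < (P _).re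
        rw [hPre]; exact h4
      · right
        rw [← h4]; exact mem_ball_self (hr x')
    obtain ⟨δ, hδ, hδsub⟩ := hcomp.exists_thickening_subset_open hopen hseg
    have hR' : ({w : ℂ | (x' : ℝ) < w.re} ∪ ball (P x') (r x')) ⊆ RHP := by
      refine union_subset (fun w hw => ?_) (hrR x')
      have h0' := x'.2.1
      have : (x' : ℝ) < w.re := hw
      show 0 < w.re
      linarith
    have hR : ({w : ℂ | (x : ℝ) < w.re} ∪ ball (P x) (r x)) ⊆ RHP := by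
      refine union_subset (fun w hw => ?_) (hrR x)
      have h0' := x.2.1
      have : (x : ℝ) < w.re := hw
      show 0 < w.re
      linarith
    have hE1 : EqOn (σ x') (fun w => χD (w₀ - w)) (thickening δ (segment ℝ (P x') (P x))) :=
      section_unique_convex hreg isOpen_thickening ((convex_segment _ _).thickening _)
        ((hδsub.trans inter_subset_right).trans hR')
        (section_mono (hσ x') (hδsub.trans inter_subset_right))
        (section_mono hWb (hδsub.trans inter_subset_left))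
        (w₀ := P x') (self_subset_thickening hδ _ (left_mem_segment _ _ _)) (hσ0 x')
    have hPx' : σ x' (P x) = σ x (P x) := by
      rw [hσ0 x]
      exact hE1 (self_subset_thickening hδ _ (right_mem_segment _ _ _))
    -- a small ball around `P x`
    have hmem : P x ∈ {w : ℂ | (x' : ℝ) < w.re} ∩ ball (P x) (r x) :=
      ⟨by show (x' : ℝ) < (P x).re; rw [hPre]; exact hxx, mem_ball_self (hr x)⟩
    obtain ⟨e, he, hesub⟩ := Metric.isOpen_iff.1
      ((isOpen_lt continuous_const continuous_re).inter isOpen_ball) _ hmem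
    have hE2 : EqOn (σ x) (σ x') (ball (P x) e) := by
      refine section_unique_convex hreg isOpen_ball (convex_ball _ _)
        ((hesub.trans inter_subset_right).trans (hrR x))
        (section_mono (hσ x) ((hesub.trans inter_subset_right).trans subset_union_right))
        (section_mono (hσ x') ((hesub.trans inter_subset_left).trans subset_union_left))
        (mem_ball_self he) hPx'.symm
    obtain ⟨c, hc⟩ : ∃ c : ℂ, c = P x + (e / 2 : ℝ) := ⟨_, rfl⟩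
    have hcb : c ∈ ball (P x) e := by
      rw [mem_ball, dist_eq_norm, hc, add_sub_cancel_left, norm_real, Real.norm_eq_abs,
        abs_of_pos (half_pos he)]
      exact half_lt_self he
    have hcr : (x : ℝ) < c.re := by
      rw [hc, add_re, hPre, ofReal_re]; linarith
    refine section_unique_convex hreg (isOpen_lt continuous_const continuous_re)
      (convex_halfSpace_re_gt _) (subset_union_left.trans hR)
      (section_mono (hσ x) subset_union_left)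
      (section_mono (hσ x') (fun w hw => Or.inl (hxx.trans hw))) (w₀ := c) hcr (hE2 hcb)
  obtain ⟨σ', hσ', -⟩ := section_glue (g := g) (ι := Ioo (0 : ℝ) (g z₀))
    (U := fun x => {w : ℂ | (x : ℝ) < w.re}) (χ := σ)
    (fun x => isOpen_lt continuous_const continuous_re)
    (fun x => section_mono (hσ x) subset_union_left) (by
      intro x x' w hw
      rcases lt_trichotomy (x : ℝ) x' with h | h | h
      · exact (hagree x' x h hw.2).symm
      · have : x = x' := Subtype.ext h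
        rw [this]
      · exact hagree x x' h hw.1)
  refine ⟨σ', section_mono hσ' ?_⟩
  intro w hw
  have hw' : 0 < w.re := hw
  have h1 : 0 < min w.re (g z₀) := lt_min hw' hz₀
  refine mem_iUnion.2 ⟨⟨min w.re (g z₀) / 2, by linarith, ?_⟩, ?_⟩
  · linarith [min_le_right w.re (g z₀)]
  · show min w.re (g z₀) / 2 < w.re
    linarith [min_le_left w.re (g z₀)]

end H6ea4aa
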