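import Pool.Agent.H.MP_6ea4aa_an.Defs

/-!
# MP_6ea4aa: one-variable harmonic function utilities
-/

set_option autoImplicit false

open Complex Set Filter Topology Metric MeasureTheory
open scoped ContDiff

namespace H6ea4aa

theorem Util_harmonicAt {u : ℂ → ℝ} {z : ℂ} (h : LocRe u z) :
    InnerProductSpace.HarmonicAt u z := by
  obtain ⟨r, hr, F, hF, he⟩ := h
  have hA : AnalyticAt ℂ F z := (hF.analyticOnNhd isOpen_ball) z (mem_ball_self hr)
  refine (InnerProductSpace.harmonicAt_congr_nhds ?_).2 hA.harmonicAt_re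
  filter_upwards [ball_mem_nhds z hr] with ζ hζ using he ζ hζ

theorem Util_continuousAt {u : ℂ → ℝ} {z : ℂ} (h : LocRe u z) : ContinuousAt u z :=
  (Util_harmonicAt h).1.continuousAt

theorem Util_locRe_of_re {u : ℂ → ℝ} {Q : Set ℂ} (hQ : IsOpen Q) {F : ℂ → ℂ}
    (hF : DifferentiableOn ℂ F Q) (he : ∀ ζ ∈ Q, u ζ = (F ζ).re) {z : ℂ} (hz : z ∈ Q) :
    LocRe u z := by
  obtain ⟨r, hr, hrQ⟩ := Metric.isOpen_iff.1 hQ z hz
  exact ⟨r, hr, F, hF.mono hrQ, fun ζ hζ => he ζ (hrQ hζ)⟩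

theorem Util_locRe_neg {u : ℂ → ℝ} {z : ℂ} (h : LocRe u z) : LocRe (fun ζ => -u ζ) z := by
  obtain ⟨r, hr, F, hF, he⟩ := h
  exact ⟨r, hr, fun ζ => -F ζ, hF.neg, fun ζ hζ => by simp [he ζ hζ]⟩

theorem Util_locRe_sub_const {u : ℂ → ℝ} {z : ℂ} (h : LocRe u z) (m : ℝ) :
    LocRe (fun ζ => u ζ - m) z := by
  obtain ⟨r, hr, F, hF, he⟩ := h
  exact ⟨r, hr, fun ζ => F ζ - m, hF.sub_const _, fun ζ hζ => by simp [he ζ hζ]⟩

theorem Util_locRe_add_const {u : ℂ → ℝ} {z : ℂ} (h : LocRe u z) (m : ℝ) :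
    LocRe (fun ζ => u ζ + m) z := by
  obtain ⟨r, hr, F, hF, he⟩ := h
  exact ⟨r, hr, fun ζ => F ζ + m, hF.add_const _, fun ζ hζ => by simp [he ζ hζ]⟩

theorem Util_locRe_const_mul {u : ℂ → ℝ} {z : ℂ} (h : LocRe u z) (m : ℝ) :
    LocRe (fun ζ => m * u ζ) z := by
  obtain ⟨r, hr, F, hF, he⟩ := h
  exact ⟨r, hr, fun ζ => (m : ℂ) * F ζ, hF.const_mul _, fun ζ hζ => by simp [he ζ hζ]⟩

theorem Util_locRe_add {u v : ℂ → ℝ} {z : ℂ} (h : LocRe u z) (h' : LocRe v z) :
    LocRe (fun ζ => u ζ + v ζ) z := by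
  obtain ⟨r, hr, F, hF, he⟩ := h
  obtain ⟨r', hr', F', hF', he'⟩ := h'
  refine ⟨min r r', lt_min hr hr', fun ζ => F ζ + F' ζ,
    (hF.mono (ball_subset_ball (min_le_left _ _))).add
      (hF'.mono (ball_subset_ball (min_le_right _ _))), fun ζ hζ => ?_⟩
  simp [he ζ (ball_subset_ball (min_le_left _ _) hζ), he' ζ (ball_subset_ball (min_le_right _ _) hζ)]

theorem Util_locRe_sub {u v : ℂ → ℝ} {z : ℂ} (h : LocRe u z) (h' : LocRe v z) :
    LocRe (fun ζ => u ζ - v ζ) z := by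
  obtain ⟨r, hr, F, hF, he⟩ := h
  obtain ⟨r', hr', F', hF', he'⟩ := h'
  refine ⟨min r r', lt_min hr hr', fun ζ => F ζ - F' ζ,
    (hF.mono (ball_subset_ball (min_le_left _ _))).sub
      (hF'.mono (ball_subset_ball (min_le_right _ _))), fun ζ hζ => ?_⟩
  simp [he ζ (ball_subset_ball (min_le_left _ _) hζ), he' ζ (ball_subset_ball (min_le_right _ _) hζ)]

theorem Util_locRe_congr {u v : ℂ → ℝ} {z : ℂ} (h : LocRe u z) (h' : ∀ᶠ ζ in 𝓝 z, v ζ = u ζ) :
    LocRe v z := by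
  obtain ⟨r, hr, F, hF, he⟩ := h
  obtain ⟨r', hr', h'⟩ := Metric.eventually_nhds_iff_ball.1 h'
  refine ⟨min r r', lt_min hr hr', F, hF.mono (ball_subset_ball (min_le_left _ _)),
    fun ζ hζ => ?_⟩
  rw [h' ζ (ball_subset_ball (min_le_right _ _) hζ), he ζ (ball_subset_ball (min_le_left _ _) hζ)]

/-- a locally-real-part function on a disc is the real part of one holomorphic function -/
theorem locRe_ball {u : ℂ → ℝ} {z : ℂ} {R : ℝ} (h : ∀ ζ ∈ ball z R, LocRe u ζ) :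
    ∃ F : ℂ → ℂ, DifferentiableOn ℂ F (ball z R) ∧ ∀ ζ ∈ ball z R, u ζ = (F ζ).re := by
  have hh : InnerProductSpace.HarmonicOnNhd u (ball z R) := fun ζ hζ => Util_harmonicAt (h ζ hζ)
  obtain ⟨F, hF, he⟩ := hh.exists_analyticOnNhd_ball_re_eq
  exact ⟨F, hF.differentiableOn, fun ζ hζ => (he hζ).symm⟩

/-- Harnack inequality on a disc -/
theorem harnack {u : ℂ → ℝ} {z : ℂ} {R : ℝ} (h : ∀ ζ ∈ ball z R, LocRe u ζ)
    (h0 : ∀ ζ ∈ ball z R, 0 ≤ u ζ) {ζ : ℂ} (hζ : ζ ∈ ball z R) :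
    u ζ ≤ (R + ‖ζ - z‖) / (R - ‖ζ - z‖) * u z := by
  have hlt : ‖ζ - z‖ < R := by simpa [mem_ball, dist_eq_norm] using hζ
  have key : ∀ r : ℝ, ‖ζ - z‖ < r → r < R →
      u ζ ≤ (r + ‖ζ - z‖) / (r - ‖ζ - z‖) * u z := by
    intro r hr1 hr2
    have hr0 : 0 < r := lt_of_le_of_lt (norm_nonneg _) hr1
    have hsub : closedBall z r ⊆ ball z R := closedBall_subset_ball hr2
    have hh : InnerProductSpace.HarmonicOnNhd u (closedBall z r) :=
      fun w hw => Util_harmonicAt (h w (hsub hw))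
    have hw : ζ ∈ ball z r := by simpa [mem_ball, dist_eq_norm] using hr1
    have hcu : ContinuousOn u (sphere z |r|) := fun w hw => by
      rw [abs_of_pos hr0] at hw
      exact (hh w (sphere_subset_closedBall hw)).1.continuousAt.continuousWithinAt
    have e1 := hh.circleAverage_re_herglotzRieszKernel_smul hw
    have hh' : InnerProductSpace.HarmonicOnNhd u (closedBall z |r|) := by
      rwa [abs_of_pos hr0]
    have e2 := hh'.circleAverage_eq
    have e3 : Real.circleAverage (fun w => (r + ‖ζ - z‖) / (r - ‖ζ - z‖) * u w) z r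
        = (r + ‖ζ - z‖) / (r - ‖ζ - z‖) * u z := by
      have := Real.circleAverage_fun_smul (a := (r + ‖ζ - z‖) / (r - ‖ζ - z‖)) (f := u)
        (c := z) (R := r)
      simp only [smul_eq_mul] at this
      rw [this, e2]
    rw [← e1, ← e3]
    refine Real.circleAverage_mono ?_ ?_ ?_
    · refine ContinuousOn.circleIntegrable' ?_
      have hk : ContinuousOn (re ∘ herglotzRieszKernel z ζ) (sphere z |r|) :=
        Complex.continuous_re.comp_continuousOn (continuousOn_herglotzRieszKernel_sphere hw)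
      exact hk.smul hcu
    · refine ContinuousOn.circleIntegrable' ?_
      exact continuousOn_const.mul hcu
    · intro w hw'
      rw [abs_of_pos hr0] at hw'
      have h1 : ((w - z + (ζ - z)) / ((w - z) - (ζ - z))).re ≤ (r + ‖ζ - z‖) / (r - ‖ζ - z‖) :=
        re_herglotzRieszKernel_le hw' hw
      have h2 : 0 ≤ u w := h0 w (hsub (sphere_subset_closedBall hw'))
      have h3 : ((re ∘ herglotzRieszKernel z ζ) • u) w
          = ((w - z + (ζ - z)) / ((w - z) - (ζ - z))).re * u w := by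
        simp [herglotzRieszKernel_def]
      rw [h3]
      exact mul_le_mul_of_nonneg_right h1 h2
  have hlim : Tendsto (fun r : ℝ => (r + ‖ζ - z‖) / (r - ‖ζ - z‖) * u z) (𝓝[<] R)
      (𝓝 ((R + ‖ζ - z‖) / (R - ‖ζ - z‖) * u z)) := by
    refine Tendsto.mono_left ?_ nhdsWithin_le_nhds
    have : ContinuousAt (fun r : ℝ => (r + ‖ζ - z‖) / (r - ‖ζ - z‖) * u z) R := by
      have hne : R - ‖ζ - z‖ ≠ 0 := (sub_pos.2 hlt).ne'
      fun_prop (disch := assumption)
    exact this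
  refine ge_of_tendsto hlim ?_
  filter_upwards [Ioo_mem_nhdsLT hlt] with r hr
  exact key r hr.1 hr.2

/-- circle averages of a function that is harmonic near the closed disc -/
theorem locRe_circleAverage {u : ℂ → ℝ} {z : ℂ} {R r : ℝ} (hr : 0 < r) (hrR : r < R)
    (h : ∀ ζ ∈ ball z R, LocRe u ζ) : Real.circleAverage u z r = u z := by
  have hh' : InnerProductSpace.HarmonicOnNhd u (closedBall z |r|) := by
    rw [abs_of_pos hr]
    exact fun w hw => Util_harmonicAt (h w (closedBall_subset_ball hrR hw))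
  exact hh'.circleAverage_eq

/-- if `u` has a local minimum in the sense of a disc, it is constant on the disc -/
theorem Util_min_ball {u : ℂ → ℝ} {z : ℂ} {R : ℝ} (h : ∀ ζ ∈ ball z R, LocRe u ζ)
    (h0 : ∀ ζ ∈ ball z R, u z ≤ u ζ) : ∀ ζ ∈ ball z R, u ζ = u z := by
  intro ζ hζ
  have := harnack (u := fun w => u w - u z) (z := z) (R := R)
    (fun w hw => Util_locRe_sub_const (h w hw) _) (fun w hw => sub_nonneg.2 (h0 w hw)) hζ
  simp only [sub_self, mul_zero] at this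
  linarith [h0 ζ hζ]

/-- minimum principle on bounded open sets -/
theorem min_principle {u : ℂ → ℝ} {Q : Set ℂ} (hQ : IsOpen Q) (hb : Bornology.IsBounded Q)
    (hc : ContinuousOn u (closure Q)) (h : ∀ ζ ∈ Q, LocRe u ζ) {m : ℝ}
    (hm : ∀ ζ ∈ frontier Q, m ≤ u ζ) : ∀ ζ ∈ Q, m ≤ u ζ := by
  intro ζ hζ
  by_contra hlt
  push Not at hlt
  have hcomp : IsCompact (closure Q) := hb.isCompact_closure
  obtain ⟨z0, hz0, hmin⟩ := hcomp.exists_isMinOn ⟨ζ, subset_closure hζ⟩ hc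
  have hmin' : ∀ w ∈ closure Q, u z0 ≤ u w := fun w hw => hmin hw
  have hz0m : u z0 < m := lt_of_le_of_lt (hmin' ζ (subset_closure hζ)) hlt
  set S : Set ℂ := {w | w ∈ closure Q ∧ u w = u z0} with hS
  have hSQ : S ⊆ Q := by
    intro w hw
    by_contra hwQ
    have : w ∈ frontier Q := by
      rw [hQ.frontier_eq]
      exact ⟨hw.1, hwQ⟩
    have := hm w this
    rw [hw.2] at this
    linarith
  have hSclosed : IsClosed S := by
    have : S = closure Q ∩ u ⁻¹' {u z0} := by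
      ext w; simp [hS]
    rw [this]
    exact hc.preimage_isClosed_of_isClosed isClosed_closure isClosed_singleton
  have hSopen : IsOpen S := by
    rw [Metric.isOpen_iff]
    intro w hw
    obtain ⟨r, hr, hrQ⟩ := Metric.isOpen_iff.1 hQ w (hSQ hw)
    refine ⟨r, hr, fun v hv => ⟨subset_closure (hrQ hv), ?_⟩⟩
    have := Util_min_ball (u := u) (z := w) (R := r) (fun v hv => h v (hrQ hv))
      (fun v hv => by rw [hw.2]; exact hmin' v (subset_closure (hrQ hv))) v hv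
    rw [this, hw.2]
  have hSuniv : S = univ := IsClopen.eq_univ ⟨hSclosed, hSopen⟩ ⟨z0, hz0, rfl⟩
  have : Bornology.IsBounded (univ : Set ℂ) := by
    rw [← hSuniv]
    exact hb.subset hSQ
  exact NormedSpace.unbounded_univ ℂ ℂ this

/-- maximum principle on bounded open sets -/
theorem max_principle {u : ℂ → ℝ} {Q : Set ℂ} (hQ : IsOpen Q) (hb : Bornology.IsBounded Q)
    (hc : ContinuousOn u (closure Q)) (h : ∀ ζ ∈ Q, LocRe u ζ) {m : ℝ}
    (hm : ∀ ζ ∈ frontier Q, u ζ ≤ m) : ∀ ζ ∈ Q, u ζ ≤ m := by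
  intro ζ hζ
  have := min_principle (u := fun w => -u w) (Q := Q) (m := -m) hQ hb hc.neg
    (fun w hw => Util_locRe_neg (h w hw)) (fun w hw => neg_le_neg (hm w hw)) ζ hζ
  linarith

/-- strong minimum principle -/
theorem min_strong {u : ℂ → ℝ} {Q : Set ℂ} (hQ : IsOpen Q) (hQc : IsPreconnected Q)
    (h : ∀ ζ ∈ Q, LocRe u ζ) {m : ℝ} (hm : ∀ ζ ∈ Q, m ≤ u ζ) {z : ℂ} (hz : z ∈ Q)
    (hzm : u z = m) : ∀ ζ ∈ Q, u ζ = m := by
  set S : Set ℂ := {w | w ∈ Q ∧ u w = m} with hS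
  have hSopen : IsOpen S := by
    rw [Metric.isOpen_iff]
    intro w hw
    obtain ⟨r, hr, hrQ⟩ := Metric.isOpen_iff.1 hQ w hw.1
    refine ⟨r, hr, fun v hv => ⟨hrQ hv, ?_⟩⟩
    have := Util_min_ball (u := u) (z := w) (R := r) (fun v hv => h v (hrQ hv))
      (fun v hv => by rw [hw.2]; exact hm v (hrQ hv)) v hv
    rw [this, hw.2]
  have hsub : Q ⊆ S := by
    refine hQc.subset_of_closure_inter_subset hSopen ⟨z, hz, hz, hzm⟩ ?_
    rintro w ⟨hw1, hw2⟩
    refine ⟨hw2, ?_⟩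
    have hcw : ContinuousAt u w := Util_continuousAt (h w hw2)
    have hm' : u w ∈ closure ({m} : Set ℝ) := by
      refine mem_closure_of_frequently_of_tendsto ?_ hcw
      rw [mem_closure_iff_frequently] at hw1
      exact hw1.mono (fun v hv => hv.2)
    simpa using hm'
  exact fun ζ hζ => (hsub hζ).2

/-- identity principle: a harmonic function on a connected open set that is constant near one
point is constant -/
theorem locRe_identity {u : ℂ → ℝ} {Q : Set ℂ} (hQ : IsOpen Q) (hQc : IsPreconnected Q)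
    (h : ∀ ζ ∈ Q, LocRe u ζ) {m : ℝ} {z : ℂ} (hz : z ∈ Q)
    (hzm : ∀ᶠ ζ in 𝓝 z, u ζ = m) : ∀ ζ ∈ Q, u ζ = m := by
  set S : Set ℂ := {w | ∀ᶠ ζ in 𝓝 w, u ζ = m} with hS
  have hSopen : IsOpen S := isOpen_setOfPred_eventually_nhds
  have hsub : Q ⊆ S := by
    refine hQc.subset_of_closure_inter_subset hSopen ⟨z, hz, hzm⟩ ?_
    rintro w ⟨hw1, hw2⟩
    obtain ⟨r, hr, F, hF, he⟩ := h w hw2
    obtain ⟨v, hvS, hvr⟩ := Metric.mem_closure_iff.1 hw1 r hr
    have hvb : v ∈ ball w r := by rwa [mem_ball, dist_comm]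
    have hA : AnalyticOnNhd ℂ F (ball w r) := hF.analyticOnNhd isOpen_ball
    have hev : ∀ᶠ ζ in 𝓝 v, (F ζ).re = m := by
      filter_upwards [hvS, isOpen_ball.mem_nhds hvb] with ζ h1 h2
      rw [← he ζ h2, h1]
    have hconst : ∀ᶠ ζ in 𝓝 v, F ζ = F v := by
      rcases (hA v hvb).eventually_constant_or_nhds_le_map_nhds with h1 | h1
      · exact h1
      · exfalso
        have h2 : ∀ᶠ y in 𝓝 (F v), y.re = m := h1 (Filter.mem_map.2 hev)
        have h3 : ∀ᶠ t : ℝ in 𝓝 0, (F v + (t : ℂ)).re = m := by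
          have : Tendsto (fun t : ℝ => F v + (t : ℂ)) (𝓝 0) (𝓝 (F v)) := by
            have hc : Continuous (fun t : ℝ => F v + (t : ℂ)) := by fun_prop
            simpa using hc.tendsto 0
          exact this.eventually h2
        obtain ⟨ε, hε, h4⟩ := Metric.eventually_nhds_iff.1 h3
        have h5 := h4 (y := 0) (by simpa using hε)
        have h6 := h4 (y := ε / 2) (by
          rw [Real.dist_eq, sub_zero, abs_of_pos (half_pos hε)]; linarith)
        simp at h5 h6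
        linarith
    have hall : EqOn F (fun _ => F v) (ball w r) :=
      hA.eqOn_of_preconnected_of_eventuallyEq analyticOnNhd_const
        (convex_ball w r).isPreconnected hvb hconst
    have hFv : (F v).re = m := hev.self_of_nhds
    show ∀ᶠ ζ in 𝓝 w, u ζ = m
    filter_upwards [ball_mem_nhds w hr] with ζ hζ
    rw [he ζ hζ, hall hζ, hFv]
  exact fun ζ hζ => (hsub hζ).self_of_nhds

/-- partial derivatives of functions on `ℂ = ℝ²` and the Laplacian -/
noncomputable def dx (φ : ℂ → ℝ) (z : ℂ) : ℝ := fderiv ℝ φ z 1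
noncomputable def dy (φ : ℂ → ℝ) (z : ℂ) : ℝ := fderiv ℝ φ z I
noncomputable def lap (φ : ℂ → ℝ) (z : ℂ) : ℝ := dx (dx φ) z + dy (dy φ) z

end H6ea4aa
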