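import Pool.Agent.H.MP_6ea4aa_an.Touch
import Pool.Agent.H.MP_6ea4aa_an.Util

/-!
# MP_6ea4aa: the pass between the two types of zeros is high
-/

set_option autoImplicit false

open Complex Set Filter Topology Metric

namespace H6ea4aa

/-- no component of `{G (w, ·) < τ}` meets both `E` and `R` -/
def Sep (G : ℂ × ℂ → ℝ) (E R : Set (ℂ × ℂ)) (w : ℂ) (τ : ℝ) : Prop :=
  ∀ u u' : ℂ, (w, u) ∈ E → (w, u') ∈ R → G (w, u) < τ →
    u' ∉ connectedComponentIn {v | G (w, v) < τ} u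

namespace ThmP

/-- union of the components of `{G (w, ·) < τ}` that meet `X` -/
def QX (G : ℂ × ℂ → ℝ) (X : Set (ℂ × ℂ)) (w : ℂ) (τ : ℝ) : Set ℂ :=
  {u | ∃ e, (w, e) ∈ X ∧ u ∈ connectedComponentIn {v | G (w, v) < τ} e}

theorem slice_cont {G : ℂ × ℂ → ℝ} (hc : ContinuousOn G {q : ℂ × ℂ | 0 < q.1.re})
    {w : ℂ} (hw : 0 < w.re) : Continuous (fun v => G (w, v)) := by
  have hopen : IsOpen {q : ℂ × ℂ | 0 < q.1.re} :=
    isOpen_lt continuous_const (Complex.continuous_re.comp continuous_fst)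
  rw [continuous_iff_continuousAt]
  intro v
  have h1 : ContinuousAt G (w, v) := hc.continuousAt (hopen.mem_nhds hw)
  exact ContinuousAt.comp (f := fun v : ℂ => (w, v)) h1 (by fun_prop)

theorem sub_open {G : ℂ × ℂ → ℝ} (hc : ContinuousOn G {q : ℂ × ℂ | 0 < q.1.re})
    {w : ℂ} (hw : 0 < w.re) (τ : ℝ) : IsOpen {v | G (w, v) < τ} :=
  isOpen_lt (slice_cont hc hw) continuous_const

theorem mem_comp_symm {S : Set ℂ} {e u : ℂ} (h : u ∈ connectedComponentIn S e) :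
    e ∈ connectedComponentIn S u := by
  have he : e ∈ S := by
    by_contra hn
    rw [connectedComponentIn_eq_empty hn] at h
    exact h
  rw [← connectedComponentIn_eq h]
  exact mem_connectedComponentIn he

theorem mem_of_mem_comp {S : Set ℂ} {e u : ℂ} (h : u ∈ connectedComponentIn S e) : e ∈ S := by
  by_contra hn
  rw [connectedComponentIn_eq_empty hn] at h
  exact h

theorem lt_of_mem_comp {G : ℂ × ℂ → ℝ} {w : ℂ} {τ : ℝ} {e u : ℂ}
    (h : u ∈ connectedComponentIn {v | G (w, v) < τ} e) : G (w, u) < τ :=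
  (connectedComponentIn_subset {v | G (w, v) < τ} e) h

theorem QX_open {G : ℂ × ℂ → ℝ} (hc : ContinuousOn G {q : ℂ × ℂ | 0 < q.1.re})
    {w : ℂ} (hw : 0 < w.re) (X : Set (ℂ × ℂ)) (τ : ℝ) : IsOpen (QX G X w τ) := by
  have : QX G X w τ = ⋃ e : ℂ, ⋃ _ : (w, e) ∈ X, connectedComponentIn {v | G (w, v) < τ} e := by
    ext u
    simp [QX]
  rw [this]
  exact isOpen_iUnion fun e => isOpen_iUnion fun _ => (sub_open hc hw τ).connectedComponentIn

theorem QX_sub {G : ℂ × ℂ → ℝ} {X : Set (ℂ × ℂ)} {w : ℂ} {τ : ℝ} :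
    QX G X w τ ⊆ {v | G (w, v) < τ} := by
  rintro u ⟨e, _, hu⟩
  exact connectedComponentIn_subset _ _ hu

theorem QX_disj {G : ℂ × ℂ → ℝ} {E R : Set (ℂ × ℂ)} {w : ℂ} {τ : ℝ} (h : Sep G E R w τ) :
    Disjoint (QX G E w τ) (QX G R w τ) := by
  rw [Set.disjoint_left]
  rintro u ⟨e, he, hue⟩ ⟨r, hr, hur⟩
  refine h e r he hr (mem_of_mem_comp hue) ?_
  have h1 := connectedComponentIn_eq hue
  rw [h1]
  exact mem_comp_symm hur

theorem sep_mono {G : ℂ × ℂ → ℝ} {E R : Set (ℂ × ℂ)} {w : ℂ} {τ τ' : ℝ}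
    (h : Sep G E R w τ) (hτ : τ' ≤ τ) : Sep G E R w τ' := by
  intro u u' hu hu' hlt hmem
  refine h u u' hu hu' (lt_of_lt_of_le hlt hτ) ?_
  exact connectedComponentIn_mono u (fun v hv => lt_of_lt_of_le hv hτ) hmem

/-- the components of sublevel sets meet the zero set -/
theorem QX_cover {G : ℂ × ℂ → ℝ} {E R : Set (ℂ × ℂ)}
    (hc : ContinuousOn G {q : ℂ × ℂ | 0 < q.1.re})
    (h0 : ∀ q : ℂ × ℂ, 0 < q.1.re → 0 ≤ G q)
    (hre : ∀ q : ℂ × ℂ, 0 < q.1.re → 0 < G q → LocRe2 G q)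
    (hzero : ∀ q : ℂ × ℂ, 0 < q.1.re → (G q = 0 ↔ q ∈ E ∪ R))
    (bddC : ∀ w₀ ∈ RHP, ∀ τ M : ℝ, ∃ M' : ℝ, ∃ δ > 0, ball w₀ δ ⊆ RHP ∧
      ∀ w ∈ ball w₀ δ, ∀ u : ℂ, ‖u‖ ≤ M →
        connectedComponentIn {v | G (w, v) < τ} u ⊆ ball 0 M')
    {w : ℂ} (hw : 0 < w.re) {τ : ℝ} {u : ℂ} (hu : G (w, u) < τ) :
    u ∈ QX G E w τ ∪ QX G R w τ := by
  classical
  set S : Set ℂ := {v | G (w, v) < τ} with hS
  have hSo : IsOpen S := sub_open hc hw τ
  set Q : Set ℂ := connectedComponentIn S u with hQ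
  have hQo : IsOpen Q := hSo.connectedComponentIn
  have huQ : u ∈ Q := mem_connectedComponentIn hu
  have hQS : Q ⊆ S := connectedComponentIn_subset _ _
  have hcont := slice_cont hc hw
  by_cases hex : ∃ v ∈ Q, G (w, v) = 0
  · obtain ⟨v, hvQ, hv0⟩ := hex
    rcases (hzero (w, v) hw).1 hv0 with h | h
    · exact Or.inl ⟨v, h, mem_comp_symm hvQ⟩
    · exact Or.inr ⟨v, h, mem_comp_symm hvQ⟩
  · exfalso
    push Not at hex
    obtain ⟨M', δ, hδ, -, hb⟩ := bddC w hw τ ‖u‖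
    have hQb : Bornology.IsBounded Q :=
      Metric.isBounded_ball.subset (hb w (mem_ball_self hδ) u le_rfl)
    have hloc : ∀ ζ ∈ Q, LocRe (fun v => G (w, v)) ζ := by
      intro ζ hζ
      have hpos : 0 < G (w, ζ) := lt_of_le_of_ne (h0 _ hw) (Ne.symm (hex ζ hζ))
      obtain ⟨r, hr, F, hF, hGF⟩ := hre (w, ζ) hw hpos
      have hmaps : ∀ v ∈ ball ζ r, ((w, v) : ℂ × ℂ) ∈ ball (w, ζ) r := by
        intro v hv
        rw [mem_ball, Prod.dist_eq, max_lt_iff]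
        exact ⟨by simpa using hr, hv⟩
      refine ⟨r, hr, fun v => F (w, v), ?_, fun v hv => hGF _ (hmaps v hv)⟩
      exact hF.comp (by fun_prop) hmaps
    have hfr : ∀ ζ ∈ frontier Q, τ ≤ G (w, ζ) := by
      intro ζ hζ
      by_contra hlt
      push Not at hlt
      have hζS : ζ ∈ S := hlt
      have hζQ : ζ ∈ Q := by
        have hclos : ζ ∈ closure Q := frontier_subset_closure hζ
        have hn : connectedComponentIn S ζ ∈ 𝓝 ζ :=
          hSo.connectedComponentIn.mem_nhds (mem_connectedComponentIn hζS)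
        obtain ⟨v, hv1, hv2⟩ := mem_closure_iff_nhds.1 hclos _ hn
        have h1 : connectedComponentIn S ζ = connectedComponentIn S v := connectedComponentIn_eq hv1
        have h2 : Q = connectedComponentIn S v := connectedComponentIn_eq hv2
        rw [h2, ← h1]
        exact mem_connectedComponentIn hζS
      rw [hQo.frontier_eq] at hζ
      exact hζ.2 hζQ
    have := min_principle hQo hQb hcont.continuousOn hloc hfr u huQ
    exact absurd hu (not_lt.2 this)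

/-- separation passes to the limit from below -/
theorem sep_limit {G : ℂ × ℂ → ℝ} {E R : Set (ℂ × ℂ)}
    (hc : ContinuousOn G {q : ℂ × ℂ | 0 < q.1.re}) {w : ℂ} (hw : 0 < w.re) {τ : ℝ}
    (h : ∀ τ' < τ, Sep G E R w τ') : Sep G E R w τ := by
  intro u u' hu hu' hlt hmem
  have hSo : IsOpen {v | G (w, v) < τ} := sub_open hc hw τ
  have hQo : IsOpen (connectedComponentIn {v | G (w, v) < τ} u) := hSo.connectedComponentIn
  have hconn : IsConnected (connectedComponentIn {v | G (w, v) < τ} u) :=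
    isConnected_connectedComponentIn_iff.2 hlt
  have hpath : IsPathConnected (connectedComponentIn {v | G (w, v) < τ} u) :=
    (hQo.isConnected_iff_isPathConnected).1 hconn
  obtain ⟨γ, hγ⟩ := hpath.joinedIn u (mem_connectedComponentIn hlt) u' hmem
  have hcomp : IsCompact (range γ) := isCompact_range γ.continuous
  have hne : (range γ).Nonempty := range_nonempty γ
  obtain ⟨v, hv, hmax⟩ := hcomp.exists_isMaxOn hne (slice_cont hc hw).continuousOn
  have hvlt : G (w, v) < τ := by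
    obtain ⟨t, rfl⟩ := hv
    exact lt_of_mem_comp (hγ t)
  obtain ⟨τ', hτ1, hτ2⟩ := exists_between hvlt
  have hsub : range γ ⊆ {v | G (w, v) < τ'} := fun z hz => lt_of_le_of_lt (hmax hz) hτ1
  have hpre : IsPreconnected (range γ) := isPreconnected_range γ.continuous
  have hu1 : u ∈ range γ := ⟨0, γ.source⟩
  have hu2 : u' ∈ range γ := ⟨1, γ.target⟩
  exact h τ' hτ2 u u' hu hu' (hsub hu1)
    (hpre.subset_connectedComponentIn hu1 hsub hu2)

/-- tube lemma for open sets -/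
theorem tube {W : Set (ℂ × ℂ)} (hW : IsOpen W) {L : Set ℂ} (hL : IsCompact L) {w : ℂ}
    (h : ∀ v ∈ L, (w, v) ∈ W) : ∃ δ > 0, ∀ w' ∈ ball w δ, ∀ v ∈ L, (w', v) ∈ W := by
  obtain ⟨U, V, hU, hV, hwU, hLV, hUV⟩ :=
    generalized_tube_lemma (isCompact_singleton (x := w)) hL hW
      (by rintro ⟨a, v⟩ ⟨ha, hv⟩; rw [mem_singleton_iff] at ha; simp only at ha; subst ha; exact h v hv)
  obtain ⟨δ, hδ, hball⟩ := Metric.isOpen_iff.1 hU w (hwU rfl)
  exact ⟨δ, hδ, fun w' hw' v hv => hUV ⟨hball hw', hLV hv⟩⟩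

theorem sep_open {G : ℂ × ℂ → ℝ} {E R : Set (ℂ × ℂ)}
    (hc : ContinuousOn G {q : ℂ × ℂ | 0 < q.1.re})
    (closedE : ∀ q ∈ closure E, 0 < q.1.re → q ∈ E)
    (closedR : ∀ q ∈ closure R, 0 < q.1.re → q ∈ R)
    (bddE : ∀ w₀ ∈ RHP, ∃ δ > 0, ball w₀ δ ⊆ RHP ∧ ∃ M : ℝ, ∀ w ∈ ball w₀ δ, ∀ u, (w, u) ∈ E →
      ‖u‖ ≤ M)
    (bddC : ∀ w₀ ∈ RHP, ∀ τ M : ℝ, ∃ M' : ℝ, ∃ δ > 0, ball w₀ δ ⊆ RHP ∧
      ∀ w ∈ ball w₀ δ, ∀ u : ℂ, ‖u‖ ≤ M →
        connectedComponentIn {v | G (w, v) < τ} u ⊆ ball 0 M')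
    {w₁ : ℂ} (hw₁ : 0 < w₁.re) {t : ℝ} {O₁ O₂ : Set ℂ} (hO₁ : IsOpen O₁) (hO₂ : IsOpen O₂)
    (hd : Disjoint O₁ O₂) (hK : ∀ v, G (w₁, v) ≤ t → v ∈ O₁ ∪ O₂)
    (hE : ∀ u, (w₁, u) ∈ E → u ∈ O₁) (hR : ∀ u, (w₁, u) ∈ R → u ∈ O₂) :
    ∃ δ > 0, ∃ η > 0, ∀ w ∈ ball w₁ δ, 0 < w.re ∧ Sep G E R w (t + η) := by
  have hopen : IsOpen {q : ℂ × ℂ | 0 < q.1.re} :=
    isOpen_lt continuous_const (Complex.continuous_re.comp continuous_fst)
  obtain ⟨δE, hδE, hsubE, M, hM⟩ := bddE w₁ hw₁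
  obtain ⟨M', δC, hδC, hsubC, hM'⟩ := bddC w₁ hw₁ (t + 1) M
  -- first compact set : where `G > t`
  have hL : IsCompact (closedBall (0 : ℂ) M' \ (O₁ ∪ O₂)) :=
    (isCompact_closedBall 0 M').diff (hO₁.union hO₂)
  obtain ⟨s, hts, hs⟩ : ∃ s, t < s ∧ ∀ v ∈ closedBall (0 : ℂ) M' \ (O₁ ∪ O₂), s < G (w₁, v) := by
    rcases (closedBall (0 : ℂ) M' \ (O₁ ∪ O₂)).eq_empty_or_nonempty with hemp | hne
    · exact ⟨t + 1, by linarith, by rw [hemp]; intro v hv; exact absurd hv (notMem_empty v)⟩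
    · obtain ⟨v, hv, hmin⟩ := hL.exists_isMinOn hne (slice_cont hc hw₁).continuousOn
      have hlt : t < G (w₁, v) := by
        by_contra hle
        exact hv.2 (hK v (not_lt.1 hle))
      obtain ⟨s, hs1, hs2⟩ := exists_between hlt
      exact ⟨s, hs1, fun z hz => lt_of_lt_of_le hs2 (hmin hz)⟩
  have hW1 : IsOpen {q : ℂ × ℂ | q ∈ {q : ℂ × ℂ | 0 < q.1.re} ∧ s < G q} :=
    hc.isOpen_inter_preimage hopen isOpen_Ioi
  obtain ⟨δ1, hδ1, h1⟩ := tube hW1 hL (w := w₁) (fun v hv => ⟨hw₁, hs v hv⟩)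
  -- `E`
  have hW2 : IsOpen (closure E)ᶜ := isClosed_closure.isOpen_compl
  have hL2 : IsCompact (closedBall (0 : ℂ) M \ O₁) := (isCompact_closedBall 0 M).diff hO₁
  obtain ⟨δ2, hδ2, h2⟩ := tube hW2 hL2 (w := w₁) (fun v hv hcl =>
    hv.2 (hE v (closedE _ hcl hw₁)))
  -- `R`
  have hW3 : IsOpen (closure R)ᶜ := isClosed_closure.isOpen_compl
  have hL3 : IsCompact (closedBall (0 : ℂ) M' \ O₂) := (isCompact_closedBall 0 M').diff hO₂
  obtain ⟨δ3, hδ3, h3⟩ := tube hW3 hL3 (w := w₁) (fun v hv hcl =>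
    hv.2 (hR v (closedR _ hcl hw₁)))
  refine ⟨min (min δE δC) (min δ1 (min δ2 δ3)), by positivity, min (s - t) 1, by
    refine lt_min (by linarith) one_pos, ?_⟩
  intro w hw
  have hwE : w ∈ ball w₁ δE := ball_subset_ball (by simp) hw
  have hwC : w ∈ ball w₁ δC := ball_subset_ball (by simp) hw
  have hwa : w ∈ ball w₁ δ1 := ball_subset_ball (by simp) hw
  have hwb : w ∈ ball w₁ δ2 := ball_subset_ball (by simp) hw
  have hwc : w ∈ ball w₁ δ3 := ball_subset_ball (by simp) hw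
  have hwpos : 0 < w.re := hsubE hwE
  refine ⟨hwpos, ?_⟩
  intro u u' hu hu' hlt hmem
  set Q := connectedComponentIn {v | G (w, v) < t + min (s - t) 1} u with hQ
  have hle1 : t + min (s - t) 1 ≤ t + 1 := by linarith [min_le_right (s - t) 1]
  have hle2 : t + min (s - t) 1 ≤ s := by linarith [min_le_left (s - t) 1]
  have huM : ‖u‖ ≤ M := hM w hwE u hu
  have hQball : Q ⊆ ball 0 M' := by
    refine subset_trans ?_ (hM' w hwC u huM)
    exact connectedComponentIn_mono u (fun v hv => lt_of_lt_of_le hv hle1)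
  have hQO : Q ⊆ O₁ ∪ O₂ := by
    intro v hv
    by_contra hn
    have hvL : v ∈ closedBall (0 : ℂ) M' \ (O₁ ∪ O₂) := ⟨ball_subset_closedBall (hQball hv), hn⟩
    have h4 := (h1 w hwa v hvL).2
    have h5 : G (w, v) < t + min (s - t) 1 := lt_of_mem_comp hv
    linarith
  have huO : u ∈ O₁ := by
    by_contra hn
    exact h2 w hwb u ⟨by simpa using huM, hn⟩ (subset_closure hu)
  have huO' : u' ∈ O₂ := by
    by_contra hn
    exact h3 w hwc u' ⟨ball_subset_closedBall (hQball hmem), hn⟩ (subset_closure hu')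
  have hpre : IsPreconnected Q := isPreconnected_connectedComponentIn
  obtain ⟨z, -, hz⟩ := hpre O₁ O₂ hO₁ hO₂ hQO ⟨u, mem_connectedComponentIn hlt, huO⟩
    ⟨u', hmem, huO'⟩
  exact Set.disjoint_left.1 hd hz.1 hz.2

theorem subset_QX {G : ℂ × ℂ → ℝ} {X : Set (ℂ × ℂ)} {w : ℂ} {τ : ℝ} {u : ℂ}
    (hu : (w, u) ∈ X) (h : G (w, u) < τ) : u ∈ QX G X w τ :=
  ⟨u, hu, mem_connectedComponentIn h⟩

/-- openness of the union of components meeting `X` in the total space -/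
theorem open_tot {G : ℂ × ℂ → ℝ} {X : Set (ℂ × ℂ)} {hh : ℂ → ℝ}
    (hc : ContinuousOn G {q : ℂ × ℂ | 0 < q.1.re})
    (hhc : ContinuousOn hh RHP)
    (lscX : ∀ q ∈ X, ∀ ε > 0, ∃ δ > 0, ∀ w ∈ ball q.1 δ, ∃ u ∈ ball q.2 ε, (w, u) ∈ X) :
    IsOpen {q : ℂ × ℂ | 0 < q.1.re ∧ q.2 ∈ QX G X q.1 (hh q.1)} := by
  have hopen : IsOpen {q : ℂ × ℂ | 0 < q.1.re} :=
    isOpen_lt continuous_const (Complex.continuous_re.comp continuous_fst)
  have hWo : IsOpen {q : ℂ × ℂ | q ∈ {q : ℂ × ℂ | 0 < q.1.re} ∧ hh q.1 - G q ∈ Ioi (0 : ℝ)} := by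
    refine ContinuousOn.isOpen_inter_preimage (f := fun q : ℂ × ℂ => hh q.1 - G q) ?_ hopen isOpen_Ioi
    refine ContinuousOn.sub ?_ hc
    exact hhc.comp continuous_fst.continuousOn (fun q hq => hq)
  rw [isOpen_iff_mem_nhds]
  rintro ⟨w', u'⟩ ⟨hw', e, heX, hue⟩
  simp only at hw' heX hue
  have heS : G (w', e) < hh w' := mem_of_mem_comp hue
  have hSo : IsOpen {v | G (w', v) < hh w'} := sub_open hc hw' _
  have hconn : IsConnected (connectedComponentIn {v | G (w', v) < hh w'} e) :=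
    isConnected_connectedComponentIn_iff.2 heS
  have hpath : IsPathConnected (connectedComponentIn {v | G (w', v) < hh w'} e) :=
    (hSo.connectedComponentIn.isConnected_iff_isPathConnected).1 hconn
  obtain ⟨γ, hγ⟩ := hpath.joinedIn e (mem_connectedComponentIn heS) u' hue
  have hcomp : IsCompact ((fun v : ℂ => (w', v)) '' range γ) :=
    (isCompact_range γ.continuous).image (by fun_prop)
  have hsub : ((fun v : ℂ => (w', v)) '' range γ) ⊆
      {q : ℂ × ℂ | q ∈ {q : ℂ × ℂ | 0 < q.1.re} ∧ hh q.1 - G q ∈ Ioi (0 : ℝ)} := by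
    rintro _ ⟨v, ⟨t, rfl⟩, rfl⟩
    refine ⟨hw', ?_⟩
    have : G (w', γ t) < hh w' := lt_of_mem_comp (hγ t)
    simpa using this
  obtain ⟨ε, hε, hthick⟩ := hcomp.exists_thickening_subset_open hWo hsub
  have hthick' : ∀ w ∈ ball w' ε, ∀ v : ℂ, (∃ p ∈ range γ, dist v p < ε) →
      0 < w.re ∧ G (w, v) < hh w := by
    rintro w hw v ⟨p, hp, hvp⟩
    have : ((w, v) : ℂ × ℂ) ∈ Metric.thickening ε ((fun v : ℂ => (w', v)) '' range γ) := by
      rw [Metric.mem_thickening_iff]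
      refine ⟨(w', p), ⟨p, hp, rfl⟩, ?_⟩
      rw [Prod.dist_eq, max_lt_iff]
      exact ⟨hw, hvp⟩
    have h2 := hthick this
    refine ⟨h2.1, ?_⟩
    have h3 : 0 < hh w - G (w, v) := h2.2
    linarith
  obtain ⟨δ, hδ, hlsc⟩ := lscX (w', e) heX ε hε
  have heγ : e ∈ range γ := ⟨0, γ.source⟩
  have huγ : u' ∈ range γ := ⟨1, γ.target⟩
  refine Filter.mem_of_superset (prod_mem_nhds (ball_mem_nhds w' (lt_min hε hδ))
    (ball_mem_nhds u' hε)) ?_
  rintro ⟨w, u⟩ ⟨hw, hu⟩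
  simp only at hw hu
  have hwε : w ∈ ball w' ε := ball_subset_ball (min_le_left _ _) hw
  have hwδ : w ∈ ball w' δ := ball_subset_ball (min_le_right _ _) hw
  obtain ⟨e'', he'', heX''⟩ := hlsc w hwδ
  simp only at he''
  have hB : IsPreconnected (ball e ε ∪ range γ ∪ ball u' ε) := by
    refine IsPreconnected.union u' (Or.inr huγ) (mem_ball_self hε) ?_
      (convex_ball u' ε).isPreconnected
    exact IsPreconnected.union e (mem_ball_self hε) heγ (convex_ball e ε).isPreconnected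
      (isPreconnected_range γ.continuous)
  have hBsub : (ball e ε ∪ range γ ∪ ball u' ε) ⊆ {v | G (w, v) < hh w} := by
    rintro v ((hv | hv) | hv)
    · exact (hthick' w hwε v ⟨e, heγ, hv⟩).2
    · exact (hthick' w hwε v ⟨v, hv, by simpa using hε⟩).2
    · exact (hthick' w hwε v ⟨u', huγ, hv⟩).2
  refine ⟨(hthick' w hwε u ⟨u', huγ, hu⟩).1, e'', heX'', ?_⟩
  exact hB.subset_connectedComponentIn (Or.inl (Or.inl he'')) hBsub (Or.inr hu)

/-- slices of `LocRe2` functions -/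
theorem slice_locRe {G : ℂ × ℂ → ℝ} {w v : ℂ} (h : LocRe2 G (w, v)) :
    LocRe (fun v => G (w, v)) v := by
  obtain ⟨r, hr, F, hF, hGF⟩ := h
  have hmaps : ∀ z ∈ ball v r, ((w, z) : ℂ × ℂ) ∈ ball (w, v) r := by
    intro z hz
    rw [mem_ball, Prod.dist_eq, max_lt_iff]
    exact ⟨by simpa using hr, hz⟩
  exact ⟨r, hr, fun v => F (w, v), hF.comp (by fun_prop) hmaps, fun v hv => hGF _ (hmaps v hv)⟩

/-- positive sublevel sets are closures of strict ones -/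
theorem level_closure {G : ℂ × ℂ → ℝ}
    (hc : ContinuousOn G {q : ℂ × ℂ | 0 < q.1.re})
    (hre : ∀ q : ℂ × ℂ, 0 < q.1.re → 0 < G q → LocRe2 G q)
    {w : ℂ} (hw : 0 < w.re) {t : ℝ} (ht : 0 < t) (hz : ∃ e, G (w, e) = 0) {v : ℂ}
    (hv : G (w, v) ≤ t) : v ∈ closure {v | G (w, v) < t} := by
  by_contra hn
  have hcont := slice_cont hc hw
  have hvt : G (w, v) = t := by
    rcases hv.lt_or_eq with h | h
    · exact absurd (subset_closure (s := {v | G (w, v) < t}) h) hn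
    · exact h
  -- near `v` we have `t ≤ G`
  have hnear : ∀ᶠ z in 𝓝 v, t ≤ G (w, z) := by
    have : (closure {v | G (w, v) < t})ᶜ ∈ 𝓝 v := isClosed_closure.isOpen_compl.mem_nhds hn
    filter_upwards [this] with z hz
    by_contra hlt
    exact hz (subset_closure (not_le.1 hlt))
  set V : Set ℂ := {z | ∀ᶠ z' in 𝓝 z, G (w, z') = t} with hV
  have hVo : IsOpen V := by
    rw [isOpen_iff_mem_nhds]
    intro z hz
    exact eventually_eventually_nhds.2 hz
  -- `LocRe` on a ball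
  have hlocball : ∀ z, G (w, z) = t → ∃ r > 0, ∀ ζ ∈ ball z r, LocRe (fun v => G (w, v)) ζ := by
    intro z hz
    have hev : ∀ᶠ ζ in 𝓝 z, 0 < G (w, ζ) :=
      (hcont.continuousAt.eventually_mem (isOpen_Ioi.mem_nhds (by simpa [hz] using ht)))
    obtain ⟨r, hr, hball⟩ := Metric.eventually_nhds_iff_ball.1 hev
    exact ⟨r, hr, fun ζ hζ => slice_locRe (hre _ hw (hball ζ hζ))⟩
  have hvV : v ∈ V := by
    obtain ⟨r, hr, hloc⟩ := hlocball v hvt
    obtain ⟨r', hr', hball⟩ := Metric.eventually_nhds_iff_ball.1 hnear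
    have hconst := min_strong (u := fun v => G (w, v)) (Q := ball v (min r r')) isOpen_ball
      (convex_ball v _).isPreconnected
      (fun ζ hζ => hloc ζ (ball_subset_ball (min_le_left _ _) hζ))
      (fun ζ hζ => hball ζ (ball_subset_ball (min_le_right _ _) hζ))
      (mem_ball_self (lt_min hr hr')) hvt
    exact Filter.mem_of_superset (ball_mem_nhds v (lt_min hr hr')) hconst
  have hVc : IsClosed V := by
    rw [← closure_subset_iff_isClosed]
    intro z hz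
    have hzt : G (w, z) = t := by
      have hcl : IsClosed {z | G (w, z) = t} := isClosed_eq hcont continuous_const
      have hsub : V ⊆ {z | G (w, z) = t} := fun y hy => Filter.Eventually.self_of_nhds hy
      exact closure_minimal hsub hcl hz
    obtain ⟨r, hr, hloc⟩ := hlocball z hzt
    obtain ⟨y, hy1, hy2⟩ := mem_closure_iff_nhds.1 hz _ (ball_mem_nhds z hr)
    have hconst := locRe_identity (u := fun v => G (w, v)) isOpen_ball
      (convex_ball z r).isPreconnected hloc hy1 hy2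
    exact Filter.mem_of_superset (ball_mem_nhds z hr) hconst
  have hVu : V = univ := IsClopen.eq_univ ⟨hVc, hVo⟩ ⟨v, hvV⟩
  obtain ⟨e, he⟩ := hz
  have heV : e ∈ V := by rw [hVu]; trivial
  have := Filter.Eventually.self_of_nhds heV
  linarith

/-- periodicity of `Sep` -/
theorem sep_per {G : ℂ × ℂ → ℝ} {E R : Set (ℂ × ℂ)}
    (perG : ∀ w u, 0 < w.re → G (w + 4 * Real.pi * I, u) = G (w, u))
    (perE : ∀ w u, 0 < w.re → ((w + 4 * Real.pi * I, u) ∈ E ↔ (w, u) ∈ E))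
    (perR : ∀ w u, 0 < w.re → ((w + 4 * Real.pi * I, u) ∈ R ↔ (w, u) ∈ R))
    {w : ℂ} (hw : 0 < w.re) (τ : ℝ) : Sep G E R (w + 4 * Real.pi * I) τ ↔ Sep G E R w τ := by
  have hset : {v | G (w + 4 * Real.pi * I, v) < τ} = {v | G (w, v) < τ} := by
    ext v
    change G (w + 4 * Real.pi * I, v) < τ ↔ G (w, v) < τ
    rw [perG w v hw]
  constructor
  · intro h u u' hu hu' hlt
    have := h u u' ((perE w u hw).2 hu) ((perR w u' hw).2 hu') (by rw [perG w u hw]; exact hlt)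
    rwa [hset] at this
  · intro h u u' hu hu' hlt
    have := h u u' ((perE w u hw).1 hu) ((perR w u' hw).1 hu') (by rw [← perG w u hw]; exact hlt)
    rwa [hset]

theorem sep_per_int {G : ℂ × ℂ → ℝ} {E R : Set (ℂ × ℂ)}
    (perG : ∀ w u, 0 < w.re → G (w + 4 * Real.pi * I, u) = G (w, u))
    (perE : ∀ w u, 0 < w.re → ((w + 4 * Real.pi * I, u) ∈ E ↔ (w, u) ∈ E))
    (perR : ∀ w u, 0 < w.re → ((w + 4 * Real.pi * I, u) ∈ R ↔ (w, u) ∈ R))
    {w : ℂ} (hw : 0 < w.re) (τ : ℝ) (n : ℤ) :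
    Sep G E R (w + n * (4 * Real.pi * I)) τ ↔ Sep G E R w τ := by
  have hre : ∀ n : ℤ, (w + n * (4 * Real.pi * I)).re = w.re := by
    intro n
    simp
  induction n using Int.induction_on with
  | zero => simp
  | succ k ih =>
    refine Iff.trans ?_ ih
    have := sep_per perG perE perR (w := w + (k : ℤ) * (4 * Real.pi * I)) (by rw [hre]; exact hw) τ
    rw [← this]
    have h2 : w + ((k : ℤ) : ℂ) * (4 * Real.pi * I) + 4 * Real.pi * I
        = w + (((k : ℤ) + 1 : ℤ) : ℂ) * (4 * Real.pi * I) := by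
      push_cast; ring
    rw [h2]
  | pred k ih =>
    refine Iff.trans ?_ ih
    have := sep_per perG perE perR (w := w + ((-(k : ℤ) - 1 : ℤ) : ℂ) * (4 * Real.pi * I))
      (by rw [hre]; exact hw) τ
    rw [← this]
    have h2 : w + ((-(k : ℤ) - 1 : ℤ) : ℂ) * (4 * Real.pi * I) + 4 * Real.pi * I
        = w + ((-(k : ℤ) : ℤ) : ℂ) * (4 * Real.pi * I) := by
      push_cast; ring
    rw [h2]

/-- reduction of the imaginary part to `[0, 4π]` -/
theorem exists_red (w : ℂ) : ∃ n : ℤ, (w + n * (4 * Real.pi * I)).re = w.re ∧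
    (w + n * (4 * Real.pi * I)).im ∈ Icc 0 (4 * Real.pi) := by
  have hpi : 0 < 4 * Real.pi := by positivity
  refine ⟨-⌊w.im / (4 * Real.pi)⌋, by simp, ?_⟩
  have him : (w + ((-⌊w.im / (4 * Real.pi)⌋ : ℤ) : ℂ) * (4 * Real.pi * I)).im
      = w.im - ⌊w.im / (4 * Real.pi)⌋ * (4 * Real.pi) := by
    simp
    ring
  rw [him]
  have h1 := Int.floor_le (w.im / (4 * Real.pi))
  have h2 := Int.lt_floor_add_one (w.im / (4 * Real.pi))
  rw [le_div_iff₀ hpi] at h1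
  rw [div_lt_iff₀ hpi] at h2
  constructor <;> nlinarith

/-- the convexity of `x / 2 + ε / (1 + x)` in complex form -/
theorem taylor {ε : ℝ} (hε : 0 < ε) {w₁ : ℂ} (hw₁ : 0 < w₁.re) {w : ℂ} (hw : ‖w - w₁‖ < w₁.re) :
    (w₁.re / 2 + ε / (1 + w₁.re)) +
      ((((1 / 2 - ε / (1 + w₁.re) ^ 2 : ℝ) : ℂ) * (w - w₁) +
        ((ε / (4 * (1 + w₁.re) ^ 3) : ℝ) : ℂ) * (w - w₁) ^ 2).re) +
      ε / (4 * (1 + w₁.re) ^ 3) * ‖w - w₁‖ ^ 2 ≤ w.re / 2 + ε / (1 + w.re) := by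
  set p := 1 + w₁.re with hp
  have hp1 : 1 < p := by linarith
  set z := w - w₁ with hz
  have hwz : w = w₁ + z := by rw [hz]; ring
  have hs : |z.re| < w₁.re := lt_of_le_of_lt (Complex.abs_re_le_norm z) hw
  rw [abs_lt] at hs
  have hwre : w.re = w₁.re + z.re := by rw [hwz]; simp
  have hnorm : ‖z‖ ^ 2 = z.re ^ 2 + z.im ^ 2 := by
    rw [← Complex.normSq_eq_norm_sq, Complex.normSq_apply]; ring
  have hre2 : (z ^ 2).re = z.re ^ 2 - z.im ^ 2 := by
    rw [pow_two, Complex.mul_re]; ring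
  have hexp : ((((1 / 2 - ε / p ^ 2 : ℝ) : ℂ) * z + ((ε / (4 * p ^ 3) : ℝ) : ℂ) * z ^ 2).re)
      = (1 / 2 - ε / p ^ 2) * z.re + ε / (4 * p ^ 3) * (z.re ^ 2 - z.im ^ 2) := by
    rw [Complex.add_re, Complex.re_ofReal_mul, Complex.re_ofReal_mul, hre2]
  rw [hexp, hnorm, hwre]
  have hps : 1 + (w₁.re + z.re) = p + z.re := by rw [hp]; ring
  rw [hps]
  have hpspos : 0 < p + z.re := by linarith [hs.1]
  have hps2 : p + z.re ≤ 2 * p := by linarith [hs.2]
  have hkey : ε / p - ε / p ^ 2 * z.re + ε / (2 * p ^ 3) * z.re ^ 2 ≤ ε / (p + z.re) := by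
    have hp0 : 0 < p := by linarith
    have h1 : ε / (p + z.re) - (ε / p - ε / p ^ 2 * z.re) = ε * z.re ^ 2 / (p ^ 2 * (p + z.re)) := by
      field_simp
      ring
    have h2 : ε / (2 * p ^ 3) * z.re ^ 2 ≤ ε * z.re ^ 2 / (p ^ 2 * (p + z.re)) := by
      rw [div_mul_eq_mul_div]
      apply div_le_div_of_nonneg_left (by positivity) (by positivity)
      nlinarith [pow_pos hp0 2]
    linarith
  have h3 : ε / (2 * p ^ 3) * z.re ^ 2 = ε / (4 * p ^ 3) * (z.re ^ 2 - z.im ^ 2)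
      + ε / (4 * p ^ 3) * (z.re ^ 2 + z.im ^ 2) := by
    have hp0 : 0 < p := by linarith
    field_simp
    ring
  nlinarith [hkey, h3]

end ThmP

open ThmP in
theorem thmP {G : ℂ × ℂ → ℝ} {E R : Set (ℂ × ℂ)}
    (hc : ContinuousOn G {q : ℂ × ℂ | 0 < q.1.re})
    (h0 : ∀ q : ℂ × ℂ, 0 < q.1.re → 0 ≤ G q)
    (hre : ∀ q : ℂ × ℂ, 0 < q.1.re → 0 < G q → LocRe2 G q)
    (hzero : ∀ q : ℂ × ℂ, 0 < q.1.re → (G q = 0 ↔ q ∈ E ∪ R))
    (subE : ∀ q ∈ E, 0 < q.1.re) (subR : ∀ q ∈ R, 0 < q.1.re)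
    (closedE : ∀ q ∈ closure E, 0 < q.1.re → q ∈ E)
    (closedR : ∀ q ∈ closure R, 0 < q.1.re → q ∈ R)
    (disj : Disjoint E R)
    (lscE : ∀ q ∈ E, ∀ ε > 0, ∃ δ > 0, ∀ w ∈ ball q.1 δ, ∃ u ∈ ball q.2 ε, (w, u) ∈ E)
    (lscR : ∀ q ∈ R, ∀ ε > 0, ∃ δ > 0, ∀ w ∈ ball q.1 δ, ∃ u ∈ ball q.2 ε, (w, u) ∈ R)
    (neE : ∀ w ∈ RHP, ∃ u, (w, u) ∈ E)
    (bddE : ∀ w₀ ∈ RHP, ∃ δ > 0, ball w₀ δ ⊆ RHP ∧ ∃ M : ℝ, ∀ w ∈ ball w₀ δ, ∀ u, (w, u) ∈ E →
      ‖u‖ ≤ M)
    (bddC : ∀ w₀ ∈ RHP, ∀ τ M : ℝ, ∃ M' : ℝ, ∃ δ > 0, ball w₀ δ ⊆ RHP ∧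
      ∀ w ∈ ball w₀ δ, ∀ u : ℂ, ‖u‖ ≤ M →
        connectedComponentIn {v | G (w, v) < τ} u ⊆ ball 0 M')
    (perG : ∀ w u, 0 < w.re → G (w + 4 * Real.pi * I, u) = G (w, u))
    (perE : ∀ w u, 0 < w.re → ((w + 4 * Real.pi * I, u) ∈ E ↔ (w, u) ∈ E))
    (perR : ∀ w u, 0 < w.re → ((w + 4 * Real.pi * I, u) ∈ R ↔ (w, u) ∈ R))
    (hinf : ∀ ε > 0, ∃ S : ℝ, ∀ w : ℂ, S < w.re → Sep G E R w (w.re / 2 - ε)) :
    ∀ w ∈ RHP, Sep G E R w (w.re / 2) := by
  intro w₂ hw₂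
  by_contra hcon
  have hw₂' : 0 < w₂.re := hw₂
  have hGE : ∀ w u, (w, u) ∈ E → G (w, u) = 0 := fun w u h => (hzero _ (subE _ h)).2 (Or.inl h)
  have hGR : ∀ w u, (w, u) ∈ R → G (w, u) = 0 := fun w u h => (hzero _ (subR _ h)).2 (Or.inr h)
  -- separation for nonpositive levels
  have sep_nonpos : ∀ w τ, τ ≤ 0 → Sep G E R w τ := by
    intro w τ hτ u u' hu hu' hlt
    rw [hGE w u hu] at hlt
    linarith
  -- lower semicontinuity
  have hlsc : ∀ w₁, 0 < w₁.re → ∀ τ, Sep G E R w₁ τ → ∀ t < τ, ∃ δ > 0, ∀ w ∈ ball w₁ δ,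
      Sep G E R w t := by
    intro w₁ hw₁ τ hτ t ht
    rcases le_or_gt τ 0 with hτ0 | hτ0
    · exact ⟨1, one_pos, fun w _ => sep_nonpos w t (by linarith)⟩
    · obtain ⟨δ, hδ, η, hη, h⟩ := sep_open hc closedE closedR bddE bddC hw₁ (t := t)
        (QX_open hc hw₁ E τ) (QX_open hc hw₁ R τ) (QX_disj hτ)
        (fun v hv => QX_cover hc h0 hre hzero bddC hw₁ (lt_of_le_of_lt hv ht))
        (fun u hu => subset_QX hu (by rw [hGE _ _ hu]; exact hτ0))
        (fun u hu => subset_QX hu (by rw [hGR _ _ hu]; exact hτ0))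
      exact ⟨δ, hδ, fun w hw => sep_mono (h w hw).2 (by linarith)⟩
  -- the failing level
  obtain ⟨τ', hτ', hfail⟩ : ∃ τ' < w₂.re / 2, ¬ Sep G E R w₂ τ' := by
    by_contra hno
    push Not at hno
    exact hcon (sep_limit hc hw₂ hno)
  obtain ⟨ε, hε, hε'⟩ : ∃ ε > 0, 4 * ε = w₂.re / 2 - τ' := ⟨(w₂.re / 2 - τ') / 4, by linarith, by ring⟩
  set h : ℂ → ℝ := fun w => w.re / 2 + ε / (1 + w.re) with hh
  have hlow : ∀ w : ℂ, 0 < w.re → w.re / 2 < h w := fun w hw => by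
    have : 0 < ε / (1 + w.re) := by positivity
    simp only [hh]; linarith
  have hup : ∀ w : ℂ, 0 < w.re → h w ≤ w.re / 2 + ε := fun w hw => by
    have : ε / (1 + w.re) ≤ ε := by
      rw [div_le_iff₀ (by linarith)]
      nlinarith
    simp only [hh]; linarith
  obtain ⟨S, hS⟩ := hinf ε hε
  -- the optimal shift
  set 𝒥 : Set ℝ := {J | ∀ w : ℂ, 0 < w.re → Sep G E R w (h w + J)} with hJ
  have hJne : 𝒥.Nonempty := by
    refine ⟨min (-2 * ε) (-(|S| / 2 + ε)), ?_⟩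
    intro w hw
    rcases le_or_gt w.re S with hle | hgt
    · refine sep_nonpos w _ ?_
      have h1 := hup w hw
      have h2 := min_le_right (-2 * ε) (-(|S| / 2 + ε))
      have h3 := le_abs_self S
      linarith
    · refine sep_mono (hS w hgt) ?_
      have h1 := hup w hw
      have h2 := min_le_left (-2 * ε) (-(|S| / 2 + ε))
      linarith
  have hJup : ∀ J ∈ 𝒥, J ≤ -4 * ε := by
    intro J hJm
    by_contra hlt
    push Not at hlt
    have h1 := hJm w₂ hw₂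
    refine hfail (sep_mono h1 ?_)
    have := hlow w₂ hw₂
    linarith
  have hJbdd : BddAbove 𝒥 := ⟨-4 * ε, hJup⟩
  set J := sSup 𝒥 with hJs
  have hJle : J ≤ -4 * ε := csSup_le hJne hJup
  have hJmem : ∀ w : ℂ, 0 < w.re → Sep G E R w (h w + J) := by
    intro w hw
    refine sep_limit hc hw ?_
    intro τ hτ
    obtain ⟨J', hJ', hlt⟩ := exists_lt_of_lt_csSup hJne (show τ - h w < sSup 𝒥 by linarith)
    exact sep_mono (hJ' w hw) (by linarith)
  -- points where larger shifts fail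
  have hex : ∀ n : ℕ, ∃ w : ℂ, w ∈ Icc (2 * ε) S ×ℂ Icc 0 (4 * Real.pi) ∧
      ¬ Sep G E R w (h w + (J + min ε (1 / ((n : ℝ) + 1)))) := by
    intro n
    have hpos : 0 < min ε (1 / ((n : ℝ) + 1)) := lt_min hε (by positivity)
    have hnot : J + min ε (1 / ((n : ℝ) + 1)) ∉ 𝒥 := fun hm => by
      have := le_csSup hJbdd hm
      linarith
    simp only [hJ, mem_ofPred_eq, not_forall] at hnot
    obtain ⟨w, hw, hns⟩ := hnot
    have hle : min ε (1 / ((n : ℝ) + 1)) ≤ ε := min_le_left _ _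
    have hu := hup w hw
    have hwS : w.re ≤ S := by
      by_contra hgt
      push Not at hgt
      exact hns (sep_mono (hS w hgt) (by linarith))
    have hwε : 2 * ε ≤ w.re := by
      by_contra hlt
      push Not at hlt
      exact hns (sep_nonpos w _ (by linarith))
    obtain ⟨k, hk1, hk2⟩ := exists_red w
    refine ⟨w + k * (4 * Real.pi * I), ?_, ?_⟩
    · rw [Complex.mem_reProdIm, hk1]
      exact ⟨⟨hwε, hwS⟩, hk2⟩
    · have heq : h (w + k * (4 * Real.pi * I)) = h w := by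
        simp only [hh, hk1]
      rw [heq, sep_per_int perG perE perR hw]
      exact hns
  choose ws hws hwns using hex
  have hcomp : IsCompact (Icc (2 * ε) S ×ℂ Icc 0 (4 * Real.pi)) :=
    isCompact_Icc.reProdIm isCompact_Icc
  obtain ⟨w₁, hw₁mem, φ, hφ, hlim⟩ := hcomp.tendsto_subseq hws
  have hw₁ : 0 < w₁.re := by
    rw [Complex.mem_reProdIm] at hw₁mem
    linarith [hw₁mem.1.1]
  have hcont_h : ContinuousOn h RHP := by
    intro w hw
    have hw' : 0 < w.re := hw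
    have h1 : (1 + w.re) ≠ 0 := by linarith
    refine ContinuousAt.continuousWithinAt ?_
    refine ContinuousAt.add (by fun_prop) ?_
    exact ContinuousAt.div (by fun_prop) (by fun_prop) h1
  have hRHPo : IsOpen RHP := isOpen_lt continuous_const Complex.continuous_re
  have hcw₁ : ContinuousAt h w₁ := hcont_h.continuousAt (hRHPo.mem_nhds hw₁)
  set g₁ := h w₁ + J with hg₁
  -- failure at `w₁`
  have hfail1 : ∀ η > 0, ¬ Sep G E R w₁ (g₁ + η) := by
    intro η hη hsep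
    obtain ⟨δ, hδ, hball⟩ := hlsc w₁ hw₁ _ hsep (g₁ + η / 2) (by linarith)
    have hev1 : ∀ᶠ k in atTop, ws (φ k) ∈ ball w₁ δ := hlim.eventually_mem (ball_mem_nhds w₁ hδ)
    have hev2 : ∀ᶠ k in atTop, h (ws (φ k)) < h w₁ + η / 4 :=
      (hcw₁.tendsto.comp hlim).eventually_lt_const (by linarith)
    have hev3 : ∀ᶠ k : ℕ in atTop, 1 / ((φ k : ℝ) + 1) < η / 4 := by
      have ht : Tendsto (fun k : ℕ => 1 / ((φ k : ℝ) + 1)) atTop (𝓝 0) :=
        (tendsto_one_div_add_atTop_nhds_zero_nat (𝕜 := ℝ)).comp hφ.tendsto_atTop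
      exact ht.eventually_lt_const (by linarith)
    obtain ⟨k, hk1, hk2, hk3⟩ := (hev1.and (hev2.and hev3)).exists
    refine hwns (φ k) (sep_mono (hball _ hk1) ?_)
    have := min_le_right ε (1 / ((φ k : ℝ) + 1))
    linarith
  have hsep1 : Sep G E R w₁ g₁ := hJmem w₁ hw₁
  -- the slices of `E`, `R` are closed
  have hEc : IsClosed {u | (w₁, u) ∈ E} := by
    rw [← closure_subset_iff_isClosed]
    intro u hu
    refine closedE (w₁, u) ?_ hw₁
    have : Continuous (fun v : ℂ => (w₁, v)) := by fun_prop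
    exact closure_mono (image_subset_iff.2 (fun v hv => hv) : (fun v : ℂ => (w₁, v)) ''
      {u | (w₁, u) ∈ E} ⊆ E) (image_closure_subset_closure_image this ⟨u, hu, rfl⟩)
  have hRc : IsClosed {u | (w₁, u) ∈ R} := by
    rw [← closure_subset_iff_isClosed]
    intro u hu
    refine closedR (w₁, u) ?_ hw₁
    have : Continuous (fun v : ℂ => (w₁, v)) := by fun_prop
    exact closure_mono (image_subset_iff.2 (fun v hv => hv) : (fun v : ℂ => (w₁, v)) ''
      {u | (w₁, u) ∈ R} ⊆ R) (image_closure_subset_closure_image this ⟨u, hu, rfl⟩)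
  have hdER : Disjoint {u | (w₁, u) ∈ E} {u | (w₁, u) ∈ R} := by
    rw [Set.disjoint_left]
    intro u hu hu'
    exact Set.disjoint_left.1 disj hu hu'
  -- positivity
  have hg₁pos : 0 < g₁ := by
    obtain ⟨O₁, O₂, hO₁, hO₂, hs1, hs2, hd⟩ := normal_separation hEc hRc hdER
    obtain ⟨δ, hδ, η, hη, hsp⟩ := sep_open hc closedE closedR bddE bddC hw₁ (t := 0) hO₁ hO₂ hd
      (fun v hv => by
        have hv0 : G (w₁, v) = 0 := le_antisymm hv (h0 _ hw₁)
        rcases (hzero (w₁, v) hw₁).1 hv0 with h' | h'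
        · exact Or.inl (hs1 h')
        · exact Or.inr (hs2 h'))
      (fun u hu => hs1 hu) (fun u hu => hs2 hu)
    have hη' := (hsp w₁ (mem_ball_self hδ)).2
    by_contra hle
    push Not at hle
    refine hfail1 (η / 2) (by linarith) (sep_mono hη' (by linarith))
  obtain ⟨e₁, he₁⟩ := neE w₁ hw₁
  have hcont₁ := slice_cont hc hw₁
  -- the two families of components touch
  obtain ⟨u₁, huE, huR⟩ : (closure (QX G E w₁ g₁) ∩ closure (QX G R w₁ g₁)).Nonempty := by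
    by_contra hemp
    rw [not_nonempty_iff_eq_empty, ← disjoint_iff_inter_eq_empty] at hemp
    obtain ⟨O₁, O₂, hO₁, hO₂, hs1, hs2, hd⟩ :=
      normal_separation isClosed_closure isClosed_closure hemp
    obtain ⟨δ, hδ, η, hη, hsp⟩ := sep_open hc closedE closedR bddE bddC hw₁ (t := g₁) hO₁ hO₂ hd
      (fun v hv => by
        have h1 := level_closure hc hre hw₁ hg₁pos ⟨e₁, hGE _ _ he₁⟩ hv
        have h2 : {v | G (w₁, v) < g₁} ⊆ QX G E w₁ g₁ ∪ QX G R w₁ g₁ :=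
          fun z hz => QX_cover hc h0 hre hzero bddC hw₁ hz
        have h3 := closure_mono h2 h1
        rw [closure_union] at h3
        rcases h3 with h3 | h3
        · exact Or.inl (hs1 h3)
        · exact Or.inr (hs2 h3))
      (fun u hu => hs1 (subset_closure (subset_QX hu (by rw [hGE _ _ hu]; exact hg₁pos))))
      (fun u hu => hs2 (subset_closure (subset_QX hu (by rw [hGR _ _ hu]; exact hg₁pos))))
    exact hfail1 η hη (hsp w₁ (mem_ball_self hδ)).2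
  -- the level at the touching point
  have hGu₁ : G (w₁, u₁) = g₁ := by
    have hle : G (w₁, u₁) ≤ g₁ := by
      have hcl : IsClosed {z | G (w₁, z) ≤ g₁} := isClosed_le hcont₁ continuous_const
      have hsub : QX G E w₁ g₁ ⊆ {z | G (w₁, z) ≤ g₁} := fun y hy =>
        le_of_lt (show G (w₁, y) < g₁ from QX_sub hy)
      exact closure_minimal hsub hcl huE
    rcases hle.lt_or_eq with hlt | heq
    · exfalso
      have hdis := QX_disj hsep1
      rcases QX_cover hc h0 hre hzero bddC hw₁ hlt with h' | h'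
      · obtain ⟨y, hy1, hy2⟩ := mem_closure_iff_nhds.1 huR _ ((QX_open hc hw₁ E g₁).mem_nhds h')
        exact Set.disjoint_left.1 hdis hy1 hy2
      · obtain ⟨y, hy1, hy2⟩ := mem_closure_iff_nhds.1 huE _ ((QX_open hc hw₁ R g₁).mem_nhds h')
        exact Set.disjoint_left.1 hdis hy2 hy1
    · exact heq
  obtain ⟨r, hr, F₀, hF₀, hGF₀⟩ := hre (w₁, u₁) hw₁ (by rw [hGu₁]; exact hg₁pos)
  have hF₀₁ : (F₀ (w₁, u₁)).re = g₁ := by
    rw [← hGF₀ _ (mem_ball_self hr), hGu₁]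
  set κ : ℝ := ε / (4 * (1 + w₁.re) ^ 3) with hκdef
  have hκ : 0 < κ := by positivity
  set a : ℝ := 1 / 2 - ε / (1 + w₁.re) ^ 2 with hadef
  set F : ℂ × ℂ → ℂ := fun q => F₀ q - F₀ (w₁, u₁) -
    ((a : ℂ) * (q.1 - w₁) + (κ : ℂ) * (q.1 - w₁) ^ 2) with hF
  have hball : ∀ q ∈ ball ((w₁, u₁) : ℂ × ℂ) (min r w₁.re), q ∈ ball ((w₁, u₁) : ℂ × ℂ) r ∧
      ‖q.1 - w₁‖ < w₁.re ∧ 0 < q.1.re := by
    intro q hq
    have h1 : ‖q.1 - w₁‖ < w₁.re := by
      rw [mem_ball, Prod.dist_eq, max_lt_iff] at hq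
      rw [← dist_eq_norm]
      exact lt_of_lt_of_le hq.1 (min_le_right _ _)
    refine ⟨ball_subset_ball (min_le_left _ _) hq, h1, ?_⟩
    have h2 := lt_of_le_of_lt (Complex.abs_re_le_norm (q.1 - w₁)) h1
    rw [Complex.sub_re, abs_lt] at h2
    linarith [h2.1]
  refine touching (F := F) (w₀ := w₁) (u₀ := u₁) (r := min r w₁.re) (κ := κ) (lt_min hr hw₁) hκ
    ?_ ?_ (A := {q : ℂ × ℂ | 0 < q.1.re ∧ q.2 ∈ QX G E q.1 ((fun w => h w + J) q.1)})
    (B := {q : ℂ × ℂ | 0 < q.1.re ∧ q.2 ∈ QX G R q.1 ((fun w => h w + J) q.1)})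
    (open_tot hc (hcont_h.add continuousOn_const) lscE)
    (open_tot hc (hcont_h.add continuousOn_const) lscR) ?_ ?_ ?_ ?_
  · -- differentiability
    have h1 : DifferentiableOn ℂ F₀ (ball (w₁, u₁) (min r w₁.re)) :=
      hF₀.mono (ball_subset_ball (min_le_left _ _))
    refine (h1.sub_const _).sub ?_
    fun_prop
  · simp [hF]
  · rw [Set.disjoint_left]
    rintro q ⟨hq, hq1⟩ ⟨-, hq2⟩
    exact Set.disjoint_left.1 (QX_disj (hJmem q.1 hq)) hq1 hq2
  · intro q hq hlt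
    obtain ⟨hqr, hqn, hqpos⟩ := hball q hq
    have h1 : G q < h q.1 + J := by
      rw [hGF₀ q hqr]
      have ht := taylor hε hw₁ hqn
      rw [← hκdef, ← hadef] at ht
      have h2 : (F q).re = (F₀ q).re - (F₀ (w₁, u₁)).re -
        ((a : ℂ) * (q.1 - w₁) + (κ : ℂ) * (q.1 - w₁) ^ 2).re := by
        simp only [hF, Complex.sub_re]
      rw [h2, hF₀₁] at hlt
      simp only [hh] at hg₁ ⊢
      linarith
    rcases QX_cover hc h0 hre hzero bddC hqpos (u := q.2) h1 with h' | h'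
    · exact Or.inl ⟨hqpos, h'⟩
    · exact Or.inr ⟨hqpos, h'⟩
  · intro ε' hε'
    obtain ⟨y, hy1, hy2⟩ := mem_closure_iff_nhds.1 huE _ (ball_mem_nhds u₁ (lt_min hε' hr))
    refine ⟨y, ball_subset_ball (min_le_left _ _) hy1, ⟨hw₁, hy2⟩, ?_⟩
    have hyr : ((w₁, y) : ℂ × ℂ) ∈ ball ((w₁, u₁) : ℂ × ℂ) r := by
      rw [mem_ball, Prod.dist_eq, max_lt_iff]
      exact ⟨by simpa using hr, ball_subset_ball (min_le_right _ _) hy1⟩
    have h2 : G (w₁, y) < g₁ := QX_sub hy2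
    have h3 := hGF₀ _ hyr
    simp only [hF, sub_self, mul_zero, ne_eq, OfNat.ofNat_ne_zero, not_false_eq_true, zero_pow,
      add_zero, sub_zero, Complex.sub_re]
    rw [← h3, hF₀₁]
    linarith
  · intro ε' hε'
    obtain ⟨y, hy1, hy2⟩ := mem_closure_iff_nhds.1 huR _ (ball_mem_nhds u₁ (lt_min hε' hr))
    refine ⟨y, ball_subset_ball (min_le_left _ _) hy1, ⟨hw₁, hy2⟩, ?_⟩
    have hyr : ((w₁, y) : ℂ × ℂ) ∈ ball ((w₁, u₁) : ℂ × ℂ) r := by
      rw [mem_ball, Prod.dist_eq, max_lt_iff]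
      exact ⟨by simpa using hr, ball_subset_ball (min_le_right _ _) hy1⟩
    have h2 : G (w₁, y) < g₁ := QX_sub hy2
    have h3 := hGF₀ _ hyr
    simp only [hF, sub_self, mul_zero, ne_eq, OfNat.ofNat_ne_zero, not_false_eq_true, zero_pow,
      add_zero, sub_zero, Complex.sub_re]
    rw [← h3, hF₀₁]
    linarith

end H6ea4aa
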