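import Pool.Agent.H.MP_6ea4aa_an.Util2

/-!
# MP_6ea4aa: Rado's theorem
-/

set_option autoImplicit false

open Complex Set Filter Topology Metric MeasureTheory

namespace H6ea4aa

/-- harmonic extension of a continuous function on a circle, with the uniform comparison -/
theorem rado_ext {u : ℂ → ℝ} {z : ℂ} {r : ℝ} (hr : 0 < r) (hc : ContinuousOn u (sphere z r)) :
    ∃ U : ℂ → ℝ, (∀ w ∈ ball z r, LocRe U w) ∧ ∀ (v : ℂ → ℝ) (η : ℝ), (∀ ζ, LocRe v ζ) →
      (∀ ζ ∈ sphere z r, |u ζ - v ζ| ≤ η) → ∀ ζ ∈ closedBall z r, |U ζ - v ζ| ≤ η := by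
  have happ : ∀ n : ℕ, ∃ h : ℂ → ℝ, (∀ ζ, LocRe h ζ) ∧ Continuous h ∧
      ∀ ζ ∈ sphere z r, |u ζ - h ζ| ≤ 1 / ((n : ℝ) + 1) := fun n =>
    util2_approx' hr hc (by positivity)
  choose h hh hhc hhu using happ
  have hcomp : ∀ (v w : ℂ → ℝ) (η : ℝ), (∀ ζ, LocRe v ζ) → (∀ ζ, LocRe w ζ) →
      (∀ ζ ∈ sphere z r, v ζ - w ζ ≤ η) → ∀ ζ ∈ closedBall z r, v ζ - w ζ ≤ η := by
    intro v w η hv hw hs ζ hζ
    rcases eq_or_lt_of_le (mem_closedBall.1 hζ) with h1 | h1
    · exact hs ζ h1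
    · refine max_principle (u := fun ζ => v ζ - w ζ) isOpen_ball isBounded_ball ?_ ?_ ?_ ζ h1
      · intro x _
        exact (Util_continuousAt (Util_locRe_sub (hv x) (hw x))).continuousWithinAt
      · intro x _
        exact Util_locRe_sub (hv x) (hw x)
      · rw [frontier_ball _ hr.ne']
        exact hs
  have hcomp' : ∀ (v w : ℂ → ℝ) (η : ℝ), (∀ ζ, LocRe v ζ) → (∀ ζ, LocRe w ζ) →
      (∀ ζ ∈ sphere z r, |v ζ - w ζ| ≤ η) → ∀ ζ ∈ closedBall z r, |v ζ - w ζ| ≤ η := by
    intro v w η hv hw hs ζ hζ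
    rw [abs_le]
    constructor
    · have := hcomp w v η hw hv (fun x hx => by
        have := (abs_le.1 (hs x hx)).1
        linarith) ζ hζ
      linarith
    · exact hcomp v w η hv hw (fun x hx => (abs_le.1 (hs x hx)).2) ζ hζ
  have hcau : ∀ n m : ℕ, ∀ ζ ∈ closedBall z r,
      |h n ζ - h m ζ| ≤ 1 / ((n : ℝ) + 1) + 1 / ((m : ℝ) + 1) := by
    intro n m
    refine hcomp' (h n) (h m) _ (hh n) (hh m) ?_
    intro ζ hζ
    have h1 := hhu n ζ hζ
    have h2 := hhu m ζ hζ
    rw [abs_sub_comm] at h1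
    calc |h n ζ - h m ζ| = |(h n ζ - u ζ) + (u ζ - h m ζ)| := by congr 1; ring
      _ ≤ |h n ζ - u ζ| + |u ζ - h m ζ| := abs_add_le _ _
      _ ≤ _ := add_le_add h1 h2
  have ht0 : Tendsto (fun n : ℕ => 1 / ((n : ℝ) + 1)) atTop (𝓝 0) :=
    tendsto_one_div_add_atTop_nhds_zero_nat
  have hlim : ∀ ζ ∈ closedBall z r,
      Tendsto (fun n => h n ζ) atTop (𝓝 (limUnder atTop (fun n => h n ζ))) := by
    intro ζ hζ
    apply CauchySeq.tendsto_limUnder
    refine cauchySeq_of_le_tendsto_0' (fun n : ℕ => 2 * (1 / ((n : ℝ) + 1))) ?_ ?_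
    · intro n m hnm
      rw [Real.dist_eq]
      refine (hcau n m ζ hζ).trans ?_
      have : 1 / ((m : ℝ) + 1) ≤ 1 / ((n : ℝ) + 1) := by
        apply one_div_le_one_div_of_le (by positivity)
        have : (n : ℝ) ≤ m := by exact_mod_cast hnm
        linarith
      linarith
    · simpa using ht0.const_mul 2
  set U : ℂ → ℝ := fun ζ => limUnder atTop (fun n => h n ζ) with hU
  have hUn : ∀ n : ℕ, ∀ ζ ∈ closedBall z r, |U ζ - h n ζ| ≤ 1 / ((n : ℝ) + 1) := by
    intro n ζ hζ
    have h1 : Tendsto (fun m => |h m ζ - h n ζ|) atTop (𝓝 |U ζ - h n ζ|) :=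
      ((hlim ζ hζ).sub_const _).abs
    have h2 : Tendsto (fun m : ℕ => 1 / ((m : ℝ) + 1) + 1 / ((n : ℝ) + 1)) atTop
        (𝓝 (0 + 1 / ((n : ℝ) + 1))) := ht0.add_const _
    rw [zero_add] at h2
    exact le_of_tendsto_of_tendsto' h1 h2 (fun m => hcau m n ζ hζ)
  have hUc : ContinuousOn U (closedBall z r) := by
    have h1 : TendstoUniformlyOn h U atTop (closedBall z r) := by
      rw [Metric.tendstoUniformlyOn_iff]
      intro ε hε
      filter_upwards [(tendsto_order.1 ht0).2 ε hε] with n hn ζ hζ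
      rw [Real.dist_eq]
      exact (hUn n ζ hζ).trans_lt hn
    exact h1.continuousOn (Frequently.of_forall fun n => (hhc n).continuousOn)
  refine ⟨U, ?_, ?_⟩
  · refine util2_limit hr hUc (fun η hη => ?_)
    obtain ⟨n, hn⟩ := ((tendsto_order.1 ht0).2 η hη).exists
    exact ⟨h n, fun ζ _ => hh n ζ, fun ζ hζ => (hUn n ζ hζ).trans hn.le⟩
  · intro v η hv hs ζ hζ
    have h1 : Tendsto (fun m => |h m ζ - v ζ|) atTop (𝓝 |U ζ - v ζ|) :=
      ((hlim ζ hζ).sub_const _).abs
    have h2 : Tendsto (fun m : ℕ => 1 / ((m : ℝ) + 1) + η) atTop (𝓝 (0 + η)) := ht0.add_const _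
    rw [zero_add] at h2
    refine le_of_tendsto_of_tendsto' h1 h2 (fun m => ?_)
    refine hcomp' (h m) v _ (hh m) hv ?_ ζ hζ
    intro x hx
    have h3 := hhu m x hx
    rw [abs_sub_comm] at h3
    calc |h m x - v x| = |(h m x - u x) + (u x - v x)| := by congr 1; ring
      _ ≤ |h m x - u x| + |u x - v x| := abs_add_le _ _
      _ ≤ _ := add_le_add h3 (hs x hx)

/-- the basic estimate: the zero set of `H` is invisible for the maximum principle -/
theorem rado_max {H g : ℂ → ℂ} {a : ℂ} {s M : ℝ} (hs : 0 < s)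
    (hHc : ContinuousOn H (closedBall a s))
    (hHd : ∀ w ∈ ball a s, H w ≠ 0 → DifferentiableAt ℂ H w)
    (hg : ContinuousOn g (closedBall a s))
    (hgd : ∀ w ∈ ball a s, H w ≠ 0 → DifferentiableAt ℂ g w) (hM : 0 < M)
    (hgM : ∀ w ∈ sphere a s, ‖g w‖ ≤ M) : ∀ w ∈ ball a s, H w ≠ 0 → ‖g w‖ ≤ M := by
  intro w hw hw0
  obtain ⟨C, hC⟩ := (isCompact_closedBall a s).exists_bound_of_continuousOn hHc
  have hC0 : 0 ≤ C := (norm_nonneg _).trans (hC a (mem_closedBall_self hs.le))
  set U : Set ℂ := ball a s ∩ H ⁻¹' {0}ᶜ with hU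
  have hUo : IsOpen U :=
    (hHc.mono ball_subset_closedBall).isOpen_inter_preimage isOpen_ball isOpen_compl_singleton
  have hUcl : closure U ⊆ closedBall a s :=
    closure_minimal (inter_subset_left.trans ball_subset_closedBall) isClosed_closedBall
  have hUb : Bornology.IsBounded U := isBounded_ball.subset inter_subset_left
  have key : ∀ n : ℕ, ‖g w‖ ^ n * ‖H w‖ ≤ M ^ n * C := by
    intro n
    have hd : DiffContOnCl ℂ (fun w => g w ^ n * H w) U := by
      refine ⟨fun x hx => ?_, ?_⟩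
      · exact (((hgd x hx.1 hx.2).pow n).mul (hHd x hx.1 hx.2)).differentiableWithinAt
      · exact ((hg.mono hUcl).pow n).mul (hHc.mono hUcl)
    have := norm_le_of_forall_mem_frontier_norm_le hUb hd (C := M ^ n * C) ?_
      (subset_closure (⟨hw, hw0⟩ : w ∈ U))
    · simpa only [norm_mul, norm_pow] using this
    · intro x hx
      rw [hUo.frontier_eq] at hx
      have hxc := hUcl hx.1
      rw [norm_mul, norm_pow]
      rcases eq_or_lt_of_le (mem_closedBall.1 hxc) with h1 | h1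
      · exact mul_le_mul (pow_le_pow_left₀ (norm_nonneg _) (hgM x h1) n) (hC x hxc)
          (norm_nonneg _) (by positivity)
      · have h2 : H x = 0 := by
          by_contra h0
          exact hx.2 ⟨h1, h0⟩
        rw [h2, norm_zero, mul_zero]
        positivity
  by_contra hlt
  rw [not_le] at hlt
  have h1 : 1 < ‖g w‖ / M := (one_lt_div hM).2 hlt
  obtain ⟨n, hn⟩ := pow_unbounded_of_one_lt (C / ‖H w‖) h1
  have hHw : 0 < ‖H w‖ := norm_pos_iff.2 hw0
  rw [div_pow, div_lt_div_iff₀ hHw (by positivity)] at hn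
  have := key n
  linarith

theorem rado_re {H : ℂ → ℂ} {a : ℂ} {s : ℝ} (hs : 0 < s)
    (hHc : ContinuousOn H (closedBall a s))
    (hHd : ∀ w ∈ ball a s, H w ≠ 0 → DifferentiableAt ℂ H w) :
    ∃ F : ℂ → ℂ, DifferentiableOn ℂ F (ball a s) ∧
      ∀ w ∈ ball a s, H w ≠ 0 → (H w).re = (F w).re := by
  have huc : ContinuousOn (fun w => (H w).re) (sphere a s) :=
    Complex.continuous_re.comp_continuousOn (hHc.mono sphere_subset_closedBall)
  obtain ⟨U, hU, hUv⟩ := rado_ext hs huc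
  obtain ⟨F, hF, hFU⟩ := locRe_ball hU
  refine ⟨F, hF, fun w hw hw0 => ?_⟩
  rw [← hFU w hw]
  refine eq_of_forall_dist_le (fun ε hε => ?_)
  obtain ⟨h, hh, hhc, hhu⟩ := util2_approx' hs huc (half_pos hε)
  have h1 := hUv h _ hh hhu w (ball_subset_closedBall hw)
  obtain ⟨G, hG, hGh⟩ := locRe_ball (u := h) (z := a) (R := s + 1) (fun ζ _ => hh ζ)
  have hsub : closedBall a s ⊆ ball a (s + 1) := closedBall_subset_ball (by linarith)
  have hGc : ContinuousOn G (closedBall a s) := hG.continuousOn.mono hsub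
  have hGd : ∀ w ∈ ball a s, DifferentiableAt ℂ G w := fun w hw =>
    (hG w (hsub (ball_subset_closedBall hw))).differentiableAt
      (isOpen_ball.mem_nhds (hsub (ball_subset_closedBall hw)))
  have h2 : (H w).re - h w ≤ ε / 2 := by
    have := rado_max (g := fun w => exp (H w - G w)) (M := Real.exp (ε / 2)) hs hHc hHd
      (hHc.sub hGc).cexp (fun w hw hw0 => ((hHd w hw hw0).sub (hGd w hw)).cexp)
      (Real.exp_pos _) (fun x hx => by
        rw [Complex.norm_exp, Complex.sub_re, ← hGh x (hsub (sphere_subset_closedBall hx))]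
        exact Real.exp_le_exp.2 ((le_abs_self _).trans (hhu x hx))) w hw hw0
    rw [Complex.norm_exp, Complex.sub_re, ← hGh w (hsub (ball_subset_closedBall hw))] at this
    exact Real.exp_le_exp.1 this
  have h3 : h w - (H w).re ≤ ε / 2 := by
    have := rado_max (g := fun w => exp (G w - H w)) (M := Real.exp (ε / 2)) hs hHc hHd
      (hGc.sub hHc).cexp (fun w hw hw0 => ((hGd w hw).sub (hHd w hw hw0)).cexp)
      (Real.exp_pos _) (fun x hx => by
        rw [Complex.norm_exp, Complex.sub_re, ← hGh x (hsub (sphere_subset_closedBall hx))]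
        have := hhu x hx
        rw [abs_sub_comm] at this
        exact Real.exp_le_exp.2 ((le_abs_self _).trans this)) w hw hw0
    rw [Complex.norm_exp, Complex.sub_re, ← hGh w (hsub (ball_subset_closedBall hw))] at this
    exact Real.exp_le_exp.1 this
  rw [Real.dist_eq, abs_le]
  have h4 := abs_le.1 h1
  constructor <;> linarith [h4.1, h4.2]

/-- the holomorphic function that agrees with `H` off the zeros of `H` -/
theorem rado_ext_hol {H : ℂ → ℂ} {a : ℂ} {s : ℝ} (hs : 0 < s)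
    (hHc : ContinuousOn H (closedBall a s))
    (hHd : ∀ w ∈ ball a s, H w ≠ 0 → DifferentiableAt ℂ H w) {w₁ : ℂ} (hw₁ : w₁ ∈ ball a s)
    (hH₁ : H w₁ ≠ 0) :
    ∃ F : ℂ → ℂ, DifferentiableOn ℂ F (ball a s) ∧
      ∀ w ∈ ball a s, H w ≠ 0 → H w = F w := by
  obtain ⟨F₁, hF₁, h1⟩ := rado_re hs hHc hHd
  obtain ⟨F₂, hF₂, h2⟩ := rado_re (H := fun w => -I * H w) hs (continuousOn_const.mul hHc)
    (fun w hw hw0 => (hHd w hw (by
      intro h0
      apply hw0
      simp only [h0, mul_zero])).const_mul _)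
  have h2' : ∀ w ∈ ball a s, H w ≠ 0 → (H w).im = (F₂ w).re := by
    intro w hw hw0
    have := h2 w hw (mul_ne_zero (neg_ne_zero.2 I_ne_zero) hw0)
    simpa using this
  set U : Set ℂ := ball a s ∩ H ⁻¹' {0}ᶜ with hU
  have hUo : IsOpen U :=
    (hHc.mono ball_subset_closedBall).isOpen_inter_preimage isOpen_ball isOpen_compl_singleton
  obtain ⟨ρ, hρ, hρU⟩ := Metric.isOpen_iff.1 hUo w₁ ⟨hw₁, hH₁⟩
  have hHρ : DifferentiableOn ℂ H (ball w₁ ρ) := fun x hx =>
    (hHd x (hρU hx).1 (hρU hx).2).differentiableWithinAt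
  have hsubρ : ball w₁ ρ ⊆ ball a s := fun x hx => (hρU hx).1
  have hcon : IsConnected (ball w₁ ρ) := (convex_ball w₁ ρ).isConnected ⟨w₁, mem_ball_self hρ⟩
  obtain ⟨c₁, hc₁⟩ := AnalyticOnNhd.eq_const_of_re_eq_const (f := fun w => H w - F₁ w) (c₀ := 0)
    ((hHρ.sub (hF₁.mono hsubρ)).analyticOnNhd isOpen_ball) (fun x hx => by
      rw [Complex.sub_re, h1 x (hρU hx).1 (hρU hx).2, sub_self]) isOpen_ball hcon
  obtain ⟨c₂, hc₂⟩ := AnalyticOnNhd.eq_const_of_re_eq_const (f := fun w => -I * H w - F₂ w)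
    (c₀ := 0) (((hHρ.const_mul _).sub (hF₂.mono hsubρ)).analyticOnNhd isOpen_ball) (fun x hx => by
      rw [Complex.sub_re, ← h2' x (hρU hx).1 (hρU hx).2]
      simp) isOpen_ball hcon
  have hD : EqOn (fun w => F₂ w + I * F₁ w) (fun _ => -c₂ - I * c₁) (ball a s) := by
    refine AnalyticOnNhd.eqOn_of_preconnected_of_eventuallyEq (z₀ := w₁)
      ((hF₂.add (hF₁.const_mul _)).analyticOnNhd isOpen_ball)
      (analyticOnNhd_const) (convex_ball a s).isPreconnected hw₁ ?_
    filter_upwards [ball_mem_nhds w₁ hρ] with x hx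
    have e1 : H x - F₁ x = c₁ := hc₁ x hx
    have e2 : -I * H x - F₂ x = c₂ := hc₂ x hx
    show F₂ x + I * F₁ x = -c₂ - I * c₁
    linear_combination -e2 - I * e1
  refine ⟨fun w => F₁ w + I * ((-c₂ - I * c₁).re : ℝ), hF₁.add_const _, ?_⟩
  intro w hw hw0
  have e1 := h1 w hw hw0
  have e2 := h2' w hw hw0
  have e3 := congrArg Complex.re (hD hw)
  simp only [Complex.add_re, Complex.mul_re, Complex.I_re, Complex.I_im] at e3
  apply Complex.ext
  · rw [e1]
    simp
  · rw [e2, Complex.add_im]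
    simp only [Complex.mul_im, Complex.I_re, Complex.I_im, Complex.ofReal_re, Complex.ofReal_im,
      Complex.mul_re, Complex.sub_re, Complex.neg_re] at e3 ⊢
    linarith

/-- a punctured disc is preconnected -/
theorem rado_punctured (z : ℂ) (δ : ℝ) : IsPreconnected (ball z δ \ {z}) := by
  have h1 : ball z δ \ {z} = (fun p : ℝ × ℝ => z + p.1 * exp (p.2 * I)) '' (Ioo 0 δ ×ˢ univ) := by
    ext w
    constructor
    · rintro ⟨hw, hwz⟩
      refine ⟨(‖w - z‖, arg (w - z)), ⟨⟨?_, ?_⟩, trivial⟩, ?_⟩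
      · exact norm_pos_iff.2 (sub_ne_zero.2 hwz)
      · rw [mem_ball, dist_eq_norm] at hw
        exact hw
      · simp only [Complex.norm_mul_exp_arg_mul_I]
        ring
    · rintro ⟨⟨ρ, θ⟩, ⟨⟨h0, h1⟩, -⟩, rfl⟩
      simp only at h0 h1 ⊢
      have h2 : ‖(ρ : ℂ) * exp (θ * I)‖ = ρ := by
        rw [norm_mul, Complex.norm_exp_ofReal_mul_I, mul_one, Complex.norm_real,
          Real.norm_eq_abs, abs_of_pos h0]
      refine ⟨?_, ?_⟩
      · rw [mem_ball, dist_eq_norm, add_sub_cancel_left, h2]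
        exact h1
      · intro h3
        rw [mem_singleton_iff, add_eq_left] at h3
        rw [h3, norm_zero] at h2
        linarith
  rw [h1]
  refine IsPreconnected.image ?_ _ (by fun_prop)
  exact isPreconnected_Ioo.prod isPreconnected_univ

theorem rado_closed {H : ℂ → ℂ} {a : ℂ} {s : ℝ} (hs : 0 < s)
    (hHc : ContinuousOn H (closedBall a s))
    (hHd : ∀ w ∈ ball a s, H w ≠ 0 → DifferentiableAt ℂ H w) :
    DifferentiableOn ℂ H (ball a s) := by
  by_cases hne : ∃ w₁ ∈ ball a s, H w₁ ≠ 0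
  swap
  · push Not at hne
    exact (differentiableOn_const (0 : ℂ)).congr hne
  obtain ⟨w₁, hw₁, hH₁⟩ := hne
  obtain ⟨F, hF, hFH⟩ := rado_ext_hol hs hHc hHd hw₁ hH₁
  have hHcb : ContinuousOn H (ball a s) := hHc.mono ball_subset_closedBall
  set U : Set ℂ := ball a s ∩ H ⁻¹' {0}ᶜ with hU
  have hUo : IsOpen U := hHcb.isOpen_inter_preimage isOpen_ball isOpen_compl_singleton
  -- on the closure
  have hcl : ∀ w ∈ ball a s, w ∈ closure U → H w = F w := by
    intro w hw hwc
    have hne : (𝓝[U] w).NeBot := mem_closure_iff_nhdsWithin_neBot.1 hwc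
    have t1 : Tendsto H (𝓝[U] w) (𝓝 (H w)) :=
      (hHcb.continuousAt (isOpen_ball.mem_nhds hw)).tendsto.mono_left nhdsWithin_le_nhds
    have t2 : Tendsto F (𝓝[U] w) (𝓝 (F w)) :=
      (hF.continuousOn.continuousAt (isOpen_ball.mem_nhds hw)).tendsto.mono_left
        nhdsWithin_le_nhds
    refine tendsto_nhds_unique_of_eventuallyEq t1 t2 ?_
    filter_upwards [self_mem_nhdsWithin] with x hx
    exact hFH x hx.1 hx.2
  have hFan : AnalyticOnNhd ℂ F (ball a s) := hF.analyticOnNhd isOpen_ball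
  -- the closure of `U` is relatively open
  have hopen : ∀ w ∈ ball a s, w ∈ closure U → ∀ᶠ x in 𝓝 w, x ∈ closure U := by
    intro w hw hwc
    by_cases hwU : w ∈ U
    · filter_upwards [hUo.mem_nhds hwU] with x hx
      exact subset_closure hx
    have hHw : H w = 0 := by
      by_contra h0
      exact hwU ⟨hw, h0⟩
    rcases (hFan w hw).eventually_eq_zero_or_eventually_ne_zero with h0 | h0
    · exfalso
      have h1 := hFan.eqOn_zero_of_preconnected_of_eventuallyEq_zero
        (convex_ball a s).isPreconnected hw h0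
      exact hH₁ ((hFH w₁ hw₁ hH₁).trans (h1 hw₁))
    · rw [eventually_nhdsWithin_iff, Metric.eventually_nhds_iff_ball] at h0
      obtain ⟨δ₁, hδ₁, h0⟩ := h0
      obtain ⟨δ₂, hδ₂, hb⟩ := Metric.isOpen_iff.1 isOpen_ball w hw
      set δ := min δ₁ δ₂ with hδ
      have hδ0 : 0 < δ := lt_min hδ₁ hδ₂
      have hPb : ∀ x ∈ ball w δ \ {w}, x ∈ ball a s := fun x hx =>
        hb (ball_subset_ball (min_le_right _ _) hx.1)
      have hPF : ∀ x ∈ ball w δ \ {w}, F x ≠ 0 := fun x hx =>
        h0 x (ball_subset_ball (min_le_left _ _) hx.1) hx.2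
      have hPU : ∀ x ∈ ball w δ \ {w}, x ∈ closure U → x ∈ U := fun x hx hxc =>
        ⟨hPb x hx, by
          intro h2
          have h2' : H x = 0 := h2
          exact hPF x hx ((hcl x (hPb x hx) hxc).symm.trans h2')⟩
      have hsubU : ball w δ \ {w} ⊆ U := by
        refine IsPreconnected.subset_left_of_subset_union hUo
          (isClosed_closure (s := U)).isOpen_compl ?_ ?_ ?_ (rado_punctured w δ)
        · rw [disjoint_compl_right_iff_subset]
          exact subset_closure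
        · intro x hx
          by_cases hxc : x ∈ closure U
          · exact Or.inl (hPU x hx hxc)
          · exact Or.inr hxc
        · obtain ⟨x, hx, hxU⟩ := mem_closure_iff.1 hwc (ball w δ) isOpen_ball (mem_ball_self hδ0)
          refine ⟨x, ⟨hx, ?_⟩, hxU⟩
          intro hxw
          rw [mem_singleton_iff] at hxw
          exact hwU (hxw ▸ hxU)
      filter_upwards [ball_mem_nhds w hδ0] with x hx
      by_cases hxw : x = w
      · rw [hxw]; exact hwc
      · exact subset_closure (hsubU ⟨hx, hxw⟩)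
  have hall : ball a s ⊆ closure U := by
    have hV : IsOpen (interior (closure U)) := isOpen_interior
    refine (IsPreconnected.subset_left_of_subset_union hV
      (isClosed_closure (s := U)).isOpen_compl ?_ ?_ ?_
      (convex_ball a s).isPreconnected).trans interior_subset
    · rw [disjoint_compl_right_iff_subset]
      exact interior_subset
    · intro x hx
      by_cases hxc : x ∈ closure U
      · exact Or.inl (mem_interior_iff_mem_nhds.2 (hopen x hx hxc))
      · exact Or.inr hxc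
    · exact ⟨w₁, hw₁, mem_interior_iff_mem_nhds.2
        (hopen w₁ hw₁ (subset_closure ⟨hw₁, hH₁⟩))⟩
  exact hF.congr fun x hx => hcl x hx (hall hx)

/-- Rado-type lemma: a continuous function of `w`, holomorphic off its zero set, is holomorphic. -/
theorem rado {H : ℂ → ℂ} {w₀ : ℂ} {r : ℝ} (hr : 0 < r) (hc : ContinuousOn H (ball w₀ r))
    (hd : ∀ w ∈ ball w₀ r, H w ≠ 0 → DifferentiableAt ℂ H w) :
    DifferentiableOn ℂ H (ball w₀ r) := by
  intro w hw
  obtain ⟨ε, hε, hb⟩ := Metric.isOpen_iff.1 isOpen_ball w hw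
  have hsub : closedBall w (ε / 2) ⊆ ball w₀ r :=
    (closedBall_subset_ball (by linarith)).trans hb
  have h1 := rado_closed (half_pos hε) (hc.mono hsub)
    (fun x hx hx0 => hd x (hsub (ball_subset_closedBall hx)) hx0)
  exact ((h1 w (mem_ball_self (half_pos hε))).differentiableAt
    (ball_mem_nhds w (half_pos hε))).differentiableWithinAt

end H6ea4aa
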