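import Pool.Agent.H.MP_6ea4aa_an.Util2
import Pool.Agent.H.MP_6ea4aa_an.Rado
import Pool.Agent.H.MP_3a36cd_an.SCV1

/-!
# MP_6ea4aa: no vertical discs in the zero set
-/

set_option autoImplicit false

open Complex Set Filter Topology Metric MeasureTheory

namespace H6ea4aa

/-- bound of the derivative by the real part -/
theorem VD_deriv_le {F : ℂ → ℂ} {u : ℂ} {R ε : ℝ} (hR : 0 < R) (hε : 0 < ε)
    (hF : DifferentiableOn ℂ F (ball u R)) (hre : ∀ ζ ∈ ball u R, |(F ζ).re| ≤ ε) :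
    ‖deriv F u‖ ≤ 8 * ε / R := by
  set f : ℂ → ℂ := fun z => F (u + z) - F u with hf
  have hmem : ∀ z ∈ ball (0 : ℂ) R, u + z ∈ ball u R := by
    intro z hz
    rw [mem_ball_iff_norm, add_sub_cancel_left]
    exact mem_ball_zero_iff.1 hz
  have hfd : DifferentiableOn ℂ f (ball 0 R) := by
    refine DifferentiableOn.sub_const ?_ _
    exact hF.comp (by fun_prop) hmem
  have hf0 : f 0 = 0 := by simp [hf]
  have hmaps : MapsTo f (ball 0 R) {z | z.re ≤ 2 * ε} := by
    intro z hz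
    have h1 := hre _ (hmem z hz)
    have h2 := hre u (mem_ball_self hR)
    have h3 : (f z).re = (F (u + z)).re - (F u).re := by simp [hf]
    change (f z).re ≤ 2 * ε
    rw [h3]
    have h4 := le_abs_self (F (u + z)).re
    have h5 := neg_abs_le (F u).re
    linarith
  have hbc : ∀ z ∈ ball (0 : ℂ) (R / 2), ‖f z‖ ≤ 4 * ε := by
    intro z hz
    have hz' : ‖z‖ < R / 2 := mem_ball_zero_iff.1 hz
    have hzR : z ∈ ball (0 : ℂ) R := by
      rw [mem_ball_zero_iff]
      linarith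
    have h1 := Complex.borelCaratheodory_zero (M := 2 * ε) (by positivity) hfd hmaps hR hzR hf0
    have h2 : 0 < R - ‖z‖ := by linarith
    have h3 : 2 * (2 * ε) * ‖z‖ / (R - ‖z‖) ≤ 4 * ε := by
      rw [div_le_iff₀ h2]
      nlinarith
    exact h1.trans h3
  have hd := Complex.norm_deriv_le_div_of_mapsTo_ball (f := f) (c := 0) (R₁ := R / 2)
    (R₂ := 4 * ε) (hfd.mono (ball_subset_ball (by linarith))) (by
      intro z hz
      rw [hf0, mem_closedBall_zero_iff]
      exact hbc z hz) (by positivity)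
  have he : deriv f 0 = deriv F u := by
    simp only [hf]
    rw [deriv_sub_const, deriv_comp_const_add, add_zero]
  rw [he] at hd
  calc ‖deriv F u‖ ≤ 4 * ε / (R / 2) := hd
    _ = 8 * ε / R := by ring

theorem VD_deriv_zero {F : ℂ → ℂ} {u : ℂ} {R : ℝ} (hR : 0 < R)
    (hF : DifferentiableOn ℂ F (ball u R)) (hre : ∀ ζ ∈ ball u R, (F ζ).re = 0) :
    deriv F u = 0 := by
  rw [← norm_eq_zero]
  refine le_antisymm (le_of_forall_pos_le_add fun η hη => ?_) (norm_nonneg _)
  have h := VD_deriv_le (ε := η * R / 8) hR (by positivity) hF (fun ζ hζ => by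
    rw [hre ζ hζ, abs_zero]; positivity)
  rw [zero_add]
  calc ‖deriv F u‖ ≤ 8 * (η * R / 8) / R := h
    _ = η := by field_simp

theorem no_vertical {G : ℂ × ℂ → ℝ} {w₀ u₀ : ℂ} {r : ℝ} (hr : 0 < r)
    (hc : ContinuousOn G (ball (w₀, u₀) r)) (h0 : ∀ q ∈ ball (w₀, u₀) r, 0 ≤ G q)
    (hre : ∀ q ∈ ball (w₀, u₀) r, 0 < G q → LocRe2 G q)
    (hint : ∀ q ∈ ball (w₀, u₀) r, ∀ ε > 0, ∃ q' ∈ ball q ε, q' ∈ ball (w₀, u₀) r ∧ 0 < G q')
    (hharm : ∀ w ∈ ball w₀ r, ∀ u ∈ ball u₀ r, LocRe (fun v => G (w, v)) u)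
    (hnc : ∀ w ∈ ball w₀ r, (∃ u ∈ ball u₀ r, 0 < G (w, u)) →
      ∃ u ∈ ball u₀ r, ∃ u' ∈ ball u₀ r, G (w, u) ≠ G (w, u')) :
    ∀ q ∈ ball (w₀, u₀) r, 0 < G q := by
  have hprod : ball (w₀, u₀) r = ball w₀ r ×ˢ ball u₀ r := (ball_prod_same w₀ u₀ r).symm
  have hin : ∀ w ∈ ball w₀ r, ∀ u ∈ ball u₀ r, (w, u) ∈ ball (w₀, u₀) r := by
    intro w hw u hu
    rw [hprod]
    exact ⟨hw, hu⟩
  have hDc : IsPreconnected (ball u₀ r) := (convex_ball u₀ r).isPreconnected
  have hBc : IsPreconnected (ball w₀ r) := (convex_ball w₀ r).isPreconnected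
  -- the slices
  have hex : ∀ w ∈ ball w₀ r, ∃ F : ℂ → ℂ, DifferentiableOn ℂ F (ball u₀ r) ∧
      ∀ ζ ∈ ball u₀ r, G (w, ζ) = (F ζ).re := by
    intro w hw
    exact locRe_ball (u := fun v => G (w, v)) (fun ζ hζ => hharm w hw ζ hζ)
  choose! F hFd hFre using hex
  -- a slice that vanishes somewhere vanishes everywhere
  have hslice : ∀ w ∈ ball w₀ r, ∀ u ∈ ball u₀ r, G (w, u) = 0 → ∀ u' ∈ ball u₀ r,
      G (w, u') = 0 := by
    intro w hw u hu hG u' hu'
    exact min_strong (u := fun v => G (w, v)) isOpen_ball hDc (fun ζ hζ => hharm w hw ζ hζ)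
      (m := 0) (fun ζ hζ => h0 _ (hin w hw ζ hζ)) hu hG u' hu'
  have hpos : ∀ w ∈ ball w₀ r, ∀ u ∈ ball u₀ r, deriv (F w) u ≠ 0 → ∀ u' ∈ ball u₀ r,
      0 < G (w, u') := by
    intro w hw u hu hne u' hu'
    refine lt_of_le_of_ne (h0 _ (hin w hw u' hu')) (fun hG => hne ?_)
    have hz := hslice w hw u' hu' hG.symm
    obtain ⟨R, hR, hsub⟩ := Metric.isOpen_iff.1 isOpen_ball u hu
    refine VD_deriv_zero hR ((hFd w hw).mono hsub) (fun ζ hζ => ?_)
    rw [← hFre w hw ζ (hsub hζ)]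
    exact hz ζ (hsub hζ)
  -- continuity of H in w
  have hcont : ∀ u ∈ ball u₀ r, ContinuousOn (fun w => deriv (F w) u) (ball w₀ r) := by
    intro u hu w hw
    obtain ⟨R, hR, hsub⟩ := Metric.isOpen_iff.1 isOpen_ball u hu
    obtain ⟨t, ht, hsubt⟩ := Metric.isOpen_iff.1 isOpen_ball w hw
    have hK : IsCompact (closedBall w (t / 2) ×ˢ closedBall u (R / 2)) :=
      (isCompact_closedBall _ _).prod (isCompact_closedBall _ _)
    have hKsub : closedBall w (t / 2) ×ˢ closedBall u (R / 2) ⊆ ball (w₀, u₀) r := by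
      rintro ⟨a, b⟩ ⟨ha, hb⟩
      exact hin a (hsubt (closedBall_subset_ball (by linarith) ha)) b
        (hsub (closedBall_subset_ball (by linarith) hb))
    have hun := hK.uniformContinuousOn_of_continuous (hc.mono hKsub)
    refine (Metric.continuousAt_iff.2 fun ε hε => ?_).continuousWithinAt
    rw [Metric.uniformContinuousOn_iff] at hun
    obtain ⟨δ, hδ, hun⟩ := hun (ε * (R / 2) / 16) (by positivity)
    refine ⟨min δ (t / 2), lt_min hδ (by positivity), fun {w'} hw' => ?_⟩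
    have hw't : w' ∈ closedBall w (t / 2) := by
      rw [mem_closedBall]
      exact (lt_of_lt_of_le hw' (min_le_right _ _)).le
    have hw'B : w' ∈ ball w₀ r := hsubt (closedBall_subset_ball (by linarith) hw't)
    have hRb : ball u (R / 2) ⊆ ball u₀ r := (ball_subset_ball (by linarith)).trans hsub
    have hdiff : DifferentiableOn ℂ (fun ζ => F w' ζ - F w ζ) (ball u (R / 2)) :=
      ((hFd w' hw'B).mono hRb).sub ((hFd w hw).mono hRb)
    have hb := VD_deriv_le (F := fun ζ => F w' ζ - F w ζ) (u := u) (R := R / 2)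
      (ε := ε * (R / 2) / 16) (by positivity) (by positivity) hdiff (fun ζ hζ => by
        have e1 := hFre w' hw'B ζ (hRb hζ)
        have e2 := hFre w hw ζ (hRb hζ)
        have e3 := hun (w', ζ) ⟨hw't, ball_subset_closedBall hζ⟩ (w, ζ)
          ⟨mem_closedBall_self (by positivity), ball_subset_closedBall hζ⟩ (by
            rw [Prod.dist_eq]
            simp only [dist_self, max_lt_iff]
            exact ⟨lt_of_lt_of_le hw' (min_le_left _ _), hδ⟩)
        rw [Real.dist_eq] at e3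
        simp only [Complex.sub_re]
        rw [← e1, ← e2]
        exact e3.le)
    have hdw : ∀ w ∈ ball w₀ r, DifferentiableAt ℂ (F w) u := fun w hw =>
      (hFd w hw).differentiableAt (isOpen_ball.mem_nhds hu)
    have he : deriv (fun ζ => F w' ζ - F w ζ) u = deriv (F w') u - deriv (F w) u :=
      deriv_fun_sub (hdw w' hw'B) (hdw w hw)
    rw [he] at hb
    rw [dist_eq_norm]
    have hlast : 8 * (ε * (R / 2) / 16) / (R / 2) = ε / 2 := by
      field_simp
      ring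
    rw [hlast] at hb
    linarith
  -- holomorphy of H in w
  have hhol : ∀ u ∈ ball u₀ r, DifferentiableOn ℂ (fun w => deriv (F w) u) (ball w₀ r) := by
    intro u hu
    refine rado hr (hcont u hu) (fun w hw hne => ?_)
    have hG : 0 < G (w, u) := hpos w hw u hu hne u hu
    obtain ⟨ρ, hρ, F2, hF2d, hF2re⟩ := hre _ (hin w hw u hu) hG
    obtain ⟨R, hR, hsub⟩ := Metric.isOpen_iff.1 isOpen_ball u hu
    obtain ⟨t, ht, hsubt⟩ := Metric.isOpen_iff.1 isOpen_ball w hw
    have hdir := Pool.Agent.ParLeaf.SCV1_dir isOpen_ball hF2d ((0 : ℂ), (1 : ℂ))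
    have hd1 : DifferentiableAt ℂ (fun x : ℂ × ℂ => fderiv ℂ F2 x ((0 : ℂ), (1 : ℂ))) (w, u) :=
      (hdir.differentiableAt (ball_mem_nhds _ hρ))
    have hd2 : DifferentiableAt ℂ (fun w' : ℂ => fderiv ℂ F2 (w', u) ((0 : ℂ), (1 : ℂ))) w := by
      have h1 : DifferentiableAt ℂ (fun w' : ℂ => (w', u)) w := by fun_prop
      exact DifferentiableAt.comp (g := fun x : ℂ × ℂ => fderiv ℂ F2 x ((0 : ℂ), (1 : ℂ))) w hd1 h1
    refine hd2.congr_of_eventuallyEq ?_
    filter_upwards [ball_mem_nhds w (lt_min hρ ht)] with w' hw'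
    have hw'B : w' ∈ ball w₀ r := hsubt (ball_subset_ball (min_le_right _ _) hw')
    have hmem : ∀ v ∈ ball u ρ, (w', v) ∈ ball (w, u) ρ := by
      intro v hv
      rw [← ball_prod_same]
      exact ⟨ball_subset_ball (min_le_left _ _) hw', hv⟩
    have hF2u : DifferentiableAt ℂ F2 (w', u) :=
      hF2d.differentiableAt (isOpen_ball.mem_nhds (hmem u (mem_ball_self hρ)))
    have hsl : DifferentiableOn ℂ (fun v => F2 (w', v)) (ball u ρ) := by
      refine hF2d.comp (f := fun v : ℂ => (w', v)) (by fun_prop) (fun v hv => hmem v hv)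
    have hder : deriv (fun v => F2 (w', v)) u = fderiv ℂ F2 (w', u) ((0 : ℂ), (1 : ℂ)) := by
      have h1 : HasDerivAt (fun v : ℂ => (w', v)) ((0 : ℂ), (1 : ℂ)) u :=
        (hasDerivAt_const u w').prodMk (hasDerivAt_id u)
      exact (hF2u.hasFDerivAt.comp_hasDerivAt u h1).deriv
    have hzero := VD_deriv_zero (F := fun v => F w' v - F2 (w', v)) (u := u) (R := min R ρ)
      (lt_min hR hρ)
      (((hFd w' hw'B).mono ((ball_subset_ball (min_le_left _ _)).trans hsub)).sub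
        (hsl.mono (ball_subset_ball (min_le_right _ _)))) (fun ζ hζ => by
        have e1 := hFre w' hw'B ζ (hsub (ball_subset_ball (min_le_left _ _) hζ))
        have e2 := hF2re _ (hmem ζ (ball_subset_ball (min_le_right _ _) hζ))
        simp only [Complex.sub_re]
        rw [← e1, ← e2, sub_self])
    rw [deriv_fun_sub ((hFd w' hw'B).differentiableAt (isOpen_ball.mem_nhds hu))
      (hsl.differentiableAt (ball_mem_nhds u hρ)), hder] at hzero
    exact sub_eq_zero.1 hzero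
  -- some derivative does not vanish
  have hB : ∃ u ∈ ball u₀ r, ∃ w ∈ ball w₀ r, deriv (F w) u ≠ 0 := by
    by_contra hcon
    push Not at hcon
    obtain ⟨⟨w', u'⟩, -, hq', hGq'⟩ := hint (w₀, u₀) (mem_ball_self hr) 1 one_pos
    rw [hprod] at hq'
    obtain ⟨a, ha, b, hb, hne⟩ := hnc w' hq'.1 ⟨u', hq'.2, hGq'⟩
    apply hne
    have hconst := (convex_ball u₀ r).is_const_of_fderivWithin_eq_zero (𝕜 := ℂ)
      (hFd w' hq'.1) (fun x hx => ?_) ha hb
    · rw [hFre w' hq'.1 a ha, hFre w' hq'.1 b hb, hconst]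
    · rw [fderivWithin_of_isOpen isOpen_ball hx]
      ext
      rw [fderiv_apply_one_eq_deriv, hcon x hx w' hq'.1]
      simp
  obtain ⟨u2, hu2, w2, hw2, hne2⟩ := hB
  intro q hq
  by_contra hq0
  obtain ⟨w1, u1⟩ := q
  have hq1 := hq
  rw [hprod] at hq1
  obtain ⟨hw1, hu1⟩ := hq1
  simp only at hw1 hu1
  have hG1 : G (w1, u1) = 0 := le_antisymm (not_lt.1 hq0) (h0 _ hq)
  -- the zeros of `H(., u2)` are isolated
  have han : AnalyticOnNhd ℂ (fun w => deriv (F w) u2) (ball w₀ r) :=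
    (hhol u2 hu2).analyticOnNhd isOpen_ball
  have hiso : ∀ᶠ w in 𝓝[≠] w1, deriv (F w) u2 ≠ 0 := by
    rcases (han w1 hw1).eventually_eq_zero_or_eventually_ne_zero with h | h
    · exfalso
      exact hne2 (han.eqOn_zero_of_preconnected_of_eventuallyEq_zero hBc hw1 h hw2)
    · exact h
  obtain ⟨s, hs, hsub⟩ : ∃ s > 0, ball w1 s ⊆ ball w₀ r ∧
      ∀ w ∈ ball w1 s, w ≠ w1 → deriv (F w) u2 ≠ 0 := by
    rw [eventually_nhdsWithin_iff, Metric.eventually_nhds_iff_ball] at hiso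
    obtain ⟨s1, hs1, h1⟩ := hiso
    obtain ⟨s2, hs2, h2⟩ := Metric.isOpen_iff.1 isOpen_ball w1 hw1
    exact ⟨min s1 s2, lt_min hs1 hs2, (ball_subset_ball (min_le_right _ _)).trans h2,
      fun w hw hne => h1 w (ball_subset_ball (min_le_left _ _) hw) hne⟩
  obtain ⟨hsB, hsne⟩ := hsub
  have hvpos : ∀ w ∈ ball w1 s, w ≠ w1 → 0 < G (w, u1) := fun w hw hne =>
    hpos w (hsB hw) u2 hu2 (hsne w hw hne) u1 hu1
  have hvc : ContinuousOn (fun w => G (w, u1)) (ball w1 s) := by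
    refine hc.comp (f := fun w : ℂ => (w, u1)) (by fun_prop) (fun w hw => hin w (hsB hw) u1 hu1)
  have hvl : ∀ w ∈ ball w1 s, w ≠ w1 → LocRe (fun w => G (w, u1)) w := by
    intro w hw hne
    obtain ⟨ρ, hρ, F2, hF2d, hF2re⟩ := hre _ (hin w (hsB hw) u1 hu1) (hvpos w hw hne)
    have hmem : ∀ v ∈ ball w ρ, (v, u1) ∈ ball (w, u1) ρ := by
      intro v hv
      rw [← ball_prod_same]
      exact ⟨hv, mem_ball_self hρ⟩
    refine ⟨ρ, hρ, fun v => F2 (v, u1), ?_, fun v hv => hF2re _ (hmem v hv)⟩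
    exact hF2d.comp (f := fun v : ℂ => (v, u1)) (by fun_prop) (fun v hv => hmem v hv)
  have hv1 : LocRe (fun w => G (w, u1)) w1 := locRe_removable hs hvc hvl
  have hvall : ∀ w ∈ ball w1 s, LocRe (fun w => G (w, u1)) w := by
    intro w hw
    by_cases h : w = w1
    · rw [h]; exact hv1
    · exact hvl w hw h
  have hvz := min_strong (u := fun w => G (w, u1)) isOpen_ball
    ((convex_ball w1 s).isPreconnected) hvall (m := 0)
    (fun w hw => h0 _ (hin w (hsB hw) u1 hu1)) (mem_ball_self hs) hG1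
  have hpt : w1 + ((s / 2 : ℝ) : ℂ) ∈ ball w1 s := by
    rw [mem_ball_iff_norm, add_sub_cancel_left, Complex.norm_real, Real.norm_eq_abs,
      abs_of_pos (by positivity)]
    linarith
  have hptne : w1 + ((s / 2 : ℝ) : ℂ) ≠ w1 := by
    intro h
    have h1 : ((s / 2 : ℝ) : ℂ) = 0 := by
      have := congrArg (fun x => x - w1) h
      simpa using this
    rw [Complex.ofReal_eq_zero] at h1
    linarith
  have h1 := hvpos _ hpt hptne
  have h2 := hvz _ hpt
  linarith

end H6ea4aa
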