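import Pool.Agent.H.MP_6ea4aa_an.Typed
import Pool.Agent.H.MP_6ea4aa_an.Dense
import Pool.Agent.H.MP_6ea4aa_an.VD
import Pool.Agent.H.MP_6ea4aa_an.ThmP
import Pool.Agent.H.MP_6ea4aa_an.PassLow
import Pool.Agent.H.MP_6ea4aa_an.PassHigh0
import Pool.Agent.H.MP_6ea4aa_an.PassHigh1
import Pool.Agent.H.MP_6ea4aa_an.Win2
import Pool.Agent.H.MP_6ea4aa_an.Section

/-!
# MP_6ea4aa: no unstable manifold of a saddle is connected when `|b| = 1`
-/

set_option autoImplicit false

open Complex Set Filter Topology Metric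

namespace H6ea4aa

variable {c b : ℂ}

theorem locRe_slice {G : ℂ × ℂ → ℝ} {w u : ℂ} (h : LocRe2 G (w, u)) :
    LocRe (fun v => G (w, v)) u := by
  obtain ⟨r, hr, F, hF, hG⟩ := h
  refine ⟨r, hr, fun v => F (w, v), ?_, ?_⟩
  · apply hF.comp
    · exact DifferentiableOn.prodMk (differentiableOn_const _) differentiableOn_id
    · intro v hv
      simp only [mem_ball, Prod.dist_eq, dist_self] at hv ⊢
      exact max_lt hr hv
  · intro v hv
    apply hG
    simp only [mem_ball, Prod.dist_eq, dist_self] at hv ⊢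
    exact max_lt hr hv

theorem GG_slice_continuous (hb : ‖b‖ = 1) (Ch : Chart c b) {w : ℂ} (hw : 0 < w.re) :
    Continuous (GG Ch w) := by
  have h1 : Continuous (fun v : ℂ => (w, v)) := by fun_prop
  have h2 : ∀ v ∈ (univ : Set ℂ), (w, v) ∈ {q : ℂ × ℂ | 0 < q.1.re} := fun v _ => hw
  have h3 := (GG_continuousOn Ch hb).comp (h1.continuousOn (s := univ)) h2
  rw [continuousOn_univ] at h3
  exact h3

/-- fiberwise nonconstancy -/
theorem GG_nonconst (hb : ‖b‖ = 1) {Ch : Chart c b} {W : Win Ch} {Fm : Fam W} (Ty : Typed Fm)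
    {w : ℂ} (hw : 0 < w.re) {u₀ : ℂ} {r : ℝ} (hr : 0 < r)
    (h : ∃ u ∈ ball u₀ r, 0 < GG Ch w u) :
    ∃ u ∈ ball u₀ r, ∃ u' ∈ ball u₀ r, GG Ch w u ≠ GG Ch w u' := by
  by_contra hcon
  push Not at hcon
  obtain ⟨u, hu, hpos⟩ := h
  -- continuity of the slice
  have hc : Continuous (GG Ch w) := GG_slice_continuous hb Ch hw
  have hopen : IsOpen {v | 0 < GG Ch w v} := isOpen_lt continuous_const hc
  set Q := connectedComponentIn {v | 0 < GG Ch w v} u with hQ
  have hQo : IsOpen Q := hopen.connectedComponentIn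
  have huQ : u ∈ Q := mem_connectedComponentIn hpos
  have hQs : Q ⊆ {v | 0 < GG Ch w v} := connectedComponentIn_subset _ _
  have hconst : ∀ ζ ∈ Q, GG Ch w ζ = GG Ch w u := by
    apply locRe_identity hQo isPreconnected_connectedComponentIn _ huQ
    · filter_upwards [isOpen_ball.mem_nhds hu] with ζ hζ
      exact hcon ζ hζ u hu
    · intro ζ hζ
      exact locRe_slice (G := fun q => GG Ch q.1 q.2) (GG_locRe2 hb Ch (q := (w, ζ)) hw (hQs hζ))
  -- closure of Q is in the positive set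
  have hcl : closure Q ⊆ Q := by
    intro ζ hζ
    have h1 : GG Ch w ζ = GG Ch w u := by
      have : IsClosed {v | GG Ch w v = GG Ch w u} := isClosed_eq hc continuous_const
      exact this.closure_subset_iff.2 hconst hζ
    have h2 : ζ ∈ {v | 0 < GG Ch w v} := by
      simp only [mem_setOf_eq, h1]; exact hpos
    have h3 : IsPreconnected (insert ζ Q) :=
      isPreconnected_connectedComponentIn.subset_closure (subset_insert _ _)
        (insert_subset hζ subset_closure)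
    have h4 : insert ζ Q ⊆ {v | 0 < GG Ch w v} := insert_subset h2 hQs
    exact h3.subset_connectedComponentIn (mem_insert_of_mem _ huQ) h4 (mem_insert _ _)
  have hclosed : IsClosed Q := isClosed_of_closure_subset hcl
  have huniv : Q = univ := by
    have := isClopen_iff.1 ⟨hclosed, hQo⟩
    rcases this with h | h
    · exact absurd huQ (by rw [h]; exact notMem_empty u)
    · exact h
  obtain ⟨e, he⟩ := Ty.neE w hw
  have := Ty.zeroE _ he
  have h5 : e ∈ Q := by rw [huniv]; exact mem_univ e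
  have h6 := hQs h5
  simp only [mem_setOf_eq] at h6
  simp only at this
  linarith

theorem zero_set (hb : ‖b‖ = 1) {Ch : Chart c b} {W : Win Ch} {Fm : Fam W} (Ty : Typed Fm)
    (q : ℂ × ℂ) (hq : 0 < q.1.re) : GG Ch q.1 q.2 = 0 ↔ q ∈ Ty.E ∪ Ty.R := by
  constructor
  swap
  · rintro (h | h)
    · exact Ty.zeroE q h
    · exact Ty.zeroR q h
  intro h0
  by_contra hcon
  -- a box disjoint from `E ∪ R`
  have hE : q ∉ closure Ty.E := fun h => hcon (Or.inl (Ty.closedE q h hq))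
  have hR : q ∉ closure Ty.R := fun h => hcon (Or.inr (Ty.closedR q h hq))
  have hopen : IsOpen ((closure Ty.E)ᶜ ∩ (closure Ty.R)ᶜ ∩ {q : ℂ × ℂ | 0 < q.1.re}) := by
    refine (isClosed_closure.isOpen_compl.inter isClosed_closure.isOpen_compl).inter ?_
    exact isOpen_lt continuous_const (by fun_prop)
  obtain ⟨r, hr, hball⟩ := Metric.isOpen_iff.1 hopen q ⟨⟨hE, hR⟩, hq⟩
  have hqq : (q.1, q.2) = q := rfl
  have hmem : ∀ w ∈ ball q.1 r, ∀ u ∈ ball q.2 r, (w, u) ∈ ball q r := by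
    intro w hw u hu
    simp only [mem_ball, Prod.dist_eq] at hw hu ⊢
    exact max_lt hw hu
  have hRHP : ball q.1 r ⊆ RHP := by
    intro w hw
    exact (hball (hmem w hw q.2 (mem_ball_self hr))).2
  have hharm := dense hb Fm hr hRHP (u₀ := q.2) (by
    intro m s hs w hw u hu heq
    have h1 := Ty.graph m (w, u) (hRHP hw) s hs heq
    have h2 := hball (hmem w hw u hu)
    rcases h1 with h | h
    · exact h2.1.1 (subset_closure h)
    · exact h2.1.2 (subset_closure h))
  have hpos := no_vertical (G := fun q => GG Ch q.1 q.2) (w₀ := q.1) (u₀ := q.2) hr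
    ((GG_continuousOn Ch hb).mono (fun p hp => (hball hp).2))
    (fun p _ => GG_nonneg Ch hb p.1 p.2)
    (fun p hp hpp => GG_locRe2 hb Ch (hball hp).2 hpp)
    (by
      intro p hp ε hε
      -- small ball inside
      obtain ⟨ρ, hρ, hsub⟩ := Metric.isOpen_iff.1 isOpen_ball p hp
      obtain ⟨q', hq', -, hq'2⟩ := GG_nowhere hb Ch (hball hp).2 (min ε ρ) (lt_min hε hρ)
      exact ⟨q', ball_subset_ball (min_le_left _ _) hq',
        hsub (ball_subset_ball (min_le_right _ _) hq'), hq'2⟩)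
    (fun w hw u hu => hharm w hw u hu)
    (fun w hw hex => GG_nonconst hb Ty (hRHP hw) hr hex)
    q (mem_ball_self hr)
  have hpos' : 0 < GG Ch q.1 q.2 := hpos
  linarith

theorem no_noIsland (hb : ‖b‖ = 1) {s : Saddle c b} {ψ : ℂ → ℂ × ℂ} (hψ : Unst c b s ψ) :
    ¬ NoIsland (fun z => Gp c b (ψ z)) := by
  intro hU
  have hg := hψ.linGreen hb
  have hreg : ∀ z, 0 < Gp c b (ψ z) → RegRe (fun z => Gp c b (ψ z)) z :=
    fun z hz => hg.no_crit hU hz
  obtain ⟨σ, hσ⟩ := thmC hg hU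
  obtain ⟨Ch⟩ := exists_chart c b hb
  obtain ⟨W⟩ := exists_win hb Ch
  obtain ⟨Fm⟩ := exists_fam hb W hψ hreg hσ
  obtain ⟨Ty⟩ := exists_typed Fm hb
  -- constants
  have hsep : ∀ w ∈ RHP, Sep (fun q => GG Ch q.1 q.2) Ty.E Ty.R w (w.re / 2) := by
    apply thmP (G := fun q => GG Ch q.1 q.2) (GG_continuousOn Ch hb)
      (fun q _ => GG_nonneg Ch hb q.1 q.2) (fun q hq h => GG_locRe2 hb Ch hq h)
      (fun q hq => zero_set hb Ty q hq) Ty.subE Ty.subR Ty.closedE Ty.closedR Ty.disj Ty.lscE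
      Ty.lscR Ty.neE Ty.bddE (fun w₀ hw₀ τ M => comp_bounded hb Ch w₀ hw₀ τ M)
    · intro w u hw
      have h1 := GG_per Ch hw u
      have hw' : 0 < (w + 2 * Real.pi * I).re := by simpa using hw
      have h2 := GG_per Ch hw' u
      have : w + 2 * Real.pi * I + 2 * Real.pi * I = w + 4 * Real.pi * I := by ring
      rw [this] at h2
      simp only
      rw [h2, h1]
    · exact Ty.perE
    · exact Ty.perR
    · intro ε hε
      obtain ⟨S₁, hS₁⟩ := pass_low hb W Ty.C ε hε
      refine ⟨max S₁ Ty.S, fun w hw => ?_⟩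
      have h1 : S₁ < w.re := lt_of_le_of_lt (le_max_left _ _) hw
      have h2 : Ty.S < w.re := lt_of_le_of_lt (le_max_right _ _) hw
      intro u u' hu hu' _
      refine hS₁ w h1 u u' (Ty.locE w u h2 hu) ?_
      by_cases h3 : ‖u'‖ ≤ 2 * Real.exp (7 / 4 * w.re)
      · exact Or.inr (Ty.locR w u' h2 hu' h3)
      · exact Or.inl (not_le.1 h3)
  -- contradiction from the low pass
  have hhigh : ∃ w : ℂ, max 0 Ty.S < w.re ∧ ∃ P : Set ℂ, IsPreconnected P ∧
      (∀ v ∈ P, GG Ch w v < w.re / 2) ∧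
      (∀ u, ‖u - Ch.κ (w / 2)‖ ≤ Ty.C * Real.exp (3 / 4 * w.re) → u ∈ P) ∧
      (∀ u, ‖u - Ch.κ (w / 2 + Real.pi * I)‖ ≤ Ty.C * Real.exp (3 / 4 * w.re) → u ∈ P) := by
    by_cases hc : c = 0
    · exact pass_high0 hb hc W Ty.C _
    · exact pass_high1 hb hc W Ty.C _
  obtain ⟨w, hw, P, hP, hlow, hPE, hPR⟩ := hhigh
  have hw0 : 0 < w.re := lt_of_le_of_lt (le_max_left _ _) hw
  have hwS : Ty.S < w.re := lt_of_le_of_lt (le_max_right _ _) hw
  obtain ⟨u, hu⟩ := Ty.neE w hw0
  obtain ⟨u', hu', hu'2⟩ := Ty.neR w hwS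
  have huP : u ∈ P := hPE u (Ty.locE w u hwS hu)
  have hu'P : u' ∈ P := hPR u' hu'2
  exact hsep w hw0 u u' hu hu' (hlow u huP)
    (hP.subset_connectedComponentIn huP (fun v hv => hlow v hv) hu'P)

end H6ea4aa
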