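import Pool.Agent.H.MP_6ea4aa_an.Defs
import Pool.Agent.H.MP_3a36cd_an.SCV1

/-!
# MP_6ea4aa: local product coordinates at a saddle
-/

set_option autoImplicit false

open Complex Set Filter Topology Metric
open scoped ContDiff

namespace H6ea4aa

theorem BoxCoord_comp (G : ℂ × ℂ → ℂ × ℂ) (c : ℂ → ℂ × ℂ) (t : ℂ)
    (L : (ℂ × ℂ) →L[ℂ] (ℂ × ℂ)) (hG : HasFDerivAt G L (c t)) (c' : ℂ × ℂ)
    (hc : HasDerivAt c c' t) : HasDerivAt (fun z => G (c z)) (L c') t :=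
  hG.comp_hasDerivAt t hc

theorem BoxCoord_fst (c : ℂ → ℂ × ℂ) (t : ℂ) (c' : ℂ × ℂ)
    (hc : HasDerivAt c c' t) : HasDerivAt (fun z => (c z).1) c'.1 t :=
  (hasFDerivAt_fst (𝕜 := ℂ) (p := c t)).comp_hasDerivAt t hc

theorem BoxCoord_snd (c : ℂ → ℂ × ℂ) (t : ℂ) (c' : ℂ × ℂ)
    (hc : HasDerivAt c c' t) : HasDerivAt (fun z => (c z).2) c'.2 t :=
  (hasFDerivAt_snd (𝕜 := ℂ) (p := c t)).comp_hasDerivAt t hc

/-- Coordinates `Ξ (ζ, ξ) = ψu ζ + ψs ξ - p` near a saddle fixed point of `F`. -/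
theorem box_coord (F : ℂ × ℂ → ℂ × ℂ) (hF : Differentiable ℂ F) (p v w : ℂ × ℂ) (μ ν : ℂ)
    (hμ : 1 < ‖μ‖) (hν : ‖ν‖ < 1) (hv : v ≠ 0) (hw : w ≠ 0)
    (ψu ψs : ℂ → ℂ × ℂ) (hu : Differentiable ℂ ψu) (hs : Differentiable ℂ ψs)
    (hu0 : ψu 0 = p) (hs0 : ψs 0 = p) (hud : HasDerivAt ψu v 0) (hsd : HasDerivAt ψs w 0)
    (hus : ∀ z, F (ψu z) = ψu (μ * z)) (hss : ∀ z, F (ψs z) = ψs (ν * z))
    (ε : ℝ) (hε : 0 < ε) :
    ∃ R > 0, InjOn (fun q : ℂ × ℂ => ψu q.1 + ψs q.2 - p) (ball 0 R) ∧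
      (∀ U ⊆ ball (0 : ℂ × ℂ) R, IsOpen U →
        IsOpen ((fun q : ℂ × ℂ => ψu q.1 + ψs q.2 - p) '' U)) ∧
      ∃ r > 0, (‖μ‖ + 2 + ε) * r ≤ R ∧ ∃ Fh : ℂ × ℂ → ℂ × ℂ,
        DifferentiableOn ℂ Fh (ball 0 r) ∧ ∀ q ∈ ball (0 : ℂ × ℂ) r,
          Fh q ∈ ball (0 : ℂ × ℂ) R ∧
          F (ψu q.1 + ψs q.2 - p) = ψu (Fh q).1 + ψs (Fh q).2 - p ∧
          ‖(Fh q).1 - μ * q.1‖ ≤ ε * ‖q.1‖ ∧ ‖(Fh q).2 - ν * q.2‖ ≤ ε * ‖q.2‖ := by
  -- eigenvectors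
  have hFp : F p = p := by
    have := hus 0
    rw [mul_zero, hu0] at this
    exact this
  have hDv : fderiv ℂ F p v = μ • v := by
    have h1 : HasDerivAt (fun z => F (ψu z)) (fderiv ℂ F p v) 0 := by
      have h2 : HasFDerivAt F (fderiv ℂ F p) (ψu 0) := by
        rw [hu0]; exact (hF p).hasFDerivAt
      exact h2.comp_hasDerivAt 0 hud
    have h3 : HasDerivAt (fun z => ψu (μ * z)) (μ • v) 0 := by
      have h4 : HasDerivAt (fun z : ℂ => μ * z) μ 0 := by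
        simpa using (hasDerivAt_id (0 : ℂ)).const_mul μ
      have h5 : HasDerivAt ψu v (μ * 0) := by rw [mul_zero]; exact hud
      exact h5.scomp 0 h4
    have h6 : (fun z => F (ψu z)) = fun z => ψu (μ * z) := funext hus
    rw [h6] at h1
    exact h1.unique h3
  have hDw : fderiv ℂ F p w = ν • w := by
    have h1 : HasDerivAt (fun z => F (ψs z)) (fderiv ℂ F p w) 0 := by
      have h2 : HasFDerivAt F (fderiv ℂ F p) (ψs 0) := by
        rw [hs0]; exact (hF p).hasFDerivAt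
      exact h2.comp_hasDerivAt 0 hsd
    have h3 : HasDerivAt (fun z => ψs (ν * z)) (ν • w) 0 := by
      have h4 : HasDerivAt (fun z : ℂ => ν * z) ν 0 := by
        simpa using (hasDerivAt_id (0 : ℂ)).const_mul ν
      have h5 : HasDerivAt ψs w (ν * 0) := by rw [mul_zero]; exact hsd
      exact h5.scomp 0 h4
    have h6 : (fun z => F (ψs z)) = fun z => ψs (ν * z) := funext hss
    rw [h6] at h1
    exact h1.unique h3
  have hμν : μ ≠ ν := by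
    rintro rfl
    linarith
  set A : (ℂ × ℂ) →L[ℂ] (ℂ × ℂ) :=
    (ContinuousLinearMap.fst ℂ ℂ ℂ).smulRight v + (ContinuousLinearMap.snd ℂ ℂ ℂ).smulRight w
    with hA
  have hAe : ∀ q : ℂ × ℂ, A q = q.1 • v + q.2 • w := fun q => by simp [hA]
  have hAinj : Function.Injective (A : (ℂ × ℂ) →ₗ[ℂ] (ℂ × ℂ)) := by
    rw [← LinearMap.ker_eq_bot, LinearMap.ker_eq_bot']
    intro q hq
    have h1 : q.1 • v + q.2 • w = 0 := by
      rw [← hAe]; exact hq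
    have h2 : q.1 • (μ • v) + q.2 • (ν • w) = 0 := by
      have := congrArg (fderiv ℂ F p) h1
      rw [map_add, map_smul, map_smul, hDv, hDw, map_zero] at this
      exact this
    have h3 : (q.1 * (μ - ν)) • v = 0 := by
      have : (q.1 * (μ - ν)) • v = (q.1 • (μ • v) + q.2 • (ν • w)) -
          ν • (q.1 • v + q.2 • w) := by
        simp only [smul_smul, smul_add]
        rw [mul_sub, sub_smul, mul_comm ν q.2, mul_comm ν q.1]
        abel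
      rw [this, h1, h2]
      simp
    have h4 : q.1 = 0 := by
      rcases smul_eq_zero.1 h3 with h | h
      · rcases mul_eq_zero.1 h with h | h
        · exact h
        · exact absurd (sub_eq_zero.1 h) hμν
      · exact absurd h hv
    have h5 : q.2 = 0 := by
      rw [h4, zero_smul, zero_add] at h1
      rcases smul_eq_zero.1 h1 with h | h
      · exact h
      · exact absurd h hw
    exact Prod.ext h4 h5
  set e : (ℂ × ℂ) ≃L[ℂ] (ℂ × ℂ) :=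
    (LinearEquiv.ofInjectiveEndo (A : (ℂ × ℂ) →ₗ[ℂ] (ℂ × ℂ)) hAinj).toContinuousLinearEquiv with he
  have heA : (e : (ℂ × ℂ) →L[ℂ] (ℂ × ℂ)) = A := by
    ext1 <;> ext <;> simp [he]
  set Ξ : ℂ × ℂ → ℂ × ℂ := fun q => ψu q.1 + ψs q.2 - p with hΞ
  have hΞd : Differentiable ℂ Ξ := by
    intro q
    have h1 : DifferentiableAt ℂ (fun q : ℂ × ℂ => ψu q.1) q := (hu q.1).comp q (by fun_prop)
    have h2 : DifferentiableAt ℂ (fun q : ℂ × ℂ => ψs q.2) q := (hs q.2).comp q (by fun_prop)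
    exact (h1.add h2).sub_const p
  have hΞ0 : Ξ 0 = p := by simp [hΞ, hu0, hs0]
  have hΞder : HasFDerivAt Ξ (e : (ℂ × ℂ) →L[ℂ] (ℂ × ℂ)) 0 := by
    rw [heA, hA]
    have h1 : HasFDerivAt (fun q : ℂ × ℂ => ψu q.1)
        ((ContinuousLinearMap.fst ℂ ℂ ℂ).smulRight v) 0 := by
      have h2 : HasFDerivAt ψu (ContinuousLinearMap.toSpanSingleton ℂ v) ((0 : ℂ × ℂ).1) :=
        hud.hasFDerivAt
      have h3 := h2.comp (0 : ℂ × ℂ) (hasFDerivAt_fst (𝕜 := ℂ) (p := (0 : ℂ × ℂ)))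
      have h3' : HasFDerivAt (fun q : ℂ × ℂ => ψu q.1)
        (ContinuousLinearMap.toSpanSingleton ℂ v ∘SL ContinuousLinearMap.fst ℂ ℂ ℂ) 0 := h3
      exact h3'.congr_fderiv (by ext <;> simp)
    have h4 : HasFDerivAt (fun q : ℂ × ℂ => ψs q.2)
        ((ContinuousLinearMap.snd ℂ ℂ ℂ).smulRight w) 0 := by
      have h2 : HasFDerivAt ψs (ContinuousLinearMap.toSpanSingleton ℂ w) ((0 : ℂ × ℂ).2) :=
        hsd.hasFDerivAt
      have h3 := h2.comp (0 : ℂ × ℂ) (hasFDerivAt_snd (𝕜 := ℂ) (p := (0 : ℂ × ℂ)))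
      have h3' : HasFDerivAt (fun q : ℂ × ℂ => ψs q.2)
        (ContinuousLinearMap.toSpanSingleton ℂ w ∘SL ContinuousLinearMap.snd ℂ ℂ ℂ) 0 := h3
      exact h3'.congr_fderiv (by ext <;> simp)
    exact (h1.add h4).sub_const p
  have hΞC : ContDiff ℂ ∞ Ξ := by
    rw [← contDiffOn_univ]
    exact Pool.Agent.ParLeaf.scv_contDiffOn isOpen_univ hΞd.differentiableOn
  have hFC : ContDiff ℂ ∞ F := by
    rw [← contDiffOn_univ]
    exact Pool.Agent.ParLeaf.scv_contDiffOn isOpen_univ hF.differentiableOn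
  have hΞs : HasStrictFDerivAt Ξ (e : (ℂ × ℂ) →L[ℂ] (ℂ × ℂ)) 0 :=
    hΞC.contDiffAt.hasStrictFDerivAt' hΞder (by simp)
  set E := hΞs.toOpenPartialHomeomorph Ξ with hE
  have hEc : ∀ q, E q = Ξ q := fun q => by rw [hE, hΞs.toOpenPartialHomeomorph_coe]
  have hEcf : (E : ℂ × ℂ → ℂ × ℂ) = Ξ := funext hEc
  have hE0 : (0 : ℂ × ℂ) ∈ E.source := hΞs.mem_toOpenPartialHomeomorph_source
  have hpt : p ∈ E.target := by
    rw [← hΞ0, ← hEc]; exact E.map_source hE0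
  have hsymm : E.symm p = 0 := by
    rw [← hΞ0, ← hEc]; exact E.left_inv hE0
  have hcd : ContDiffAt ℂ 1 E.symm p := by
    apply E.contDiffAt_symm hpt (f₀' := e)
    · rw [hsymm, hEcf]
      exact hΞder
    · rw [hsymm, hEcf]
      exact hΞC.contDiffAt.of_le (by exact_mod_cast le_top)
  obtain ⟨R, hR, hRs⟩ := Metric.isOpen_iff.1 E.open_source 0 hE0
  refine ⟨R, hR, ?_, ?_, ?_⟩
  · have := E.injOn.mono hRs
    rw [hEcf] at this
    exact this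
  · intro U hU hUo
    have := E.isOpen_image_of_subset_source hUo (hU.trans hRs)
    rw [hEcf] at this
    exact this
  -- the map in the coordinates
  set Fh : ℂ × ℂ → ℂ × ℂ := fun q => E.symm (F (Ξ q)) with hFh
  have hFΞ0 : F (Ξ 0) = p := by rw [hΞ0, hFp]
  have hFhC : ContDiffAt ℂ 1 Fh 0 := by
    have h1 : ContDiffAt ℂ 1 (fun q => F (Ξ q)) 0 :=
      (((hFC.comp hΞC).of_le (by exact_mod_cast le_top)).contDiffAt)
    have h2 : ContDiffAt ℂ 1 E.symm (F (Ξ 0)) := by rw [hFΞ0]; exact hcd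
    exact h2.comp (0 : ℂ × ℂ) h1
  have hFh0 : Fh 0 = 0 := by simp only [hFh]; rw [hFΞ0, hsymm]
  have hev1 : ∀ᶠ q in 𝓝 (0 : ℂ × ℂ), ContDiffAt ℂ 1 Fh q := hFhC.eventually (by simp)
  have hev2 : ∀ᶠ q in 𝓝 (0 : ℂ × ℂ), Fh q ∈ ball (0 : ℂ × ℂ) R := by
    apply hFhC.continuousAt
    rw [hFh0]
    exact ball_mem_nhds _ hR
  have hev3 : ∀ᶠ q in 𝓝 (0 : ℂ × ℂ), F (Ξ q) ∈ E.target := by
    have : ContinuousAt (fun q => F (Ξ q)) 0 := (hF.continuous.comp hΞd.continuous).continuousAt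
    apply this
    show E.target ∈ 𝓝 (F (Ξ 0))
    rw [hFΞ0]
    exact E.open_target.mem_nhds hpt
  have hev4 : ∀ᶠ q in 𝓝 (0 : ℂ × ℂ), ‖fderiv ℂ Fh q - fderiv ℂ Fh 0‖ < ε := by
    have hc : ContinuousAt (fderiv ℂ Fh) 0 :=
      (hFhC.fderiv_right (m := 0) (by norm_num)).continuousAt
    have := hc (ball_mem_nhds _ hε)
    filter_upwards [this] with q hq
    rw [mem_preimage, mem_ball, dist_eq_norm] at hq
    exact hq
  obtain ⟨r0, hr0, hr0b⟩ := Metric.eventually_nhds_iff_ball.1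
    (hev1.and (hev2.and (hev3.and hev4)))
  have hc0 : 0 < ‖μ‖ + 2 + ε := by positivity
  set r := min r0 (R / (‖μ‖ + 2 + ε)) with hr
  have hrpos : 0 < r := lt_min hr0 (div_pos hR hc0)
  have hrR : (‖μ‖ + 2 + ε) * r ≤ R := by
    calc (‖μ‖ + 2 + ε) * r ≤ (‖μ‖ + 2 + ε) * (R / (‖μ‖ + 2 + ε)) :=
          mul_le_mul_of_nonneg_left (min_le_right _ _) hc0.le
      _ = R := by field_simp
  have hball : ∀ q ∈ ball (0 : ℂ × ℂ) r, q ∈ ball (0 : ℂ × ℂ) r0 := fun q hq =>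
    ball_subset_ball (min_le_left _ _) hq
  -- values on the axes
  have hax1 : ∀ ζ : ℂ, ‖ζ‖ < r → Fh (ζ, 0) = (μ * ζ, 0) := by
    intro ζ hζ
    have h1 : Ξ (ζ, 0) = ψu ζ := by simp [hΞ, hs0]
    have h2 : F (Ξ (ζ, 0)) = Ξ (μ * ζ, 0) := by
      rw [h1, hus]; simp [hΞ, hs0]
    have h3 : ((μ * ζ, 0) : ℂ × ℂ) ∈ E.source := by
      apply hRs
      rw [mem_ball_zero_iff, Prod.norm_def, max_lt_iff]
      refine ⟨?_, by simpa using hR⟩
      simp only [norm_mul]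
      calc ‖μ‖ * ‖ζ‖ ≤ ‖μ‖ * r := by gcongr
        _ < (‖μ‖ + 2 + ε) * r := by
          apply mul_lt_mul_of_pos_right _ hrpos
          linarith
        _ ≤ R := hrR
    simp only [hFh]
    rw [h2, ← hEc]
    exact E.left_inv h3
  have hax2 : ∀ ξ : ℂ, ‖ξ‖ < r → Fh (0, ξ) = (0, ν * ξ) := by
    intro ξ hξ
    have h1 : Ξ (0, ξ) = ψs ξ := by simp [hΞ, hu0]
    have h2 : F (Ξ (0, ξ)) = Ξ (0, ν * ξ) := by
      rw [h1, hss]; simp [hΞ, hu0]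
    have h3 : ((0, ν * ξ) : ℂ × ℂ) ∈ E.source := by
      apply hRs
      rw [mem_ball_zero_iff, Prod.norm_def, max_lt_iff]
      refine ⟨by simpa using hR, ?_⟩
      simp only [norm_mul]
      calc ‖ν‖ * ‖ξ‖ ≤ 1 * r := by gcongr
        _ < (‖μ‖ + 2 + ε) * r := by
          apply mul_lt_mul_of_pos_right _ hrpos
          linarith
        _ ≤ R := hrR
    simp only [hFh]
    rw [h2, ← hEc]
    exact E.left_inv h3
  have hFhd : ∀ q ∈ ball (0 : ℂ × ℂ) r, DifferentiableAt ℂ Fh q := fun q hq =>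
    (hr0b q (hball q hq)).1.differentiableAt (by norm_num)
  have h0r : (0 : ℂ × ℂ) ∈ ball (0 : ℂ × ℂ) r := mem_ball_self hrpos
  -- partial derivatives at the origin
  have hd1 : fderiv ℂ Fh 0 (1, 0) = (μ, 0) := by
    have h1 : HasDerivAt (fun ζ : ℂ => Fh (ζ, 0)) (fderiv ℂ Fh 0 (1, 0)) 0 := by
      have h2 : HasFDerivAt Fh (fderiv ℂ Fh 0) ((0 : ℂ), (0 : ℂ)) := (hFhd 0 h0r).hasFDerivAt
      have h3 : HasDerivAt (fun ζ : ℂ => ((ζ, 0) : ℂ × ℂ)) (1, 0) 0 :=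
        (hasDerivAt_id (0 : ℂ)).prodMk (hasDerivAt_const _ _)
      exact BoxCoord_comp Fh (fun ζ : ℂ => ((ζ, 0) : ℂ × ℂ)) 0 _ h2 _ h3
    have h4 : HasDerivAt (fun ζ : ℂ => ((μ * ζ, 0) : ℂ × ℂ)) (μ, 0) 0 := by
      have h5 : HasDerivAt (fun z : ℂ => μ * z) μ 0 := by
        simpa using (hasDerivAt_id (0 : ℂ)).const_mul μ
      exact h5.prodMk (hasDerivAt_const _ _)
    have h6 : (fun ζ : ℂ => Fh (ζ, 0)) =ᶠ[𝓝 0] fun ζ : ℂ => ((μ * ζ, 0) : ℂ × ℂ) := by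
      filter_upwards [ball_mem_nhds (0 : ℂ) hrpos] with ζ hζ
      exact hax1 ζ (by simpa using hζ)
    exact (h1.congr_of_eventuallyEq h6.symm).unique h4
  have hd2 : fderiv ℂ Fh 0 (0, 1) = (0, ν) := by
    have h1 : HasDerivAt (fun ζ : ℂ => Fh (0, ζ)) (fderiv ℂ Fh 0 (0, 1)) 0 := by
      have h2 : HasFDerivAt Fh (fderiv ℂ Fh 0) ((0 : ℂ), (0 : ℂ)) := (hFhd 0 h0r).hasFDerivAt
      have h3 : HasDerivAt (fun ζ : ℂ => ((0, ζ) : ℂ × ℂ)) (0, 1) 0 :=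
        (hasDerivAt_const _ _).prodMk (hasDerivAt_id (0 : ℂ))
      exact BoxCoord_comp Fh (fun ζ : ℂ => ((0, ζ) : ℂ × ℂ)) 0 _ h2 _ h3
    have h4 : HasDerivAt (fun ζ : ℂ => ((0, ν * ζ) : ℂ × ℂ)) (0, ν) 0 := by
      have h5 : HasDerivAt (fun z : ℂ => ν * z) ν 0 := by
        simpa using (hasDerivAt_id (0 : ℂ)).const_mul ν
      exact (hasDerivAt_const _ _).prodMk h5
    have h6 : (fun ζ : ℂ => Fh (0, ζ)) =ᶠ[𝓝 0] fun ζ : ℂ => ((0, ν * ζ) : ℂ × ℂ) := by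
      filter_upwards [ball_mem_nhds (0 : ℂ) hrpos] with ζ hζ
      exact hax2 ζ (by simpa using hζ)
    exact (h1.congr_of_eventuallyEq h6.symm).unique h4
  refine ⟨r, hrpos, hrR, Fh, fun q hq => (hFhd q hq).differentiableWithinAt, ?_⟩
  intro q hq
  obtain ⟨-, hqR, hqt, -⟩ := hr0b q (hball q hq)
  have hq1 : ‖q.1‖ < r := (norm_fst_le q).trans_lt (mem_ball_zero_iff.1 hq)
  have hq2 : ‖q.2‖ < r := (norm_snd_le q).trans_lt (mem_ball_zero_iff.1 hq)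
  have hmemq : ∀ s t : ℂ, ‖s‖ < r → ‖t‖ < r → ((s, t) : ℂ × ℂ) ∈ ball (0 : ℂ × ℂ) r := by
    intro s t h1 h2
    rw [mem_ball_zero_iff, Prod.norm_def, max_lt_iff]
    exact ⟨h1, h2⟩
  refine ⟨hqR, ?_, ?_, ?_⟩
  · have : Ξ (Fh q) = F (Ξ q) := by
      simp only [hFh]
      rw [← hEc]
      exact E.right_inv hqt
    exact this.symm
  · have hderiv : ∀ t ∈ ball (0 : ℂ) r, HasDerivWithinAt (fun t : ℂ => (Fh (t, q.2)).1 - μ * t)
        ((fderiv ℂ Fh (t, q.2) (1, 0)).1 - μ) (ball (0 : ℂ) r) t := by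
      intro t ht
      have h2 : HasFDerivAt Fh (fderiv ℂ Fh (t, q.2)) (t, q.2) :=
        (hFhd _ (hmemq t q.2 (by simpa using ht) hq2)).hasFDerivAt
      have h3 : HasDerivAt (fun ζ : ℂ => ((ζ, q.2) : ℂ × ℂ)) (1, 0) t :=
        (hasDerivAt_id t).prodMk (hasDerivAt_const _ _)
      have h4 : HasDerivAt (fun ζ : ℂ => Fh (ζ, q.2)) (fderiv ℂ Fh (t, q.2) (1, 0)) t :=
        BoxCoord_comp Fh (fun ζ : ℂ => ((ζ, q.2) : ℂ × ℂ)) t _ h2 _ h3
      have h5 : HasDerivAt (fun z : ℂ => μ * z) μ t := by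
        simpa using (hasDerivAt_id t).const_mul μ
      exact ((BoxCoord_fst _ _ _ h4).sub h5).hasDerivWithinAt
    have hbound : ∀ t ∈ ball (0 : ℂ) r, ‖(fderiv ℂ Fh (t, q.2) (1, 0)).1 - μ‖ ≤ ε := by
      intro t ht
      have h1 : ‖fderiv ℂ Fh (t, q.2) - fderiv ℂ Fh 0‖ < ε :=
        (hr0b _ (hball _ (hmemq t q.2 (by simpa using ht) hq2))).2.2.2
      have h2 : (fderiv ℂ Fh (t, q.2) (1, 0)).1 - μ =
          ((fderiv ℂ Fh (t, q.2) - fderiv ℂ Fh 0) (1, 0)).1 := by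
        rw [sub_apply, hd1]
        rfl
      rw [h2]
      calc ‖((fderiv ℂ Fh (t, q.2) - fderiv ℂ Fh 0) (1, 0)).1‖
          ≤ ‖(fderiv ℂ Fh (t, q.2) - fderiv ℂ Fh 0) (1, 0)‖ := norm_fst_le _
        _ ≤ ‖fderiv ℂ Fh (t, q.2) - fderiv ℂ Fh 0‖ * ‖((1, 0) : ℂ × ℂ)‖ :=
            ContinuousLinearMap.le_opNorm _ _
        _ ≤ ε * 1 := by
            apply mul_le_mul h1.le _ (norm_nonneg _) hε.le
            simp [Prod.norm_def]
        _ = ε := mul_one ε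
    have h7 := (convex_ball (0 : ℂ) r).norm_image_sub_le_of_norm_hasDerivWithin_le
      hderiv hbound (mem_ball_self hrpos) (y := q.1) (by simpa using hq1)
    have h8 : (Fh (0, q.2)).1 = 0 := by rw [hax2 _ hq2]
    simp only [h8, mul_zero, sub_zero] at h7
    exact h7
  · have hderiv : ∀ t ∈ ball (0 : ℂ) r, HasDerivWithinAt (fun t : ℂ => (Fh (q.1, t)).2 - ν * t)
        ((fderiv ℂ Fh (q.1, t) (0, 1)).2 - ν) (ball (0 : ℂ) r) t := by
      intro t ht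
      have h2 : HasFDerivAt Fh (fderiv ℂ Fh (q.1, t)) (q.1, t) :=
        (hFhd _ (hmemq q.1 t hq1 (by simpa using ht))).hasFDerivAt
      have h3 : HasDerivAt (fun ζ : ℂ => ((q.1, ζ) : ℂ × ℂ)) (0, 1) t :=
        (hasDerivAt_const _ _).prodMk (hasDerivAt_id t)
      have h4 : HasDerivAt (fun ζ : ℂ => Fh (q.1, ζ)) (fderiv ℂ Fh (q.1, t) (0, 1)) t :=
        BoxCoord_comp Fh (fun ζ : ℂ => ((q.1, ζ) : ℂ × ℂ)) t _ h2 _ h3
      have h5 : HasDerivAt (fun z : ℂ => ν * z) ν t := by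
        simpa using (hasDerivAt_id t).const_mul ν
      exact ((BoxCoord_snd _ _ _ h4).sub h5).hasDerivWithinAt
    have hbound : ∀ t ∈ ball (0 : ℂ) r, ‖(fderiv ℂ Fh (q.1, t) (0, 1)).2 - ν‖ ≤ ε := by
      intro t ht
      have h1 : ‖fderiv ℂ Fh (q.1, t) - fderiv ℂ Fh 0‖ < ε :=
        (hr0b _ (hball _ (hmemq q.1 t hq1 (by simpa using ht)))).2.2.2
      have h2 : (fderiv ℂ Fh (q.1, t) (0, 1)).2 - ν =
          ((fderiv ℂ Fh (q.1, t) - fderiv ℂ Fh 0) (0, 1)).2 := by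
        rw [sub_apply, hd2]
        rfl
      rw [h2]
      calc ‖((fderiv ℂ Fh (q.1, t) - fderiv ℂ Fh 0) (0, 1)).2‖
          ≤ ‖(fderiv ℂ Fh (q.1, t) - fderiv ℂ Fh 0) (0, 1)‖ := norm_snd_le _
        _ ≤ ‖fderiv ℂ Fh (q.1, t) - fderiv ℂ Fh 0‖ * ‖((0, 1) : ℂ × ℂ)‖ :=
            ContinuousLinearMap.le_opNorm _ _
        _ ≤ ε * 1 := by
            apply mul_le_mul h1.le _ (norm_nonneg _) hε.le
            simp [Prod.norm_def]
        _ = ε := mul_one ε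
    have h7 := (convex_ball (0 : ℂ) r).norm_image_sub_le_of_norm_hasDerivWithin_le
      hderiv hbound (mem_ball_self hrpos) (y := q.2) (by simpa using hq2)
    have h8 : (Fh (q.1, 0)).2 = 0 := by rw [hax1 _ hq1]
    simp only [h8, mul_zero, sub_zero] at h7
    exact h7

end H6ea4aa
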