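import Pool.Agent.H.MP_6ea4aa_an.Util2

/-!
# MP_6ea4aa: small islands avoiding the origin
-/

set_option autoImplicit false

open Complex Set Filter Topology Metric

namespace H6ea4aa

theorem Island_mu_ne {g : ℂ → ℝ} {mu : ℂ} {lam : ℝ} (hg : LinGreen g mu lam) : mu ≠ 0 := by
  intro h
  have h1 := hg.one_lt_mu
  rw [h, norm_zero] at h1
  linarith

theorem Island_lam_pos {g : ℂ → ℝ} {mu : ℂ} {lam : ℝ} (hg : LinGreen g mu lam) : 0 < lam :=
  lt_trans one_pos hg.one_lt_lam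

theorem Island_zero {g : ℂ → ℝ} {mu : ℂ} {lam : ℝ} (hg : LinGreen g mu lam) : g 0 = 0 := by
  have h := hg.scale 0
  rw [mul_zero] at h
  have h1 : (lam - 1) * g 0 = 0 := by linarith
  rcases mul_eq_zero.1 h1 with h2 | h2
  · have := hg.one_lt_lam
    linarith
  · exact h2

theorem Island_scale_pow {g : ℂ → ℝ} {mu : ℂ} {lam : ℝ} (hg : LinGreen g mu lam) (k : ℕ) (z : ℂ) :
    g (mu ^ k * z) = lam ^ k * g z := by
  induction k with
  | zero => simp
  | succ k ih =>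
    have h1 : mu ^ (k + 1) * z = mu * (mu ^ k * z) := by ring
    rw [h1, hg.scale, ih]
    ring

theorem Island_scale_inv {g : ℂ → ℝ} {mu : ℂ} {lam : ℝ} (hg : LinGreen g mu lam) (k : ℕ) (z : ℂ) :
    g z = lam ^ k * g ((mu ^ k)⁻¹ * z) := by
  rw [← Island_scale_pow hg, mul_inv_cancel_left₀ (pow_ne_zero _ (Island_mu_ne hg))]

/-- large scalings down are small -/
theorem Island_small_scale {g : ℂ → ℝ} {mu : ℂ} {lam : ℝ} (hg : LinGreen g mu lam) {R r : ℝ}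
    (hr : 0 < r) : ∃ k : ℕ, ∀ z : ℂ, ‖z‖ ≤ R → ‖(mu ^ k)⁻¹ * z‖ < r := by
  obtain ⟨k, hk⟩ := pow_unbounded_of_one_lt (max R 0 / r) hg.one_lt_mu
  refine ⟨k, fun z hz => ?_⟩
  have hpos : 0 < ‖mu‖ ^ k := pow_pos (lt_trans one_pos hg.one_lt_mu) _
  rw [norm_mul, norm_inv, norm_pow]
  rw [div_lt_iff₀ hr] at hk
  have h1 : ‖z‖ < ‖mu‖ ^ k * r := lt_of_le_of_lt (le_trans hz (le_max_left _ _)) hk
  rw [inv_mul_lt_iff₀ hpos]
  exact h1

/-- the origin is not an isolated zero of `g` -/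
theorem LinGreen.zero_acc {g : ℂ → ℝ} {mu : ℂ} {lam : ℝ} (hg : LinGreen g mu lam) :
    ∀ r > 0, ∃ z : ℂ, z ≠ 0 ∧ ‖z‖ < r ∧ g z = 0 := by
  intro r hr
  by_contra hcon
  push Not at hcon
  have hpos : ∀ z : ℂ, z ≠ 0 → 0 < g z := by
    intro z hz
    obtain ⟨k, hk⟩ := Island_small_scale hg (R := ‖z‖) hr
    have h1 : g ((mu ^ k)⁻¹ * z) ≠ 0 := hcon _
      (mul_ne_zero (inv_ne_zero (pow_ne_zero _ (Island_mu_ne hg))) hz) (hk z le_rfl)
    have h2 : 0 < g ((mu ^ k)⁻¹ * z) := lt_of_le_of_ne (hg.nonneg _) (Ne.symm h1)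
    rw [Island_scale_inv hg k z]
    exact mul_pos (pow_pos (Island_lam_pos hg) _) h2
  have hloc : ∀ z, LocRe g z := by
    intro z
    by_cases hz : z = 0
    · rw [hz]
      exact locRe_removable one_pos hg.cont.continuousOn
        (fun ζ _ hζ => hg.harm ζ (hpos ζ hζ))
    · exact hg.harm z (hpos z hz)
  obtain ⟨z, hz⟩ := hg.nontriv
  have h1 := locRe_liouville hloc hg.nonneg z 0
  rw [Island_zero hg] at h1
  linarith

/-- if there is an island, there are arbitrarily small ones which avoid the origin -/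
theorem island_small {g : ℂ → ℝ} {mu : ℂ} {lam : ℝ} (hg : LinGreen g mu lam)
    (h : ¬ NoIsland g) (r : ℝ) (hr : 0 < r) :
    ∃ Q : Set ℂ, IsOpen Q ∧ Q ⊆ ball 0 r ∧ (0 : ℂ) ∉ Q ∧ (∃ z ∈ Q, g z = 0) ∧
      ∀ z ∈ frontier Q, 0 < g z := by
  have hmu := Island_mu_ne hg
  have hlam := Island_lam_pos hg
  -- an island avoiding the origin
  have key : ∃ Q : Set ℂ, IsOpen Q ∧ Bornology.IsBounded Q ∧ (0 : ℂ) ∉ Q ∧ (∃ z ∈ Q, g z = 0) ∧
      ∀ z ∈ frontier Q, 0 < g z := by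
    unfold NoIsland at h
    push Not at h
    obtain ⟨Q0, hQo, hQb, ⟨z0, hz0, hgz0⟩, hfr⟩ := h
    have hfr' : ∀ z ∈ frontier Q0, 0 < g z := fun z hz =>
      lt_of_le_of_ne (hg.nonneg z) (Ne.symm (hfr z hz))
    by_cases h0 : (0 : ℂ) ∈ Q0
    · obtain ⟨ρ, hρ, hball⟩ := Metric.isOpen_iff.1 hQo 0 h0
      obtain ⟨z1, hz1, hz1ρ, hgz1⟩ := hg.zero_acc ρ hρ
      have hz1Q : z1 ∈ Q0 := hball (by simpa using hz1ρ)
      obtain ⟨R, hR⟩ := (isBounded_iff_forall_norm_le.1 hQb.closure)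
      obtain ⟨j, hj⟩ := pow_unbounded_of_one_lt (R / ‖z1‖) hg.one_lt_mu
      have hz1pos : 0 < ‖z1‖ := norm_pos_iff.2 hz1
      have hout : mu ^ j * z1 ∉ closure Q0 := by
        intro hmem
        have h1 := hR _ hmem
        rw [norm_mul, norm_pow] at h1
        rw [div_lt_iff₀ hz1pos] at hj
        linarith
      let e : ℂ ≃ₜ ℂ := Homeomorph.mulLeft₀ (mu ^ j) (pow_ne_zero _ hmu)
      have he : ∀ z, e z = mu ^ j * z := fun z => rfl
      refine ⟨e '' Q0 ∩ (closure Q0)ᶜ, ?_, ?_, ?_, ?_, ?_⟩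
      · exact (e.isOpenMap _ hQo).inter isClosed_closure.isOpen_compl
      · refine Bornology.IsBounded.subset ?_ inter_subset_left
        rw [isBounded_iff_forall_norm_le]
        refine ⟨‖mu‖ ^ j * R, ?_⟩
        rintro _ ⟨z, hz, rfl⟩
        rw [he, norm_mul, norm_pow]
        exact mul_le_mul_of_nonneg_left (hR z (subset_closure hz)) (by positivity)
      · intro hmem
        exact hmem.2 (subset_closure h0)
      · refine ⟨mu ^ j * z1, ⟨⟨z1, hz1Q, he z1⟩, hout⟩, ?_⟩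
        rw [Island_scale_pow hg, hgz1, mul_zero]
      · intro z hz
        have h1 := frontier_inter_subset _ _ hz
        rcases h1 with h1 | h1
        · have h2 := h1.1
          rw [← e.image_frontier] at h2
          obtain ⟨w, hw, rfl⟩ := h2
          rw [he, Island_scale_pow hg]
          exact mul_pos (pow_pos hlam _) (hfr' w hw)
        · have h2 := h1.2
          rw [frontier_compl] at h2
          exact hfr' z (frontier_closure_subset h2)
    · exact ⟨Q0, hQo, hQb, h0, ⟨z0, hz0, hgz0⟩, hfr'⟩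
  obtain ⟨Q1, hQo, hQb, h0, ⟨z1, hz1, hgz1⟩, hfr⟩ := key
  obtain ⟨R, hR⟩ := isBounded_iff_forall_norm_le.1 hQb
  obtain ⟨k, hk⟩ := Island_small_scale hg (R := R) hr
  have hmk : (mu ^ k)⁻¹ ≠ 0 := inv_ne_zero (pow_ne_zero _ hmu)
  let e : ℂ ≃ₜ ℂ := Homeomorph.mulLeft₀ ((mu ^ k)⁻¹) hmk
  have he : ∀ z, e z = (mu ^ k)⁻¹ * z := fun z => rfl
  have hpos : 0 < lam ^ k := pow_pos hlam _
  refine ⟨e '' Q1, e.isOpenMap _ hQo, ?_, ?_, ?_, ?_⟩
  · rintro _ ⟨z, hz, rfl⟩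
    rw [mem_ball_zero_iff, he]
    exact hk z (hR z hz)
  · rintro ⟨z, hz, hz0⟩
    rw [he] at hz0
    rcases mul_eq_zero.1 hz0 with h1 | h1
    · exact hmk h1
    · rw [h1] at hz
      exact h0 hz
  · refine ⟨e z1, ⟨z1, hz1, rfl⟩, ?_⟩
    have h1 := Island_scale_inv hg k z1
    rw [hgz1] at h1
    rw [he]
    rcases mul_eq_zero.1 h1.symm with h2 | h2
    · exact absurd h2 hpos.ne'
    · exact h2
  · intro z hz
    rw [← e.image_frontier] at hz
    obtain ⟨w, hw, rfl⟩ := hz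
    have h1 := Island_scale_inv hg k w
    have h2 := hfr w hw
    rw [h1] at h2
    rw [he]
    exact (mul_pos_iff_of_pos_left hpos).1 h2

end H6ea4aa
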