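import Pool.Agent.H.MP_6ea4aa_an.LemmaZ
import Pool.Agent.H.MP_6ea4aa_an.Island
import Pool.Agent.H.MP_6ea4aa_an.BoxCoord

/-!
# MP_6ea4aa: if `J` is connected then one of the two Green functions has no island
-/

set_option autoImplicit false

open Complex Set Filter Topology Metric

namespace H6ea4aa

/-! ### orbits in a box -/

/-- points whose orbit stays in `A` up to time `n` -/
def Box_S (Fh : ℂ × ℂ → ℂ × ℂ) (A : Set (ℂ × ℂ)) (n : ℕ) : Set (ℂ × ℂ) :=
  {q | ∀ i ≤ n, Fh^[i] q ∈ A}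

theorem Box_S_zero (Fh : ℂ × ℂ → ℂ × ℂ) (A : Set (ℂ × ℂ)) : Box_S Fh A 0 = A := by
  ext q
  simp [Box_S]

theorem Box_S_succ (Fh : ℂ × ℂ → ℂ × ℂ) (A : Set (ℂ × ℂ)) (n : ℕ) :
    Box_S Fh A (n + 1) = Box_S Fh A n ∩ (Fh^[n + 1]) ⁻¹' A := by
  ext q
  constructor
  · intro h
    exact ⟨fun i hi => h i (by omega), h (n + 1) le_rfl⟩
  · rintro ⟨h1, h2⟩ i hi
    rcases Nat.lt_or_ge i (n + 1) with h | h
    · exact h1 i (by omega)
    · obtain rfl : i = n + 1 := le_antisymm hi h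
      exact h2

theorem Box_S_mono {Fh : ℂ × ℂ → ℂ × ℂ} {A B : Set (ℂ × ℂ)} (h : A ⊆ B) (n : ℕ) :
    Box_S Fh A n ⊆ Box_S Fh B n := fun _ hq i hi => h (hq i hi)

theorem Box_open {Fh : ℂ × ℂ → ℂ × ℂ} {r : ℝ} (hF : DifferentiableOn ℂ Fh (ball 0 r)) (n : ℕ) :
    IsOpen (Box_S Fh (ball 0 r) n) ∧ DifferentiableOn ℂ (Fh^[n + 1]) (Box_S Fh (ball 0 r) n) := by
  induction n with
  | zero =>
    rw [Box_S_zero]
    exact ⟨isOpen_ball, by simpa using hF⟩
  | succ n ih =>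
    rw [Box_S_succ]
    refine ⟨ih.2.continuousOn.isOpen_inter_preimage ih.1 isOpen_ball, ?_⟩
    rw [Function.iterate_succ']
    exact hF.comp (ih.2.mono inter_subset_left) (fun q hq => hq.2)

theorem Box_diff {Fh : ℂ × ℂ → ℂ × ℂ} {r : ℝ} (hF : DifferentiableOn ℂ Fh (ball 0 r)) (n : ℕ) :
    DifferentiableOn ℂ (Fh^[n]) (Box_S Fh (ball 0 r) n) := by
  cases n with
  | zero => exact differentiableOn_id
  | succ n =>
    refine (Box_open hF n).2.mono ?_
    rw [Box_S_succ]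
    exact inter_subset_left

theorem Box_closed {Fh : ℂ × ℂ → ℂ × ℂ} {r ρ : ℝ} (hF : DifferentiableOn ℂ Fh (ball 0 r))
    (hρ : ρ < r) (n : ℕ) : IsClosed (Box_S Fh (closedBall 0 ρ) n) := by
  induction n with
  | zero =>
    rw [Box_S_zero]
    exact isClosed_closedBall
  | succ n ih =>
    rw [Box_S_succ]
    exact ((Box_open hF n).2.continuousOn.mono
      (Box_S_mono (closedBall_subset_ball hρ) n)).preimage_isClosed_of_isClosed ih
      isClosed_closedBall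

theorem Box_fst {Fh : ℂ × ℂ → ℂ × ℂ} {r m0 : ℝ} (hm : 0 ≤ m0)
    (h1 : ∀ q ∈ ball (0 : ℂ × ℂ) r, m0 * ‖q.1‖ ≤ ‖(Fh q).1‖) {n : ℕ} {q : ℂ × ℂ}
    (hq : q ∈ Box_S Fh (ball 0 r) n) (i k : ℕ) (hik : i + k ≤ n) :
    m0 ^ k * ‖(Fh^[i] q).1‖ ≤ ‖(Fh^[i + k] q).1‖ := by
  induction k with
  | zero => simp
  | succ k ih =>
    have h := h1 _ (hq (i + k) (by omega))
    have h' := ih (by omega)
    rw [← add_assoc, Function.iterate_succ', Function.comp_apply]
    calc m0 ^ (k + 1) * ‖(Fh^[i] q).1‖ = m0 * (m0 ^ k * ‖(Fh^[i] q).1‖) := by ring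
      _ ≤ m0 * ‖(Fh^[i + k] q).1‖ := mul_le_mul_of_nonneg_left h' hm
      _ ≤ _ := h

theorem Box_snd {Fh : ℂ × ℂ → ℂ × ℂ} {r n0 : ℝ} (hn : 0 ≤ n0)
    (h2 : ∀ q ∈ ball (0 : ℂ × ℂ) r, ‖(Fh q).2‖ ≤ n0 * ‖q.2‖) {n : ℕ} {q : ℂ × ℂ}
    (hq : q ∈ Box_S Fh (ball 0 r) n) (i : ℕ) (hi : i ≤ n) :
    ‖(Fh^[i] q).2‖ ≤ n0 ^ i * ‖q.2‖ := by
  induction i with
  | zero => simp
  | succ i ih =>
    have h := h2 _ (hq i (by omega))
    have h' := ih (by omega)
    rw [Function.iterate_succ', Function.comp_apply]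
    calc ‖(Fh (Fh^[i] q)).2‖ ≤ n0 * ‖(Fh^[i] q).2‖ := h
      _ ≤ n0 * (n0 ^ i * ‖q.2‖) := mul_le_mul_of_nonneg_left h' hn
      _ = _ := by ring

theorem Box_conj {F Fh Xi : ℂ × ℂ → ℂ × ℂ} {r : ℝ}
    (h : ∀ q ∈ ball (0 : ℂ × ℂ) r, F (Xi q) = Xi (Fh q)) {n : ℕ} {q : ℂ × ℂ}
    (hq : q ∈ Box_S Fh (ball 0 r) n) (i : ℕ) (hi : i ≤ n) :
    F^[i] (Xi q) = Xi (Fh^[i] q) := by
  induction i with
  | zero => simp
  | succ i ih =>
    rw [Function.iterate_succ', Function.comp_apply, ih (by omega), h _ (hq i (by omega)),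
      Function.iterate_succ', Function.comp_apply]

/-- norm control of an orbit by its last first coordinate and its first second coordinate -/
theorem Box_norm {Fh : ℂ × ℂ → ℂ × ℂ} {r m0 n0 ρ : ℝ} (hm : 1 ≤ m0) (hn : 0 ≤ n0) (hn1 : n0 ≤ 1)
    (h1 : ∀ q ∈ ball (0 : ℂ × ℂ) r, m0 * ‖q.1‖ ≤ ‖(Fh q).1‖)
    (h2 : ∀ q ∈ ball (0 : ℂ × ℂ) r, ‖(Fh q).2‖ ≤ n0 * ‖q.2‖) {n : ℕ} {q : ℂ × ℂ}
    (hq : q ∈ Box_S Fh (ball 0 r) n) (hq2 : ‖q.2‖ ≤ ρ) (hqn : ‖(Fh^[n] q).1‖ ≤ ρ) :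
    q ∈ Box_S Fh (closedBall 0 ρ) n := by
  intro i hi
  rw [mem_closedBall_zero_iff, Prod.norm_def]
  refine max_le ?_ ?_
  · have h := Box_fst (by linarith) h1 hq i (n - i) (by omega)
    rw [Nat.add_sub_cancel' hi] at h
    have : (1 : ℝ) ≤ m0 ^ (n - i) := one_le_pow₀ hm
    nlinarith [norm_nonneg (Fh^[i] q).1]
  · have h := Box_snd hn h2 hq i hi
    have : n0 ^ i ≤ 1 := pow_le_one₀ hn hn1
    nlinarith [norm_nonneg q.2]

theorem Box_Gp_iter (c b : ℂ) (hb : ‖b‖ = 1) (n : ℕ) (p : ℂ × ℂ) :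
    Gp c b ((hen c b)^[n] p) = 2 ^ n * Gp c b p := by
  induction n with
  | zero => simp
  | succ n ih =>
    rw [Function.iterate_succ', Function.comp_apply, Gp_hen c b hb, ih]
    ring

/-- a continuous positive function on a compact set has a positive lower bound -/
theorem Box_pos_lower {K : Set ℂ} (hK : IsCompact K) {g : ℂ → ℝ} (hg : Continuous g)
    (h : ∀ z ∈ K, 0 < g z) : ∃ d > 0, ∀ z ∈ K, d ≤ g z := by
  obtain ⟨a, ha, h'⟩ := hK.exists_forall_le' hg.continuousOn h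
  exact ⟨a, ha, h'⟩

/-- uniform continuity -/
theorem Box_unif {A : ℂ × ℂ → ℝ} (hA : Continuous A) (r d : ℝ) (hd : 0 < d) :
    ∃ η > 0, ∀ q ∈ closedBall (0 : ℂ × ℂ) r, ∀ q' ∈ closedBall (0 : ℂ × ℂ) r,
      dist q q' ≤ η → |A q - A q'| ≤ d := by
  have hK : IsCompact (closedBall (0 : ℂ × ℂ) r) := isCompact_closedBall _ _
  have := hK.uniformContinuousOn_of_continuous hA.continuousOn
  rw [Metric.uniformContinuousOn_iff] at this
  obtain ⟨η, hη, h⟩ := this d hd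
  refine ⟨η / 2, by linarith, fun q hq q' hq' hd' => ?_⟩
  have := h q hq q' hq' (by linarith)
  rw [Real.dist_eq] at this
  exact this.le

/-- zero value at the origin -/
theorem Box_zero {g : ℂ → ℝ} {mu : ℂ} {lam : ℝ} (hg : LinGreen g mu lam) : g 0 = 0 := by
  have h := hg.scale 0
  rw [mul_zero] at h
  have := hg.one_lt_lam
  by_contra h0
  have : (lam - 1) * g 0 = 0 := by linarith
  rcases mul_eq_zero.1 this with h' | h'
  · linarith
  · exact h0 h'

/-- positive values near the origin -/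
theorem Box_near {g : ℂ → ℝ} {mu : ℂ} {lam : ℝ} (hg : LinGreen g mu lam) :
    ∃ᶠ z in 𝓝 (0 : ℂ), 0 < g z := by
  obtain ⟨z, hz⟩ := hg.nontriv
  have hmu : mu ≠ 0 := by
    intro h
    have := hg.one_lt_mu
    rw [h, norm_zero] at this
    linarith
  have hl : 0 < lam := by linarith [hg.one_lt_lam]
  have hk : ∀ k : ℕ, 0 < g ((mu⁻¹) ^ k * z) := by
    intro k
    induction k with
    | zero => simpa using hz
    | succ k ih =>
      have h := hg.scale ((mu⁻¹) ^ (k + 1) * z)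
      have h' : mu * ((mu⁻¹) ^ (k + 1) * z) = (mu⁻¹) ^ k * z := by
        rw [pow_succ]
        field_simp
      rw [h'] at h
      rw [h] at ih
      exact (mul_pos_iff_of_pos_left hl).1 ih
  have ht : Tendsto (fun k : ℕ => (mu⁻¹) ^ k * z) atTop (𝓝 0) := by
    have h1 : ‖mu⁻¹‖ < 1 := by
      rw [norm_inv]
      exact inv_lt_one_of_one_lt₀ hg.one_lt_mu
    simpa using (tendsto_pow_atTop_nhds_zero_of_norm_lt_one h1).mul_const z
  exact ht.frequently (Frequently.of_forall hk)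

theorem box (c b : ℂ) (hb : ‖b‖ = 1) (N : ℕ) (hN : 0 < N) (p v w : ℂ × ℂ) (μ ν : ℂ)
    (hμ : 1 < ‖μ‖) (hν : ‖ν‖ < 1) (hν0 : ν ≠ 0) (hv : v ≠ 0) (hw : w ≠ 0)
    (ψu ψs : ℂ → ℂ × ℂ) (hu : Differentiable ℂ ψu) (hs : Differentiable ℂ ψs)
    (hu0 : ψu 0 = p) (hs0 : ψs 0 = p) (hud : HasDerivAt ψu v 0) (hsd : HasDerivAt ψs w 0)
    (hus : ∀ z, (hen c b)^[N] (ψu z) = ψu (μ * z)) (hss : ∀ z, (hen c b)^[N] (ψs z) = ψs (ν * z))
    (hgu : LinGreen (fun z => Gp c b (ψu z)) μ (2 ^ N))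
    (hgs : LinGreen (fun z => Gm c b (ψs z)) ν⁻¹ (2 ^ N))
    (hJ : IsPreconnected (JJ c b)) :
    NoIsland (fun z => Gp c b (ψu z)) ∨ NoIsland (fun z => Gm c b (ψs z)) := by
  by_contra hcon
  push Not at hcon
  obtain ⟨hnu, hns⟩ := hcon
  set F : ℂ × ℂ → ℂ × ℂ := (hen c b)^[N] with hFdef
  have hF : Differentiable ℂ F := by
    rw [hFdef]
    clear_value F
    clear hus hss hFdef hN hgu hgs
    induction N with
    | zero => exact differentiable_id
    | succ N ih =>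
      rw [Function.iterate_succ']
      exact (hen_differentiable c b).comp ih
  obtain ⟨ε, hε, hε1, hε2⟩ : ∃ ε > 0, ε ≤ (‖μ‖ - 1) / 4 ∧ ε ≤ (1 - ‖ν‖) / 4 :=
    ⟨min ((‖μ‖ - 1) / 4) ((1 - ‖ν‖) / 4), lt_min (by linarith) (by linarith),
      min_le_left _ _, min_le_right _ _⟩
  obtain ⟨R, hR, hinj, hopen, r, hr, hrR, Fh, hFh, hcoord⟩ :=
    box_coord F hF p v w μ ν hμ hν hv hw ψu ψs hu hs hu0 hs0 hud hsd hus hss ε hε
  set Xi : ℂ × ℂ → ℂ × ℂ := fun q => ψu q.1 + ψs q.2 - p with hXi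
  have hXid : Differentiable ℂ Xi :=
    ((hu.comp differentiable_fst).add (hs.comp differentiable_snd)).sub_const p
  have hXic : Continuous Xi := hXid.continuous
  have hrR' : r ≤ R := by nlinarith
  set m0 : ℝ := ‖μ‖ - ε with hm0
  set n0 : ℝ := ‖ν‖ + ε with hn0
  have hm01 : 1 < m0 := by rw [hm0]; linarith
  have hn00 : 0 ≤ n0 := by positivity
  have hn01 : n0 < 1 := by rw [hn0]; linarith
  have hf1 : ∀ q ∈ ball (0 : ℂ × ℂ) r, m0 * ‖q.1‖ ≤ ‖(Fh q).1‖ := by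
    intro q hq
    have h := (hcoord q hq).2.2.1
    have h' : ‖μ * q.1‖ ≤ ‖(Fh q).1‖ + ‖(Fh q).1 - μ * q.1‖ := by
      have := norm_sub_le (Fh q).1 ((Fh q).1 - μ * q.1)
      rwa [sub_sub_cancel] at this
    rw [norm_mul] at h'
    rw [hm0]
    nlinarith
  have hf2 : ∀ q ∈ ball (0 : ℂ × ℂ) r, ‖(Fh q).2‖ ≤ n0 * ‖q.2‖ := by
    intro q hq
    have h := (hcoord q hq).2.2.2
    have h' : ‖(Fh q).2‖ ≤ ‖(Fh q).2 - ν * q.2‖ + ‖ν * q.2‖ := by
      have := norm_add_le ((Fh q).2 - ν * q.2) (ν * q.2)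
      rwa [sub_add_cancel] at this
    rw [norm_mul] at h'
    rw [hn0]
    nlinarith
  have hconj : ∀ q ∈ ball (0 : ℂ × ℂ) r, F (Xi q) = Xi (Fh q) := fun q hq => (hcoord q hq).2.1
  -- the islands
  obtain ⟨Qu, hQu, hQur, hQu0, ⟨α0, hα, hα0⟩, hQuf⟩ := island_small hgu hnu (r / 2) (by linarith)
  obtain ⟨Qs, hQs, hQsr, hQs0, ⟨β0, hβ, hβ0⟩, hQsf⟩ := island_small hgs hns (r / 2) (by linarith)
  have hbdu : IsCompact (frontier Qu) :=
    Metric.isCompact_of_isClosed_isBounded isClosed_frontier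
      ((isBounded_ball.subset hQur).closure.subset frontier_subset_closure)
  have hbds : IsCompact (frontier Qs) :=
    Metric.isCompact_of_isClosed_isBounded isClosed_frontier
      ((isBounded_ball.subset hQsr).closure.subset frontier_subset_closure)
  obtain ⟨d1, hd1, hd1'⟩ := Box_pos_lower hbdu hgu.cont hQuf
  obtain ⟨d2, hd2, hd2'⟩ := Box_pos_lower hbds hgs.cont hQsf
  obtain ⟨d, hd, hdu, hds⟩ : ∃ d > 0, (∀ z ∈ frontier Qu, 2 * d ≤ Gp c b (ψu z)) ∧
      ∀ z ∈ frontier Qs, 2 * d ≤ Gm c b (ψs z) :=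
    ⟨min d1 d2 / 2, by positivity,
      fun z hz => by have := hd1' z hz; have := min_le_left d1 d2; linarith,
      fun z hz => by have := hd2' z hz; have := min_le_right d1 d2; linarith⟩
  -- uniform continuity
  have hA : Continuous (fun q => Gm c b (Xi q)) := (Gm_continuous c b hb).comp hXic
  have hB : Continuous (fun q => Gp c b (Xi q)) := (Gp_continuous c b hb).comp hXic
  obtain ⟨η1, hη1, hA'⟩ := Box_unif hA r (d / 2) (by linarith)
  obtain ⟨η2, hη2, hB'⟩ := Box_unif hB r (d / 2) (by linarith)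
  have hXi0 : ∀ ξ : ℂ, Xi (0, ξ) = ψs ξ := by
    intro ξ
    simp [hXi, hu0]
  have hXi1 : ∀ ζ : ℂ, Xi (ζ, 0) = ψu ζ := by
    intro ζ
    simp [hXi, hs0]
  have hAs : ∀ q ∈ closedBall (0 : ℂ × ℂ) r, ‖q.1‖ ≤ η1 →
      |Gm c b (Xi q) - Gm c b (ψs q.2)| ≤ d / 2 := by
    intro q hq hq1
    have hq' := mem_closedBall_zero_iff.1 hq
    rw [Prod.norm_def] at hq'
    have h := hA' q hq (0, q.2) (by
      rw [mem_closedBall_zero_iff, Prod.norm_def]
      simp only [norm_zero]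
      exact max_le hr.le ((le_max_right _ _).trans hq')) (by
      rw [Prod.dist_eq]
      simp only [dist_zero_right, dist_self]
      exact max_le hq1 hη1.le)
    simpa only [hXi0] using h
  have hBs : ∀ q ∈ closedBall (0 : ℂ × ℂ) r, ‖q.2‖ ≤ η2 →
      |Gp c b (Xi q) - Gp c b (ψu q.1)| ≤ d / 2 := by
    intro q hq hq1
    have hq' := mem_closedBall_zero_iff.1 hq
    rw [Prod.norm_def] at hq'
    have h := hB' q hq (q.1, 0) (by
      rw [mem_closedBall_zero_iff, Prod.norm_def]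
      simp only [norm_zero]
      exact max_le ((le_max_left _ _).trans hq') hr.le) (by
      rw [Prod.dist_eq]
      simp only [dist_zero_right, dist_self]
      exact max_le hη2.le hq1)
    simpa only [hXi1] using h
  -- the time `n`
  obtain ⟨n, hn1, hn2⟩ : ∃ n : ℕ, r ≤ η1 * m0 ^ n ∧ n0 ^ n * r ≤ η2 := by
    have t1 : ∀ᶠ n : ℕ in atTop, r / η1 ≤ m0 ^ n :=
      (tendsto_pow_atTop_atTop_of_one_lt hm01).eventually_ge_atTop _
    have t2 : ∀ᶠ n : ℕ in atTop, n0 ^ n < η2 / r :=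
      (tendsto_pow_atTop_nhds_zero_of_lt_one hn00 hn01).eventually_lt_const (by positivity)
    obtain ⟨n, h1, h2⟩ := (t1.and t2).exists
    refine ⟨n, ?_, ?_⟩
    · rw [div_le_iff₀ hη1] at h1
      linarith
    · rw [lt_div_iff₀ hr] at h2
      exact h2.le
  have hfst : ∀ q ∈ Box_S Fh (ball 0 r) n, ‖q.1‖ ≤ η1 := by
    intro q hq
    have h := Box_fst (by linarith) hf1 hq 0 n (by omega)
    simp only [Function.iterate_zero, id_eq, zero_add] at h
    have h' := mem_ball_zero_iff.1 (hq n le_rfl)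
    rw [Prod.norm_def] at h'
    have h2 := (le_max_left _ _).trans h'.le
    have hp : 0 < m0 ^ n := by positivity
    have : m0 ^ n * ‖q.1‖ ≤ m0 ^ n * η1 := by linarith
    exact le_of_mul_le_mul_left this hp
  have hsnd : ∀ q ∈ Box_S Fh (ball 0 r) n, ‖(Fh^[n] q).2‖ ≤ η2 := by
    intro q hq
    have h := Box_snd hn00 hf2 hq n le_rfl
    have h' := mem_ball_zero_iff.1 (hq 0 (Nat.zero_le _))
    simp only [Function.iterate_zero, id_eq] at h'
    rw [Prod.norm_def] at h'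
    have h2 := (le_max_right _ _).trans h'.le
    have hp : 0 ≤ n0 ^ n := by positivity
    have := mul_le_mul_of_nonneg_left h2 hp
    linarith
  -- the box
  set U : Set (ℂ × ℂ) := {q | q ∈ Box_S Fh (ball 0 r) n ∧ q.2 ∈ Qs ∧ (Fh^[n] q).1 ∈ Qu} with hU
  have hUo : IsOpen U := by
    have h1 := (Box_diff hFh n).continuousOn.isOpen_inter_preimage (Box_open hFh n).1
      (hQu.preimage continuous_fst)
    have h2 := hQs.preimage (continuous_snd (X := ℂ) (Y := ℂ))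
    have : U = (Box_S Fh (ball 0 r) n ∩ Fh^[n] ⁻¹' (Prod.fst ⁻¹' Qu)) ∩ Prod.snd ⁻¹' Qs := by
      ext q
      simp only [hU, mem_ofPred_eq, mem_inter_iff, mem_preimage]
      tauto
    rw [this]
    exact h1.inter h2
  have hUc : U ⊆ Box_S Fh (closedBall 0 (r / 2)) n := by
    rintro q ⟨h1, h2, h3⟩
    refine Box_norm hm01.le hn00 hn01.le hf1 hf2 h1 ?_ ?_
    · exact (mem_ball_zero_iff.1 (hQsr h2)).le
    · exact (mem_ball_zero_iff.1 (hQur h3)).le
  have hcl : Box_S Fh (closedBall 0 (r / 2)) n ⊆ Box_S Fh (ball 0 r) n :=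
    Box_S_mono (closedBall_subset_ball (by linarith)) n
  -- closure of the box
  have hUcl : closure U ⊆ {q | q ∈ Box_S Fh (closedBall 0 (r / 2)) n ∧ q.2 ∈ closure Qs ∧
      (Fh^[n] q).1 ∈ closure Qu} := by
    have h1 : IsClosed (Box_S Fh (closedBall 0 (r / 2)) n) := Box_closed hFh (by linarith) n
    have h2 := ((Box_diff hFh n).continuousOn.mono hcl).preimage_isClosed_of_isClosed h1
      (isClosed_closure.preimage continuous_fst : IsClosed (Prod.fst ⁻¹' (closure Qu)))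
    have h3 := (isClosed_closure (s := Qs)).preimage (continuous_snd (X := ℂ) (Y := ℂ))
    have h4 := h2.inter h3
    refine (closure_minimal ?_ h4).trans ?_
    · intro q hq
      exact ⟨⟨hUc hq, subset_closure hq.2.2⟩, subset_closure hq.2.1⟩
    · rintro q ⟨⟨h5, h6⟩, h7⟩
      exact ⟨h5, h7, h6⟩
  have hUfr : ∀ q ∈ closure U, q ∉ U → q.2 ∈ frontier Qs ∨ (Fh^[n] q).1 ∈ frontier Qu := by
    intro q hq hqU
    obtain ⟨h1, h2, h3⟩ := hUcl hq
    by_cases h4 : q.2 ∈ Qs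
    · by_cases h5 : (Fh^[n] q).1 ∈ Qu
      · exact absurd ⟨hcl h1, h4, h5⟩ hqU
      · right
        rw [hQu.frontier_eq]
        exact ⟨h3, h5⟩
    · left
      rw [hQs.frontier_eq]
      exact ⟨h2, h4⟩
  have hUball : U ⊆ ball 0 R := fun q hq =>
    ball_subset_ball hrR' (hq.1 0 (Nat.zero_le _))
  have hUbd : Bornology.IsBounded U := isBounded_ball.subset hUball
  -- `T`
  set T : Set (ℂ × ℂ) := Xi '' U with hT
  have hTo : IsOpen T := hopen U hUball hUo
  have hUcomp : IsCompact (closure U) := hUbd.isCompact_closure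
  have hTcl : closure T ⊆ Xi '' closure U :=
    closure_minimal (image_mono subset_closure) (hUcomp.image hXic).isClosed
  have hTbd : Bornology.IsBounded T :=
    (hUcomp.image hXic).isBounded.subset (image_mono subset_closure)
  have hiter : ∀ q ∈ Box_S Fh (ball 0 r) n,
      2 ^ (N * n) * Gp c b (Xi q) = Gp c b (Xi (Fh^[n] q)) := by
    intro q hq
    rw [← Box_conj hconj hq n le_rfl, hFdef, ← Function.iterate_mul, Box_Gp_iter c b hb]
  have hh1 : ∀ z ∈ frontier T, Gp c b z = 0 → d ≤ Gm c b z := by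
    intro z hz hz0
    rw [hTo.frontier_eq] at hz
    obtain ⟨hz1, hz2⟩ := hz
    obtain ⟨q, hq, rfl⟩ := hTcl hz1
    have hqU : q ∉ U := fun h => hz2 ⟨q, h, rfl⟩
    have hqS := hcl (hUcl hq).1
    rcases hUfr q hq hqU with h | h
    · have h3 := hAs q (ball_subset_closedBall (hqS 0 (Nat.zero_le _))) (hfst q hqS)
      have h4 := hds _ h
      have := (abs_le.1 h3).1
      linarith
    · exfalso
      have h3 := hBs (Fh^[n] q) (ball_subset_closedBall (hqS n le_rfl)) (hsnd q hqS)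
      have h4 := hdu _ h
      have h5 := (abs_le.1 h3).1
      have h6 := hiter q hqS
      rw [hz0, mul_zero] at h6
      linarith
  -- the slice
  have hβr : ‖β0‖ < r / 2 := mem_ball_zero_iff.1 (hQsr hβ)
  have hαr : ‖α0‖ < r / 2 := mem_ball_zero_iff.1 (hQur hα)
  have hslice : Continuous (fun ζ : ℂ => ((ζ, β0) : ℂ × ℂ)) := by fun_prop
  have hsliced : Differentiable ℂ (fun ζ : ℂ => ((ζ, β0) : ℂ × ℂ)) := by fun_prop
  -- the orbit of `(0, β0)`
  have hzero : ((0, β0) : ℂ × ℂ) ∈ Box_S Fh (ball 0 r) n ∧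
      ∀ i ≤ n, (Fh^[i] ((0, β0) : ℂ × ℂ)).1 = 0 := by
    have key : ∀ i : ℕ, (Fh^[i] ((0, β0) : ℂ × ℂ)).1 = 0 ∧
        ‖(Fh^[i] ((0, β0) : ℂ × ℂ)).2‖ < r / 2 := by
      intro i
      induction i with
      | zero => exact ⟨rfl, hβr⟩
      | succ i ih =>
        have hmem : Fh^[i] ((0, β0) : ℂ × ℂ) ∈ ball (0 : ℂ × ℂ) r := by
          rw [mem_ball_zero_iff, Prod.norm_def, ih.1, norm_zero]
          exact max_lt hr (by linarith [ih.2])
        rw [Function.iterate_succ', Function.comp_apply]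
        have h3 := (hcoord _ hmem).2.2.1
        rw [ih.1, mul_zero, sub_zero, norm_zero, mul_zero] at h3
        refine ⟨norm_le_zero_iff.1 h3, ?_⟩
        have h4 := hf2 _ hmem
        have := ih.2
        nlinarith [norm_nonneg (Fh^[i] ((0, β0) : ℂ × ℂ)).2]
    refine ⟨fun i _ => ?_, fun i _ => (key i).1⟩
    rw [mem_ball_zero_iff, Prod.norm_def, (key i).1, norm_zero]
    exact max_lt hr (by linarith [(key i).2])
  -- surjectivity: a point of the slice with last first coordinate `α0`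
  obtain ⟨a, haS, haα⟩ : ∃ a : ℂ, ((a, β0) : ℂ × ℂ) ∈ Box_S Fh (ball 0 r) n ∧
      (Fh^[n] ((a, β0) : ℂ × ℂ)).1 = α0 := by
    by_contra hno
    push Not at hno
    obtain ⟨ρ, hρ1, hρ2, hρ3⟩ : ∃ ρ : ℝ, 2 * ‖α0‖ < ρ ∧ r / 2 ≤ ρ ∧ ρ < r := by
      refine ⟨max (r / 2) (‖α0‖ + r / 2), ?_, le_max_left _ _, ?_⟩
      · exact lt_max_of_lt_right (by linarith)
      · exact max_lt (by linarith) (by linarith)
    have hρ0 : 0 < ρ := by linarith
    set W : Set ℂ := {ζ | ((ζ, β0) : ℂ × ℂ) ∈ Box_S Fh (ball 0 r) n ∧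
      ‖(Fh^[n] ((ζ, β0) : ℂ × ℂ)).1‖ < ρ} with hW
    have hWo : IsOpen W := by
      have h1 := (Box_diff hFh n).continuousOn.isOpen_inter_preimage (Box_open hFh n).1
        ((isOpen_ball (x := (0 : ℂ)) (ε := ρ)).preimage (continuous_fst (X := ℂ) (Y := ℂ)))
      have h2 := h1.preimage hslice
      convert h2 using 1
      ext ζ
      simp [hW]
    have hcl' : Box_S Fh (closedBall 0 ρ) n ⊆ Box_S Fh (ball 0 r) n :=
      Box_S_mono (closedBall_subset_ball hρ3) n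
    have hWcl : closure W ⊆ {ζ | ((ζ, β0) : ℂ × ℂ) ∈ Box_S Fh (closedBall 0 ρ) n} := by
      refine closure_minimal ?_ ((Box_closed hFh hρ3 n).preimage hslice)
      rintro ζ ⟨h1, h2⟩
      exact Box_norm hm01.le hn00 hn01.le hf1 hf2 h1 (by simp only; linarith) h2.le
    have hWbd : Bornology.IsBounded W := by
      refine (isBounded_closedBall (x := (0 : ℂ)) (r := ρ)).subset (fun ζ hζ => ?_)
      have := hWcl (subset_closure hζ) 0 (Nat.zero_le _)
      simp only [Function.iterate_zero, id_eq, mem_closedBall_zero_iff, Prod.norm_def] at this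
      rw [mem_closedBall_zero_iff]
      exact (le_max_left _ _).trans this
    have hZd : DifferentiableOn ℂ (fun ζ : ℂ => (Fh^[n] ((ζ, β0) : ℂ × ℂ)).1)
        {ζ | ((ζ, β0) : ℂ × ℂ) ∈ Box_S Fh (ball 0 r) n} := by
      have h1 := (Box_diff hFh n).comp (s := {ζ : ℂ | ((ζ, β0) : ℂ × ℂ) ∈ Box_S Fh (ball 0 r) n})
        hsliced.differentiableOn (fun ζ hζ => hζ)
      exact h1.fst
    have hDo : IsOpen {ζ | ((ζ, β0) : ℂ × ℂ) ∈ Box_S Fh (ball 0 r) n} :=
      (Box_open hFh n).1.preimage hslice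
    have hphi : DifferentiableOn ℂ (fun ζ : ℂ => ((Fh^[n] ((ζ, β0) : ℂ × ℂ)).1 - α0)⁻¹)
        {ζ | ((ζ, β0) : ℂ × ℂ) ∈ Box_S Fh (ball 0 r) n} :=
      (hZd.sub_const α0).inv (fun ζ hζ => sub_ne_zero.2 (hno ζ hζ))
    have hWsub : closure W ⊆ {ζ | ((ζ, β0) : ℂ × ℂ) ∈ Box_S Fh (ball 0 r) n} :=
      fun ζ hζ => hcl' (hWcl hζ)
    have hdc : DiffContOnCl ℂ (fun ζ : ℂ => ((Fh^[n] ((ζ, β0) : ℂ × ℂ)).1 - α0)⁻¹) W :=
      ⟨hphi.mono (subset_closure.trans hWsub), hphi.continuousOn.mono hWsub⟩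
    have hfr : ∀ ζ ∈ frontier W, ‖((Fh^[n] ((ζ, β0) : ℂ × ℂ)).1 - α0)⁻¹‖ ≤ (ρ - ‖α0‖)⁻¹ := by
      intro ζ hζ
      rw [hWo.frontier_eq] at hζ
      have hge : ρ ≤ ‖(Fh^[n] ((ζ, β0) : ℂ × ℂ)).1‖ := by
        by_contra hlt
        exact hζ.2 ⟨hWsub hζ.1, not_le.1 hlt⟩
      rw [norm_inv]
      have h5 : ρ - ‖α0‖ ≤ ‖(Fh^[n] ((ζ, β0) : ℂ × ℂ)).1 - α0‖ := by
        have := norm_sub_norm_le (Fh^[n] ((ζ, β0) : ℂ × ℂ)).1 α0
        linarith
      exact inv_anti₀ (by linarith [norm_nonneg α0]) h5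
    have h0W : (0 : ℂ) ∈ W := ⟨hzero.1, by rw [hzero.2 n le_rfl, norm_zero]; exact hρ0⟩
    have h6 := Complex.norm_le_of_forall_mem_frontier_norm_le hWbd hdc hfr (subset_closure h0W)
    rw [hzero.2 n le_rfl, zero_sub, norm_inv, norm_neg] at h6
    have hα0' : 0 < ‖α0‖ := norm_pos_iff.2 (fun h => hQu0 (h ▸ hα))
    have h7 := inv_le_inv₀ hα0' (by linarith : 0 < ρ - ‖α0‖) |>.1 h6
    linarith
  -- the point with `Gp = 0`
  obtain ⟨ζ0, hζ0, hζ00⟩ : ∃ ζ : ℂ, ((ζ, β0) : ℂ × ℂ) ∈ U ∧ Gp c b (Xi (ζ, β0)) = 0 := by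
    by_contra hno
    push Not at hno
    set D : Set ℂ := {ζ | ((ζ, β0) : ℂ × ℂ) ∈ U} with hD
    have hDo : IsOpen D := hUo.preimage hslice
    have hDcl : closure D ⊆ {ζ | ((ζ, β0) : ℂ × ℂ) ∈ closure U} :=
      closure_minimal (fun ζ hζ => subset_closure hζ) (isClosed_closure.preimage hslice)
    have hDbd : Bornology.IsBounded D := by
      refine (isBounded_ball (x := (0 : ℂ)) (r := R)).subset (fun ζ hζ => ?_)
      have := hUball hζ
      rw [mem_ball_zero_iff, Prod.norm_def] at this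
      rw [mem_ball_zero_iff]
      exact (le_max_left _ _).trans_lt this
    have hP : (0 : ℝ) < 2 ^ (N * n) := by positivity
    have haD : a ∈ D := ⟨haS, hβ, by rw [haα]; exact hα⟩
    have hmin := min_principle (u := fun ζ => Gp c b (Xi (ζ, β0))) (m := (3 * d / 2) / 2 ^ (N * n))
      hDo hDbd (hB.comp hslice).continuousOn ?_ ?_ a haD
    · -- value at `a`
      have h1 := hBs (Fh^[n] ((a, β0) : ℂ × ℂ)) (ball_subset_closedBall (haS n le_rfl))
        (hsnd _ haS)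
      rw [haα] at h1
      rw [hα0, sub_zero] at h1
      have h2 := (abs_le.1 h1).2
      rw [← hiter _ haS] at h2
      rw [div_le_iff₀ hP] at hmin
      linarith
    · intro ζ hζ
      have hpos : 0 < Gp c b (Xi (ζ, β0)) :=
        lt_of_le_of_ne (Gp_nonneg c b hb _) (Ne.symm (hno ζ hζ))
      obtain ⟨t, ht, G, hG, hGe, -⟩ := Gp_locRe2 c b hb hpos
      have hcomp : Continuous (fun ζ : ℂ => Xi (ζ, β0)) := hXic.comp hslice
      obtain ⟨t', ht', hsub⟩ := Metric.isOpen_iff.1 (isOpen_ball.preimage hcomp :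
        IsOpen ((fun ζ : ℂ => Xi (ζ, β0)) ⁻¹' ball (Xi (ζ, β0)) t)) ζ (mem_ball_self ht)
      refine ⟨t', ht', fun ζ => G (Xi (ζ, β0)), ?_, fun z hz => hGe _ (hsub hz)⟩
      exact hG.comp (hXid.comp hsliced).differentiableOn (fun z hz => hsub hz)
    · intro ζ hζ
      rw [hDo.frontier_eq] at hζ
      have hq := hDcl hζ.1
      have hqU : ((ζ, β0) : ℂ × ℂ) ∉ U := hζ.2
      have hqS := hcl (hUcl hq).1
      rcases hUfr _ hq hqU with h | h
      · exfalso
        rw [hQs.frontier_eq] at h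
        exact h.2 hβ
      · have h3 := hBs _ (ball_subset_closedBall (hqS n le_rfl)) (hsnd _ hqS)
        have h4 := hdu _ h
        have h5 := (abs_le.1 h3).1
        rw [← hiter _ hqS] at h5
        rw [div_le_iff₀ hP]
        linarith
  have hζS := hζ0.1
  have hh2 : ∃ z ∈ T, Gp c b z = 0 ∧ Gm c b z < d := by
    refine ⟨Xi (ζ0, β0), ⟨_, hζ0, rfl⟩, hζ00, ?_⟩
    have h3 := hAs _ (ball_subset_closedBall (hζS 0 (Nat.zero_le _))) (hfst _ hζS)
    simp only [Function.iterate_zero, id_eq] at h3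
    rw [hβ0, sub_zero] at h3
    have := (abs_le.1 h3).2
    linarith
  obtain ⟨y, hyT, hyJ⟩ := lemmaZ c b hb T hTo hTbd d hd hh1 hh2
  -- the point `p` is in `J`
  have hKpc : IsClosed (Kp c b) := by
    have : Kp c b = {q | Gp c b q = 0} := by
      ext q
      exact (Gp_zero_iff c b hb q).symm
    rw [this]
    exact isClosed_eq (Gp_continuous c b hb) continuous_const
  have hKmc : IsClosed (Km c b) := by
    have : Km c b = {q | Gm c b q = 0} := by
      ext q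
      exact (Gm_zero_iff c b hb q).symm
    rw [this]
    exact isClosed_eq (Gm_continuous c b hb) continuous_const
  have hpJ : p ∈ JJ c b := by
    constructor
    · rw [hKpc.frontier_eq]
      have h0 : Gp c b p = 0 := by
        have := Box_zero hgu
        rwa [hu0] at this
      refine ⟨(Gp_zero_iff c b hb p).1 h0, fun hint => ?_⟩
      have h1 : ∀ᶠ z in 𝓝 (0 : ℂ), ψu z ∈ Kp c b := by
        have h2 : interior (Kp c b) ∈ 𝓝 (ψu 0) := by
          rw [hu0]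
          exact isOpen_interior.mem_nhds hint
        filter_upwards [hu.continuous.continuousAt.preimage_mem_nhds h2] with z hz
        exact interior_subset hz
      obtain ⟨z, hz1, hz2⟩ := ((Box_near hgu).and_eventually h1).exists
      have := (Gp_zero_iff c b hb _).2 hz2
      linarith
    · rw [hKmc.frontier_eq]
      have h0 : Gm c b p = 0 := by
        have := Box_zero hgs
        rwa [hs0] at this
      refine ⟨(Gm_zero_iff c b hb p).1 h0, fun hint => ?_⟩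
      have h1 : ∀ᶠ z in 𝓝 (0 : ℂ), ψs z ∈ Km c b := by
        have h2 : interior (Km c b) ∈ 𝓝 (ψs 0) := by
          rw [hs0]
          exact isOpen_interior.mem_nhds hint
        filter_upwards [hs.continuous.continuousAt.preimage_mem_nhds h2] with z hz
        exact interior_subset hz
      obtain ⟨z, hz1, hz2⟩ := ((Box_near hgs).and_eventually h1).exists
      have := (Gm_zero_iff c b hb _).2 hz2
      linarith
  have hJfr : ∀ z ∈ JJ c b, z ∉ frontier T := by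
    rintro z ⟨hz1, hz2⟩ hz
    have h1 := (Gp_zero_iff c b hb z).2 (hKpc.frontier_subset hz1)
    have h2 := (Gm_zero_iff c b hb z).2 (hKmc.frontier_subset hz2)
    have := hh1 z hz h1
    linarith
  have hpT : p ∉ T := by
    rintro ⟨q, hq, hqp⟩
    have h0 : Xi (0, 0) = p := by rw [hXi0, hs0]
    have := hinj (hUball hq) (mem_ball_self hR : (0 : ℂ × ℂ) ∈ ball (0 : ℂ × ℂ) R)
      (hqp.trans h0.symm)
    rw [this] at hq
    exact hQs0 hq.2.1
  have hpcl : p ∉ closure T := by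
    intro h
    rw [closure_eq_self_union_frontier] at h
    rcases h with h | h
    · exact hpT h
    · exact hJfr p hpJ h
  obtain ⟨z, hz, hz1, hz2⟩ := hJ T (closure T)ᶜ hTo isClosed_closure.isOpen_compl
    (fun z hz => by
      by_cases h : z ∈ closure T
      · left
        rw [closure_eq_self_union_frontier] at h
        exact h.resolve_right (hJfr z hz)
      · right
        exact h) ⟨y, hyJ, hyT⟩ ⟨p, hpJ, hpcl⟩
  exact hz2 (subset_closure hz1)

end H6ea4aa
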