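import Pool.Agent.H.MP_6ea4aa_an.NoCrit

/-!
# MP_6ea4aa: branches of the inverse of the 'completion' of `g`, local theory
-/

set_option autoImplicit false

open Complex Set Filter Topology Metric

namespace H6ea4aa

/-- `χ` is a branch over `D` -/
def IsBranch (g : ℂ → ℝ) (χ : ℂ → ℂ) (D : Set ℂ) : Prop :=
  DifferentiableOn ℂ χ D ∧ ∀ w ∈ D, g (χ w) = w.re

variable {g : ℂ → ℝ}

/-- local conformal chart in which `g` is the real part of the coordinate -/
theorem branch_chart {z : ℂ} (h : RegRe g z) : ∃ e : OpenPartialHomeomorph ℂ ℂ, z ∈ e.source ∧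
    (∀ ζ ∈ e.source, g ζ = (e ζ).re) ∧ DifferentiableOn ℂ e e.source ∧
    DifferentiableOn ℂ e.symm e.target := by
  obtain ⟨r, hr, F, hF, hFg, hF'⟩ := h
  have hnb : ball z r ∈ 𝓝 z := ball_mem_nhds z hr
  have han : AnalyticAt ℂ F z := hF.analyticAt hnb
  have hs := han.hasStrictDerivAt
  set e₀ := (hs.hasStrictFDerivAt_equiv hF').toOpenPartialHomeomorph F with he₀
  have he₀F : (e₀ : ℂ → ℂ) = F := HasStrictFDerivAt.toOpenPartialHomeomorph_coe _
  have hz : z ∈ e₀.source := HasStrictFDerivAt.mem_toOpenPartialHomeomorph_source _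
  have hd : ContinuousAt (deriv F) z := han.deriv.continuousAt
  have hne : ∀ᶠ ζ in 𝓝 z, deriv F ζ ≠ 0 := hd.eventually_ne hF'
  obtain ⟨r', hr', hr'n⟩ := Metric.eventually_nhds_iff_ball.mp hne
  set U : Set ℂ := ball z r ∩ ball z r' with hU
  have hUo : IsOpen U := isOpen_ball.inter isOpen_ball
  set e := e₀.restrOpen U hUo with he
  have hsrc : e.source = e₀.source ∩ U := OpenPartialHomeomorph.restrOpen_source _ _ _
  have heF : (e : ℂ → ℂ) = F := by
    rw [← he₀F]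
    rfl
  refine ⟨e, ?_, ?_, ?_, ?_⟩
  · rw [hsrc]
    exact ⟨hz, mem_ball_self hr, mem_ball_self hr'⟩
  · intro ζ hζ
    rw [hsrc] at hζ
    rw [heF]
    exact hFg ζ hζ.2.1
  · rw [heF, hsrc]
    exact hF.mono (fun ζ hζ => hζ.2.1)
  · intro w hw
    have hζ : e.symm w ∈ e.source := e.map_target hw
    have hζ2 := hζ
    rw [hsrc] at hζ2
    have hdF : HasDerivAt e (deriv F (e.symm w)) (e.symm w) := by
      rw [heF]
      exact (hF.differentiableAt (isOpen_ball.mem_nhds hζ2.2.1)).hasDerivAt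
    exact (e.hasDerivAt_symm hw (hr'n _ hζ2.2.2) hdF).differentiableAt.differentiableWithinAt

theorem branch_const {U : Set ℂ} (hU : IsOpen U) (hUc : IsPreconnected U) {h : ℂ → ℂ}
    (hh : DifferentiableOn ℂ h U) (h0 : ∀ w ∈ U, (h w).re = 0) {w₀ : ℂ} (hw₀ : w₀ ∈ U)
    (hhw : h w₀ = 0) : ∀ w ∈ U, h w = 0 := by
  have han : AnalyticOnNhd ℂ h U := hh.analyticOnNhd hU
  rcases han.is_constant_or_isOpen hUc with ⟨c, hc⟩ | hopen
  · intro w hw
    rw [hc w hw, ← hc w₀ hw₀, hhw]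
  · exfalso
    have h1 := hopen U subset_rfl hU
    have h2 : (0 : ℂ) ∈ h '' U := ⟨w₀, hw₀, hhw⟩
    obtain ⟨ε, hε, hball⟩ := Metric.isOpen_iff.mp h1 0 h2
    have h3 : ((ε / 2 : ℝ) : ℂ) ∈ ball (0 : ℂ) ε := by
      rw [mem_ball, dist_zero_right, Complex.norm_real, Real.norm_eq_abs, abs_of_pos (by positivity)]
      linarith
    obtain ⟨w, hw, hwe⟩ := hball h3
    have h4 := h0 w hw
    rw [hwe, Complex.ofReal_re] at h4
    linarith

theorem branch_eventuallyEq (hreg : ∀ z, 0 < g z → RegRe g z) {D : Set ℂ} (hD : IsOpen D)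
    (hDr : D ⊆ RHP) {χ₁ χ₂ : ℂ → ℂ} (h₁ : IsBranch g χ₁ D)
    (h₂ : IsBranch g χ₂ D) {w : ℂ} (hw : w ∈ D) (h : χ₁ w = χ₂ w) : χ₁ =ᶠ[𝓝 w] χ₂ := by
  have hgz : 0 < g (χ₁ w) := by
    rw [h₁.2 w hw]
    exact hDr hw
  obtain ⟨e, he, heg, hed, -⟩ := branch_chart (hreg _ hgz)
  have hc₁ : ContinuousAt χ₁ w := h₁.1.continuousOn.continuousAt (hD.mem_nhds hw)
  have hc₂ : ContinuousAt χ₂ w := h₂.1.continuousOn.continuousAt (hD.mem_nhds hw)
  have hn₁ : ∀ᶠ v in 𝓝 w, χ₁ v ∈ e.source := hc₁ (e.open_source.mem_nhds he)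
  have hn₂ : ∀ᶠ v in 𝓝 w, χ₂ v ∈ e.source := hc₂ (e.open_source.mem_nhds (h ▸ he))
  obtain ⟨ε, hε, hball⟩ := Metric.eventually_nhds_iff_ball.mp
    ((hn₁.and hn₂).and (hD.mem_nhds hw))
  have hk : ∀ v ∈ ball w ε, e (χ₁ v) - e (χ₂ v) = 0 := by
    apply branch_const isOpen_ball (convex_ball w ε).isPreconnected (h := fun v =>
      e (χ₁ v) - e (χ₂ v)) ?_ ?_ (mem_ball_self hε) (by rw [h, sub_self])
    · intro v hv
      obtain ⟨⟨hv1, hv2⟩, hvD⟩ := hball v hv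
      have d1 : DifferentiableAt ℂ χ₁ v := h₁.1.differentiableAt (hD.mem_nhds hvD)
      have d2 : DifferentiableAt ℂ χ₂ v := h₂.1.differentiableAt (hD.mem_nhds hvD)
      have d3 : DifferentiableAt ℂ e (χ₁ v) := hed.differentiableAt (e.open_source.mem_nhds hv1)
      have d4 : DifferentiableAt ℂ e (χ₂ v) := hed.differentiableAt (e.open_source.mem_nhds hv2)
      exact ((d3.comp v d1).sub (d4.comp v d2)).differentiableWithinAt
    · intro v hv
      obtain ⟨⟨hv1, hv2⟩, hvD⟩ := hball v hv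
      simp only [Complex.sub_re]
      rw [← heg _ hv1, ← heg _ hv2, h₁.2 v hvD, h₂.2 v hvD, sub_self]
  filter_upwards [ball_mem_nhds w hε] with v hv
  obtain ⟨⟨hv1, hv2⟩, hvD⟩ := hball v hv
  exact e.injOn hv1 hv2 (sub_eq_zero.mp (hk v hv))

/-- uniqueness of branches on connected open sets -/
theorem branch_unique (hreg : ∀ z, 0 < g z → RegRe g z) {D : Set ℂ} (hD : IsOpen D)
    (hDc : IsPreconnected D) (hDr : D ⊆ RHP) {χ₁ χ₂ : ℂ → ℂ} (h₁ : IsBranch g χ₁ D)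
    (h₂ : IsBranch g χ₂ D) {w₀ : ℂ} (hw₀ : w₀ ∈ D) (h : χ₁ w₀ = χ₂ w₀) : EqOn χ₁ χ₂ D := by
  have hsub : D ⊆ {w | χ₁ =ᶠ[𝓝 w] χ₂} := by
    apply hDc.subset_of_closure_inter_subset isOpen_setOfPred_eventually_nhds
    · exact ⟨w₀, hw₀, branch_eventuallyEq hreg hD hDr h₁ h₂ hw₀ h⟩
    · rintro w ⟨hwc, hwD⟩
      apply branch_eventuallyEq hreg hD hDr h₁ h₂ hwD
      have hc₁ : ContinuousAt χ₁ w := h₁.1.continuousOn.continuousAt (hD.mem_nhds hwD)
      have hc₂ : ContinuousAt χ₂ w := h₂.1.continuousOn.continuousAt (hD.mem_nhds hwD)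
      apply tendsto_nhds_unique_of_frequently_eq hc₁ hc₂
      have := mem_closure_iff_frequently.mp hwc
      exact this.mono (fun v hv => hv.self_of_nhds)
  exact fun w hw => (hsub hw).self_of_nhds

/-- local branches exist, with locally uniform radius, and are injective -/
theorem branch_local (hc : Continuous g) (hreg : ∀ z, 0 < g z → RegRe g z) {z : ℂ} (hz : 0 < g z) :
    ∃ ρ > 0, ∃ η > 0, ∀ z' ∈ ball z η, ∀ w' : ℂ, w'.re = g z' → ball w' ρ ⊆ RHP ∧
      ∃ χ : ℂ → ℂ, IsBranch g χ (ball w' ρ) ∧ χ w' = z' ∧ InjOn χ (ball w' ρ) := by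
  obtain ⟨e, he, heg, hed, hes⟩ := branch_chart (hreg _ hz)
  obtain ⟨ρ', hρ', hball⟩ := Metric.isOpen_iff.mp e.open_target (e z) (e.map_source he)
  set ρ : ℝ := min (ρ' / 2) (g z / 2) with hρ
  have hρ0 : 0 < ρ := lt_min (by linarith) (by linarith)
  have hρ1 : 2 * ρ ≤ ρ' := by have := min_le_left (ρ' / 2) (g z / 2); rw [hρ]; linarith
  have hρ2 : ρ ≤ g z / 2 := min_le_right _ _
  have hce : ContinuousAt e z := e.continuousAt he
  have hev1 : ∀ᶠ z' in 𝓝 z, z' ∈ e.source := e.open_source.mem_nhds he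
  have hev2 : ∀ᶠ z' in 𝓝 z, e z' ∈ ball (e z) ρ := hce (ball_mem_nhds _ hρ0)
  have hev := hev1.and hev2
  obtain ⟨η, hη, hηb⟩ := Metric.eventually_nhds_iff_ball.mp hev
  refine ⟨ρ, hρ0, η, hη, fun z' hz' w' hw' => ?_⟩
  obtain ⟨hs', hb'⟩ := hηb z' hz'
  have hb2 : ‖e z' - e z‖ < ρ := by rwa [mem_ball, dist_eq_norm] at hb'
  have hgz' : ρ ≤ g z' := by
    have h1 := (abs_re_le_norm (e z' - e z)).trans_lt hb2
    rw [Complex.sub_re, ← heg _ hs', ← heg _ he, abs_lt] at h1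
    linarith [h1.1]
  have hmem : ∀ w ∈ ball w' ρ, e z' + (w - w') ∈ e.target := by
    intro w hw
    apply hball
    rw [mem_ball, dist_eq_norm] at hw ⊢
    calc ‖e z' + (w - w') - e z‖ = ‖(e z' - e z) + (w - w')‖ := by congr 1; ring
      _ ≤ ‖e z' - e z‖ + ‖w - w'‖ := norm_add_le _ _
      _ < ρ' := by linarith
  refine ⟨?_, fun w => e.symm (e z' + (w - w')), ⟨?_, ?_⟩, ?_, ?_⟩
  · intro w hw
    rw [mem_ball, dist_eq_norm] at hw
    have h1 := (abs_re_le_norm (w - w')).trans_lt hw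
    rw [Complex.sub_re, abs_lt] at h1
    change 0 < w.re
    linarith [h1.1]
  · intro w hw
    have d1 : DifferentiableAt ℂ e.symm (e z' + (w - w')) :=
      hes.differentiableAt (e.open_target.mem_nhds (hmem w hw))
    have d2 : DifferentiableAt ℂ (fun w : ℂ => e z' + (w - w')) w := by fun_prop
    exact (DifferentiableAt.comp w d1 d2).differentiableWithinAt
  · intro w hw
    simp only
    rw [heg _ (e.map_target (hmem w hw)), e.right_inv (hmem w hw), Complex.add_re, Complex.sub_re,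
      ← heg _ hs', hw']
    ring
  · simp only [sub_self, add_zero]
    exact e.left_inv hs'
  · intro w hw v hv hwv
    have := e.symm.injOn (hmem w hw) (hmem v hv) hwv
    linear_combination this

end H6ea4aa
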