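import Pool.Agent.H.MP_6ea4aa_an.UChart
import Pool.Agent.H.MP_3a36cd_an.SCV1

/-!
# MP_6ea4aa: the global chart `Π : RHP × ℂ → U⁺`
-/

set_option autoImplicit false

open Complex Set Filter Topology Metric

namespace H6ea4aa

structure Chart (c b : ℂ) where
  S : ℝ
  C : ℝ
  hS : 1 ≤ S
  hC : 1 ≤ C
  κ : ℂ → ℂ
  X : ℂ → ℂ → ℂ
  Uc : ℂ → ℂ → ℂ
  Pi : ℂ → ℂ → ℂ × ℂ
  κ_diff : Differentiable ℂ κ
  κ_per : ∀ w, κ (w + 2 * Real.pi * I) = κ w
  κ_lead : ∀ w : ℂ, 0 ≤ w.re → ‖κ w - exp (3 * w)‖ ≤ C * Real.exp (2 * w.re)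
  Pi_diff : DifferentiableOn ℂ (fun q : ℂ × ℂ => Pi q.1 q.2) {q : ℂ × ℂ | 0 < q.1.re}
  Pi_per : ∀ w u, 0 < w.re → Pi (w + 2 * Real.pi * I) u = Pi w u
  Pi_step : ∀ w u, 0 < w.re → hen c b (Pi w u) = Pi (2 * w) ((b / 2) * u + κ w)
  Pi_Gp : ∀ w u, 0 < w.re → Gp c b (Pi w u) = w.re
  Pi_inj : ∀ w : ℂ, 0 < w.re → Function.Injective (Pi w)
  /-- window coordinates -/
  Pi_win : ∀ w y, (w, y) ∈ DD S → Pi w (Uc w y) = (X w y, y)
  X_diff : DifferentiableOn ℂ (fun q : ℂ × ℂ => X q.1 q.2) (DD S)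
  X_mem : ∀ w y, (w, y) ∈ DD S → (X w y, y) ∈ VP c
  X_est : ∀ w y, (w, y) ∈ DD S → ‖X w y - exp w‖ ≤ C * (1 + ‖y‖) * Real.exp (-w.re)
  U_diff : DifferentiableOn ℂ (fun q : ℂ × ℂ => Uc q.1 q.2) (DD S)
  U_est : ∀ w y, (w, y) ∈ DD S →
    ‖Uc w y - exp w * y‖ ≤ C * (1 + ‖y‖ ^ 2) * Real.exp (-w.re)
  U_surj : ∀ w u : ℂ, S < w.re → ‖u‖ ≤ Real.exp (2 * w.re) / 4 →
    ∃ y : ℂ, ‖y‖ < Real.exp w.re / 2 ∧ Uc w y = u
  U_inj : ∀ w : ℂ, S < w.re → InjOn (Uc w) (ball 0 (Real.exp w.re / 2))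
  U_der : ∀ w y, (w, y) ∈ DD S → deriv (Uc w) y ≠ 0
  X_inj : ∀ w₁ w₂ y, (w₁, y) ∈ DD S → (w₂, y) ∈ DD S → X w₁ y = X w₂ y → exp w₁ = exp w₂
  /-- the window covers the part `‖y‖ ≤ ‖x‖ / 4` of `V⁺` at high levels -/
  cover : ∀ p ∈ VP c, S < Gp c b p → ‖p.2‖ ≤ ‖p.1‖ / 4 →
    ∃ w : ℂ, w.re = Gp c b p ∧ (w, p.2) ∈ DD S ∧ p = (X w p.2, p.2)
  /-- holomorphic curves in `U⁺` parametrised by the level, lying in `{‖y‖ < ‖x‖/4}` far out,
  lift to sections -/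
  lift : ∀ z : ℂ → ℂ × ℂ, DifferentiableOn ℂ z RHP → (∀ w ∈ RHP, Gp c b (z w) = w.re) →
    (∃ S' : ℝ, ∀ w : ℂ, S' < w.re → z w ∈ VP c ∧ ‖(z w).2‖ ≤ ‖(z w).1‖ / 4) →
    ∃ (θ : ℝ) (s : ℂ → ℂ), DifferentiableOn ℂ s RHP ∧
      (∀ w ∈ RHP, z (w - θ * I) = Pi w (s w)) ∧
      ∃ S'' : ℝ, ∀ w : ℂ, S'' < w.re → ‖s w‖ ≤ Real.exp (2 * w.re) / 3

/-! ### auxiliary: the window -/

/-- the window in the coordinates `(w, u)` -/
def ChWd (S : ℝ) : Set (ℂ × ℂ) := {q | S < q.1.re ∧ ‖q.2‖ < Real.exp (2 * q.1.re) / 4}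

theorem ChWd_open (S : ℝ) : IsOpen (ChWd S) := by
  have h1 : Continuous (fun q : ℂ × ℂ => q.1.re) := continuous_re.comp continuous_fst
  have h2 : Continuous (fun q : ℂ × ℂ => ‖q.2‖) := continuous_norm.comp continuous_snd
  refine IsOpen.inter (isOpen_lt continuous_const h1) (isOpen_lt h2 ?_)
  exact (Real.continuous_exp.comp (continuous_const.mul h1)).div_const _

theorem ChDD_open (S : ℝ) : IsOpen (DD S) := by
  have h1 : Continuous (fun q : ℂ × ℂ => q.1.re) := continuous_re.comp continuous_fst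
  have h2 : Continuous (fun q : ℂ × ℂ => ‖q.2‖) := continuous_norm.comp continuous_snd
  refine IsOpen.inter (isOpen_lt continuous_const h1) (isOpen_lt h2 ?_)
  exact (Real.continuous_exp.comp h1).div_const _

theorem ChVP_open (c : ℂ) : IsOpen (VP c) := by
  have h1 : Continuous (fun q : ℂ × ℂ => ‖q.1‖) := continuous_norm.comp continuous_fst
  have h2 : Continuous (fun q : ℂ × ℂ => ‖q.2‖) := continuous_norm.comp continuous_snd
  exact IsOpen.inter (isOpen_lt continuous_const h1) (isOpen_lt h2 h1)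

theorem ChDD_mono {S S' : ℝ} (h : S ≤ S') : DD S' ⊆ DD S := fun _ hq => ⟨h.trans_lt hq.1, hq.2⟩

theorem Ch_const_of_norm {V : Set ℂ} (hV : IsOpen V) (hc : IsPreconnected V) {f : ℂ → ℂ}
    (hf : DifferentiableOn ℂ f V) (h1 : ∀ w ∈ V, ‖f w‖ = 1) {a : ℂ} (ha : a ∈ V) :
    ∀ w ∈ V, f w = f a := by
  have hm : IsMaxOn (norm ∘ f) V a := by
    intro w hw
    show ‖f w‖ ≤ ‖f a‖
    rw [h1 w hw, h1 a ha]
  exact fun w hw => Complex.eqOn_of_isPreconnected_of_isMaxOn_norm hc hV hf ha hm hw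

section aux

variable {c b : ℂ} {P : Phi c b} {L : Leaf c b P} (U : UChart c b P L)

open Classical in
/-- the inverse of the leaf coordinate -/
noncomputable def ChY (w u : ℂ) : ℂ :=
  if h : ∃ y : ℂ, ‖y‖ < Real.exp w.re / 2 ∧ U.Uc w y = u then h.choose else 0

theorem ChY_spec {w u : ℂ} (hw : U.S < w.re) (hu : ‖u‖ ≤ Real.exp (2 * w.re) / 4) :
    ‖ChY U w u‖ < Real.exp w.re / 2 ∧ U.Uc w (ChY U w u) = u := by
  have h := U.U_surj w u hw hu
  unfold ChY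
  rw [dif_pos h]
  exact h.choose_spec

theorem ChY_eq {w u y : ℂ} (hw : U.S < w.re) (hy : ‖y‖ < Real.exp w.re / 2)
    (hu : U.Uc w y = u) : ChY U w u = y := by
  have h : ∃ y : ℂ, ‖y‖ < Real.exp w.re / 2 ∧ U.Uc w y = u := ⟨y, hy, hu⟩
  unfold ChY
  rw [dif_pos h]
  refine U.U_inj w hw ?_ ?_ ?_
  · simpa using h.choose_spec.1
  · simpa using hy
  · rw [h.choose_spec.2, hu]

/-- the map in the coordinates `(w, u)` -/
noncomputable def ChT (q : ℂ × ℂ) : ℂ × ℂ := (2 * q.1, (b / 2) * q.2 + U.κ q.1)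

/-- the local chart -/
noncomputable def ChP (q : ℂ × ℂ) : ℂ × ℂ := (L.X q.1 (ChY U q.1 q.2), ChY U q.1 q.2)

theorem Ch_hen (hb : ‖b‖ = 1) {w y : ℂ} (h : (w, y) ∈ DD U.S) :
    hen c b (L.X w y, y) = (L.X (2 * w) (L.X w y), L.X w y) := by
  have hL : (w, y) ∈ DD L.S := ChDD_mono U.hS h
  have h1 := L.mem w y hL
  have h2 := (U.U_step w y h).1
  have h3 := hen_VP c b hb h1.1
  have h4 : P.φ (hen c b (L.X w y, y)) = exp (2 * w) := by
    rw [P.step _ h1.1, h1.2, two_mul, exp_add, sq]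
  have h5 := L.uniq (2 * w) (hen c b (L.X w y, y)).1 (L.X w y) (ChDD_mono U.hS h2) h3.1 h4
  exact Prod.ext h5 rfl

theorem ChT_differentiable : Differentiable ℂ (ChT U) := by
  unfold ChT
  have := U.κ_diff
  fun_prop

theorem ChT_iter_fst (n : ℕ) (q : ℂ × ℂ) : ((ChT U)^[n] q).1 = 2 ^ n * q.1 := by
  induction n with
  | zero => simp
  | succ n ih =>
    rw [Function.iterate_succ_apply']
    show 2 * ((ChT U)^[n] q).1 = _
    rw [ih]; ring

theorem ChT_iter_re (n : ℕ) (q : ℂ × ℂ) : ((ChT U)^[n] q).1.re = 2 ^ n * q.1.re := by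
  rw [ChT_iter_fst]
  have : (2 : ℂ) ^ n = ((2 ^ n : ℝ) : ℂ) := by push_cast; rfl
  rw [this, re_ofReal_mul]

theorem Ch_kappa {C : ℝ} (hUC : U.C ≤ C) (hC : 1 ≤ C) {w : ℂ} (hw : 0 ≤ w.re) :
    ‖U.κ w‖ ≤ Real.exp (3 * w.re) + C * Real.exp (2 * w.re) := by
  have h1 := U.κ_lead w hw
  have h2 : ‖exp (3 * w)‖ = Real.exp (3 * w.re) := by
    rw [Complex.norm_exp]; simp
  have h3 : ‖U.κ w‖ ≤ ‖U.κ w - exp (3 * w)‖ + ‖exp (3 * w)‖ := by
    simpa using norm_add_le (U.κ w - exp (3 * w)) (exp (3 * w))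
  have h4 : U.C * Real.exp (2 * w.re) ≤ C * Real.exp (2 * w.re) :=
    mul_le_mul_of_nonneg_right hUC (Real.exp_pos _).le
  linarith

theorem Ch_kappa2 {C : ℝ} (hUC : U.C ≤ C) (hC : 1 ≤ C) {w : ℂ} (hw : 0 ≤ w.re) :
    ‖U.κ w‖ ≤ 2 * C * Real.exp (3 * w.re) := by
  have h1 := Ch_kappa U hUC hC hw
  have h2 : Real.exp (2 * w.re) ≤ Real.exp (3 * w.re) := Real.exp_le_exp.2 (by linarith)
  have h3 : 0 < Real.exp (3 * w.re) := Real.exp_pos _
  nlinarith [mul_le_mul_of_nonneg_left h2 (zero_le_one.trans hC)]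

theorem ChT_iter_bound (hb : ‖b‖ = 1) {C : ℝ} (hUC : U.C ≤ C) (hC : 1 ≤ C) (q : ℂ × ℂ)
    (hq : 0 ≤ q.1.re) (n : ℕ) :
    ‖((ChT U)^[n] q).2‖ ≤ ‖q.2‖ + 4 * C * Real.exp (3 / 2 * 2 ^ n * q.1.re) := by
  induction n with
  | zero =>
    have := Real.exp_pos (3 / 2 * 2 ^ 0 * q.1.re)
    simp only [Function.iterate_zero, id]
    nlinarith [mul_pos (show 0 < 4 * C by linarith) this]
  | succ n ih =>
    rw [Function.iterate_succ_apply']
    have h1 : ‖(ChT U ((ChT U)^[n] q)).2‖ ≤ ‖((ChT U)^[n] q).2‖ / 2 +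
        ‖U.κ ((ChT U)^[n] q).1‖ := by
      show ‖(b / 2) * ((ChT U)^[n] q).2 + U.κ ((ChT U)^[n] q).1‖ ≤ _
      refine (norm_add_le _ _).trans ?_
      rw [norm_mul, norm_div, hb]
      simp only [RCLike.norm_ofNat]
      linarith
    have h2 : 0 ≤ ((ChT U)^[n] q).1.re := by rw [ChT_iter_re]; positivity
    have h3 := Ch_kappa2 U hUC hC h2
    rw [ChT_iter_re] at h3
    have e1 : 3 * (2 ^ n * q.1.re) = 3 / 2 * 2 ^ (n + 1) * q.1.re := by ring
    rw [e1] at h3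
    have h4 : Real.exp (3 / 2 * 2 ^ n * q.1.re) ≤ Real.exp (3 / 2 * 2 ^ (n + 1) * q.1.re) := by
      apply Real.exp_le_exp.2
      have : 0 ≤ 2 ^ n * q.1.re := by positivity
      rw [pow_succ]; nlinarith
    have h5 : 0 ≤ ‖q.2‖ := norm_nonneg _
    nlinarith [mul_le_mul_of_nonneg_left h4 (show (0 : ℝ) ≤ 2 * C by linarith)]

theorem ChT_good (hb : ‖b‖ = 1) (S : ℝ) {x0 : ℝ} (hx0 : 0 < x0) (M : ℝ) :
    ∃ n : ℕ, ∀ m ≥ n, ∀ q : ℂ × ℂ, x0 ≤ q.1.re → ‖q.2‖ ≤ M → (ChT U)^[m] q ∈ ChWd S := by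
  set C : ℝ := U.C with hCdef
  have hC : 1 ≤ C := U.hC
  have hlim : Tendsto (fun n : ℕ => (2 : ℝ) ^ n) atTop atTop :=
    tendsto_pow_atTop_atTop_of_one_lt (by norm_num)
  obtain ⟨n, hn⟩ := (hlim.eventually_ge_atTop
    ((32 * C + 4 * |M| + 4 + |S|) / (x0 / 2))).exists
  refine ⟨n, fun m hm q hq hM => ?_⟩
  have h2 : (2 : ℝ) ^ n ≤ 2 ^ m := pow_le_pow_right₀ (by norm_num) hm
  have h3 : 32 * C + 4 * |M| + 4 + |S| ≤ 2 ^ n * (x0 / 2) := by
    rwa [div_le_iff₀ (by positivity)] at hn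
  have hqre : 0 < q.1.re := hx0.trans_le hq
  have h4 : 2 ^ n * (x0 / 2) ≤ 2 ^ m * (q.1.re / 2) := by
    refine mul_le_mul h2 (by linarith) (by positivity) (by positivity)
  set E : ℝ := Real.exp (2 ^ m * (q.1.re / 2)) with hE
  have hE1 : 32 * C + 4 * |M| + 4 ≤ E := by
    have := Real.add_one_le_exp (2 ^ m * (q.1.re / 2))
    have := abs_nonneg S
    linarith
  have hMM : M ≤ |M| := le_abs_self M
  have hMn : 0 ≤ |M| := abs_nonneg M
  have hb1 := ChT_iter_bound U hb (le_refl _) hC q hqre.le m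
  have hE3 : Real.exp (3 / 2 * 2 ^ m * q.1.re) = E ^ 3 := by
    rw [hE, ← Real.exp_nat_mul]; congr 1; push_cast; ring
  have hE4 : Real.exp (2 * ((ChT U)^[m] q).1.re) = E ^ 4 := by
    rw [hE, ← Real.exp_nat_mul, ChT_iter_re]; congr 1; push_cast; ring
  refine ⟨?_, ?_⟩
  · rw [ChT_iter_re]
    have := le_abs_self S
    have h6 : 0 ≤ 2 ^ m * (q.1.re / 2) := by positivity
    have h7 := abs_nonneg S
    nlinarith
  · rw [hE4]
    rw [hE3] at hb1
    have hE1' : 1 ≤ E := by linarith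
    have hE3' : 1 ≤ E ^ 3 := one_le_pow₀ hE1'
    have h8 : |M| + 1 ≤ E ^ 3 * (E / 4 - 4 * C) := by
      have : |M| + 1 ≤ E / 4 - 4 * C := by linarith
      nlinarith
    have : E ^ 3 * (E / 4 - 4 * C) = E ^ 4 / 4 - 4 * C * E ^ 3 := by ring
    linarith

/-- the standing assumptions on the constants -/
structure ChCon (S C : ℝ) : Prop where
  hS : U.S ≤ S
  h1 : 1 ≤ C
  hP : P.C ≤ C
  hL : L.C ≤ C
  hU : U.C ≤ C
  hE : ∀ x : ℝ, S < x → 1000 * C < Real.exp x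

variable {U} {S C : ℝ} (hc : ChCon U S C)

include hc

theorem Ch_spos : 1 ≤ S := L.hS.trans (U.hS.trans hc.hS)

theorem ChT_mem (hb : ‖b‖ = 1) {q : ℂ × ℂ} (hq1 : S < q.1.re)
    (hq2 : ‖q.2‖ ≤ Real.exp (2 * q.1.re)) : ChT U q ∈ ChWd S := by
  have hx : 0 ≤ q.1.re := by linarith [Ch_spos hc]
  have hre : (ChT U q).1.re = 2 * q.1.re := by simp [ChT]
  refine ⟨?_, ?_⟩
  · rw [hre]; linarith
  · rw [hre]
    have h1 : ‖(ChT U q).2‖ ≤ ‖q.2‖ / 2 + ‖U.κ q.1‖ := by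
      show ‖(b / 2) * q.2 + U.κ q.1‖ ≤ _
      refine (norm_add_le _ _).trans ?_
      rw [norm_mul, norm_div, hb]
      simp only [RCLike.norm_ofNat]
      linarith
    have h2 := Ch_kappa U hc.hU hc.h1 hx
    have h3 := hc.hE _ hq1
    have hC := hc.h1
    set E := Real.exp q.1.re with hE
    have e2 : Real.exp (2 * q.1.re) = E ^ 2 := by
      rw [hE, ← Real.exp_nat_mul]; norm_num
    have e3 : Real.exp (3 * q.1.re) = E ^ 3 := by
      rw [hE, ← Real.exp_nat_mul]; norm_num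
    have e4 : Real.exp (2 * (2 * q.1.re)) = E ^ 4 := by
      rw [hE, ← Real.exp_nat_mul]; congr 1; push_cast; ring
    rw [e4]
    rw [e2] at h2 hq2
    rw [e3] at h2
    have hE2 : 0 < E ^ 2 := by positivity
    have h5 : 1 / 2 + E + C < E ^ 2 / 4 := by nlinarith
    have h6 : E ^ 2 * (1 / 2 + E + C) < E ^ 2 * (E ^ 2 / 4) := mul_lt_mul_of_pos_left h5 hE2
    nlinarith

theorem ChT_Wd (hb : ‖b‖ = 1) {q : ℂ × ℂ} (hq : q ∈ ChWd S) : ChT U q ∈ ChWd S := by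
  refine ChT_mem hc hb hq.1 ?_
  have := Real.exp_pos (2 * q.1.re)
  linarith [hq.2]

theorem ChT_iter_Wd (hb : ‖b‖ = 1) {q : ℂ × ℂ} (hq : q ∈ ChWd S) (n : ℕ) :
    (ChT U)^[n] q ∈ ChWd S := by
  induction n with
  | zero => exact hq
  | succ n ih =>
    rw [Function.iterate_succ_apply']
    exact ChT_Wd hc hb ih

theorem ChP_spec {q : ℂ × ℂ} (hq : q ∈ ChWd S) :
    (q.1, ChY U q.1 q.2) ∈ DD S ∧ U.Uc q.1 (ChY U q.1 q.2) = q.2 := by
  have h := ChY_spec U (w := q.1) (u := q.2) (hc.hS.trans_lt hq.1) hq.2.le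
  exact ⟨⟨hq.1, h.1⟩, h.2⟩

/-- `hen` in the window, for points given by `(w, y)` -/
theorem Ch_hen2 (hb : ‖b‖ = 1) {w y : ℂ} (h : (w, y) ∈ DD S) :
    hen c b (L.X w y, y) = ChP U (ChT U (w, U.Uc w y)) := by
  have hU : (w, y) ∈ DD U.S := ChDD_mono hc.hS h
  have h1 := U.U_step w y hU
  have h2 : ChY U (2 * w) ((b / 2) * U.Uc w y + U.κ w) = L.X w y :=
    ChY_eq U h1.1.1 h1.1.2 h1.2
  rw [Ch_hen U hb hU]
  show _ = (L.X (2 * w) (ChY U (2 * w) ((b / 2) * U.Uc w y + U.κ w)),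
    ChY U (2 * w) ((b / 2) * U.Uc w y + U.κ w))
  rw [h2]

theorem Ch_henP (hb : ‖b‖ = 1) {q : ℂ × ℂ} (hq : q ∈ ChWd S) :
    hen c b (ChP U q) = ChP U (ChT U q) := by
  have h := ChP_spec hc hq
  have := Ch_hen2 hc hb h.1
  rw [h.2] at this
  exact this

theorem Ch_henInvP (hb : ‖b‖ = 1) {q : ℂ × ℂ} (hq : q ∈ ChWd S) :
    henInv c b (ChP U (ChT U q)) = ChP U q := by
  have hb0 : b ≠ 0 := by rintro rfl; simp at hb
  rw [← Ch_henP hc hb hq, henInv_hen c b hb0]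

theorem ChY_diff : DifferentiableOn ℂ (fun q : ℂ × ℂ => ChY U q.1 q.2) (ChWd S) := by
  intro q0 hq0
  refine DifferentiableAt.differentiableWithinAt ?_
  have h0 := ChP_spec hc hq0
  set p0 : ℂ × ℂ := (q0.1, ChY U q0.1 q0.2) with hp0
  have hp0U : p0 ∈ DD U.S := ChDD_mono hc.hS h0.1
  set Ψ : ℂ × ℂ → ℂ := fun q => U.Uc q.1 q.2 with hΨ
  have hcd : ContDiffOn ℂ (⊤ : ℕ∞) Ψ (DD U.S) :=
    Pool.Agent.ParLeaf.scv_contDiffOn (ChDD_open _) U.U_diff
  have hcda : ContDiffAt ℂ (⊤ : ℕ∞) Ψ p0 := hcd.contDiffAt ((ChDD_open _).mem_nhds hp0U)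
  set F : ℂ × ℂ → ℂ × ℂ := fun q => (q.1, Ψ q) with hF
  have hst : HasStrictFDerivAt Ψ (fderiv ℂ Ψ p0) p0 := hcda.hasStrictFDerivAt (by simp)
  have hstF : HasStrictFDerivAt F ((ContinuousLinearMap.fst ℂ ℂ ℂ).prod (fderiv ℂ Ψ p0)) p0 :=
    hasStrictFDerivAt_fst.prodMk hst
  set F' : ℂ × ℂ →L[ℂ] ℂ × ℂ := (ContinuousLinearMap.fst ℂ ℂ ℂ).prod (fderiv ℂ Ψ p0) with hF'
  have hder : fderiv ℂ Ψ p0 (0, 1) ≠ 0 := by
    have h1 := U.U_der q0.1 (ChY U q0.1 q0.2) hp0U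
    have h2 : HasDerivAt (U.Uc q0.1) (fderiv ℂ Ψ p0 (0, 1)) (ChY U q0.1 q0.2) := by
      have h3 : HasDerivAt (fun y : ℂ => ((q0.1, y) : ℂ × ℂ)) (0, 1) (ChY U q0.1 q0.2) :=
        (hasDerivAt_const _ _).prodMk (hasDerivAt_id _)
      exact hst.hasFDerivAt.comp_hasDerivAt (ChY U q0.1 q0.2) h3
    rwa [h2.deriv] at h1
  have hinj : Function.Injective (F' : ℂ × ℂ →ₗ[ℂ] ℂ × ℂ) := by
    rw [← LinearMap.ker_eq_bot, LinearMap.ker_eq_bot']
    rintro ⟨a, d⟩ had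
    have h1 : a = 0 := congrArg Prod.fst had
    have h2 : fderiv ℂ Ψ p0 (a, d) = 0 := congrArg Prod.snd had
    subst h1
    have h3 : ((0, d) : ℂ × ℂ) = d • ((0, 1) : ℂ × ℂ) := by simp
    rw [h3, map_smul, smul_eq_mul, mul_eq_zero] at h2
    rcases h2 with h2 | h2
    · rw [h2]; rfl
    · exact absurd h2 hder
  set e : (ℂ × ℂ) ≃L[ℂ] (ℂ × ℂ) :=
    (LinearEquiv.ofInjectiveEndo (F' : ℂ × ℂ →ₗ[ℂ] ℂ × ℂ) hinj).toContinuousLinearEquiv with he
  have hee : (e : ℂ × ℂ →L[ℂ] ℂ × ℂ) = F' := by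
    ext1 <;> ext1 <;> rfl
  have hstE : HasStrictFDerivAt F (e : ℂ × ℂ →L[ℂ] ℂ × ℂ) p0 := by rw [hee]; exact hstF
  have hFp0 : F p0 = q0 := Prod.ext rfl h0.2
  set G := hstE.localInverse F e p0 with hG
  have hGd : HasStrictFDerivAt G (e.symm : ℂ × ℂ →L[ℂ] ℂ × ℂ) (F p0) := hstE.to_localInverse
  have hGp : G (F p0) = p0 := hstE.localInverse_apply_image
  have hGr : ∀ᶠ q in 𝓝 (F p0), F (G q) = q := hstE.eventually_right_inverse
  rw [hFp0] at hGd hGp hGr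
  have hGc : ContinuousAt G q0 := hGd.hasFDerivAt.continuousAt
  have hGm : ∀ᶠ q in 𝓝 q0, G q ∈ DD U.S := by
    have : DD U.S ∈ 𝓝 (G q0) := by rw [hGp]; exact (ChDD_open _).mem_nhds hp0U
    exact hGc this
  have heq : (fun q : ℂ × ℂ => ChY U q.1 q.2) =ᶠ[𝓝 q0] fun q => (G q).2 := by
    filter_upwards [hGr, hGm] with q h1 h2
    have h3 : (G q).1 = q.1 := by
      have h5 := congrArg Prod.fst h1
      exact h5
    have h4 : U.Uc (G q).1 (G q).2 = q.2 := by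
      have h5 := congrArg Prod.snd h1
      exact h5
    rw [h3] at h4
    refine ChY_eq U ?_ ?_ h4
    · rw [← h3]; exact h2.1
    · rw [← h3]; exact h2.2
  exact (hGd.hasFDerivAt.differentiableAt.snd).congr_of_eventuallyEq heq

theorem ChP_diff : DifferentiableOn ℂ (ChP U) (ChWd S) := by
  have h1 := ChY_diff hc
  have h2 : DifferentiableOn ℂ (fun q : ℂ × ℂ => L.X q.1 (ChY U q.1 q.2)) (ChWd S) := by
    have h3 : DifferentiableOn ℂ (fun q : ℂ × ℂ => ((q.1, ChY U q.1 q.2) : ℂ × ℂ)) (ChWd S) :=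
      differentiableOn_fst.prodMk h1
    have h4 := L.diff.comp h3 (fun q hq => ChDD_mono (U.hS.trans hc.hS) (ChP_spec hc hq).1)
    exact h4
  exact h2.prodMk h1

omit hc in
theorem ChT_shift (m : ℕ) (q : ℂ × ℂ) (n : ℕ) :
    (ChT U)^[n] (q.1 + m * (2 * Real.pi * I), q.2) =
      (((ChT U)^[n] q).1 + ((2 ^ n * m : ℕ) : ℂ) * (2 * Real.pi * I), ((ChT U)^[n] q).2) := by
  have hper : ∀ (k : ℕ) (w : ℂ), U.κ (w + k * (2 * Real.pi * I)) = U.κ w := by
    intro k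
    induction k with
    | zero => intro w; simp
    | succ k ih =>
      intro w
      have : w + ((k + 1 : ℕ) : ℂ) * (2 * Real.pi * I) =
          (w + k * (2 * Real.pi * I)) + 2 * Real.pi * I := by push_cast; ring
      rw [this, U.κ_per, ih]
  induction n with
  | zero => simp
  | succ n ih =>
    rw [Function.iterate_succ_apply', ih, Function.iterate_succ_apply']
    refine Prod.ext ?_ ?_
    · show 2 * (((ChT U)^[n] q).1 + ((2 ^ n * m : ℕ) : ℂ) * (2 * Real.pi * I)) =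
        2 * ((ChT U)^[n] q).1 + ((2 ^ (n + 1) * m : ℕ) : ℂ) * (2 * Real.pi * I)
      push_cast; ring
    · show (b / 2) * ((ChT U)^[n] q).2 +
        U.κ (((ChT U)^[n] q).1 + ((2 ^ n * m : ℕ) : ℂ) * (2 * Real.pi * I)) =
        (b / 2) * ((ChT U)^[n] q).2 + U.κ ((ChT U)^[n] q).1
      rw [hper]

omit hc in
theorem Ch_re_shift (m : ℕ) (w : ℂ) : (w + m * (2 * Real.pi * I)).re = w.re := by
  simp

theorem ChP_per (m : ℕ) {q : ℂ × ℂ} (hq : q ∈ ChWd S) :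
    ChP U (q.1 + m * (2 * Real.pi * I), q.2) = ChP U q := by
  induction m with
  | zero => simp
  | succ m ih =>
    rw [← ih]
    set w : ℂ := q.1 + m * (2 * Real.pi * I) with hw
    have hwre : w.re = q.1.re := Ch_re_shift m q.1
    have hq' : (w, q.2) ∈ ChWd S := ⟨by simpa [hwre] using hq.1, by simpa [hwre] using hq.2⟩
    have h := ChP_spec hc hq'
    have e1 : q.1 + ((m + 1 : ℕ) : ℂ) * (2 * Real.pi * I) = w + 2 * Real.pi * I := by
      rw [hw]; push_cast; ring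
    have hre : (w + 2 * Real.pi * I).re = w.re := by simp
    have hD : (w, ChY U w q.2) ∈ DD U.S := ChDD_mono hc.hS h.1
    have hD' : (w + 2 * Real.pi * I, ChY U w q.2) ∈ DD U.S :=
      ⟨by simpa using hD.1, by simpa using hD.2⟩
    have h2 : ChY U (w + 2 * Real.pi * I) q.2 = ChY U w q.2 := by
      refine ChY_eq U hD'.1 hD'.2 ?_
      rw [U.U_per w _ hD, h.2]
    have h3 := L.mem w (ChY U w q.2) (ChDD_mono U.hS hD)
    have h4 : L.X w (ChY U w q.2) = L.X (w + 2 * Real.pi * I) (ChY U w q.2) := by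
      refine L.uniq _ _ _ (ChDD_mono U.hS hD') h3.1 ?_
      rw [h3.2, Complex.exp_periodic]
    rw [e1]
    show (L.X (w + 2 * Real.pi * I) (ChY U (w + 2 * Real.pi * I) q.2),
      ChY U (w + 2 * Real.pi * I) q.2) = (L.X w (ChY U w q.2), ChY U w q.2)
    rw [h2, h4]

end aux

section aux2

variable {c b : ℂ} {P : Phi c b} {L : Leaf c b P} (U : UChart c b P L) (S : ℝ)

open Classical in
/-- the global chart -/
noncomputable def ChPi (q : ℂ × ℂ) : ℂ × ℂ :=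
  if h : ∃ n : ℕ, (ChT U)^[n] q ∈ ChWd S then
    (henInv c b)^[Nat.find h] (ChP U ((ChT U)^[Nat.find h] q)) else 0

variable {U S} {C : ℝ} (hc : ChCon U S C) (hb : ‖b‖ = 1)

include hc hb

theorem ChPi_eq {q : ℂ × ℂ} {n : ℕ} (h : (ChT U)^[n] q ∈ ChWd S) :
    ChPi U S q = (henInv c b)^[n] (ChP U ((ChT U)^[n] q)) := by
  have hex : ∃ n : ℕ, (ChT U)^[n] q ∈ ChWd S := ⟨n, h⟩
  have hstep : ∀ m : ℕ, (ChT U)^[m] q ∈ ChWd S → ∀ k : ℕ,
      (henInv c b)^[m + k] (ChP U ((ChT U)^[m + k] q)) =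
        (henInv c b)^[m] (ChP U ((ChT U)^[m] q)) := by
    intro m hm k
    induction k with
    | zero => rfl
    | succ k ih =>
      have h1 : (ChT U)^[m + k] q ∈ ChWd S := by
        rw [add_comm, Function.iterate_add_apply]
        exact ChT_iter_Wd hc hb hm k
      rw [← add_assoc, Function.iterate_succ_apply, Function.iterate_succ_apply',
        Ch_henInvP hc hb h1, ih]
  unfold ChPi
  rw [dif_pos hex]
  classical
  have h1 : Nat.find hex ≤ n := Nat.find_min' hex h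
  have h2 := hstep _ (Nat.find_spec hex) (n - Nat.find hex)
  rw [Nat.add_sub_cancel' h1] at h2
  rw [h2]

theorem Ch_good_pt {w : ℂ} (hw : 0 < w.re) (u : ℂ) :
    ∃ n : ℕ, ∀ m ≥ n, (ChT U)^[m] (w, u) ∈ ChWd S := by
  obtain ⟨n, hn⟩ := ChT_good U hb S hw ‖u‖
  exact ⟨n, fun m hm => hn m hm (w, u) le_rfl le_rfl⟩

theorem ChPi_diff : DifferentiableOn ℂ (ChPi U S) {q : ℂ × ℂ | 0 < q.1.re} := by
  intro q0 hq0
  refine DifferentiableAt.differentiableWithinAt ?_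
  have hq0' : 0 < q0.1.re := hq0
  obtain ⟨n, hn⟩ := ChT_good U hb S (half_pos hq0') (‖q0.2‖ + 1)
  have hnb : ∀ᶠ q : ℂ × ℂ in 𝓝 q0, (ChT U)^[n] q ∈ ChWd S := by
    have h1 : ∀ᶠ q : ℂ × ℂ in 𝓝 q0, q0.1.re / 2 < q.1.re :=
      (continuous_re.comp continuous_fst).continuousAt.eventually_const_lt
        (by simp; linarith)
    have h2 : ∀ᶠ q : ℂ × ℂ in 𝓝 q0, ‖q.2‖ < ‖q0.2‖ + 1 :=
      (continuous_norm.comp continuous_snd).continuousAt.eventually_lt_const (by simp)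
    filter_upwards [h1, h2] with q h1 h2
    exact hn n le_rfl q h1.le h2.le
  have heq : ChPi U S =ᶠ[𝓝 q0] fun q => (henInv c b)^[n] (ChP U ((ChT U)^[n] q)) := by
    filter_upwards [hnb] with q hq using ChPi_eq hc hb hq
  refine DifferentiableAt.congr_of_eventuallyEq ?_ heq
  have hd1 : DifferentiableAt ℂ ((ChT U)^[n]) q0 := (ChT_differentiable U).iterate n q0
  have hd2 : DifferentiableAt ℂ (ChP U) ((ChT U)^[n] q0) :=
    (ChP_diff hc).differentiableAt ((ChWd_open S).mem_nhds hnb.self_of_nhds)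
  have hd3 : Differentiable ℂ ((henInv c b)^[n]) := (henInv_differentiable c b).iterate n
  exact (hd3 _).comp q0 (hd2.comp q0 hd1)

theorem ChPi_per {w : ℂ} (u : ℂ) (hw : 0 < w.re) :
    ChPi U S (w + 2 * Real.pi * I, u) = ChPi U S (w, u) := by
  obtain ⟨n, hn⟩ := Ch_good_pt hc hb hw u
  have h1 := hn n le_rfl
  have h2 := ChT_shift (U := U) 1 (w, u) n
  simp only [Nat.cast_one, one_mul] at h2
  have h3 : (ChT U)^[n] (w + 2 * Real.pi * I, u) ∈ ChWd S := by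
    rw [h2]
    refine ⟨?_, ?_⟩
    · show S < (((ChT U)^[n] (w, u)).1 + ((2 ^ n * 1 : ℕ) : ℂ) * (2 * Real.pi * I)).re
      rw [Ch_re_shift]; exact h1.1
    · show ‖((ChT U)^[n] (w, u)).2‖ <
        Real.exp (2 * (((ChT U)^[n] (w, u)).1 + ((2 ^ n * 1 : ℕ) : ℂ) * (2 * Real.pi * I)).re) / 4
      rw [Ch_re_shift]; exact h1.2
  rw [ChPi_eq hc hb h3, ChPi_eq hc hb h1, h2, ChP_per hc _ h1]

theorem ChPi_iter {w : ℂ} (u : ℂ) (hw : 0 < w.re) (n : ℕ) :
    (hen c b)^[n] (ChPi U S (w, u)) = ChPi U S ((ChT U)^[n] (w, u)) := by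
  have hb0 : b ≠ 0 := by rintro rfl; simp at hb
  have hl : Function.LeftInverse (hen c b) (henInv c b) := hen_henInv c b hb0
  obtain ⟨m, hm⟩ := Ch_good_pt hc hb hw u
  have h1 := hm (m + n) (by omega)
  have h2 : (ChT U)^[m] ((ChT U)^[n] (w, u)) ∈ ChWd S := by
    rw [← Function.iterate_add_apply]; exact h1
  rw [ChPi_eq hc hb h1, ChPi_eq hc hb h2, ← Function.iterate_add_apply, add_comm m n,
    Function.iterate_add_apply (henInv c b) n m, (hl.iterate n).eq]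

theorem ChPi_Gp {w : ℂ} (u : ℂ) (hw : 0 < w.re) : Gp c b (ChPi U S (w, u)) = w.re := by
  obtain ⟨n, hn⟩ := Ch_good_pt hc hb hw u
  have h1 := hn n le_rfl
  have h2 := ChPi_iter hc hb u hw n
  have h3 : ∀ (k : ℕ) (p : ℂ × ℂ), Gp c b ((hen c b)^[k] p) = 2 ^ k * Gp c b p := by
    intro k p
    induction k with
    | zero => simp
    | succ k ih => rw [Function.iterate_succ_apply', Gp_hen c b hb, ih]; ring
  have h4 : Gp c b (ChPi U S ((ChT U)^[n] (w, u))) = 2 ^ n * w.re := by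
    have h5 : (ChT U)^[0] ((ChT U)^[n] (w, u)) ∈ ChWd S := h1
    have h5' : ChPi U S ((ChT U)^[n] (w, u)) = ChP U ((ChT U)^[n] (w, u)) :=
      ChPi_eq hc hb h5
    rw [h5']
    have h6 := ChP_spec hc h1
    have h7 := L.mem _ _ (ChDD_mono (U.hS.trans hc.hS) h6.1)
    show Gp c b (L.X ((ChT U)^[n] (w, u)).1
      (ChY U ((ChT U)^[n] (w, u)).1 ((ChT U)^[n] (w, u)).2),
      ChY U ((ChT U)^[n] (w, u)).1 ((ChT U)^[n] (w, u)).2) = _
    rw [P.gp _ h7.1, h7.2, Complex.norm_exp, Real.log_exp, ChT_iter_re]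
  rw [← h2, h3] at h4
  have h8 : (2 : ℝ) ^ n ≠ 0 := by positivity
  exact mul_left_cancel₀ h8 h4

theorem ChT_inj2 {w : ℂ} {u₁ u₂ : ℂ} (n : ℕ)
    (h : ((ChT U)^[n] (w, u₁)) = ((ChT U)^[n] (w, u₂))) : u₁ = u₂ := by
  have hb0 : b ≠ 0 := by rintro rfl; simp at hb
  induction n with
  | zero => exact congrArg Prod.snd h
  | succ n ih =>
    apply ih
    rw [Function.iterate_succ_apply', Function.iterate_succ_apply'] at h
    have h1 : ((ChT U)^[n] (w, u₁)).1 = ((ChT U)^[n] (w, u₂)).1 := by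
      rw [ChT_iter_fst, ChT_iter_fst]
    refine Prod.ext h1 ?_
    have h2 : (b / 2) * ((ChT U)^[n] (w, u₁)).2 + U.κ ((ChT U)^[n] (w, u₁)).1 =
        (b / 2) * ((ChT U)^[n] (w, u₂)).2 + U.κ ((ChT U)^[n] (w, u₂)).1 := congrArg Prod.snd h
    rw [h1] at h2
    have h3 := add_right_cancel h2
    exact mul_left_cancel₀ (div_ne_zero hb0 two_ne_zero) h3

theorem ChPi_inj {w : ℂ} (hw : 0 < w.re) : Function.Injective (fun u => ChPi U S (w, u)) := by
  intro u₁ u₂ h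
  have hb0 : b ≠ 0 := by rintro rfl; simp at hb
  have hr : Function.LeftInverse (hen c b) (henInv c b) := hen_henInv c b hb0
  obtain ⟨n₁, hn₁⟩ := Ch_good_pt hc hb hw u₁
  obtain ⟨n₂, hn₂⟩ := Ch_good_pt hc hb hw u₂
  set n := max n₁ n₂
  have h1 := hn₁ n (le_max_left _ _)
  have h2 := hn₂ n (le_max_right _ _)
  simp only at h
  rw [ChPi_eq hc hb h1, ChPi_eq hc hb h2] at h
  have h3 := (hr.iterate n).injective h
  have e : ((ChT U)^[n] (w, u₁)).1 = ((ChT U)^[n] (w, u₂)).1 := by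
    rw [ChT_iter_fst, ChT_iter_fst]
  have h4 : ChY U ((ChT U)^[n] (w, u₁)).1 ((ChT U)^[n] (w, u₁)).2 =
      ChY U ((ChT U)^[n] (w, u₂)).1 ((ChT U)^[n] (w, u₂)).2 := congrArg Prod.snd h3
  have h5 := (ChP_spec hc h1).2
  have h6 := (ChP_spec hc h2).2
  rw [h4, e, h6] at h5
  exact ChT_inj2 hc hb n (Prod.ext e h5.symm)

theorem Ch_U_le {w y : ℂ} (h : (w, y) ∈ DD S) : ‖U.Uc w y‖ ≤ Real.exp (2 * w.re) := by
  have h1 := U.U_est w y (ChDD_mono hc.hS h)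
  have h2 := hc.hE _ h.1
  have hC := hc.h1
  have hUC := hc.hU
  have hy : ‖y‖ < Real.exp w.re / 2 := h.2
  have h3 : ‖exp w * y‖ = Real.exp w.re * ‖y‖ := by rw [norm_mul, Complex.norm_exp]
  have h4 : ‖U.Uc w y‖ ≤ ‖U.Uc w y - exp w * y‖ + ‖exp w * y‖ := by
    simpa using norm_add_le (U.Uc w y - exp w * y) (exp w * y)
  set E := Real.exp w.re with hE
  have e2 : Real.exp (2 * w.re) = E ^ 2 := by rw [hE, ← Real.exp_nat_mul]; norm_num
  have e3 : Real.exp (-w.re) = 1 / E := by rw [hE, Real.exp_neg, one_div]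
  rw [e2]
  rw [e3] at h1
  have hE0 : 0 < E := Real.exp_pos _
  have hy0 : 0 ≤ ‖y‖ := norm_nonneg y
  have h5 : U.C * (1 + ‖y‖ ^ 2) * (1 / E) ≤ C * E := by
    have h6 : 1 + ‖y‖ ^ 2 ≤ E ^ 2 := by nlinarith
    have h7 : U.C * (1 + ‖y‖ ^ 2) ≤ C * E ^ 2 := by
      refine mul_le_mul hUC h6 (by positivity) (by linarith)
    calc U.C * (1 + ‖y‖ ^ 2) * (1 / E) ≤ C * E ^ 2 * (1 / E) :=
          mul_le_mul_of_nonneg_right h7 (by positivity)
      _ = C * E := by field_simp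
  nlinarith

theorem ChPi_win {w y : ℂ} (h : (w, y) ∈ DD S) : ChPi U S (w, U.Uc w y) = (L.X w y, y) := by
  have hb0 : b ≠ 0 := by rintro rfl; simp at hb
  have h1 : (ChT U)^[1] (w, U.Uc w y) ∈ ChWd S :=
    ChT_mem hc hb h.1 (Ch_U_le hc hb h)
  rw [ChPi_eq hc hb h1]
  show henInv c b (ChP U (ChT U (w, U.Uc w y))) = _
  rw [← Ch_hen2 hc hb h, henInv_hen c b hb0]

theorem Ch_phi_norm {p : ℂ × ℂ} (hp : p ∈ VP c) : ‖P.φ p‖ = Real.exp (Gp c b p) := by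
  rw [P.gp p hp, Real.exp_log (norm_pos_iff.2 (P.ne p hp))]

theorem Ch_cone {p : ℂ × ℂ} (hp : p ∈ VP c) (hG : S < Gp c b p) (hy : ‖p.2‖ ≤ ‖p.1‖ / 4) :
    ‖p.1‖ ≤ Real.exp (Gp c b p) + 2 * C ∧ ‖p.2‖ < Real.exp (Gp c b p) / 2 := by
  have h1 := P.est p hp
  have h2 := Ch_phi_norm hc hb hp
  have h3 := hc.hE _ hG
  have hC := hc.h1
  have hx : 3 < ‖p.1‖ := by
    have := hp.1
    have := norm_nonneg c
    linarith
  have h4 : P.C * (1 + ‖p.2‖) / ‖p.1‖ ≤ 2 * C := by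
    rw [div_le_iff₀ (by linarith)]
    have h5 : 1 + ‖p.2‖ ≤ 2 * ‖p.1‖ := by linarith
    calc P.C * (1 + ‖p.2‖) ≤ C * (2 * ‖p.1‖) :=
          mul_le_mul hc.hP h5 (by positivity) (by linarith)
      _ = 2 * C * ‖p.1‖ := by ring
  have h5 : ‖p.1‖ ≤ ‖P.φ p - p.1‖ + ‖P.φ p‖ := by
    rw [norm_sub_rev]
    simpa using norm_add_le (p.1 - P.φ p) (P.φ p)
  have h6 : ‖p.1‖ ≤ Real.exp (Gp c b p) + 2 * C := by linarith
  exact ⟨h6, by linarith⟩

theorem Ch_cover {p : ℂ × ℂ} (hp : p ∈ VP c) (hG : S < Gp c b p) (hy : ‖p.2‖ ≤ ‖p.1‖ / 4)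
    {w : ℂ} (hw : P.φ p = exp w) :
    w.re = Gp c b p ∧ (w, p.2) ∈ DD S ∧ p = (L.X w p.2, p.2) := by
  have h1 := Ch_phi_norm hc hb hp
  have hre : w.re = Gp c b p := by
    rw [hw, Complex.norm_exp] at h1
    exact Real.exp_injective h1
  have h2 := Ch_cone hc hb hp hG hy
  have hD : (w, p.2) ∈ DD S := ⟨by rw [hre]; exact hG, by rw [hre]; exact h2.2⟩
  refine ⟨hre, hD, ?_⟩
  have h3 := L.uniq w p.1 p.2 (ChDD_mono (U.hS.trans hc.hS) hD) hp hw
  exact Prod.ext h3 rfl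

theorem Ch_VP_iter {p : ℂ × ℂ} (hp : p ∈ VP c) (k : ℕ) : (hen c b)^[k] p ∈ VP c := by
  induction k with
  | zero => exact hp
  | succ k ih =>
    rw [Function.iterate_succ_apply']
    exact (hen_VP c b hb ih).1

theorem Ch_VP_cone {p : ℂ × ℂ} (hp : p ∈ VP c) (k : ℕ) :
    ‖((hen c b)^[k + 2] p).2‖ ≤ ‖((hen c b)^[k + 2] p).1‖ / 4 := by
  rw [Function.iterate_succ_apply', Function.iterate_succ_apply']
  set q := (hen c b)^[k] p with hq
  have hqV : q ∈ VP c := Ch_VP_iter hc hb hp k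
  have h1 := hen_VP c b hb hqV
  set r := hen c b q with hr
  have hx : 6 ≤ ‖r.1‖ := by
    have := hqV.1
    have := norm_nonneg c
    linarith [h1.2]
  have h2 : ‖c‖ ≤ ‖r.1‖ := by
    have := h1.1.1
    linarith
  have h3 : ‖r.2‖ ≤ ‖r.1‖ := h1.1.2.le
  show ‖r.1‖ ≤ ‖r.1 ^ 2 + c - b * r.2‖ / 4
  have h4 : ‖r.1‖ ^ 2 ≤ ‖r.1 ^ 2 + c - b * r.2‖ + ‖c‖ + ‖r.2‖ := by
    have e : r.1 ^ 2 = (r.1 ^ 2 + c - b * r.2) - c + b * r.2 := by ring
    calc ‖r.1‖ ^ 2 = ‖r.1 ^ 2‖ := (norm_pow _ _).symm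
      _ = ‖(r.1 ^ 2 + c - b * r.2) - c + b * r.2‖ := by rw [← e]
      _ ≤ ‖(r.1 ^ 2 + c - b * r.2) - c‖ + ‖b * r.2‖ := norm_add_le _ _
      _ ≤ ‖r.1 ^ 2 + c - b * r.2‖ + ‖c‖ + ‖b * r.2‖ := by
        have := norm_sub_le (r.1 ^ 2 + c - b * r.2) c
        linarith
      _ = ‖r.1 ^ 2 + c - b * r.2‖ + ‖c‖ + ‖r.2‖ := by rw [norm_mul, hb, one_mul]
  nlinarith

/-- the level of the leaf of `z w` -/
theorem Ch_lift1 {z : ℂ → ℂ × ℂ} (hz : DifferentiableOn ℂ z RHP)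
    (hG : ∀ w ∈ RHP, Gp c b (z w) = w.re) {S1 : ℝ} (hS1 : 0 < S1)
    (h1 : ∀ w : ℂ, S1 < w.re → z w ∈ VP c ∧ P.φ (z w) = exp w) :
    ∀ w₀ ∈ RHP, ∃ n : ℕ, ∀ᶠ w in 𝓝 w₀, ∀ m ≥ n, (hen c b)^[m] (z w) ∈ VP c ∧
      P.φ ((hen c b)^[m] (z w)) = exp (2 ^ m * w) := by
  have hRo : IsOpen RHP := isOpen_lt continuous_const continuous_re
  have hRc : Convex ℝ RHP := convex_halfSpace_re_gt 0
  have hGit : ∀ (k : ℕ) (p : ℂ × ℂ), Gp c b ((hen c b)^[k] p) = 2 ^ k * Gp c b p := by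
    intro k p
    induction k with
    | zero => simp
    | succ k ih => rw [Function.iterate_succ_apply', Gp_hen c b hb, ih]; ring
  have hzc : ContinuousOn z RHP := hz.continuousOn
  have hdn : ∀ n : ℕ, DifferentiableOn ℂ (fun w => (hen c b)^[n] (z w)) RHP := fun n =>
    ((hen_differentiable c b).iterate n).comp_differentiableOn hz
  set Ω : ℕ → Set ℂ := fun n => RHP ∩ (fun w => (hen c b)^[n] (z w)) ⁻¹' (VP c) with hΩ
  have hΩo : ∀ n, IsOpen (Ω n) := fun n => (hdn n).continuousOn.isOpen_inter_preimage hRo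
    (ChVP_open c)
  set g : ℕ → ℂ → ℂ := fun n w => P.φ ((hen c b)^[n] (z w)) * exp (-(2 ^ n * w)) with hg
  have hgd : ∀ n, DifferentiableOn ℂ (g n) (Ω n) := by
    intro n
    have e1 : DifferentiableOn ℂ (fun w => P.φ ((hen c b)^[n] (z w))) (Ω n) :=
      P.diff.comp ((hdn n).mono inter_subset_left) (fun w hw => hw.2)
    refine e1.mul ?_
    exact (Differentiable.differentiableOn (by fun_prop))
  have hgn : ∀ n, ∀ w ∈ Ω n, ‖g n w‖ = 1 := by
    intro n w hw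
    show ‖P.φ ((hen c b)^[n] (z w)) * exp (-(2 ^ n * w))‖ = 1
    have hre : (-(2 ^ n * w) : ℂ).re = -(2 ^ n * w.re) := by
      have : (2 : ℂ) ^ n = ((2 ^ n : ℝ) : ℂ) := by push_cast; rfl
      rw [neg_re, this, re_ofReal_mul]
    rw [norm_mul, Ch_phi_norm hc hb hw.2, hGit, hG w hw.1, Complex.norm_exp, hre, ← Real.exp_add]
    simp
  have hg1 : ∀ n, ∀ w, g n w = 1 ↔ P.φ ((hen c b)^[n] (z w)) = exp (2 ^ n * w) := by
    intro n w
    show P.φ ((hen c b)^[n] (z w)) * exp (-(2 ^ n * w)) = 1 ↔ _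
    rw [Complex.exp_neg, mul_inv_eq_one₀ (Complex.exp_ne_zero _)]
  have hsucc : ∀ n, ∀ w ∈ Ω n, g n w = 1 → w ∈ Ω (n + 1) ∧ g (n + 1) w = 1 := by
    intro n w hw h
    have hv : (hen c b)^[n + 1] (z w) ∈ VP c := by
      rw [Function.iterate_succ_apply']
      exact (hen_VP c b hb hw.2).1
    refine ⟨⟨hw.1, hv⟩, ?_⟩
    rw [hg1] at h ⊢
    rw [Function.iterate_succ_apply', P.step _ hw.2, h, ← Complex.exp_nat_mul]
    congr 1
    push_cast
    ring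
  have hmono : ∀ n, ∀ w ∈ Ω n, g n w = 1 → ∀ m ≥ n, w ∈ Ω m ∧ g m w = 1 := by
    intro n w hw h m hm
    induction m, hm using Nat.le_induction with
    | base => exact ⟨hw, h⟩
    | succ m hm ih => exact hsucc m w ih.1 ih.2
  set A : Set ℂ := {w | ∃ n, w ∈ Ω n ∧ g n w = 1} with hA
  have hball : ∀ (n : ℕ) (w : ℂ) (r : ℝ), ball w r ⊆ Ω n → ∀ w' ∈ ball w r, ∀ w'' ∈ ball w r,
      g n w' = g n w'' := by
    intro n w r hr w' hw' w'' hw''
    exact Ch_const_of_norm isOpen_ball (convex_ball w r).isPreconnected ((hgd n).mono hr)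
      (fun v hv => hgn n v (hr hv)) hw'' w' hw'
  have hAo : IsOpen A := by
    rw [Metric.isOpen_iff]
    rintro w ⟨n, hn1, hn2⟩
    obtain ⟨r, hr, hrn⟩ := Metric.isOpen_iff.1 (hΩo n) w hn1
    refine ⟨r, hr, fun v hv => ⟨n, hrn hv, ?_⟩⟩
    rw [hball n w r hrn v hv w (mem_ball_self hr), hn2]
  have hsub : RHP ⊆ A := by
    refine hRc.isPreconnected.subset_of_closure_inter_subset hAo ?_ ?_
    · refine ⟨((S1 + 1 : ℝ) : ℂ), ?_, 0, ?_, ?_⟩
      · show 0 < (((S1 + 1 : ℝ) : ℂ)).re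
        rw [ofReal_re]; linarith
      · refine ⟨?_, ?_⟩
        · show 0 < (((S1 + 1 : ℝ) : ℂ)).re
          rw [ofReal_re]; linarith
        · exact (h1 _ (by rw [ofReal_re]; linarith)).1
      · rw [hg1]
        have := (h1 ((S1 + 1 : ℝ) : ℂ) (by rw [ofReal_re]; linarith)).2
        simpa using this
    · rintro w ⟨hw1, hw2⟩
      have hpos : 0 < Gp c b (z w) := by rw [hG w hw2]; exact hw2
      obtain ⟨m, hm⟩ := exists_VP c b hb hpos
      have hwm : w ∈ Ω m := ⟨hw2, hm⟩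
      obtain ⟨r, hr, hrm⟩ := Metric.isOpen_iff.1 (hΩo m) w hwm
      obtain ⟨v, ⟨n, hv1, hv2⟩, hvr⟩ := Metric.mem_closure_iff.1 hw1 r hr
      have hvb : v ∈ ball w r := by rwa [mem_ball, dist_comm]
      have h3 := hmono n v hv1 hv2 (max n m) (le_max_left _ _)
      have hsubm : ball w r ⊆ Ω (max n m) := by
        intro v' hv'
        have h4 := hrm hv'
        refine ⟨h4.1, ?_⟩
        obtain ⟨k, hk⟩ := Nat.exists_eq_add_of_le (le_max_right n m)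
        show (hen c b)^[max n m] (z v') ∈ VP c
        rw [hk, add_comm, Function.iterate_add_apply]
        exact Ch_VP_iter hc hb h4.2 k
      refine ⟨max n m, hsubm (mem_ball_self hr), ?_⟩
      rw [hball _ w r hsubm w (mem_ball_self hr) v hvb, h3.2]
  intro w₀ hw₀
  obtain ⟨n, hn1, hn2⟩ := hsub hw₀
  obtain ⟨r, hr, hrn⟩ := Metric.isOpen_iff.1 (hΩo n) w₀ hn1
  refine ⟨n, ?_⟩
  filter_upwards [ball_mem_nhds w₀ hr] with w hw m hm
  have h3 : g n w = 1 := by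
    rw [hball n w₀ r hrn w hw w₀ (mem_ball_self hr), hn2]
  have h4 := hmono n w (hrn hw) h3 m hm
  exact ⟨h4.1.2, (hg1 m w).1 h4.2⟩

/-- local form of the lift -/
theorem Ch_lift2 {z : ℂ → ℂ × ℂ} (hz : DifferentiableOn ℂ z RHP)
    (hG : ∀ w ∈ RHP, Gp c b (z w) = w.re) {S1 : ℝ} (hS1 : 0 < S1)
    (h1 : ∀ w : ℂ, S1 < w.re → z w ∈ VP c ∧ P.φ (z w) = exp w) :
    ∀ w₀ ∈ RHP, ∃ s : ℂ → ℂ, DifferentiableAt ℂ s w₀ ∧
      ∀ᶠ w in 𝓝 w₀, z w = ChPi U S (w, s w) := by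
  have hb0 : b ≠ 0 := by rintro rfl; simp at hb
  have hRo : IsOpen RHP := isOpen_lt continuous_const continuous_re
  have hGit : ∀ (k : ℕ) (p : ℂ × ℂ), Gp c b ((hen c b)^[k] p) = 2 ^ k * Gp c b p := by
    intro k p
    induction k with
    | zero => simp
    | succ k ih => rw [Function.iterate_succ_apply', Gp_hen c b hb, ih]; ring
  intro w₀ hw₀
  obtain ⟨n, hn⟩ := Ch_lift1 hc hb hz hG hS1 h1 w₀ hw₀
  have hw₀' : 0 < w₀.re := hw₀
  have hlim : Tendsto (fun n : ℕ => (2 : ℝ) ^ n) atTop atTop :=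
    tendsto_pow_atTop_atTop_of_one_lt (by norm_num)
  obtain ⟨k, hk⟩ := (hlim.eventually_ge_atTop ((|S| + 1) / (w₀.re / 2))).exists
  have hk' : |S| + 1 ≤ 2 ^ k * (w₀.re / 2) := by
    rwa [div_le_iff₀ (by positivity)] at hk
  set m := max n k + 2 with hm
  have hmn : n ≤ max n k := le_max_left _ _
  have hmS : ∀ w : ℂ, w₀.re / 2 < w.re → S < 2 ^ m * w.re := by
    intro w hw
    have h2 : (2 : ℝ) ^ k ≤ 2 ^ m :=
      pow_le_pow_right₀ (by norm_num) ((le_max_right n k).trans (by omega))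
    have h3 : 2 ^ k * (w₀.re / 2) ≤ 2 ^ m * w.re :=
      mul_le_mul h2 hw.le (by positivity) (by positivity)
    have := le_abs_self S
    linarith
  -- the eventual statements
  have hev : ∀ᶠ w in 𝓝 w₀, w ∈ RHP ∧ (hen c b)^[m] (z w) ∈ VP c ∧
      (2 ^ m * w, ((hen c b)^[m] (z w)).2) ∈ DD S ∧
      (hen c b)^[m] (z w) =
        (L.X (2 ^ m * w) ((hen c b)^[m] (z w)).2, ((hen c b)^[m] (z w)).2) := by
    have hre : ∀ᶠ w : ℂ in 𝓝 w₀, w₀.re / 2 < w.re :=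
      continuous_re.continuousAt.eventually_const_lt (by linarith)
    filter_upwards [hn, hre, hRo.mem_nhds hw₀] with w h2 h3 h4
    have h5 := h2 (max n k) hmn
    have h6 := h2 m (hmn.trans (by omega))
    have h7 : ‖((hen c b)^[m] (z w)).2‖ ≤ ‖((hen c b)^[m] (z w)).1‖ / 4 := by
      have h8 := h2 n le_rfl
      obtain ⟨j, hj⟩ := Nat.exists_eq_add_of_le hmn
      have e : (hen c b)^[m] (z w) = (hen c b)^[j + 2] ((hen c b)^[n] (z w)) := by
        rw [← Function.iterate_add_apply]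
        congr 2
        omega
      rw [e]
      exact Ch_VP_cone hc hb h8.1 j
    have h8 : S < Gp c b ((hen c b)^[m] (z w)) := by
      rw [hGit, hG w h4]
      exact hmS w h3
    have h9 := Ch_cover hc hb h6.1 h8 h7 h6.2
    exact ⟨h4, h6.1, h9.2.1, h9.2.2⟩
  -- inverse of the map on the fibre
  have hinv : ∀ (j : ℕ), ∃ ψ : ℂ × ℂ → ℂ, Differentiable ℂ ψ ∧
      ∀ w v : ℂ, (ChT U)^[j] (w, ψ (w, v)) = (2 ^ j * w, v) := by
    intro j
    induction j with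
    | zero => exact ⟨fun q => q.2, differentiable_snd, fun w v => by simp⟩
    | succ j ih =>
      obtain ⟨ψ, hψ, hψ'⟩ := ih
      refine ⟨fun q => ψ (q.1, (2 / b) * (q.2 - U.κ (2 ^ j * q.1))), ?_, fun w v => ?_⟩
      · have := U.κ_diff
        fun_prop
      · rw [Function.iterate_succ_apply']
        show ChT U ((ChT U)^[j] (w, ψ (w, (2 / b) * (v - U.κ (2 ^ j * w))))) = _
        rw [hψ']
        show (2 * (2 ^ j * w), (b / 2) * ((2 / b) * (v - U.κ (2 ^ j * w))) + U.κ (2 ^ j * w)) = _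
        refine Prod.ext ?_ ?_
        · show 2 * (2 ^ j * w) = 2 ^ (j + 1) * w
          ring
        · show (b / 2) * ((2 / b) * (v - U.κ (2 ^ j * w))) + U.κ (2 ^ j * w) = v
          field_simp
          ring
  obtain ⟨ψ, hψ, hψ'⟩ := hinv m
  set y : ℂ → ℂ := fun w => ((hen c b)^[m] (z w)).2 with hy
  have hyd : DifferentiableAt ℂ y w₀ := by
    have e1 : DifferentiableAt ℂ z w₀ := hz.differentiableAt (hRo.mem_nhds hw₀)
    have e0 : Differentiable ℂ ((hen c b)^[m]) := (hen_differentiable c b).iterate m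
    have e2 : DifferentiableAt ℂ ((hen c b)^[m] ∘ z) w₀ := (e0 (z w₀)).comp w₀ e1
    exact e2.snd
  refine ⟨fun w => ψ (w, U.Uc (2 ^ m * w) (y w)), ?_, ?_⟩
  · have h2 := hev.self_of_nhds
    have h3 : DifferentiableAt ℂ (fun q : ℂ × ℂ => U.Uc q.1 q.2) (2 ^ m * w₀, y w₀) :=
      U.U_diff.differentiableAt ((ChDD_open _).mem_nhds (ChDD_mono hc.hS h2.2.2.1))
    have h4 : DifferentiableAt ℂ (fun w : ℂ => ((2 ^ m * w, y w) : ℂ × ℂ)) w₀ :=
      (by fun_prop : DifferentiableAt ℂ (fun w : ℂ => 2 ^ m * w) w₀).prodMk hyd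
    have h5 : DifferentiableAt ℂ (fun w : ℂ => U.Uc (2 ^ m * w) (y w)) w₀ :=
      DifferentiableAt.comp w₀ (g := fun q : ℂ × ℂ => U.Uc q.1 q.2) h3 h4
    exact DifferentiableAt.comp w₀ (hψ _) (differentiableAt_id.prodMk h5)
  · filter_upwards [hev] with w h2
    obtain ⟨h2a, h2b, h2c, h2d⟩ := h2
    have hri : Function.LeftInverse (henInv c b) (hen c b) := henInv_hen c b hb0
    apply (hri.iterate m).injective
    rw [ChPi_iter hc hb _ h2a, hψ', ChPi_win hc hb h2c]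
    exact h2d

end aux2

theorem exists_chart (c b : ℂ) (hb : ‖b‖ = 1) : Nonempty (Chart c b) := by
  obtain ⟨P⟩ := exists_phi c b hb
  obtain ⟨L⟩ := exists_leaf c b hb P
  obtain ⟨U⟩ := exists_uchart c b hb P L
  set C : ℝ := P.C + L.C + U.C with hCdef
  set S : ℝ := U.S + 1000 * C with hSdef
  have hPC := P.hC
  have hLC := L.hC
  have hUC := U.hC
  have hLS := L.hS
  have hUS := U.hS
  have hcon : ChCon U S C := by
    refine ⟨by linarith, by linarith, by linarith, by linarith, by linarith, ?_⟩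
    intro x hx
    have := Real.add_one_le_exp x
    linarith
  have hsub : DD S ⊆ DD L.S := ChDD_mono (hUS.trans hcon.hS)
  have hsubU : DD S ⊆ DD U.S := ChDD_mono hcon.hS
  have hRo : IsOpen RHP := isOpen_lt continuous_const continuous_re
  refine ⟨{
    S := S
    C := C
    hS := by linarith
    hC := by linarith
    κ := U.κ
    X := L.X
    Uc := U.Uc
    Pi := fun w u => ChPi U S (w, u)
    κ_diff := U.κ_diff
    κ_per := U.κ_per
    κ_lead := fun w hw => (U.κ_lead w hw).trans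
      (mul_le_mul_of_nonneg_right hcon.hU (Real.exp_pos _).le)
    Pi_diff := ChPi_diff hcon hb
    Pi_per := fun w u hw => ChPi_per hcon hb u hw
    Pi_step := fun w u hw => ChPi_iter hcon hb u hw 1
    Pi_Gp := fun w u hw => ChPi_Gp hcon hb u hw
    Pi_inj := fun w hw => ChPi_inj hcon hb hw
    Pi_win := fun w y h => ChPi_win hcon hb h
    X_diff := L.diff.mono hsub
    X_mem := fun w y h => (L.mem w y (hsub h)).1
    X_est := fun w y h => (L.est w y (hsub h)).trans (by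
      have h1 : 0 ≤ (1 + ‖y‖) * Real.exp (-w.re) := by positivity
      have h2 : L.C * ((1 + ‖y‖) * Real.exp (-w.re)) ≤ C * ((1 + ‖y‖) * Real.exp (-w.re)) :=
        mul_le_mul_of_nonneg_right hcon.hL h1
      simpa only [mul_assoc] using h2)
    U_diff := U.U_diff.mono hsubU
    U_est := fun w y h => (U.U_est w y (hsubU h)).trans (by
      have h1 : 0 ≤ (1 + ‖y‖ ^ 2) * Real.exp (-w.re) := by positivity
      have h2 : U.C * ((1 + ‖y‖ ^ 2) * Real.exp (-w.re)) ≤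
          C * ((1 + ‖y‖ ^ 2) * Real.exp (-w.re)) :=
        mul_le_mul_of_nonneg_right hcon.hU h1
      simpa only [mul_assoc] using h2)
    U_surj := fun w u hw hu => U.U_surj w u (hcon.hS.trans_lt hw) hu
    U_inj := fun w hw => U.U_inj w (hcon.hS.trans_lt hw)
    U_der := fun w y h => U.U_der w y (hsubU h)
    X_inj := fun w₁ w₂ y h₁ h₂ h => by
      rw [← (L.mem w₁ y (hsub h₁)).2, ← (L.mem w₂ y (hsub h₂)).2, h]
    cover := fun p hp hG hy => by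
      have hw : P.φ p = exp (log (P.φ p)) := (exp_log (P.ne p hp)).symm
      exact ⟨log (P.φ p), Ch_cover hcon hb hp hG hy hw⟩
    lift := ?_ }⟩
  intro z hz hzG ⟨S', hS'⟩
  set S1 : ℝ := max S S' with hS1
  have hS1pos : 0 < S1 := by
    have := le_max_left S S'
    linarith
  -- the constant
  set H1 : Set ℂ := {w | S1 < w.re} with hH1
  have hH1o : IsOpen H1 := isOpen_lt continuous_const continuous_re
  have hH1c : Convex ℝ H1 := convex_halfSpace_re_gt S1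
  have hH1R : H1 ⊆ RHP := fun w hw => hS1pos.trans hw
  have hH1V : ∀ w ∈ H1, z w ∈ VP c := fun w hw => (hS' w ((le_max_right S S').trans_lt hw)).1
  set g : ℂ → ℂ := fun w => P.φ (z w) * exp (-w) with hg
  have hgd : DifferentiableOn ℂ g H1 := by
    have e1 : DifferentiableOn ℂ (fun w => P.φ (z w)) H1 :=
      P.diff.comp (hz.mono hH1R) (fun w hw => hH1V w hw)
    exact e1.mul (Differentiable.differentiableOn (by fun_prop))
  have hgn : ∀ w ∈ H1, ‖g w‖ = 1 := by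
    intro w hw
    show ‖P.φ (z w) * exp (-w)‖ = 1
    rw [norm_mul, Ch_phi_norm hcon hb (hH1V w hw), hzG w (hH1R hw), Complex.norm_exp, neg_re,
      ← Real.exp_add]
    simp
  have ha : ((S1 + 1 : ℝ) : ℂ) ∈ H1 := by
    show S1 < (((S1 + 1 : ℝ) : ℂ)).re
    rw [ofReal_re]; linarith
  have hgc := Ch_const_of_norm hH1o hH1c.isPreconnected hgd hgn ha
  obtain ⟨θ, hθ⟩ : ∃ θ : ℝ, g ((S1 + 1 : ℝ) : ℂ) = exp (θ * I) := by
    refine ⟨arg (g ((S1 + 1 : ℝ) : ℂ)), ?_⟩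
    have := norm_mul_exp_arg_mul_I (g ((S1 + 1 : ℝ) : ℂ))
    rw [hgn _ ha, ofReal_one, one_mul] at this
    exact this.symm
  have hφ : ∀ w ∈ H1, P.φ (z w) = exp (w + θ * I) := by
    intro w hw
    have h1 := hgc w hw
    rw [hθ] at h1
    have h2 : P.φ (z w) * exp (-w) = exp (θ * I) := h1
    rw [exp_add, ← h2, mul_comm, mul_assoc, ← exp_add]
    simp
  -- the shifted curve
  set z' : ℂ → ℂ × ℂ := fun w => z (w - θ * I) with hz'
  have hre : ∀ w : ℂ, (w - θ * I).re = w.re := fun w => by simp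
  have hz'd : DifferentiableOn ℂ z' RHP := by
    refine hz.comp (Differentiable.differentiableOn (by fun_prop)) ?_
    intro w hw
    show 0 < (w - θ * I).re
    rw [hre]; exact hw
  have hz'G : ∀ w ∈ RHP, Gp c b (z' w) = w.re := by
    intro w hw
    have h1 : w - θ * I ∈ RHP := by
      show 0 < (w - θ * I).re
      rw [hre]; exact hw
    show Gp c b (z (w - θ * I)) = w.re
    rw [hzG _ h1, hre]
  have hz'1 : ∀ w : ℂ, S1 < w.re → z' w ∈ VP c ∧ P.φ (z' w) = exp w := by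
    intro w hw
    have h1 : w - θ * I ∈ H1 := by
      show S1 < (w - θ * I).re
      rw [hre]; exact hw
    refine ⟨hH1V _ h1, ?_⟩
    show P.φ (z (w - θ * I)) = exp w
    rw [hφ _ h1]
    congr 1
    ring
  have hloc := Ch_lift2 hcon hb hz'd hz'G hS1pos hz'1
  have hex : ∀ w ∈ RHP, ∃ u, z' w = ChPi U S (w, u) := by
    intro w hw
    obtain ⟨s, _, hs⟩ := hloc w hw
    exact ⟨s w, hs.self_of_nhds⟩
  classical
  set s : ℂ → ℂ := fun w => if h : ∃ u, z' w = ChPi U S (w, u) then h.choose else 0 with hs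
  have hspec : ∀ w ∈ RHP, z' w = ChPi U S (w, s w) := by
    intro w hw
    have h := hex w hw
    have : s w = h.choose := dif_pos h
    rw [this]
    exact h.choose_spec
  refine ⟨θ, s, ?_, hspec, ?_⟩
  · intro w₀ hw₀
    refine DifferentiableAt.differentiableWithinAt ?_
    obtain ⟨t, ht1, ht2⟩ := hloc w₀ hw₀
    refine ht1.congr_of_eventuallyEq ?_
    filter_upwards [ht2, hRo.mem_nhds hw₀] with w h1 h2
    have h3 := hspec w h2
    rw [h1] at h3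
    exact (ChPi_inj hcon hb h2 h3).symm
  · refine ⟨S1, fun w hw => ?_⟩
    have hwR : w ∈ RHP := hS1pos.trans hw
    have hwS : S < w.re := (le_max_left S S').trans_lt hw
    have hwS' : S' < (w - θ * I).re := by rw [hre]; exact (le_max_right S S').trans_lt hw
    have hcone : ‖(z' w).2‖ ≤ ‖(z' w).1‖ / 4 := (hS' _ hwS').2
    have hv := hz'1 w hw
    have hG' : S < Gp c b (z' w) := by rw [hz'G w hwR]; exact hwS
    have h1 := Ch_cover hcon hb hv.1 hG' hcone hv.2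
    have h2 := ChPi_win hcon hb h1.2.1
    rw [← h1.2.2] at h2
    have h3 := hspec w hwR
    rw [← h2] at h3
    have h4 : U.Uc w (z' w).2 = s w := ChPi_inj hcon hb hwR h3
    have h5 := Ch_cone hcon hb hv.1 hG' hcone
    rw [hz'G w hwR] at h5
    have h6 := U.U_est w (z' w).2 (hsubU h1.2.1)
    have h7 := hcon.hE _ hwS
    have h8 : ‖exp w * (z' w).2‖ = Real.exp w.re * ‖(z' w).2‖ := by
      rw [norm_mul, Complex.norm_exp]
    have h9 : ‖U.Uc w (z' w).2‖ ≤ ‖U.Uc w (z' w).2 - exp w * (z' w).2‖ + ‖exp w * (z' w).2‖ := by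
      simpa using norm_add_le (U.Uc w (z' w).2 - exp w * (z' w).2) (exp w * (z' w).2)
    rw [← h4]
    set Y := ‖(z' w).2‖ with hY
    set E := Real.exp w.re with hE
    have e2 : Real.exp (2 * w.re) = E ^ 2 := by rw [hE, ← Real.exp_nat_mul]; norm_num
    have e3 : Real.exp (-w.re) = 1 / E := by rw [hE, Real.exp_neg, one_div]
    rw [e2]
    rw [e3] at h6
    have hE0 : 0 < E := Real.exp_pos _
    have hY0 : 0 ≤ Y := norm_nonneg _
    have hC1 := hcon.h1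
    have hY1 : Y ≤ (E + 2 * C) / 4 := by linarith [h5.1]
    have h10 : U.C * (1 + Y ^ 2) * (1 / E) ≤ C * E := by
      have h6 : 1 + Y ^ 2 ≤ E ^ 2 := by nlinarith [h5.2]
      have h7 : U.C * (1 + Y ^ 2) ≤ C * E ^ 2 := by
        refine mul_le_mul hcon.hU h6 (by positivity) (by linarith)
      calc U.C * (1 + Y ^ 2) * (1 / E) ≤ C * E ^ 2 * (1 / E) :=
            mul_le_mul_of_nonneg_right h7 (by positivity)
        _ = C * E := by field_simp
    have h11 : E * Y ≤ E * ((E + 2 * C) / 4) := mul_le_mul_of_nonneg_left hY1 hE0.le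
    nlinarith

/-- the backward Green function in the chart -/
noncomputable def GG {c b : ℂ} (Ch : Chart c b) (w u : ℂ) : ℝ := Gm c b (Ch.Pi w u)

/-- the map in the chart -/
noncomputable def ft {c b : ℂ} (Ch : Chart c b) (q : ℂ × ℂ) : ℂ × ℂ :=
  (2 * q.1, (b / 2) * q.2 + Ch.κ q.1)

variable {c b : ℂ} (Ch : Chart c b)

theorem GG_step (hb : ‖b‖ = 1) {w : ℂ} (hw : 0 < w.re) (u : ℂ) :
    GG Ch (2 * w) ((b / 2) * u + Ch.κ w) = GG Ch w u / 2 := by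
  rw [GG, GG, ← Ch.Pi_step w u hw, Gm_hen c b hb]

theorem GG_per {w : ℂ} (hw : 0 < w.re) (u : ℂ) :
    GG Ch (w + 2 * Real.pi * I) u = GG Ch w u := by
  rw [GG, GG, Ch.Pi_per w u hw]

theorem GG_nonneg (hb : ‖b‖ = 1) (w u : ℂ) : 0 ≤ GG Ch w u := Gm_nonneg c b hb _

theorem GG_continuousOn (hb : ‖b‖ = 1) :
    ContinuousOn (fun q : ℂ × ℂ => GG Ch q.1 q.2) {q : ℂ × ℂ | 0 < q.1.re} :=
  (Gm_continuous c b hb).comp_continuousOn Ch.Pi_diff.continuousOn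

end H6ea4aa
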