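import Mathlib
import Pool.Agent.H.MP_3a36cd_an.SCV1

/-!
# MP_6ea4aa: clusters of zeros of a holomorphic function depending on a parameter
-/

set_option autoImplicit false

open Complex Set Filter Topology Metric

namespace H6ea4aa

/-- differentiation of a circle integral with respect to a parameter -/
theorem cluster_param {H : ℂ × ℂ → ℂ} {O : Set (ℂ × ℂ)} (hO : IsOpen O)
    (hH : DifferentiableOn ℂ H O) {w₁ u₀ : ℂ} {ρ : ℝ} (hρ : 0 ≤ ρ)
    (hs : ∀ u ∈ sphere u₀ ρ, (w₁, u) ∈ O) :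
    DifferentiableAt ℂ (fun w => ∮ u in C(u₀, ρ), H (w, u)) w₁ := by
  have hK : IsCompact (({w₁} : Set ℂ) ×ˢ sphere u₀ ρ) :=
    isCompact_singleton.prod (isCompact_sphere _ _)
  have hKO : ({w₁} : Set ℂ) ×ˢ sphere u₀ ρ ⊆ O := by
    rintro ⟨w, u⟩ ⟨hw, hu⟩
    have hw' : w = w₁ := hw
    rw [hw']
    exact hs u hu
  obtain ⟨δ, hδ, hδO⟩ := hK.exists_thickening_subset_open hO hKO
  have hmem : ∀ w ∈ ball w₁ δ, ∀ u ∈ sphere u₀ ρ, (w, u) ∈ O := by
    intro w hw u hu
    apply hδO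
    rw [mem_thickening_iff]
    refine ⟨(w₁, u), ⟨rfl, hu⟩, ?_⟩
    rw [Prod.dist_eq]
    simp only [dist_self]
    exact max_lt hw hδ
  have hD : DifferentiableOn ℂ (fun p => fderiv ℂ H p ((1 : ℂ), (0 : ℂ))) O :=
    Pool.Agent.ParLeaf.SCV1_dir hO hH _
  have hK2 : IsCompact (closedBall w₁ (δ / 2) ×ˢ sphere u₀ ρ) :=
    (isCompact_closedBall _ _).prod (isCompact_sphere _ _)
  have hK2O : closedBall w₁ (δ / 2) ×ˢ sphere u₀ ρ ⊆ O := by
    rintro ⟨w, u⟩ ⟨hw, hu⟩
    exact hmem w (closedBall_subset_ball (by linarith) hw) u hu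
  obtain ⟨M, hM⟩ := hK2.exists_bound_of_continuousOn (hD.continuousOn.mono hK2O)
  have hcm : ∀ θ, circleMap u₀ ρ θ ∈ sphere u₀ ρ := fun θ => circleMap_mem_sphere _ hρ θ
  have hdc : Continuous (deriv (circleMap u₀ ρ)) := by
    have : deriv (circleMap u₀ ρ) = fun θ => circleMap 0 ρ θ * I := by
      funext θ; exact deriv_circleMap _ _ _
    rw [this]
    exact (continuous_circleMap 0 ρ).mul continuous_const
  have hslice : ∀ (G : ℂ × ℂ → ℂ), ContinuousOn G O → ∀ w ∈ ball w₁ δ,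
      Continuous (fun θ => deriv (circleMap u₀ ρ) θ • G (w, circleMap u₀ ρ θ)) := by
    intro G hG w hw
    refine hdc.smul (hG.comp_continuous (by fun_prop) fun θ => hmem w hw _ (hcm θ))
  have hw₁ : w₁ ∈ ball w₁ δ := mem_ball_self hδ
  have key := intervalIntegral.hasDerivAt_integral_of_dominated_loc_of_deriv_le
    (μ := MeasureTheory.volume) (a := 0) (b := 2 * Real.pi)
    (F := fun w θ => deriv (circleMap u₀ ρ) θ • H (w, circleMap u₀ ρ θ))
    (F' := fun w θ => deriv (circleMap u₀ ρ) θ • fderiv ℂ H (w, circleMap u₀ ρ θ) (1, 0))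
    (x₀ := w₁) (s := ball w₁ (δ / 2)) (bound := fun _ => ρ * M)
    (ball_mem_nhds _ (by linarith))
    (by
      filter_upwards [ball_mem_nhds w₁ hδ] with w hw
      exact (hslice H hH.continuousOn w hw).aestronglyMeasurable)
    ((hslice H hH.continuousOn w₁ hw₁).intervalIntegrable _ _)
    ((hslice _ hD.continuousOn w₁ hw₁).aestronglyMeasurable)
    (by
      refine Eventually.of_forall fun θ _ w hw => ?_
      rw [norm_smul]
      have h1 : ‖deriv (circleMap u₀ ρ) θ‖ = ρ := by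
        rw [deriv_circleMap, norm_mul, norm_I, mul_one, norm_circleMap_zero, abs_of_nonneg hρ]
      rw [h1]
      exact mul_le_mul_of_nonneg_left
        (hM (w, circleMap u₀ ρ θ) ⟨ball_subset_closedBall hw, hcm θ⟩) hρ)
    (intervalIntegrable_const)
    (by
      refine Eventually.of_forall fun θ _ w hw => ?_
      have hwO : (w, circleMap u₀ ρ θ) ∈ O :=
        hmem w (ball_subset_ball (by linarith) hw) _ (hcm θ)
      have h1 : HasFDerivAt H (fderiv ℂ H (w, circleMap u₀ ρ θ)) (w, circleMap u₀ ρ θ) :=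
        ((hH _ hwO).differentiableAt (hO.mem_nhds hwO)).hasFDerivAt
      have h2 : HasDerivAt (fun x : ℂ => (x, circleMap u₀ ρ θ)) ((1 : ℂ), (0 : ℂ)) w :=
        (hasDerivAt_id w).prodMk (hasDerivAt_const w _)
      have h3 := h1.comp_hasDerivAt w h2
      exact h3.const_smul (deriv (circleMap u₀ ρ) θ))
  exact key.2.differentiableAt

/-- extraction of the zeros in a disc -/
theorem cluster_factor {f : ℂ → ℂ} {u₀ : ℂ} {r ρ : ℝ} (hρ : 0 < ρ) (hρr : ρ < r)
    (hf : DifferentiableOn ℂ f (ball u₀ r)) (hne : ∀ u, ‖u - u₀‖ = ρ → f u ≠ 0) :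
    ∃ (Z : Multiset ℂ) (E : ℂ → ℂ), (∀ u, u ∈ Z ↔ u ∈ ball u₀ ρ ∧ f u = 0) ∧
      DifferentiableOn ℂ E (ball u₀ r) ∧ (∀ u ∈ closedBall u₀ ρ, E u ≠ 0) ∧
      ∀ u ∈ ball u₀ r, f u = (Z.map (fun a => u - a)).prod * E u := by
  classical
  have hfa : AnalyticOnNhd ℂ f (ball u₀ r) := hf.analyticOnNhd isOpen_ball
  have hpc : IsPreconnected (ball u₀ r) := (convex_ball u₀ r).isPreconnected
  have hp : ‖(u₀ + ρ : ℂ) - u₀‖ = ρ := by
    rw [add_sub_cancel_left, norm_real, Real.norm_eq_abs, abs_of_pos hρ]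
  have hpb : (u₀ + ρ : ℂ) ∈ ball u₀ r := by rw [mem_ball, dist_eq_norm, hp]; exact hρr
  have hnz : ∀ b ∈ ball u₀ r, ¬ ∀ᶠ u in 𝓝 b, f u = 0 := by
    intro b hb h
    exact hne _ hp (hfa.eqOn_zero_of_preconnected_of_eventuallyEq_zero hpc hb h hpb)
  have hsub : closedBall u₀ ρ ⊆ ball u₀ r := closedBall_subset_ball hρr
  have hfin : {u | u ∈ closedBall u₀ ρ ∧ f u = 0}.Finite := by
    by_contra hinf
    obtain ⟨x, hx, hacc⟩ := Set.Infinite.exists_accPt_of_subset_isCompact hinf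
      (isCompact_closedBall u₀ ρ) (fun u hu => hu.1)
    refine hnz x (hsub hx) ?_
    rcases (hfa x (hsub hx)).eventually_eq_zero_or_eventually_ne_zero with h | h
    · exact h
    · exfalso
      rw [accPt_iff_frequently_nhdsNE] at hacc
      exact hacc (h.mono fun u hu hu' => hu hu'.2)
  have step : ∀ S : Finset ℂ, (∀ a ∈ S, a ∈ ball u₀ r) → ∃ (Z : Multiset ℂ) (E : ℂ → ℂ),
      (∀ a ∈ Z, a ∈ S) ∧ DifferentiableOn ℂ E (ball u₀ r) ∧ (∀ a ∈ S, E a ≠ 0) ∧
      ∀ u ∈ ball u₀ r, f u = (Z.map (fun a => u - a)).prod * E u := by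
    intro S
    induction S using Finset.induction_on with
    | empty =>
      intro _
      exact ⟨0, f, by simp, hf, by simp, fun u _ => by simp⟩
    | insert b S hb ih =>
      intro hS
      obtain ⟨Z, E, h1, h2, h3, h4⟩ := ih fun a ha => hS a (Finset.mem_insert_of_mem ha)
      have hbb : b ∈ ball u₀ r := hS b (Finset.mem_insert_self _ _)
      have hEa : AnalyticAt ℂ E b := h2.analyticOnNhd isOpen_ball b hbb
      have hEnz : ¬ ∀ᶠ u in 𝓝 b, E u = 0 := by
        intro h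
        refine hnz b hbb ?_
        filter_upwards [h, isOpen_ball.mem_nhds hbb] with u hu hu'
        rw [h4 u hu', hu, mul_zero]
      obtain ⟨n, G, hG, hGb, hEG⟩ := (hEa.exists_eventuallyEq_pow_smul_nonzero_iff).2 hEnz
      obtain ⟨E', hE'⟩ : ∃ E' : ℂ → ℂ, E' = fun u => if u = b then G b else E u / (u - b) ^ n :=
        ⟨_, rfl⟩
      have hE'b : E' b = G b := by rw [hE']; simp
      have hE'ne : ∀ u, u ≠ b → E' u = E u / (u - b) ^ n := by
        intro u hu; rw [hE']; simp [hu]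
      have hE'G : E' =ᶠ[𝓝 b] G := by
        filter_upwards [hEG] with u hu
        by_cases h : u = b
        · rw [h, hE'b]
        · rw [hE'ne u h, hu, smul_eq_mul, mul_div_cancel_left₀]
          exact pow_ne_zero _ (sub_ne_zero.2 h)
      refine ⟨Z + Multiset.replicate n b, E', ?_, ?_, ?_, ?_⟩
      · intro a ha
        rcases Multiset.mem_add.1 ha with ha | ha
        · exact Finset.mem_insert_of_mem (h1 a ha)
        · rw [Multiset.eq_of_mem_replicate ha]; exact Finset.mem_insert_self _ _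
      · intro u hu
        by_cases h : u = b
        · rw [h]
          exact (hG.differentiableAt.congr_of_eventuallyEq hE'G).differentiableWithinAt
        · have h5 : E' =ᶠ[𝓝 u] fun u => E u / (u - b) ^ n := by
            filter_upwards [isOpen_ne.mem_nhds h] with v hv using hE'ne v hv
          have h6 : DifferentiableAt ℂ (fun u => E u / (u - b) ^ n) u := by
            refine ((h2 u hu).differentiableAt (isOpen_ball.mem_nhds hu)).div (by fun_prop) ?_
            exact pow_ne_zero _ (sub_ne_zero.2 h)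
          exact (h6.congr_of_eventuallyEq h5).differentiableWithinAt
      · intro a ha
        rcases Finset.mem_insert.1 ha with rfl | ha'
        · rw [hE'b]; exact hGb
        · have hab : a ≠ b := fun h => hb (h ▸ ha')
          rw [hE'ne a hab]
          exact div_ne_zero (h3 a ha') (pow_ne_zero _ (sub_ne_zero.2 hab))
      · intro u hu
        rw [h4 u hu, Multiset.map_add, Multiset.prod_add, Multiset.map_replicate,
          Multiset.prod_replicate, mul_assoc]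
        congr 1
        by_cases h : u = b
        · rw [h, hE'b]
          exact hEG.self_of_nhds
        · rw [hE'ne u h, mul_div_cancel₀]
          exact pow_ne_zero _ (sub_ne_zero.2 h)
  have hfin2 : {u | u ∈ ball u₀ ρ ∧ f u = 0}.Finite :=
    hfin.subset fun u hu => ⟨ball_subset_closedBall hu.1, hu.2⟩
  obtain ⟨Z, E, h1, h2, h3, h4⟩ := step hfin2.toFinset (by
    intro a ha
    rw [Set.Finite.mem_toFinset] at ha
    exact hsub (ball_subset_closedBall ha.1))
  refine ⟨Z, E, ?_, h2, ?_, h4⟩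
  · intro u
    constructor
    · intro hu
      have := h1 u hu
      rwa [Set.Finite.mem_toFinset] at this
    · intro hu
      have h5 : E u ≠ 0 := h3 u (by rw [Set.Finite.mem_toFinset]; exact hu)
      have h6 := h4 u (hsub (ball_subset_closedBall hu.1))
      rw [hu.2] at h6
      have h7 : (Z.map (fun a => u - a)).prod = 0 := by
        rcases mul_eq_zero.1 h6.symm with h | h
        · exact h
        · exact absurd h h5
      rw [Multiset.prod_eq_zero_iff, Multiset.mem_map] at h7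
      obtain ⟨a, ha, ha'⟩ := h7
      rw [sub_eq_zero.1 ha']
      exact ha
  · intro u hu h5
    have h6 : f u = 0 := by rw [h4 u (hsub hu), h5, mul_zero]
    have h7 : u ∈ ball u₀ ρ := by
      rcases (mem_closedBall.1 hu).lt_or_eq with h | h
      · exact h
      · exact absurd h6 (hne u (by rw [← dist_eq_norm]; exact h))
    exact h3 u (by rw [Set.Finite.mem_toFinset]; exact ⟨h7, h6⟩) h5

theorem cluster_cauchy {L : ℂ → ℂ} {u₀ : ℂ} {ρ : ℝ} (hρ : 0 < ρ)
    (hL : ContinuousOn L (closedBall u₀ ρ)) (hLd : ∀ u ∈ ball u₀ ρ, DifferentiableAt ℂ L u)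
    (Z : Multiset ℂ) (hZ : ∀ a ∈ Z, a ∈ ball u₀ ρ) :
    ContinuousOn (fun u => L u * (Z.map (fun a => (u - a)⁻¹)).sum) (sphere u₀ ρ) ∧
    (∮ u in C(u₀, ρ), L u * (Z.map (fun a => (u - a)⁻¹)).sum)
      = 2 * Real.pi * I * (Z.map L).sum := by
  induction Z using Multiset.induction_on with
  | empty => simp [continuousOn_const, circleIntegral]
  | cons b Z ih =>
    obtain ⟨h1, h2⟩ := ih fun a ha => hZ a (Multiset.mem_cons_of_mem ha)
    have hb : b ∈ ball u₀ ρ := hZ b (Multiset.mem_cons_self _ _)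
    have hsb : ∀ u ∈ sphere u₀ ρ, u - b ≠ 0 := by
      intro u hu h
      rw [sub_eq_zero.1 h] at hu
      have h3 := mem_ball.1 hb
      have h4 := mem_sphere.1 hu
      linarith
    have h3 : ContinuousOn (fun u => (u - b)⁻¹ * L u) (sphere u₀ ρ) :=
      ((by fun_prop : ContinuousOn (fun u : ℂ => u - b) (sphere u₀ ρ)).inv₀ hsb).mul
        (hL.mono sphere_subset_closedBall)
    have h4 : (fun u => L u * (((b ::ₘ Z).map (fun a => (u - a)⁻¹)).sum))
        = fun u => (u - b)⁻¹ * L u + L u * (Z.map (fun a => (u - a)⁻¹)).sum := by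
      funext u
      rw [Multiset.map_cons, Multiset.sum_cons]; ring
    refine ⟨?_, ?_⟩
    · rw [h4]; exact h3.add h1
    · rw [h4, circleIntegral.integral_add (h3.circleIntegrable hρ.le) (h1.circleIntegrable hρ.le),
        h2]
      have h5 := circleIntegral_sub_inv_smul_of_differentiable_on_off_countable
        (s := ∅) countable_empty hb hL (fun x hx => hLd x hx.1)
      simp only [smul_eq_mul] at h5
      rw [h5, Multiset.map_cons, Multiset.sum_cons]
      ring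

theorem cluster_prod_deriv (Z : Multiset ℂ) (u : ℂ) (hu : u ∉ Z) :
    HasDerivAt (fun u => (Z.map (fun a => u - a)).prod)
      ((Z.map (fun a => u - a)).prod * (Z.map (fun a => (u - a)⁻¹)).sum) u := by
  induction Z using Multiset.induction_on with
  | empty => simpa using hasDerivAt_const u (1 : ℂ)
  | cons b Z ih =>
    rw [Multiset.mem_cons, not_or] at hu
    have h1 := ih hu.2
    have h2 : HasDerivAt (fun u : ℂ => u - b) 1 u := (hasDerivAt_id u).sub_const b
    have h3 := h2.mul h1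
    have hub : u - b ≠ 0 := sub_ne_zero.2 hu.1
    simp only [Multiset.map_cons, Multiset.prod_cons, Multiset.sum_cons]
    refine h3.congr_deriv ?_
    field_simp

/-- the argument principle with a weight -/
theorem cluster_arg {f E L : ℂ → ℂ} {u₀ : ℂ} {r ρ : ℝ} (hρ : 0 < ρ) (hρr : ρ < r)
    (hE : DifferentiableOn ℂ E (ball u₀ r)) (hE0 : ∀ u ∈ closedBall u₀ ρ, E u ≠ 0)
    {Z : Multiset ℂ} (hZ : ∀ a ∈ Z, a ∈ ball u₀ ρ)
    (hfE : ∀ u ∈ ball u₀ r, f u = (Z.map (fun a => u - a)).prod * E u)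
    (hL : ∀ u ∈ closedBall u₀ ρ, DifferentiableAt ℂ L u) :
    (∮ u in C(u₀, ρ), L u * (deriv f u / f u)) = 2 * Real.pi * I * (Z.map L).sum := by
  have hsub : closedBall u₀ ρ ⊆ ball u₀ r := closedBall_subset_ball hρr
  have hLc : ContinuousOn L (closedBall u₀ ρ) := fun u hu => (hL u hu).continuousAt.continuousWithinAt
  obtain ⟨h1, h2⟩ := cluster_cauchy hρ hLc (fun u hu => hL u (ball_subset_closedBall hu)) Z hZ
  have hE' : DifferentiableOn ℂ (deriv E) (ball u₀ r) := hE.deriv isOpen_ball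
  have hq : ∀ u ∈ closedBall u₀ ρ, DifferentiableAt ℂ (fun u => L u * (deriv E u / E u)) u := by
    intro u hu
    have hu' := isOpen_ball.mem_nhds (hsub hu)
    exact (hL u hu).mul (((hE' u (hsub hu)).differentiableAt hu').div
      ((hE u (hsub hu)).differentiableAt hu') (hE0 u hu))
  have hqc : ContinuousOn (fun u => L u * (deriv E u / E u)) (closedBall u₀ ρ) :=
    fun u hu => (hq u hu).continuousAt.continuousWithinAt
  have h3 : (∮ u in C(u₀, ρ), L u * (deriv E u / E u)) = 0 :=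
    circleIntegral_eq_zero_of_differentiable_on_off_countable hρ.le (s := ∅) countable_empty hqc
      (fun u hu => hq u (ball_subset_closedBall hu.1))
  have h4 : EqOn (fun u => L u * (deriv f u / f u))
      (fun u => L u * (Z.map (fun a => (u - a)⁻¹)).sum + L u * (deriv E u / E u))
      (sphere u₀ ρ) := by
    intro u hu
    have hur : u ∈ ball u₀ r := hsub (sphere_subset_closedBall hu)
    have huZ : u ∉ Z := by
      intro h
      have h5 := mem_ball.1 (hZ u h)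
      have h6 := mem_sphere.1 hu
      linarith
    have hP : (Z.map (fun a => u - a)).prod ≠ 0 := by
      intro h
      rw [Multiset.prod_eq_zero_iff, Multiset.mem_map] at h
      obtain ⟨a, ha, ha'⟩ := h
      rw [sub_eq_zero.1 ha'] at huZ
      exact huZ ha
    have hEu : E u ≠ 0 := hE0 u (sphere_subset_closedBall hu)
    have hEd : HasDerivAt E (deriv E u) u :=
      ((hE u hur).differentiableAt (isOpen_ball.mem_nhds hur)).hasDerivAt
    have h5 : HasDerivAt f ((Z.map (fun a => u - a)).prod * (Z.map (fun a => (u - a)⁻¹)).sum * E u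
        + (Z.map (fun a => u - a)).prod * deriv E u) u := by
      refine ((cluster_prod_deriv Z u huZ).mul hEd).congr_of_eventuallyEq ?_
      filter_upwards [isOpen_ball.mem_nhds hur] with v hv using hfE v hv
    simp only
    rw [h5.deriv, hfE u hur]
    field_simp
  rw [circleIntegral.integral_congr hρ.le h4,
    circleIntegral.integral_add (h1.circleIntegrable hρ.le)
      ((hqc.mono sphere_subset_closedBall).circleIntegrable hρ.le), h2, h3, add_zero]

/-- Parametric argument principle: near a point `(w₀, u₀)` with `F (w₀, u₀) = 0`,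
`F (w₀, ·) ≢ 0`, the zeros of `F (w, ·)` near `u₀` (with multiplicities) form a multiset `Z w` such
that `Σ_{u ∈ Z w} L (w, u)` is holomorphic in `w` for every holomorphic `L`. -/
theorem cluster {F : ℂ × ℂ → ℂ} {w₀ u₀ : ℂ} {r : ℝ} (hr : 0 < r)
    (hF : DifferentiableOn ℂ F (ball (w₀, u₀) r)) (h0 : F (w₀, u₀) = 0)
    (hne : ¬ ∀ᶠ u in 𝓝 u₀, F (w₀, u) = 0) (ρ₀ : ℝ) (hρ₀ : 0 < ρ₀) :
    ∃ ρ > 0, ρ < ρ₀ ∧ ρ < r ∧ ∃ δ > 0, δ < r ∧ ∃ (n : ℕ) (Z : ℂ → Multiset ℂ), 0 < n ∧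
      (∀ w ∈ ball w₀ δ, Multiset.card (Z w) = n ∧
        ∀ u, u ∈ Z w ↔ u ∈ ball u₀ ρ ∧ F (w, u) = 0) ∧
      (∀ w ∈ ball w₀ δ, ∀ u, ‖u - u₀‖ = ρ → F (w, u) ≠ 0) ∧
      (∀ u ∈ Z w₀, u = u₀) ∧
      ∀ (V : Set ℂ), IsOpen V → V ⊆ ball w₀ δ → ∀ L : ℂ × ℂ → ℂ,
        (∀ w ∈ V, ∀ u ∈ closedBall u₀ ρ, ∃ O ∈ 𝓝 (w, u), DifferentiableOn ℂ L O) →
        DifferentiableOn ℂ (fun w => ((Z w).map (fun u => L (w, u))).sum) V := by
  classical
  have hmem : ∀ w ∈ ball w₀ r, ∀ u ∈ ball u₀ r, (w, u) ∈ ball (w₀, u₀) r := by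
    intro w hw u hu
    rw [mem_ball, Prod.dist_eq]
    exact max_lt hw hu
  have hslice : ∀ w ∈ ball w₀ r, DifferentiableOn ℂ (fun u => F (w, u)) (ball u₀ r) := by
    intro w hw
    exact hF.comp (by fun_prop) fun u hu => hmem w hw u hu
  have hw₀r : w₀ ∈ ball w₀ r := mem_ball_self hr
  have hu₀r : u₀ ∈ ball u₀ r := mem_ball_self hr
  -- the radius
  have h1 : ∀ᶠ u in 𝓝[≠] u₀, F (w₀, u) ≠ 0 := by
    have ha : AnalyticAt ℂ (fun u => F (w₀, u)) u₀ :=
      (hslice w₀ hw₀r).analyticOnNhd isOpen_ball u₀ hu₀r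
    rcases ha.eventually_eq_zero_or_eventually_ne_zero with h | h
    · exact absurd h hne
    · exact h
  rw [eventually_nhdsWithin_iff, Metric.eventually_nhds_iff] at h1
  obtain ⟨ρ₁, hρ₁, h1⟩ := h1
  obtain ⟨ρ, hρdef⟩ : ∃ ρ, ρ = min ρ₁ (min ρ₀ r) / 2 := ⟨_, rfl⟩
  have hmin : 0 < min ρ₁ (min ρ₀ r) := lt_min hρ₁ (lt_min hρ₀ hr)
  have hρ : 0 < ρ := by rw [hρdef]; exact half_pos hmin
  have hρρ₁ : ρ < ρ₁ := by rw [hρdef]; linarith [min_le_left ρ₁ (min ρ₀ r)]
  have hρρ₀ : ρ < ρ₀ := by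
    rw [hρdef]; linarith [min_le_right ρ₁ (min ρ₀ r), min_le_left ρ₀ r]
  have hρr : ρ < r := by
    rw [hρdef]; linarith [min_le_right ρ₁ (min ρ₀ r), min_le_right ρ₀ r]
  have h2 : ∀ u, 0 < ‖u - u₀‖ → ‖u - u₀‖ ≤ ρ → F (w₀, u) ≠ 0 := by
    intro u hu hu'
    refine h1 (y := u) (by rw [dist_eq_norm]; linarith) ?_
    intro h
    have h' : u = u₀ := h
    rw [h', sub_self, norm_zero] at hu
    exact lt_irrefl _ hu
  -- the parameter disc
  have hB : IsOpen (ball (w₀, u₀) r) := isOpen_ball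
  have hOF : IsOpen {p : ℂ × ℂ | p ∈ ball (w₀, u₀) r ∧ F p ≠ 0} := by
    have : {p : ℂ × ℂ | p ∈ ball (w₀, u₀) r ∧ F p ≠ 0}
        = ball (w₀, u₀) r ∩ F ⁻¹' {0}ᶜ := by ext; simp
    rw [this]
    exact hF.continuousOn.isOpen_inter_preimage hB isOpen_compl_singleton
  have hK : IsCompact (({w₀} : Set ℂ) ×ˢ sphere u₀ ρ) :=
    isCompact_singleton.prod (isCompact_sphere _ _)
  have hKO : ({w₀} : Set ℂ) ×ˢ sphere u₀ ρ ⊆ {p : ℂ × ℂ | p ∈ ball (w₀, u₀) r ∧ F p ≠ 0} := by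
    rintro ⟨w, u⟩ ⟨hw, hu⟩
    have hw' : w = w₀ := hw
    have hu' : ‖u - u₀‖ = ρ := by rw [← dist_eq_norm]; exact hu
    rw [hw']
    exact ⟨hmem w₀ hw₀r u (by rw [mem_ball, dist_eq_norm, hu']; exact hρr),
      h2 u (by rw [hu']; exact hρ) hu'.le⟩
  obtain ⟨δ₁, hδ₁, hδ₁O⟩ := hK.exists_thickening_subset_open hOF hKO
  obtain ⟨δ, hδdef⟩ : ∃ δ, δ = min δ₁ r / 2 := ⟨_, rfl⟩
  have hδ : 0 < δ := by rw [hδdef]; exact half_pos (lt_min hδ₁ hr)
  have hδδ₁ : δ < δ₁ := by rw [hδdef]; linarith [min_le_left δ₁ r, lt_min hδ₁ hr]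
  have hδr : δ < r := by rw [hδdef]; linarith [min_le_right δ₁ r, lt_min hδ₁ hr]
  have hne' : ∀ w ∈ ball w₀ δ, ∀ u, ‖u - u₀‖ = ρ → F (w, u) ≠ 0 := by
    intro w hw u hu
    refine (hδ₁O ?_ : (w, u) ∈ {p : ℂ × ℂ | p ∈ ball (w₀, u₀) r ∧ F p ≠ 0}).2
    rw [mem_thickening_iff]
    refine ⟨(w₀, u), ⟨rfl, by rw [mem_sphere, dist_eq_norm]; exact hu⟩, ?_⟩
    rw [Prod.dist_eq]
    simp only [dist_self]
    exact max_lt ((mem_ball.1 hw).trans hδδ₁) hδ₁
  have hwr : ∀ w ∈ ball w₀ δ, w ∈ ball w₀ r := fun w hw => ball_subset_ball hδr.le hw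
  have hex : ∀ w : ball w₀ δ, ∃ (Z : Multiset ℂ) (E : ℂ → ℂ),
      (∀ u, u ∈ Z ↔ u ∈ ball u₀ ρ ∧ F (w, u) = 0) ∧
      DifferentiableOn ℂ E (ball u₀ r) ∧ (∀ u ∈ closedBall u₀ ρ, E u ≠ 0) ∧
      ∀ u ∈ ball u₀ r, F (w, u) = (Z.map (fun a => u - a)).prod * E u := fun w =>
    cluster_factor hρ hρr (hslice w (hwr w w.2)) (hne' w w.2)
  choose Z' E' hZ' hE'd hE'0 hE'F using hex
  obtain ⟨Z, hZdef⟩ : ∃ Z : ℂ → Multiset ℂ, ∀ w (h : w ∈ ball w₀ δ), Z w = Z' ⟨w, h⟩ :=
    ⟨fun w => if h : w ∈ ball w₀ δ then Z' ⟨w, h⟩ else 0, fun w h => dif_pos h⟩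
  have hZiff : ∀ w ∈ ball w₀ δ, ∀ u, u ∈ Z w ↔ u ∈ ball u₀ ρ ∧ F (w, u) = 0 := by
    intro w hw u
    rw [hZdef w hw]
    exact hZ' ⟨w, hw⟩ u
  -- the derivative in the second variable
  have hFu : DifferentiableOn ℂ (fun p => fderiv ℂ F p ((0 : ℂ), (1 : ℂ))) (ball (w₀, u₀) r) :=
    Pool.Agent.ParLeaf.SCV1_dir hB hF _
  have hsub : closedBall u₀ ρ ⊆ ball u₀ r := closedBall_subset_ball hρr
  have hderiv : ∀ w ∈ ball w₀ δ, ∀ u ∈ sphere u₀ ρ,
      deriv (fun u => F (w, u)) u = fderiv ℂ F (w, u) (0, 1) := by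
    intro w hw u hu
    have hp : (w, u) ∈ ball (w₀, u₀) r :=
      hmem w (hwr w hw) u (hsub (sphere_subset_closedBall hu))
    have h3 : HasFDerivAt F (fderiv ℂ F (w, u)) (w, u) :=
      ((hF _ hp).differentiableAt (hB.mem_nhds hp)).hasFDerivAt
    have h4 : HasDerivAt (fun x : ℂ => (w, x)) ((0 : ℂ), (1 : ℂ)) u :=
      (hasDerivAt_const u w).prodMk (hasDerivAt_id u)
    exact (h3.comp_hasDerivAt u h4).deriv
  -- the main formula
  have hform : ∀ w ∈ ball w₀ δ, ∀ L : ℂ × ℂ → ℂ,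
      (∀ u ∈ closedBall u₀ ρ, DifferentiableAt ℂ (fun u => L (w, u)) u) →
      (∮ u in C(u₀, ρ), L (w, u) * (fderiv ℂ F (w, u) (0, 1) / F (w, u)))
        = 2 * Real.pi * I * ((Z w).map (fun u => L (w, u))).sum := by
    intro w hw L hL
    rw [hZdef w hw]
    have h3 := cluster_arg (f := fun u => F (w, u)) hρ hρr (hE'd ⟨w, hw⟩) (hE'0 ⟨w, hw⟩)
      (Z := Z' ⟨w, hw⟩) (fun a ha => ((hZ' ⟨w, hw⟩ a).1 ha).1) (hE'F ⟨w, hw⟩) hL
    rw [← h3]
    refine circleIntegral.integral_congr hρ.le fun u hu => ?_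
    show L (w, u) * (fderiv ℂ F (w, u) (0, 1) / F (w, u))
      = L (w, u) * (deriv (fun u => F (w, u)) u / F (w, u))
    rw [hderiv w hw u hu]
  have hdiff : ∀ (V : Set ℂ), IsOpen V → V ⊆ ball w₀ δ → ∀ L : ℂ × ℂ → ℂ,
      (∀ w ∈ V, ∀ u ∈ closedBall u₀ ρ, ∃ O ∈ 𝓝 (w, u), DifferentiableOn ℂ L O) →
      DifferentiableOn ℂ (fun w => ((Z w).map (fun u => L (w, u))).sum) V := by
    intro V hV hVδ L hL
    have hLd : ∀ w ∈ V, ∀ u ∈ closedBall u₀ ρ, ∀ᶠ p in 𝓝 (w, u), DifferentiableAt ℂ L p := by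
      intro w hw u hu
      obtain ⟨O, hO, hLO⟩ := hL w hw u hu
      filter_upwards [eventually_mem_nhds_iff.2 hO] with p hp
      exact (hLO p (mem_of_mem_nhds hp)).differentiableAt hp
    have hLs : ∀ w ∈ V, ∀ u ∈ closedBall u₀ ρ, DifferentiableAt ℂ (fun u => L (w, u)) u := by
      intro w hw u hu
      have h3 : DifferentiableAt ℂ L (w, u) := (hLd w hw u hu).self_of_nhds
      exact h3.comp u (by fun_prop)
    intro w₁ hw₁
    have h3 : (fun w => ((Z w).map (fun u => L (w, u))).sum) =ᶠ[𝓝 w₁] fun w =>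
        (2 * Real.pi * I)⁻¹ *
          ∮ u in C(u₀, ρ), L (w, u) * (fderiv ℂ F (w, u) (0, 1) / F (w, u)) := by
      filter_upwards [hV.mem_nhds hw₁] with w hw
      rw [hform w (hVδ hw) L (hLs w hw), inv_mul_cancel_left₀ two_pi_I_ne_zero]
    refine (DifferentiableAt.congr_of_eventuallyEq ?_ h3).differentiableWithinAt
    refine DifferentiableAt.const_mul ?_ _
    refine cluster_param (H := fun p => L p * (fderiv ℂ F p (0, 1) / F p))
      (O := {p : ℂ × ℂ | p ∈ ball (w₀, u₀) r ∧ F p ≠ 0} ∩ interior {p | DifferentiableAt ℂ L p})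
      (hOF.inter isOpen_interior) ?_ hρ.le ?_
    · rintro p ⟨⟨hp1, hp2⟩, hp3⟩
      have h4 : DifferentiableAt ℂ L p :=
        (interior_subset (s := {p | DifferentiableAt ℂ L p}) hp3)
      have h5 := hB.mem_nhds hp1
      simp only [div_eq_mul_inv]
      exact (h4.mul (((hFu p hp1).differentiableAt h5).mul
        (((hF p hp1).differentiableAt h5).fun_inv hp2))).differentiableWithinAt
    · intro u hu
      have hu' : ‖u - u₀‖ = ρ := by rw [← dist_eq_norm]; exact hu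
      refine ⟨⟨hmem w₁ (hwr w₁ (hVδ hw₁)) u (hsub (sphere_subset_closedBall hu)),
        hne' w₁ (hVδ hw₁) u hu'⟩, ?_⟩
      exact mem_interior_iff_mem_nhds.2 (hLd w₁ hw₁ u (sphere_subset_closedBall hu))
  -- the number of zeros is constant
  have hcard : ∀ w ∈ ball w₀ δ, Multiset.card (Z w) = Multiset.card (Z w₀) := by
    have h3 : DifferentiableOn ℂ (fun w => ((Z w).map (fun _ => (1 : ℂ))).sum) (ball w₀ δ) :=
      hdiff (ball w₀ δ) isOpen_ball subset_rfl (fun _ => 1) fun w _ u _ =>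
        ⟨univ, univ_mem, differentiableOn_const _⟩
    have h4 : ContinuousOn (fun w => ((Multiset.card (Z w) : ℝ))) (ball w₀ δ) := by
      have h5 : ContinuousOn (fun w => (((Z w).map (fun _ => (1 : ℂ))).sum).re) (ball w₀ δ) :=
        continuous_re.comp_continuousOn h3.continuousOn
      refine h5.congr fun w _ => ?_
      simp
    have h6 : ContinuousOn (fun w => Multiset.card (Z w)) (ball w₀ δ) :=
      (Nat.isClosedEmbedding_coe_real.isInducing.continuousOn_iff).2 h4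
    intro w hw
    exact (convex_ball w₀ δ).isPreconnected.constant h6 hw (mem_ball_self hδ)
  refine ⟨ρ, hρ, hρρ₀, hρr, δ, hδ, hδr, Multiset.card (Z w₀), Z, ?_,
    fun w hw => ⟨hcard w hw, hZiff w hw⟩, hne', ?_, hdiff⟩
  · rw [Multiset.card_pos_iff_exists_mem]
    exact ⟨u₀, (hZiff w₀ (mem_ball_self hδ) u₀).2 ⟨mem_ball_self hρ, h0⟩⟩
  · intro u hu
    have h3 := (hZiff w₀ (mem_ball_self hδ) u).1 hu
    by_contra hne
    refine h2 u (norm_pos_iff.2 (sub_ne_zero.2 hne)) ?_ h3.2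
    rw [← dist_eq_norm]
    exact (mem_ball.1 h3.1).le

end H6ea4aa
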