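import Pool.Agent.H.MP_6ea4aa_an.Util
import Pool.Agent.H.MP_3a36cd_an.Planar1

/-!
# MP_6ea4aa: finiteness of the number of components of `{g > s}`
-/

set_option autoImplicit false

open Complex Set Filter Topology Metric MeasureTheory

namespace H6ea4aa

/-! ### area submean inequality -/

/-- the submean inequality over discs -/
theorem compFin_area {h : ℂ → ℝ} (hc : Continuous h) {a : ℂ}
    (hsub : ∀ r : ℝ, 0 < r → h a ≤ Real.circleAverage h a r) {t : ℝ} (ht : 0 < t) :
    Real.pi * t ^ 2 * h a ≤ ∫ z in ball a t, h z := by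
  have hF : Continuous (fun p : ℝ × ℝ => p.1 * h (circleMap a p.1 p.2)) := by
    have : Continuous (fun p : ℝ × ℝ => circleMap a p.1 p.2) := by
      unfold circleMap
      fun_prop
    fun_prop
  -- polar coordinates
  have e1 : ∫ z in ball a t, h z =
      ∫ p in Ioo 0 t ×ˢ Ioo (-Real.pi) Real.pi, p.1 * h (circleMap a p.1 p.2) := by
    have s1 : ∫ z in ball a t, h z = ∫ z, (ball a t).indicator h (a + z) := by
      rw [integral_add_left_eq_self (fun z => (ball a t).indicator h z),
        integral_indicator measurableSet_ball]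
    rw [s1, ← Complex.integral_comp_polarCoord_symm]
    have htar : MeasurableSet (polarCoord.target) := polarCoord.open_target.measurableSet
    have hprod : MeasurableSet (Ioo 0 t ×ˢ Ioo (-Real.pi) Real.pi) :=
      measurableSet_Ioo.prod measurableSet_Ioo
    rw [← integral_indicator htar, ← integral_indicator hprod]
    congr 1
    funext p
    by_cases hp : p ∈ polarCoord.target
    · have hp' : 0 < p.1 ∧ -Real.pi < p.2 ∧ p.2 < Real.pi := by
        rw [polarCoord_target] at hp
        exact ⟨hp.1, hp.2.1, hp.2.2⟩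
      have e2 : a + Complex.polarCoord.symm p = circleMap a p.1 p.2 := by
        rw [Complex.polarCoord_symm_apply, circleMap, Complex.exp_mul_I]
        push_cast
        ring
      rw [indicator_of_mem hp, e2]
      have e3 : circleMap a p.1 p.2 ∈ ball a t ↔ p.1 < t := by
        rw [mem_ball, dist_eq_norm, circleMap_sub_center, norm_circleMap_zero,
          abs_of_pos hp'.1]
      by_cases hpt : p.1 < t
      · rw [indicator_of_mem (e3.2 hpt), indicator_of_mem (show p ∈ _ from ?_), smul_eq_mul]
        exact ⟨⟨hp'.1, hpt⟩, hp'.2⟩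
      · rw [indicator_of_notMem (fun h' => hpt (e3.1 h')),
          indicator_of_notMem (fun h' => hpt h'.1.2), smul_zero]
    · rw [indicator_of_notMem hp, indicator_of_notMem]
      intro h'
      apply hp
      rw [polarCoord_target]
      exact ⟨h'.1.1, h'.2⟩
  have hint : IntegrableOn (fun p : ℝ × ℝ => p.1 * h (circleMap a p.1 p.2))
      (Ioo 0 t ×ˢ Ioo (-Real.pi) Real.pi) := by
    have hK : IsCompact (Icc 0 t ×ˢ Icc (-Real.pi) Real.pi) := isCompact_Icc.prod isCompact_Icc
    exact (hF.continuousOn.integrableOn_compact hK).mono_set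
      (prod_mono Ioo_subset_Icc_self Ioo_subset_Icc_self)
  have hint' : Integrable (fun p : ℝ × ℝ => p.1 * h (circleMap a p.1 p.2))
      ((volume.restrict (Ioo 0 t)).prod (volume.restrict (Ioo (-Real.pi) Real.pi))) := by
    rw [Measure.prod_restrict]
    exact hint
  have hinner : ∀ r : ℝ, ∫ θ in Ioo (-Real.pi) Real.pi, r * h (circleMap a r θ) =
      r * (2 * Real.pi * Real.circleAverage h a r) := by
    intro r
    rw [integral_const_mul]
    congr 1
    have hper : (fun θ : ℝ => h (circleMap a r θ)).Periodic (2 * Real.pi) :=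
      fun x => by simp [periodic_circleMap a r x]
    have e4 : ∫ θ in Ioo (-Real.pi) Real.pi, h (circleMap a r θ) =
        ∫ θ in (-Real.pi)..(-Real.pi + 2 * Real.pi), h (circleMap a r θ) := by
      rw [intervalIntegral.integral_of_le (by linarith [Real.pi_pos]), integral_Ioc_eq_integral_Ioo]
      congr 3
      ring
    rw [e4, hper.intervalIntegral_add_eq (-Real.pi) 0, zero_add, Real.circleAverage_def]
    simp only [smul_eq_mul]
    have := Real.pi_pos
    field_simp
  have e5 : ∫ p in Ioo 0 t ×ˢ Ioo (-Real.pi) Real.pi, p.1 * h (circleMap a p.1 p.2) =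
      ∫ r in Ioo 0 t, r * (2 * Real.pi * Real.circleAverage h a r) := by
    rw [show (volume : Measure (ℝ × ℝ)) = (volume : Measure ℝ).prod volume from rfl,
      setIntegral_prod _ hint]
    exact integral_congr_ae (Eventually.of_forall fun r => hinner r)
  have hint2 : IntegrableOn (fun r => r * (2 * Real.pi * Real.circleAverage h a r)) (Ioo 0 t) := by
    have := hint'.integral_prod_left
    exact this.congr (Eventually.of_forall fun r => hinner r)
  have hint3 : IntegrableOn (fun r : ℝ => r * (2 * Real.pi * h a)) (Ioo 0 t) := by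
    have : Continuous (fun r : ℝ => r * (2 * Real.pi * h a)) := by fun_prop
    exact (this.continuousOn.integrableOn_compact isCompact_Icc).mono_set Ioo_subset_Icc_self
  rw [e1, e5]
  have e6 : Real.pi * t ^ 2 * h a = ∫ r in Ioo 0 t, r * (2 * Real.pi * h a) := by
    rw [integral_mul_const, ← integral_Ioc_eq_integral_Ioo, ← intervalIntegral.integral_of_le ht.le,
      integral_id]
    ring
  rw [e6]
  refine setIntegral_mono_on hint3 hint2 measurableSet_Ioo (fun r hr => ?_)
  apply mul_le_mul_of_nonneg_left _ hr.1.le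
  apply mul_le_mul_of_nonneg_left (hsub r hr.1)
  positivity

/-! ### the function `g - s` on one component of `{g > s}` -/

variable {g : ℂ → ℝ} {mu : ℂ} {lam : ℝ}

/-- the function `g - s` on one component of `{g > s}`, extended by zero -/
noncomputable def compFn (g : ℂ → ℝ) (s : ℝ) (z : ℂ) : ℂ → ℝ :=
  (connectedComponentIn {ζ | s < g ζ} z).indicator (fun w => g w - s)

theorem compFn_isOpen (hg : Continuous g) (s : ℝ) (z : ℂ) :
    IsOpen (connectedComponentIn {ζ | s < g ζ} z) :=
  (isOpen_lt continuous_const hg).connectedComponentIn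

theorem compFn_nonneg (s : ℝ) (z w : ℂ) : 0 ≤ compFn g s z w := by
  unfold compFn
  apply indicator_nonneg
  intro w hw
  have h : w ∈ {ζ | s < g ζ} := connectedComponentIn_subset _ _ hw
  have h' : s < g w := h
  linarith

theorem compFn_le (s : ℝ) (z w : ℂ) : compFn g s z w ≤ max (g w - s) 0 := by
  unfold compFn
  by_cases hw : w ∈ connectedComponentIn {ζ | s < g ζ} z
  · rw [indicator_of_mem hw]; exact le_max_left _ _
  · rw [indicator_of_notMem hw]; exact le_max_right _ _

theorem compFn_continuous (hg : Continuous g) (s : ℝ) (z : ℂ) : Continuous (compFn g s z) := by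
  rw [continuous_iff_continuousAt]
  intro w
  by_cases hw : w ∈ connectedComponentIn {ζ | s < g ζ} z
  · have h1 : compFn g s z =ᶠ[𝓝 w] fun w => g w - s := by
      filter_upwards [(compFn_isOpen hg s z).mem_nhds hw] with y hy
      exact indicator_of_mem hy _
    have h2 : ContinuousAt (fun w => g w - s) w := (hg.sub continuous_const).continuousAt
    exact h2.congr h1.symm
  · by_cases hgw : s < g w
    · have h1 : compFn g s z =ᶠ[𝓝 w] fun _ => (0 : ℝ) := by
        filter_upwards [(compFn_isOpen hg s w).mem_nhds
          (mem_connectedComponentIn (show w ∈ {ζ | s < g ζ} from hgw))] with y hy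
        apply indicator_of_notMem
        intro hy'
        apply hw
        rw [connectedComponentIn_eq hy', ← connectedComponentIn_eq hy]
        exact mem_connectedComponentIn (show w ∈ {ζ | s < g ζ} from hgw)
      have h2 : ContinuousAt (fun _ : ℂ => (0 : ℝ)) w := continuousAt_const
      exact h2.congr h1.symm
    · have h0 : compFn g s z w = 0 := indicator_of_notMem hw _
      rw [ContinuousAt, h0]
      refine squeeze_zero (fun y => compFn_nonneg s z y) (fun y => compFn_le s z y) ?_
      have h1 : Continuous (fun y => max (g y - s) 0) := by fun_prop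
      have h2 := h1.tendsto w
      rwa [max_eq_right (by linarith)] at h2

/-- the submean inequality for `compFn`, all radii -/
theorem compFn_submean (hg : LinGreen g mu lam) (s : ℝ) (z a : ℂ) {r : ℝ} (hr : 0 < r) :
    compFn g s z a ≤ Real.circleAverage (compFn g s z) a r := by
  have hcont := compFn_continuous hg.cont s z
  have hneg : ∀ (τ : ℂ) (r : ℝ), Real.circleAverage (fun w => -compFn g s z w) τ r =
      -Real.circleAverage (compFn g s z) τ r := by
    intro τ r
    simp only [Real.circleAverage_def, intervalIntegral.integral_neg, smul_neg]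
  have key := Pool.Agent.ParLeaf.superharmonic_of_local (n := fun w => -compFn g s z w)
    isOpen_univ hcont.neg.continuousOn ?_ a r hr (subset_univ _)
  · rw [hneg] at key
    linarith
  intro τ _
  refine ⟨0, ?_⟩
  by_cases hτ : τ ∈ connectedComponentIn {ζ | s < g ζ} z
  · obtain ⟨s₀, hs₀, hball⟩ := Metric.isOpen_iff.1 (compFn_isOpen hg.cont s z) τ hτ
    refine ⟨s₀, hs₀, fun r hr hr' => ?_⟩
    rw [hneg]
    have e1 : Real.circleAverage (compFn g s z) τ r = Real.circleAverage (fun w => g w - s) τ r := by
      apply Real.circleAverage_congr_sphere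
      intro w hw
      rw [abs_of_pos hr] at hw
      exact indicator_of_mem (hball (sphere_subset_ball hr' hw)) _
    have e2 : Real.circleAverage (fun w => g w - s) τ r = Real.circleAverage g τ r - s := by
      rw [Real.circleAverage_fun_sub (hg.cont.continuousOn.circleIntegrable hr.le)
        (circleIntegrable_const _ _ _), Real.circleAverage_const]
    have e3 : compFn g s z τ = g τ - s := indicator_of_mem hτ _
    rw [e1, e2, e3]
    have := hg.submean τ r hr
    linarith
  · refine ⟨1, one_pos, fun r hr _ => ?_⟩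
    rw [hneg]
    have e3 : compFn g s z τ = 0 := indicator_of_notMem hτ _
    rw [e3]
    have : 0 ≤ Real.circleAverage (compFn g s z) τ r :=
      Real.circleAverage_nonneg_of_nonneg (fun w _ => compFn_nonneg s z w)
    linarith

/-! ### maximum over discs -/

/-- the maximum over the disc of radius `T` -/
noncomputable def discMax (h : ℂ → ℝ) (T : ℝ) : ℝ := sSup (h '' closedBall 0 T)

theorem discMax_spec {h : ℂ → ℝ} (hc : Continuous h) {T : ℝ} (hT : 0 ≤ T) :
    (∃ a ∈ closedBall (0 : ℂ) T, h a = discMax h T) ∧
      ∀ x ∈ closedBall (0 : ℂ) T, h x ≤ discMax h T := by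
  obtain ⟨a, ha, hmax⟩ := (isCompact_closedBall (0 : ℂ) T).exists_isMaxOn
    ⟨0, mem_closedBall_self hT⟩ hc.continuousOn
  have e : discMax h T = h a := by
    apply le_antisymm
    · apply csSup_le
      · exact ⟨h a, a, ha, rfl⟩
      · rintro _ ⟨x, hx, rfl⟩
        exact hmax hx
    · apply le_csSup
      · exact ⟨h a, by rintro _ ⟨x, hx, rfl⟩; exact hmax hx⟩
      · exact ⟨a, ha, rfl⟩
  exact ⟨⟨a, ha, e.symm⟩, fun x hx => by rw [e]; exact hmax hx⟩

/-- one step: the maxima grow fast on average -/
theorem compFin_step (hg : LinGreen g mu lam) {s : ℝ} {Z : Finset ℂ}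
    (hZ : ∀ z ∈ Z, ∀ z' ∈ Z, z ≠ z' → z' ∉ connectedComponentIn {ζ | s < g ζ} z)
    (hZs : ∀ z ∈ Z, s < g z)
    {T q : ℝ} (hT : 0 < T) (hq : 2 ≤ q) (hpos : ∀ z ∈ Z, 0 < discMax (compFn g s z) (T / q)) :
    ∑ z ∈ Z, discMax (compFn g s z) (T / q) / discMax (compFn g s z) T ≤ 4 := by
  have hq0 : 0 < q := by linarith
  have hTq : T / q ≤ T / 2 := div_le_div_of_nonneg_left hT.le two_pos hq
  have hTq0 : 0 ≤ T / q := by positivity
  have hcont : ∀ z, Continuous (compFn g s z) := compFn_continuous hg.cont s
  have hposT : ∀ z ∈ Z, 0 < discMax (compFn g s z) T := by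
    intro z hz
    obtain ⟨⟨a, ha, hae⟩, _⟩ := discMax_spec (hcont z) hTq0
    have h1 := (discMax_spec (hcont z) hT.le).2 a
      (closedBall_subset_closedBall (by linarith) ha)
    have := hpos z hz
    linarith
  -- disjointness
  have hdis : ∀ z ∈ Z, ∀ z' ∈ Z, z ≠ z' → ∀ w, w ∈ connectedComponentIn {ζ | s < g ζ} z →
      w ∉ connectedComponentIn {ζ | s < g ζ} z' := by
    intro z hz z' hz' hne w hw hw'
    apply hZ z hz z' hz' hne
    rw [connectedComponentIn_eq hw, ← connectedComponentIn_eq hw']
    exact mem_connectedComponentIn (show z' ∈ {ζ | s < g ζ} from hZs z' hz')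
  -- single terms
  have hterm : ∀ z ∈ Z, discMax (compFn g s z) (T / q) / discMax (compFn g s z) T ≤
      4 / (Real.pi * T ^ 2) * ∫ w in closedBall (0 : ℂ) T,
        compFn g s z w / discMax (compFn g s z) T := by
    intro z hz
    obtain ⟨⟨a, ha, hae⟩, _⟩ := discMax_spec (hcont z) hTq0
    have h1 := compFin_area (hcont z) (a := a) (fun r hr => compFn_submean hg s z a hr)
      (t := T / 2) (by linarith)
    have h2 : ∫ w in ball a (T / 2), compFn g s z w ≤ ∫ w in closedBall (0 : ℂ) T,
        compFn g s z w := by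
      apply setIntegral_mono_set
      · exact (hcont z).continuousOn.integrableOn_compact (isCompact_closedBall _ _)
      · exact Eventually.of_forall fun w => compFn_nonneg s z w
      · apply LE.le.eventuallyLE
        intro w hw
        rw [mem_closedBall, dist_zero_right] at *
        rw [mem_ball, dist_eq_norm] at hw
        calc ‖w‖ = ‖(w - a) + a‖ := by rw [sub_add_cancel]
          _ ≤ ‖w - a‖ + ‖a‖ := norm_add_le _ _
          _ ≤ T := by linarith
    rw [integral_div, ← hae]
    have hP := hposT z hz
    have hpi := Real.pi_pos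
    have h3 : compFn g s z a ≤ 4 / (Real.pi * T ^ 2) * ∫ w in closedBall (0 : ℂ) T,
        compFn g s z w := by
      rw [div_mul_eq_mul_div, le_div_iff₀ (by positivity)]
      nlinarith
    calc compFn g s z a / discMax (compFn g s z) T ≤
        (4 / (Real.pi * T ^ 2) * ∫ w in closedBall (0 : ℂ) T, compFn g s z w) /
          discMax (compFn g s z) T := by gcongr
      _ = _ := by ring
  refine (Finset.sum_le_sum hterm).trans ?_
  rw [← Finset.mul_sum, ← integral_finsetSum]
  swap
  · intro z _
    exact ((hcont z).div_const _).continuousOn.integrableOn_compact (isCompact_closedBall _ _)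
  have hpt : ∀ w ∈ closedBall (0 : ℂ) T,
      ∑ z ∈ Z, compFn g s z w / discMax (compFn g s z) T ≤ 1 := by
    intro w hw
    by_cases hex : ∃ z ∈ Z, w ∈ connectedComponentIn {ζ | s < g ζ} z
    · obtain ⟨z, hz, hwz⟩ := hex
      rw [Finset.sum_eq_single_of_mem z hz]
      · rw [div_le_one (hposT z hz)]
        exact (discMax_spec (hcont z) hT.le).2 w hw
      · intro z' hz' hne
        have : compFn g s z' w = 0 := indicator_of_notMem (hdis z hz z' hz' hne.symm w hwz) _
        rw [this, zero_div]
    · push Not at hex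
      rw [Finset.sum_eq_zero]
      · exact zero_le_one
      · intro z hz
        have : compFn g s z w = 0 := indicator_of_notMem (hex z hz) _
        rw [this, zero_div]
  have hint : ∫ w in closedBall (0 : ℂ) T, ∑ z ∈ Z, compFn g s z w / discMax (compFn g s z) T ≤
      ∫ w in closedBall (0 : ℂ) T, (1 : ℝ) := by
    apply setIntegral_mono_on
    · have : Continuous (fun w => ∑ z ∈ Z, compFn g s z w / discMax (compFn g s z) T) :=
        continuous_finsetSum _ fun z _ => (hcont z).div_const _
      exact this.continuousOn.integrableOn_compact (isCompact_closedBall _ _)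
    · exact continuousOn_const.integrableOn_compact (isCompact_closedBall _ _)
    · exact measurableSet_closedBall
    · exact hpt
  have hvol : ∫ w in closedBall (0 : ℂ) T, (1 : ℝ) = Real.pi * T ^ 2 := by
    rw [setIntegral_const, smul_eq_mul, mul_one, Measure.real, Complex.volume_closedBall]
    simp [ENNReal.toReal_ofReal hT.le]
    ring
  rw [hvol] at hint
  have hpi := Real.pi_pos
  calc 4 / (Real.pi * T ^ 2) * ∫ w in closedBall (0 : ℂ) T,
      ∑ z ∈ Z, compFn g s z w / discMax (compFn g s z) T ≤
        4 / (Real.pi * T ^ 2) * (Real.pi * T ^ 2) := by gcongr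
    _ = 4 := by field_simp

/-- scaling by powers -/
theorem compFin_scale (hg : LinGreen g mu lam) (k : ℕ) (z : ℂ) : g (mu ^ k * z) = lam ^ k * g z := by
  induction k with
  | zero => simp
  | succ k ih =>
    rw [pow_succ', mul_assoc, hg.scale, ih, pow_succ', mul_assoc]

/-- Denjoy-Carleman-Ahlfors: the number of components of `{g > s}` is bounded, uniformly in `s` -/
theorem LinGreen.finite_comps (hg : LinGreen g mu lam) : ∃ m : ℕ, ∀ s : ℝ, 0 < s →
    ∀ Z : Finset ℂ, (∀ z ∈ Z, s < g z) →
      (∀ z ∈ Z, ∀ z' ∈ Z, z ≠ z' → z' ∉ connectedComponentIn {ζ | s < g ζ} z) → Z.card ≤ m := by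
  obtain ⟨n, hn⟩ := pow_unbounded_of_one_lt (2 : ℝ) hg.one_lt_mu
  have hlam := hg.one_lt_lam
  set q : ℝ := ‖mu‖ ^ n with hq
  have hq2 : 2 ≤ q := hn.le
  have hq0 : 0 < q := by linarith
  refine ⟨⌈4 * lam ^ n⌉₊, fun s hs Z hZs hZ => ?_⟩
  rcases Z.eq_empty_or_nonempty with rfl | hne
  · simp
  have hm0 : (0 : ℝ) < Z.card := by exact_mod_cast hne.card_pos
  suffices h : (Z.card : ℝ) ≤ 4 * lam ^ n by
    have := h.trans (Nat.le_ceil _)
    exact_mod_cast this
  have hcont : ∀ z, Continuous (compFn g s z) := compFn_continuous hg.cont s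
  -- starting radius
  obtain ⟨R, hR⟩ := Z.finite_toSet.isBounded.subset_closedBall (0 : ℂ)
  set R0 : ℝ := max R 1 with hR0
  have hR0pos : 0 < R0 := lt_of_lt_of_le one_pos (le_max_right _ _)
  have hpos0 : ∀ z ∈ Z, 0 < discMax (compFn g s z) R0 := by
    intro z hz
    have h1 := (discMax_spec (hcont z) hR0pos.le).2 z
      (closedBall_subset_closedBall (le_max_left _ _) (hR hz))
    have h2 : compFn g s z z = g z - s :=
      indicator_of_mem (mem_connectedComponentIn (show z ∈ {ζ | s < g ζ} from hZs z hz)) _
    have := hZs z hz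
    linarith
  have hrad : ∀ K : ℕ, 0 < q ^ K * R0 := fun K => by positivity
  have hposK : ∀ K : ℕ, ∀ z ∈ Z, 0 < discMax (compFn g s z) (q ^ K * R0) := by
    intro K z hz
    obtain ⟨⟨a, ha, hae⟩, _⟩ := discMax_spec (hcont z) hR0pos.le
    have h0 := hpos0 z hz
    have h1 : R0 ≤ q ^ K * R0 := by
      have : 1 ≤ q ^ K := one_le_pow₀ (by linarith)
      nlinarith
    have h2 := (discMax_spec (hcont z) (hrad K).le).2 a (closedBall_subset_closedBall h1 ha)
    linarith
  -- growth from below
  have hlow : ∀ K : ℕ, ∑ z ∈ Z, Real.log (discMax (compFn g s z) R0) +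
      K * (Z.card * Real.log (Z.card / 4)) ≤
        ∑ z ∈ Z, Real.log (discMax (compFn g s z) (q ^ K * R0)) := by
    intro K
    induction K with
    | zero => simp
    | succ K ih =>
      have hdiv : q ^ (K + 1) * R0 / q = q ^ K * R0 := by
        rw [pow_succ]; field_simp
      have hst := compFin_step hg hZ hZs (hrad (K + 1)) hq2
        (fun z hz => by rw [hdiv]; exact hposK K z hz)
      rw [hdiv] at hst
      have hlog : ∀ z ∈ Z, Real.log (discMax (compFn g s z) (q ^ K * R0)) -
          Real.log (discMax (compFn g s z) (q ^ (K + 1) * R0)) ≤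
          (Z.card / 4) * (discMax (compFn g s z) (q ^ K * R0) /
            discMax (compFn g s z) (q ^ (K + 1) * R0)) - 1 - Real.log (Z.card / 4) := by
        intro z hz
        have p1 := hposK K z hz
        have p2 := hposK (K + 1) z hz
        have p3 : (0 : ℝ) < Z.card / 4 := by positivity
        have h1 := Real.log_le_sub_one_of_pos (mul_pos p3 (div_pos p1 p2))
        rw [Real.log_mul p3.ne' (div_pos p1 p2).ne', Real.log_div p1.ne' p2.ne'] at h1
        linarith
      have hsum := Finset.sum_le_sum hlog
      rw [Finset.sum_sub_distrib, Finset.sum_sub_distrib, Finset.sum_sub_distrib,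
        ← Finset.mul_sum, Finset.sum_const, Finset.sum_const, nsmul_eq_mul, nsmul_eq_mul] at hsum
      have h2 : (Z.card / 4 : ℝ) * ∑ z ∈ Z, discMax (compFn g s z) (q ^ K * R0) /
            discMax (compFn g s z) (q ^ (K + 1) * R0) ≤ (Z.card / 4) * 4 :=
        mul_le_mul_of_nonneg_left hst (by positivity)
      push_cast
      linarith
  -- growth from above
  have hG : ∀ K : ℕ, ∀ z ∈ Z, discMax (compFn g s z) (q ^ K * R0) ≤
      (lam ^ n) ^ K * discMax g R0 := by
    intro K z _
    obtain ⟨⟨a, ha, hae⟩, _⟩ := discMax_spec (hcont z) (hrad K).le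
    rw [← hae]
    have hmu0 : mu ≠ 0 := by
      intro h0
      have := hg.one_lt_mu
      rw [h0, norm_zero] at this
      linarith
    have ha' : a = mu ^ (n * K) * (a / mu ^ (n * K)) := by
      field_simp
    have hin : a / mu ^ (n * K) ∈ closedBall (0 : ℂ) R0 := by
      rw [mem_closedBall, dist_zero_right] at ha ⊢
      rw [norm_div, norm_pow, pow_mul, ← hq, div_le_iff₀ (by positivity)]
      linarith
    have h1 := (discMax_spec hg.cont hR0pos.le).2 _ hin
    have h2 : g a = (lam ^ n) ^ K * g (a / mu ^ (n * K)) := by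
      conv_lhs => rw [ha', compFin_scale hg, pow_mul]
    have h3 : compFn g s z a ≤ g a := by
      refine (compFn_le s z a).trans (max_le (by linarith) (hg.nonneg a))
    refine h3.trans ?_
    rw [h2]
    have : 0 ≤ (lam ^ n) ^ K := by positivity
    exact mul_le_mul_of_nonneg_left h1 this
  have hG0 : 0 < discMax g R0 := by
    obtain ⟨z, hz⟩ := hne
    have h1 := hG 0 z hz
    have h2 := hposK 0 z hz
    have h3 := h2.trans_le h1
    rwa [pow_zero, one_mul] at h3
  have hupp : ∀ K : ℕ, ∑ z ∈ Z, Real.log (discMax (compFn g s z) (q ^ K * R0)) ≤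
      Z.card * (K * Real.log (lam ^ n) + Real.log (discMax g R0)) := by
    intro K
    have h1 : ∀ z ∈ Z, Real.log (discMax (compFn g s z) (q ^ K * R0)) ≤
        K * Real.log (lam ^ n) + Real.log (discMax g R0) := by
      intro z hz
      have h2 := Real.log_le_log (hposK K z hz) (hG K z hz)
      rw [Real.log_mul (by positivity) hG0.ne', Real.log_pow] at h2
      exact h2
    have h3 := Finset.sum_le_sum h1
    rwa [Finset.sum_const, nsmul_eq_mul] at h3
  -- conclusion
  by_contra hcon
  push Not at hcon
  have hlamn : 0 < lam ^ n := by positivity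
  have hδ : 0 < Z.card * Real.log (Z.card / 4) - Z.card * Real.log (lam ^ n) := by
    rw [← mul_sub]
    apply mul_pos hm0
    rw [sub_pos]
    apply Real.log_lt_log hlamn
    linarith
  set δ := Z.card * Real.log (Z.card / 4) - Z.card * Real.log (lam ^ n) with hδdef
  set c0 := Z.card * Real.log (discMax g R0) - ∑ z ∈ Z, Real.log (discMax (compFn g s z) R0)
    with hc0
  obtain ⟨K, hK⟩ := exists_nat_gt (c0 / δ)
  rw [div_lt_iff₀ hδ] at hK
  have h1 := (hlow K).trans (hupp K)
  have h2 : (K : ℝ) * δ ≤ c0 := by
    rw [hδdef, hc0]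
    linarith
  linarith

end H6ea4aa
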