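import Pool.Agent.H.MP_6ea4aa_an.Util

/-!
# MP_6ea4aa: components of `{g > s}`
-/

set_option autoImplicit false

open Complex Set Filter Topology Metric

namespace H6ea4aa

variable {g : ℂ → ℝ} {mu : ℂ} {lam : ℝ}

/-- `log ‖ζ‖` is locally the real part of a holomorphic function away from `0`. -/
theorem CompHigh_locRe_log {z : ℂ} (hz : z ≠ 0) : LocRe (fun ζ => Real.log ‖ζ‖) z := by
  have hz' : 0 < ‖z‖ := norm_pos_iff.2 hz
  have hmem : ∀ ζ ∈ ball z ‖z‖, ζ / z ∈ slitPlane := by
    intro ζ hζ
    have h1 : ‖(ζ - z) / z‖ < 1 := by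
      rw [norm_div, div_lt_one hz']
      simpa [mem_ball, dist_eq_norm] using hζ
    have h2 := mem_slitPlane_of_norm_lt_one h1
    have h3 : 1 + (ζ - z) / z = ζ / z := by field_simp; ring
    rwa [h3] at h2
  refine ⟨‖z‖, hz', fun ζ => Complex.log (ζ / z) + (Real.log ‖z‖ : ℂ), ?_, ?_⟩
  · intro ζ hζ
    have h1 : DifferentiableAt ℂ (fun ζ : ℂ => Complex.log (ζ / z)) ζ :=
      (differentiableAt_id.div_const z).clog (hmem ζ hζ)
    exact (h1.add_const _).differentiableWithinAt
  · intro ζ hζ
    have hne : ζ / z ≠ 0 := slitPlane_ne_zero (hmem ζ hζ)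
    have hζ0 : ‖ζ‖ ≠ 0 := by
      intro h
      apply hne
      rw [norm_eq_zero.1 h, zero_div]
    simp only [add_re, Complex.log_re, norm_div, ofReal_re]
    rw [Real.log_div hζ0 hz'.ne']
    ring

/-- on the frontier of a component of `{g > s}`, `g = s`. -/
theorem CompHigh_frontier (hc : Continuous g) {s : ℝ} {z : ℂ} :
    ∀ w ∈ frontier (connectedComponentIn {ζ | s < g ζ} z), g w = s := by
  intro w hw
  have hO : IsOpen {ζ : ℂ | s < g ζ} := isOpen_lt continuous_const hc
  have hA : IsOpen (connectedComponentIn {ζ | s < g ζ} z) := hO.connectedComponentIn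
  rw [hA.frontier_eq] at hw
  have h1 : s ≤ g w := by
    have hcl : IsClosed {ζ : ℂ | s ≤ g ζ} := isClosed_le continuous_const hc
    refine hcl.closure_subset_iff.2 (fun ζ hζ => ?_) hw.1
    have h2 : ζ ∈ {ζ : ℂ | s < g ζ} := connectedComponentIn_subset _ _ hζ
    have h3 : s < g ζ := h2
    exact h3.le
  by_contra hne
  have h2 : s < g w := lt_of_le_of_ne h1 (Ne.symm hne)
  have hB : IsOpen (connectedComponentIn {ζ | s < g ζ} w) := hO.connectedComponentIn
  obtain ⟨v, hv1, hv2⟩ := mem_closure_iff.1 hw.1 _ hB (mem_connectedComponentIn h2)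
  have e1 := connectedComponentIn_eq hv1
  have e2 := connectedComponentIn_eq hv2
  apply hw.2
  rw [e2, ← e1]
  exact mem_connectedComponentIn h2

/-- `g` is unbounded on every component of `{g > s}` -/
theorem LinGreen.unbounded (hg : LinGreen g mu lam) {s : ℝ} (hs : 0 ≤ s) {z : ℂ} (hz : s < g z)
    (M : ℝ) : ∃ z' ∈ connectedComponentIn {ζ | s < g ζ} z, M < g z' := by
  by_contra hM
  push Not at hM
  have hO : IsOpen {ζ : ℂ | s < g ζ} := isOpen_lt continuous_const hg.cont
  set A : Set ℂ := connectedComponentIn {ζ | s < g ζ} z with hAdef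
  have hA : IsOpen A := hO.connectedComponentIn
  have hzA : z ∈ A := mem_connectedComponentIn hz
  have hAs : ∀ w ∈ A, s < g w := by
    intro w hw
    have h2 : w ∈ {ζ : ℂ | s < g ζ} := connectedComponentIn_subset _ _ hw
    exact h2
  have hAc : IsPreconnected A := isPreconnected_connectedComponentIn
  have hfr : ∀ w ∈ frontier A, g w = s := CompHigh_frontier hg.cont
  have hcl : ∀ w ∈ closure A, s ≤ g w := by
    intro w hw
    by_cases h : w ∈ A
    · exact (hAs w h).le
    · exact (hfr w (by rw [hA.frontier_eq]; exact ⟨hw, h⟩)).ge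
  have hclM : ∀ w ∈ closure A, g w ≤ M := by
    have hcl' : IsClosed {ζ : ℂ | g ζ ≤ M} := isClosed_le hg.cont continuous_const
    exact hcl'.closure_subset_iff.2 (fun ζ hζ => hM ζ hζ)
  have hharm : ∀ w ∈ A, LocRe g w := fun w hw => hg.harm w (lt_of_le_of_lt hs (hAs w hw))
  have h0 : (0 : ℂ) ∉ A := by
    intro h
    have h1 := hAs 0 h
    have h2 := hg.scale 0
    rw [mul_zero] at h2
    have h3 : (lam - 1) * g 0 = 0 := by linarith
    have h4 : lam - 1 ≠ 0 := by have := hg.one_lt_lam; linarith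
    have h5 : g 0 = 0 := by
      rcases mul_eq_zero.1 h3 with h | h
      · exact absurd h h4
      · exact h
    linarith
  -- the bound on the unit circle
  obtain ⟨m, hsm, hm1, hm2⟩ : ∃ m : ℝ, s ≤ m ∧ (∀ w ∈ closure A, ‖w‖ = 1 → g w ≤ m) ∧
      (m = s ∨ ∃ z1 ∈ closure A, g z1 = m) := by
    by_cases hne : (sphere (0 : ℂ) 1 ∩ closure A).Nonempty
    · have hK : IsCompact (sphere (0 : ℂ) 1 ∩ closure A) :=
        (isCompact_sphere _ _).inter_right isClosed_closure
      obtain ⟨z1, hz1, hmax⟩ := hK.exists_isMaxOn hne hg.cont.continuousOn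
      refine ⟨g z1, hcl z1 hz1.2, fun w hw hw1 => hmax ⟨by simpa using hw1, hw⟩,
        Or.inr ⟨z1, hz1.2, rfl⟩⟩
    · refine ⟨s, le_rfl, fun w hw hw1 => ?_, Or.inl rfl⟩
      exact absurd ⟨w, by simpa using hw1, hw⟩ hne
  have hin : ∀ w ∈ A, ‖w‖ < 1 → g w ≤ m := by
    intro w hw hw1
    refine max_principle (u := g) (Q := A ∩ ball 0 1) (hA.inter isOpen_ball)
      (isBounded_ball.subset inter_subset_right) hg.cont.continuousOn
      (fun ζ hζ => hharm ζ hζ.1) ?_ w ⟨hw, by simpa using hw1⟩
    intro ζ hζ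
    rcases frontier_inter_subset _ _ hζ with h | h
    · rw [hfr ζ h.1]; exact hsm
    · rw [frontier_ball (0 : ℂ) one_ne_zero] at h
      exact hm1 ζ h.1 (by simpa using h.2)
  have hout : ∀ w ∈ A, 1 < ‖w‖ → g w ≤ m := by
    intro w hw hw1
    have key : ∀ ε : ℝ, 0 < ε → g w ≤ m + ε * Real.log ‖w‖ := by
      intro ε hε
      obtain ⟨R, hR1, hR2⟩ : ∃ R : ℝ, ‖w‖ < R ∧ M - m ≤ ε * Real.log R := by
        have ht : Tendsto (fun R : ℝ => ε * Real.log R) atTop atTop :=
          Real.tendsto_log_atTop.const_mul_atTop hε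
        obtain ⟨R, hR⟩ := ((eventually_gt_atTop ‖w‖).and (ht.eventually_ge_atTop (M - m))).exists
        exact ⟨R, hR.1, hR.2⟩
      have hR0 : R ≠ 0 := by
        have := norm_nonneg w
        linarith
      have hout' : IsOpen {ζ : ℂ | 1 < ‖ζ‖} := isOpen_lt continuous_const continuous_norm
      have hsub : closure ((A ∩ {ζ : ℂ | 1 < ‖ζ‖}) ∩ ball 0 R) ⊆ {ζ : ℂ | 1 ≤ ‖ζ‖} := by
        have hcl' : IsClosed {ζ : ℂ | 1 ≤ ‖ζ‖} := isClosed_le continuous_const continuous_norm
        refine hcl'.closure_subset_iff.2 (fun ζ hζ => ?_)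
        have h3 : 1 < ‖ζ‖ := hζ.1.2
        exact h3.le
      have hmp := max_principle (u := fun ζ => g ζ - ε * Real.log ‖ζ‖)
        (Q := (A ∩ {ζ : ℂ | 1 < ‖ζ‖}) ∩ ball 0 R) (m := m)
        ((hA.inter hout').inter isOpen_ball) (isBounded_ball.subset inter_subset_right)
        ?_ ?_ ?_ w ⟨⟨hw, hw1⟩, by simpa using hR1⟩
      · linarith
      · refine hg.cont.continuousOn.sub (continuousOn_const.mul ?_)
        refine ContinuousOn.log continuous_norm.continuousOn ?_
        intro ζ hζ
        have : 1 ≤ ‖ζ‖ := hsub hζ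
        linarith
      · intro ζ hζ
        have hζ1 : 1 < ‖ζ‖ := hζ.1.2
        have hne : ζ ≠ 0 := norm_pos_iff.1 (by linarith)
        exact Util_locRe_sub (hharm ζ hζ.1.1) (Util_locRe_const_mul (CompHigh_locRe_log hne) ε)
      · intro ζ hζ
        have hζ1 : 1 ≤ ‖ζ‖ := hsub hζ.1
        have hlog : 0 ≤ ε * Real.log ‖ζ‖ := mul_nonneg hε.le (Real.log_nonneg hζ1)
        rcases frontier_inter_subset _ _ hζ with h | h
        · rcases frontier_inter_subset _ _ h.1 with h' | h'
          · simp only [hfr ζ h'.1]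
            linarith
          · have h1 : ‖ζ‖ = 1 := by
              have := frontier_lt_subset_eq (continuous_const : Continuous fun _ : ℂ => (1 : ℝ))
                continuous_norm h'.2
              exact this.symm
            have := hm1 ζ h'.1 h1
            linarith
        · rw [frontier_ball (0 : ℂ) hR0] at h
          have h1 : ‖ζ‖ = R := by simpa using h.2
          have h2 : ζ ∈ closure A := closure_mono inter_subset_left h.1
          have := hclM ζ h2
          simp only [h1]
          linarith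
    have hlim : Tendsto (fun ε : ℝ => m + ε * Real.log ‖w‖) (𝓝[>] 0) (𝓝 (m + 0 * Real.log ‖w‖)) := by
      refine Tendsto.mono_left ?_ nhdsWithin_le_nhds
      have : Continuous (fun ε : ℝ => m + ε * Real.log ‖w‖) := by fun_prop
      exact this.tendsto 0
    have := ge_of_tendsto hlim (b := g w) (by
      filter_upwards [self_mem_nhdsWithin] with ε hε using key ε hε)
    simpa using this
  have hall : ∀ w ∈ A, g w ≤ m := by
    intro w hw
    rcases lt_trichotomy ‖w‖ 1 with h | h | h
    · exact hin w hw h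
    · exact hm1 w (subset_closure hw) h
    · exact hout w hw h
  rcases hm2 with h | ⟨z1, hz1, hz1m⟩
  · have := hall z hzA
    linarith
  · have hsm' : s < m := lt_of_lt_of_le hz (hall z hzA)
    have hz1A : z1 ∈ A := by
      by_contra h
      have := hfr z1 (by rw [hA.frontier_eq]; exact ⟨hz1, h⟩)
      linarith
    have hconst : ∀ w ∈ A, g w = m := by
      intro w hw
      have := min_strong (u := fun ζ => -g ζ) (Q := A) hA hAc
        (fun ζ hζ => Util_locRe_neg (hharm ζ hζ)) (m := -m)
        (fun ζ hζ => neg_le_neg (hall ζ hζ)) hz1A (by simp [hz1m]) w hw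
      simpa using this
    have hfne : (frontier A).Nonempty := by
      rw [nonempty_iff_ne_empty]
      intro h
      have hclopen : IsClopen A := isClopen_iff_frontier_eq_empty.2 h
      have := hclopen.eq_univ ⟨z, hzA⟩
      apply h0
      rw [this]
      trivial
    obtain ⟨w, hw⟩ := hfne
    have h1 := hfr w hw
    have h2 : g w = m := by
      have hcl' : IsClosed {ζ : ℂ | g ζ = m} := isClosed_eq hg.cont continuous_const
      exact hcl'.closure_subset_iff.2 (fun ζ hζ => hconst ζ hζ) hw.1
    linarith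

end H6ea4aa
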