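import Pool.Agent.H.MP_6ea4aa_an.CompHigh
import Pool.Agent.H.MP_6ea4aa_an.CompFin

/-!
# MP_6ea4aa: each component of `{g > 0}` meets `{g > s}` in a connected set;
components of `{g < s}` are unbounded
-/

set_option autoImplicit false

open Complex Set Filter Topology Metric

namespace H6ea4aa

variable {g : ℂ → ℝ} {mu : ℂ} {lam : ℝ}

/-- points of `Z` lie in pairwise different components of `{g > s}` -/
def CompOne_Sep (g : ℂ → ℝ) (s : ℝ) (Z : Finset ℂ) : Prop :=
  (∀ z ∈ Z, s < g z) ∧ (∀ z ∈ Z, ∀ z' ∈ Z, z ≠ z' → z' ∉ connectedComponentIn {ζ | s < g ζ} z)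

theorem CompOne_sub {s t : ℝ} (hst : s ≤ t) (z : ℂ) :
    connectedComponentIn {ζ | t < g ζ} z ⊆ connectedComponentIn {ζ | s < g ζ} z :=
  connectedComponentIn_mono z (fun ζ (hζ : t < g ζ) => lt_of_le_of_lt hst hζ)

theorem CompOne_lift {s t : ℝ} (hst : s ≤ t) {Z : Finset ℂ} (hZ : CompOne_Sep g s Z)
    {φ : ℂ → ℂ} (h1 : ∀ z ∈ Z, φ z ∈ connectedComponentIn {ζ | s < g ζ} z)
    (h2 : ∀ z ∈ Z, t < g (φ z)) :
    CompOne_Sep g t (Z.image φ) ∧ (Z.image φ).card = Z.card := by
  have key : ∀ z ∈ Z, ∀ z' ∈ Z, φ z' ∈ connectedComponentIn {ζ | t < g ζ} (φ z) → z = z' := by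
    intro z hz z' hz' h
    by_contra hne
    apply hZ.2 z hz z' hz' hne
    have e1 := connectedComponentIn_eq (h1 z hz)
    have e2 := connectedComponentIn_eq (h1 z' hz')
    have h3 := CompOne_sub hst (φ z) h
    rw [← e1] at h3
    have e3 := connectedComponentIn_eq h3
    rw [e3, ← e2]
    exact mem_connectedComponentIn (hZ.1 z' hz')
  constructor
  · constructor
    · intro w hw
      obtain ⟨z, hz, rfl⟩ := Finset.mem_image.1 hw
      exact h2 z hz
    · intro w hw w' hw' hne h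
      obtain ⟨z, hz, rfl⟩ := Finset.mem_image.1 hw
      obtain ⟨z', hz', rfl⟩ := Finset.mem_image.1 hw'
      apply hne
      rw [key z hz z' hz' h]
  · apply Finset.card_image_of_injOn
    intro z hz z' hz' (h : φ z = φ z')
    apply key z hz z' hz'
    rw [← h]
    exact mem_connectedComponentIn (h2 z hz)

theorem CompOne_scale (hg : LinGreen g mu lam) {s : ℝ} {Z : Finset ℂ} (hZ : CompOne_Sep g s Z) :
    ∃ Z' : Finset ℂ, Z'.card = Z.card ∧ CompOne_Sep g (lam⁻¹ * s) Z' := by
  have hmu : mu ≠ 0 := norm_pos_iff.1 (lt_trans one_pos hg.one_lt_mu)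
  have hlam : 0 < lam := lt_trans one_pos hg.one_lt_lam
  have hsc : ∀ z, g (mu⁻¹ * z) = lam⁻¹ * g z := by
    intro z
    have := hg.scale (mu⁻¹ * z)
    rw [mul_inv_cancel_left₀ hmu] at this
    rw [this, inv_mul_cancel_left₀ hlam.ne']
  refine ⟨Z.image (fun z => mu⁻¹ * z), ?_, ?_, ?_⟩
  · apply Finset.card_image_of_injective
    intro a b (hab : mu⁻¹ * a = mu⁻¹ * b)
    exact mul_left_cancel₀ (inv_ne_zero hmu) hab
  · intro w hw
    obtain ⟨z, hz, rfl⟩ := Finset.mem_image.1 hw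
    rw [hsc]
    exact mul_lt_mul_of_pos_left (hZ.1 z hz) (inv_pos.2 hlam)
  · intro w hw w' hw' hne h
    obtain ⟨z, hz, rfl⟩ := Finset.mem_image.1 hw
    obtain ⟨z', hz', rfl⟩ := Finset.mem_image.1 hw'
    have hne' : z ≠ z' := fun h => hne (by rw [h])
    apply hZ.2 z hz z' hz' hne'
    have hpre : IsPreconnected ((fun ζ : ℂ => mu * ζ) ''
        connectedComponentIn {ζ | lam⁻¹ * s < g ζ} (mu⁻¹ * z)) :=
      isPreconnected_connectedComponentIn.image _ (continuous_const.mul continuous_id).continuousOn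
    have hmem : mu⁻¹ * z ∈ ({ζ | lam⁻¹ * s < g ζ} : Set ℂ) := by
      show lam⁻¹ * s < g (mu⁻¹ * z)
      rw [hsc]
      exact mul_lt_mul_of_pos_left (hZ.1 z hz) (inv_pos.2 hlam)
    have hsub : ((fun ζ : ℂ => mu * ζ) ''
        connectedComponentIn {ζ | lam⁻¹ * s < g ζ} (mu⁻¹ * z)) ⊆ {ζ | s < g ζ} := by
      rintro _ ⟨ζ, hζ, rfl⟩
      have h3 : ζ ∈ ({ζ | lam⁻¹ * s < g ζ} : Set ℂ) := connectedComponentIn_subset _ _ hζ
      have h4 : lam⁻¹ * s < g ζ := h3
      show s < g (mu * ζ)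
      rw [hg.scale]
      have h5 := mul_lt_mul_of_pos_left h4 hlam
      rwa [mul_inv_cancel_left₀ hlam.ne'] at h5
    refine hpre.subset_connectedComponentIn ⟨mu⁻¹ * z, mem_connectedComponentIn hmem, ?_⟩ hsub
      ⟨mu⁻¹ * z', h, ?_⟩
    · exact mul_inv_cancel_left₀ hmu z
    · exact mul_inv_cancel_left₀ hmu z'

theorem CompOne_max (hg : LinGreen g mu lam) : ∃ n : ℕ,
    (∀ s : ℝ, 0 < s → ∀ Z : Finset ℂ, CompOne_Sep g s Z → Z.card ≤ n) ∧
    (∀ s : ℝ, 0 < s → ∃ Z : Finset ℂ, CompOne_Sep g s Z ∧ Z.card = n) := by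
  classical
  obtain ⟨m, hm⟩ := hg.finite_comps
  have hP0 : ∃ s : ℝ, 0 < s ∧ ∃ Z : Finset ℂ, CompOne_Sep g s Z ∧ Z.card = 0 :=
    ⟨1, one_pos, ∅, ⟨by simp, by simp⟩, by simp⟩
  have hspec := Nat.findGreatest_spec
    (P := fun n => ∃ s : ℝ, 0 < s ∧ ∃ Z : Finset ℂ, CompOne_Sep g s Z ∧ Z.card = n)
    (Nat.zero_le m) hP0
  set n := Nat.findGreatest
    (fun n => ∃ s : ℝ, 0 < s ∧ ∃ Z : Finset ℂ, CompOne_Sep g s Z ∧ Z.card = n) m with hn
  have hlam : 0 < lam := lt_trans one_pos hg.one_lt_lam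
  refine ⟨n, ?_, ?_⟩
  · intro s hs Z hZ
    exact Nat.le_findGreatest (hm s hs Z hZ.1 hZ.2) ⟨s, hs, Z, hZ, rfl⟩
  · intro t ht
    obtain ⟨s, hs, Z, hZ, hcard⟩ := hspec
    have hk : ∀ k : ℕ, ∃ Z' : Finset ℂ, Z'.card = n ∧ CompOne_Sep g ((lam⁻¹) ^ k * s) Z' := by
      intro k
      induction k with
      | zero => exact ⟨Z, hcard, by simpa using hZ⟩
      | succ k ih =>
        obtain ⟨Z', h1, h2⟩ := ih
        obtain ⟨Z'', h3, h4⟩ := CompOne_scale hg h2
        refine ⟨Z'', by rw [h3, h1], ?_⟩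
        rw [pow_succ']
        rwa [mul_assoc]
    have hlim : Tendsto (fun k : ℕ => (lam⁻¹) ^ k * s) atTop (𝓝 (0 * s)) :=
      (tendsto_pow_atTop_nhds_zero_of_lt_one (inv_nonneg.2 hlam.le)
        (inv_lt_one_of_one_lt₀ hg.one_lt_lam)).mul_const s
    rw [zero_mul] at hlim
    obtain ⟨k, hkt⟩ := (hlim.eventually (gt_mem_nhds ht)).exists
    obtain ⟨Z', h1, h2⟩ := hk k
    have hpos : 0 ≤ (lam⁻¹) ^ k * s := by positivity
    have hch : ∀ z : ℂ, ∃ w : ℂ, z ∈ Z' →
        w ∈ connectedComponentIn {ζ | (lam⁻¹) ^ k * s < g ζ} z ∧ t < g w := by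
      intro z
      by_cases hz : z ∈ Z'
      · obtain ⟨w, hw1, hw2⟩ := hg.unbounded hpos (h2.1 z hz) t
        exact ⟨w, fun _ => ⟨hw1, hw2⟩⟩
      · exact ⟨z, fun h => absurd h hz⟩
    choose φ hφ using hch
    obtain ⟨h3, h4⟩ := CompOne_lift hkt.le h2 (φ := φ) (fun z hz => (hφ z hz).1)
      (fun z hz => (hφ z hz).2)
    exact ⟨_, h3, by rw [h4, h1]⟩

theorem CompOne_claim (hg : LinGreen g mu lam) {t s : ℝ} (ht : 0 < t) (hts : t < s) {z z' : ℂ}
    (hz : s < g z) (hz' : s < g z') (h : z' ∈ connectedComponentIn {ζ | t < g ζ} z) :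
    z' ∈ connectedComponentIn {ζ | s < g ζ} z := by
  classical
  by_contra hcon
  obtain ⟨n, hn1, hn2⟩ := CompOne_max hg
  obtain ⟨Z, hZ, hcard⟩ := hn2 t ht
  -- some point of `Z` is in the component of `z`
  obtain ⟨z0, hz0, hzz0⟩ : ∃ z0 ∈ Z, z ∈ connectedComponentIn {ζ | t < g ζ} z0 := by
    by_contra hno
    push Not at hno
    have hzZ : z ∉ Z := fun hzZ =>
      hno z hzZ (mem_connectedComponentIn (show t < g z from hts.trans hz))
    have hS : CompOne_Sep g t (insert z Z) := by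
      constructor
      · intro w hw
        rcases Finset.mem_insert.1 hw with rfl | hw
        · exact hts.trans hz
        · exact hZ.1 w hw
      · intro w hw w' hw' hne hww
        rcases Finset.mem_insert.1 hw with rfl | hw1
        · rcases Finset.mem_insert.1 hw' with rfl | hw1'
          · exact hne rfl
          · apply hno w' hw1'
            rw [← connectedComponentIn_eq hww]
            exact mem_connectedComponentIn (show t < g w from hts.trans hz)
        · rcases Finset.mem_insert.1 hw' with h | hw1'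
          · rw [h] at hww
            exact hno w hw1 hww
          · exact hZ.2 w hw1 w' hw1' hne hww
    have := hn1 t ht _ hS
    rw [Finset.card_insert_of_notMem hzZ, hcard] at this
    omega
  have hch : ∀ w : ℂ, ∃ v : ℂ, (w ∈ Z → v ∈ connectedComponentIn {ζ | t < g ζ} w ∧ s < g v) ∧
      (w = z0 → v = z) := by
    intro w
    by_cases hw : w ∈ Z
    · by_cases hw0 : w = z0
      · exact ⟨z, fun _ => ⟨by rw [hw0]; exact hzz0, hz⟩, fun _ => rfl⟩
      · obtain ⟨v, hv1, hv2⟩ := hg.unbounded ht.le (hZ.1 w hw) s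
        exact ⟨v, fun _ => ⟨hv1, hv2⟩, fun h => absurd h hw0⟩
    · exact ⟨z, fun h => absurd h hw, fun _ => rfl⟩
  choose φ hφ hφ0 using hch
  obtain ⟨h3, h4⟩ := CompOne_lift hts.le hZ (φ := φ) (fun z hz => (hφ z hz).1)
    (fun z hz => (hφ z hz).2)
  have key : ∀ w ∈ Z.image φ, z' ∉ connectedComponentIn {ζ | s < g ζ} w := by
    intro w hw hzw
    obtain ⟨z1, hz1, rfl⟩ := Finset.mem_image.1 hw
    by_cases h10 : z1 = z0
    · rw [hφ0 z1 h10] at hzw
      exact hcon hzw
    · apply hZ.2 z1 hz1 z0 hz0 h10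
      have e1 := connectedComponentIn_eq (hφ z1 hz1).1
      have h5 := CompOne_sub hts.le (φ z1) hzw
      rw [← e1] at h5
      have e2 := connectedComponentIn_eq h5
      have e3 := connectedComponentIn_eq h
      have e4 := connectedComponentIn_eq hzz0
      rw [e2, ← e3, ← e4]
      exact mem_connectedComponentIn (hZ.1 z0 hz0)
  have hz'Z : z' ∉ Z.image φ := fun hmem => key z' hmem (mem_connectedComponentIn hz')
  have hS : CompOne_Sep g s (insert z' (Z.image φ)) := by
    constructor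
    · intro w hw
      rcases Finset.mem_insert.1 hw with rfl | hw
      · exact hz'
      · exact h3.1 w hw
    · intro w hw w' hw' hne hww
      rcases Finset.mem_insert.1 hw with rfl | hw1
      · rcases Finset.mem_insert.1 hw' with rfl | hw1'
        · exact hne rfl
        · apply key w' hw1'
          rw [← connectedComponentIn_eq hww]
          exact mem_connectedComponentIn hz'
      · rcases Finset.mem_insert.1 hw' with h | hw1'
        · rw [h] at hww
          exact key w hw1 hww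
        · exact h3.2 w hw1 w' hw1' hne hww
  have := hn1 s (ht.trans hts) _ hS
  rw [Finset.card_insert_of_notMem hz'Z, h4, hcard] at this
  omega

theorem LinGreen.one_comp (hg : LinGreen g mu lam) {s : ℝ} (hs : 0 ≤ s) {z z' : ℂ}
    (hz : s < g z) (hz' : s < g z') (h : z' ∈ connectedComponentIn {ζ | 0 < g ζ} z) :
    z' ∈ connectedComponentIn {ζ | s < g ζ} z := by
  rcases hs.eq_or_lt with rfl | hs
  · exact h
  have hO : IsOpen {ζ : ℂ | 0 < g ζ} := isOpen_lt continuous_const hg.cont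
  have hz0 : z ∈ ({ζ : ℂ | 0 < g ζ} : Set ℂ) := hs.trans hz
  have hconn : IsConnected (connectedComponentIn {ζ | 0 < g ζ} z) :=
    isConnected_connectedComponentIn_iff.2 hz0
  have hpath : IsPathConnected (connectedComponentIn {ζ | 0 < g ζ} z) :=
    (hO.connectedComponentIn.isConnected_iff_isPathConnected).1 hconn
  obtain ⟨γ, hγ⟩ := hpath.joinedIn z (mem_connectedComponentIn hz0) z' h
  obtain ⟨x0, hx0⟩ := (isCompact_univ (X := unitInterval)).exists_isMinOn ⟨0, trivial⟩
    (hg.cont.comp γ.continuous).continuousOn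
  have hx0' : ∀ x, g (γ x0) ≤ g (γ x) := fun x => hx0.2 (mem_univ x)
  have hpos : 0 < g (γ x0) := by
    have h1 : γ x0 ∈ ({ζ : ℂ | 0 < g ζ} : Set ℂ) := connectedComponentIn_subset _ _ (hγ x0)
    exact h1
  set t : ℝ := min (g (γ x0)) s / 2 with ht
  have ht0 : 0 < t := by
    have := lt_min hpos hs
    rw [ht]; linarith
  have hts : t < s := by
    have := min_le_right (g (γ x0)) s
    have := lt_min hpos hs
    rw [ht]; linarith
  have htg : t < g (γ x0) := by
    have := min_le_left (g (γ x0)) s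
    have := lt_min hpos hs
    rw [ht]; linarith
  refine CompOne_claim hg ht0 hts hz hz' ?_
  have hpre : IsPreconnected (range γ) := isPreconnected_range γ.continuous
  have hsub : range γ ⊆ {ζ | t < g ζ} := by
    rintro _ ⟨x, rfl⟩
    exact lt_of_lt_of_le htg (hx0' x)
  exact hpre.subset_connectedComponentIn ⟨0, γ.source⟩ hsub ⟨1, γ.target⟩

theorem LinGreen.low_unbounded (hg : LinGreen g mu lam) (hU : NoIsland g) {s : ℝ} {z : ℂ}
    (hz : g z < s) : ¬ Bornology.IsBounded (connectedComponentIn {ζ | g ζ < s} z) := by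
  intro hb
  have hO : IsOpen {ζ : ℂ | g ζ < s} := isOpen_lt hg.cont continuous_const
  have hB : IsOpen (connectedComponentIn {ζ | g ζ < s} z) := hO.connectedComponentIn
  have hzB : z ∈ connectedComponentIn {ζ | g ζ < s} z := mem_connectedComponentIn hz
  have hfr : ∀ w ∈ frontier (connectedComponentIn {ζ | g ζ < s} z), s ≤ g w := by
    intro w hw
    rw [hB.frontier_eq] at hw
    by_contra hlt
    push Not at hlt
    have hC : IsOpen (connectedComponentIn {ζ | g ζ < s} w) := hO.connectedComponentIn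
    obtain ⟨v, hv1, hv2⟩ := mem_closure_iff.1 hw.1 _ hC (mem_connectedComponentIn hlt)
    have e1 := connectedComponentIn_eq hv1
    have e2 := connectedComponentIn_eq hv2
    apply hw.2
    rw [e2, ← e1]
    exact mem_connectedComponentIn hlt
  have hs : 0 < s := lt_of_le_of_lt (hg.nonneg z) hz
  by_cases hzero : ∃ w ∈ connectedComponentIn {ζ | g ζ < s} z, g w = 0
  · obtain ⟨w, hw1, hw2⟩ := hU _ hB hb hzero
    have := hfr w hw1
    linarith
  · push Not at hzero
    have := min_principle (u := g) hB hb hg.cont.continuousOn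
      (fun ζ hζ => hg.harm ζ (lt_of_le_of_ne (hg.nonneg ζ) (Ne.symm (hzero ζ hζ)))) hfr z hzB
    linarith

end H6ea4aa
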