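import Mathlib

/-!
# MP_6ea4aa: the crossing lemma
-/

set_option autoImplicit false

open Complex Set Filter Topology Metric

namespace H6ea4aa

/-- `z - a` has a continuous logarithm on `K`. -/
def CrLog (K : Set ℂ) (a : ℂ) : Prop :=
  ∃ l : ℂ → ℂ, ContinuousOn l K ∧ ∀ z ∈ K, exp (l z) = z - a

theorem CrLog_step {K : Set ℂ} {a a' : ℂ} (h : CrLog K a)
    (hd : ∀ z ∈ K, ‖a' - a‖ < ‖z - a‖) : CrLog K a' := by
  obtain ⟨l, hl, hle⟩ := h
  have hne : ∀ z ∈ K, z - a ≠ 0 := by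
    intro z hz h0
    have := hd z hz
    rw [h0, norm_zero] at this
    exact absurd this (not_lt.2 (norm_nonneg _))
  have hs : ∀ z ∈ K, 1 + (a - a') / (z - a) ∈ slitPlane := by
    intro z hz
    apply Complex.mem_slitPlane_of_norm_lt_one
    rw [norm_div, div_lt_one (norm_pos_iff.2 (hne z hz)), norm_sub_rev]
    exact hd z hz
  refine ⟨fun z => l z + log (1 + (a - a') / (z - a)), ?_, ?_⟩
  · apply hl.add
    apply ContinuousOn.clog _ hs
    apply continuousOn_const.add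
    apply continuousOn_const.div (by fun_prop) hne
  · intro z hz
    rw [Complex.exp_add, hle z hz, Complex.exp_log (slitPlane_ne_zero (hs z hz))]
    have := hne z hz
    field_simp
    ring

theorem CrLog_all {K E : Set ℂ} (hK : IsCompact K) (hE : IsPreconnected E)
    (hEu : ¬ Bornology.IsBounded E) (hd : Disjoint E K) : ∀ a ∈ E, CrLog K a := by
  -- distance to `K`
  have key : ∀ a : ℂ, a ∉ K → ∃ d > 0, ∀ z ∈ K, d ≤ ‖z - a‖ := by
    intro a ha
    have := hK.isClosed.isOpen_compl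
    rw [Metric.isOpen_iff] at this
    obtain ⟨d, hd, hb⟩ := this a ha
    refine ⟨d, hd, fun z hz => ?_⟩
    by_contra hlt
    push Not at hlt
    have : z ∈ ball a d := by rw [mem_ball, dist_eq_norm]; exact hlt
    exact hb this hz
  have hU : IsOpen {a : ℂ | a ∉ K ∧ CrLog K a} := by
    rw [Metric.isOpen_iff]
    rintro a ⟨ha, hl⟩
    obtain ⟨d, hd, hb⟩ := key a ha
    refine ⟨d, hd, fun a' ha' => ?_⟩
    rw [mem_ball, dist_eq_norm] at ha'
    have h1 : ∀ z ∈ K, ‖a' - a‖ < ‖z - a‖ := fun z hz => lt_of_lt_of_le ha' (hb z hz)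
    refine ⟨fun hz => ?_, CrLog_step hl h1⟩
    exact absurd (h1 a' hz) (lt_irrefl _)
  have hV : IsOpen {a : ℂ | a ∉ K ∧ ¬ CrLog K a} := by
    rw [Metric.isOpen_iff]
    rintro a ⟨ha, hl⟩
    obtain ⟨d, hd, hb⟩ := key a ha
    refine ⟨d / 2, by positivity, fun a' ha' => ?_⟩
    rw [mem_ball, dist_eq_norm] at ha'
    have h1 : ∀ z ∈ K, ‖a - a'‖ < ‖z - a'‖ := by
      intro z hz
      have h2 := hb z hz
      have h3 : ‖z - a‖ ≤ ‖z - a'‖ + ‖a' - a‖ := by
        have : z - a = (z - a') + (a' - a) := by ring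
        rw [this]; exact norm_add_le _ _
      rw [norm_sub_rev]
      linarith
    refine ⟨fun hz => ?_, fun h => hl (CrLog_step h h1)⟩
    have h2 := hb a' hz
    linarith
  intro a ha
  by_contra hna
  have hsub : E ⊆ {a : ℂ | a ∉ K ∧ CrLog K a} ∪ {a : ℂ | a ∉ K ∧ ¬ CrLog K a} := by
    intro x hx
    have hxK : x ∉ K := fun h => (Set.disjoint_left.1 hd) hx h
    by_cases h : CrLog K x
    · exact Or.inl ⟨hxK, h⟩
    · exact Or.inr ⟨hxK, h⟩
  -- a far away point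
  obtain ⟨R, hR⟩ := hK.isBounded.exists_norm_le
  have hfar : ∃ x ∈ E, max R 0 + 1 < ‖x‖ := by
    by_contra hcon
    push Not at hcon
    exact hEu (isBounded_iff_forall_norm_le.2 ⟨max R 0 + 1, hcon⟩)
  obtain ⟨x, hxE, hx⟩ := hfar
  have hxK : x ∉ K := fun h => (Set.disjoint_left.1 hd) hxE h
  have hx0 : x ≠ 0 := by
    intro h0
    rw [h0, norm_zero] at hx
    have := le_max_right R 0
    linarith
  have hxl : CrLog K x := by
    have hs : ∀ z ∈ K, 1 + (-(z / x)) ∈ slitPlane := by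
      intro z hz
      apply Complex.mem_slitPlane_of_norm_lt_one
      rw [norm_neg, norm_div, div_lt_one (norm_pos_iff.2 hx0)]
      have h1 := hR z hz
      have h2 := le_max_left R 0
      linarith
    refine ⟨fun z => log (-x) + log (1 + (-(z / x))), ?_, ?_⟩
    · apply continuousOn_const.add
      apply ContinuousOn.clog _ hs
      fun_prop
    · intro z hz
      rw [Complex.exp_add, Complex.exp_log (neg_ne_zero.2 hx0),
        Complex.exp_log (slitPlane_ne_zero (hs z hz))]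
      field_simp
      ring
  obtain ⟨y, -, hy1, hy2⟩ := hE _ _ hU hV hsub ⟨x, hxE, hxK, hxl⟩
    ⟨a, ha, fun h => (Set.disjoint_left.1 hd) ha h, hna⟩
  exact hy2.2 hy1.2

/-- a continuous function with `exp f = 1` is constant on a preconnected set. -/
theorem Cr_const {X : Type*} [TopologicalSpace X] {S : Set X} (hS : IsPreconnected S)
    {f : X → ℂ} (hf : ContinuousOn f S) (h1 : ∀ x ∈ S, exp (f x) = 1) {x y : X}
    (hx : x ∈ S) (hy : y ∈ S) : f x = f y := by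
  -- integer values
  have hint : ∀ z ∈ S, ∃ n : ℤ, f z = n * (2 * Real.pi * I) := fun z hz =>
    Complex.exp_eq_one_iff.1 (h1 z hz)
  set g : X → ℝ := fun z => (f z).im / (2 * Real.pi) with hg
  have hgc : ContinuousOn g S := by
    apply ContinuousOn.div_const
    exact Complex.continuous_im.comp_continuousOn hf
  have hgi : ∀ z ∈ S, ∃ n : ℤ, g z = n ∧ f z = n * (2 * Real.pi * I) := by
    intro z hz
    obtain ⟨n, hn⟩ := hint z hz
    refine ⟨n, ?_, hn⟩
    have : (f z).im = n * (2 * Real.pi) := by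
      rw [hn]; simp
    rw [hg]
    simp only
    rw [this]
    field_simp
  have himg := hS.image g hgc
  have aux : ∀ u ∈ S, ∀ v ∈ S, ¬ g u < g v := by
    intro u hu v hv hlt
    obtain ⟨m, hm, -⟩ := hgi u hu
    obtain ⟨n, hn, -⟩ := hgi v hv
    have hmn : m < n := by
      rw [hm, hn] at hlt; exact_mod_cast hlt
    have hsub := himg.Icc_subset (mem_image_of_mem g hu) (mem_image_of_mem g hv)
    have hmem : (m : ℝ) + 1 / 2 ∈ Icc (g u) (g v) := by
      rw [hm, hn]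
      have : (m : ℝ) + 1 ≤ n := by exact_mod_cast hmn
      constructor <;> linarith
    obtain ⟨w, hw, hwe⟩ := hsub hmem
    obtain ⟨k, hk, -⟩ := hgi w hw
    rw [hk] at hwe
    have h2 : (2 * k : ℝ) = 2 * m + 1 := by linarith
    have h3 : (2 * k : ℤ) = 2 * m + 1 := by exact_mod_cast h2
    omega
  have hgeq : g x = g y := le_antisymm (not_lt.1 (aux y hy x hx)) (not_lt.1 (aux x hx y hy))
  obtain ⟨m, hm, hm'⟩ := hgi x hx
  obtain ⟨n, hn, hn'⟩ := hgi y hy
  have : m = n := by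
    rw [hm, hn] at hgeq; exact_mod_cast hgeq
  rw [hm', hn', this]

theorem Cr_slit {w : ℂ} (hw : -w ∈ slitPlane) {s : ℝ} (hs : 0 ≤ s) :
    (s : ℂ) - w ∈ slitPlane := by
  rw [mem_slitPlane_iff] at hw ⊢
  rcases hw with h | h
  · left
    simp only [sub_re, ofReal_re, neg_re] at h ⊢
    linarith
  · right
    simp only [sub_im, ofReal_im, neg_im] at h ⊢
    simpa using h

/-- the segment lemma. -/
theorem Cr_seg {w1 w2 : ℂ} (h1 : -w1 ∈ slitPlane) (h2 : -w2 ∈ slitPlane) {r : ℝ} (hr : 0 < r)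
    {L : ℝ → ℂ} (hL : ContinuousOn L (Icc 0 r))
    (hLe : ∀ s ∈ Icc (0 : ℝ) r, exp (L s) = ((s : ℂ) - w1) / ((s : ℂ) - w2)) :
    L 0 - L r = (log (-w1) - log (-w2)) - (log (r - w1) - log (r - w2)) := by
  have hc := Cr_const (X := ℝ) (S := Icc 0 r) isPreconnected_Icc
    (f := fun s : ℝ => L s - (log ((s : ℂ) - w1) - log ((s : ℂ) - w2))) ?_ ?_
    (x := 0) (y := r) ⟨le_rfl, hr.le⟩ ⟨hr.le, le_rfl⟩
  · simp only [ofReal_zero, zero_sub] at hc
    linear_combination hc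
  · apply hL.sub
    apply ContinuousOn.sub
    · apply ContinuousOn.clog (by fun_prop)
      intro s hs
      exact Cr_slit h1 hs.1
    · apply ContinuousOn.clog (by fun_prop)
      intro s hs
      exact Cr_slit h2 hs.1
  · intro s hs
    have e1 := slitPlane_ne_zero (Cr_slit h1 hs.1)
    have e2 := slitPlane_ne_zero (Cr_slit h2 hs.1)
    rw [Complex.exp_sub, Complex.exp_sub, Complex.exp_log e1, Complex.exp_log e2, hLe s hs]
    exact div_self (div_ne_zero e1 e2)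

theorem Cr_dir {φ : ℝ} (h1 : -Real.pi < φ) (h2 : φ < Real.pi) :
    ∃ ε > 0, ∀ η : ℂ, ‖η‖ ≤ ε → (1 + η) * exp (φ * I) ∈ slitPlane ∧
      |arg ((1 + η) * exp (φ * I)) - φ| < 1 / 4 := by
  have harg : arg (exp (φ * I)) = φ := by
    rw [Complex.exp_mul_I, ← Complex.ofReal_cos, ← Complex.ofReal_sin] 
    have := Complex.arg_cos_add_sin_mul_I (θ := φ) ⟨h1, h2.le⟩
    simpa using this
  have hslit : exp (φ * I) ∈ slitPlane := by
    rw [mem_slitPlane_iff_arg, harg]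
    exact ⟨ne_of_lt h2, Complex.exp_ne_zero _⟩
  have hc : ContinuousAt (fun η : ℂ => (1 + η) * exp (φ * I)) 0 := by fun_prop
  have h0 : (fun η : ℂ => (1 + η) * exp (φ * I)) 0 = exp (φ * I) := by simp
  have ev1 : ∀ᶠ η : ℂ in 𝓝 0, (1 + η) * exp (φ * I) ∈ slitPlane := by
    apply hc.eventually
    rw [h0]
    exact Complex.isOpen_slitPlane.mem_nhds hslit
  have hc2 : ContinuousAt (fun η : ℂ => arg ((1 + η) * exp (φ * I))) 0 := by
    have : ContinuousAt arg ((fun η : ℂ => (1 + η) * exp (φ * I)) 0) := by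
      rw [h0]; exact Complex.continuousAt_arg hslit
    exact ContinuousAt.comp (f := fun η : ℂ => (1 + η) * exp (φ * I)) this hc
  have ev2 : ∀ᶠ η : ℂ in 𝓝 0, |arg ((1 + η) * exp (φ * I)) - φ| < 1 / 4 := by
    have h3 := (Metric.continuousAt_iff'.1 hc2) (1 / 4) (by norm_num)
    filter_upwards [h3] with η hη
    rw [Real.dist_eq] at hη
    simpa [harg] using hη
  obtain ⟨ε, hε, hb⟩ := Metric.eventually_nhds_iff_ball.1 (ev1.and ev2)
  refine ⟨ε / 2, by positivity, fun η hη => hb η ?_⟩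
  rw [mem_ball_zero_iff]
  linarith

theorem Cr_rad {r : ℝ} (hr : 0 < r) :
    ∃ ε > 0, ∀ w : ℂ, ‖w‖ ≤ ε → |arg ((r : ℂ) - w)| < 1 / 4 := by
  have hs : (r : ℂ) ∈ slitPlane := by
    rw [mem_slitPlane_iff]; left; simpa using hr
  have hc2 : ContinuousAt (fun w : ℂ => arg ((r : ℂ) - w)) 0 := by
    have : ContinuousAt arg ((fun w : ℂ => (r : ℂ) - w) 0) := by
      simp only [sub_zero]; exact Complex.continuousAt_arg hs
    exact ContinuousAt.comp (f := fun w : ℂ => (r : ℂ) - w) this (by fun_prop)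
  have h3 := (Metric.continuousAt_iff'.1 hc2) (1 / 4) (by norm_num)
  obtain ⟨ε, hε, hb⟩ := Metric.eventually_nhds_iff_ball.1 h3
  refine ⟨ε / 2, by positivity, fun η hη => ?_⟩
  have := hb η (by rw [mem_ball_zero_iff]; linarith)
  rw [Real.dist_eq] at this
  simpa [Complex.arg_ofReal_of_nonneg hr.le] using this

/-- Let `K0` be a compact connected set containing `p1 = z0 + r1 e^{iα} e` and
`p2 = z0 + r2 e^{iδ} e` but not `z0`, and let `E1`, `E2` be unbounded connected sets which avoid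
`K0` and the two segments from `z0` to `p1`, `p2`.  Then it is impossible that `E1` accumulates at
`z0` in the direction `e` and `E2` in the direction `e^{iγ} e`, where `0 < α < γ < δ < 2π`. -/
theorem crossing (z0 e : ℂ) (he : ‖e‖ = 1) (α γ δ r1 r2 : ℝ) (hα : 0 < α) (hαγ : α < γ)
    (hγδ : γ < δ) (hδ : δ < 2 * Real.pi) (hr1 : 0 < r1) (hr2 : 0 < r2)
    (K0 E1 E2 : Set ℂ) (hK0 : IsCompact K0) (hK0c : IsPreconnected K0) (hz0 : z0 ∉ K0)
    (hp1 : z0 + r1 * e * exp (α * I) ∈ K0) (hp2 : z0 + r2 * e * exp (δ * I) ∈ K0)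
    (hE1 : IsPreconnected E1) (hE2 : IsPreconnected E2)
    (hE1u : ¬ Bornology.IsBounded E1) (hE2u : ¬ Bornology.IsBounded E2)
    (h1K : Disjoint E1 K0) (h2K : Disjoint E2 K0)
    (h1s : ∀ t ∈ Icc 0 r1, z0 + t * e * exp (α * I) ∉ E1)
    (h1s' : ∀ t ∈ Icc 0 r2, z0 + t * e * exp (δ * I) ∉ E1)
    (h2s : ∀ t ∈ Icc 0 r1, z0 + t * e * exp (α * I) ∉ E2)
    (h2s' : ∀ t ∈ Icc 0 r2, z0 + t * e * exp (δ * I) ∉ E2)
    (hacc1 : ∀ ε > 0, ∃ t ∈ Ioo (0 : ℝ) ε, ∃ a ∈ E1, ‖a - (z0 + t * e)‖ ≤ ε * t)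
    (hacc2 : ∀ ε > 0, ∃ t ∈ Ioo (0 : ℝ) ε, ∃ a ∈ E2,
      ‖a - (z0 + t * e * exp (γ * I))‖ ≤ ε * t) : False := by
  have he0 : e ≠ 0 := by
    intro h; rw [h, norm_zero] at he; exact zero_ne_one he
  have hpi := Real.pi_gt_three
  -- the compact set
  set s1 : ℝ → ℂ := fun t => z0 + t * e * exp (α * I) with hs1
  set s2 : ℝ → ℂ := fun t => z0 + t * e * exp (δ * I) with hs2
  have hs1c : Continuous s1 := by rw [hs1]; fun_prop
  have hs2c : Continuous s2 := by rw [hs2]; fun_prop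
  set K : Set ℂ := K0 ∪ (s1 '' Icc 0 r1 ∪ s2 '' Icc 0 r2) with hKdef
  have hK : IsCompact K :=
    hK0.union ((isCompact_Icc.image hs1c).union (isCompact_Icc.image hs2c))
  have hd1 : Disjoint E1 K := by
    rw [Set.disjoint_left]
    rintro a ha (h | ⟨t, ht, rfl⟩ | ⟨t, ht, rfl⟩)
    · exact Set.disjoint_left.1 h1K ha h
    · exact h1s t ht ha
    · exact h1s' t ht ha
  have hd2 : Disjoint E2 K := by
    rw [Set.disjoint_left]
    rintro a ha (h | ⟨t, ht, rfl⟩ | ⟨t, ht, rfl⟩)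
    · exact Set.disjoint_left.1 h2K ha h
    · exact h2s t ht ha
    · exact h2s' t ht ha
  -- choice of the constants
  obtain ⟨d, hdpos, hdb⟩ : ∃ d > 0, ∀ z ∈ K0, d ≤ ‖z - z0‖ := by
    have := hK0.isClosed.isOpen_compl
    rw [Metric.isOpen_iff] at this
    obtain ⟨d, hd, hb⟩ := this z0 hz0
    refine ⟨d, hd, fun z hz => ?_⟩
    by_contra hlt
    push Not at hlt
    have : z ∈ ball z0 d := by rw [mem_ball, dist_eq_norm]; exact hlt
    exact hb this hz
  obtain ⟨e1, he1, H1⟩ := Cr_dir (φ := Real.pi - α) (by linarith) (by linarith)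
  obtain ⟨e2, he2, H2⟩ := Cr_dir (φ := γ - α - Real.pi) (by linarith) (by linarith)
  obtain ⟨e3, he3, H3⟩ := Cr_dir (φ := Real.pi - δ) (by linarith) (by linarith)
  obtain ⟨e4, he4, H4⟩ := Cr_dir (φ := γ - δ + Real.pi) (by linarith) (by linarith)
  obtain ⟨e5, he5, H5⟩ := Cr_rad hr1
  obtain ⟨e6, he6, H6⟩ := Cr_rad hr2
  obtain ⟨ε, hε, hεle⟩ : ∃ ε > 0, ε ≤ e1 ∧ ε ≤ e2 ∧ ε ≤ e3 ∧ ε ≤ e4 ∧ 2 * ε ≤ e5 ∧
      2 * ε ≤ e6 ∧ ε ≤ 1 ∧ 16 * ε ≤ d := by
    refine ⟨min (min (min e1 e2) (min e3 e4)) (min (min (e5 / 2) (e6 / 2)) (min 1 (d / 16))),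
      by positivity, ?_⟩
    refine ⟨?_, ?_, ?_, ?_, ?_, ?_, ?_, ?_⟩
    · exact (min_le_left _ _).trans ((min_le_left _ _).trans (min_le_left _ _))
    · exact (min_le_left _ _).trans ((min_le_left _ _).trans (min_le_right _ _))
    · exact (min_le_left _ _).trans ((min_le_right _ _).trans (min_le_left _ _))
    · exact (min_le_left _ _).trans ((min_le_right _ _).trans (min_le_right _ _))
    · have : min (min (min e1 e2) (min e3 e4)) (min (min (e5 / 2) (e6 / 2)) (min 1 (d / 16)))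
        ≤ e5 / 2 := (min_le_right _ _).trans ((min_le_left _ _).trans (min_le_left _ _))
      linarith
    · have : min (min (min e1 e2) (min e3 e4)) (min (min (e5 / 2) (e6 / 2)) (min 1 (d / 16)))
        ≤ e6 / 2 := (min_le_right _ _).trans ((min_le_left _ _).trans (min_le_right _ _))
      linarith
    · exact (min_le_right _ _).trans ((min_le_right _ _).trans (min_le_left _ _))
    · have : min (min (min e1 e2) (min e3 e4)) (min (min (e5 / 2) (e6 / 2)) (min 1 (d / 16)))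
        ≤ d / 16 := (min_le_right _ _).trans ((min_le_right _ _).trans (min_le_right _ _))
      linarith
  obtain ⟨le1, le2, le3, le4, le5, le6, le7, le8⟩ := hεle
  obtain ⟨t1, ht1, a1, ha1, hb1⟩ := hacc1 ε hε
  obtain ⟨t2, ht2, a2, ha2, hb2⟩ := hacc2 ε hε
  have ht1' : (t1 : ℂ) ≠ 0 := by exact_mod_cast ht1.1.ne'
  have ht2' : (t2 : ℂ) ≠ 0 := by exact_mod_cast ht2.1.ne'
  -- the two relative errors
  obtain ⟨η1, hη1, hη1e⟩ : ∃ η : ℂ, ‖η‖ ≤ ε ∧ a1 = z0 + t1 * e * (1 + η) := by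
    refine ⟨(a1 - (z0 + t1 * e)) / (t1 * e), ?_, ?_⟩
    · rw [norm_div, norm_mul, he, mul_one, Complex.norm_real, Real.norm_of_nonneg ht1.1.le,
        div_le_iff₀ ht1.1]
      exact hb1
    · field_simp
      ring
  obtain ⟨η2, hη2, hη2e⟩ : ∃ η : ℂ, ‖η‖ ≤ ε ∧ a2 = z0 + t2 * e * exp (γ * I) * (1 + η) := by
    refine ⟨(a2 - (z0 + t2 * e * exp (γ * I))) / (t2 * e * exp (γ * I)), ?_, ?_⟩
    · rw [norm_div, norm_mul, norm_mul, he, mul_one, Complex.norm_real,
        Real.norm_of_nonneg ht2.1.le, Complex.norm_exp_ofReal_mul_I, mul_one,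
        div_le_iff₀ ht2.1]
      exact hb2
    · have := Complex.exp_ne_zero (γ * I)
      field_simp
      ring
  have hn1 : ∀ η : ℂ, ‖η‖ ≤ ε → ‖1 + η‖ ≤ 2 := by
    intro η hη
    have := norm_add_le (1 : ℂ) η
    rw [norm_one] at this
    linarith
  have hb1n : ‖(t1 : ℂ) * (1 + η1)‖ ≤ 2 * ε := by
    rw [norm_mul, Complex.norm_real, Real.norm_of_nonneg ht1.1.le]
    have h1 := hn1 η1 hη1
    have h2 := ht1.2
    nlinarith [ht1.1, norm_nonneg (1 + η1)]
  have hb2n : ‖(t2 : ℂ) * (1 + η2)‖ ≤ 2 * ε := by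
    rw [norm_mul, Complex.norm_real, Real.norm_of_nonneg ht2.1.le]
    have h1 := hn1 η2 hη2
    have h2 := ht2.2
    nlinarith [ht2.1, norm_nonneg (1 + η2)]
  obtain ⟨l1, hl1, hl1e⟩ := CrLog_all hK hE1 hE1u hd1 a1 ha1
  obtain ⟨l2, hl2, hl2e⟩ := CrLog_all hK hE2 hE2u hd2 a2 ha2
  have hne1 : ∀ z ∈ K, z - a1 ≠ 0 := fun z hz => by
    rw [← hl1e z hz]; exact Complex.exp_ne_zero _
  have hne2 : ∀ z ∈ K, z - a2 ≠ 0 := fun z hz => by
    rw [← hl2e z hz]; exact Complex.exp_ne_zero _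
  set L : ℂ → ℂ := fun z => l1 z - l2 z with hLdef
  have hL : ContinuousOn L K := hl1.sub hl2
  have hLe : ∀ z ∈ K, exp (L z) = (z - a1) / (z - a2) := by
    intro z hz
    rw [hLdef]
    simp only
    rw [Complex.exp_sub, hl1e z hz, hl2e z hz]
  -- on `K0`
  have hq : ∀ z ∈ K0, ‖(z - a1) / (z - a2) - 1‖ < 1 := by
    intro z hz
    have hzK : z ∈ K := Or.inl hz
    have e1 : (z - a1) / (z - a2) - 1 = (a2 - a1) / (z - a2) := by
      have := hne2 z hzK
      field_simp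
      ring
    have n1 : ‖a1 - z0‖ ≤ 2 * ε := by
      rw [hη1e]
      have : z0 + t1 * e * (1 + η1) - z0 = e * (t1 * (1 + η1)) := by ring
      rw [this, norm_mul, he, one_mul]; exact hb1n
    have n2 : ‖a2 - z0‖ ≤ 2 * ε := by
      rw [hη2e]
      have : z0 + t2 * e * exp (γ * I) * (1 + η2) - z0
        = (e * exp (γ * I)) * (t2 * (1 + η2)) := by ring
      rw [this, norm_mul, norm_mul, he, one_mul, Complex.norm_exp_ofReal_mul_I, one_mul]
      exact hb2n
    have n3 : ‖a2 - a1‖ ≤ 4 * ε := by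
      have : a2 - a1 = (a2 - z0) - (a1 - z0) := by ring
      rw [this]
      have := norm_sub_le (a2 - z0) (a1 - z0)
      linarith
    have n4 : 14 * ε ≤ ‖z - a2‖ := by
      have h1 := hdb z hz
      have h2 : ‖z - z0‖ ≤ ‖z - a2‖ + ‖a2 - z0‖ := by
        have : z - z0 = (z - a2) + (a2 - z0) := by ring
        rw [this]; exact norm_add_le _ _
      linarith
    rw [e1, norm_div, div_lt_one (by linarith)]
    linarith
  have hqs : ∀ z ∈ K0, (z - a1) / (z - a2) ∈ slitPlane := by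
    intro z hz
    have := Complex.mem_slitPlane_of_norm_lt_one (hq z hz)
    simpa using this
  have hqa : ∀ z ∈ K0, |arg ((z - a1) / (z - a2))| ≤ Real.pi / 2 := by
    intro z hz
    rw [Complex.abs_arg_le_pi_div_two_iff]
    have h1 := hq z hz
    have h2 := Complex.abs_re_le_norm ((z - a1) / (z - a2) - 1)
    rw [sub_re, one_re] at h2
    have h3 := (abs_lt.1 (lt_of_le_of_lt h2 h1)).1
    linarith
  have hK0K : K0 ⊆ K := subset_union_left
  have hLK0 : (L (s2 r2)).im - (L (s1 r1)).im ≤ Real.pi := by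
    have hc := Cr_const hK0c (f := fun z => L z - log ((z - a1) / (z - a2))) ?_ ?_ hp1 hp2
    · have h1 := congrArg Complex.im hc
      simp only [sub_im, Complex.log_im] at h1
      have h2 := abs_le.1 (hqa _ hp1)
      have h3 := abs_le.1 (hqa _ hp2)
      have h4 : (L (s2 r2)).im - (L (s1 r1)).im =
          arg ((s2 r2 - a1) / (s2 r2 - a2)) - arg ((s1 r1 - a1) / (s1 r1 - a2)) := by
        simp only [hs1, hs2]
        linarith
      rw [h4]
      simp only [hs1, hs2]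
      linarith [h2.1, h3.2]
    · apply (hL.mono hK0K).sub
      apply ContinuousOn.clog _ hqs
      apply ContinuousOn.div (by fun_prop) (by fun_prop)
      exact fun z hz => hne2 z (hK0K hz)
    · intro z hz
      rw [Complex.exp_sub, Complex.exp_log (slitPlane_ne_zero (hqs z hz)), hLe z (hK0K hz)]
      exact div_self (slitPlane_ne_zero (hqs z hz))
  -- the first segment
  have hexpne : ∀ x : ℝ, exp (x * I) ≠ 0 := fun x => Complex.exp_ne_zero _
  have E1' : -((t1 : ℂ) * (1 + η1) * exp (((-α : ℝ) : ℂ) * I))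
      = (t1 : ℝ) * ((1 + η1) * exp (((Real.pi - α : ℝ) : ℂ) * I)) := by
    have : exp (((Real.pi - α : ℝ) : ℂ) * I) = - exp (((-α : ℝ) : ℂ) * I) := by
      have : (((Real.pi - α : ℝ) : ℂ) * I) = Real.pi * I + ((-α : ℝ) : ℂ) * I := by
        push_cast; ring
      rw [this, Complex.exp_add, Complex.exp_pi_mul_I]; ring
    rw [this]; ring
  have E2' : -((t2 : ℂ) * (1 + η2) * exp (((γ - α : ℝ) : ℂ) * I))
      = (t2 : ℝ) * ((1 + η2) * exp (((γ - α - Real.pi : ℝ) : ℂ) * I)) := by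
    have : exp (((γ - α - Real.pi : ℝ) : ℂ) * I) = - exp (((γ - α : ℝ) : ℂ) * I) := by
      have : (((γ - α : ℝ) : ℂ) * I) = Real.pi * I + ((γ - α - Real.pi : ℝ) : ℂ) * I := by
        push_cast; ring
      rw [this, Complex.exp_add, Complex.exp_pi_mul_I]; ring
    rw [this]; ring
  have E3' : -((t1 : ℂ) * (1 + η1) * exp (((-δ : ℝ) : ℂ) * I))
      = (t1 : ℝ) * ((1 + η1) * exp (((Real.pi - δ : ℝ) : ℂ) * I)) := by
    have : exp (((Real.pi - δ : ℝ) : ℂ) * I) = - exp (((-δ : ℝ) : ℂ) * I) := by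
      have : (((Real.pi - δ : ℝ) : ℂ) * I) = Real.pi * I + ((-δ : ℝ) : ℂ) * I := by
        push_cast; ring
      rw [this, Complex.exp_add, Complex.exp_pi_mul_I]; ring
    rw [this]; ring
  have E4' : -((t2 : ℂ) * (1 + η2) * exp (((γ - δ : ℝ) : ℂ) * I))
      = (t2 : ℝ) * ((1 + η2) * exp (((γ - δ + Real.pi : ℝ) : ℂ) * I)) := by
    have : exp (((γ - δ + Real.pi : ℝ) : ℂ) * I) = - exp (((γ - δ : ℝ) : ℂ) * I) := by
      have : (((γ - δ + Real.pi : ℝ) : ℂ) * I) = Real.pi * I + ((γ - δ : ℝ) : ℂ) * I := by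
        push_cast; ring
      rw [this, Complex.exp_add, Complex.exp_pi_mul_I]; ring
    rw [this]; ring
  have slit_pos : ∀ (t : ℝ) (w : ℂ), 0 < t → w ∈ slitPlane → (t : ℂ) * w ∈ slitPlane := by
    intro t w ht hw
    rw [mem_slitPlane_iff_arg] at hw ⊢
    rw [Complex.arg_real_mul _ ht]
    exact ⟨hw.1, mul_ne_zero (by exact_mod_cast ht.ne') hw.2⟩
  have S1 := slit_pos t1 _ ht1.1 (H1 η1 (hη1.trans le1)).1
  have S2 := slit_pos t2 _ ht2.1 (H2 η2 (hη2.trans le2)).1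
  have S3 := slit_pos t1 _ ht1.1 (H3 η1 (hη1.trans le3)).1
  have S4 := slit_pos t2 _ ht2.1 (H4 η2 (hη2.trans le4)).1
  have A1 := (H1 η1 (hη1.trans le1)).2
  have A2 := (H2 η2 (hη2.trans le2)).2
  have A3 := (H3 η1 (hη1.trans le3)).2
  have A4 := (H4 η2 (hη2.trans le4)).2
  rw [← Complex.arg_real_mul _ ht1.1] at A1 A3
  rw [← Complex.arg_real_mul _ ht2.1] at A2 A4
  rw [← E1'] at S1 A1
  rw [← E2'] at S2 A2
  rw [← E3'] at S3 A3
  rw [← E4'] at S4 A4
  have hnorm : ∀ (w : ℂ) (x : ℝ), ‖w‖ ≤ 2 * ε → ‖w * exp ((x : ℂ) * I)‖ ≤ 2 * ε := by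
    intro w x hw
    rw [norm_mul, Complex.norm_exp_ofReal_mul_I, mul_one]; exact hw
  have B1 := H5 _ ((hnorm _ (-α) hb1n).trans le5)
  have B2 := H5 _ ((hnorm _ (γ - α) hb2n).trans le5)
  have B3 := H6 _ ((hnorm _ (-δ) hb1n).trans le6)
  have B4 := H6 _ ((hnorm _ (γ - δ) hb2n).trans le6)
  have hs1K : ∀ s ∈ Icc 0 r1, s1 s ∈ K := fun s hs => Or.inr (Or.inl ⟨s, hs, rfl⟩)
  have hs2K : ∀ s ∈ Icc 0 r2, s2 s ∈ K := fun s hs => Or.inr (Or.inr ⟨s, hs, rfl⟩)
  have quot : ∀ (β s : ℝ), (z0 + s * e * exp (β * I) - a2 ≠ 0) →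
      (z0 + s * e * exp (β * I) - a1) / (z0 + s * e * exp (β * I) - a2)
      = ((s : ℂ) - t1 * (1 + η1) * exp (((-β : ℝ) : ℂ) * I)) /
        ((s : ℂ) - t2 * (1 + η2) * exp (((γ - β : ℝ) : ℂ) * I)) := by
    intro β s hne
    have f1 : exp (((-β : ℝ) : ℂ) * I) * exp (β * I) = 1 := by
      rw [← Complex.exp_add, ← Complex.exp_zero]; congr 1; push_cast; ring
    have f2 : exp (((γ - β : ℝ) : ℂ) * I) * exp (β * I) = exp (γ * I) := by
      rw [← Complex.exp_add]; congr 1; push_cast; ring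
    have g1 : z0 + s * e * exp (β * I) - a1 =
        (e * exp (β * I)) * ((s : ℂ) - t1 * (1 + η1) * exp (((-β : ℝ) : ℂ) * I)) := by
      rw [hη1e]
      linear_combination (e * t1 * (1 + η1)) * f1
    have g2 : z0 + s * e * exp (β * I) - a2 =
        (e * exp (β * I)) * ((s : ℂ) - t2 * (1 + η2) * exp (((γ - β : ℝ) : ℂ) * I)) := by
      rw [hη2e]
      linear_combination (e * t2 * (1 + η2)) * f2
    rw [g1, g2, mul_div_mul_left _ _ (mul_ne_zero he0 (Complex.exp_ne_zero _))]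
  have T1 := Cr_seg S1 S2 hr1 (L := fun s => L (s1 s))
    (hL.comp hs1c.continuousOn hs1K) (fun s hs => by
      rw [hLe _ (hs1K s hs)]
      exact quot α s (hne2 _ (hs1K s hs)))
  have T2 := Cr_seg S3 S4 hr2 (L := fun s => L (s2 s))
    (hL.comp hs2c.continuousOn hs2K) (fun s hs => by
      rw [hLe _ (hs2K s hs)]
      exact quot δ s (hne2 _ (hs2K s hs)))
  have h00 : s1 0 = s2 0 := by simp [hs1, hs2]
  have T1' := congrArg Complex.im T1
  have T2' := congrArg Complex.im T2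
  simp only [sub_im, Complex.log_im] at T1' T2'
  rw [h00] at T1'
  rw [abs_lt] at A1 A2 A3 A4 B1 B2 B3 B4
  linarith [A1.1, A2.2, A3.2, A4.1, B1.2, B2.1, B3.1, B4.2]

end H6ea4aa
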