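import Mathlib

/-!
# MP_6ea4aa: common definitions

`hen c b (x, y) = (x^2 + c - b y, x)`.
-/

set_option autoImplicit false

open Complex Set Filter Topology Metric

namespace H6ea4aa

/-- The Henon map. -/
def hen (c b : ℂ) (p : ℂ × ℂ) : ℂ × ℂ := (p.1 ^ 2 + c - b * p.2, p.1)

/-- The inverse of the Henon map. -/
noncomputable def henInv (c b : ℂ) (p : ℂ × ℂ) : ℂ × ℂ := (p.2, (p.2 ^ 2 + c - p.1) / b)

/-- bounded forward orbits -/
def Kp (c b : ℂ) : Set (ℂ × ℂ) := {p | ∃ R : ℝ, ∀ n : ℕ, ‖(hen c b)^[n] p‖ ≤ R}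

/-- bounded backward orbits -/
def Km (c b : ℂ) : Set (ℂ × ℂ) := {p | ∃ R : ℝ, ∀ n : ℕ, ‖(henInv c b)^[n] p‖ ≤ R}

/-- the Julia set -/
def JJ (c b : ℂ) : Set (ℂ × ℂ) := frontier (Kp c b) ∩ frontier (Km c b)

/-- forward Green function -/
noncomputable def Gp (c b : ℂ) (p : ℂ × ℂ) : ℝ :=
  limUnder atTop (fun n : ℕ => Real.log (max 1 ‖(hen c b)^[n] p‖) / 2 ^ n)

/-- backward Green function; `(x, y) ↦ (y / b, x / b)` conjugates `henInv c b` to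
`hen (c / b ^ 2) (1 / b)`. -/
noncomputable def Gm (c b : ℂ) (p : ℂ × ℂ) : ℝ := Gp (c / b ^ 2) (1 / b) (p.2 / b, p.1 / b)

/-- right half plane -/
def RHP : Set ℂ := {w | 0 < w.re}

/-- `g` is, near `z`, the real part of a holomorphic function. -/
def LocRe (g : ℂ → ℝ) (z : ℂ) : Prop :=
  ∃ r > 0, ∃ F : ℂ → ℂ, DifferentiableOn ℂ F (ball z r) ∧ ∀ ζ ∈ ball z r, g ζ = (F ζ).re

/-- `G` is, near `q`, the real part of a holomorphic function of two variables. -/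
def LocRe2 (G : ℂ × ℂ → ℝ) (q : ℂ × ℂ) : Prop :=
  ∃ r > 0, ∃ F : ℂ × ℂ → ℂ, DifferentiableOn ℂ F (ball q r) ∧ ∀ p ∈ ball q r, G p = (F p).re

/-- the property `(U)`: the zero set of `g` has no compact island -/
def NoIsland (g : ℂ → ℝ) : Prop :=
  ∀ Q : Set ℂ, IsOpen Q → Bornology.IsBounded Q → (∃ z ∈ Q, g z = 0) → ∃ z ∈ frontier Q, g z = 0

/-- Green function of an unstable manifold in the linearizing coordinate. -/
structure LinGreen (g : ℂ → ℝ) (mu : ℂ) (lam : ℝ) : Prop where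
  cont : Continuous g
  nonneg : ∀ z, 0 ≤ g z
  harm : ∀ z, 0 < g z → LocRe g z
  submean : ∀ z, ∀ r : ℝ, 0 < r → g z ≤ Real.circleAverage g z r
  scale : ∀ z, g (mu * z) = lam * g z
  one_lt_mu : 1 < ‖mu‖
  one_lt_lam : 1 < lam
  nontriv : ∃ z, 0 < g z

end H6ea4aa
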