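import Pool.Agent.H.MP_6ea4aa_an.Unst

/-!
# MP_6ea4aa: the symmetry `f_{c,b}⁻¹ ∼ f_{c/b², 1/b}`
-/

set_option autoImplicit false

open Complex Set Filter Topology Metric

namespace H6ea4aa

/-- the conjugacy -/
noncomputable def tau (b : ℂ) (p : ℂ × ℂ) : ℂ × ℂ := (p.2 / b, p.1 / b)

theorem Dual_tau_henInv (c b : ℂ) (p : ℂ × ℂ) :
    tau b (henInv c b p) = hen (c / b ^ 2) (1 / b) (tau b p) := by
  simp only [tau, henInv, hen]
  ext
  · simp only
    ring
  · rfl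

theorem Dual_tau_hen (c : ℂ) {b : ℂ} (hb : b ≠ 0) (p : ℂ × ℂ) :
    tau b (hen c b p) = henInv (c / b ^ 2) (1 / b) (tau b p) := by
  simp only [tau, henInv, hen]
  ext
  · rfl
  · simp only
    field_simp

theorem Dual_iter_inv (c b : ℂ) (n : ℕ) (p : ℂ × ℂ) :
    tau b ((henInv c b)^[n] p) = (hen (c / b ^ 2) (1 / b))^[n] (tau b p) := by
  induction n generalizing p with
  | zero => rfl
  | succ n ih =>
    rw [Function.iterate_succ_apply, Function.iterate_succ_apply, ih, Dual_tau_henInv]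

theorem Dual_iter (c : ℂ) {b : ℂ} (hb : b ≠ 0) (n : ℕ) (p : ℂ × ℂ) :
    tau b ((hen c b)^[n] p) = (henInv (c / b ^ 2) (1 / b))^[n] (tau b p) := by
  induction n generalizing p with
  | zero => rfl
  | succ n ih =>
    rw [Function.iterate_succ_apply, Function.iterate_succ_apply, ih, Dual_tau_hen c hb]

theorem Dual_norm_tau (b : ℂ) (p : ℂ × ℂ) : ‖tau b p‖ = ‖p‖ / ‖b‖ := by
  simp only [tau, Prod.norm_def, norm_div]
  rw [max_comm, max_div_div_right (norm_nonneg b)]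

/-- the conjugacy as a continuous linear equivalence -/
noncomputable def tauL (b : ℂ) (hb : b ≠ 0) : (ℂ × ℂ) ≃L[ℂ] (ℂ × ℂ) where
  toFun := tau b
  invFun q := (b * q.2, b * q.1)
  map_add' p q := by
    simp only [tau, Prod.fst_add, Prod.snd_add, add_div, Prod.mk_add_mk]
  map_smul' r p := by
    simp only [tau, Prod.smul_fst, Prod.smul_snd, smul_eq_mul, mul_div_assoc, RingHom.id_apply,
      Prod.smul_mk]
  left_inv p := by
    simp only [tau]
    ext
    · simp only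
      field_simp
    · simp only
      field_simp
  right_inv p := by
    simp only [tau]
    ext
    · simp only
      field_simp
    · simp only
      field_simp
  continuous_toFun := by
    show Continuous (tau b)
    unfold tau
    fun_prop
  continuous_invFun := by
    fun_prop

theorem tauL_apply (b : ℂ) (hb : b ≠ 0) (p : ℂ × ℂ) : tauL b hb p = tau b p := rfl

theorem Dual_bdd {b : ℂ} (hb : b ≠ 0) (x : ℕ → ℂ × ℂ) :
    (∃ R : ℝ, ∀ n, ‖tau b (x n)‖ ≤ R) ↔ ∃ R : ℝ, ∀ n, ‖x n‖ ≤ R := by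
  have hb' : 0 < ‖b‖ := norm_pos_iff.2 hb
  constructor
  · rintro ⟨R, hR⟩
    refine ⟨R * ‖b‖, fun n => ?_⟩
    have := hR n
    rwa [Dual_norm_tau, div_le_iff₀ hb'] at this
  · rintro ⟨R, hR⟩
    refine ⟨R / ‖b‖, fun n => ?_⟩
    rw [Dual_norm_tau]
    exact div_le_div_of_nonneg_right (hR n) hb'.le

theorem Dual_Kp (c : ℂ) {b : ℂ} (hb : b ≠ 0) :
    Kp (c / b ^ 2) (1 / b) = (tauL b hb).toHomeomorph '' Km c b := by
  ext q
  obtain ⟨p, rfl⟩ := (tauL b hb).toHomeomorph.surjective q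
  rw [(tauL b hb).toHomeomorph.injective.mem_set_image]
  show (∃ R : ℝ, ∀ n : ℕ, ‖(hen (c / b ^ 2) (1 / b))^[n] (tau b p)‖ ≤ R) ↔
    (∃ R : ℝ, ∀ n : ℕ, ‖(henInv c b)^[n] p‖ ≤ R)
  have h := Dual_bdd hb (fun n => (henInv c b)^[n] p)
  simp only [Dual_iter_inv] at h
  exact h

theorem Dual_Km (c : ℂ) {b : ℂ} (hb : b ≠ 0) :
    Km (c / b ^ 2) (1 / b) = (tauL b hb).toHomeomorph '' Kp c b := by
  ext q
  obtain ⟨p, rfl⟩ := (tauL b hb).toHomeomorph.surjective q
  rw [(tauL b hb).toHomeomorph.injective.mem_set_image]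
  show (∃ R : ℝ, ∀ n : ℕ, ‖(henInv (c / b ^ 2) (1 / b))^[n] (tau b p)‖ ≤ R) ↔
    (∃ R : ℝ, ∀ n : ℕ, ‖(hen c b)^[n] p‖ ≤ R)
  have h := Dual_bdd hb (fun n => (hen c b)^[n] p)
  simp only [Dual_iter c hb] at h
  exact h

theorem JJ_dual (c b : ℂ) (hb : b ≠ 0) : JJ (c / b ^ 2) (1 / b) = tau b '' JJ c b := by
  have h : JJ (c / b ^ 2) (1 / b) = (tauL b hb).toHomeomorph '' JJ c b := by
    unfold JJ
    rw [Dual_Kp c hb, Dual_Km c hb, ← Homeomorph.image_frontier, ← Homeomorph.image_frontier,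
      ← image_inter (tauL b hb).toHomeomorph.injective, inter_comm]
  exact h

theorem exists_dual {c b : ℂ} (hb : ‖b‖ = 1) (s : Saddle c b) :
    ∃ s' : Saddle (c / b ^ 2) (1 / b), s'.N = s.N ∧ s'.p = tau b s.p ∧ s'.v = tau b s.w ∧
      s'.μ = s.ν⁻¹ := by
  have hb0 : b ≠ 0 := by
    intro h
    rw [h, norm_zero] at hb
    norm_num at hb
  set T := tauL b hb0 with hT
  have hTa : ∀ p, T p = tau b p := fun p => rfl
  have hinvl : Function.LeftInverse (henInv c b) (hen c b) := henInv_hen c b hb0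
  have hinvr : Function.LeftInverse (hen c b) (henInv c b) := hen_henInv c b hb0
  have hiter : ∀ k : ℕ, (hen (c / b ^ 2) (1 / b))^[k] = T ∘ (henInv c b)^[k] ∘ T.symm := by
    intro k
    funext q
    have h1 := Dual_iter_inv c b k (T.symm q)
    rw [← hTa, ← hTa, T.apply_symm_apply] at h1
    exact h1.symm
  have hDF : DifferentiableAt ℂ ((hen c b)^[s.N]) s.p :=
    (hen_differentiable c b).iterate _ _
  have hDG : DifferentiableAt ℂ ((henInv c b)^[s.N]) s.p :=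
    (henInv_differentiable c b).iterate _ _
  have hGp : (henInv c b)^[s.N] s.p = s.p := by
    have := hinvl.iterate s.N s.p
    rwa [s.hp] at this
  have hcomp : ∀ x, fderiv ℂ ((henInv c b)^[s.N]) s.p (fderiv ℂ ((hen c b)^[s.N]) s.p x) = x := by
    intro x
    have h1 : fderiv ℂ ((henInv c b)^[s.N] ∘ (hen c b)^[s.N]) s.p
        = (fderiv ℂ ((henInv c b)^[s.N]) ((hen c b)^[s.N] s.p)).comp
          (fderiv ℂ ((hen c b)^[s.N]) s.p) := by
      refine fderiv_comp s.p ?_ hDF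
      rw [s.hp]
      exact hDG
    have h2 : (henInv c b)^[s.N] ∘ (hen c b)^[s.N] = id :=
      funext (fun p => hinvl.iterate s.N p)
    rw [h2, fderiv_id, s.hp] at h1
    have h3 := congrArg (fun L : ℂ × ℂ →L[ℂ] ℂ × ℂ => L x) h1
    simpa using h3.symm
  have hμ0 : s.μ ≠ 0 := norm_pos_iff.1 (lt_trans one_pos s.hμ)
  have hGv : fderiv ℂ ((henInv c b)^[s.N]) s.p s.v = s.μ⁻¹ • s.v := by
    have h1 := hcomp s.v
    rw [s.hev, map_smul] at h1
    rw [eq_inv_smul_iff₀ hμ0]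
    exact h1
  have hGw : fderiv ℂ ((henInv c b)^[s.N]) s.p s.w = s.ν⁻¹ • s.w := by
    have h1 := hcomp s.w
    rw [s.hew, map_smul] at h1
    rw [eq_inv_smul_iff₀ s.hν0]
    exact h1
  have hder : ∀ x, fderiv ℂ ((hen (c / b ^ 2) (1 / b))^[s.N]) (T s.p) (T x)
      = T (fderiv ℂ ((henInv c b)^[s.N]) s.p x) := by
    intro x
    have h1 : HasFDerivAt ((hen (c / b ^ 2) (1 / b))^[s.N])
        ((T : ℂ × ℂ →L[ℂ] ℂ × ℂ).comp ((fderiv ℂ ((henInv c b)^[s.N]) s.p).comp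
          (T.symm : ℂ × ℂ →L[ℂ] ℂ × ℂ))) (T s.p) := by
      rw [hiter]
      have h2 : HasFDerivAt ((henInv c b)^[s.N]) (fderiv ℂ ((henInv c b)^[s.N]) s.p)
          (T.symm (T s.p)) := by
        rw [T.symm_apply_apply]
        exact hDG.hasFDerivAt
      exact T.hasFDerivAt.comp (T s.p) (h2.comp (T s.p) T.symm.hasFDerivAt)
    rw [h1.fderiv]
    simp
  refine ⟨⟨s.N, T s.p, T s.w, T s.v, s.ν⁻¹, s.μ⁻¹, s.hN, ?_, ?_, ?_, ?_, ?_, ?_, ?_, ?_, ?_⟩,
    rfl, rfl, rfl, rfl⟩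
  · rw [hiter]
    simp [hGp]
  · intro k hk hkN h
    apply s.hmin k hk hkN
    rw [hiter] at h
    simp only [Function.comp_apply, T.symm_apply_apply] at h
    have h1 := T.injective h
    have h2 := hinvr.iterate k s.p
    rwa [h1] at h2
  · rw [norm_inv]
    exact (one_lt_inv₀ (norm_pos_iff.2 s.hν0)).2 s.hν
  · rw [norm_inv]
    exact inv_lt_one_of_one_lt₀ s.hμ
  · exact inv_ne_zero hμ0
  · intro h
    exact s.hw (T.map_eq_zero_iff.1 h)
  · intro h
    exact s.hv (T.map_eq_zero_iff.1 h)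
  · rw [hder, hGw, map_smul]
  · rw [hder, hGv, map_smul]

end H6ea4aa
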