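import Pool.Agent.H.MP_6ea4aa_an.Util

/-!
# MP_6ea4aa: calculus with `dx`, `dy`, `lap`; the smoothed Green function
-/

set_option autoImplicit false

open Complex Set Filter Topology Metric MeasureTheory
open scoped ContDiff

namespace H6ea4aa

/-! ### rules -/

theorem Energy_dx_contDiff {f : ℂ → ℝ} (hf : ContDiff ℝ 2 f) : ContDiff ℝ 1 (dx f) := by
  have h : ContDiff ℝ 1 (fderiv ℝ f) := hf.fderiv_right (by norm_num)
  exact h.clm_apply contDiff_const

theorem Energy_dy_contDiff {f : ℂ → ℝ} (hf : ContDiff ℝ 2 f) : ContDiff ℝ 1 (dy f) := by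
  have h : ContDiff ℝ 1 (fderiv ℝ f) := hf.fderiv_right (by norm_num)
  exact h.clm_apply contDiff_const

theorem Energy_fderiv_cont {f : ℂ → ℝ} (hf : ContDiff ℝ 1 f) (v : ℂ) :
    Continuous (fun z => fderiv ℝ f z v) := by
  have h : Continuous (fderiv ℝ f) := hf.continuous_fderiv (by norm_num)
  exact h.clm_apply continuous_const

theorem Energy_lap_cont {f : ℂ → ℝ} (hf : ContDiff ℝ 2 f) : Continuous (lap f) :=
  (Energy_fderiv_cont (Energy_dx_contDiff hf) 1).add (Energy_fderiv_cont (Energy_dy_contDiff hf) I)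

theorem Energy_dx_cont {f : ℂ → ℝ} (hf : ContDiff ℝ 2 f) : Continuous (dx f) :=
  (Energy_dx_contDiff hf).continuous

theorem Energy_dy_cont {f : ℂ → ℝ} (hf : ContDiff ℝ 2 f) : Continuous (dy f) :=
  (Energy_dy_contDiff hf).continuous

theorem Energy_dx_hcs {f : ℂ → ℝ} (hf : HasCompactSupport f) : HasCompactSupport (dx f) :=
  hf.fderiv_apply ℝ 1

theorem Energy_dy_hcs {f : ℂ → ℝ} (hf : HasCompactSupport f) : HasCompactSupport (dy f) :=
  hf.fderiv_apply ℝ I

theorem Energy_lap_hcs {f : ℂ → ℝ} (hf : HasCompactSupport f) : HasCompactSupport (lap f) :=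
  (Energy_dx_hcs (Energy_dx_hcs hf)).add (Energy_dy_hcs (Energy_dy_hcs hf))

theorem Energy_dx_congr {f h : ℂ → ℝ} {z : ℂ} (he : f =ᶠ[𝓝 z] h) : dx f z = dx h z := by
  unfold dx
  rw [he.fderiv_eq]

theorem Energy_dy_congr {f h : ℂ → ℝ} {z : ℂ} (he : f =ᶠ[𝓝 z] h) : dy f z = dy h z := by
  unfold dy
  rw [he.fderiv_eq]

theorem Energy_lap_congr {f h : ℂ → ℝ} {z : ℂ} (he : f =ᶠ[𝓝 z] h) : lap f z = lap h z := by
  unfold lap
  have h1 : dx f =ᶠ[𝓝 z] dx h := by
    filter_upwards [he.eventuallyEq_nhds] with w hw using Energy_dx_congr hw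
  have h2 : dy f =ᶠ[𝓝 z] dy h := by
    filter_upwards [he.eventuallyEq_nhds] with w hw using Energy_dy_congr hw
  rw [Energy_dx_congr h1, Energy_dy_congr h2]

theorem Energy_dx_const (k : ℝ) (z : ℂ) : dx (fun _ => k) z = 0 := by
  simp [dx]

theorem Energy_dy_const (k : ℝ) (z : ℂ) : dy (fun _ => k) z = 0 := by
  simp [dy]

theorem Energy_lap_const (k : ℝ) (z : ℂ) : lap (fun _ => k) z = 0 := by
  have h1 : dx (fun _ : ℂ => k) = fun _ => 0 := funext fun z => Energy_dx_const k z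
  have h2 : dy (fun _ : ℂ => k) = fun _ => 0 := funext fun z => Energy_dy_const k z
  unfold lap
  rw [h1, h2, Energy_dx_const, Energy_dy_const, add_zero]

theorem Energy_dx_add {f h : ℂ → ℝ} {z : ℂ} (hf : DifferentiableAt ℝ f z)
    (hh : DifferentiableAt ℝ h z) : dx (fun w => f w + h w) z = dx f z + dx h z := by
  unfold dx
  rw [fderiv_fun_add hf hh]
  rfl

theorem Energy_dy_add {f h : ℂ → ℝ} {z : ℂ} (hf : DifferentiableAt ℝ f z)
    (hh : DifferentiableAt ℝ h z) : dy (fun w => f w + h w) z = dy f z + dy h z := by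
  unfold dy
  rw [fderiv_fun_add hf hh]
  rfl

theorem Energy_dx_smul {f : ℂ → ℝ} {z : ℂ} (k : ℝ) (hf : DifferentiableAt ℝ f z) :
    dx (fun w => k * f w) z = k * dx f z := by
  unfold dx
  rw [fderiv_const_mul hf]
  rfl

theorem Energy_dy_smul {f : ℂ → ℝ} {z : ℂ} (k : ℝ) (hf : DifferentiableAt ℝ f z) :
    dy (fun w => k * f w) z = k * dy f z := by
  unfold dy
  rw [fderiv_const_mul hf]
  rfl

theorem Energy_diff {f : ℂ → ℝ} (hf : ContDiff ℝ 2 f) (z : ℂ) : DifferentiableAt ℝ f z :=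
  (hf.differentiable (by norm_num)) z

theorem Energy_diff1 {f : ℂ → ℝ} (hf : ContDiff ℝ 1 f) (z : ℂ) : DifferentiableAt ℝ f z :=
  (hf.differentiable (by norm_num)) z

theorem Energy_lap_add {f h : ℂ → ℝ} (hf : ContDiff ℝ 2 f) (hh : ContDiff ℝ 2 h) (z : ℂ) :
    lap (fun w => f w + h w) z = lap f z + lap h z := by
  have h1 : dx (fun w => f w + h w) = fun z => dx f z + dx h z :=
    funext fun z => Energy_dx_add (Energy_diff hf z) (Energy_diff hh z)
  have h2 : dy (fun w => f w + h w) = fun z => dy f z + dy h z :=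
    funext fun z => Energy_dy_add (Energy_diff hf z) (Energy_diff hh z)
  unfold lap
  rw [h1, h2, Energy_dx_add (Energy_diff1 (Energy_dx_contDiff hf) z)
    (Energy_diff1 (Energy_dx_contDiff hh) z), Energy_dy_add (Energy_diff1 (Energy_dy_contDiff hf) z)
    (Energy_diff1 (Energy_dy_contDiff hh) z)]
  ring

theorem Energy_lap_smul {f : ℂ → ℝ} (k : ℝ) (hf : ContDiff ℝ 2 f) (z : ℂ) :
    lap (fun w => k * f w) z = k * lap f z := by
  have h1 : dx (fun w => k * f w) = fun z => k * dx f z :=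
    funext fun z => Energy_dx_smul k (Energy_diff hf z)
  have h2 : dy (fun w => k * f w) = fun z => k * dy f z :=
    funext fun z => Energy_dy_smul k (Energy_diff hf z)
  unfold lap
  rw [h1, h2, Energy_dx_smul k (Energy_diff1 (Energy_dx_contDiff hf) z),
    Energy_dy_smul k (Energy_diff1 (Energy_dy_contDiff hf) z)]
  ring

theorem Energy_lap_sub {f h : ℂ → ℝ} (hf : ContDiff ℝ 2 f) (hh : ContDiff ℝ 2 h) (z : ℂ) :
    lap (fun w => f w - h w) z = lap f z - lap h z := by
  have h1 : (fun w => f w - h w) = fun w => f w + (-1) * h w := by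
    funext w
    ring
  rw [h1, Energy_lap_add hf (contDiff_const.mul hh), Energy_lap_smul _ hh]
  ring

theorem Energy_dx_mul {f h : ℂ → ℝ} {z : ℂ} (hf : DifferentiableAt ℝ f z)
    (hh : DifferentiableAt ℝ h z) :
    dx (fun w => f w * h w) z = f z * dx h z + h z * dx f z := by
  unfold dx
  rw [fderiv_fun_mul hf hh]
  simp

theorem Energy_dy_mul {f h : ℂ → ℝ} {z : ℂ} (hf : DifferentiableAt ℝ f z)
    (hh : DifferentiableAt ℝ h z) :
    dy (fun w => f w * h w) z = f z * dy h z + h z * dy f z := by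
  unfold dy
  rw [fderiv_fun_mul hf hh]
  simp

theorem Energy_lap_mul {f h : ℂ → ℝ} (hf : ContDiff ℝ 2 f) (hh : ContDiff ℝ 2 h) (z : ℂ) :
    lap (fun w => f w * h w) z =
      f z * lap h z + 2 * (dx f z * dx h z + dy f z * dy h z) + h z * lap f z := by
  have h1 : dx (fun w => f w * h w) = fun z => f z * dx h z + h z * dx f z :=
    funext fun z => Energy_dx_mul (Energy_diff hf z) (Energy_diff hh z)
  have h2 : dy (fun w => f w * h w) = fun z => f z * dy h z + h z * dy f z :=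
    funext fun z => Energy_dy_mul (Energy_diff hf z) (Energy_diff hh z)
  have hfx := Energy_diff1 (Energy_dx_contDiff hf) z
  have hfy := Energy_diff1 (Energy_dy_contDiff hf) z
  have hhx := Energy_diff1 (Energy_dx_contDiff hh) z
  have hhy := Energy_diff1 (Energy_dy_contDiff hh) z
  have hf0 := Energy_diff hf z
  have hh0 := Energy_diff hh z
  unfold lap
  rw [h1, h2, Energy_dx_add (hf0.fun_mul hhx) (hh0.fun_mul hfx),
    Energy_dy_add (hf0.fun_mul hhy) (hh0.fun_mul hfy),
    Energy_dx_mul hf0 hhx, Energy_dx_mul hh0 hfx, Energy_dy_mul hf0 hhy, Energy_dy_mul hh0 hfy]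
  ring

/-! ### integration by parts -/

theorem Energy_int {f : ℂ → ℝ} (hf : Continuous f) (hc : HasCompactSupport f) : Integrable f :=
  hf.integrable_of_hasCompactSupport hc

theorem Energy_parts1 {f h : ℂ → ℝ} (v : ℂ) (hf : ContDiff ℝ 1 f) (hh : ContDiff ℝ 1 h)
    (hc : HasCompactSupport h) :
    ∫ z, f z * fderiv ℝ h z v = - ∫ z, fderiv ℝ f z v * h z := by
  refine integral_mul_fderiv_eq_neg_fderiv_mul_of_integrable ?_ ?_ ?_
    (fun x _ => Energy_diff1 hf x) (fun x _ => Energy_diff1 hh x)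
  · exact Energy_int ((Energy_fderiv_cont hf v).mul hh.continuous) hc.mul_left
  · exact Energy_int (hf.continuous.mul (Energy_fderiv_cont hh v)) (hc.fderiv_apply ℝ v).mul_left
  · exact Energy_int (hf.continuous.mul hh.continuous) hc.mul_left

theorem Energy_parts2 {f h : ℂ → ℝ} (v : ℂ) (hf : ContDiff ℝ 2 f) (hh : ContDiff ℝ 2 h)
    (hc : HasCompactSupport h) (hfv : ContDiff ℝ 1 (fun z => fderiv ℝ f z v))
    (hhv : ContDiff ℝ 1 (fun z => fderiv ℝ h z v)) :
    ∫ z, f z * fderiv ℝ (fun z => fderiv ℝ h z v) z v =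
      ∫ z, h z * fderiv ℝ (fun z => fderiv ℝ f z v) z v := by
  rw [Energy_parts1 v (hf.of_le (by norm_num)) hhv (hc.fderiv_apply ℝ v),
    Energy_parts1 v hfv (hh.of_le (by norm_num)) hc, neg_neg]
  congr 1
  funext z
  ring

theorem Energy_parts {f h : ℂ → ℝ} (hf : ContDiff ℝ 2 f) (hh : ContDiff ℝ 2 h)
    (hc : HasCompactSupport h) : ∫ z, f z * lap h z = ∫ z, h z * lap f z := by
  have h1 : ∫ z, f z * dx (dx h) z = ∫ z, h z * dx (dx f) z :=
    Energy_parts2 1 hf hh hc (Energy_dx_contDiff hf) (Energy_dx_contDiff hh)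
  have h2 : ∫ z, f z * dy (dy h) z = ∫ z, h z * dy (dy f) z :=
    Energy_parts2 I hf hh hc (Energy_dy_contDiff hf) (Energy_dy_contDiff hh)
  have c1 := Energy_fderiv_cont (Energy_dx_contDiff hh) 1
  have c2 := Energy_fderiv_cont (Energy_dy_contDiff hh) I
  have c3 := Energy_fderiv_cont (Energy_dx_contDiff hf) 1
  have c4 := Energy_fderiv_cont (Energy_dy_contDiff hf) I
  have i1 : Integrable fun z => f z * dx (dx h) z :=
    Energy_int (hf.continuous.mul c1) (Energy_dx_hcs (Energy_dx_hcs hc)).mul_left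
  have i2 : Integrable fun z => f z * dy (dy h) z :=
    Energy_int (hf.continuous.mul c2) (Energy_dy_hcs (Energy_dy_hcs hc)).mul_left
  have i3 : Integrable fun z => h z * dx (dx f) z :=
    Energy_int (hh.continuous.mul c3) hc.mul_right
  have i4 : Integrable fun z => h z * dy (dy f) z :=
    Energy_int (hh.continuous.mul c4) hc.mul_right
  unfold lap
  simp only [mul_add]
  rw [integral_add i1 i2, integral_add i3 i4, h1, h2]

theorem Energy_int_lap {h : ℂ → ℝ} (hh : ContDiff ℝ 2 h) (hc : HasCompactSupport h) :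
    ∫ z, lap h z = 0 := by
  have := Energy_parts (f := fun _ => (1 : ℝ)) contDiff_const hh hc
  simp only [one_mul, Energy_lap_const, mul_zero, integral_zero] at this
  exact this

/-- `∫ θ |∇ Q|² = - ∫ θ Q ΔQ + ½ ∫ Q² Δθ` -/
theorem Energy_dirichlet {θ Q : ℂ → ℝ} (hθ : ContDiff ℝ 2 θ) (hc : HasCompactSupport θ)
    (hQ : ContDiff ℝ 2 Q) :
    ∫ z, θ z * (dx Q z ^ 2 + dy Q z ^ 2) =
      - (∫ z, θ z * (Q z * lap Q z)) + 1 / 2 * ∫ z, Q z ^ 2 * lap θ z := by
  have h1 := Energy_parts (f := fun z => Q z * Q z) (hQ.mul hQ) hθ hc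
  have h2 : ∀ z, θ z * lap (fun z => Q z * Q z) z =
      2 * (θ z * (Q z * lap Q z)) + 2 * (θ z * (dx Q z ^ 2 + dy Q z ^ 2)) := by
    intro z
    rw [Energy_lap_mul hQ hQ]
    ring
  simp only [h2] at h1
  have i1 : Integrable fun z => θ z * (Q z * lap Q z) :=
    Energy_int (hθ.continuous.mul (hQ.continuous.mul (Energy_lap_cont hQ))) hc.mul_right
  have i2 : Integrable fun z => θ z * (dx Q z ^ 2 + dy Q z ^ 2) :=
    Energy_int (hθ.continuous.mul (((Energy_dx_cont hQ).pow 2).add ((Energy_dy_cont hQ).pow 2)))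
      hc.mul_right
  rw [integral_add (i1.const_mul 2) (i2.const_mul 2), integral_const_mul, integral_const_mul] at h1
  have h3 : ∫ z, Q z ^ 2 * lap θ z = ∫ z, Q z * Q z * lap θ z := by
    congr 1
    funext z
    ring
  rw [h3, h1]
  ring

end H6ea4aa
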