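import Pool.Agent.H.MP_6ea4aa_an.EnergyA

/-!
# MP_6ea4aa: the regularised logarithm
-/

set_option autoImplicit false

open Complex Set Filter Topology Metric MeasureTheory
open scoped ContDiff

namespace H6ea4aa

theorem Energy_dx_line {f : ℂ → ℝ} {z : ℂ} {f' : ℝ} (hf : DifferentiableAt ℝ f z)
    (h : HasDerivAt (fun t : ℝ => f (z + t)) f' 0) : dx f z = f' := by
  have h1 : HasDerivAt (fun t : ℝ => z + (t : ℂ)) 1 0 := by
    have := (Complex.ofRealCLM.hasDerivAt (x := (0 : ℝ))).const_add z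
    simpa using this
  have h2 : HasFDerivAt f (fderiv ℝ f z) (z + ((0 : ℝ) : ℂ)) := by
    simpa using hf.hasFDerivAt
  exact (h2.comp_hasDerivAt (0 : ℝ) h1).unique h

theorem Energy_dy_line {f : ℂ → ℝ} {z : ℂ} {f' : ℝ} (hf : DifferentiableAt ℝ f z)
    (h : HasDerivAt (fun t : ℝ => f (z + t * I)) f' 0) : dy f z = f' := by
  have h1 : HasDerivAt (fun t : ℝ => z + (t : ℂ) * I) I 0 := by
    have := ((Complex.ofRealCLM.hasDerivAt (x := (0 : ℝ))).mul_const I).const_add z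
    simpa using this
  have h2 : HasFDerivAt f (fderiv ℝ f z) (z + ((0 : ℝ) : ℂ) * I) := by
    simpa using hf.hasFDerivAt
  exact (h2.comp_hasDerivAt (0 : ℝ) h1).unique h

/-- `ε² + |v - a|²` -/
def EDn (a : ℂ) (ε : ℝ) (v : ℂ) : ℝ := ε ^ 2 + ((v.re - a.re) ^ 2 + (v.im - a.im) ^ 2)

/-- regularised logarithm -/
noncomputable def EL (a : ℂ) (ε : ℝ) (v : ℂ) : ℝ := 1 / 2 * Real.log (EDn a ε v)

/-- its Laplacian -/
noncomputable def EM (a : ℂ) (ε : ℝ) (v : ℂ) : ℝ := 2 * ε ^ 2 / EDn a ε v ^ 2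

theorem EDn_eq (a : ℂ) (ε : ℝ) (v : ℂ) : EDn a ε v = ε ^ 2 + ‖v - a‖ ^ 2 := by
  unfold EDn
  rw [Complex.sq_norm, Complex.normSq_apply]
  simp only [sub_re, sub_im]
  ring

theorem EDn_pos (a : ℂ) {ε : ℝ} (hε : 0 < ε) (v : ℂ) : 0 < EDn a ε v := by
  unfold EDn
  positivity

theorem Energy_re_contDiff : ContDiff ℝ 2 (fun v : ℂ => v.re) := Complex.reCLM.contDiff

theorem Energy_im_contDiff : ContDiff ℝ 2 (fun v : ℂ => v.im) := Complex.imCLM.contDiff

theorem EDn_contDiff (a : ℂ) (ε : ℝ) : ContDiff ℝ 2 (EDn a ε) := by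
  unfold EDn
  exact contDiff_const.add (((Energy_re_contDiff.sub contDiff_const).pow 2).add
    ((Energy_im_contDiff.sub contDiff_const).pow 2))

theorem EL_contDiff (a : ℂ) {ε : ℝ} (hε : 0 < ε) : ContDiff ℝ 2 (EL a ε) := by
  unfold EL
  exact contDiff_const.mul ((EDn_contDiff a ε).log fun v => (EDn_pos a hε v).ne')

theorem EM_cont (a : ℂ) {ε : ℝ} (hε : 0 < ε) : Continuous (EM a ε) := by
  unfold EM
  exact continuous_const.div ((EDn_contDiff a ε).continuous.pow 2)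
    fun v => (pow_pos (EDn_pos a hε v) 2).ne'

theorem EM_nonneg (a : ℂ) {ε : ℝ} (hε : 0 < ε) (v : ℂ) : 0 ≤ EM a ε v := by
  unfold EM
  have := EDn_pos a hε v
  positivity

theorem EDn_line_x (a : ℂ) (ε : ℝ) (z : ℂ) :
    HasDerivAt (fun t : ℝ => EDn a ε (z + t)) (2 * (z.re - a.re)) 0 := by
  have h1 : HasDerivAt (fun t : ℝ => ε ^ 2 + ((z.re + t - a.re) ^ 2 + (z.im - a.im) ^ 2))
      (2 * (z.re - a.re)) 0 := by
    have h2 : HasDerivAt (fun t : ℝ => z.re + t - a.re) 1 0 :=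
      ((hasDerivAt_id (0 : ℝ)).const_add z.re).sub_const a.re
    have h3 := ((h2.pow 2).add_const ((z.im - a.im) ^ 2)).const_add (ε ^ 2)
    refine h3.congr_deriv ?_
    simp
  refine h1.congr_of_eventuallyEq (Eventually.of_forall fun t => ?_)
  simp [EDn]

theorem EDn_line_y (a : ℂ) (ε : ℝ) (z : ℂ) :
    HasDerivAt (fun t : ℝ => EDn a ε (z + t * I)) (2 * (z.im - a.im)) 0 := by
  have h1 : HasDerivAt (fun t : ℝ => ε ^ 2 + ((z.re - a.re) ^ 2 + (z.im + t - a.im) ^ 2))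
      (2 * (z.im - a.im)) 0 := by
    have h2 : HasDerivAt (fun t : ℝ => z.im + t - a.im) 1 0 :=
      ((hasDerivAt_id (0 : ℝ)).const_add z.im).sub_const a.im
    have h3 := ((h2.pow 2).const_add ((z.re - a.re) ^ 2)).const_add (ε ^ 2)
    refine h3.congr_deriv ?_
    simp
  refine h1.congr_of_eventuallyEq (Eventually.of_forall fun t => ?_)
  simp [EDn]

theorem EL_dx (a : ℂ) {ε : ℝ} (hε : 0 < ε) (z : ℂ) :
    dx (EL a ε) z = (z.re - a.re) / EDn a ε z := by
  refine Energy_dx_line (Energy_diff (EL_contDiff a hε) z) ?_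
  have h0 : EDn a ε (z + ((0 : ℝ) : ℂ)) ≠ 0 := (EDn_pos a hε _).ne'
  have h1 := ((EDn_line_x a ε z).log h0).const_mul (1 / 2 : ℝ)
  refine h1.congr_deriv ?_
  simp only [ofReal_zero, add_zero]
  have := (EDn_pos a hε z).ne'
  field_simp

theorem EL_dy (a : ℂ) {ε : ℝ} (hε : 0 < ε) (z : ℂ) :
    dy (EL a ε) z = (z.im - a.im) / EDn a ε z := by
  refine Energy_dy_line (Energy_diff (EL_contDiff a hε) z) ?_
  have h0 : EDn a ε (z + ((0 : ℝ) : ℂ) * I) ≠ 0 := (EDn_pos a hε _).ne'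
  have h1 := ((EDn_line_y a ε z).log h0).const_mul (1 / 2 : ℝ)
  refine h1.congr_deriv ?_
  simp only [ofReal_zero, zero_mul, add_zero]
  have := (EDn_pos a hε z).ne'
  field_simp

theorem EL_dxx (a : ℂ) {ε : ℝ} (hε : 0 < ε) (z : ℂ) :
    dx (dx (EL a ε)) z = 1 / EDn a ε z - 2 * (z.re - a.re) ^ 2 / EDn a ε z ^ 2 := by
  refine Energy_dx_line (Energy_diff1 (Energy_dx_contDiff (EL_contDiff a hε)) z) ?_
  have h0 : EDn a ε (z + ((0 : ℝ) : ℂ)) ≠ 0 := (EDn_pos a hε _).ne'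
  have h2 : HasDerivAt (fun t : ℝ => (z + (t : ℂ)).re - a.re) 1 0 := by
    have : HasDerivAt (fun t : ℝ => z.re + t - a.re) 1 0 :=
      ((hasDerivAt_id (0 : ℝ)).const_add z.re).sub_const a.re
    refine this.congr_of_eventuallyEq (Eventually.of_forall fun t => ?_)
    simp
  have h1 := h2.div (EDn_line_x a ε z) h0
  have h3 : (fun t : ℝ => dx (EL a ε) (z + t)) =
      ((fun t : ℝ => (z + (t : ℂ)).re - a.re) / fun t : ℝ => EDn a ε (z + t)) := by
    funext t
    rw [EL_dx a hε]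
    rfl
  rw [h3]
  refine h1.congr_deriv ?_
  simp only [ofReal_zero, add_zero]
  have := (EDn_pos a hε z).ne'
  field_simp

theorem EL_dyy (a : ℂ) {ε : ℝ} (hε : 0 < ε) (z : ℂ) :
    dy (dy (EL a ε)) z = 1 / EDn a ε z - 2 * (z.im - a.im) ^ 2 / EDn a ε z ^ 2 := by
  refine Energy_dy_line (Energy_diff1 (Energy_dy_contDiff (EL_contDiff a hε)) z) ?_
  have h0 : EDn a ε (z + ((0 : ℝ) : ℂ) * I) ≠ 0 := (EDn_pos a hε _).ne'
  have h2 : HasDerivAt (fun t : ℝ => (z + (t : ℂ) * I).im - a.im) 1 0 := by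
    have : HasDerivAt (fun t : ℝ => z.im + t - a.im) 1 0 :=
      ((hasDerivAt_id (0 : ℝ)).const_add z.im).sub_const a.im
    refine this.congr_of_eventuallyEq (Eventually.of_forall fun t => ?_)
    simp
  have h1 := h2.div (EDn_line_y a ε z) h0
  have h3 : (fun t : ℝ => dy (EL a ε) (z + t * I)) =
      ((fun t : ℝ => (z + (t : ℂ) * I).im - a.im) / fun t : ℝ => EDn a ε (z + t * I)) := by
    funext t
    rw [EL_dy a hε]
    rfl
  rw [h3]
  refine h1.congr_deriv ?_
  simp only [ofReal_zero, zero_mul, add_zero]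
  have := (EDn_pos a hε z).ne'
  field_simp

theorem EL_lap (a : ℂ) {ε : ℝ} (hε : 0 < ε) (z : ℂ) : lap (EL a ε) z = EM a ε z := by
  unfold lap EM
  rw [EL_dxx a hε, EL_dyy a hε]
  have h := (EDn_pos a hε z).ne'
  field_simp
  unfold EDn
  ring

/-! ### the mass -/

theorem Energy_radial (R : ℝ) (hR : 0 ≤ R) :
    ∫ y in Ioi R, y * (2 / (1 + y ^ 2) ^ 2) = 1 / (1 + R ^ 2) := by
  have hd : ∀ x ∈ Ici R, HasDerivAt (fun y : ℝ => -(1 + y ^ 2)⁻¹) (x * (2 / (1 + x ^ 2) ^ 2)) x := by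
    intro x _
    have h1 : HasDerivAt (fun y : ℝ => 1 + y ^ 2) (2 * x) x := by
      have := (hasDerivAt_pow 2 x).const_add 1
      simpa using this
    have h0 : (1 + x ^ 2 : ℝ) ≠ 0 := by positivity
    refine ((h1.inv h0).neg).congr_deriv ?_
    field_simp
  have ht : Tendsto (fun y : ℝ => -(1 + y ^ 2)⁻¹) atTop (𝓝 0) := by
    have h1 : Tendsto (fun y : ℝ => 1 + y ^ 2) atTop atTop :=
      tendsto_atTop_add_const_left _ _ (tendsto_pow_atTop (by norm_num))
    simpa using h1.inv_tendsto_atTop.neg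
  have hi : IntegrableOn (fun x : ℝ => x * (2 / (1 + x ^ 2) ^ 2)) (Ioi R) := by
    refine integrableOn_Ioi_deriv_of_nonneg' hd (fun x hx => ?_) ht
    have : 0 ≤ x := hR.trans (le_of_lt hx)
    positivity
  rw [integral_Ioi_of_hasDerivAt_of_tendsto' hd hi ht]
  rw [one_div]
  ring

/-- the standard kernel -/
noncomputable def EK (w : ℂ) : ℝ := 2 / (1 + ‖w‖ ^ 2) ^ 2

theorem EK_nonneg (w : ℂ) : 0 ≤ EK w := by
  unfold EK
  positivity

theorem EK_cont : Continuous EK := by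
  unfold EK
  refine continuous_const.div (by fun_prop) fun w => ?_
  positivity

theorem EK_integrable : Integrable EK := by
  have h := integrable_rpow_neg_one_add_norm_sq (E := ℂ) (μ := volume) (r := 4)
    (by rw [Complex.finrank_real_complex]; norm_num)
  have h2 := h.const_mul 2
  refine h2.congr (Eventually.of_forall fun w => ?_)
  simp only [EK]
  have : (-4 / 2 : ℝ) = -(2 : ℕ) := by norm_num
  rw [this, Real.rpow_neg (by positivity), Real.rpow_natCast]
  rfl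

theorem Energy_vol_ball : (volume : Measure ℂ).real (ball 0 1) = Real.pi := by
  rw [Measure.real, Complex.volume_ball]
  simp

theorem EK_tail (R : ℝ) (hR : 0 ≤ R) :
    ∫ w : ℂ, (Ioi R).indicator (fun y : ℝ => 2 / (1 + y ^ 2) ^ 2) ‖w‖ =
      2 * Real.pi / (1 + R ^ 2) := by
  rw [integral_fun_norm_addHaar (μ := (volume : Measure ℂ))
    ((Ioi R).indicator (fun y : ℝ => 2 / (1 + y ^ 2) ^ 2)), Complex.finrank_real_complex,
    Energy_vol_ball]
  have h1 : ∫ y in Ioi (0 : ℝ), y ^ (2 - 1) • (Ioi R).indicator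
      (fun y : ℝ => 2 / (1 + y ^ 2) ^ 2) y = ∫ y in Ioi R, y * (2 / (1 + y ^ 2) ^ 2) := by
    have h2 : (fun y : ℝ => y ^ (2 - 1) • (Ioi R).indicator
        (fun y : ℝ => 2 / (1 + y ^ 2) ^ 2) y) =
        (Ioi R).indicator (fun y : ℝ => y * (2 / (1 + y ^ 2) ^ 2)) := by
      funext y
      by_cases hy : y ∈ Ioi R
      · simp [hy]
      · simp [hy]
    rw [h2, setIntegral_indicator measurableSet_Ioi, Ioi_inter_Ioi, sup_of_le_right hR]
  rw [h1, Energy_radial R hR]
  simp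
  ring

theorem EK_mass : ∫ w : ℂ, EK w = 2 * Real.pi := by
  have h := integral_fun_norm_addHaar (μ := (volume : Measure ℂ))
    (fun y : ℝ => 2 / (1 + y ^ 2) ^ 2)
  unfold EK
  rw [h, Complex.finrank_real_complex, Energy_vol_ball]
  have h1 : ∫ y in Ioi (0 : ℝ), y ^ (2 - 1) • (2 / (1 + y ^ 2) ^ 2) = 1 := by
    have := Energy_radial 0 le_rfl
    simpa using this
  rw [h1]
  simp

theorem EM_scale_pt (a : ℂ) {ε : ℝ} (hε : 0 < ε) (w : ℂ) :
    ε ^ 2 * EM a ε (ε • w + a) = EK w := by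
  unfold EM EK
  rw [EDn_eq]
  have h1 : ‖ε • w + a - a‖ = ε * ‖w‖ := by
    rw [add_sub_cancel_right, norm_smul, Real.norm_of_nonneg hε.le]
  rw [h1]
  have h2 : (1 + ‖w‖ ^ 2 : ℝ) ≠ 0 := by positivity
  field_simp

theorem Energy_scale (F : ℂ → ℝ) (a : ℂ) {ε : ℝ} (hε : 0 < ε) :
    ∫ v, F v * EM a ε v = ∫ w, F (ε • w + a) * EK w := by
  have h1 : ∫ v, F v * EM a ε v = ∫ v, F (v + a) * EM a ε (v + a) :=
    (integral_add_right_eq_self (fun v => F v * EM a ε v) a).symm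
  have h2 := Measure.integral_comp_smul_of_nonneg (volume : Measure ℂ)
    (fun v => F (v + a) * EM a ε (v + a)) ε (hR := hε.le)
  rw [Complex.finrank_real_complex, smul_eq_mul] at h2
  rw [h1]
  have h3 : ∫ w, F (ε • w + a) * EK w = ε ^ 2 * ∫ w, F (ε • w + a) * EM a ε (ε • w + a) := by
    rw [← integral_const_mul]
    congr 1
    funext w
    rw [← EM_scale_pt a hε w]
    ring
  rw [h3, h2]
  field_simp

theorem EM_integrable (a : ℂ) {ε : ℝ} (hε : 0 < ε) : Integrable (EM a ε) := by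
  have h1 : Integrable (fun v : ℂ => EK (ε⁻¹ • v)) :=
    EK_integrable.comp_smul (inv_ne_zero hε.ne')
  have h2 : Integrable (fun v : ℂ => EK (ε⁻¹ • (v - a))) := h1.comp_sub_right a
  have h3 := h2.const_mul ((ε ^ 2)⁻¹)
  refine h3.congr (Eventually.of_forall fun v => ?_)
  have := EM_scale_pt a hε (ε⁻¹ • (v - a))
  rw [smul_inv_smul₀ hε.ne', sub_add_cancel] at this
  simp only
  rw [← this]
  field_simp

theorem Energy_upper {H : ℂ → ℝ} (hH : Continuous H) (hc : HasCompactSupport H) (a : ℂ)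
    {ε r A B : ℝ} (hε : 0 < ε) (hr : 0 < r) (hB : 0 ≤ B) (h1 : ∀ v, ‖v - a‖ ≤ r → H v ≤ A)
    (h2 : ∀ v, H v ≤ A + B) :
    ∫ v, H v * EM a ε v ≤ 2 * Real.pi * A + 2 * Real.pi * B * (ε ^ 2 / r ^ 2) := by
  obtain ⟨C, hC⟩ := hH.bounded_above_of_compact_support hc
  have hCb : ∀ w, ‖H (ε • w + a) * EK w‖ ≤ C * EK w := by
    intro w
    rw [norm_mul, Real.norm_of_nonneg (EK_nonneg w)]
    exact mul_le_mul_of_nonneg_right (hC _) (EK_nonneg w)
  have hi1 : Integrable fun w : ℂ => H (ε • w + a) * EK w := by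
    refine (EK_integrable.const_mul C).mono' ?_ (Eventually.of_forall hCb)
    have : Continuous fun w : ℂ => H (ε • w + a) * EK w :=
      (hH.comp (by fun_prop)).mul EK_cont
    exact this.aestronglyMeasurable
  have hi2 : Integrable fun w : ℂ => (Ioi (r / ε)).indicator
      (fun y : ℝ => 2 / (1 + y ^ 2) ^ 2) ‖w‖ := by
    have h3 : (fun w : ℂ => (Ioi (r / ε)).indicator (fun y : ℝ => 2 / (1 + y ^ 2) ^ 2) ‖w‖) =
        {w : ℂ | r / ε < ‖w‖}.indicator EK := by
      funext w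
      by_cases hw : r / ε < ‖w‖
      · rw [indicator_of_mem (show ‖w‖ ∈ Ioi (r / ε) from hw),
          indicator_of_mem (show w ∈ {w : ℂ | r / ε < ‖w‖} from hw)]
        rfl
      · rw [indicator_of_notMem (show ‖w‖ ∉ Ioi (r / ε) from hw),
          indicator_of_notMem (show w ∉ {w : ℂ | r / ε < ‖w‖} from hw)]
    rw [h3]
    exact EK_integrable.indicator (measurableSet_lt measurable_const measurable_norm)
  rw [Energy_scale H a hε]
  have h4 : ∫ w, H (ε • w + a) * EK w ≤ ∫ w : ℂ, (A * EK w + B * (Ioi (r / ε)).indicator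
      (fun y : ℝ => 2 / (1 + y ^ 2) ^ 2) ‖w‖) := by
    refine integral_mono hi1 ((EK_integrable.const_mul A).add (hi2.const_mul B)) fun w => ?_
    simp only
    by_cases hw : r / ε < ‖w‖
    · rw [indicator_of_mem (show ‖w‖ ∈ Ioi (r / ε) from hw)]
      have := mul_le_mul_of_nonneg_right (h2 (ε • w + a)) (EK_nonneg w)
      have e : EK w = 2 / (1 + ‖w‖ ^ 2) ^ 2 := rfl
      rw [← e]
      linarith
    · rw [indicator_of_notMem (show ‖w‖ ∉ Ioi (r / ε) from hw), mul_zero, add_zero]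
      refine mul_le_mul_of_nonneg_right (h1 _ ?_) (EK_nonneg w)
      rw [add_sub_cancel_right, norm_smul, Real.norm_of_nonneg hε.le]
      push Not at hw
      rwa [le_div_iff₀ hε, mul_comm] at hw
  refine h4.trans ?_
  rw [integral_add (EK_integrable.const_mul A) (hi2.const_mul B), integral_const_mul,
    integral_const_mul, EK_mass, EK_tail _ (by positivity)]
  have h5 : 2 * Real.pi / (1 + (r / ε) ^ 2) ≤ 2 * Real.pi * (ε ^ 2 / r ^ 2) := by
    have hpi := Real.pi_pos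
    rw [div_le_iff₀ (by positivity)]
    have : 2 * Real.pi * (ε ^ 2 / r ^ 2) * (1 + (r / ε) ^ 2) =
        2 * Real.pi + 2 * Real.pi * (ε ^ 2 / r ^ 2) := by
      field_simp
      ring
    rw [this]
    have : 0 ≤ 2 * Real.pi * (ε ^ 2 / r ^ 2) := by positivity
    linarith
  have h6 := mul_le_mul_of_nonneg_left h5 hB
  linarith

theorem Energy_limit {F : ℂ → ℝ} (hF : Continuous F) (hc : HasCompactSupport F) (a : ℂ) :
    Tendsto (fun ε : ℝ => ∫ v, F v * EM a ε v) (𝓝[>] 0) (𝓝 (F a * (2 * Real.pi))) := by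
  obtain ⟨C, hC⟩ := hF.bounded_above_of_compact_support hc
  have h1 : ∀ᶠ ε : ℝ in 𝓝[>] 0, ∫ w, F (ε • w + a) * EK w = ∫ v, F v * EM a ε v := by
    filter_upwards [self_mem_nhdsWithin] with ε hε using (Energy_scale F a hε).symm
  refine Tendsto.congr' h1 ?_
  have h2 : F a * (2 * Real.pi) = ∫ w, F a * EK w := by
    rw [integral_const_mul, EK_mass]
  rw [h2]
  refine tendsto_integral_filter_of_dominated_convergence (fun w => C * EK w) ?_ ?_
    (EK_integrable.const_mul C) ?_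
  · refine Eventually.of_forall fun ε => ?_
    have : Continuous fun w : ℂ => F (ε • w + a) * EK w :=
      (hF.comp (by fun_prop)).mul EK_cont
    exact this.aestronglyMeasurable
  · refine Eventually.of_forall fun ε => Eventually.of_forall fun w => ?_
    rw [norm_mul, Real.norm_of_nonneg (EK_nonneg w)]
    exact mul_le_mul_of_nonneg_right (hC _) (EK_nonneg w)
  · refine Eventually.of_forall fun w => ?_
    have h3 : Continuous fun ε : ℝ => F (ε • w + a) * EK w :=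
      (hF.comp (by fun_prop)).mul continuous_const
    have h4 := h3.tendsto 0
    simp only [zero_smul, zero_add] at h4
    exact h4.mono_left nhdsWithin_le_nhds

theorem Energy_EL_diff (a : ℂ) {ε ε' : ℝ} (hε' : 0 < ε') (hlt : ε' < ε) (v : ℂ) :
    0 ≤ EL a ε v - EL a ε' v ∧ (v ≠ a → EL a ε v - EL a ε' v ≤ ε ^ 2 / (2 * ‖v - a‖ ^ 2)) := by
  have hε : 0 < ε := hε'.trans hlt
  have p1 := EDn_pos a hε v
  have p2 := EDn_pos a hε' v
  have e1 : EL a ε v - EL a ε' v = 1 / 2 * Real.log (EDn a ε v / EDn a ε' v) := by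
    unfold EL
    rw [Real.log_div p1.ne' p2.ne']
    ring
  have e2 : EDn a ε' v ≤ EDn a ε v := by
    unfold EDn
    have : ε' ^ 2 ≤ ε ^ 2 := by gcongr
    linarith
  rw [e1]
  constructor
  · have : 0 ≤ Real.log (EDn a ε v / EDn a ε' v) := Real.log_nonneg (by rwa [one_le_div p2])
    positivity
  · intro hv
    have hs : 0 < ‖v - a‖ ^ 2 := pow_pos (norm_pos_iff.2 (sub_ne_zero.2 hv)) 2
    have h1 : Real.log (EDn a ε v / EDn a ε' v) ≤ EDn a ε v / EDn a ε' v - 1 :=
      Real.log_le_sub_one_of_pos (by positivity)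
    have h2 : EDn a ε v / EDn a ε' v - 1 ≤ ε ^ 2 / ‖v - a‖ ^ 2 := by
      have e3 : EDn a ε v / EDn a ε' v - 1 = (EDn a ε v - EDn a ε' v) / EDn a ε' v := by
        field_simp
      rw [e3]
      rw [div_le_div_iff₀ p2 hs]
      rw [EDn_eq, EDn_eq]
      nlinarith [sq_nonneg ε', sq_nonneg ε, mul_nonneg (sq_nonneg ε) (sq_nonneg ε'),
        mul_nonneg (sq_nonneg ε') hs.le]
    have e4 : ε ^ 2 / (2 * ‖v - a‖ ^ 2) = 1 / 2 * (ε ^ 2 / ‖v - a‖ ^ 2) := by
      field_simp
    rw [e4]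
    linarith

/-- quantitative sub-mean value property -/
theorem Energy_submean {F K : ℂ → ℝ} (hF : ContDiff ℝ 2 F) (hc : HasCompactSupport F)
    (hK : Continuous K) (hKc : HasCompactSupport K) (hle : ∀ v, K v ≤ lap F v) (a : ℂ)
    {ε δ : ℝ} (hε : 0 < ε) (hδ : ∀ v, K v ≠ 0 → ε ^ 2 ≤ 2 * δ * ‖v - a‖ ^ 2) :
    F a * (2 * Real.pi) ≤ (∫ v, F v * EM a ε v) + δ * ∫ v, |K v| := by
  refine le_of_tendsto (Energy_limit hF.continuous hc a) ?_
  filter_upwards [Ioo_mem_nhdsGT hε] with ε' hε'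
  obtain ⟨h1, h2⟩ := hε'
  have key : ∀ e : ℝ, 0 < e → ∫ v, F v * EM a e v = ∫ v, EL a e v * lap F v := by
    intro e he
    rw [Energy_parts (EL_contDiff a he) hF hc]
    congr 1
    funext v
    rw [EL_lap a he]
  have i1 : ∀ e : ℝ, 0 < e → Integrable fun v => EL a e v * lap F v := fun e he =>
    Energy_int ((EL_contDiff a he).continuous.mul (Energy_lap_cont hF)) (Energy_lap_hcs hc).mul_left
  have h3 : (∫ v, F v * EM a ε' v) - (∫ v, F v * EM a ε v) =
      ∫ v, -((EL a ε v - EL a ε' v) * lap F v) := by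
    rw [key ε' h1, key ε hε, ← integral_sub (i1 ε' h1) (i1 ε hε)]
    congr 1
    funext v
    ring
  have i2 : Integrable fun v => -((EL a ε v - EL a ε' v) * lap F v) := by
    refine Energy_int ?_ ?_
    · exact (((EL_contDiff a hε).continuous.sub (EL_contDiff a h1).continuous).mul
        (Energy_lap_cont hF)).neg
    · exact ((Energy_lap_hcs hc).mul_left).neg
  have i3 : Integrable fun v => δ * |K v| := by
    refine Energy_int (continuous_const.mul hK.abs) ?_
    exact HasCompactSupport.mul_left (hKc.comp_left (g := fun x : ℝ => |x|) abs_zero)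
  have h4 : ∫ v, -((EL a ε v - EL a ε' v) * lap F v) ≤ ∫ v, δ * |K v| := by
    refine integral_mono i2 i3 fun v => ?_
    simp only
    obtain ⟨d0, d1⟩ := Energy_EL_diff a h1 h2 v
    have e1 : -((EL a ε v - EL a ε' v) * lap F v) ≤ (EL a ε v - EL a ε' v) * |K v| := by
      have := mul_le_mul_of_nonneg_left (hle v) d0
      have h5 := mul_le_mul_of_nonneg_left (neg_abs_le (K v)) d0
      linarith
    refine e1.trans ?_
    by_cases hKv : K v = 0
    · simp [hKv]
    · have h6 := hδ v hKv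
      have hva : v ≠ a := by
        rintro rfl
        simp at h6
        nlinarith [pow_pos hε 2]
      have hs : 0 < ‖v - a‖ ^ 2 := pow_pos (norm_pos_iff.2 (sub_ne_zero.2 hva)) 2
      have h7 : ε ^ 2 / (2 * ‖v - a‖ ^ 2) ≤ δ := by
        rw [div_le_iff₀ (by positivity)]
        linarith
      exact mul_le_mul_of_nonneg_right ((d1 hva).trans h7) (abs_nonneg _)
  rw [integral_const_mul] at h4
  linarith

end H6ea4aa
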