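import Pool.Agent.H.MP_6ea4aa_an.EnergyA

/-!
# MP_6ea4aa: the smoothed Green function
-/

set_option autoImplicit false

open Complex Set Filter Topology Metric MeasureTheory
open scoped ContDiff

namespace H6ea4aa

/-- a smooth convex function, constant on `t ≤ τ / 2`, equal to `t` for `t ≥ τ` -/
theorem Energy_psi (τ : ℝ) (hτ : 0 < τ) : ∃ ψ ψ' ψ'' : ℝ → ℝ,
    (∀ t, HasDerivAt ψ (ψ' t) t) ∧ (∀ t, HasDerivAt ψ' (ψ'' t) t) ∧ Continuous ψ'' ∧
    (∀ t, 0 ≤ ψ'' t) ∧ (∀ t ≤ τ / 2, ψ t = ψ 0) ∧ (∀ t, τ ≤ t → ψ t = t) ∧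
    (∀ t, 0 ≤ t → t ≤ ψ t ∧ ψ t ≤ t + τ) := by
  let f : ContDiffBump (3 * τ / 4 : ℝ) := ⟨τ / 8, τ / 4, by positivity, by linarith⟩
  set β : ℝ → ℝ := f.normed volume with hβ
  have hβc : Continuous β := f.continuous_normed
  have hβ0 : ∀ t, 0 ≤ β t := fun t => f.nonneg_normed t
  have hβs : Function.support β ⊆ Ioo (τ / 2) τ := by
    rw [hβ, f.support_normed_eq, Real.ball_eq_Ioo]
    refine Ioo_subset_Ioo ?_ ?_
    · show τ / 2 ≤ 3 * τ / 4 - τ / 4
      linarith
    · show 3 * τ / 4 + τ / 4 ≤ τ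
      linarith
  have hβl : ∀ t ≤ τ / 2, β t = 0 := by
    intro t ht
    by_contra h
    have := hβs h
    linarith [this.1]
  have hβr : ∀ t, τ ≤ t → β t = 0 := by
    intro t ht
    by_contra h
    have := hβs h
    linarith [this.2]
  have hβi : ∫ t, β t = 1 := f.integral_normed
  set σ : ℝ → ℝ := fun t => ∫ s in (0 : ℝ)..t, β s with hσ
  have hσd : ∀ t, HasDerivAt σ (β t) t := fun t =>
    intervalIntegral.integral_hasDerivAt_right (hβc.intervalIntegrable _ _)
      (hβc.stronglyMeasurableAtFilter _ _) hβc.continuousAt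
  have hσc : Continuous σ := continuous_iff_continuousAt.2 fun t => (hσd t).continuousAt
  have hσl : ∀ t ≤ τ / 2, σ t = 0 := by
    intro t ht
    refine (intervalIntegral.integral_congr (g := fun _ => (0 : ℝ)) ?_).trans (by simp)
    intro s hs
    refine hβl s ?_
    rcases le_total 0 t with h | h
    · rw [uIcc_of_le h] at hs
      linarith [hs.2]
    · rw [uIcc_of_ge h] at hs
      linarith [hs.2]
  have hσr : ∀ t, τ ≤ t → σ t = 1 := by
    intro t ht
    rw [← hβi]
    refine intervalIntegral.integral_eq_integral_of_support_subset ?_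
    intro s hs
    have := hβs hs
    exact ⟨by linarith [this.1], by linarith [this.2]⟩
  have hσm : Monotone σ := by
    refine monotone_of_deriv_nonneg (fun t => (hσd t).differentiableAt) fun t => ?_
    rw [(hσd t).deriv]
    exact hβ0 t
  have hσ0 : ∀ t, 0 ≤ σ t := by
    intro t
    have := hσm (min_le_left t (τ / 2))
    rwa [hσl _ (min_le_right _ _)] at this
  have hσ1 : ∀ t, σ t ≤ 1 := by
    intro t
    have := hσm (le_max_left t τ)
    rwa [hσr _ (le_max_right _ _)] at this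
  set ψ : ℝ → ℝ := fun t => τ + ∫ s in τ..t, σ s with hψ
  have hψd : ∀ t, HasDerivAt ψ (σ t) t := fun t =>
    (intervalIntegral.integral_hasDerivAt_right (hσc.intervalIntegrable _ _)
      (hσc.stronglyMeasurableAtFilter _ _) hσc.continuousAt).const_add τ
  have hψr : ∀ t, τ ≤ t → ψ t = t := by
    intro t ht
    have h1 : ∫ s in τ..t, σ s = ∫ s in τ..t, (1 : ℝ) := by
      refine intervalIntegral.integral_congr fun s hs => ?_
      rw [uIcc_of_le ht] at hs
      exact hσr s hs.1
    show τ + ∫ s in τ..t, σ s = t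
    rw [h1]
    simp
  have hψl : ∀ t ≤ τ / 2, ψ t = ψ 0 := by
    intro t ht
    have h1 : ∫ s in (0 : ℝ)..t, σ s = 0 := by
      refine (intervalIntegral.integral_congr (g := fun _ => (0 : ℝ)) ?_).trans (by simp)
      intro s hs
      refine hσl s ?_
      rcases le_total 0 t with h | h
      · rw [uIcc_of_le h] at hs
        linarith [hs.2]
      · rw [uIcc_of_ge h] at hs
        linarith [hs.2]
    have h2 : (∫ s in τ..(0 : ℝ), σ s) + ∫ s in (0 : ℝ)..t, σ s = ∫ s in τ..t, σ s :=
      intervalIntegral.integral_add_adjacent_intervals (hσc.intervalIntegrable _ _)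
        (hσc.intervalIntegrable _ _)
    show τ + ∫ s in τ..t, σ s = τ + ∫ s in τ..(0 : ℝ), σ s
    rw [← h2, h1, add_zero]
  have hψm : Monotone ψ := by
    refine monotone_of_deriv_nonneg (fun t => (hψd t).differentiableAt) fun t => ?_
    rw [(hψd t).deriv]
    exact hσ0 t
  have hψa : Antitone (fun t => ψ t - t) := by
    refine antitone_of_deriv_nonpos
      (fun t => ((hψd t).sub (hasDerivAt_id t)).differentiableAt) fun t => ?_
    have : HasDerivAt (fun t => ψ t - t) (σ t - 1) t := (hψd t).sub (hasDerivAt_id t)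
    rw [this.deriv]
    linarith [hσ1 t]
  refine ⟨ψ, σ, β, hψd, hσd, hβc, hβ0, hψl, hψr, fun t ht => ?_⟩
  rcases le_total τ t with h | h
  · rw [hψr t h]
    exact ⟨le_rfl, by linarith⟩
  · have h1 := hψm h
    have h2 := hψa h
    simp only [hψr τ le_rfl] at h1 h2
    constructor <;> linarith

theorem Energy_harm_lap {g : ℂ → ℝ} {z : ℂ} (h : LocRe g z) : lap g z = 0 := by
  have h1 := Util_harmonicAt h
  have h2 : Laplacian.laplacian g z = 0 := h1.2.self_of_nhds
  rw [InnerProductSpace.laplacian_eq_iteratedFDeriv_complexPlane] at h2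
  simp only [iteratedFDeriv_two_apply] at h2
  have h3 : DifferentiableAt ℝ (fderiv ℝ g) z :=
    (h1.1.fderiv_right (m := 1) (by norm_num)).differentiableAt (by norm_num)
  have h4 : dx (dx g) z = fderiv ℝ (fderiv ℝ g) z 1 1 := by
    show fderiv ℝ (fun w => fderiv ℝ g w 1) z 1 = _
    rw [fderiv_clm_apply h3 (differentiableAt_const _)]
    simp
  have h5 : dy (dy g) z = fderiv ℝ (fderiv ℝ g) z I I := by
    show fderiv ℝ (fun w => fderiv ℝ g w I) z I = _
    rw [fderiv_clm_apply h3 (differentiableAt_const _)]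
    simp
  unfold lap
  rw [h4, h5]
  simpa using h2

theorem Energy_chain {ψ : ℝ → ℝ} {g : ℂ → ℝ} {z : ℂ} {a : ℝ} (v : ℂ) (h : HasDerivAt ψ a (g z))
    (hg : DifferentiableAt ℝ g z) : fderiv ℝ (fun w => ψ (g w)) z v = a * fderiv ℝ g z v := by
  have h1 : HasFDerivAt (fun w => ψ (g w)) (a • fderiv ℝ g z) z := h.comp_hasFDerivAt z hg.hasFDerivAt
  rw [h1.fderiv]
  rfl

theorem Energy_G (g : ℂ → ℝ) (τ : ℝ) (hτ : 0 < τ) (hg : Continuous g) (h0 : ∀ z, 0 ≤ g z)
    (hre : ∀ z, 0 < g z → LocRe g z) : ∃ G : ℂ → ℝ, ContDiff ℝ 2 G ∧ (∀ z, 0 ≤ lap G z) ∧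
      (∀ z, g z ≤ G z ∧ G z ≤ g z + τ) ∧ (∀ z, τ ≤ g z → G z = g z) := by
  obtain ⟨ψ, σ, β, hψd, hσd, hβc, hβ0, hψl, hψr, hψb⟩ := Energy_psi τ hτ
  have hσ1 : ContDiff ℝ 1 σ := by
    rw [contDiff_one_iff_deriv]
    refine ⟨fun t => (hσd t).differentiableAt, ?_⟩
    have : deriv σ = β := funext fun t => (hσd t).deriv
    rw [this]
    exact hβc
  have hψ2 : ContDiff ℝ 2 ψ := by
    have h2 : (2 : WithTop ℕ∞) = 1 + 1 := by norm_num
    rw [h2, contDiff_succ_iff_deriv]
    refine ⟨fun t => (hψd t).differentiableAt, by simp, ?_⟩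
    have : deriv ψ = σ := funext fun t => (hψd t).deriv
    rw [this]
    exact hσ1
  have hloc : ∀ z, g z = 0 → (fun w => ψ (g w)) =ᶠ[𝓝 z] fun _ => ψ 0 := by
    intro z hz
    have : ∀ᶠ w in 𝓝 z, g w < τ / 2 :=
      hg.continuousAt.eventually_lt continuousAt_const (by rw [hz]; positivity)
    filter_upwards [this] with w hw using hψl _ hw.le
  refine ⟨fun z => ψ (g z), ?_, ?_, fun z => hψb _ (h0 z), fun z hz => hψr _ hz⟩
  · rw [contDiff_iff_contDiffAt]
    intro z
    rcases (h0 z).eq_or_lt with h | h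
    · exact contDiffAt_const.congr_of_eventuallyEq (hloc z h.symm)
    · exact hψ2.contDiffAt.comp z (Util_harmonicAt (hre z h)).1
  · intro z
    rcases (h0 z).eq_or_lt with h | h
    · rw [Energy_lap_congr (hloc z h.symm), Energy_lap_const]
    · have hU : ∀ᶠ w in 𝓝 z, 0 < g w := hg.continuousAt.eventually (lt_mem_nhds h)
      have hgd : ∀ w, 0 < g w → DifferentiableAt ℝ g w := fun w hw =>
        (Util_harmonicAt (hre w hw)).1.differentiableAt (by norm_num)
      have h3 : DifferentiableAt ℝ (fderiv ℝ g) z :=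
        ((Util_harmonicAt (hre z h)).1.fderiv_right (m := 1) (by norm_num)).differentiableAt
          (by norm_num)
      have key : ∀ v : ℂ, fderiv ℝ (fun w => fderiv ℝ (fun w => ψ (g w)) w v) z v =
          β (g z) * fderiv ℝ g z v ^ 2 +
            σ (g z) * fderiv ℝ (fun w => fderiv ℝ g w v) z v := by
        intro v
        have e1 : (fun w => fderiv ℝ (fun w => ψ (g w)) w v) =ᶠ[𝓝 z]
            fun w => σ (g w) * fderiv ℝ g w v := by
          filter_upwards [hU] with w hw using Energy_chain v (hψd _) (hgd w hw)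
        have d1 : DifferentiableAt ℝ (fun w => σ (g w)) z :=
          ((hσd (g z)).differentiableAt).comp z (hgd z h)
        have d2 : DifferentiableAt ℝ (fun w => fderiv ℝ g w v) z :=
          h3.clm_apply (differentiableAt_const _)
        rw [e1.fderiv_eq, fderiv_fun_mul d1 d2]
        simp only [_root_.add_apply, _root_.smul_apply, smul_eq_mul]
        rw [Energy_chain v (hσd _) (hgd z h)]
        ring
      have hl := Energy_harm_lap (hre z h)
      have k1 := key 1
      have k2 := key I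
      unfold lap dx dy at hl ⊢
      rw [k1, k2]
      have e : β (g z) * fderiv ℝ g z 1 ^ 2 + σ (g z) * fderiv ℝ (fun w => fderiv ℝ g w 1) z 1 +
          (β (g z) * fderiv ℝ g z I ^ 2 + σ (g z) * fderiv ℝ (fun w => fderiv ℝ g w I) z I) =
          β (g z) * (fderiv ℝ g z 1 ^ 2 + fderiv ℝ g z I ^ 2) + σ (g z) *
          (fderiv ℝ (fun w => fderiv ℝ g w 1) z 1 + fderiv ℝ (fun w => fderiv ℝ g w I) z I) := by
        ring
      rw [e, hl, mul_zero, add_zero]
      exact mul_nonneg (hβ0 _) (by positivity)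

end H6ea4aa
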