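import Pool.Agent.H.MP_6ea4aa_an.EnergyB
import Pool.Agent.H.MP_6ea4aa_an.EnergyG

/-!
# MP_6ea4aa: the energy inequality, algebraic part
-/

set_option autoImplicit false

open Complex Set Filter Topology Metric MeasureTheory
open scoped ContDiff

namespace H6ea4aa

theorem Energy_isub {f h : ℂ → ℝ} (hf : Integrable f) (hh : Integrable h) :
    Integrable fun z => f z - h z := hf.sub hh

theorem Energy_iadd {f h : ℂ → ℝ} (hf : Integrable f) (hh : Integrable h) :
    Integrable fun z => f z + h z := hf.add hh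

theorem Energy_scale_fderiv {f : ℂ → ℝ} (k : ℝ) {z : ℂ} (hf : DifferentiableAt ℝ f (k • z)) (u : ℂ) :
    fderiv ℝ (fun v => f (k • v)) z u = k * fderiv ℝ f (k • z) u := by
  have h1 : HasFDerivAt (fun v : ℂ => k • v) (k • ContinuousLinearMap.id ℝ ℂ) z :=
    (hasFDerivAt_id z).const_smul k
  have h2 : HasFDerivAt (fun v => f (k • v)) ((fderiv ℝ f (k • z)).comp
      (k • ContinuousLinearMap.id ℝ ℂ)) z := HasFDerivAt.comp z hf.hasFDerivAt h1
  rw [h2.fderiv]
  simp

theorem Energy_theta : ∃ C₁ : ℝ, 1 ≤ C₁ ∧ ∀ ρ : ℝ, 0 < ρ → ∃ θ : ℂ → ℝ, ContDiff ℝ 2 θ ∧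
    HasCompactSupport θ ∧ (∀ v, 0 ≤ θ v ∧ θ v ≤ 1) ∧ (∀ v, ‖v‖ ≤ ρ → θ v = 1) ∧
    (∀ v, 3 * ρ / 2 ≤ ‖v‖ → θ v = 0) ∧
    (∀ v, |dx θ v| ≤ C₁ / ρ ∧ |dy θ v| ≤ C₁ / ρ ∧ |lap θ v| ≤ C₁ / ρ ^ 2) ∧
    (∀ v, (‖v‖ < ρ ∨ 3 * ρ / 2 < ‖v‖) → dx θ v = 0 ∧ dy θ v = 0 ∧ lap θ v = 0) := by
  let χ : ContDiffBump (0 : ℂ) := ⟨1, 3 / 2, by norm_num, by norm_num⟩
  have hχ : ContDiff ℝ 2 (χ : ℂ → ℝ) := χ.contDiff
  have hχc : HasCompactSupport (χ : ℂ → ℝ) := χ.hasCompactSupport
  obtain ⟨B1, hB1⟩ := (Energy_dx_cont hχ).bounded_above_of_compact_support (Energy_dx_hcs hχc)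
  obtain ⟨B2, hB2⟩ := (Energy_dy_cont hχ).bounded_above_of_compact_support (Energy_dy_hcs hχc)
  obtain ⟨B3, hB3⟩ := (Energy_lap_cont hχ).bounded_above_of_compact_support (Energy_lap_hcs hχc)
  refine ⟨max 1 (max B1 (max B2 B3)), le_max_left _ _, fun ρ hρ => ?_⟩
  set C₁ := max 1 (max B1 (max B2 B3)) with hC₁
  have c1 : ∀ v, |dx χ v| ≤ C₁ := fun v => (hB1 v).trans
    ((le_max_left _ _).trans (le_max_right _ _))
  have c2 : ∀ v, |dy χ v| ≤ C₁ := fun v => (hB2 v).trans
    ((le_max_left _ _).trans ((le_max_right _ _).trans (le_max_right _ _)))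
  have c3 : ∀ v, |lap χ v| ≤ C₁ := fun v => (hB3 v).trans
    ((le_max_right _ _).trans ((le_max_right _ _).trans (le_max_right _ _)))
  have hθ : ContDiff ℝ 2 (fun v : ℂ => χ (ρ⁻¹ • v)) := hχ.comp (contDiff_const_smul _)
  have hn : ∀ v : ℂ, ‖ρ⁻¹ • v‖ = ‖v‖ / ρ := by
    intro v
    rw [norm_smul, Real.norm_of_nonneg (inv_nonneg.2 hρ.le)]
    ring
  have h1 : ∀ v : ℂ, ‖v‖ ≤ ρ → χ (ρ⁻¹ • v) = 1 := by
    intro v hv
    refine χ.one_of_mem_closedBall ?_
    rw [mem_closedBall_zero_iff, hn]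
    show ‖v‖ / ρ ≤ 1
    rwa [div_le_one hρ]
  have h0 : ∀ v : ℂ, 3 * ρ / 2 ≤ ‖v‖ → χ (ρ⁻¹ • v) = 0 := by
    intro v hv
    refine χ.zero_of_le_dist ?_
    rw [dist_zero_right, hn]
    show 3 / 2 ≤ ‖v‖ / ρ
    rw [le_div_iff₀ hρ]
    linarith
  have hdx : dx (fun v : ℂ => χ (ρ⁻¹ • v)) = fun v => ρ⁻¹ * dx χ (ρ⁻¹ • v) := by
    funext v
    exact Energy_scale_fderiv ρ⁻¹ (Energy_diff hχ _) 1
  have hdy : dy (fun v : ℂ => χ (ρ⁻¹ • v)) = fun v => ρ⁻¹ * dy χ (ρ⁻¹ • v) := by
    funext v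
    exact Energy_scale_fderiv ρ⁻¹ (Energy_diff hχ _) I
  have hlap : ∀ v, lap (fun v : ℂ => χ (ρ⁻¹ • v)) v = ρ⁻¹ ^ 2 * lap χ (ρ⁻¹ • v) := by
    intro v
    unfold lap
    have d1 : DifferentiableAt ℝ (fun v => dx χ (ρ⁻¹ • v)) v :=
      (Energy_diff1 (Energy_dx_contDiff hχ) (ρ⁻¹ • v)).comp v
        ((contDiff_const_smul (n := 1) ρ⁻¹).differentiable (by norm_num) v)
    have d2 : DifferentiableAt ℝ (fun v => dy χ (ρ⁻¹ • v)) v :=
      (Energy_diff1 (Energy_dy_contDiff hχ) (ρ⁻¹ • v)).comp v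
        ((contDiff_const_smul (n := 1) ρ⁻¹).differentiable (by norm_num) v)
    rw [hdx, hdy, Energy_dx_smul _ d1, Energy_dy_smul _ d2]
    have e1 : dx (fun v => dx χ (ρ⁻¹ • v)) v = ρ⁻¹ * dx (dx χ) (ρ⁻¹ • v) :=
      Energy_scale_fderiv ρ⁻¹ (Energy_diff1 (Energy_dx_contDiff hχ) _) 1
    have e2 : dy (fun v => dy χ (ρ⁻¹ • v)) v = ρ⁻¹ * dy (dy χ) (ρ⁻¹ • v) :=
      Energy_scale_fderiv ρ⁻¹ (Energy_diff1 (Energy_dy_contDiff hχ) _) I
    rw [e1, e2]
    ring
  have hz : ∀ v : ℂ, 3 * ρ / 2 < ‖v‖ → (fun v : ℂ => χ (ρ⁻¹ • v)) =ᶠ[𝓝 v] fun _ => 0 := by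
    intro v hv
    filter_upwards [continuous_norm.continuousAt.eventually (lt_mem_nhds hv)] with w hw
      using h0 w (le_of_lt hw)
  have ho : ∀ v : ℂ, ‖v‖ < ρ → (fun v : ℂ => χ (ρ⁻¹ • v)) =ᶠ[𝓝 v] fun _ => 1 := by
    intro v hv
    filter_upwards [continuous_norm.continuousAt.eventually (gt_mem_nhds hv)] with w hw
      using h1 w (le_of_lt hw)
  refine ⟨fun v => χ (ρ⁻¹ • v), hθ, ?_, fun v => ⟨χ.nonneg, χ.le_one⟩, h1, h0, ?_, ?_⟩
  · refine HasCompactSupport.of_support_subset_isCompact (isCompact_closedBall (0 : ℂ) (3 * ρ / 2)) ?_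
    intro v hv
    rw [mem_closedBall_zero_iff]
    by_contra hcon
    push Not at hcon
    exact hv (h0 v hcon.le)
  · intro v
    have hρi : 0 < ρ⁻¹ := inv_pos.2 hρ
    rw [hlap, hdx, hdy]
    refine ⟨?_, ?_, ?_⟩
    · rw [abs_mul, abs_of_pos hρi, div_eq_inv_mul]
      exact mul_le_mul_of_nonneg_left (c1 _) hρi.le
    · rw [abs_mul, abs_of_pos hρi, div_eq_inv_mul]
      exact mul_le_mul_of_nonneg_left (c2 _) hρi.le
    · rw [abs_mul, abs_of_pos (by positivity), div_eq_inv_mul, inv_pow]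
      exact mul_le_mul_of_nonneg_left (c3 _) (by positivity)
  · rintro v (hv | hv)
    · rw [Energy_dx_congr (ho v hv), Energy_dy_congr (ho v hv), Energy_lap_congr (ho v hv),
        Energy_dx_const, Energy_dy_const, Energy_lap_const]
      exact ⟨rfl, rfl, rfl⟩
    · rw [Energy_dx_congr (hz v hv), Energy_dy_congr (hz v hv), Energy_lap_congr (hz v hv),
        Energy_dx_const, Energy_dy_const, Energy_lap_const]
      exact ⟨rfl, rfl, rfl⟩

/-- a crude bound of an integral over a disc -/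
theorem Energy_area {F : ℂ → ℝ} {B R : ℝ} (hR : 0 ≤ R) (h1 : ∀ v, |F v| ≤ B)
    (h0 : ∀ v, R < ‖v‖ → F v = 0) : |∫ v, F v| ≤ B * (Real.pi * R ^ 2) := by
  have e1 : ∫ v, F v = ∫ v in closedBall (0 : ℂ) R, F v := by
    refine (setIntegral_eq_integral_of_forall_compl_eq_zero fun v hv => ?_).symm
    refine h0 v ?_
    rw [mem_closedBall_zero_iff] at hv
    exact not_le.1 hv
  have e2 : (volume : Measure ℂ).real (closedBall 0 R) = Real.pi * R ^ 2 := by
    rw [Measure.real, Complex.volume_closedBall]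
    simp only [ENNReal.toReal_mul, ENNReal.toReal_pow, ENNReal.toReal_ofReal hR]
    rw [mul_comm]
    simp
  rw [e1, ← e2, ← Real.norm_eq_abs]
  refine norm_setIntegral_le_of_norm_le_const ?_ fun v _ => h1 v
  exact (isCompact_closedBall (0 : ℂ) R).measure_lt_top

theorem Energy_grad_sq {φ : ℂ → ℝ} (hφ : ContDiff ℝ 2 φ) (hc : HasCompactSupport φ) :
    - ∫ z, φ z * lap φ z = ∫ z, (dx φ z ^ 2 + dy φ z ^ 2) := by
  have h1 := Energy_int_lap (hφ.mul hφ) hc.mul_left
  have h2 : ∀ z, lap (fun z => φ z * φ z) z =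
      2 * (φ z * lap φ z) + 2 * (dx φ z ^ 2 + dy φ z ^ 2) := by
    intro z
    rw [Energy_lap_mul hφ hφ]
    ring
  have i1 : Integrable fun z => φ z * lap φ z :=
    Energy_int (hφ.continuous.mul (Energy_lap_cont hφ)) hc.mul_right
  have i2 : Integrable fun z => (dx φ z ^ 2 + dy φ z ^ 2) := by
    refine Energy_int (((Energy_dx_cont hφ).pow 2).add ((Energy_dy_cont hφ).pow 2)) ?_
    have e : (fun z => (dx φ z ^ 2 + dy φ z ^ 2)) =
        fun z => dx φ z * dx φ z + dy φ z * dy φ z := by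
      funext z
      ring
    rw [e]
    exact (Energy_dx_hcs hc).mul_left.add (Energy_dy_hcs hc).mul_left
  have h3 : ∫ z, (2 * (φ z * lap φ z) + 2 * (dx φ z ^ 2 + dy φ z ^ 2)) = 0 := by
    rw [← h1]
    congr 1
    funext z
    exact (h2 z).symm
  rw [integral_add (i1.const_mul 2) (i2.const_mul 2), integral_const_mul, integral_const_mul] at h3
  linarith

/-- first step: expansion of the Dirichlet form -/
theorem Energy_step1 {θ P G φ : ℂ → ℝ} {V t : ℝ} (hθ : ContDiff ℝ 2 θ) (hθc : HasCompactSupport θ)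
    (hθ0 : ∀ v, 0 ≤ θ v) (hP : ContDiff ℝ 2 P) (hG : ContDiff ℝ 2 G) (hφ : ContDiff ℝ 2 φ)
    (hφc : HasCompactSupport φ) (h1 : ∀ v, θ v * φ v = φ v) (h2 : ∀ v, θ v * lap φ v = lap φ v)
    (h3 : ∀ v, φ v * lap θ v = 0) :
    2 * t * ∫ z, G z * lap φ z ≤
      - (∫ z, θ z * ((P z - G z - V) * lap (fun z => P z - G z - V) z)) +
      1 / 2 * (∫ z, (P z - G z - V) ^ 2 * lap θ z) + 2 * t * (∫ z, φ z * lap P z) +
      t ^ 2 * ∫ z, (dx φ z ^ 2 + dy φ z ^ 2) := by
  set A : ℂ → ℝ := fun z => P z - G z - V with hA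
  have hAc : ContDiff ℝ 2 A := (hP.sub hG).sub contDiff_const
  set Q : ℂ → ℝ := fun z => A z - t * φ z with hQ
  have hQc : ContDiff ℝ 2 Q := hAc.sub (contDiff_const.mul hφ)
  have hD := Energy_dirichlet hθ hθc hQc
  have h0 : 0 ≤ ∫ z, θ z * (dx Q z ^ 2 + dy Q z ^ 2) :=
    integral_nonneg fun z => mul_nonneg (hθ0 z) (by positivity)
  have hlapQ : ∀ z, lap Q z = lap A z - t * lap φ z := by
    intro z
    rw [hQ, Energy_lap_sub hAc (contDiff_const.mul hφ), Energy_lap_smul t hφ]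
  have e1 : ∀ z, θ z * (Q z * lap Q z) = θ z * (A z * lap A z) - t * (A z * lap φ z) -
      t * (φ z * lap A z) + t ^ 2 * (φ z * lap φ z) := by
    intro z
    rw [hlapQ]
    have a1 := h1 z
    have a2 := h2 z
    simp only [hQ]
    calc θ z * ((A z - t * φ z) * (lap A z - t * lap φ z))
        = θ z * (A z * lap A z) - t * (A z * (θ z * lap φ z)) - t * ((θ z * φ z) * lap A z) +
          t ^ 2 * ((θ z * φ z) * lap φ z) := by ring
      _ = _ := by rw [a1, a2]
  have e2 : ∀ z, Q z ^ 2 * lap θ z = A z ^ 2 * lap θ z := by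
    intro z
    have a3 := h3 z
    simp only [hQ]
    calc (A z - t * φ z) ^ 2 * lap θ z = A z ^ 2 * lap θ z -
        2 * t * A z * (φ z * lap θ z) + t ^ 2 * φ z * (φ z * lap θ z) := by ring
      _ = _ := by rw [a3]; ring
  have cA := Energy_lap_cont hAc
  have cφ := Energy_lap_cont hφ
  have i1 : Integrable fun z => θ z * (A z * lap A z) :=
    Energy_int (hθ.continuous.mul (hAc.continuous.mul cA)) hθc.mul_right
  have i2 : Integrable fun z => A z * lap φ z :=
    Energy_int (hAc.continuous.mul cφ) (Energy_lap_hcs hφc).mul_left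
  have i3 : Integrable fun z => φ z * lap A z :=
    Energy_int (hφ.continuous.mul cA) hφc.mul_right
  have i4 : Integrable fun z => φ z * lap φ z :=
    Energy_int (hφ.continuous.mul cφ) hφc.mul_right
  have e3 : ∫ z, θ z * (Q z * lap Q z) = (∫ z, θ z * (A z * lap A z)) -
      t * (∫ z, A z * lap φ z) - t * (∫ z, φ z * lap A z) + t ^ 2 * ∫ z, φ z * lap φ z := by
    simp only [e1]
    have k1 := Energy_isub i1 (i2.const_mul t)
    have k2 := Energy_isub k1 (i3.const_mul t)
    rw [integral_add k2 (i4.const_mul (t ^ 2)),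
      integral_sub k1 (i3.const_mul t), integral_sub i1 (i2.const_mul t),
      integral_const_mul, integral_const_mul, integral_const_mul]
  have e4 : ∫ z, φ z * lap A z = ∫ z, A z * lap φ z := (Energy_parts hAc hφ hφc).symm
  have e5 := Energy_grad_sq hφ hφc
  have e6 : ∫ z, A z * lap φ z = (∫ z, φ z * lap P z) - ∫ z, G z * lap φ z := by
    have j1 : Integrable fun z => P z * lap φ z :=
      Energy_int (hP.continuous.mul cφ) (Energy_lap_hcs hφc).mul_left
    have j2 : Integrable fun z => G z * lap φ z :=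
      Energy_int (hG.continuous.mul cφ) (Energy_lap_hcs hφc).mul_left
    have j3 : Integrable fun z => V * lap φ z :=
      (Energy_int cφ (Energy_lap_hcs hφc)).const_mul V
    have : (fun z => A z * lap φ z) = fun z => P z * lap φ z - G z * lap φ z - V * lap φ z := by
      funext z
      simp only [hA]
      ring
    rw [this, integral_sub (Energy_isub j1 j2) j3, integral_sub j1 j2, integral_const_mul,
      Energy_int_lap hφ hφc, mul_zero, sub_zero, Energy_parts hP hφ hφc]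
  simp only [e2] at hD
  rw [e3] at hD
  rw [hD, e4, e6] at h0
  have e7 : ∫ z, φ z * lap φ z = - ∫ z, (dx φ z ^ 2 + dy φ z ^ 2) := by rw [← e5]; ring
  rw [e7] at h0
  linarith

/-- second step -/
theorem Energy_step2 {θ P G K : ℂ → ℝ} {V : ℝ} (hθ : ContDiff ℝ 2 θ) (hθc : HasCompactSupport θ)
    (hθ0 : ∀ v, 0 ≤ θ v) (hP : ContDiff ℝ 2 P) (hG : ContDiff ℝ 2 G) (hG0 : ∀ v, 0 ≤ G v)
    (hG1 : ∀ v, 0 ≤ lap G v) (hK : ∀ v, K v = lap (fun z => θ z * P z) v - θ v * lap P v) :
    - (∫ z, θ z * ((P z - G z - V) * lap (fun z => P z - G z - V) z)) ≤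
      - (∫ z, θ z * P z * lap P z) + 2 * (∫ z, θ z * G z * lap P z) + V * (∫ z, θ z * lap P z) -
      (∫ z, (P z - G z - V) * K z) + V * ∫ z, (P z - G z - V) * lap θ z := by
  have hθP : ContDiff ℝ 2 (fun z => θ z * P z) := hθ.mul hP
  have hθPc : HasCompactSupport (fun z => θ z * P z) := hθc.mul_right
  have cP := Energy_lap_cont hP
  have cG := Energy_lap_cont hG
  have cθ := Energy_lap_cont hθ
  have cθP := Energy_lap_cont hθP
  have kθ := Energy_lap_hcs hθc
  have kθP := Energy_lap_hcs hθPc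
  have hlapA : ∀ z, lap (fun z => P z - G z - V) z = lap P z - lap G z := by
    intro z
    rw [Energy_lap_sub (hP.sub hG) contDiff_const, Energy_lap_sub hP hG, Energy_lap_const]
    ring
  -- integrability
  have i1 : Integrable fun z => θ z * P z * lap P z :=
    Energy_int ((hθ.continuous.mul hP.continuous).mul cP) hθPc.mul_right
  have i2 : Integrable fun z => θ z * G z * lap P z :=
    Energy_int ((hθ.continuous.mul hG.continuous).mul cP) (hθc.mul_right).mul_right
  have i3 : Integrable fun z => θ z * lap P z :=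
    Energy_int (hθ.continuous.mul cP) hθc.mul_right
  have i4 : Integrable fun z => θ z * P z * lap G z :=
    Energy_int ((hθ.continuous.mul hP.continuous).mul cG) hθPc.mul_right
  have i5 : Integrable fun z => θ z * G z * lap G z :=
    Energy_int ((hθ.continuous.mul hG.continuous).mul cG) (hθc.mul_right).mul_right
  have i6 : Integrable fun z => θ z * lap G z :=
    Energy_int (hθ.continuous.mul cG) hθc.mul_right
  have i7 : Integrable fun z => G z * lap (fun z => θ z * P z) z :=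
    Energy_int (hG.continuous.mul cθP) kθP.mul_left
  have i8 : Integrable fun z => P z * lap (fun z => θ z * P z) z :=
    Energy_int (hP.continuous.mul cθP) kθP.mul_left
  have i9 : Integrable fun z => lap (fun z => θ z * P z) z := Energy_int cθP kθP
  have i10 : Integrable fun z => P z * lap θ z := Energy_int (hP.continuous.mul cθ) kθ.mul_left
  have i11 : Integrable fun z => G z * lap θ z := Energy_int (hG.continuous.mul cθ) kθ.mul_left
  have i12 : Integrable fun z => lap θ z := Energy_int cθ kθ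
  -- the expansion
  have e1 : ∫ z, θ z * ((P z - G z - V) * lap (fun z => P z - G z - V) z) =
      (∫ z, θ z * P z * lap P z) - (∫ z, θ z * G z * lap P z) - V * (∫ z, θ z * lap P z) -
      (∫ z, θ z * P z * lap G z) + (∫ z, θ z * G z * lap G z) + V * (∫ z, θ z * lap G z) := by
    have : (fun z => θ z * ((P z - G z - V) * lap (fun z => P z - G z - V) z)) =
        fun z => θ z * P z * lap P z - θ z * G z * lap P z - V * (θ z * lap P z) -
          θ z * P z * lap G z + θ z * G z * lap G z + V * (θ z * lap G z) := by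
      funext z
      rw [hlapA]
      ring
    have k1 := Energy_isub i1 i2
    have k2 := Energy_isub k1 (i3.const_mul V)
    have k3 := Energy_isub k2 i4
    have k4 := Energy_iadd k3 i5
    rw [this, integral_add k4 (i6.const_mul V), integral_add k3 i5, integral_sub k2 i4,
      integral_sub k1 (i3.const_mul V), integral_sub i1 i2, integral_const_mul,
      integral_const_mul]
  have e2 : ∫ z, θ z * P z * lap G z = ∫ z, G z * lap (fun z => θ z * P z) z :=
    (Energy_parts hG hθP hθPc).symm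
  have e3 : ∫ z, P z * lap (fun z => θ z * P z) z = ∫ z, θ z * P z * lap P z :=
    Energy_parts hP hθP hθPc
  have e4 : ∫ z, lap (fun z => θ z * P z) z = 0 := Energy_int_lap hθP hθPc
  have e5 : ∫ z, (P z - G z - V) * K z =
      (∫ z, P z * lap (fun z => θ z * P z) z) - (∫ z, θ z * P z * lap P z) -
      (∫ z, G z * lap (fun z => θ z * P z) z) + (∫ z, θ z * G z * lap P z) -
      V * (∫ z, lap (fun z => θ z * P z) z) + V * (∫ z, θ z * lap P z) := by
    have : (fun z => (P z - G z - V) * K z) =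
        fun z => P z * lap (fun z => θ z * P z) z - θ z * P z * lap P z -
          G z * lap (fun z => θ z * P z) z + θ z * G z * lap P z -
          V * lap (fun z => θ z * P z) z + V * (θ z * lap P z) := by
      funext z
      rw [hK]
      ring
    have k1 := Energy_isub i8 i1
    have k2 := Energy_isub k1 i7
    have k3 := Energy_iadd k2 i2
    have k4 := Energy_isub k3 (i9.const_mul V)
    rw [this, integral_add k4 (i3.const_mul V), integral_sub k3 (i9.const_mul V),
      integral_add k2 i2, integral_sub k1 i7, integral_sub i8 i1,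
      integral_const_mul, integral_const_mul]
  have e6 : ∫ z, θ z * lap G z = ∫ z, G z * lap θ z := (Energy_parts hG hθ hθc).symm
  have e7 : ∫ z, P z * lap θ z = ∫ z, θ z * lap P z := Energy_parts hP hθ hθc
  have e8 : ∫ z, lap θ z = 0 := Energy_int_lap hθ hθc
  have e9 : ∫ z, (P z - G z - V) * lap θ z =
      (∫ z, P z * lap θ z) - (∫ z, G z * lap θ z) - V * (∫ z, lap θ z) := by
    have : (fun z => (P z - G z - V) * lap θ z) =
        fun z => P z * lap θ z - G z * lap θ z - V * lap θ z := by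
      funext z
      ring
    rw [this, integral_sub (Energy_isub i10 i11) (i12.const_mul V), integral_sub i10 i11,
      integral_const_mul]
  have e10 : 0 ≤ ∫ z, θ z * G z * lap G z :=
    integral_nonneg fun z => mul_nonneg (mul_nonneg (hθ0 z) (hG0 z)) (hG1 z)
  rw [e3, e4] at e5
  rw [e7, e8] at e9
  rw [e1, e2, e6, e5, e9]
  linarith

end H6ea4aa
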