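import Pool.Agent.H.MP_6ea4aa_an.Defs

/-!
# MP_6ea4aa: the example `c = 0`, `b = 1/100`
-/

set_option autoImplicit false

open Complex Set Filter Topology Metric

namespace H6ea4aa

/-- full orbits `x (n+1) = x n ^ 2 - x (n-1) / 100` with all `‖x n‖ ∈ [9/10, 11/10]` -/
def FullOrb : Set (ℤ → ℂ) :=
  {x | (∀ n, x (n + 1) = x n ^ 2 - (1 / 100) * x (n - 1)) ∧
    ∀ n, 9 / 10 ≤ ‖x n‖ ∧ ‖x n‖ ≤ 11 / 10}

/-- the solenoid -/
def Lam : Set (ℂ × ℂ) := {p | ∃ x ∈ FullOrb, p = (x 0, x (-1))}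

end H6ea4aa
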