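import Pool.Agent.H.MP_6ea4aa_an.ExDefs

/-!
# MP_6ea4aa: `J = Λ` for `c = 0`, `b = 1/100`
-/

set_option autoImplicit false

open Complex Set Filter Topology Metric

namespace H6ea4aa

namespace ExJ

/-- the Henon map as a homeomorphism -/
noncomputable def e : (ℂ × ℂ) ≃ₜ (ℂ × ℂ) where
  toFun := hen 0 (1 / 100)
  invFun := henInv 0 (1 / 100)
  left_inv p := by
    simp only [hen, henInv]
    ext
    · simp
    · simp
      ring
  right_inv p := by
    simp only [hen, henInv]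
    ext
    · simp
      ring
    · simp
  continuous_toFun := by
    unfold hen
    fun_prop
  continuous_invFun := by
    unfold henInv
    fun_prop

theorem e_apply (p : ℂ × ℂ) : e p = hen 0 (1 / 100) p := rfl

theorem e_symm_apply (p : ℂ × ℂ) : e.symm p = henInv 0 (1 / 100) p := rfl

theorem iter_eq (n : ℕ) (p : ℂ × ℂ) : (hen 0 (1 / 100))^[n] p = (e ^ n) p := by
  induction n with
  | zero => simp
  | succ n ih =>
    rw [Function.iterate_succ_apply', ih, pow_succ']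
    rfl

theorem iter_inv_eq (n : ℕ) (p : ℂ × ℂ) : (henInv 0 (1 / 100))^[n] p = (e⁻¹ ^ n) p := by
  induction n with
  | zero => simp
  | succ n ih =>
    rw [Function.iterate_succ_apply', ih, pow_succ']
    rfl

theorem zpow_succ_apply (n : ℤ) (p : ℂ × ℂ) : (e ^ (n + 1)) p = e ((e ^ n) p) := by
  rw [add_comm, zpow_add, zpow_one]
  rfl

/-! ### forward estimates -/

theorem fwd_grow (p : ℂ × ℂ) (h2 : 2 ≤ ‖p.1‖) (h : ‖p.2‖ ≤ ‖p.1‖) :
    3 / 2 * ‖p.1‖ ≤ ‖(hen 0 (1 / 100) p).1‖ := by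
  simp only [hen]
  have h1 : ‖p.1 ^ 2 + 0 - 1 / 100 * p.2‖ ≥ ‖p.1 ^ 2‖ - ‖1 / 100 * p.2‖ := by
    rw [add_zero]
    exact norm_sub_norm_le _ _
  rw [norm_pow, norm_mul] at h1
  have h3 : ‖(1 / 100 : ℂ)‖ = 1 / 100 := by simp
  rw [h3] at h1
  nlinarith

theorem fwd_iter (p : ℂ × ℂ) (h2 : 2 ≤ ‖p.1‖) (h : ‖p.2‖ ≤ ‖p.1‖) (n : ℕ) :
    (3 / 2) ^ n * ‖p.1‖ ≤ ‖((hen 0 (1 / 100))^[n] p).1‖ ∧
      ‖((hen 0 (1 / 100))^[n] p).2‖ ≤ ‖((hen 0 (1 / 100))^[n] p).1‖ := by
  induction n with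
  | zero => simpa using h
  | succ n ih =>
    rw [Function.iterate_succ_apply']
    obtain ⟨i1, i2⟩ := ih
    set q := (hen 0 (1 / 100))^[n] p with hq
    have hpow : (1 : ℝ) ≤ (3 / 2) ^ n := one_le_pow₀ (by norm_num)
    have hq2 : 2 ≤ ‖q.1‖ := by nlinarith
    have h3 := fwd_grow q hq2 i2
    constructor
    · rw [pow_succ]
      nlinarith
    · have : (hen 0 (1 / 100) q).2 = q.1 := rfl
      rw [this]
      nlinarith

theorem fwd_not (p : ℂ × ℂ) (h2 : 2 ≤ ‖p.1‖) (h : ‖p.2‖ ≤ ‖p.1‖) : p ∉ Kp 0 (1 / 100) := by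
  rintro ⟨R, hR⟩
  obtain ⟨n, hn⟩ := pow_unbounded_of_one_lt R (show (1 : ℝ) < 3 / 2 by norm_num)
  have h3 := (fwd_iter p h2 h n).1
  have h4 := hR n
  have h5 := norm_fst_le ((hen 0 (1 / 100))^[n] p)
  have hpow : (1 : ℝ) ≤ (3 / 2) ^ n := one_le_pow₀ (by norm_num)
  nlinarith

theorem Kp_step (p : ℂ × ℂ) : e p ∈ Kp 0 (1 / 100) ↔ p ∈ Kp 0 (1 / 100) := by
  constructor
  · rintro ⟨R, hR⟩
    refine ⟨max R ‖p‖, fun n => ?_⟩
    cases n with
    | zero => simp
    | succ n =>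
      rw [Function.iterate_succ_apply]
      exact (hR n).trans (le_max_left _ _)
  · rintro ⟨R, hR⟩
    refine ⟨R, fun n => ?_⟩
    have := hR (n + 1)
    rwa [Function.iterate_succ_apply] at this

theorem Kp_zpow (p : ℂ × ℂ) (n : ℤ) : (e ^ n) p ∈ Kp 0 (1 / 100) ↔ p ∈ Kp 0 (1 / 100) := by
  induction n using Int.induction_on with
  | zero => simp
  | succ n ih => rw [zpow_succ_apply, Kp_step, ih]
  | pred n ih =>
    rw [← ih]
    have := zpow_succ_apply (-(n : ℤ) - 1) p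
    rw [sub_add_cancel] at this
    rw [this, Kp_step]

theorem Kp_bound (p : ℂ × ℂ) (hp : p ∈ Kp 0 (1 / 100)) (n : ℕ) :
    ‖((hen 0 (1 / 100))^[n] p).1‖ ≤ max 2 ‖p.2‖ ∧ ‖((hen 0 (1 / 100))^[n] p).2‖ ≤ max 2 ‖p.2‖ := by
  have key : ∀ q ∈ Kp 0 (1 / 100), ‖q.1‖ ≤ max 2 ‖q.2‖ := by
    intro q hq
    by_contra hcon
    push Not at hcon
    rw [max_lt_iff] at hcon
    exact fwd_not q hcon.1.le hcon.2.le hq
  have hmem : ∀ n : ℕ, (hen 0 (1 / 100))^[n] p ∈ Kp 0 (1 / 100) := by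
    intro n
    rw [iter_eq]
    have := Kp_zpow p n
    rw [zpow_natCast] at this
    exact this.2 hp
  have h2 : ∀ n : ℕ, ‖((hen 0 (1 / 100))^[n] p).2‖ ≤ max 2 ‖p.2‖ := by
    intro n
    induction n with
    | zero => simp
    | succ n ih =>
      rw [Function.iterate_succ_apply']
      have : (hen 0 (1 / 100) ((hen 0 (1 / 100))^[n] p)).2 = ((hen 0 (1 / 100))^[n] p).1 := rfl
      rw [this]
      exact (key _ (hmem n)).trans (max_le (le_max_left _ _) ih)
  exact ⟨(key _ (hmem n)).trans (max_le (le_max_left _ _) (h2 n)), h2 n⟩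

theorem Kp_closed : IsClosed (Kp 0 (1 / 100)) := by
  have : Kp 0 (1 / 100) = {p | ∀ n : ℕ, ‖(hen 0 (1 / 100))^[n] p‖ ≤ max 2 ‖p.2‖} := by
    ext p
    constructor
    · intro hp n
      obtain ⟨h1, h2⟩ := Kp_bound p hp n
      rw [Prod.norm_def]
      exact max_le h1 h2
    · intro hp
      exact ⟨_, hp⟩
  rw [this, ofPred_forall]
  refine isClosed_iInter fun n => ?_
  have hc : Continuous (fun p : ℂ × ℂ => (hen 0 (1 / 100))^[n] p) := by
    refine Continuous.iterate ?_ n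
    exact e.continuous
  exact isClosed_le (by fun_prop) (by fun_prop)

/-! ### backward estimates -/

theorem bwd_grow (p : ℂ × ℂ) (h2 : 2 ≤ ‖p.2‖) (h : ‖p.1‖ ≤ ‖p.2‖) :
    3 / 2 * ‖p.2‖ ≤ ‖(henInv 0 (1 / 100) p).2‖ := by
  simp only [henInv]
  have h0 : (p.2 ^ 2 + 0 - p.1) / (1 / 100 : ℂ) = 100 * (p.2 ^ 2 - p.1) := by
    field_simp
    ring
  rw [h0, norm_mul]
  have h1 : ‖p.2 ^ 2 - p.1‖ ≥ ‖p.2 ^ 2‖ - ‖p.1‖ := norm_sub_norm_le _ _
  rw [norm_pow] at h1
  have h3 : ‖(100 : ℂ)‖ = 100 := by simp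
  rw [h3]
  nlinarith

theorem bwd_iter (p : ℂ × ℂ) (h2 : 2 ≤ ‖p.2‖) (h : ‖p.1‖ ≤ ‖p.2‖) (n : ℕ) :
    (3 / 2) ^ n * ‖p.2‖ ≤ ‖((henInv 0 (1 / 100))^[n] p).2‖ ∧
      ‖((henInv 0 (1 / 100))^[n] p).1‖ ≤ ‖((henInv 0 (1 / 100))^[n] p).2‖ := by
  induction n with
  | zero => simpa using h
  | succ n ih =>
    rw [Function.iterate_succ_apply']
    obtain ⟨i1, i2⟩ := ih
    set q := (henInv 0 (1 / 100))^[n] p with hq
    have hpow : (1 : ℝ) ≤ (3 / 2) ^ n := one_le_pow₀ (by norm_num)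
    have hq2 : 2 ≤ ‖q.2‖ := by nlinarith
    have h3 := bwd_grow q hq2 i2
    constructor
    · rw [pow_succ]
      nlinarith
    · have : (henInv 0 (1 / 100) q).1 = q.2 := rfl
      rw [this]
      nlinarith

theorem bwd_not (p : ℂ × ℂ) (h2 : 2 ≤ ‖p.2‖) (h : ‖p.1‖ ≤ ‖p.2‖) : p ∉ Km 0 (1 / 100) := by
  rintro ⟨R, hR⟩
  obtain ⟨n, hn⟩ := pow_unbounded_of_one_lt R (show (1 : ℝ) < 3 / 2 by norm_num)
  have h3 := (bwd_iter p h2 h n).1
  have h4 := hR n
  have h5 := norm_snd_le ((henInv 0 (1 / 100))^[n] p)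
  have hpow : (1 : ℝ) ≤ (3 / 2) ^ n := one_le_pow₀ (by norm_num)
  nlinarith

theorem Km_step (p : ℂ × ℂ) : e.symm p ∈ Km 0 (1 / 100) ↔ p ∈ Km 0 (1 / 100) := by
  constructor
  · rintro ⟨R, hR⟩
    refine ⟨max R ‖p‖, fun n => ?_⟩
    cases n with
    | zero => simp
    | succ n =>
      rw [Function.iterate_succ_apply]
      exact (hR n).trans (le_max_left _ _)
  · rintro ⟨R, hR⟩
    refine ⟨R, fun n => ?_⟩
    have := hR (n + 1)
    rwa [Function.iterate_succ_apply] at this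

theorem Km_iter (p : ℂ × ℂ) (hp : p ∈ Km 0 (1 / 100)) (n : ℕ) :
    (henInv 0 (1 / 100))^[n] p ∈ Km 0 (1 / 100) := by
  induction n with
  | zero => simpa using hp
  | succ n ih =>
    rw [Function.iterate_succ_apply']
    exact (Km_step _).2 ih

theorem Km_bound (p : ℂ × ℂ) (hp : p ∈ Km 0 (1 / 100)) (n : ℕ) :
    ‖((henInv 0 (1 / 100))^[n] p).1‖ ≤ max 2 ‖p.1‖ ∧
      ‖((henInv 0 (1 / 100))^[n] p).2‖ ≤ max 2 ‖p.1‖ := by
  have key : ∀ q ∈ Km 0 (1 / 100), ‖q.2‖ ≤ max 2 ‖q.1‖ := by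
    intro q hq
    by_contra hcon
    push Not at hcon
    rw [max_lt_iff] at hcon
    exact bwd_not q hcon.1.le hcon.2.le hq
  have h2 : ∀ n : ℕ, ‖((henInv 0 (1 / 100))^[n] p).1‖ ≤ max 2 ‖p.1‖ := by
    intro n
    induction n with
    | zero => simp
    | succ n ih =>
      rw [Function.iterate_succ_apply']
      have : (henInv 0 (1 / 100) ((henInv 0 (1 / 100))^[n] p)).1 =
        ((henInv 0 (1 / 100))^[n] p).2 := rfl
      rw [this]
      exact (key _ (Km_iter p hp n)).trans (max_le (le_max_left _ _) ih)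
  exact ⟨h2 n, (key _ (Km_iter p hp n)).trans (max_le (le_max_left _ _) (h2 n))⟩

theorem Km_closed : IsClosed (Km 0 (1 / 100)) := by
  have : Km 0 (1 / 100) = {p | ∀ n : ℕ, ‖(henInv 0 (1 / 100))^[n] p‖ ≤ max 2 ‖p.1‖} := by
    ext p
    constructor
    · intro hp n
      obtain ⟨h1, h2⟩ := Km_bound p hp n
      rw [Prod.norm_def]
      exact max_le h1 h2
    · intro hp
      exact ⟨_, hp⟩
  rw [this, ofPred_forall]
  refine isClosed_iInter fun n => ?_
  have hc : Continuous (fun p : ℂ × ℂ => (henInv 0 (1 / 100))^[n] p) := by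
    refine Continuous.iterate ?_ n
    exact e.symm.continuous
  exact isClosed_le (by fun_prop) (by fun_prop)

/-! ### `J ⊆ Λ` -/

theorem JJ_sub : JJ 0 (1 / 100) ⊆ Lam := by
  intro p hp
  have hpK : p ∈ Kp 0 (1 / 100) := Kp_closed.frontier_subset hp.1
  have hmK : p ∈ Km 0 (1 / 100) := Km_closed.frontier_subset hp.2
  set x : ℤ → ℂ := fun n => ((e ^ n) p).1 with hx
  have h2nd : ∀ n : ℤ, ((e ^ n) p).2 = x (n - 1) := by
    intro n
    have h := zpow_succ_apply (n - 1) p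
    rw [sub_add_cancel] at h
    rw [h]
    rfl
  have hrec : ∀ n : ℤ, x (n + 1) = x n ^ 2 - (1 / 100) * x (n - 1) := by
    intro n
    have h := zpow_succ_apply n p
    rw [← h2nd n]
    simp only [hx]
    rw [h, e_apply]
    simp only [hen, add_zero]
  -- boundedness
  have hbdd : ∃ R : ℝ, ∀ n : ℤ, ‖x n‖ ≤ R := by
    obtain ⟨R1, h1⟩ := hpK
    obtain ⟨R2, h2⟩ := hmK
    refine ⟨max R1 R2, fun n => ?_⟩
    rcases Int.eq_nat_or_neg n with ⟨m, rfl | rfl⟩
    · have h3 := h1 m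
      rw [iter_eq] at h3
      simp only [hx]
      rw [zpow_natCast]
      exact ((norm_fst_le _).trans h3).trans (le_max_left _ _)
    · have h3 := h2 m
      rw [iter_inv_eq] at h3
      simp only [hx]
      rw [zpow_neg, zpow_natCast, ← inv_pow]
      exact ((norm_fst_le _).trans h3).trans (le_max_right _ _)
  obtain ⟨R, hR⟩ := hbdd
  have hba : BddAbove (range fun n : ℤ => ‖x n‖) := ⟨R, by rintro _ ⟨n, rfl⟩; exact hR n⟩
  set M := ⨆ n : ℤ, ‖x n‖ with hM
  have hle : ∀ n, ‖x n‖ ≤ M := fun n => le_ciSup hba n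
  have hM0 : 0 ≤ M := (norm_nonneg _).trans (hle 0)
  have hsq : ∀ n, ‖x n‖ ^ 2 ≤ 101 / 100 * M := by
    intro n
    have h1 : x n ^ 2 = x (n + 1) + (1 / 100) * x (n - 1) := by rw [hrec n]; ring
    have h2 : ‖x n‖ ^ 2 = ‖x (n + 1) + (1 / 100) * x (n - 1)‖ := by rw [← h1, norm_pow]
    rw [h2]
    refine (norm_add_le _ _).trans ?_
    rw [norm_mul]
    have h3 : ‖(1 / 100 : ℂ)‖ = 1 / 100 := by simp
    rw [h3]
    linarith [hle (n + 1), hle (n - 1)]
  have hM1 : M ≤ 101 / 100 := by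
    have h1 : M ≤ Real.sqrt (101 / 100 * M) := by
      refine ciSup_le fun n => ?_
      exact Real.le_sqrt_of_sq_le (hsq n)
    have h2 : M ^ 2 ≤ 101 / 100 * M := by
      have := pow_le_pow_left₀ hM0 h1 2
      rwa [Real.sq_sqrt (by positivity)] at this
    nlinarith
  refine ⟨x, ⟨hrec, fun n => ⟨?_, ?_⟩⟩, ?_⟩
  · -- lower bound
    by_contra hcon
    push Not at hcon
    set U : Set (ℂ × ℂ) := {q | ‖q.1‖ < 9 / 10 ∧ ‖q.2‖ < 11 / 10} with hU
    have hUo : IsOpen U := by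
      have a1 : IsOpen {q : ℂ × ℂ | ‖q.1‖ < 9 / 10} := isOpen_lt (by fun_prop) (by fun_prop)
      have a2 : IsOpen {q : ℂ × ℂ | ‖q.2‖ < 11 / 10} := isOpen_lt (by fun_prop) (by fun_prop)
      exact a1.inter a2
    have hUf : ∀ q ∈ U, ∀ m : ℕ, (hen 0 (1 / 100))^[m] q ∈ U := by
      intro q hq m
      induction m with
      | zero => simpa using hq
      | succ m ih =>
        rw [Function.iterate_succ_apply']
        set q' := (hen 0 (1 / 100))^[m] q
        obtain ⟨a1, a2⟩ := ih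
        constructor
        · simp only [hen, add_zero]
          refine (norm_sub_le _ _).trans_lt ?_
          rw [norm_mul, norm_pow]
          have h3 : ‖(1 / 100 : ℂ)‖ = 1 / 100 := by simp
          rw [h3]
          nlinarith [norm_nonneg q'.1, norm_nonneg q'.2]
        · simp only [hen]
          linarith
    have hUK : U ⊆ Kp 0 (1 / 100) := by
      intro q hq
      refine ⟨11 / 10, fun m => ?_⟩
      obtain ⟨a1, a2⟩ := hUf q hq m
      rw [Prod.norm_def]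
      exact max_le (by linarith) a2.le
    have hmemU : (e ^ n) p ∈ U := by
      refine ⟨hcon, ?_⟩
      rw [h2nd]
      linarith [hle (n - 1)]
    have hint : p ∈ interior (Kp 0 (1 / 100)) := by
      rw [mem_interior]
      refine ⟨(e ^ n) ⁻¹' U, ?_, hUo.preimage (e ^ n).continuous, hmemU⟩
      intro q hq
      exact (Kp_zpow q n).1 (hUK hq)
    exact hp.1.2 hint
  · linarith [hle n]
  · ext
    · simp [hx]
    · have := h2nd 0
      rw [zpow_zero] at this
      simpa using this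

/-! ### `Λ ⊆ J` -/

theorem orb_fwd {x : ℤ → ℂ} (hx : x ∈ FullOrb) (n : ℕ) :
    (hen 0 (1 / 100))^[n] (x 0, x (-1)) = (x n, x (n - 1)) := by
  induction n with
  | zero => simp
  | succ n ih =>
    rw [Function.iterate_succ_apply', ih]
    simp only [hen]
    ext
    · push_cast
      rw [hx.1 n]
      simp
    · push_cast
      rw [add_sub_cancel_right]

theorem orb_bwd {x : ℤ → ℂ} (hx : x ∈ FullOrb) (n : ℕ) :
    (henInv 0 (1 / 100))^[n] (x 0, x (-1)) = (x (-n), x (-n - 1)) := by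
  induction n with
  | zero => simp
  | succ n ih =>
    rw [Function.iterate_succ_apply', ih]
    simp only [henInv]
    have h1 := hx.1 (-n - 1)
    rw [sub_add_cancel] at h1
    ext
    · push_cast
      congr 1
      ring
    · push_cast
      rw [h1]
      have h3 : (-((n : ℤ) + 1) - 1) = -n - 1 - 1 := by ring
      rw [h3]
      field_simp
      ring

theorem mem_Kp {x : ℤ → ℂ} (hx : x ∈ FullOrb) : (x 0, x (-1)) ∈ Kp 0 (1 / 100) := by
  refine ⟨11 / 10, fun n => ?_⟩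
  rw [orb_fwd hx, Prod.norm_def]
  exact max_le (hx.2 _).2 (hx.2 _).2

theorem mem_Km {x : ℤ → ℂ} (hx : x ∈ FullOrb) : (x 0, x (-1)) ∈ Km 0 (1 / 100) := by
  refine ⟨11 / 10, fun n => ?_⟩
  rw [orb_bwd hx, Prod.norm_def]
  exact max_le (hx.2 _).2 (hx.2 _).2

theorem deriv_fwd {x : ℤ → ℂ} (hx : x ∈ FullOrb) (n : ℕ) :
    ∃ u v : ℂ, HasDerivAt (fun t : ℂ => ((hen 0 (1 / 100))^[n] (x 0 + t, x (-1))).1) u 0 ∧
      HasDerivAt (fun t : ℂ => ((hen 0 (1 / 100))^[n] (x 0 + t, x (-1))).2) v 0 ∧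
      (3 / 2) ^ n ≤ ‖u‖ ∧ ‖v‖ ≤ ‖u‖ := by
  induction n with
  | zero =>
    refine ⟨1, 0, ?_, ?_, by simp, by simp⟩
    · simpa using (hasDerivAt_id (0 : ℂ)).const_add (x 0)
    · simpa using hasDerivAt_const (0 : ℂ) (x (-1))
  | succ n ih =>
    obtain ⟨u, v, hu, hv, h1, h2⟩ := ih
    have h0 : ((hen 0 (1 / 100))^[n] (x 0 + 0, x (-1))).1 = x n := by
      rw [add_zero, orb_fwd hx]
    refine ⟨2 * x n * u - 1 / 100 * v, u, ?_, ?_, ?_⟩
    · have h3 := (hu.pow 2).sub (hv.const_mul (1 / 100))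
      rw [h0] at h3
      simp only [Function.iterate_succ_apply', hen, add_zero]
      exact h3.congr_deriv (by simp)
    · simp only [Function.iterate_succ_apply', hen]
      exact hu
    · have hb : 3 / 2 * ‖u‖ ≤ ‖2 * x n * u - 1 / 100 * v‖ := by
        have h4 : ‖2 * x n * u‖ - ‖(1 / 100 : ℂ) * v‖ ≤ ‖2 * x n * u - 1 / 100 * v‖ :=
          norm_sub_norm_le _ _
        rw [norm_mul, norm_mul, norm_mul] at h4
        have h3 : ‖(1 / 100 : ℂ)‖ = 1 / 100 := by simp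
        have h5 : ‖(2 : ℂ)‖ = 2 := by simp
        rw [h3, h5] at h4
        have h6 := (hx.2 n).1
        nlinarith [norm_nonneg u, norm_nonneg v, mul_nonneg (sub_nonneg.2 h6) (norm_nonneg u)]
      refine ⟨?_, ?_⟩
      · rw [pow_succ]
        nlinarith
      · nlinarith [norm_nonneg u]

theorem deriv_bwd {x : ℤ → ℂ} (hx : x ∈ FullOrb) (n : ℕ) :
    ∃ u v : ℂ, HasDerivAt (fun t : ℂ => ((henInv 0 (1 / 100))^[n] (x 0, x (-1) + t)).1) u 0 ∧
      HasDerivAt (fun t : ℂ => ((henInv 0 (1 / 100))^[n] (x 0, x (-1) + t)).2) v 0 ∧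
      (3 / 2) ^ n ≤ ‖v‖ ∧ ‖u‖ ≤ ‖v‖ := by
  induction n with
  | zero =>
    refine ⟨0, 1, ?_, ?_, by simp, by simp⟩
    · simpa using hasDerivAt_const (0 : ℂ) (x 0)
    · simpa using (hasDerivAt_id (0 : ℂ)).const_add (x (-1))
  | succ n ih =>
    obtain ⟨u, v, hu, hv, h1, h2⟩ := ih
    have h0 : ((henInv 0 (1 / 100))^[n] (x 0, x (-1) + 0)).2 = x (-n - 1) := by
      rw [add_zero, orb_bwd hx]
    refine ⟨v, (2 * x (-n - 1) * v - u) / (1 / 100), ?_, ?_, ?_⟩
    · simp only [Function.iterate_succ_apply', henInv]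
      exact hv
    · have h3 := ((hv.pow 2).sub hu).div_const (1 / 100)
      rw [h0] at h3
      simp only [Function.iterate_succ_apply', henInv, add_zero]
      exact h3.congr_deriv (by simp)
    · have hb : 3 / 2 * ‖v‖ ≤ ‖(2 * x (-n - 1) * v - u) / (1 / 100)‖ := by
        have h4 : ‖2 * x (-n - 1) * v‖ - ‖u‖ ≤ ‖2 * x (-n - 1) * v - u‖ :=
          norm_sub_norm_le _ _
        rw [norm_mul, norm_mul] at h4
        rw [norm_div]
        have h3 : ‖(1 / 100 : ℂ)‖ = 1 / 100 := by simp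
        have h5 : ‖(2 : ℂ)‖ = 2 := by simp
        rw [h5] at h4
        rw [h3]
        have h6 := (hx.2 (-n - 1)).1
        rw [le_div_iff₀ (by norm_num)]
        nlinarith [norm_nonneg u, norm_nonneg v, mul_nonneg (sub_nonneg.2 h6) (norm_nonneg v)]
      refine ⟨?_, ?_⟩
      · rw [pow_succ]
        nlinarith
      · nlinarith [norm_nonneg v]

theorem not_int_Kp {x : ℤ → ℂ} (hx : x ∈ FullOrb) :
    (x 0, x (-1)) ∉ interior (Kp 0 (1 / 100)) := by
  intro hint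
  rw [mem_interior_iff_mem_nhds, Metric.mem_nhds_iff] at hint
  obtain ⟨r, hr, hsub⟩ := hint
  obtain ⟨n, hn⟩ := pow_unbounded_of_one_lt (2 / (r / 2)) (show (1 : ℝ) < 3 / 2 by norm_num)
  obtain ⟨u, v, hu, hv, h1, h2⟩ := deriv_fwd hx n
  have hx1 : ‖x (-1)‖ ≤ 2 := by linarith [(hx.2 (-1)).2]
  have hdiff : Differentiable ℂ
      (fun t : ℂ => ((hen 0 (1 / 100))^[n] (x 0 + t, x (-1))).1) := by
    have hh : Differentiable ℂ (hen 0 (1 / 100)) := by
      unfold hen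
      fun_prop
    have : Differentiable ℂ ((hen 0 (1 / 100))^[n]) := hh.iterate n
    exact (this.comp (by fun_prop : Differentiable ℂ fun t : ℂ => (x 0 + t, x (-1)))).fst
  have hC := Complex.norm_deriv_le_of_forall_mem_sphere_norm_le (c := (0 : ℂ)) (R := r / 2)
    (C := 2) (f := fun t : ℂ => ((hen 0 (1 / 100))^[n] (x 0 + t, x (-1))).1) (by positivity)
    hdiff.diffContOnCl (by
      intro z hz
      have hz' : ‖z‖ = r / 2 := by simpa using hz
      have hmem : (x 0 + z, x (-1)) ∈ Kp 0 (1 / 100) := by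
        apply hsub
        rw [mem_ball, Prod.dist_eq]
        simp only [dist_self]
        refine max_lt ?_ hr
        rw [dist_eq_norm]
        simp only [add_sub_cancel_left]
        rw [hz']
        linarith
      have := (Kp_bound _ hmem n).1
      simp only at this
      rwa [max_eq_left hx1] at this)
  rw [hu.deriv] at hC
  linarith

theorem not_int_Km {x : ℤ → ℂ} (hx : x ∈ FullOrb) :
    (x 0, x (-1)) ∉ interior (Km 0 (1 / 100)) := by
  intro hint
  rw [mem_interior_iff_mem_nhds, Metric.mem_nhds_iff] at hint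
  obtain ⟨r, hr, hsub⟩ := hint
  obtain ⟨n, hn⟩ := pow_unbounded_of_one_lt (2 / (r / 2)) (show (1 : ℝ) < 3 / 2 by norm_num)
  obtain ⟨u, v, hu, hv, h1, h2⟩ := deriv_bwd hx n
  have hx1 : ‖x 0‖ ≤ 2 := by linarith [(hx.2 0).2]
  have hdiff : Differentiable ℂ
      (fun t : ℂ => ((henInv 0 (1 / 100))^[n] (x 0, x (-1) + t)).2) := by
    have hh : Differentiable ℂ (henInv 0 (1 / 100)) := by
      unfold henInv
      fun_prop
    have : Differentiable ℂ ((henInv 0 (1 / 100))^[n]) := hh.iterate n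
    exact (this.comp (by fun_prop : Differentiable ℂ fun t : ℂ => (x 0, x (-1) + t))).snd
  have hC := Complex.norm_deriv_le_of_forall_mem_sphere_norm_le (c := (0 : ℂ)) (R := r / 2)
    (C := 2) (f := fun t : ℂ => ((henInv 0 (1 / 100))^[n] (x 0, x (-1) + t)).2) (by positivity)
    hdiff.diffContOnCl (by
      intro z hz
      have hz' : ‖z‖ = r / 2 := by simpa using hz
      have hmem : (x 0, x (-1) + z) ∈ Km 0 (1 / 100) := by
        apply hsub
        rw [mem_ball, Prod.dist_eq]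
        simp only [dist_self]
        refine max_lt hr ?_
        rw [dist_eq_norm]
        simp only [add_sub_cancel_left]
        rw [hz']
        linarith
      have := (Km_bound _ hmem n).2
      simp only at this
      rwa [max_eq_left hx1] at this)
  rw [hv.deriv] at hC
  linarith

theorem Lam_sub : Lam ⊆ JJ 0 (1 / 100) := by
  rintro p ⟨x, hx, rfl⟩
  exact ⟨⟨subset_closure (mem_Kp hx), not_int_Kp hx⟩, ⟨subset_closure (mem_Km hx), not_int_Km hx⟩⟩

end ExJ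

theorem JJ_eq_Lam : JJ 0 (1 / 100) = Lam :=
  subset_antisymm ExJ.JJ_sub ExJ.Lam_sub

end H6ea4aa
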