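import Pool.Agent.H.MP_6ea4aa_an.ExDefs

/-!
# MP_6ea4aa: `Λ` is connected
-/

set_option autoImplicit false

open Complex Set Filter Topology Metric BoundedContinuousFunction

namespace H6ea4aa

/-! ### the principal square root near `1` -/

theorem exsol_sqrt_sq (w : ℂ) : (w ^ (2⁻¹ : ℂ)) ^ 2 = w := by
  have h := Complex.cpow_nat_inv_pow w (n := 2) two_ne_zero
  simpa only [Nat.cast_ofNat] using h

theorem exsol_sqrt_near {w : ℂ} (hw : ‖w - 1‖ ≤ 3 / 25) : ‖w ^ (2⁻¹ : ℂ) - 1‖ ≤ 1 / 10 := by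
  set s := w ^ (2⁻¹ : ℂ) with hs
  have h1 : (s - 1) * (s + 1) = w - 1 := by
    have := exsol_sqrt_sq w
    rw [← hs] at this
    linear_combination this
  have h2 : 0 ≤ s.re := by
    rw [hs, Complex.cpow_inv_two_re]
    exact Real.sqrt_nonneg _
  have h3 : 1 ≤ ‖s + 1‖ := by
    have h4 := Complex.re_le_norm (s + 1)
    rw [Complex.add_re, Complex.one_re] at h4
    linarith
  have h5 : ‖s - 1‖ * ‖s + 1‖ = ‖w - 1‖ := by rw [← norm_mul, h1]
  have h6 : ‖s - 1‖ ≤ 3 / 25 := by nlinarith [norm_nonneg (s - 1)]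
  have h7 : 2 - ‖s - 1‖ ≤ ‖s + 1‖ := by
    have h8 : ‖(2 : ℂ)‖ ≤ ‖s + 1‖ + ‖s - 1‖ := by
      have : (2 : ℂ) = (s + 1) - (s - 1) := by ring
      rw [this]
      exact norm_sub_le _ _
    rw [Complex.norm_ofNat] at h8
    linarith
  nlinarith [norm_nonneg (s - 1)]

theorem exsol_sqrt_lip {w v : ℂ} (hw : ‖w - 1‖ ≤ 3 / 25) (hv : ‖v - 1‖ ≤ 3 / 25) :
    ‖w ^ (2⁻¹ : ℂ) - v ^ (2⁻¹ : ℂ)‖ * (9 / 5) ≤ ‖w - v‖ := by
  have h1 := exsol_sqrt_near hw
  have h2 := exsol_sqrt_near hv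
  set s := w ^ (2⁻¹ : ℂ) with hs
  set r := v ^ (2⁻¹ : ℂ) with hr
  have h3 : (s - r) * (s + r) = w - v := by
    have h4 := exsol_sqrt_sq w
    have h5 := exsol_sqrt_sq v
    rw [← hs] at h4
    rw [← hr] at h5
    linear_combination h4 - h5
  have h6 : 9 / 5 ≤ ‖s + r‖ := by
    have h8 : ‖(2 : ℂ)‖ ≤ ‖s + r‖ + (‖s - 1‖ + ‖r - 1‖) := by
      have : (2 : ℂ) = (s + r) - ((s - 1) + (r - 1)) := by ring
      rw [this]
      exact (norm_sub_le _ _).trans (add_le_add le_rfl (norm_add_le _ _))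
    rw [Complex.norm_ofNat] at h8
    linarith
  rw [← h3, norm_mul]
  exact mul_le_mul_of_nonneg_left h6 (norm_nonneg _)

theorem exsol_slit {w : ℂ} (hw : ‖w - 1‖ ≤ 3 / 25) : w ∈ slitPlane := by
  left
  have h1 := Complex.abs_re_le_norm (w - 1)
  rw [Complex.sub_re, Complex.one_re] at h1
  have h2 := (abs_le.mp (h1.trans hw)).1
  linarith

/-- the fixed point theorem which is used twice -/
theorem exsol_fix {ι : Type*} [TopologicalSpace ι] (F : (ι → ℂ) → ι → ℂ)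
    (hc : ∀ ξ, Continuous ξ → Continuous (F ξ))
    (h1 : ∀ ξ : ι → ℂ, (∀ i, ‖ξ i - 1‖ ≤ 1 / 10) → ∀ i, ‖F ξ i - 1‖ ≤ 3 / 25)
    (h2 : ∀ (ξ η : ι → ℂ) (d : ℝ), (∀ i, ‖ξ i - η i‖ ≤ d) → ∀ i, ‖F ξ i - F η i‖ ≤ 11 / 10 * d) :
    ∃ ξ : ι → ℂ, Continuous ξ ∧ (∀ i, ‖ξ i - 1‖ ≤ 1 / 10) ∧ ∀ i, ξ i ^ 2 = F ξ i := by
  let B : Set (ι →ᵇ ℂ) := {ξ | ∀ i, ‖ξ i - 1‖ ≤ 1 / 10}
  have hBc : IsClosed B := by
    have : B = ⋂ i, {ξ : ι →ᵇ ℂ | ‖ξ i - 1‖ ≤ 1 / 10} := by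
      ext ξ
      simp [B]
    rw [this]
    refine isClosed_iInter fun i => isClosed_le ?_ continuous_const
    exact ((continuous_eval_const i).sub continuous_const).norm
  have hcomp : CompleteSpace B := hBc.completeSpace_coe
  have hne : Nonempty B := ⟨⟨BoundedContinuousFunction.const ι 1, fun i => by simp⟩⟩
  have hcont : ∀ ξ : B, Continuous fun i => (F (ξ : ι →ᵇ ℂ) i) ^ (2⁻¹ : ℂ) := by
    intro ξ
    rw [continuous_iff_continuousAt]
    intro i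
    exact ((hc _ (ξ : ι →ᵇ ℂ).continuous).continuousAt).cpow continuousAt_const
      (exsol_slit (h1 _ ξ.2 i))
  let T : B → B := fun ξ => ⟨BoundedContinuousFunction.ofNormedAddCommGroup
    (fun i => (F (ξ : ι →ᵇ ℂ) i) ^ (2⁻¹ : ℂ)) (hcont ξ) 2 (fun i => by
      have h3 := exsol_sqrt_near (h1 _ ξ.2 i)
      have h4 := norm_le_norm_add_norm_sub' ((F (ξ : ι →ᵇ ℂ) i) ^ (2⁻¹ : ℂ)) 1
      rw [norm_one] at h4
      linarith), fun i => exsol_sqrt_near (h1 _ ξ.2 i)⟩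
  have hT : ContractingWith (11 / 18) T := by
    refine ⟨?_, LipschitzWith.of_dist_le_mul fun ξ η => ?_⟩
    · rw [← NNReal.coe_lt_coe]
      push_cast
      norm_num
    · rw [Subtype.dist_eq, Subtype.dist_eq]
      refine (BoundedContinuousFunction.dist_le (by positivity)).mpr fun i => ?_
      have h3 : ∀ i, ‖(ξ : ι →ᵇ ℂ) i - (η : ι →ᵇ ℂ) i‖ ≤ dist (ξ : ι →ᵇ ℂ) η := fun i => by
        rw [← dist_eq_norm]
        exact BoundedContinuousFunction.dist_coe_le_dist i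
      have h4 := h2 _ _ _ h3 i
      have h5 := exsol_sqrt_lip (h1 _ ξ.2 i) (h1 _ η.2 i)
      rw [dist_eq_norm]
      show ‖(F (ξ : ι →ᵇ ℂ) i) ^ (2⁻¹ : ℂ) - (F (η : ι →ᵇ ℂ) i) ^ (2⁻¹ : ℂ)‖ ≤ _
      push_cast
      linarith
  have hfp := ContractingWith.fixedPoint_isFixedPt hT
  set ξ := ContractingWith.fixedPoint T hT with hξ
  refine ⟨(ξ : ι →ᵇ ℂ), (ξ : ι →ᵇ ℂ).continuous, ξ.2, fun i => ?_⟩
  have h3 : (ξ : ι →ᵇ ℂ) i = (F (ξ : ι →ᵇ ℂ) i) ^ (2⁻¹ : ℂ) := by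
    have h4 : T ξ = ξ := hfp
    have h5 := congrArg (fun η : B => (η : ι →ᵇ ℂ) i) h4
    exact h5.symm
  conv_lhs => rw [h3]
  exact exsol_sqrt_sq _

/-- uniqueness -/
theorem exsol_unique {c ξ η : ℤ → ℂ} (hc : ∀ n, ‖c n‖ = 1) (hξ : ∀ n, ‖ξ n - 1‖ ≤ 1 / 8)
    (hη : ∀ n, ‖η n - 1‖ ≤ 1 / 8)
    (eξ : ∀ n, ξ n ^ 2 = ξ (n + 1) + 1 / 100 * (ξ (n - 1) * c n))
    (eη : ∀ n, η n ^ 2 = η (n + 1) + 1 / 100 * (η (n - 1) * c n)) (n : ℤ) : ξ n = η n := by
  have key : ∀ k : ℕ, ∀ n, ‖ξ n - η n‖ ≤ 1 / 4 * (3 / 5 : ℝ) ^ k := by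
    intro k
    induction k with
    | zero =>
      intro n
      have : ξ n - η n = (ξ n - 1) - (η n - 1) := by ring
      rw [this, pow_zero]
      refine (norm_sub_le _ _).trans ?_
      linarith [hξ n, hη n]
    | succ k ih =>
      intro n
      have h1 : (ξ n - η n) * (ξ n + η n) =
          (ξ (n + 1) - η (n + 1)) + 1 / 100 * ((ξ (n - 1) - η (n - 1)) * c n) := by
        linear_combination eξ n - eη n
      have h2 : ‖ξ n - η n‖ * ‖ξ n + η n‖ ≤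
          ‖ξ (n + 1) - η (n + 1)‖ + 1 / 100 * ‖ξ (n - 1) - η (n - 1)‖ := by
        rw [← norm_mul, h1]
        refine (norm_add_le _ _).trans (add_le_add le_rfl ?_)
        rw [norm_mul, norm_mul, hc, mul_one]
        apply mul_le_mul_of_nonneg_right _ (norm_nonneg _)
        norm_num
      have h3 : 7 / 4 ≤ ‖ξ n + η n‖ := by
        have h8 : ‖(2 : ℂ)‖ ≤ ‖ξ n + η n‖ + (‖ξ n - 1‖ + ‖η n - 1‖) := by
          have : (2 : ℂ) = (ξ n + η n) - ((ξ n - 1) + (η n - 1)) := by ring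
          rw [this]
          exact (norm_sub_le _ _).trans (add_le_add le_rfl (norm_add_le _ _))
        rw [Complex.norm_ofNat] at h8
        linarith [hξ n, hη n]
      have h4 := ih (n + 1)
      have h5 := ih (n - 1)
      have h6 : ‖ξ n - η n‖ * (7 / 4) ≤ ‖ξ n - η n‖ * ‖ξ n + η n‖ :=
        mul_le_mul_of_nonneg_left h3 (norm_nonneg _)
      have h7 : (0 : ℝ) ≤ (3 / 5 : ℝ) ^ k := by positivity
      rw [pow_succ]
      nlinarith
  have hlim : Tendsto (fun k : ℕ => 1 / 4 * (3 / 5 : ℝ) ^ k) atTop (𝓝 (1 / 4 * 0)) :=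
    (tendsto_pow_atTop_nhds_zero_of_lt_one (by norm_num) (by norm_num)).const_mul _
  rw [mul_zero] at hlim
  have h0 : ‖ξ n - η n‖ ≤ 0 := ge_of_tendsto' hlim fun k => key k n
  exact sub_eq_zero.mp (norm_le_zero_iff.mp h0)

/-! ### the solenoid as an inverse limit of circles -/

/-- the inverse limit of circles under squaring -/
def Sig : Set (ℤ → ℂ) := {z | ∀ n, ‖z n‖ = 1 ∧ z (n + 1) = z n ^ 2}

theorem exsol_Sig_connected : IsConnected Sig := by
  let γ : ℝ → ℤ → ℂ := fun t n => exp ((2 * Real.pi * ((2 : ℝ) ^ n * t) : ℝ) * I)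
  have hγc : Continuous γ := by
    apply continuous_pi
    intro n
    fun_prop
  have hγS : range γ ⊆ Sig := by
    rintro _ ⟨t, rfl⟩ n
    refine ⟨Complex.norm_exp_ofReal_mul_I _, ?_⟩
    show exp _ = exp _ ^ 2
    rw [← Complex.exp_nat_mul, zpow_add₀ (two_ne_zero)]
    congr 1
    push_cast
    ring
  have hdense : Sig ⊆ closure (range γ) := by
    intro z hz
    let t : ℕ → ℝ := fun m => arg (z (-(m : ℤ))) * (2 : ℝ) ^ (m : ℤ) / (2 * Real.pi)
    have hagree : ∀ m : ℕ, ∀ k : ℕ, γ (t m) (-(m : ℤ) + k) = z (-(m : ℤ) + k) := by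
      intro m k
      induction k with
      | zero =>
        have h1 : ((2 * Real.pi * ((2 : ℝ) ^ (-(m : ℤ) + ((0 : ℕ) : ℤ)) * t m) : ℝ)) =
            arg (z (-(m : ℤ))) := by
          simp only [t, Nat.cast_zero, add_zero, zpow_neg]
          have h2 : (2 : ℝ) ^ (m : ℤ) ≠ 0 := zpow_ne_zero _ two_ne_zero
          have h3 : Real.pi ≠ 0 := Real.pi_ne_zero
          field_simp
        show exp ((2 * Real.pi * ((2 : ℝ) ^ (-(m : ℤ) + ((0 : ℕ) : ℤ)) * t m) : ℝ) * I) = _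
        rw [h1]
        have h4 := Complex.norm_mul_exp_arg_mul_I (z (-(m : ℤ)))
        rw [(hz _).1, ofReal_one, one_mul] at h4
        simpa using h4
      | succ k ih =>
        have h1 := (hγS ⟨t m, rfl⟩ (-(m : ℤ) + k)).2
        have h2 := (hz (-(m : ℤ) + k)).2
        push_cast
        rw [← add_assoc, h1, h2, ih]
    refine mem_closure_of_tendsto (f := fun m : ℕ => γ (t m)) (b := atTop) ?_
      (Eventually.of_forall fun m => ⟨t m, rfl⟩)
    rw [tendsto_pi_nhds]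
    intro n
    refine tendsto_const_nhds.congr' ?_
    filter_upwards [eventually_ge_atTop (n.natAbs)] with m hm
    have h1 := hagree m (n + m).toNat
    have h2 : 0 ≤ n + m := by omega
    rw [Int.toNat_of_nonneg h2] at h1
    have h3 : -(m : ℤ) + (n + m) = n := by ring
    rw [h3] at h1
    exact h1.symm
  exact ⟨⟨γ 0, hγS ⟨0, rfl⟩⟩,
    (isPreconnected_range hγc).subset_closure hγS hdense⟩

theorem exsol_le_one {a : ℤ → ℝ} {C : ℝ} (h0 : ∀ n, 0 < a n) (h1 : ∀ n, a (n + 1) = a n ^ 2)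
    (h2 : ∀ n, a n ≤ C) (n : ℤ) : a n ≤ 1 := by
  by_contra hcon
  push Not at hcon
  have h3 : ∀ k : ℕ, a (n + k) = a n ^ (2 ^ k) := by
    intro k
    induction k with
    | zero => simp
    | succ k ih =>
      push_cast
      rw [← add_assoc, h1, ih, ← pow_mul, pow_succ]
  obtain ⟨k, hk⟩ := exists_nat_gt (C / (a n - 1))
  have h4 : C < k * (a n - 1) := by
    rwa [div_lt_iff₀ (by linarith)] at hk
  have h5 : 1 + ((2 ^ k : ℕ) : ℝ) * (a n - 1) ≤ (1 + (a n - 1)) ^ (2 ^ k) :=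
    one_add_mul_le_pow (by linarith) _
  have h6 : (k : ℝ) ≤ ((2 ^ k : ℕ) : ℝ) := by
    exact_mod_cast Nat.lt_two_pow_self.le
  have h7 := h2 (n + k)
  rw [h3] at h7
  rw [add_sub_cancel] at h5
  nlinarith

theorem exsol_eq_one {a : ℤ → ℝ} {c C : ℝ} (hc : 0 < c) (h1 : ∀ n, a (n + 1) = a n ^ 2)
    (h2 : ∀ n, c ≤ a n ∧ a n ≤ C) (n : ℤ) : a n = 1 := by
  have h0 : ∀ n, 0 < a n := fun n => hc.trans_le (h2 n).1
  refine le_antisymm (exsol_le_one h0 h1 (fun n => (h2 n).2) n) ?_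
  have h3 := exsol_le_one (a := fun n => (a n)⁻¹) (C := c⁻¹) (fun n => inv_pos.mpr (h0 n))
    (fun n => by rw [h1, inv_pow]) (fun n => inv_anti₀ hc (h2 n).1) n
  exact (inv_le_one₀ (h0 n)).mp h3

theorem exsol_full {x : ℤ → ℂ} (hx : x ∈ FullOrb) :
    ∃ z ∈ Sig, ∃ ξ : ℤ → ℂ, (∀ n, x n = z n * ξ n) ∧ (∀ n, ‖ξ n - 1‖ ≤ 1 / 8) ∧
      ∀ n, ξ n ^ 2 = ξ (n + 1) +
        1 / 100 * (ξ (n - 1) * (z (n - 1) * (starRingEnd ℂ) (z (n + 1)))) := by
  obtain ⟨hrec, hbd⟩ := hx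
  have hx0 : ∀ n, x n ≠ 0 := fun n h => by
    have := (hbd n).1
    rw [h, norm_zero] at this
    norm_num at this
  let e : ℤ → ℂ := fun n => x (n - 1) / (100 * x n ^ 2)
  have he : ∀ n, ‖e n‖ ≤ 7 / 500 := by
    intro n
    show ‖x (n - 1) / (100 * x n ^ 2)‖ ≤ 7 / 500
    rw [norm_div, norm_mul, norm_pow, Complex.norm_ofNat]
    have h1 := (hbd n).1
    have h2 := (hbd (n - 1)).2
    rw [div_le_iff₀ (by positivity)]
    nlinarith
  obtain ⟨w, -, hw1, hw2⟩ := exsol_fix (ι := ℤ) (fun w n => w (n + 1) * (1 - e n))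
    (fun ξ _ => continuous_of_discreteTopology)
    (fun ξ hξ n => by
      have h1 : ξ (n + 1) * (1 - e n) - 1 = (ξ (n + 1) - 1) - ξ (n + 1) * e n := by ring
      have h2 : ‖ξ (n + 1)‖ ≤ 11 / 10 := by
        have h4 := norm_le_norm_add_norm_sub' (ξ (n + 1)) 1
        rw [norm_one] at h4
        linarith [hξ (n + 1)]
      show ‖ξ (n + 1) * (1 - e n) - 1‖ ≤ 3 / 25
      rw [h1]
      refine (norm_sub_le _ _).trans ?_
      rw [norm_mul]
      nlinarith [hξ (n + 1), he n, norm_nonneg (ξ (n + 1)), norm_nonneg (e n)])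
    (fun ξ η d hd n => by
      have h1 : ξ (n + 1) * (1 - e n) - η (n + 1) * (1 - e n) =
        (ξ (n + 1) - η (n + 1)) * (1 - e n) := by ring
      have h2 : ‖1 - e n‖ ≤ 11 / 10 := by
        refine (norm_sub_le _ _).trans ?_
        rw [norm_one]
        linarith [he n]
      show ‖ξ (n + 1) * (1 - e n) - η (n + 1) * (1 - e n)‖ ≤ 11 / 10 * d
      rw [h1, norm_mul]
      have h3 := hd (n + 1)
      nlinarith [norm_nonneg (ξ (n + 1) - η (n + 1)), norm_nonneg (1 - e n)])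
  have hw0 : ∀ n, 9 / 10 ≤ ‖w n‖ ∧ ‖w n‖ ≤ 11 / 10 := by
    intro n
    have h4 := norm_le_norm_add_norm_sub' (w n) 1
    have h5 := norm_le_norm_add_norm_sub' 1 (w n)
    rw [norm_one] at h4 h5
    rw [norm_sub_rev] at h5
    have := hw1 n
    constructor <;> linarith
  have hwne : ∀ n, w n ≠ 0 := fun n h => by
    have := (hw0 n).1
    rw [h, norm_zero] at this
    norm_num at this
  have hz1 : ∀ n, x (n + 1) * w (n + 1) = (x n * w n) ^ 2 := by
    intro n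
    have h1 := hw2 n
    have h2 := hrec n
    have h3 : (1 - e n) * x n ^ 2 = x (n + 1) := by
      show (1 - x (n - 1) / (100 * x n ^ 2)) * x n ^ 2 = x (n + 1)
      rw [h2]
      have := hx0 n
      field_simp
    have h1' : w n ^ 2 = w (n + 1) * (1 - e n) := h1
    rw [mul_pow, h1', ← h3]
    ring
  have hz2 : ∀ n, ‖x n * w n‖ = 1 := by
    intro n
    apply exsol_eq_one (a := fun n => ‖x n * w n‖) (c := 81 / 100) (C := 121 / 100) (by norm_num)
    · intro n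
      show ‖x (n + 1) * w (n + 1)‖ = ‖x n * w n‖ ^ 2
      rw [hz1, norm_pow]
    · intro n
      show 81 / 100 ≤ ‖x n * w n‖ ∧ ‖x n * w n‖ ≤ 121 / 100
      rw [norm_mul]
      have h1 := hw0 n
      have h2 := hbd n
      constructor <;> nlinarith
  refine ⟨fun n => x n * w n, fun n => ⟨hz2 n, hz1 n⟩, fun n => (w n)⁻¹, ?_, ?_, ?_⟩
  · intro n
    have := hwne n
    field_simp
  · intro n
    have h1 : (w n)⁻¹ - 1 = (1 - w n) / w n := by
      have := hwne n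
      field_simp
    show ‖(w n)⁻¹ - 1‖ ≤ 1 / 8
    rw [h1, norm_div, div_le_iff₀ (by linarith [(hw0 n).1]), norm_sub_rev]
    linarith [hw1 n, (hw0 n).1]
  · intro n
    have h1 : (starRingEnd ℂ) (x (n + 1) * w (n + 1)) = (x (n + 1) * w (n + 1))⁻¹ := by
      rw [Complex.inv_def, Complex.normSq_eq_norm_sq, hz2]
      simp
    have h2 : w n ^ 2 = w (n + 1) * (1 - e n) := hw2 n
    have h3 : (1 - e n) * x n ^ 2 = x (n + 1) := by
      show (1 - x (n - 1) / (100 * x n ^ 2)) * x n ^ 2 = x (n + 1)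
      rw [hrec n]
      have := hx0 n
      field_simp
    have h4 : w n ^ 2 * x n ^ 2 = w (n + 1) * x (n + 1) := by
      rw [h2, mul_assoc, h3]
    show ((w n)⁻¹) ^ 2 = (w (n + 1))⁻¹ + 1 / 100 * ((w (n - 1))⁻¹ *
      (x (n - 1) * w (n - 1) * (starRingEnd ℂ) (x (n + 1) * w (n + 1))))
    rw [h1]
    have h5 := hwne n
    have h6 := hwne (n + 1)
    have h7 := hwne (n - 1)
    have h8 := hx0 (n + 1)
    have h9 := hx0 n
    have h10 : x (n + 1) + 1 / 100 * x (n - 1) = x n ^ 2 := by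
      rw [hrec n]
      ring
    have h11 : (w (n + 1))⁻¹ + 1 / 100 * ((w (n - 1))⁻¹ *
      (x (n - 1) * w (n - 1) * (x (n + 1) * w (n + 1))⁻¹)) =
        (x (n + 1) + 1 / 100 * x (n - 1)) / (w (n + 1) * x (n + 1)) := by
      field_simp
    rw [h11, h10, ← h4]
    field_simp

theorem Lam_connected : IsConnected Lam := by
  let c : Sig × ℤ → ℂ := fun p => (p.1 : ℤ → ℂ) (p.2 - 1) *
    (starRingEnd ℂ) ((p.1 : ℤ → ℂ) (p.2 + 1))
  have hcn : ∀ p, ‖c p‖ = 1 := by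
    rintro ⟨z, n⟩
    show ‖(z : ℤ → ℂ) (n - 1) * (starRingEnd ℂ) ((z : ℤ → ℂ) (n + 1))‖ = 1
    rw [norm_mul, RCLike.norm_conj, (z.2 _).1, (z.2 _).1, mul_one]
  have hev : ∀ n : ℤ, Continuous fun z : Sig => (z : ℤ → ℂ) n := fun n =>
    (continuous_apply n).comp continuous_subtype_val
  have hcc : Continuous c := by
    rw [continuous_prod_of_discrete_right]
    intro n
    exact (hev (n - 1)).mul (Complex.continuous_conj.comp (hev (n + 1)))
  obtain ⟨ξ, hξc, hξ1, hξ2⟩ := exsol_fix (ι := Sig × ℤ)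
    (fun ξ p => ξ (p.1, p.2 + 1) + 1 / 100 * (ξ (p.1, p.2 - 1) * c p))
    (fun ξ hξ => by
      rw [continuous_prod_of_discrete_right]
      intro n
      have h1 : ∀ m : ℤ, Continuous fun z : Sig => ξ (z, m) := fun m =>
        hξ.comp (continuous_id.prodMk continuous_const)
      have h2 : Continuous fun z : Sig => c (z, n) :=
        hcc.comp (continuous_id.prodMk continuous_const)
      exact (h1 (n + 1)).add (continuous_const.mul ((h1 (n - 1)).mul h2)))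
    (fun ξ hξ p => by
      have h1 : ξ (p.1, p.2 + 1) + 1 / 100 * (ξ (p.1, p.2 - 1) * c p) - 1 =
        (ξ (p.1, p.2 + 1) - 1) + 1 / 100 * (ξ (p.1, p.2 - 1) * c p) := by ring
      have h2 : ‖ξ (p.1, p.2 - 1)‖ ≤ 11 / 10 := by
        have h4 := norm_le_norm_add_norm_sub' (ξ (p.1, p.2 - 1)) 1
        rw [norm_one] at h4
        linarith [hξ (p.1, p.2 - 1)]
      show ‖ξ (p.1, p.2 + 1) + 1 / 100 * (ξ (p.1, p.2 - 1) * c p) - 1‖ ≤ 3 / 25
      rw [h1]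
      refine (norm_add_le _ _).trans ?_
      rw [norm_mul, norm_mul, hcn]
      have h3 : ‖(1 / 100 : ℂ)‖ = 1 / 100 := by simp
      rw [h3]
      linarith [hξ (p.1, p.2 + 1)])
    (fun ξ η d hd p => by
      have h1 : ξ (p.1, p.2 + 1) + 1 / 100 * (ξ (p.1, p.2 - 1) * c p) -
        (η (p.1, p.2 + 1) + 1 / 100 * (η (p.1, p.2 - 1) * c p)) =
        (ξ (p.1, p.2 + 1) - η (p.1, p.2 + 1)) +
          1 / 100 * ((ξ (p.1, p.2 - 1) - η (p.1, p.2 - 1)) * c p) := by ring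
      show ‖ξ (p.1, p.2 + 1) + 1 / 100 * (ξ (p.1, p.2 - 1) * c p) -
        (η (p.1, p.2 + 1) + 1 / 100 * (η (p.1, p.2 - 1) * c p))‖ ≤ 11 / 10 * d
      rw [h1]
      refine (norm_add_le _ _).trans ?_
      rw [norm_mul, norm_mul, hcn]
      have h3 : ‖(1 / 100 : ℂ)‖ = 1 / 100 := by simp
      rw [h3]
      have h4 := hd (p.1, p.2 + 1)
      have h5 := hd (p.1, p.2 - 1)
      have h6 := norm_nonneg (ξ (p.1, p.2 + 1) - η (p.1, p.2 + 1))
      linarith)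
  let Φ : Sig → ℂ × ℂ := fun z =>
    ((z : ℤ → ℂ) 0 * ξ (z, 0), (z : ℤ → ℂ) (-1) * ξ (z, -1))
  have hξm : ∀ m : ℤ, Continuous fun z : Sig => ξ (z, m) := fun m =>
    hξc.comp (continuous_id.prodMk continuous_const)
  have hΦ : Continuous Φ := ((hev 0).mul (hξm 0)).prodMk ((hev (-1)).mul (hξm (-1)))
  have hrange : range Φ = Lam := by
    apply Set.Subset.antisymm
    · rintro _ ⟨z, rfl⟩
      refine ⟨fun n => (z : ℤ → ℂ) n * ξ (z, n), ⟨?_, ?_⟩, rfl⟩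
      · intro n
        have h1 : ξ (z, n) ^ 2 = ξ (z, n + 1) + 1 / 100 * (ξ (z, n - 1) *
          ((z : ℤ → ℂ) (n - 1) * (starRingEnd ℂ) ((z : ℤ → ℂ) (n + 1)))) := hξ2 (z, n)
        have h2 := (z.2 n).2
        have h3 : (z : ℤ → ℂ) (n + 1) * (starRingEnd ℂ) ((z : ℤ → ℂ) (n + 1)) = 1 := by
          rw [Complex.mul_conj, Complex.normSq_eq_norm_sq, (z.2 _).1]
          simp
        show (z : ℤ → ℂ) (n + 1) * ξ (z, n + 1) = ((z : ℤ → ℂ) n * ξ (z, n)) ^ 2 -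
          1 / 100 * ((z : ℤ → ℂ) (n - 1) * ξ (z, n - 1))
        rw [mul_pow, h1, ← h2]
        linear_combination (-(1 / 100) * ξ (z, n - 1) * (z : ℤ → ℂ) (n - 1)) * h3
      · intro n
        show 9 / 10 ≤ ‖(z : ℤ → ℂ) n * ξ (z, n)‖ ∧ ‖(z : ℤ → ℂ) n * ξ (z, n)‖ ≤ 11 / 10
        rw [norm_mul, (z.2 n).1, one_mul]
        have h4 := norm_le_norm_add_norm_sub' (ξ (z, n)) 1
        have h5 := norm_le_norm_add_norm_sub' 1 (ξ (z, n))
        rw [norm_one] at h4 h5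
        rw [norm_sub_rev] at h5
        have := hξ1 (z, n)
        constructor <;> linarith
    · rintro p ⟨x, hx, rfl⟩
      obtain ⟨z, hz, η, h1, h2, h3⟩ := exsol_full hx
      refine ⟨⟨z, hz⟩, ?_⟩
      have h4 : ∀ n, ξ (⟨z, hz⟩, n) = η n := by
        intro n
        refine exsol_unique (c := fun n => z (n - 1) * (starRingEnd ℂ) (z (n + 1)))
          (ξ := fun n => ξ (⟨z, hz⟩, n)) (η := η) ?_ ?_ h2 ?_ h3 n
        · intro n
          exact hcn (⟨z, hz⟩, n)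
        · intro n
          exact (hξ1 _).trans (by norm_num)
        · intro n
          exact hξ2 (⟨z, hz⟩, n)
      show (z 0 * ξ (⟨z, hz⟩, 0), z (-1) * ξ (⟨z, hz⟩, -1)) = _
      rw [h4, h4, ← h1, ← h1]
  rw [← hrange]
  have : ConnectedSpace Sig := isConnected_iff_connectedSpace.mp exsol_Sig_connected
  exact isConnected_range hΦ

end H6ea4aa
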