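import Pool.Agent.H.MP_6ea4aa_an.Defs

/-!
# MP_6ea4aa: existence of a saddle periodic point
-/

set_option autoImplicit false

open Complex Set Filter Topology Metric

namespace H6ea4aa

structure Saddle (c b : ℂ) where
  N : ℕ
  p : ℂ × ℂ
  v : ℂ × ℂ
  w : ℂ × ℂ
  μ : ℂ
  ν : ℂ
  hN : 0 < N
  hp : (hen c b)^[N] p = p
  hmin : ∀ k, 0 < k → k < N → (hen c b)^[k] p ≠ p
  hμ : 1 < ‖μ‖
  hν : ‖ν‖ < 1
  hν0 : ν ≠ 0
  hv : v ≠ 0
  hw : w ≠ 0
  hev : fderiv ℂ ((hen c b)^[N]) p v = μ • v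
  hew : fderiv ℂ ((hen c b)^[N]) p w = ν • w

/-! ### linear algebra in dimension two -/

/-- `L` is a 2×2 matrix with trace `T` and determinant `Δ` -/
private def HasTD (L : ℂ × ℂ →L[ℂ] ℂ × ℂ) (T Δ : ℂ) : Prop :=
  ∃ α β γ δ : ℂ, (∀ u v, L (u, v) = (α * u + β * v, γ * u + δ * v)) ∧ T = α + δ ∧
    Δ = α * δ - β * γ

private theorem exists_eigvec {L : ℂ × ℂ →L[ℂ] ℂ × ℂ} {T Δ : ℂ} (h : HasTD L T Δ) {e : ℂ}
    (he : e ^ 2 - T * e + Δ = 0) : ∃ v : ℂ × ℂ, v ≠ 0 ∧ L v = e • v := by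
  obtain ⟨α, β, γ, δ, hL, rfl, rfl⟩ := h
  by_cases h1 : β = 0 ∧ e = α
  · obtain ⟨h1, h2⟩ := h1
    by_cases h3 : e = δ ∧ γ = 0
    · obtain ⟨h3, h4⟩ := h3
      refine ⟨(1, 0), by simp, ?_⟩
      rw [hL, h4, ← h2]
      ext <;> simp
    · refine ⟨(e - δ, γ), ?_, ?_⟩
      · intro h5
        have h6 := congrArg Prod.fst h5
        have h7 := congrArg Prod.snd h5
        simp only [Prod.fst_zero, Prod.snd_zero] at h6 h7
        exact h3 ⟨sub_eq_zero.1 h6, h7⟩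
      · rw [hL]
        ext
        · simp only [Prod.smul_mk, smul_eq_mul]
          linear_combination (-(e - δ)) * h2 + γ * h1
        · simp only [Prod.smul_mk, smul_eq_mul]
          ring
  · refine ⟨(β, e - α), ?_, ?_⟩
    · intro h5
      have h6 := congrArg Prod.fst h5
      have h7 := congrArg Prod.snd h5
      simp only [Prod.fst_zero, Prod.snd_zero] at h6 h7
      exact h1 ⟨h6, sub_eq_zero.1 h7⟩
    · rw [hL]
      ext
      · simp only [Prod.smul_mk, smul_eq_mul]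
        ring
      · simp only [Prod.smul_mk, smul_eq_mul]
        linear_combination (-1 : ℂ) * he

private theorem eigval_root {L : ℂ × ℂ →L[ℂ] ℂ × ℂ} {T Δ : ℂ} (h : HasTD L T Δ) {e : ℂ}
    {v : ℂ × ℂ} (hv : v ≠ 0) (he : L v = e • v) : e ^ 2 - T * e + Δ = 0 := by
  obtain ⟨α, β, γ, δ, hL, rfl, rfl⟩ := h
  obtain ⟨x, y⟩ := v
  rw [hL] at he
  have h6 := congrArg Prod.fst he
  have h7 := congrArg Prod.snd he
  simp only [Prod.smul_mk, smul_eq_mul] at h6 h7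
  by_cases hx : x = 0
  · have hy : y ≠ 0 := by
      rintro rfl
      exact hv (by rw [hx]; rfl)
    apply mul_right_cancel₀ hy
    linear_combination (-γ) * h6 + (α - e) * h7
  · apply mul_right_cancel₀ hx
    linear_combination (δ - e) * h6 + (-β) * h7

/-- roots of a quadratic polynomial -/
private theorem exists_roots (S P : ℂ) : ∃ x y : ℂ, x + y = S ∧ x * y = P := by
  obtain ⟨z, hz⟩ := IsAlgClosed.exists_pow_nat_eq (S ^ 2 - 4 * P) (n := 2) (by norm_num)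
  exact ⟨(S + z) / 2, (S - z) / 2, by ring, by linear_combination (-1 / 4 : ℂ) * hz⟩

/-- saddle or elliptic -/
private theorem saddle_or {L : ℂ × ℂ →L[ℂ] ℂ × ℂ} {T Δ : ℂ} (h : HasTD L T Δ) (hΔ : ‖Δ‖ = 1) :
    (∃ (μ ν : ℂ) (v w : ℂ × ℂ), 1 < ‖μ‖ ∧ ‖ν‖ < 1 ∧ ν ≠ 0 ∧ v ≠ 0 ∧ w ≠ 0 ∧ L v = μ • v ∧
      L w = ν • w) ∨
    ∃ e₁ e₂ : ℂ, ‖e₁‖ = 1 ∧ ‖e₂‖ = 1 ∧ e₁ + e₂ = T ∧ e₁ * e₂ = Δ := by
  obtain ⟨e₁, e₂, h1, h2⟩ := exists_roots T Δ
  have hn : ‖e₁‖ * ‖e₂‖ = 1 := by rw [← norm_mul, h2, hΔ]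
  have hr1 : e₁ ^ 2 - T * e₁ + Δ = 0 := by rw [← h1, ← h2]; ring
  have hr2 : e₂ ^ 2 - T * e₂ + Δ = 0 := by rw [← h1, ← h2]; ring
  have key : ∀ e e' : ℂ, ‖e‖ * ‖e'‖ = 1 → e ^ 2 - T * e + Δ = 0 → e' ^ 2 - T * e' + Δ = 0 →
      1 < ‖e‖ → ∃ (μ ν : ℂ) (v w : ℂ × ℂ), 1 < ‖μ‖ ∧ ‖ν‖ < 1 ∧ ν ≠ 0 ∧ v ≠ 0 ∧ w ≠ 0 ∧
      L v = μ • v ∧ L w = ν • w := by
    intro e e' he h3 h4 h5
    obtain ⟨v, hv, hv'⟩ := exists_eigvec h h3
    obtain ⟨w, hw, hw'⟩ := exists_eigvec h h4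
    refine ⟨e, e', v, w, h5, ?_, ?_, hv, hw, hv', hw'⟩
    · by_contra h6
      push Not at h6
      nlinarith [norm_nonneg e, norm_nonneg e']
    · rintro rfl
      simp at he
  rcases lt_trichotomy ‖e₁‖ 1 with h5 | h5 | h5
  · left
    refine key e₂ e₁ (by rw [mul_comm]; exact hn) hr2 hr1 ?_
    by_contra h6
    push Not at h6
    nlinarith [norm_nonneg e₁, norm_nonneg e₂]
  · right
    refine ⟨e₁, e₂, h5, ?_, h1, h2⟩
    rw [h5, one_mul] at hn
    exact hn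
  · left
    exact key e₁ e₂ hn hr1 hr2 h5

/-- in the elliptic case the normalised trace is real, in `[-2, 2]` -/
private theorem elliptic_real {e₁ e₂ T δ : ℂ} (h1 : ‖e₁‖ = 1) (hδ : ‖δ‖ = 1)
    (hs : e₁ + e₂ = T) (hp : e₁ * e₂ = δ ^ 2) : ∃ t : ℝ, -2 ≤ t ∧ t ≤ 2 ∧ T = t * δ := by
  have hδ0 : δ ≠ 0 := by
    rintro rfl
    simp at hδ
  have he0 : e₁ ≠ 0 := by
    rintro rfl
    simp at h1
  set a := e₁ / δ with ha
  have han : ‖a‖ = 1 := by rw [ha, norm_div, h1, hδ, div_one]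
  have ha0 : a ≠ 0 := by
    intro h
    rw [h] at han
    simp at han
  have hconj : (starRingEnd ℂ) a = a⁻¹ := by
    rw [Complex.inv_def, Complex.normSq_eq_norm_sq, han]
    simp
  have h2 : e₂ = a⁻¹ * δ := by
    rw [ha]
    field_simp
    linear_combination hp
  have h3 : e₁ = a * δ := by
    rw [ha]
    field_simp
  have hsum : a + a⁻¹ = ((2 * a.re : ℝ) : ℂ) := by
    rw [← hconj, Complex.add_conj]
  refine ⟨2 * a.re, ?_, ?_, ?_⟩
  · have := Complex.abs_re_le_norm a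
    rw [han] at this
    linarith [(abs_le.1 this).1]
  · have := Complex.abs_re_le_norm a
    rw [han] at this
    linarith [(abs_le.1 this).2]
  · rw [← hs, ← hsum, h2]
    nth_rewrite 1 [h3]
    ring

/-! ### derivatives -/

/-- derivative of the Hénon map -/
private noncomputable def dhen (b x : ℂ) : ℂ × ℂ →L[ℂ] ℂ × ℂ :=
  ((2 * x) • ContinuousLinearMap.fst ℂ ℂ ℂ - b • ContinuousLinearMap.snd ℂ ℂ ℂ).prod
    (ContinuousLinearMap.fst ℂ ℂ ℂ)

private theorem dhen_apply (b x u v : ℂ) : dhen b x (u, v) = (2 * x * u - b * v, u) := by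
  simp [dhen]

private theorem hasFDerivAt_hen (c b : ℂ) (p : ℂ × ℂ) :
    HasFDerivAt (hen c b) (dhen b p.1) p := by
  unfold hen dhen
  apply HasFDerivAt.prodMk
  · have h1 : HasFDerivAt (fun p : ℂ × ℂ => p.1) (ContinuousLinearMap.fst ℂ ℂ ℂ) p :=
      hasFDerivAt_fst
    have h2 : HasFDerivAt (fun p : ℂ × ℂ => p.2) (ContinuousLinearMap.snd ℂ ℂ ℂ) p :=
      hasFDerivAt_snd
    have h3 := ((h1.pow 2).add_const c).sub (h2.const_mul b)
    refine h3.congr_fderiv ?_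
    ext <;> simp
  · exact hasFDerivAt_fst

private theorem fderiv_one (c b x : ℂ) (y : ℂ) :
    fderiv ℂ ((hen c b)^[1]) (x, y) = dhen b x := by
  rw [Function.iterate_one]
  exact (hasFDerivAt_hen c b (x, y)).fderiv

private theorem td_one (b x : ℂ) : HasTD (dhen b x) (2 * x) b := by
  refine ⟨2 * x, -b, 1, 0, ?_, by ring, by ring⟩
  intro u v
  rw [dhen_apply]
  ext
  · simp only
    ring
  · simp only
    ring

private theorem fderiv_two (c b : ℂ) (p : ℂ × ℂ) :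
    fderiv ℂ ((hen c b)^[2]) p = (dhen b (hen c b p).1).comp (dhen b p.1) := by
  have : (hen c b)^[2] = hen c b ∘ hen c b := rfl
  rw [this]
  exact ((hasFDerivAt_hen c b (hen c b p)).comp p (hasFDerivAt_hen c b p)).fderiv

private theorem td_two (b x y : ℂ) :
    HasTD ((dhen b y).comp (dhen b x)) (4 * x * y - 2 * b) (b ^ 2) := by
  refine ⟨4 * x * y - b, -2 * b * y, 2 * x, -b, ?_, by ring, by ring⟩
  intro u v
  rw [ContinuousLinearMap.comp_apply, dhen_apply, dhen_apply]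
  ext
  · simp only
    ring
  · simp only
    ring

private theorem fderiv_three (c b : ℂ) (p : ℂ × ℂ) :
    fderiv ℂ ((hen c b)^[3]) p =
      (dhen b (hen c b (hen c b p)).1).comp ((dhen b (hen c b p).1).comp (dhen b p.1)) := by
  have : (hen c b)^[3] = hen c b ∘ (hen c b ∘ hen c b) := rfl
  rw [this]
  exact ((hasFDerivAt_hen c b (hen c b (hen c b p))).comp p
    ((hasFDerivAt_hen c b (hen c b p)).comp p (hasFDerivAt_hen c b p))).fderiv

private theorem td_three (b x y z : ℂ) :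
    HasTD ((dhen b z).comp ((dhen b y).comp (dhen b x)))
      (8 * x * y * z - 2 * b * (x + y + z)) (b ^ 3) := by
  refine ⟨8 * x * y * z - 2 * b * z - 2 * b * x, -4 * b * y * z + b ^ 2, 4 * x * y - b,
    -2 * b * y, ?_, by ring, by ring⟩
  intro u v
  rw [ContinuousLinearMap.comp_apply, ContinuousLinearMap.comp_apply, dhen_apply, dhen_apply,
    dhen_apply]
  ext
  · simp only
    ring
  · simp only
    ring

/-! ### the dichotomy for points of period 1, 2, 3 -/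

private theorem pow_contra {L : ℂ × ℂ →L[ℂ] ℂ × ℂ} {e₁ e₂ : ℂ} (h : HasTD L (e₁ + e₂) (e₁ * e₂))
    (h1 : ‖e₁‖ = 1) (h2 : ‖e₂‖ = 1) {N : ℕ} (hN : 0 < N) {μ : ℂ} {v : ℂ × ℂ} (hv : v ≠ 0)
    (hμ : (L ^ N) v = μ • v) : ‖μ‖ = 1 := by
  -- work with the endomorphism
  let f : Module.End ℂ (ℂ × ℂ) := (L : ℂ × ℂ →ₗ[ℂ] ℂ × ℂ)
  have hfN : ∀ n : ℕ, ∀ z, (f ^ n) z = (L ^ n) z := by
    intro n
    induction n with
    | zero => intro z; simp
    | succ n ih =>
      intro z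
      rw [pow_succ', pow_succ']
      simp only [Module.End.mul_apply, ih]
      rfl
  have hev : Module.End.HasEigenvalue (f ^ N) μ := by
    apply Module.End.hasEigenvalue_of_hasEigenvector (x := v)
    rw [Module.End.hasEigenvector_iff]
    refine ⟨?_, hv⟩
    rw [Module.End.mem_eigenspace_iff, hfN]
    exact hμ
  have hsp : μ ∈ spectrum ℂ (f ^ N) := hev.mem_spectrum
  rw [spectrum.map_pow_of_pos f hN] at hsp
  obtain ⟨a, ha, rfl⟩ := hsp
  have hae : Module.End.HasEigenvalue f a := Module.End.hasEigenvalue_iff_mem_spectrum.2 ha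
  obtain ⟨u, hu⟩ := hae.exists_hasEigenvector
  have hu0 : u ≠ 0 := hu.2
  have hroot := eigval_root h hu0 (e := a) hu.apply_eq_smul
  have : (a - e₁) * (a - e₂) = 0 := by linear_combination hroot
  have hn : ‖a‖ = 1 := by
    rcases mul_eq_zero.1 this with h3 | h3
    · rw [sub_eq_zero.1 h3, h1]
    · rw [sub_eq_zero.1 h3, h2]
  simp only [norm_pow, hn, one_pow]

variable {c b : ℂ}

/-- no saddle, period one -/
private theorem ell_one (hb : ‖b‖ = 1) (hno : ¬ Nonempty (Saddle c b)) {x y : ℂ}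
    (hp : hen c b (x, y) = (x, y)) :
    ∃ e₁ e₂ : ℂ, ‖e₁‖ = 1 ∧ ‖e₂‖ = 1 ∧ e₁ + e₂ = 2 * x ∧ e₁ * e₂ = b := by
  rcases saddle_or (td_one b x) hb with ⟨μ, ν, v, w, h1, h2, h3, h4, h5, h6, h7⟩ | h
  · exfalso
    apply hno
    exact ⟨{ N := 1, p := (x, y), v := v, w := w, μ := μ, ν := ν, hN := one_pos,
             hp := by rw [Function.iterate_one]; exact hp,
             hmin := by intro k hk hk'; omega
             hμ := h1, hν := h2, hν0 := h3, hv := h4, hw := h5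
             hev := by rw [fderiv_one]; exact h6
             hew := by rw [fderiv_one]; exact h7 }⟩
  · exact h

private theorem ell_two (hb : ‖b‖ = 1) (hno : ¬ Nonempty (Saddle c b)) {x y : ℂ}
    (hp : hen c b (x, y) = (y, x)) (hp' : hen c b (y, x) = (x, y)) :
    ∃ e₁ e₂ : ℂ, ‖e₁‖ = 1 ∧ ‖e₂‖ = 1 ∧ e₁ + e₂ = 4 * x * y - 2 * b ∧ e₁ * e₂ = b ^ 2 := by
  rcases saddle_or (td_two b x y) (by rw [norm_pow, hb, one_pow]) with
    ⟨μ, ν, v, w, h1, h2, h3, h4, h5, h6, h7⟩ | h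
  · exfalso
    have hfd : fderiv ℂ ((hen c b)^[2]) (x, y) = (dhen b y).comp (dhen b x) := by
      rw [fderiv_two, hp]
    by_cases hfix : hen c b (x, y) = (x, y)
    · have hxy : y = x := by
        rw [hfix] at hp
        exact (congrArg Prod.fst hp).symm
      subst hxy
      obtain ⟨e₁, e₂, g1, g2, g3, g4⟩ := ell_one hb hno hfix
      have htd := td_one b y
      rw [← g3, ← g4] at htd
      have hpow : (dhen b y).comp (dhen b y) = (dhen b y) ^ 2 := by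
        rw [pow_two]; rfl
      rw [hpow] at h6
      have := pow_contra htd g1 g2 (N := 2) (by norm_num) h4 (μ := μ) (by
        have := h6
        rw [g4]
        exact this)
      linarith
    · apply hno
      exact ⟨{ N := 2, p := (x, y), v := v, w := w, μ := μ, ν := ν, hN := two_pos,
               hp := by
                show hen c b (hen c b (x, y)) = (x, y)
                rw [hp, hp']
               hmin := by
                intro k hk hk'
                have : k = 1 := by omega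
                subst this
                rw [Function.iterate_one]
                exact hfix
               hμ := h1, hν := h2, hν0 := h3, hv := h4, hw := h5
               hev := by rw [hfd]; exact h6
               hew := by rw [hfd]; exact h7 }⟩
  · exact h

private theorem ell_three (hb : ‖b‖ = 1) (hno : ¬ Nonempty (Saddle c b)) {x y z : ℂ}
    (h0 : hen c b (x, z) = (y, x)) (h1 : hen c b (y, x) = (z, y))
    (h2 : hen c b (z, y) = (x, z)) :
    ∃ e₁ e₂ : ℂ, ‖e₁‖ = 1 ∧ ‖e₂‖ = 1 ∧ e₁ + e₂ = 8 * x * y * z - 2 * b * (x + y + z) ∧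
      e₁ * e₂ = b ^ 3 := by
  rcases saddle_or (td_three b x y z) (by rw [norm_pow, hb, one_pow]) with
    ⟨μ, ν, v, w, h3, h4, h5, h6, h7, h8, h9⟩ | h
  · exfalso
    have hfd : fderiv ℂ ((hen c b)^[3]) (x, z) =
        (dhen b z).comp ((dhen b y).comp (dhen b x)) := by
      rw [fderiv_three, h0, h1]
    have h3per : (hen c b)^[3] (x, z) = (x, z) := by
      show hen c b (hen c b (hen c b (x, z))) = (x, z)
      rw [h0, h1, h2]
    by_cases hfix : hen c b (x, z) = (x, z)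
    · have hxy : (y, x) = (x, z) := by rw [← h0, hfix]
      have hxy1 : y = x := congrArg Prod.fst hxy
      have hxz : x = z := congrArg Prod.snd hxy
      subst hxy1
      subst hxz
      obtain ⟨e₁, e₂, g1, g2, g3, g4⟩ := ell_one hb hno hfix
      have htd := td_one b y
      rw [← g3, ← g4] at htd
      have hpow : (dhen b y).comp ((dhen b y).comp (dhen b y)) = (dhen b y) ^ 3 := by
        rw [pow_succ, pow_two]; rfl
      rw [hpow] at h8
      have := pow_contra htd g1 g2 (N := 3) (by norm_num) h6 (μ := μ) (by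
        have := h8
        rw [g4]
        exact this)
      linarith
    · apply hno
      exact ⟨{ N := 3, p := (x, z), v := v, w := w, μ := μ, ν := ν, hN := three_pos,
               hp := h3per
               hmin := by
                intro k hk hk'
                have : k = 1 ∨ k = 2 := by omega
                rcases this with rfl | rfl
                · rw [Function.iterate_one]
                  exact hfix
                · intro h10
                  have h11 : (hen c b)^[3] (x, z) = hen c b ((hen c b)^[2] (x, z)) :=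
                    Function.iterate_succ_apply' _ _ _
                  rw [h10, h3per] at h11
                  exact hfix h11.symm
               hμ := h3, hν := h4, hν0 := h5, hv := h6, hw := h7
               hev := by rw [hfd]; exact h8
               hew := by rw [hfd]; exact h9 }⟩
  · exact h

/-! ### three-cycles in normalised coordinates -/

/-- with `r ^ 2 = b`, `s r = 1 + r ^ 2`, `c = q r ^ 2` and a root `ζ` of
`ζ² + s ζ + 2 s² - 6 + q = 0` there is a solution of the 3-cycle equations with sum `ζ r`. -/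
private theorem exists_three {r s q ζ : ℂ} (hr : r ≠ 0) (hr1 : r ^ 2 ≠ 1) (hs : s * r = 1 + r ^ 2)
    (hζ : ζ ^ 2 + s * ζ + 2 * s ^ 2 - 6 + q = 0) :
    ∃ x y z : ℂ, y = x ^ 2 + q * r ^ 2 - r ^ 2 * z ∧ z = y ^ 2 + q * r ^ 2 - r ^ 2 * x ∧
      x = z ^ 2 + q * r ^ 2 - r ^ 2 * y ∧
      8 * x * y * z - 2 * r ^ 2 * (x + y + z) =
        ((6 + 8 * q) * ζ + 8 * s * (s ^ 2 - 3 + q)) * r ^ 3 := by
  obtain ⟨β, hβ⟩ : ∃ β : ℂ, β * r = 1 - r ^ 2 := ⟨(1 - r ^ 2) / r, by field_simp⟩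
  have hβ0 : β ≠ 0 := by
    rintro rfl
    rw [zero_mul] at hβ
    exact hr1 (sub_eq_zero.1 hβ.symm).symm
  obtain ⟨Y0, hY0⟩ : ∃ Y0 : ℂ, Y0 ^ 3 - (2 * ζ + 3 * r) * Y0 ^ 2 -
      (3 * β ^ 2 + β * (2 * ζ + 3 * r)) * Y0 - β ^ 3 = 0 := by
    let P : Polynomial ℂ := Polynomial.X ^ 3 - Polynomial.C (2 * ζ + 3 * r) * Polynomial.X ^ 2 -
      Polynomial.C (3 * β ^ 2 + β * (2 * ζ + 3 * r)) * Polynomial.X - Polynomial.C (β ^ 3)
    have hd : P.degree = 3 := by
      simp only [P]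
      compute_degree!
    obtain ⟨a, ha⟩ := IsAlgClosed.exists_root P (by rw [hd]; norm_num)
    refine ⟨a, ?_⟩
    have := ha
    simp only [P, Polynomial.IsRoot, Polynomial.eval_sub, Polynomial.eval_mul,
      Polynomial.eval_pow, Polynomial.eval_X, Polynomial.eval_C] at this
    linear_combination this
  have hY00 : Y0 ≠ 0 := by
    rintro rfl
    apply pow_ne_zero 3 hβ0
    linear_combination -hY0
  have hY0β : β + Y0 ≠ 0 := by
    intro h
    apply pow_ne_zero 3 hβ0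
    have : Y0 = -β := by linear_combination h
    rw [this] at hY0
    linear_combination hY0
  obtain ⟨Y1, hY1⟩ : ∃ Y1 : ℂ, Y0 * Y1 = -β * (β + Y0) := ⟨-β * (β + Y0) / Y0, by field_simp⟩
  obtain ⟨Y2, hY2⟩ : ∃ Y2 : ℂ, (β + Y0) * Y2 = -β ^ 2 := ⟨-β ^ 2 / (β + Y0), by field_simp⟩
  have hR1 : Y1 * Y2 = -β * (β + Y1) := by
    apply mul_left_cancel₀ hY00
    apply mul_left_cancel₀ hY0β
    linear_combination ((β + Y0) * Y2 + β * (β + Y0)) * hY1 + (-β * (β + Y0)) * hY2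
  have hR2 : Y2 * Y0 = -β * (β + Y2) := by
    linear_combination hY2
  have hS : Y0 + Y1 + Y2 = 2 * ζ + 3 * r := by
    apply mul_left_cancel₀ hY00
    apply mul_left_cancel₀ hY0β
    linear_combination (β + Y0) * hY1 + Y0 * hY2 + hY0
  have hP : Y0 * Y1 * Y2 = β ^ 3 := by
    linear_combination Y0 * hR1 - β * hY1
  refine ⟨r * (ζ + r - Y0), r * (ζ + r - Y1), r * (ζ + r - Y2), ?_, ?_, ?_, ?_⟩
  · linear_combination r * (-r * hζ - r * Y0 * hS + r * hY1 + r * hR2 - (Y0 + Y2) * hβ - hS +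
      ζ * hs) + 2 * (r * s + 1 + r ^ 2) * hs - 2 * (r * β + 1 - r ^ 2) * hβ
  · linear_combination r * (-r * hζ - r * Y1 * hS + r * hR1 + r * hY1 - (Y1 + Y0) * hβ - hS +
      ζ * hs) + 2 * (r * s + 1 + r ^ 2) * hs - 2 * (r * β + 1 - r ^ 2) * hβ
  · linear_combination r * (-r * hζ - r * Y2 * hS + r * hR2 + r * hR1 - (Y2 + Y1) * hβ - hS +
      ζ * hs) + 2 * (r * s + 1 + r ^ 2) * hs - 2 * (r * β + 1 - r ^ 2) * hβ
  · have hD : (ζ + r - Y0) * (ζ + r - Y1) * (ζ + r - Y2) = (ζ + r) ^ 3 -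
        (ζ + r) ^ 2 * (2 * ζ + 3 * r) - (ζ + r) * (3 * β ^ 2 + β * (2 * ζ + 3 * r)) - β ^ 3 := by
      linear_combination (-(ζ + r) ^ 2 - β * (ζ + r)) * hS + (ζ + r) * (hY1 + hR1 + hR2) - hP
    have hq : q = 6 - ζ ^ 2 - s * ζ - 2 * s ^ 2 := by linear_combination hζ
    have hs' : s = r + r⁻¹ := by
      field_simp
      linear_combination hs
    have hβ' : β = r⁻¹ - r := by
      field_simp
      linear_combination hβ
    have h1 : (ζ + r) ^ 3 - (ζ + r) ^ 2 * (2 * ζ + 3 * r) -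
        (ζ + r) * (3 * β ^ 2 + β * (2 * ζ + 3 * r)) - β ^ 3 =
        (1 + q) * ζ + s ^ 3 - 3 * s + q * s := by
      rw [hq, hs', hβ']
      field_simp
      ring
    linear_combination 8 * r ^ 3 * (hD + h1) + 2 * r ^ 3 * hS

theorem exists_saddle (c b : ℂ) (hb : ‖b‖ = 1) : Nonempty (Saddle c b) := by
  by_contra hno
  obtain ⟨r, hr2⟩ := IsAlgClosed.exists_pow_nat_eq b (n := 2) (by norm_num)
  have hrn : ‖r‖ = 1 := by
    have : ‖r‖ ^ 2 = 1 := by rw [← norm_pow, hr2, hb]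
    nlinarith [norm_nonneg r]
  have hr0 : r ≠ 0 := by
    rintro rfl
    simp at hrn
  subst hr2
  -- fixed points
  obtain ⟨x₁, x₂, hx1, hx2⟩ := exists_roots (1 + r ^ 2) c
  have hf1 : hen c (r ^ 2) (x₁, x₁) = (x₁, x₁) := by
    simp only [hen]
    ext
    · simp only
      rw [← hx2]
      linear_combination x₁ * hx1
    · rfl
  have hf2 : hen c (r ^ 2) (x₂, x₂) = (x₂, x₂) := by
    simp only [hen]
    ext
    · simp only
      rw [← hx2]
      linear_combination x₂ * hx1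
    · rfl
  obtain ⟨e₁, e₂, g1, g2, g3, g4⟩ := ell_one hb hno hf1
  obtain ⟨t₁, ht1, ht1', ht1e⟩ := elliptic_real g1 hrn g3 g4
  obtain ⟨e₁, e₂, g1, g2, g3, g4⟩ := ell_one hb hno hf2
  obtain ⟨t₂, ht2, ht2', ht2e⟩ := elliptic_real g1 hrn g3 g4
  obtain ⟨ξ, hξ⟩ : ∃ ξ : ℝ, ξ = t₁ / 2 := ⟨_, rfl⟩
  obtain ⟨η, hη⟩ : ∃ η : ℝ, η = t₂ / 2 := ⟨_, rfl⟩
  have hx1e : x₁ = ξ * r := by
    rw [hξ]
    push_cast
    linear_combination ht1e / 2
  have hx2e : x₂ = η * r := by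
    rw [hη]
    push_cast
    linear_combination ht2e / 2
  have hs : ((ξ + η : ℝ) : ℂ) * r = 1 + r ^ 2 := by
    push_cast
    linear_combination hx1 - hx1e - hx2e
  have hc : c = ((ξ * η : ℝ) : ℂ) * r ^ 2 := by
    rw [← hx2, hx1e, hx2e]
    push_cast
    ring
  have hξ1 : -1 ≤ ξ := by linarith
  have hξ2 : ξ ≤ 1 := by linarith
  have hη1 : -1 ≤ η := by linarith
  have hη2 : η ≤ 1 := by linarith
  obtain ⟨s, hsdef⟩ : ∃ s : ℝ, s = ξ + η := ⟨_, rfl⟩
  obtain ⟨q, hqdef⟩ : ∃ q : ℝ, q = ξ * η := ⟨_, rfl⟩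
  rw [← hsdef] at hs
  rw [← hqdef] at hc
  -- two-cycles
  obtain ⟨y₁, y₂, hy1, hy2⟩ := exists_roots (-(1 + r ^ 2)) ((1 + r ^ 2) ^ 2 + c)
  have hp1 : hen c (r ^ 2) (y₁, y₂) = (y₂, y₁) := by
    simp only [hen]
    ext
    · simp only
      linear_combination y₁ * hy1 - hy2 - (1 + r ^ 2) * hy1
    · rfl
  have hp2 : hen c (r ^ 2) (y₂, y₁) = (y₁, y₂) := by
    simp only [hen]
    ext
    · simp only
      linear_combination y₂ * hy1 - hy2 - (1 + r ^ 2) * hy1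
    · rfl
  obtain ⟨e₁, e₂, g1, g2, g3, g4⟩ := ell_two hb hno hp1 hp2
  obtain ⟨t, ht, ht', hte⟩ := elliptic_real (δ := r ^ 2) g1 (by rw [norm_pow, hrn, one_pow]) g3 g4
  have hsq : t = 4 * (s ^ 2 + q) - 2 := by
    have h1 : (t : ℂ) * r ^ 2 = ((4 * (s ^ 2 + q) - 2 : ℝ) : ℂ) * r ^ 2 := by
      push_cast
      rw [← hte]
      linear_combination 4 * hy2 + 4 * hc - 4 * (s * r + (1 + r ^ 2)) * hs
    have h2 := mul_right_cancel₀ (pow_ne_zero 2 hr0) h1
    exact_mod_cast h2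
  have hA0 : 0 ≤ s ^ 2 + q := by linarith
  have hA1 : s ^ 2 + q ≤ 1 := by linarith
  have hB1 : 0 ≤ 1 - s + q := by
    rw [hsdef, hqdef]
    nlinarith [mul_nonneg (sub_nonneg.2 hξ2) (sub_nonneg.2 hη2)]
  have hB2 : 0 ≤ 1 + s + q := by
    rw [hsdef, hqdef]
    nlinarith [mul_nonneg (neg_le_iff_add_nonneg'.1 hξ1) (neg_le_iff_add_nonneg'.1 hη1)]
  have hs1 : s ^ 2 ≤ 1 := by
    rcases le_or_gt 0 q with hq | hq
    · linarith
    · nlinarith
  have hq1 : q ≤ 1 := by nlinarith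
  -- three-cycles
  have hr1 : r ^ 2 ≠ 1 := by
    intro h
    have h1 : ((s ^ 2 : ℝ) : ℂ) = ((4 : ℝ) : ℂ) := by
      push_cast
      linear_combination (s * r + (1 + r ^ 2)) * hs + (3 + r ^ 2 - s ^ 2) * h
    have h2 : s ^ 2 = 4 := by exact_mod_cast h1
    linarith
  obtain ⟨ζ₁, ζ₂, hζ1, hζ2⟩ := exists_roots (-(s : ℂ)) (2 * s ^ 2 - 6 + q)
  have main : ∀ ζ : ℂ, ζ ^ 2 + s * ζ + 2 * s ^ 2 - 6 + q = 0 →
      ∃ t : ℝ, -2 ≤ t ∧ t ≤ 2 ∧ (t : ℂ) = (6 + 8 * q) * ζ + 8 * s * (s ^ 2 - 3 + q) := by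
    intro ζ hζ
    obtain ⟨x, y, z, hx, hy, hz, hT⟩ := exists_three hr0 hr1 hs hζ
    have k0 : hen c (r ^ 2) (x, z) = (y, x) := by
      simp only [hen]
      rw [hc, hx]
    have k1 : hen c (r ^ 2) (y, x) = (z, y) := by
      simp only [hen]
      rw [hc, hy]
    have k2 : hen c (r ^ 2) (z, y) = (x, z) := by
      simp only [hen]
      rw [hc, hz]
    obtain ⟨e₁, e₂, g1, g2, g3, g4⟩ := ell_three hb hno k0 k1 k2
    obtain ⟨t, ht, ht', hte⟩ := elliptic_real (δ := r ^ 3) g1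
      (by rw [norm_pow, hrn, one_pow]) g3 (by rw [g4]; ring)
    refine ⟨t, ht, ht', ?_⟩
    apply mul_right_cancel₀ (pow_ne_zero 3 hr0)
    rw [← hT, ← hte]
  obtain ⟨u₁, hu1, hu1', hu1e⟩ := main ζ₁ (by linear_combination ζ₁ * hζ1 - hζ2)
  obtain ⟨u₂, hu2, hu2', hu2e⟩ := main ζ₂ (by linear_combination ζ₂ * hζ1 - hζ2)
  have hfin : (u₁ - u₂) ^ 2 = (6 + 8 * q) ^ 2 * (24 - 7 * s ^ 2 - 4 * q) := by
    have h1 : (((u₁ - u₂) ^ 2 : ℝ) : ℂ) =
        (((6 + 8 * q) ^ 2 * (24 - 7 * s ^ 2 - 4 * q) : ℝ) : ℂ) := by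
      push_cast
      rw [hu1e, hu2e]
      linear_combination (6 + 8 * (q : ℂ)) ^ 2 * ((ζ₁ + ζ₂ - s) * hζ1 - 4 * hζ2)
    exact_mod_cast h1
  have hd : (u₁ - u₂) ^ 2 ≤ 16 := by nlinarith
  have h13 : 13 ≤ 24 - 7 * s ^ 2 - 4 * q := by linarith
  have h6 : 13 * (6 + 8 * q) ^ 2 ≤ 16 := by nlinarith [sq_nonneg (6 + 8 * q)]
  have h7 : q ≤ -3 / 5 := by nlinarith
  nlinarith

end H6ea4aa
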