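import Pool.Agent.H.MP_6ea4aa_an.Phi
import Pool.Agent.H.MP_6ea4aa_an.Saddle
import Pool.Agent.H.MP_6ea4aa_an.Util

/-!
# MP_6ea4aa: the unstable manifold and its Green function
-/

set_option autoImplicit false

open Complex Set Filter Topology Metric

namespace H6ea4aa

/-- `ψ` linearises `f^N` on the unstable manifold of the saddle `s` -/
structure Unst (c b : ℂ) (s : Saddle c b) (ψ : ℂ → ℂ × ℂ) : Prop where
  diff : Differentiable ℂ ψ
  zero : ψ 0 = s.p
  der : HasDerivAt ψ s.v 0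
  step : ∀ z, (hen c b)^[s.N] (ψ z) = ψ (s.μ * z)

variable {c b : ℂ} {s : Saddle c b} {ψ : ℂ → ℂ × ℂ}

theorem unst_hen_injective (c : ℂ) {b : ℂ} (hb : ‖b‖ = 1) : Function.Injective (hen c b) := by
  have hb0 : b ≠ 0 := by
    intro h
    rw [h, norm_zero] at hb
    exact zero_ne_one hb
  exact Function.LeftInverse.injective (henInv_hen c b hb0)

theorem unst_mu_ne (s : Saddle c b) : s.μ ≠ 0 := by
  intro h
  have := s.hμ
  rw [h, norm_zero] at this
  linarith

/-- pulling back: `F (f^i ψ (μ^{-(k+1)} z)) = f^i ψ (μ^{-k} z)` -/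
theorem unst_back (hψ : Unst c b s ψ) (i k : ℕ) (z : ℂ) :
    (hen c b)^[s.N] ((hen c b)^[i] (ψ (s.μ⁻¹ ^ (k + 1) * z)))
      = (hen c b)^[i] (ψ (s.μ⁻¹ ^ k * z)) := by
  have hμ := unst_mu_ne s
  rw [← Function.iterate_add_apply, add_comm, Function.iterate_add_apply, hψ.step]
  congr 2
  rw [pow_succ]
  field_simp

theorem unst_tendsto (s : Saddle c b) (z : ℂ) :
    Tendsto (fun k : ℕ => s.μ⁻¹ ^ k * z) atTop (𝓝 0) := by
  have h1 : ‖s.μ⁻¹‖ < 1 := by
    rw [norm_inv]
    exact inv_lt_one_of_one_lt₀ s.hμ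
  have h2 := (tendsto_pow_atTop_nhds_zero_of_norm_lt_one h1).mul_const z
  simpa using h2

/-- a curve with nonzero derivative is locally injective -/
theorem unst_local_inj {g : ℂ → ℂ} {a : ℂ} (hg : Differentiable ℂ g) (ha : a ≠ 0)
    (hd : HasDerivAt g a 0) : ∃ U : Set ℂ, U ∈ 𝓝 (0 : ℂ) ∧ InjOn g U := by
  have hs : HasStrictDerivAt g a 0 := by
    have h1 : ContDiffAt ℂ 1 g 0 := (hg.contDiff (n := 1)).contDiffAt
    have h2 := h1.hasStrictDerivAt (by norm_num)
    rwa [hd.deriv] at h2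
  have he := hs.hasStrictFDerivAt_equiv ha
  refine ⟨(he.toOpenPartialHomeomorph g).source, ?_, ?_⟩
  · exact (he.toOpenPartialHomeomorph g).open_source.mem_nhds
      (he.mem_toOpenPartialHomeomorph_source)
  · exact (he.toOpenPartialHomeomorph g).injOn

theorem unst_local_inj' (hψ : Unst c b s ψ) : ∃ U : Set ℂ, U ∈ 𝓝 (0 : ℂ) ∧ InjOn ψ U := by
  by_cases h1 : s.v.1 = 0
  · have h2 : s.v.2 ≠ 0 := by
      intro h2
      exact s.hv (Prod.ext h1 h2)
    have hd : HasDerivAt (fun z => (ψ z).2) s.v.2 0 := by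
      have := hψ.der.hasFDerivAt.snd
      simpa using this.hasDerivAt
    obtain ⟨U, hU, hi⟩ := unst_local_inj (g := fun z => (ψ z).2) hψ.diff.snd h2 hd
    refine ⟨U, hU, fun x hx y hy hxy => hi hx hy ?_⟩
    simp only [hxy]
  · have hd : HasDerivAt (fun z => (ψ z).1) s.v.1 0 := by
      have := hψ.der.hasFDerivAt.fst
      simpa using this.hasDerivAt
    obtain ⟨U, hU, hi⟩ := unst_local_inj (g := fun z => (ψ z).1) hψ.diff.fst h1 hd
    refine ⟨U, hU, fun x hx y hy hxy => hi hx hy ?_⟩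
    simp only [hxy]

theorem Unst.inj (hψ : Unst c b s ψ) (hb : ‖b‖ = 1) : Function.Injective ψ := by
  intro z z' h
  have hinj := (unst_hen_injective c hb).iterate s.N
  have key : ∀ k : ℕ, ψ (s.μ⁻¹ ^ k * z) = ψ (s.μ⁻¹ ^ k * z') := by
    intro k
    induction k with
    | zero => simpa using h
    | succ k ih =>
      apply hinj
      have h1 := unst_back hψ 0 k z
      have h2 := unst_back hψ 0 k z'
      simp only [Function.iterate_zero, id] at h1 h2
      rw [h1, h2, ih]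
  obtain ⟨U, hU, hi⟩ := unst_local_inj' hψ
  have e1 := (unst_tendsto s z).eventually hU
  have e2 := (unst_tendsto s z').eventually hU
  obtain ⟨k, hk1, hk2⟩ := (e1.and e2).exists
  have h3 := hi hk1 hk2 (key k)
  have h4 : s.μ⁻¹ ^ k ≠ 0 := pow_ne_zero _ (inv_ne_zero (unst_mu_ne s))
  exact mul_left_cancel₀ h4 h3

/-- different points of the cycle have disjoint unstable manifolds -/
theorem Unst.disj (hψ : Unst c b s ψ) (hb : ‖b‖ = 1) {i j : ℕ} (hi : i < s.N) (hj : j < s.N)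
    {z z' : ℂ} (h : (hen c b)^[i] (ψ z) = (hen c b)^[j] (ψ z')) : i = j ∧ z = z' := by
  have hinj := (unst_hen_injective c hb).iterate s.N
  have key : ∀ k : ℕ, (hen c b)^[i] (ψ (s.μ⁻¹ ^ k * z)) = (hen c b)^[j] (ψ (s.μ⁻¹ ^ k * z')) := by
    intro k
    induction k with
    | zero => simpa using h
    | succ k ih =>
      apply hinj
      rw [unst_back hψ i k z, unst_back hψ j k z', ih]
  have hcont : ∀ n : ℕ, Continuous ((hen c b)^[n]) := fun n =>
    (hen_differentiable c b).continuous.iterate n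
  have t1 : Tendsto (fun k : ℕ => (hen c b)^[i] (ψ (s.μ⁻¹ ^ k * z))) atTop
      (𝓝 ((hen c b)^[i] (ψ 0))) :=
    ((hcont i).comp hψ.diff.continuous).continuousAt.tendsto.comp (unst_tendsto s z)
  have t2 : Tendsto (fun k : ℕ => (hen c b)^[j] (ψ (s.μ⁻¹ ^ k * z'))) atTop
      (𝓝 ((hen c b)^[j] (ψ 0))) :=
    ((hcont j).comp hψ.diff.continuous).continuousAt.tendsto.comp (unst_tendsto s z')
  have hp : (hen c b)^[i] s.p = (hen c b)^[j] s.p := by
    rw [← hψ.zero]
    refine tendsto_nhds_unique t1 ?_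
    simp only [key]
    exact t2
  have aux : ∀ {i j : ℕ}, i < s.N → j < s.N → (hen c b)^[i] s.p = (hen c b)^[j] s.p →
      ¬ i < j := by
    intro i j hi hj hp hij
    have h1 : (hen c b)^[i] ((hen c b)^[j - i] s.p) = (hen c b)^[i] s.p := by
      rw [← Function.iterate_add_apply, hp]
      congr 2
      omega
    have h2 := (unst_hen_injective c hb).iterate i h1
    exact s.hmin (j - i) (by omega) (by omega) h2
  have hij : i = j := by
    rcases lt_trichotomy i j with h1 | h1 | h1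
    · exact absurd h1 (aux hi hj hp)
    · exact h1
    · exact absurd h1 (aux hj hi hp.symm)
  refine ⟨hij, ?_⟩
  subst hij
  exact hψ.inj hb ((unst_hen_injective c hb).iterate i h)

theorem unst_Gm_iter (c : ℂ) {b : ℂ} (hb : ‖b‖ = 1) (n : ℕ) (q : ℂ × ℂ) :
    Gm c b ((hen c b)^[n] q) = Gm c b q / 2 ^ n := by
  induction n with
  | zero => simp
  | succ n ih =>
    rw [Function.iterate_succ_apply', Gm_hen c b hb, ih, pow_succ]
    field_simp

theorem unst_Gp_iter (c : ℂ) {b : ℂ} (hb : ‖b‖ = 1) (n : ℕ) (q : ℂ × ℂ) :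
    Gp c b ((hen c b)^[n] q) = 2 ^ n * Gp c b q := by
  induction n with
  | zero => simp
  | succ n ih =>
    rw [Function.iterate_succ_apply', Gp_hen c b hb, ih, pow_succ]
    ring

theorem Unst.Gm_zero (hψ : Unst c b s ψ) (hb : ‖b‖ = 1) (z : ℂ) : Gm c b (ψ z) = 0 := by
  have key : ∀ k : ℕ, Gm c b (ψ z) = Gm c b (ψ (s.μ⁻¹ ^ k * z)) / (2 ^ s.N) ^ k := by
    intro k
    induction k with
    | zero => simp
    | succ k ih =>
      have h1 := unst_back hψ 0 k z
      simp only [Function.iterate_zero, id] at h1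
      rw [ih, ← h1, unst_Gm_iter c hb, div_div, pow_succ ((2 : ℝ) ^ s.N) k, mul_comm ((2 : ℝ) ^ s.N)]
  have hc : Continuous (fun z => Gm c b (ψ z)) := (Gm_continuous c b hb).comp hψ.diff.continuous
  have t1 : Tendsto (fun k : ℕ => Gm c b (ψ (s.μ⁻¹ ^ k * z))) atTop (𝓝 (Gm c b (ψ 0))) :=
    hc.continuousAt.tendsto.comp (unst_tendsto s z)
  have h2 : (1 : ℝ) < 2 ^ s.N := one_lt_pow₀ (by norm_num) s.hN.ne'
  have t2 : Tendsto (fun k : ℕ => ((2 : ℝ) ^ s.N) ^ k) atTop atTop :=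
    tendsto_pow_atTop_atTop_of_one_lt h2
  have t3 := t1.div_atTop t2
  refine tendsto_nhds_unique ?_ t3
  have : (fun k : ℕ => Gm c b (ψ (s.μ⁻¹ ^ k * z)) / (2 ^ s.N) ^ k) = fun _ => Gm c b (ψ z) := by
    funext k
    exact (key k).symm
  rw [this]
  exact tendsto_const_nhds

theorem Unst.linGreen (hψ : Unst c b s ψ) (hb : ‖b‖ = 1) :
    LinGreen (fun z => Gp c b (ψ z)) s.μ (2 ^ s.N) := by
  have hc : Continuous (fun z => Gp c b (ψ z)) := (Gp_continuous c b hb).comp hψ.diff.continuous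
  refine
    { cont := hc
      nonneg := fun z => Gp_nonneg c b hb _
      harm := ?_
      submean := ?_
      scale := ?_
      one_lt_mu := s.hμ
      one_lt_lam := one_lt_pow₀ (by norm_num) s.hN.ne'
      nontriv := ?_ }
  · intro z hz
    obtain ⟨r, hr, F, hF, hG, -⟩ := Gp_locRe2 c b hb hz
    have h1 : ∀ᶠ ζ in 𝓝 z, ψ ζ ∈ ball (ψ z) r :=
      hψ.diff.continuous.continuousAt.eventually (ball_mem_nhds _ hr)
    obtain ⟨δ, hδ, hδ'⟩ := Metric.eventually_nhds_iff_ball.mp h1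
    refine ⟨δ, hδ, fun ζ => F (ψ ζ), ?_, ?_⟩
    · exact hF.comp hψ.diff.differentiableOn (fun ζ hζ => hδ' ζ hζ)
    · intro ζ hζ
      exact hG _ (hδ' ζ hζ)
  · intro z r hr
    exact Gp_submean c b hb (R := r + 1) hψ.diff.differentiableOn hr (by linarith)
  · intro z
    rw [← hψ.step, unst_Gp_iter c hb]
  · by_contra hcon
    push Not at hcon
    obtain ⟨R, hR⟩ := K_bounded c b hb
    have h0 : ∀ z, Gp c b (ψ z) = 0 := fun z =>
      le_antisymm (hcon z) (Gp_nonneg c b hb _)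
    have hbd : ∀ z, ‖ψ z‖ ≤ R := fun z => hR _ (h0 z) (hψ.Gm_zero hb z)
    have hb' : Bornology.IsBounded (range ψ) := by
      rw [isBounded_iff_forall_norm_le]
      refine ⟨R, ?_⟩
      rintro _ ⟨z, rfl⟩
      exact hbd z
    have hconst : ψ = fun _ => ψ 0 := by
      funext z
      exact hψ.diff.apply_eq_apply_of_bounded hb' z 0
    have hd : HasDerivAt ψ 0 0 := by
      rw [hconst]
      exact hasDerivAt_const _ _
    exact s.hv (hψ.der.unique hd)

end H6ea4aa
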