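import Pool.Agent.H.MP_6ea4aa_an.Win
import Pool.Agent.H.MP_6ea4aa_an.Unst
import Pool.Agent.H.MP_6ea4aa_an.Branch

/-!
# MP_6ea4aa: the family of holomorphic graphs in the lifted unstable manifolds
-/

set_option autoImplicit false

open Complex Set Filter Topology Metric

namespace H6ea4aa

structure Fam {c b : ℂ} {Ch : Chart c b} (W : Win Ch) where
  Γ : Set (ℂ → ℂ)
  ne : Γ.Nonempty
  ext : ∀ s ∈ Γ, ∀ w, w ∉ RHP → s w = 0
  diff : ∀ s ∈ Γ, DifferentiableOn ℂ s RHP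
  zero : ∀ s ∈ Γ, ∀ w ∈ RHP, GG Ch w (s w) = 0
  win : ∀ s ∈ Γ, ∀ w : ℂ, W.S < w.re → ‖s w‖ ≤ W.C * Real.exp (3 / 2 * w.re)
  uniq : ∀ s ∈ Γ, ∀ t ∈ Γ, ∀ w ∈ RHP, s w = t w → s = t
  shift : ∀ s ∈ Γ, ∃ t ∈ Γ, ∀ w ∈ RHP, t w = s (w + 2 * Real.pi * I)
  shift' : ∀ s ∈ Γ, ∃ t ∈ Γ, ∀ w ∈ RHP, t w = s (w - 2 * Real.pi * I)
  even : ∀ s ∈ Γ, ∃ t ∈ Γ, ∀ w ∈ RHP, t (2 * w) = (b / 2) * s w + Ch.κ w
  odd : ∀ s ∈ Γ, ∃ t ∈ Γ, ∀ w ∈ RHP,
    t (2 * w) = (b / 2) * s (w + Real.pi * I) + Ch.κ (w + Real.pi * I)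
  pre : ∀ t ∈ Γ, (∃ s ∈ Γ, ∀ w ∈ RHP, t (2 * w) = (b / 2) * s w + Ch.κ w) ∨
    (∃ s ∈ Γ, ∀ w ∈ RHP,
      t (2 * w) = (b / 2) * s (w + Real.pi * I) + Ch.κ (w + Real.pi * I))

namespace FamAux

theorem isOpen_RHP : IsOpen RHP := isOpen_lt continuous_const Complex.continuous_re

theorem preconn_half (S : ℝ) : IsPreconnected {w : ℂ | S < w.re} :=
  (convex_halfSpace_re_gt S).isPreconnected

/-- the clopen argument -/
theorem key {c b : ℂ} {Ch : Chart c b} (W : Win Ch) {t : ℂ → ℂ}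
    (ht : DifferentiableOn ℂ t RHP)
    (hz : ∀ w ∈ RHP, GG Ch w (t w) = 0) {w₁ : ℂ} (h₁ : W.S < w₁.re)
    (hw₁ : ‖t w₁‖ ≤ 2 * Real.exp (7 / 4 * w₁.re)) :
    ∀ w : ℂ, W.S < w.re → ‖t w‖ ≤ W.C * Real.exp (3 / 2 * w.re) := by
  have hS0 : 0 < W.S := by linarith [W.hS, Ch.hS]
  have hsub : {w : ℂ | W.S < w.re} ⊆ RHP := fun w hw => lt_trans hS0 hw
  have hcont : ContinuousOn (fun w => ‖t w‖ - 2 * Real.exp (7 / 4 * w.re))
      {w : ℂ | W.S < w.re} := by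
    apply ContinuousOn.sub
    · exact (ht.continuousOn.mono hsub).norm
    · fun_prop
  have hstrict : ∀ w : ℂ, W.S < w.re → ‖t w‖ ≤ 2 * Real.exp (7 / 4 * w.re) →
      ‖t w‖ - 2 * Real.exp (7 / 4 * w.re) < 0 := by
    intro w hw h
    have h2 := W.zwin w (t w) hw h (hz w (hsub hw))
    have h3 := (W.hbig w.re hw.le).1
    have h4 := Real.exp_pos (7 / 4 * w.re)
    have h5 : 0 < W.C * Real.exp (3 / 2 * w.re) :=
      mul_pos (by linarith [W.hC]) (Real.exp_pos _)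
    nlinarith
  intro w hw
  by_contra hcon
  push Not at hcon
  have hgt : 2 * Real.exp (7 / 4 * w.re) < ‖t w‖ := by
    by_contra hle
    push Not at hle
    exact absurd (W.zwin w (t w) hw hle (hz w (hsub hw))) (not_le.mpr hcon)
  have hiv := (preconn_half W.S).intermediate_value (a := w₁) (b := w) h₁ hw hcont
  obtain ⟨w₃, hw₃, h₃⟩ := hiv (show (0:ℝ) ∈ Icc _ _ from
    ⟨(hstrict w₁ h₁ hw₁).le, by linarith⟩)
  beta_reduce at h₃
  have := hstrict w₃ hw₃ (by linarith)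
  linarith

theorem Gp_iter {c b : ℂ} (hb : ‖b‖ = 1) (i : ℕ) (p : ℂ × ℂ) :
    Gp c b ((hen c b)^[i] p) = 2 ^ i * Gp c b p := by
  induction i with
  | zero => simp
  | succ i ih =>
    rw [Function.iterate_succ_apply', Gp_hen c b hb, ih]
    ring

theorem Gm_iter {c b : ℂ} (hb : ‖b‖ = 1) (i : ℕ) (p : ℂ × ℂ) :
    Gm c b ((hen c b)^[i] p) = Gm c b p / 2 ^ i := by
  induction i with
  | zero => simp
  | succ i ih =>
    rw [Function.iterate_succ_apply', Gm_hen c b hb, ih]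
    ring

variable {c b : ℂ} {s : Saddle c b} {ψ : ℂ → ℂ × ℂ}

theorem iter_red (hψ : Unst c b s ψ) (k i : ℕ) (z : ℂ) :
    (hen c b)^[i + k * s.N] (ψ z) = (hen c b)^[i] (ψ (s.μ ^ k * z)) := by
  induction k generalizing z with
  | zero => simp
  | succ k ih =>
    rw [show i + (k + 1) * s.N = (i + k * s.N) + s.N by ring, Function.iterate_add_apply,
      hψ.step, ih]
    congr 2
    ring

/-- the family -/
def Gam {Ch : Chart c b} (W : Win Ch) (s : Saddle c b) (ψ : ℂ → ℂ × ℂ) : Set (ℂ → ℂ) :=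
  {t | (∀ w, w ∉ RHP → t w = 0) ∧ DifferentiableOn ℂ t RHP ∧
    (∃ i < s.N, ∃ ζ : ℂ → ℂ, DifferentiableOn ℂ ζ RHP ∧
      ∀ w ∈ RHP, Ch.Pi w (t w) = (hen c b)^[i] (ψ (ζ w))) ∧
    ∀ w : ℂ, W.S < w.re → ‖t w‖ ≤ W.C * Real.exp (3 / 2 * w.re)}

theorem zero_of {Ch : Chart c b} (hb : ‖b‖ = 1) (hψ : Unst c b s ψ) {t : ℂ → ℂ} {i : ℕ}
    {ζ : ℂ → ℂ} (hP : ∀ w ∈ RHP, Ch.Pi w (t w) = (hen c b)^[i] (ψ (ζ w))) :
    ∀ w ∈ RHP, GG Ch w (t w) = 0 := by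
  intro w hw
  rw [GG, hP w hw, Gm_iter hb, hψ.Gm_zero hb, zero_div]

theorem mk_mem {Ch : Chart c b} (W : Win Ch) (hb : ‖b‖ = 1) (hψ : Unst c b s ψ) {t : ℂ → ℂ}
    (ht : DifferentiableOn ℂ t RHP) {i : ℕ} {ζ : ℂ → ℂ} (hζ : DifferentiableOn ℂ ζ RHP)
    (hP : ∀ w ∈ RHP, Ch.Pi w (t w) = (hen c b)^[i] (ψ (ζ w))) {w₁ : ℂ} (h₁ : W.S < w₁.re)
    (hw₁ : ‖t w₁‖ ≤ 2 * Real.exp (7 / 4 * w₁.re)) :
    ∃ t' ∈ Gam W s ψ, ∀ w ∈ RHP, t' w = t w := by
  have hS0 : 0 < W.S := by linarith [W.hS, Ch.hS]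
  have hkey := key W ht (zero_of hb hψ hP) h₁ hw₁
  refine ⟨RHP.indicator t, ⟨fun w hw => indicator_of_notMem hw t,
    ht.congr fun w hw => indicator_of_mem hw t, ?_, ?_⟩, fun w hw => indicator_of_mem hw t⟩
  · refine ⟨i % s.N, Nat.mod_lt _ s.hN, fun w => s.μ ^ (i / s.N) * ζ w,
      (differentiableOn_const _).mul hζ, ?_⟩
    intro w hw
    rw [indicator_of_mem hw, hP w hw, ← iter_red hψ, Nat.mod_add_div']
  · intro w hw
    rw [indicator_of_mem (show w ∈ RHP from lt_trans hS0 hw)]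
    exact hkey w hw

theorem uniq_aux {Ch : Chart c b} (W : Win Ch) (hb : ‖b‖ = 1) (hψ : Unst c b s ψ)
    (hreg : ∀ z, 0 < Gp c b (ψ z) → RegRe (fun z => Gp c b (ψ z)) z) :
    ∀ t₁ ∈ Gam W s ψ, ∀ t₂ ∈ Gam W s ψ, ∀ w ∈ RHP, t₁ w = t₂ w → t₁ = t₂ := by
  rintro t₁ ⟨hext₁, hd₁, ⟨i, hi, ζ, hζ, hP₁⟩, hwin₁⟩ t₂ ⟨hext₂, hd₂, ⟨j, hj, η, hη, hP₂⟩, hwin₂⟩
    w₁ hw₁ heq
  have h1 : (hen c b)^[i] (ψ (ζ w₁)) = (hen c b)^[j] (ψ (η w₁)) := by
    rw [← hP₁ w₁ hw₁, ← hP₂ w₁ hw₁, heq]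
  obtain ⟨hij, hze⟩ := hψ.disj hb hi hj h1
  subst hij
  have h2i : (0 : ℝ) < 2 ^ i := by positivity
  have hbr : ∀ (t ξ : ℂ → ℂ), DifferentiableOn ℂ ξ RHP →
      (∀ w ∈ RHP, Ch.Pi w (t w) = (hen c b)^[i] (ψ (ξ w))) →
      IsBranch (fun z => Gp c b (ψ z)) (fun w => ξ (((2 ^ i : ℝ) : ℂ) * w)) RHP := by
    intro t ξ hξ hP
    have hm : MapsTo (fun w : ℂ => ((2 ^ i : ℝ) : ℂ) * w) RHP RHP := by
      intro w hw
      show 0 < (((2 ^ i : ℝ) : ℂ) * w).re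
      rw [Complex.re_ofReal_mul]
      exact mul_pos h2i hw
    refine ⟨hξ.comp (by fun_prop) hm, ?_⟩
    intro w hw
    have h3 := Ch.Pi_Gp (((2 ^ i : ℝ) : ℂ) * w) (t (((2 ^ i : ℝ) : ℂ) * w)) (hm hw)
    rw [hP _ (hm hw), Gp_iter hb, Complex.re_ofReal_mul] at h3
    exact mul_left_cancel₀ h2i.ne' h3
  have hw₀ : w₁ / ((2 ^ i : ℝ) : ℂ) ∈ RHP := by
    show 0 < (w₁ / ((2 ^ i : ℝ) : ℂ)).re
    rw [Complex.div_ofReal_re]
    exact div_pos hw₁ h2i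
  have hne : ((2 ^ i : ℝ) : ℂ) ≠ 0 := by exact_mod_cast h2i.ne'
  have hE := branch_unique hreg isOpen_RHP (preconn_half 0) (le_refl _) (hbr t₁ ζ hζ hP₁)
    (hbr t₂ η hη hP₂) (w₀ := w₁ / ((2 ^ i : ℝ) : ℂ)) hw₀ (by
      rw [mul_div_cancel₀ _ hne, hze])
  funext w
  by_cases hw : w ∈ RHP
  · apply Ch.Pi_inj w hw
    rw [hP₁ w hw, hP₂ w hw]
    have hw' : w / ((2 ^ i : ℝ) : ℂ) ∈ RHP := by
      show 0 < (w / ((2 ^ i : ℝ) : ℂ)).re
      rw [Complex.div_ofReal_re]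
      exact div_pos hw h2i
    have h4 := hE hw'
    beta_reduce at h4
    rw [mul_div_cancel₀ _ hne] at h4
    rw [h4]
  · rw [hext₁ w hw, hext₂ w hw]

theorem exists_large (A B : ℝ) : ∃ x : ℝ, A < x ∧ B ≤ Real.exp (x / 4) ∧ 0 < x := by
  have h1 : Tendsto (fun x : ℝ => Real.exp (x / 4)) atTop atTop :=
    Real.tendsto_exp_atTop.comp (tendsto_id.atTop_div_const (by norm_num))
  exact ((eventually_gt_atTop A).and ((h1.eventually_ge_atTop B).and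
    (eventually_gt_atTop 0))).exists

theorem kappa_norm (Ch : Chart c b) {w : ℂ} (hw : 0 ≤ w.re) :
    ‖Ch.κ w‖ ≤ Real.exp (3 * w.re) + Ch.C * Real.exp (2 * w.re) := by
  have h1 := Ch.κ_lead w hw
  have h2 : ‖exp (3 * w)‖ = Real.exp (3 * w.re) := by
    rw [Complex.norm_exp]
    congr 1
    simp
  calc ‖Ch.κ w‖ = ‖exp (3 * w) + (Ch.κ w - exp (3 * w))‖ := by ring_nf
    _ ≤ ‖exp (3 * w)‖ + ‖Ch.κ w - exp (3 * w)‖ := norm_add_le _ _
    _ ≤ _ := by rw [h2]; linarith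

theorem even_aux {Ch : Chart c b} (W : Win Ch) (hb : ‖b‖ = 1) (hψ : Unst c b s ψ) :
    ∀ t ∈ Gam W s ψ, ∃ t' ∈ Gam W s ψ, ∀ w ∈ RHP, t' (2 * w) = (b / 2) * t w + Ch.κ w := by
  rintro t ⟨hext, hd, ⟨i, hi, ζ, hζ, hP⟩, hwin⟩
  have hS0 : 0 < W.S := by linarith [W.hS, Ch.hS]
  have hhalf : MapsTo (fun v : ℂ => v / 2) RHP RHP := by
    intro v hv
    show 0 < (v / 2).re
    have : (v / 2).re = v.re / 2 := by simp
    rw [this]
    exact half_pos hv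
  obtain ⟨x, hx, hx2, hx0⟩ := exists_large W.S (1 + Ch.C)
  have hTd : DifferentiableOn ℂ (fun v => (b / 2) * t (v / 2) + Ch.κ (v / 2)) RHP := by
    apply DifferentiableOn.add
    · apply DifferentiableOn.mul (differentiableOn_const _)
      exact hd.comp (by fun_prop) hhalf
    · exact (Ch.κ_diff.comp (by fun_prop)).differentiableOn
  obtain ⟨t', ht', h'⟩ := mk_mem W hb hψ hTd (i := i + 1) (ζ := fun v => ζ (v / 2))
    (hζ.comp (by fun_prop) hhalf) (fun v hv => by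
      rw [Function.iterate_succ_apply', ← hP _ (hhalf hv), Ch.Pi_step _ _ (hhalf hv)]
      rw [mul_div_cancel₀ v (two_ne_zero' ℂ)]) (w₁ := ((2 * x : ℝ) : ℂ))
      (by rw [Complex.ofReal_re]; linarith) (by
      rw [Complex.ofReal_re]
      have e1 : ((2 * x : ℝ) : ℂ) / 2 = (x : ℂ) := by push_cast; ring
      rw [e1]
      have h1 := hwin (x : ℂ) (by rw [Complex.ofReal_re]; exact hx)
      rw [Complex.ofReal_re] at h1
      have h2 := kappa_norm Ch (w := (x : ℂ)) (by rw [Complex.ofReal_re]; exact hx0.le)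
      rw [Complex.ofReal_re] at h2
      have h3 := (W.hbig x hx.le).1
      set E := Real.exp (x / 4) with hE
      have hE1 : 1 ≤ E := by
        rw [hE]; exact Real.one_le_exp (by linarith)
      have e3 : Real.exp (3 * x) = E ^ 12 := by
        rw [hE, ← Real.exp_nat_mul]; congr 1; push_cast; ring
      have e2 : Real.exp (2 * x) = E ^ 8 := by
        rw [hE, ← Real.exp_nat_mul]; congr 1; push_cast; ring
      have e32 : Real.exp (3 / 2 * x) = E ^ 6 := by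
        rw [hE, ← Real.exp_nat_mul]; congr 1; push_cast; ring
      have e74 : Real.exp (7 / 4 * x) = E ^ 7 := by
        rw [hE, ← Real.exp_nat_mul]; congr 1; push_cast; ring
      have e72 : Real.exp (7 / 4 * (2 * x)) = E ^ 14 := by
        rw [hE, ← Real.exp_nat_mul]; congr 1; push_cast; ring
      rw [e32, e74] at h3
      rw [e32] at h1
      rw [e3, e2] at h2
      rw [e72]
      have hCh := Ch.hC
      have hWC := W.hC
      have hp : ∀ m n : ℕ, m ≤ n → E ^ m ≤ E ^ n := fun m n h => pow_le_pow_right₀ hE1 h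
      have h4 : E ^ 12 + Ch.C * E ^ 8 ≤ E ^ 14 := by
        have h5 : E ^ 12 + Ch.C * E ^ 8 ≤ (1 + Ch.C) * E ^ 12 := by
          nlinarith [hp 8 12 (by norm_num)]
        have h6 : (1 + Ch.C) * E ^ 12 ≤ E * E ^ 12 :=
          mul_le_mul_of_nonneg_right hx2 (by positivity)
        have h7 := hp 13 14 (by norm_num)
        nlinarith
      have h8 : W.C * E ^ 6 ≤ E ^ 14 := by
        have h9 : 0 ≤ W.C * E ^ 6 := by positivity
        have h10 := hp 7 14 (by norm_num)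
        nlinarith
      calc ‖(b / 2) * t (x : ℂ) + Ch.κ (x : ℂ)‖ ≤ ‖(b / 2) * t (x : ℂ)‖ + ‖Ch.κ (x : ℂ)‖ :=
            norm_add_le _ _
        _ = 1 / 2 * ‖t (x : ℂ)‖ + ‖Ch.κ (x : ℂ)‖ := by
            rw [norm_mul, norm_div, hb]; simp
        _ ≤ 2 * E ^ 14 := by
            have : 0 ≤ ‖t (x : ℂ)‖ := norm_nonneg _
            nlinarith)
  refine ⟨t', ht', fun w hw => ?_⟩
  have h2w : 2 * w ∈ RHP := by
    show 0 < (2 * w).re
    have : (2 * w).re = 2 * w.re := by simp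
    rw [this]
    have : (0:ℝ) < w.re := hw
    linarith
  rw [h' _ h2w]
  rw [mul_div_cancel_left₀ w (two_ne_zero' ℂ)]

theorem shift_aux {Ch : Chart c b} (W : Win Ch) (hb : ‖b‖ = 1) (hψ : Unst c b s ψ) (a : ℂ)
    (ha : a.re = 0) (hper : ∀ w u, 0 < w.re → Ch.Pi (w + a) u = Ch.Pi w u) :
    ∀ t ∈ Gam W s ψ, ∃ t' ∈ Gam W s ψ, ∀ w ∈ RHP, t' w = t (w + a) := by
  rintro t ⟨hext, hd, ⟨i, hi, ζ, hζ, hP⟩, hwin⟩
  have hm : MapsTo (fun v : ℂ => v + a) RHP RHP := by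
    intro v hv
    show 0 < (v + a).re
    rw [Complex.add_re, ha, add_zero]
    exact hv
  refine mk_mem W hb hψ (t := fun w => t (w + a)) (hd.comp (by fun_prop) hm) (i := i)
    (ζ := fun w => ζ (w + a)) (hζ.comp (by fun_prop) hm) (fun w hw => ?_)
    (w₁ := ((W.S + 1 : ℝ) : ℂ)) (by rw [Complex.ofReal_re]; linarith) ?_
  · rw [← hP _ (hm hw), hper w _ hw]
  · have h1 := hwin (((W.S + 1 : ℝ) : ℂ) + a)
      (by rw [Complex.add_re, ha, add_zero, Complex.ofReal_re]; linarith)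
    rw [Complex.add_re, ha, add_zero, Complex.ofReal_re] at h1
    rw [Complex.ofReal_re]
    have h3 := (W.hbig (W.S + 1) (by linarith)).1
    have h9 : 0 ≤ W.C * Real.exp (3 / 2 * (W.S + 1)) :=
      mul_nonneg (by linarith [W.hC]) (Real.exp_pos _).le
    have := Real.exp_pos (7 / 4 * (W.S + 1))
    linarith

theorem hen_inj (hb : ‖b‖ = 1) : Function.Injective (hen c b) := by
  have hb0 : b ≠ 0 := by
    intro h
    rw [h, norm_zero] at hb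
    exact zero_ne_one hb
  exact Function.LeftInverse.injective (henInv_hen c b hb0)

theorem pre_aux {Ch : Chart c b} (W : Win Ch) (hb : ‖b‖ = 1) (hψ : Unst c b s ψ) :
    ∀ t ∈ Gam W s ψ, ∃ e : ℂ, (e = 0 ∨ e = Real.pi * I) ∧ ∃ t' ∈ Gam W s ψ, ∀ w ∈ RHP,
      t (2 * w) = (b / 2) * t' (w + e) + Ch.κ (w + e) := by
  rintro t ⟨hext, hd, ⟨i, hi, ζ, hζ, hP⟩, hwin⟩
  have hS0 : 0 < W.S := by linarith [W.hS, Ch.hS]
  have hb0 : b ≠ 0 := by
    intro h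
    rw [h, norm_zero] at hb
    exact zero_ne_one hb
  have hμ0 : s.μ ≠ 0 := by
    intro h
    have := s.hμ
    rw [h, norm_zero] at this
    linarith
  set w₁ : ℂ := ((2 * W.S + 1 : ℝ) : ℂ) with hw₁
  have hre₁ : w₁.re = 2 * W.S + 1 := Complex.ofReal_re _
  have hb1 : ‖t w₁‖ ≤ 2 * Real.exp (7 / 4 * w₁.re) := by
    have h1 := hwin w₁ (by rw [hre₁]; linarith)
    have h3 := (W.hbig w₁.re (by rw [hre₁]; linarith)).1
    have h9 : 0 ≤ W.C * Real.exp (3 / 2 * w₁.re) :=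
      mul_nonneg (by linarith [W.hC]) (Real.exp_pos _).le
    have := Real.exp_pos (7 / 4 * w₁.re)
    linarith
  have hw₁R : w₁ ∈ RHP := by
    show 0 < w₁.re
    rw [hre₁]; linarith
  obtain ⟨e, he, u', hu0, hu1, hu2⟩ := W.zsplit w₁ (t w₁) (by rw [hre₁]; linarith) hb1
    (zero_of hb hψ hP w₁ hw₁R)
  refine ⟨e, he, ?_⟩
  have here : e.re = 0 := by
    rcases he with h | h
    · rw [h]; rfl
    · rw [h]; simp
  have hper : ∀ w u, 0 < w.re → Ch.Pi (2 * w - 2 * e) u = Ch.Pi (2 * w) u := by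
    intro w u hw
    rcases he with h | h
    · rw [h, mul_zero, sub_zero]
    · have h1 := Ch.Pi_per (2 * w - 2 * e) u (by simp [here, hw])
      rw [← h1, h]
      congr 1
      ring
  have hm : MapsTo (fun v : ℂ => 2 * v - 2 * e) RHP RHP := by
    intro v hv
    show 0 < (2 * v - 2 * e).re
    have : (2 * v - 2 * e).re = 2 * v.re := by simp [here]
    rw [this]
    have : (0:ℝ) < v.re := hv
    linarith
  have hTd : DifferentiableOn ℂ (fun v => (2 / b) * (t (2 * v - 2 * e) - Ch.κ v)) RHP := by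
    apply DifferentiableOn.mul (differentiableOn_const _)
    apply DifferentiableOn.sub
    · exact hd.comp (by fun_prop) hm
    · exact Ch.κ_diff.differentiableOn
  obtain ⟨N', hN'⟩ : ∃ N', s.N = N' + 1 := ⟨s.N - 1, by have := s.hN; omega⟩
  have hhalf : (w₁ / 2 + e).re = W.S + 1 / 2 := by
    rw [Complex.add_re, here, add_zero]
    have : (w₁ / 2).re = w₁.re / 2 := by simp
    rw [this, hre₁]
    ring
  obtain ⟨t', ht', h'⟩ := mk_mem W hb hψ hTd (i := i + N')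
    (ζ := fun v => s.μ⁻¹ * ζ (2 * v - 2 * e))
    ((differentiableOn_const _).mul (hζ.comp (by fun_prop) hm)) (fun v hv => by
      apply hen_inj hb
      rw [Ch.Pi_step _ _ hv]
      have h1 : (b / 2) * ((2 / b) * (t (2 * v - 2 * e) - Ch.κ v)) + Ch.κ v =
          t (2 * v - 2 * e) := by
        field_simp
        ring
      rw [h1, ← hper v _ hv, hP _ (hm hv), ← Function.iterate_succ_apply' (hen c b) (i + N')]
      rw [show (i + N').succ = i + 1 * s.N by rw [hN']; omega, iter_red hψ]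
      congr 2
      rw [pow_one, mul_inv_cancel_left₀ hμ0]) (w₁ := w₁ / 2 + e)
      (by rw [hhalf]; linarith) (by
      have h1 : 2 * (w₁ / 2 + e) - 2 * e = w₁ := by ring
      rw [h1]
      have h2 : (2 / b) * (t w₁ - Ch.κ (w₁ / 2 + e)) = u' := by
        rw [hu2]
        field_simp
        ring
      rw [h2]
      have h3 := (W.hbig (w₁ / 2 + e).re (by rw [hhalf]; linarith)).1
      have h9 : 0 ≤ W.C * Real.exp (3 / 2 * (w₁ / 2 + e).re) :=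
        mul_nonneg (by linarith [W.hC]) (Real.exp_pos _).le
      have h10 := Real.exp_pos (7 / 4 * (w₁ / 2 + e).re)
      have h11 : 3 / 4 * w₁.re = 3 / 2 * (w₁ / 2 + e).re := by
        rw [hhalf, hre₁]; ring
      rw [h11] at hu1
      linarith)
  refine ⟨t', ht', fun w hw => ?_⟩
  have hwe : w + e ∈ RHP := by
    show 0 < (w + e).re
    rw [Complex.add_re, here, add_zero]
    exact hw
  rw [h' _ hwe]
  have h1 : 2 * (w + e) - 2 * e = 2 * w := by ring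
  rw [h1]
  field_simp
  ring

theorem geo (hb : ‖b‖ = 1) : ∃ S' A : ℝ, 0 ≤ A ∧ ∀ p : ℂ × ℂ, Gm c b p = 0 → S' < Gp c b p →
    p ∈ VP c ∧ ‖p.2‖ ≤ ‖p.1‖ / 4 ∧ ‖p.2‖ ≤ A * Real.sqrt ‖p.1‖ := by
  obtain ⟨S₁, C₁, hKm⟩ := Km_high c b hb
  obtain ⟨C₃, hGp⟩ := Gp_le c b hb
  refine ⟨max S₁ (C₃ + Real.log (16 * C₁ ^ 2 + 2)), |C₁|, abs_nonneg _, ?_⟩
  intro p h0 hp
  obtain ⟨hV, hy⟩ := hKm p h0 (lt_of_le_of_lt (le_max_left _ _) hp)
  have hX3 : 3 < ‖p.1‖ := by have := hV.1; linarith [norm_nonneg c]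
  have hnorm : ‖p‖ = ‖p.1‖ := by
    rw [Prod.norm_def]; exact max_eq_left hV.2.le
  have h1 := hGp p
  rw [hnorm, max_eq_right (by linarith : (1:ℝ) ≤ ‖p.1‖)] at h1
  have h2 : C₃ + Real.log (16 * C₁ ^ 2 + 2) < Gp c b p := lt_of_le_of_lt (le_max_right _ _) hp
  have h3 : Real.log (16 * C₁ ^ 2 + 2) < Real.log ‖p.1‖ := by linarith
  have h4 : 16 * C₁ ^ 2 + 2 < ‖p.1‖ :=
    (Real.log_lt_log_iff (by positivity) (by linarith)).1 h3
  have hs := Real.sq_sqrt (norm_nonneg p.1)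
  have hs0 := Real.sqrt_nonneg ‖p.1‖
  have h5 : 4 * |C₁| ≤ Real.sqrt ‖p.1‖ := by
    apply Real.le_sqrt_of_sq_le
    rw [mul_pow, sq_abs]
    linarith
  have h6 : ‖p.2‖ ≤ |C₁| * Real.sqrt ‖p.1‖ :=
    hy.trans (mul_le_mul_of_nonneg_right (le_abs_self _) hs0)
  refine ⟨hV, ?_, h6⟩
  nlinarith

theorem win_point (Ch : Chart c b) {w u : ℂ} (hw : Ch.S < w.re)
    (hu : ‖u‖ ≤ Real.exp (2 * w.re) / 4) :
    (w, (Ch.Pi w u).2) ∈ DD Ch.S ∧ (Ch.Pi w u).1 = Ch.X w (Ch.Pi w u).2 := by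
  obtain ⟨y, hy, hU⟩ := Ch.U_surj w u hw hu
  have hD : (w, y) ∈ DD Ch.S := ⟨hw, hy⟩
  have h := Ch.Pi_win w y hD
  rw [hU] at h
  rw [h]
  exact ⟨hD, rfl⟩

theorem Pi_per_int (Ch : Chart c b) (n : ℤ) : ∀ w u : ℂ, 0 < w.re →
    Ch.Pi (w + n * (2 * Real.pi * I)) u = Ch.Pi w u := by
  induction n using Int.induction_on with
  | zero => intro w u hw; simp
  | succ n ih =>
    intro w u hw
    have h1 := Ch.Pi_per (w + n * (2 * Real.pi * I)) u (by simpa using hw)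
    rw [← ih w u hw]
    push_cast
    rw [← h1]
    congr 1
    ring
  | pred n ih =>
    intro w u hw
    have h1 := Ch.Pi_per (w + (-(n : ℤ) - 1 : ℤ) * (2 * Real.pi * I)) u (by simpa using hw)
    rw [← h1, ← ih w u hw]
    congr 1
    push_cast
    ring

theorem point_bound {Ch : Chart c b} (hb : ‖b‖ = 1) {A B : ℝ} (hA : 0 ≤ A)
    (hB : B = A * Real.sqrt (1 + 2 * Ch.C) + Ch.C * (1 + (A * Real.sqrt (1 + 2 * Ch.C)) ^ 2))
    {x : ℝ} (hx0 : 0 < x) (hxS : Ch.S < x) {v : ℂ} (hV : Ch.Pi (x : ℂ) v ∈ VP c)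
    (h4 : ‖(Ch.Pi (x : ℂ) v).2‖ ≤ ‖(Ch.Pi (x : ℂ) v).1‖ / 4)
    (hs : ‖(Ch.Pi (x : ℂ) v).2‖ ≤ A * Real.sqrt ‖(Ch.Pi (x : ℂ) v).1‖)
    (hv : ‖v‖ ≤ Real.exp (2 * x) / 3) (hEb : 4 * (B + 1 + Ch.C) + 1 ≤ Real.exp (x / 4)) :
    ‖v‖ ≤ 2 * Real.exp (7 / 4 * x) := by
  have hCh := Ch.hC
  have hxre : ((x : ℂ)).re = x := Complex.ofReal_re x
  have hxR : 0 < ((x : ℂ)).re := by rw [hxre]; exact hx0
  set p := Ch.Pi (x : ℂ) v with hp
  have hG : Gp c b p = x := by rw [hp, Ch.Pi_Gp _ _ hxR, hxre]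
  obtain ⟨w', hw're, hDD, hpX⟩ := Ch.cover p hV (by rw [hG]; exact hxS) h4
  rw [hG] at hw're
  have hw'0 : 0 < w'.re := by rw [hw're]; exact hx0
  set u' := Ch.Uc w' p.2 with hu'
  have hPi' : Ch.Pi w' u' = p := (Ch.Pi_win w' p.2 hDD).trans hpX.symm
  set E := Real.exp (x / 4) with hE
  have hE1 : 1 ≤ E := by
    rw [hE]; exact Real.one_le_exp (by linarith)
  have hE0 : 0 < E := by linarith
  have e1 : Real.exp x = E ^ 4 := by
    rw [hE, ← Real.exp_nat_mul]; congr 1; push_cast; ring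
  have e3 : Real.exp (3 * x) = E ^ 12 := by
    rw [hE, ← Real.exp_nat_mul]; congr 1; push_cast; ring
  have e2 : Real.exp (2 * x) = E ^ 8 := by
    rw [hE, ← Real.exp_nat_mul]; congr 1; push_cast; ring
  have e74 : Real.exp (7 / 4 * x) = E ^ 7 := by
    rw [hE, ← Real.exp_nat_mul]; congr 1; push_cast; ring
  have e4 : Real.exp (2 * (2 * x)) = E ^ 16 := by
    rw [hE, ← Real.exp_nat_mul]; congr 1; push_cast; ring
  have en : Real.exp (-x) = (E ^ 4)⁻¹ := by rw [Real.exp_neg, e1]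
  have hp' : ∀ m n : ℕ, m ≤ n → E ^ m ≤ E ^ n := fun m n h => pow_le_pow_right₀ hE1 h
  have hp1 : ∀ m : ℕ, 1 ≤ E ^ m := fun m => one_le_pow₀ hE1
  -- norm of the first coordinate
  have hy1 : ‖p.2‖ < E ^ 4 / 2 := by
    have := hDD.2
    simp only [hw're, e1] at this
    exact this
  have hX1 : ‖p.1‖ ≤ (1 + 2 * Ch.C) * E ^ 4 := by
    have h1 := Ch.X_est w' p.2 hDD
    rw [hw're, en] at h1
    have h2 : p.1 = Ch.X w' p.2 := by
      have := congrArg Prod.fst hpX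
      simpa using this
    rw [← h2] at h1
    have h3 : ‖exp w'‖ = E ^ 4 := by rw [Complex.norm_exp, hw're, e1]
    have h5 : ‖p.1‖ ≤ ‖exp w'‖ + ‖p.1 - exp w'‖ := by
      calc ‖p.1‖ = ‖exp w' + (p.1 - exp w')‖ := by ring_nf
        _ ≤ _ := norm_add_le _ _
    have h6 : Ch.C * (1 + ‖p.2‖) * (E ^ 4)⁻¹ ≤ 2 * Ch.C := by
      rw [← div_eq_mul_inv, div_le_iff₀ (by positivity)]
      have := hp1 4
      nlinarith
    have := hp1 4
    rw [h3] at h5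
    nlinarith
  set A₁ := A * Real.sqrt (1 + 2 * Ch.C) with hA₁
  have hA₁0 : 0 ≤ A₁ := mul_nonneg hA (Real.sqrt_nonneg _)
  have hy2 : ‖p.2‖ ≤ A₁ * E ^ 2 := by
    have h1 : Real.sqrt ‖p.1‖ ≤ Real.sqrt (1 + 2 * Ch.C) * E ^ 2 := by
      have h2 : Real.sqrt ((1 + 2 * Ch.C) * E ^ 4) = Real.sqrt (1 + 2 * Ch.C) * E ^ 2 := by
        rw [Real.sqrt_mul (by linarith), show E ^ 4 = (E ^ 2) ^ 2 by ring,
          Real.sqrt_sq (by positivity)]
      rw [← h2]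
      exact Real.sqrt_le_sqrt hX1
    calc ‖p.2‖ ≤ A * Real.sqrt ‖p.1‖ := hs
      _ ≤ A * (Real.sqrt (1 + 2 * Ch.C) * E ^ 2) := mul_le_mul_of_nonneg_left h1 hA
      _ = A₁ * E ^ 2 := by rw [hA₁]; ring
  have hB0 : 0 < B := by rw [hB]; positivity
  have hu'n : ‖u'‖ ≤ B * E ^ 6 := by
    have h1 := Ch.U_est w' p.2 hDD
    rw [hw're, en, ← hu'] at h1
    have h3 : ‖exp w' * p.2‖ ≤ E ^ 4 * (A₁ * E ^ 2) := by
      rw [norm_mul, Complex.norm_exp, hw're, e1]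
      exact mul_le_mul_of_nonneg_left hy2 (by positivity)
    have h5 : ‖u'‖ ≤ ‖exp w' * p.2‖ + ‖u' - exp w' * p.2‖ := by
      calc ‖u'‖ = ‖exp w' * p.2 + (u' - exp w' * p.2)‖ := by ring_nf
        _ ≤ _ := norm_add_le _ _
    have h6 : Ch.C * (1 + ‖p.2‖ ^ 2) * (E ^ 4)⁻¹ ≤ Ch.C * (1 + A₁ ^ 2) := by
      rw [← div_eq_mul_inv, div_le_iff₀ (by positivity)]
      have h7 : ‖p.2‖ ^ 2 ≤ A₁ ^ 2 * E ^ 4 := by
        calc ‖p.2‖ ^ 2 ≤ (A₁ * E ^ 2) ^ 2 := by gcongr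
          _ = _ := by ring
      have h8 := hp1 4
      have h9 : 1 + ‖p.2‖ ^ 2 ≤ (1 + A₁ ^ 2) * E ^ 4 := by nlinarith
      calc Ch.C * (1 + ‖p.2‖ ^ 2) ≤ Ch.C * ((1 + A₁ ^ 2) * E ^ 4) :=
            mul_le_mul_of_nonneg_left h9 (by linarith)
        _ = _ := by ring
    have h10 : Ch.C * (1 + A₁ ^ 2) ≤ Ch.C * (1 + A₁ ^ 2) * E ^ 6 :=
      le_mul_of_one_le_right (by positivity) (hp1 6)
    calc ‖u'‖ ≤ E ^ 4 * (A₁ * E ^ 2) + Ch.C * (1 + A₁ ^ 2) * E ^ 6 := by linarith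
      _ = B * E ^ 6 := by rw [hB]; ring
  have hBE : B * E ^ 6 ≤ E ^ 7 := by
    have : B * E ^ 6 ≤ E * E ^ 6 := mul_le_mul_of_nonneg_right (by linarith) (by positivity)
    linarith [show E * E ^ 6 = E ^ 7 by ring]
  -- the two representations of the image
  have hq1 : hen c b p = Ch.Pi (2 * w') ((b / 2) * u' + Ch.κ w') := by
    rw [← Ch.Pi_step w' u' hw'0, hPi']
  have hq2 : hen c b p = Ch.Pi (2 * (x : ℂ)) ((b / 2) * v + Ch.κ (x : ℂ)) := by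
    rw [← Ch.Pi_step (x : ℂ) v hxR]
  have hre1 : (2 * w').re = 2 * x := by simp [hw're]
  have hre2 : (2 * (x : ℂ)).re = 2 * x := by simp
  have hk1 := kappa_norm Ch hw'0.le
  have hk2 := kappa_norm Ch hxR.le
  rw [hw're, e3, e2] at hk1
  rw [hxre, e3, e2] at hk2
  rw [e2] at hv
  have hfin : ∀ (a k : ℂ), ‖a‖ ≤ E ^ 8 → ‖k‖ ≤ E ^ 12 + Ch.C * E ^ 8 →
      ‖(b / 2) * a + k‖ ≤ E ^ 16 / 4 := by
    intro a k ha hk
    have h1 : ‖(b / 2) * a + k‖ ≤ 1 / 2 * ‖a‖ + ‖k‖ := by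
      calc ‖(b / 2) * a + k‖ ≤ ‖(b / 2) * a‖ + ‖k‖ := norm_add_le _ _
        _ = _ := by rw [norm_mul, norm_div, hb]; simp
    have h2 : E ^ 8 ≤ E ^ 12 := hp' 8 12 (by norm_num)
    have h3 : 4 * (2 + Ch.C) * E ^ 12 ≤ E * E ^ 12 := by
      apply mul_le_mul_of_nonneg_right _ (by positivity)
      have : Ch.C ≤ B := by
        rw [hB]
        nlinarith [sq_nonneg A₁]
      linarith
    have h4 : E ^ 13 ≤ E ^ 16 := hp' 13 16 (by norm_num)
    have h5 : E * E ^ 12 = E ^ 13 := by ring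
    have h6 : Ch.C * E ^ 8 ≤ Ch.C * E ^ 12 := mul_le_mul_of_nonneg_left h2 (by linarith)
    nlinarith
  have hE78 : E ^ 7 ≤ E ^ 8 := hp' 7 8 (by norm_num)
  have hE80 : 0 < E ^ 8 := by positivity
  have hf1 := hfin u' (Ch.κ w') (by linarith) hk1
  have hf2 := hfin v (Ch.κ (x : ℂ)) (by linarith) hk2
  obtain ⟨hD1, hX1'⟩ := win_point Ch (w := 2 * w') (u := (b / 2) * u' + Ch.κ w')
    (by rw [hre1]; linarith) (by rw [hre1, e4]; exact hf1)
  obtain ⟨hD2, hX2'⟩ := win_point Ch (w := 2 * (x : ℂ)) (u := (b / 2) * v + Ch.κ (x : ℂ))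
    (by rw [hre2]; linarith) (by rw [hre2, e4]; exact hf2)
  rw [← hq1] at hD1 hX1'
  rw [← hq2] at hD2 hX2'
  have hexp := Ch.X_inj _ _ _ hD1 hD2 (hX1'.symm.trans hX2')
  obtain ⟨n, hn⟩ := Complex.exp_eq_exp_iff_exists_int.1 hexp
  have hw'x : w' = (x : ℂ) + n * (Real.pi * I) := by
    have h1 : 2 * w' = 2 * ((x : ℂ) + n * (Real.pi * I)) := by rw [hn]; ring
    exact mul_left_cancel₀ two_ne_zero h1
  have hu : (b / 2) * u' + Ch.κ w' = (b / 2) * v + Ch.κ (x : ℂ) := by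
    apply Ch.Pi_inj (2 * (x : ℂ)) (by rw [hre2]; linarith)
    rw [← hq2, hq1, hn, Pi_per_int Ch n _ _ (by rw [hre2]; linarith)]
  have hb0 : b ≠ 0 := by
    intro h
    rw [h, norm_zero] at hb
    exact zero_ne_one hb
  rcases Int.even_or_odd' n with ⟨k, hk | hk⟩
  · have hper : Function.Periodic Ch.κ (2 * Real.pi * I) := Ch.κ_per
    have h1 : Ch.κ w' = Ch.κ (x : ℂ) := by
      have h2 : w' = (x : ℂ) + k * (2 * Real.pi * I) := by
        rw [hw'x, hk]; push_cast; ring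
      rw [h2]
      exact hper.int_mul k (x : ℂ)
    rw [h1] at hu
    have h3 : u' = v := by
      have h4 : (b / 2) * u' = (b / 2) * v := add_right_cancel hu
      exact mul_left_cancel₀ (div_ne_zero hb0 two_ne_zero) h4
    rw [← h3, e74]
    have : (0:ℝ) < E ^ 7 := by positivity
    linarith
  · exfalso
    have h1 : exp (3 * w') = - exp (3 * (x : ℂ)) := by
      have h2 : 3 * w' = 3 * (x : ℂ) + Real.pi * I + ((3 * k + 1 : ℤ) : ℂ) * (2 * Real.pi * I) := by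
        rw [hw'x, hk]; push_cast; ring
      rw [h2, Complex.exp_add, Complex.exp_add, Complex.exp_pi_mul_I,
        Complex.exp_int_mul_two_pi_mul_I]
      ring
    have h3 := Ch.κ_lead w' hw'0.le
    have h5 := Ch.κ_lead (x : ℂ) hxR.le
    rw [hw're, e2] at h3
    rw [hxre, e2] at h5
    have h6 : ‖exp (3 * (x : ℂ))‖ = E ^ 12 := by
      rw [Complex.norm_exp, ← e3]
      congr 1
      simp
    have h7 : 2 * exp (3 * (x : ℂ)) = (Ch.κ w' - exp (3 * w')) - (Ch.κ (x : ℂ) - exp (3 * (x : ℂ)))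
        + (b / 2) * (u' - v) := by
      rw [h1]
      linear_combination (-1 : ℂ) * hu
    have h8 : ‖2 * exp (3 * (x : ℂ))‖ = 2 * E ^ 12 := by
      rw [norm_mul, h6]; simp
    have h9 : ‖(b / 2) * (u' - v)‖ ≤ 1 / 2 * (‖u'‖ + ‖v‖) := by
      rw [norm_mul, norm_div, hb]
      have := norm_sub_le u' v
      simp only [Complex.norm_ofNat]
      linarith
    have h10 : 2 * E ^ 12 ≤ Ch.C * E ^ 8 + Ch.C * E ^ 8 + 1 / 2 * (‖u'‖ + ‖v‖) := by
      rw [← h8, h7]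
      calc _ ≤ ‖(Ch.κ w' - exp (3 * w')) - (Ch.κ (x : ℂ) - exp (3 * (x : ℂ)))‖
            + ‖(b / 2) * (u' - v)‖ := norm_add_le _ _
        _ ≤ ‖Ch.κ w' - exp (3 * w')‖ + ‖Ch.κ (x : ℂ) - exp (3 * (x : ℂ))‖
            + ‖(b / 2) * (u' - v)‖ := by
            gcongr
            exact norm_sub_le _ _
        _ ≤ _ := by linarith
    have h11 : 2 * E ^ 12 ≤ (2 * Ch.C + 1) * E ^ 8 := by linarith
    have h12 : (4 * (B + 1 + Ch.C) + 1) * E ^ 8 ≤ E * E ^ 8 :=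
      mul_le_mul_of_nonneg_right hEb (by positivity)
    have h13 : E ^ 9 ≤ E ^ 12 := hp' 9 12 (by norm_num)
    have h14 : E * E ^ 8 = E ^ 9 := by ring
    nlinarith

theorem ne_aux {Ch : Chart c b} (W : Win Ch) (hb : ‖b‖ = 1) (hψ : Unst c b s ψ) {σ : ℂ → ℂ}
    (hσ : IsBranch (fun z => Gp c b (ψ z)) σ RHP) : (Gam W s ψ).Nonempty := by
  have hS0 : 0 < W.S := by linarith [W.hS, Ch.hS]
  have hzd : DifferentiableOn ℂ (fun w => ψ (σ w)) RHP := hψ.diff.comp_differentiableOn hσ.1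
  have hzG : ∀ w ∈ RHP, Gp c b (ψ (σ w)) = w.re := hσ.2
  obtain ⟨S', A, hA, hgeo⟩ := geo (c := c) hb
  obtain ⟨θ, s₀, hs₀d, hs₀, S'', hS''⟩ := Ch.lift (fun w => ψ (σ w)) hzd hzG
    ⟨max S' 0, fun w hw => by
      have hw0 : w ∈ RHP := lt_of_le_of_lt (le_max_right _ _) hw
      obtain ⟨h1, h2, _⟩ := hgeo (ψ (σ w)) (hψ.Gm_zero hb _)
        (by rw [hzG w hw0]; exact lt_of_le_of_lt (le_max_left _ _) hw)
      exact ⟨h1, h2⟩⟩
  obtain ⟨x, hx, hxE, hx0⟩ := exists_large (max (max S' S'') W.S)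
    (4 * ((A * Real.sqrt (1 + 2 * Ch.C) + Ch.C * (1 + (A * Real.sqrt (1 + 2 * Ch.C)) ^ 2))
      + 1 + Ch.C) + 1)
  have hxS' : S' < x := lt_of_le_of_lt ((le_max_left _ _).trans (le_max_left _ _)) hx
  have hxS'' : S'' < x := lt_of_le_of_lt ((le_max_right _ _).trans (le_max_left _ _)) hx
  have hxW : W.S < x := lt_of_le_of_lt (le_max_right _ _) hx
  have hxre : ((x : ℂ)).re = x := Complex.ofReal_re x
  have hxR : (x : ℂ) ∈ RHP := by
    show 0 < ((x : ℂ)).re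
    rw [hxre]; exact hx0
  have hm : MapsTo (fun v : ℂ => v - θ * I) RHP RHP := by
    intro v hv
    show 0 < (v - θ * I).re
    have : (v - θ * I).re = v.re := by simp
    rw [this]
    exact hv
  have h0 : Gm c b (Ch.Pi (x : ℂ) (s₀ (x : ℂ))) = 0 := by
    rw [← hs₀ _ hxR]
    exact hψ.Gm_zero hb _
  have hG : Gp c b (Ch.Pi (x : ℂ) (s₀ (x : ℂ))) = x := by
    rw [Ch.Pi_Gp _ _ hxR, hxre]
  obtain ⟨h1, h2, h3⟩ := hgeo _ h0 (by rw [hG]; exact hxS')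
  have hb1 := point_bound hb hA rfl hx0 (lt_of_le_of_lt W.hS hxW) h1 h2 h3
    (by have := hS'' (x : ℂ) (by rw [hxre]; exact hxS''); rwa [hxre] at this) hxE
  obtain ⟨t', ht', -⟩ := mk_mem W hb hψ hs₀d (i := 0) (ζ := fun w => σ (w - θ * I))
    (hσ.1.comp (by fun_prop) hm) (fun w hw => (hs₀ w hw).symm) (w₁ := (x : ℂ))
    (by rw [hxre]; exact hxW) (by rw [hxre]; exact hb1)
  exact ⟨t', ht'⟩

end FamAux

open FamAux in
theorem exists_fam {c b : ℂ} (hb : ‖b‖ = 1) {Ch : Chart c b} (W : Win Ch) {s : Saddle c b}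
    {ψ : ℂ → ℂ × ℂ} (hψ : Unst c b s ψ) (hreg : ∀ z, 0 < Gp c b (ψ z) →
      RegRe (fun z => Gp c b (ψ z)) z) {σ : ℂ → ℂ}
    (hσ : IsBranch (fun z => Gp c b (ψ z)) σ RHP) : Nonempty (Fam W) := by
  refine ⟨{
    Γ := Gam W s ψ
    ne := ne_aux W hb hψ hσ
    ext := fun t ht => ht.1
    diff := fun t ht => ht.2.1
    zero := fun t ht => by
      obtain ⟨-, -, ⟨i, -, ζ, -, hP⟩, -⟩ := ht
      exact zero_of hb hψ hP
    win := fun t ht => ht.2.2.2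
    uniq := uniq_aux W hb hψ hreg
    shift := fun t ht => shift_aux W hb hψ (2 * Real.pi * I) (by simp) Ch.Pi_per t ht
    shift' := fun t ht => by
      obtain ⟨t', ht', h⟩ := shift_aux W hb hψ (-(2 * Real.pi * I)) (by simp) (fun w u hw => by
        rw [← Ch.Pi_per (w + -(2 * Real.pi * I)) u (by simpa using hw)]
        congr 1
        ring) t ht
      exact ⟨t', ht', fun w hw => by rw [h w hw, sub_eq_add_neg]⟩
    even := even_aux W hb hψ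
    odd := fun t ht => by
      obtain ⟨t₁, ht₁, h₁⟩ := even_aux W hb hψ t ht
      obtain ⟨t₂, ht₂, h₂⟩ := shift_aux W hb hψ (2 * Real.pi * I) (by simp) Ch.Pi_per t₁ ht₁
      refine ⟨t₂, ht₂, fun w hw => ?_⟩
      have h2w : 2 * w ∈ RHP := by
        show 0 < (2 * w).re
        have : (2 * w).re = 2 * w.re := by simp
        rw [this]
        have : (0:ℝ) < w.re := hw
        linarith
      have hwp : w + Real.pi * I ∈ RHP := by
        show 0 < (w + Real.pi * I).re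
        have : (w + Real.pi * I).re = w.re := by simp
        rw [this]
        exact hw
      rw [h₂ _ h2w, ← h₁ _ hwp]
      congr 1
      ring
    pre := fun t ht => by
      obtain ⟨e, he, t', ht', h⟩ := pre_aux W hb hψ t ht
      rcases he with he | he
      · left
        refine ⟨t', ht', fun w hw => ?_⟩
        have := h w hw
        rwa [he, add_zero] at this
      · right
        refine ⟨t', ht', fun w hw => ?_⟩
        have := h w hw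
        rwa [he] at this }⟩

end H6ea4aa
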