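import Pool.Agent.H.MP_6ea4aa_an.Defs
import Pool.Agent.H.MP_3a36cd_an.SCV1

/-!
# MP_6ea4aa: linearising parametrisation of an unstable manifold
-/

set_option autoImplicit false

open Complex Set Filter Topology Metric

namespace H6ea4aa

/-- second order estimate along the first axis -/
private theorem param_quad (G : ℂ × ℂ → ℂ × ℂ) (hG : Differentiable ℂ G) (h0 : G 0 = 0)
    (A : ℂ × ℂ →L[ℂ] ℂ × ℂ) (hA : HasFDerivAt G A 0) :
    ∃ C : ℝ, 0 ≤ C ∧ ∀ ζ : ℂ, ‖ζ‖ ≤ 1 → ‖G (ζ, 0) - A (ζ, 0)‖ ≤ C * ‖ζ‖ ^ 2 := by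
  obtain ⟨B, hB⟩ := (isCompact_closedBall (0 : ℂ × ℂ) 2).exists_bound_of_continuousOn
    hG.continuous.continuousOn
  have hB0 : 0 ≤ B := (norm_nonneg _).trans (hB 0 (by simp))
  refine ⟨B, hB0, fun ζ hζ => ?_⟩
  by_cases hz : ζ = 0
  · subst hz
    have e : ((0 : ℂ), (0 : ℂ)) = 0 := rfl
    rw [e, h0]
    simp
  have hpos : 0 < ‖ζ‖ := norm_pos_iff.mpr hz
  have hR : (1 : ℝ) < 2 / ‖ζ‖ := by
    rw [lt_div_iff₀ hpos]; linarith
  have hlin : ∀ t : ℂ, HasDerivAt (fun t : ℂ => ((t * ζ, 0) : ℂ × ℂ)) (ζ, 0) t := by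
    intro t
    have h1 : HasDerivAt (fun t : ℂ => t * ζ) ζ t := by
      simpa using (hasDerivAt_id' t).mul_const ζ
    exact h1.prodMk (hasDerivAt_const t (0 : ℂ))
  have hd : HasDerivAt (fun t : ℂ => G (t * ζ, 0)) (A (ζ, 0)) 0 := by
    have h1 : HasFDerivAt G A ((fun t : ℂ => ((t * ζ, 0) : ℂ × ℂ)) 0) := by
      have e : (fun t : ℂ => ((t * ζ, 0) : ℂ × ℂ)) 0 = 0 := by simp
      rw [e]
      exact hA
    exact HasFDerivAt.comp_hasDerivAt (f := fun t : ℂ => ((t * ζ, 0) : ℂ × ℂ)) (0 : ℂ) h1 (hlin 0)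
  have hdiff : Differentiable ℂ (fun t : ℂ => G (t * ζ, 0)) := fun t =>
    (hG _).comp t (hlin t).differentiableAt
  have key := Pool.Agent.ParLeaf.SCV1_onevar (g := fun t : ℂ => G (t * ζ, 0)) (R := 2 / ‖ζ‖)
    (B := B) hR hdiff.differentiableOn (by
      intro t ht
      apply hB
      rw [mem_ball_zero_iff, lt_div_iff₀ hpos] at ht
      rw [mem_closedBall_zero_iff, Prod.norm_def]
      simp only [norm_zero, norm_mul]
      exact max_le ht.le (by norm_num))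
  have h2 := key.2
  rw [hd.deriv] at h2
  simp only [one_mul, zero_mul] at h2
  have e : ((0 : ℂ), (0 : ℂ)) = 0 := rfl
  rw [e, h0, sub_zero] at h2
  refine h2.trans (le_of_eq ?_)
  field_simp
  ring

/-- the approximations -/
private noncomputable def paramSeq (G : ℂ × ℂ → ℂ × ℂ) (μ : ℂ) : ℕ → ℂ → ℂ × ℂ
  | 0, z => (z, 0)
  | n + 1, z => G (paramSeq G μ n (z / μ))

private theorem paramSeq_differentiable (G : ℂ × ℂ → ℂ × ℂ) (hG : Differentiable ℂ G) (μ : ℂ)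
    (n : ℕ) : Differentiable ℂ (paramSeq G μ n) := by
  induction n with
  | zero =>
    show Differentiable ℂ (fun z : ℂ => ((z, 0) : ℂ × ℂ))
    fun_prop
  | succ n ih =>
    show Differentiable ℂ (fun z : ℂ => G (paramSeq G μ n (z / μ)))
    exact hG.comp (ih.comp (by fun_prop))

private theorem param_local (G : ℂ × ℂ → ℂ × ℂ) (hG : Differentiable ℂ G) (h0 : G 0 = 0)
    (μ ν : ℂ) (hμ : 1 < ‖μ‖) (hν : ‖ν‖ < 1)
    (hA : ∀ a b : ℂ, fderiv ℂ G 0 (a, b) = (μ * a, ν * b)) :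
    ∃ ρ : ℝ, 0 < ρ ∧ ∃ C : ℝ, 0 ≤ C ∧ ∃ ψ : ℂ → ℂ × ℂ, DifferentiableOn ℂ ψ (ball 0 ρ) ∧
      (∀ z ∈ ball (0 : ℂ) ρ, ‖ψ z - (z, 0)‖ ≤ C * ‖z‖ ^ 2) ∧
      ∀ z ∈ ball (0 : ℂ) ρ, ψ z = G (ψ (z / μ)) := by
  have hμ0 : μ ≠ 0 := by
    intro h; rw [h, norm_zero] at hμ; linarith
  have hμp : 0 < ‖μ‖ := by linarith
  set A := fderiv ℂ G 0 with hAdef
  have hA1 : HasFDerivAt G A 0 := (hG 0).hasFDerivAt
  have hCD : ContDiff ℂ (⊤ : ℕ∞) G :=
    contDiffOn_univ.mp (Pool.Agent.ParLeaf.scv_contDiffOn isOpen_univ hG.differentiableOn)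
  have hst : HasStrictFDerivAt G A 0 := hCD.contDiffAt.hasStrictFDerivAt (by simp)
  set m : ℝ := (‖μ‖ + ‖μ‖ ^ 2) / 2 with hm
  have hμμ : ‖μ‖ < ‖μ‖ ^ 2 := by nlinarith
  have hε : 0 < (‖μ‖ ^ 2 - ‖μ‖) / 2 := by linarith
  have hmp : 0 < m := by positivity
  have hev := hst.isLittleO.def hε
  obtain ⟨r, hr, hball⟩ := Metric.eventually_nhds_iff_ball.mp hev
  have hAn : ∀ x : ℂ × ℂ, ‖A x‖ ≤ ‖μ‖ * ‖x‖ := by
    rintro ⟨a, b⟩
    rw [hA, Prod.norm_def, Prod.norm_def]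
    refine max_le ?_ ?_
    · rw [norm_mul]
      exact mul_le_mul_of_nonneg_left (le_max_left _ _) (norm_nonneg _)
    · rw [norm_mul]
      calc ‖ν‖ * ‖b‖ ≤ ‖μ‖ * ‖b‖ := mul_le_mul_of_nonneg_right (by linarith) (norm_nonneg _)
        _ ≤ _ := mul_le_mul_of_nonneg_left (le_max_right _ _) (norm_nonneg _)
  have hLip : ∀ x y : ℂ × ℂ, ‖x‖ < r → ‖y‖ < r → ‖G x - G y‖ ≤ m * ‖x - y‖ := by
    intro x y hx hy
    have h1 : ‖G x - G y - A (x - y)‖ ≤ (‖μ‖ ^ 2 - ‖μ‖) / 2 * ‖x - y‖ := by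
      refine hball (x, y) ?_
      rw [mem_ball, Prod.dist_eq]
      simpa [dist_zero_right] using ⟨hx, hy⟩
    calc ‖G x - G y‖ = ‖(G x - G y - A (x - y)) + A (x - y)‖ := by rw [sub_add_cancel]
      _ ≤ ‖G x - G y - A (x - y)‖ + ‖A (x - y)‖ := norm_add_le _ _
      _ ≤ (‖μ‖ ^ 2 - ‖μ‖) / 2 * ‖x - y‖ + ‖μ‖ * ‖x - y‖ := add_le_add h1 (hAn _)
      _ = m * ‖x - y‖ := by rw [hm]; ring
  obtain ⟨C, hC0, hC⟩ := param_quad G hG h0 A hA1
  set q : ℝ := m / ‖μ‖ ^ 2 with hq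
  have hμ2 : 0 < ‖μ‖ ^ 2 := by positivity
  have hq0 : 0 < q := div_pos hmp hμ2
  have hq1 : q < 1 := by
    rw [hq, div_lt_one hμ2, hm]; linarith
  set K : ℝ := C / ‖μ‖ ^ 2 with hK
  have hK0 : 0 ≤ K := div_nonneg hC0 hμ2.le
  set C' : ℝ := K / (1 - q) with hC'
  have h1q : 0 < 1 - q := by linarith
  have hC'0 : 0 ≤ C' := div_nonneg hK0 h1q.le
  have hKC : K = C' * (1 - q) := by rw [hC']; field_simp
  set ρ : ℝ := min 1 (r / (2 * (1 + C'))) with hρ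
  have hρ0 : 0 < ρ := lt_min one_pos (by positivity)
  have hρ1 : ρ ≤ 1 := min_le_left _ _
  have hρr : ρ * (1 + C') ≤ r / 2 := by
    calc ρ * (1 + C') ≤ (r / (2 * (1 + C'))) * (1 + C') :=
          mul_le_mul_of_nonneg_right (min_le_right _ _) (by positivity)
      _ = r / 2 := by field_simp
  have hsmall : ∀ z : ℂ, ‖z‖ ≤ ρ → ‖z‖ + C' * ‖z‖ ^ 2 < r := by
    intro z hz
    have h1 : ‖z‖ ^ 2 ≤ ρ := by
      nlinarith [norm_nonneg z]
    have h2 : C' * ‖z‖ ^ 2 ≤ C' * ρ := mul_le_mul_of_nonneg_left h1 hC'0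
    nlinarith
  have hdivnorm : ∀ z : ℂ, ‖z‖ ≤ ρ → ‖z / μ‖ ≤ ρ := by
    intro z hz
    rw [norm_div]
    exact (div_le_self (norm_nonneg _) hμ.le).trans hz
  have hdiv2 : ∀ z : ℂ, ‖z / μ‖ ^ 2 = ‖z‖ ^ 2 / ‖μ‖ ^ 2 := by
    intro z; rw [norm_div, div_pow]
  have hmem : ∀ (n : ℕ) (z : ℂ), ‖z‖ ≤ ρ →
      ‖paramSeq G μ n z - (z, 0)‖ ≤ C' * (1 - q ^ n) * ‖z‖ ^ 2 → ‖paramSeq G μ n z‖ < r := by
    intro n z hz h
    have hqn : 0 ≤ q ^ n := by positivity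
    have e : ‖((z, 0) : ℂ × ℂ)‖ = ‖z‖ := by
      rw [Prod.norm_def]; simp
    have h3 : C' * (1 - q ^ n) * ‖z‖ ^ 2 ≤ C' * ‖z‖ ^ 2 := by
      have : C' * (1 - q ^ n) ≤ C' := by nlinarith
      exact mul_le_mul_of_nonneg_right this (by positivity)
    calc ‖paramSeq G μ n z‖ = ‖(z, 0) + (paramSeq G μ n z - (z, 0))‖ := by
          rw [add_sub_cancel]
      _ ≤ ‖((z, 0) : ℂ × ℂ)‖ + ‖paramSeq G μ n z - (z, 0)‖ := norm_add_le _ _
      _ ≤ ‖z‖ + C' * ‖z‖ ^ 2 := by rw [e]; linarith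
      _ < r := hsmall z hz
  have hind : ∀ (n : ℕ) (z : ℂ), ‖z‖ ≤ ρ →
      ‖paramSeq G μ n z - (z, 0)‖ ≤ C' * (1 - q ^ n) * ‖z‖ ^ 2 ∧
      ‖paramSeq G μ (n + 1) z - paramSeq G μ n z‖ ≤ K * q ^ n * ‖z‖ ^ 2 := by
    intro n
    induction n with
    | zero =>
      intro z hz
      refine ⟨by simp [paramSeq], ?_⟩
      have h1 : ‖z / μ‖ ≤ 1 := (hdivnorm z hz).trans hρ1
      have h2 := hC (z / μ) h1
      rw [hA, mul_zero, mul_div_cancel₀ _ hμ0] at h2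
      show ‖G (z / μ, 0) - (z, 0)‖ ≤ _
      refine h2.trans (le_of_eq ?_)
      rw [hdiv2, hK, pow_zero, mul_one]
      ring
    | succ n ih =>
      have first : ∀ z : ℂ, ‖z‖ ≤ ρ →
          ‖paramSeq G μ (n + 1) z - (z, 0)‖ ≤ C' * (1 - q ^ (n + 1)) * ‖z‖ ^ 2 := by
        intro z hz
        obtain ⟨h1, h2⟩ := ih z hz
        calc ‖paramSeq G μ (n + 1) z - (z, 0)‖
            = ‖(paramSeq G μ (n + 1) z - paramSeq G μ n z) + (paramSeq G μ n z - (z, 0))‖ := by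
              rw [sub_add_sub_cancel]
          _ ≤ K * q ^ n * ‖z‖ ^ 2 + C' * (1 - q ^ n) * ‖z‖ ^ 2 :=
              (norm_add_le _ _).trans (add_le_add h2 h1)
          _ = C' * (1 - q ^ (n + 1)) * ‖z‖ ^ 2 := by rw [hKC]; ring
      intro z hz
      refine ⟨first z hz, ?_⟩
      have hz' := hdivnorm z hz
      obtain ⟨h1, h2⟩ := ih (z / μ) hz'
      have h3 := hLip _ _ (hmem (n + 1) (z / μ) hz' (first _ hz')) (hmem n (z / μ) hz' h1)
      show ‖G (paramSeq G μ (n + 1) (z / μ)) - G (paramSeq G μ n (z / μ))‖ ≤ _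
      refine h3.trans ((mul_le_mul_of_nonneg_left h2 hmp.le).trans (le_of_eq ?_))
      have hqm : q * ‖μ‖ ^ 2 = m := by rw [hq]; field_simp
      rw [hdiv2, pow_succ, ← hqm]
      field_simp
      ring
  -- the limit
  have hdist : ∀ z : ℂ, ‖z‖ ≤ ρ → ∀ n : ℕ,
      dist (paramSeq G μ n z) (paramSeq G μ (n + 1) z) ≤ K * ‖z‖ ^ 2 * q ^ n := by
    intro z hz n
    rw [dist_comm, dist_eq_norm]
    refine ((hind n z hz).2).trans (le_of_eq (by ring))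
  have hlim : ∀ z : ℂ, ‖z‖ ≤ ρ → ∃ l, Tendsto (fun n => paramSeq G μ n z) atTop (𝓝 l) :=
    fun z hz => cauchySeq_tendsto_of_complete (cauchySeq_of_le_geometric q _ hq1 (hdist z hz))
  choose! ψ hψ using hlim
  have hrate : ∀ z : ℂ, ‖z‖ ≤ ρ → ∀ n : ℕ,
      dist (paramSeq G μ n z) (ψ z) ≤ K * ‖z‖ ^ 2 * q ^ n / (1 - q) :=
    fun z hz n => dist_le_of_le_geometric_of_tendsto q _ hq1 (hdist z hz) (hψ z hz) n
  refine ⟨ρ, hρ0, C', hC'0, ψ, ?_, ?_, ?_⟩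
  · have hunif : TendstoUniformlyOn (fun n z => paramSeq G μ n z) ψ atTop (ball 0 ρ) := by
      rw [Metric.tendstoUniformlyOn_iff]
      intro ε hε'
      have ht : Tendsto (fun n : ℕ => K * ρ ^ 2 * q ^ n / (1 - q)) atTop (𝓝 0) := by
        have := ((tendsto_pow_atTop_nhds_zero_of_lt_one hq0.le hq1).const_mul
          (K * ρ ^ 2)).div_const (1 - q)
        simpa using this
      filter_upwards [ht.eventually (gt_mem_nhds hε')] with n hn z hz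
      rw [mem_ball_zero_iff] at hz
      rw [dist_comm]
      refine lt_of_le_of_lt ((hrate z hz.le n).trans ?_) hn
      have : ‖z‖ ^ 2 ≤ ρ ^ 2 := pow_le_pow_left₀ (norm_nonneg _) hz.le 2
      gcongr
    exact hunif.tendstoLocallyUniformlyOn.differentiableOn
      (Eventually.of_forall fun n => (paramSeq_differentiable G hG μ n).differentiableOn)
      isOpen_ball
  · intro z hz
    rw [mem_ball_zero_iff] at hz
    have := hrate z hz.le 0
    rw [dist_comm, dist_eq_norm] at this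
    refine this.trans (le_of_eq ?_)
    rw [hC']
    ring
  · intro z hz
    rw [mem_ball_zero_iff] at hz
    have h1 : Tendsto (fun n => paramSeq G μ (n + 1) z) atTop (𝓝 (ψ z)) :=
      (hψ z hz.le).comp (tendsto_add_atTop_nat 1)
    have h2 : Tendsto (fun n => G (paramSeq G μ n (z / μ))) atTop (𝓝 (G (ψ (z / μ)))) :=
      (hG.continuous.tendsto _).comp (hψ (z / μ) (hdivnorm z hz.le))
    exact tendsto_nhds_unique h1 h2

/-- the diagonal case -/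
private theorem param_diag (G : ℂ × ℂ → ℂ × ℂ) (hG : Differentiable ℂ G) (h0 : G 0 = 0)
    (μ ν : ℂ) (hμ : 1 < ‖μ‖) (hν : ‖ν‖ < 1)
    (hA : ∀ a b : ℂ, fderiv ℂ G 0 (a, b) = (μ * a, ν * b)) :
    ∃ ψ : ℂ → ℂ × ℂ, Differentiable ℂ ψ ∧ ψ 0 = 0 ∧ HasDerivAt ψ (1, 0) 0 ∧
      ∀ z, G (ψ z) = ψ (μ * z) := by
  obtain ⟨ρ, hρ, C, hC, ψ₀, hd, hest, hfe⟩ := param_local G hG h0 μ ν hμ hν hA
  have hμ0 : μ ≠ 0 := by
    intro h; rw [h, norm_zero] at hμ; linarith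
  have hμp : 0 < ‖μ‖ := by linarith
  -- the extensions
  set E : ℕ → ℂ → ℂ × ℂ := fun k z => G^[k] (ψ₀ (z / μ ^ k)) with hE
  have hmemdiv : ∀ (k : ℕ) (z : ℂ), ‖z‖ < ‖μ‖ ^ k * ρ → z / μ ^ k ∈ ball (0 : ℂ) ρ := by
    intro k z hz
    rw [mem_ball_zero_iff, norm_div, norm_pow, div_lt_iff₀ (by positivity)]
    linarith
  have hstep : ∀ (k : ℕ) (z : ℂ), ‖z‖ < ‖μ‖ ^ k * ρ → E (k + 1) z = E k z := by
    intro k z hz
    have h1 := hfe _ (hmemdiv k z hz)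
    show G^[k + 1] (ψ₀ (z / μ ^ (k + 1))) = G^[k] (ψ₀ (z / μ ^ k))
    rw [h1, Function.iterate_succ_apply, pow_succ, div_div]
  have hmono : ∀ (j k : ℕ), j ≤ k → ∀ z : ℂ, ‖z‖ < ‖μ‖ ^ j * ρ → E k z = E j z := by
    intro j k hjk
    induction k, hjk using Nat.le_induction with
    | base => intro z _; rfl
    | succ k hk ih =>
      intro z hz
      rw [← ih z hz]
      refine hstep k z (hz.trans_le ?_)
      exact mul_le_mul_of_nonneg_right (pow_le_pow_right₀ hμ.le hk) hρ.le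
  have hex : ∀ z : ℂ, ∃ k : ℕ, ‖z‖ < ‖μ‖ ^ k * ρ := by
    intro z
    obtain ⟨k, hk⟩ := pow_unbounded_of_one_lt (‖z‖ / ρ) hμ
    exact ⟨k, by rwa [div_lt_iff₀ hρ] at hk⟩
  choose κ hκ using hex
  set ψ : ℂ → ℂ × ℂ := fun z => E (κ z) z with hψdef
  have hψ : ∀ (k : ℕ) (z : ℂ), ‖z‖ < ‖μ‖ ^ k * ρ → ψ z = E k z := by
    intro k z hz
    rcases le_total k (κ z) with h | h
    · exact hmono k (κ z) h z hz
    · exact (hmono (κ z) k h z (hκ z)).symm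
  have hψ0 : ∀ z : ℂ, ‖z‖ < ρ → ψ z = ψ₀ z := by
    intro z hz
    rw [hψ 0 z (by simpa using hz)]
    simp [hE]
  have hGk : ∀ k : ℕ, Differentiable ℂ (G^[k]) := by
    intro k
    induction k with
    | zero => exact differentiable_id
    | succ k ih => rw [Function.iterate_succ]; exact ih.comp hG
  have hψd : Differentiable ℂ ψ := by
    intro z
    have hU : ball (0 : ℂ) (‖μ‖ ^ (κ z) * ρ) ∈ 𝓝 z :=
      isOpen_ball.mem_nhds (by rw [mem_ball_zero_iff]; exact hκ z)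
    have hEd : DifferentiableAt ℂ (E (κ z)) z := by
      have h1 : DifferentiableAt ℂ ψ₀ (z / μ ^ (κ z)) :=
        (hd _ (hmemdiv _ z (hκ z))).differentiableAt
          (isOpen_ball.mem_nhds (hmemdiv _ z (hκ z)))
      have h2 : DifferentiableAt ℂ (fun w : ℂ => w / μ ^ (κ z)) z := by fun_prop
      exact (hGk (κ z) _).comp z (h1.comp z h2)
    refine hEd.congr_of_eventuallyEq ?_
    filter_upwards [hU] with y hy
    rw [mem_ball_zero_iff] at hy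
    exact hψ (κ z) y hy
  have hest' : ∀ z : ℂ, ‖z‖ < ρ → ‖ψ z - (z, 0)‖ ≤ C * ‖z‖ ^ 2 := by
    intro z hz
    rw [hψ0 z hz]
    exact hest z (by rwa [mem_ball_zero_iff])
  have hz0 : ψ 0 = 0 := by
    have := hest' 0 (by simpa using hρ)
    simp only [norm_zero, ne_eq, OfNat.ofNat_ne_zero, not_false_eq_true, zero_pow, mul_zero] at this
    have h2 := norm_le_zero_iff.mp this
    rw [sub_eq_zero] at h2
    exact h2
  refine ⟨ψ, hψd, hz0, ?_, ?_⟩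
  · rw [hasDerivAt_iff_isLittleO_nhds_zero]
    have hO : (fun h : ℂ => ψ (0 + h) - ψ 0 - h • ((1 : ℂ), (0 : ℂ))) =O[𝓝 0]
        fun h : ℂ => ‖h‖ ^ 2 := by
      refine Asymptotics.IsBigO.of_bound C ?_
      filter_upwards [ball_mem_nhds (0 : ℂ) hρ] with h hh
      rw [mem_ball_zero_iff] at hh
      have := hest' h hh
      rw [zero_add, hz0, sub_zero, norm_pow, norm_norm]
      simpa using this
    exact hO.trans_isLittleO (Asymptotics.isLittleO_norm_pow_id one_lt_two)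
  · intro z
    have h1 : ‖μ * z‖ < ‖μ‖ ^ (κ z + 1) * ρ := by
      rw [norm_mul, pow_succ]
      calc ‖μ‖ * ‖z‖ < ‖μ‖ * (‖μ‖ ^ (κ z) * ρ) := mul_lt_mul_of_pos_left (hκ z) hμp
        _ = _ := by ring
    rw [hψ (κ z + 1) (μ * z) h1]
    show G (G^[κ z] (ψ₀ (z / μ ^ (κ z)))) = G^[κ z + 1] (ψ₀ (μ * z / μ ^ (κ z + 1)))
    rw [Function.iterate_succ_apply', pow_succ', mul_div_mul_left _ _ hμ0]

/-- Poincare: if `F` is holomorphic with a saddle fixed point `p`, there is an entire curve `ψ` with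
`F (ψ z) = ψ (μ z)`. -/
theorem exists_param (F : ℂ × ℂ → ℂ × ℂ) (hF : Differentiable ℂ F) (p v w : ℂ × ℂ) (μ ν : ℂ)
    (hp : F p = p) (hμ : 1 < ‖μ‖) (hν : ‖ν‖ < 1) (hv : v ≠ 0) (hw : w ≠ 0)
    (hev : fderiv ℂ F p v = μ • v) (hew : fderiv ℂ F p w = ν • w) :
    ∃ ψ : ℂ → ℂ × ℂ, Differentiable ℂ ψ ∧ ψ 0 = p ∧ HasDerivAt ψ v 0 ∧
      ∀ z, F (ψ z) = ψ (μ * z) := by
  have hμν : μ ≠ ν := by
    intro h; rw [h] at hμ; linarith
  -- the determinant does not vanish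
  set d : ℂ := v.1 * w.2 - v.2 * w.1 with hd
  have hd0 : d ≠ 0 := by
    intro h
    have hpar : ∃ t : ℂ, w = t • v := by
      by_cases h1 : v.1 = 0
      · have h2 : v.2 ≠ 0 := by
          intro h2; exact hv (Prod.ext h1 h2)
        have h3 : w.1 = 0 := by
          rw [hd, h1, zero_mul, zero_sub, neg_eq_zero] at h
          exact (mul_eq_zero.mp h).resolve_left h2
        refine ⟨w.2 / v.2, Prod.ext ?_ ?_⟩
        · rw [Prod.smul_fst, h1, h3, smul_zero]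
        · rw [Prod.smul_snd, smul_eq_mul, div_mul_cancel₀ _ h2]
      · refine ⟨w.1 / v.1, Prod.ext ?_ ?_⟩
        · rw [Prod.smul_fst, smul_eq_mul, div_mul_cancel₀ _ h1]
        · rw [Prod.smul_snd, smul_eq_mul]
          field_simp
          rw [hd] at h
          linear_combination h
    obtain ⟨t, ht⟩ := hpar
    have h1 : fderiv ℂ F p w = μ • w := by
      rw [ht, map_smul, hev, smul_comm]
    rw [hew] at h1
    have h2 : (ν - μ) • w = 0 := by rw [sub_smul, h1, sub_self]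
    rcases smul_eq_zero.mp h2 with h3 | h3
    · exact hμν (sub_eq_zero.mp h3).symm
    · exact hw h3
  set L : ℂ × ℂ →L[ℂ] ℂ × ℂ := (ContinuousLinearMap.fst ℂ ℂ ℂ).smulRight v +
    (ContinuousLinearMap.snd ℂ ℂ ℂ).smulRight w with hL
  set M : ℂ × ℂ →L[ℂ] ℂ × ℂ :=
    (d⁻¹ • (w.2 • ContinuousLinearMap.fst ℂ ℂ ℂ - w.1 • ContinuousLinearMap.snd ℂ ℂ ℂ)).prod
    (d⁻¹ • (v.1 • ContinuousLinearMap.snd ℂ ℂ ℂ - v.2 • ContinuousLinearMap.fst ℂ ℂ ℂ)) with hM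
  have hLapp : ∀ q : ℂ × ℂ, L q = (q.1 * v.1 + q.2 * w.1, q.1 * v.2 + q.2 * w.2) := by
    intro q
    simp [hL, Prod.ext_iff]
  have hMapp : ∀ q : ℂ × ℂ, M q = (d⁻¹ * (w.2 * q.1 - w.1 * q.2), d⁻¹ * (v.1 * q.2 - v.2 * q.1)) := by
    intro q
    simp [hM]
  have hML : ∀ q, M (L q) = q := by
    intro q
    rw [hLapp, hMapp]
    refine Prod.ext ?_ ?_
    · show d⁻¹ * (w.2 * (q.1 * v.1 + q.2 * w.1) - w.1 * (q.1 * v.2 + q.2 * w.2)) = q.1
      have : w.2 * (q.1 * v.1 + q.2 * w.1) - w.1 * (q.1 * v.2 + q.2 * w.2) = d * q.1 := by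
        rw [hd]; ring
      rw [this, inv_mul_cancel_left₀ hd0]
    · show d⁻¹ * (v.1 * (q.1 * v.2 + q.2 * w.2) - v.2 * (q.1 * v.1 + q.2 * w.1)) = q.2
      have : v.1 * (q.1 * v.2 + q.2 * w.2) - v.2 * (q.1 * v.1 + q.2 * w.1) = d * q.2 := by
        rw [hd]; ring
      rw [this, inv_mul_cancel_left₀ hd0]
  have hLM : ∀ q, L (M q) = q := by
    intro q
    rw [hMapp, hLapp]
    refine Prod.ext ?_ ?_
    · show d⁻¹ * (w.2 * q.1 - w.1 * q.2) * v.1 + d⁻¹ * (v.1 * q.2 - v.2 * q.1) * w.1 = q.1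
      have : d⁻¹ * (w.2 * q.1 - w.1 * q.2) * v.1 + d⁻¹ * (v.1 * q.2 - v.2 * q.1) * w.1
          = d⁻¹ * (d * q.1) := by
        rw [hd]; ring
      rw [this, inv_mul_cancel_left₀ hd0]
    · show d⁻¹ * (w.2 * q.1 - w.1 * q.2) * v.2 + d⁻¹ * (v.1 * q.2 - v.2 * q.1) * w.2 = q.2
      have : d⁻¹ * (w.2 * q.1 - w.1 * q.2) * v.2 + d⁻¹ * (v.1 * q.2 - v.2 * q.1) * w.2
          = d⁻¹ * (d * q.2) := by
        rw [hd]; ring
      rw [this, inv_mul_cancel_left₀ hd0]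
  set G : ℂ × ℂ → ℂ × ℂ := fun q => M (F (p + L q) - p) with hGdef
  have hG : Differentiable ℂ G := by
    have h1 : Differentiable ℂ (fun q : ℂ × ℂ => p + L q) := (L.differentiable).const_add p
    exact M.differentiable.comp ((hF.comp h1).sub_const p)
  have hG0 : G 0 = 0 := by
    show M (F (p + L 0) - p) = 0
    rw [map_zero, add_zero, hp, sub_self, map_zero]
  have hGA : ∀ a b : ℂ, fderiv ℂ G 0 (a, b) = (μ * a, ν * b) := by
    intro a b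
    have h1 : HasFDerivAt (fun q : ℂ × ℂ => p + L q) L 0 := L.hasFDerivAt.const_add p
    have h2 : HasFDerivAt F (fderiv ℂ F p) (p + L 0) := by
      rw [map_zero, add_zero]; exact (hF p).hasFDerivAt
    have h3 : HasFDerivAt G (M.comp ((fderiv ℂ F p).comp L)) 0 :=
      M.hasFDerivAt.comp (0 : ℂ × ℂ) ((h2.comp (0 : ℂ × ℂ) h1).sub_const p)
    rw [h3.fderiv]
    show M (fderiv ℂ F p (L (a, b))) = _
    have h4 : L (a, b) = a • v + b • w := by simp [hL]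
    have h5 : fderiv ℂ F p (L (a, b)) = L (μ * a, ν * b) := by
      rw [h4, map_add, map_smul, map_smul, hev, hew]
      simp only [hL, add_apply, ContinuousLinearMap.smulRight_apply,
        ContinuousLinearMap.coe_fst', ContinuousLinearMap.coe_snd']
      rw [smul_smul, smul_smul, mul_comm a μ, mul_comm b ν]
    rw [h5, hML]
  obtain ⟨ψ, hψd, hψ0, hψ1, hψf⟩ := param_diag G hG hG0 μ ν hμ hν hGA
  refine ⟨fun z => p + L (ψ z), (L.differentiable.comp hψd).const_add p, ?_, ?_, ?_⟩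
  · show p + L (ψ 0) = p
    rw [hψ0, map_zero, add_zero]
  · have h1 : HasDerivAt (fun z => L (ψ z)) (L (1, 0)) 0 :=
      (L.hasFDerivAt (x := ψ 0)).comp_hasDerivAt (0 : ℂ) hψ1
    have h2 : L (1, 0) = v := by simp [hL]
    rw [h2] at h1
    exact h1.const_add p
  · intro z
    show F (p + L (ψ z)) = p + L (ψ (μ * z))
    rw [← hψf z]
    show F (p + L (ψ z)) = p + L (M (F (p + L (ψ z)) - p))
    rw [hLM, add_sub_cancel]

end H6ea4aa
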