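import Pool.Agent.H.MP_6ea4aa_an.Assem1
import Pool.Agent.H.MP_6ea4aa_an.Box
import Pool.Agent.H.MP_6ea4aa_an.Param
import Pool.Agent.H.MP_6ea4aa_an.Dual
import Pool.Agent.H.MP_6ea4aa_an.ExJ
import Pool.Agent.H.MP_6ea4aa_an.ExSol

/-!
# MP_6ea4aa: final assembly
-/

set_option autoImplicit false

open Complex Set Filter Topology Metric

namespace H6ea4aa

theorem exists_Unst {c b : ℂ} (s : Saddle c b) : ∃ ψ, Unst c b s ψ := by
  have hF : Differentiable ℂ ((hen c b)^[s.N]) := (hen_differentiable c b).iterate s.N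
  obtain ⟨ψ, h1, h2, h3, h4⟩ := exists_param ((hen c b)^[s.N]) hF s.p s.v s.w s.μ s.ν s.hp s.hμ
    s.hν s.hv s.hw s.hev s.hew
  exact ⟨ψ, h1, h2, h3, h4⟩

/-- the inverse of `tau b` -/
noncomputable def tauI (b : ℂ) (p : ℂ × ℂ) : ℂ × ℂ := (b * p.2, b * p.1)

theorem tau_tauI {b : ℂ} (hb : b ≠ 0) (p : ℂ × ℂ) : tau b (tauI b p) = p := by
  simp only [tau, tauI]
  ext
  · simp only; field_simp
  · simp only; field_simp

theorem tauI_tau {b : ℂ} (hb : b ≠ 0) (p : ℂ × ℂ) : tauI b (tau b p) = p := by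
  simp only [tau, tauI]
  ext
  · simp only; field_simp
  · simp only; field_simp

theorem hen_dual_conj {c b : ℂ} (hb : b ≠ 0) (p : ℂ × ℂ) :
    hen (c / b ^ 2) (1 / b) (tau b (hen c b p)) = tau b p := by
  simp only [hen, tau]
  ext
  · simp only
    field_simp
    ring
  · simp only

theorem hen_dual_conj_iter {c b : ℂ} (hb : b ≠ 0) (n : ℕ) (p : ℂ × ℂ) :
    (hen (c / b ^ 2) (1 / b))^[n] (tau b ((hen c b)^[n] p)) = tau b p := by
  induction n generalizing p with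
  | zero => rfl
  | succ n ih =>
    rw [Function.iterate_succ_apply, Function.iterate_succ_apply' (hen c b), hen_dual_conj hb, ih]

theorem JJ_not_connected (c b : ℂ) (hb : ‖b‖ = 1) : ¬ IsConnected (JJ c b) := by
  intro hJ
  have hb0 : b ≠ 0 := by
    intro h; rw [h, norm_zero] at hb; exact zero_ne_one hb
  have hb' : ‖1 / b‖ = 1 := by rw [norm_div, norm_one, hb, div_one]
  obtain ⟨s⟩ := exists_saddle c b hb
  obtain ⟨s', hN, hp, hv, hμ⟩ := exists_dual hb s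
  obtain ⟨ψ, hψ⟩ := exists_Unst s
  obtain ⟨ψ', hψ'⟩ := exists_Unst s'
  -- the stable parametrisation
  set ψs : ℂ → ℂ × ℂ := fun z => tauI b (ψ' z) with hψs
  have hd2 : Differentiable ℂ (fun z => (ψ' z).2) := hψ'.diff.snd
  have hd1 : Differentiable ℂ (fun z => (ψ' z).1) := hψ'.diff.fst
  have hs : Differentiable ℂ ψs := by
    intro z
    exact ((hd2 z).const_mul b).prodMk ((hd1 z).const_mul b)
  have hs0 : ψs 0 = s.p := by
    rw [hψs]
    simp only
    rw [hψ'.zero, hp, tauI_tau hb0]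
  have hsd : HasDerivAt ψs s.w 0 := by
    have h := hψ'.der
    rw [hv] at h
    have h1 : HasDerivAt (fun z => (ψ' z).1) (tau b s.w).1 0 :=
      (hasFDerivAt_fst (𝕜 := ℂ) (E := ℂ) (F := ℂ) (p := ψ' 0)).comp_hasDerivAt 0 h
    have h2 : HasDerivAt (fun z => (ψ' z).2) (tau b s.w).2 0 :=
      (hasFDerivAt_snd (𝕜 := ℂ) (E := ℂ) (F := ℂ) (p := ψ' 0)).comp_hasDerivAt 0 h
    have h3 := (h2.const_mul b).prodMk (h1.const_mul b)
    have h4 : (b * (tau b s.w).2, b * (tau b s.w).1) = s.w := tauI_tau hb0 s.w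
    rw [h4] at h3
    exact h3
  have hss : ∀ z, (hen c b)^[s.N] (ψs z) = ψs (s.ν * z) := by
    intro z
    have h1 := hψ'.step (s.ν * z)
    rw [hN, hμ] at h1
    have h2 : s.ν⁻¹ * (s.ν * z) = z := by
      rw [← mul_assoc, inv_mul_cancel₀ s.hν0, one_mul]
    rw [h2] at h1
    have h3 := hen_dual_conj_iter (c := c) hb0 s.N (ψs z)
    have h4 : tau b (ψs z) = ψ' z := tau_tauI hb0 _
    rw [h4, ← h1] at h3
    -- injectivity of the iterate
    have hinj : Function.Injective ((hen (c / b ^ 2) (1 / b))^[s.N]) := by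
      apply Function.Injective.iterate
      intro p q hpq
      have := congrArg (henInv (c / b ^ 2) (1 / b)) hpq
      have hb1 : (1 / b) ≠ 0 := one_div_ne_zero hb0
      rwa [henInv_hen _ _ hb1, henInv_hen _ _ hb1] at this
    have h5 := hinj h3
    have h6 := congrArg (tauI b) h5
    rw [tauI_tau hb0] at h6
    exact h6
  have hgs : LinGreen (fun z => Gm c b (ψs z)) s.ν⁻¹ (2 ^ s.N) := by
    have h1 := hψ'.linGreen hb'
    have h2 : (fun z => Gm c b (ψs z)) = (fun z => Gp (c / b ^ 2) (1 / b) (ψ' z)) := by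
      funext z
      have h4 : tau b (ψs z) = ψ' z := tau_tauI hb0 _
      rw [← h4]
      rfl
    rw [h2, ← hμ, ← hN]
    exact h1
  have hbox := box c b hb s.N s.hN s.p s.v s.w s.μ s.ν s.hμ s.hν s.hν0 s.hv s.hw ψ ψs hψ.diff hs
    hψ.zero hs0 hψ.der hsd hψ.step hss (hψ.linGreen hb) hgs hJ.isPreconnected
  rcases hbox with h | h
  · exact no_noIsland hb hψ h
  · have h2 : (fun z => Gm c b (ψs z)) = (fun z => Gp (c / b ^ 2) (1 / b) (ψ' z)) := by
      funext z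
      have h4 : tau b (ψs z) = ψ' z := tau_tauI hb0 _
      rw [← h4]
      rfl
    rw [h2] at h
    exact no_noIsland hb' hψ' h

theorem sq_iterate (n : ℕ) (z : ℂ) : (fun w : ℂ => w ^ 2 + 0)^[n] z = z ^ (2 ^ n) := by
  induction n with
  | zero => simp
  | succ n ih =>
    rw [Function.iterate_succ_apply', ih]
    simp only [add_zero]
    rw [← pow_mul, ← pow_succ]

theorem julia_zero : {z : ℂ | ∃ R : ℝ, ∀ n : ℕ, ‖(fun w : ℂ => w ^ 2 + 0)^[n] z‖ ≤ R} =
    closedBall 0 1 := by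
  ext z
  constructor
  · rintro ⟨R, hR⟩
    rw [mem_closedBall_zero_iff]
    by_contra h
    rw [not_le] at h
    have h1 : Tendsto (fun n : ℕ => ‖z‖ ^ (2 ^ n)) atTop atTop :=
      (tendsto_pow_atTop_atTop_of_one_lt h).comp
        (tendsto_pow_atTop_atTop_of_one_lt (by norm_num : (1 : ℕ) < 2))
    obtain ⟨n, hn⟩ := (h1.eventually (eventually_gt_atTop R)).exists
    have h2 := hR n
    rw [sq_iterate, norm_pow] at h2
    linarith
  · intro h
    rw [mem_closedBall_zero_iff] at h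
    refine ⟨1, fun n => ?_⟩
    rw [sq_iterate, norm_pow]
    exact pow_le_one₀ (norm_nonneg _) h

theorem main :
    ¬ IsConnected {q : ℂ × ℂ |
      (q.2 = 0 ∧ IsConnected (frontier {z : ℂ | ∃ R : ℝ, ∀ n : ℕ,
          ‖(fun w : ℂ => w ^ 2 + q.1)^[n] z‖ ≤ R})) ∨
      (q.2 ≠ 0 ∧ IsConnected
        (frontier {p : ℂ × ℂ | ∃ R : ℝ, ∀ n : ℕ,
            ‖(fun r : ℂ × ℂ => (r.1 ^ 2 + q.1 - q.2 * r.2, r.1))^[n] p‖ ≤ R} ∩
         frontier {p : ℂ × ℂ | ∃ R : ℝ, ∀ n : ℕ,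
            ‖(fun r : ℂ × ℂ => (r.2, (r.2 ^ 2 + q.1 - r.1) / q.2))^[n] p‖ ≤ R}))} := by
  intro hM
  set M : Set (ℂ × ℂ) := {q : ℂ × ℂ |
      (q.2 = 0 ∧ IsConnected (frontier {z : ℂ | ∃ R : ℝ, ∀ n : ℕ,
          ‖(fun w : ℂ => w ^ 2 + q.1)^[n] z‖ ≤ R})) ∨
      (q.2 ≠ 0 ∧ IsConnected
        (frontier {p : ℂ × ℂ | ∃ R : ℝ, ∀ n : ℕ,
            ‖(fun r : ℂ × ℂ => (r.1 ^ 2 + q.1 - q.2 * r.2, r.1))^[n] p‖ ≤ R} ∩
         frontier {p : ℂ × ℂ | ∃ R : ℝ, ∀ n : ℕ,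
            ‖(fun r : ℂ × ℂ => (r.2, (r.2 ^ 2 + q.1 - r.1) / q.2))^[n] p‖ ≤ R}))} with hMdef
  have h0 : ((0 : ℂ), (0 : ℂ)) ∈ M := by
    refine Or.inl ⟨rfl, ?_⟩
    simp only
    rw [julia_zero, frontier_closedBall _ one_ne_zero]
    apply isConnected_sphere
    · rw [Complex.rank_real_complex]; norm_num
    · norm_num
  have h1 : ((0 : ℂ), (100 : ℂ)) ∈ M := by
    refine Or.inr ⟨by norm_num, ?_⟩
    have h2 : IsConnected (JJ 0 100) := by
      have h3 := JJ_dual 0 (1 / 100) (by norm_num)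
      have h4 : (0 : ℂ) / (1 / 100) ^ 2 = 0 := by norm_num
      have h5 : (1 : ℂ) / (1 / 100) = 100 := by norm_num
      rw [h4, h5] at h3
      rw [h3, JJ_eq_Lam]
      apply Lam_connected.image
      apply Continuous.continuousOn
      unfold tau
      fun_prop
    exact h2
  have hcont : ContinuousOn (fun q : ℂ × ℂ => ‖q.2‖) M := by
    apply Continuous.continuousOn
    fun_prop
  have hiv := hM.isPreconnected.intermediate_value h0 h1 hcont
  obtain ⟨q, hq, hq1⟩ := hiv (show (1 : ℝ) ∈ Icc _ _ by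
    constructor
    · simp
    · simp only; norm_num)
  simp only at hq1
  rcases hq with ⟨h, -⟩ | ⟨-, h⟩
  · rw [h, norm_zero] at hq1; exact zero_ne_one hq1
  · exact JJ_not_connected q.1 q.2 hq1 h

end H6ea4aa
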