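import Pool.Agent.H.MP_6ea4aa_an.Defs

/-!
# MP_6ea4aa: the Green functions
-/

set_option autoImplicit false

open Complex Set Filter Topology Metric MeasureTheory

namespace H6ea4aa

/-! ### algebra of the map -/

theorem hen_henInv (c b : ℂ) (hb : b ≠ 0) (p : ℂ × ℂ) : hen c b (henInv c b p) = p := by
  simp only [hen, henInv]
  ext
  · simp only
    field_simp
    ring
  · rfl

theorem henInv_hen (c b : ℂ) (hb : b ≠ 0) (p : ℂ × ℂ) : henInv c b (hen c b p) = p := by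
  simp only [hen, henInv]
  ext
  · rfl
  · simp only
    field_simp
    ring

theorem hen_differentiable (c b : ℂ) : Differentiable ℂ (hen c b) := by
  unfold hen
  fun_prop

theorem henInv_differentiable (c b : ℂ) : Differentiable ℂ (henInv c b) := by
  unfold henInv
  fun_prop

/-! ### auxiliary estimates -/

theorem green_fst_lower (c b : ℂ) (hb : ‖b‖ = 1) (p : ℂ × ℂ) :
    ‖p.1‖ ^ 2 - ‖c‖ - ‖p.2‖ ≤ ‖(hen c b p).1‖ := by
  have h1 : p.1 ^ 2 = (hen c b p).1 - c + b * p.2 := by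
    simp only [hen]; ring
  have h2 : ‖p.1‖ ^ 2 ≤ ‖(hen c b p).1‖ + ‖c‖ + ‖p.2‖ := by
    calc ‖p.1‖ ^ 2 = ‖p.1 ^ 2‖ := (norm_pow _ _).symm
      _ = ‖(hen c b p).1 - c + b * p.2‖ := by rw [← h1]
      _ ≤ ‖(hen c b p).1 - c‖ + ‖b * p.2‖ := norm_add_le _ _
      _ ≤ (‖(hen c b p).1‖ + ‖c‖) + ‖p.2‖ := by
        rw [norm_mul, hb, one_mul]
        have := norm_sub_le (hen c b p).1 c
        linarith
  linarith

theorem green_fst_upper (c b : ℂ) (hb : ‖b‖ = 1) (p : ℂ × ℂ) :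
    ‖(hen c b p).1‖ ≤ ‖p.1‖ ^ 2 + ‖c‖ + ‖p.2‖ := by
  simp only [hen]
  calc ‖p.1 ^ 2 + c - b * p.2‖ ≤ ‖p.1 ^ 2 + c‖ + ‖b * p.2‖ := norm_sub_le _ _
    _ ≤ (‖p.1 ^ 2‖ + ‖c‖) + ‖b * p.2‖ := by
      have := norm_add_le (p.1 ^ 2) c
      linarith
    _ = ‖p.1‖ ^ 2 + ‖c‖ + ‖p.2‖ := by rw [norm_pow, norm_mul, hb, one_mul]

theorem green_fst_two (c b : ℂ) (hb : ‖b‖ = 1) {p : ℂ × ℂ} (h1 : 3 + ‖c‖ ≤ ‖p.1‖)
    (h2 : ‖p.2‖ ≤ ‖p.1‖) : 2 * ‖p.1‖ ≤ ‖(hen c b p).1‖ := by
  have := green_fst_lower c b hb p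
  have hc := norm_nonneg c
  nlinarith [norm_nonneg p.1]

theorem green_fst_sq (c b : ℂ) (hb : ‖b‖ = 1) {p : ℂ × ℂ} (h1 : 3 + ‖c‖ ≤ ‖p.1‖)
    (h2 : ‖p.2‖ ≤ ‖p.1‖) : 2 / 3 * ‖p.1‖ ^ 2 ≤ ‖(hen c b p).1‖ := by
  have := green_fst_lower c b hb p
  have hc := norm_nonneg c
  nlinarith [norm_nonneg p.1, sq_nonneg (‖p.1‖ - 3)]

/-- the region `W` -/
def greenW (c : ℂ) : Set (ℂ × ℂ) := {p | ‖p.2‖ ≤ max (3 + ‖c‖) ‖p.1‖}

theorem greenW_hen (c b : ℂ) (hb : ‖b‖ = 1) {p : ℂ × ℂ} (hp : p ∈ greenW c) :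
    hen c b p ∈ greenW c := by
  simp only [greenW, mem_ofPred_eq] at hp ⊢
  have hsnd : (hen c b p).2 = p.1 := rfl
  rw [hsnd]
  rcases le_or_gt ‖p.1‖ (3 + ‖c‖) with h | h
  · exact h.trans (le_max_left _ _)
  · rw [max_eq_right h.le] at hp
    have := green_fst_two c b hb h.le hp
    refine le_trans ?_ (le_max_right _ _)
    linarith [norm_nonneg p.1]

theorem greenW_iter (c b : ℂ) (hb : ‖b‖ = 1) {p : ℂ × ℂ} (hp : p ∈ greenW c) (n : ℕ) :
    (hen c b)^[n] p ∈ greenW c := by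
  induction n with
  | zero => exact hp
  | succ n ih =>
    rw [Function.iterate_succ_apply']
    exact greenW_hen c b hb ih

/-- `log max(1, ‖p‖)` -/
noncomputable def greenL (p : ℂ × ℂ) : ℝ := Real.log (max 1 ‖p‖)

theorem greenL_nonneg (p : ℂ × ℂ) : 0 ≤ greenL p := Real.log_nonneg (le_max_left _ _)

theorem greenL_continuous : Continuous greenL := by
  unfold greenL
  refine Continuous.log (continuous_const.max continuous_norm) (fun x => ?_)
  have : (0 : ℝ) < max 1 ‖x‖ := lt_of_lt_of_le one_pos (le_max_left _ _)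
  exact this.ne'

theorem greenL_hen_le (c b : ℂ) (hb : ‖b‖ = 1) (p : ℂ × ℂ) :
    greenL (hen c b p) ≤ 2 * greenL p + Real.log (3 + ‖c‖) := by
  have hc := norm_nonneg c
  have hM : (1 : ℝ) ≤ max 1 ‖p‖ := le_max_left _ _
  have hx : ‖p.1‖ ≤ max 1 ‖p‖ := (norm_fst_le p).trans (le_max_right _ _)
  have hy : ‖p.2‖ ≤ max 1 ‖p‖ := (norm_snd_le p).trans (le_max_right _ _)
  have h1 : max 1 ‖hen c b p‖ ≤ (3 + ‖c‖) * (max 1 ‖p‖) ^ 2 := by
    refine max_le ?_ ?_
    · nlinarith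
    · rw [Prod.norm_def]
      refine max_le ?_ ?_
      · have h := green_fst_upper c b hb p
        have h3 : ‖p.1‖ ^ 2 ≤ (max 1 ‖p‖) ^ 2 := by
          have := norm_nonneg p.1
          gcongr
        have hM2 : (1 : ℝ) ≤ (max 1 ‖p‖) ^ 2 := one_le_pow₀ hM
        have hM3 : max 1 ‖p‖ ≤ (max 1 ‖p‖) ^ 2 := by nlinarith
        nlinarith [mul_nonneg hc (sub_nonneg.2 hM2)]
      · show ‖p.1‖ ≤ _
        nlinarith
  unfold greenL
  calc Real.log (max 1 ‖hen c b p‖) ≤ Real.log ((3 + ‖c‖) * (max 1 ‖p‖) ^ 2) :=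
        Real.log_le_log (by positivity) h1
    _ = 2 * Real.log (max 1 ‖p‖) + Real.log (3 + ‖c‖) := by
        rw [Real.log_mul (by positivity) (by positivity), Real.log_pow]
        push_cast
        ring

theorem greenL_hen_ge (c b : ℂ) (hb : ‖b‖ = 1) {p : ℂ × ℂ} (hp : p ∈ greenW c) :
    2 * greenL p - 2 * Real.log (3 + ‖c‖) ≤ greenL (hen c b p) := by
  have hc := norm_nonneg c
  simp only [greenW, mem_ofPred_eq] at hp
  rcases le_or_gt ‖p.1‖ (3 + ‖c‖) with h | h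
  · rw [max_eq_left h] at hp
    have h1 : max 1 ‖p‖ ≤ 3 + ‖c‖ := by
      refine max_le (by linarith) ?_
      rw [Prod.norm_def]
      exact max_le h hp
    have h2 : greenL p ≤ Real.log (3 + ‖c‖) := Real.log_le_log (by positivity) h1
    have := greenL_nonneg (hen c b p)
    linarith
  · rw [max_eq_right h.le] at hp
    have h1 := green_fst_sq c b hb h.le hp
    have hn : max 1 ‖p‖ = ‖p.1‖ := by
      rw [Prod.norm_def, max_eq_left hp]
      exact max_eq_right (by linarith)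
    have hpos : 0 < ‖p.1‖ := by linarith
    have h2 : Real.log (2 / 3 * ‖p.1‖ ^ 2) ≤ greenL (hen c b p) := by
      unfold greenL
      refine Real.log_le_log (by positivity) ?_
      exact h1.trans ((norm_fst_le _).trans (le_max_right _ _))
    rw [Real.log_mul (by norm_num) (by positivity), Real.log_pow] at h2
    have h3 : Real.log (2 / 3) = - Real.log (3 / 2) := by
      rw [← Real.log_inv]; norm_num
    have h4 : Real.log (3 / 2) ≤ Real.log (3 + ‖c‖) := Real.log_le_log (by norm_num) (by linarith)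
    have h5 : 0 ≤ Real.log (3 + ‖c‖) := Real.log_nonneg (by linarith)
    have h6 : greenL p = Real.log ‖p.1‖ := by unfold greenL; rw [hn]
    rw [h6]
    push_cast at h2
    linarith

theorem greenL_iter_le (c b : ℂ) (hb : ‖b‖ = 1) (p : ℂ × ℂ) (n : ℕ) :
    greenL ((hen c b)^[n] p) / 2 ^ n ≤ greenL p + Real.log (3 + ‖c‖) * (1 - 1 / 2 ^ n) := by
  have hc := norm_nonneg c
  have h5 : 0 ≤ Real.log (3 + ‖c‖) := Real.log_nonneg (by linarith)
  induction n with
  | zero => simp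
  | succ n ih =>
    rw [Function.iterate_succ_apply']
    have h := greenL_hen_le c b hb ((hen c b)^[n] p)
    have hp : (0 : ℝ) < 2 ^ (n + 1) := by positivity
    have h2 : greenL (hen c b ((hen c b)^[n] p)) / 2 ^ (n + 1) ≤
        (2 * greenL ((hen c b)^[n] p) + Real.log (3 + ‖c‖)) / 2 ^ (n + 1) :=
      div_le_div_of_nonneg_right h hp.le
    have h3 : (2 * greenL ((hen c b)^[n] p) + Real.log (3 + ‖c‖)) / 2 ^ (n + 1) =
        greenL ((hen c b)^[n] p) / 2 ^ n + Real.log (3 + ‖c‖) / 2 ^ (n + 1) := by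
      rw [pow_succ]
      field_simp
    have h4 : Real.log (3 + ‖c‖) * (1 - 1 / 2 ^ n) + Real.log (3 + ‖c‖) / 2 ^ (n + 1) =
        Real.log (3 + ‖c‖) * (1 - 1 / 2 ^ (n + 1)) := by
      rw [pow_succ]
      field_simp
      ring
    linarith

/-- the approximations of the Green function -/
noncomputable def greenA (c b : ℂ) (n : ℕ) (p : ℂ × ℂ) : ℝ := greenL ((hen c b)^[n] p) / 2 ^ n

theorem greenA_nonneg (c b : ℂ) (n : ℕ) (p : ℂ × ℂ) : 0 ≤ greenA c b n p :=
  div_nonneg (greenL_nonneg _) (by positivity)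

theorem hen_iter_continuous (c b : ℂ) (n : ℕ) : Continuous ((hen c b)^[n]) :=
  (hen_differentiable c b).continuous.iterate n

theorem greenA_continuous (c b : ℂ) (n : ℕ) : Continuous (greenA c b n) := by
  unfold greenA
  exact (greenL_continuous.comp (hen_iter_continuous c b n)).div_const _

theorem greenA_le (c b : ℂ) (hb : ‖b‖ = 1) (n : ℕ) (p : ℂ × ℂ) :
    greenA c b n p ≤ greenL p + Real.log (3 + ‖c‖) := by
  have hc := norm_nonneg c
  have h5 : 0 ≤ Real.log (3 + ‖c‖) := Real.log_nonneg (by linarith)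
  have h1 := greenL_iter_le c b hb p n
  have h2 : Real.log (3 + ‖c‖) * (1 - 1 / 2 ^ n) ≤ Real.log (3 + ‖c‖) := by
    have : (0 : ℝ) ≤ 1 / 2 ^ n := by positivity
    nlinarith
  unfold greenA
  linarith

theorem greenA_step (c b : ℂ) (hb : ‖b‖ = 1) {p : ℂ × ℂ} (hp : p ∈ greenW c) (n : ℕ) :
    |greenA c b n p - greenA c b (n + 1) p| ≤ 2 * Real.log (3 + ‖c‖) / 2 / 2 ^ n := by
  have hc := norm_nonneg c
  have h5 : 0 ≤ Real.log (3 + ‖c‖) := Real.log_nonneg (by linarith)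
  have hW := greenW_iter c b hb hp n
  have h1 := greenL_hen_le c b hb ((hen c b)^[n] p)
  have h2 := greenL_hen_ge c b hb hW
  unfold greenA
  rw [Function.iterate_succ_apply']
  have h3 : greenL ((hen c b)^[n] p) / 2 ^ n - greenL (hen c b ((hen c b)^[n] p)) / 2 ^ (n + 1) =
      (2 * greenL ((hen c b)^[n] p) - greenL (hen c b ((hen c b)^[n] p))) / 2 / 2 ^ n := by
    rw [pow_succ]
    field_simp
  rw [h3, abs_div, abs_div, abs_of_pos (by positivity : (0 : ℝ) < 2 ^ n), abs_of_pos (two_pos : (0 : ℝ) < 2)]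
  gcongr
  rw [abs_le]
  constructor <;> linarith

theorem greenA_dist (c b : ℂ) (hb : ‖b‖ = 1) {p : ℂ × ℂ} (hp : p ∈ greenW c) :
    ∃ l : ℝ, Tendsto (fun n => greenA c b n p) atTop (𝓝 l) ∧
      ∀ n, |greenA c b n p - l| ≤ 2 * Real.log (3 + ‖c‖) / 2 ^ n := by
  have hd : ∀ n, dist (greenA c b n p) (greenA c b (n + 1) p) ≤
      2 * Real.log (3 + ‖c‖) / 2 / 2 ^ n := by
    intro n
    rw [Real.dist_eq]
    exact greenA_step c b hb hp n
  obtain ⟨l, hl⟩ := cauchySeq_tendsto_of_complete (cauchySeq_of_le_geometric_two hd)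
  refine ⟨l, hl, fun n => ?_⟩
  have := dist_le_of_le_geometric_two_of_tendsto hd hl n
  rwa [Real.dist_eq] at this

theorem greenA_add (c b : ℂ) (n N : ℕ) (p : ℂ × ℂ) :
    greenA c b (n + N) p = greenA c b n ((hen c b)^[N] p) / 2 ^ N := by
  unfold greenA
  rw [Function.iterate_add_apply, pow_add]
  field_simp

/-- points outside `W` have large second coordinate, which halves at each step -/
theorem green_back (c b : ℂ) (hb : ‖b‖ = 1) {p : ℂ × ℂ} (hp : hen c b p ∉ greenW c) :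
    2 * ‖(hen c b p).2‖ ≤ ‖p.2‖ := by
  have hsnd : (hen c b p).2 = p.1 := rfl
  simp only [greenW, mem_ofPred_eq, not_le, max_lt_iff] at hp
  rw [hsnd] at hp ⊢
  obtain ⟨h1, h2⟩ := hp
  have h3 := green_fst_lower c b hb p
  have hc := norm_nonneg c
  nlinarith [norm_nonneg p.1]

theorem green_enter (c b : ℂ) (hb : ‖b‖ = 1) (p : ℂ × ℂ) (N : ℕ)
    (hN : ‖p.2‖ ≤ 2 ^ N * 3) : (hen c b)^[N] p ∈ greenW c := by
  by_contra hcon
  have hc := norm_nonneg c
  have key : ∀ k, k ≤ N → 2 ^ k * ‖((hen c b)^[k] p).2‖ ≤ ‖p.2‖ := by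
    intro k
    induction k with
    | zero => intro _; simp
    | succ k ih =>
      intro hk
      have h1 := ih (by omega)
      have h2 : (hen c b)^[k + 1] p ∉ greenW c := by
        intro hmem
        apply hcon
        have h3 := greenW_iter c b hb hmem (N - (k + 1))
        rw [← Function.iterate_add_apply] at h3
        have h4 : N - (k + 1) + (k + 1) = N := by omega
        rwa [h4] at h3
      rw [Function.iterate_succ_apply'] at h2 ⊢
      have h3 := green_back c b hb h2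
      calc 2 ^ (k + 1) * ‖(hen c b ((hen c b)^[k] p)).2‖
          = 2 ^ k * (2 * ‖(hen c b ((hen c b)^[k] p)).2‖) := by ring
        _ ≤ 2 ^ k * ‖((hen c b)^[k] p).2‖ := by gcongr
        _ ≤ ‖p.2‖ := h1
  have h1 := key N le_rfl
  have h2 : 3 + ‖c‖ < ‖((hen c b)^[N] p).2‖ := by
    simp only [greenW, mem_ofPred_eq, not_le, max_lt_iff] at hcon
    exact hcon.1
  have h3 : (0 : ℝ) < 2 ^ N := by positivity
  nlinarith

theorem greenA_dist' (c b : ℂ) (hb : ‖b‖ = 1) (p : ℂ × ℂ) (N : ℕ) (hN : ‖p.2‖ ≤ 2 ^ N * 3) :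
    ∃ l : ℝ, Tendsto (fun n => greenA c b n p) atTop (𝓝 l) ∧
      ∀ n, |greenA c b (n + N) p - l| ≤ 2 * Real.log (3 + ‖c‖) / 2 ^ (n + N) := by
  obtain ⟨l, hl, hd⟩ := greenA_dist c b hb (green_enter c b hb p N hN)
  refine ⟨l / 2 ^ N, ?_, fun n => ?_⟩
  · rw [← tendsto_add_atTop_iff_nat N]
    simp only [greenA_add]
    exact hl.div_const _
  · rw [greenA_add, ← sub_div, abs_div, abs_of_pos (by positivity : (0 : ℝ) < 2 ^ N), pow_add,
      ← div_div]
    gcongr
    exact hd n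

theorem green_exists_N (p : ℂ × ℂ) : ∃ N : ℕ, ‖p‖ ≤ 2 ^ N * 3 := by
  obtain ⟨N, hN⟩ := pow_unbounded_of_one_lt ‖p‖ (one_lt_two (α := ℝ))
  refine ⟨N, ?_⟩
  have : (0 : ℝ) < 2 ^ N := by positivity
  linarith

/-- the region `V⁺` -/
def VP (c : ℂ) : Set (ℂ × ℂ) := {p | 3 + ‖c‖ < ‖p.1‖ ∧ ‖p.2‖ < ‖p.1‖}

/-- `hen` maps `V⁺` into itself and doubles the norm. -/
theorem hen_VP (c b : ℂ) (hb : ‖b‖ = 1) {p : ℂ × ℂ} (hp : p ∈ VP c) :
    hen c b p ∈ VP c ∧ 2 * ‖p.1‖ ≤ ‖(hen c b p).1‖ := by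
  obtain ⟨h1, h2⟩ := hp
  have h3 := green_fst_two c b hb h1.le h2.le
  have hc := norm_nonneg c
  refine ⟨⟨by linarith, ?_⟩, h3⟩
  show ‖p.1‖ < _
  linarith

/-! ### the forward Green function -/

theorem Gp_tendsto (c b : ℂ) (hb : ‖b‖ = 1) (p : ℂ × ℂ) :
    Tendsto (fun n : ℕ => Real.log (max 1 ‖(hen c b)^[n] p‖) / 2 ^ n) atTop (𝓝 (Gp c b p)) := by
  obtain ⟨N, hN⟩ := green_exists_N p
  obtain ⟨l, hl, -⟩ := greenA_dist' c b hb p N ((norm_snd_le p).trans hN)
  exact tendsto_nhds_limUnder ⟨l, hl⟩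

theorem greenA_tendsto (c b : ℂ) (hb : ‖b‖ = 1) (p : ℂ × ℂ) :
    Tendsto (fun n : ℕ => greenA c b n p) atTop (𝓝 (Gp c b p)) := Gp_tendsto c b hb p

theorem Gp_approx (c b : ℂ) (hb : ‖b‖ = 1) (p : ℂ × ℂ) (N : ℕ) (hN : ‖p.2‖ ≤ 2 ^ N * 3) (n : ℕ) :
    |greenA c b (n + N) p - Gp c b p| ≤ 2 * Real.log (3 + ‖c‖) / 2 ^ (n + N) := by
  obtain ⟨l, hl, hd⟩ := greenA_dist' c b hb p N hN
  have : l = Gp c b p := tendsto_nhds_unique hl (greenA_tendsto c b hb p)
  rw [← this]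
  exact hd n

theorem Gp_approxW (c b : ℂ) (hb : ‖b‖ = 1) {p : ℂ × ℂ} (hp : p ∈ greenW c) (n : ℕ) :
    |greenA c b n p - Gp c b p| ≤ 2 * Real.log (3 + ‖c‖) / 2 ^ n := by
  obtain ⟨l, hl, hd⟩ := greenA_dist c b hb hp
  have : l = Gp c b p := tendsto_nhds_unique hl (greenA_tendsto c b hb p)
  rw [← this]
  exact hd n

theorem greenA_tlu (c b : ℂ) (hb : ‖b‖ = 1) :
    TendstoLocallyUniformly (fun n : ℕ => greenA c b n) (Gp c b) atTop := by
  rw [Metric.tendstoLocallyUniformly_iff]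
  intro ε hε x
  obtain ⟨N, hN⟩ := pow_unbounded_of_one_lt (‖x‖ + 1) (one_lt_two (α := ℝ))
  refine ⟨ball x 1, ball_mem_nhds x one_pos, ?_⟩
  have hlim : Tendsto (fun m : ℕ => 2 * Real.log (3 + ‖c‖) / 2 ^ m) atTop (𝓝 0) := by
    have h1 := tendsto_pow_atTop_nhds_zero_of_lt_one (r := (1 / 2 : ℝ)) (by norm_num) (by norm_num)
    have h2 := h1.const_mul (2 * Real.log (3 + ‖c‖))
    rw [mul_zero] at h2
    refine h2.congr (fun m => ?_)
    rw [one_div, inv_pow, div_eq_mul_inv]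
  have hev := hlim.eventually (gt_mem_nhds hε)
  filter_upwards [hev, eventually_ge_atTop N] with m hm hmN y hy
  have h1 : ‖y‖ ≤ ‖x‖ + 1 := by
    have h2 : ‖y - x‖ < 1 := by rwa [← dist_eq_norm]
    have h3 := norm_le_norm_add_norm_sub' y x
    linarith
  have h2 : ‖y.2‖ ≤ 2 ^ N * 3 := by
    have h3 := norm_snd_le y
    have h4 : (0 : ℝ) < 2 ^ N := by positivity
    linarith
  have h3 := Gp_approx c b hb y N h2 (m - N)
  have h4 : m - N + N = m := by omega
  rw [h4] at h3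
  rw [Real.dist_eq, abs_sub_comm]
  exact lt_of_le_of_lt h3 hm

theorem Gp_continuous (c b : ℂ) (hb : ‖b‖ = 1) : Continuous (Gp c b) :=
  (greenA_tlu c b hb).continuous (Eventually.of_forall fun n => greenA_continuous c b n).frequently

theorem Gp_nonneg (c b : ℂ) (hb : ‖b‖ = 1) (p : ℂ × ℂ) : 0 ≤ Gp c b p :=
  ge_of_tendsto (greenA_tendsto c b hb p) (Eventually.of_forall fun n => greenA_nonneg c b n p)

theorem Gp_hen (c b : ℂ) (hb : ‖b‖ = 1) (p : ℂ × ℂ) : Gp c b (hen c b p) = 2 * Gp c b p := by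
  have h1 := greenA_tendsto c b hb (hen c b p)
  have h2 : Tendsto (fun n : ℕ => 2 * greenA c b (n + 1) p) atTop (𝓝 (2 * Gp c b p)) :=
    ((tendsto_add_atTop_iff_nat 1).2 (greenA_tendsto c b hb p)).const_mul 2
  refine tendsto_nhds_unique h1 (h2.congr (fun n => ?_))
  rw [greenA_add]
  simp only [Function.iterate_one, pow_one]
  ring

theorem Gp_iter (c b : ℂ) (hb : ‖b‖ = 1) (p : ℂ × ℂ) (n : ℕ) :
    Gp c b ((hen c b)^[n] p) = 2 ^ n * Gp c b p := by
  induction n with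
  | zero => simp
  | succ n ih => rw [Function.iterate_succ_apply', Gp_hen c b hb, ih, pow_succ]; ring

theorem Gp_le_log (c b : ℂ) (hb : ‖b‖ = 1) (p : ℂ × ℂ) :
    Gp c b p ≤ greenL p + Real.log (3 + ‖c‖) :=
  le_of_tendsto (greenA_tendsto c b hb p) (Eventually.of_forall fun n => greenA_le c b hb n p)

theorem Gp_ge_log (c b : ℂ) (hb : ‖b‖ = 1) {p : ℂ × ℂ} (hp : p ∈ greenW c) :
    greenL p - 2 * Real.log (3 + ‖c‖) ≤ Gp c b p := by
  have h := Gp_approxW c b hb hp 0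
  have h2 : greenA c b 0 p = greenL p := by simp [greenA]
  rw [h2, pow_zero, div_one, abs_le] at h
  linarith [h.2]

theorem Gp_zero_iff (c b : ℂ) (hb : ‖b‖ = 1) (p : ℂ × ℂ) : Gp c b p = 0 ↔ p ∈ Kp c b := by
  constructor
  · intro h0
    obtain ⟨N, hN⟩ := green_exists_N p
    have hW := green_enter c b hb p N ((norm_snd_le p).trans hN)
    have hbd : ∀ n, ‖(hen c b)^[n + N] p‖ ≤ Real.exp (2 * Real.log (3 + ‖c‖)) := by
      intro n
      rw [Function.iterate_add_apply]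
      have h1 := Gp_ge_log c b hb (greenW_iter c b hb hW n)
      rw [Gp_iter c b hb, Gp_iter c b hb, h0, mul_zero, mul_zero] at h1
      have h2 : greenL ((hen c b)^[n] ((hen c b)^[N] p)) ≤ 2 * Real.log (3 + ‖c‖) := by linarith
      unfold greenL at h2
      have h3 : (0 : ℝ) < max 1 ‖(hen c b)^[n] ((hen c b)^[N] p)‖ :=
        lt_of_lt_of_le one_pos (le_max_left _ _)
      rw [Real.log_le_iff_le_exp h3] at h2
      exact (le_max_right _ _).trans h2
    refine ⟨∑ n ∈ Finset.range N, ‖(hen c b)^[n] p‖ + Real.exp (2 * Real.log (3 + ‖c‖)), ?_⟩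
    intro n
    rcases lt_or_ge n N with h | h
    · have h1 : ‖(hen c b)^[n] p‖ ≤ ∑ n ∈ Finset.range N, ‖(hen c b)^[n] p‖ :=
        Finset.single_le_sum (f := fun n => ‖(hen c b)^[n] p‖) (fun i _ => norm_nonneg _)
          (Finset.mem_range.2 h)
      have h2 := Real.exp_pos (2 * Real.log (3 + ‖c‖))
      linarith
    · have h1 := hbd (n - N)
      have h2 : n - N + N = n := by omega
      rw [h2] at h1
      have h3 : 0 ≤ ∑ n ∈ Finset.range N, ‖(hen c b)^[n] p‖ :=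
        Finset.sum_nonneg (fun i _ => norm_nonneg _)
      linarith
  · rintro ⟨R', hR'⟩
    have h1 : Tendsto (fun n : ℕ => Real.log (max 1 R') * (1 / 2 : ℝ) ^ n) atTop (𝓝 0) := by
      have h2 := (tendsto_pow_atTop_nhds_zero_of_lt_one (r := (1 / 2 : ℝ)) (by norm_num)
        (by norm_num)).const_mul (Real.log (max 1 R'))
      rwa [mul_zero] at h2
    have h2 : Tendsto (fun n : ℕ => greenA c b n p) atTop (𝓝 0) := by
      refine squeeze_zero (fun n => greenA_nonneg c b n p) (fun n => ?_) h1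
      unfold greenA greenL
      rw [one_div, inv_pow, ← div_eq_mul_inv]
      have h3 : (0 : ℝ) < max 1 ‖(hen c b)^[n] p‖ := lt_of_lt_of_le one_pos (le_max_left _ _)
      gcongr
      exact hR' n
    exact tendsto_nhds_unique (greenA_tendsto c b hb p) h2

theorem Gp_le (c b : ℂ) (hb : ‖b‖ = 1) : ∃ C : ℝ, ∀ p, Gp c b p ≤ Real.log (max 1 ‖p‖) + C :=
  ⟨Real.log (3 + ‖c‖), fun p => Gp_le_log c b hb p⟩

theorem Gp_ge (c b : ℂ) (hb : ‖b‖ = 1) : ∃ C : ℝ, ∀ p : ℂ × ℂ, ‖p.2‖ ≤ max (3 + ‖c‖) ‖p.1‖ →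
    Real.log (max 1 ‖p‖) - C ≤ Gp c b p :=
  ⟨2 * Real.log (3 + ‖c‖), fun _ hp => Gp_ge_log c b hb hp⟩

/-! ### asymptotics on `V⁺` -/

theorem VP_iter (c b : ℂ) (hb : ‖b‖ = 1) {p : ℂ × ℂ} (hp : p ∈ VP c) (n : ℕ) :
    (hen c b)^[n] p ∈ VP c ∧ ‖p.1‖ ≤ ‖((hen c b)^[n] p).1‖ := by
  induction n with
  | zero => exact ⟨hp, le_rfl⟩
  | succ n ih =>
    rw [Function.iterate_succ_apply']
    obtain ⟨h1, h2⟩ := hen_VP c b hb ih.1
    exact ⟨h1, by linarith [ih.2, norm_nonneg ((hen c b)^[n] p).1]⟩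

theorem VP_greenL (c : ℂ) {p : ℂ × ℂ} (hp : p ∈ VP c) : greenL p = Real.log ‖p.1‖ := by
  obtain ⟨h1, h2⟩ := hp
  have hc := norm_nonneg c
  unfold greenL
  rw [Prod.norm_def, max_eq_left h2.le, max_eq_right (by linarith)]

theorem VP_delta_le (c : ℂ) {p : ℂ × ℂ} (hp : p ∈ VP c) :
    (‖c‖ + ‖p.2‖) / ‖p.1‖ ^ 2 ≤ 1 / 3 := by
  obtain ⟨h1, h2⟩ := hp
  have hc := norm_nonneg c
  have hpos : 0 < ‖p.1‖ := by linarith
  rw [div_le_div_iff₀ (by positivity) (by norm_num)]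
  nlinarith [sq_nonneg (‖p.1‖ - 3)]

theorem VP_log_step (c b : ℂ) (hb : ‖b‖ = 1) {p : ℂ × ℂ} (hp : p ∈ VP c) :
    |2 * Real.log ‖p.1‖ - Real.log ‖(hen c b p).1‖| ≤
      3 / 2 * ((‖c‖ + ‖p.2‖) / ‖p.1‖ ^ 2) := by
  have hδ := VP_delta_le c hp
  have hp' := hen_VP c b hb hp
  obtain ⟨h1, h2⟩ := hp
  have hc := norm_nonneg c
  have hpos : 0 < ‖p.1‖ := by linarith
  have hu := green_fst_upper c b hb p
  have hl := green_fst_lower c b hb p
  have hs : 0 < ‖(hen c b p).1‖ := by linarith [hp'.2]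
  set δ := (‖c‖ + ‖p.2‖) / ‖p.1‖ ^ 2 with hδdef
  have hδ0 : 0 ≤ δ := by positivity
  have hmul : δ * ‖p.1‖ ^ 2 = ‖c‖ + ‖p.2‖ := by
    rw [hδdef]; field_simp
  have hu' : ‖(hen c b p).1‖ ≤ (1 + δ) * ‖p.1‖ ^ 2 := by
    have : (1 + δ) * ‖p.1‖ ^ 2 = ‖p.1‖ ^ 2 + ‖c‖ + ‖p.2‖ := by rw [add_mul, hmul]; ring
    rw [this]; exact hu
  have hl' : (1 - δ) * ‖p.1‖ ^ 2 ≤ ‖(hen c b p).1‖ := by
    have : (1 - δ) * ‖p.1‖ ^ 2 = ‖p.1‖ ^ 2 - ‖c‖ - ‖p.2‖ := by rw [sub_mul, hmul]; ring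
    rw [this]; exact hl
  have h1δ : 0 < 1 - δ := by linarith
  have e1 : Real.log ‖(hen c b p).1‖ ≤ Real.log (1 + δ) + 2 * Real.log ‖p.1‖ := by
    have h := Real.log_le_log hs hu'
    rw [Real.log_mul (by positivity) (by positivity), Real.log_pow] at h
    push_cast at h
    exact h
  have e2 : Real.log (1 - δ) + 2 * Real.log ‖p.1‖ ≤ Real.log ‖(hen c b p).1‖ := by
    have h := Real.log_le_log (mul_pos h1δ (by positivity)) hl'
    rw [Real.log_mul h1δ.ne' (by positivity), Real.log_pow] at h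
    push_cast at h
    exact h
  have e3 : Real.log (1 + δ) ≤ δ := by
    have := Real.log_le_sub_one_of_pos (show (0 : ℝ) < 1 + δ by positivity)
    linarith
  have e4 : -(3 / 2 * δ) ≤ Real.log (1 - δ) := by
    have h := Real.log_le_sub_one_of_pos (inv_pos.2 h1δ)
    rw [Real.log_inv] at h
    have h5 : (1 - δ)⁻¹ - 1 ≤ 3 / 2 * δ := by
      rw [sub_le_iff_le_add, inv_le_iff_one_le_mul₀ h1δ]
      nlinarith
    linarith
  rw [abs_le]
  constructor <;> linarith

theorem VP_Gp_log (c b : ℂ) (hb : ‖b‖ = 1) {p : ℂ × ℂ} (hp : p ∈ VP c) {D : ℝ}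
    (hD : ∀ n : ℕ, (‖c‖ + ‖((hen c b)^[n] p).2‖) / ‖((hen c b)^[n] p).1‖ ^ 2 ≤ D) :
    |Gp c b p - Real.log ‖p.1‖| ≤ 3 / 2 * D := by
  have hA : ∀ n, greenA c b n p = Real.log ‖((hen c b)^[n] p).1‖ / 2 ^ n := by
    intro n
    unfold greenA
    rw [VP_greenL c (VP_iter c b hb hp n).1]
  have hd : ∀ n, dist (greenA c b n p) (greenA c b (n + 1) p) ≤ 3 / 2 * D / 2 / 2 ^ n := by
    intro n
    rw [Real.dist_eq, hA, hA, Function.iterate_succ_apply']
    have h1 := VP_log_step c b hb (VP_iter c b hb hp n).1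
    have h3 : Real.log ‖((hen c b)^[n] p).1‖ / 2 ^ n -
        Real.log ‖(hen c b ((hen c b)^[n] p)).1‖ / 2 ^ (n + 1) =
        (2 * Real.log ‖((hen c b)^[n] p).1‖ -
          Real.log ‖(hen c b ((hen c b)^[n] p)).1‖) / 2 / 2 ^ n := by
      rw [pow_succ]
      field_simp
    rw [h3, abs_div, abs_div, abs_of_pos (by positivity : (0 : ℝ) < 2 ^ n),
      abs_of_pos (two_pos : (0 : ℝ) < 2)]
    gcongr
    refine h1.trans ?_
    have := hD n
    linarith
  have h := dist_le_of_le_geometric_two_of_tendsto₀ hd (greenA_tendsto c b hb p)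
  rw [Real.dist_eq, hA 0, abs_sub_comm] at h
  simpa using h

/-- on `V⁺` the Green function is positive and close to `log ‖x‖` -/
theorem Gp_VP (c b : ℂ) (hb : ‖b‖ = 1) : ∃ C : ℝ, ∀ p ∈ VP c,
    0 < Gp c b p ∧ |Gp c b p - Real.log ‖p.1‖| ≤ C * (1 + ‖p.2‖) / ‖p.1‖ ^ 2 := by
  have hc := norm_nonneg c
  refine ⟨3 / 2 * (9 / 4 * (1 + ‖c‖)), fun p hp => ⟨?_, ?_⟩⟩
  · have h1 := VP_Gp_log c b hb hp (D := 1 / 3) (fun n => VP_delta_le c (VP_iter c b hb hp n).1)
    have h2 : 1 < Real.log ‖p.1‖ := by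
      rw [Real.lt_log_iff_exp_lt (by linarith [hp.1])]
      have := Real.exp_one_lt_d9
      linarith [hp.1]
    rw [abs_le] at h1
    linarith [h1.1]
  · have hpos : 0 < ‖p.1‖ := by linarith [hp.1]
    have hD : ∀ n : ℕ, (‖c‖ + ‖((hen c b)^[n] p).2‖) / ‖((hen c b)^[n] p).1‖ ^ 2 ≤
        9 / 4 * (1 + ‖c‖) * (1 + ‖p.2‖) / ‖p.1‖ ^ 2 := by
      intro n
      have hy := norm_nonneg p.2
      cases n with
      | zero =>
        simp only [Function.iterate_zero, id_eq]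
        gcongr
        nlinarith [mul_nonneg hc hy]
      | succ k =>
        rw [Function.iterate_succ_apply']
        obtain ⟨hk1, hk2⟩ := VP_iter c b hb hp k
        set q := (hen c b)^[k] p with hq
        have hsnd : (hen c b q).2 = q.1 := rfl
        rw [hsnd]
        have hs := green_fst_sq c b hb hk1.1.le hk1.2.le
        have hqpos : 0 < ‖q.1‖ := by linarith
        have hspos : 0 < ‖(hen c b q).1‖ := lt_of_lt_of_le (by positivity) hs
        have hq1 : 1 ≤ ‖q.1‖ := by linarith [hk1.1]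
        rw [div_le_div_iff₀ (by positivity) (by positivity)]
        have e1 : ‖c‖ + ‖q.1‖ ≤ (1 + ‖c‖) * ‖q.1‖ := by nlinarith
        have e2 : ‖p.1‖ ^ 2 ≤ ‖q.1‖ ^ 2 := by gcongr
        have e3 : (2 / 3 * ‖q.1‖ ^ 2) ^ 2 ≤ ‖(hen c b q).1‖ ^ 2 := by gcongr
        calc (‖c‖ + ‖q.1‖) * ‖p.1‖ ^ 2 ≤ ((1 + ‖c‖) * ‖q.1‖) * ‖q.1‖ ^ 2 := by gcongr
          _ = (1 + ‖c‖) * (‖q.1‖ ^ 3 * 1) := by ring
          _ ≤ (1 + ‖c‖) * (‖q.1‖ ^ 3 * ‖q.1‖) := by gcongr
          _ = 9 / 4 * (1 + ‖c‖) * 1 * (2 / 3 * ‖q.1‖ ^ 2) ^ 2 := by ring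
          _ ≤ 9 / 4 * (1 + ‖c‖) * (1 + ‖p.2‖) * ‖(hen c b q).1‖ ^ 2 := by
            gcongr
            linarith
    have h := VP_Gp_log c b hb hp hD
    refine h.trans (le_of_eq ?_)
    ring

/-- a point with positive Green function enters `V⁺` -/
theorem exists_VP (c b : ℂ) (hb : ‖b‖ = 1) {p : ℂ × ℂ} (hp : 0 < Gp c b p) :
    ∃ n : ℕ, (hen c b)^[n] p ∈ VP c := by
  by_contra hcon
  push Not at hcon
  have hc := norm_nonneg c
  obtain ⟨N, hN⟩ := green_exists_N p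
  have hW := green_enter c b hb p N ((norm_snd_le p).trans hN)
  set q := (hen c b)^[N] p with hq
  have hqc : ∀ n, (hen c b)^[n] q ∉ VP c := by
    intro n
    rw [hq, ← Function.iterate_add_apply]
    exact hcon _
  have hbd : ∀ n, ‖(hen c b)^[n] q‖ ≤ 3 + ‖c‖ := by
    intro n
    have hWn := greenW_iter c b hb hW n
    have h1 := hqc n
    have h2 := hqc (n + 1)
    rw [Function.iterate_succ_apply'] at h2
    set z := (hen c b)^[n] q with hz
    simp only [greenW, mem_ofPred_eq] at hWn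
    have h3 : ‖z.1‖ ≤ 3 + ‖c‖ := by
      by_contra h4
      push Not at h4
      rw [max_eq_right h4.le] at hWn
      have h5 := green_fst_two c b hb h4.le hWn
      apply h2
      refine ⟨by linarith, ?_⟩
      show ‖z.1‖ < _
      linarith
    rw [max_eq_left h3] at hWn
    rw [Prod.norm_def]
    exact max_le h3 hWn
  have h0 : Gp c b q = 0 := (Gp_zero_iff c b hb q).2 ⟨_, hbd⟩
  rw [hq, Gp_iter c b hb] at h0
  have : (0 : ℝ) < 2 ^ N * Gp c b p := by positivity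
  linarith

/-! ### the submean inequality -/

theorem green_submean_one {h : ℂ → ℂ} {z : ℂ} {R r : ℝ} (hh : DifferentiableOn ℂ h (ball z R))
    (hr : 0 < r) (hrR : r < R) {g : ℂ → ℝ} (hg : ContinuousOn g (sphere z r))
    (hle : ∀ ζ ∈ sphere z r, Real.log (max 1 ‖h ζ‖) ≤ g ζ) :
    Real.log (max 1 ‖h z‖) ≤ Real.circleAverage g z r := by
  have habs : |r| = r := abs_of_pos hr
  have hg0 : ∀ ζ ∈ sphere z r, 0 ≤ g ζ := fun ζ hζ =>
    (Real.log_nonneg (le_max_left _ _)).trans (hle ζ hζ)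
  have hav0 : 0 ≤ Real.circleAverage g z r := by
    apply Real.circleAverage_nonneg_of_nonneg
    rw [habs]
    exact hg0
  rcases le_or_gt ‖h z‖ 1 with h1 | h1
  · rw [max_eq_left h1, Real.log_one]
    exact hav0
  · rw [max_eq_right h1.le]
    have hz0 : h z ≠ 0 := by
      intro h0
      rw [h0, norm_zero] at h1
      linarith
    have hA : AnalyticOnNhd ℂ h (closedBall z |r|) := by
      rw [habs]
      exact (hh.analyticOnNhd isOpen_ball).mono (closedBall_subset_ball hrR)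
    have hJ := AnalyticOnNhd.circleAverage_log_norm hr.ne' hA hz0
    have hpos : 0 ≤ ∑ᶠ u, (MeromorphicOn.divisor h (closedBall z |r|) u : ℝ)
        * Real.log (r * ‖z - u‖⁻¹) := by
      apply finsum_nonneg
      intro u
      by_cases hu : u ∈ closedBall z |r|
      · apply mul_nonneg
        · have : (0 : ℤ) ≤ MeromorphicOn.divisor h (closedBall z |r|) u :=
            MeromorphicOn.AnalyticOnNhd.divisor_nonneg hA u
          exact_mod_cast this
        · rw [habs, mem_closedBall, dist_comm, dist_eq_norm] at hu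
          rcases (norm_nonneg (z - u)).eq_or_lt with h0 | h0
          · rw [← h0]; simp
          · apply Real.log_nonneg
            rw [← div_eq_mul_inv, one_le_div h0]
            exact hu
      · rw [Function.locallyFinsuppWithin.apply_eq_zero_of_notMem _ hu]
        simp
    have hmono : Real.circleAverage (fun ζ => Real.log ‖h ζ‖) z r ≤ Real.circleAverage g z r := by
      apply Real.circleAverage_mono
      · exact (hA.mono sphere_subset_closedBall).meromorphicOn.circleIntegrable_log_norm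
      · exact hg.circleIntegrable hr.le
      · rw [habs]
        intro ζ hζ
        refine le_trans ?_ (hle ζ hζ)
        rcases eq_or_ne (h ζ) 0 with h0 | h0
        · rw [h0, norm_zero, Real.log_zero]
          exact Real.log_nonneg (le_max_left _ _)
        · exact Real.log_le_log (norm_pos_iff.2 h0) (le_max_right _ _)
    rw [hJ] at hmono
    linarith

theorem greenL_submean {ψ : ℂ → ℂ × ℂ} {z : ℂ} {R r : ℝ}
    (hψ : DifferentiableOn ℂ ψ (ball z R)) (hr : 0 < r) (hrR : r < R) :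
    greenL (ψ z) ≤ Real.circleAverage (fun ζ => greenL (ψ ζ)) z r := by
  have hsub : sphere z r ⊆ ball z R :=
    sphere_subset_closedBall.trans (closedBall_subset_ball hrR)
  have hcont : ContinuousOn (fun ζ => greenL (ψ ζ)) (sphere z r) :=
    greenL_continuous.comp_continuousOn (hψ.continuousOn.mono hsub)
  have h1 := green_submean_one (h := fun ζ => (ψ ζ).1) (differentiable_fst.comp_differentiableOn hψ)
    hr hrR hcont (fun ζ _ => by
      unfold greenL
      refine Real.log_le_log (lt_of_lt_of_le one_pos (le_max_left _ _)) ?_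
      exact max_le_max le_rfl (norm_fst_le _))
  have h2 := green_submean_one (h := fun ζ => (ψ ζ).2) (differentiable_snd.comp_differentiableOn hψ)
    hr hrR hcont (fun ζ _ => by
      unfold greenL
      refine Real.log_le_log (lt_of_lt_of_le one_pos (le_max_left _ _)) ?_
      exact max_le_max le_rfl (norm_snd_le _))
  have h3 : greenL (ψ z) = Real.log (max 1 ‖(ψ z).1‖) ∨
      greenL (ψ z) = Real.log (max 1 ‖(ψ z).2‖) := by
    unfold greenL
    rw [Prod.norm_def]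
    rcases le_total ‖(ψ z).1‖ ‖(ψ z).2‖ with h | h
    · right; rw [max_eq_right h]
    · left; rw [max_eq_left h]
  rcases h3 with h3 | h3
  · rw [h3]; exact h1
  · rw [h3]; exact h2

theorem Gp_submean (c b : ℂ) (hb : ‖b‖ = 1) {φ : ℂ → ℂ × ℂ} {z : ℂ} {R r : ℝ}
    (hφ : DifferentiableOn ℂ φ (ball z R)) (hr : 0 < r) (hrR : r < R) :
    Gp c b (φ z) ≤ Real.circleAverage (fun ζ => Gp c b (φ ζ)) z r := by
  have habs : |r| = r := abs_of_pos hr
  have hmem : ∀ θ : ℝ, circleMap z r θ ∈ ball z R := fun θ => by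
    rw [mem_ball, dist_eq_norm]
    simpa [circleMap, habs] using hrR
  have hc1 : Continuous (fun θ : ℝ => φ (circleMap z r θ)) :=
    hφ.continuousOn.comp_continuous (continuous_circleMap z r) hmem
  have hA : ∀ n, greenA c b n (φ z) ≤ Real.circleAverage (fun ζ => greenA c b n (φ ζ)) z r := by
    intro n
    have hd : Differentiable ℂ ((hen c b)^[n]) := (hen_differentiable c b).iterate n
    have h1 := greenL_submean (ψ := fun ζ => (hen c b)^[n] (φ ζ)) (hd.comp_differentiableOn hφ)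
      hr hrR
    have h2 : Real.circleAverage (fun ζ => greenA c b n (φ ζ)) z r =
        Real.circleAverage (fun ζ => greenL ((hen c b)^[n] (φ ζ))) z r / 2 ^ n := by
      unfold greenA
      simp only [Real.circleAverage, smul_eq_mul, intervalIntegral.integral_div]
      ring
    rw [h2]
    unfold greenA
    gcongr
  have hlim : Tendsto (fun n : ℕ => Real.circleAverage (fun ζ => greenA c b n (φ ζ)) z r) atTop
      (𝓝 (Real.circleAverage (fun ζ => Gp c b (φ ζ)) z r)) := by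
    unfold Real.circleAverage
    apply Tendsto.const_smul
    apply intervalIntegral.tendsto_integral_filter_of_dominated_convergence
      (fun θ => greenL (φ (circleMap z r θ)) + Real.log (3 + ‖c‖))
    · refine Eventually.of_forall (fun n => ?_)
      exact ((greenA_continuous c b n).comp hc1).aestronglyMeasurable
    · refine Eventually.of_forall (fun n => Eventually.of_forall (fun θ _ => ?_))
      rw [Real.norm_eq_abs, abs_of_nonneg (greenA_nonneg c b n _)]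
      exact greenA_le c b hb n _
    · exact ((greenL_continuous.comp hc1).add continuous_const).intervalIntegrable _ _
    · exact Eventually.of_forall (fun θ _ => greenA_tendsto c b hb _)
  exact le_of_tendsto_of_tendsto' (greenA_tendsto c b hb (φ z)) hlim hA

end H6ea4aa
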