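import Pool.Agent.H.MP_6ea4aa_an.Green

/-!
# MP_6ea4aa: the backward Green function
-/

set_option autoImplicit false

open Complex Set Filter Topology Metric MeasureTheory
open scoped ContDiff

namespace H6ea4aa

/-! ### the conjugacy `(x, y) ↦ (y / b, x / b)` -/

/-- the conjugating map -/
private noncomputable def tau (b : ℂ) (p : ℂ × ℂ) : ℂ × ℂ := (p.2 / b, p.1 / b)

private theorem Gm_eq (c b : ℂ) (p : ℂ × ℂ) : Gm c b p = Gp (c / b ^ 2) (1 / b) (tau b p) := rfl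

private theorem ne_of_norm {b : ℂ} (hb : ‖b‖ = 1) : b ≠ 0 := by
  intro h
  rw [h, norm_zero] at hb
  norm_num at hb

private theorem norm_b' {b : ℂ} (hb : ‖b‖ = 1) : ‖1 / b‖ = 1 := by
  rw [norm_div, hb, norm_one, div_one]

private theorem norm_c' (c : ℂ) {b : ℂ} (hb : ‖b‖ = 1) : ‖c / b ^ 2‖ = ‖c‖ := by
  rw [norm_div, norm_pow, hb, one_pow, div_one]

private theorem tau_henInv (c b : ℂ) (p : ℂ × ℂ) :
    tau b (henInv c b p) = hen (c / b ^ 2) (1 / b) (tau b p) := by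
  simp only [tau, henInv, hen]
  ext
  · simp only
    ring
  · rfl

private theorem tau_iterate (c b : ℂ) (n : ℕ) (p : ℂ × ℂ) :
    tau b ((henInv c b)^[n] p) = (hen (c / b ^ 2) (1 / b))^[n] (tau b p) := by
  induction n generalizing p with
  | zero => rfl
  | succ n ih =>
    rw [Function.iterate_succ_apply, Function.iterate_succ_apply, ih, tau_henInv]

private theorem norm_tau {b : ℂ} (hb : ‖b‖ = 1) (p : ℂ × ℂ) : ‖tau b p‖ = ‖p‖ := by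
  simp only [tau, Prod.norm_def, norm_div, hb, div_one]
  exact max_comm _ _

private theorem tau_differentiable (b : ℂ) : Differentiable ℂ (tau b) := by
  unfold tau
  fun_prop

/-! ### the backward Green function (transferred by `(x, y) ↦ (y / b, x / b)`) -/

theorem Gm_continuous (c b : ℂ) (hb : ‖b‖ = 1) : Continuous (Gm c b) := by
  have h := (Gp_continuous (c / b ^ 2) (1 / b) (norm_b' hb)).comp (tau_differentiable b).continuous
  exact h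

theorem Gm_nonneg (c b : ℂ) (hb : ‖b‖ = 1) (p : ℂ × ℂ) : 0 ≤ Gm c b p :=
  Gp_nonneg _ _ (norm_b' hb) _

theorem Gm_henInv (c b : ℂ) (hb : ‖b‖ = 1) (p : ℂ × ℂ) :
    Gm c b (henInv c b p) = 2 * Gm c b p := by
  rw [Gm_eq, Gm_eq, tau_henInv, Gp_hen _ _ (norm_b' hb)]

theorem Gm_hen (c b : ℂ) (hb : ‖b‖ = 1) (p : ℂ × ℂ) : Gm c b (hen c b p) = Gm c b p / 2 := by
  have h := Gm_henInv c b hb (hen c b p)
  rw [henInv_hen c b (ne_of_norm hb)] at h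
  linarith

theorem Gm_zero_iff (c b : ℂ) (hb : ‖b‖ = 1) (p : ℂ × ℂ) : Gm c b p = 0 ↔ p ∈ Km c b := by
  rw [Gm_eq, Gp_zero_iff _ _ (norm_b' hb)]
  constructor
  · rintro ⟨R, hR⟩
    refine ⟨R, fun n => ?_⟩
    have h := hR n
    rwa [← tau_iterate, norm_tau hb] at h
  · rintro ⟨R, hR⟩
    refine ⟨R, fun n => ?_⟩
    rw [← tau_iterate, norm_tau hb]
    exact hR n

theorem Gm_le (c b : ℂ) (hb : ‖b‖ = 1) : ∃ C : ℝ, ∀ p, Gm c b p ≤ Real.log (max 1 ‖p‖) + C := by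
  obtain ⟨C, hC⟩ := Gp_le (c / b ^ 2) (1 / b) (norm_b' hb)
  refine ⟨C, fun p => ?_⟩
  have h := hC (tau b p)
  rwa [norm_tau hb] at h

/-- asymptotics of `G⁻` where `‖y‖ > ‖x‖`, `‖y‖` large -/
theorem Gm_VM (c b : ℂ) (hb : ‖b‖ = 1) : ∃ C : ℝ, ∀ p : ℂ × ℂ, 3 + ‖c‖ < ‖p.2‖ →
    ‖p.1‖ < ‖p.2‖ →
    0 < Gm c b p ∧ |Gm c b p - Real.log ‖p.2‖| ≤ C * (1 + ‖p.1‖) / ‖p.2‖ ^ 2 := by
  obtain ⟨C, hC⟩ := Gp_VP (c / b ^ 2) (1 / b) (norm_b' hb)
  refine ⟨C, fun p h1 h2 => ?_⟩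
  have e1 : ‖(tau b p).1‖ = ‖p.2‖ := by simp only [tau, norm_div, hb, div_one]
  have e2 : ‖(tau b p).2‖ = ‖p.1‖ := by simp only [tau, norm_div, hb, div_one]
  have hmem : tau b p ∈ VP (c / b ^ 2) := by
    refine ⟨?_, ?_⟩
    · rw [e1, norm_c' c hb]; exact h1
    · rw [e1, e2]; exact h2
  have h := hC _ hmem
  rw [e1, e2] at h
  exact h

theorem Gm_submean (c b : ℂ) (hb : ‖b‖ = 1) {φ : ℂ → ℂ × ℂ} {z : ℂ} {R r : ℝ}
    (hφ : DifferentiableOn ℂ φ (ball z R)) (hr : 0 < r) (hrR : r < R) :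
    Gm c b (φ z) ≤ Real.circleAverage (fun ζ => Gm c b (φ ζ)) z r := by
  have h := Gp_submean (c / b ^ 2) (1 / b) (norm_b' hb) (φ := fun ζ => tau b (φ ζ))
    ((tau_differentiable b).comp_differentiableOn hφ) hr hrR
  exact h

/-! ### geometry of `K⁻` at high levels, compactness -/

/-- a point of `K⁻` with large second coordinate has a larger first coordinate -/
theorem Km_not_VM (c b : ℂ) (hb : ‖b‖ = 1) {p : ℂ × ℂ} (h0 : Gm c b p = 0)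
    (h1 : 3 + ‖c‖ < ‖p.2‖) : ‖p.2‖ < ‖p.1‖ := by
  by_contra hle
  push Not at hle
  obtain ⟨C, hC⟩ := Gm_VM c b hb
  have hq : Gm c b (henInv c b p) = 0 := by rw [Gm_henInv c b hb, h0, mul_zero]
  have e1 : (henInv c b p).1 = p.2 := rfl
  have e2 : ‖(henInv c b p).2‖ = ‖p.2 ^ 2 + c - p.1‖ := by
    simp only [henInv, norm_div, hb, div_one]
  have hc := norm_nonneg c
  have hlow : 2 * ‖p.2‖ ≤ ‖(henInv c b p).2‖ := by
    rw [e2]
    have t1 : ‖p.2‖ ^ 2 ≤ ‖p.2 ^ 2 + c - p.1‖ + (‖c‖ + ‖p.1‖) := by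
      have : p.2 ^ 2 = (p.2 ^ 2 + c - p.1) + (p.1 - c) := by ring
      calc ‖p.2‖ ^ 2 = ‖p.2 ^ 2‖ := (norm_pow _ _).symm
        _ = ‖(p.2 ^ 2 + c - p.1) + (p.1 - c)‖ := by rw [← this]
        _ ≤ ‖p.2 ^ 2 + c - p.1‖ + ‖p.1 - c‖ := norm_add_le _ _
        _ ≤ ‖p.2 ^ 2 + c - p.1‖ + (‖c‖ + ‖p.1‖) := by
          have := norm_sub_le p.1 c
          linarith
    nlinarith
  have hpos : 0 < ‖p.2‖ := by linarith
  have h := (hC (henInv c b p) (by linarith) (by rw [e1]; linarith)).1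
  linarith

theorem Km_high (c b : ℂ) (hb : ‖b‖ = 1) : ∃ S C : ℝ, ∀ p : ℂ × ℂ, Gm c b p = 0 →
    S < Gp c b p → p ∈ VP c ∧ ‖p.2‖ ≤ C * Real.sqrt ‖p.1‖ := by
  obtain ⟨C0, hC0⟩ := Gp_le c b hb
  have hc := norm_nonneg c
  refine ⟨Real.log (3 + ‖c‖) + C0, 3, fun p h0 hS => ?_⟩
  have hbig : 3 + ‖c‖ < ‖p‖ := by
    by_contra hle
    push Not at hle
    have h1 := hC0 p
    have h2 : Real.log (max 1 ‖p‖) ≤ Real.log (3 + ‖c‖) := by
      apply Real.log_le_log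
      · exact lt_of_lt_of_le one_pos (le_max_left _ _)
      · exact max_le (by linarith) hle
    linarith
  have hVP : p ∈ VP c := by
    rcases le_or_gt ‖p.2‖ (3 + ‖c‖) with h | h
    · have h1 : 3 + ‖c‖ < ‖p.1‖ := by
        rw [Prod.norm_def] at hbig
        rcases lt_max_iff.1 hbig with h' | h'
        · exact h'
        · linarith
      exact ⟨h1, lt_of_le_of_lt h h1⟩
    · have h1 := Km_not_VM c b hb h0 h
      exact ⟨lt_trans h h1, h1⟩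
  refine ⟨hVP, ?_⟩
  have hq : Gm c b (henInv c b p) = 0 := by rw [Gm_henInv c b hb, h0, mul_zero]
  have e1 : (henInv c b p).1 = p.2 := rfl
  have e2 : ‖(henInv c b p).2‖ = ‖p.2 ^ 2 + c - p.1‖ := by
    simp only [henInv, norm_div, hb, div_one]
  have hy1 : ‖p.2 ^ 2 + c - p.1‖ ≤ (3 + ‖c‖) + ‖p.2‖ := by
    rw [← e2]
    rcases le_or_gt ‖(henInv c b p).2‖ (3 + ‖c‖) with h | h
    · have := norm_nonneg p.2
      linarith
    · have h1 := Km_not_VM c b hb hq h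
      rw [e1] at h1
      linarith
  have t1 : ‖p.2‖ ^ 2 ≤ ‖p.2 ^ 2 + c - p.1‖ + (‖c‖ + ‖p.1‖) := by
    have : p.2 ^ 2 = (p.2 ^ 2 + c - p.1) + (p.1 - c) := by ring
    calc ‖p.2‖ ^ 2 = ‖p.2 ^ 2‖ := (norm_pow _ _).symm
      _ = ‖(p.2 ^ 2 + c - p.1) + (p.1 - c)‖ := by rw [← this]
      _ ≤ ‖p.2 ^ 2 + c - p.1‖ + ‖p.1 - c‖ := norm_add_le _ _
      _ ≤ ‖p.2 ^ 2 + c - p.1‖ + (‖c‖ + ‖p.1‖) := by
        have := norm_sub_le p.1 c
        linarith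
  have hx : 3 + ‖c‖ < ‖p.1‖ := hVP.1
  have h7 : ‖p.2‖ ^ 2 ≤ 9 * ‖p.1‖ := by
    nlinarith [sq_nonneg (‖p.2‖ - 1)]
  have hs : (3 * Real.sqrt ‖p.1‖) ^ 2 = 9 * ‖p.1‖ := by
    rw [mul_pow, Real.sq_sqrt (norm_nonneg _)]
    norm_num
  have hs0 : 0 ≤ 3 * Real.sqrt ‖p.1‖ := by positivity
  rw [← hs] at h7
  exact (sq_le_sq₀ (norm_nonneg _) hs0).1 h7

/-- `K = K⁺ ∩ K⁻` is bounded -/
theorem K_bounded (c b : ℂ) (hb : ‖b‖ = 1) : ∃ R : ℝ, ∀ p : ℂ × ℂ, Gp c b p = 0 →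
    Gm c b p = 0 → ‖p‖ ≤ R := by
  obtain ⟨C, hC⟩ := Gp_VP c b hb
  refine ⟨3 + ‖c‖, fun p hp hm => ?_⟩
  have h1 : ‖p.1‖ ≤ 3 + ‖c‖ := by
    by_contra h
    push Not at h
    rcases lt_or_ge ‖p.2‖ ‖p.1‖ with h' | h'
    · have := (hC p ⟨h, h'⟩).1
      linarith
    · have := Km_not_VM c b hb hm (lt_of_lt_of_le h h')
      linarith
  have h2 : ‖p.2‖ ≤ 3 + ‖c‖ := by
    by_contra h
    push Not at h
    have := Km_not_VM c b hb hm h
    linarith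
  rw [Prod.norm_def]
  exact max_le h1 h2

end H6ea4aa
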