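import Pool.Agent.H.MP_6ea4aa_an.Phi

/-!
# MP_6ea4aa: leaves `{φ⁺ = e^w}` as graphs over the `y`-axis
-/

set_option autoImplicit false

open Complex Set Filter Topology Metric

namespace H6ea4aa

/-- the domain `{Re w > S, |y| < e^{Re w} / 2}` -/
def DD (S : ℝ) : Set (ℂ × ℂ) := {q | S < q.1.re ∧ ‖q.2‖ < Real.exp q.1.re / 2}

structure Leaf (c b : ℂ) (P : Phi c b) where
  S : ℝ
  C : ℝ
  hS : 1 ≤ S
  hC : 1 ≤ C
  X : ℂ → ℂ → ℂ
  diff : DifferentiableOn ℂ (fun q : ℂ × ℂ => X q.1 q.2) (DD S)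
  mem : ∀ w y, (w, y) ∈ DD S → (X w y, y) ∈ VP c ∧ P.φ (X w y, y) = exp w
  uniq : ∀ w x y, (w, y) ∈ DD S → (x, y) ∈ VP c → P.φ (x, y) = exp w → x = X w y
  est : ∀ w y, (w, y) ∈ DD S → ‖X w y - exp w‖ ≤ C * (1 + ‖y‖) * Real.exp (-w.re)
  der : ∀ w y, (w, y) ∈ DD S →
    ‖deriv (fun w' => X w' y) w - exp w‖ ≤ C * (1 + ‖y‖) * Real.exp (-w.re)

/-! ### the fixed point construction -/

/-- a slightly larger domain -/
def Leaf_E (S : ℝ) : Set (ℂ × ℂ) := {q | S < q.1.re ∧ ‖q.2‖ < 3 / 4 * Real.exp q.1.re}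

theorem Leaf_isOpen_E (S : ℝ) : IsOpen (Leaf_E S) := by
  have h1 : IsOpen {q : ℂ × ℂ | S < q.1.re} :=
    isOpen_lt continuous_const (Complex.continuous_re.comp continuous_fst)
  have h2 : IsOpen {q : ℂ × ℂ | ‖q.2‖ < 3 / 4 * Real.exp q.1.re} :=
    isOpen_lt (by fun_prop) (continuous_const.mul
      (Real.continuous_exp.comp (Complex.continuous_re.comp continuous_fst)))
  exact h1.inter h2

/-- the level above which the construction works -/
noncomputable def Leaf_S0 {c b : ℂ} (P : Phi c b) : ℝ := 64 * P.C + 2 * (3 + ‖c‖)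

theorem Leaf_exp_large {c b : ℂ} (P : Phi c b) {q : ℂ × ℂ} (hq : q ∈ Leaf_E (Leaf_S0 P)) :
    64 * P.C + 2 * (3 + ‖c‖) < Real.exp q.1.re := by
  have h1 := hq.1
  have h2 := Real.add_one_le_exp q.1.re
  unfold Leaf_S0 at h1
  linarith

theorem Leaf_VP {c b : ℂ} (P : Phi c b) {q : ℂ × ℂ} (hq : q ∈ Leaf_E (Leaf_S0 P)) {x : ℂ}
    (hx : ‖x - exp q.1‖ ≤ Real.exp q.1.re / 8) :
    (x, q.2) ∈ VP c ∧ 7 / 8 * Real.exp q.1.re ≤ ‖x‖ := by
  have hK := Leaf_exp_large P hq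
  have hC := P.hC
  have hc := norm_nonneg c
  have h1 : Real.exp q.1.re - Real.exp q.1.re / 8 ≤ ‖x‖ := by
    have h2 := norm_sub_norm_le (exp q.1) (exp q.1 - x)
    rw [sub_sub_cancel, Complex.norm_exp, norm_sub_rev] at h2
    linarith
  refine ⟨⟨?_, ?_⟩, by linarith⟩
  · show 3 + ‖c‖ < ‖x‖
    linarith
  · show ‖q.2‖ < ‖x‖
    linarith [hq.2]

/-- the defect `φ(x,y) - x` is bounded -/
theorem Leaf_defect {c b : ℂ} (P : Phi c b) {q : ℂ × ℂ} (hq : q ∈ Leaf_E (Leaf_S0 P)) {x : ℂ}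
    (hx : ‖x - exp q.1‖ ≤ Real.exp q.1.re / 8) :
    ‖P.φ (x, q.2) - x‖ ≤ 2 * P.C := by
  obtain ⟨h1, h2⟩ := Leaf_VP P hq hx
  have hK := Leaf_exp_large P hq
  have hC := P.hC
  have hc := norm_nonneg c
  refine (P.est _ h1).trans ?_
  show P.C * (1 + ‖q.2‖) / ‖x‖ ≤ 2 * P.C
  have hx0 : 0 < ‖x‖ := by linarith
  rw [div_le_iff₀ hx0]
  have h3 : 1 + ‖q.2‖ ≤ 2 * ‖x‖ := by linarith [hq.2]
  nlinarith

theorem Leaf_diffAt {c b : ℂ} (P : Phi c b) {x y : ℂ} (h : (x, y) ∈ VP c) :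
    DifferentiableAt ℂ (fun z : ℂ => P.φ (z, y) - z) x := by
  have h1 : DifferentiableAt ℂ P.φ (x, y) :=
    (P.diff _ h).differentiableAt ((Phi_isOpen_VP c).mem_nhds h)
  have h2 : DifferentiableAt ℂ (fun z : ℂ => ((z, y) : ℂ × ℂ)) x := by fun_prop
  have h3 : DifferentiableAt ℂ (fun z : ℂ => P.φ (z, y)) x := DifferentiableAt.comp x h1 h2
  exact h3.sub differentiableAt_id

theorem Leaf_lip {c b : ℂ} (P : Phi c b) {q : ℂ × ℂ} (hq : q ∈ Leaf_E (Leaf_S0 P)) {x x' : ℂ}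
    (hx : x ∈ closedBall (exp q.1) (Real.exp q.1.re / 32))
    (hx' : x' ∈ closedBall (exp q.1) (Real.exp q.1.re / 32)) :
    ‖(P.φ (x', q.2) - x') - (P.φ (x, q.2) - x)‖ ≤ 1 / 2 * ‖x' - x‖ := by
  have hK := Leaf_exp_large P hq
  have hC := P.hC
  have hc := norm_nonneg c
  set ρ := Real.exp q.1.re with hρ
  have hρ0 : 0 < ρ := Real.exp_pos _
  have hin : ∀ z ∈ closedBall (exp q.1) (ρ / 32), ∀ z' ∈ closedBall z (ρ / 16),
      ‖z' - exp q.1‖ ≤ ρ / 8 := by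
    intro z hz z' hz'
    rw [mem_closedBall, dist_eq_norm] at hz hz'
    calc ‖z' - exp q.1‖ ≤ ‖z' - z‖ + ‖z - exp q.1‖ := norm_sub_le_norm_sub_add_norm_sub _ _ _
      _ ≤ ρ / 8 := by linarith
  refine Convex.norm_image_sub_le_of_norm_deriv_le
    (f := fun z : ℂ => P.φ (z, q.2) - z) (s := closedBall (exp q.1) (ρ / 32))
    (fun z hz => ?_) (fun z hz => ?_) (convex_closedBall _ _) hx hx'
  · exact Leaf_diffAt P (Leaf_VP P hq (hin z hz z (mem_closedBall_self (by positivity)))).1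
  · have hd : DiffContOnCl ℂ (fun z : ℂ => P.φ (z, q.2) - z) (ball z (ρ / 16)) :=
      DifferentiableOn.diffContOnCl_ball (U := closedBall z (ρ / 16))
        (fun z' hz' => (Leaf_diffAt P (Leaf_VP P hq (hin z hz z' hz')).1).differentiableWithinAt)
        subset_rfl
    have h1 := Complex.norm_deriv_le_of_forall_mem_sphere_norm_le
      (show 0 < ρ / 16 by positivity) hd
      (fun z' hz' => Leaf_defect P hq (hin z hz z' (sphere_subset_closedBall hz')))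
    refine h1.trans ?_
    rw [div_le_iff₀ (by positivity)]
    linarith

/-- the iteration -/
noncomputable def Leaf_X {c b : ℂ} (P : Phi c b) : ℕ → ℂ × ℂ → ℂ
  | 0, q => exp q.1
  | n + 1, q => exp q.1 - (P.φ (Leaf_X P n q, q.2) - Leaf_X P n q)

theorem Leaf_X_mem {c b : ℂ} (P : Phi c b) {q : ℂ × ℂ} (hq : q ∈ Leaf_E (Leaf_S0 P)) (n : ℕ) :
    Leaf_X P n q ∈ closedBall (exp q.1) (Real.exp q.1.re / 32) := by
  have hK := Leaf_exp_large P hq
  have hC := P.hC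
  have hc := norm_nonneg c
  induction n with
  | zero =>
    exact mem_closedBall_self (by positivity)
  | succ n ih =>
    rw [mem_closedBall, dist_eq_norm] at ih ⊢
    have h1 := Leaf_defect P hq (x := Leaf_X P n q) (by linarith)
    have h2 : Leaf_X P (n + 1) q - exp q.1 = -(P.φ (Leaf_X P n q, q.2) - Leaf_X P n q) := by
      show exp q.1 - (P.φ (Leaf_X P n q, q.2) - Leaf_X P n q) - exp q.1 = _
      ring
    rw [h2, norm_neg]
    linarith

theorem Leaf_X_step {c b : ℂ} (P : Phi c b) {q : ℂ × ℂ} (hq : q ∈ Leaf_E (Leaf_S0 P)) (n : ℕ) :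
    dist (Leaf_X P n q) (Leaf_X P (n + 1) q) ≤ 2 * P.C * (1 / 2) ^ n := by
  have hK := Leaf_exp_large P hq
  have hC := P.hC
  have hc := norm_nonneg c
  induction n with
  | zero =>
    have h0 : Leaf_X P 0 q = exp q.1 := rfl
    have h1 := Leaf_defect P hq (x := Leaf_X P 0 q) (by rw [h0, sub_self, norm_zero]; positivity)
    have h2 : Leaf_X P 0 q - Leaf_X P (0 + 1) q = P.φ (Leaf_X P 0 q, q.2) - Leaf_X P 0 q := by
      show exp q.1 - (exp q.1 - (P.φ (Leaf_X P 0 q, q.2) - Leaf_X P 0 q)) = _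
      ring
    rw [dist_eq_norm, h2]
    linarith
  | succ n ih =>
    have h1 := Leaf_lip P hq (Leaf_X_mem P hq (n + 1)) (Leaf_X_mem P hq n)
    have h2 : Leaf_X P (n + 1) q - Leaf_X P (n + 1 + 1) q =
        -((P.φ (Leaf_X P n q, q.2) - Leaf_X P n q) -
          (P.φ (Leaf_X P (n + 1) q, q.2) - Leaf_X P (n + 1) q)) := by
      show (exp q.1 - (P.φ (Leaf_X P n q, q.2) - Leaf_X P n q)) -
        (exp q.1 - (P.φ (Leaf_X P (n + 1) q, q.2) - Leaf_X P (n + 1) q)) = _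
      ring
    rw [dist_eq_norm, h2, norm_neg]
    rw [dist_eq_norm] at ih
    calc _ ≤ 1 / 2 * ‖Leaf_X P n q - Leaf_X P (n + 1) q‖ := h1
      _ ≤ 1 / 2 * (2 * P.C * (1 / 2) ^ n) := by linarith
      _ = _ := by ring

theorem Leaf_X_diff {c b : ℂ} (P : Phi c b) (n : ℕ) :
    DifferentiableOn ℂ (Leaf_X P n) (Leaf_E (Leaf_S0 P)) := by
  induction n with
  | zero =>
    have h : Differentiable ℂ (fun q : ℂ × ℂ => exp q.1) := by fun_prop
    exact h.differentiableOn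
  | succ n ih =>
    have h1 : MapsTo (fun q : ℂ × ℂ => ((Leaf_X P n q, q.2) : ℂ × ℂ)) (Leaf_E (Leaf_S0 P))
        (VP c) := by
      intro q hq
      have h2 := Leaf_X_mem P hq n
      rw [mem_closedBall, dist_eq_norm] at h2
      exact (Leaf_VP P hq (by linarith [Real.exp_pos q.1.re])).1
    have h3 : DifferentiableOn ℂ (fun q : ℂ × ℂ => P.φ (Leaf_X P n q, q.2))
        (Leaf_E (Leaf_S0 P)) :=
      P.diff.comp (ih.prodMk differentiable_snd.differentiableOn) h1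
    have h4 : Differentiable ℂ (fun q : ℂ × ℂ => exp q.1) := by fun_prop
    exact h4.differentiableOn.sub (h3.sub ih)

/-- the solution -/
noncomputable def Leaf_lim {c b : ℂ} (P : Phi c b) (q : ℂ × ℂ) : ℂ :=
  limUnder atTop (fun n => Leaf_X P n q)

theorem Leaf_tendsto {c b : ℂ} (P : Phi c b) {q : ℂ × ℂ} (hq : q ∈ Leaf_E (Leaf_S0 P)) :
    Tendsto (fun n => Leaf_X P n q) atTop (𝓝 (Leaf_lim P q)) :=
  (cauchySeq_of_le_geometric (1 / 2) (2 * P.C) (by norm_num)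
    (Leaf_X_step P hq)).tendsto_limUnder

theorem Leaf_dist {c b : ℂ} (P : Phi c b) {q : ℂ × ℂ} (hq : q ∈ Leaf_E (Leaf_S0 P)) (n : ℕ) :
    dist (Leaf_X P n q) (Leaf_lim P q) ≤ 2 * P.C * (1 / 2) ^ n / (1 - 1 / 2) :=
  dist_le_of_le_geometric_of_tendsto (1 / 2) (2 * P.C) (by norm_num)
    (Leaf_X_step P hq) (Leaf_tendsto P hq) n

theorem Leaf_lim_mem {c b : ℂ} (P : Phi c b) {q : ℂ × ℂ} (hq : q ∈ Leaf_E (Leaf_S0 P)) :
    Leaf_lim P q ∈ closedBall (exp q.1) (Real.exp q.1.re / 32) :=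
  isClosed_closedBall.mem_of_tendsto (Leaf_tendsto P hq)
    (Eventually.of_forall fun n => Leaf_X_mem P hq n)

theorem Leaf_lim_VP {c b : ℂ} (P : Phi c b) {q : ℂ × ℂ} (hq : q ∈ Leaf_E (Leaf_S0 P)) :
    (Leaf_lim P q, q.2) ∈ VP c ∧ 7 / 8 * Real.exp q.1.re ≤ ‖Leaf_lim P q‖ := by
  have h := Leaf_lim_mem P hq
  rw [mem_closedBall, dist_eq_norm] at h
  exact Leaf_VP P hq (by linarith [Real.exp_pos q.1.re])

theorem Leaf_lim_eq {c b : ℂ} (P : Phi c b) {q : ℂ × ℂ} (hq : q ∈ Leaf_E (Leaf_S0 P)) :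
    P.φ (Leaf_lim P q, q.2) = exp q.1 := by
  have hV := (Leaf_lim_VP P hq).1
  have h1 : ContinuousAt P.φ (Leaf_lim P q, q.2) :=
    ((P.diff _ hV).differentiableAt ((Phi_isOpen_VP c).mem_nhds hV)).continuousAt
  have ht := Leaf_tendsto P hq
  have h2 : Tendsto (fun n => ((Leaf_X P n q, q.2) : ℂ × ℂ)) atTop
      (𝓝 (Leaf_lim P q, q.2)) := ht.prodMk_nhds tendsto_const_nhds
  have h3 : Tendsto (fun n => exp q.1 - (P.φ (Leaf_X P n q, q.2) - Leaf_X P n q)) atTop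
      (𝓝 (exp q.1 - (P.φ (Leaf_lim P q, q.2) - Leaf_lim P q))) :=
    tendsto_const_nhds.sub ((h1.tendsto.comp h2).sub ht)
  have h4 : Tendsto (fun n => Leaf_X P (n + 1) q) atTop (𝓝 (Leaf_lim P q)) :=
    (tendsto_add_atTop_iff_nat 1).mpr ht
  have h5 := tendsto_nhds_unique h4 h3
  linear_combination h5

theorem Leaf_lim_diff {c b : ℂ} (P : Phi c b) :
    DifferentiableOn ℂ (Leaf_lim P) (Leaf_E (Leaf_S0 P)) := by
  refine Pool.Agent.ParLeaf.scv_limit (Leaf_isOpen_E _) (fun n => Leaf_X_diff P n)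
    (TendstoUniformlyOn.tendstoLocallyUniformlyOn ?_)
  rw [Metric.tendstoUniformlyOn_iff]
  intro ε hε
  have h1 : Tendsto (fun n : ℕ => 2 * P.C * (1 / 2 : ℝ) ^ n / (1 - 1 / 2)) atTop (𝓝 0) := by
    have h2 := (tendsto_pow_atTop_nhds_zero_of_lt_one (by norm_num : (0 : ℝ) ≤ 1 / 2)
      (by norm_num)).const_mul (2 * P.C)
    have h3 := h2.div_const (1 - 1 / 2)
    simpa using h3
  filter_upwards [h1.eventually_lt_const hε] with n hn q hq
  rw [dist_comm]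
  exact (Leaf_dist P hq n).trans_lt hn

theorem Leaf_lim_est {c b : ℂ} (P : Phi c b) {q : ℂ × ℂ} (hq : q ∈ Leaf_E (Leaf_S0 P)) :
    ‖Leaf_lim P q - exp q.1‖ ≤ 2 * P.C * (1 + ‖q.2‖) * Real.exp (-q.1.re) := by
  obtain ⟨hV, h7⟩ := Leaf_lim_VP P hq
  have h1 := P.est _ hV
  rw [Leaf_lim_eq P hq, norm_sub_rev] at h1
  refine h1.trans ?_
  show P.C * (1 + ‖q.2‖) / ‖Leaf_lim P q‖ ≤ _
  have hC := P.hC
  rw [Real.exp_neg]
  have hρ0 : 0 < Real.exp q.1.re := Real.exp_pos _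
  calc P.C * (1 + ‖q.2‖) / ‖Leaf_lim P q‖ ≤ P.C * (1 + ‖q.2‖) / (1 / 2 * Real.exp q.1.re) := by
        gcongr
        linarith
    _ = _ := by
        field_simp

theorem Leaf_uniq {c b : ℂ} (P : Phi c b) {q : ℂ × ℂ} (hq : q ∈ Leaf_E (Leaf_S0 P)) {x : ℂ}
    (hx : (x, q.2) ∈ VP c) (he : P.φ (x, q.2) = exp q.1) : x = Leaf_lim P q := by
  have hK := Leaf_exp_large P hq
  have hC := P.hC
  have hc := norm_nonneg c
  have h1 := P.est _ hx
  rw [he, norm_sub_rev] at h1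
  have hx1 : 3 < ‖x‖ := (Phi_VP_norm hx).1
  have hx2 : ‖q.2‖ < ‖x‖ := hx.2
  have h2 : ‖x - exp q.1‖ ≤ 2 * P.C := by
    refine h1.trans ?_
    show P.C * (1 + ‖q.2‖) / ‖x‖ ≤ 2 * P.C
    rw [div_le_iff₀ (by linarith)]
    nlinarith
  have hxm : x ∈ closedBall (exp q.1) (Real.exp q.1.re / 32) := by
    rw [mem_closedBall, dist_eq_norm]
    linarith
  have h3 := Leaf_lip P hq (Leaf_lim_mem P hq) hxm
  rw [he, Leaf_lim_eq P hq] at h3
  have h4 : exp q.1 - x - (exp q.1 - Leaf_lim P q) = -(x - Leaf_lim P q) := by ring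
  rw [h4, norm_neg] at h3
  have h5 : ‖x - Leaf_lim P q‖ ≤ 0 := by linarith
  exact sub_eq_zero.mp (norm_le_zero_iff.mp h5)

theorem Leaf_DD_sub {c b : ℂ} (P : Phi c b) : DD (Leaf_S0 P + 1) ⊆ Leaf_E (Leaf_S0 P) := by
  intro q hq
  refine ⟨by linarith [hq.1], ?_⟩
  have := hq.2
  have h0 := Real.exp_pos q.1.re
  linarith

theorem Leaf_near {c b : ℂ} (P : Phi c b) {w y : ℂ} (hq : (w, y) ∈ DD (Leaf_S0 P + 1)) {w' : ℂ}
    (hw : w' ∈ closedBall w (1 / 4)) :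
    (w', y) ∈ Leaf_E (Leaf_S0 P) ∧ Real.exp (-w'.re) ≤ 3 / 2 * Real.exp (-w.re) := by
  rw [mem_closedBall, dist_eq_norm] at hw
  have h1 : |w'.re - w.re| ≤ 1 / 4 := by
    have := Complex.abs_re_le_norm (w' - w)
    rw [Complex.sub_re] at this
    linarith
  have h2 := abs_le.mp h1
  have hS := hq.1
  have hy := hq.2
  simp only at hS hy
  have he : Real.exp (1 / 4) ≤ 3 / 2 := by
    have h3 : (1 : ℝ) / 4 - 1 / 4 = 0 := by norm_num
    have h4 := Real.add_one_le_exp (-(1 / 4) : ℝ)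
    have h5 : Real.exp (1 / 4) * Real.exp (-(1 / 4)) = 1 := by
      rw [← Real.exp_add]
      norm_num
    nlinarith [Real.exp_pos (1 / 4 : ℝ)]
  have h6 : Real.exp w.re ≤ 3 / 2 * Real.exp w'.re := by
    calc Real.exp w.re ≤ Real.exp (1 / 4 + w'.re) := Real.exp_le_exp.mpr (by linarith)
      _ = Real.exp (1 / 4) * Real.exp w'.re := Real.exp_add _ _
      _ ≤ 3 / 2 * Real.exp w'.re := by
          exact mul_le_mul_of_nonneg_right he (Real.exp_pos _).le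
  refine ⟨⟨?_, ?_⟩, ?_⟩
  · show Leaf_S0 P < w'.re
    linarith
  · show ‖y‖ < 3 / 4 * Real.exp w'.re
    linarith
  · calc Real.exp (-w'.re) ≤ Real.exp (1 / 4 + -w.re) := Real.exp_le_exp.mpr (by linarith)
      _ = Real.exp (1 / 4) * Real.exp (-w.re) := Real.exp_add _ _
      _ ≤ 3 / 2 * Real.exp (-w.re) := by
          exact mul_le_mul_of_nonneg_right he (Real.exp_pos _).le

theorem Leaf_der {c b : ℂ} (P : Phi c b) {w y : ℂ} (hq : (w, y) ∈ DD (Leaf_S0 P + 1)) :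
    ‖deriv (fun w' => Leaf_lim P (w', y)) w - exp w‖ ≤
      12 * P.C * (1 + ‖y‖) * Real.exp (-w.re) := by
  have hC := P.hC
  have hd1 : ∀ w' ∈ closedBall w (1 / 4), DifferentiableAt ℂ (fun w' => Leaf_lim P (w', y)) w' := by
    intro w' hw'
    have h1 := (Leaf_near P hq hw').1
    have h2 : DifferentiableAt ℂ (Leaf_lim P) (w', y) :=
      (Leaf_lim_diff P _ h1).differentiableAt ((Leaf_isOpen_E _).mem_nhds h1)
    have h3 : DifferentiableAt ℂ (fun z : ℂ => ((z, y) : ℂ × ℂ)) w' := by fun_prop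
    exact DifferentiableAt.comp (g := Leaf_lim P) w' h2 h3
  have hd : DiffContOnCl ℂ (fun w' => Leaf_lim P (w', y) - exp w') (ball w (1 / 4)) :=
    DifferentiableOn.diffContOnCl_ball (U := closedBall w (1 / 4))
      (fun w' hw' => ((hd1 w' hw').sub (by fun_prop)).differentiableWithinAt) subset_rfl
  have hb : ∀ w' ∈ sphere w (1 / 4), ‖Leaf_lim P (w', y) - exp w'‖ ≤
      3 * P.C * (1 + ‖y‖) * Real.exp (-w.re) := by
    intro w' hw'
    obtain ⟨h1, h2⟩ := Leaf_near P hq (sphere_subset_closedBall hw')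
    refine (Leaf_lim_est P h1).trans ?_
    show 2 * P.C * (1 + ‖y‖) * Real.exp (-w'.re) ≤ _
    calc 2 * P.C * (1 + ‖y‖) * Real.exp (-w'.re)
        ≤ 2 * P.C * (1 + ‖y‖) * (3 / 2 * Real.exp (-w.re)) := by gcongr
      _ = _ := by ring
  have h1 := Complex.norm_deriv_le_of_forall_mem_sphere_norm_le (by norm_num) hd hb
  have h2 : deriv (fun w' => Leaf_lim P (w', y) - exp w') w =
      deriv (fun w' => Leaf_lim P (w', y)) w - exp w := by
    have h3 := ((hd1 w (mem_closedBall_self (by norm_num))).hasDerivAt).sub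
      (Complex.hasDerivAt_exp w)
    exact h3.deriv
  rw [h2] at h1
  refine h1.trans (le_of_eq ?_)
  ring

theorem exists_leaf (c b : ℂ) (hb : ‖b‖ = 1) (P : Phi c b) : Nonempty (Leaf c b P) := by
  have hC := P.hC
  have hc := norm_nonneg c
  refine ⟨{ S := Leaf_S0 P + 1, C := 12 * P.C, hS := ?_, hC := by linarith,
            X := fun w y => Leaf_lim P (w, y), diff := ?_, mem := ?_, uniq := ?_, est := ?_,
            der := ?_ }⟩
  · unfold Leaf_S0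
    linarith
  · exact (Leaf_lim_diff P).mono (Leaf_DD_sub P)
  · intro w y hq
    have h := Leaf_DD_sub P hq
    exact ⟨(Leaf_lim_VP P h).1, Leaf_lim_eq P h⟩
  · intro w x y hq hx he
    exact Leaf_uniq P (Leaf_DD_sub P hq) hx he
  · intro w y hq
    refine (Leaf_lim_est P (Leaf_DD_sub P hq)).trans ?_
    show 2 * P.C * (1 + ‖y‖) * Real.exp (-w.re) ≤ _
    gcongr
    linarith
  · intro w y hq
    exact Leaf_der P hq

end H6ea4aa
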