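import Pool.Agent.H.MP_6ea4aa_an.Phi
import Pool.Agent.H.MP_6ea4aa_an.Volume
import Pool.Agent.H.MP_6ea4aa_an.Util
import Pool.Agent.H.MP_3a36cd_an.SCV1

/-!
# MP_6ea4aa: lemma (Z): a box whose boundary avoids `K` contains a point of `J`
-/

set_option autoImplicit false

open Complex Set Filter Topology Metric
open scoped ContDiff

namespace H6ea4aa

/-- the linear equivalence `(x, y) ↦ (α x + β y, x)` -/
private noncomputable def LemmaZ_equiv1 (α β : ℂ) (hβ : β ≠ 0) : (ℂ × ℂ) ≃L[ℂ] (ℂ × ℂ) :=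
  ContinuousLinearEquiv.equivOfInverse
    (((α • ContinuousLinearMap.fst ℂ ℂ ℂ + β • ContinuousLinearMap.snd ℂ ℂ ℂ)).prod
      (ContinuousLinearMap.fst ℂ ℂ ℂ))
    ((ContinuousLinearMap.snd ℂ ℂ ℂ).prod
      (β⁻¹ • (ContinuousLinearMap.fst ℂ ℂ ℂ - α • ContinuousLinearMap.snd ℂ ℂ ℂ)))
    (by
      intro p
      ext
      · simp
      · simp
        field_simp)
    (by
      intro p
      ext
      · simp
        field_simp
        ring
      · simp)

/-- the linear equivalence `(x, y) ↦ (α x + β y, y)` -/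
private noncomputable def LemmaZ_equiv2 (α β : ℂ) (hα : α ≠ 0) : (ℂ × ℂ) ≃L[ℂ] (ℂ × ℂ) :=
  ContinuousLinearEquiv.equivOfInverse
    (((α • ContinuousLinearMap.fst ℂ ℂ ℂ + β • ContinuousLinearMap.snd ℂ ℂ ℂ)).prod
      (ContinuousLinearMap.snd ℂ ℂ ℂ))
    ((α⁻¹ • (ContinuousLinearMap.fst ℂ ℂ ℂ - β • ContinuousLinearMap.snd ℂ ℂ ℂ)).prod
      (ContinuousLinearMap.snd ℂ ℂ ℂ))
    (by
      intro p
      ext
      · simp
        field_simp
      · simp)
    (by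
      intro p
      ext
      · simp
        field_simp
        ring
      · simp)

/-- flow box: the level sets of a holomorphic function near a regular point -/
theorem LemmaZ_flow {F : ℂ × ℂ → ℂ} {p : ℂ × ℂ} {r : ℝ} (hr : 0 < r)
    (hF : DifferentiableOn ℂ F (ball p r)) (hne : fderiv ℂ F p ≠ 0) {T : Set (ℂ × ℂ)}
    (hT : T ∈ 𝓝 p) :
    ∃ a > 0, ∃ t₀ : ℂ, ∃ Ψ : ℂ × ℂ → ℂ × ℂ, ∃ l : ℂ × ℂ → ℂ, Ψ (F p, t₀) = p ∧
      (∀ q ∈ ball (F p, t₀) a, DifferentiableAt ℂ Ψ q ∧ Ψ q ∈ T ∧ Ψ q ∈ ball p r ∧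
        F (Ψ q) = q.1 ∧ l (Ψ q) = q.2) := by
  have hp : p ∈ ball p r := mem_ball_self hr
  have hC : ContDiffOn ℂ ∞ F (ball p r) := Pool.Agent.ParLeaf.scv_contDiffOn isOpen_ball hF
  have hCp : ContDiffAt ℂ ∞ F p := hC.contDiffAt (isOpen_ball.mem_nhds hp)
  set A := fderiv ℂ F p with hA
  have hAe : ∀ v : ℂ × ℂ, A v = A (1, 0) * v.1 + A (0, 1) * v.2 := by
    intro v
    have : v = v.1 • ((1, 0) : ℂ × ℂ) + v.2 • ((0, 1) : ℂ × ℂ) := by
      ext <;> simp
    conv_lhs => rw [this]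
    rw [map_add, map_smul, map_smul]
    simp [mul_comm]
  have key : ∃ l : ℂ × ℂ →L[ℂ] ℂ, ∃ e : (ℂ × ℂ) ≃L[ℂ] (ℂ × ℂ),
      (e : (ℂ × ℂ) →L[ℂ] (ℂ × ℂ)) = A.prod l := by
    by_cases hβ : A (0, 1) = 0
    · have hα : A (1, 0) ≠ 0 := by
        intro hα
        apply hne
        ext <;> simp [hα, hβ]
      refine ⟨ContinuousLinearMap.snd ℂ ℂ ℂ, LemmaZ_equiv2 (A (1, 0)) (A (0, 1)) hα, ?_⟩
      ext <;> simp [LemmaZ_equiv2, ContinuousLinearEquiv.equivOfInverse]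
    · refine ⟨ContinuousLinearMap.fst ℂ ℂ ℂ, LemmaZ_equiv1 (A (1, 0)) (A (0, 1)) hβ, ?_⟩
      ext <;> simp [LemmaZ_equiv1, ContinuousLinearEquiv.equivOfInverse]
  obtain ⟨l, e, he⟩ := key
  set G : ℂ × ℂ → ℂ × ℂ := fun q => (F q, l q) with hG
  have hGC : ContDiffAt ℂ 1 G p := (hCp.of_le (by exact_mod_cast le_top)).prodMk l.contDiff.contDiffAt
  have hGd : HasFDerivAt G (e : (ℂ × ℂ) →L[ℂ] (ℂ × ℂ)) p := by
    rw [he]
    exact ((hF.differentiableAt (isOpen_ball.mem_nhds hp)).hasFDerivAt).prodMk l.hasFDerivAt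
  have hGs : HasStrictFDerivAt G (e : (ℂ × ℂ) →L[ℂ] (ℂ × ℂ)) p :=
    hGC.hasStrictFDerivAt' hGd (by norm_num)
  set E := hGs.toOpenPartialHomeomorph G with hE
  have hEp : p ∈ E.source := hGs.mem_toOpenPartialHomeomorph_source
  have hEc : ∀ q, E q = G q := fun q => by rw [hE, hGs.toOpenPartialHomeomorph_coe]
  have hT1 : G p ∈ E.target := by
    rw [← hEc]; exact E.map_source hEp
  have hsymm : E.symm (G p) = p := by rw [← hEc]; exact E.left_inv hEp
  have hcd : ContDiffAt ℂ 1 E.symm (G p) := by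
    apply E.contDiffAt_symm hT1 (f₀' := e)
    · rw [hsymm]
      simpa [hE, hGs.toOpenPartialHomeomorph_coe] using hGd
    · rw [hsymm]
      simpa [hE, hGs.toOpenPartialHomeomorph_coe] using hGC
  have hev1 : ∀ᶠ q in 𝓝 (G p), ContDiffAt ℂ 1 E.symm q := hcd.eventually (by simp)
  have hev2 : ∀ᶠ q in 𝓝 (G p), q ∈ E.target := E.open_target.mem_nhds hT1
  have hcont : ContinuousAt E.symm (G p) := hcd.continuousAt
  have hev3 : ∀ᶠ q in 𝓝 (G p), E.symm q ∈ T ∩ ball p r := by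
    apply hcont
    rw [hsymm]
    exact inter_mem hT (isOpen_ball.mem_nhds hp)
  obtain ⟨a, ha, hball⟩ := Metric.eventually_nhds_iff_ball.1 (hev1.and (hev2.and hev3))
  refine ⟨a, ha, l p, E.symm, l, hsymm, ?_⟩
  intro q hq
  obtain ⟨h1, h2, h3⟩ := hball q hq
  have h4 : G (E.symm q) = q := by rw [← hEc]; exact E.right_inv h2
  refine ⟨h1.differentiableAt (by norm_num), h3.1, h3.2, ?_, ?_⟩
  · exact congrArg Prod.fst h4
  · exact congrArg Prod.snd h4


theorem LemmaZ_Kp_closed (c b : ℂ) (hb : ‖b‖ = 1) : IsClosed (Kp c b) := by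
  have : Kp c b = (Gp c b) ⁻¹' {0} := by
    ext p
    simp [Gp_zero_iff c b hb]
  rw [this]
  exact isClosed_singleton.preimage (Gp_continuous c b hb)

theorem LemmaZ_Km_closed (c b : ℂ) (hb : ‖b‖ = 1) : IsClosed (Km c b) := by
  have : Km c b = (Gm c b) ⁻¹' {0} := by
    ext p
    simp [Gm_zero_iff c b hb]
  rw [this]
  exact isClosed_singleton.preimage (Gm_continuous c b hb)

/-- a holomorphic disc through a minimum point of `G⁻` on `J⁺` -/
theorem LemmaZ_disc (c b : ℂ) (hb : ‖b‖ = 1) (T : Set (ℂ × ℂ)) (hT : IsOpen T) {m : ℝ}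
    (hm : 0 < m) (hmin : ∀ z ∈ frontier (Kp c b) ∩ T, m ≤ Gm c b z) {p : ℂ × ℂ}
    (hp : p ∈ frontier (Kp c b)) (hpT : p ∈ T) (hpm : Gm c b p = m) :
    ∃ a > 0, ∃ t₀ : ℂ, ∃ ψ : ℂ → ℂ × ℂ, ∃ l : ℂ × ℂ → ℂ, ψ t₀ = p ∧
      (∀ t ∈ ball t₀ a, DifferentiableAt ℂ ψ t ∧ ψ t ∈ T ∧ ψ t ∈ frontier (Kp c b) ∧
        Gm c b (ψ t) = m ∧ l (ψ t) = t) := by
  obtain ⟨r, hr, F, hF, hFre, hFne⟩ := Gm_locRe2 c b hb (p := p) (by rw [hpm]; exact hm)
  obtain ⟨a, ha, t₀, Ψ, l, hΨ0, hΨ⟩ := LemmaZ_flow hr hF hFne (hT.mem_nhds hpT)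
  have hFp : (F p).re = m := by rw [← hFre p (mem_ball_self hr), hpm]
  have hmem : ∀ κ : ℝ, |κ| < a → ∀ t ∈ ball t₀ a, (F p - κ, t) ∈ ball (F p, t₀) a := by
    intro κ hκ t ht
    rw [mem_ball, Prod.dist_eq, max_lt_iff]
    refine ⟨?_, by simpa using ht⟩
    simp only [dist_eq_norm, sub_sub_cancel_left, norm_neg]
    simpa using hκ
  have hcl : IsClosed (Kp c b) := LemmaZ_Kp_closed c b hb
  have hclm : IsClosed (Km c b) := LemmaZ_Km_closed c b hb
  -- on the nearby lower discs `G⁺ > 0`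
  have hpos : ∀ κ : ℝ, 0 < κ → κ < a → κ < m → ∀ t ∈ ball t₀ a,
      0 < Gp c b (Ψ (F p - κ, t)) := by
    intro κ h0 hκa hκm t ht
    obtain ⟨-, hin, hinr, hFv, -⟩ := hΨ _ (hmem κ (by rw [abs_of_pos h0]; exact hκa) t ht)
    have hG : Gm c b (Ψ (F p - κ, t)) = m - κ := by
      rw [hFre _ hinr, hFv]
      simp [hFp]
    rcases (Gp_nonneg c b hb (Ψ (F p - κ, t))).lt_or_eq with h | h
    · exact h
    · exfalso
      have hK : Ψ (F p - κ, t) ∈ Kp c b := (Gp_zero_iff c b hb _).1 h.symm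
      by_cases hi : Ψ (F p - κ, t) ∈ interior (Kp c b)
      · have := (Gm_zero_iff c b hb _).2 (interior_Kp_subset c b hb hi)
        rw [hG] at this
        linarith
      · have hfr : Ψ (F p - κ, t) ∈ frontier (Kp c b) := by
          rw [hcl.frontier_eq]
          exact ⟨hK, hi⟩
        have := hmin _ ⟨hfr, hin⟩
        rw [hG] at this
        linarith
  -- Harnack
  have hharn : ∀ κ : ℝ, 0 < κ → κ < a → κ < m → ∀ t ∈ ball t₀ a,
      Gp c b (Ψ (F p - κ, t)) ≤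
        (a + ‖t - t₀‖) / (a - ‖t - t₀‖) * Gp c b (Ψ (F p - κ, t₀)) := by
    intro κ h0 hκa hκm t ht
    apply harnack (u := fun t => Gp c b (Ψ (F p - κ, t))) (z := t₀) (R := a) _ _ ht
    · intro ζ hζ
      obtain ⟨s, hs, H, hH, hHre, -⟩ := Gp_locRe2 c b hb (hpos κ h0 hκa hκm ζ hζ)
      have hd : ∀ ζ ∈ ball t₀ a, DifferentiableAt ℂ (fun t => Ψ (F p - κ, t)) ζ := by
        intro ζ hζ
        have h1 := (hΨ _ (hmem κ (by rw [abs_of_pos h0]; exact hκa) ζ hζ)).1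
        exact h1.comp ζ (by fun_prop)
      have hc : ContinuousAt (fun t => Ψ (F p - κ, t)) ζ := (hd ζ hζ).continuousAt
      have hev : ∀ᶠ t in 𝓝 ζ, Ψ (F p - κ, t) ∈ ball (Ψ (F p - κ, ζ)) s ∧ t ∈ ball t₀ a :=
        (hc.eventually (isOpen_ball.mem_nhds (mem_ball_self hs))).and
          (isOpen_ball.mem_nhds hζ)
      obtain ⟨ρ, hρ, hρb⟩ := Metric.eventually_nhds_iff_ball.1 hev
      refine ⟨ρ, hρ, fun t => H (Ψ (F p - κ, t)), ?_, ?_⟩
      · intro t ht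
        have h2 := hρb t ht
        exact ((hH.differentiableAt (isOpen_ball.mem_nhds h2.1)).comp t
          (hd t h2.2)).differentiableWithinAt
      · intro t ht
        exact hHre _ (hρb t ht).1
    · intro ζ hζ
      exact (hpos κ h0 hκa hκm ζ hζ).le
  -- the limit disc
  have hlim : ∀ t ∈ ball t₀ a,
      Tendsto (fun κ : ℝ => Ψ (F p - κ, t)) (𝓝[>] 0) (𝓝 (Ψ (F p, t))) := by
    intro t ht
    have h1 : ContinuousAt Ψ (F p, t) := by
      have := (hΨ _ (hmem 0 (by simpa using ha) t ht)).1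
      simpa using this.continuousAt
    have h2 : Tendsto (fun κ : ℝ => ((F p - κ, t) : ℂ × ℂ)) (𝓝[>] 0) (𝓝 (F p, t)) := by
      have : Continuous fun κ : ℝ => ((F p - κ, t) : ℂ × ℂ) := by fun_prop
      have h3 := (this.tendsto 0)
      simp only [ofReal_zero, sub_zero] at h3
      exact h3.mono_left nhdsWithin_le_nhds
    exact h1.tendsto.comp h2
  have hsmall : ∀ᶠ κ : ℝ in 𝓝[>] 0, 0 < κ ∧ κ < a ∧ κ < m := by
    have : Ioo (0 : ℝ) (min a m) ∈ 𝓝[>] (0 : ℝ) := Ioo_mem_nhdsGT (lt_min ha hm)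
    filter_upwards [this] with κ hκ
    exact ⟨hκ.1, hκ.2.trans_le (min_le_left _ _), hκ.2.trans_le (min_le_right _ _)⟩
  have hGp0 : Gp c b p = 0 := (Gp_zero_iff c b hb p).2 (hcl.frontier_subset hp)
  have hzero : ∀ t ∈ ball t₀ a, Gp c b (Ψ (F p, t)) = 0 := by
    intro t ht
    apply le_antisymm _ (Gp_nonneg c b hb _)
    have hGc := Gp_continuous c b hb
    have h1 : Tendsto (fun κ : ℝ => Gp c b (Ψ (F p - κ, t))) (𝓝[>] 0)
        (𝓝 (Gp c b (Ψ (F p, t)))) := (hGc.tendsto _).comp (hlim t ht)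
    have h2 : Tendsto (fun κ : ℝ => (a + ‖t - t₀‖) / (a - ‖t - t₀‖) *
        Gp c b (Ψ (F p - κ, t₀))) (𝓝[>] 0) (𝓝 ((a + ‖t - t₀‖) / (a - ‖t - t₀‖) * 0)) := by
      apply Tendsto.const_mul
      have h3 := (hGc.tendsto _).comp (hlim t₀ (mem_ball_self ha))
      rw [hΨ0, hGp0] at h3
      exact h3
    rw [mul_zero] at h2
    apply le_of_tendsto_of_tendsto h1 h2
    filter_upwards [hsmall] with κ hκ
    exact hharn κ hκ.1 hκ.2.1 hκ.2.2 t ht
  refine ⟨a, ha, t₀, fun t => Ψ (F p, t), l, hΨ0, ?_⟩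
  intro t ht
  have hmem0 : (F p, t) ∈ ball (F p, t₀) a := by
    have := hmem 0 (by simpa using ha) t ht
    simpa using this
  obtain ⟨hd, hin, hinr, hFv, hlv⟩ := hΨ _ hmem0
  refine ⟨?_, hin, ?_, ?_, hlv⟩
  · exact hd.comp t (by fun_prop)
  · rw [frontier_eq_closure_inter_closure]
    refine ⟨subset_closure ((Gp_zero_iff c b hb _).1 (hzero t ht)), ?_⟩
    apply mem_closure_of_tendsto (hlim t ht)
    filter_upwards [hsmall] with κ hκ
    intro hK
    have := hpos κ hκ.1 hκ.2.1 hκ.2.2 t ht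
    rw [(Gp_zero_iff c b hb _).2 hK] at this
    exact lt_irrefl _ this
  · rw [hFre _ hinr, hFv, hFp]

theorem lemmaZ (c b : ℂ) (hb : ‖b‖ = 1) (T : Set (ℂ × ℂ)) (hT : IsOpen T)
    (hTb : Bornology.IsBounded T) (δ : ℝ) (hδ : 0 < δ)
    (h1 : ∀ z ∈ frontier T, Gp c b z = 0 → δ ≤ Gm c b z)
    (h2 : ∃ z ∈ T, Gp c b z = 0 ∧ Gm c b z < δ) : (T ∩ JJ c b).Nonempty := by
  have hcl : IsClosed (Kp c b) := LemmaZ_Kp_closed c b hb
  have hclm : IsClosed (Km c b) := LemmaZ_Km_closed c b hb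
  have hclT : closure T = T ∪ frontier T := by
    rw [closure_eq_self_union_frontier]
  -- Step 1
  have step1 : ∃ z ∈ frontier (Kp c b) ∩ T, Gm c b z < δ := by
    obtain ⟨z, hzT, hz0, hzδ⟩ := h2
    by_cases hz : z ∈ frontier (Kp c b)
    · exact ⟨z, ⟨hz, hzT⟩, hzδ⟩
    have hzK : z ∈ Kp c b := (Gp_zero_iff c b hb z).1 hz0
    have hzi : z ∈ interior (Kp c b) := by
      by_contra hcon
      exact hz (by rw [hcl.frontier_eq]; exact ⟨hzK, hcon⟩)
    set W := interior (Kp c b) ∩ T with hW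
    have hWo : IsOpen W := isOpen_interior.inter hT
    have hWne : W.Nonempty := ⟨z, hzi, hzT⟩
    have hWb : Bornology.IsBounded W := hTb.subset inter_subset_right
    have hWu : W ≠ univ := by
      intro h
      rw [h] at hWb
      exact NormedSpace.unbounded_univ ℂ (ℂ × ℂ) hWb
    obtain ⟨z', hz'⟩ : (frontier W).Nonempty := nonempty_frontier_iff.2 ⟨hWne, hWu⟩
    have hz'c : z' ∈ closure W := frontier_subset_closure hz'
    have hz'K : z' ∈ Kp c b :=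
      (closure_minimal (inter_subset_left.trans interior_subset) hcl) hz'c
    have hz'm : z' ∈ Km c b :=
      (closure_minimal (inter_subset_left.trans (interior_Kp_subset c b hb)) hclm) hz'c
    have hz'0 : Gm c b z' = 0 := (Gm_zero_iff c b hb z').2 hz'm
    have hz'T : z' ∈ T := by
      have : z' ∈ closure T := closure_mono inter_subset_right hz'c
      rw [hclT] at this
      rcases this with h | h
      · exact h
      · have := h1 z' h ((Gp_zero_iff c b hb z').2 hz'K)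
        rw [hz'0] at this
        linarith
    have hz'W : z' ∉ W := by
      rw [hWo.frontier_eq] at hz'
      exact hz'.2
    have hz'i : z' ∉ interior (Kp c b) := fun h => hz'W ⟨h, hz'T⟩
    refine ⟨z', ⟨?_, hz'T⟩, by rw [hz'0]; exact hδ⟩
    rw [hcl.frontier_eq]
    exact ⟨hz'K, hz'i⟩
  -- Step 2
  set S := frontier (Kp c b) ∩ closure T with hS
  have hSc : IsCompact S := (hTb.isCompact_closure).inter_left isClosed_frontier
  obtain ⟨z1, hz1, hz1δ⟩ := step1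
  have hSne : S.Nonempty := ⟨z1, hz1.1, subset_closure hz1.2⟩
  obtain ⟨zs, hzs, hzsmin⟩ := hSc.exists_isMinOn hSne (Gm_continuous c b hb).continuousOn
  set m := Gm c b zs with hmdef
  have hmin : ∀ z ∈ S, m ≤ Gm c b z := fun z hz => hzsmin hz
  have hmδ : m < δ := (hmin z1 ⟨hz1.1, subset_closure hz1.2⟩).trans_lt hz1δ
  have hinT : ∀ z ∈ S, Gm c b z < δ → z ∈ T := by
    intro z hz hzδ
    have := hz.2
    rw [hclT] at this
    rcases this with h | h
    · exact h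
    · have := h1 z h ((Gp_zero_iff c b hb z).2 (hcl.frontier_subset hz.1))
      linarith
  rcases (Gm_nonneg c b hb zs).eq_or_lt with hm0 | hmpos
  · -- the minimum is zero
    refine ⟨zs, hinT zs hzs hmδ, hzs.1, ?_⟩
    have hzKm : zs ∈ Km c b := (Gm_zero_iff c b hb zs).1 hm0.symm
    rw [hclm.frontier_eq]
    refine ⟨hzKm, fun hi => ?_⟩
    have hsub : interior (Km c b) ⊆ interior (Kp c b) :=
      interior_maximal (interior_Km_subset c b hb) isOpen_interior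
    have := hzs.1
    rw [hcl.frontier_eq] at this
    exact this.2 (hsub hi)
  · exfalso
    set M := S ∩ (Gm c b) ⁻¹' {m} with hM
    have hMc : IsCompact M :=
      hSc.inter_right (isClosed_singleton.preimage (Gm_continuous c b hb))
    have hMne : M.Nonempty := ⟨zs, hzs, by simp [hmdef]⟩
    obtain ⟨y1, hy1, hy1max⟩ := hMc.exists_isMaxOn hMne
      (f := fun z : ℂ × ℂ => ‖z.1‖) (by fun_prop)
    set M1 := M ∩ (fun z : ℂ × ℂ => ‖z.1‖) ⁻¹' {‖y1.1‖} with hM1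
    have hM1c : IsCompact M1 :=
      hMc.inter_right (isClosed_singleton.preimage (by fun_prop))
    have hM1ne : M1.Nonempty := ⟨y1, hy1, by simp⟩
    obtain ⟨p, hp, hpmax⟩ := hM1c.exists_isMaxOn hM1ne
      (f := fun z : ℂ × ℂ => ‖z.2‖) (by fun_prop)
    have hpM : p ∈ M := hp.1
    have hpS : p ∈ S := hpM.1
    have hpm : Gm c b p = m := hpM.2
    have hpT : p ∈ T := hinT p hpS (by rw [hpm]; exact hmδ)
    obtain ⟨a, ha, t₀, ψ, l, hψ0, hψ⟩ := LemmaZ_disc c b hb T hT hmpos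
      (fun z hz => hmin z ⟨hz.1, subset_closure hz.2⟩) hpS.1 hpT hpm
    have hψM : ∀ t ∈ ball t₀ a, ψ t ∈ M := fun t ht =>
      ⟨⟨(hψ t ht).2.2.1, subset_closure (hψ t ht).2.1⟩, (hψ t ht).2.2.2.1⟩
    have hball : ∀ᶠ t in 𝓝 t₀, t ∈ ball t₀ a := isOpen_ball.mem_nhds (mem_ball_self ha)
    have hev1 : ∀ᶠ t in 𝓝 t₀, (ψ t).1 = (ψ t₀).1 := by
      apply Complex.eventually_eq_of_isLocalMax_norm (f := fun t => (ψ t).1)
      · filter_upwards [hball] with t ht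
        exact (hψ t ht).1.fst
      · filter_upwards [hball] with t ht
        have h3 : ‖(ψ t).1‖ ≤ ‖y1.1‖ := hy1max (hψM t ht)
        have h4 : ‖(ψ t₀).1‖ = ‖y1.1‖ := by rw [hψ0]; exact hp.2
        simp only [Function.comp]
        rw [h4]
        exact h3
    have hev2 : ∀ᶠ t in 𝓝 t₀, (ψ t).2 = (ψ t₀).2 := by
      apply Complex.eventually_eq_of_isLocalMax_norm (f := fun t => (ψ t).2)
      · filter_upwards [hball] with t ht
        exact (hψ t ht).1.snd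
      · filter_upwards [hball, hev1] with t ht ht1
        have h5 : ψ t ∈ M1 := ⟨hψM t ht, by
          show ‖(ψ t).1‖ = ‖y1.1‖
          rw [ht1, hψ0]
          exact hp.2⟩
        have h3 : ‖(ψ t).2‖ ≤ ‖p.2‖ := hpmax h5
        simp only [Function.comp]
        rw [hψ0]
        exact h3
    have hev3 : ∀ᶠ t in 𝓝 t₀, t = t₀ := by
      filter_upwards [hball, hev1, hev2] with t ht ht1 ht2
      have h6 : ψ t = ψ t₀ := Prod.ext ht1 ht2
      rw [← (hψ t ht).2.2.2.2, h6]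
      exact (hψ t₀ (mem_ball_self ha)).2.2.2.2
    have hne : (𝓝[≠] t₀).NeBot := inferInstance
    have h7 : ∀ᶠ t in 𝓝[≠] t₀, t = t₀ ∧ t ≠ t₀ :=
      (hev3.filter_mono nhdsWithin_le_nhds).and self_mem_nhdsWithin
    obtain ⟨t, ht, ht'⟩ := h7.exists
    exact ht' ht

end H6ea4aa
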