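import Pool.Agent.H.MP_6ea4aa_an.Win

/-!
# MP_6ea4aa: elementary lower bound of the energy
-/

set_option autoImplicit false

open Complex Set Filter Topology Metric

namespace H6ea4aa

/-- trivial bound of `log ‖u - v‖` -/
private theorem lowerB_log_le {C x : ℝ} (hC : 1 ≤ C) (hx : 0 ≤ x) {u v : ℂ}
    (hu : ‖u‖ ≤ C * Real.exp (3 / 2 * x)) (hv : ‖v‖ ≤ C * Real.exp (3 / 2 * x)) :
    Real.log ‖u - v‖ ≤ 3 / 2 * x + Real.log (2 * C) := by
  have h2C : 0 ≤ Real.log (2 * C) := Real.log_nonneg (by linarith)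
  by_cases h : u = v
  · subst h
    simp only [sub_self, norm_zero, Real.log_zero]
    positivity
  · have hpos : 0 < ‖u - v‖ := norm_pos_iff.2 (sub_ne_zero.2 h)
    have hle : ‖u - v‖ ≤ 2 * C * Real.exp (3 / 2 * x) := by
      calc ‖u - v‖ ≤ ‖u‖ + ‖v‖ := norm_sub_le _ _
        _ ≤ C * Real.exp (3 / 2 * x) + C * Real.exp (3 / 2 * x) := add_le_add hu hv
        _ = 2 * C * Real.exp (3 / 2 * x) := by ring
    calc Real.log ‖u - v‖ ≤ Real.log (2 * C * Real.exp (3 / 2 * x)) :=
          Real.log_le_log hpos hle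
      _ = Real.log (2 * C) + 3 / 2 * x := by
          rw [Real.log_mul (by positivity) (Real.exp_pos _).ne', Real.log_exp]
      _ = 3 / 2 * x + Real.log (2 * C) := by ring

/-- the finset version, by induction over the level -/
private theorem lowerB_finset {c b : ℂ} (hb : ‖b‖ = 1) {Ch : Chart c b} (W : Win Ch) (k : ℕ) :
    ∀ (w : ℂ) (F : Finset ℂ), W.S < w.re → w.re ≤ 2 ^ k * (2 * W.S) →
      (∀ u ∈ F, GG Ch w u = 0 ∧ ‖u‖ ≤ W.C * Real.exp (3 / 2 * w.re)) →
      ∑ u ∈ F, ∑ v ∈ F, Real.log ‖u - v‖ ≤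
        (F.card : ℝ) ^ 2 * (w.re + (Real.log (2 * W.C) + 3 * W.S)) := by
  have hS1 : 1 ≤ W.S := le_trans Ch.hS W.hS
  have hlC : 0 ≤ Real.log (2 * W.C) := Real.log_nonneg (by linarith [W.hC])
  -- base estimate
  have base : ∀ (w : ℂ) (F : Finset ℂ), W.S < w.re → w.re ≤ 2 * W.S →
      (∀ u ∈ F, GG Ch w u = 0 ∧ ‖u‖ ≤ W.C * Real.exp (3 / 2 * w.re)) →
      ∑ u ∈ F, ∑ v ∈ F, Real.log ‖u - v‖ ≤
        (F.card : ℝ) ^ 2 * (w.re + (Real.log (2 * W.C) + 3 * W.S)) := by
    intro w F hw hw2 hF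
    have hx : 0 ≤ w.re := by linarith
    have h1 : ∀ u ∈ F, ∀ v ∈ F, Real.log ‖u - v‖ ≤
        w.re + (Real.log (2 * W.C) + 3 * W.S) := by
      intro u hu v hv
      have := lowerB_log_le W.hC hx (hF u hu).2 (hF v hv).2
      linarith
    calc ∑ u ∈ F, ∑ v ∈ F, Real.log ‖u - v‖
        ≤ ∑ u ∈ F, ∑ v ∈ F, (w.re + (Real.log (2 * W.C) + 3 * W.S)) :=
          Finset.sum_le_sum fun u hu => Finset.sum_le_sum fun v hv => h1 u hu v hv
      _ = (F.card : ℝ) ^ 2 * (w.re + (Real.log (2 * W.C) + 3 * W.S)) := by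
          simp only [Finset.sum_const, nsmul_eq_mul]
          ring
  induction k with
  | zero =>
    intro w F hw hw2 hF
    exact base w F hw (by simpa using hw2) hF
  | succ k ih =>
    intro w F hw hw2 hF
    by_cases hlow : w.re ≤ 2 * W.S
    · exact base w F hw hlow hF
    push Not at hlow
    have hx : 0 ≤ w.re := by linarith
    set x : ℝ := w.re with hxdef
    set B : ℝ := Real.log (2 * W.C) + 3 * W.S with hBdef
    -- the splitting
    have hsp : ∀ u ∈ F, ∃ e : ℂ, (e = 0 ∨ e = Real.pi * I) ∧ ∃ u' : ℂ,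
        GG Ch (w / 2 + e) u' = 0 ∧ ‖u'‖ ≤ W.C * Real.exp (3 / 4 * w.re) ∧
        u = (b / 2) * u' + Ch.κ (w / 2 + e) := by
      intro u hu
      have hbig := (W.hbig w.re hw.le).1
      have hle : ‖u‖ ≤ 2 * Real.exp (7 / 4 * w.re) := by
        have h1 := (hF u hu).2
        have h2 : 0 < W.C * Real.exp (3 / 2 * w.re) :=
          mul_pos (by linarith [W.hC]) (Real.exp_pos _)
        have h3 : 0 < Real.exp (7 / 4 * w.re) := Real.exp_pos _
        nlinarith
      exact W.zsplit w u hlow hle (hF u hu).1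
    choose! e he u' hG hn hu using hsp
    classical
    set F0 : Finset ℂ := F.filter (fun u => e u = 0) with hF0
    set F1 : Finset ℂ := F.filter (fun u => ¬ e u = 0) with hF1
    have hcard : (F0.card : ℝ) + (F1.card : ℝ) = (F.card : ℝ) := by
      have := Finset.card_filter_add_card_filter_not (s := F) (fun u => e u = 0)
      rw [hF0, hF1]
      exact_mod_cast this
    -- one class
    have hclass : ∀ (ε : ℂ) (G : Finset ℂ), ε.re = 0 → (∀ u ∈ G, u ∈ F ∧ e u = ε) →
        ∑ u ∈ G, ∑ v ∈ G, Real.log ‖u - v‖ ≤ (G.card : ℝ) ^ 2 * (x / 2 + B) := by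
      intro ε G hε hGF
      have hinj : Set.InjOn u' (G : Set ℂ) := by
        intro p hp q hq hpq
        have hp' := hGF p hp
        have hq' := hGF q hq
        rw [hu p hp'.1, hu q hq'.1, hp'.2, hq'.2, hpq]
      have hre : (w / 2 + ε).re = x / 2 := by
        simp [hε, hxdef]
      have hterm : ∀ p ∈ G, ∀ q ∈ G, Real.log ‖p - q‖ ≤ Real.log ‖u' p - u' q‖ := by
        intro p hp q hq
        have hp' := hGF p hp
        have hq' := hGF q hq
        have hpq : p - q = (b / 2) * (u' p - u' q) := by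
          conv_lhs => rw [hu p hp'.1, hu q hq'.1, hp'.2, hq'.2]
          ring
        have hnorm : ‖p - q‖ = 1 / 2 * ‖u' p - u' q‖ := by
          rw [hpq, norm_mul, norm_div, hb]
          norm_num
        by_cases hz : u' p = u' q
        · rw [hnorm, hz]
          simp
        · have hpos : 0 < ‖u' p - u' q‖ := norm_pos_iff.2 (sub_ne_zero.2 hz)
          rw [hnorm]
          exact Real.log_le_log (by positivity) (by linarith)
      have hih := ih (w / 2 + ε) (G.image u') (by rw [hre]; linarith)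
        (by rw [hre]; rw [pow_succ] at hw2; linarith)
        (by
          intro v hv
          obtain ⟨p, hp, rfl⟩ := Finset.mem_image.1 hv
          have hp' := hGF p hp
          refine ⟨?_, ?_⟩
          · have := hG p hp'.1
            rwa [hp'.2] at this
          · have := hn p hp'.1
            rw [hre]
            have h34 : 3 / 2 * (x / 2) = 3 / 4 * w.re := by rw [hxdef]; ring
            rw [h34]
            exact this)
      rw [Finset.card_image_of_injOn hinj, hre] at hih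
      refine le_trans (Finset.sum_le_sum fun p hp => Finset.sum_le_sum fun q hq =>
        hterm p hp q hq) ?_
      have hsum : ∑ p ∈ G, ∑ q ∈ G, Real.log ‖u' p - u' q‖ =
          ∑ p ∈ G.image u', ∑ q ∈ G.image u', Real.log ‖p - q‖ := by
        rw [Finset.sum_image hinj]
        refine Finset.sum_congr rfl fun p hp => ?_
        rw [Finset.sum_image hinj]
      rw [hsum]
      exact hih
    have h0 := hclass 0 F0 (by simp) (fun u hu' => by
      rw [hF0, Finset.mem_filter] at hu'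
      exact hu')
    have h1 := hclass (Real.pi * I) F1 (by simp) (fun u hu' => by
      rw [hF1, Finset.mem_filter] at hu'
      exact ⟨hu'.1, (he u hu'.1).resolve_left hu'.2⟩)
    have hcross : ∀ G G' : Finset ℂ, G ⊆ F → G' ⊆ F →
        ∑ u ∈ G, ∑ v ∈ G', Real.log ‖u - v‖ ≤
          (G.card : ℝ) * (G'.card : ℝ) * (3 / 2 * x + Real.log (2 * W.C)) := by
      intro G G' hG1 hG2
      calc ∑ u ∈ G, ∑ v ∈ G', Real.log ‖u - v‖
          ≤ ∑ u ∈ G, ∑ v ∈ G', (3 / 2 * x + Real.log (2 * W.C)) :=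
            Finset.sum_le_sum fun p hp => Finset.sum_le_sum fun q hq =>
              lowerB_log_le W.hC hx (hF p (hG1 hp)).2 (hF q (hG2 hq)).2
        _ = _ := by
            simp only [Finset.sum_const, nsmul_eq_mul]
            ring
    have h01 := hcross F0 F1 (Finset.filter_subset _ _) (Finset.filter_subset _ _)
    have h10 := hcross F1 F0 (Finset.filter_subset _ _) (Finset.filter_subset _ _)
    have hinner : ∀ u : ℂ, ∑ v ∈ F, Real.log ‖u - v‖ =
        ∑ v ∈ F0, Real.log ‖u - v‖ + ∑ v ∈ F1, Real.log ‖u - v‖ := by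
      intro u
      rw [hF0, hF1]
      exact (Finset.sum_filter_add_sum_filter_not F (fun u => e u = 0) _).symm
    have hsplit : ∑ u ∈ F, ∑ v ∈ F, Real.log ‖u - v‖ =
        (∑ u ∈ F0, ∑ v ∈ F0, Real.log ‖u - v‖ + ∑ u ∈ F0, ∑ v ∈ F1, Real.log ‖u - v‖) +
        (∑ u ∈ F1, ∑ v ∈ F0, Real.log ‖u - v‖ + ∑ u ∈ F1, ∑ v ∈ F1, Real.log ‖u - v‖) := by
      rw [← Finset.sum_add_distrib, ← Finset.sum_add_distrib]
      rw [← Finset.sum_congr rfl (fun u _ => hinner u), ← Finset.sum_congr rfl (fun u _ => hinner u)]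
      exact (Finset.sum_filter_add_sum_filter_not F (fun u => e u = 0) _).symm
    rw [hsplit, ← hcard]
    have hBB : Real.log (2 * W.C) ≤ B := by rw [hBdef]; linarith
    have hn0 : (0 : ℝ) ≤ F0.card := Nat.cast_nonneg _
    have hn1 : (0 : ℝ) ≤ F1.card := Nat.cast_nonneg _
    have hfin : (F0.card : ℝ) ^ 2 * (x / 2 + B) + (F1.card : ℝ) ^ 2 * (x / 2 + B) +
        2 * ((F0.card : ℝ) * (F1.card : ℝ) * (3 / 2 * x + Real.log (2 * W.C))) ≤
        ((F0.card : ℝ) + (F1.card : ℝ)) ^ 2 * (x + B) := by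
      have h3 : 0 ≤ x / 2 * ((F0.card : ℝ) - (F1.card : ℝ)) ^ 2 := by positivity
      have h4 : 0 ≤ 2 * ((F0.card : ℝ) * (F1.card : ℝ)) * (B - Real.log (2 * W.C)) :=
        mul_nonneg (by positivity) (by linarith)
      nlinarith
    linarith

theorem lower_bound {c b : ℂ} (hb : ‖b‖ = 1) {Ch : Chart c b} (W : Win Ch) :
    ∃ B : ℝ, ∀ (N : ℕ) (w : ℂ) (u : Fin N → ℂ), W.S < w.re →
      (∀ i, GG Ch w (u i) = 0 ∧ ‖u i‖ ≤ W.C * Real.exp (3 / 2 * w.re)) →
      Function.Injective u →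
      ∑ i, ∑ j, Real.log ‖u i - u j‖ ≤ (N : ℝ) ^ 2 * (w.re + B) := by
  refine ⟨Real.log (2 * W.C) + 3 * W.S, ?_⟩
  intro N w u hw hu hinj
  classical
  have hS1 : 1 ≤ W.S := le_trans Ch.hS W.hS
  obtain ⟨k, hk⟩ : ∃ k : ℕ, w.re ≤ 2 ^ k * (2 * W.S) := by
    obtain ⟨k, hk⟩ := pow_unbounded_of_one_lt w.re (one_lt_two)
    refine ⟨k, hk.le.trans ?_⟩
    have : (0 : ℝ) < 2 ^ k := by positivity
    nlinarith
  have h := lowerB_finset hb W k w (Finset.univ.image u) hw hk (by
    intro v hv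
    obtain ⟨i, -, rfl⟩ := Finset.mem_image.1 hv
    exact hu i)
  rw [Finset.card_image_of_injective _ hinj, Finset.card_univ, Fintype.card_fin] at h
  have hsum : ∑ i, ∑ j, Real.log ‖u i - u j‖ =
      ∑ p ∈ Finset.univ.image u, ∑ q ∈ Finset.univ.image u, Real.log ‖p - q‖ := by
    rw [Finset.sum_image hinj.injOn]
    refine Finset.sum_congr rfl fun i _ => ?_
    rw [Finset.sum_image hinj.injOn]
  rw [hsum]
  exact h

end H6ea4aa
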