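import Pool.Agent.H.MP_6ea4aa_an.Util

/-!
# MP_6ea4aa: monotonicity of the mean of an infimum of harmonic functions
-/

set_option autoImplicit false

open Complex Set Filter Topology Metric MeasureTheory

namespace H6ea4aa

/-- pointwise infimum of a family of functions -/
noncomputable def einf (F : Set (ℂ → ℝ)) (w : ℂ) : ℝ := ⨅ h : F, (h : ℂ → ℝ) w

section Basic

variable {S B : ℝ} {F : Set (ℂ → ℝ)}

theorem Mono_le (hlow : ∀ h ∈ F, ∀ w : ℂ, S < w.re → -B ≤ h w) {h : ℂ → ℝ} (hh : h ∈ F) {w : ℂ}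
    (hw : S < w.re) : einf F w ≤ h w := by
  refine ciInf_le (f := fun h : F => (h : ℂ → ℝ) w) ⟨-B, ?_⟩ ⟨h, hh⟩
  rintro _ ⟨g, rfl⟩
  exact hlow g g.2 w hw

theorem Mono_ge (hne : F.Nonempty) {w : ℂ} {c : ℝ} (h : ∀ g ∈ F, c ≤ g w) : c ≤ einf F w := by
  have : Nonempty F := hne.to_subtype
  exact le_ciInf fun g => h g g.2

theorem Mono_ball {w : ℂ} {r : ℝ} (hr : r ≤ w.re - S) {ζ : ℂ} (hζ : ζ ∈ ball w r) : S < ζ.re := by
  have h1 : |(ζ - w).re| ≤ ‖ζ - w‖ := Complex.abs_re_le_norm _
  have h2 : ‖ζ - w‖ < r := by rwa [mem_ball, dist_eq_norm] at hζ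
  have h3 := neg_abs_le (ζ - w).re
  rw [Complex.sub_re] at h1 h3
  linarith

theorem Mono_harnack (hne : F.Nonempty) (hharm : ∀ h ∈ F, ∀ w : ℂ, S < w.re → LocRe h w)
    (hlow : ∀ h ∈ F, ∀ w : ℂ, S < w.re → -B ≤ h w) {w w' : ℂ} {r : ℝ} (hr : r ≤ w.re - S)
    (hw' : w' ∈ ball w r) :
    einf F w' + B ≤ (r + ‖w' - w‖) / (r - ‖w' - w‖) * (einf F w + B) := by
  have hlt : ‖w' - w‖ < r := by rwa [mem_ball, dist_eq_norm] at hw'
  have hC : 0 < (r + ‖w' - w‖) / (r - ‖w' - w‖) := by
    have := norm_nonneg (w' - w)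
    exact div_pos (by linarith) (by linarith)
  set C := (r + ‖w' - w‖) / (r - ‖w' - w‖) with hCdef
  have key : (einf F w' + B) / C - B ≤ einf F w := by
    refine Mono_ge hne fun g hg => ?_
    have h1 := harnack (u := fun ζ => g ζ + B) (z := w) (R := r)
      (fun ζ hζ => Util_locRe_add_const (hharm g hg ζ (Mono_ball hr hζ)) B)
      (fun ζ hζ => by have := hlow g hg ζ (Mono_ball hr hζ); linarith) hw'
    rw [← hCdef] at h1
    have h2 := Mono_le hlow hg (Mono_ball hr hw')
    rw [sub_le_iff_le_add, div_le_iff₀ hC]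
    calc einf F w' + B ≤ g w' + B := by linarith
      _ ≤ C * (g w + B) := h1
      _ = (g w + B) * C := mul_comm _ _
  rw [sub_le_iff_le_add, div_le_iff₀ hC] at key
  linarith

theorem Mono_continuousOn (hne : F.Nonempty) (hharm : ∀ h ∈ F, ∀ w : ℂ, S < w.re → LocRe h w)
    (hlow : ∀ h ∈ F, ∀ w : ℂ, S < w.re → -B ≤ h w) :
    ContinuousOn (einf F) {w : ℂ | S < w.re} := by
  intro w hw
  have hw : S < w.re := hw
  refine ContinuousAt.continuousWithinAt ?_
  set r := (w.re - S) / 2 with hr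
  have hr0 : 0 < r := by rw [hr]; linarith
  have hd : Tendsto (fun ζ : ℂ => ‖ζ - w‖) (𝓝 w) (𝓝 0) := by
    have : Continuous (fun ζ : ℂ => ‖ζ - w‖) := by fun_prop
    simpa using this.tendsto w
  have hC : Tendsto (fun ζ : ℂ => (r + ‖ζ - w‖) / (r - ‖ζ - w‖)) (𝓝 w) (𝓝 1) := by
    have h1 : Tendsto (fun ζ : ℂ => (r + ‖ζ - w‖) / (r - ‖ζ - w‖)) (𝓝 w)
        (𝓝 ((r + 0) / (r - 0))) :=
      (tendsto_const_nhds.add hd).div (tendsto_const_nhds.sub hd) (by simpa using hr0.ne')
    have e : (r + 0) / (r - 0) = 1 := by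
      rw [add_zero, sub_zero, div_self hr0.ne']
    rwa [e] at h1
  have hup : Tendsto (fun ζ : ℂ => (r + ‖ζ - w‖) / (r - ‖ζ - w‖) * (einf F w + B) - B) (𝓝 w)
      (𝓝 (einf F w)) := by
    have := (hC.mul_const (einf F w + B)).sub_const B
    simpa using this
  have hlo : Tendsto (fun ζ : ℂ => (einf F w + B) / ((r + ‖ζ - w‖) / (r - ‖ζ - w‖)) - B) (𝓝 w)
      (𝓝 (einf F w)) := by
    have := ((tendsto_const_nhds (x := einf F w + B)).div hC one_ne_zero).sub_const B
    simpa using this
  refine tendsto_of_tendsto_of_tendsto_of_le_of_le' hlo hup ?_ ?_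
  · filter_upwards [ball_mem_nhds w hr0] with ζ hζ
    have hlt : ‖ζ - w‖ < r := by rwa [mem_ball, dist_eq_norm] at hζ
    have hre : |(ζ - w).re| ≤ ‖ζ - w‖ := Complex.abs_re_le_norm _
    have h3 := neg_abs_le (ζ - w).re
    rw [Complex.sub_re] at hre h3
    have h1 := Mono_harnack hne hharm hlow (w := ζ) (w' := w) (r := r)
      (by linarith) (by rwa [mem_ball, dist_comm])
    rw [norm_sub_rev w ζ] at h1
    have hC0 : 0 < (r + ‖ζ - w‖) / (r - ‖ζ - w‖) := by
      have := norm_nonneg (ζ - w)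
      exact div_pos (by linarith) (by linarith)
    rw [sub_le_iff_le_add, div_le_iff₀ hC0]
    linarith
  · filter_upwards [ball_mem_nhds w hr0] with ζ hζ
    have h1 := Mono_harnack hne hharm hlow (w := w) (w' := ζ) (r := r)
      (by linarith) hζ
    linarith

theorem Mono_super (hne : F.Nonempty) (hharm : ∀ h ∈ F, ∀ w : ℂ, S < w.re → LocRe h w)
    (hlow : ∀ h ∈ F, ∀ w : ℂ, S < w.re → -B ≤ h w) {w : ℂ} {r : ℝ} (hr0 : 0 < r)
    (hr : r < w.re - S) : Real.circleAverage (einf F) w r ≤ einf F w := by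
  have hsph : ∀ ζ ∈ sphere w |r|, S < ζ.re := by
    intro ζ hζ
    refine Mono_ball (w := w) (r := w.re - S) le_rfl ?_
    rw [mem_ball]
    rw [abs_of_pos hr0, mem_sphere] at hζ
    linarith
  refine Mono_ge hne fun g hg => ?_
  have h1 : Real.circleAverage g w r = g w :=
    locRe_circleAverage hr0 hr fun ζ hζ => hharm g hg ζ (Mono_ball le_rfl hζ)
  rw [← h1]
  refine Real.circleAverage_mono ?_ ?_ fun ζ hζ => Mono_le hlow hg (hsph ζ hζ)
  · refine ContinuousOn.circleIntegrable' ?_
    exact (Mono_continuousOn hne hharm hlow).mono hsph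
  · refine ContinuousOn.circleIntegrable' ?_
    exact fun ζ hζ => (Util_continuousAt (hharm g hg ζ (hsph ζ hζ))).continuousWithinAt

theorem Mono_periodic (hne : F.Nonempty)
    (hlow : ∀ h ∈ F, ∀ w : ℂ, S < w.re → -B ≤ h w)
    (hsh : ∀ h ∈ F, ∃ h' ∈ F, ∀ w : ℂ, S < w.re → h' w = h (w + 2 * Real.pi * I))
    (hsh' : ∀ h ∈ F, ∃ h' ∈ F, ∀ w : ℂ, S < w.re → h' w = h (w - 2 * Real.pi * I)) {w : ℂ}
    (hw : S < w.re) : einf F (w + 2 * Real.pi * I) = einf F w := by
  have hw' : S < (w + 2 * Real.pi * I).re := by simpa using hw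
  refine le_antisymm ?_ ?_
  · refine Mono_ge hne fun g hg => ?_
    obtain ⟨g', hg', h1⟩ := hsh' g hg
    have h2 := Mono_le hlow hg' hw'
    rw [h1 _ hw', add_sub_cancel_right] at h2
    exact h2
  · refine Mono_ge hne fun g hg => ?_
    obtain ⟨g', hg', h1⟩ := hsh g hg
    have h2 := Mono_le hlow hg' hw
    rw [h1 _ hw] at h2
    exact h2

end Basic

section Real

/-- a continuous function with the super mean value property lies above its chords -/
theorem Mono_conc {m : ℝ → ℝ} (hm : Continuous m) {a b : ℝ} (hab : a < b)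
    (hsm : ∀ s r : ℝ, 0 < r → a ≤ s - r →
      (2 * Real.pi)⁻¹ * ∫ φ in (0 : ℝ)..(2 * Real.pi), m (s + r * Real.cos φ) ≤ m s) :
    ∀ t ∈ Icc a b, m a + (m b - m a) / (b - a) * (t - a) ≤ m t := by
  set κ := (m b - m a) / (b - a) with hκ
  have hba : b - a ≠ 0 := (sub_pos.mpr hab).ne'
  set d : ℝ → ℝ := fun t => m t - (m a + κ * (t - a)) with hd
  have hdc : Continuous d := by fun_prop
  have hda : d a = 0 := by simp [hd]
  have hdb : d b = 0 := by
    simp only [hd, hκ]
    field_simp
    ring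
  have hpi : 0 < 2 * Real.pi := Real.two_pi_pos
  -- super mean value property of `d`
  have hdsm : ∀ s r : ℝ, 0 < r → a ≤ s - r →
      ∫ φ in (0 : ℝ)..(2 * Real.pi), d (s + r * Real.cos φ) ≤ 2 * Real.pi * d s := by
    intro s r hr hsr
    have h1 := hsm s r hr hsr
    have h2 : ∫ φ in (0 : ℝ)..(2 * Real.pi), d (s + r * Real.cos φ)
        = (∫ φ in (0 : ℝ)..(2 * Real.pi), m (s + r * Real.cos φ))
          - ∫ φ in (0 : ℝ)..(2 * Real.pi), ((m a + κ * (s - a)) + κ * r * Real.cos φ) := by
      rw [← intervalIntegral.integral_sub]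
      · refine intervalIntegral.integral_congr fun φ _ => ?_
        simp only [hd]
        ring
      · exact Continuous.intervalIntegrable (by fun_prop) _ _
      · exact Continuous.intervalIntegrable (by fun_prop) _ _
    have h3 : ∫ φ in (0 : ℝ)..(2 * Real.pi), ((m a + κ * (s - a)) + κ * r * Real.cos φ)
        = 2 * Real.pi * (m a + κ * (s - a)) := by
      rw [intervalIntegral.integral_add, intervalIntegral.integral_const_mul, integral_cos]
      · simp
        ring
      · exact Continuous.intervalIntegrable (by fun_prop) _ _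
      · exact Continuous.intervalIntegrable (by fun_prop) _ _
    rw [h2, h3]
    have h4 : ∫ φ in (0 : ℝ)..(2 * Real.pi), m (s + r * Real.cos φ) ≤ 2 * Real.pi * m s := by
      rw [inv_mul_le_iff₀ hpi] at h1
      exact h1
    simp only [hd]
    linarith
  by_contra hcon
  push Not at hcon
  obtain ⟨t0, ht0, hlt⟩ := hcon
  have hlt : d t0 < 0 := by simp only [hd]; linarith
  -- the set of minimum points
  obtain ⟨t1, ht1, hmin⟩ := isCompact_Icc.exists_isMinOn (nonempty_Icc.mpr hab.le)
    hdc.continuousOn (s := Icc a b)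
  have hmin : ∀ t ∈ Icc a b, d t1 ≤ d t := fun t ht => hmin ht
  have hneg : d t1 < 0 := lt_of_le_of_lt (hmin t0 ht0) hlt
  set M : Set ℝ := {t | t ∈ Icc a b ∧ d t = d t1} with hM
  have hMc : IsCompact M := by
    have : M = Icc a b ∩ d ⁻¹' {d t1} := by ext; simp [hM]
    rw [this]
    exact isCompact_Icc.inter_right (isClosed_singleton.preimage hdc)
  have hMne : M.Nonempty := ⟨t1, ht1, rfl⟩
  have hs := hMc.sInf_mem hMne
  set s := sInf M with hsdef
  have hds : d s = d t1 := hs.2
  have has : a < s := by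
    rcases lt_or_eq_of_le hs.1.1 with h | h
    · exact h
    · rw [← h, hda] at hds
      linarith
  have hsb : s < b := by
    rcases lt_or_eq_of_le hs.1.2 with h | h
    · exact h
    · rw [h, hdb] at hds
      linarith
  set r := min (s - a) (b - s) with hr
  have hr0 : 0 < r := lt_min (by linarith) (by linarith)
  have hr1 : r ≤ s - a := min_le_left _ _
  have hr2 : r ≤ b - s := min_le_right _ _
  have hin : ∀ φ : ℝ, s + r * Real.cos φ ∈ Icc a b := by
    intro φ
    have h1 := Real.neg_one_le_cos φ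
    have h2 := Real.cos_le_one φ
    constructor <;> nlinarith
  have hle := hdsm s r hr0 (by linarith)
  -- strict inequality at `φ = π`
  have hπ : d t1 < d (s - r) := by
    have hmem : s - r ∈ Icc a b := ⟨by linarith, by linarith⟩
    rcases lt_or_eq_of_le (hmin _ hmem) with h | h
    · exact h
    · have : s - r ∈ M := ⟨hmem, h.symm⟩
      have := csInf_le hMc.bddBelow this
      linarith
  have hpos : 0 < ∫ φ in (0 : ℝ)..(2 * Real.pi), (d (s + r * Real.cos φ) - d t1) := by
    refine intervalIntegral.integral_pos hpi ?_ ?_ ?_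
    · exact Continuous.continuousOn (by fun_prop)
    · exact fun φ _ => sub_nonneg.mpr (hmin _ (hin φ))
    · refine ⟨Real.pi, ⟨Real.pi_pos.le, by linarith [Real.pi_pos]⟩, ?_⟩
      rw [Real.cos_pi]
      have : s + r * -1 = s - r := by ring
      rw [this]
      linarith
  have heq : ∫ φ in (0 : ℝ)..(2 * Real.pi), (d (s + r * Real.cos φ) - d t1)
      = (∫ φ in (0 : ℝ)..(2 * Real.pi), d (s + r * Real.cos φ)) - 2 * Real.pi * d t1 := by
    rw [intervalIntegral.integral_sub]
    · simp
    · exact Continuous.intervalIntegrable (by fun_prop) _ _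
    · exact Continuous.intervalIntegrable (by fun_prop) _ _
  rw [heq] at hpos
  rw [hds] at hle
  linarith

theorem Mono_real {m : ℝ → ℝ} (hm : Continuous m) {a C : ℝ}
    (hsm : ∀ s r : ℝ, 0 < r → a ≤ s - r →
      (2 * Real.pi)⁻¹ * ∫ φ in (0 : ℝ)..(2 * Real.pi), m (s + r * Real.cos φ) ≤ m s)
    (hlow : ∀ s : ℝ, a ≤ s → -C ≤ m s) {b : ℝ} (hab : a < b) : m a ≤ m b := by
  by_contra hcon
  push Not at hcon
  set k := m a - m b with hk
  have hk0 : 0 < k := by rw [hk]; linarith
  have ha := hlow a le_rfl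
  set q := (m a + C + 1) / k with hq
  have hq0 : 0 < q := div_pos (by linarith) hk0
  set s := a + (b - a) * (q + 1) with hs
  have hba : 0 < b - a := by linarith
  have hbs : b < s := by
    rw [hs]
    nlinarith [mul_pos hba hq0]
  have has : a < s := hab.trans hbs
  have h1 := Mono_conc hm has hsm b ⟨hab.le, hbs.le⟩
  have h2 : s - a = (b - a) * (q + 1) := by rw [hs]; ring
  have h3 : (m s - m a) / (s - a) * (b - a) = (m s - m a) / (q + 1) := by
    rw [h2]
    field_simp
  rw [h3] at h1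
  have h4 : (m s - m a) / (q + 1) ≤ -k := by rw [hk]; linarith
  rw [div_le_iff₀ (by linarith)] at h4
  have h5 : k * q = m a + C + 1 := by
    rw [hq]
    field_simp
  have h6 := hlow s has.le
  nlinarith

end Real

theorem Mono_mean {S B : ℝ} {F : Set (ℂ → ℝ)} (hne : F.Nonempty)
    (hharm : ∀ h ∈ F, ∀ w : ℂ, S < w.re → LocRe h w)
    (hlow : ∀ h ∈ F, ∀ w : ℂ, S < w.re → -B ≤ h w)
    (hsh : ∀ h ∈ F, ∃ h' ∈ F, ∀ w : ℂ, S < w.re → h' w = h (w + 2 * Real.pi * I))
    (hsh' : ∀ h ∈ F, ∃ h' ∈ F, ∀ w : ℂ, S < w.re → h' w = h (w - 2 * Real.pi * I))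
    {a : ℝ} (ha : S < a) :
    Continuous (fun s : ℝ => ∫ t in (0 : ℝ)..(2 * Real.pi), einf F ((max a s : ℝ) + t * I)) ∧
    (∀ s r : ℝ, 0 < r → a ≤ s - r →
      (2 * Real.pi)⁻¹ * ∫ φ in (0 : ℝ)..(2 * Real.pi),
        (∫ t in (0 : ℝ)..(2 * Real.pi), einf F ((max a (s + r * Real.cos φ) : ℝ) + t * I))
      ≤ ∫ t in (0 : ℝ)..(2 * Real.pi), einf F ((max a s : ℝ) + t * I)) := by
  have hpi : 0 < 2 * Real.pi := Real.two_pi_pos
  have hcont := Mono_continuousOn hne hharm hlow
  -- the continuous extension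
  set E : ℝ → ℝ → ℝ := fun x y => einf F ((max a x : ℝ) + y * I) with hE
  have hre : ∀ x y : ℝ, S < ((max a x : ℝ) + y * I : ℂ).re := by
    intro x y
    simp only [add_re, ofReal_re, mul_re, I_re, mul_zero, ofReal_im, I_im, mul_one, sub_self,
      add_zero]
    exact lt_of_lt_of_le ha (le_max_left _ _)
  have hEc : Continuous (fun p : ℝ × ℝ => E p.1 p.2) := by
    have : Continuous (fun p : ℝ × ℝ => ((max a p.1 : ℝ) + p.2 * I : ℂ)) := by fun_prop
    exact hcont.comp_continuous this (fun p => hre p.1 p.2)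
  have hEp : ∀ x y : ℝ, E x (y + 2 * Real.pi) = E x y := by
    intro x y
    have h := Mono_periodic hne hlow hsh hsh' (hre x y)
    simp only [hE]
    rw [← h]
    congr 1
    push_cast
    ring
  refine ⟨?_, ?_⟩
  · exact intervalIntegral.continuous_parametric_intervalIntegral_of_continuous' (f := E) hEc 0
      (2 * Real.pi)
  · intro s r hr hsr
    have has : a ≤ s := by linarith
    -- pointwise inequality
    have hpt : ∀ t : ℝ, (2 * Real.pi)⁻¹ * ∫ φ in (0 : ℝ)..(2 * Real.pi),
        E (s + r * Real.cos φ) (t + r * Real.sin φ) ≤ E s t := by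
      intro t
      have h1 := Mono_super hne hharm hlow (w := (s : ℂ) + t * I) (r := r) hr (by
        simp only [add_re, ofReal_re, mul_re, I_re, mul_zero, ofReal_im, I_im, mul_one, sub_self,
          add_zero]
        linarith)
      rw [Real.circleAverage_def, smul_eq_mul] at h1
      have h2 : E s t = einf F ((s : ℂ) + t * I) := by
        simp only [hE]
        rw [max_eq_right has]
      rw [h2]
      refine le_trans (le_of_eq ?_) h1
      congr 1
      refine intervalIntegral.integral_congr fun φ _ => ?_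
      simp only [hE]
      congr 1
      have h3 : a ≤ s + r * Real.cos φ := by
        have := Real.neg_one_le_cos φ
        nlinarith
      rw [max_eq_right h3, circleMap, Complex.exp_mul_I]
      push_cast
      ring
    -- integrate
    have hi1 : Continuous (fun t : ℝ => (2 * Real.pi)⁻¹ * ∫ φ in (0 : ℝ)..(2 * Real.pi),
        E (s + r * Real.cos φ) (t + r * Real.sin φ)) := by
      refine continuous_const.mul ?_
      refine intervalIntegral.continuous_parametric_intervalIntegral_of_continuous'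
        (f := fun t φ => E (s + r * Real.cos φ) (t + r * Real.sin φ)) ?_ 0 (2 * Real.pi)
      have : Continuous (fun p : ℝ × ℝ => ((s + r * Real.cos p.2, p.1 + r * Real.sin p.2) :
          ℝ × ℝ)) := by fun_prop
      exact hEc.comp this
    have hi2 : Continuous (fun t : ℝ => E s t) := by
      have : Continuous (fun t : ℝ => ((s, t) : ℝ × ℝ)) := by fun_prop
      exact hEc.comp this
    have hint := intervalIntegral.integral_mono (a := 0) (b := 2 * Real.pi) (μ := volume) hpi.le
      (hi1.intervalIntegrable _ _) (hi2.intervalIntegrable _ _) hpt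
    rw [intervalIntegral.integral_const_mul] at hint
    refine le_trans (le_of_eq ?_) hint
    congr 1
    -- swap the integrals
    have hswap : ∫ t in (0 : ℝ)..(2 * Real.pi), (∫ φ in (0 : ℝ)..(2 * Real.pi),
        E (s + r * Real.cos φ) (t + r * Real.sin φ))
        = ∫ φ in (0 : ℝ)..(2 * Real.pi), (∫ t in (0 : ℝ)..(2 * Real.pi),
        E (s + r * Real.cos φ) (t + r * Real.sin φ)) := by
      refine intervalIntegral_intervalIntegral_swap ?_
      have hc : Continuous (Function.uncurry fun t φ : ℝ =>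
          E (s + r * Real.cos φ) (t + r * Real.sin φ)) := by
        have : Continuous (fun p : ℝ × ℝ => ((s + r * Real.cos p.2, p.1 + r * Real.sin p.2) :
          ℝ × ℝ)) := by fun_prop
        exact hEc.comp this
      have hon : IntegrableOn (Function.uncurry fun t φ : ℝ =>
          E (s + r * Real.cos φ) (t + r * Real.sin φ))
          (uIcc (0 : ℝ) (2 * Real.pi) ×ˢ uIcc (0 : ℝ) (2 * Real.pi)) (volume : Measure (ℝ × ℝ)) :=
        hc.continuousOn.integrableOn_compact (isCompact_uIcc.prod isCompact_uIcc)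
      exact hon.mono_set (prod_mono uIoc_subset_uIcc uIoc_subset_uIcc)
    rw [hswap]
    refine intervalIntegral.integral_congr fun φ _ => ?_
    -- shift
    have hper : Function.Periodic (fun t : ℝ => E (s + r * Real.cos φ) t) (2 * Real.pi) :=
      fun t => hEp _ t
    have h1 : ∫ t in (0 : ℝ)..(2 * Real.pi), E (s + r * Real.cos φ) (t + r * Real.sin φ)
        = ∫ t in (0 + r * Real.sin φ)..(2 * Real.pi + r * Real.sin φ),
          E (s + r * Real.cos φ) t :=
      intervalIntegral.integral_comp_add_right (fun t => E (s + r * Real.cos φ) t)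
        (r * Real.sin φ)
    have h2 := hper.intervalIntegral_add_eq (r * Real.sin φ) 0
    refine Eq.trans ?_ h1.symm
    rw [zero_add, add_comm (2 * Real.pi) (r * Real.sin φ), h2, zero_add]

theorem einf_mono {S B : ℝ} {F : Set (ℂ → ℝ)} (hne : F.Nonempty)
    (hharm : ∀ h ∈ F, ∀ w : ℂ, S < w.re → LocRe h w)
    (hlow : ∀ h ∈ F, ∀ w : ℂ, S < w.re → -B ≤ h w)
    (hsh : ∀ h ∈ F, ∃ h' ∈ F, ∀ w : ℂ, S < w.re → h' w = h (w + 2 * Real.pi * I))
    (hsh' : ∀ h ∈ F, ∃ h' ∈ F, ∀ w : ℂ, S < w.re → h' w = h (w - 2 * Real.pi * I)) :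
    ContinuousOn (einf F) {w : ℂ | S < w.re} ∧
    MonotoneOn (fun s : ℝ => ∫ t in (0 : ℝ)..(2 * Real.pi), einf F (s + t * I)) (Ioi S) := by
  refine ⟨Mono_continuousOn hne hharm hlow, ?_⟩
  intro a ha b hb hab
  rcases lt_or_eq_of_le hab with hab | hab
  swap
  · rw [hab]
  have ha : S < a := ha
  obtain ⟨hc, hsm⟩ := Mono_mean hne hharm hlow hsh hsh' ha
  have hre : ∀ x y : ℝ, S < ((max a x : ℝ) + y * I : ℂ).re := by
    intro x y
    simp only [add_re, ofReal_re, mul_re, I_re, mul_zero, ofReal_im, I_im, mul_one, sub_self,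
      add_zero]
    exact lt_of_lt_of_le ha (le_max_left _ _)
  have hlow' : ∀ s : ℝ, a ≤ s → -(2 * Real.pi * B) ≤
      ∫ t in (0 : ℝ)..(2 * Real.pi), einf F ((max a s : ℝ) + t * I) := by
    intro s _
    have h1 : ∫ t in (0 : ℝ)..(2 * Real.pi), (-B) = -(2 * Real.pi * B) := by
      rw [intervalIntegral.integral_const, smul_eq_mul]
      ring
    rw [← h1]
    refine intervalIntegral.integral_mono Real.two_pi_pos.le
      (continuous_const.intervalIntegrable _ _) ?_ ?_
    · refine Continuous.intervalIntegrable ?_ _ _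
      have : Continuous (fun t : ℝ => ((max a s : ℝ) + t * I : ℂ)) := by fun_prop
      exact (Mono_continuousOn hne hharm hlow).comp_continuous this (fun t => hre s t)
    · intro t
      exact Mono_ge hne fun g hg => hlow g hg _ (hre s t)
  have h := Mono_real hc hsm hlow' hab
  simp only [max_self, max_eq_right hab.le] at h
  exact h

end H6ea4aa
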