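import Pool.Agent.H.MP_6ea4aa_an.CompOne
import Pool.Agent.H.MP_6ea4aa_an.Crossing

/-!
# MP_6ea4aa: `g` has no critical points where it is positive
-/

set_option autoImplicit false

open Complex Set Filter Topology Metric

namespace H6ea4aa

/-- `g` is, near `z`, the real part of a holomorphic function with nonzero derivative -/
def RegRe (g : ℂ → ℝ) (z : ℂ) : Prop :=
  ∃ r > 0, ∃ F : ℂ → ℂ, DifferentiableOn ℂ F (ball z r) ∧ (∀ ζ ∈ ball z r, g ζ = (F ζ).re) ∧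
    deriv F z ≠ 0

/-- local form of a holomorphic function at a critical point -/
theorem NoCrit_local {F : ℂ → ℂ} {z : ℂ} (hF : AnalyticAt ℂ F z)
    (hnc : ¬ ∀ᶠ ζ in 𝓝 z, F ζ - F z = 0) (hd : deriv F z = 0) :
    ∃ k : ℕ, 2 ≤ k ∧ ∃ G : ℂ → ℂ, AnalyticAt ℂ G z ∧ G z ≠ 0 ∧
      ∀ᶠ ζ in 𝓝 z, F ζ - F z = (ζ - z) ^ k * G ζ := by
  have hF' : AnalyticAt ℂ (fun ζ => F ζ - F z) z := hF.sub analyticAt_const
  obtain ⟨k, G, hG, hG0, hk⟩ := hF'.exists_eventuallyEq_pow_smul_nonzero_iff.2 hnc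
  simp only [smul_eq_mul] at hk
  refine ⟨k, ?_, G, hG, hG0, hk⟩
  by_contra hlt
  have hk' : k = 0 ∨ k = 1 := by omega
  rcases hk' with rfl | rfl
  · have := hk.self_of_nhds
    simp only [sub_self, pow_zero, one_mul] at this
    exact hG0 this.symm
  · have h1 : (fun ζ => F ζ - F z) =ᶠ[𝓝 z] fun ζ => (ζ - z) * G ζ := by
      filter_upwards [hk] with ζ hζ
      rw [hζ, pow_one]
    have h2 : HasDerivAt (fun ζ => (ζ - z) * G ζ) (1 * G z + (z - z) * deriv G z) z :=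
      ((hasDerivAt_id z).sub_const z).mul hG.differentiableAt.hasDerivAt
    have h3 : HasDerivAt (fun ζ => F ζ - F z) (deriv F z) z :=
      hF.differentiableAt.hasDerivAt.sub_const _
    have h4 := (h3.congr_of_eventuallyEq h1.symm).unique h2
    rw [hd] at h4
    simp only [sub_self, zero_mul, add_zero, one_mul] at h4
    exact hG0 h4.symm

/-- sign of `g - g z` in the direction `u` -/
theorem NoCrit_sign {A G u : ℂ} {k : ℕ} {t σ : ℝ} (ht : 0 < t) (hu : ‖u‖ = 1)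
    (hσ : σ = 1 ∨ σ = -1) (hAu : A * u ^ k = ((σ * ‖A‖ : ℝ) : ℂ)) (hG : ‖G - A‖ < ‖A‖) :
    0 < σ * (((t * u : ℂ)) ^ k * G).re := by
  have h1 : ((t * u : ℂ)) ^ k * G = ((t ^ k : ℝ) : ℂ) * (A * u ^ k + u ^ k * (G - A)) := by
    push_cast
    ring
  rw [h1, Complex.re_ofReal_mul, hAu, Complex.add_re, Complex.ofReal_re]
  have h2 : |(u ^ k * (G - A)).re| < ‖A‖ := by
    refine (Complex.abs_re_le_norm _).trans_lt ?_
    rw [norm_mul, norm_pow, hu, one_pow, one_mul]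
    exact hG
  have h3 := abs_lt.1 h2
  have htk : 0 < t ^ k := pow_pos ht k
  have h4 : 0 < σ * (σ * ‖A‖ + (u ^ k * (G - A)).re) := by
    rcases hσ with rfl | rfl <;> nlinarith [h3.1, h3.2]
  calc 0 < t ^ k * (σ * (σ * ‖A‖ + (u ^ k * (G - A)).re)) := mul_pos htk h4
    _ = _ := by ring

/-- the segment `{z + t u : a < t ≤ b}` is preconnected -/
theorem NoCrit_seg (z u : ℂ) (S : Set ℝ) (hS : IsPreconnected S) :
    IsPreconnected ((fun t : ℝ => z + (t : ℂ) * u) '' S) :=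
  hS.image _ (by fun_prop)

theorem LinGreen.no_crit {g : ℂ → ℝ} {mu : ℂ} {lam : ℝ} (hg : LinGreen g mu lam)
    (hU : NoIsland g) {z : ℂ} (hz : 0 < g z) : RegRe g z := by
  obtain ⟨r, hr, F, hF, hgF⟩ := hg.harm z hz
  refine ⟨r, hr, F, hF, hgF, fun hd => ?_⟩
  have hFa : AnalyticAt ℂ F z := hF.analyticAt (ball_mem_nhds z hr)
  have hgz : g z = (F z).re := hgF z (mem_ball_self hr)
  have hnc : ¬ ∀ᶠ ζ in 𝓝 z, F ζ - F z = 0 := by
    intro hc
    have h1 : ∀ᶠ ζ in 𝓝 z, g ζ = g z := by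
      filter_upwards [hc, ball_mem_nhds z hr] with ζ h1 h2
      rw [hgF ζ h2, hgz, sub_eq_zero.1 h1]
    have hopen : IsOpen {ζ | 0 < g ζ} := isOpen_lt continuous_const hg.cont
    have hQo : IsOpen (connectedComponentIn {ζ | 0 < g ζ} z) := hopen.connectedComponentIn
    have hsubc : connectedComponentIn {ζ | 0 < g ζ} z ⊆ {ζ | 0 < g ζ} :=
      connectedComponentIn_subset _ _
    have h2 := locRe_identity hQo isPreconnected_connectedComponentIn
      (fun ζ hζ => hg.harm ζ (hsubc hζ))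
      (mem_connectedComponentIn hz) h1
    obtain ⟨z', hz', hlt⟩ := hg.unbounded le_rfl hz (g z)
    rw [h2 z' hz'] at hlt
    exact lt_irrefl _ hlt
  obtain ⟨k, hk2, G, hG, hG0, hk⟩ := NoCrit_local hFa hnc hd
  set A : ℂ := G z with hA
  have hk0 : (k : ℝ) ≠ 0 := by
    have : (0 : ℝ) < k := by exact_mod_cast (by omega : 0 < k)
    exact this.ne'
  have hkR : (2 : ℝ) ≤ k := by exact_mod_cast hk2
  have hkpos : (0 : ℝ) < k := by linarith
  have hπ := Real.pi_pos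
  -- the radius
  have hev : ∀ᶠ ζ in 𝓝 z, (F ζ - F z = (ζ - z) ^ k * G ζ) ∧ ‖G ζ - A‖ < ‖A‖ ∧ ζ ∈ ball z r := by
    have h1 : ∀ᶠ ζ in 𝓝 z, ‖G ζ - A‖ < ‖A‖ := by
      have h2 : Tendsto (fun ζ => ‖G ζ - A‖) (𝓝 z) (𝓝 0) := by
        have := ((hG.continuousAt.sub continuousAt_const).norm :
          ContinuousAt (fun ζ => ‖G ζ - A‖) z)
        have h3 := this.tendsto
        simpa [hA] using h3
      exact h2.eventually_lt_const (norm_pos_iff.2 hG0)
    exact hk.and (h1.and (ball_mem_nhds z hr))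
  obtain ⟨t1, ht1, hball⟩ := Metric.eventually_nhds_iff.1 hev
  obtain ⟨t0, ht0, ht01⟩ : ∃ t0 > 0, t0 < t1 := ⟨t1 / 2, by linarith, by linarith⟩
  -- sign lemma
  have hsign : ∀ (u : ℂ) (σ : ℝ), ‖u‖ = 1 → (σ = 1 ∨ σ = -1) →
      A * u ^ k = ((σ * ‖A‖ : ℝ) : ℂ) → ∀ t : ℝ, 0 < t → t ≤ t0 →
      0 < σ * (g (z + t * u) - g z) := by
    intro u σ hu hσ hAu t ht htt
    have hdist : dist (z + t * u) z < t1 := by
      rw [dist_eq_norm, add_sub_cancel_left, norm_mul, hu, mul_one, Complex.norm_real,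
        Real.norm_of_nonneg ht.le]
      linarith
    obtain ⟨h1, h2, h3⟩ := hball hdist
    rw [hgF _ h3, hgz, ← Complex.sub_re, h1, add_sub_cancel_left]
    exact NoCrit_sign ht hu hσ hAu h2
  -- the directions
  set e : ℂ := exp (((Real.pi - arg A) / k : ℝ) * I) with he
  have he1 : ‖e‖ = 1 := Complex.norm_exp_ofReal_mul_I _
  have hek : A * e ^ k = -(‖A‖ : ℂ) := by
    rw [he, ← Complex.exp_nat_mul]
    have h1 : (k : ℂ) * ((((Real.pi - arg A) / k : ℝ) : ℂ) * I) = Real.pi * I - arg A * I := by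
      have : (k : ℂ) ≠ 0 := by exact_mod_cast (by omega : k ≠ 0)
      push_cast
      field_simp
    rw [h1, Complex.exp_sub, Complex.exp_pi_mul_I]
    have h2 := Complex.norm_mul_exp_arg_mul_I A
    have h3 : exp (arg A * I) ≠ 0 := Complex.exp_ne_zero _
    rw [mul_div_assoc', div_eq_iff h3, mul_neg_one, neg_mul, h2]
  have hdir : ∀ j : ℕ, A * (e * exp (((j * Real.pi / k : ℝ) : ℂ) * I)) ^ k =
      -(‖A‖ : ℂ) * (-1) ^ j := by
    intro j
    rw [mul_pow, ← mul_assoc, hek, ← Complex.exp_nat_mul]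
    have h1 : (k : ℂ) * (((j * Real.pi / k : ℝ) : ℂ) * I) = j * (Real.pi * I) := by
      have : (k : ℂ) ≠ 0 := by exact_mod_cast (by omega : k ≠ 0)
      push_cast
      field_simp
    rw [h1, Complex.exp_nat_mul, Complex.exp_pi_mul_I]
  set α : ℝ := ((1 : ℕ) : ℝ) * Real.pi / k with hα
  set γ : ℝ := ((2 : ℕ) : ℝ) * Real.pi / k with hγ
  set δ : ℝ := ((3 : ℕ) : ℝ) * Real.pi / k with hδ
  have hnorm : ∀ x : ℝ, ‖e * exp ((x : ℂ) * I)‖ = 1 := by
    intro x
    rw [norm_mul, he1, Complex.norm_exp_ofReal_mul_I, one_mul]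
  have hv0 : ∀ t : ℝ, 0 < t → t ≤ t0 → g (z + t * e) < g z := by
    intro t ht htt
    have := hsign e (-1) he1 (Or.inr rfl) (by rw [hek]; push_cast; ring) t ht htt
    linarith
  have hv1 : ∀ t : ℝ, 0 < t → t ≤ t0 → g z < g (z + t * (e * exp ((α : ℂ) * I))) := by
    intro t ht htt
    have := hsign _ 1 (hnorm α) (Or.inl rfl) (by rw [hα, hdir 1]; push_cast; ring) t ht htt
    linarith
  have hv2 : ∀ t : ℝ, 0 < t → t ≤ t0 → g (z + t * (e * exp ((γ : ℂ) * I))) < g z := by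
    intro t ht htt
    have := hsign _ (-1) (hnorm γ) (Or.inr rfl) (by rw [hγ, hdir 2]; push_cast; ring) t ht htt
    linarith
  have hv3 : ∀ t : ℝ, 0 < t → t ≤ t0 → g z < g (z + t * (e * exp ((δ : ℂ) * I))) := by
    intro t ht htt
    have := hsign _ 1 (hnorm δ) (Or.inl rfl) (by rw [hδ, hdir 3]; push_cast; ring) t ht htt
    linarith
  set p1 : ℂ := z + t0 * (e * exp ((α : ℂ) * I)) with hp1
  set p2 : ℂ := z + t0 * (e * exp ((δ : ℂ) * I)) with hp2
  have hgp1 : g z < g p1 := hv1 t0 ht0 le_rfl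
  have hgp2 : g z < g p2 := hv3 t0 ht0 le_rfl
  -- `p2` is in the component of `p1` in `{g > 0}`
  have hcomp0 : p2 ∈ connectedComponentIn {ζ | 0 < g ζ} p1 := by
    have hs1 := NoCrit_seg z (e * exp ((α : ℂ) * I)) (Icc 0 t0) isPreconnected_Icc
    have hs2 := NoCrit_seg z (e * exp ((δ : ℂ) * I)) (Icc 0 t0) isPreconnected_Icc
    have hz1 : z ∈ (fun t : ℝ => z + (t : ℂ) * (e * exp ((α : ℂ) * I))) '' Icc 0 t0 :=
      ⟨0, ⟨le_rfl, ht0.le⟩, by simp⟩
    have hz2 : z ∈ (fun t : ℝ => z + (t : ℂ) * (e * exp ((δ : ℂ) * I))) '' Icc 0 t0 :=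
      ⟨0, ⟨le_rfl, ht0.le⟩, by simp⟩
    have hun := hs1.union z hz1 hz2 hs2
    have hpos : ∀ u : ℂ, (∀ t : ℝ, 0 < t → t ≤ t0 → g z < g (z + t * u)) →
        (fun t : ℝ => z + (t : ℂ) * u) '' Icc 0 t0 ⊆ {ζ | 0 < g ζ} := by
      rintro u hu _ ⟨t, ht, rfl⟩
      rcases ht.1.eq_or_lt with h | h
      · rw [← h]
        simpa using hz
      · exact hz.trans (hu t h ht.2)
    have hsub := hun.subset_connectedComponentIn (F := {ζ | 0 < g ζ})
      (Or.inl ⟨t0, ⟨ht0.le, le_rfl⟩, rfl⟩ : p1 ∈ _)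
      (union_subset (hpos _ hv1) (hpos _ hv3))
    exact hsub (Or.inr ⟨t0, ⟨ht0.le, le_rfl⟩, rfl⟩)
  have hcomp := hg.one_comp hz.le hgp1 hgp2 hcomp0
  -- a path
  have hso : IsOpen {ζ | g z < g ζ} := isOpen_lt continuous_const hg.cont
  have hCo : IsOpen (connectedComponentIn {ζ | g z < g ζ} p1) := hso.connectedComponentIn
  have hCc : IsConnected (connectedComponentIn {ζ | g z < g ζ} p1) :=
    isConnected_connectedComponentIn_iff.2 hgp1
  have hjoin : JoinedIn (connectedComponentIn {ζ | g z < g ζ} p1) p1 p2 :=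
    (hCo.isConnected_iff_isPathConnected.1 hCc).joinedIn p1 (mem_connectedComponentIn hgp1)
      p2 hcomp
  have hK0sub : range hjoin.somePath ⊆ {ζ | g z < g ζ} := by
    rintro _ ⟨t, rfl⟩
    exact connectedComponentIn_subset _ _ (hjoin.somePath_mem t)
  have hconv : ∀ x : ℝ, ∀ t : ℝ, z + (t : ℂ) * e * exp ((x : ℂ) * I) =
      z + t * (e * exp ((x : ℂ) * I)) := by
    intro x t
    ring
  -- the two low components
  set E1 : Set ℂ := connectedComponentIn {ζ | g ζ < g z} (z + t0 * e) with hE1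
  set E2 : Set ℂ := connectedComponentIn {ζ | g ζ < g z} (z + t0 * (e * exp ((γ : ℂ) * I)))
    with hE2
  have hE1s : E1 ⊆ {ζ | g ζ < g z} := connectedComponentIn_subset _ _
  have hE2s : E2 ⊆ {ζ | g ζ < g z} := connectedComponentIn_subset _ _
  have hseg : ∀ u : ℂ, (∀ t : ℝ, 0 < t → t ≤ t0 → g (z + t * u) < g z) →
      ∀ t : ℝ, 0 < t → t ≤ t0 →
        z + t * u ∈ connectedComponentIn {ζ | g ζ < g z} (z + t0 * u) := by
    intro u hu t ht htt
    have hs1 := NoCrit_seg z u (Ioc 0 t0) isPreconnected_Ioc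
    refine hs1.subset_connectedComponentIn (F := {ζ | g ζ < g z})
      ⟨t0, ⟨ht0, le_rfl⟩, rfl⟩ ?_ ⟨t, ⟨ht, htt⟩, rfl⟩
    rintro _ ⟨t', ht', rfl⟩
    exact hu t' ht'.1 ht'.2
  have hhill : ∀ u : ℂ, (∀ t : ℝ, 0 < t → t ≤ t0 → g z < g (z + t * u)) →
      ∀ t ∈ Icc (0 : ℝ) t0, g z ≤ g (z + t * u) := by
    intro u hu t ht
    rcases ht.1.eq_or_lt with h | h
    · rw [← h]
      simp
    · exact (hu t h ht.2).le
  have hdelta : δ < 2 * Real.pi := by
    rw [hδ, div_lt_iff₀ hkpos]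
    push_cast
    nlinarith
  refine crossing z e he1 α γ δ t0 t0 (by rw [hα]; positivity) ?_ ?_ hdelta ht0 ht0
    (range hjoin.somePath) E1 E2 (isCompact_range hjoin.somePath.continuous)
    (isPreconnected_range hjoin.somePath.continuous) ?_ ?_ ?_
    isPreconnected_connectedComponentIn isPreconnected_connectedComponentIn
    (hg.low_unbounded hU (hv0 t0 ht0 le_rfl)) (hg.low_unbounded hU (hv2 t0 ht0 le_rfl))
    ?_ ?_ ?_ ?_ ?_ ?_ ?_ ?_
  · rw [hα, hγ]
    gcongr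
    norm_num
  · rw [hδ, hγ]
    gcongr
    norm_num
  · intro h
    have h' : g z < g z := hK0sub h
    exact lt_irrefl _ h'
  · rw [hconv]
    exact ⟨0, hjoin.somePath.source⟩
  · rw [hconv]
    exact ⟨1, hjoin.somePath.target⟩
  · rw [Set.disjoint_left]
    intro ζ h1 h2
    have h1' : g ζ < g z := hE1s h1
    have h2' : g z < g ζ := hK0sub h2
    exact lt_asymm h1' h2'
  · rw [Set.disjoint_left]
    intro ζ h1 h2
    have h1' : g ζ < g z := hE2s h1
    have h2' : g z < g ζ := hK0sub h2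
    exact lt_asymm h1' h2'
  · intro t ht hmem
    rw [hconv] at hmem
    exact absurd (hE1s hmem) (not_lt.2 (hhill _ hv1 t ht))
  · intro t ht hmem
    rw [hconv] at hmem
    exact absurd (hE1s hmem) (not_lt.2 (hhill _ hv3 t ht))
  · intro t ht hmem
    rw [hconv] at hmem
    exact absurd (hE2s hmem) (not_lt.2 (hhill _ hv1 t ht))
  · intro t ht hmem
    rw [hconv] at hmem
    exact absurd (hE2s hmem) (not_lt.2 (hhill _ hv3 t ht))
  · intro ε hε
    have hm : 0 < min t0 (ε / 2) := lt_min ht0 (by linarith)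
    refine ⟨min t0 (ε / 2), ⟨hm, (min_le_right _ _).trans_lt (by linarith)⟩, _,
      hseg e hv0 _ hm (min_le_left _ _), ?_⟩
    rw [sub_self, norm_zero]
    positivity
  · intro ε hε
    have hm : 0 < min t0 (ε / 2) := lt_min ht0 (by linarith)
    refine ⟨min t0 (ε / 2), ⟨hm, (min_le_right _ _).trans_lt (by linarith)⟩, _,
      hseg _ hv2 _ hm (min_le_left _ _), ?_⟩
    rw [hconv, sub_self, norm_zero]
    positivity

end H6ea4aa
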