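import Pool.Agent.H.MP_6ea4aa_an.Win

/-!
# MP_6ea4aa: the pass is low for suitable `w`: the part common to the cases `c = 0`, `c ≠ 0`
-/

set_option autoImplicit false

open Complex Set Filter Topology Metric

namespace H6ea4aa

variable {c b : ℂ}

/-- `G⁻` on large balls -/
theorem passAux_Gm_ball (hb : ‖b‖ = 1) {ρ : ℝ} (hρ : 4 + 2 * ‖c‖ ≤ ρ) {q : ℂ × ℂ}
    (hq : ‖q‖ ≤ ρ) : Gm c b q ≤ Real.log (3 / 2 * ρ) := by
  obtain ⟨C₀, hC₀⟩ := Gm_le c b hb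
  have hc0 := norm_nonneg c
  have hρ4 : 4 ≤ ρ := by linarith
  -- the norms of the backward iterates
  have hit : ∀ n : ℕ, ‖(henInv c b)^[n] q‖ ≤ (3 / 2 * ρ) ^ (2 ^ n) / (3 / 2) ∧
      ρ ≤ (3 / 2 * ρ) ^ (2 ^ n) / (3 / 2) := by
    intro n
    induction n with
    | zero =>
      simp only [Function.iterate_zero, id_eq, pow_zero, pow_one]
      constructor <;> linarith
    | succ n ih =>
      obtain ⟨ih1, ih2⟩ := ih
      rw [Function.iterate_succ_apply']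
      set a := (3 / 2 * ρ) ^ (2 ^ n) / (3 / 2) with ha
      set p := (henInv c b)^[n] q with hp
      have hnext : (3 / 2 * ρ) ^ (2 ^ (n + 1)) / (3 / 2) = 3 / 2 * a ^ 2 := by
        rw [ha, pow_succ 2 n, pow_mul]
        ring
      rw [hnext]
      have hx : ‖p.1‖ ≤ a := (norm_fst_le p).trans ih1
      have hy : ‖p.2‖ ≤ a := (norm_snd_le p).trans ih1
      have ha4 : 4 + 2 * ‖c‖ ≤ a := hρ.trans ih2
      have key : a ^ 2 + ‖c‖ + a ≤ 3 / 2 * a ^ 2 := by nlinarith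
      have hsq : a ≤ 3 / 2 * a ^ 2 := by nlinarith
      constructor
      · rw [henInv, Prod.norm_def, max_le_iff]
        refine ⟨hy.trans hsq, ?_⟩
        simp only
        rw [norm_div, hb, div_one]
        calc ‖p.2 ^ 2 + c - p.1‖ ≤ ‖p.2 ^ 2 + c‖ + ‖p.1‖ := norm_sub_le _ _
          _ ≤ ‖p.2 ^ 2‖ + ‖c‖ + ‖p.1‖ := by gcongr; exact norm_add_le _ _
          _ ≤ a ^ 2 + ‖c‖ + a := by rw [norm_pow]; gcongr
          _ ≤ 3 / 2 * a ^ 2 := key
      · linarith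
  have hGit : ∀ n : ℕ, Gm c b ((henInv c b)^[n] q) = 2 ^ n * Gm c b q := by
    intro n
    induction n with
    | zero => simp
    | succ n ih => rw [Function.iterate_succ_apply', Gm_henInv c b hb, ih]; ring
  have hbound : ∀ n : ℕ, Gm c b q ≤ Real.log (3 / 2 * ρ) + |C₀| * (1 / 2) ^ n := by
    intro n
    have h1 := hC₀ ((henInv c b)^[n] q)
    rw [hGit n] at h1
    have h2 : Real.log (max 1 ‖(henInv c b)^[n] q‖) ≤ 2 ^ n * Real.log (3 / 2 * ρ) := by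
      have h3 : max 1 ‖(henInv c b)^[n] q‖ ≤ (3 / 2 * ρ) ^ (2 ^ n) := by
        have hpos : 0 < (3 / 2 * ρ) ^ (2 ^ n) := by positivity
        refine max_le (one_le_pow₀ (by linarith)) ((hit n).1.trans ?_)
        rw [div_le_iff₀ (by norm_num)]
        nlinarith
      calc Real.log (max 1 ‖(henInv c b)^[n] q‖) ≤ Real.log ((3 / 2 * ρ) ^ (2 ^ n)) :=
            Real.log_le_log (by positivity) h3
        _ = 2 ^ n * Real.log (3 / 2 * ρ) := by rw [Real.log_pow]; push_cast; ring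
    have h4 : (2 : ℝ) ^ n * Gm c b q ≤ 2 ^ n * (Real.log (3 / 2 * ρ) + |C₀| * (1 / 2) ^ n) := by
      have h5 : (2 : ℝ) ^ n * (Real.log (3 / 2 * ρ) + |C₀| * (1 / 2) ^ n)
          = 2 ^ n * Real.log (3 / 2 * ρ) + |C₀| := by
        rw [mul_add, mul_left_comm, ← mul_pow]
        norm_num
      rw [h5]
      have := le_abs_self C₀
      linarith
    exact le_of_mul_le_mul_left h4 (by positivity)
  have hlim : Tendsto (fun n : ℕ => Real.log (3 / 2 * ρ) + |C₀| * (1 / 2) ^ n) atTop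
      (𝓝 (Real.log (3 / 2 * ρ) + |C₀| * 0)) :=
    ((tendsto_pow_atTop_nhds_zero_of_lt_one (by norm_num) (by norm_num)).const_mul _).const_add _
  rw [mul_zero, add_zero] at hlim
  exact ge_of_tendsto' hlim hbound

theorem passAux_E (w : ℂ) : ‖exp (w / 2)‖ = Real.exp (w.re / 2) := by
  rw [norm_exp]
  congr 1
  simp

theorem passAux_E2 (w : ℂ) : ‖exp w‖ = Real.exp (w.re / 2) ^ 2 := by
  rw [norm_exp, ← Real.exp_nat_mul]
  congr 1
  push_cast
  ring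

/-- `GG` in the window coordinate -/
theorem passAux_GG (hb : ‖b‖ = 1) (Ch : Chart c b) {w y : ℂ} (hwy : (w, y) ∈ DD Ch.S) :
    GG Ch w (Ch.Uc w y) = Gm c b (y, (y ^ 2 + c - Ch.X w y) / b) / 2 := by
  have h1 := Gm_henInv c b hb (Ch.X w y, y)
  rw [GG, Ch.Pi_win w y hwy]
  simp only [henInv] at h1
  rw [h1]
  ring

/-- the preimage of a point near `± e^{3w/2}` -/
theorem passAux_pre (Ch : Chart c b) {K : ℝ} (hK : 0 ≤ K) {w : ℂ} (hS : Ch.S < w.re)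
    (hE : 152 * Ch.C + 4 * K + 8 ≤ Real.exp (w.re / 2)) {ε : ℂ} (hε : ‖ε‖ = 1) {u : ℂ}
    (hu : ‖u - ε * (exp w * exp (w / 2))‖ ≤ (Ch.C + K) * Real.exp (w.re / 2) ^ 2) :
    ∃ y ∈ closedBall (ε * exp (w / 2)) (Real.exp (w.re / 2) / 4), (w, y) ∈ DD Ch.S ∧
      Ch.Uc w y = u := by
  set E := Real.exp (w.re / 2) with hEdef
  have hC := Ch.hC
  have hE8 : 8 ≤ E := by linarith
  have hE0 : 0 < E := by linarith
  have hexp : Real.exp w.re = E ^ 2 := by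
    rw [hEdef, ← Real.exp_nat_mul]; congr 1; push_cast; ring
  have hexp2 : Real.exp (2 * w.re) = E ^ 4 := by
    rw [hEdef, ← Real.exp_nat_mul]; congr 1; push_cast; ring
  have hexpn : Real.exp (-w.re) = (E ^ 2)⁻¹ := by rw [Real.exp_neg, hexp]
  have hn1 : ‖exp (w / 2)‖ = E := passAux_E w
  have hn2 : ‖exp w‖ = E ^ 2 := passAux_E2 w
  have hnε : ‖ε * (exp w * exp (w / 2))‖ = E ^ 3 := by
    rw [norm_mul, norm_mul, hε, hn1, hn2]; ring
  have hu1 : ‖u‖ ≤ 2 * E ^ 3 := by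
    have h1 : ‖u‖ ≤ ‖u - ε * (exp w * exp (w / 2))‖ + ‖ε * (exp w * exp (w / 2))‖ := by
      have := norm_add_le (u - ε * (exp w * exp (w / 2))) (ε * (exp w * exp (w / 2)))
      rwa [sub_add_cancel] at this
    have h2 : (Ch.C + K) * E ^ 2 ≤ E ^ 3 := by
      have : (Ch.C + K) * E ^ 2 ≤ E * E ^ 2 := by gcongr; linarith
      linarith [this, (by ring : E * E ^ 2 = E ^ 3)]
    rw [hnε] at h1
    linarith
  have hu2 : ‖u‖ ≤ Real.exp (2 * w.re) / 4 := by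
    rw [hexp2]
    have : 8 * E ^ 3 ≤ E * E ^ 3 := by gcongr
    have h4 : E * E ^ 3 = E ^ 4 := by ring
    linarith
  obtain ⟨y, hy1, hy2⟩ := Ch.U_surj w u hS hu2
  have hwy : (w, y) ∈ DD Ch.S := ⟨hS, hy1⟩
  have hest := Ch.U_est w y hwy
  rw [hy2, hexpn] at hest
  rw [hexp] at hy1
  have hE2 : (0 : ℝ) < E ^ 2 := by positivity
  -- first bound on y
  have hy3 : ‖y‖ ≤ 6 * E := by
    have h1 : E ^ 2 * ‖y‖ ≤ ‖u‖ + Ch.C * (1 + ‖y‖ ^ 2) * (E ^ 2)⁻¹ := by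
      have h2 : E ^ 2 * ‖y‖ = ‖exp w * y‖ := by rw [norm_mul, hn2]
      have h3 := norm_sub_norm_le (exp w * y) u
      rw [norm_sub_rev] at h3
      linarith
    have h4 : Ch.C * (1 + ‖y‖ ^ 2) * (E ^ 2)⁻¹ ≤ 1 + E ^ 2 * ‖y‖ / 2 := by
      rw [← div_eq_mul_inv, div_le_iff₀ hE2]
      have h5 : Ch.C ≤ E ^ 2 := by nlinarith
      have h6 : ‖y‖ ^ 2 ≤ ‖y‖ * (E ^ 2 / 2) := by
        rw [pow_two]; gcongr
      have hy0 := norm_nonneg y
      have h7 : Ch.C * (1 + ‖y‖ ^ 2) ≤ E ^ 2 * (1 + ‖y‖ * (E ^ 2 / 2)) := by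
        gcongr
      nlinarith
    have h8 : E ^ 2 * ‖y‖ / 2 ≤ 2 * E ^ 3 + 1 := by linarith
    have h9 : (1 : ℝ) ≤ E ^ 3 := one_le_pow₀ (by linarith)
    have h10 : E ^ 2 * ‖y‖ ≤ E ^ 2 * (6 * E) := by nlinarith
    exact le_of_mul_le_mul_left h10 hE2
  have h5 : Ch.C * (1 + ‖y‖ ^ 2) * (E ^ 2)⁻¹ ≤ 37 * Ch.C := by
    rw [← div_eq_mul_inv, div_le_iff₀ hE2]
    have h6 : ‖y‖ ^ 2 ≤ (6 * E) ^ 2 := by gcongr
    have h7 : 1 + ‖y‖ ^ 2 ≤ 37 * E ^ 2 := by nlinarith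
    nlinarith
  have h6 : E ^ 2 * ‖y - ε * exp (w / 2)‖ ≤ 37 * Ch.C + (Ch.C + K) * E ^ 2 := by
    have h7 : E ^ 2 * ‖y - ε * exp (w / 2)‖ = ‖exp w * y - ε * (exp w * exp (w / 2))‖ := by
      rw [← hn2, ← norm_mul]; congr 1; ring
    rw [h7]
    have h8 := norm_sub_le_norm_sub_add_norm_sub (exp w * y) u (ε * (exp w * exp (w / 2)))
    rw [norm_sub_rev (exp w * y) u] at h8
    linarith
  refine ⟨y, ?_, hwy, hy2⟩
  rw [mem_closedBall, dist_eq_norm]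
  have h7 : E ^ 2 * ‖y - ε * exp (w / 2)‖ ≤ E ^ 2 * (E / 4) := by
    have h8 : 37 * Ch.C ≤ 37 * Ch.C * E ^ 2 := by
      have : (1 : ℝ) ≤ E ^ 2 := one_le_pow₀ (by linarith)
      nlinarith
    have h9 : E ^ 2 * (38 * Ch.C + K) ≤ E ^ 2 * (E / 4) := by
      gcongr
      linarith
    nlinarith
  exact le_of_mul_le_mul_left h7 hE2

/-- the discs around `± e^{w/2}` are low -/
theorem passAux_disc (hb : ‖b‖ = 1) (Ch : Chart c b) {w : ℂ} (hS : Ch.S < w.re)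
    (hE : 2 * Ch.C + 27 * (‖c‖ + 1) + 8 ≤ Real.exp (w.re / 2)) {ε : ℂ} (hε : ε = 1 ∨ ε = -1)
    {y : ℂ} (hy : y ∈ closedBall (ε * exp (w / 2)) (Real.exp (w.re / 2) / 4)) :
    (w, y) ∈ DD Ch.S ∧ GG Ch w (Ch.Uc w y) < w.re / 2 := by
  set E := Real.exp (w.re / 2) with hEdef
  have hC := Ch.hC
  have hc0 := norm_nonneg c
  have hE8 : 8 ≤ E := by linarith
  have hE0 : 0 < E := by linarith
  have hexp : Real.exp w.re = E ^ 2 := by
    rw [hEdef, ← Real.exp_nat_mul]; congr 1; push_cast; ring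
  have hexpn : Real.exp (-w.re) = (E ^ 2)⁻¹ := by rw [Real.exp_neg, hexp]
  have hn1 : ‖exp (w / 2)‖ = E := passAux_E w
  have hεn : ‖ε‖ = 1 := by rcases hε with rfl | rfl <;> simp
  have hε2 : ε ^ 2 = 1 := by rcases hε with rfl | rfl <;> norm_num
  rw [mem_closedBall, dist_eq_norm] at hy
  have hnε : ‖ε * exp (w / 2)‖ = E := by rw [norm_mul, hεn, hn1, one_mul]
  have hy1 : ‖y‖ ≤ 5 / 4 * E := by
    have := norm_add_le (y - ε * exp (w / 2)) (ε * exp (w / 2))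
    rw [sub_add_cancel, hnε] at this
    linarith
  have hy2 : ‖y + ε * exp (w / 2)‖ ≤ 9 / 4 * E := by
    have := norm_add_le y (ε * exp (w / 2))
    rw [hnε] at this
    linarith
  have hwy : (w, y) ∈ DD Ch.S := by
    refine ⟨hS, ?_⟩
    simp only
    rw [hexp]
    nlinarith
  refine ⟨hwy, ?_⟩
  rw [passAux_GG hb Ch hwy]
  have hsq : y ^ 2 - exp w = (y - ε * exp (w / 2)) * (y + ε * exp (w / 2)) := by
    have h1 : exp w = exp (w / 2) ^ 2 := by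
      rw [← exp_nat_mul]; congr 1; push_cast; ring
    rw [h1]
    linear_combination (-(exp (w / 2)) ^ 2) * hε2 * (-1)
  have h1 : ‖y ^ 2 - exp w‖ ≤ 9 / 16 * E ^ 2 := by
    rw [hsq, norm_mul]
    calc ‖y - ε * exp (w / 2)‖ * ‖y + ε * exp (w / 2)‖ ≤ (E / 4) * (9 / 4 * E) := by gcongr
      _ = 9 / 16 * E ^ 2 := by ring
  have h2 : ‖Ch.X w y - exp w‖ ≤ 1 := by
    refine (Ch.X_est w y hwy).trans ?_
    rw [hexpn, ← div_eq_mul_inv, div_le_iff₀ (by positivity)]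
    have h3 : Ch.C * (1 + ‖y‖) ≤ Ch.C * (2 * E) := by
      gcongr
      linarith
    nlinarith
  have h3 : ‖y ^ 2 + c - Ch.X w y‖ ≤ 3 / 5 * E ^ 2 := by
    have h4 : y ^ 2 + c - Ch.X w y = (y ^ 2 - exp w) + c - (Ch.X w y - exp w) := by ring
    have h5 : ‖y ^ 2 + c - Ch.X w y‖ ≤ ‖y ^ 2 - exp w‖ + ‖c‖ + ‖Ch.X w y - exp w‖ := by
      rw [h4]
      exact (norm_sub_le _ _).trans (by gcongr; exact norm_add_le _ _)
    nlinarith
  have h4 : ‖((y, (y ^ 2 + c - Ch.X w y) / b) : ℂ × ℂ)‖ ≤ 3 / 5 * E ^ 2 := by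
    rw [Prod.norm_def, max_le_iff]
    refine ⟨?_, ?_⟩
    · simp only
      nlinarith
    · simp only
      rw [norm_div, hb, div_one]
      exact h3
  have h5 := passAux_Gm_ball (c := c) hb (ρ := 3 / 5 * E ^ 2) (by nlinarith) h4
  have h6 : Real.log (3 / 2 * (3 / 5 * E ^ 2)) < w.re := by
    rw [← Real.exp_lt_exp, Real.exp_log (by positivity), hexp]
    nlinarith
  linarith

/-- **The common part**: it suffices to have a preconnected low set `L` (in the `y`-coordinate)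
joining the discs around `± e^{w/2}`. -/
theorem passAux_main (hb : ‖b‖ = 1) (Ch : Chart c b) (C₁ : ℝ) :
    ∃ S₂ : ℝ, Ch.S ≤ S₂ ∧ ∀ w : ℂ, S₂ < w.re → ∀ L : Set ℂ, IsPreconnected L →
      (L ∩ closedBall (exp (w / 2)) (Real.exp (w.re / 2) / 4)).Nonempty →
      (L ∩ closedBall (-exp (w / 2)) (Real.exp (w.re / 2) / 4)).Nonempty →
      (∀ y ∈ L, ‖y‖ < Real.exp w.re / 2 ∧ GG Ch w (Ch.Uc w y) < w.re / 2) →
      ∃ P : Set ℂ, IsPreconnected P ∧ (∀ v ∈ P, GG Ch w v < w.re / 2) ∧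
      (∀ u, ‖u - Ch.κ (w / 2)‖ ≤ C₁ * Real.exp (3 / 4 * w.re) → u ∈ P) ∧
      (∀ u, ‖u - Ch.κ (w / 2 + Real.pi * I)‖ ≤ C₁ * Real.exp (3 / 4 * w.re) → u ∈ P) := by
  have hC := Ch.hC
  have hc0 := norm_nonneg c
  have hK0 := abs_nonneg C₁
  set M : ℝ := 152 * Ch.C + 4 * |C₁| + 27 * (‖c‖ + 1) + 8 with hM
  have hMpos : 0 < M := by positivity
  refine ⟨max Ch.S (2 * Real.log M), le_max_left _ _, fun w hw L hL hL1 hL2 hlow => ?_⟩
  have hS : Ch.S < w.re := lt_of_le_of_lt (le_max_left _ _) hw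
  have hx0 : 0 ≤ w.re := by have := Ch.hS; linarith
  have hEM : M ≤ Real.exp (w.re / 2) := by
    rw [← Real.log_le_iff_le_exp hMpos]
    have := lt_of_le_of_lt (le_max_right Ch.S (2 * Real.log M)) hw
    linarith
  set E := Real.exp (w.re / 2) with hEdef
  have hexp : Real.exp w.re = E ^ 2 := by
    rw [hEdef, ← Real.exp_nat_mul]; congr 1; push_cast; ring
  have h34 : C₁ * Real.exp (3 / 4 * w.re) ≤ |C₁| * E ^ 2 := by
    calc C₁ * Real.exp (3 / 4 * w.re) ≤ |C₁| * Real.exp (3 / 4 * w.re) := by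
          gcongr; exact le_abs_self _
      _ ≤ |C₁| * Real.exp w.re := by
          gcongr; linarith
      _ = |C₁| * E ^ 2 := by rw [hexp]
  -- the two discs
  set D₁ := closedBall (exp (w / 2)) (E / 4) with hD₁
  set D₂ := closedBall (-exp (w / 2)) (E / 4) with hD₂
  have hd₁ : ∀ y ∈ D₁, (w, y) ∈ DD Ch.S ∧ GG Ch w (Ch.Uc w y) < w.re / 2 := fun y hy =>
    passAux_disc hb Ch hS (by linarith) (Or.inl rfl) (by rw [one_mul]; exact hy)
  have hd₂ : ∀ y ∈ D₂, (w, y) ∈ DD Ch.S ∧ GG Ch w (Ch.Uc w y) < w.re / 2 := fun y hy =>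
    passAux_disc hb Ch hS (by linarith) (Or.inr rfl) (by rw [neg_one_mul]; exact hy)
  set Y := (L ∪ D₁) ∪ D₂ with hY
  have hYc : IsPreconnected Y := by
    have hp1 : IsPreconnected D₁ := (convex_closedBall _ _).isPreconnected
    have hp2 : IsPreconnected D₂ := (convex_closedBall _ _).isPreconnected
    obtain ⟨a, ha1, ha2⟩ := hL1
    obtain ⟨a', ha1', ha2'⟩ := hL2
    have h1 : IsPreconnected (L ∪ D₁) := hL.union a ha1 ha2 hp1
    exact h1.union a' (Or.inl ha1') ha2' hp2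
  have hYD : ∀ y ∈ Y, (w, y) ∈ DD Ch.S ∧ GG Ch w (Ch.Uc w y) < w.re / 2 := by
    rintro y ((hy | hy) | hy)
    · exact ⟨⟨hS, (hlow y hy).1⟩, (hlow y hy).2⟩
    · exact hd₁ y hy
    · exact hd₂ y hy
  have hcont : ContinuousOn (Ch.Uc w) Y := by
    have h1 : ContinuousOn (fun q : ℂ × ℂ => Ch.Uc q.1 q.2) (DD Ch.S) := Ch.U_diff.continuousOn
    exact h1.comp (f := fun y : ℂ => (w, y)) (by fun_prop) (fun y hy => (hYD y hy).1)
  refine ⟨Ch.Uc w '' Y, hYc.image _ hcont, ?_, ?_, ?_⟩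
  · rintro _ ⟨y, hy, rfl⟩
    exact (hYD y hy).2
  · intro u hu
    have hκ := Ch.κ_lead (w / 2) (by
      have : (w / 2).re = w.re / 2 := by simp
      rw [this]; linarith)
    have e1 : exp (3 * (w / 2)) = exp w * exp (w / 2) := by rw [← Complex.exp_add]; congr 1; ring
    have e2 : 2 * (w / 2).re = w.re := by simp; ring
    rw [e1, e2, hexp] at hκ
    have h1 : ‖u - 1 * (exp w * exp (w / 2))‖ ≤ (Ch.C + |C₁|) * E ^ 2 := by
      rw [one_mul]
      have := norm_sub_le_norm_sub_add_norm_sub u (Ch.κ (w / 2)) (exp w * exp (w / 2))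
      linarith
    obtain ⟨y, hy1, -, hy3⟩ := passAux_pre Ch hK0 hS (by linarith) (by simp) h1
    rw [one_mul] at hy1
    exact ⟨y, Or.inl (Or.inr hy1), hy3⟩
  · intro u hu
    have hre2 : (w / 2 + Real.pi * I).re = w.re / 2 := by simp
    have hκ := Ch.κ_lead (w / 2 + Real.pi * I) (by rw [hre2]; linarith)
    have e1 : exp (3 * (w / 2 + Real.pi * I)) = -(exp w * exp (w / 2)) := by
      have h1 : 3 * (w / 2 + Real.pi * I) = (w + w / 2) + (Real.pi * I + 2 * Real.pi * I) := by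
        ring
      rw [h1, Complex.exp_add, Complex.exp_add (Real.pi * I), exp_pi_mul_I, exp_two_pi_mul_I,
        Complex.exp_add]
      ring
    have e2 : 2 * (w / 2 + Real.pi * I).re = w.re := by rw [hre2]; ring
    rw [e1, e2, hexp] at hκ
    have h1 : ‖u - (-1) * (exp w * exp (w / 2))‖ ≤ (Ch.C + |C₁|) * E ^ 2 := by
      rw [neg_one_mul]
      have := norm_sub_le_norm_sub_add_norm_sub u (Ch.κ (w / 2 + Real.pi * I))
        (-(exp w * exp (w / 2)))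
      linarith
    obtain ⟨y, hy1, -, hy3⟩ := passAux_pre Ch hK0 hS (by linarith) (by simp) h1
    rw [neg_one_mul] at hy1
    exact ⟨y, Or.inr hy1, hy3⟩

end H6ea4aa
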