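import Mathlib

/-!
# MP_6ea4aa: polynomials for the pass in the case `c = 0`
-/

set_option autoImplicit false

open Complex Set Filter Topology Metric

namespace H6ea4aa

/-! ### the polynomials -/

def ph_a (b σ t : ℂ) : ℂ := (1 - σ ^ 2) ^ 2 - b ^ 2 * σ * t
def ph_e (b σ t : ℂ) : ℂ := ph_a b σ t ^ 2 + b ^ 5 * t ^ 2 * (1 - σ ^ 2)
def ph_N (b σ t : ℂ) : ℂ := ph_e b σ t ^ 2 - b ^ 11 * t ^ 4 * ph_a b σ t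
def ph_u (b σ t : ℂ) : ℂ := 1 - b * σ * t
def ph_m (b σ t : ℂ) : ℂ := ph_u b σ t ^ 2 - b * t ^ 2
def ph_M (b σ t : ℂ) : ℂ := ph_m b σ t ^ 2 - b * t ^ 4 * ph_u b σ t

noncomputable def ph_al (b : ℂ) : ℂ := b * (1 - b) / 4
noncomputable def ph_d3 (b : ℂ) : ℂ := b * (4 + b - 2 * b ^ 2 + b ^ 3 + 4 * b ^ 4) / 16
noncomputable def ph_d6 (b : ℂ) : ℂ :=
  b * (64 + 64 * b + 64 * b ^ 2 - 57 * b ^ 3 - 20 * b ^ 4 + 18 * b ^ 5 + 20 * b ^ 6 + 15 * b ^ 7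
    - 40 * b ^ 8 - 64 * b ^ 9 - 64 * b ^ 10) / 512
noncomputable def ph_W (b t : ℂ) : ℂ :=
  1 + 8 * (ph_d3 b * t ^ 2 + ph_d6 b * t ^ 4) + 32 * ph_d3 b ^ 2 * t ^ 4

/-- `d₃` and `d₆` do not vanish simultaneously -/
theorem ph_ne {b : ℂ} (hb : b ≠ 0) (h3 : ph_d3 b = 0) : ph_d6 b ≠ 0 := by
  intro h6
  have e3 : 4 + b - 2 * b ^ 2 + b ^ 3 + 4 * b ^ 4 = 0 := by
    unfold ph_d3 at h3
    have h : b * (4 + b - 2 * b ^ 2 + b ^ 3 + 4 * b ^ 4) = 0 := by linear_combination 16 * h3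
    exact (mul_eq_zero.1 h).resolve_left hb
  have e6 : 64 + 64 * b + 64 * b ^ 2 - 57 * b ^ 3 - 20 * b ^ 4 + 18 * b ^ 5 + 20 * b ^ 6
      + 15 * b ^ 7 - 40 * b ^ 8 - 64 * b ^ 9 - 64 * b ^ 10 = 0 := by
    unfold ph_d6 at h6
    have h : b * (64 + 64 * b + 64 * b ^ 2 - 57 * b ^ 3 - 20 * b ^ 4 + 18 * b ^ 5 + 20 * b ^ 6
      + 15 * b ^ 7 - 40 * b ^ 8 - 64 * b ^ 9 - 64 * b ^ 10) = 0 := by linear_combination 512 * h6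
    exact (mul_eq_zero.1 h).resolve_left hb
  have h : (160256 : ℂ) = 0 := by
    linear_combination (18816 - 40560 * b - 18852 * b ^ 2 - 38147 * b ^ 3 - 11107 * b ^ 4
      + 10183 * b ^ 5 + 27835 * b ^ 6 + 34936 * b ^ 7 + 17280 * b ^ 8 + 19648 * b ^ 9) * e3
      + (1328 + 913 * b + 159 * b ^ 2 + 1228 * b ^ 3) * e6
  norm_num at h

/-- second order remainder of `ph_N` -/
def ph_a2 (α s t : ℂ) : ℂ :=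
  (-2 * α * t) ^ 2 - 2 * (1 - α ^ 2 * t ^ 2) - 2 * s * (-2 * α * t) + s ^ 2
def ph_a0 (b α t : ℂ) : ℂ := (1 - α ^ 2 * t ^ 2) ^ 2 - b ^ 2 * α * t ^ 2
def ph_a1 (b α t : ℂ) : ℂ := 2 * (1 - α ^ 2 * t ^ 2) * (-2 * α * t) - b ^ 2 * t
def ph_e0 (b α t : ℂ) : ℂ := ph_a0 b α t ^ 2 + b ^ 5 * t ^ 2 * (1 - α ^ 2 * t ^ 2)
def ph_e1 (b α t : ℂ) : ℂ := 2 * ph_a0 b α t * ph_a1 b α t + b ^ 5 * t ^ 2 * (-2 * α * t)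
def ph_e2 (b α s t : ℂ) : ℂ :=
  ph_a1 b α t ^ 2 + 2 * ph_a0 b α t * ph_a2 α s t + 2 * s * ph_a1 b α t * ph_a2 α s t
    + s ^ 2 * ph_a2 α s t ^ 2 - b ^ 5 * t ^ 2
def ph_n0 (b α t : ℂ) : ℂ := ph_e0 b α t ^ 2 - b ^ 11 * t ^ 4 * ph_a0 b α t
def ph_n1 (b α t : ℂ) : ℂ := 2 * ph_e0 b α t * ph_e1 b α t - b ^ 11 * t ^ 4 * ph_a1 b α t
def ph_n2 (b α s t : ℂ) : ℂ :=
  ph_e1 b α t ^ 2 + 2 * ph_e0 b α t * ph_e2 b α s t + 2 * s * ph_e1 b α t * ph_e2 b α s t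
    + s ^ 2 * ph_e2 b α s t ^ 2 - b ^ 11 * t ^ 4 * ph_a2 α s t

theorem ph_a_split (b α s t : ℂ) :
    ph_a b (α * t + s) t = ph_a0 b α t + s * ph_a1 b α t + s ^ 2 * ph_a2 α s t := by
  simp only [ph_a, ph_a0, ph_a1, ph_a2]
  ring

theorem ph_e_split (b α s t : ℂ) :
    ph_e b (α * t + s) t = ph_e0 b α t + s * ph_e1 b α t + s ^ 2 * ph_e2 b α s t := by
  rw [ph_e, ph_a_split]
  simp only [ph_e0, ph_e1, ph_e2]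
  ring

theorem ph_N_split (b α s t : ℂ) :
    ph_N b (α * t + s) t = ph_n0 b α t + s * ph_n1 b α t + s ^ 2 * ph_n2 b α s t := by
  rw [ph_N, ph_a_split, ph_e_split]
  simp only [ph_n0, ph_n1, ph_n2]
  ring

def ph_m0 (b α t : ℂ) : ℂ := (1 - b * α * t ^ 2) ^ 2 - b * t ^ 2
def ph_m1 (b α t : ℂ) : ℂ := 2 * (1 - b * α * t ^ 2) * (-b * t)
def ph_M0 (b α t : ℂ) : ℂ := ph_m0 b α t ^ 2 - b * t ^ 4 * (1 - b * α * t ^ 2)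
def ph_M1 (b α t : ℂ) : ℂ := 2 * ph_m0 b α t * ph_m1 b α t - b * t ^ 4 * (-b * t)
def ph_M2 (b α s t : ℂ) : ℂ :=
  ph_m1 b α t ^ 2 + 2 * ph_m0 b α t * (-b * t) ^ 2 + 2 * s * ph_m1 b α t * (-b * t) ^ 2
    + s ^ 2 * (-b * t) ^ 4

theorem ph_M_split (b α s t : ℂ) :
    ph_M b (α * t + s) t = ph_M0 b α t + s * ph_M1 b α t + s ^ 2 * ph_M2 b α s t := by
  simp only [ph_M, ph_m, ph_u, ph_M0, ph_M1, ph_M2, ph_m0, ph_m1]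
  ring

/-- `(1 - s²)⁸ = 1 + s² g(s)` -/
def ph_g (s : ℂ) : ℂ :=
  -8 + 28 * s ^ 2 - 56 * s ^ 4 + 70 * s ^ 6 - 56 * s ^ 8 + 28 * s ^ 10 - 8 * s ^ 12 + s ^ 14

theorem ph_g_eq (s : ℂ) : (1 - s ^ 2) ^ 8 = 1 + s ^ 2 * ph_g s := by
  unfold ph_g; ring

noncomputable def ph_K (b : ℂ) (q : ℂ × ℂ) : ℂ :=
  ph_n2 b (ph_al b) q.1 q.2 - ph_W b q.2 * ph_M2 b (ph_al b) q.1 q.2 - ph_g q.1 * ph_W b q.2 *
    (ph_M0 b (ph_al b) q.2 + q.1 * ph_M1 b (ph_al b) q.2 + q.1 ^ 2 * ph_M2 b (ph_al b) q.1 q.2)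

theorem ph_K_zero (b s : ℂ) : ph_K b (s, 0) = 0 := by
  simp only [ph_K, ph_n2, ph_e0, ph_e1, ph_e2, ph_a0, ph_a1, ph_a2, ph_W, ph_M0, ph_M1, ph_M2,
    ph_m0, ph_m1, ph_g]
  ring

noncomputable def ph_P1 (b t : ℂ) : ℂ :=
      (2048 * b ^ 2 + 2688 * b ^ 3 + 1408 * b ^ 4 - 2128 * b ^ 5 - 143 * b ^ 6 + 4852 * b ^ 7 + 2061 * b ^ 8 - 2808 * b ^ 9 - 261 * b ^ 10 + 1676 * b ^ 11 - 761 * b ^ 12 - 824 * b ^ 13 + 448 * b ^ 14 - 64 * b ^ 15) / 512 +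
      (32768 * b ^ 2 + 65536 * b ^ 3 - 81920 * b ^ 4 - 221696 * b ^ 5 + 137728 * b ^ 6 + 329216 * b ^ 7 - 212381 * b ^ 8 - 297720 * b ^ 9 + 186580 * b ^ 10 + 192024 * b ^ 11 - 151790 * b ^ 12 - 32168 * b ^ 13 + 79188 * b ^ 14 - 1368 * b ^ 15 - 35485 * b ^ 16 + 10976 * b ^ 17 + 640 * b ^ 18 - 128 * b ^ 19) / 32768 * t ^ 2 +
      (-32768 * b ^ 4 - 65536 * b ^ 5 + 49152 * b ^ 6 + 180736 * b ^ 7 - 145920 * b ^ 8 - 254208 * b ^ 9 + 262265 * b ^ 10 + 200872 * b ^ 11 - 262109 * b ^ 12 - 78076 * b ^ 13 + 227514 * b ^ 14 - 37680 * b ^ 15 - 87546 * b ^ 16 + 38184 * b ^ 17 + 29789 * b ^ 18 - 32920 * b ^ 19 + 8263 * b ^ 20 - 12 * b ^ 21) / 131072 * t ^ 4 +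
      (-16384 * b ^ 9 + 16384 * b ^ 10 + 65536 * b ^ 11 - 52985 * b ^ 12 - 200764 * b ^ 13 + 283870 * b ^ 14 + 83500 * b ^ 15 - 356199 * b ^ 16 + 132256 * b ^ 17 + 141668 * b ^ 18 - 77960 * b ^ 19 - 109783 * b ^ 20 + 155556 * b ^ 21 - 80738 * b ^ 22 + 15964 * b ^ 23 + 87 * b ^ 24 - 8 * b ^ 25) / 4194304 * t ^ 6 +
      (-b ^ 14 + 12 * b ^ 15 - 65 * b ^ 16 + 208 * b ^ 17 - 429 * b ^ 18 + 572 * b ^ 19 - 429 * b ^ 20 + 429 * b ^ 22 - 572 * b ^ 23 + 429 * b ^ 24 - 208 * b ^ 25 + 65 * b ^ 26 - 12 * b ^ 27 + b ^ 28) / 33554432 * t ^ 8 +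
      (b ^ 16 - 16 * b ^ 17 + 120 * b ^ 18 - 560 * b ^ 19 + 1820 * b ^ 20 - 4368 * b ^ 21 + 8008 * b ^ 22 - 11440 * b ^ 23 + 12870 * b ^ 24 - 11440 * b ^ 25 + 8008 * b ^ 26 - 4368 * b ^ 27 + 1820 * b ^ 28 - 560 * b ^ 29 + 120 * b ^ 30 - 16 * b ^ 31 + b ^ 32) / 4294967296 * t ^ 10

noncomputable def ph_P2 (b t : ℂ) : ℂ :=
      (16 * b ^ 2 + 3 * b ^ 3 - 7 * b ^ 4 + 5 * b ^ 5 + 11 * b ^ 6 + 4 * b ^ 7) / 4 +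
      (192 * b ^ 2 + 256 * b ^ 3 + 64 * b ^ 4 - 201 * b ^ 5 + 142 * b ^ 6 + 530 * b ^ 7 - 129 * b ^ 9 + 106 * b ^ 10 + 192 * b ^ 11 - 128 * b ^ 12) / 64 * t ^ 2 +
      (-6144 * b ^ 3 - 15872 * b ^ 4 - 11264 * b ^ 5 + 13888 * b ^ 6 + 7571 * b ^ 7 - 28057 * b ^ 8 - 14449 * b ^ 9 + 17531 * b ^ 10 + 3681 * b ^ 11 - 9147 * b ^ 12 + 2421 * b ^ 13 + 5849 * b ^ 14 - 2680 * b ^ 15 - 256 * b ^ 16 + 64 * b ^ 17) / 1024 * t ^ 4 +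
      (-16384 * b ^ 3 - 49152 * b ^ 4 - 16384 * b ^ 5 + 90368 * b ^ 6 - 7168 * b ^ 7 - 199424 * b ^ 8 - 5603 * b ^ 9 + 197684 * b ^ 10 - 55476 * b ^ 11 - 164392 * b ^ 12 + 74030 * b ^ 13 + 60528 * b ^ 14 - 48788 * b ^ 15 - 15480 * b ^ 16 + 36957 * b ^ 17 - 12420 * b ^ 18 + 32 * b ^ 19) / 16384 * t ^ 6 +
      (-16384 * b ^ 8 + 65536 * b ^ 10 + 12565 * b ^ 11 - 188325 * b ^ 12 + 96043 * b ^ 13 + 178401 * b ^ 14 - 176058 * b ^ 15 - 45890 * b ^ 16 + 98310 * b ^ 17 + 17074 * b ^ 18 - 89055 * b ^ 19 + 63511 * b ^ 20 - 15553 * b ^ 21 - 195 * b ^ 22 + 20 * b ^ 23) / 262144 * t ^ 8 +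
      (-7 * b ^ 13 + 78 * b ^ 14 - 390 * b ^ 15 + 1144 * b ^ 16 - 2145 * b ^ 17 + 2574 * b ^ 18 - 1716 * b ^ 19 + 1287 * b ^ 21 - 1430 * b ^ 22 + 858 * b ^ 23 - 312 * b ^ 24 + 65 * b ^ 25 - 6 * b ^ 26) / 4194304 * t ^ 10 +
      (b ^ 15 - 15 * b ^ 16 + 105 * b ^ 17 - 455 * b ^ 18 + 1365 * b ^ 19 - 3003 * b ^ 20 + 5005 * b ^ 21 - 6435 * b ^ 22 + 6435 * b ^ 23 - 5005 * b ^ 24 + 3003 * b ^ 25 - 1365 * b ^ 26 + 455 * b ^ 27 - 105 * b ^ 28 + 15 * b ^ 29 - b ^ 30) / 67108864 * t ^ 12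

theorem ph_P1_eq (b t : ℂ) :
    ph_n0 b (ph_al b) t - ph_W b t * ph_M0 b (ph_al b) t = t ^ 6 * ph_P1 b t := by
  simp only [ph_n0, ph_e0, ph_a0, ph_W, ph_M0, ph_m0, ph_al, ph_d3, ph_d6, ph_P1]
  ring

theorem ph_P2_eq (b t : ℂ) :
    ph_n1 b (ph_al b) t - ph_W b t * ph_M1 b (ph_al b) t = t ^ 3 * ph_P2 b t := by
  simp only [ph_n1, ph_e0, ph_e1, ph_a0, ph_a1, ph_W, ph_M1, ph_m0, ph_m1, ph_al, ph_d3, ph_d6,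
    ph_P2]
  ring

theorem ph_expansion (b s t : ℂ) :
    ph_N b (ph_al b * t + s) t - (1 - s ^ 2) ^ 8 * ph_W b t * ph_M b (ph_al b * t + s) t =
      t ^ 6 * ph_P1 b t + s * (t ^ 3 * ph_P2 b t) + s ^ 2 * ph_K b (s, t) := by
  rw [ph_g_eq, ph_N_split, ph_M_split, ← ph_P1_eq, ← ph_P2_eq, ph_K]
  ring

/-! ### bounds -/

theorem ph_lip {K : ℂ × ℂ → ℂ} (hK : ContDiff ℂ 1 K) (h0 : ∀ s, K (s, 0) = 0) :
    ∃ C : ℝ, 1 ≤ C ∧ ∀ s t : ℂ, ‖s‖ ≤ 1 → ‖t‖ ≤ 1 → ‖K (s, t)‖ ≤ C * ‖t‖ := by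
  have hc : Continuous (fderiv ℂ K) := hK.continuous_fderiv one_ne_zero
  obtain ⟨B, hB⟩ := (isCompact_closedBall (0 : ℂ × ℂ) 1).bddAbove_image hc.norm.continuousOn
  refine ⟨max B 1, le_max_right _ _, fun s t hs ht => ?_⟩
  have h1 : ((s, 0) : ℂ × ℂ) ∈ closedBall (0 : ℂ × ℂ) 1 := by
    rw [mem_closedBall_zero_iff, Prod.norm_def]
    exact max_le hs (by simp)
  have h2 : ((s, t) : ℂ × ℂ) ∈ closedBall (0 : ℂ × ℂ) 1 := by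
    rw [mem_closedBall_zero_iff, Prod.norm_def]
    exact max_le hs ht
  have h3 := (convex_closedBall (0 : ℂ × ℂ) 1).norm_image_sub_le_of_norm_fderiv_le (𝕜 := ℂ)
    (f := K) (C := max B 1) (fun x _ => (hK.differentiable one_ne_zero) x)
    (fun x hx => (hB (mem_image_of_mem _ hx)).trans (le_max_left _ _)) h1 h2
  rw [h0, sub_zero] at h3
  refine h3.trans (le_of_eq ?_)
  congr 1
  rw [Prod.mk_sub_mk, sub_self, sub_zero, Prod.norm_def, norm_zero]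
  exact max_eq_right (norm_nonneg t)

theorem ph_bdd {f : ℂ × ℂ → ℂ} (hf : Continuous f) :
    ∃ C : ℝ, 1 ≤ C ∧ ∀ s t : ℂ, ‖s‖ ≤ 1 → ‖t‖ ≤ 1 → ‖f (s, t)‖ ≤ C := by
  obtain ⟨B, hB⟩ := (isCompact_closedBall (0 : ℂ × ℂ) 1).bddAbove_image hf.norm.continuousOn
  refine ⟨max B 1, le_max_right _ _, fun s t hs ht => ?_⟩
  have h2 : ((s, t) : ℂ × ℂ) ∈ closedBall (0 : ℂ × ℂ) 1 := by
    rw [mem_closedBall_zero_iff, Prod.norm_def]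
    exact max_le hs ht
  exact (hB (mem_image_of_mem _ h2)).trans (le_max_left _ _)

theorem ph_K_contDiff (b : ℂ) : ContDiff ℂ 1 (ph_K b) := by
  unfold ph_K ph_n2 ph_e2 ph_e1 ph_e0 ph_a2 ph_a1 ph_a0 ph_W ph_M0 ph_M1 ph_M2 ph_m0 ph_m1 ph_g
  fun_prop

/-- basic estimates for the polynomials -/
theorem ph_est (b : ℂ) : ∃ C t₀ : ℝ, 1 ≤ C ∧ 0 < t₀ ∧ t₀ ≤ 1 ∧ ∀ s t : ℂ, ‖s‖ ≤ 1 → ‖t‖ ≤ t₀ →
    ‖ph_N b (ph_al b * t + s) t - (1 - s ^ 2) ^ 8 * ph_W b t * ph_M b (ph_al b * t + s) t‖ ≤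
      C * (‖t‖ ^ 6 + ‖s‖ * ‖t‖ ^ 3 + ‖s‖ ^ 2 * ‖t‖) ∧
    ‖ph_M b (ph_al b * t + s) t - 1‖ ≤ 1 / 2 ∧ ‖ph_W b t - 1‖ ≤ 1 / 2 ∧
    ‖ph_W b t - 1‖ ≤ C * ‖t‖ ∧
    ‖ph_m b (ph_al b * t + s) t - 1‖ ≤ 1 / 2 ∧ ‖ph_e b (ph_al b * t + s) t‖ ≤ C := by
  obtain ⟨C₁, hC₁, h₁⟩ := ph_bdd (f := fun q : ℂ × ℂ => ph_P1 b q.2) (by unfold ph_P1; fun_prop)
  obtain ⟨C₂, hC₂, h₂⟩ := ph_bdd (f := fun q : ℂ × ℂ => ph_P2 b q.2) (by unfold ph_P2; fun_prop)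
  obtain ⟨C₃, hC₃, h₃⟩ := ph_lip (ph_K_contDiff b) (ph_K_zero b)
  obtain ⟨C₄, hC₄, h₄⟩ := ph_lip (K := fun q : ℂ × ℂ => ph_M b (ph_al b * q.2 + q.1) q.2 - 1)
    (by unfold ph_M ph_m ph_u; fun_prop) (by intro s; simp [ph_M, ph_m, ph_u])
  obtain ⟨C₅, hC₅, h₅⟩ := ph_lip (K := fun q : ℂ × ℂ => ph_W b q.2 - 1)
    (by unfold ph_W; fun_prop) (by intro s; simp [ph_W])
  obtain ⟨C₆, hC₆, h₆⟩ := ph_lip (K := fun q : ℂ × ℂ => ph_m b (ph_al b * q.2 + q.1) q.2 - 1)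
    (by unfold ph_m ph_u; fun_prop) (by intro s; simp [ph_m, ph_u])
  obtain ⟨C₇, hC₇, h₇⟩ := ph_bdd (f := fun q : ℂ × ℂ => ph_e b (ph_al b * q.2 + q.1) q.2)
    (by unfold ph_e ph_a; fun_prop)
  set C := C₁ + C₂ + C₃ + C₄ + C₅ + C₆ + C₇ with hC
  have hC1 : 1 ≤ C := by rw [hC]; linarith
  refine ⟨C, 1 / (2 * C), hC1, by positivity, ?_, fun s t hs ht => ?_⟩
  · rw [div_le_one (by positivity)]
    linarith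
  have ht1 : ‖t‖ ≤ 1 := ht.trans (by rw [div_le_one (by positivity)]; linarith)
  have ht0 := norm_nonneg t
  have hs0 := norm_nonneg s
  have hCt : C * ‖t‖ ≤ 1 / 2 := by
    calc C * ‖t‖ ≤ C * (1 / (2 * C)) := by gcongr
      _ = 1 / 2 := by field_simp
  have i4 := h₄ s t hs ht1
  have i5 := h₅ s t hs ht1
  have i6 := h₆ s t hs ht1
  have i7 := h₇ s t hs ht1
  have i3 := h₃ s t hs ht1
  have i1 := h₁ s t hs ht1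
  have i2 := h₂ s t hs ht1
  simp only at i1 i2 i3 i4 i5 i6 i7
  have j4 : C₄ * ‖t‖ ≤ C * ‖t‖ := by gcongr; linarith
  have j5 : C₅ * ‖t‖ ≤ C * ‖t‖ := by gcongr; linarith
  have j6 : C₆ * ‖t‖ ≤ C * ‖t‖ := by gcongr; linarith
  refine ⟨?_, by linarith, by linarith, by linarith, by linarith, by linarith⟩
  rw [ph_expansion]
  calc ‖t ^ 6 * ph_P1 b t + s * (t ^ 3 * ph_P2 b t) + s ^ 2 * ph_K b (s, t)‖
      ≤ ‖t ^ 6 * ph_P1 b t‖ + ‖s * (t ^ 3 * ph_P2 b t)‖ + ‖s ^ 2 * ph_K b (s, t)‖ :=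
        norm_add₃_le
    _ = ‖t‖ ^ 6 * ‖ph_P1 b t‖ + ‖s‖ * (‖t‖ ^ 3 * ‖ph_P2 b t‖) + ‖s‖ ^ 2 * ‖ph_K b (s, t)‖ := by
        simp only [norm_mul, norm_pow]
    _ ≤ ‖t‖ ^ 6 * C + ‖s‖ * (‖t‖ ^ 3 * C) + ‖s‖ ^ 2 * (C * ‖t‖) := by
        have k1 : ‖ph_P1 b t‖ ≤ C := by linarith
        have k2 : ‖ph_P2 b t‖ ≤ C := by linarith
        have k3 : ‖ph_K b (s, t)‖ ≤ C * ‖t‖ := by
          refine i3.trans ?_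
          gcongr
          linarith
        gcongr
    _ = C * (‖t‖ ^ 6 + ‖s‖ * ‖t‖ ^ 3 + ‖s‖ ^ 2 * ‖t‖) := by ring

/-- elementary logarithm bound -/
theorem ph_log_norm {z : ℂ} (hz : z ≠ 0) :
    Real.log ‖z‖ ≤ (z - 1).re + ‖z - 1‖ ^ 2 / 2 := by
  have h1 : Real.log (‖z‖ ^ 2) ≤ ‖z‖ ^ 2 - 1 :=
    Real.log_le_sub_one_of_pos (by positivity)
  rw [Real.log_pow] at h1
  push_cast at h1
  have h2 : ‖z‖ ^ 2 = 1 + 2 * (z - 1).re + ‖z - 1‖ ^ 2 := by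
    rw [← Complex.normSq_eq_norm_sq, ← Complex.normSq_eq_norm_sq, Complex.normSq_apply,
      Complex.normSq_apply]
    simp only [Complex.sub_re, Complex.sub_im, Complex.one_re, Complex.one_im]
    ring
  linarith

/-- upper bound for the quotient -/
theorem ph_quot (b : ℂ) : ∃ C t₀ n₀ : ℝ, 1 ≤ C ∧ 0 < t₀ ∧ t₀ ≤ 1 ∧ 0 < n₀ ∧
    ∀ s t : ℂ, ‖s‖ ≤ 41 / 50 → ‖t‖ ≤ t₀ →
    n₀ ≤ ‖ph_N b (ph_al b * t + s) t‖ ∧ 1 / 2 ≤ ‖ph_M b (ph_al b * t + s) t‖ ∧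
    ‖ph_m b (ph_al b * t + s) t‖ ≤ 2 ∧ ‖ph_e b (ph_al b * t + s) t‖ ≤ C ∧
    Real.log ‖ph_N b (ph_al b * t + s) t‖ - Real.log ‖ph_M b (ph_al b * t + s) t‖ ≤
      -8 * (s ^ 2).re + 4 * ‖s‖ ^ 4 + (ph_W b t - 1).re + ‖ph_W b t - 1‖ ^ 2 / 2 +
        C * (‖t‖ ^ 6 + ‖s‖ * ‖t‖ ^ 3 + ‖s‖ ^ 2 * ‖t‖) := by
  obtain ⟨C, t₀, hC, ht₀, ht₀1, hest⟩ := ph_est b
  set z₀ : ℝ := (3 / 10) ^ 8 / 2 with hz₀
  have hz₀pos : 0 < z₀ := by rw [hz₀]; positivity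
  refine ⟨2 * C / z₀, min t₀ (z₀ / (12 * C)), z₀ / 4, ?_, ?_, ?_, by positivity,
    fun s t hs ht => ?_⟩
  · rw [one_le_div hz₀pos]
    have : z₀ ≤ 1 := by rw [hz₀]; norm_num
    linarith
  · exact lt_min ht₀ (by positivity)
  · exact (min_le_left _ _).trans ht₀1
  have hs1 : ‖s‖ ≤ 1 := hs.trans (by norm_num)
  have ht1 : ‖t‖ ≤ t₀ := ht.trans (min_le_left _ _)
  have ht2 : ‖t‖ ≤ z₀ / (12 * C) := ht.trans (min_le_right _ _)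
  have ht3 : ‖t‖ ≤ 1 := ht1.trans ht₀1
  have ht0 := norm_nonneg t
  have hs0 := norm_nonneg s
  obtain ⟨h1, h2, h3, h4, h5, h6⟩ := hest s t hs1 ht1
  set N := ph_N b (ph_al b * t + s) t with hN
  set M := ph_M b (ph_al b * t + s) t with hM
  set W := ph_W b t with hW
  set Δ := ‖t‖ ^ 6 + ‖s‖ * ‖t‖ ^ 3 + ‖s‖ ^ 2 * ‖t‖ with hΔ
  have hΔ0 : 0 ≤ Δ := by rw [hΔ]; positivity
  have hM1 : 1 / 2 ≤ ‖M‖ := by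
    have : ‖(1 : ℂ)‖ ≤ ‖M‖ + ‖M - 1‖ := by
      have := norm_sub_le M (M - 1)
      rwa [sub_sub_cancel] at this
    rw [norm_one] at this
    linarith
  have hW1 : 1 / 2 ≤ ‖W‖ := by
    have : ‖(1 : ℂ)‖ ≤ ‖W‖ + ‖W - 1‖ := by
      have := norm_sub_le W (W - 1)
      rwa [sub_sub_cancel] at this
    rw [norm_one] at this
    linarith
  have hm2 : ‖ph_m b (ph_al b * t + s) t‖ ≤ 2 := by
    have := norm_add_le (ph_m b (ph_al b * t + s) t - 1) 1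
    rw [sub_add_cancel, norm_one] at this
    linarith
  have hv : 3 / 10 ≤ ‖1 - s ^ 2‖ := by
    have h7 : ‖(1 : ℂ)‖ ≤ ‖1 - s ^ 2‖ + ‖s ^ 2‖ := by
      have := norm_add_le (1 - s ^ 2) (s ^ 2)
      rwa [sub_add_cancel] at this
    rw [norm_one, norm_pow] at h7
    have h8 : ‖s‖ ^ 2 ≤ (41 / 50) ^ 2 := by gcongr
    norm_num at h8
    linarith
  set Z := (1 - s ^ 2) ^ 8 * W with hZ
  have hZn : z₀ ≤ ‖Z‖ := by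
    rw [hZ, norm_mul, norm_pow, hz₀, div_eq_mul_inv]
    have h7 : (3 / 10 : ℝ) ^ 8 ≤ ‖1 - s ^ 2‖ ^ 8 := by gcongr
    have h8 : (2 : ℝ)⁻¹ ≤ ‖W‖ := by linarith
    gcongr
  have hZpos : 0 < ‖Z‖ := hz₀pos.trans_le hZn
  have hMpos : 0 < ‖M‖ := by linarith
  have hΔ3 : Δ ≤ 3 * ‖t‖ := by
    have k1 : ‖t‖ ^ 6 ≤ ‖t‖ := by
      calc ‖t‖ ^ 6 ≤ ‖t‖ ^ 1 := pow_le_pow_of_le_one ht0 ht3 (by norm_num)
        _ = ‖t‖ := pow_one _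
    have k2 : ‖s‖ * ‖t‖ ^ 3 ≤ 1 * ‖t‖ := by
      have : ‖t‖ ^ 3 ≤ ‖t‖ := by
        calc ‖t‖ ^ 3 ≤ ‖t‖ ^ 1 := pow_le_pow_of_le_one ht0 ht3 (by norm_num)
          _ = ‖t‖ := pow_one _
      gcongr
    have k3 : ‖s‖ ^ 2 * ‖t‖ ≤ 1 * ‖t‖ := by
      have : ‖s‖ ^ 2 ≤ 1 := pow_le_one₀ hs0 hs1
      gcongr
    linarith
  have hsmall : C * Δ ≤ z₀ / 4 := by
    calc C * Δ ≤ C * (3 * (z₀ / (12 * C))) := by gcongr; linarith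
      _ = z₀ / 4 := by field_simp; ring
  have hNup : ‖N‖ ≤ ‖Z‖ * ‖M‖ + C * Δ := by
    have h7 : ‖N‖ ≤ ‖Z * M‖ + ‖N - Z * M‖ := by
      have := norm_add_le (Z * M) (N - Z * M)
      rwa [add_sub_cancel] at this
    rw [norm_mul] at h7
    linarith
  have hNlow : ‖Z‖ * ‖M‖ - C * Δ ≤ ‖N‖ := by
    have h7 : ‖Z * M‖ ≤ ‖N‖ + ‖N - Z * M‖ := by
      have := norm_sub_le N (N - Z * M)
      rwa [sub_sub_cancel] at this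
    rw [norm_mul] at h7
    linarith
  have hN0 : z₀ / 4 ≤ ‖N‖ := by
    have h7 : z₀ * (1 / 2) ≤ ‖Z‖ * ‖M‖ := by gcongr
    linarith
  refine ⟨hN0, hM1, hm2, ?_, ?_⟩
  · refine h6.trans ?_
    rw [le_div_iff₀ hz₀pos]
    have : z₀ ≤ 1 := by rw [hz₀]; norm_num
    nlinarith
  -- the logarithm
  have hNpos : 0 < ‖N‖ := by linarith
  have hlog1 : Real.log ‖N‖ - Real.log ‖M‖ ≤ Real.log ‖Z‖ + 2 * C / z₀ * Δ := by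
    rw [← Real.log_div hNpos.ne' hMpos.ne']
    have h7 : ‖N‖ / ‖M‖ ≤ ‖Z‖ * (1 + 2 * C / z₀ * Δ) := by
      rw [div_le_iff₀ hMpos]
      refine hNup.trans ?_
      have h8 : C * Δ ≤ ‖Z‖ * (2 * C / z₀ * Δ) * ‖M‖ := by
        calc C * Δ = z₀ * (2 * C / z₀ * Δ) * (1 / 2) := by field_simp
          _ ≤ ‖Z‖ * (2 * C / z₀ * Δ) * ‖M‖ := by gcongr
      linarith
    have h9 : 0 < 1 + 2 * C / z₀ * Δ := by positivity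
    calc Real.log (‖N‖ / ‖M‖) ≤ Real.log (‖Z‖ * (1 + 2 * C / z₀ * Δ)) :=
          Real.log_le_log (by positivity) h7
      _ = Real.log ‖Z‖ + Real.log (1 + 2 * C / z₀ * Δ) := Real.log_mul hZpos.ne' h9.ne'
      _ ≤ Real.log ‖Z‖ + 2 * C / z₀ * Δ := by
          have := Real.log_le_sub_one_of_pos h9
          linarith
  have hW0 : W ≠ 0 := by
    intro h0
    rw [h0, norm_zero] at hW1
    linarith
  have hv0 : 1 - s ^ 2 ≠ 0 := by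
    intro h0
    rw [h0, norm_zero] at hv
    linarith
  have hlogZ : Real.log ‖Z‖ ≤ -8 * (s ^ 2).re + 4 * ‖s‖ ^ 4 + ((W - 1).re + ‖W - 1‖ ^ 2 / 2) := by
    rw [hZ, norm_mul, norm_pow, Real.log_mul (by positivity) (by positivity), Real.log_pow]
    have h7 := ph_log_norm hW0
    have h8 := ph_log_norm hv0
    have h9 : (1 - s ^ 2 - 1) = - s ^ 2 := by ring
    rw [h9, Complex.neg_re, norm_neg, norm_pow] at h8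
    push_cast
    nlinarith
  linarith

end H6ea4aa
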