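import Pool.Agent.H.MP_6ea4aa_an.GreenM
import Pool.Agent.H.MP_3a36cd_an.SCV1

/-!
# MP_6ea4aa: the Boettcher coordinate `φ⁺` on `V⁺`, local structure of the Green functions
-/

set_option autoImplicit false

open Complex Set Filter Topology Metric MeasureTheory

namespace H6ea4aa

structure Phi (c b : ℂ) where
  φ : ℂ × ℂ → ℂ
  C : ℝ
  hC : 1 ≤ C
  diff : DifferentiableOn ℂ φ (VP c)
  ne : ∀ p ∈ VP c, φ p ≠ 0
  gp : ∀ p ∈ VP c, Gp c b p = Real.log ‖φ p‖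
  step : ∀ p ∈ VP c, φ (hen c b p) = φ p ^ 2
  est : ∀ p ∈ VP c, ‖φ p - p.1‖ ≤ C * (1 + ‖p.2‖) / ‖p.1‖

/-! ### auxiliary facts -/

theorem Phi_isOpen_VP (c : ℂ) : IsOpen (VP c) := by
  have h1 : IsOpen {p : ℂ × ℂ | 3 + ‖c‖ < ‖p.1‖} := isOpen_lt (by fun_prop) (by fun_prop)
  have h2 : IsOpen {p : ℂ × ℂ | ‖p.2‖ < ‖p.1‖} := isOpen_lt (by fun_prop) (by fun_prop)
  exact h1.inter h2

theorem Phi_iter (c b : ℂ) (hb : ‖b‖ = 1) {p : ℂ × ℂ} (hp : p ∈ VP c) (k : ℕ) :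
    (hen c b)^[k] p ∈ VP c ∧ 2 ^ k * ‖p.1‖ ≤ ‖((hen c b)^[k] p).1‖ := by
  induction k with
  | zero => simpa using hp
  | succ k ih =>
    rw [Function.iterate_succ_apply']
    obtain ⟨h1, h2⟩ := hen_VP c b hb ih.1
    refine ⟨h1, ?_⟩
    calc 2 ^ (k + 1) * ‖p.1‖ = 2 * (2 ^ k * ‖p.1‖) := by ring
      _ ≤ 2 * ‖((hen c b)^[k] p).1‖ := by linarith [ih.2]
      _ ≤ _ := h2

theorem Phi_VP_norm {c : ℂ} {p : ℂ × ℂ} (hp : p ∈ VP c) :
    3 < ‖p.1‖ ∧ 3 + ‖c‖ < ‖p.1‖ ∧ ‖p.2‖ < ‖p.1‖ := by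
  have := norm_nonneg c
  exact ⟨by linarith [hp.1], hp.1, hp.2⟩

/-- the relative error of one step -/
noncomputable def Phi_w (c b : ℂ) (p : ℂ × ℂ) : ℂ := (c - b * p.2) / p.1 ^ 2

theorem Phi_w_le (c b : ℂ) (hb : ‖b‖ = 1) (p : ℂ × ℂ) :
    ‖Phi_w c b p‖ ≤ (‖c‖ + ‖p.2‖) / ‖p.1‖ ^ 2 := by
  unfold Phi_w
  rw [norm_div, norm_pow]
  gcongr
  calc ‖c - b * p.2‖ ≤ ‖c‖ + ‖b * p.2‖ := norm_sub_le _ _
    _ = ‖c‖ + ‖p.2‖ := by rw [norm_mul, hb, one_mul]

theorem Phi_w_half (c b : ℂ) (hb : ‖b‖ = 1) {p : ℂ × ℂ} (hp : p ∈ VP c) :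
    ‖Phi_w c b p‖ ≤ 5 / 12 := by
  obtain ⟨h3, hR, hy⟩ := Phi_VP_norm hp
  refine (Phi_w_le c b hb p).trans ?_
  have hc := norm_nonneg c
  rw [div_le_iff₀ (by positivity)]
  nlinarith [mul_pos (show (0:ℝ) < ‖p.1‖ - 3 - ‖c‖ by linarith) (show (0:ℝ) < ‖p.1‖ by linarith),
    sq_nonneg (‖c‖ - 3)]

theorem Phi_one_add_ne (c b : ℂ) (hb : ‖b‖ = 1) {p : ℂ × ℂ} (hp : p ∈ VP c) :
    1 + Phi_w c b p ≠ 0 := by
  intro h
  have h1 : Phi_w c b p = -1 := by linear_combination h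
  have h2 := Phi_w_half c b hb hp
  rw [h1] at h2
  norm_num at h2

theorem Phi_hen_fst (c b : ℂ) {p : ℂ × ℂ} (hp : p ∈ VP c) :
    (hen c b p).1 = p.1 ^ 2 * (1 + Phi_w c b p) := by
  obtain ⟨h3, hR, hy⟩ := Phi_VP_norm hp
  have hx : p.1 ≠ 0 := by
    intro h
    rw [h, norm_zero] at h3
    linarith
  simp only [hen, Phi_w]
  field_simp
  ring

theorem Phi_hen_fst_le (c b : ℂ) (hb : ‖b‖ = 1) {p : ℂ × ℂ} (hp : p ∈ VP c) :
    7 / 12 * ‖p.1‖ ^ 2 ≤ ‖(hen c b p).1‖ := by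
  rw [Phi_hen_fst c b hp, norm_mul, norm_pow]
  have h1 : 7 / 12 ≤ ‖1 + Phi_w c b p‖ := by
    have := norm_sub_le (1 + Phi_w c b p) (Phi_w c b p)
    rw [add_sub_cancel_right, norm_one] at this
    linarith [Phi_w_half c b hb hp]
  nlinarith [sq_nonneg ‖p.1‖]

/-- the `k`-th term of the series -/
noncomputable def Phi_term (c b : ℂ) (k : ℕ) (p : ℂ × ℂ) : ℂ :=
  Complex.log (1 + Phi_w c b ((hen c b)^[k] p)) / 2 ^ (k + 1)

theorem Phi_iter_diff (c b : ℂ) (k : ℕ) : Differentiable ℂ ((hen c b)^[k]) := by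
  induction k with
  | zero => exact differentiable_id
  | succ k ih =>
    rw [Function.iterate_succ']
    exact (hen_differentiable c b).comp ih

theorem Phi_term_diff (c b : ℂ) (hb : ‖b‖ = 1) (k : ℕ) :
    DifferentiableOn ℂ (Phi_term c b k) (VP c) := by
  intro p hp
  obtain ⟨hk, -⟩ := Phi_iter c b hb hp k
  have hx : ((hen c b)^[k] p).1 ≠ 0 := by
    intro h
    have := (Phi_VP_norm hk).1
    rw [h, norm_zero] at this
    linarith
  have hnum : DifferentiableAt ℂ (fun q : ℂ × ℂ => c - b * q.2) ((hen c b)^[k] p) := by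
    fun_prop
  have hden : DifferentiableAt ℂ (fun q : ℂ × ℂ => q.1 ^ 2) ((hen c b)^[k] p) := by
    fun_prop
  have hne : ((hen c b)^[k] p).1 ^ 2 ≠ 0 := pow_ne_zero 2 hx
  have h1 : DifferentiableAt ℂ (Phi_w c b) ((hen c b)^[k] p) := by
    show DifferentiableAt ℂ (fun q : ℂ × ℂ => (c - b * q.2) / q.1 ^ 2) ((hen c b)^[k] p)
    simpa only [div_eq_mul_inv] using hnum.fun_mul (hden.fun_inv hne)
  have h2 : DifferentiableAt ℂ (fun q => 1 + Phi_w c b ((hen c b)^[k] q)) p :=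
    (h1.comp p (Phi_iter_diff c b k p)).const_add 1
  have h3 : 1 + Phi_w c b ((hen c b)^[k] p) ∈ slitPlane := by
    apply Complex.mem_slitPlane_of_norm_lt_one
    linarith [Phi_w_half c b hb hk]
  have h4 : DifferentiableAt ℂ
      (fun q => Complex.log (1 + Phi_w c b ((hen c b)^[k] q)) / 2 ^ (k + 1)) p := by
    simp only [div_eq_mul_inv]
    exact (h2.clog h3).mul_const _
  exact h4.differentiableWithinAt

theorem Phi_term_le (c b : ℂ) (hb : ‖b‖ = 1) (k : ℕ) {p : ℂ × ℂ} (hp : p ∈ VP c) {B : ℝ}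
    (hB : ‖Phi_w c b ((hen c b)^[k] p)‖ ≤ B) :
    ‖Phi_term c b k p‖ ≤ 3 / 2 * B * (1 / 2) ^ (k + 1) := by
  obtain ⟨hk, -⟩ := Phi_iter c b hb hp k
  have h1 := Phi_w_half c b hb hk
  have h2 := Complex.norm_log_one_add_half_le_self
    (z := Phi_w c b ((hen c b)^[k] p)) (by linarith)
  unfold Phi_term
  rw [norm_div, norm_pow]
  have h3 : ‖(2 : ℂ)‖ = 2 := by norm_num
  rw [h3, one_div, inv_pow, ← div_eq_mul_inv]
  gcongr
  linarith

theorem Phi_geom : Summable (fun k : ℕ => (3 / 2 * (5 / 12) * (1 / 2) ^ (k + 1) : ℝ)) := by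
  have h := (summable_geometric_two).mul_left (3 / 2 * (5 / 12) * (1 / 2) : ℝ)
  refine h.congr fun k => ?_
  ring

theorem Phi_tsum_geom (B : ℝ) : ∑' k : ℕ, (B * (1 / 2) ^ (k + 1) : ℝ) = B := by
  have h : (fun k : ℕ => (B * (1 / 2) ^ (k + 1) : ℝ)) = fun k => (B * (1 / 2)) * (1 / 2) ^ k := by
    funext k
    ring
  rw [h, tsum_mul_left, tsum_geometric_two]
  ring

theorem Phi_summable (c b : ℂ) (hb : ‖b‖ = 1) {p : ℂ × ℂ} (hp : p ∈ VP c) :
    Summable (fun k => Phi_term c b k p) :=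
  Summable.of_norm_bounded Phi_geom fun k =>
    Phi_term_le c b hb k hp (Phi_w_half c b hb (Phi_iter c b hb hp k).1)

noncomputable def Phi_S (c b : ℂ) (p : ℂ × ℂ) : ℂ := ∑' k, Phi_term c b k p

theorem Phi_S_diff (c b : ℂ) (hb : ‖b‖ = 1) : DifferentiableOn ℂ (Phi_S c b) (VP c) := by
  refine Pool.Agent.ParLeaf.scv_limit (Phi_isOpen_VP c)
    (f := fun (N : ℕ) p => ∑ k ∈ Finset.range N, Phi_term c b k p) (fun n => ?_)
    (tendstoUniformlyOn_tsum_nat Phi_geom fun k p hp =>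
      Phi_term_le c b hb k hp (Phi_w_half c b hb
        (Phi_iter c b hb hp k).1)).tendstoLocallyUniformlyOn
  exact DifferentiableOn.fun_sum fun k _ => Phi_term_diff c b hb k

theorem Phi_S_le (c b : ℂ) (hb : ‖b‖ = 1) {p : ℂ × ℂ} (hp : p ∈ VP c) {B : ℝ}
    (hB : ∀ k, ‖Phi_w c b ((hen c b)^[k] p)‖ ≤ B) : ‖Phi_S c b p‖ ≤ 3 / 2 * B := by
  have hs : Summable (fun k : ℕ => (3 / 2 * B * (1 / 2) ^ (k + 1) : ℝ)) := by
    have h := (summable_geometric_two).mul_left (3 / 2 * B * (1 / 2) : ℝ)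
    refine h.congr fun k => ?_
    ring
  have h1 := tsum_of_norm_bounded (f := fun k => Phi_term c b k p) hs.hasSum
    (fun k => Phi_term_le c b hb k hp (hB k))
  rwa [Phi_tsum_geom] at h1

theorem Phi_S_half (c b : ℂ) (hb : ‖b‖ = 1) {p : ℂ × ℂ} (hp : p ∈ VP c) :
    ‖Phi_S c b p‖ ≤ 5 / 8 := by
  have := Phi_S_le c b hb hp fun k => Phi_w_half c b hb (Phi_iter c b hb hp k).1
  linarith

theorem Phi_S_step (c b : ℂ) (hb : ‖b‖ = 1) {p : ℂ × ℂ} (hp : p ∈ VP c) :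
    Phi_S c b (hen c b p) = 2 * Phi_S c b p - Complex.log (1 + Phi_w c b p) := by
  have h1 : Phi_S c b p = Phi_term c b 0 p + ∑' k, Phi_term c b (k + 1) p :=
    (Phi_summable c b hb hp).tsum_eq_zero_add
  have h2 : Phi_S c b (hen c b p) = 2 * ∑' k, Phi_term c b (k + 1) p := by
    unfold Phi_S
    rw [← tsum_mul_left]
    congr 1
    funext k
    unfold Phi_term
    rw [← Function.iterate_succ_apply]
    field_simp
    ring
  have h3 : Phi_term c b 0 p = Complex.log (1 + Phi_w c b p) / 2 := by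
    simp [Phi_term]
  rw [h2, h1, h3]
  ring

/-- the Boettcher coordinate -/
noncomputable def Phi_phi (c b : ℂ) (p : ℂ × ℂ) : ℂ := p.1 * Complex.exp (Phi_S c b p)

theorem Phi_phi_step (c b : ℂ) (hb : ‖b‖ = 1) {p : ℂ × ℂ} (hp : p ∈ VP c) :
    Phi_phi c b (hen c b p) = Phi_phi c b p ^ 2 := by
  unfold Phi_phi
  rw [Phi_S_step c b hb hp, Phi_hen_fst c b hp, Complex.exp_sub,
    Complex.exp_log (Phi_one_add_ne c b hb hp), two_mul, Complex.exp_add]
  have := Phi_one_add_ne c b hb hp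
  field_simp

theorem Phi_phi_iter (c b : ℂ) (hb : ‖b‖ = 1) {p : ℂ × ℂ} (hp : p ∈ VP c) (n : ℕ) :
    Phi_phi c b ((hen c b)^[n] p) = Phi_phi c b p ^ (2 ^ n) := by
  induction n with
  | zero => simp
  | succ n ih =>
    rw [Function.iterate_succ_apply', Phi_phi_step c b hb (Phi_iter c b hb hp n).1, ih,
      ← pow_mul, pow_succ]

theorem Phi_phi_ne (c b : ℂ) {p : ℂ × ℂ} (hp : p ∈ VP c) : Phi_phi c b p ≠ 0 := by
  have h3 := (Phi_VP_norm hp).1
  have hx : p.1 ≠ 0 := by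
    intro h
    rw [h, norm_zero] at h3
    linarith
  exact mul_ne_zero hx (Complex.exp_ne_zero _)

theorem Phi_log_phi (c b : ℂ) (hb : ‖b‖ = 1) {p : ℂ × ℂ} (hp : p ∈ VP c) :
    |Real.log ‖Phi_phi c b p‖ - Real.log ‖p.1‖| ≤ 5 / 8 := by
  have h3 := (Phi_VP_norm hp).1
  unfold Phi_phi
  rw [norm_mul, Complex.norm_exp, Real.log_mul (by positivity) (by positivity), Real.log_exp,
    add_sub_cancel_left]
  exact (Complex.abs_re_le_norm _).trans (Phi_S_half c b hb hp)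

theorem Phi_Gp_iter (c b : ℂ) (hb : ‖b‖ = 1) (p : ℂ × ℂ) (n : ℕ) :
    Gp c b ((hen c b)^[n] p) = 2 ^ n * Gp c b p := by
  induction n with
  | zero => simp
  | succ n ih =>
    rw [Function.iterate_succ_apply', Gp_hen c b hb, ih]
    ring

theorem Phi_gp (c b : ℂ) (hb : ‖b‖ = 1) {p : ℂ × ℂ} (hp : p ∈ VP c) :
    Gp c b p = Real.log ‖Phi_phi c b p‖ := by
  obtain ⟨C, hC⟩ := Gp_VP c b hb
  set a : ℝ := Gp c b p - Real.log ‖Phi_phi c b p‖ with ha
  have key : ∀ n : ℕ, 2 ^ n * |a| ≤ |C| + 5 / 8 := by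
    intro n
    obtain ⟨hn, -⟩ := Phi_iter c b hb hp n
    set q := (hen c b)^[n] p with hq
    obtain ⟨h3, hR, hy⟩ := Phi_VP_norm hn
    have e1 : 2 ^ n * |a| = |Gp c b q - Real.log ‖Phi_phi c b q‖| := by
      rw [hq, Phi_Gp_iter c b hb, Phi_phi_iter c b hb hp, norm_pow, Real.log_pow, ha]
      rw [show (2 ^ n * Gp c b p - ((2 ^ n : ℕ) : ℝ) * Real.log ‖Phi_phi c b p‖) =
        2 ^ n * (Gp c b p - Real.log ‖Phi_phi c b p‖) by push_cast; ring]
      rw [abs_mul, abs_of_pos (by positivity : (0 : ℝ) < 2 ^ n)]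
    rw [e1]
    have h1 := (hC q hn).2
    have h2 := Phi_log_phi c b hb hn
    have h4 : C * (1 + ‖q.2‖) / ‖q.1‖ ^ 2 ≤ |C| := by
      rw [div_le_iff₀ (by positivity)]
      have : C * (1 + ‖q.2‖) ≤ |C| * (1 + ‖q.2‖) :=
        mul_le_mul_of_nonneg_right (le_abs_self C) (by positivity)
      have h5 : |C| * (1 + ‖q.2‖) ≤ |C| * ‖q.1‖ ^ 2 := by
        apply mul_le_mul_of_nonneg_left _ (abs_nonneg C)
        nlinarith
      linarith
    calc |Gp c b q - Real.log ‖Phi_phi c b q‖|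
        ≤ |Gp c b q - Real.log ‖q.1‖| + |Real.log ‖q.1‖ - Real.log ‖Phi_phi c b q‖| :=
          abs_sub_le _ _ _
      _ ≤ |C| + 5 / 8 := by
          rw [abs_sub_comm (Real.log ‖q.1‖)]
          linarith
  have ha0 : |a| = 0 := by
    by_contra h
    have hpos : 0 < |a| := lt_of_le_of_ne (abs_nonneg a) (Ne.symm h)
    obtain ⟨n, hn⟩ := pow_unbounded_of_one_lt ((|C| + 5 / 8) / |a|) (one_lt_two)
    rw [div_lt_iff₀ hpos] at hn
    linarith [key n]
  have := abs_eq_zero.mp ha0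
  linarith

theorem Phi_est (c b : ℂ) (hb : ‖b‖ = 1) {p : ℂ × ℂ} (hp : p ∈ VP c) :
    ‖Phi_phi c b p - p.1‖ ≤ 9 * (‖c‖ + 1) * (1 + ‖p.2‖) / ‖p.1‖ := by
  obtain ⟨h3, hR, hy⟩ := Phi_VP_norm hp
  have hc := norm_nonneg c
  have hy0 := norm_nonneg p.2
  set B : ℝ := 3 * (‖c‖ + 1) * (1 + ‖p.2‖) / ‖p.1‖ ^ 2 with hBdef
  have hB : ∀ k, ‖Phi_w c b ((hen c b)^[k] p)‖ ≤ B := by
    intro k
    rcases k with _ | k
    · refine (Phi_w_le c b hb p).trans ?_
      rw [hBdef]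
      gcongr
      nlinarith [mul_nonneg hc hy0]
    · obtain ⟨hk, hk2⟩ := Phi_iter c b hb hp k
      rw [Function.iterate_succ_apply']
      set q := (hen c b)^[k] p with hq
      obtain ⟨hq3, hqR, hqy⟩ := Phi_VP_norm hk
      have h1 := Phi_hen_fst_le c b hb hk
      have h2 : ‖p.1‖ ≤ ‖q.1‖ := by
        have : (1 : ℝ) ≤ 2 ^ k := one_le_pow₀ (by norm_num)
        nlinarith
      refine (Phi_w_le c b hb (hen c b q)).trans ?_
      have h4 : (hen c b q).2 = q.1 := rfl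
      rw [h4]
      have hpos : 0 < ‖q.1‖ := by linarith
      calc (‖c‖ + ‖q.1‖) / ‖(hen c b q).1‖ ^ 2
          ≤ ((‖c‖ + 1) * ‖q.1‖) / (7 / 12 * ‖q.1‖ ^ 2) ^ 2 := by
            gcongr
            nlinarith
        _ = (144 / 49) * (‖c‖ + 1) / (‖q.1‖ ^ 2 * ‖q.1‖) := by
            field_simp
            ring
        _ ≤ 3 * (‖c‖ + 1) * (1 + ‖p.2‖) / (‖p.1‖ ^ 2 * 1) := by
            refine div_le_div₀ (by positivity) ?_ (by positivity) ?_
            · nlinarith [mul_nonneg hc hy0]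
            · have : ‖p.1‖ ^ 2 ≤ ‖q.1‖ ^ 2 := by gcongr
              nlinarith [sq_nonneg ‖q.1‖]
        _ = B := by rw [hBdef, mul_one]
  have hS := Phi_S_le c b hb hp hB
  have h1 : Phi_phi c b p - p.1 = p.1 * (Complex.exp (Phi_S c b p) - 1) := by
    unfold Phi_phi
    ring
  rw [h1, norm_mul]
  have h2 := Complex.norm_exp_sub_one_le (x := Phi_S c b p)
    (by linarith [Phi_S_half c b hb hp])
  calc ‖p.1‖ * ‖Complex.exp (Phi_S c b p) - 1‖ ≤ ‖p.1‖ * (2 * (3 / 2 * B)) := by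
        gcongr
        linarith
    _ = 9 * (‖c‖ + 1) * (1 + ‖p.2‖) / ‖p.1‖ := by
        rw [hBdef]
        field_simp
        ring

theorem exists_phi (c b : ℂ) (hb : ‖b‖ = 1) : Nonempty (Phi c b) := by
  refine ⟨⟨Phi_phi c b, 9 * (‖c‖ + 1), ?_, ?_, fun p hp => Phi_phi_ne c b hp,
    fun p hp => Phi_gp c b hb hp, fun p hp => Phi_phi_step c b hb hp,
    fun p hp => Phi_est c b hb hp⟩⟩
  · nlinarith [norm_nonneg c]
  · unfold Phi_phi
    exact differentiable_fst.differentiableOn.mul (Phi_S_diff c b hb).cexp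

/-! ### the derivative of the Boettcher coordinate does not vanish -/

theorem Phi_iter_leftInv (c b : ℂ) (hb : ‖b‖ = 1) (n : ℕ) (p : ℂ × ℂ) :
    (henInv c b)^[n] ((hen c b)^[n] p) = p := by
  have hb0 : b ≠ 0 := by
    intro h
    rw [h, norm_zero] at hb
    norm_num at hb
  exact Function.LeftInverse.iterate (henInv_hen c b hb0) n p

theorem Phi_iter_rightInv (c b : ℂ) (hb : ‖b‖ = 1) (n : ℕ) (p : ℂ × ℂ) :
    (hen c b)^[n] ((henInv c b)^[n] p) = p := by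
  have hb0 : b ≠ 0 := by
    intro h
    rw [h, norm_zero] at hb
    norm_num at hb
  exact Function.LeftInverse.iterate (hen_henInv c b hb0) n p

theorem Phi_iterInv_diff (c b : ℂ) (k : ℕ) : Differentiable ℂ ((henInv c b)^[k]) := by
  induction k with
  | zero => exact differentiable_id
  | succ k ih =>
    rw [Function.iterate_succ']
    exact (henInv_differentiable c b).comp ih

/-- if the derivative of `g ∘ f^n` vanishes at `p` then the derivative of `g` vanishes at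
`f^n p` -/
theorem Phi_fderiv_zero (c b : ℂ) (hb : ‖b‖ = 1) (n : ℕ) {g : ℂ × ℂ → ℂ} {p : ℂ × ℂ}
    (hg : DifferentiableAt ℂ g ((hen c b)^[n] p))
    (h : fderiv ℂ (fun z => g ((hen c b)^[n] z)) p = 0) :
    fderiv ℂ g ((hen c b)^[n] p) = 0 := by
  set q := (hen c b)^[n] p with hq
  have hinv : (henInv c b)^[n] q = p := Phi_iter_leftInv c b hb n p
  have h1 : g = (fun z => g ((hen c b)^[n] z)) ∘ ((henInv c b)^[n]) := by
    funext z
    simp only [Function.comp_apply]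
    rw [Phi_iter_rightInv c b hb]
  have h2 : DifferentiableAt ℂ (fun z => g ((hen c b)^[n] z)) ((henInv c b)^[n] q) := by
    rw [hinv]
    exact DifferentiableAt.comp p hg (Phi_iter_diff c b n p)
  rw [h1, fderiv_comp q h2 (Phi_iterInv_diff c b n q), hinv, h, ContinuousLinearMap.zero_comp]

theorem Phi_deriv_ne (c b : ℂ) (hb : ‖b‖ = 1) (Φ : Phi c b) {p : ℂ × ℂ} (hp : p ∈ VP c) :
    fderiv ℂ Φ.φ p ≠ 0 := by
  intro h0
  have hstep : ∀ n : ℕ, ∀ q ∈ VP c, Φ.φ ((hen c b)^[n] q) = Φ.φ q ^ (2 ^ n) := by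
    intro n
    induction n with
    | zero => intro q _; simp
    | succ n ih =>
      intro q hq
      rw [Function.iterate_succ_apply', Φ.step _ (Phi_iter c b hb hq n).1, ih q hq,
        ← pow_mul, pow_succ]
  have hd : ∀ q ∈ VP c, DifferentiableAt ℂ Φ.φ q := fun q hq =>
    (Φ.diff q hq).differentiableAt ((Phi_isOpen_VP c).mem_nhds hq)
  have hzero : ∀ n : ℕ, fderiv ℂ Φ.φ ((hen c b)^[n] p) = 0 := by
    intro n
    refine Phi_fderiv_zero c b hb n (hd _ (Phi_iter c b hb hp n).1) ?_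
    have he : (fun z => Φ.φ ((hen c b)^[n] z)) =ᶠ[𝓝 p] (fun z => Φ.φ z ^ (2 ^ n)) := by
      filter_upwards [(Phi_isOpen_VP c).mem_nhds hp] with z hz
      exact hstep n z hz
    rw [he.fderiv_eq, fderiv_fun_pow _ (hd p hp), h0]
    ext <;> simp
  -- choose a far point of the orbit
  obtain ⟨h3, hR, hy⟩ := Phi_VP_norm hp
  obtain ⟨k, hk⟩ := pow_unbounded_of_one_lt (4 * Φ.C) (one_lt_two)
  obtain ⟨hk1, hk2⟩ := Phi_iter c b hb hp k
  set q := (hen c b)^[k] p with hq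
  obtain ⟨hq3, hqR, hqy⟩ := Phi_VP_norm hk1
  have hC := Φ.hC
  have ht : 4 * Φ.C ≤ ‖q.1‖ := by nlinarith
  set s := hen c b q with hs
  have hs2 : s.2 = q.1 := rfl
  have hs1 : 7 / 12 * ‖q.1‖ ^ 2 ≤ ‖s.1‖ := Phi_hen_fst_le c b hb hk1
  have hs1' : 2 * ‖q.1‖ ≤ ‖s.1‖ := (hen_VP c b hb hk1).2
  have hz : fderiv ℂ Φ.φ s = 0 := by
    have := hzero (k + 1)
    rwa [Function.iterate_succ_apply'] at this
  -- the polydisc around `s`
  have hin : ∀ ζ ∈ closedBall (0 : ℂ) 1, (s.1 + ζ, s.2) ∈ VP c := by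
    intro ζ hζ
    rw [mem_closedBall, dist_zero_right] at hζ
    have h1 : ‖s.1‖ - 1 ≤ ‖s.1 + ζ‖ := by
      have := norm_sub_le (s.1 + ζ) ζ
      rw [add_sub_cancel_right] at this
      linarith
    refine ⟨?_, ?_⟩
    · show 3 + ‖c‖ < ‖s.1 + ζ‖
      linarith
    · show ‖s.2‖ < ‖s.1 + ζ‖
      rw [hs2]
      linarith
  set g : ℂ → ℂ := fun ζ => Φ.φ (s.1 + ζ, s.2) - (s.1 + ζ) with hg
  have hgd : ∀ ζ ∈ closedBall (0 : ℂ) 1, DifferentiableAt ℂ g ζ := by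
    intro ζ hζ
    have h1 : DifferentiableAt ℂ (fun ζ : ℂ => ((s.1 + ζ, s.2) : ℂ × ℂ)) ζ := by fun_prop
    have h2 : DifferentiableAt ℂ (fun ζ : ℂ => Φ.φ (s.1 + ζ, s.2)) ζ :=
      DifferentiableAt.comp ζ (hd _ (hin ζ hζ)) h1
    exact h2.sub (by fun_prop)
  have hgb : ∀ ζ ∈ sphere (0 : ℂ) 1, ‖g ζ‖ ≤ Φ.C * (1 + ‖q.1‖) / (‖s.1‖ - 1) := by
    intro ζ hζ
    have hζ' : ζ ∈ closedBall (0 : ℂ) 1 := sphere_subset_closedBall hζ
    have hV := hin ζ hζ'
    have h1 : ‖s.1‖ - 1 ≤ ‖s.1 + ζ‖ := by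
      have := norm_sub_le (s.1 + ζ) ζ
      rw [add_sub_cancel_right] at this
      rw [mem_closedBall, dist_zero_right] at hζ'
      linarith
    refine (Φ.est _ hV).trans ?_
    show Φ.C * (1 + ‖s.2‖) / ‖s.1 + ζ‖ ≤ _
    rw [hs2]
    have : 0 < ‖s.1‖ - 1 := by linarith
    gcongr
  have hdc : DiffContOnCl ℂ g (ball 0 1) :=
    DifferentiableOn.diffContOnCl_ball (U := closedBall (0 : ℂ) 1)
      (fun ζ hζ => (hgd ζ hζ).differentiableWithinAt) subset_rfl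
  have hcauchy := Complex.norm_deriv_le_of_forall_mem_sphere_norm_le one_pos hdc hgb
  have hderiv : deriv g 0 = -1 := by
    have h1 : HasDerivAt (fun ζ : ℂ => ((s.1 + ζ, s.2) : ℂ × ℂ)) ((1 : ℂ), (0 : ℂ)) 0 :=
      ((hasDerivAt_id (0 : ℂ)).const_add s.1).prodMk (hasDerivAt_const _ _)
    have h2 : HasFDerivAt Φ.φ (fderiv ℂ Φ.φ s) ((s.1 + (0 : ℂ), s.2) : ℂ × ℂ) := by
      have h5 : ((s.1 + (0 : ℂ), s.2) : ℂ × ℂ) = s := by rw [add_zero]
      rw [h5]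
      have h4 := hin 0 (by simp)
      rw [h5] at h4
      exact (hd s h4).hasFDerivAt
    have h3 := h2.comp_hasDerivAt (0 : ℂ) h1
    rw [hz] at h3
    have h4 : HasDerivAt (fun ζ : ℂ => s.1 + ζ) 1 0 := (hasDerivAt_id (0 : ℂ)).const_add s.1
    have h6 : HasDerivAt g _ 0 := h3.sub h4
    rw [h6.deriv]
    simp
  rw [hderiv, norm_neg, norm_one, div_one, le_div_iff₀ (by linarith)] at hcauchy
  nlinarith

/-! ### local structure of the Green functions -/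

/-- where positive, `G⁺` is locally the real part of a holomorphic function with nonzero
derivative -/
theorem Gp_locRe2 (c b : ℂ) (hb : ‖b‖ = 1) {p : ℂ × ℂ} (hp : 0 < Gp c b p) :
    ∃ r > 0, ∃ F : ℂ × ℂ → ℂ, DifferentiableOn ℂ F (ball p r) ∧
      (∀ q ∈ ball p r, Gp c b q = (F q).re) ∧ fderiv ℂ F p ≠ 0 := by
  obtain ⟨Φ⟩ := exists_phi c b hb
  obtain ⟨n, hn⟩ := exists_VP c b hb hp
  set q := (hen c b)^[n] p with hq
  have hd : ∀ q ∈ VP c, DifferentiableAt ℂ Φ.φ q := fun q hq =>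
    (Φ.diff q hq).differentiableAt ((Phi_isOpen_VP c).mem_nhds hq)
  have hne : Φ.φ q ≠ 0 := Φ.ne q hn
  -- the quotient
  set W : ℂ × ℂ → ℂ := fun z => Φ.φ ((hen c b)^[n] z) / Φ.φ q with hW
  have hWp : W p = 1 := by
    rw [hW]
    exact div_self hne
  have hcont : ContinuousAt W p :=
    ((hd q hn).continuousAt.comp (Phi_iter_diff c b n p).continuousAt).div_const _
  have hU : ∀ᶠ z in 𝓝 p, (hen c b)^[n] z ∈ VP c ∧ W z ∈ slitPlane := by
    refine ((Phi_iter_diff c b n).continuous.continuousAt.eventually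
      ((Phi_isOpen_VP c).mem_nhds hn)).and ?_
    refine hcont.eventually (isOpen_slitPlane.mem_nhds ?_)
    rw [hWp]
    exact one_mem_slitPlane
  obtain ⟨r, hr, hball⟩ := Metric.eventually_nhds_iff_ball.mp hU
  have hWd : ∀ z ∈ ball p r, DifferentiableAt ℂ W z := by
    intro z hz
    have h1 : DifferentiableAt ℂ (fun z => Φ.φ ((hen c b)^[n] z)) z :=
      DifferentiableAt.comp z (hd _ (hball z hz).1) (Phi_iter_diff c b n z)
    simpa only [hW, div_eq_mul_inv] using h1.mul_const (Φ.φ q)⁻¹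
  set F : ℂ × ℂ → ℂ := fun z => (Complex.log (W z) + (Real.log ‖Φ.φ q‖ : ℂ)) * (1 / 2 ^ n)
    with hF
  have hFd : ∀ z ∈ ball p r, DifferentiableAt ℂ F z := by
    intro z hz
    exact (((hWd z hz).clog (hball z hz).2).add_const _).mul_const _
  refine ⟨r, hr, F, fun z hz => (hFd z hz).differentiableWithinAt, ?_, ?_⟩
  · intro z hz
    have h1 := (hball z hz).1
    have h2 : Gp c b ((hen c b)^[n] z) = Real.log ‖Φ.φ ((hen c b)^[n] z)‖ := Φ.gp _ h1
    rw [Phi_Gp_iter c b hb] at h2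
    have h3 : (1 / 2 ^ n : ℂ) = ((1 / 2 ^ n : ℝ) : ℂ) := by push_cast; rfl
    rw [hF]
    simp only
    rw [h3, Complex.re_mul_ofReal, Complex.add_re, Complex.ofReal_re, Complex.log_re]
    have h4 : ‖W z‖ = ‖Φ.φ ((hen c b)^[n] z)‖ / ‖Φ.φ q‖ := norm_div _ _
    rw [h4, Real.log_div (norm_ne_zero_iff.mpr (Φ.ne _ h1)) (norm_ne_zero_iff.mpr hne),
      ← h2]
    field_simp
    ring
  · intro h0
    have hp' : p ∈ ball p r := mem_ball_self hr
    have h1 : HasFDerivAt W (fderiv ℂ W p) p := (hWd p hp').hasFDerivAt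
    have h2 : HasFDerivAt F ((1 / 2 ^ n : ℂ) • ((W p)⁻¹ • fderiv ℂ W p)) p := by
      have h3 := ((h1.clog (hball p hp').2).add_const (Real.log ‖Φ.φ q‖ : ℂ)).mul_const
        (1 / 2 ^ n : ℂ)
      exact h3
    rw [h2.fderiv, hWp, inv_one, one_smul] at h0
    have h4 : fderiv ℂ W p = 0 := by
      refine ContinuousLinearMap.ext fun v => ?_
      have h6 := congrArg (fun L : ℂ × ℂ →L[ℂ] ℂ => L v) h0
      simpa using h6
    have h5 : fderiv ℂ (fun z => Φ.φ ((hen c b)^[n] z)) p = 0 := by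
      have e : (fun z => Φ.φ ((hen c b)^[n] z)) = fun z => W z * Φ.φ q := by
        funext z
        rw [hW]
        field_simp
      rw [e, fderiv_mul_const (hWd p hp'), h4]
      ext <;> simp
    exact Phi_deriv_ne c b hb Φ hn (Phi_fderiv_zero c b hb n (hd q hn) h5)

theorem Gm_locRe2 (c b : ℂ) (hb : ‖b‖ = 1) {p : ℂ × ℂ} (hp : 0 < Gm c b p) :
    ∃ r > 0, ∃ F : ℂ × ℂ → ℂ, DifferentiableOn ℂ F (ball p r) ∧
      (∀ q ∈ ball p r, Gm c b q = (F q).re) ∧ fderiv ℂ F p ≠ 0 := by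
  have hb0 : b ≠ 0 := by
    intro h
    rw [h, norm_zero] at hb
    norm_num at hb
  have hb' : ‖1 / b‖ = 1 := by rw [norm_div, norm_one, hb, div_one]
  set τ : ℂ × ℂ → ℂ × ℂ := fun z => (z.2 / b, z.1 / b) with hτ
  set σ : ℂ × ℂ → ℂ × ℂ := fun z => (z.2 * b, z.1 * b) with hσ
  have hτσ : ∀ z, τ (σ z) = z := by
    intro z
    simp only [hτ, hσ]
    ext <;> simp [hb0]
  have hστ : ∀ z, σ (τ z) = z := by
    intro z
    simp only [hτ, hσ]
    ext <;> simp [hb0]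
  have hτd : Differentiable ℂ τ := by
    rw [hτ]
    fun_prop
  have hσd : Differentiable ℂ σ := by
    rw [hσ]
    fun_prop
  have hdist : ∀ z w, dist (τ z) (τ w) = dist z w := by
    intro z w
    rw [Prod.dist_eq, Prod.dist_eq]
    have h1 : dist (τ z).1 (τ w).1 = dist z.2 w.2 := by
      show dist (z.2 / b) (w.2 / b) = _
      rw [dist_eq_norm, dist_eq_norm, ← sub_div, norm_div, hb, div_one]
    have h2 : dist (τ z).2 (τ w).2 = dist z.1 w.1 := by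
      show dist (z.1 / b) (w.1 / b) = _
      rw [dist_eq_norm, dist_eq_norm, ← sub_div, norm_div, hb, div_one]
    rw [h1, h2, max_comm]
  obtain ⟨r, hr, F, hF1, hF2, hF3⟩ := Gp_locRe2 (c / b ^ 2) (1 / b) hb' (p := τ p) hp
  have hmaps : ∀ z ∈ ball p r, τ z ∈ ball (τ p) r := by
    intro z hz
    rw [mem_ball, hdist]
    exact hz
  refine ⟨r, hr, fun z => F (τ z), ?_, ?_, ?_⟩
  · exact hF1.comp hτd.differentiableOn hmaps
  · intro z hz
    exact hF2 _ (hmaps z hz)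
  · intro h0
    apply hF3
    have h1 : F = (fun z => F (τ z)) ∘ σ := by
      funext z
      simp only [Function.comp_apply]
      rw [hτσ]
    have h2 : DifferentiableAt ℂ (fun z => F (τ z)) (σ (τ p)) := by
      rw [hστ]
      exact DifferentiableAt.comp p
        ((hF1 _ (mem_ball_self hr)).differentiableAt (ball_mem_nhds _ hr)) (hτd p)
    rw [h1, fderiv_comp (τ p) h2 (hσd _), hστ, h0, ContinuousLinearMap.zero_comp]

end H6ea4aa
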