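import Pool.Agent.H.MP_6ea4aa_an.Fam
import Pool.Agent.H.MP_6ea4aa_an.LowerB
import Pool.Agent.H.MP_6ea4aa_an.Mono
import Pool.Agent.H.MP_6ea4aa_an.Util2

/-!
# MP_6ea4aa: the mean minimal energy tends to zero
-/

set_option autoImplicit false

open Complex Set Filter Topology Metric MeasureTheory

namespace H6ea4aa

/-- energy of an `N`-tuple of functions at `w` -/
noncomputable def Enr (N : ℕ) (α : Fin N → ℂ → ℂ) (w : ℂ) : ℝ :=
  -(1 / (N : ℝ) ^ 2) * ∑ i, ∑ j, Real.log ‖α i w - α j w‖ + w.re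

/-- energies of the injective `N`-tuples of graphs -/
def EF {c b : ℂ} {Ch : Chart c b} {W : Win Ch} (Fm : Fam W) (N : ℕ) : Set (ℂ → ℝ) :=
  {h | ∃ α : Fin N → ℂ → ℂ, (∀ i, α i ∈ Fm.Γ) ∧ Function.Injective α ∧ h = Enr N α}

/-! ### local real parts -/

theorem small_locRe_log {f : ℂ → ℂ} {w : ℂ} (hf : AnalyticAt ℂ f w) (h0 : f w ≠ 0) :
    LocRe (fun z => Real.log ‖f z‖) w :=
  util2_locRe (hf.harmonicAt_log_norm h0)

theorem small_locRe_const (a : ℝ) (w : ℂ) : LocRe (fun _ => a) w :=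
  ⟨1, one_pos, fun _ => (a : ℂ), differentiableOn_const _, fun _ _ => by simp⟩

theorem small_locRe_re (w : ℂ) : LocRe (fun z => z.re) w :=
  ⟨1, one_pos, fun z => z, differentiableOn_id, fun _ _ => rfl⟩

theorem small_locRe_sum {ι : Type} (s : Finset ι) (f : ι → ℂ → ℝ) (w : ℂ)
    (h : ∀ i ∈ s, LocRe (f i) w) : LocRe (fun z => ∑ i ∈ s, f i z) w := by
  classical
  induction s using Finset.induction_on with
  | empty => simpa using small_locRe_const 0 w
  | insert a s ha ih =>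
    simp only [Finset.sum_insert ha]
    exact Util_locRe_add (h a (Finset.mem_insert_self _ _))
      (ih fun i hi => h i (Finset.mem_insert_of_mem hi))

theorem small_isOpen_RHP : IsOpen RHP := isOpen_lt continuous_const Complex.continuous_re

variable {c b : ℂ} {Ch : Chart c b} {W : Win Ch}

theorem small_S_pos (W : Win Ch) : 1 ≤ W.S := Ch.hS.trans W.hS

theorem small_locRe_Enr (Fm : Fam W) {N : ℕ} {α : Fin N → ℂ → ℂ} (hα : ∀ i, α i ∈ Fm.Γ)
    (hinj : Function.Injective α) {w : ℂ} (hw : w ∈ RHP) : LocRe (Enr N α) w := by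
  unfold Enr
  refine Util_locRe_add (Util_locRe_const_mul ?_ _) (small_locRe_re w)
  refine small_locRe_sum _ _ _ fun i _ => small_locRe_sum _ _ _ fun j _ => ?_
  by_cases hij : i = j
  · subst hij
    simpa using small_locRe_const 0 w
  · have hd : DifferentiableOn ℂ (fun z => α i z - α j z) RHP :=
      (Fm.diff _ (hα i)).sub (Fm.diff _ (hα j))
    refine small_locRe_log (hd.analyticAt (small_isOpen_RHP.mem_nhds hw)) ?_
    intro h
    exact hij (hinj (Fm.uniq _ (hα i) _ (hα j) w hw (sub_eq_zero.1 h)))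

theorem small_injective_of_eval (Fm : Fam W) {N : ℕ} {α : Fin N → ℂ → ℂ}
    (hα : ∀ i, α i ∈ Fm.Γ) (hinj : Function.Injective α) {w : ℂ} (hw : w ∈ RHP) :
    Function.Injective fun i => α i w := fun i j h =>
  hinj (Fm.uniq _ (hα i) _ (hα j) w hw h)

theorem small_shift_mem {w : ℂ} (hw : w ∈ RHP) (t : ℝ) : w + t * I ∈ RHP := by
  simpa [RHP] using hw

theorem small_hyp (hb : ‖b‖ = 1) (Fm : Fam W) : ∃ B : ℝ, ∀ N : ℕ, 0 < N →
    (∀ h ∈ EF Fm N, ∀ w : ℂ, W.S < w.re → LocRe h w) ∧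
    (∀ h ∈ EF Fm N, ∀ w : ℂ, W.S < w.re → -B ≤ h w) ∧
    (∀ h ∈ EF Fm N, ∃ h' ∈ EF Fm N, ∀ w : ℂ, W.S < w.re → h' w = h (w + 2 * Real.pi * I)) ∧
    (∀ h ∈ EF Fm N, ∃ h' ∈ EF Fm N, ∀ w : ℂ, W.S < w.re → h' w = h (w - 2 * Real.pi * I)) := by
  obtain ⟨B, hB⟩ := lower_bound hb W
  have hS := small_S_pos W
  have hpos : ∀ w : ℂ, W.S < w.re → w ∈ RHP := fun w hw => by
    show 0 < w.re
    linarith
  refine ⟨B, fun N hN => ⟨?_, ?_, ?_, ?_⟩⟩
  · rintro h ⟨α, hα, hinj, rfl⟩ w hw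
    exact small_locRe_Enr Fm hα hinj (hpos w hw)
  · rintro h ⟨α, hα, hinj, rfl⟩ w hw
    have h1 := hB N w (fun i => α i w) hw
      (fun i => ⟨Fm.zero _ (hα i) w (hpos w hw), Fm.win _ (hα i) w hw⟩)
      (small_injective_of_eval Fm hα hinj (hpos w hw))
    have hN2 : (0 : ℝ) < (N : ℝ) ^ 2 := by positivity
    have h2 : (1 / (N : ℝ) ^ 2) * (∑ i, ∑ j, Real.log ‖α i w - α j w‖) ≤ w.re + B := by
      rw [one_div, inv_mul_le_iff₀ hN2]
      exact h1
    unfold Enr
    linarith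
  · rintro h ⟨α, hα, hinj, rfl⟩
    choose t ht ht' using fun i => Fm.shift (α i) (hα i)
    have key : ∀ w : ℂ, w ∈ RHP → Enr N t w = Enr N α (w + 2 * Real.pi * I) := by
      intro w hw
      unfold Enr
      simp [ht' _ w hw]
    refine ⟨Enr N t, ⟨t, ht, ?_, rfl⟩, fun w hw => key w (hpos w hw)⟩
    intro i j hij
    have h1 : (1 : ℂ) ∈ RHP := by simp [RHP]
    have h2 : (1 : ℂ) + 2 * Real.pi * I ∈ RHP := by simp [RHP]
    refine hinj (Fm.uniq _ (hα i) _ (hα j) _ h2 ?_)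
    rw [← ht' i 1 h1, ← ht' j 1 h1, hij]
  · rintro h ⟨α, hα, hinj, rfl⟩
    choose t ht ht' using fun i => Fm.shift' (α i) (hα i)
    have key : ∀ w : ℂ, w ∈ RHP → Enr N t w = Enr N α (w - 2 * Real.pi * I) := by
      intro w hw
      unfold Enr
      simp [ht' _ w hw]
    refine ⟨Enr N t, ⟨t, ht, ?_, rfl⟩, fun w hw => key w (hpos w hw)⟩
    intro i j hij
    have h1 : (1 : ℂ) ∈ RHP := by simp [RHP]
    have h2 : (1 : ℂ) - 2 * Real.pi * I ∈ RHP := by simp [RHP]
    refine hinj (Fm.uniq _ (hα i) _ (hα j) _ h2 ?_)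
    rw [← ht' i 1 h1, ← ht' j 1 h1, hij]

theorem small_log_half (hb : ‖b‖ = 1) (z : ℂ) :
    Real.log ‖z‖ - Real.log 2 ≤ Real.log ‖(b / 2) * z‖ := by
  have h2 : 0 < Real.log 2 := Real.log_pos one_lt_two
  by_cases hz : z = 0
  · subst hz
    simp
    exact h2.le
  · have : ‖(b / 2) * z‖ = ‖z‖ / 2 := by
      rw [norm_mul, norm_div, hb]
      simp
      ring
    rw [this, Real.log_div (norm_ne_zero_iff.2 hz) two_ne_zero]

theorem small_exp3 (w : ℂ) : exp (3 * (w + Real.pi * I)) = -exp (3 * w) := by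
  have h : exp (3 * (Real.pi * I)) = -1 := by
    rw [show (3 : ℂ) * (Real.pi * I) = ((3 : ℕ) : ℂ) * (Real.pi * I) by norm_num, Complex.exp_nat_mul,
      Complex.exp_pi_mul_I]
    norm_num
  rw [mul_add, Complex.exp_add, h]
  ring

/-- cross terms -/
theorem small_cross (hb : ‖b‖ = 1) (Fm : Fam W) {s t : ℂ → ℂ} (hs : s ∈ Fm.Γ) (ht : t ∈ Fm.Γ)
    {w : ℂ} (hw : W.S < w.re) (hD : (Ch.C + W.C / 2) * Real.exp (-w.re) ≤ 1 / 2) :
    Real.log 2 + 3 * w.re - 2 * ((Ch.C + W.C / 2) * Real.exp (-w.re)) ≤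
      Real.log ‖((b / 2) * s w + Ch.κ w) -
        ((b / 2) * t (w + Real.pi * I) + Ch.κ (w + Real.pi * I))‖ := by
  set x := w.re with hx
  have hS := small_S_pos W
  have hx0 : 0 ≤ x := by linarith
  have hre : (w + Real.pi * I).re = x := by simp [hx]
  have hC := W.hC
  have hC' := Ch.hC
  set D := Ch.C + W.C / 2 with hDdef
  have hDpos : 0 < D := by rw [hDdef]; linarith
  have k1 := Ch.κ_lead w (by rw [← hx]; exact hx0)
  have k2 := Ch.κ_lead (w + Real.pi * I) (by rw [hre]; exact hx0)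
  rw [hre, small_exp3] at k2
  rw [← hx] at k1
  have a1 := Fm.win s hs w hw
  have a2 := Fm.win t ht (w + Real.pi * I) (by rw [hre]; exact hw)
  rw [hre] at a2
  rw [← hx] at a1
  have e1 : Real.exp (3 / 2 * x) ≤ Real.exp (2 * x) := Real.exp_le_exp.2 (by linarith)
  have hn3 : ‖2 * exp (3 * w)‖ = 2 * Real.exp (3 * x) := by
    rw [norm_mul, Complex.norm_exp]
    simp [hx]
  set E := ((b / 2) * s w + Ch.κ w) -
        ((b / 2) * t (w + Real.pi * I) + Ch.κ (w + Real.pi * I)) with hE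
  have hEeq : 2 * exp (3 * w) = E - (Ch.κ w - exp (3 * w)) +
      (Ch.κ (w + Real.pi * I) - -exp (3 * w)) - (b / 2) * s w +
      (b / 2) * t (w + Real.pi * I) := by
    rw [hE]; ring
  have hb2 : ‖b / 2‖ = 1 / 2 := by rw [norm_div, hb]; simp
  have hnorm : 2 * Real.exp (3 * x) ≤ ‖E‖ + 2 * (D * Real.exp (2 * x)) := by
    rw [← hn3, hEeq]
    have t1 : ‖E - (Ch.κ w - exp (3 * w)) + (Ch.κ (w + Real.pi * I) - -exp (3 * w)) -
        (b / 2) * s w + (b / 2) * t (w + Real.pi * I)‖ ≤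
        ‖E‖ + ‖Ch.κ w - exp (3 * w)‖ + ‖Ch.κ (w + Real.pi * I) - -exp (3 * w)‖ +
        ‖(b / 2) * s w‖ + ‖(b / 2) * t (w + Real.pi * I)‖ := by
      refine (norm_add_le _ _).trans (add_le_add_left ((norm_sub_le _ _).trans
        (add_le_add_left ((norm_add_le _ _).trans (add_le_add_left (norm_sub_le _ _) _)) _)) _)
    have t2 : ‖(b / 2) * s w‖ ≤ 1 / 2 * (W.C * Real.exp (2 * x)) := by
      rw [norm_mul, hb2]
      have : W.C * Real.exp (3 / 2 * x) ≤ W.C * Real.exp (2 * x) :=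
        mul_le_mul_of_nonneg_left e1 (by linarith)
      linarith
    have t3 : ‖(b / 2) * t (w + Real.pi * I)‖ ≤ 1 / 2 * (W.C * Real.exp (2 * x)) := by
      rw [norm_mul, hb2]
      have : W.C * Real.exp (3 / 2 * x) ≤ W.C * Real.exp (2 * x) :=
        mul_le_mul_of_nonneg_left e1 (by linarith)
      linarith
    have t4 : 2 * (D * Real.exp (2 * x)) = Ch.C * Real.exp (2 * x) + Ch.C * Real.exp (2 * x) +
        1 / 2 * (W.C * Real.exp (2 * x)) + 1 / 2 * (W.C * Real.exp (2 * x)) := by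
      rw [hDdef]; ring
    linarith
  have hexp : Real.exp (2 * x) = Real.exp (3 * x) * Real.exp (-x) := by
    rw [← Real.exp_add]; congr 1; ring
  set τ := D * Real.exp (-x) with hτ
  have hτ0 : 0 < τ := by positivity
  have hlow : 2 * Real.exp (3 * x) * (1 - τ) ≤ ‖E‖ := by
    have : 2 * (D * Real.exp (2 * x)) = 2 * Real.exp (3 * x) * τ := by
      rw [hexp, hτ]; ring
    linarith
  have hpos : 0 < 2 * Real.exp (3 * x) * (1 - τ) := by
    have : 0 < 1 - τ := by linarith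
    positivity
  have h1 : Real.log (2 * Real.exp (3 * x) * (1 - τ)) ≤ Real.log ‖E‖ :=
    Real.log_le_log hpos hlow
  have h2 : Real.log (2 * Real.exp (3 * x) * (1 - τ)) =
      Real.log 2 + 3 * x + Real.log (1 - τ) := by
    rw [Real.log_mul (by positivity) (by linarith), Real.log_mul two_ne_zero
      (Real.exp_pos _).ne', Real.log_exp]
  have h3 : -(2 * τ) ≤ Real.log (1 - τ) := by
    have h4 := Real.one_sub_inv_le_log_of_pos (x := 1 - τ) (by linarith)
    have h5 : -(2 * τ) ≤ 1 - (1 - τ)⁻¹ := by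
      have h6 : 0 < 1 - τ := by linarith
      have h7 : (1 - τ)⁻¹ ≤ 1 + 2 * τ := by
        rw [inv_le_comm₀ h6 (by positivity)]
        rw [inv_le_iff_one_le_mul₀ (by positivity)]
        nlinarith
      linarith
    linarith
  linarith

/-- doubling of tuples -/
theorem small_double (hb : ‖b‖ = 1) (Fm : Fam W) {N : ℕ} (hN : 0 < N)
    {α β : Fin N → ℂ → ℂ} (hα : ∀ i, α i ∈ Fm.Γ) (hαi : Function.Injective α)
    (hβ : ∀ i, β i ∈ Fm.Γ) (hβi : Function.Injective β) {S₁ : ℝ} (hS₁ : W.S ≤ S₁)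
    (hD : ∀ x : ℝ, S₁ < x → (Ch.C + W.C / 2) * Real.exp (-x) ≤ 1 / 2) :
    ∃ γ : Fin (N + N) → ℂ → ℂ, (∀ i, γ i ∈ Fm.Γ) ∧ Function.Injective γ ∧
      ∀ w : ℂ, S₁ < w.re → Enr (N + N) γ (2 * w) ≤ 1 / 4 * Enr N α w +
        1 / 4 * Enr N β (w + Real.pi * I) + (Ch.C + W.C / 2) * Real.exp (-w.re) := by
  have hS := small_S_pos W
  have hpos : ∀ w : ℂ, S₁ < w.re → w ∈ RHP := fun w hw => by
    show 0 < w.re
    linarith
  choose e he he' using fun i => Fm.even (α i) (hα i)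
  choose o ho ho' using fun i => Fm.odd (β i) (hβ i)
  have hb0 : (b / 2) ≠ 0 := by
    have : b ≠ 0 := by
      intro h
      rw [h] at hb
      simp at hb
    exact div_ne_zero this two_ne_zero
  have hre : ∀ w : ℂ, (w + Real.pi * I).re = w.re := fun w => by simp
  -- cross terms are positive
  have hcr : ∀ i j (w : ℂ), S₁ < w.re →
      Real.log 2 + 3 * w.re - 2 * ((Ch.C + W.C / 2) * Real.exp (-w.re)) ≤
        Real.log ‖e i (2 * w) - o j (2 * w)‖ := by
    intro i j w hw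
    rw [he' i w (hpos w hw), ho' j w (hpos w hw)]
    exact small_cross hb Fm (hα i) (hβ j) (lt_of_le_of_lt hS₁ hw) (hD _ hw)
  have hne : ∀ i j, e i ≠ o j := by
    intro i j hij
    set w : ℂ := ((S₁ + 1 : ℝ) : ℂ) with hwdef
    have hwre : w.re = S₁ + 1 := by rw [hwdef]; exact Complex.ofReal_re _
    have hw : S₁ < w.re := by rw [hwre]; linarith
    have h1 := hcr i j w hw
    have h2 := hD _ hw
    rw [hij, sub_self, norm_zero, Real.log_zero] at h1
    have h3 : 0 < Real.log 2 := Real.log_pos one_lt_two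
    linarith
  have hei : Function.Injective e := by
    intro i j hij
    have h1 : (1 : ℂ) ∈ RHP := by simp [RHP]
    refine hαi (Fm.uniq _ (hα i) _ (hα j) 1 h1 ?_)
    have h2 := he' i 1 h1
    rw [hij, he' j 1 h1] at h2
    exact (mul_left_cancel₀ hb0 (add_right_cancel h2)).symm
  have hoi : Function.Injective o := by
    intro i j hij
    have h1 : (1 : ℂ) ∈ RHP := by simp [RHP]
    have h3 : (1 : ℂ) + Real.pi * I ∈ RHP := by simp [RHP]
    refine hβi (Fm.uniq _ (hβ i) _ (hβ j) _ h3 ?_)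
    have h2 := ho' i 1 h1
    rw [hij, ho' j 1 h1] at h2
    exact (mul_left_cancel₀ hb0 (add_right_cancel h2)).symm
  refine ⟨Fin.append e o, ?_, ?_, ?_⟩
  · intro i
    refine Fin.addCases (fun i => ?_) (fun i => ?_) i
    · rw [Fin.append_left]; exact he i
    · rw [Fin.append_right]; exact ho i
  · intro i j
    refine Fin.addCases (fun i => ?_) (fun i => ?_) i <;>
      refine Fin.addCases (fun j => ?_) (fun j => ?_) j
    · rw [Fin.append_left, Fin.append_left]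
      intro h
      rw [hei h]
    · rw [Fin.append_left, Fin.append_right]
      intro h
      exact absurd h (hne _ _)
    · rw [Fin.append_left, Fin.append_right]
      intro h
      exact absurd h.symm (hne _ _)
    · rw [Fin.append_right, Fin.append_right]
      intro h
      rw [hoi h]
  · intro w hw
    have hwR := hpos w hw
    set D := Ch.C + W.C / 2 with hDdef
    set x := w.re with hx
    have s1 : (∑ i, ∑ j, Real.log ‖α i w - α j w‖) - (N : ℝ) ^ 2 * Real.log 2 ≤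
        ∑ i, ∑ j, Real.log ‖e i (2 * w) - e j (2 * w)‖ := by
      have : (∑ i, ∑ j, Real.log ‖α i w - α j w‖) - (N : ℝ) ^ 2 * Real.log 2 =
          ∑ i : Fin N, ∑ j : Fin N, (Real.log ‖α i w - α j w‖ - Real.log 2) := by
        simp only [Finset.sum_sub_distrib, Finset.sum_const, Finset.card_univ, Fintype.card_fin,
          nsmul_eq_mul]
        ring
      rw [this]
      refine Finset.sum_le_sum fun i _ => Finset.sum_le_sum fun j _ => ?_
      rw [he' i w hwR, he' j w hwR]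
      have : b / 2 * α i w + Ch.κ w - (b / 2 * α j w + Ch.κ w) = (b / 2) * (α i w - α j w) := by
        ring
      rw [this]
      exact small_log_half hb _
    have s2 : (∑ i, ∑ j, Real.log ‖β i (w + Real.pi * I) - β j (w + Real.pi * I)‖) -
        (N : ℝ) ^ 2 * Real.log 2 ≤
        ∑ i, ∑ j, Real.log ‖o i (2 * w) - o j (2 * w)‖ := by
      have : (∑ i, ∑ j, Real.log ‖β i (w + Real.pi * I) - β j (w + Real.pi * I)‖) -
          (N : ℝ) ^ 2 * Real.log 2 =
          ∑ i : Fin N, ∑ j : Fin N,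
            (Real.log ‖β i (w + Real.pi * I) - β j (w + Real.pi * I)‖ - Real.log 2) := by
        simp only [Finset.sum_sub_distrib, Finset.sum_const, Finset.card_univ, Fintype.card_fin,
          nsmul_eq_mul]
        ring
      rw [this]
      refine Finset.sum_le_sum fun i _ => Finset.sum_le_sum fun j _ => ?_
      rw [ho' i w hwR, ho' j w hwR]
      have : b / 2 * β i (w + Real.pi * I) + Ch.κ (w + Real.pi * I) -
          (b / 2 * β j (w + Real.pi * I) + Ch.κ (w + Real.pi * I)) =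
          (b / 2) * (β i (w + Real.pi * I) - β j (w + Real.pi * I)) := by
        ring
      rw [this]
      exact small_log_half hb _
    have s3 : (N : ℝ) ^ 2 * (Real.log 2 + 3 * x - 2 * (D * Real.exp (-x))) ≤
        ∑ i, ∑ j, Real.log ‖e i (2 * w) - o j (2 * w)‖ := by
      have : (N : ℝ) ^ 2 * (Real.log 2 + 3 * x - 2 * (D * Real.exp (-x))) =
          ∑ i : Fin N, ∑ j : Fin N, (Real.log 2 + 3 * x - 2 * (D * Real.exp (-x))) := by
        simp only [Finset.sum_const, Finset.card_univ, Fintype.card_fin, nsmul_eq_mul]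
        ring
      rw [this]
      exact Finset.sum_le_sum fun i _ => Finset.sum_le_sum fun j _ => hcr i j w hw
    have s4 : (N : ℝ) ^ 2 * (Real.log 2 + 3 * x - 2 * (D * Real.exp (-x))) ≤
        ∑ i, ∑ j, Real.log ‖o i (2 * w) - e j (2 * w)‖ := by
      have : (N : ℝ) ^ 2 * (Real.log 2 + 3 * x - 2 * (D * Real.exp (-x))) =
          ∑ i : Fin N, ∑ j : Fin N, (Real.log 2 + 3 * x - 2 * (D * Real.exp (-x))) := by
        simp only [Finset.sum_const, Finset.card_univ, Fintype.card_fin, nsmul_eq_mul]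
        ring
      rw [this]
      refine Finset.sum_le_sum fun i _ => Finset.sum_le_sum fun j _ => ?_
      rw [norm_sub_rev]
      exact hcr j i w hw
    have hsum : ∑ i, ∑ j, Real.log ‖Fin.append e o i (2 * w) - Fin.append e o j (2 * w)‖ =
        (∑ i, ∑ j, Real.log ‖e i (2 * w) - e j (2 * w)‖) +
        (∑ i, ∑ j, Real.log ‖e i (2 * w) - o j (2 * w)‖) +
        ((∑ i, ∑ j, Real.log ‖o i (2 * w) - e j (2 * w)‖) +
        (∑ i, ∑ j, Real.log ‖o i (2 * w) - o j (2 * w)‖)) := by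
      simp only [Fin.sum_univ_add, Fin.append_left, Fin.append_right, Finset.sum_add_distrib]
      ring
    unfold Enr
    rw [hsum, hre, ← hx]
    have h2re : (2 * w).re = 2 * x := by simp [hx]
    rw [h2re]
    set A := ∑ i, ∑ j, Real.log ‖α i w - α j w‖ with hA
    set A' := ∑ i, ∑ j, Real.log ‖e i (2 * w) - e j (2 * w)‖
    set Bs := ∑ i, ∑ j, Real.log ‖β i (w + Real.pi * I) - β j (w + Real.pi * I)‖
    set B' := ∑ i, ∑ j, Real.log ‖o i (2 * w) - o j (2 * w)‖
    set C' := ∑ i, ∑ j, Real.log ‖e i (2 * w) - o j (2 * w)‖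
    set C'' := ∑ i, ∑ j, Real.log ‖o i (2 * w) - e j (2 * w)‖
    have hN' : (0 : ℝ) < (N : ℝ) := by exact_mod_cast hN
    have hN2 : (0 : ℝ) < (N : ℝ) ^ 2 := by positivity
    have tot : A + Bs + (N : ℝ) ^ 2 * (6 * x - 4 * (D * Real.exp (-x))) ≤
        A' + C' + (C'' + B') := by
      nlinarith
    have q1 : ((N + N : ℕ) : ℝ) ^ 2 = 4 * (N : ℝ) ^ 2 := by
      push_cast
      ring
    rw [q1]
    have q2 : 1 / (4 * (N : ℝ) ^ 2) * (A + Bs + (N : ℝ) ^ 2 * (6 * x - 4 * (D * Real.exp (-x)))) ≤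
        1 / (4 * (N : ℝ) ^ 2) * (A' + C' + (C'' + B')) :=
      mul_le_mul_of_nonneg_left tot (by positivity)
    have q3 : 1 / (4 * (N : ℝ) ^ 2) *
        (A + Bs + (N : ℝ) ^ 2 * (6 * x - 4 * (D * Real.exp (-x)))) =
        1 / 4 * (1 / (N : ℝ) ^ 2 * A) + 1 / 4 * (1 / (N : ℝ) ^ 2 * Bs) +
          (3 / 2 * x - D * Real.exp (-x)) := by
      field_simp
      ring
    linarith

/-- the mean of the minimal energy -/
noncomputable def sme (Fm : Fam W) (N : ℕ) (s : ℝ) : ℝ :=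
  ∫ t in (0 : ℝ)..(2 * Real.pi), einf (EF Fm N) (s + t * I)

theorem small_EF_one (Fm : Fam W) : (EF Fm 1).Nonempty ∧ ∀ w, einf (EF Fm 1) w = w.re := by
  obtain ⟨s, hs⟩ := Fm.ne
  have h1 : (EF Fm 1).Nonempty :=
    ⟨_, fun _ => s, fun _ => hs, fun i j _ => Subsingleton.elim i j, rfl⟩
  refine ⟨h1, fun w => ?_⟩
  have h2 : ∀ h : EF Fm 1, (h : ℂ → ℝ) w = w.re := by
    rintro ⟨h, α, hα, hi, rfl⟩
    simp [Enr]
  have : Nonempty (EF Fm 1) := h1.to_subtype
  rw [einf]
  simp only [h2]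
  exact ciInf_const

theorem small_cont {F : ℂ → ℝ} {S : ℝ} (h : ContinuousOn F {w | S < w.re}) {s : ℝ}
    (hs : S < s) : Continuous fun t : ℝ => F (s + t * I) :=
  h.comp_continuous (by fun_prop) fun t => by simpa using hs

theorem small_integral {F G : ℂ → ℝ} {S s K : ℝ} (hF : ContinuousOn F {w | S < w.re})
    (hG : ContinuousOn G {w | S < w.re}) (hs : S < s) (hS : 0 ≤ S)
    (h : ∀ w : ℂ, w.re = s → F (2 * w) ≤ 1 / 4 * G w + 1 / 4 * G (w + Real.pi * I) + K) :
    ∫ t in (0 : ℝ)..(2 * Real.pi), F ((2 * s : ℝ) + t * I) ≤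
      1 / 2 * (∫ t in (0 : ℝ)..(2 * Real.pi), G (s + t * I)) + 2 * Real.pi * K := by
  have hpi := Real.pi_pos
  have c1 : Continuous fun t : ℝ => F ((2 * s : ℝ) + t * I) := small_cont hF (by linarith)
  have c2 : Continuous fun t : ℝ => G (s + t * I) := small_cont hG hs
  have e1 : ∫ t in (0 : ℝ)..(2 * Real.pi), F ((2 * s : ℝ) + t * I) =
      2 * ∫ t in (0 : ℝ)..Real.pi, F ((2 * s : ℝ) + (2 * t : ℝ) * I) := by
    have := intervalIntegral.integral_comp_mul_left (a := 0) (b := Real.pi)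
      (fun t : ℝ => F ((2 * s : ℝ) + t * I)) (c := 2) two_ne_zero
    rw [this]
    simp
  have e2 : ∫ t in (0 : ℝ)..Real.pi, F ((2 * s : ℝ) + (2 * t : ℝ) * I) ≤
      ∫ t in (0 : ℝ)..Real.pi, (1 / 4 * G (s + t * I) + 1 / 4 * G (s + (t + Real.pi : ℝ) * I) + K) := by
    have c3 : Continuous fun t : ℝ => F ((2 * s : ℝ) + (2 * t : ℝ) * I) :=
      c1.comp (continuous_const.mul continuous_id)
    have c4 : Continuous fun t : ℝ => G (s + (t + Real.pi : ℝ) * I) :=
      c2.comp (continuous_id.add continuous_const)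
    refine intervalIntegral.integral_mono hpi.le (c3.intervalIntegrable _ _)
      (((continuous_const.mul c2).add (continuous_const.mul c4)).add
        continuous_const |>.intervalIntegrable _ _) fun t => ?_
    have := h (s + t * I) (by simp)
    have a1 : (2 : ℂ) * (s + t * I) = ((2 * s : ℝ) : ℂ) + ((2 * t : ℝ) : ℂ) * I := by
      push_cast; ring
    have a2 : (s : ℂ) + t * I + Real.pi * I = s + (t + Real.pi : ℝ) * I := by
      push_cast; ring
    rw [a1, a2] at this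
    exact this
  have c4 : Continuous fun t : ℝ => G (s + (t + Real.pi : ℝ) * I) :=
    c2.comp (continuous_id.add continuous_const)
  have e3 : ∫ t in (0 : ℝ)..Real.pi,
      (1 / 4 * G (s + t * I) + 1 / 4 * G (s + (t + Real.pi : ℝ) * I) + K) =
      1 / 4 * (∫ t in (0 : ℝ)..(2 * Real.pi), G (s + t * I)) + Real.pi * K := by
    have i1 : IntervalIntegrable (fun t : ℝ => 1 / 4 * G (s + t * I)) volume 0 Real.pi :=
      (continuous_const.mul c2).intervalIntegrable _ _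
    have i2 : IntervalIntegrable (fun t : ℝ => 1 / 4 * G (s + (t + Real.pi : ℝ) * I)) volume 0
      Real.pi := (continuous_const.mul c4).intervalIntegrable _ _
    have i3 : IntervalIntegrable (fun _ : ℝ => K) volume 0 Real.pi :=
      continuous_const.intervalIntegrable _ _
    rw [intervalIntegral.integral_add (i1.add i2) i3, intervalIntegral.integral_add i1 i2,
      intervalIntegral.integral_const_mul, intervalIntegral.integral_const_mul,
      intervalIntegral.integral_const]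
    have e4 : ∫ t in (0 : ℝ)..Real.pi, G (s + (t + Real.pi : ℝ) * I) =
        ∫ t in Real.pi..(2 * Real.pi), G (s + t * I) := by
      have := intervalIntegral.integral_comp_add_right (a := 0) (b := Real.pi)
        (fun t : ℝ => G (s + t * I)) Real.pi
      rw [this]
      congr 1 <;> ring
    rw [e4, ← intervalIntegral.integral_add_adjacent_intervals
      (c2.intervalIntegrable (μ := volume) 0 Real.pi)
      (c2.intervalIntegrable (μ := volume) Real.pi (2 * Real.pi))]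
    simp
    ring
  rw [e1]
  linarith

theorem small_einf_double (hb : ‖b‖ = 1) (Fm : Fam W) {B : ℝ} {N : ℕ} (hN : 0 < N)
    (hlow : ∀ h ∈ EF Fm (N + N), ∀ w : ℂ, W.S < w.re → -B ≤ h w)
    (hne : (EF Fm N).Nonempty) {S₁ : ℝ} (hS₁ : W.S ≤ S₁)
    (hD : ∀ x : ℝ, S₁ < x → (Ch.C + W.C / 2) * Real.exp (-x) ≤ 1 / 2) {w : ℂ}
    (hw : S₁ < w.re) :
    einf (EF Fm (N + N)) (2 * w) ≤ 1 / 4 * einf (EF Fm N) w +
      1 / 4 * einf (EF Fm N) (w + Real.pi * I) + (Ch.C + W.C / 2) * Real.exp (-w.re) := by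
  have hS := small_S_pos W
  set K := (Ch.C + W.C / 2) * Real.exp (-w.re)
  have key : ∀ h ∈ EF Fm N, ∀ h' ∈ EF Fm N, einf (EF Fm (N + N)) (2 * w) ≤
      1 / 4 * h w + 1 / 4 * h' (w + Real.pi * I) + K := by
    rintro h ⟨α, hα, hαi, rfl⟩ h' ⟨β, hβ, hβi, rfl⟩
    obtain ⟨γ, hγ, hγi, hE⟩ := small_double hb Fm hN hα hαi hβ hβi hS₁ hD
    refine le_trans ?_ (hE w hw)
    refine Mono_le hlow ⟨γ, hγ, hγi, rfl⟩ ?_
    have : (2 * w).re = 2 * w.re := by simp
    rw [this]
    linarith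
  have h1 : ∀ h' ∈ EF Fm N, 4 * (einf (EF Fm (N + N)) (2 * w) - K) - h' (w + Real.pi * I) ≤
      einf (EF Fm N) w := fun h' hh' => Mono_ge hne fun h hh => by
    have := key h hh h' hh'
    linarith
  have h2 : 4 * (einf (EF Fm (N + N)) (2 * w) - K) - einf (EF Fm N) w ≤
      einf (EF Fm N) (w + Real.pi * I) := Mono_ge hne fun h' hh' => by
    have := h1 h' hh'
    linarith
  linarith

theorem small_exp_sq {y : ℝ} (hy : 0 < y) : Real.exp (-y) ≤ 2 / y ^ 2 := by
  have h1 := Real.quadratic_le_exp_of_nonneg hy.le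
  rw [Real.exp_neg, inv_eq_one_div, div_le_div_iff₀ (Real.exp_pos _) (by positivity)]
  nlinarith

theorem small_energy {c b : ℂ} (hb : ‖b‖ = 1) {Ch : Chart c b} {W : Win Ch} (Fm : Fam W) :
    ∃ S₁ C₁ : ℝ, W.S ≤ S₁ ∧ ∀ n : ℕ, (EF Fm (2 ^ n)).Nonempty ∧
      ContinuousOn (einf (EF Fm (2 ^ n))) {w : ℂ | W.S < w.re} ∧
      ∀ s : ℝ, S₁ < s → s ≤ 2 ^ n * (S₁ + 1) →
        ∫ t in (0 : ℝ)..(2 * Real.pi), einf (EF Fm (2 ^ n)) (s + t * I) ≤ C₁ / 2 ^ n := by
  have hpi := Real.pi_pos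
  have hS := small_S_pos W
  obtain ⟨B, hB⟩ := small_hyp hb Fm
  set D := Ch.C + W.C / 2 with hDdef
  have hDpos : 0 < D := by
    have := W.hC
    have := Ch.hC
    rw [hDdef]
    linarith
  -- the threshold
  obtain ⟨S₁, hS₁, hD⟩ : ∃ S₁ : ℝ, W.S ≤ S₁ ∧ ∀ x : ℝ, S₁ < x → D * Real.exp (-x) ≤ 1 / 2 := by
    refine ⟨max W.S (2 * D), le_max_left _ _, fun x hx => ?_⟩
    have h1 : 2 * D < x := lt_of_le_of_lt (le_max_right _ _) hx
    have h2 : x < Real.exp x := by
      have := Real.add_one_le_exp x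
      linarith
    rw [Real.exp_neg, ← div_eq_mul_inv, div_le_iff₀ (Real.exp_pos _)]
    linarith
  have hne : ∀ n : ℕ, (EF Fm (2 ^ n)).Nonempty := by
    intro n
    induction n with
    | zero => exact (small_EF_one Fm).1
    | succ n ih =>
      obtain ⟨_, α, hα, hαi, rfl⟩ := ih
      obtain ⟨γ, hγ, hγi, _⟩ := small_double hb Fm (pow_pos two_pos n) hα hαi hα hαi hS₁ hD
      rw [show (2 : ℕ) ^ (n + 1) = 2 ^ n + 2 ^ n by ring]
      exact ⟨_, γ, hγ, hγi, rfl⟩
  have hmono : ∀ n : ℕ, ContinuousOn (einf (EF Fm (2 ^ n))) {w : ℂ | W.S < w.re} ∧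
      MonotoneOn (sme Fm (2 ^ n)) (Ioi W.S) := by
    intro n
    obtain ⟨q1, q2, q3, q4⟩ := hB (2 ^ n) (pow_pos two_pos n)
    exact einf_mono (hne n) q1 q2 q3 q4
  have hrec : ∀ (n : ℕ) (s : ℝ), S₁ < s → sme Fm (2 ^ (n + 1)) (2 * s) ≤
      1 / 2 * sme Fm (2 ^ n) s + 2 * Real.pi * (D * Real.exp (-s)) := by
    intro n s hs
    have e : (2 : ℕ) ^ (n + 1) = 2 ^ n + 2 ^ n := by ring
    have c1 := (hmono (n + 1)).1
    rw [e] at c1 ⊢
    refine small_integral c1 (hmono n).1 (lt_of_le_of_lt hS₁ hs) (by linarith) fun w hw => ?_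
    have q2 := (hB (2 ^ (n + 1)) (pow_pos two_pos _)).2.1
    rw [e] at q2
    have := small_einf_double hb Fm (pow_pos two_pos n) q2 (hne n) hS₁ hD (w := w)
      (by rw [hw]; exact hs)
    rw [hw] at this
    exact this
  set s₁ := S₁ + 1 with hs₁
  have hs₁1 : 1 ≤ s₁ := by linarith
  have hit : ∀ n : ℕ, 2 ^ n * sme Fm (2 ^ n) (2 ^ n * s₁) ≤
      2 * Real.pi * s₁ + 16 * Real.pi * D - 16 * Real.pi * D / 2 ^ n := by
    intro n
    induction n with
    | zero =>
      have : sme Fm (2 ^ 0) (2 ^ 0 * s₁) = 2 * Real.pi * s₁ := by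
        rw [sme]
        simp only [pow_zero, one_mul, (small_EF_one Fm).2]
        simp
      rw [this]
      simp
    | succ n ih =>
      have hp : (1 : ℝ) ≤ 2 ^ n := one_le_pow₀ one_le_two
      have hlt : S₁ < 2 ^ n * s₁ := by nlinarith
      have h1 := hrec n (2 ^ n * s₁) hlt
      have h2 : Real.exp (-(2 ^ n * s₁)) ≤ 2 / (2 ^ n) ^ 2 := by
        refine (small_exp_sq (by positivity)).trans ?_
        refine div_le_div_of_nonneg_left (by norm_num) (by positivity) ?_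
        have : (2 : ℝ) ^ n ≤ 2 ^ n * s₁ := by nlinarith
        exact pow_le_pow_left₀ (by positivity) this 2
      have h3 : 2 ^ (n + 1) * (2 * Real.pi * (D * Real.exp (-(2 ^ n * s₁)))) ≤
          8 * Real.pi * D / 2 ^ n := by
        calc 2 ^ (n + 1) * (2 * Real.pi * (D * Real.exp (-(2 ^ n * s₁)))) ≤
            2 ^ (n + 1) * (2 * Real.pi * (D * (2 / (2 ^ n) ^ 2))) := by gcongr
          _ = 8 * Real.pi * D / 2 ^ n := by
            rw [pow_succ]
            field_simp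
            ring
      have e1 : (2 : ℝ) ^ (n + 1) * s₁ = 2 * (2 ^ n * s₁) := by ring
      rw [e1]
      have h4 : 2 ^ (n + 1) * sme Fm (2 ^ (n + 1)) (2 * (2 ^ n * s₁)) ≤
          2 ^ (n + 1) * (1 / 2 * sme Fm (2 ^ n) (2 ^ n * s₁) +
            2 * Real.pi * (D * Real.exp (-(2 ^ n * s₁)))) := by gcongr
      have h5 : (2 : ℝ) ^ (n + 1) * (1 / 2 * sme Fm (2 ^ n) (2 ^ n * s₁) +
            2 * Real.pi * (D * Real.exp (-(2 ^ n * s₁)))) =
          2 ^ n * sme Fm (2 ^ n) (2 ^ n * s₁) +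
            2 ^ (n + 1) * (2 * Real.pi * (D * Real.exp (-(2 ^ n * s₁)))) := by
        rw [pow_succ]
        ring
      have h6 : 16 * Real.pi * D / 2 ^ (n + 1) = 8 * Real.pi * D / 2 ^ n := by
        rw [pow_succ]
        field_simp
        ring
      have h7 : 16 * Real.pi * D / 2 ^ n = 2 * (8 * Real.pi * D / 2 ^ n) := by ring
      linarith
  refine ⟨S₁, 2 * Real.pi * s₁ + 16 * Real.pi * D, hS₁, fun n => ⟨hne n, (hmono n).1, ?_⟩⟩
  intro s hs hs2
  have hp : (1 : ℝ) ≤ 2 ^ n := one_le_pow₀ one_le_two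
  have h1 : sme Fm (2 ^ n) s ≤ sme Fm (2 ^ n) (2 ^ n * s₁) :=
    (hmono n).2 (lt_of_le_of_lt hS₁ hs)
      (show W.S < 2 ^ n * s₁ from lt_of_lt_of_le (lt_of_le_of_lt hS₁ hs) hs2) hs2
  have h2 := hit n
  have h3 : 0 ≤ 16 * Real.pi * D / 2 ^ n := by positivity
  show sme Fm (2 ^ n) s ≤ _
  rw [le_div_iff₀ (by positivity)]
  nlinarith

end H6ea4aa
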