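import Pool.Agent.H.MP_6ea4aa_an.Branch

/-!
# MP_6ea4aa: continuation of branches along segments
-/

set_option autoImplicit false

open Complex Set Filter Topology Metric

namespace H6ea4aa

variable {g : ℂ → ℝ}

/-! ### auxiliary lemmas -/

theorem IsBranch.sw_mono {χ : ℂ → ℂ} {U V : Set ℂ} (h : IsBranch g χ U) (hV : V ⊆ U) :
    IsBranch g χ V := ⟨h.1.mono hV, fun w hw => h.2 w (hV hw)⟩

theorem IsBranch.sw_shift {χ : ℂ → ℂ} {U : Set ℂ} (h : IsBranch g χ U) {c : ℂ} (hc : c.re = 0) :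
    IsBranch g (fun w => χ (w + c)) ((fun w => w + c) ⁻¹' U) := by
  refine ⟨?_, fun w hw => ?_⟩
  · exact h.1.comp (by fun_prop) (fun w hw => hw)
  · have := h.2 (w + c) hw
    simp only [this, add_re, hc, add_zero]

theorem sw_preim_convex {U : Set ℂ} (hU : Convex ℝ U) (c : ℂ) :
    Convex ℝ ((fun w => w + c) ⁻¹' U) := hU.translate_preimage_left c

theorem sw_unique (hreg : ∀ z, 0 < g z → RegRe g z) {U V : Set ℂ} (hU : IsOpen U)
    (hUc : Convex ℝ U) (hUr : U ⊆ RHP) (hV : IsOpen V) (hVc : Convex ℝ V) {χ₁ χ₂ : ℂ → ℂ}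
    (h₁ : IsBranch g χ₁ U) (h₂ : IsBranch g χ₂ V) {w : ℂ} (hwU : w ∈ U) (hwV : w ∈ V)
    (h : χ₁ w = χ₂ w) : EqOn χ₁ χ₂ (U ∩ V) :=
  branch_unique hreg (hU.inter hV) (hUc.inter hVc).isPreconnected
    (fun _ hx => hUr hx.1) (h₁.sw_mono inter_subset_left) (h₂.sw_mono inter_subset_right)
    ⟨hwU, hwV⟩ h

theorem sw_glue (hreg : ∀ z, 0 < g z → RegRe g z) {U V : Set ℂ} (hU : IsOpen U)
    (hUc : Convex ℝ U) (hUr : U ⊆ RHP) (hV : IsOpen V) (hVc : Convex ℝ V) {χ₁ χ₂ : ℂ → ℂ}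
    (h₁ : IsBranch g χ₁ U) (h₂ : IsBranch g χ₂ V) {w : ℂ} (hwU : w ∈ U) (hwV : w ∈ V)
    (h : χ₁ w = χ₂ w) : ∃ χ, IsBranch g χ (U ∪ V) ∧ EqOn χ χ₁ U := by
  classical
  have heq := sw_unique hreg hU hUc hUr hV hVc h₁ h₂ hwU hwV h
  let χ : ℂ → ℂ := fun w => if w ∈ U then χ₁ w else χ₂ w
  have hχ₁ : EqOn χ χ₁ U := fun w hw => by simp only [χ, if_pos hw]
  have hχ₂ : EqOn χ χ₂ V := fun w hw => by
    by_cases hwU : w ∈ U
    · simp only [χ, if_pos hwU]; exact heq ⟨hwU, hw⟩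
    · simp only [χ, if_neg hwU]
  refine ⟨χ, ⟨?_, ?_⟩, hχ₁⟩
  · intro x hx
    rcases hx with hx | hx
    · have h1 : DifferentiableAt ℂ χ₁ x := h₁.1.differentiableAt (hU.mem_nhds hx)
      refine (h1.congr_of_eventuallyEq ?_).differentiableWithinAt
      filter_upwards [hU.mem_nhds hx] with y hy using hχ₁ hy
    · have h1 : DifferentiableAt ℂ χ₂ x := h₂.1.differentiableAt (hV.mem_nhds hx)
      refine (h1.congr_of_eventuallyEq ?_).differentiableWithinAt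
      filter_upwards [hV.mem_nhds hx] with y hy using hχ₂ hy
  · intro x hx
    rcases hx with hx | hx
    · rw [hχ₁ hx]; exact h₁.2 x hx
    · rw [hχ₂ hx]; exact h₂.2 x hx

/-- a branch on a convex open set containing `w₁`, `w₂`, with the value of `χ₀` at `w₁` -/
structure SwGd (g : ℂ → ℝ) (χ₀ : ℂ → ℂ) (w₁ w₂ : ℂ) (U : Set ℂ) (χ : ℂ → ℂ) : Prop where
  op : IsOpen U
  conv : Convex ℝ U
  rhp : U ⊆ RHP
  mem₁ : w₁ ∈ U
  mem₂ : w₂ ∈ U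
  br : IsBranch g χ U
  val : χ w₁ = χ₀ w₁

theorem SwGd.unique (hreg : ∀ z, 0 < g z → RegRe g z) {χ₀ χ χ' : ℂ → ℂ} {w₁ w₂ w₂' : ℂ}
    {U U' : Set ℂ} (h : SwGd g χ₀ w₁ w₂ U χ) (h' : SwGd g χ₀ w₁ w₂' U' χ') :
    EqOn χ χ' (U ∩ U') :=
  sw_unique hreg h.op h.conv h.rhp h'.op h'.conv h.br h'.br h.mem₁ h'.mem₁
    (h.val.trans h'.val.symm)

theorem SwGd.move (hreg : ∀ z, 0 < g z → RegRe g z) {χ₀ χ : ℂ → ℂ} {w₀ w₁ w₂ w₁' w₂' : ℂ}
    {ρ : ℝ} {U : Set ℂ} (h₀ : IsBranch g χ₀ (ball w₀ ρ)) (h : SwGd g χ₀ w₁ w₂ U χ)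
    (hw₁ : w₁ ∈ ball w₀ ρ) (hw₁' : w₁' ∈ ball w₀ ρ) (hU₁ : w₁' ∈ U) (hU₂ : w₂' ∈ U) :
    SwGd g χ₀ w₁' w₂' U χ where
  op := h.op
  conv := h.conv
  rhp := h.rhp
  mem₁ := hU₁
  mem₂ := hU₂
  br := h.br
  val := sw_unique hreg h.op h.conv h.rhp isOpen_ball (convex_ball _ _) h.br h₀ h.mem₁ hw₁
    h.val ⟨hU₁, hw₁'⟩

theorem SwGd.extend (hreg : ∀ z, 0 < g z → RegRe g z) {χ₀ χ χ' : ℂ → ℂ} {w₁ w₂ w₃ : ℂ}
    {r : ℝ} {U : Set ℂ} (h : SwGd g χ₀ w₁ w₂ U χ) (h' : IsBranch g χ' (ball w₂ r))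
    (hb : ball w₂ r ⊆ RHP) (hval : χ' w₂ = χ w₂) (h₃ : w₃ ∈ ball w₂ r)
    (hseg : w₂ ∈ segment ℝ w₁ w₃) : ∃ V χ'', SwGd g χ₀ w₁ w₃ V χ'' := by
  have hr : 0 < r := lt_of_le_of_lt dist_nonneg (mem_ball.1 h₃)
  obtain ⟨χ'', hbr, heq⟩ := sw_glue hreg h.op h.conv h.rhp isOpen_ball (convex_ball w₂ r) h.br h'
    h.mem₂ (mem_ball_self hr) hval.symm
  have hsub : segment ℝ w₁ w₃ ⊆ U ∪ ball w₂ r := by
    rw [segment_eq_image'] at hseg ⊢
    obtain ⟨θ, ⟨hθ0, hθ1⟩, hθ⟩ := hseg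
    rintro _ ⟨s, ⟨hs0, hs1⟩, rfl⟩
    simp only at hθ ⊢
    by_cases hsθ : s ≤ θ
    · left
      have hmem : w₁ + s • (w₃ - w₁) ∈ segment ℝ w₁ w₂ := by
        rcases eq_or_lt_of_le hθ0 with h0 | h0
        · have : s = 0 := le_antisymm (h0 ▸ hsθ) hs0
          rw [this, zero_smul, add_zero]
          exact left_mem_segment ℝ _ _
        · rw [segment_eq_image']
          refine ⟨s / θ, ⟨by positivity, (div_le_one h0).2 hsθ⟩, ?_⟩
          simp only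
          rw [← hθ, add_sub_cancel_left, smul_smul, div_mul_cancel₀ _ h0.ne']
      exact h.conv.segment_subset h.mem₁ h.mem₂ hmem
    · right
      push Not at hsθ
      rw [mem_ball, dist_eq_norm] at h₃ ⊢
      rw [← hθ] at h₃ ⊢
      have e1 : w₃ - (w₁ + θ • (w₃ - w₁)) = (1 - θ) • (w₃ - w₁) := by
        rw [sub_smul, one_smul]; ring
      have e2 : w₁ + s • (w₃ - w₁) - (w₁ + θ • (w₃ - w₁)) = (s - θ) • (w₃ - w₁) := by
        rw [sub_smul]; ring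
      rw [e1, norm_smul, Real.norm_eq_abs, abs_of_nonneg (by linarith)] at h₃
      rw [e2, norm_smul, Real.norm_eq_abs, abs_of_nonneg (by linarith)]
      exact lt_of_le_of_lt (mul_le_mul_of_nonneg_right (by linarith) (norm_nonneg _)) h₃
  have hcomp : IsCompact (segment ℝ w₁ w₃) := by
    rw [segment_eq_image']
    exact isCompact_Icc.image (by fun_prop)
  obtain ⟨δ, hδ, hδs⟩ := hcomp.exists_thickening_subset_open (h.op.union isOpen_ball) hsub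
  refine ⟨thickening δ (segment ℝ w₁ w₃), χ'', isOpen_thickening,
    (convex_segment w₁ w₃).thickening δ, fun x hx => ?_,
    self_subset_thickening hδ _ (left_mem_segment ℝ _ _),
    self_subset_thickening hδ _ (right_mem_segment ℝ _ _), hbr.sw_mono hδs, ?_⟩
  · rcases hδs hx with hx | hx
    · exact h.rhp hx
    · exact hb hx
  · rw [heq h.mem₁, h.val]

/-- a point between `w(iy)` and `w(t+iy)` -/
theorem sw_mem_segment (w₀ d : ℂ) (y : ℝ) {s t : ℝ} (hs : 0 ≤ s) (hst : s ≤ t) :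
    w₀ + ((s : ℂ) + y * I) * d ∈ segment ℝ (w₀ + (y * I : ℂ) * d) (w₀ + ((t : ℂ) + y * I) * d) := by
  rcases eq_or_lt_of_le (hs.trans hst) with h0 | h0
  · have : s = 0 := le_antisymm (h0 ▸ hst) hs
    subst this
    simp only [ofReal_zero, zero_add]
    exact left_mem_segment ℝ _ _
  · rw [segment_eq_image']
    refine ⟨s / t, ⟨by positivity, (div_le_one h0).2 hst⟩, ?_⟩
    have ht : (t : ℂ) ≠ 0 := by exact_mod_cast h0.ne'
    simp only [real_smul, ofReal_div]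
    field_simp
    ring

/-- the domain of the sweep -/
def SwDom (g : ℂ → ℝ) (χ₀ : ℂ → ℂ) (w₀ d : ℂ) (ζ : ℂ) : Prop :=
  ∃ (U : Set ℂ) (χ : ℂ → ℂ), SwGd g χ₀ (w₀ + (ζ.im * I : ℂ) * d) (w₀ + ζ * d) U χ

open Classical in
/-- the value of the sweep -/
noncomputable def swVal (g : ℂ → ℝ) (χ₀ : ℂ → ℂ) (w₀ d : ℂ) (ζ : ℂ) : ℂ :=
  if h : SwDom g χ₀ w₀ d ζ then h.choose_spec.choose (w₀ + ζ * d) else 0

theorem swVal_eq (hreg : ∀ z, 0 < g z → RegRe g z) {χ₀ χ : ℂ → ℂ} {w₀ d ζ : ℂ} {U : Set ℂ}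
    (h : SwGd g χ₀ (w₀ + (ζ.im * I : ℂ) * d) (w₀ + ζ * d) U χ) :
    swVal g χ₀ w₀ d ζ = χ (w₀ + ζ * d) := by
  have h' : SwDom g χ₀ w₀ d ζ := ⟨U, χ, h⟩
  rw [swVal, dif_pos h']
  exact SwGd.unique hreg h'.choose_spec.choose_spec h ⟨h'.choose_spec.choose_spec.mem₂, h.mem₂⟩

theorem sw_base_mem {w₀ d : ℂ} (hd : ‖d‖ = 1) {y ρ : ℝ} (hy : |y| < ρ) :
    w₀ + (y * I : ℂ) * d ∈ ball w₀ ρ := by
  rw [mem_ball, dist_eq_norm, add_sub_cancel_left, norm_mul, norm_mul, norm_I, hd, norm_real,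
    mul_one, mul_one, Real.norm_eq_abs]
  exact hy

/-- values on the same segment -/
theorem sw_same (hreg : ∀ z, 0 < g z → RegRe g z) {χ₀ χ : ℂ → ℂ} {w₀ d : ℂ} {y t s : ℝ}
    {U : Set ℂ} (h : SwGd g χ₀ (w₀ + (y * I : ℂ) * d) (w₀ + ((t : ℂ) + y * I) * d) U χ)
    (hs : 0 ≤ s) (hst : s ≤ t) :
    SwGd g χ₀ (w₀ + (((s : ℂ) + y * I).im * I : ℂ) * d) (w₀ + ((s : ℂ) + y * I) * d) U χ ∧
    swVal g χ₀ w₀ d ((s : ℂ) + y * I) = χ (w₀ + ((s : ℂ) + y * I) * d) := by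
  have him : ((s : ℂ) + y * I).im = y := by simp
  have h1 : SwGd g χ₀ (w₀ + (((s : ℂ) + y * I).im * I : ℂ) * d) (w₀ + ((s : ℂ) + y * I) * d)
      U χ := by
    rw [him]
    exact ⟨h.op, h.conv, h.rhp, h.mem₁,
      h.conv.segment_subset h.mem₁ h.mem₂ (sw_mem_segment w₀ d y hs hst), h.br, h.val⟩
  exact ⟨h1, swVal_eq hreg h1⟩

/-- in a slice: escape to infinity at the first point which is not reached -/
theorem sw_escape (hc : Continuous g) (hreg : ∀ z, 0 < g z → RegRe g z) {χ₀ : ℂ → ℂ} {w₀ d : ℂ}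
    (hd : ‖d‖ = 1) {y τ : ℝ} (hτ : 0 < τ)
    (hR : w₀ + ((τ : ℂ) + y * I) * d ∈ RHP)
    (hD : ∀ t : ℝ, 0 < t → t < τ → SwDom g χ₀ w₀ d ((t : ℂ) + y * I))
    (hn : ¬ SwDom g χ₀ w₀ d ((τ : ℂ) + y * I)) :
    Tendsto (fun t : ℝ => ‖swVal g χ₀ w₀ d (t + y * I)‖) (𝓝[<] τ) atTop := by
  by_contra hcon
  rw [Filter.tendsto_atTop] at hcon
  push Not at hcon
  obtain ⟨M, hM⟩ := hcon
  have hfreq : ∃ᶠ t : ℝ in 𝓝[<] τ, swVal g χ₀ w₀ d (t + y * I) ∈ closedBall (0 : ℂ) M := by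
    refine hM.mono fun t ht => ?_
    rw [mem_closedBall_zero_iff]
    exact ht.le
  obtain ⟨z, -, hz⟩ := (isCompact_closedBall (0 : ℂ) M).exists_mapClusterPt_of_frequently hfreq
  rw [mapClusterPt_iff_ultrafilter] at hz
  obtain ⟨𝒰, h𝒰, hlim⟩ := hz
  have hval : ∀ t : ℝ, 0 < t → t < τ →
      g (swVal g χ₀ w₀ d (t + y * I)) = (w₀ + ((t : ℂ) + y * I) * d).re := by
    intro t h0 h1
    obtain ⟨U, χ, hU⟩ := hD t h0 h1
    rw [swVal_eq hreg hU]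
    exact hU.br.2 _ hU.mem₂
  have hev : ∀ᶠ t : ℝ in 𝓝[<] τ, 0 < t ∧ t < τ := by
    have := Ioo_mem_nhdsLT hτ
    filter_upwards [this] with t ht using ⟨ht.1, ht.2⟩
  have hcont : Tendsto (fun t : ℝ => (w₀ + ((t : ℂ) + y * I) * d).re) (𝓝[<] τ)
      (𝓝 (w₀ + ((τ : ℂ) + y * I) * d).re) := by
    have : Continuous (fun t : ℝ => (w₀ + ((t : ℂ) + y * I) * d).re) := by fun_prop
    exact this.continuousAt.tendsto.mono_left nhdsWithin_le_nhds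
  have hgz : g z = (w₀ + ((τ : ℂ) + y * I) * d).re := by
    refine tendsto_nhds_unique ((hc.tendsto z).comp hlim) ((hcont.mono_left h𝒰).congr' ?_)
    filter_upwards [h𝒰 hev] with t ht using (hval t ht.1 ht.2).symm
  have hgz0 : 0 < g z := by rw [hgz]; exact hR
  obtain ⟨r, hr, η, hη, hloc⟩ := branch_local hc hreg hgz0
  have e1 : ∀ᶠ t : ℝ in 𝒰, swVal g χ₀ w₀ d (t + y * I) ∈ ball z η :=
    hlim.eventually (ball_mem_nhds z hη)
  have e2 : ∀ᶠ t : ℝ in 𝒰, τ - r < t := by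
    refine h𝒰 ?_
    exact nhdsWithin_le_nhds (lt_mem_nhds (by linarith))
  obtain ⟨t, ht1, ht2, ht3, ht4⟩ := (e1.and (e2.and (h𝒰 hev))).exists
  obtain ⟨hball, χ', hbr, hχ', -⟩ := hloc _ ht1 (w₀ + ((t : ℂ) + y * I) * d) (hval t ht3 ht4).symm
  obtain ⟨U, χ, hU⟩ := hD t ht3 ht4
  have hvχ : χ' (w₀ + ((t : ℂ) + y * I) * d) = χ (w₀ + ((t : ℂ) + y * I) * d) := by
    rw [hχ', swVal_eq hreg hU]
  have hmem : w₀ + ((τ : ℂ) + y * I) * d ∈ ball (w₀ + ((t : ℂ) + y * I) * d) r := by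
    rw [mem_ball, dist_eq_norm]
    have : w₀ + ((τ : ℂ) + y * I) * d - (w₀ + ((t : ℂ) + y * I) * d) = ((τ - t : ℝ) : ℂ) * d := by
      push_cast; ring
    rw [this, norm_mul, hd, mul_one, norm_real, Real.norm_eq_abs, abs_of_pos (by linarith)]
    linarith
  have him : ∀ s : ℝ, ((s : ℂ) + y * I).im = y := by intro s; simp
  rw [him] at hU
  obtain ⟨V, χ'', hV⟩ := SwGd.extend hreg hU hbr hball hvχ hmem
    (sw_mem_segment w₀ d y ht3.le ht4.le)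
  exact hn ⟨V, χ'', by rw [him]; exact hV⟩

/-- two points of one slice with the same value exclude an escape -/
theorem sw_full (hreg : ∀ z, 0 < g z → RegRe g z) {χ₀ : ℂ → ℂ} {w₀ d : ℂ}
    (hdI : d.re = 0) {y τ t t' : ℝ} (ht : 0 < t) (htt : t < t') (htτ : t' < τ)
    (hD : ∀ s : ℝ, 0 < s → s < τ → SwDom g χ₀ w₀ d ((s : ℂ) + y * I))
    (hcont : ContinuousAt (fun s : ℝ => swVal g χ₀ w₀ d (s + y * I)) (τ - (t' - t)))
    (heq : swVal g χ₀ w₀ d (t + y * I) = swVal g χ₀ w₀ d (t' + y * I))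
    (hesc : Tendsto (fun s : ℝ => ‖swVal g χ₀ w₀ d (s + y * I)‖) (𝓝[<] τ) atTop) : False := by
  have him : ∀ s : ℝ, ((s : ℂ) + y * I).im = y := by intro s; simp
  have key : ∀ s : ℝ, t' ≤ s → s < τ →
      swVal g χ₀ w₀ d (s + y * I) = swVal g χ₀ w₀ d (((s - (t' - t) : ℝ) : ℂ) + y * I) := by
    intro s hs hsτ
    obtain ⟨U, χ, hU⟩ := hD s (by linarith) hsτ
    rw [him] at hU
    have v1 := (sw_same hreg hU (by linarith : (0 : ℝ) ≤ s) le_rfl)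
    have v2 := (sw_same hreg hU (by linarith : (0 : ℝ) ≤ t') hs)
    have v3 := (sw_same hreg hU ht.le (by linarith : t ≤ s))
    have v4 := (sw_same hreg hU (by linarith : (0 : ℝ) ≤ s - (t' - t)) (by linarith))
    rw [v1.2, v4.2]
    have hcre : (((t' - t : ℝ) : ℂ) * d).re = 0 := by
      rw [re_ofReal_mul, hdI, mul_zero]
    have hsh := hU.br.sw_shift hcre
    have a1 : w₀ + ((t : ℂ) + y * I) * d + ((t' - t : ℝ) : ℂ) * d = w₀ + ((t' : ℂ) + y * I) * d := by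
      push_cast; ring
    have a2 : w₀ + (((s - (t' - t) : ℝ) : ℂ) + y * I) * d + ((t' - t : ℝ) : ℂ) * d
        = w₀ + ((s : ℂ) + y * I) * d := by
      push_cast; ring
    have hE := sw_unique hreg hU.op hU.conv hU.rhp
      (hU.op.preimage (by fun_prop : Continuous fun w : ℂ => w + ((t' - t : ℝ) : ℂ) * d))
      (sw_preim_convex hU.conv _) hU.br hsh v3.1.mem₂
      (by rw [mem_preimage, a1]; exact v2.1.mem₂)
      (by
        rw [a1, ← v3.2, ← v2.2, heq])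
    have := hE ⟨v4.1.mem₂, by rw [mem_preimage, a2]; exact v1.1.mem₂⟩
    simp only at this
    rw [this, a2]
  have hlim : Tendsto (fun s : ℝ => ‖swVal g χ₀ w₀ d (((s - (t' - t) : ℝ) : ℂ) + y * I)‖)
      (𝓝[<] τ) (𝓝 ‖swVal g χ₀ w₀ d (((τ - (t' - t) : ℝ) : ℂ) + y * I)‖) := by
    have h1 : Tendsto (fun s : ℝ => s - (t' - t)) (𝓝[<] τ) (𝓝 (τ - (t' - t))) :=
      ((continuous_id.sub continuous_const).tendsto τ).mono_left nhdsWithin_le_nhds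
    exact (hcont.tendsto.comp h1).norm
  refine not_tendsto_nhds_of_tendsto_atTop hesc _ (hlim.congr' ?_)
  filter_upwards [Ioo_mem_nhdsLT htτ] with s hs
  rw [key s hs.1.le hs.2]

/-- The sweep: continuation of a local branch `χ₀` along all segments in the direction `d`
starting from the segment `{w₀ + y I d : |y| < ρ₁}`, in the coordinate `ζ = t + i y`,
`w = w₀ + ζ d`.  Either the continuation reaches `t = T₀` or it escapes to infinity. -/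
theorem sweep (hc : Continuous g) (hreg : ∀ z, 0 < g z → RegRe g z) {w₀ : ℂ} {ρ : ℝ}
    {χ₀ : ℂ → ℂ} (h₀ : IsBranch g χ₀ (ball w₀ ρ)) (hinj : InjOn χ₀ (ball w₀ ρ))
    (hρR : ball w₀ ρ ⊆ RHP) {d : ℂ} (hd : d = 1 ∨ d = -1 ∨ d = I ∨ d = -I) {T₀ ρ₁ : ℝ}
    (hρ₁ : 0 < ρ₁) (hρ₁ρ : ρ₁ < ρ) (hT₀ : 0 < T₀)
    (hR : ∀ ζ : ℂ, 0 < ζ.re → ζ.re < T₀ → |ζ.im| < ρ₁ → w₀ + ζ * d ∈ RHP) :
    ∃ (D : Set ℂ) (χ : ℂ → ℂ), IsOpen D ∧
      (∀ ζ ∈ D, 0 < ζ.re ∧ ζ.re < T₀ ∧ |ζ.im| < ρ₁) ∧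
      DifferentiableOn ℂ χ D ∧ (∀ ζ ∈ D, g (χ ζ) = (w₀ + ζ * d).re) ∧
      (∀ ζ : ℂ, 0 < ζ.re → ζ.re < T₀ → |ζ.im| < ρ₁ → ‖ζ‖ < ρ → ζ ∈ D ∧ χ ζ = χ₀ (w₀ + ζ * d)) ∧
      (∀ y : ℝ, |y| < ρ₁ →
        (∀ t ∈ Ioo 0 T₀, (t + y * I : ℂ) ∈ D) ∨
        ∃ τ ∈ Ioo 0 T₀, (∀ t ∈ Ioo 0 τ, (t + y * I : ℂ) ∈ D) ∧
          (∀ t : ℝ, τ ≤ t → (t + y * I : ℂ) ∉ D) ∧
          Tendsto (fun t : ℝ => ‖χ (t + y * I)‖) (𝓝[<] τ) atTop) ∧
      (∀ ζ ∈ D, ∀ ζ' ∈ D, χ ζ = χ ζ' →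
        ζ.im = ζ'.im ∧ (ζ.re = ζ'.re ∨ ∀ t ∈ Ioo 0 T₀, (t + ζ.im * I : ℂ) ∈ D)) := by
  have hdn : ‖d‖ = 1 := by rcases hd with rfl | rfl | rfl | rfl <;> simp
  set D : Set ℂ := {ζ | 0 < ζ.re ∧ ζ.re < T₀ ∧ |ζ.im| < ρ₁ ∧ SwDom g χ₀ w₀ d ζ} with hDdef
  have him : ∀ s y : ℝ, ((s : ℂ) + y * I).im = y := by intro s y; simp
  have hre : ∀ s y : ℝ, ((s : ℂ) + y * I).re = s := by intro s y; simp
  have hform : ∀ ζ : ℂ, (ζ.re : ℂ) + ζ.im * I = ζ := re_add_im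
  have hbase : ∀ y : ℝ, |y| < ρ₁ → w₀ + (y * I : ℂ) * d ∈ ball w₀ ρ := fun y hy =>
    sw_base_mem hdn (hy.trans hρ₁ρ)
  -- local structure
  have hloc : ∀ ζ ∈ D, ∃ (U : Set ℂ) (χ : ℂ → ℂ),
      SwGd g χ₀ (w₀ + (ζ.im * I : ℂ) * d) (w₀ + ζ * d) U χ ∧
      ∀ᶠ ζ' in 𝓝 ζ, ζ' ∈ D ∧ swVal g χ₀ w₀ d ζ' = χ (w₀ + ζ' * d) := by
    rintro ζ ⟨h1, h2, h3, U, χ, hU⟩
    refine ⟨U, χ, hU, ?_⟩
    have c1 : ∀ᶠ ζ' : ℂ in 𝓝 ζ, 0 < ζ'.re := continuous_re.continuousAt.eventually (lt_mem_nhds h1)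
    have c2 : ∀ᶠ ζ' : ℂ in 𝓝 ζ, ζ'.re < T₀ := continuous_re.continuousAt.eventually (gt_mem_nhds h2)
    have c3 : ∀ᶠ ζ' : ℂ in 𝓝 ζ, |ζ'.im| < ρ₁ :=
      (continuous_im.abs).continuousAt.eventually (gt_mem_nhds h3)
    have c4 : ∀ᶠ ζ' : ℂ in 𝓝 ζ, w₀ + ζ' * d ∈ U :=
      (by fun_prop : Continuous fun ζ' : ℂ => w₀ + ζ' * d).continuousAt.eventually
        (hU.op.mem_nhds hU.mem₂)
    have c5 : ∀ᶠ ζ' : ℂ in 𝓝 ζ, w₀ + (ζ'.im * I : ℂ) * d ∈ U :=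
      (by fun_prop : Continuous fun ζ' : ℂ => w₀ + (ζ'.im * I : ℂ) * d).continuousAt.eventually
        (hU.op.mem_nhds hU.mem₁)
    filter_upwards [c1, c2, c3, c4, c5] with ζ' d1 d2 d3 d4 d5
    have hU' : SwGd g χ₀ (w₀ + (ζ'.im * I : ℂ) * d) (w₀ + ζ' * d) U χ :=
      hU.move hreg h₀ (hbase _ h3) (hbase _ d3) d5 d4
    exact ⟨⟨d1, d2, d3, U, χ, hU'⟩, swVal_eq hreg hU'⟩
  have hDo : IsOpen D := by
    rw [isOpen_iff_mem_nhds]
    intro ζ hζ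
    obtain ⟨U, χ, -, hev⟩ := hloc ζ hζ
    filter_upwards [hev] with ζ' h using h.1
  have hdiff : ∀ ζ ∈ D, DifferentiableAt ℂ (swVal g χ₀ w₀ d) ζ := by
    intro ζ hζ
    obtain ⟨U, χ, hU, hev⟩ := hloc ζ hζ
    have h1 : DifferentiableAt ℂ χ (w₀ + ζ * d) := hU.br.1.differentiableAt (hU.op.mem_nhds hU.mem₂)
    have h2 : DifferentiableAt ℂ (fun ζ' : ℂ => χ (w₀ + ζ' * d)) ζ :=
      DifferentiableAt.comp ζ (f := fun ζ' : ℂ => w₀ + ζ' * d) h1 (by fun_prop)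
    refine h2.congr_of_eventuallyEq ?_
    filter_upwards [hev] with ζ' h using h.2
  -- downward closed
  have hdown : ∀ y s t : ℝ, 0 < s → s ≤ t → ((t : ℂ) + y * I) ∈ D → ((s : ℂ) + y * I) ∈ D := by
    rintro y s t hs hst ⟨h1, h2, h3, U, χ, hU⟩
    rw [him] at hU h3
    rw [hre] at h1 h2
    refine ⟨by rw [hre]; exact hs, by rw [hre]; linarith, by rw [him]; exact h3, U, χ, ?_⟩
    exact (sw_same hreg hU hs.le hst).1
  have hsmall : ∀ ζ : ℂ, 0 < ζ.re → ζ.re < T₀ → |ζ.im| < ρ₁ → ‖ζ‖ < ρ →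
      ζ ∈ D ∧ swVal g χ₀ w₀ d ζ = χ₀ (w₀ + ζ * d) := by
    intro ζ h1 h2 h3 h4
    have hU : SwGd g χ₀ (w₀ + (ζ.im * I : ℂ) * d) (w₀ + ζ * d) (ball w₀ ρ) χ₀ :=
      ⟨isOpen_ball, convex_ball _ _, hρR, hbase _ h3, by
        rw [mem_ball, dist_eq_norm, add_sub_cancel_left, norm_mul, hdn, mul_one]; exact h4, h₀, rfl⟩
    exact ⟨⟨h1, h2, h3, _, _, hU⟩, swVal_eq hreg hU⟩
  -- slices
  have hslice : ∀ y : ℝ, |y| < ρ₁ →
        (∀ t ∈ Ioo 0 T₀, (t + y * I : ℂ) ∈ D) ∨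
        ∃ τ ∈ Ioo 0 T₀, (∀ t ∈ Ioo 0 τ, (t + y * I : ℂ) ∈ D) ∧
          (∀ t : ℝ, τ ≤ t → (t + y * I : ℂ) ∉ D) ∧
          Tendsto (fun t : ℝ => ‖swVal g χ₀ w₀ d (t + y * I)‖) (𝓝[<] τ) atTop := by
    intro y hy
    by_cases hfull : ∀ t ∈ Ioo 0 T₀, (t + y * I : ℂ) ∈ D
    · exact Or.inl hfull
    right
    push Not at hfull
    obtain ⟨t₁, ht₁, hnt₁⟩ := hfull
    set N : Set ℝ := {t | 0 < t ∧ (t + y * I : ℂ) ∉ D} with hN
    have hNne : N.Nonempty := ⟨t₁, ht₁.1, hnt₁⟩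
    have hNb : BddBelow N := ⟨0, fun t ht => ht.1.le⟩
    set τ := sInf N with hτdef
    -- small points are in D
    obtain ⟨ε, hε, hεD⟩ : ∃ ε > 0, ∀ t : ℝ, 0 < t → t < ε → (t + y * I : ℂ) ∈ D := by
      have hev : ∀ᶠ t : ℝ in 𝓝 0, t < T₀ ∧ ‖((t : ℂ) + y * I)‖ < ρ := by
        refine (gt_mem_nhds hT₀).and ?_
        have hcn : Continuous fun t : ℝ => ‖((t : ℂ) + y * I)‖ := by fun_prop
        refine hcn.continuousAt.eventually (gt_mem_nhds ?_)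
        simp only [ofReal_zero, zero_add, norm_mul, norm_real, norm_I, mul_one, Real.norm_eq_abs]
        exact hy.trans hρ₁ρ
      obtain ⟨ε, hε, hb⟩ := Metric.eventually_nhds_iff.1 hev
      refine ⟨ε, hε, fun t h0 h1 => ?_⟩
      have := hb (y := t) (by rw [dist_zero_right, Real.norm_eq_abs, abs_of_pos h0]; exact h1)
      exact (hsmall _ (by rw [hre]; exact h0) (by rw [hre]; exact this.1) (by rw [him]; exact hy)
        this.2).1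
    have hτpos : 0 < τ := by
      refine lt_of_lt_of_le hε (le_csInf hNne fun t ht => ?_)
      by_contra hlt
      exact ht.2 (hεD t ht.1 (not_le.1 hlt))
    have hτT : τ < T₀ := lt_of_le_of_lt (csInf_le hNb ⟨ht₁.1, hnt₁⟩) ht₁.2
    have hlt : ∀ t : ℝ, 0 < t → t < τ → (t + y * I : ℂ) ∈ D := by
      intro t h0 h1
      by_contra hcon
      exact absurd (csInf_le hNb (⟨h0, hcon⟩ : t ∈ N)) (not_le.2 h1)
    have hτn : (τ + y * I : ℂ) ∉ D := by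
      intro hmem
      have hev : ∀ᶠ t : ℝ in 𝓝 τ, ((t : ℂ) + y * I) ∈ D :=
        (by fun_prop : Continuous fun t : ℝ => ((t : ℂ) + y * I)).continuousAt.eventually
          (hDo.mem_nhds hmem)
      obtain ⟨ε', hε', hb⟩ := Metric.eventually_nhds_iff.1 hev
      have : τ + ε' / 2 ≤ τ := by
        refine le_csInf hNne fun t ht => ?_
        by_contra hcon
        push Not at hcon
        refine ht.2 (hdown y t (τ + ε' / 2) ht.1 hcon.le ?_)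
        refine hb ?_
        rw [Real.dist_eq, add_sub_cancel_left, abs_of_pos (by positivity)]
        linarith
      linarith
    have hge : ∀ t : ℝ, τ ≤ t → (t + y * I : ℂ) ∉ D := fun t ht hmem =>
      hτn (hdown y τ t hτpos ht hmem)
    refine ⟨τ, ⟨hτpos, hτT⟩, fun t ht => hlt t ht.1 ht.2, hge, ?_⟩
    refine sw_escape hc hreg hdn hτpos ?_ (fun t h0 h1 => (hlt t h0 h1).2.2.2) ?_
    · exact hR _ (by rw [hre]; exact hτpos) (by rw [hre]; exact hτT) (by rw [him]; exact hy)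
    · intro hcon
      exact hτn ⟨by rw [hre]; exact hτpos, by rw [hre]; exact hτT, by rw [him]; exact hy, hcon⟩
  have hgval : ∀ ζ ∈ D, g (swVal g χ₀ w₀ d ζ) = (w₀ + ζ * d).re := by
    rintro ζ ⟨h1, h2, h3, U, χ, hU⟩
    rw [swVal_eq hreg hU]
    exact hU.br.2 _ hU.mem₂
  -- a lemma for the full slices
  have hfullL : d.re = 0 → ∀ y t t' : ℝ, ((t : ℂ) + y * I) ∈ D → ((t' : ℂ) + y * I) ∈ D →
      t < t' → swVal g χ₀ w₀ d (t + y * I) = swVal g χ₀ w₀ d (t' + y * I) →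
      ∀ s ∈ Ioo 0 T₀, (s + y * I : ℂ) ∈ D := by
    intro hdI y t t' ht ht' htt heq
    have hy : |y| < ρ₁ := by have := ht.2.2.1; rwa [him] at this
    have ht0 : 0 < t := by have := ht.1; rwa [hre] at this
    rcases hslice y hy with h | ⟨τ, hτ, hin, hout, hesc⟩
    · exact h
    exfalso
    have htτ : t' < τ := by
      by_contra hcon
      exact hout t' (not_lt.1 hcon) ht'
    refine sw_full hreg hdI ht0 htt htτ (fun s h0 h1 => (hin s ⟨h0, h1⟩).2.2.2) ?_ heq hesc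
    have hmem : (((τ - (t' - t) : ℝ) : ℂ) + y * I) ∈ D := hin _ ⟨by linarith, by linarith⟩
    have h1 : ContinuousAt (swVal g χ₀ w₀ d) (((τ - (t' - t) : ℝ) : ℂ) + y * I) :=
      (hdiff _ hmem).continuousAt
    exact ContinuousAt.comp (f := fun s : ℝ => ((s : ℂ) + y * I)) h1 (by fun_prop)
  refine ⟨D, swVal g χ₀ w₀ d, hDo, fun ζ hζ => ⟨hζ.1, hζ.2.1, hζ.2.2.1⟩,
    fun ζ hζ => (hdiff ζ hζ).differentiableWithinAt, hgval, hsmall, hslice, ?_⟩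
  intro ζ hζ ζ' hζ' heq
  have hgeq : (w₀ + ζ * d).re = (w₀ + ζ' * d).re := by
    rw [← hgval ζ hζ, ← hgval ζ' hζ', heq]
  by_cases hdI : d.re = 0
  · -- d = ± I
    have himeq : ζ.im = ζ'.im := by
      rcases hd with rfl | rfl | rfl | rfl
      · simp at hdI
      · simp at hdI
      · simpa using hgeq
      · simpa using hgeq
    refine ⟨himeq, ?_⟩
    rcases lt_trichotomy ζ.re ζ'.re with h | h | h
    · right
      refine hfullL hdI ζ.im ζ.re ζ'.re ?_ ?_ h ?_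
      · rw [hform]; exact hζ
      · rw [himeq, hform]; exact hζ'
      · rw [hform, heq, himeq, hform]
    · exact Or.inl h
    · right
      refine hfullL hdI ζ.im ζ'.re ζ.re ?_ ?_ h ?_
      · rw [himeq, hform]; exact hζ'
      · rw [hform]; exact hζ
      · rw [hform, heq, himeq, hform]
  · -- d = ± 1
    have hd1 : d = 1 ∨ d = -1 := by
      rcases hd with rfl | rfl | rfl | rfl
      · exact Or.inl rfl
      · exact Or.inr rfl
      · simp at hdI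
      · simp at hdI
    have hreeq : ζ.re = ζ'.re := by
      rcases hd1 with rfl | rfl
      · simpa using hgeq
      · simpa using hgeq
    obtain ⟨h1, h2, h3, U, χ, hU⟩ := hζ
    obtain ⟨h1', h2', h3', U', χ', hU'⟩ := hζ'
    set c : ℂ := (ζ' - ζ) * d with hcdef
    have hcre : c.re = 0 := by
      rw [hcdef]
      rcases hd1 with rfl | rfl <;> simp [hreeq]
    have a1 : w₀ + ζ * d + c = w₀ + ζ' * d := by rw [hcdef]; ring
    have a2 : w₀ + (ζ.im * I : ℂ) * d + c = w₀ + (ζ'.im * I : ℂ) * d := by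
      have : ζ' - ζ = (ζ'.im * I - ζ.im * I : ℂ) := by
        apply Complex.ext <;> simp [hreeq]
      rw [hcdef, this]; ring
    have hE := sw_unique hreg hU.op hU.conv hU.rhp
      (hU'.op.preimage (by fun_prop : Continuous fun w : ℂ => w + c))
      (sw_preim_convex hU'.conv _) hU.br (hU'.br.sw_shift hcre) hU.mem₂
      (by rw [mem_preimage, a1]; exact hU'.mem₂)
      (by rw [a1, ← swVal_eq hreg hU, ← swVal_eq hreg hU', heq])
    have hv := hE ⟨hU.mem₁, by rw [mem_preimage, a2]; exact hU'.mem₁⟩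
    simp only at hv
    rw [a2, hU.val, hU'.val] at hv
    have hw := hinj (hbase _ h3) (hbase _ h3') hv
    have hii : ζ.im = ζ'.im := by
      have hd0 : d ≠ 0 := by
        intro h; rw [h] at hdn; simp at hdn
      have h5 : (ζ.im * I : ℂ) = ζ'.im * I := mul_right_cancel₀ hd0 (add_left_cancel hw)
      have h6 := mul_right_cancel₀ I_ne_zero h5
      exact_mod_cast h6
    exact ⟨hii, Or.inl hreeq⟩

end H6ea4aa
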