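import Pool.Agent.H.MP_6ea4aa_an.Cluster
import Pool.Agent.H.MP_3a36cd_an.SCV1

/-!
# MP_6ea4aa: the touching lemma
-/

set_option autoImplicit false

open Complex Set Filter Topology Metric

namespace H6ea4aa

/-- strict bound for the norm of a multiset sum -/
theorem touch_sum_lt {s : Multiset ℂ} {b : ℝ} (hs : s ≠ 0) (h : ∀ x ∈ s, ‖x‖ < b) :
    ‖s.sum‖ < Multiset.card s * b := by
  induction s using Multiset.induction_on with
  | empty => exact absurd rfl hs
  | cons a s ih =>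
    rcases eq_or_ne s 0 with h0 | h0
    · subst h0; simpa using h a (by simp)
    · have h1 := ih h0 (fun x hx => h x (Multiset.mem_cons_of_mem hx))
      have h2 := h a (Multiset.mem_cons_self a s)
      rw [Multiset.sum_cons, Multiset.card_cons]
      push_cast
      calc _ ≤ ‖a‖ + ‖s.sum‖ := norm_add_le _ _
        _ < _ := by linarith

theorem touch_sum_le {s : Multiset ℂ} {b : ℝ} (h : ∀ x ∈ s, ‖x‖ ≤ b) :
    ‖s.sum‖ ≤ Multiset.card s * b := by
  induction s using Multiset.induction_on with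
  | empty => simp
  | cons a s ih =>
    have h1 := ih (fun x hx => h x (Multiset.mem_cons_of_mem hx))
    have h2 := h a (Multiset.mem_cons_self a s)
    rw [Multiset.sum_cons, Multiset.card_cons]
    push_cast
    calc _ ≤ ‖a‖ + ‖s.sum‖ := norm_add_le _ _
      _ ≤ _ := by linarith

/-- difference of two multiset sums over the same multiset -/
theorem touch_sum_sub {s : Multiset ℂ} {f g : ℂ → ℂ} {b : ℝ} (h : ∀ x ∈ s, ‖f x - g x‖ ≤ b) :
    ‖(s.map f).sum - (s.map g).sum‖ ≤ Multiset.card s * b := by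
  rw [← Multiset.sum_map_sub]
  have := touch_sum_le (s := s.map (fun x => f x - g x)) (b := b) (by
    intro x hx
    rw [Multiset.mem_map] at hx
    obtain ⟨y, hy, rfl⟩ := hx
    exact h y hy)
  simpa using this

/-- finite sums over a fixed multiset are differentiable -/
theorem touch_sum_diff {s : Multiset ℂ} {f : ℂ → ℂ → ℂ} {z : ℂ}
    (h : ∀ x ∈ s, DifferentiableAt ℂ (f x) z) :
    DifferentiableAt ℂ (fun ζ => (s.map (fun x => f x ζ)).sum) z := by
  induction s using Multiset.induction_on with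
  | empty => simp
  | cons a s ih =>
    have h1 := ih (fun x hx => h x (Multiset.mem_cons_of_mem hx))
    have h2 := h a (Multiset.mem_cons_self a s)
    simp only [Multiset.map_cons, Multiset.sum_cons]
    exact h2.add h1

/-- the kernel sum is jointly holomorphic -/
theorem touch_joint {Z : ℂ → Multiset ℂ} {w₁ u₁ u₁' c : ℂ} {δ ρ s m : ℝ} {n : ℕ}
    (hm : 0 < m) (hρ : ρ < m / 4) (hs : s ≤ m / 4) (hd : m ≤ ‖u₁ - u₁'‖)
    (hcard : ∀ w ∈ ball w₁ δ, Multiset.card (Z w) = n)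
    (hmem : ∀ w ∈ ball w₁ δ, ∀ u ∈ Z w, u ∈ ball u₁' ρ)
    (hL : ∀ (V : Set ℂ), IsOpen V → V ⊆ ball w₁ δ → ∀ L : ℂ × ℂ → ℂ,
        (∀ w ∈ V, ∀ u ∈ closedBall u₁' ρ, ∃ O ∈ 𝓝 (w, u), DifferentiableOn ℂ L O) →
        DifferentiableOn ℂ (fun w => ((Z w).map (fun u => L (w, u))).sum) V) :
    DifferentiableOn ℂ (fun q : ℂ × ℂ => ((Z q.1).map (fun u' => c / (q.2 - u'))).sum)
      (ball w₁ δ ×ˢ ball u₁ s) := by
  have hUo : IsOpen (ball w₁ δ ×ˢ ball u₁ s) := isOpen_ball.prod isOpen_ball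
  -- distances
  have hfar : ∀ u ∈ ball u₁ s, ∀ u' ∈ closedBall u₁' ρ, m / 2 ≤ ‖u - u'‖ := by
    intro u hu u' hu'
    rw [mem_ball, dist_eq_norm] at hu
    rw [mem_closedBall, dist_eq_norm] at hu'
    have h1 : u₁ - u₁' = (u - u') - (u - u₁) + (u' - u₁') := by ring
    have h2 : ‖u₁ - u₁'‖ ≤ ‖u - u'‖ + ‖u - u₁‖ + ‖u' - u₁'‖ := by
      rw [h1]
      exact (norm_add_le _ _).trans (by gcongr; exact norm_sub_le _ _)
    linarith
  have hfar0 : ∀ u ∈ ball u₁ s, ∀ u' ∈ closedBall u₁' ρ, u - u' ≠ 0 := by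
    intro u hu u' hu' h0
    have := hfar u hu u' hu'
    rw [h0, norm_zero] at this
    linarith
  -- holomorphy along lines
  have hline : ∀ a ∈ ball w₁ δ ×ˢ ball u₁ s, ∀ v : ℂ × ℂ,
      DifferentiableAt ℂ (fun ζ : ℂ =>
        (fun q : ℂ × ℂ => ((Z q.1).map (fun u' => c / (q.2 - u'))).sum) (a + ζ • v)) 0 := by
    rintro ⟨w, u⟩ ⟨hw, hu⟩ ⟨v1, v2⟩
    simp only at hw hu
    simp only [Prod.smul_mk, smul_eq_mul, Prod.mk_add_mk]
    by_cases hv : v1 = 0
    · subst hv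
      simp only [mul_zero, add_zero]
      apply touch_sum_diff (f := fun u' ζ => c / (u + ζ * v2 - u'))
      intro u' hu'
      have hu'' := ball_subset_closedBall (hmem w hw u' hu')
      have h0 := hfar0 u hu u' hu''
      refine DifferentiableAt.div (by fun_prop) (by fun_prop) ?_
      simpa using h0
    · set V : Set ℂ := {w' | w' ∈ ball w₁ δ ∧ u + ((w' - w) / v1) * v2 ∈ ball u₁ s} with hV
      have hVo : IsOpen V := by
        apply isOpen_ball.inter
        exact isOpen_ball.preimage (by fun_prop)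
      have hVs : V ⊆ ball w₁ δ := fun x hx => hx.1
      have hwV : w ∈ V := ⟨hw, by simpa using hu⟩
      have h1 := hL V hVo hVs (fun q => c / (u + ((q.1 - w) / v1) * v2 - q.2)) (by
        intro w' hw' u' hu'
        have hne : u + ((w' - w) / v1) * v2 - u' ≠ 0 := hfar0 _ hw'.2 u' hu'
        have hcont : ContinuousAt (fun q : ℂ × ℂ => u + ((q.1 - w) / v1) * v2 - q.2) (w', u') := by
          fun_prop
        have hev := hcont.eventually_ne hne
        refine ⟨_, hev, ?_⟩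
        intro q hq
        have hnum : DifferentiableAt ℂ (fun _ : ℂ × ℂ => c) q := differentiableAt_const c
        have hden : DifferentiableAt ℂ
            (fun q : ℂ × ℂ => u + ((q.1 - w) / v1) * v2 - q.2) q := by fun_prop
        have hdiv : DifferentiableAt ℂ
            (fun q : ℂ × ℂ => c / (u + ((q.1 - w) / v1) * v2 - q.2)) q := by
          simp only [div_eq_mul_inv c]
          refine hnum.mul (hden.fun_inv ?_)
          exact hq
        exact hdiv.differentiableWithinAt)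
      have h2 : DifferentiableAt ℂ (fun w' => ((Z w').map
          (fun u' => c / (u + ((w' - w) / v1) * v2 - u'))).sum) w :=
        (h1 w hwV).differentiableAt (hVo.mem_nhds hwV)
      have h3 : DifferentiableAt ℂ (fun ζ : ℂ => w + ζ * v1) 0 := by fun_prop
      have h4 : (fun ζ : ℂ => w + ζ * v1) 0 = w := by simp
      rw [← h4] at h2
      have h5 := h2.comp (0 : ℂ) h3
      refine h5.congr_of_eventuallyEq (Eventually.of_forall fun ζ => ?_)
      simp only [Function.comp]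
      congr 1
      apply Multiset.map_congr rfl
      intro x _
      congr 3
      field_simp
      ring
  -- continuity
  have hcont : ContinuousOn (fun q : ℂ × ℂ => ((Z q.1).map (fun u' => c / (q.2 - u'))).sum)
      (ball w₁ δ ×ˢ ball u₁ s) := by
    rintro ⟨w, u⟩ ⟨hw, hu⟩
    simp only at hw hu
    apply ContinuousAt.continuousWithinAt
    -- continuity in w for fixed u
    have hc1 : ContinuousAt (fun w' => ((Z w').map (fun u' => c / (u - u'))).sum) w := by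
      have h1 := hL (ball w₁ δ) isOpen_ball subset_rfl (fun q => c / (u - q.2)) (by
        intro w' hw' u' hu'
        have hne : u - u' ≠ 0 := hfar0 _ hu u' hu'
        have hcont : ContinuousAt (fun q : ℂ × ℂ => u - q.2) (w', u') := by
          fun_prop
        have hev := hcont.eventually_ne hne
        refine ⟨_, hev, ?_⟩
        intro q hq
        have hnum : DifferentiableAt ℂ (fun _ : ℂ × ℂ => c) q := differentiableAt_const c
        have hden : DifferentiableAt ℂ (fun q : ℂ × ℂ => u - q.2) q := by fun_prop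
        have hdiv : DifferentiableAt ℂ (fun q : ℂ × ℂ => c / (u - q.2)) q := by
          simp only [div_eq_mul_inv c]
          refine hnum.mul (hden.fun_inv ?_)
          exact hq
        exact hdiv.differentiableWithinAt)
      exact ((h1 w hw).differentiableAt (isOpen_ball.mem_nhds hw)).continuousAt
    rw [Metric.continuousAt_iff]
    intro ε hε
    rw [Metric.continuousAt_iff] at hc1
    obtain ⟨d1, hd1, h1⟩ := hc1 (ε / 2) (by positivity)
    obtain ⟨d2, hd2, hd2s⟩ := Metric.isOpen_iff.mp hUo (w, u) ⟨hw, hu⟩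
    have hden : 0 < 4 * (n : ℝ) * ‖c‖ / m ^ 2 + 1 := by positivity
    refine ⟨min (min d1 d2) (ε / 2 / (4 * (n : ℝ) * ‖c‖ / m ^ 2 + 1)), by positivity, ?_⟩
    rintro ⟨w', v⟩ hq
    have hq1 := lt_of_lt_of_le hq ((min_le_left _ _).trans (min_le_left _ _))
    have hq2 := lt_of_lt_of_le hq ((min_le_left _ _).trans (min_le_right _ _))
    have hq3 := lt_of_lt_of_le hq (min_le_right _ _)
    have hmq := hd2s hq2
    obtain ⟨hw', hv⟩ := hmq
    simp only at hw' hv
    have e1 : dist w' w < d1 := lt_of_le_of_lt (by rw [Prod.dist_eq]; exact le_max_left _ _) hq1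
    have e2 : dist v u < ε / 2 / (4 * (n : ℝ) * ‖c‖ / m ^ 2 + 1) :=
      lt_of_le_of_lt (by rw [Prod.dist_eq]; exact le_max_right _ _) hq3
    have e3 := h1 e1
    have e4 : ‖((Z w').map (fun u' => c / (v - u'))).sum -
        ((Z w').map (fun u' => c / (u - u'))).sum‖ ≤ Multiset.card (Z w') *
          (4 * ‖c‖ * ‖v - u‖ / m ^ 2) := by
      apply touch_sum_sub
      intro x hx
      have hx' := ball_subset_closedBall (hmem w' hw' x hx)
      have n1 := hfar0 v hv x hx'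
      have n2 := hfar0 u hu x hx'
      have g1 := hfar v hv x hx'
      have g2 := hfar u hu x hx'
      have : c / (v - x) - c / (u - x) = c * (u - v) / ((v - x) * (u - x)) := by
        field_simp
        ring
      rw [this, norm_div, norm_mul, norm_mul, norm_sub_rev u v]
      rw [div_le_div_iff₀ (by positivity) (by positivity)]
      have g3 : m ^ 2 / 4 ≤ ‖v - x‖ * ‖u - x‖ := by nlinarith
      have g4 : 0 ≤ ‖c‖ * ‖v - u‖ := by positivity
      nlinarith
    rw [hcard w' hw', ← dist_eq_norm] at e4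
    have e5 : (n : ℝ) * (4 * ‖c‖ * ‖v - u‖ / m ^ 2) ≤ ε / 2 := by
      rw [dist_eq_norm] at e2
      have : (n : ℝ) * (4 * ‖c‖ * ‖v - u‖ / m ^ 2) =
        (4 * (n : ℝ) * ‖c‖ / m ^ 2) * ‖v - u‖ := by ring
      rw [this]
      rw [lt_div_iff₀ hden] at e2
      nlinarith [norm_nonneg (v - u)]
    calc _ ≤ _ := dist_triangle _ (((Z w').map (fun u' => c / (u - u'))).sum) _
      _ < _ := by simp only; linarith
  exact Pool.Agent.ParLeaf.scv_of_lines hUo hcont hline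

/-- local step: the minimal distance between two clusters of zeros is attained nearby -/
theorem touch_local {F : ℂ × ℂ → ℂ} {w₁ u₁ u₁' : ℂ} {s m : ℝ} (hs : 0 < s) (hm : 0 < m)
    (hd : ‖u₁ - u₁'‖ = m) (hF : DifferentiableOn ℂ F (ball (w₁, u₁) s))
    (hF' : DifferentiableOn ℂ F (ball (w₁, u₁') s)) (h0 : F (w₁, u₁) = 0) (h0' : F (w₁, u₁') = 0)
    (hne : ¬ ∀ᶠ u in 𝓝 u₁, F (w₁, u) = 0) (hne' : ¬ ∀ᶠ u in 𝓝 u₁', F (w₁, u) = 0)
    (hmin : ∀ w ∈ ball w₁ s, ∀ u ∈ ball u₁ s, ∀ u' ∈ ball u₁' s, F (w, u) = 0 → F (w, u') = 0 →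
      m ≤ ‖u - u'‖) :
    ∀ᶠ w in 𝓝 w₁, ∃ u ∈ ball u₁ s, ∃ u' ∈ ball u₁' s, F (w, u) = 0 ∧ F (w, u') = 0 ∧
      ‖u - u'‖ = m := by
  have hm4 : 0 < min s (m / 4) := by positivity
  obtain ⟨ρb, hρb, hρb1, hρbs, δb, hδb, hδbs, nb, Zb, hnb, hZb, -, hZb0, hLb⟩ :=
    cluster hs hF' h0' hne' (min s (m / 4)) hm4
  obtain ⟨ρa, hρa, hρa1, hρas, δa, hδa, hδas, na, Za, hna, hZa, -, hZa0, hLa⟩ :=
    cluster hs hF h0 hne (min s (m / 4)) hm4
  set c : ℂ := u₁ - u₁' with hc
  have hjoint := touch_joint (Z := Zb) (w₁ := w₁) (u₁ := u₁) (u₁' := u₁') (c := c) (δ := δb)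
    (ρ := ρb) (s := m / 4) (m := m) (n := nb) hm (lt_of_lt_of_le hρb1 (min_le_right _ _)) le_rfl
    hd.ge (fun w hw => (hZb w hw).1) (fun w hw u hu => (((hZb w hw).2 u).1 hu).1) hLb
  have hVo : IsOpen (ball w₁ (min δa δb)) := isOpen_ball
  have hVa : ball w₁ (min δa δb) ⊆ ball w₁ δa := ball_subset_ball (min_le_left _ _)
  have hVb : ball w₁ (min δa δb) ⊆ ball w₁ δb := ball_subset_ball (min_le_right _ _)
  have hφ := hLa (ball w₁ (min δa δb)) hVo hVa
    (fun q : ℂ × ℂ => ((Zb q.1).map (fun u' => c / (q.2 - u'))).sum) (by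
      intro w hw u hu
      refine ⟨ball w₁ δb ×ˢ ball u₁ (m / 4), ?_, hjoint⟩
      apply (isOpen_ball.prod isOpen_ball).mem_nhds
      exact ⟨hVb hw, closedBall_subset_ball (lt_of_lt_of_le hρa1 (min_le_right _ _)) hu⟩)
  simp only at hφ
  set φ : ℂ → ℂ := fun w => ((Za w).map (fun u => ((Zb w).map (fun u' => c / (u - u'))).sum)).sum
    with hφdef
  -- each term has norm at most one
  have hterm : ∀ w ∈ ball w₁ (min δa δb), ∀ u ∈ Za w, ∀ u' ∈ Zb w,
      u ∈ ball u₁ s ∧ u' ∈ ball u₁' s ∧ F (w, u) = 0 ∧ F (w, u') = 0 ∧ m ≤ ‖u - u'‖ := by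
    intro w hw u hu u' hu'
    have h1 := ((hZa w (hVa hw)).2 u).1 hu
    have h2 := ((hZb w (hVb hw)).2 u').1 hu'
    have h3 : u ∈ ball u₁ s := ball_subset_ball hρas.le h1.1
    have h4 : u' ∈ ball u₁' s := ball_subset_ball hρbs.le h2.1
    exact ⟨h3, h4, h1.2, h2.2, hmin w (ball_subset_ball hδbs.le (hVb hw)) u h3 u' h4 h1.2 h2.2⟩
  have hw1 : w₁ ∈ ball w₁ (min δa δb) := mem_ball_self (by positivity)
  have hφ1 : φ w₁ = (na : ℂ) * nb := by
    have hc0 : c ≠ 0 := by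
      intro h
      rw [h, norm_zero] at hd
      exact hm.ne hd
    have h1 : (Za w₁).map (fun u => ((Zb w₁).map (fun u' => c / (u - u'))).sum) =
        (Za w₁).map (fun _ => (nb : ℂ)) := by
      apply Multiset.map_congr rfl
      intro u hu
      have h2 : (Zb w₁).map (fun u' => c / (u - u')) = (Zb w₁).map (fun _ => (1 : ℂ)) := by
        apply Multiset.map_congr rfl
        intro u' hu'
        rw [hZa0 u hu, hZb0 u' hu', ← hc, div_self hc0]
      rw [h2]
      simp [(hZb w₁ (hVb hw1)).1]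
    rw [hφdef]
    simp only
    rw [h1]
    simp [(hZa w₁ (hVa hw1)).1]
  have hφle : ∀ w ∈ ball w₁ (min δa δb), ‖φ w‖ ≤ na * nb := by
    intro w hw
    have h1 : ∀ x ∈ (Za w).map (fun u => ((Zb w).map (fun u' => c / (u - u'))).sum),
        ‖x‖ ≤ nb := by
      intro x hx
      rw [Multiset.mem_map] at hx
      obtain ⟨u, hu, rfl⟩ := hx
      have h2 : ∀ y ∈ (Zb w).map (fun u' => c / (u - u')), ‖y‖ ≤ 1 := by
        intro y hy
        rw [Multiset.mem_map] at hy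
        obtain ⟨u', hu', rfl⟩ := hy
        have h3 := (hterm w hw u hu u' hu').2.2.2.2
        rw [norm_div, hd, div_le_one (lt_of_lt_of_le hm h3)]
        exact h3
      have h4 := touch_sum_le h2
      rw [Multiset.card_map, (hZb w (hVb hw)).1, mul_one] at h4
      exact h4
    have h5 := touch_sum_le h1
    rw [Multiset.card_map, (hZa w (hVa hw)).1] at h5
    exact h5
  have hmax : IsMaxOn (norm ∘ φ) (ball w₁ (min δa δb)) w₁ := by
    intro w hw
    show ‖φ w‖ ≤ ‖φ w₁‖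
    rw [hφ1]
    simpa using hφle w hw
  have hconst := Complex.eqOn_of_isPreconnected_of_isMaxOn_norm
    (convex_ball w₁ (min δa δb)).isPreconnected hVo hφ hw1 hmax
  filter_upwards [hVo.mem_nhds hw1] with w hw
  by_contra hcon
  push Not at hcon
  have h1 : φ w = (na : ℂ) * nb := by
    have := hconst hw
    rw [this]
    exact hφ1
  have hZa0' : Za w ≠ 0 := by
    intro h
    have := (hZa w (hVa hw)).1
    rw [h, Multiset.card_zero] at this
    omega
  have hZb0' : Zb w ≠ 0 := by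
    intro h
    have := (hZb w (hVb hw)).1
    rw [h, Multiset.card_zero] at this
    omega
  have h2 : ∀ x ∈ (Za w).map (fun u => ((Zb w).map (fun u' => c / (u - u'))).sum),
      ‖x‖ < nb := by
    intro x hx
    rw [Multiset.mem_map] at hx
    obtain ⟨u, hu, rfl⟩ := hx
    have h3 : ∀ y ∈ (Zb w).map (fun u' => c / (u - u')), ‖y‖ < 1 := by
      intro y hy
      rw [Multiset.mem_map] at hy
      obtain ⟨u', hu', rfl⟩ := hy
      obtain ⟨k1, k2, k3, k4, k5⟩ := hterm w hw u hu u' hu'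
      have k6 := hcon u k1 u' k2 k3 k4
      have k7 : m < ‖u - u'‖ := lt_of_le_of_ne k5 (Ne.symm k6)
      rw [norm_div, hd, div_lt_one (hm.trans k7)]
      exact k7
    have h4 := touch_sum_lt (by
      intro h
      exact hZb0' (Multiset.map_eq_zero.mp h)) h3
    rw [Multiset.card_map, (hZb w (hVb hw)).1, mul_one] at h4
    exact h4
  have h5 := touch_sum_lt (by
    intro h
    exact hZa0' (Multiset.map_eq_zero.mp h)) h2
  rw [Multiset.card_map, (hZa w (hVa hw)).1] at h5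
  have h6 : ‖φ w‖ < na * nb := h5
  rw [h1] at h6
  simp at h6

/-- roots of a given type -/
theorem touch_roots {f : ℂ → ℂ} {u₀ : ℂ} {ρ r η₀ : ℝ} (hρ : 0 < ρ) (hρr : ρ < r)
    (hf : DifferentiableOn ℂ f (ball u₀ r)) (hcirc : ∀ u, ‖u - u₀‖ = ρ → η₀ ≤ ‖f u‖)
    {A B : Set ℂ} (hA : IsOpen A) (hB : IsOpen B) (hAB : Disjoint A B)
    (hcov : ∀ u ∈ ball u₀ r, (f u).re < 0 → u ∈ A ∪ B)
    (hne : ∃ u ∈ ball u₀ ρ, u ∈ A ∧ (f u).re < 0 ∧ ‖f u‖ < η₀)
    {η : ℝ} (hη : 0 < η) (hη1 : η < η₀) : ∃ u ∈ ball u₀ ρ, u ∈ A ∧ f u = -(η : ℂ) := by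
  obtain ⟨p, hp, hpA, hpre, hpn⟩ := hne
  set H : Set ℂ := ball 0 η₀ ∩ {z | z.re < 0} with hH
  have hHo : IsOpen H := isOpen_ball.inter (isOpen_lt Complex.continuous_re continuous_const)
  have hHc : IsPreconnected H :=
    ((convex_ball (0 : ℂ) η₀).inter (convex_halfSpace_re_lt 0)).isPreconnected
  set W : Set ℂ := (ball u₀ ρ ∩ f ⁻¹' H) ∩ A with hW
  have hbr : ball u₀ ρ ⊆ ball u₀ r := ball_subset_ball hρr.le
  have hcr : closedBall u₀ ρ ⊆ ball u₀ r := closedBall_subset_ball hρr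
  have hWo : IsOpen W :=
    ((hf.continuousOn.mono hbr).isOpen_inter_preimage isOpen_ball hHo).inter hA
  have hWr : W ⊆ ball u₀ r := fun x hx => hbr hx.1.1
  have hopen : IsOpen (f '' W) := by
    rcases (hf.analyticOnNhd isOpen_ball).is_constant_or_isOpen
      (convex_ball u₀ r).isPreconnected with ⟨z, hz⟩ | h
    · exfalso
      have h1 : u₀ + ρ ∈ ball u₀ r := by
        apply hcr
        simp [abs_of_pos hρ]
      have h2 : η₀ ≤ ‖f (u₀ + ρ)‖ := hcirc _ (by simp [abs_of_pos hρ])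
      rw [hz _ h1] at h2
      rw [hz _ (hbr hp)] at hpn
      linarith
    · exact h W hWr hWo
  have hsub : H ⊆ f '' W := by
    refine hHc.subset_of_closure_inter_subset hopen ⟨f p, ?_, ⟨p, ?_, rfl⟩⟩ ?_
    · exact ⟨by simpa using hpn, hpre⟩
    · exact ⟨⟨hp, by simpa using hpn, hpre⟩, hpA⟩
    · rintro z ⟨hz, hzH⟩
      have hKc : IsCompact (closedBall u₀ ρ ∩ closure W) :=
        (isCompact_closedBall u₀ ρ).inter_right isClosed_closure
      have him : IsCompact (f '' (closedBall u₀ ρ ∩ closure W)) :=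
        hKc.image_of_continuousOn (hf.continuousOn.mono (fun x hx => hcr hx.1))
      have hsubim : f '' W ⊆ f '' (closedBall u₀ ρ ∩ closure W) :=
        image_mono (fun x hx => ⟨ball_subset_closedBall hx.1.1, subset_closure hx⟩)
      obtain ⟨v, ⟨hv1, hv2⟩, hv3⟩ := closure_minimal hsubim him.isClosed hz
      subst hv3
      have hvn : ‖f v‖ < η₀ := by simpa using hzH.1
      have hvb : v ∈ ball u₀ ρ := by
        rw [mem_closedBall, dist_eq_norm] at hv1
        rw [mem_ball, dist_eq_norm]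
        refine lt_of_le_of_ne hv1 (fun h => ?_)
        have := hcirc v h
        linarith
      have hvAB := hcov v (hbr hvb) hzH.2
      have hvA : v ∈ A := by
        rcases hvAB with h | h
        · exact h
        · exfalso
          have h1 : v ∈ closure A := closure_mono (fun x hx => hx.2) hv2
          rw [_root_.mem_closure_iff] at h1
          obtain ⟨x, hx1, hx2⟩ := h1 B hB h
          exact hAB.le_bot ⟨hx2, hx1⟩
      exact ⟨v, ⟨⟨hvb, hzH⟩, hvA⟩, rfl⟩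
  have hmem : -(η : ℂ) ∈ H := by
    refine ⟨?_, ?_⟩
    · simpa [abs_of_pos hη] using hη1
    · show (-(η : ℂ)).re < 0
      simpa using hη
  obtain ⟨u, hu, hu2⟩ := hsub hmem
  exact ⟨u, hu.1.1, hu.2, hu2⟩

theorem touching {F : ℂ × ℂ → ℂ} {w₀ u₀ : ℂ} {r κ : ℝ} (hr : 0 < r) (hκ : 0 < κ)
    (hF : DifferentiableOn ℂ F (ball (w₀, u₀) r)) (h0 : F (w₀, u₀) = 0)
    {A B : Set (ℂ × ℂ)} (hA : IsOpen A) (hB : IsOpen B) (hAB : Disjoint A B)
    (hcov : ∀ q ∈ ball (w₀, u₀) r, (F q).re < κ * ‖q.1 - w₀‖ ^ 2 → q ∈ A ∪ B)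
    (hadA : ∀ ε > 0, ∃ u ∈ ball u₀ ε, (w₀, u) ∈ A ∧ (F (w₀, u)).re < 0)
    (hadB : ∀ ε > 0, ∃ u ∈ ball u₀ ε, (w₀, u) ∈ B ∧ (F (w₀, u)).re < 0) : False := by
  -- the slice
  have hslice : ∀ w ∈ ball w₀ r, ∀ u ∈ ball u₀ r, (w, u) ∈ ball (w₀, u₀) r := by
    intro w hw u hu
    rw [← ball_prod_same]
    exact ⟨hw, hu⟩
  have hslD : ∀ w ∈ ball w₀ r, DifferentiableOn ℂ (fun u => F (w, u)) (ball u₀ r) := by
    intro w hw
    exact hF.comp (by fun_prop) (fun u hu => hslice w hw u hu)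
  have hw0 : w₀ ∈ ball w₀ r := mem_ball_self hr
  have hu0 : u₀ ∈ ball u₀ r := mem_ball_self hr
  have hnc : ¬ ∀ᶠ u in 𝓝 u₀, F (w₀, u) = 0 := by
    intro h
    rw [Metric.eventually_nhds_iff_ball] at h
    obtain ⟨ε, hε, h⟩ := h
    obtain ⟨u, hu, -, hu2⟩ := hadA ε hε
    rw [h u hu] at hu2
    simp at hu2
  obtain ⟨ρ, hρ, hρr, hρne⟩ : ∃ ρ > 0, ρ < r ∧ ∀ u ∈ closedBall u₀ ρ, u ≠ u₀ →
      F (w₀, u) ≠ 0 := by
    have han : AnalyticAt ℂ (fun u => F (w₀, u)) u₀ :=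
      (hslD w₀ hw0).analyticAt (isOpen_ball.mem_nhds hu0)
    rcases han.eventually_eq_zero_or_eventually_ne_zero with h | h
    · exact absurd h hnc
    · rw [eventually_nhdsWithin_iff, Metric.eventually_nhds_iff_ball] at h
      obtain ⟨ε, hε, h⟩ := h
      refine ⟨min ε r / 2, by positivity, ?_, ?_⟩
      · have := min_le_right ε r
        have : 0 < min ε r := by positivity
        linarith
      · intro u hu hne
        refine h u ?_ hne
        rw [mem_closedBall] at hu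
        rw [mem_ball]
        have := min_le_left ε r
        have : 0 < min ε r := by positivity
        linarith
  -- a bidisc on which the boundary values stay away from zero
  obtain ⟨r₁, hr₁, hr₁r, hr₁ne⟩ : ∃ r₁ > 0, r₁ < r ∧ ∀ w ∈ closedBall w₀ r₁, ∀ u ∈ sphere u₀ ρ,
      F (w, u) ≠ 0 := by
    have hO : IsOpen (ball (w₀, u₀) r ∩ F ⁻¹' {0}ᶜ) :=
      hF.continuousOn.isOpen_inter_preimage isOpen_ball isOpen_compl_singleton
    have hsub : ({w₀} : Set ℂ) ×ˢ sphere u₀ ρ ⊆ ball (w₀, u₀) r ∩ F ⁻¹' {0}ᶜ := by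
      rintro ⟨w, u⟩ ⟨hw, hu⟩
      simp only [mem_singleton_iff] at hw
      subst hw
      simp only at hu
      refine ⟨hslice w hw0 u (closedBall_subset_ball hρr (sphere_subset_closedBall hu)), ?_⟩
      refine hρne u (sphere_subset_closedBall hu) ?_
      rintro rfl
      rw [mem_sphere, dist_self] at hu
      exact hρ.ne hu
    obtain ⟨U, V, hU, hV, hwU, hsV, hUV⟩ :=
      generalized_tube_lemma isCompact_singleton (isCompact_sphere u₀ ρ) hO hsub
    obtain ⟨ε, hε, hεU⟩ := Metric.isOpen_iff.mp hU w₀ (hwU rfl)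
    refine ⟨min ε r / 2, by positivity, ?_, ?_⟩
    · have := min_le_right ε r
      have : 0 < min ε r := by positivity
      linarith
    · intro w hw u hu
      have h1 : w ∈ U := hεU (by
        rw [mem_closedBall] at hw
        rw [mem_ball]
        have := min_le_left ε r
        have : 0 < min ε r := by positivity
        linarith)
      exact (hUV ⟨h1, hsV hu⟩).2
  set K : Set (ℂ × ℂ) := closedBall w₀ r₁ ×ˢ closedBall u₀ ρ with hK
  have hKc : IsCompact K := (isCompact_closedBall _ _).prod (isCompact_closedBall _ _)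
  have hKs : K ⊆ ball (w₀, u₀) r := by
    rintro ⟨w, u⟩ ⟨hw, hu⟩
    exact hslice w (closedBall_subset_ball hr₁r hw) u (closedBall_subset_ball hρr hu)
  have hFK : ContinuousOn F K := hF.continuousOn.mono hKs
  obtain ⟨η₀, hη₀, hη₀F⟩ : ∃ η₀ : ℝ, 0 < η₀ ∧ ∀ w ∈ closedBall w₀ r₁, ∀ u ∈ sphere u₀ ρ,
      η₀ ≤ ‖F (w, u)‖ := by
    have hc : IsCompact (closedBall w₀ r₁ ×ˢ sphere u₀ ρ) :=
      (isCompact_closedBall _ _).prod (isCompact_sphere _ _)
    have hcont : ContinuousOn (fun q => ‖F q‖) (closedBall w₀ r₁ ×ˢ sphere u₀ ρ) :=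
      (hFK.mono (prod_mono_right sphere_subset_closedBall)).norm
    obtain ⟨a, ha, h⟩ := hc.exists_forall_le' hcont (a := 0) (by
      rintro ⟨w, u⟩ ⟨hw, hu⟩
      exact norm_pos_iff.mpr (hr₁ne w hw u hu))
    exact ⟨a, ha, fun w hw u hu => h (w, u) ⟨hw, hu⟩⟩
  -- compactness of the typed parts
  have htype : ∀ G : Set (ℂ × ℂ), IsCompact G → G ⊆ A ∪ B →
      IsCompact (G ∩ A) ∧ IsCompact (G ∩ B) := by
    intro G hG hGAB
    constructor
    · have : G ∩ A = G ∩ Bᶜ := by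
        ext q
        constructor
        · rintro ⟨h1, h2⟩
          exact ⟨h1, fun h3 => hAB.le_bot ⟨h2, h3⟩⟩
        · rintro ⟨h1, h2⟩
          exact ⟨h1, (hGAB h1).resolve_right h2⟩
      rw [this]
      exact hG.inter_right hB.isClosed_compl
    · have : G ∩ B = G ∩ Aᶜ := by
        ext q
        constructor
        · rintro ⟨h1, h2⟩
          exact ⟨h1, fun h3 => hAB.le_bot ⟨h3, h2⟩⟩
        · rintro ⟨h1, h2⟩
          exact ⟨h1, (hGAB h1).resolve_left h2⟩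
      rw [this]
      exact hG.inter_right hA.isClosed_compl
  -- step 3: boundary distance
  set G₁ : Set (ℂ × ℂ) := (K ∩ {q | ‖q.1 - w₀‖ = r₁}) ∩ (K ∩ F ⁻¹' {z | z.re ≤ 0}) with hG₁
  have hG₁c : IsCompact G₁ := by
    have h1 : IsCompact (K ∩ {q : ℂ × ℂ | ‖q.1 - w₀‖ = r₁}) :=
      hKc.inter_right (isClosed_eq (by fun_prop) continuous_const)
    have h2 : IsClosed (K ∩ F ⁻¹' {z | z.re ≤ 0}) :=
      hFK.preimage_isClosed_of_isClosed hKc.isClosed
        (isClosed_le Complex.continuous_re continuous_const)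
    exact h1.inter_right h2
  have hG₁AB : G₁ ⊆ A ∪ B := by
    rintro q ⟨⟨hq1, hq2⟩, -, hq3⟩
    apply hcov q (hKs hq1)
    have h1 : (F q).re ≤ 0 := hq3
    have h2 : ‖q.1 - w₀‖ = r₁ := hq2
    rw [h2]
    have : 0 < κ * r₁ ^ 2 := by positivity
    linarith
  obtain ⟨hG₁A, hG₁B⟩ := htype G₁ hG₁c hG₁AB
  obtain ⟨d₀, hd₀, hd₀G⟩ : ∃ d₀ : ℝ, 0 < d₀ ∧ ∀ q ∈ G₁ ∩ A, ∀ q' ∈ G₁ ∩ B, d₀ ≤ dist q q' := by
    have hdis : Disjoint (G₁ ∩ A) (G₁ ∩ B) := by
      rw [Set.disjoint_left]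
      intro q h1 h2
      exact hAB.le_bot ⟨h1.2, h2.2⟩
    obtain ⟨t, ht, h⟩ := Metric.exists_pos_forall_lt_edist hG₁A hG₁B.isClosed hdis
    refine ⟨t, by exact_mod_cast ht, fun q hq q' hq' => ?_⟩
    have h1 := h q hq q' hq'
    rw [edist_nndist, ENNReal.coe_lt_coe] at h1
    have h2 : (t : ℝ) < (nndist q q' : ℝ) := by exact_mod_cast h1
    rw [coe_nndist] at h2
    exact h2.le
  -- step 2: the choice of η
  obtain ⟨μ, hμ, hμF⟩ : ∃ μ : ℝ, 0 < μ ∧ ∀ u ∈ closedBall u₀ ρ, d₀ / 2 ≤ ‖u - u₀‖ →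
      μ ≤ ‖F (w₀, u)‖ := by
    have hc : IsCompact (closedBall u₀ ρ ∩ {u | d₀ / 2 ≤ ‖u - u₀‖}) :=
      (isCompact_closedBall _ _).inter_right (isClosed_le continuous_const (by fun_prop))
    have hcont : ContinuousOn (fun u => ‖F (w₀, u)‖)
        (closedBall u₀ ρ ∩ {u | d₀ / 2 ≤ ‖u - u₀‖}) :=
      ((hslD w₀ hw0).continuousOn.mono
        (fun u hu => closedBall_subset_ball hρr hu.1)).norm
    obtain ⟨a, ha, h⟩ := hc.exists_forall_le' hcont (a := 0) (by
      rintro u ⟨hu1, hu2⟩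
      refine norm_pos_iff.mpr (hρne u hu1 ?_)
      rintro rfl
      have h3 : d₀ / 2 ≤ ‖u - u‖ := hu2
      rw [sub_self, norm_zero] at h3
      linarith)
    exact ⟨a, ha, fun u hu hu2 => h u ⟨hu, hu2⟩⟩
  set η : ℝ := min η₀ μ / 2 with hηdef
  have hη : 0 < η := by positivity
  have hηη₀ : η < η₀ := by
    have := min_le_left η₀ μ
    have : 0 < min η₀ μ := by positivity
    linarith
  have hημ : η < μ := by
    have := min_le_right η₀ μ
    have : 0 < min η₀ μ := by positivity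
    linarith
  -- step 1: roots
  have hnear : ∀ C : Set (ℂ × ℂ), (∀ ε > 0, ∃ u ∈ ball u₀ ε, (w₀, u) ∈ C ∧ (F (w₀, u)).re < 0) →
      ∃ u ∈ ball u₀ ρ, u ∈ (fun u => (w₀, u)) ⁻¹' C ∧ (F (w₀, u)).re < 0 ∧
        ‖F (w₀, u)‖ < η₀ := by
    intro C hC
    have hc : ContinuousAt (fun u => F (w₀, u)) u₀ :=
      ((hslD w₀ hw0).differentiableAt (isOpen_ball.mem_nhds hu0)).continuousAt
    rw [Metric.continuousAt_iff] at hc
    obtain ⟨ε, hε, h⟩ := hc η₀ hη₀
    obtain ⟨u, hu, huC, hure⟩ := hC (min ε ρ) (by positivity)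
    refine ⟨u, ball_subset_ball (min_le_right _ _) hu, huC, hure, ?_⟩
    have := h (lt_of_lt_of_le (mem_ball.mp hu) (min_le_left _ _))
    rw [h0, dist_zero_right] at this
    exact this
  have hcovs : ∀ u ∈ ball u₀ r, (F (w₀, u)).re < 0 →
      u ∈ (fun u => (w₀, u)) ⁻¹' A ∪ (fun u => (w₀, u)) ⁻¹' B := by
    intro u hu hre
    have := hcov (w₀, u) (hslice w₀ hw0 u hu) (by simpa using hre)
    exact this
  have hslA : IsOpen ((fun u : ℂ => (w₀, u)) ⁻¹' A) := hA.preimage (by fun_prop)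
  have hslB : IsOpen ((fun u : ℂ => (w₀, u)) ⁻¹' B) := hB.preimage (by fun_prop)
  have hcirc : ∀ u, ‖u - u₀‖ = ρ → η₀ ≤ ‖F (w₀, u)‖ := fun u hu =>
    hη₀F w₀ (mem_closedBall_self hr₁.le) u (by rwa [mem_sphere, dist_eq_norm])
  obtain ⟨ua, hua, huaA, hFua⟩ := touch_roots hρ hρr (hslD w₀ hw0) hcirc hslA hslB
    (hAB.preimage _) hcovs (hnear A hadA) hη hηη₀
  obtain ⟨ub, hub, hubB, hFub⟩ := touch_roots hρ hρr (hslD w₀ hw0) hcirc hslB hslA
    (hAB.symm.preimage _) (fun u hu h => (hcovs u hu h).symm) (hnear B hadB) hη hηη₀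
  have hclose : ∀ u ∈ ball u₀ ρ, F (w₀, u) = -(η : ℂ) → ‖u - u₀‖ < d₀ / 2 := by
    intro u hu hFu
    by_contra h
    push Not at h
    have h1 := hμF u (ball_subset_closedBall hu) h
    rw [hFu, norm_neg, Complex.norm_real, Real.norm_of_nonneg hη.le] at h1
    linarith
  have hab : ‖ua - ub‖ < d₀ := by
    have h1 := hclose ua hua hFua
    have h2 := hclose ub hub hFub
    calc ‖ua - ub‖ = ‖(ua - u₀) - (ub - u₀)‖ := by ring_nf
      _ ≤ ‖ua - u₀‖ + ‖ub - u₀‖ := norm_sub_le _ _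
      _ < d₀ := by linarith
  -- step 4
  set G : Set (ℂ × ℂ) := K ∩ F ⁻¹' {-(η : ℂ)} with hG
  have hGc : IsCompact G := by
    have h2 : IsClosed (K ∩ F ⁻¹' {-(η : ℂ)}) :=
      hFK.preimage_isClosed_of_isClosed hKc.isClosed isClosed_singleton
    have h3 : G = K ∩ G := by
      rw [hG, ← inter_assoc, inter_self]
    rw [h3]
    exact hKc.inter_right h2
  have hGF : ∀ q ∈ G, F q = -(η : ℂ) := fun q hq => hq.2
  have hGAB : G ⊆ A ∪ B := by
    intro q hq
    apply hcov q (hKs hq.1)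
    rw [hGF q hq]
    have h1 : (-(η : ℂ)).re < 0 := by simpa using hη
    have : 0 ≤ κ * ‖q.1 - w₀‖ ^ 2 := by positivity
    linarith
  obtain ⟨hGA, hGB⟩ := htype G hGc hGAB
  set T : Set ((ℂ × ℂ) × (ℂ × ℂ)) := ((G ∩ A) ×ˢ (G ∩ B)) ∩ {p | p.1.1 = p.2.1} with hT
  have hTc : IsCompact T :=
    (hGA.prod hGB).inter_right (isClosed_eq (by fun_prop) (by fun_prop))
  have hTne : ((w₀, ua), (w₀, ub)) ∈ T := by
    refine ⟨⟨⟨⟨⟨mem_closedBall_self hr₁.le, ball_subset_closedBall hua⟩, hFua⟩, huaA⟩,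
      ⟨⟨⟨mem_closedBall_self hr₁.le, ball_subset_closedBall hub⟩, hFub⟩, hubB⟩⟩, rfl⟩
  have hfc : Continuous (fun p : (ℂ × ℂ) × (ℂ × ℂ) => ‖p.1.2 - p.2.2‖) := by fun_prop
  obtain ⟨p₀, hp₀, hp₀min⟩ := hTc.exists_isMinOn ⟨_, hTne⟩ hfc.continuousOn
  set m : ℝ := ‖p₀.1.2 - p₀.2.2‖ with hmdef
  have hmmin : ∀ p ∈ T, m ≤ ‖p.1.2 - p.2.2‖ := fun p hp => hp₀min hp
  have hmd : m < d₀ := lt_of_le_of_lt (hmmin _ hTne) hab
  have hmpos : 0 < m := by
    rw [hmdef, norm_pos_iff, sub_ne_zero]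
    intro h
    have h1 : p₀.1.1 = p₀.2.1 := hp₀.2
    have h2 : p₀.1 = p₀.2 := Prod.ext h1 h
    have h3 : p₀.1 ∈ A := hp₀.1.1.2
    have h4 : p₀.2 ∈ B := hp₀.1.2.2
    rw [← h2] at h4
    exact hAB.le_bot ⟨h3, h4⟩
  set Wm : Set ℂ := (fun p : (ℂ × ℂ) × (ℂ × ℂ) => p.1.1) ''
    (T ∩ {p | ‖p.1.2 - p.2.2‖ = m}) with hWm
  have hWmc : IsCompact Wm :=
    (hTc.inter_right (isClosed_eq hfc continuous_const)).image (by fun_prop)
  have hWmne : Wm.Nonempty := ⟨p₀.1.1, p₀, ⟨hp₀, rfl⟩, rfl⟩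
  have hWmo : IsOpen Wm := by
    rw [isOpen_iff_mem_nhds]
    rintro w₁ ⟨⟨⟨w, u₁⟩, ⟨w', u₁'⟩⟩, ⟨⟨⟨hqA, hqB⟩, hww⟩, hdm⟩, rfl⟩
    simp only at hqA hqB
    have hww' : w = w' := hww
    subst hww'
    have hdm' : ‖u₁ - u₁'‖ = m := hdm
    have hF1 : F (w, u₁) = -(η : ℂ) := hqA.1.2
    have hF1' : F (w, u₁') = -(η : ℂ) := hqB.1.2
    have hwK : w ∈ closedBall w₀ r₁ := hqA.1.1.1
    have hu₁K : u₁ ∈ closedBall u₀ ρ := hqA.1.1.2
    have hu₁K' : u₁' ∈ closedBall u₀ ρ := hqB.1.1.2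
    -- interior in w
    have hwb : w ∈ ball w₀ r₁ := by
      rw [mem_closedBall, dist_eq_norm] at hwK
      rw [mem_ball, dist_eq_norm]
      refine lt_of_le_of_ne hwK (fun h => ?_)
      have hre : ∀ u, F (w, u) = -(η : ℂ) → (F (w, u)).re ≤ 0 := by
        intro u hu
        rw [hu]
        simpa using hη.le
      have h1 : (w, u₁) ∈ G₁ ∩ A := ⟨⟨⟨hqA.1.1, h⟩, ⟨hqA.1.1, hre u₁ hF1⟩⟩, hqA.2⟩
      have h2 : (w, u₁') ∈ G₁ ∩ B := ⟨⟨⟨hqB.1.1, h⟩, ⟨hqB.1.1, hre u₁' hF1'⟩⟩, hqB.2⟩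
      have h3 := hd₀G _ h1 _ h2
      rw [Prod.dist_eq] at h3
      simp only [dist_self] at h3
      rw [dist_eq_norm, hdm', max_eq_right hmpos.le] at h3
      linarith
    have hwr : w ∈ ball w₀ r := ball_subset_ball hr₁r.le hwb
    -- interior in u
    have hintu : ∀ u ∈ closedBall u₀ ρ, F (w, u) = -(η : ℂ) → u ∈ ball u₀ ρ := by
      intro u hu hFu
      rw [mem_closedBall, dist_eq_norm] at hu
      rw [mem_ball, dist_eq_norm]
      refine lt_of_le_of_ne hu (fun h => ?_)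
      have h1 := hη₀F w hwK u (by rwa [mem_sphere, dist_eq_norm])
      rw [hFu, norm_neg, Complex.norm_real, Real.norm_of_nonneg hη.le] at h1
      linarith
    have hu₁b := hintu u₁ hu₁K hF1
    have hu₁b' := hintu u₁' hu₁K' hF1'
    -- not identically zero
    have hnz : ∀ u ∈ ball u₀ ρ, ¬ ∀ᶠ v in 𝓝 u, F (w, v) + η = 0 := by
      intro u hu h
      have han : AnalyticOnNhd ℂ (fun v => F (w, v) + η) (ball u₀ r) :=
        ((hslD w hwr).add_const (η : ℂ)).analyticOnNhd isOpen_ball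
      have h1 := han.eqOn_zero_of_preconnected_of_eventuallyEq_zero
        (convex_ball u₀ r).isPreconnected (ball_subset_ball hρr.le hu) h
      have h2 : u₀ + ρ ∈ sphere u₀ ρ := by simp [abs_of_pos hρ]
      have h3 := h1 (closedBall_subset_ball hρr (sphere_subset_closedBall h2))
      have h4 := hη₀F w hwK _ h2
      have h5 : F (w, u₀ + ρ) = -(η : ℂ) := by
        have : F (w, u₀ + ρ) + η = 0 := h3
        exact eq_neg_of_add_eq_zero_left this
      rw [h5, norm_neg, Complex.norm_real, Real.norm_of_nonneg hη.le] at h4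
      linarith
    -- small radius
    have hOA : IsOpen (A ∩ (ball w₀ r₁ ×ˢ ball u₀ ρ)) := hA.inter (isOpen_ball.prod isOpen_ball)
    have hOB : IsOpen (B ∩ (ball w₀ r₁ ×ˢ ball u₀ ρ)) := hB.inter (isOpen_ball.prod isOpen_ball)
    obtain ⟨sa, hsa, hsaS⟩ := Metric.isOpen_iff.mp hOA (w, u₁) ⟨hqA.2, hwb, hu₁b⟩
    obtain ⟨sb, hsb, hsbS⟩ := Metric.isOpen_iff.mp hOB (w, u₁') ⟨hqB.2, hwb, hu₁b'⟩
    have hbig : ball w₀ r₁ ×ˢ ball u₀ ρ ⊆ ball (w₀, u₀) r := by
      intro q hq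
      exact hKs ⟨ball_subset_closedBall hq.1, ball_subset_closedBall hq.2⟩
    have hFη : DifferentiableOn ℂ (fun q => F q + η) (ball (w₀, u₀) r) := hF.add_const (η : ℂ)
    have hpair : ∀ w' ∈ ball w (min sa sb), ∀ u ∈ ball u₁ (min sa sb),
        ∀ u' ∈ ball u₁' (min sa sb), F (w', u) + η = 0 → F (w', u') + η = 0 →
        ((w', u), (w', u')) ∈ T := by
      intro w' hw' u hu u' hu' h1 h2
      have k1 : (w', u) ∈ A ∩ (ball w₀ r₁ ×ˢ ball u₀ ρ) := hsaS (by
        rw [← ball_prod_same]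
        exact ⟨ball_subset_ball (min_le_left _ _) hw', ball_subset_ball (min_le_left _ _) hu⟩)
      have k2 : (w', u') ∈ B ∩ (ball w₀ r₁ ×ˢ ball u₀ ρ) := hsbS (by
        rw [← ball_prod_same]
        exact ⟨ball_subset_ball (min_le_right _ _) hw', ball_subset_ball (min_le_right _ _) hu'⟩)
      have k3 : F (w', u) = -(η : ℂ) := eq_neg_of_add_eq_zero_left h1
      have k4 : F (w', u') = -(η : ℂ) := eq_neg_of_add_eq_zero_left h2
      exact ⟨⟨⟨⟨⟨ball_subset_closedBall k1.2.1, ball_subset_closedBall k1.2.2⟩, k3⟩, k1.1⟩,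
        ⟨⟨⟨ball_subset_closedBall k2.2.1, ball_subset_closedBall k2.2.2⟩, k4⟩, k2.1⟩⟩, rfl⟩
    have hloc := touch_local (F := fun q => F q + η) (w₁ := w) (u₁ := u₁) (u₁' := u₁')
      (s := min sa sb) (m := m) (by positivity) hmpos hdm'
      (hFη.mono (fun q hq => hbig (hsaS (ball_subset_ball (min_le_left _ _) hq)).2))
      (hFη.mono (fun q hq => hbig (hsbS (ball_subset_ball (min_le_right _ _) hq)).2))
      (by simp [hF1]) (by simp [hF1']) (hnz u₁ hu₁b) (hnz u₁' hu₁b')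
      (fun w' hw' u hu u' hu' h1 h2 => hmmin _ (hpair w' hw' u hu u' hu' h1 h2))
    have hballw : ∀ᶠ w' in 𝓝 w, w' ∈ ball w (min sa sb) :=
      isOpen_ball.mem_nhds (mem_ball_self (by positivity))
    filter_upwards [hloc, hballw] with w' hw' hw'b
    obtain ⟨u, hu, u', hu', k1, k2, k3⟩ := hw'
    exact ⟨((w', u), (w', u')), ⟨hpair w' hw'b u hu u' hu' k1 k2, k3⟩, rfl⟩
  have huniv : Wm = univ := IsClopen.eq_univ ⟨hWmc.isClosed, hWmo⟩ hWmne
  exact hWmc.ne_univ huniv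

end H6ea4aa
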