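import Pool.Agent.H.MP_6ea4aa_an.Fam

/-!
# MP_6ea4aa: the two types of zeros
-/

set_option autoImplicit false

open Complex Set Filter Topology Metric

namespace H6ea4aa

variable {c b : ℂ} {Ch : Chart c b} {W : Win Ch}

/-! ### iterates of the fibred affine map -/

/-- the inhomogeneous part of the iterates -/
noncomputable def tyK (Ch : Chart c b) : ℕ → ℂ → ℂ
  | 0, _ => 0
  | (m + 1), w => (b / 2) * tyK Ch m w + Ch.κ (2 ^ m * w)

theorem ty_iter (m : ℕ) (q : ℂ × ℂ) :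
    (ft Ch)^[m] q = (2 ^ m * q.1, (b / 2) ^ m * q.2 + tyK Ch m q.1) := by
  induction m with
  | zero => simp [tyK]
  | succ m ih =>
    rw [Function.iterate_succ_apply', ih, ft]
    simp only [tyK, Prod.mk.injEq]
    constructor <;> ring

theorem tyK_cont (Ch : Chart c b) (m : ℕ) : Continuous (tyK Ch m) := by
  induction m with
  | zero => exact continuous_const
  | succ m ih =>
    have : tyK Ch (m + 1) = fun w => (b / 2) * tyK Ch m w + Ch.κ (2 ^ m * w) := rfl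
    rw [this]
    have h2 := Ch.κ_diff.continuous
    fun_prop

theorem kap_per (Ch : Chart c b) (n : ℕ) (w : ℂ) :
    Ch.κ (w + n * (2 * Real.pi * I)) = Ch.κ w := by
  induction n with
  | zero => simp
  | succ n ih =>
    have : w + ((n + 1 : ℕ) : ℂ) * (2 * Real.pi * I)
        = (w + n * (2 * Real.pi * I)) + 2 * Real.pi * I := by push_cast; ring
    rw [this, Ch.κ_per, ih]

theorem tyK_per (Ch : Chart c b) (m : ℕ) (w : ℂ) :
    tyK Ch m (w + 4 * Real.pi * I) = tyK Ch m w := by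
  induction m with
  | zero => rfl
  | succ m ih =>
    simp only [tyK]
    rw [ih]
    have : (2 : ℂ) ^ m * (w + 4 * Real.pi * I)
        = 2 ^ m * w + ((2 ^ m * 2 : ℕ) : ℂ) * (2 * Real.pi * I) := by push_cast; ring
    rw [this, kap_per]

theorem ty_pow_re (m : ℕ) (w : ℂ) : ((2 : ℂ) ^ m * w).re = 2 ^ m * w.re := by
  have : ((2 : ℂ) ^ m) = (((2 : ℝ) ^ m : ℝ) : ℂ) := by push_cast; rfl
  rw [this, Complex.re_ofReal_mul]

theorem ty_norm_pow (hb : ‖b‖ = 1) (m : ℕ) : ‖(b / 2) ^ m‖ = (1 / 2) ^ m := by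
  rw [norm_pow, norm_div, hb]; norm_num

theorem ty_b_ne (hb : ‖b‖ = 1) : b ≠ 0 := by
  intro h; rw [h, norm_zero] at hb; exact zero_ne_one hb

/-! ### bounds -/

theorem Fam.even_iter (Fm : Fam W) (m : ℕ) (s : ℂ → ℂ) (hs : s ∈ Fm.Γ) :
    ∃ t ∈ Fm.Γ, ∀ w ∈ RHP, t (2 ^ m * w) = (b / 2) ^ m * s w + tyK Ch m w := by
  induction m with
  | zero => exact ⟨s, hs, fun w _ => by simp [tyK]⟩
  | succ m ih =>
    obtain ⟨t, ht, hte⟩ := ih
    obtain ⟨t', ht', hte'⟩ := Fm.even t ht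
    refine ⟨t', ht', fun w hw => ?_⟩
    have hw2 : (2 : ℂ) ^ m * w ∈ RHP := by
      show 0 < ((2 : ℂ) ^ m * w).re
      rw [ty_pow_re]
      exact mul_pos (by positivity) hw
    have e : (2 : ℂ) ^ (m + 1) * w = 2 * (2 ^ m * w) := by ring
    rw [e, hte' _ hw2, hte w hw]
    simp only [tyK]
    ring

theorem Fam.bdd_compact (Fm : Fam W) (hb : ‖b‖ = 1) {K : Set ℂ} (hK : IsCompact K)
    (hKR : K ⊆ RHP) : ∃ M : ℝ, 1 ≤ M ∧ ∀ s ∈ Fm.Γ, ∀ w ∈ K, ‖s w‖ ≤ M := by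
  rcases K.eq_empty_or_nonempty with h0 | hne
  · exact ⟨1, le_rfl, fun s _ w hw => by rw [h0] at hw; exact absurd hw (notMem_empty _)⟩
  obtain ⟨w₁, hw₁, hmin⟩ := hK.exists_isMinOn hne Complex.continuous_re.continuousOn
  have hρ : 0 < w₁.re := hKR hw₁
  obtain ⟨m, hm⟩ : ∃ m : ℕ, W.S / w₁.re < 2 ^ m := pow_unbounded_of_one_lt _ (by norm_num)
  have hm' : ∀ w ∈ K, W.S < ((2 : ℂ) ^ m * w).re := by
    intro w hw
    have h1 : w₁.re ≤ w.re := hmin hw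
    rw [ty_pow_re]
    rw [div_lt_iff₀ hρ] at hm
    have : (2 : ℝ) ^ m * w₁.re ≤ 2 ^ m * w.re := by gcongr
    linarith
  have hFc : Continuous (fun w : ℂ => (2 : ℝ) ^ m *
      (W.C * Real.exp (3 / 2 * ((2 : ℂ) ^ m * w).re) + ‖tyK Ch m w‖)) := by
    have := tyK_cont Ch m
    fun_prop
  obtain ⟨M, hM⟩ := (hK.image hFc).isBounded.exists_norm_le
  refine ⟨max 1 M, le_max_left _ _, fun s hs w hw => ?_⟩
  have hMw := hM _ (mem_image_of_mem _ hw)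
  obtain ⟨t, ht, hte⟩ := Fm.even_iter m s hs
  have h1 := Fm.win t ht _ (hm' w hw)
  have h2 := hte w (hKR hw)
  have h3 : (b / 2) ^ m * s w = t (2 ^ m * w) - tyK Ch m w := by rw [h2]; ring
  have h4 : (1 / 2 : ℝ) ^ m * ‖s w‖ ≤
      W.C * Real.exp (3 / 2 * ((2 : ℂ) ^ m * w).re) + ‖tyK Ch m w‖ := by
    rw [← ty_norm_pow hb m, ← norm_mul, h3]
    exact (norm_sub_le _ _).trans (add_le_add h1 le_rfl)
  have h5 : ‖s w‖ ≤ (2 : ℝ) ^ m *
      (W.C * Real.exp (3 / 2 * ((2 : ℂ) ^ m * w).re) + ‖tyK Ch m w‖) := by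
    have h6 : (2 : ℝ) ^ m * ((1 / 2 : ℝ) ^ m * ‖s w‖) = ‖s w‖ := by
      rw [← mul_assoc, ← mul_pow]; norm_num
    rw [← h6]
    gcongr
  exact h5.trans ((le_trans (le_abs_self _) hMw).trans (le_max_right _ _))

/-- the family is locally bounded -/
theorem Fam.bdd (Fm : Fam W) (hb : ‖b‖ = 1) (w₀ : ℂ) (hw₀ : 0 < w₀.re) :
    ∃ δ > 0, ball w₀ δ ⊆ RHP ∧ ∃ M : ℝ, ∀ s ∈ Fm.Γ, ∀ w ∈ ball w₀ δ, ‖s w‖ ≤ M := by
  have hsub : closedBall w₀ (w₀.re / 2) ⊆ RHP := by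
    intro w hw
    rw [mem_closedBall, dist_eq_norm] at hw
    have h1 := (abs_le.1 ((Complex.abs_re_le_norm (w - w₀)).trans hw)).1
    rw [sub_re] at h1
    show 0 < w.re
    linarith
  obtain ⟨M, -, hM⟩ := Fm.bdd_compact hb (isCompact_closedBall w₀ (w₀.re / 2)) hsub
  exact ⟨w₀.re / 2, by positivity, ball_subset_closedBall.trans hsub, M,
    fun s hs w hw => hM s hs w (ball_subset_closedBall hw)⟩

/-- equicontinuity -/
theorem Fam.equi (Fm : Fam W) (hb : ‖b‖ = 1) {w₀ : ℂ} (hw₀ : 0 < w₀.re) :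
    ∃ δ > 0, ball w₀ δ ⊆ RHP ∧ ∃ L > 0, ∀ s ∈ Fm.Γ, ∀ w ∈ ball w₀ δ,
      ‖s w - s w₀‖ ≤ L * ‖w - w₀‖ := by
  obtain ⟨δ, hδ, hsub, M, hM⟩ := Fm.bdd hb w₀ hw₀
  have hM0 : ∀ s ∈ Fm.Γ, 0 ≤ M := fun s hs =>
    (norm_nonneg _).trans (hM s hs w₀ (mem_ball_self hδ))
  obtain ⟨s₀, hs₀⟩ := Fm.ne
  have hMpos := hM0 s₀ hs₀
  refine ⟨δ, hδ, hsub, (2 * M + 1) / δ, by positivity, fun s hs w hw => ?_⟩
  have hmaps : MapsTo s (ball w₀ δ) (closedBall (s w₀) (2 * M + 1)) := by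
    intro z hz
    rw [mem_closedBall, dist_eq_norm]
    have h1 := hM s hs z hz
    have h2 := hM s hs w₀ (mem_ball_self hδ)
    have h3 := norm_sub_le (s z) (s w₀)
    linarith
  have := Complex.dist_le_div_mul_dist_of_mapsTo_ball ((Fm.diff s hs).mono hsub) hmaps hw
  rwa [dist_eq_norm, dist_eq_norm] at this

/-! ### far right estimates -/

theorem exp_pi_shift (w : ℂ) : exp (3 * (w + Real.pi * I)) = - exp (3 * w) := by
  have : 3 * (w + Real.pi * I) = 3 * w + (Real.pi * I + 2 * Real.pi * I) := by ring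
  rw [this, Complex.exp_add, Complex.exp_add, Complex.exp_pi_mul_I, Complex.exp_two_pi_mul_I]
  ring

theorem kap_diff (Ch : Chart c b) {w : ℂ} (hw : 0 ≤ w.re) :
    2 * Real.exp (3 * w.re) - 2 * Ch.C * Real.exp (2 * w.re) ≤
      ‖Ch.κ w - Ch.κ (w + Real.pi * I)‖ := by
  have hre : (w + Real.pi * I).re = w.re := by simp
  have h1 := Ch.κ_lead w hw
  have h2 := Ch.κ_lead (w + Real.pi * I) (by rw [hre]; exact hw)
  rw [hre, exp_pi_shift] at h2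
  have h3 : 2 * exp (3 * w) = (Ch.κ w - Ch.κ (w + Real.pi * I)) - (Ch.κ w - exp (3 * w))
      + (Ch.κ (w + Real.pi * I) - - exp (3 * w)) := by ring
  have h4 : ‖2 * exp (3 * w)‖ = 2 * Real.exp (3 * w.re) := by
    rw [norm_mul, Complex.norm_exp]
    simp
  have h5 := norm_add_le ((Ch.κ w - Ch.κ (w + Real.pi * I)) - (Ch.κ w - exp (3 * w)))
    (Ch.κ (w + Real.pi * I) - - exp (3 * w))
  have h6 := norm_sub_le (Ch.κ w - Ch.κ (w + Real.pi * I)) (Ch.κ w - exp (3 * w))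
  rw [← h3, h4] at h5
  linarith

theorem kap_norm (Ch : Chart c b) {w : ℂ} (hw : 0 ≤ w.re) :
    ‖Ch.κ w‖ ≤ (1 + Ch.C) * Real.exp (3 * w.re) := by
  have h1 := Ch.κ_lead w hw
  have h2 : Ch.κ w = (Ch.κ w - exp (3 * w)) + exp (3 * w) := by ring
  have h3 := norm_add_le (Ch.κ w - exp (3 * w)) (exp (3 * w))
  rw [← h2, Complex.norm_exp] at h3
  have h4 : (3 * w).re = 3 * w.re := by simp
  rw [h4] at h3
  have h5 : Real.exp (2 * w.re) ≤ Real.exp (3 * w.re) := Real.exp_le_exp.2 (by linarith)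
  have h6 := Ch.hC
  nlinarith

/-- elementary: large levels -/
theorem ty_large (C₁ C₂ : ℝ) (h1 : 0 ≤ C₁) (h2 : 0 ≤ C₂) : ∃ S₁ > 0, ∀ x : ℝ, S₁ ≤ x →
    C₁ * Real.exp (2 * x) + C₂ * Real.exp (3 / 2 * x) ≤ Real.exp (3 * x) := by
  refine ⟨C₁ + C₂ + 1, by positivity, fun x hx => ?_⟩
  have hx0 : 0 < x := by linarith
  have e1 : Real.exp (3 * x) = Real.exp (2 * x) * Real.exp x := by
    rw [← Real.exp_add]; ring_nf
  have e2 : Real.exp (3 / 2 * x) ≤ Real.exp (2 * x) := Real.exp_le_exp.2 (by linarith)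
  have e3 : x + 1 ≤ Real.exp x := Real.add_one_le_exp x
  have e4 := Real.exp_pos (2 * x)
  rw [e1]
  calc C₁ * Real.exp (2 * x) + C₂ * Real.exp (3 / 2 * x)
      ≤ C₁ * Real.exp (2 * x) + C₂ * Real.exp (2 * x) := by gcongr
    _ = Real.exp (2 * x) * (C₁ + C₂) := by ring
    _ ≤ Real.exp (2 * x) * Real.exp x := by
      apply mul_le_mul_of_nonneg_left _ e4.le
      linarith

/-- far right, even and odd graphs are very far apart -/
theorem Fam.far (Fm : Fam W) (hb : ‖b‖ = 1) : ∃ S₁ > 0, ∀ s ∈ Fm.Γ, ∀ s' ∈ Fm.Γ, ∀ t ∈ Fm.Γ,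
    ∀ t' ∈ Fm.Γ,
      (∀ w ∈ RHP, t (2 * w) = (b / 2) * s w + Ch.κ w) →
      (∀ w ∈ RHP, t' (2 * w) = (b / 2) * s' (w + Real.pi * I) + Ch.κ (w + Real.pi * I)) →
      ∀ w : ℂ, S₁ ≤ w.re → Real.exp (3 * w.re) ≤ ‖t (2 * w) - t' (2 * w)‖ := by
  have hC1 : 0 ≤ 2 * Ch.C := by have := Ch.hC; linarith
  have hC2 : 0 ≤ W.C := by have := W.hC; linarith
  obtain ⟨S₁, hS₁, hS⟩ := ty_large (2 * Ch.C) W.C hC1 hC2
  refine ⟨max S₁ (W.S + 1), lt_max_of_lt_left hS₁, ?_⟩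
  intro s hs s' hs' t ht t' ht' hte hte' w hw
  have hw1 : S₁ ≤ w.re := (le_max_left _ _).trans hw
  have hw2 : W.S < w.re := by
    have := (le_max_right S₁ (W.S + 1)).trans hw
    linarith
  have hw0 : 0 < w.re := lt_of_lt_of_le hS₁ hw1
  have hre : (w + Real.pi * I).re = w.re := by simp
  rw [hte w hw0, hte' w hw0]
  have h1 := kap_diff Ch hw0.le
  have h2 := Fm.win s hs w hw2
  have h3 := Fm.win s' hs' (w + Real.pi * I) (by rw [hre]; exact hw2)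
  rw [hre] at h3
  have h4 := hS w.re hw1
  have h5 : Ch.κ w - Ch.κ (w + Real.pi * I) =
      (b / 2 * s w + Ch.κ w - (b / 2 * s' (w + Real.pi * I) + Ch.κ (w + Real.pi * I)))
      - (b / 2) * (s w - s' (w + Real.pi * I)) := by ring
  have h6 := norm_sub_le
    (b / 2 * s w + Ch.κ w - (b / 2 * s' (w + Real.pi * I) + Ch.κ (w + Real.pi * I)))
    ((b / 2) * (s w - s' (w + Real.pi * I)))
  rw [← h5, norm_mul] at h6
  have h7 : ‖b / 2‖ = 1 / 2 := by rw [norm_div, hb]; norm_num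
  rw [h7] at h6
  have h8 := norm_sub_le (s w) (s' (w + Real.pi * I))
  linarith

/-- distinct graphs of the family stay apart, locally uniformly: `t` even, `t'` odd -/
theorem Fam.separation (Fm : Fam W) (hb : ‖b‖ = 1) (w₀ : ℂ) (hw₀ : 0 < w₀.re) :
    ∃ δ > 0, ∃ d > 0, ∀ s ∈ Fm.Γ, ∀ s' ∈ Fm.Γ, ∀ t ∈ Fm.Γ, ∀ t' ∈ Fm.Γ,
      (∀ w ∈ RHP, t (2 * w) = (b / 2) * s w + Ch.κ w) →
      (∀ w ∈ RHP, t' (2 * w) = (b / 2) * s' (w + Real.pi * I) + Ch.κ (w + Real.pi * I)) →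
      ∀ w ∈ ball w₀ δ, d ≤ ‖t w - t' w‖ := by
  obtain ⟨S₁, hS₁, hfar⟩ := Fm.far hb
  -- the disc
  set x : ℝ := 2 * S₁ with hx
  set w₁ : ℂ := w₀ + x with hw₁
  set R : ℝ := x + 3 / 4 * w₀.re with hR
  have hx0 : 0 < x := by positivity
  have hRpos : 0 < R := by positivity
  have hw₁re : w₁.re = w₀.re + x := by simp [hw₁]
  have hsub : closedBall w₁ R ⊆ RHP := by
    intro w hw
    rw [mem_closedBall, dist_eq_norm] at hw
    have h1 := (abs_le.1 ((Complex.abs_re_le_norm (w - w₁)).trans hw)).1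
    rw [sub_re, hw₁re] at h1
    show 0 < w.re
    linarith
  obtain ⟨M, hM1, hM⟩ := Fm.bdd_compact hb (isCompact_closedBall w₁ R) hsub
  set H : ℝ := 8 * R / w₀.re with hH
  have hHpos : 0 < H := by positivity
  have hlogM : 0 < Real.log (2 * M) := Real.log_pos (by linarith)
  refine ⟨w₀.re / 2, by positivity, 2 * M * Real.exp (-(H * Real.log (2 * M))), by positivity, ?_⟩
  intro s hs s' hs' t ht t' ht' hte hte' w hw
  have hfar' := hfar s hs s' hs' t ht t' ht' hte hte'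
  have hne : ∀ z ∈ RHP, t z ≠ t' z := by
    intro z hz hzz
    have heq := Fm.uniq t ht t' ht' z hz hzz
    have h1 := hfar' (S₁ : ℂ) (by simp)
    rw [heq, sub_self, norm_zero] at h1
    exact absurd h1 (not_le.2 (Real.exp_pos _))
  set v : ℂ → ℝ := fun z => Real.log (2 * M) - Real.log ‖t z - t' z‖ with hv
  have hballsub : ball w₁ R ⊆ RHP := ball_subset_closedBall.trans hsub
  have hvharm : ∀ ζ ∈ ball w₁ R, LocRe v ζ := by
    intro ζ hζ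
    -- a local logarithm of `t - t'`
    have hζR : ζ ∈ RHP := hballsub hζ
    set q : ℂ := t ζ - t' ζ with hq
    have hq0 : q ≠ 0 := sub_ne_zero.2 (hne ζ hζR)
    have hopen : IsOpen RHP := isOpen_lt continuous_const Complex.continuous_re
    have hdiff : DifferentiableOn ℂ (fun z => t z - t' z) RHP :=
      (Fm.diff t ht).sub (Fm.diff t' ht')
    have hcont : ContinuousAt (fun z => (t z - t' z) / q) ζ :=
      ((hdiff.continuousOn.continuousAt (hopen.mem_nhds hζR))).div_const q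
    have hev : ∀ᶠ z in 𝓝 ζ, (t z - t' z) / q ∈ slitPlane ∧ z ∈ RHP := by
      apply Filter.Eventually.and
      · apply hcont.eventually
        have : (fun z => (t z - t' z) / q) ζ = 1 := by
          simp only [← hq]; exact div_self hq0
        rw [this]
        exact Complex.isOpen_slitPlane.mem_nhds Complex.one_mem_slitPlane
      · exact hopen.mem_nhds hζR
    obtain ⟨r, hr, hrb⟩ := Metric.eventually_nhds_iff_ball.1 hev
    refine ⟨r, hr, fun z => (Real.log (2 * M) : ℂ) - (log ((t z - t' z) / q) + Real.log ‖q‖),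
      ?_, ?_⟩
    · have hF : DifferentiableOn ℂ (fun z => log ((t z - t' z) / q)) (ball ζ r) := by
        apply DifferentiableOn.clog
        · exact (hdiff.mono (fun z hz => (hrb z hz).2)).div_const q
        · exact fun z hz => (hrb z hz).1
      exact (differentiableOn_const _).sub (hF.add (differentiableOn_const _))
    · intro z hz
      have hz1 := (hrb z hz).2
      have hz2 : t z - t' z ≠ 0 := sub_ne_zero.2 (hne z hz1)
      simp only [hv, sub_re, add_re, ofReal_re, Complex.log_re]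
      rw [norm_div, Real.log_div (norm_ne_zero_iff.2 hz2) (norm_ne_zero_iff.2 hq0)]
      ring
  have hbd : ∀ z ∈ closedBall w₁ R, ‖t z - t' z‖ ≤ 2 * M := by
    intro z hz
    have h1 := hM t ht z hz
    have h2 := hM t' ht' z hz
    have h3 := norm_sub_le (t z) (t' z)
    linarith
  have hvnn : ∀ ζ ∈ ball w₁ R, 0 ≤ v ζ := by
    intro ζ hζ
    have h1 := hbd ζ (ball_subset_closedBall hζ)
    have h2 : t ζ - t' ζ ≠ 0 := sub_ne_zero.2 (hne ζ (hballsub hζ))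
    have := Real.log_le_log (norm_pos_iff.2 h2) h1
    simp only [hv]
    linarith
  have hdist : ‖w - w₁‖ ≤ x + w₀.re / 2 := by
    rw [mem_ball, dist_eq_norm] at hw
    have e1 : w - w₁ = (w - w₀) - x := by rw [hw₁]; ring
    have e2 := norm_sub_le (w - w₀) (x : ℂ)
    rw [← e1, Complex.norm_real, Real.norm_of_nonneg hx0.le] at e2
    linarith
  have hwball : w ∈ ball w₁ R := by
    rw [mem_ball, dist_eq_norm]
    linarith
  have hHar := harnack hvharm hvnn hwball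
  have hv1 : v w₁ ≤ Real.log (2 * M) := by
    have h1 := hfar' (w₁ / 2) (by
      have : (w₁ / 2).re = w₁.re / 2 := by simp
      rw [this, hw₁re, hx]; linarith)
    have e1 : 2 * (w₁ / 2) = w₁ := by ring
    rw [e1] at h1
    have h2 : 1 ≤ ‖t w₁ - t' w₁‖ := by
      refine le_trans (Real.one_le_exp ?_) h1
      have : (w₁ / 2).re = w₁.re / 2 := by simp
      rw [this, hw₁re]; positivity
    have := Real.log_nonneg h2
    simp only [hv]
    linarith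
  have hden : w₀.re / 4 ≤ R - ‖w - w₁‖ := by linarith
  have hfac : (R + ‖w - w₁‖) / (R - ‖w - w₁‖) ≤ H := by
    rw [hH, div_le_div_iff₀ (by linarith) hw₀]
    have h1 : R + ‖w - w₁‖ ≤ 2 * R := by linarith
    nlinarith [norm_nonneg (w - w₁)]
  have hv1nn : 0 ≤ v w₁ := hvnn w₁ (mem_ball_self hRpos)
  have hvw : v w ≤ H * Real.log (2 * M) := by
    refine hHar.trans ?_
    exact mul_le_mul hfac hv1 hv1nn hHpos.le
  have hwR : w ∈ RHP := hballsub hwball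
  have hpos : 0 < ‖t w - t' w‖ := norm_pos_iff.2 (sub_ne_zero.2 (hne w hwR))
  have hlog : Real.log (2 * M) - H * Real.log (2 * M) ≤ Real.log ‖t w - t' w‖ := by
    simp only [hv] at hvw
    linarith
  calc 2 * M * Real.exp (-(H * Real.log (2 * M)))
      = Real.exp (Real.log (2 * M) - H * Real.log (2 * M)) := by
        rw [sub_eq_add_neg, Real.exp_add, Real.exp_log (by linarith)]
    _ ≤ Real.exp (Real.log ‖t w - t' w‖) := Real.exp_le_exp.2 hlog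
    _ = ‖t w - t' w‖ := Real.exp_log hpos

/-! ### closures of families of graphs -/

/-- `t` is of even type -/
def Fam.Ev (Fm : Fam W) (t : ℂ → ℂ) : Prop :=
  ∃ s ∈ Fm.Γ, ∀ w ∈ RHP, t (2 * w) = (b / 2) * s w + Ch.κ w

/-- `t` is of odd type -/
def Fam.Od (Fm : Fam W) (t : ℂ → ℂ) : Prop :=
  ∃ s ∈ Fm.Γ, ∀ w ∈ RHP, t (2 * w) = (b / 2) * s (w + Real.pi * I) + Ch.κ (w + Real.pi * I)

/-- closure of the union of the graphs of type `P` -/
def Fam.Cl (Fm : Fam W) (P : (ℂ → ℂ) → Prop) : Set (ℂ × ℂ) :=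
  {q | 0 < q.1.re ∧ ∀ ε > 0, ∃ t ∈ Fm.Γ, P t ∧ ‖t q.1 - q.2‖ < ε}

theorem Fam.mem_Cl (Fm : Fam W) {P : (ℂ → ℂ) → Prop} {t : ℂ → ℂ} (ht : t ∈ Fm.Γ) (hP : P t)
    {w : ℂ} (hw : 0 < w.re) : (w, t w) ∈ Fm.Cl P :=
  ⟨hw, fun ε hε => ⟨t, ht, hP, by simpa using hε⟩⟩

theorem Fam.Cl_closed (Fm : Fam W) (hb : ‖b‖ = 1) (P : (ℂ → ℂ) → Prop) :
    ∀ q ∈ closure (Fm.Cl P), 0 < q.1.re → q ∈ Fm.Cl P := by
  intro q hq hq0
  refine ⟨hq0, fun ε hε => ?_⟩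
  obtain ⟨δ, hδ, hsub, L, hL, hLip⟩ := Fm.equi hb hq0
  obtain ⟨q', hq', hd⟩ := Metric.mem_closure_iff.1 hq (min δ (min (ε / (4 * L)) (ε / 4)))
    (by positivity)
  rw [dist_comm, Prod.dist_eq, max_lt_iff] at hd
  obtain ⟨hd1, hd2⟩ := hd
  obtain ⟨t, ht, hP, htq⟩ := hq'.2 (ε / 4) (by positivity)
  refine ⟨t, ht, hP, ?_⟩
  have h1 : ‖t q'.1 - t q.1‖ ≤ L * ‖q'.1 - q.1‖ :=
    hLip t ht q'.1 (by rw [mem_ball]; exact lt_of_lt_of_le hd1 (min_le_left _ _))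
  have h2 : ‖q'.1 - q.1‖ < ε / (4 * L) := by
    rw [← dist_eq_norm]
    exact lt_of_lt_of_le hd1 ((min_le_right _ _).trans (min_le_left _ _))
  have h3 : ‖q'.2 - q.2‖ < ε / 4 := by
    rw [← dist_eq_norm]
    exact lt_of_lt_of_le hd2 ((min_le_right _ _).trans (min_le_right _ _))
  have h4 : L * ‖q'.1 - q.1‖ ≤ ε / 4 := by
    have := mul_le_mul_of_nonneg_left h2.le hL.le
    have e : L * (ε / (4 * L)) = ε / 4 := by field_simp
    linarith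
  have h5 : t q.1 - q.2 = (t q'.1 - q'.2) + (q'.2 - q.2) - (t q'.1 - t q.1) := by ring
  rw [h5]
  have h6 := norm_sub_le ((t q'.1 - q'.2) + (q'.2 - q.2)) (t q'.1 - t q.1)
  have h7 := norm_add_le (t q'.1 - q'.2) (q'.2 - q.2)
  linarith

theorem Fam.Cl_lsc (Fm : Fam W) (hb : ‖b‖ = 1) (P : (ℂ → ℂ) → Prop) :
    ∀ q ∈ Fm.Cl P, ∀ ε > 0, ∃ δ > 0, ∀ w ∈ ball q.1 δ, ∃ u ∈ ball q.2 ε, (w, u) ∈ Fm.Cl P := by
  intro q hq ε hε
  obtain ⟨δ, hδ, hsub, L, hL, hLip⟩ := Fm.equi hb hq.1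
  obtain ⟨t, ht, hP, htq⟩ := hq.2 (ε / 2) (by positivity)
  refine ⟨min δ (ε / (2 * L)), by positivity, fun w hw => ⟨t w, ?_, Fm.mem_Cl ht hP ?_⟩⟩
  · rw [mem_ball] at hw
    have h1 := hLip t ht w (by rw [mem_ball]; exact lt_of_lt_of_le hw (min_le_left _ _))
    have h2 : ‖w - q.1‖ ≤ ε / (2 * L) := by
      rw [← dist_eq_norm]; exact hw.le.trans (min_le_right _ _)
    have h3 : L * ‖w - q.1‖ ≤ ε / 2 := by
      have := mul_le_mul_of_nonneg_left h2 hL.le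
      have e : L * (ε / (2 * L)) = ε / 2 := by field_simp
      linarith
    rw [mem_ball, dist_eq_norm]
    have h4 : t w - q.2 = (t w - t q.1) + (t q.1 - q.2) := by ring
    rw [h4]
    have h5 := norm_add_le (t w - t q.1) (t q.1 - q.2)
    linarith
  · exact hsub (by rw [mem_ball] at hw ⊢; exact lt_of_lt_of_le hw (min_le_left _ _))

theorem Fam.Cl_zero (Fm : Fam W) (hb : ‖b‖ = 1) (P : (ℂ → ℂ) → Prop) :
    ∀ q ∈ Fm.Cl P, GG Ch q.1 q.2 = 0 := by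
  intro q hq
  by_contra hne
  have hpos : 0 < GG Ch q.1 q.2 := lt_of_le_of_ne (GG_nonneg Ch hb _ _) (Ne.symm hne)
  have hopen : IsOpen {q : ℂ × ℂ | 0 < q.1.re} :=
    isOpen_lt continuous_const (Complex.continuous_re.comp continuous_fst)
  have hc : ContinuousAt (fun q : ℂ × ℂ => GG Ch q.1 q.2) q :=
    (GG_continuousOn Ch hb).continuousAt (hopen.mem_nhds hq.1)
  have hev := hc.eventually (lt_mem_nhds hpos)
  obtain ⟨r, hr, hrb⟩ := Metric.eventually_nhds_iff_ball.1 hev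
  obtain ⟨t, ht, -, htq⟩ := hq.2 r hr
  have h1 := hrb (q.1, t q.1) (by
    rw [mem_ball, Prod.dist_eq, max_lt_iff]
    exact ⟨by simpa using hr, by rw [dist_eq_norm]; exact htq⟩)
  simp only at h1
  rw [Fm.zero t ht q.1 hq.1] at h1
  exact lt_irrefl _ h1

theorem Fam.Cl_bdd (Fm : Fam W) (hb : ‖b‖ = 1) (P : (ℂ → ℂ) → Prop) :
    ∀ w₀ ∈ RHP, ∃ δ > 0, ball w₀ δ ⊆ RHP ∧ ∃ M : ℝ, ∀ w ∈ ball w₀ δ, ∀ u, (w, u) ∈ Fm.Cl P →
      ‖u‖ ≤ M := by
  intro w₀ hw₀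
  obtain ⟨δ, hδ, hsub, M, hM⟩ := Fm.bdd hb w₀ hw₀
  refine ⟨δ, hδ, hsub, M + 1, fun w hw u hu => ?_⟩
  obtain ⟨t, ht, -, htq⟩ := hu.2 1 one_pos
  have h1 := hM t ht w hw
  have h2 : u = t w - (t w - u) := by ring
  rw [h2]
  have h3 := norm_sub_le (t w) (t w - u)
  simp only at htq
  linarith

/-- periodicity of a type -/
def Fam.Per (Fm : Fam W) (P : (ℂ → ℂ) → Prop) : Prop :=
  (∀ t ∈ Fm.Γ, P t → ∃ t' ∈ Fm.Γ, P t' ∧ ∀ w ∈ RHP, t' w = t (w + 4 * Real.pi * I)) ∧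
  (∀ t ∈ Fm.Γ, P t → ∃ t' ∈ Fm.Γ, P t' ∧ ∀ w ∈ RHP, t' w = t (w - 4 * Real.pi * I))

theorem ty_RHP_two {w : ℂ} (hw : w ∈ RHP) : 2 * w ∈ RHP := by
  show 0 < (2 * w).re
  have : (2 * w).re = 2 * w.re := by simp
  rw [this]; exact mul_pos two_pos hw

theorem ty_RHP_add {w : ℂ} (hw : w ∈ RHP) (x : ℝ) : w + x * I ∈ RHP := by
  show 0 < (w + x * I).re
  have h : 0 < w.re := hw
  simpa using h

theorem Fam.shift2 (Fm : Fam W) : ∀ t ∈ Fm.Γ, ∃ t' ∈ Fm.Γ, ∀ w ∈ RHP,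
    t' w = t (w + 4 * Real.pi * I) := by
  intro t ht
  obtain ⟨t1, ht1, h1⟩ := Fm.shift t ht
  obtain ⟨t2, ht2, h2⟩ := Fm.shift t1 ht1
  refine ⟨t2, ht2, fun w hw => ?_⟩
  have hw' : w + 2 * Real.pi * I ∈ RHP := by
    have := ty_RHP_add hw (2 * Real.pi); push_cast at this; exact this
  rw [h2 w hw, h1 _ hw']
  congr 1; ring

theorem Fam.shift2' (Fm : Fam W) : ∀ t ∈ Fm.Γ, ∃ t' ∈ Fm.Γ, ∀ w ∈ RHP,
    t' w = t (w - 4 * Real.pi * I) := by
  intro t ht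
  obtain ⟨t1, ht1, h1⟩ := Fm.shift' t ht
  obtain ⟨t2, ht2, h2⟩ := Fm.shift' t1 ht1
  refine ⟨t2, ht2, fun w hw => ?_⟩
  have hw' : w - 2 * Real.pi * I ∈ RHP := by
    have := ty_RHP_add hw (-(2 * Real.pi)); push_cast at this
    rw [neg_mul, ← sub_eq_add_neg] at this; exact this
  rw [h2 w hw, h1 _ hw']
  congr 1; ring

theorem Fam.Per_Ev (Fm : Fam W) : Fm.Per Fm.Ev := by
  constructor
  · rintro t ht ⟨s, hs, hse⟩
    obtain ⟨t', ht', h1⟩ := Fm.shift2 t ht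
    obtain ⟨s', hs', h2⟩ := Fm.shift s hs
    refine ⟨t', ht', ⟨s', hs', fun w hw => ?_⟩, h1⟩
    have hw' : w + 2 * Real.pi * I ∈ RHP := by
      have := ty_RHP_add hw (2 * Real.pi); push_cast at this; exact this
    have e : 2 * w + 4 * Real.pi * I = 2 * (w + 2 * Real.pi * I) := by ring
    rw [h1 _ (ty_RHP_two hw), e, hse _ hw', h2 w hw, Ch.κ_per]
  · rintro t ht ⟨s, hs, hse⟩
    obtain ⟨t', ht', h1⟩ := Fm.shift2' t ht
    obtain ⟨s', hs', h2⟩ := Fm.shift' s hs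
    refine ⟨t', ht', ⟨s', hs', fun w hw => ?_⟩, h1⟩
    have hw' : w - 2 * Real.pi * I ∈ RHP := by
      have := ty_RHP_add hw (-(2 * Real.pi)); push_cast at this
      rw [neg_mul, ← sub_eq_add_neg] at this; exact this
    have e : 2 * w - 4 * Real.pi * I = 2 * (w - 2 * Real.pi * I) := by ring
    have k : Ch.κ (w - 2 * Real.pi * I) = Ch.κ w := by
      rw [← Ch.κ_per]; congr 1; ring
    rw [h1 _ (ty_RHP_two hw), e, hse _ hw', h2 w hw, k]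

theorem Fam.Per_Od (Fm : Fam W) : Fm.Per Fm.Od := by
  constructor
  · rintro t ht ⟨s, hs, hse⟩
    obtain ⟨t', ht', h1⟩ := Fm.shift2 t ht
    obtain ⟨s', hs', h2⟩ := Fm.shift s hs
    refine ⟨t', ht', ⟨s', hs', fun w hw => ?_⟩, h1⟩
    have hw' : w + 2 * Real.pi * I ∈ RHP := by
      have := ty_RHP_add hw (2 * Real.pi); push_cast at this; exact this
    have e : 2 * w + 4 * Real.pi * I = 2 * (w + 2 * Real.pi * I) := by ring
    have e2 : w + 2 * Real.pi * I + Real.pi * I = (w + Real.pi * I) + 2 * Real.pi * I := by ring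
    rw [h1 _ (ty_RHP_two hw), e, hse _ hw', h2 _ (ty_RHP_add hw _), e2, Ch.κ_per]
  · rintro t ht ⟨s, hs, hse⟩
    obtain ⟨t', ht', h1⟩ := Fm.shift2' t ht
    obtain ⟨s', hs', h2⟩ := Fm.shift' s hs
    refine ⟨t', ht', ⟨s', hs', fun w hw => ?_⟩, h1⟩
    have hw' : w - 2 * Real.pi * I ∈ RHP := by
      have := ty_RHP_add hw (-(2 * Real.pi)); push_cast at this
      rw [neg_mul, ← sub_eq_add_neg] at this; exact this
    have e : 2 * w - 4 * Real.pi * I = 2 * (w - 2 * Real.pi * I) := by ring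
    have e2 : w - 2 * Real.pi * I + Real.pi * I = (w + Real.pi * I) - 2 * Real.pi * I := by ring
    have k : Ch.κ (w + Real.pi * I - 2 * Real.pi * I) = Ch.κ (w + Real.pi * I) := by
      rw [← Ch.κ_per]; congr 1; ring
    rw [h1 _ (ty_RHP_two hw), e, hse _ hw', h2 _ (ty_RHP_add hw _), e2, k]

theorem Fam.Cl_per (Fm : Fam W) {P : (ℂ → ℂ) → Prop} (hP : Fm.Per P) {w u : ℂ}
    (hw : 0 < w.re) : (w + 4 * Real.pi * I, u) ∈ Fm.Cl P ↔ (w, u) ∈ Fm.Cl P := by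
  have hw' : 0 < (w + 4 * Real.pi * I).re := by simpa using hw
  constructor
  · rintro ⟨-, h⟩
    refine ⟨hw, fun ε hε => ?_⟩
    obtain ⟨t, ht, htP, htq⟩ := h ε hε
    obtain ⟨t', ht', hP', he⟩ := hP.1 t ht htP
    exact ⟨t', ht', hP', by simp only at htq ⊢; rw [he w hw]; exact htq⟩
  · rintro ⟨-, h⟩
    refine ⟨hw', fun ε hε => ?_⟩
    obtain ⟨t, ht, htP, htq⟩ := h ε hε
    obtain ⟨t', ht', hP', he⟩ := hP.2 t ht htP
    refine ⟨t', ht', hP', ?_⟩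
    simp only at htq ⊢
    rw [he _ hw', add_sub_cancel_right]; exact htq

theorem Fam.Cl_per_nat (Fm : Fam W) {P : (ℂ → ℂ) → Prop} (hP : Fm.Per P) (n : ℕ) {w u : ℂ}
    (hw : 0 < w.re) : (w + n * (4 * Real.pi * I), u) ∈ Fm.Cl P ↔ (w, u) ∈ Fm.Cl P := by
  induction n with
  | zero => simp
  | succ n ih =>
    have e : w + ((n + 1 : ℕ) : ℂ) * (4 * Real.pi * I)
        = (w + n * (4 * Real.pi * I)) + 4 * Real.pi * I := by push_cast; ring
    rw [e, Fm.Cl_per hP (by simpa using hw), ih]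

/-! ### the map acts -/

theorem ft_iter_re (m : ℕ) {q : ℂ × ℂ} (hq : 0 < q.1.re) : 0 < ((ft Ch)^[m] q).1.re := by
  rw [ty_iter]
  simp only
  rw [ty_pow_re]
  positivity

/-- the closures of both types are mapped into the closure of the even type -/
theorem Fam.ft_mem (Fm : Fam W) (hb : ‖b‖ = 1) {P : (ℂ → ℂ) → Prop} {q : ℂ × ℂ}
    (hq : q ∈ Fm.Cl P) : ft Ch q ∈ Fm.Cl Fm.Ev := by
  refine ⟨ty_RHP_two hq.1, fun ε hε => ?_⟩
  obtain ⟨t, ht, -, htq⟩ := hq.2 ε hε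
  obtain ⟨t', ht', hte⟩ := Fm.even t ht
  refine ⟨t', ht', ⟨t, ht, hte⟩, ?_⟩
  simp only [ft]
  rw [hte _ hq.1]
  have e : b / 2 * t q.1 + Ch.κ q.1 - (b / 2 * q.2 + Ch.κ q.1) = (b / 2) * (t q.1 - q.2) := by
    ring
  rw [e, norm_mul, norm_div, hb]
  have : (0 : ℝ) ≤ ‖t q.1 - q.2‖ := norm_nonneg _
  have h2 : ‖(2 : ℂ)‖ = 2 := by simp
  rw [h2]
  linarith

theorem Fam.ft_pre (Fm : Fam W) (hb : ‖b‖ = 1) {q : ℂ × ℂ} (hq : 0 < q.1.re)
    (h : ft Ch q ∈ Fm.Cl Fm.Ev) : q ∈ Fm.Cl Fm.Ev ∨ q ∈ Fm.Cl Fm.Od := by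
  by_contra hcon
  push Not at hcon
  obtain ⟨h1, h2⟩ := hcon
  have h1' : ∃ ε > 0, ∀ t ∈ Fm.Γ, Fm.Ev t → ε ≤ ‖t q.1 - q.2‖ := by
    by_contra hc
    push Not at hc
    exact h1 ⟨hq, hc⟩
  have h2' : ∃ ε > 0, ∀ t ∈ Fm.Γ, Fm.Od t → ε ≤ ‖t q.1 - q.2‖ := by
    by_contra hc
    push Not at hc
    exact h2 ⟨hq, hc⟩
  obtain ⟨ε₁, hε₁, H1⟩ := h1'
  obtain ⟨ε₂, hε₂, H2⟩ := h2'
  obtain ⟨t, ht, ⟨s, hs, hse⟩, htq⟩ := h.2 (min ε₁ ε₂ / 2) (by positivity)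
  simp only [ft] at htq
  rw [hse _ hq] at htq
  have e : b / 2 * s q.1 + Ch.κ q.1 - (b / 2 * q.2 + Ch.κ q.1) = (b / 2) * (s q.1 - q.2) := by
    ring
  have h2n : ‖(2 : ℂ)‖ = 2 := by simp
  rw [e, norm_mul, norm_div, hb, h2n] at htq
  have hlt : ‖s q.1 - q.2‖ < min ε₁ ε₂ := by linarith
  rcases Fm.pre s hs with hE | hO
  · exact absurd (H1 s hs hE) (not_le.2 (lt_of_lt_of_le hlt (min_le_left _ _)))
  · exact absurd (H2 s hs hO) (not_le.2 (lt_of_lt_of_le hlt (min_le_right _ _)))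

theorem Fam.disjEO (Fm : Fam W) (hb : ‖b‖ = 1) {q : ℂ × ℂ} (h1 : q ∈ Fm.Cl Fm.Ev)
    (h2 : q ∈ Fm.Cl Fm.Od) : False := by
  obtain ⟨δ, hδ, d, hd, hsep⟩ := Fm.separation hb q.1 h1.1
  obtain ⟨t, ht, ⟨s, hs, hse⟩, htq⟩ := h1.2 (d / 2) (by positivity)
  obtain ⟨t', ht', ⟨s', hs', hse'⟩, htq'⟩ := h2.2 (d / 2) (by positivity)
  have := hsep s hs s' hs' t ht t' ht' hse hse' q.1 (mem_ball_self hδ)
  have e : t q.1 - t' q.1 = (t q.1 - q.2) - (t' q.1 - q.2) := by ring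
  rw [e] at this
  have h3 := norm_sub_le (t q.1 - q.2) (t' q.1 - q.2)
  linarith

theorem Fam.ft_iter_mem (Fm : Fam W) (hb : ‖b‖ = 1) {P : (ℂ → ℂ) → Prop} {q : ℂ × ℂ}
    (hq : q ∈ Fm.Cl P) (m : ℕ) : (ft Ch)^[m + 1] q ∈ Fm.Cl Fm.Ev := by
  induction m with
  | zero => exact Fm.ft_mem hb hq
  | succ m ih =>
    rw [Function.iterate_succ_apply']
    exact Fm.ft_mem hb ih

/-- localisation of the odd closure -/
theorem Fam.locO (Fm : Fam W) (hb : ‖b‖ = 1) {w u : ℂ} (hw : 2 * W.S < w.re)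
    (h : (w, u) ∈ Fm.Cl Fm.Od) :
    ‖u - Ch.κ (w / 2 + Real.pi * I)‖ ≤ W.C * Real.exp (3 / 4 * w.re) := by
  apply le_of_forall_pos_le_add
  intro ε hε
  obtain ⟨t, ht, ⟨s, hs, hse⟩, htq⟩ := h.2 ε hε
  have hw0 : 0 < w.re := h.1
  have hre : (w / 2).re = w.re / 2 := by simp
  have hre' : (w / 2 + Real.pi * I).re = w.re / 2 := by simp
  have hw2 : w / 2 ∈ RHP := by show 0 < (w / 2).re; rw [hre]; linarith
  have h1 := hse (w / 2) hw2
  have e1 : 2 * (w / 2) = w := by ring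
  rw [e1] at h1
  have h2 := Fm.win s hs (w / 2 + Real.pi * I) (by rw [hre']; linarith)
  rw [hre'] at h2
  have e2 : 3 / 2 * (w.re / 2) = 3 / 4 * w.re := by ring
  rw [e2] at h2
  have e3 : u - Ch.κ (w / 2 + Real.pi * I) =
      (b / 2) * s (w / 2 + Real.pi * I) - (t w - u) := by rw [h1]; ring
  rw [e3]
  have h3 := norm_sub_le ((b / 2) * s (w / 2 + Real.pi * I)) (t w - u)
  have h2n : ‖(2 : ℂ)‖ = 2 := by simp
  rw [norm_mul, norm_div, hb, h2n] at h3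
  simp only at htq
  have h4 : 0 ≤ ‖s (w / 2 + Real.pi * I)‖ := norm_nonneg _
  linarith

theorem Fam.locE (Fm : Fam W) (hb : ‖b‖ = 1) {w u : ℂ} (hw : 2 * W.S < w.re)
    (h : (w, u) ∈ Fm.Cl Fm.Ev) :
    ‖u - Ch.κ (w / 2)‖ ≤ W.C * Real.exp (3 / 4 * w.re) := by
  apply le_of_forall_pos_le_add
  intro ε hε
  obtain ⟨t, ht, ⟨s, hs, hse⟩, htq⟩ := h.2 ε hε
  have hw0 : 0 < w.re := h.1
  have hre : (w / 2).re = w.re / 2 := by simp
  have hw2 : w / 2 ∈ RHP := by show 0 < (w / 2).re; rw [hre]; linarith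
  have h1 := hse (w / 2) hw2
  have e1 : 2 * (w / 2) = w := by ring
  rw [e1] at h1
  have h2 := Fm.win s hs (w / 2) (by rw [hre]; linarith)
  rw [hre] at h2
  have e2 : 3 / 2 * (w.re / 2) = 3 / 4 * w.re := by ring
  rw [e2] at h2
  have e3 : u - Ch.κ (w / 2) = (b / 2) * s (w / 2) - (t w - u) := by rw [h1]; ring
  rw [e3]
  have h3 := norm_sub_le ((b / 2) * s (w / 2)) (t w - u)
  have h2n : ‖(2 : ℂ)‖ = 2 := by simp
  rw [norm_mul, norm_div, hb, h2n] at h3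
  simp only at htq
  have h4 : 0 ≤ ‖s (w / 2)‖ := norm_nonneg _
  linarith

/-- preimages of the odd closure are very large -/
theorem Fam.bigR (Fm : Fam W) (hb : ‖b‖ = 1) : ∃ S₁ > 0, ∀ (m : ℕ) (w u : ℂ), 0 < w.re →
    S₁ ≤ 2 ^ m * w.re → (ft Ch)^[m + 1] (w, u) ∈ Fm.Cl Fm.Od →
    2 ^ m * Real.exp (3 * (2 ^ m * w.re)) ≤ ‖u‖ := by
  have hC := Ch.hC
  have hWC := W.hC
  obtain ⟨S₁, hS₁, hL1⟩ := ty_large (4 * Ch.C) (2 * W.C + 4 * (1 + Ch.C)) (by linarith)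
    (by linarith)
  refine ⟨max S₁ (W.S + 1), lt_max_of_lt_left hS₁, ?_⟩
  intro m w u hw hm hO
  have hm1 : S₁ ≤ 2 ^ m * w.re := (le_max_left _ _).trans hm
  have hm2 : W.S < 2 ^ m * w.re := by
    have := (le_max_right S₁ (W.S + 1)).trans hm
    linarith
  -- the orbit
  set v : ℕ → ℂ := fun j => ((ft Ch)^[j] (w, u)).2 with hv
  have hfst : ∀ j, ((ft Ch)^[j] (w, u)).1 = 2 ^ j * w := fun j => by rw [ty_iter]
  have hvs : ∀ j, v (j + 1) = (b / 2) * v j + Ch.κ (2 ^ j * w) := by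
    intro j
    simp only [hv]
    rw [Function.iterate_succ_apply', ft]
    simp only
    rw [hfst]
  have hre : ∀ j, ((2 : ℂ) ^ j * w).re = 2 ^ j * w.re := fun j => ty_pow_re j w
  have hO' : (2 ^ (m + 1) * w, v (m + 1)) ∈ Fm.Cl Fm.Od := by
    have : (ft Ch)^[m + 1] (w, u) = (2 ^ (m + 1) * w, v (m + 1)) := by
      rw [← hfst (m + 1)]
    rw [← this]; exact hO
  -- the top level
  set x : ℝ := 2 ^ m * w.re with hx
  have hx0 : 0 < x := by positivity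
  have htop : 3 * Real.exp (3 * x) + 4 * (1 + Ch.C) * Real.exp (3 / 2 * x) ≤ ‖v m‖ := by
    have h1 := Fm.locO hb (w := 2 ^ (m + 1) * w) (by rw [hre, pow_succ]; linarith) hO'
    have e1 : (2 : ℂ) ^ (m + 1) * w / 2 = 2 ^ m * w := by ring
    have e2 : 3 / 4 * ((2 : ℂ) ^ (m + 1) * w).re = 3 / 2 * x := by rw [hre, hx]; ring
    rw [e1, e2, hvs m] at h1
    have h2 := kap_diff Ch (w := 2 ^ m * w) (by rw [hre]; exact hx0.le)
    rw [hre, ← hx] at h2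
    have e3 : Ch.κ (2 ^ m * w) - Ch.κ (2 ^ m * w + Real.pi * I) =
        (b / 2 * v m + Ch.κ (2 ^ m * w) - Ch.κ (2 ^ m * w + Real.pi * I)) - (b / 2) * v m := by
      ring
    have h3 := norm_sub_le
      (b / 2 * v m + Ch.κ (2 ^ m * w) - Ch.κ (2 ^ m * w + Real.pi * I)) ((b / 2) * v m)
    rw [← e3] at h3
    have h2n : ‖(2 : ℂ)‖ = 2 := by simp
    rw [norm_mul, norm_div, hb, h2n] at h3
    have h4 := hL1 x hm1
    linarith
  -- descending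
  have hdown : ∀ j, j ≤ m → 2 ^ j * ‖v m‖ ≤ ‖v (m - j)‖ +
      2 * (1 + Ch.C) * (2 ^ j - 1) * Real.exp (3 / 2 * x) := by
    intro j
    induction j with
    | zero => intro _; simp
    | succ j ih =>
      intro hj
      have h1 := ih (by omega)
      have hj' : m - j = (m - (j + 1)) + 1 := by omega
      set i := m - (j + 1) with hi
      have hvi := hvs i
      rw [hj', hvi] at h1
      have h2 := norm_add_le ((b / 2) * v i) (Ch.κ (2 ^ i * w))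
      have h2n : ‖(2 : ℂ)‖ = 2 := by simp
      rw [norm_mul, norm_div, hb, h2n] at h2
      have h3 := kap_norm Ch (w := 2 ^ i * w) (by rw [hre]; positivity)
      rw [hre] at h3
      have h4 : Real.exp (3 * (2 ^ i * w.re)) ≤ Real.exp (3 / 2 * x) := by
        apply Real.exp_le_exp.2
        have h5 : (2 : ℝ) ^ i * 2 ≤ 2 ^ m := by
          rw [← pow_succ]
          exact pow_le_pow_right₀ (by norm_num) (by omega)
        have h6 : (2 : ℝ) ^ i * 2 * w.re ≤ 2 ^ m * w.re := by gcongr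
        rw [hx]; linarith
      have h7 : ‖Ch.κ (2 ^ i * w)‖ ≤ (1 + Ch.C) * Real.exp (3 / 2 * x) :=
        h3.trans (by gcongr)
      have e : (2 : ℝ) ^ (j + 1) = 2 * 2 ^ j := by ring
      rw [e]
      have h8 : 0 ≤ (1 + Ch.C) * Real.exp (3 / 2 * x) := by positivity
      nlinarith
  have h9 := hdown m le_rfl
  rw [Nat.sub_self] at h9
  have hv0 : v 0 = u := rfl
  rw [hv0] at h9
  have hp : (1 : ℝ) ≤ 2 ^ m := one_le_pow₀ (by norm_num)
  have hE : 0 ≤ (1 + Ch.C) * Real.exp (3 / 2 * x) := by positivity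
  have h10 : (2 : ℝ) ^ m * (3 * Real.exp (3 * x) + 4 * (1 + Ch.C) * Real.exp (3 / 2 * x))
      ≤ 2 ^ m * ‖v m‖ := by gcongr
  have h11 : 0 < (2 : ℝ) ^ m * Real.exp (3 * x) := by positivity
  nlinarith [mul_nonneg (show (0 : ℝ) ≤ 2 ^ m by positivity) hE]

structure Typed (Fm : Fam W) where
  E : Set (ℂ × ℂ)
  R : Set (ℂ × ℂ)
  S : ℝ
  C : ℝ
  subE : ∀ q ∈ E, 0 < q.1.re
  subR : ∀ q ∈ R, 0 < q.1.re
  closedE : ∀ q ∈ closure E, 0 < q.1.re → q ∈ E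
  closedR : ∀ q ∈ closure R, 0 < q.1.re → q ∈ R
  disj : Disjoint E R
  zeroE : ∀ q ∈ E, GG Ch q.1 q.2 = 0
  zeroR : ∀ q ∈ R, GG Ch q.1 q.2 = 0
  lscE : ∀ q ∈ E, ∀ ε > 0, ∃ δ > 0, ∀ w ∈ ball q.1 δ, ∃ u ∈ ball q.2 ε, (w, u) ∈ E
  lscR : ∀ q ∈ R, ∀ ε > 0, ∃ δ > 0, ∀ w ∈ ball q.1 δ, ∃ u ∈ ball q.2 ε, (w, u) ∈ R
  neE : ∀ w ∈ RHP, ∃ u, (w, u) ∈ E
  bddE : ∀ w₀ ∈ RHP, ∃ δ > 0, ball w₀ δ ⊆ RHP ∧ ∃ M : ℝ, ∀ w ∈ ball w₀ δ, ∀ u, (w, u) ∈ E →
    ‖u‖ ≤ M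
  perE : ∀ w u, 0 < w.re → ((w + 4 * Real.pi * I, u) ∈ E ↔ (w, u) ∈ E)
  perR : ∀ w u, 0 < w.re → ((w + 4 * Real.pi * I, u) ∈ R ↔ (w, u) ∈ R)
  locE : ∀ w u, S < w.re → (w, u) ∈ E → ‖u - Ch.κ (w / 2)‖ ≤ C * Real.exp (3 / 4 * w.re)
  locR : ∀ w u, S < w.re → (w, u) ∈ R → ‖u‖ ≤ 2 * Real.exp (7 / 4 * w.re) →
    ‖u - Ch.κ (w / 2 + Real.pi * I)‖ ≤ C * Real.exp (3 / 4 * w.re)
  neR : ∀ w : ℂ, S < w.re → ∃ u, (w, u) ∈ R ∧
    ‖u - Ch.κ (w / 2 + Real.pi * I)‖ ≤ C * Real.exp (3 / 4 * w.re)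
  /-- every point which the map sends into a graph is in `E ∪ R` -/
  graph : ∀ (m : ℕ) (q : ℂ × ℂ), 0 < q.1.re → ∀ s ∈ Fm.Γ,
    ((ft Ch)^[m] q).2 = s (((ft Ch)^[m] q).1) → q ∈ E ∪ R

/-- the set `R` -/
def Fam.RR (Fm : Fam W) : Set (ℂ × ℂ) :=
  {q | 0 < q.1.re ∧ ∃ m : ℕ, (ft Ch)^[m] q ∈ Fm.Cl Fm.Od}

theorem ft_iter_cont (Ch : Chart c b) (m : ℕ) : Continuous ((ft Ch)^[m]) := by
  have : (ft Ch)^[m] = fun q => (2 ^ m * q.1, (b / 2) ^ m * q.2 + tyK Ch m q.1) :=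
    funext fun q => ty_iter m q
  rw [this]
  have := tyK_cont Ch m
  fun_prop

theorem Fam.RR_closed (Fm : Fam W) (hb : ‖b‖ = 1) :
    ∀ q ∈ closure Fm.RR, 0 < q.1.re → q ∈ Fm.RR := by
  intro q hq hq0
  obtain ⟨S₁, hS₁, hbig⟩ := Fm.bigR hb
  -- the levels are bounded
  obtain ⟨m₁, hm₁⟩ : ∃ m : ℕ, max (S₁ / (q.1.re / 2)) (‖q.2‖ + 1) < 2 ^ m :=
    pow_unbounded_of_one_lt _ (by norm_num)
  have hm₁a : S₁ / (q.1.re / 2) < 2 ^ m₁ := lt_of_le_of_lt (le_max_left _ _) hm₁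
  have hm₁b : ‖q.2‖ + 1 < 2 ^ m₁ := lt_of_le_of_lt (le_max_right _ _) hm₁
  set r : ℝ := min (q.1.re / 2) 1 with hr
  have hrpos : 0 < r := by positivity
  have hlev : ∀ p ∈ ball q r, ∀ m : ℕ, m₁ ≤ m → (ft Ch)^[m + 1] p ∉ Fm.Cl Fm.Od := by
    intro p hp m hm hO
    rw [mem_ball, Prod.dist_eq, max_lt_iff, dist_eq_norm, dist_eq_norm] at hp
    have h1 : q.1.re / 2 ≤ p.1.re := by
      have h2 := (abs_le.1 ((Complex.abs_re_le_norm (p.1 - q.1)).trans hp.1.le)).1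
      rw [sub_re] at h2
      have h3 : r ≤ q.1.re / 2 := min_le_left _ _
      linarith
    have h2 : ‖p.2‖ < ‖q.2‖ + 1 := by
      have h3 : ‖p.2‖ ≤ ‖p.2 - q.2‖ + ‖q.2‖ := by
        have : p.2 = (p.2 - q.2) + q.2 := by ring
        nth_rewrite 1 [this]; exact norm_add_le _ _
      have h4 : r ≤ 1 := min_le_right _ _
      linarith [hp.2]
    have hpow : (2 : ℝ) ^ m₁ ≤ 2 ^ m := pow_le_pow_right₀ (by norm_num) hm
    have hp0 : 0 < p.1.re := by linarith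
    have h5 : S₁ ≤ 2 ^ m * p.1.re := by
      rw [div_lt_iff₀ (by linarith)] at hm₁a
      have h6 : (2 : ℝ) ^ m₁ * (q.1.re / 2) ≤ 2 ^ m * p.1.re := by gcongr
      linarith
    have h6 := hbig m p.1 p.2 hp0 h5 hO
    have h7 : (1 : ℝ) ≤ Real.exp (3 * (2 ^ m * p.1.re)) := Real.one_le_exp (by positivity)
    have h8 : (2 : ℝ) ^ m * 1 ≤ 2 ^ m * Real.exp (3 * (2 ^ m * p.1.re)) := by gcongr
    linarith
  -- a finite union
  have hfin : q ∈ closure (⋃ m ∈ Finset.range (m₁ + 1),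
      ((ft Ch)^[m] ⁻¹' (Fm.Cl Fm.Od))) := by
    rw [Metric.mem_closure_iff]
    intro ε hε
    obtain ⟨p, hp, hd⟩ := Metric.mem_closure_iff.1 hq (min ε r) (by positivity)
    obtain ⟨hp0, m, hm⟩ := hp
    refine ⟨p, ?_, lt_of_lt_of_le hd (min_le_left _ _)⟩
    rw [mem_iUnion₂]
    refine ⟨m, ?_, hm⟩
    rw [Finset.mem_range]
    by_contra hlt
    push Not at hlt
    obtain ⟨k, rfl⟩ : ∃ k, m = k + 1 := ⟨m - 1, by omega⟩
    refine hlev p ?_ k (by omega) hm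
    rw [mem_ball, dist_comm]
    exact lt_of_lt_of_le hd (min_le_right _ _)
  rw [Finset.closure_biUnion, mem_iUnion₂] at hfin
  obtain ⟨m, -, hm⟩ := hfin
  refine ⟨hq0, m, ?_⟩
  apply Fm.Cl_closed hb _ _ _ (ft_iter_re m hq0)
  exact closure_mono (image_preimage_subset _ _)
    (image_closure_subset_closure_image (ft_iter_cont Ch m) (mem_image_of_mem _ hm))

theorem Fam.GG_iter (hb : ‖b‖ = 1) (m : ℕ) {q : ℂ × ℂ} (hq : 0 < q.1.re) :
    GG Ch ((ft Ch)^[m] q).1 ((ft Ch)^[m] q).2 = GG Ch q.1 q.2 / 2 ^ m := by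
  induction m with
  | zero => simp
  | succ m ih =>
    rw [Function.iterate_succ_apply', ft]
    simp only
    rw [GG_step Ch hb (ft_iter_re m hq), ih, pow_succ]
    field_simp

theorem Fam.RR_lsc (Fm : Fam W) (hb : ‖b‖ = 1) :
    ∀ q ∈ Fm.RR, ∀ ε > 0, ∃ δ > 0, ∀ w ∈ ball q.1 δ, ∃ u ∈ ball q.2 ε, (w, u) ∈ Fm.RR := by
  rintro ⟨w₀, u₀⟩ ⟨hq0, m, hm⟩ ε hε
  simp only at hq0
  have hb0 := ty_b_ne hb
  have hbm : (b / 2) ^ m ≠ 0 := pow_ne_zero _ (div_ne_zero hb0 two_ne_zero)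
  obtain ⟨δ₁, hδ₁, H1⟩ := Fm.Cl_lsc hb _ _ hm (ε / 2 ^ (m + 1)) (by positivity)
  rw [ty_iter] at H1
  simp only at H1
  have hkc : ContinuousAt (tyK Ch m) w₀ := (tyK_cont Ch m).continuousAt
  obtain ⟨δ₂, hδ₂, H2⟩ := Metric.continuousAt_iff.1 hkc (ε / 2 ^ (m + 1)) (by positivity)
  have hb3 : Continuous (fun w : ℂ => (2 : ℂ) ^ m * w) := by fun_prop
  obtain ⟨δ₃, hδ₃, H3⟩ := Metric.continuousAt_iff.1 (hb3.continuousAt (x := w₀)) δ₁ hδ₁
  refine ⟨min (min δ₂ δ₃) (w₀.re / 2), by positivity, fun w hw => ?_⟩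
  rw [mem_ball] at hw
  have hw2 : dist w w₀ < δ₂ := lt_of_lt_of_le hw ((min_le_left _ _).trans (min_le_left _ _))
  have hw3 : dist w w₀ < δ₃ := lt_of_lt_of_le hw ((min_le_left _ _).trans (min_le_right _ _))
  have hw4 : dist w w₀ < w₀.re / 2 := lt_of_lt_of_le hw (min_le_right _ _)
  have hw0 : 0 < w.re := by
    rw [dist_eq_norm] at hw4
    have h2 := (abs_le.1 ((Complex.abs_re_le_norm (w - w₀)).trans hw4.le)).1
    rw [sub_re] at h2
    linarith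
  obtain ⟨u', hu', hmem⟩ := H1 (2 ^ m * w) (by rw [mem_ball]; exact H3 hw3)
  refine ⟨(u' - tyK Ch m w) / (b / 2) ^ m, ?_, hw0, m, ?_⟩
  · rw [mem_ball, dist_eq_norm] at hu' ⊢
    have e : (u' - tyK Ch m w) / (b / 2) ^ m - u₀ =
        ((u' - ((b / 2) ^ m * u₀ + tyK Ch m w₀)) - (tyK Ch m w - tyK Ch m w₀)) / (b / 2) ^ m := by
      field_simp
      ring
    rw [e, norm_div, ty_norm_pow hb, div_lt_iff₀ (by positivity)]
    have h1 := norm_sub_le (u' - ((b / 2) ^ m * u₀ + tyK Ch m w₀)) (tyK Ch m w - tyK Ch m w₀)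
    have h2 := H2 hw2
    rw [dist_eq_norm] at h2
    have h3 : ε * (1 / 2) ^ m = ε / 2 ^ (m + 1) + ε / 2 ^ (m + 1) := by
      rw [pow_succ, div_pow, one_pow]; field_simp; ring
    rw [h3]
    linarith
  · rw [ty_iter]
    simp only
    have e : (b / 2) ^ m * ((u' - tyK Ch m w) / (b / 2) ^ m) + tyK Ch m w = u' := by
      field_simp; ring
    rw [e]
    exact hmem

theorem Fam.RR_per (Fm : Fam W) {w u : ℂ} (hw : 0 < w.re) :
    (w + 4 * Real.pi * I, u) ∈ Fm.RR ↔ (w, u) ∈ Fm.RR := by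
  have hw' : 0 < (w + 4 * Real.pi * I).re := by simpa using hw
  have key : ∀ m : ℕ, (ft Ch)^[m] (w + 4 * Real.pi * I, u) ∈ Fm.Cl Fm.Od ↔
      (ft Ch)^[m] (w, u) ∈ Fm.Cl Fm.Od := by
    intro m
    rw [ty_iter, ty_iter]
    simp only
    rw [tyK_per]
    have e : (2 : ℂ) ^ m * (w + 4 * Real.pi * I) = 2 ^ m * w + ((2 ^ m : ℕ) : ℂ) *
        (4 * Real.pi * I) := by push_cast; ring
    rw [e]
    exact Fm.Cl_per_nat Fm.Per_Od _ (by rw [ty_pow_re]; positivity)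
  constructor
  · rintro ⟨-, m, hm⟩
    exact ⟨hw, m, (key m).1 hm⟩
  · rintro ⟨-, m, hm⟩
    exact ⟨hw', m, (key m).2 hm⟩

theorem Fam.graph_aux (Fm : Fam W) (hb : ‖b‖ = 1) (m : ℕ) : ∀ q : ℂ × ℂ, 0 < q.1.re →
    (ft Ch)^[m] q ∈ Fm.Cl Fm.Ev → q ∈ Fm.Cl Fm.Ev ∪ Fm.RR := by
  induction m with
  | zero => intro q _ h; exact Or.inl h
  | succ m ih =>
    intro q hq h
    rw [Function.iterate_succ_apply'] at h
    rcases Fm.ft_pre hb (ft_iter_re m hq) h with h1 | h1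
    · exact ih q hq h1
    · exact Or.inr ⟨hq, m, h1⟩

theorem exists_typed (Fm : Fam W) (hb : ‖b‖ = 1) : Nonempty (Typed Fm) := by
  obtain ⟨S₁, hS₁, hbig⟩ := Fm.bigR hb
  have hWC := W.hC
  refine ⟨{
    E := Fm.Cl Fm.Ev
    R := Fm.RR
    S := max (2 * W.S) (max S₁ 1)
    C := W.C
    subE := fun q hq => hq.1
    subR := fun q hq => hq.1
    closedE := Fm.Cl_closed hb _
    closedR := Fm.RR_closed hb
    disj := ?_
    zeroE := Fm.Cl_zero hb _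
    zeroR := ?_
    lscE := Fm.Cl_lsc hb _
    lscR := Fm.RR_lsc hb
    neE := ?_
    bddE := Fm.Cl_bdd hb _
    perE := fun w u hw => Fm.Cl_per Fm.Per_Ev hw
    perR := fun w u hw => Fm.RR_per hw
    locE := ?_
    locR := ?_
    neR := ?_
    graph := ?_ }⟩
  · rw [Set.disjoint_left]
    rintro q hE ⟨-, m, hm⟩
    rcases m with _ | m
    · exact Fm.disjEO hb hE hm
    · exact Fm.disjEO hb (Fm.ft_iter_mem hb hE m) hm
  · rintro q ⟨hq, m, hm⟩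
    have h1 := Fm.Cl_zero hb _ _ hm
    rw [Fam.GG_iter hb m hq] at h1
    have h2 : (2 : ℝ) ^ m ≠ 0 := by positivity
    rcases div_eq_zero_iff.1 h1 with h | h
    · exact h
    · exact absurd h h2
  · intro w hw
    obtain ⟨s, hs⟩ := Fm.ne
    obtain ⟨t, ht, hte⟩ := Fm.even s hs
    exact ⟨t w, Fm.mem_Cl ht ⟨s, hs, hte⟩ hw⟩
  · intro w u hw h
    exact Fm.locE hb (lt_of_le_of_lt (le_max_left _ _) hw) h
  · rintro w u hw ⟨hw0, m, hm⟩ hu
    have hwS : S₁ ≤ w.re :=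
      ((le_max_left _ _).trans ((le_max_right _ _).trans hw.le))
    have hw1 : 1 ≤ w.re :=
      ((le_max_right _ _).trans ((le_max_right _ _).trans hw.le))
    simp only at hw0
    rcases m with _ | m
    · exact Fm.locO hb (lt_of_le_of_lt (le_max_left _ _) hw) hm
    · exfalso
      have hp : (1 : ℝ) ≤ 2 ^ m := one_le_pow₀ (by norm_num)
      have h1 : w.re ≤ 2 ^ m * w.re := by nlinarith
      have h2 := hbig m w u hw0 (hwS.trans h1) hm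
      have h3 : Real.exp (3 * w.re) ≤ Real.exp (3 * (2 ^ m * w.re)) :=
        Real.exp_le_exp.2 (by linarith)
      have h4 : Real.exp (3 * w.re) ≤ 2 ^ m * Real.exp (3 * (2 ^ m * w.re)) := by
        have := Real.exp_pos (3 * (2 ^ m * w.re))
        nlinarith
      have h5 : Real.exp (3 * w.re) = Real.exp (7 / 4 * w.re) * Real.exp (5 / 4 * w.re) := by
        rw [← Real.exp_add]; ring_nf
      have h6 : 5 / 4 * w.re + 1 ≤ Real.exp (5 / 4 * w.re) := Real.add_one_le_exp _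
      have h7 := Real.exp_pos (7 / 4 * w.re)
      nlinarith
  · intro w hw
    obtain ⟨s, hs⟩ := Fm.ne
    obtain ⟨t, ht, hte⟩ := Fm.odd s hs
    have hw1 : 1 ≤ w.re :=
      ((le_max_right _ _).trans ((le_max_right _ _).trans hw.le))
    have hw0 : 0 < w.re := by linarith
    have hmem : (w, t w) ∈ Fm.Cl Fm.Od := Fm.mem_Cl ht ⟨s, hs, hte⟩ hw0
    exact ⟨t w, ⟨hw0, 0, hmem⟩, Fm.locO hb (lt_of_le_of_lt (le_max_left _ _) hw) hmem⟩
  · intro m q hq s hs he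
    have hre := ft_iter_re (Ch := Ch) m hq
    have hq' : (ft Ch)^[m] q = (((ft Ch)^[m] q).1, s ((ft Ch)^[m] q).1) := by
      rw [← he]
    rcases Fm.pre s hs with hE | hO
    · apply Fm.graph_aux hb m q hq
      rw [hq']
      exact Fm.mem_Cl hs hE hre
    · refine Or.inr ⟨hq, m, ?_⟩
      rw [hq']
      exact Fm.mem_Cl hs hO hre

end H6ea4aa
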