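import Pool.Agent.H.MP_3a36cd_an.SCV1

/-!
# MP_6ea4aa: auxiliary analysis for the leaf coordinate: parametric primitives, expansions at
infinity, a functional equation
-/

set_option autoImplicit false

open Complex Set Filter Topology Metric MeasureTheory

namespace H6ea4aa

/-- parametric integral of a holomorphic function of two variables -/
theorem UChart_param_integral {Ω : Set (ℂ × ℂ)} (hΩ : IsOpen Ω) {F : ℂ × ℂ → ℂ}
    (hF : DifferentiableOn ℂ F Ω)
    (hstar : ∀ q ∈ Ω, ∀ t ∈ Icc (0 : ℝ) 1, (q.1, (t : ℂ) * q.2) ∈ Ω) :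
    DifferentiableOn ℂ (fun q : ℂ × ℂ => ∫ t in (0 : ℝ)..1, F (q.1, (t : ℂ) * q.2)) Ω := by
  intro q₀ hq₀
  set K : Set (ℂ × ℂ) := (fun t : ℝ => ((q₀.1, (t : ℂ) * q₀.2) : ℂ × ℂ)) '' Icc (0 : ℝ) 1 with hK
  have hKc : IsCompact K := isCompact_Icc.image (by fun_prop)
  have hKΩ : K ⊆ Ω := by
    rintro _ ⟨t, ht, rfl⟩
    exact hstar q₀ hq₀ t ht
  obtain ⟨δ, hδ, hδΩ⟩ := hKc.exists_cthickening_subset_open hΩ hKΩ
  have hcomp : IsCompact (cthickening δ K) := hKc.cthickening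
  have hsm : ContDiffOn ℂ 1 F Ω := (Pool.Agent.ParLeaf.scv_contDiffOn hΩ hF).of_le (by simp)
  have hfd : ContinuousOn (fderiv ℂ F) Ω := hsm.continuousOn_fderiv_of_isOpen hΩ (by simp)
  obtain ⟨B, hB⟩ := hcomp.exists_bound_of_continuousOn (hfd.mono hδΩ)
  have hin : ∀ q ∈ ball q₀ δ, ∀ t ∈ Icc (0 : ℝ) 1, ((q.1, (t : ℂ) * q.2) : ℂ × ℂ) ∈
      cthickening δ K := by
    intro q hq t ht
    apply mem_cthickening_of_dist_le _ ((q₀.1, (t : ℂ) * q₀.2) : ℂ × ℂ) δ K ⟨t, ht, rfl⟩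
    rw [mem_ball, Prod.dist_eq, max_lt_iff] at hq
    rw [Prod.dist_eq]
    refine max_le hq.1.le ?_
    simp only
    rw [dist_eq_norm, ← mul_sub, norm_mul, ← dist_eq_norm]
    calc ‖(t : ℂ)‖ * dist q.2 q₀.2 ≤ 1 * dist q.2 q₀.2 := by
          apply mul_le_mul_of_nonneg_right _ dist_nonneg
          rw [Complex.norm_real, Real.norm_eq_abs, abs_of_nonneg ht.1]
          exact ht.2
      _ ≤ δ := by rw [one_mul]; exact hq.2.le
  let A : ℝ → (ℂ × ℂ →L[ℂ] ℂ × ℂ) := fun t =>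
    (ContinuousLinearMap.fst ℂ ℂ ℂ).prod ((t : ℂ) • ContinuousLinearMap.snd ℂ ℂ ℂ)
  have hA : Continuous A := by
    have : A = fun t : ℝ => (ContinuousLinearMap.inl ℂ ℂ ℂ).comp (ContinuousLinearMap.fst ℂ ℂ ℂ) +
        (t : ℂ) • (ContinuousLinearMap.inr ℂ ℂ ℂ).comp (ContinuousLinearMap.snd ℂ ℂ ℂ) := by
      funext t
      ext <;> simp [A]
    rw [this]
    fun_prop
  have hAn : ∀ t ∈ Icc (0 : ℝ) 1, ‖A t‖ ≤ 1 := by
    intro t ht
    apply ContinuousLinearMap.opNorm_le_bound _ zero_le_one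
    intro v
    simp only [A, ContinuousLinearMap.prod_apply, one_mul]
    rw [Prod.norm_def, Prod.norm_def]
    simp only [ContinuousLinearMap.coe_fst', _root_.smul_apply,
      ContinuousLinearMap.coe_snd', smul_eq_mul, norm_mul]
    apply max_le_max le_rfl
    calc ‖(t : ℂ)‖ * ‖v.2‖ ≤ 1 * ‖v.2‖ := by
          apply mul_le_mul_of_nonneg_right _ (norm_nonneg _)
          rw [Complex.norm_real, Real.norm_eq_abs, abs_of_nonneg ht.1]
          exact ht.2
      _ = ‖v.2‖ := one_mul _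
  have hcont1 : ∀ q ∈ ball q₀ δ, ContinuousOn (fun t : ℝ => F (q.1, (t : ℂ) * q.2))
      (Icc (0 : ℝ) 1) := by
    intro q hq
    apply hF.continuousOn.comp (by fun_prop)
    intro t ht
    exact hδΩ (hin q hq t ht)
  have hIoc : Set.uIoc (0 : ℝ) 1 = Set.Ioc 0 1 := Set.uIoc_of_le zero_le_one
  have hderiv := intervalIntegral.hasFDerivAt_integral_of_dominated_of_fderiv_le
    (𝕜 := ℂ) (μ := volume) (a := (0 : ℝ)) (b := 1) (F := fun (q : ℂ × ℂ) (t : ℝ) =>
      F (q.1, (t : ℂ) * q.2))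
    (F' := fun (q : ℂ × ℂ) (t : ℝ) => (fderiv ℂ F (q.1, (t : ℂ) * q.2)).comp (A t))
    (x₀ := q₀) (s := ball q₀ δ) (bound := fun _ => B) (ball_mem_nhds q₀ hδ) ?_ ?_ ?_ ?_ ?_ ?_
  · exact hderiv.differentiableAt.differentiableWithinAt
  · filter_upwards [ball_mem_nhds q₀ hδ] with q hq
    rw [hIoc]
    exact ((hcont1 q hq).mono Ioc_subset_Icc_self).aestronglyMeasurable measurableSet_Ioc
  · apply ContinuousOn.intervalIntegrable
    rw [Set.uIcc_of_le zero_le_one]
    exact hcont1 q₀ (mem_ball_self hδ)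
  · rw [hIoc]
    apply ContinuousOn.aestronglyMeasurable _ measurableSet_Ioc
    apply ContinuousOn.clm_comp
    · apply hfd.comp (by fun_prop)
      intro t ht
      exact hδΩ (hin q₀ (mem_ball_self hδ) t (Ioc_subset_Icc_self ht))
    · exact hA.continuousOn
  · refine Eventually.of_forall fun t ht q hq => ?_
    rw [hIoc] at ht
    have ht' := Ioc_subset_Icc_self ht
    calc ‖(fderiv ℂ F (q.1, (t : ℂ) * q.2)).comp (A t)‖
        ≤ ‖fderiv ℂ F (q.1, (t : ℂ) * q.2)‖ * ‖A t‖ := ContinuousLinearMap.opNorm_comp_le _ _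
      _ ≤ ‖fderiv ℂ F (q.1, (t : ℂ) * q.2)‖ * 1 :=
          mul_le_mul_of_nonneg_left (hAn t ht') (norm_nonneg _)
      _ ≤ B := by rw [mul_one]; exact hB _ (hin q hq t ht')
  · exact intervalIntegrable_const
  · refine Eventually.of_forall fun t ht q hq => ?_
    rw [hIoc] at ht
    have ht' := Ioc_subset_Icc_self ht
    have h1 : HasFDerivAt F (fderiv ℂ F (q.1, (t : ℂ) * q.2)) (q.1, (t : ℂ) * q.2) :=
      ((hF _ (hδΩ (hin q hq t ht'))).differentiableAt
        (hΩ.mem_nhds (hδΩ (hin q hq t ht')))).hasFDerivAt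
    have h2 : HasFDerivAt (fun q : ℂ × ℂ => ((q.1, (t : ℂ) * q.2) : ℂ × ℂ)) (A t) q := by
      apply HasFDerivAt.prodMk hasFDerivAt_fst
      exact hasFDerivAt_snd.const_mul _
    exact h1.comp q h2

/-- primitive along a ray -/
theorem UChart_primitive {f : ℂ → ℂ} {R : ℝ} (hf : DifferentiableOn ℂ f (ball 0 R)) {y : ℂ}
    (hy : y ∈ ball (0 : ℂ) R) :
    HasDerivAt (fun z : ℂ => z * ∫ t in (0 : ℝ)..1, f ((t : ℂ) * z)) (f y) y := by
  obtain ⟨g, hg⟩ := hf.isExactOn_ball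
  have key : ∀ z ∈ ball (0 : ℂ) R, z * ∫ t in (0 : ℝ)..1, f ((t : ℂ) * z) = g z - g 0 := by
    intro z hz
    have hin : ∀ t ∈ Icc (0 : ℝ) 1, (t : ℂ) * z ∈ ball (0 : ℂ) R := by
      intro t ht
      rw [mem_ball_zero_iff] at hz ⊢
      calc ‖(t : ℂ) * z‖ = t * ‖z‖ := by
            rw [norm_mul, Complex.norm_real, Real.norm_eq_abs, abs_of_nonneg ht.1]
        _ ≤ 1 * ‖z‖ := mul_le_mul_of_nonneg_right ht.2 (norm_nonneg _)
        _ < R := by rw [one_mul]; exact hz
    have h1 : ∀ t ∈ Set.uIcc (0 : ℝ) 1, HasDerivAt (fun t : ℝ => g ((t : ℂ) * z))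
        (f ((t : ℂ) * z) * z) t := by
      intro t ht
      rw [Set.uIcc_of_le zero_le_one] at ht
      have h2 := hg _ (hin t ht)
      have h3 : HasDerivAt (fun t : ℝ => (t : ℂ) * z) z t := by
        have := (Complex.ofRealCLM.hasDerivAt (x := t)).mul_const z
        simpa using this
      have h4 := HasDerivAt.comp_of_eq t h2 h3 rfl
      simpa [Function.comp_def] using h4
    have h5 := intervalIntegral.integral_eq_sub_of_hasDerivAt h1 ?_
    · rw [intervalIntegral.integral_mul_const] at h5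
      rw [mul_comm, h5]
      simp
    · apply ContinuousOn.intervalIntegrable
      rw [Set.uIcc_of_le zero_le_one]
      apply ContinuousOn.mul _ continuousOn_const
      exact hf.continuousOn.comp (by fun_prop) (fun t ht => hin t ht)
  have h6 : HasDerivAt (fun z => g z - g 0) (f y) y := (hg y hy).sub_const _
  apply h6.congr_of_eventuallyEq
  filter_upwards [isOpen_ball.mem_nhds hy] with z hz
  exact key z hz

/-- a bounded holomorphic `2πi`-periodic function on a right half plane is a holomorphic function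
of `e^{-w}` -/
theorem UChart_cusp {g : ℂ → ℂ} {S M : ℝ} (hd : ∀ w : ℂ, S < w.re → DifferentiableAt ℂ g w)
    (hper : ∀ w : ℂ, S < w.re → g (w + 2 * Real.pi * I) = g w)
    (hM : ∀ w : ℂ, S < w.re → ‖g w‖ ≤ M) :
    ∃ (G : ℂ → ℂ) (r : ℝ), 0 < r ∧ DifferentiableOn ℂ G (ball 0 r) ∧
      ∀ w : ℂ, S < w.re → g w = G (exp (-w)) := by
  classical
  let f : ℂ → ℂ := fun τ => if S < τ.im then g (-I * τ) else 0
  have hre : ∀ τ : ℂ, (-I * τ).re = τ.im := by intro τ; simp
  have hpos : (0 : ℝ) < 2 * Real.pi := by positivity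
  have hperf : Function.Periodic f ((2 * Real.pi : ℝ) : ℂ) := by
    intro τ
    have him : (τ + ((2 * Real.pi : ℝ) : ℂ)).im = τ.im := by simp
    simp only [f, him]
    split_ifs with h
    · have h1 := hper (-I * (τ + ((2 * Real.pi : ℝ) : ℂ))) (by rw [hre, him]; exact h)
      rw [← h1]
      congr 1
      push_cast
      ring
    · rfl
  have hdiff : ∀ τ : ℂ, S < τ.im → DifferentiableAt ℂ f τ := by
    intro τ hτ
    have h1 : DifferentiableAt ℂ (fun τ : ℂ => g (-I * τ)) τ := by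
      apply DifferentiableAt.comp τ (hd _ (by rw [hre]; exact hτ)) (by fun_prop)
    apply h1.congr_of_eventuallyEq
    filter_upwards [(isOpen_lt continuous_const Complex.continuous_im).mem_nhds hτ] with σ hσ
    simp only [f]
    rw [if_pos hσ]
  have hol : ∀ᶠ z in comap Complex.im atTop, DifferentiableAt ℂ f z := by
    rw [eventually_comap]
    filter_upwards [eventually_gt_atTop S] with a ha z hz
    exact hdiff z (by rw [hz]; exact ha)
  have hbd : Filter.BoundedAtFilter (comap Complex.im atTop) f := by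
    rw [Filter.BoundedAtFilter]
    apply Asymptotics.IsBigO.of_bound M
    rw [eventually_comap]
    filter_upwards [eventually_gt_atTop S] with a ha z hz
    simp only [f, Pi.one_apply, norm_one, mul_one]
    rw [if_pos (by rw [hz]; exact ha)]
    exact hM _ (by rw [hre, hz]; exact ha)
  have h0 := Function.Periodic.differentiableAt_cuspFunction_zero hpos hperf hol hbd
  have h1 := Function.Periodic.eventually_differentiableAt_cuspFunction_nhds_ne_zero hpos hperf hol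
  have h2 : ∀ᶠ q in 𝓝 (0 : ℂ), DifferentiableAt ℂ
      (Function.Periodic.cuspFunction (2 * Real.pi) f) q := by
    rw [eventually_nhdsWithin_iff] at h1
    filter_upwards [h1] with q hq
    by_cases hq0 : q = 0
    · rw [hq0]; exact h0
    · exact hq hq0
  obtain ⟨r, hr, hr'⟩ := Metric.eventually_nhds_iff_ball.1 h2
  refine ⟨Function.Periodic.cuspFunction (2 * Real.pi) f, r, hr,
    fun q hq => (hr' q hq).differentiableWithinAt, ?_⟩
  intro w hw
  have h3 := Function.Periodic.eq_cuspFunction hpos.ne' hperf (I * w)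
  have h4 : Function.Periodic.qParam (2 * Real.pi) (I * w) = exp (-w) := by
    rw [Function.Periodic.qParam]
    congr 1
    have : (Real.pi : ℂ) ≠ 0 := by exact_mod_cast Real.pi_ne_zero
    push_cast
    field_simp
    linear_combination w * Complex.I_sq
  rw [h4] at h3
  rw [h3]
  have h5 : S < (I * w).im := by simpa using hw
  simp only [f]
  rw [if_pos h5]
  congr 1
  linear_combination w * Complex.I_sq

/-- second order Taylor expansion with holomorphic remainder -/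
theorem UChart_taylor {G : ℂ → ℂ} {r : ℝ} (hr : 0 < r) (hG : DifferentiableOn ℂ G (ball 0 r)) :
    ∃ (a₁ a₀ : ℂ) (H : ℂ → ℂ), DifferentiableOn ℂ H (ball 0 r) ∧
      ∀ z, G z = a₁ + a₀ * z + z ^ 2 * H z := by
  have h0 : ball (0 : ℂ) r ∈ 𝓝 (0 : ℂ) := ball_mem_nhds _ hr
  have h1 : DifferentiableOn ℂ (dslope G 0) (ball 0 r) :=
    (Complex.differentiableOn_dslope h0).2 hG
  have h2 : DifferentiableOn ℂ (dslope (dslope G 0) 0) (ball 0 r) :=
    (Complex.differentiableOn_dslope h0).2 h1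
  refine ⟨G 0, dslope G 0 0, dslope (dslope G 0) 0, h2, ?_⟩
  intro z
  have h3 := sub_smul_dslope G 0 z
  have h4 := sub_smul_dslope (dslope G 0) 0 z
  simp only [sub_zero, smul_eq_mul] at h3 h4
  linear_combination (-1 : ℂ) * h3 - z * h4

/-- the functional equation `H (z²) = (b/2) H z + z K z` -/
theorem UChart_funeq {b : ℂ} (hb : ‖b‖ = 1) {K : ℂ → ℂ} {r B : ℝ} (hr : 0 < r) (hr2 : r ≤ 1 / 2)
    (hK : DifferentiableOn ℂ K (ball 0 r)) (hB : ∀ z ∈ ball (0 : ℂ) r, ‖K z‖ ≤ B) :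
    ∃ H : ℂ → ℂ, DifferentiableOn ℂ H (ball 0 r) ∧
      (∀ z ∈ ball (0 : ℂ) r, H (z ^ 2) = (b / 2) * H z + z * K z) ∧
      ∀ z ∈ ball (0 : ℂ) r, ‖H z‖ ≤ 8 * B * ‖z‖ := by
  have hb0 : b ≠ 0 := by
    rintro rfl
    simp at hb
  have hB0 : 0 ≤ B := (norm_nonneg _).trans (hB 0 (mem_ball_self hr))
  let u : ℕ → ℂ → ℂ := fun j z => (2 / b) ^ (j + 1) * (z ^ (2 ^ j) * K (z ^ (2 ^ j)))
  have hx : ∀ (x : ℝ), 0 ≤ x → x ≤ 1 / 2 → ∀ j : ℕ, x ^ (2 ^ j) ≤ 2 * (1 / 4) ^ j * x := by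
    intro x hx0 hx1 j
    have h1 : 2 ^ j = (2 ^ j - 1) + 1 := (Nat.sub_add_cancel Nat.one_le_two_pow).symm
    have h2 : x ^ (2 ^ j - 1) ≤ (1 / 2) ^ (2 ^ j - 1) := pow_le_pow_left₀ hx0 hx1 _
    have h3 : ((1 : ℝ) / 2) ^ (2 ^ j) ≤ (1 / 2) ^ (2 * j) := by
      apply pow_le_pow_of_le_one (by norm_num) (by norm_num)
      exact Nat.mul_le_pow (by norm_num) j
    have h4 : ((1 : ℝ) / 2) ^ (2 * j) = (1 / 4) ^ j := by
      rw [pow_mul]; norm_num
    have h5 : ((1 : ℝ) / 2) ^ (2 ^ j) = (1 / 2) ^ (2 ^ j - 1) * (1 / 2) := by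
      rw [← pow_succ, ← h1]
    rw [h4, h5] at h3
    rw [h1, pow_succ]
    apply mul_le_mul_of_nonneg_right _ hx0
    linarith
  have hpow : ∀ z ∈ ball (0 : ℂ) r, ∀ j : ℕ, z ^ (2 ^ j) ∈ ball (0 : ℂ) r := by
    intro z hz j
    rw [mem_ball_zero_iff] at hz ⊢
    rw [norm_pow]
    refine lt_of_le_of_lt ?_ hz
    exact pow_le_of_le_one (norm_nonneg _) (by linarith) (by positivity)
  have hun : ∀ j, ∀ z ∈ ball (0 : ℂ) r, ‖u j z‖ ≤ 4 * B * ‖z‖ * (1 / 2) ^ j := by
    intro j z hz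
    have h1 := hB _ (hpow z hz j)
    have hz' := hz
    rw [mem_ball_zero_iff] at hz'
    have h2 := hx ‖z‖ (norm_nonneg _) (by linarith) j
    simp only [u]
    rw [norm_mul, norm_mul, norm_pow, norm_pow, norm_div, hb, div_one, Complex.norm_two]
    have h3 : (2 : ℝ) ^ (j + 1) * (1 / 4) ^ j = 2 * (1 / 2) ^ j := by
      rw [pow_succ, mul_right_comm, ← mul_pow]
      norm_num
      ring
    calc (2 : ℝ) ^ (j + 1) * (‖z‖ ^ 2 ^ j * ‖K (z ^ 2 ^ j)‖)
        ≤ (2 : ℝ) ^ (j + 1) * ((2 * (1 / 4) ^ j * ‖z‖) * B) := by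
          apply mul_le_mul_of_nonneg_left _ (by positivity)
          apply mul_le_mul h2 h1 (norm_nonneg _) (by positivity)
      _ = (2 ^ (j + 1) * (1 / 4) ^ j) * (2 * ‖z‖ * B) := by ring
      _ = 4 * B * ‖z‖ * (1 / 2) ^ j := by rw [h3]; ring
  have hgeo : Summable fun j : ℕ => ((1 : ℝ) / 2) ^ j := summable_geometric_two
  have hsum : ∀ z ∈ ball (0 : ℂ) r, Summable fun j => u j z := by
    intro z hz
    exact Summable.of_norm_bounded (hgeo.mul_left (4 * B * ‖z‖)) (fun j => hun j z hz)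
  refine ⟨fun z => -∑' j, u j z, ?_, ?_, ?_⟩
  · apply DifferentiableOn.neg
    apply differentiableOn_tsum_of_summable_norm (u := fun j : ℕ => 4 * B * r * (1 / 2) ^ j)
      (hgeo.mul_left _) _ isOpen_ball
    · intro j z hz
      refine (hun j z hz).trans ?_
      rw [mem_ball_zero_iff] at hz
      apply mul_le_mul_of_nonneg_right _ (by positivity)
      apply mul_le_mul_of_nonneg_left hz.le (by positivity)
    · intro j
      apply DifferentiableOn.const_mul
      apply DifferentiableOn.mul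
      · fun_prop
      · exact hK.comp (by fun_prop) (fun z hz => hpow z hz j)
  · intro z hz
    have hz2 : z ^ 2 ∈ ball (0 : ℂ) r := by simpa using hpow z hz 1
    have h1 : ∀ j, u (j + 1) z = (2 / b) * u j (z ^ 2) := by
      intro j
      simp only [u]
      rw [← pow_mul, ← pow_succ']
      ring
    have h2 := (hsum z hz).tsum_eq_zero_add
    have h3 : u 0 z = (2 / b) * (z * K z) := by simp [u]
    simp only [h1] at h2
    rw [tsum_mul_left, h3] at h2
    simp only [h2]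
    field_simp
    ring
  · intro z hz
    rw [norm_neg]
    have h1 : HasSum (fun j : ℕ => 4 * B * ‖z‖ * (1 / 2) ^ j) (8 * B * ‖z‖) := by
      have h2 := hasSum_geometric_two.mul_left (4 * B * ‖z‖)
      have h3 : 4 * B * ‖z‖ * 2 = 8 * B * ‖z‖ := by ring
      rw [h3] at h2
      exact h2
    exact tsum_of_norm_bounded h1 (fun j => hun j z hz)

end H6ea4aa
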