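import Pool.Agent.H.MP_6ea4aa_an.Leaf
import Pool.Agent.H.MP_6ea4aa_an.UChartA

/-!
# MP_6ea4aa: the affine leaf coordinate `u` and the cocycle `κ`
-/

set_option autoImplicit false

open Complex Set Filter Topology Metric

namespace H6ea4aa

structure UChart (c b : ℂ) (P : Phi c b) (L : Leaf c b P) where
  S : ℝ
  C : ℝ
  hS : L.S ≤ S
  hC : 1 ≤ C
  κ : ℂ → ℂ
  Uc : ℂ → ℂ → ℂ
  κ_diff : Differentiable ℂ κ
  κ_per : ∀ w, κ (w + 2 * Real.pi * I) = κ w
  κ_lead : ∀ w : ℂ, 0 ≤ w.re → ‖κ w - exp (3 * w)‖ ≤ C * Real.exp (2 * w.re)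
  U_diff : DifferentiableOn ℂ (fun q : ℂ × ℂ => Uc q.1 q.2) (DD S)
  U_per : ∀ w y, (w, y) ∈ DD S → Uc (w + 2 * Real.pi * I) y = Uc w y
  U_step : ∀ w y, (w, y) ∈ DD S → (2 * w, L.X w y) ∈ DD S ∧
    Uc (2 * w) (L.X w y) = (b / 2) * Uc w y + κ w
  U_est : ∀ w y, (w, y) ∈ DD S →
    ‖Uc w y - exp w * y‖ ≤ C * (1 + ‖y‖ ^ 2) * Real.exp (-w.re)
  U_inj : ∀ w : ℂ, S < w.re → InjOn (Uc w) (ball 0 (Real.exp w.re / 2))
  U_der : ∀ w y, (w, y) ∈ DD S → deriv (Uc w) y ≠ 0
  U_surj : ∀ w u : ℂ, S < w.re → ‖u‖ ≤ Real.exp (2 * w.re) / 4 →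
    ∃ y : ℂ, ‖y‖ < Real.exp w.re / 2 ∧ Uc w y = u

variable {c b : ℂ} {P : Phi c b}

private theorem isOpen_DD (S : ℝ) : IsOpen (DD S) := by
  have h1 : IsOpen {q : ℂ × ℂ | S < q.1.re} := isOpen_lt continuous_const (by fun_prop)
  have h2 : IsOpen {q : ℂ × ℂ | ‖q.2‖ < Real.exp q.1.re / 2} :=
    isOpen_lt (by fun_prop) (by fun_prop)
  exact h1.inter h2

private theorem DD_mono {S T : ℝ} (h : S ≤ T) : DD T ⊆ DD S := fun _ hq =>
  ⟨lt_of_le_of_lt h hq.1, hq.2⟩

/-- partial derivative of `X` in `w` -/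
private noncomputable def Xw (L : Leaf c b P) (q : ℂ × ℂ) : ℂ :=
  fderiv ℂ (fun q : ℂ × ℂ => L.X q.1 q.2) q (1, 0)

/-- partial derivative of `X` in `y` -/
private noncomputable def Xy (L : Leaf c b P) (q : ℂ × ℂ) : ℂ :=
  fderiv ℂ (fun q : ℂ × ℂ => L.X q.1 q.2) q (0, 1)

private theorem Xw_diff (L : Leaf c b P) : DifferentiableOn ℂ (Xw L) (DD L.S) :=
  Pool.Agent.ParLeaf.SCV1_dir (isOpen_DD _) L.diff _

private theorem X_hasFDerivAt (L : Leaf c b P) {q : ℂ × ℂ} (hq : q ∈ DD L.S) :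
    HasFDerivAt (fun q : ℂ × ℂ => L.X q.1 q.2)
      (fderiv ℂ (fun q : ℂ × ℂ => L.X q.1 q.2) q) q :=
  ((L.diff q hq).differentiableAt ((isOpen_DD _).mem_nhds hq)).hasFDerivAt

private theorem fderiv_split (L : Leaf c b P) (q : ℂ × ℂ) (α β : ℂ) :
    fderiv ℂ (fun q : ℂ × ℂ => L.X q.1 q.2) q (α, β) = α * Xw L q + β * Xy L q := by
  have : ((α, β) : ℂ × ℂ) = α • ((1, 0) : ℂ × ℂ) + β • ((0, 1) : ℂ × ℂ) := by
    ext <;> simp
  rw [this, map_add, map_smul, map_smul]
  rfl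

/-- chain rule along curves -/
private theorem X_comp (L : Leaf c b P) {f g : ℂ → ℂ} {f' g' z : ℂ} (hf : HasDerivAt f f' z)
    (hg : HasDerivAt g g' z) (hq : (f z, g z) ∈ DD L.S) :
    HasDerivAt (fun ζ => L.X (f ζ) (g ζ)) (f' * Xw L (f z, g z) + g' * Xy L (f z, g z)) z := by
  have h1 := (X_hasFDerivAt L hq).comp_hasDerivAt z (hf.prodMk hg)
  rw [fderiv_split] at h1
  exact h1

private theorem X_deriv_w (L : Leaf c b P) {w y : ℂ} (hq : (w, y) ∈ DD L.S) :
    HasDerivAt (fun w' => L.X w' y) (Xw L (w, y)) w := by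
  have := X_comp L (hasDerivAt_id w) (hasDerivAt_const w y) hq
  simpa using this

private theorem X_deriv_y (L : Leaf c b P) {w y : ℂ} (hq : (w, y) ∈ DD L.S) :
    HasDerivAt (fun y' => L.X w y') (Xy L (w, y)) y := by
  have := X_comp L (hasDerivAt_const y w) (hasDerivAt_id y) hq
  simpa using this

private theorem Xw_est (L : Leaf c b P) {w y : ℂ} (hq : (w, y) ∈ DD L.S) :
    ‖Xw L (w, y) - exp w‖ ≤ L.C * (1 + ‖y‖) * Real.exp (-w.re) := by
  rw [← (X_deriv_w L hq).deriv]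
  exact L.der w y hq

private theorem X_per (L : Leaf c b P) {w y : ℂ} (hq : (w, y) ∈ DD L.S) :
    L.X (w + 2 * Real.pi * I) y = L.X w y := by
  have h1 : (w + 2 * Real.pi * I, y) ∈ DD L.S := by
    have : (w + 2 * Real.pi * I).re = w.re := by simp
    exact ⟨by simp only [this]; exact hq.1, by simp only [this]; exact hq.2⟩
  have h2 := L.mem w y hq
  refine (L.uniq _ _ _ h1 h2.1 ?_).symm
  rw [h2.2, Complex.exp_add, Complex.exp_two_pi_mul_I, mul_one]

private theorem Xw_per (L : Leaf c b P) {w y : ℂ} (hq : (w, y) ∈ DD L.S) :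
    Xw L (w + 2 * Real.pi * I, y) = Xw L (w, y) := by
  have h1 : (w + 2 * Real.pi * I, y) ∈ DD L.S := by
    have : (w + 2 * Real.pi * I).re = w.re := by simp
    exact ⟨by simp only [this]; exact hq.1, by simp only [this]; exact hq.2⟩
  have h2 : HasDerivAt (fun w' => L.X (w' + 2 * Real.pi * I) y)
      (Xw L (w + 2 * Real.pi * I, y)) w := by
    have := X_comp L ((hasDerivAt_id w).add_const (2 * Real.pi * I)) (hasDerivAt_const w y) h1
    simpa using this
  have h3 := X_deriv_w L hq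
  refine h2.unique (h3.congr_of_eventuallyEq ?_)
  have h4 : ∀ᶠ w' in 𝓝 w, (w', y) ∈ DD L.S := by
    have : Continuous fun w' : ℂ => ((w', y) : ℂ × ℂ) := by fun_prop
    exact this.continuousAt.preimage_mem_nhds ((isOpen_DD _).mem_nhds hq)
  filter_upwards [h4] with w' hw'
  exact X_per L hw'

/-! ### the primitive `U0` -/

private noncomputable def U0 (L : Leaf c b P) (w y : ℂ) : ℂ :=
  y * ∫ t in (0 : ℝ)..1, Xw L (w, (t : ℂ) * y)

private theorem DD_star {S : ℝ} : ∀ q ∈ DD S, ∀ t ∈ Icc (0 : ℝ) 1, (q.1, (t : ℂ) * q.2) ∈ DD S := by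
  intro q hq t ht
  refine ⟨hq.1, ?_⟩
  simp only
  calc ‖(t : ℂ) * q.2‖ = t * ‖q.2‖ := by
        rw [norm_mul, Complex.norm_real, Real.norm_eq_abs, abs_of_nonneg ht.1]
    _ ≤ 1 * ‖q.2‖ := mul_le_mul_of_nonneg_right ht.2 (norm_nonneg _)
    _ < Real.exp q.1.re / 2 := by rw [one_mul]; exact hq.2

private theorem U0_diff (L : Leaf c b P) :
    DifferentiableOn ℂ (fun q : ℂ × ℂ => U0 L q.1 q.2) (DD L.S) := by
  have h1 := UChart_param_integral (isOpen_DD L.S) (Xw_diff L) DD_star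
  exact DifferentiableOn.mul (by fun_prop) h1

private theorem U0_deriv (L : Leaf c b P) {w y : ℂ} (hq : (w, y) ∈ DD L.S) :
    HasDerivAt (U0 L w) (Xw L (w, y)) y := by
  have h1 : DifferentiableOn ℂ (fun y => Xw L (w, y)) (ball 0 (Real.exp w.re / 2)) := by
    apply (Xw_diff L).comp (by fun_prop)
    intro y' hy'
    rw [mem_ball_zero_iff] at hy'
    exact ⟨hq.1, hy'⟩
  exact UChart_primitive h1 (mem_ball_zero_iff.2 hq.2)

private theorem U0_zero (L : Leaf c b P) (w : ℂ) : U0 L w 0 = 0 := by simp [U0]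

private theorem U0_per (L : Leaf c b P) {w y : ℂ} (hq : (w, y) ∈ DD L.S) :
    U0 L (w + 2 * Real.pi * I) y = U0 L w y := by
  rw [U0, U0]
  congr 1
  apply intervalIntegral.integral_congr
  intro t ht
  rw [uIcc_of_le zero_le_one] at ht
  exact Xw_per L (DD_star _ hq t ht)

private theorem U0_est (L : Leaf c b P) {w y : ℂ} (hq : (w, y) ∈ DD L.S) :
    ‖U0 L w y - exp w * y‖ ≤ 2 * L.C * (1 + ‖y‖ ^ 2) * Real.exp (-w.re) := by
  have hC : 0 < L.C := lt_of_lt_of_le one_pos L.hC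
  have h1 : ∀ y' ∈ closedBall (0 : ℂ) ‖y‖, HasDerivWithinAt (fun y' => U0 L w y' - exp w * y')
      (Xw L (w, y') - exp w) (closedBall (0 : ℂ) ‖y‖) y' := by
    intro y' hy'
    rw [mem_closedBall_zero_iff] at hy'
    have h2 := (U0_deriv L (w := w) (y := y') ⟨hq.1, lt_of_le_of_lt hy' hq.2⟩).sub
      ((hasDerivAt_id y').const_mul (exp w))
    rw [mul_one] at h2
    exact h2.hasDerivWithinAt
  have h3 : ∀ y' ∈ closedBall (0 : ℂ) ‖y‖, ‖Xw L (w, y') - exp w‖ ≤
      L.C * (1 + ‖y‖) * Real.exp (-w.re) := by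
    intro y' hy'
    rw [mem_closedBall_zero_iff] at hy'
    refine (Xw_est L (w := w) (y := y') ⟨hq.1, lt_of_le_of_lt hy' hq.2⟩).trans ?_
    gcongr
  have h4 := (convex_closedBall (0 : ℂ) ‖y‖).norm_image_sub_le_of_norm_hasDerivWithin_le h1 h3
    (mem_closedBall_self (norm_nonneg _)) (mem_closedBall_zero_iff.2 le_rfl : y ∈ _)
  simp only [U0_zero, mul_zero, sub_zero] at h4
  refine h4.trans ?_
  have h5 : (1 + ‖y‖) * ‖y‖ ≤ 2 * (1 + ‖y‖ ^ 2) := by nlinarith [sq_nonneg (‖y‖ - 1), norm_nonneg y]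
  calc L.C * (1 + ‖y‖) * Real.exp (-w.re) * ‖y‖
      = L.C * Real.exp (-w.re) * ((1 + ‖y‖) * ‖y‖) := by ring
    _ ≤ L.C * Real.exp (-w.re) * (2 * (1 + ‖y‖ ^ 2)) := by gcongr
    _ = _ := by ring

/-! ### invariance -/

/-- the threshold -/
private noncomputable def T0 (L : Leaf c b P) : ℝ := max L.S (Real.log (100 * L.C))

private theorem exp_T0 (L : Leaf c b P) {w : ℂ} (hw : T0 L < w.re) :
    100 * L.C < Real.exp w.re := by
  have hC : 0 < 100 * L.C := by linarith [L.hC]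
  rw [← Real.log_lt_iff_lt_exp hC]
  exact lt_of_le_of_lt (le_max_right _ _) hw

private theorem T0_pos (L : Leaf c b P) : 1 ≤ T0 L := L.hS.trans (le_max_left _ _)

private theorem X_norm (L : Leaf c b P) {w y : ℂ} (hq : (w, y) ∈ DD (T0 L)) :
    ‖L.X w y - exp w‖ ≤ L.C ∧ ‖L.X w y‖ ≤ 2 * Real.exp w.re := by
  have hC := L.hC
  have h1 := L.est w y (DD_mono (le_max_left _ _) hq)
  have h2 := exp_T0 L hq.1
  have h3 : ‖y‖ < Real.exp w.re / 2 := hq.2
  have h4 : Real.exp (-w.re) * Real.exp w.re = 1 := by rw [← Real.exp_add]; simp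
  have h5 : 0 < Real.exp (-w.re) := Real.exp_pos _
  have h6 : L.C * (1 + ‖y‖) * Real.exp (-w.re) ≤ L.C := by
    have : (1 + ‖y‖) * Real.exp (-w.re) ≤ 1 := by nlinarith
    calc L.C * (1 + ‖y‖) * Real.exp (-w.re) = L.C * ((1 + ‖y‖) * Real.exp (-w.re)) := by ring
      _ ≤ L.C * 1 := by gcongr
      _ = L.C := mul_one _
  have h7 := h1.trans h6
  refine ⟨h7, ?_⟩
  have h8 : ‖L.X w y‖ ≤ ‖L.X w y - exp w‖ + ‖exp w‖ := by
    have := norm_add_le (L.X w y - exp w) (exp w)
    simpa using this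
  rw [Complex.norm_exp] at h8
  linarith

private theorem step_mem (L : Leaf c b P) {S : ℝ} (hS : T0 L ≤ S) {w y : ℂ}
    (hq : (w, y) ∈ DD S) : (2 * w, L.X w y) ∈ DD S := by
  have hq' := DD_mono hS hq
  have h1 := (X_norm L hq').2
  have h2 := exp_T0 L hq'.1
  have h3 := L.hC
  have h4 : (2 * w).re = 2 * w.re := by simp
  have h5 := hq.1
  have h6 := T0_pos L
  simp only at h5
  refine ⟨by simp only [h4]; linarith, ?_⟩
  simp only [h4]
  have h7 : Real.exp (2 * w.re) = Real.exp w.re * Real.exp w.re := by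
    rw [← Real.exp_add]; ring_nf
  rw [h7]
  nlinarith

private theorem X_step (hb : ‖b‖ = 1) (L : Leaf c b P) {w y : ℂ} (hq : (w, y) ∈ DD (T0 L)) :
    L.X (2 * w) (L.X w y) = L.X w y ^ 2 + c - b * y := by
  have h1 := DD_mono (le_max_left _ _) (step_mem L le_rfl hq)
  have h2 := L.mem w y (DD_mono (le_max_left _ _) hq)
  have h3 := (hen_VP c b hb h2.1).1
  have h4 := P.step _ h2.1
  rw [h2.2] at h4
  refine (L.uniq (2 * w) (L.X w y ^ 2 + c - b * y) (L.X w y) h1 h3 ?_).symm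
  have h5 : hen c b (L.X w y, y) = (L.X w y ^ 2 + c - b * y, L.X w y) := rfl
  rw [← h5, h4, two_mul, Complex.exp_add]
  ring

/-- key identity -/
private theorem partials (hb : ‖b‖ = 1) (L : Leaf c b P) {w y : ℂ} (hq : (w, y) ∈ DD (T0 L)) :
    Xy L (w, y) * Xw L (2 * w, L.X w y) = (b / 2) * Xw L (w, y) := by
  have hq1 := DD_mono (le_max_left _ _) hq
  have hq2 := DD_mono (le_max_left _ _) (step_mem L le_rfl hq)
  have hw := X_deriv_w L hq1
  have hy := X_deriv_y L hq1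
  have e1 : ∀ᶠ w' in 𝓝 w, L.X (2 * w') (L.X w' y) = L.X w' y ^ 2 + c - b * y := by
    have : Continuous fun w' : ℂ => ((w', y) : ℂ × ℂ) := by fun_prop
    filter_upwards [this.continuousAt.preimage_mem_nhds ((isOpen_DD _).mem_nhds hq)] with w' hw'
    exact X_step hb L hw'
  have e2 : ∀ᶠ y' in 𝓝 y, L.X (2 * w) (L.X w y') = L.X w y' ^ 2 + c - b * y' := by
    have : Continuous fun y' : ℂ => ((w, y') : ℂ × ℂ) := by fun_prop
    filter_upwards [this.continuousAt.preimage_mem_nhds ((isOpen_DD _).mem_nhds hq)] with y' hy'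
    exact X_step hb L hy'
  have d1 : HasDerivAt (fun w' => L.X (2 * w') (L.X w' y))
      (2 * Xw L (2 * w, L.X w y) + Xw L (w, y) * Xy L (2 * w, L.X w y)) w := by
    have h1 : HasDerivAt (fun w' : ℂ => 2 * w') 2 w := by
      simpa using (hasDerivAt_id w).const_mul 2
    exact X_comp L h1 hw hq2
  have d2 : HasDerivAt (fun y' => L.X (2 * w) (L.X w y'))
      (0 * Xw L (2 * w, L.X w y) + Xy L (w, y) * Xy L (2 * w, L.X w y)) y :=
    X_comp L (hasDerivAt_const y (2 * w)) hy hq2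
  have d3 : HasDerivAt (fun w' => L.X w' y ^ 2 + c - b * y) (2 * L.X w y * Xw L (w, y)) w := by
    have := ((hw.pow 2).add_const c).sub_const (b * y)
    simpa using this
  have d4 : HasDerivAt (fun y' => L.X w y' ^ 2 + c - b * y')
      (2 * L.X w y * Xy L (w, y) - b) y := by
    refine (((hy.fun_pow 2).add_const c).fun_sub ((hasDerivAt_id y).const_mul b)).congr_deriv ?_
    simp
  have f1 := d1.unique (d3.congr_of_eventuallyEq e1)
  have f2 := d2.unique (d4.congr_of_eventuallyEq e2)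
  linear_combination (Xy L (w, y) / 2) * f1 - (Xw L (w, y) / 2) * f2

/-- the cocycle before normalisation -/
private noncomputable def kk (L : Leaf c b P) (w : ℂ) : ℂ := U0 L (2 * w) (L.X w 0)

private theorem U0_step (hb : ‖b‖ = 1) (L : Leaf c b P) {w y : ℂ} (hq : (w, y) ∈ DD (T0 L)) :
    U0 L (2 * w) (L.X w y) = (b / 2) * U0 L w y + kk L w := by
  have h1 : ∀ y' ∈ ball (0 : ℂ) (Real.exp w.re / 2),
      HasDerivWithinAt (fun y' => U0 L (2 * w) (L.X w y') - (b / 2) * U0 L w y') 0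
        (ball (0 : ℂ) (Real.exp w.re / 2)) y' := by
    intro y' hy'
    rw [mem_ball_zero_iff] at hy'
    have hq' : (w, y') ∈ DD (T0 L) := ⟨hq.1, hy'⟩
    have h2 := U0_deriv L (DD_mono (le_max_left _ _) (step_mem L le_rfl hq'))
    have h3 := X_deriv_y L (DD_mono (le_max_left _ _) hq')
    have h4 := (HasDerivAt.comp y' h2 h3).sub
      ((U0_deriv L (DD_mono (le_max_left _ _) hq')).const_mul (b / 2))
    have h5 : Xw L (2 * w, L.X w y') * Xy L (w, y') - b / 2 * Xw L (w, y') = 0 := by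
      rw [mul_comm, partials hb L hq', sub_self]
    rw [h5] at h4
    exact h4.hasDerivWithinAt
  have h6 := (convex_ball (0 : ℂ) (Real.exp w.re / 2)).norm_image_sub_le_of_norm_hasDerivWithin_le
    (C := 0) h1 (by intro x hx; simp) (mem_ball_self (by positivity))
    (mem_ball_zero_iff.2 hq.2 : y ∈ _)
  rw [zero_mul] at h6
  have h7 := norm_le_zero_iff.1 h6
  rw [U0_zero, mul_zero, sub_zero] at h7
  rw [kk]
  linear_combination h7

private theorem kk_est (L : Leaf c b P) {w : ℂ} (hw : T0 L < w.re) :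
    ‖kk L w - exp (3 * w)‖ ≤ 20 * L.C * Real.exp w.re := by
  have hC := L.hC
  have hq : (w, (0 : ℂ)) ∈ DD (T0 L) := ⟨hw, by simp only [norm_zero]; positivity⟩
  have hE := exp_T0 L hw
  have h1 := U0_est L (DD_mono (le_max_left _ _) (step_mem L le_rfl hq))
  have h2 := (X_norm L hq).2
  have h3 := L.est w 0 (DD_mono (le_max_left _ _) hq)
  rw [norm_zero, add_zero, mul_one] at h3
  have h4 : (2 * w).re = 2 * w.re := by simp
  rw [h4] at h1
  have hE2 : Real.exp (-(2 * w.re)) * (Real.exp w.re * Real.exp w.re) = 1 := by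
    rw [← Real.exp_add, ← Real.exp_add]; ring_nf; exact Real.exp_zero
  have hE3 : 0 < Real.exp (-(2 * w.re)) := Real.exp_pos _
  have h5 : ‖L.X w 0‖ ^ 2 ≤ 4 * (Real.exp w.re * Real.exp w.re) := by
    nlinarith [norm_nonneg (L.X w 0), Real.exp_pos w.re]
  have h6 : 2 * L.C * (1 + ‖L.X w 0‖ ^ 2) * Real.exp (-(2 * w.re)) ≤ 2 * L.C * 5 := by
    have : (1 + ‖L.X w 0‖ ^ 2) * Real.exp (-(2 * w.re)) ≤ 5 := by
      have h7 : 1 + ‖L.X w 0‖ ^ 2 ≤ 5 * (Real.exp w.re * Real.exp w.re) := by nlinarith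
      calc (1 + ‖L.X w 0‖ ^ 2) * Real.exp (-(2 * w.re))
          ≤ 5 * (Real.exp w.re * Real.exp w.re) * Real.exp (-(2 * w.re)) := by gcongr
        _ = 5 * (Real.exp (-(2 * w.re)) * (Real.exp w.re * Real.exp w.re)) := by ring
        _ = 5 := by rw [hE2, mul_one]
    calc 2 * L.C * (1 + ‖L.X w 0‖ ^ 2) * Real.exp (-(2 * w.re))
        = 2 * L.C * ((1 + ‖L.X w 0‖ ^ 2) * Real.exp (-(2 * w.re))) := by ring
      _ ≤ 2 * L.C * 5 := by gcongr
  have h7 : kk L w - exp (3 * w) = (U0 L (2 * w) (L.X w 0) - exp (2 * w) * L.X w 0) +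
      exp (2 * w) * (L.X w 0 - exp w) := by
    have : exp (3 * w) = exp (2 * w) * exp w := by
      rw [← Complex.exp_add]; ring_nf
    rw [kk, this]; ring
  have h8 : ‖exp (2 * w)‖ = Real.exp w.re * Real.exp w.re := by
    rw [Complex.norm_exp, h4, ← Real.exp_add]; ring_nf
  have h9 : Real.exp w.re * Real.exp (-w.re) = 1 := by rw [← Real.exp_add]; simp
  rw [h7]
  calc ‖(U0 L (2 * w) (L.X w 0) - exp (2 * w) * L.X w 0) + exp (2 * w) * (L.X w 0 - exp w)‖
      ≤ ‖U0 L (2 * w) (L.X w 0) - exp (2 * w) * L.X w 0‖ +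
        ‖exp (2 * w)‖ * ‖L.X w 0 - exp w‖ := by
        rw [← norm_mul]; exact norm_add_le _ _
    _ ≤ 2 * L.C * 5 + (Real.exp w.re * Real.exp w.re) * (L.C * Real.exp (-w.re)) := by
        rw [h8]
        gcongr
        exact h1.trans h6
    _ = 10 * L.C + L.C * Real.exp w.re * (Real.exp w.re * Real.exp (-w.re)) := by ring
    _ = 10 * L.C + L.C * Real.exp w.re := by rw [h9, mul_one]
    _ ≤ 20 * L.C * Real.exp w.re := by nlinarith

private theorem kk_diff (L : Leaf c b P) {w : ℂ} (hw : T0 L < w.re) :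
    DifferentiableAt ℂ (kk L) w := by
  have hq : (w, (0 : ℂ)) ∈ DD (T0 L) := ⟨hw, by simp only [norm_zero]; positivity⟩
  have h1 := DD_mono (le_max_left _ _) (step_mem L le_rfl hq)
  have h2 : DifferentiableAt ℂ (fun q : ℂ × ℂ => U0 L q.1 q.2) (2 * w, L.X w 0) :=
    (U0_diff L _ h1).differentiableAt ((isOpen_DD _).mem_nhds h1)
  have h3 := (X_deriv_w L (DD_mono (le_max_left _ _) hq)).differentiableAt
  have h4 : DifferentiableAt ℂ (fun w : ℂ => ((2 * w, L.X w 0) : ℂ × ℂ)) w :=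
    DifferentiableAt.prodMk (by fun_prop) h3
  exact DifferentiableAt.comp w h2 h4

private theorem kk_per (L : Leaf c b P) {w : ℂ} (hw : T0 L < w.re) :
    kk L (w + 2 * Real.pi * I) = kk L w := by
  have hq : (w, (0 : ℂ)) ∈ DD (T0 L) := ⟨hw, by simp only [norm_zero]; positivity⟩
  have h1 := DD_mono (le_max_left _ _) (step_mem L le_rfl hq)
  have h2 := U0_per L h1
  have h3 : (2 * w + 2 * Real.pi * I, L.X w 0) ∈ DD L.S := by
    have : (2 * w + 2 * Real.pi * I).re = (2 * w).re := by simp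
    exact ⟨by simp only [this]; exact h1.1, by simp only [this]; exact h1.2⟩
  have h4 := U0_per L h3
  rw [kk, kk, X_per L (DD_mono (le_max_left _ _) hq), ← h2, ← h4]
  congr 1
  ring

/-- the expansion of the cocycle -/
private theorem kk_expand (L : Leaf c b P) :
    ∃ (a₁ a₀ : ℂ) (K : ℂ → ℂ) (r B : ℝ), 0 < r ∧ r ≤ 1 / 2 ∧ 0 ≤ B ∧
      DifferentiableOn ℂ K (ball 0 r) ∧ (∀ z ∈ ball (0 : ℂ) r, ‖K z‖ ≤ B) ∧
      ∀ w : ℂ, T0 L < w.re →
        kk L w = exp (3 * w) + a₁ * exp w + a₀ + exp (-w) * K (exp (-w)) := by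
  have hd : ∀ w : ℂ, T0 L < w.re →
      DifferentiableAt ℂ (fun w => exp (-w) * (kk L w - exp (3 * w))) w := by
    intro w hw
    have := kk_diff L hw
    fun_prop
  have hp : ∀ w : ℂ, T0 L < w.re → (fun w => exp (-w) * (kk L w - exp (3 * w)))
      (w + 2 * Real.pi * I) = (fun w => exp (-w) * (kk L w - exp (3 * w))) w := by
    intro w hw
    simp only
    rw [kk_per L hw]
    have h1 : exp (-(w + 2 * Real.pi * I)) = exp (-w) := by
      rw [show -(w + 2 * Real.pi * I) = -w - 2 * Real.pi * I by ring, Complex.exp_sub,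
        Complex.exp_two_pi_mul_I, div_one]
    have h2 : exp (3 * (w + 2 * Real.pi * I)) = exp (3 * w) := by
      rw [show 3 * (w + 2 * Real.pi * I) = 3 * w + (2 * Real.pi * I) + (2 * Real.pi * I) +
        (2 * Real.pi * I) by ring, Complex.exp_add, Complex.exp_add, Complex.exp_add,
        Complex.exp_two_pi_mul_I]
      ring
    rw [h1, h2]
  have hm : ∀ w : ℂ, T0 L < w.re →
      ‖(fun w => exp (-w) * (kk L w - exp (3 * w))) w‖ ≤ 20 * L.C := by
    intro w hw
    simp only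
    rw [norm_mul, Complex.norm_exp, Complex.neg_re]
    have h1 := kk_est L hw
    have h2 : Real.exp (-w.re) * Real.exp w.re = 1 := by rw [← Real.exp_add]; simp
    calc Real.exp (-w.re) * ‖kk L w - exp (3 * w)‖
        ≤ Real.exp (-w.re) * (20 * L.C * Real.exp w.re) := by gcongr
      _ = 20 * L.C * (Real.exp (-w.re) * Real.exp w.re) := by ring
      _ = 20 * L.C := by rw [h2, mul_one]
  obtain ⟨G, r, hr, hG, hGe⟩ := UChart_cusp hd hp hm
  obtain ⟨a₁, a₀, K, hK, hKe⟩ := UChart_taylor hr hG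
  obtain ⟨B, hB⟩ := (isCompact_closedBall (0 : ℂ) (r / 2)).exists_bound_of_continuousOn
    (hK.continuousOn.mono (closedBall_subset_ball (by linarith)))
  have hr' : 0 < min (r / 2) (1 / 2) := lt_min (by linarith) (by norm_num)
  have hsub : ball (0 : ℂ) (min (r / 2) (1 / 2)) ⊆ ball 0 r :=
    ball_subset_ball ((min_le_left _ _).trans (by linarith))
  have hB' : ∀ z ∈ ball (0 : ℂ) (min (r / 2) (1 / 2)), ‖K z‖ ≤ B := fun z hz =>
    hB z (ball_subset_closedBall (ball_subset_ball (min_le_left _ _) hz))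
  refine ⟨a₁, a₀, K, min (r / 2) (1 / 2), B, hr', min_le_right _ _,
    (norm_nonneg _).trans (hB' 0 (mem_ball_self hr')), hK.mono hsub, hB', ?_⟩
  intro w hw
  have h1 := hGe w hw
  rw [hKe] at h1
  have h2 : exp w * exp (-w) = 1 := by rw [← Complex.exp_add]; simp
  linear_combination exp w * h1 + (exp (3 * w) - kk L w + a₀ + exp (-w) * K (exp (-w))) * h2

theorem exists_uchart (c b : ℂ) (hb : ‖b‖ = 1) (P : Phi c b) (L : Leaf c b P) :
    Nonempty (UChart c b P L) := by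
  obtain ⟨a₁, a₀, K, r, B, hr, hr2, hB0, hK, hB, hexp⟩ := kk_expand L
  obtain ⟨H, hH, hHe, hHb⟩ := UChart_funeq hb hr hr2 hK hB
  have hLC := L.hC
  obtain ⟨C, hC⟩ : ∃ C : ℝ, C = 2 * L.C + 8 * B + ‖a₁‖ + ‖a₀‖ := ⟨_, rfl⟩
  have hC1 : 1 ≤ C := by
    rw [hC]
    have := norm_nonneg a₁
    have := norm_nonneg a₀
    linarith
  have hCL : L.C ≤ C := by
    rw [hC]
    have := norm_nonneg a₁
    have := norm_nonneg a₀
    linarith
  obtain ⟨S, hS⟩ : ∃ S : ℝ, S = max (max (T0 L) (-Real.log r)) (Real.log (100 * C)) := ⟨_, rfl⟩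
  have hST : T0 L ≤ S := by
    rw [hS]; exact (le_max_left _ _).trans (le_max_left _ _)
  have hSL : L.S ≤ S := (le_max_left _ _).trans hST
  have hSr : ∀ w : ℂ, S < w.re → exp (-w) ∈ ball (0 : ℂ) r := by
    intro w hw
    rw [mem_ball_zero_iff, Complex.norm_exp, Complex.neg_re, ← Real.lt_log_iff_exp_lt hr]
    have : -Real.log r ≤ S := by rw [hS]; exact (le_max_right _ _).trans (le_max_left _ _)
    linarith
  have hSE : ∀ w : ℂ, S < w.re → 100 * C < Real.exp w.re := by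
    intro w hw
    rw [← Real.log_lt_iff_lt_exp (by linarith)]
    have : Real.log (100 * C) ≤ S := by rw [hS]; exact le_max_right _ _
    linarith
  have hEE : ∀ w : ℂ, Real.exp (-w.re) * Real.exp w.re = 1 := by
    intro w; rw [← Real.exp_add]; simp
  have hder : ∀ w y, (w, y) ∈ DD S → HasDerivAt (fun y => U0 L w y - H (exp (-w)))
      (Xw L (w, y)) y := fun w y hq => (U0_deriv L (DD_mono hSL hq)).sub_const _
  have hXw : ∀ w y, (w, y) ∈ DD S → ‖Xw L (w, y) - exp w‖ ≤ C := by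
    intro w y hq
    refine (Xw_est L (DD_mono hSL hq)).trans ?_
    have h2 := hSE w hq.1
    have h3 : ‖y‖ < Real.exp w.re / 2 := hq.2
    have h5 : 0 < Real.exp (-w.re) := Real.exp_pos _
    have h6 : (1 + ‖y‖) * Real.exp (-w.re) ≤ 1 := by nlinarith [hEE w]
    calc L.C * (1 + ‖y‖) * Real.exp (-w.re) = L.C * ((1 + ‖y‖) * Real.exp (-w.re)) := by ring
      _ ≤ L.C * 1 := by gcongr
      _ ≤ C := by linarith
  have hest : ∀ w y, (w, y) ∈ DD S →
      ‖U0 L w y - H (exp (-w)) - exp w * y‖ ≤ C * (1 + ‖y‖ ^ 2) * Real.exp (-w.re) := by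
    intro w y hq
    have h1 := U0_est L (DD_mono hSL hq)
    have h2 := hHb _ (hSr w hq.1)
    rw [Complex.norm_exp, Complex.neg_re] at h2
    have h3 : U0 L w y - H (exp (-w)) - exp w * y = (U0 L w y - exp w * y) - H (exp (-w)) := by
      ring
    rw [h3]
    have h4 : 0 < Real.exp (-w.re) := Real.exp_pos _
    have h5 : 0 ≤ ‖y‖ ^ 2 := by positivity
    calc ‖(U0 L w y - exp w * y) - H (exp (-w))‖
        ≤ ‖U0 L w y - exp w * y‖ + ‖H (exp (-w))‖ := norm_sub_le _ _
      _ ≤ 2 * L.C * (1 + ‖y‖ ^ 2) * Real.exp (-w.re) + 8 * B * Real.exp (-w.re) :=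
          add_le_add h1 h2
      _ = (2 * L.C * (1 + ‖y‖ ^ 2) + 8 * B) * Real.exp (-w.re) := by ring
      _ ≤ (C * (1 + ‖y‖ ^ 2)) * Real.exp (-w.re) := by
          apply mul_le_mul_of_nonneg_right _ h4.le
          have h6 : 2 * L.C + 8 * B ≤ C := by
            rw [hC]
            have := norm_nonneg a₁
            have := norm_nonneg a₀
            linarith
          have h7 : 8 * B * 1 ≤ 8 * B * (1 + ‖y‖ ^ 2) := by gcongr; linarith
          nlinarith
  have hlip : ∀ w : ℂ, S < w.re → ∀ y ∈ ball (0 : ℂ) (Real.exp w.re / 2),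
      ∀ y' ∈ ball (0 : ℂ) (Real.exp w.re / 2),
      ‖(U0 L w y' - H (exp (-w)) - exp w * y') - (U0 L w y - H (exp (-w)) - exp w * y)‖ ≤
        C * ‖y' - y‖ := by
    intro w hw y hy y' hy'
    apply (convex_ball (0 : ℂ) (Real.exp w.re / 2)).norm_image_sub_le_of_norm_hasDerivWithin_le
      (f := fun y => U0 L w y - H (exp (-w)) - exp w * y) (f' := fun y => Xw L (w, y) - exp w)
      _ _ hy hy'
    · intro z hz
      have h1 := (hder w z ⟨hw, mem_ball_zero_iff.1 hz⟩).fun_sub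
        ((hasDerivAt_id z).const_mul (exp w))
      rw [mul_one] at h1
      exact h1.hasDerivWithinAt
    · intro z hz
      exact hXw w z ⟨hw, mem_ball_zero_iff.1 hz⟩
  refine ⟨{
    S := S
    C := C
    hS := hSL
    hC := hC1
    κ := fun w => exp (3 * w) + a₁ * exp w + a₀
    Uc := fun w y => U0 L w y - H (exp (-w))
    κ_diff := by fun_prop
    κ_per := ?_
    κ_lead := ?_
    U_diff := ?_
    U_per := ?_
    U_step := ?_
    U_est := hest
    U_inj := ?_
    U_der := ?_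
    U_surj := ?_ }⟩
  · intro w
    have h2 : exp (3 * (w + 2 * Real.pi * I)) = exp (3 * w) := by
      rw [show 3 * (w + 2 * Real.pi * I) = 3 * w + (2 * Real.pi * I) + (2 * Real.pi * I) +
        (2 * Real.pi * I) by ring, Complex.exp_add, Complex.exp_add, Complex.exp_add,
        Complex.exp_two_pi_mul_I]
      ring
    rw [h2, Complex.exp_add, Complex.exp_two_pi_mul_I, mul_one]
  · intro w hw
    have h1 : exp (3 * w) + a₁ * exp w + a₀ - exp (3 * w) = a₁ * exp w + a₀ := by ring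
    rw [h1]
    have h2 : Real.exp w.re ≤ Real.exp (2 * w.re) := Real.exp_le_exp.2 (by linarith)
    have h3 : 1 ≤ Real.exp (2 * w.re) := Real.one_le_exp (by linarith)
    have h4 := norm_nonneg a₁
    have h5 := norm_nonneg a₀
    calc ‖a₁ * exp w + a₀‖ ≤ ‖a₁‖ * Real.exp w.re + ‖a₀‖ := by
          rw [← Complex.norm_exp, ← norm_mul]; exact norm_add_le _ _
      _ ≤ ‖a₁‖ * Real.exp (2 * w.re) + ‖a₀‖ * Real.exp (2 * w.re) := by
          apply add_le_add
          · gcongr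
          · nlinarith
      _ = (‖a₁‖ + ‖a₀‖) * Real.exp (2 * w.re) := by ring
      _ ≤ C * Real.exp (2 * w.re) := by
          apply mul_le_mul_of_nonneg_right _ (by positivity)
          rw [hC]; linarith
  · apply ((U0_diff L).mono (DD_mono hSL)).fun_sub
    have h1 : DifferentiableOn ℂ (fun q : ℂ × ℂ => exp (-q.1)) (DD S) := by fun_prop
    exact hH.comp h1 (fun q hq => hSr q.1 hq.1)
  · intro w y hq
    have h1 : exp (-(w + 2 * Real.pi * I)) = exp (-w) := by
      rw [show -(w + 2 * Real.pi * I) = -w - 2 * Real.pi * I by ring, Complex.exp_sub,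
        Complex.exp_two_pi_mul_I, div_one]
    rw [h1, U0_per L (DD_mono hSL hq)]
  · intro w y hq
    refine ⟨step_mem L hST hq, ?_⟩
    have h1 := U0_step hb L (DD_mono hST hq)
    have h2 := hHe _ (hSr w hq.1)
    have h3 := hexp w (lt_of_le_of_lt hST hq.1)
    have h4 : exp (-(2 * w)) = exp (-w) ^ 2 := by
      rw [← Complex.exp_nat_mul]; congr 1; push_cast; ring
    rw [h4]
    linear_combination h1 - h2 + h3
  · intro w hw y hy y' hy' he
    simp only at he
    by_contra hne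
    have h1 := hlip w hw y hy y' hy'
    have h2 : (U0 L w y' - H (exp (-w)) - exp w * y') - (U0 L w y - H (exp (-w)) - exp w * y) =
        exp w * (y - y') := by linear_combination -he
    rw [h2, norm_mul, Complex.norm_exp, norm_sub_rev] at h1
    have h3 : 0 < ‖y' - y‖ := norm_pos_iff.2 (sub_ne_zero.2 (Ne.symm hne))
    have h4 := hSE w hw
    nlinarith
  · intro w y hq
    have h1 : deriv (fun y => U0 L w y - H (exp (-w))) y = Xw L (w, y) := (hder w y hq).deriv
    rw [h1]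
    intro h2
    have h3 := hXw w y hq
    rw [h2, zero_sub, norm_neg, Complex.norm_exp] at h3
    have h4 := hSE w hq.1
    linarith
  · intro w u hw hu
    have hE := hSE w hw
    have hE0 : 0 < Real.exp w.re := Real.exp_pos _
    obtain ⟨E, hEdef⟩ : ∃ E : ℝ, E = Real.exp w.re := ⟨_, rfl⟩
    have hEi : Real.exp (-w.re) = E⁻¹ := by rw [hEdef, Real.exp_neg]
    have hE2 : Real.exp (2 * w.re) = E * E := by
      rw [hEdef, ← Real.exp_add]; ring_nf
    rw [← hEdef] at hE hE0 ⊢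
    rw [hE2] at hu
    -- the contraction
    let T : ℂ → ℂ := fun y => y - exp (-w) * (U0 L w y - H (exp (-w)) - u)
    have hee : exp (-w) * exp w = 1 := by rw [← Complex.exp_add]; simp
    have hTe : ∀ y, T y = exp (-w) * (u - (U0 L w y - H (exp (-w)) - exp w * y)) := by
      intro y
      simp only [T]
      linear_combination (-y) * hee
    have hne : ‖exp (-w)‖ = E⁻¹ := by rw [Complex.norm_exp, Complex.neg_re, hEi]
    have hsub : closedBall (0 : ℂ) (3 / 10 * E) ⊆ ball (0 : ℂ) (Real.exp w.re / 2) := by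
      apply closedBall_subset_ball
      rw [← hEdef]; linarith
    have hmaps : MapsTo T (closedBall (0 : ℂ) (3 / 10 * E)) (closedBall (0 : ℂ) (3 / 10 * E)) := by
      intro y hy
      have hy1 := mem_ball_zero_iff.1 (hsub hy)
      have hy2 := hy
      rw [mem_closedBall_zero_iff] at hy2 ⊢
      rw [hTe, norm_mul, hne]
      have h1 := hest w y ⟨hw, hy1⟩
      rw [hEi] at h1
      have h2 : ‖u - (U0 L w y - H (exp (-w)) - exp w * y)‖ ≤
          E * E / 4 + C * (1 + ‖y‖ ^ 2) * E⁻¹ := (norm_sub_le _ _).trans (add_le_add hu h1)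
      have h3 : ‖y‖ ^ 2 ≤ E * E / 4 := by nlinarith [norm_nonneg y]
      have h4 : C * (1 + ‖y‖ ^ 2) * E⁻¹ ≤ C * E := by
        rw [mul_inv_le_iff₀ hE0]
        have : 1 + ‖y‖ ^ 2 ≤ E * E := by nlinarith
        calc C * (1 + ‖y‖ ^ 2) ≤ C * (E * E) := by gcongr
          _ = C * E * E := by ring
      calc E⁻¹ * ‖u - (U0 L w y - H (exp (-w)) - exp w * y)‖
          ≤ E⁻¹ * (E * E / 4 + C * E) := by
            apply mul_le_mul_of_nonneg_left _ (by positivity)
            linarith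
        _ = E / 4 + C := by field_simp
        _ ≤ 3 / 10 * E := by linarith
    have hcontr : ContractingWith (1 / 2) (hmaps.restrict T _ _) := by
      refine ⟨by norm_num, ?_⟩
      apply LipschitzWith.of_dist_le_mul
      rintro ⟨y, hy⟩ ⟨y', hy'⟩
      have h1 := hlip w hw y' (hsub hy') y (hsub hy)
      rw [Subtype.dist_eq, Subtype.dist_eq]
      simp only [MapsTo.val_restrict_apply]
      rw [hTe, hTe, dist_eq_norm, dist_eq_norm, ← mul_sub, norm_mul, hne]
      have h2 : (u - (U0 L w y - H (exp (-w)) - exp w * y)) -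
          (u - (U0 L w y' - H (exp (-w)) - exp w * y')) =
          -((U0 L w y - H (exp (-w)) - exp w * y) - (U0 L w y' - H (exp (-w)) - exp w * y')) := by
        ring
      rw [h2, norm_neg]
      have h3 : E⁻¹ * C ≤ 1 / 2 := by
        rw [inv_mul_le_iff₀ hE0]; linarith
      calc E⁻¹ * ‖(U0 L w y - H (exp (-w)) - exp w * y) -
            (U0 L w y' - H (exp (-w)) - exp w * y')‖ ≤ E⁻¹ * (C * ‖y - y'‖) := by gcongr
        _ = (E⁻¹ * C) * ‖y - y'‖ := by ring
        _ ≤ 1 / 2 * ‖y - y'‖ := by gcongr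
        _ = ((1 / 2 : NNReal) : ℝ) * ‖y - y'‖ := by norm_num
    obtain ⟨y, hy, hfix, -⟩ := hcontr.exists_fixedPoint' (isCompact_closedBall _ _).isComplete hmaps
      (x := 0) (mem_closedBall_self (by positivity)) (edist_ne_top _ _)
    refine ⟨y, ?_, ?_⟩
    · have := mem_ball_zero_iff.1 (hsub hy)
      rw [hEdef]
      exact this
    · have h1 : T y = y := hfix
      simp only [T] at h1
      have h2 : exp (-w) * (U0 L w y - H (exp (-w)) - u) = 0 := by linear_combination -h1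
      rcases mul_eq_zero.1 h2 with h3 | h3
      · exact absurd h3 (Complex.exp_ne_zero _)
      · linear_combination h3

end H6ea4aa
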