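import Pool.Agent.H.MP_6ea4aa_an.Chart

/-!
# MP_6ea4aa: asymptotics of the backward Green function in the window
-/

set_option autoImplicit false

open Complex Set Filter Topology Metric

namespace H6ea4aa

structure Win {c b : ℂ} (Ch : Chart c b) where
  S : ℝ
  C : ℝ
  hS : Ch.S ≤ S
  hC : 1 ≤ C
  hbig : ∀ t : ℝ, S ≤ t → 8 * C * Real.exp (3 / 2 * t) ≤ Real.exp (7 / 4 * t) ∧
    8 * Real.exp (7 / 4 * t) ≤ Real.exp (2 * t)
  g4 : ∀ w u : ℂ, S < w.re → Real.exp (7 / 4 * w.re) / 2 ≤ ‖u‖ →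
    ‖u‖ ≤ 2 * Real.exp (7 / 4 * w.re) →
    |GG Ch w u - Real.log ‖u‖ + w.re| ≤ C * Real.exp (-w.re / 4)
  zwin : ∀ w u : ℂ, S < w.re → ‖u‖ ≤ 2 * Real.exp (7 / 4 * w.re) → GG Ch w u = 0 →
    ‖u‖ ≤ C * Real.exp (3 / 2 * w.re)
  zsplit : ∀ w u : ℂ, 2 * S < w.re → ‖u‖ ≤ 2 * Real.exp (7 / 4 * w.re) → GG Ch w u = 0 →
    ∃ e : ℂ, (e = 0 ∨ e = Real.pi * I) ∧ ∃ u' : ℂ, GG Ch (w / 2 + e) u' = 0 ∧
      ‖u'‖ ≤ C * Real.exp (3 / 4 * w.re) ∧ u = (b / 2) * u' + Ch.κ (w / 2 + e)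

/-! ### elementary estimates -/

/-- logarithms of close numbers -/
theorem win_log {x y δ : ℝ} (hy : 0 < y) (hδ0 : 0 ≤ δ) (hδ : δ ≤ 1 / 2) (h : |x - y| ≤ δ * y) :
    |Real.log x - Real.log y| ≤ 2 * δ := by
  have h1 := abs_le.1 h
  have hx2 : y / 2 ≤ x := by nlinarith
  have hx : 0 < x := by linarith
  rw [abs_le]
  constructor
  · have h2 := Real.log_le_sub_one_of_pos (div_pos hy hx)
    rw [Real.log_div hy.ne' hx.ne'] at h2
    have h3 : y / x - 1 ≤ 2 * δ := by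
      rw [sub_le_iff_le_add, div_le_iff₀ hx]
      nlinarith
    linarith
  · have h2 := Real.log_le_sub_one_of_pos (div_pos hx hy)
    rw [Real.log_div hx.ne' hy.ne'] at h2
    have h3 : x / y - 1 ≤ δ := by
      rw [sub_le_iff_le_add, div_le_iff₀ hy]
      nlinarith
    linarith

theorem win_exp (t : ℝ) (n : ℕ) : Real.exp (t / 4) ^ n = Real.exp (n * (t / 4)) :=
  (Real.exp_nat_mul _ _).symm

/-- the point of the window over `u` -/
theorem win_point {c b : ℂ} (Ch : Chart c b) {w u : ℂ} (hS : Ch.S < w.re)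
    (haC : 8 * Ch.C ≤ Real.exp (w.re / 4)) (hu : ‖u‖ ≤ 2 * Real.exp (w.re / 4) ^ 7) :
    ∃ y : ℂ, (w, y) ∈ DD Ch.S ∧ Ch.Uc w y = u ∧ Ch.Pi w u = (Ch.X w y, y) ∧
      ‖y‖ ≤ 4 * Real.exp (w.re / 4) ^ 3 ∧
      ‖u - exp w * y‖ ≤ Ch.C * (1 + ‖y‖ ^ 2) / Real.exp (w.re / 4) ^ 4 ∧
      ‖Ch.X w y‖ ≤ 2 * Real.exp (w.re / 4) ^ 4 := by
  set a := Real.exp (w.re / 4) with ha
  have hC := Ch.hC
  have ha8 : 8 ≤ a := by linarith
  have ha0 : 0 < a := by linarith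
  have e2 : Real.exp (2 * w.re) = a ^ 8 := by
    rw [ha, win_exp]; congr 1; push_cast; ring
  have e1 : Real.exp w.re = a ^ 4 := by
    rw [ha, win_exp]; congr 1; push_cast; ring
  have em : Real.exp (-w.re) = (a ^ 4)⁻¹ := by
    rw [Real.exp_neg, e1]
  obtain ⟨y, hy, hyu⟩ := Ch.U_surj w u hS (by
    rw [e2]
    have : a ^ 7 * 8 ≤ a ^ 7 * a := mul_le_mul_of_nonneg_left ha8 (by positivity)
    nlinarith)
  have hD : (w, y) ∈ DD Ch.S := ⟨hS, hy⟩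
  rw [e1] at hy
  have hU := Ch.U_est w y hD
  have hX := Ch.X_est w y hD
  rw [em] at hU hX
  have hyn := norm_nonneg y
  have hne : ‖exp w‖ = a ^ 4 := by rw [Complex.norm_exp, e1]
  have hup : ‖u - exp w * y‖ ≤ Ch.C * (1 + ‖y‖ ^ 2) / a ^ 4 := by
    rw [← hyu, div_eq_mul_inv]; exact hU
  have ha4 : 0 < a ^ 4 := by positivity
  -- bound for y
  have hy4 : ‖y‖ ≤ 4 * a ^ 3 := by
    have h1 : a ^ 4 * ‖y‖ ≤ ‖u‖ + Ch.C * (1 + ‖y‖ ^ 2) / a ^ 4 := by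
      calc a ^ 4 * ‖y‖ = ‖exp w * y‖ := by rw [norm_mul, hne]
        _ = ‖u - (u - exp w * y)‖ := by congr 1; ring
        _ ≤ ‖u‖ + ‖u - exp w * y‖ := norm_sub_le _ _
        _ ≤ _ := by linarith
    have h2 : Ch.C * (1 + ‖y‖ ^ 2) / a ^ 4 ≤ 1 + Ch.C * ‖y‖ / 2 := by
      rw [div_le_iff₀ ha4]
      have h3 : Ch.C ≤ a ^ 4 := by
        calc Ch.C ≤ a := by linarith
          _ = a ^ 1 := (pow_one a).symm
          _ ≤ a ^ 4 := pow_le_pow_right₀ (by linarith) (by norm_num)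
      have h4 : Ch.C * ‖y‖ ^ 2 ≤ Ch.C * ‖y‖ / 2 * a ^ 4 := by
        have : Ch.C * ‖y‖ * ‖y‖ ≤ Ch.C * ‖y‖ * (a ^ 4 / 2) :=
          mul_le_mul_of_nonneg_left hy.le (by positivity)
        linarith [this]
      linarith
    have h5 : Ch.C * ‖y‖ / 2 ≤ a ^ 4 * ‖y‖ / 4 := by
      have : Ch.C * 2 ≤ a ^ 4 := by
        calc Ch.C * 2 ≤ a := by linarith
          _ = a ^ 1 := (pow_one a).symm
          _ ≤ a ^ 4 := pow_le_pow_right₀ (by linarith) (by norm_num)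
      nlinarith
    have h6 : (1 : ℝ) ≤ a ^ 7 := one_le_pow₀ (by linarith)
    have h7 : a ^ 4 * ‖y‖ ≤ a ^ 4 * (4 * a ^ 3) := by
      have : a ^ 4 * (4 * a ^ 3) = 4 * a ^ 7 := by ring
      rw [this]
      linarith
    exact le_of_mul_le_mul_left h7 ha4
  refine ⟨y, hD, hyu, ?_, hy4, hup, ?_⟩
  · rw [← hyu]; exact Ch.Pi_win w y hD
  · have h1 : Ch.C * (1 + ‖y‖) * (a ^ 4)⁻¹ ≤ a ^ 4 := by
      rw [← div_eq_mul_inv, div_le_iff₀ ha4]
      have h2 : 1 + ‖y‖ ≤ a ^ 4 := by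
        have : (1 : ℝ) ≤ a ^ 3 := one_le_pow₀ (by linarith)
        have h3 : a ^ 3 * 8 ≤ a ^ 3 * a := mul_le_mul_of_nonneg_left ha8 (by positivity)
        nlinarith
      have h3 : Ch.C ≤ a ^ 4 := by
        calc Ch.C ≤ a := by linarith
          _ = a ^ 1 := (pow_one a).symm
          _ ≤ a ^ 4 := pow_le_pow_right₀ (by linarith) (by norm_num)
      exact mul_le_mul h3 h2 (by positivity) (by positivity)
    calc ‖Ch.X w y‖ = ‖(Ch.X w y - exp w) + exp w‖ := by rw [sub_add_cancel]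
      _ ≤ ‖Ch.X w y - exp w‖ + ‖exp w‖ := norm_add_le _ _
      _ ≤ 2 * a ^ 4 := by rw [hne]; linarith

/-- powers of `1 / a` -/
theorem win_inv {a K : ℝ} (ha : 1 ≤ a) (hK : 0 ≤ K) (n : ℕ) (hn : 1 ≤ n) : K / a ^ n ≤ K / a := by
  apply div_le_div_of_nonneg_left hK (by linarith)
  calc a = a ^ 1 := (pow_one a).symm
    _ ≤ a ^ n := pow_le_pow_right₀ ha hn

theorem win_le_pow {a : ℝ} (ha : 1 ≤ a) (n : ℕ) (hn : 1 ≤ n) : a ≤ a ^ n :=
  calc a = a ^ 1 := (pow_one a).symm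
    _ ≤ a ^ n := pow_le_pow_right₀ ha hn

/-- asymptotics of `G⁻` for points of moderate size -/
theorem win_g4 {c b : ℂ} (hb : ‖b‖ = 1) (Ch : Chart c b) {CM : ℝ} (hCM1 : 1 ≤ CM)
    (hCM : ∀ p : ℂ × ℂ, 3 + ‖c‖ < ‖p.2‖ → ‖p.1‖ < ‖p.2‖ →
      0 < Gm c b p ∧ |Gm c b p - Real.log ‖p.2‖| ≤ CM * (1 + ‖p.1‖) / ‖p.2‖ ^ 2)
    {w u : ℂ} (hS : Ch.S < w.re)
    (haC : 8 * (48 + 2560 * CM + 68 * Ch.C + (3 + ‖c‖)) ≤ Real.exp (w.re / 4))
    (hu1 : Real.exp (w.re / 4) ^ 7 / 2 ≤ ‖u‖) (hu2 : ‖u‖ ≤ 2 * Real.exp (w.re / 4) ^ 7) :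
    |GG Ch w u - Real.log ‖u‖ + w.re| ≤ (48 + 2560 * CM + 68 * Ch.C) / Real.exp (w.re / 4) := by
  have hC := Ch.hC
  have hc := norm_nonneg c
  obtain ⟨y, hD, hyu, hPi, hy, hup, hX⟩ := win_point Ch hS (by linarith) hu2
  set a := Real.exp (w.re / 4) with ha
  set X := Ch.X w y with hXdef
  have ha8 : 100 ≤ a := by linarith
  have ha0 : 0 < a := by linarith
  have ha1 : 1 ≤ a := by linarith
  have hyn := norm_nonneg y
  have e1 : Real.exp w.re = a ^ 4 := by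
    rw [ha, win_exp]; congr 1; push_cast; ring
  have hne : ‖exp w‖ = a ^ 4 := by rw [Complex.norm_exp, e1]
  have hupos : 0 < ‖u‖ := lt_of_lt_of_le (by positivity) hu1
  -- first comparison
  have h1 : |a ^ 4 * ‖y‖ - ‖u‖| ≤ (34 * Ch.C / a ^ 5) * ‖u‖ := by
    have s1 : |a ^ 4 * ‖y‖ - ‖u‖| ≤ ‖u - exp w * y‖ := by
      have : a ^ 4 * ‖y‖ = ‖exp w * y‖ := by rw [norm_mul, hne]
      rw [this, norm_sub_rev]
      exact abs_norm_sub_norm_le _ _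
    have s2 : 1 + ‖y‖ ^ 2 ≤ 17 * a ^ 6 := by
      have t1 : ‖y‖ ^ 2 ≤ (4 * a ^ 3) ^ 2 := pow_le_pow_left₀ hyn hy 2
      have t2 : (4 * a ^ 3) ^ 2 = 16 * a ^ 6 := by ring
      have t3 : (1 : ℝ) ≤ a ^ 6 := one_le_pow₀ ha1
      linarith
    have s3 : Ch.C * (1 + ‖y‖ ^ 2) / a ^ 4 ≤ 17 * Ch.C * a ^ 2 := by
      rw [div_le_iff₀ (by positivity)]
      calc Ch.C * (1 + ‖y‖ ^ 2) ≤ Ch.C * (17 * a ^ 6) :=
            mul_le_mul_of_nonneg_left s2 (by linarith)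
        _ = 17 * Ch.C * a ^ 2 * a ^ 4 := by ring
    have s4 : 17 * Ch.C * a ^ 2 ≤ (34 * Ch.C / a ^ 5) * ‖u‖ := by
      have : 17 * Ch.C * a ^ 2 = (34 * Ch.C / a ^ 5) * (a ^ 7 / 2) := by
        field_simp
        ring
      rw [this]
      exact mul_le_mul_of_nonneg_left hu1 (by positivity)
    linarith
  have hδ1 : 34 * Ch.C / a ^ 5 ≤ 1 / 2 := by
    rw [div_le_iff₀ (by positivity)]
    have := win_le_pow ha1 5 (by norm_num)
    linarith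
  have hlog1 := win_log hupos (by positivity) hδ1 h1
  have hyl : a ^ 3 / 4 ≤ ‖y‖ := by
    have t1 := (abs_le.1 h1).1
    have t2 : (34 * Ch.C / a ^ 5) * ‖u‖ ≤ 1 / 2 * ‖u‖ :=
      mul_le_mul_of_nonneg_right hδ1 hupos.le
    have t3 : a ^ 4 * (a ^ 3 / 4) ≤ a ^ 4 * ‖y‖ := by
      have : a ^ 4 * (a ^ 3 / 4) = a ^ 7 / 4 := by ring
      rw [this]
      linarith
    exact le_of_mul_le_mul_left t3 (by positivity)
  have hypos : 0 < ‖y‖ := lt_of_lt_of_le (by positivity) hyl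
  have hlogy : Real.log (a ^ 4 * ‖y‖) = w.re + Real.log ‖y‖ := by
    rw [Real.log_mul (by positivity) hypos.ne', ← e1, Real.log_exp]
  rw [hlogy] at hlog1
  -- the preimage
  have hYn : ‖(henInv c b (X, y)).2‖ = ‖y ^ 2 + c - X‖ := by
    simp only [henInv, norm_div, hb, div_one]
  set Yn := ‖y ^ 2 + c - X‖ with hYndef
  have h2 : |Yn - ‖y‖ ^ 2| ≤ (48 / a ^ 2) * ‖y‖ ^ 2 := by
    have s1 : |Yn - ‖y‖ ^ 2| ≤ ‖c - X‖ := by
      have : ‖y‖ ^ 2 = ‖y ^ 2‖ := (norm_pow _ _).symm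
      rw [this, hYndef]
      refine (abs_norm_sub_norm_le _ _).trans (le_of_eq ?_)
      congr 1
      ring
    have s2 : ‖c - X‖ ≤ 3 * a ^ 4 := by
      have t1 := norm_sub_le c X
      have t2 := win_le_pow ha1 4 (by norm_num)
      linarith
    have s3 : 3 * a ^ 4 ≤ (48 / a ^ 2) * ‖y‖ ^ 2 := by
      have t1 : (a ^ 3 / 4) ^ 2 ≤ ‖y‖ ^ 2 := pow_le_pow_left₀ (by positivity) hyl 2
      have t2 : 3 * a ^ 4 = (48 / a ^ 2) * (a ^ 3 / 4) ^ 2 := by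
        field_simp
        ring
      rw [t2]
      exact mul_le_mul_of_nonneg_left t1 (by positivity)
    linarith
  have hδ2 : 48 / a ^ 2 ≤ 1 / 2 := by
    rw [div_le_iff₀ (by positivity)]
    have := win_le_pow ha1 2 (by norm_num)
    linarith
  have hlog2 := win_log (by positivity) (by positivity) hδ2 h2
  rw [Real.log_pow] at hlog2
  have hYl : a ^ 6 / 32 ≤ Yn := by
    have t1 := (abs_le.1 h2).1
    have t2 : (48 / a ^ 2) * ‖y‖ ^ 2 ≤ 1 / 2 * ‖y‖ ^ 2 :=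
      mul_le_mul_of_nonneg_right hδ2 (by positivity)
    have t3 : (a ^ 3 / 4) ^ 2 ≤ ‖y‖ ^ 2 := pow_le_pow_left₀ (by positivity) hyl 2
    have t4 : (a ^ 3 / 4) ^ 2 = a ^ 6 / 16 := by ring
    linarith
  have hYpos : 0 < Yn := lt_of_lt_of_le (by positivity) hYl
  have ha6 : 3200 * a ^ 3 ≤ a ^ 6 := by
    have : a ^ 6 = a ^ 2 * a * a ^ 3 := by ring
    rw [this]
    apply mul_le_mul_of_nonneg_right _ (by positivity)
    nlinarith
  have hg := hCM (henInv c b (X, y)) (by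
    rw [hYn]
    have := win_le_pow ha1 3 (by norm_num)
    linarith) (by
    rw [hYn]
    change ‖y‖ < Yn
    have : 0 < a ^ 3 := by positivity
    linarith)
  have hg2 := hg.2
  rw [hYn, Gm_henInv c b hb] at hg2
  change |2 * Gm c b (X, y) - Real.log Yn| ≤ CM * (1 + ‖y‖) / Yn ^ 2 at hg2
  have h3 : CM * (1 + ‖y‖) / Yn ^ 2 ≤ 5120 * CM / a ^ 9 := by
    have s1 : 1 + ‖y‖ ≤ 5 * a ^ 3 := by
      have t3 : (1 : ℝ) ≤ a ^ 3 := one_le_pow₀ ha1
      linarith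
    have s2 : (a ^ 6 / 32) ^ 2 ≤ Yn ^ 2 := pow_le_pow_left₀ (by positivity) hYl 2
    calc CM * (1 + ‖y‖) / Yn ^ 2 ≤ CM * (5 * a ^ 3) / (a ^ 6 / 32) ^ 2 := by
          apply div_le_div₀ (by positivity) _ (by positivity) s2
          exact mul_le_mul_of_nonneg_left s1 (by linarith)
      _ = 5120 * CM / a ^ 9 := by
          field_simp
          ring
  have hGG : GG Ch w u = Gm c b (X, y) := by rw [GG, hPi]
  have k1 : 34 * Ch.C / a ^ 5 ≤ 34 * Ch.C / a := win_inv ha1 (by positivity) 5 (by norm_num)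
  have k2 : 48 / a ^ 2 ≤ 48 / a := win_inv ha1 (by positivity) 2 (by norm_num)
  have k3 : 5120 * CM / a ^ 9 ≤ 5120 * CM / a := win_inv ha1 (by positivity) 9 (by norm_num)
  have k4 : (48 + 2560 * CM + 68 * Ch.C) / a =
      48 / a + (5120 * CM / a) / 2 + 2 * (34 * Ch.C / a) := by ring
  rw [hGG, k4]
  have b1 := abs_le.1 hlog1
  have b2 := abs_le.1 hlog2
  have b3 := abs_le.1 hg2
  push_cast at b2
  rw [abs_le]
  constructor <;> linarith [b1.1, b1.2, b2.1, b2.2, b3.1, b3.2]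

/-- zeros in the window are much smaller -/
theorem win_zwin {c b : ℂ} (Ch : Chart c b) {SK CK : ℝ} (hCK1 : 1 ≤ CK)
    (hCK : ∀ p : ℂ × ℂ, Gm c b p = 0 → SK < Gp c b p → p ∈ VP c ∧ ‖p.2‖ ≤ CK * Real.sqrt ‖p.1‖)
    {w u : ℂ} (hS : Ch.S < w.re) (hSK : SK < w.re) (haC : 8 * Ch.C ≤ Real.exp (w.re / 4))
    (hu : ‖u‖ ≤ 2 * Real.exp (w.re / 4) ^ 7) (h0 : GG Ch w u = 0) :
    ∃ y : ℂ, (w, y) ∈ DD Ch.S ∧ Ch.Uc w y = u ∧ Ch.Pi w u = (Ch.X w y, y) ∧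
      ‖y‖ ≤ 2 * CK * Real.exp (w.re / 4) ^ 2 ∧
      ‖u‖ ≤ 7 * Ch.C * CK ^ 2 * Real.exp (w.re / 4) ^ 6 := by
  have hC := Ch.hC
  obtain ⟨y, hD, hyu, hPi, hy, hup, hX⟩ := win_point Ch hS haC hu
  have hre : 0 < w.re := by
    have := Ch.hS
    linarith
  set a := Real.exp (w.re / 4) with ha
  have ha8 : 8 ≤ a := by linarith
  have ha0 : 0 < a := by linarith
  have ha1 : 1 ≤ a := by linarith
  have e1 : Real.exp w.re = a ^ 4 := by
    rw [ha, win_exp]; congr 1; push_cast; ring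
  have hne : ‖exp w‖ = a ^ 4 := by rw [Complex.norm_exp, e1]
  have hyn := norm_nonneg y
  rw [GG, hPi] at h0
  have hGp := Ch.Pi_Gp w u hre
  rw [hPi] at hGp
  have hK := (hCK _ h0 (by rw [hGp]; exact hSK)).2
  change ‖y‖ ≤ CK * Real.sqrt ‖Ch.X w y‖ at hK
  have hy2 : ‖y‖ ≤ 2 * CK * a ^ 2 := by
    have s1 : Real.sqrt ‖Ch.X w y‖ ≤ 2 * a ^ 2 := by
      apply Real.sqrt_le_iff.2
      refine ⟨by positivity, hX.trans ?_⟩
      have : (2 * a ^ 2) ^ 2 = 4 * a ^ 4 := by ring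
      rw [this]
      have : 0 < a ^ 4 := by positivity
      linarith
    calc ‖y‖ ≤ CK * Real.sqrt ‖Ch.X w y‖ := hK
      _ ≤ CK * (2 * a ^ 2) := mul_le_mul_of_nonneg_left s1 (by linarith)
      _ = _ := by ring
  refine ⟨y, hD, hyu, hPi, hy2, ?_⟩
  have s1 : ‖u‖ ≤ a ^ 4 * ‖y‖ + Ch.C * (1 + ‖y‖ ^ 2) / a ^ 4 := by
    calc ‖u‖ = ‖exp w * y + (u - exp w * y)‖ := by congr 1; ring
      _ ≤ ‖exp w * y‖ + ‖u - exp w * y‖ := norm_add_le _ _
      _ ≤ _ := by rw [norm_mul, hne]; linarith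
  have s2 : a ^ 4 * ‖y‖ ≤ 2 * CK * a ^ 6 := by
    calc a ^ 4 * ‖y‖ ≤ a ^ 4 * (2 * CK * a ^ 2) := mul_le_mul_of_nonneg_left hy2 (by positivity)
      _ = _ := by ring
  have s3 : Ch.C * (1 + ‖y‖ ^ 2) / a ^ 4 ≤ 5 * Ch.C * CK ^ 2 := by
    rw [div_le_iff₀ (by positivity)]
    have t1 : ‖y‖ ^ 2 ≤ (2 * CK * a ^ 2) ^ 2 := pow_le_pow_left₀ hyn hy2 2
    have t2 : (2 * CK * a ^ 2) ^ 2 = 4 * CK ^ 2 * a ^ 4 := by ring
    have t3 : 1 ≤ CK ^ 2 * a ^ 4 := one_le_mul_of_one_le_of_one_le (one_le_pow₀ hCK1)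
      (one_le_pow₀ ha1)
    calc Ch.C * (1 + ‖y‖ ^ 2) ≤ Ch.C * (5 * (CK ^ 2 * a ^ 4)) := by
          apply mul_le_mul_of_nonneg_left _ (by linarith)
          linarith
      _ = _ := by ring
  have s4 : 5 * Ch.C * CK ^ 2 ≤ 5 * Ch.C * CK ^ 2 * a ^ 6 :=
    le_mul_of_one_le_right (by positivity) (one_le_pow₀ ha1)
  have s5 : 2 * CK ≤ 2 * Ch.C * CK ^ 2 := by nlinarith
  have s6 : 2 * CK * a ^ 6 ≤ 2 * Ch.C * CK ^ 2 * a ^ 6 :=
    mul_le_mul_of_nonneg_right s5 (by positivity)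
  linarith

theorem win_re_add (w : ℂ) (r : ℝ) : (w + r * (2 * Real.pi * I)).re = w.re := by
  have : (r : ℂ) * (2 * Real.pi * I) = ((r * (2 * Real.pi) : ℝ) : ℂ) * I := by push_cast; ring
  rw [add_re, this, re_ofReal_mul, I_re, mul_zero, add_zero]

theorem win_per_nat {c b : ℂ} (Ch : Chart c b) {w : ℂ} (hw : 0 < w.re) (u : ℂ) (j : ℕ) :
    Ch.Pi (w + j * (2 * Real.pi * I)) u = Ch.Pi w u := by
  induction j with
  | zero => simp
  | succ j ih =>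
    have h : w + ((j + 1 : ℕ) : ℂ) * (2 * Real.pi * I) =
        (w + j * (2 * Real.pi * I)) + 2 * Real.pi * I := by push_cast; ring
    have h2 := win_re_add w (j : ℝ)
    push_cast at h2
    rw [h, Ch.Pi_per _ _ (by rw [h2]; exact hw), ih]

theorem win_per_int {c b : ℂ} (Ch : Chart c b) {w : ℂ} (hw : 0 < w.re) (u : ℂ) (j : ℤ) :
    Ch.Pi (w + j * (2 * Real.pi * I)) u = Ch.Pi w u := by
  obtain ⟨n, rfl | rfl⟩ := j.eq_nat_or_neg
  · have := win_per_nat Ch hw u n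
    push_cast
    exact this
  · have h2 := win_re_add w (-n : ℝ)
    push_cast at h2
    have h3 := win_per_nat Ch (w := w + (-n : ℂ) * (2 * Real.pi * I)) (by rw [h2]; exact hw) u n
    have h4 : w + (-n : ℂ) * (2 * Real.pi * I) + (n : ℂ) * (2 * Real.pi * I) = w := by ring
    rw [h4] at h3
    push_cast
    exact h3.symm

/-- zeros at level `2 s` come from zeros at level `s` -/
theorem win_zsplit {c b : ℂ} (hb : ‖b‖ = 1) (Ch : Chart c b) {SK CK CG : ℝ} (hCK1 : 1 ≤ CK)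
    (hCK : ∀ p : ℂ × ℂ, Gm c b p = 0 → SK < Gp c b p → p ∈ VP c ∧ ‖p.2‖ ≤ CK * Real.sqrt ‖p.1‖)
    (hCG : ∀ p : ℂ × ℂ, Gp c b p ≤ Real.log (max 1 ‖p‖) + CG)
    {w u : ℂ} (hS : Ch.S < w.re / 2) (hSK : SK < w.re / 2)
    (hSG : CG + Real.log (16 * CK ^ 2) < w.re / 2)
    (haC : 8 * (7 * Ch.C * CK ^ 4) ≤ Real.exp (w.re / 4))
    (hu : ‖u‖ ≤ 2 * Real.exp (w.re / 4) ^ 7) (h0 : GG Ch w u = 0) :
    ∃ e : ℂ, (e = 0 ∨ e = Real.pi * I) ∧ ∃ u' : ℂ, GG Ch (w / 2 + e) u' = 0 ∧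
      ‖u'‖ ≤ 7 * Ch.C * CK ^ 4 * Real.exp (w.re / 4) ^ 3 ∧
      u = (b / 2) * u' + Ch.κ (w / 2 + e) := by
  have hC := Ch.hC
  have hS1 := Ch.hS
  have hb0 : b ≠ 0 := by
    intro h
    rw [h, norm_zero] at hb
    norm_num at hb
  have hre : 0 < w.re := by linarith
  have hCK4 : 1 ≤ CK ^ 4 := one_le_pow₀ hCK1
  have hCC : Ch.C ≤ Ch.C * CK ^ 4 := le_mul_of_one_le_right (by linarith) hCK4
  obtain ⟨y, hD, hyu, hPi, hy, _⟩ := win_zwin Ch hCK1 hCK (w := w) (u := u) (by linarith)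
    (by linarith) (by nlinarith) hu h0
  set a := Real.exp (w.re / 4) with ha
  have ha8 : 8 ≤ a := by nlinarith
  have ha0 : 0 < a := by linarith
  have ha1 : 1 ≤ a := by linarith
  have hPi' := hPi
  set X := Ch.X w y with hX
  set p' := henInv c b (X, y) with hp'
  have hhen : hen c b p' = (X, y) := hen_henInv c b hb0 _
  have hp1 : p'.1 = y := rfl
  have hGm : Gm c b p' = 0 := by
    rw [hp', Gm_henInv c b hb]
    have : Gm c b (X, y) = 0 := by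
      rw [← hPi]
      exact h0
    rw [this, mul_zero]
  have hGp : Gp c b p' = w.re / 2 := by
    have h1 := Gp_hen c b hb p'
    have h2 := Ch.Pi_Gp w u hre
    rw [hPi, ← hhen, h1] at h2
    linarith
  obtain ⟨hVP, hYK⟩ := hCK p' hGm (by rw [hGp]; exact hSK)
  set Y := p'.2 with hYdef
  rw [hp1] at hYK
  have hVP1 : 3 + ‖c‖ < ‖y‖ := hVP.1
  have hVP2 : ‖Y‖ < ‖y‖ := hVP.2
  have hc := norm_nonneg c
  have hypos : 0 < ‖y‖ := by linarith
  have hyl : 16 * CK ^ 2 < ‖y‖ := by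
    have h1 := hCG p'
    have h2 : ‖p'‖ = ‖y‖ := by
      rw [Prod.norm_def, hp1]
      exact max_eq_left hVP2.le
    rw [hGp, h2, max_eq_right (by linarith)] at h1
    have h3 : Real.log (16 * CK ^ 2) < Real.log ‖y‖ := by linarith
    exact (Real.log_lt_log_iff (by positivity) hypos).1 h3
  have hsq : 4 * CK ≤ Real.sqrt ‖y‖ := by
    apply Real.le_sqrt_of_sq_le
    have : (4 * CK) ^ 2 = 16 * CK ^ 2 := by ring
    rw [this]
    exact hyl.le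
  have hY4 : ‖Y‖ ≤ ‖y‖ / 4 := by
    refine hYK.trans ?_
    have h1 := Real.mul_self_sqrt hypos.le
    have h2 := mul_le_mul_of_nonneg_right hsq (Real.sqrt_nonneg ‖y‖)
    rw [h1] at h2
    linarith
  obtain ⟨w', hw're, hD', hpw⟩ := Ch.cover p' hVP (by rw [hGp]; exact hS) (by rw [hp1]; exact hY4)
  rw [hGp] at hw're
  change (w', Y) ∈ DD Ch.S at hD'
  change p' = (Ch.X w' Y, Y) at hpw
  set u' := Ch.Uc w' Y with hu'
  have hPiw' : Ch.Pi w' u' = p' := by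
    rw [hu', Ch.Pi_win w' Y hD', ← hpw]
  have hw'pos : 0 < w'.re := by rw [hw're]; linarith
  have hstep := Ch.Pi_step w' u' hw'pos
  rw [hPiw', hhen] at hstep
  -- sizes
  have e2 : Real.exp w'.re = a ^ 2 := by
    rw [ha, win_exp, hw're]; congr 1; push_cast; ring
  have em : Real.exp (-w'.re) = (a ^ 2)⁻¹ := by rw [Real.exp_neg, e2]
  have hYn := norm_nonneg Y
  have hYs : ‖Y‖ ≤ 2 * CK ^ 2 * a := by
    have s1 : Real.sqrt ‖y‖ ≤ 2 * CK * a := by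
      apply Real.sqrt_le_iff.2
      refine ⟨by positivity, hy.trans ?_⟩
      have : (2 * CK * a) ^ 2 = 2 * CK * (2 * CK) * a ^ 2 := by ring
      rw [this]
      apply mul_le_mul_of_nonneg_right _ (by positivity)
      nlinarith
    calc ‖Y‖ ≤ CK * Real.sqrt ‖y‖ := hYK
      _ ≤ CK * (2 * CK * a) := mul_le_mul_of_nonneg_left s1 (by linarith)
      _ = _ := by ring
  have hUe := Ch.U_est w' Y hD'
  rw [em, ← div_eq_mul_inv] at hUe
  have hu'n : ‖u'‖ ≤ 7 * Ch.C * CK ^ 4 * a ^ 3 := by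
    have s1 : ‖u'‖ ≤ a ^ 2 * ‖Y‖ + Ch.C * (1 + ‖Y‖ ^ 2) / a ^ 2 := by
      calc ‖u'‖ = ‖exp w' * Y + (Ch.Uc w' Y - exp w' * Y)‖ := by rw [hu']; congr 1; ring
        _ ≤ ‖exp w' * Y‖ + ‖Ch.Uc w' Y - exp w' * Y‖ := norm_add_le _ _
        _ ≤ _ := by rw [norm_mul, Complex.norm_exp, e2]; linarith
    have s2 : a ^ 2 * ‖Y‖ ≤ 2 * CK ^ 2 * a ^ 3 := by
      calc a ^ 2 * ‖Y‖ ≤ a ^ 2 * (2 * CK ^ 2 * a) :=
            mul_le_mul_of_nonneg_left hYs (by positivity)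
        _ = _ := by ring
    have s3 : Ch.C * (1 + ‖Y‖ ^ 2) / a ^ 2 ≤ 5 * Ch.C * CK ^ 4 := by
      rw [div_le_iff₀ (by positivity)]
      have t1 : ‖Y‖ ^ 2 ≤ (2 * CK ^ 2 * a) ^ 2 := pow_le_pow_left₀ hYn hYs 2
      have t2 : (2 * CK ^ 2 * a) ^ 2 = 4 * CK ^ 4 * a ^ 2 := by ring
      have t3 : 1 ≤ CK ^ 4 * a ^ 2 := one_le_mul_of_one_le_of_one_le (one_le_pow₀ hCK1)
        (one_le_pow₀ ha1)
      calc Ch.C * (1 + ‖Y‖ ^ 2) ≤ Ch.C * (5 * (CK ^ 4 * a ^ 2)) := by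
            apply mul_le_mul_of_nonneg_left _ (by linarith)
            linarith
        _ = _ := by ring
    have s4 : 5 * Ch.C * CK ^ 4 ≤ 5 * Ch.C * CK ^ 4 * a ^ 3 :=
      le_mul_of_one_le_right (by positivity) (one_le_pow₀ ha1)
    have s5 : 2 * CK ^ 2 ≤ 2 * Ch.C * CK ^ 4 := by
      have : CK ^ 2 ≤ CK ^ 4 := pow_le_pow_right₀ hCK1 (by norm_num)
      have : CK ^ 4 ≤ Ch.C * CK ^ 4 := le_mul_of_one_le_left (by positivity) hC
      linarith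
    have s6 : 2 * CK ^ 2 * a ^ 3 ≤ 2 * Ch.C * CK ^ 4 * a ^ 3 :=
      mul_le_mul_of_nonneg_right s5 (by positivity)
    linarith
  have hκn : ‖Ch.κ w'‖ ≤ a ^ 6 + Ch.C * a ^ 4 := by
    have s1 := Ch.κ_lead w' hw'pos.le
    have s2 : ‖exp (3 * w')‖ = a ^ 6 := by
      rw [Complex.norm_exp, ha, win_exp]
      congr 1
      have : (3 * w').re = 3 * w'.re := by simp
      rw [this, hw're]
      push_cast
      ring
    have s3 : Real.exp (2 * w'.re) = a ^ 4 := by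
      rw [ha, win_exp, hw're]; congr 1; push_cast; ring
    rw [s3] at s1
    calc ‖Ch.κ w'‖ = ‖(Ch.κ w' - exp (3 * w')) + exp (3 * w')‖ := by rw [sub_add_cancel]
      _ ≤ ‖Ch.κ w' - exp (3 * w')‖ + ‖exp (3 * w')‖ := norm_add_le _ _
      _ ≤ _ := by rw [s2]; linarith
  have h2re : (2 * w').re = w.re := by
    have : (2 * w').re = 2 * w'.re := by simp
    rw [this, hw're]
    ring
  have hv : ‖(b / 2) * u' + Ch.κ w'‖ ≤ Real.exp (2 * (2 * w').re) / 4 := by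
    have s0 : Real.exp (2 * (2 * w').re) = a ^ 8 := by
      rw [h2re, ha, win_exp]; congr 1; push_cast; ring
    rw [s0]
    have s1 : ‖(b / 2) * u'‖ ≤ a ^ 4 / 16 := by
      rw [norm_mul, norm_div, hb]
      have t1 : ‖(2 : ℂ)‖ = 2 := by simp
      rw [t1]
      have t2 : 7 * Ch.C * CK ^ 4 * a ^ 3 ≤ a / 8 * a ^ 3 :=
        mul_le_mul_of_nonneg_right (by linarith) (by positivity)
      have t3 : a / 8 * a ^ 3 = a ^ 4 / 8 := by ring
      linarith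
    have s2 : Ch.C * a ^ 4 ≤ a ^ 8 / 56 := by
      have t1 : Ch.C ≤ a ^ 4 / 56 := by
        have := win_le_pow ha1 4 (by norm_num)
        linarith
      have t2 := mul_le_mul_of_nonneg_right t1 (show 0 ≤ a ^ 4 by positivity)
      have t3 : a ^ 4 / 56 * a ^ 4 = a ^ 8 / 56 := by ring
      linarith
    have s3 : a ^ 6 ≤ a ^ 8 / 64 := by
      have t1 : 64 ≤ a ^ 2 := by nlinarith
      have t2 := mul_le_mul_of_nonneg_right t1 (show 0 ≤ a ^ 6 by positivity)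
      have t3 : a ^ 2 * a ^ 6 = a ^ 8 := by ring
      linarith
    have s4 : a ^ 4 ≤ a ^ 8 := pow_le_pow_right₀ ha1 (by norm_num)
    have s5 := norm_add_le ((b / 2) * u') (Ch.κ w')
    have s6 : 0 < a ^ 8 := by positivity
    linarith
  obtain ⟨y1, hy1, hUy1⟩ := Ch.U_surj (2 * w') _ (by rw [h2re]; linarith) hv
  have hD1 : (2 * w', y1) ∈ DD Ch.S := ⟨by
    change Ch.S < (2 * w').re
    rw [h2re]; linarith, hy1⟩
  have hPi1 := Ch.Pi_win (2 * w') y1 hD1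
  rw [hUy1, ← hstep] at hPi1
  have hyy : y = y1 := congrArg Prod.snd hPi1
  have hXX : X = Ch.X (2 * w') y1 := congrArg Prod.fst hPi1
  rw [← hyy] at hXX hD1
  have hexp := Ch.X_inj (2 * w') w y hD1 hD (hXX.symm.trans hX)
  obtain ⟨n, hn⟩ := Complex.exp_eq_exp_iff_exists_int.1 hexp
  -- common part
  have key : ∀ e : ℂ, ∀ j : ℤ, 0 < (w / 2 + e).re → w' = (w / 2 + e) + j * (2 * Real.pi * I) →
      (∀ v, Ch.Pi (2 * (w / 2 + e)) v = Ch.Pi w v) →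
      GG Ch (w / 2 + e) u' = 0 ∧ u = (b / 2) * u' + Ch.κ (w / 2 + e) := by
    intro e j hpos hw' hper
    have h1 : Ch.Pi (w / 2 + e) u' = p' := by
      rw [← hPiw', hw', win_per_int Ch hpos]
    refine ⟨by rw [GG, h1, hGm], ?_⟩
    have h2 := Ch.Pi_step (w / 2 + e) u' hpos
    rw [h1, hhen, hper, ← hPi] at h2
    exact Ch.Pi_inj w hre h2
  rcases Int.even_or_odd' n with ⟨j, hj | hj⟩
  · refine ⟨0, Or.inl rfl, u', ?_⟩
    have hw' : w' = (w / 2 + 0) + j * (2 * Real.pi * I) := by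
      have : w' = (2 * w') / 2 := by ring
      rw [this, hn, hj]
      push_cast
      ring
    have hpos : 0 < (w / 2 + 0).re := by
      rw [add_zero, Complex.div_ofNat_re]
      linarith
    obtain ⟨k1, k2⟩ := key 0 j hpos hw' (fun v => by
      congr 1
      ring)
    exact ⟨k1, hu'n, k2⟩
  · refine ⟨Real.pi * I, Or.inr rfl, u', ?_⟩
    have hw' : w' = (w / 2 + Real.pi * I) + j * (2 * Real.pi * I) := by
      have : w' = (2 * w') / 2 := by ring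
      rw [this, hn, hj]
      push_cast
      ring
    have hpos : 0 < (w / 2 + Real.pi * I).re := by
      rw [add_re, Complex.div_ofNat_re, re_ofReal_mul, I_re, mul_zero, add_zero]
      linarith
    obtain ⟨k1, k2⟩ := key (Real.pi * I) j hpos hw' (fun v => by
      have : 2 * (w / 2 + Real.pi * I) = w + 2 * Real.pi * I := by ring
      rw [this, Ch.Pi_per w v hre])
    exact ⟨k1, hu'n, k2⟩

theorem exists_win {c b : ℂ} (hb : ‖b‖ = 1) (Ch : Chart c b) : Nonempty (Win Ch) := by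
  obtain ⟨CM0, hCM0⟩ := Gm_VM c b hb
  obtain ⟨SK, CK0, hCK0⟩ := Km_high c b hb
  obtain ⟨CG, hCG⟩ := Gp_le c b hb
  have hc := norm_nonneg c
  have hC := Ch.hC
  set CM := max CM0 1 with hCM
  set CK := max CK0 1 with hCKd
  have hCM1 : 1 ≤ CM := le_max_right _ _
  have hCK1 : 1 ≤ CK := le_max_right _ _
  have hCM' : ∀ p : ℂ × ℂ, 3 + ‖c‖ < ‖p.2‖ → ‖p.1‖ < ‖p.2‖ →
      0 < Gm c b p ∧ |Gm c b p - Real.log ‖p.2‖| ≤ CM * (1 + ‖p.1‖) / ‖p.2‖ ^ 2 := by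
    intro p h1 h2
    obtain ⟨k1, k2⟩ := hCM0 p h1 h2
    refine ⟨k1, k2.trans ?_⟩
    have : CM0 ≤ CM := le_max_left _ _
    have h3 : 0 ≤ 1 + ‖p.1‖ := by positivity
    gcongr
  have hCK : ∀ p : ℂ × ℂ, Gm c b p = 0 → SK < Gp c b p →
      p ∈ VP c ∧ ‖p.2‖ ≤ CK * Real.sqrt ‖p.1‖ := by
    intro p h1 h2
    obtain ⟨k1, k2⟩ := hCK0 p h1 h2
    refine ⟨k1, k2.trans ?_⟩
    exact mul_le_mul_of_nonneg_right (le_max_left _ _) (Real.sqrt_nonneg _)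
  have hCK4 : 1 ≤ CK ^ 4 := one_le_pow₀ hCK1
  have hCC : Ch.C ≤ Ch.C * CK ^ 4 := le_mul_of_one_le_right (by linarith) hCK4
  set C := 48 + 2560 * CM + 68 * Ch.C + (3 + ‖c‖) + 7 * Ch.C * CK ^ 4 with hCdef
  have hC1 : 1 ≤ C := by rw [hCdef]; linarith
  set S := max (max Ch.S SK) (max (CG + Real.log (16 * CK ^ 2)) (4 * Real.log (8 * C))) with hSdef
  have hS1 : Ch.S ≤ S := (le_max_left _ _).trans (le_max_left _ _)
  have hS2 : SK ≤ S := (le_max_right _ _).trans (le_max_left _ _)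
  have hS3 : CG + Real.log (16 * CK ^ 2) ≤ S := (le_max_left _ _).trans (le_max_right _ _)
  have hS4 : 4 * Real.log (8 * C) ≤ S := (le_max_right _ _).trans (le_max_right _ _)
  have hSpos : 0 < S := by
    have := Ch.hS
    linarith
  have hbig : ∀ t : ℝ, S ≤ t → 8 * C ≤ Real.exp (t / 4) := by
    intro t ht
    rw [← Real.log_le_iff_le_exp (by linarith)]
    linarith
  have p7 : ∀ t : ℝ, Real.exp (7 / 4 * t) = Real.exp (t / 4) ^ 7 := by
    intro t; rw [win_exp]; congr 1; push_cast; ring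
  have p6 : ∀ t : ℝ, Real.exp (3 / 2 * t) = Real.exp (t / 4) ^ 6 := by
    intro t; rw [win_exp]; congr 1; push_cast; ring
  have p3 : ∀ t : ℝ, Real.exp (3 / 4 * t) = Real.exp (t / 4) ^ 3 := by
    intro t; rw [win_exp]; congr 1; push_cast; ring
  have p8 : ∀ t : ℝ, Real.exp (2 * t) = Real.exp (t / 4) ^ 8 := by
    intro t; rw [win_exp]; congr 1; push_cast; ring
  refine ⟨⟨S, C, hS1, hC1, ?_, ?_, ?_, ?_⟩⟩
  · intro t ht
    have h1 := hbig t ht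
    rw [p6, p7, p8]
    set a := Real.exp (t / 4) with ha
    have ha0 : 0 < a := Real.exp_pos _
    constructor
    · calc 8 * C * a ^ 6 ≤ a * a ^ 6 := mul_le_mul_of_nonneg_right h1 (by positivity)
        _ = a ^ 7 := by ring
    · calc 8 * a ^ 7 ≤ a * a ^ 7 := mul_le_mul_of_nonneg_right (by linarith) (by positivity)
        _ = a ^ 8 := by ring
  · intro w u hw h1 h2
    have hb1 := hbig w.re hw.le
    rw [p7] at h1 h2
    have := win_g4 hb Ch hCM1 hCM' (w := w) (u := u) (by linarith)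
      (by rw [hCdef] at hb1; linarith) h1 h2
    refine this.trans ?_
    have e : Real.exp (-w.re / 4) = (Real.exp (w.re / 4))⁻¹ := by
      rw [← Real.exp_neg]; congr 1; ring
    rw [e, ← div_eq_mul_inv]
    apply div_le_div_of_nonneg_right _ (Real.exp_pos _).le
    rw [hCdef]
    linarith
  · intro w u hw h1 h2
    have hb1 := hbig w.re hw.le
    rw [p7] at h1
    obtain ⟨y, _, _, _, _, hfin⟩ := win_zwin Ch hCK1 hCK (w := w) (u := u) (by linarith)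
      (by linarith) (by rw [hCdef] at hb1; linarith) h1 h2
    refine hfin.trans ?_
    rw [p6]
    apply mul_le_mul_of_nonneg_right _ (by positivity)
    have : CK ^ 2 ≤ CK ^ 4 := pow_le_pow_right₀ hCK1 (by norm_num)
    have h7 : 7 * Ch.C * CK ^ 2 ≤ 7 * Ch.C * CK ^ 4 :=
      mul_le_mul_of_nonneg_left this (by linarith)
    rw [hCdef]
    linarith
  · intro w u hw h1 h2
    have hb1 := hbig w.re (by linarith)
    rw [p7] at h1
    obtain ⟨e, he, u', k1, k2, k3⟩ := win_zsplit hb Ch hCK1 hCK hCG (w := w) (u := u)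
      (by linarith) (by linarith) (by linarith) (by rw [hCdef] at hb1; linarith) h1 h2
    refine ⟨e, he, u', k1, k2.trans ?_, k3⟩
    rw [p3]
    apply mul_le_mul_of_nonneg_right _ (by positivity)
    rw [hCdef]
    linarith

end H6ea4aa
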